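import Pool.Agent.YTD.Ver

/-!
For finitely generated equivariant filtrations with vanishing Futaki invariant the weights of the
generators are bounded by a linear function, with equality at both ends.
-/

namespace Pool.Agent.YTD

open Finset Module MvPolynomial Filter

variable {K : Type} [Field K] [Algebra ℂ K]
variable {T : Datum K} {q : ℕ} {D₀ : T.X.Pt →₀ ℤ} {r : ℕ}

theorem Filt.index (χ : Filt T q D₀ r) {N : ℕ} {l : ℤ} {f : MvPolynomial (Fin 4) K}
    (hf : f ∈ χ.F N l) {e : Fin 4 →₀ ℕ} (he : f.coeff e ≠ 0) :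
    ∃ j : ℤ, |j| ≤ 5 * (r * q : ℕ) * N ∧
      (e 0 : ℤ) + e 1 = 25 * (r * q : ℕ) * N + 3 * j ∧
      (e 2 : ℤ) + e 3 = 25 * (r * q : ℕ) * N - 3 * j ∧ jr e = j ∧
      f.coeff e ∈ T.V (r * q) (r • D₀) N j := by
  have h1 := χ.le N l hf
  rw [← T.sec_mul] at h1
  obtain ⟨j, h2, h3, h4, h5⟩ := h1 e he
  exact ⟨j, h2, h3, h4, jr_of h3 h4, h5⟩

theorem Filt.jr_le (χ : Filt T q D₀ r) {N : ℕ} {l : ℤ} {f : MvPolynomial (Fin 4) K}
    (hf : f ∈ χ.F N l) {e : Fin 4 →₀ ℕ} (he : f.coeff e ≠ 0) :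
    |jr e| ≤ (5 * (r * q) : ℝ) * N := by
  obtain ⟨j, h1, _, _, h2, _⟩ := χ.index hf he
  rw [h2]
  have : |(j : ℝ)| ≤ 5 * (r * q : ℕ) * N := by exact_mod_cast h1
  push_cast at this
  exact this

theorem Filt.w_nonpos (χ : Filt T q D₀ r) {l : ℤ} {f : MvPolynomial (Fin 4) K}
    (hf : f ∈ χ.F 0 l) (h0 : f ≠ 0) : l ≤ 0 := by
  by_contra h
  push Not at h
  have h1 := χ.F_of_gt (N := 0) (l := l) (by simpa using h)
  rw [h1, Submodule.mem_bot] at hf
  exact h0 hf

theorem Filt.pow_mem (χ : Filt T q D₀ r) {N : ℕ} {l : ℤ} {f : MvPolynomial (Fin 4) K}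
    (hf : f ∈ χ.F N l) {m : ℕ} (hm : 0 < m) : f ^ m ∈ χ.F (N * m) (l * m) := by
  induction m with
  | zero => exact (lt_irrefl _ hm).elim
  | succ m ih =>
    rcases Nat.eq_zero_or_pos m with rfl | hm
    · simpa using hf
    · have := χ.mul _ _ _ _ _ (ih hm) _ hf
      rw [pow_succ, Nat.mul_succ]
      push_cast
      rw [mul_add, mul_one]
      exact this

/-- elements of extreme index. -/
theorem Filt.exists_extreme (χ : Filt T q D₀ r) (hr : 0 < r) (hq : 0 < q)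
    (hD : T.X.deg D₀ = 105 * T.t * q) {j : ℤ} {N : ℕ} (hN : 4 ≤ N)
    (hj : |j| ≤ 5 * (r * q : ℕ) * N) :
    ∃ c : K, c ≠ 0 ∧ c ∈ T.V (r * q) (r • D₀) N j ∧
      monomial (expo (r * q) N j 0 0) c ∈ χ.F N (-(χ.lam * N)) := by
  have h1 : T.X.L (T.dvs (r * q) (r • D₀) N j) ≠ ⊥ :=
    T.X.L_ne_bot (Graded.deg_ge (Filt.deg_smul hD) (Nat.mul_pos hr hq) hN hj)
  obtain ⟨c, hc, hc0⟩ := (Submodule.ne_bot_iff _).1 h1
  refine ⟨c, hc0, hc, ?_⟩
  rw [(χ.lam_spec N).1, ← T.sec_mul]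
  apply T.monomial_mem_sec _ hc
  rw [inR_iff hj]
  exact ⟨Nat.zero_le _, Nat.zero_le _⟩

namespace TestConf

variable (χ : TestConf T q D₀ r)

/-- a generator of extreme index. -/
theorem exists_end (hr : 0 < r) (hq : 0 < q) (hD : T.X.deg D₀ = 105 * T.t * q) {k : ℕ}
    {n : Fin k → ℕ} {w : Fin k → ℤ} {f : Fin k → MvPolynomial (Fin 4) K}
    (hf : ∀ i, f i ∈ χ.F (n i) (w i))
    (hspan : ∀ N l, χ.F N l ≤ Submodule.span ℂ {g | ∃ m : Fin k → ℕ,
      ∑ i, m i * n i = N ∧ l ≤ ∑ i, m i * w i ∧ g = ∏ i, f i ^ m i})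
    (ε : ℤ) (hε : ε = 1 ∨ ε = -1) :
    ∃ p ∈ (Finset.univ : Finset (Fin k)).sigma fun i => (f i).support,
      0 < (n p.1 : ℝ) ∧ jr p.2 = ε * ((5 * (r * q) : ℝ) * n p.1) := by
  classical
  obtain ⟨P₀⟩ := T.exists_pt
  by_contra hcon
  push Not at hcon
  set s := (Finset.univ : Finset (Fin k)).sigma fun i => (f i).support with hs
  have hεr : (ε : ℝ) * ε = 1 := by
    rcases hε with h | h <;> rw [h] <;> norm_num
  have hεa : |(ε : ℝ)| = 1 := by
    rcases hε with h | h <;> rw [h] <;> norm_num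
  have hlt : ∀ p ∈ s, 0 < (n p.1 : ℝ) → ε * jr p.2 < (5 * (r * q) : ℝ) * n p.1 := by
    intro p hp hn
    have h1 := hcon p hp hn
    have h2 := χ.jr_le (hf p.1) (MvPolynomial.mem_support_iff.1 (Finset.mem_sigma.1 hp).2)
    have h3 : |(ε : ℝ) * jr p.2| ≤ (5 * (r * q) : ℝ) * n p.1 := by
      rw [abs_mul, hεa, one_mul]
      exact h2
    refine lt_of_le_of_ne (abs_le.1 h3).2 ?_
    intro h4
    apply h1
    rw [← h4, ← mul_assoc, hεr, one_mul]
  obtain ⟨δ, hδ, hδ'⟩ : ∃ δ : ℝ, 0 < δ ∧ ∀ p ∈ s,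
      ε * jr p.2 ≤ ((5 * (r * q) : ℝ) - δ) * n p.1 := by
    set s' := s.filter fun p => 0 < (n p.1 : ℝ) with hs'
    have hz : ∀ p ∈ s, ¬ 0 < (n p.1 : ℝ) → ∀ δ : ℝ, ε * jr p.2 ≤ ((5 * (r * q) : ℝ) - δ) * n p.1 := by
      intro p hp hn δ
      have h0 : (n p.1 : ℝ) = 0 := le_antisymm (not_lt.1 hn) (Nat.cast_nonneg _)
      have h2 := χ.jr_le (hf p.1) (MvPolynomial.mem_support_iff.1 (Finset.mem_sigma.1 hp).2)
      rw [h0, mul_zero] at h2
      rw [abs_nonpos_iff.1 h2, h0]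
      simp
    rcases s'.eq_empty_or_nonempty with h | h
    · refine ⟨1, one_pos, fun p hp => hz p hp (fun hn => ?_) 1⟩
      have : p ∈ s' := Finset.mem_filter.2 ⟨hp, hn⟩
      rw [h] at this
      simp at this
    · obtain ⟨p₀, hp₀, hmin⟩ := s'.exists_min_image
        (fun p => ((5 * (r * q) : ℝ) * n p.1 - ε * jr p.2) / n p.1) h
      obtain ⟨hp₀s, hp₀n⟩ := Finset.mem_filter.1 hp₀
      refine ⟨((5 * (r * q) : ℝ) * n p₀.1 - ε * jr p₀.2) / n p₀.1,
        div_pos (by have := hlt p₀ hp₀s hp₀n; linarith) hp₀n, fun p hp => ?_⟩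
      by_cases hn : 0 < (n p.1 : ℝ)
      · have h1 := hmin p (Finset.mem_filter.2 ⟨hp, hn⟩)
        rw [le_div_iff₀ hn] at h1
        linarith
      · exact hz p hp hn _
  have hgen : ∀ i, f i ∈ LP P₀ ((5 * (r * q) : ℝ) - δ) (-ε) 0 0 le_rfl (n i) (w i) := by
    intro i e h0
    have h1 := hδ' ⟨i, e⟩ (Finset.mem_sigma.2 ⟨Finset.mem_univ _,
      MvPolynomial.mem_support_iff.2 h0⟩)
    simp only at h1
    linarith
  set j : ℤ := ε * (5 * (r * q : ℕ) * (4 : ℕ)) with hj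
  have hjabs : |j| ≤ 5 * (r * q : ℕ) * (4 : ℕ) := by
    rw [hj, abs_mul]
    have : |ε| = 1 := by rcases hε with h | h <;> rw [h] <;> norm_num
    rw [this, one_mul, abs_of_nonneg (by positivity)]
  obtain ⟨c, hc0, _, hc⟩ := χ.exists_extreme hr hq hD (N := 4) le_rfl hjabs
  have h1 := χ.le_LP hspan (C := 0) (le_refl (0 : ℝ)) hgen 4 _ hc (expo (r * q) 4 j 0 0)
  rw [coeff_monomial, if_pos rfl] at h1
  have h2 := h1 hc0
  have hin : InR (r * q) 4 j 0 0 := by
    rw [inR_iff hjabs]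
    exact ⟨Nat.zero_le _, Nat.zero_le _⟩
  have h3 : jr (expo (r * q) 4 j 0 0) = j := jr_of (q := r * q) (N := 4)
    (expo_sum_x hin) (expo_sum_y hin)
  rw [h3, hj] at h2
  push_cast at h2
  have h4 : -(ε : ℝ) * (ε * (5 * (r * q) * 4)) = -(5 * (r * q) * 4) := by
    rw [← mul_assoc, neg_mul, hεr]
    ring
  rw [h4] at h2
  linarith

/-- The weights of the generators are bounded by a linear function, with equality at both ends. -/
theorem affine (hχ : χ.Equivariant) (hr : 0 < r) (hq : 0 < q) (hD : T.X.deg D₀ = 105 * T.t * q)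
    {a₀ b₀ c₀ : ℝ} (hE : χ.Expansion a₀ 0 b₀ 0 c₀) {k : ℕ}
    {n : Fin k → ℕ} {w : Fin k → ℤ} {f : Fin k → MvPolynomial (Fin 4) K}
    (hf : ∀ i, f i ∈ χ.F (n i) (w i))
    (hspan : ∀ N l, χ.F N l ≤ Submodule.span ℂ {g | ∃ m : Fin k → ℕ,
      ∑ i, m i * n i = N ∧ l ≤ ∑ i, m i * w i ∧ g = ∏ i, f i ^ m i}) :
    ∃ A B : ℝ, (∀ i e, (f i).coeff e ≠ 0 → (w i : ℝ) ≤ A * n i + B * jr e) ∧
      (∃ i e, (f i).coeff e ≠ 0 ∧ 0 < n i ∧ jr e = -((5 * (r * q) : ℝ) * n i) ∧
        (w i : ℝ) = A * n i + B * jr e) ∧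
      (∃ i e, (f i).coeff e ≠ 0 ∧ 0 < n i ∧ jr e = (5 * (r * q) : ℝ) * n i ∧
        (w i : ℝ) = A * n i + B * jr e) := by
  classical
  obtain ⟨P₀⟩ := T.exists_pt
  set s := (Finset.univ : Finset (Fin k)).sigma fun i => (f i).support with hs
  have hmem : ∀ p ∈ s, (f p.1).coeff p.2 ≠ 0 := fun p hp =>
    MvPolynomial.mem_support_iff.1 (Finset.mem_sigma.1 hp).2
  have hrq : (0 : ℝ) < 5 * (r * q) := by positivity
  have hL : ∃ p ∈ s, 0 < (n p.1 : ℝ) ∧ jr p.2 = -((5 * (r * q) : ℝ) * n p.1) := by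
    obtain ⟨p, hp, h1, h2⟩ := χ.exists_end hr hq hD hf hspan (-1) (Or.inr rfl)
    refine ⟨p, hp, h1, ?_⟩
    rw [h2]
    push_cast
    ring
  have hR : ∃ p ∈ s, 0 < (n p.1 : ℝ) ∧ jr p.2 = (5 * (r * q) : ℝ) * n p.1 := by
    obtain ⟨p, hp, h1, h2⟩ := χ.exists_end hr hq hD hf hspan 1 (Or.inl rfl)
    refine ⟨p, hp, h1, ?_⟩
    rw [h2]
    push_cast
    ring
  rcases hull s (fun p => (n p.1 : ℝ)) (fun p => jr p.2) (fun p => (w p.1 : ℝ)) hrq
    (fun p _ => Nat.cast_nonneg _) (fun p hp => χ.jr_le (hf p.1) (hmem p hp)) (by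
      intro p hp h0
      have h0' : n p.1 = 0 := by exact_mod_cast h0
      have h1 := hf p.1
      rw [h0'] at h1
      have h2 : f p.1 ≠ 0 := by
        intro h
        apply hmem p hp
        rw [h, coeff_zero]
      exact_mod_cast χ.w_nonpos h1 h2) hL hR with h | h
  · obtain ⟨A, B, h1, ⟨p, hp, h2, h3, h4⟩, ⟨p', hp', h2', h3', h4'⟩⟩ := h
    refine ⟨A, B, fun i e he => h1 ⟨i, e⟩ (Finset.mem_sigma.2 ⟨Finset.mem_univ _,
      MvPolynomial.mem_support_iff.2 he⟩), ⟨p.1, p.2, hmem p hp, by exact_mod_cast h2, h3, h4⟩,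
      ⟨p'.1, p'.2, hmem p' hp', by exact_mod_cast h2', h3', h4'⟩⟩
  · exfalso
    obtain ⟨A, B, δ, hδ, hall, b, hb, hbn, hbx, hbw, hall2⟩ := h
    set m := n b.1 with hm
    have hmpos : 0 < m := by exact_mod_cast hbn
    have hmr : (0 : ℝ) < m := by exact_mod_cast hmpos
    obtain ⟨x, hx1, hx2, hx3, hx4, _⟩ := χ.index (hf b.1) (hmem b hb)
    rw [hx4] at hbx hbw
    set χ' := χ.toFilt.ver m with hχ'
    have hq' : 0 < r * m * q := by positivity
    have hD' : T.X.deg ((r * m) • D₀) = 105 * T.t * ((r * m * q : ℕ) : ℤ) := Filt.deg_smul hD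
    have hS : χ'.graded.TotExp (b₀ * m ^ 5 + χ'.lam * (a₀ * m ^ 4)) 0 := by
      have := χ'.totExp P₀ (χ.ver_expansion hmpos hE)
      simpa using this
    have hx : |x| < 5 * ((r * m * q : ℕ) : ℤ) := by
      have h1 : |(x : ℝ)| < ((5 * (r * m * q : ℕ) : ℤ) : ℝ) := by
        push_cast
        have : (5 * (r * q) : ℝ) * (m : ℝ) = 5 * (r * m * q) := by ring
        rw [← this]
        exact hbx
      exact_mod_cast h1
    -- bounds for all elements
    have gen1 : ∀ (N : ℕ) (l : ℤ), ∀ g ∈ χ.F N l, ∀ e, g.coeff e ≠ 0 →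
        (l : ℝ) ≤ A * N + B * jr e := by
      intro N l g hg e he
      have hgen : ∀ i, f i ∈ LP P₀ A B 1 0 le_rfl (n i) (w i) := by
        intro i e h0
        have h1 := hall ⟨i, e⟩ (Finset.mem_sigma.2 ⟨Finset.mem_univ _,
          MvPolynomial.mem_support_iff.2 h0⟩)
        linarith
      have := χ.le_LP hspan zero_le_one hgen N l hg e he
      linarith
    have gen2 : ∀ (N : ℕ) (l : ℤ), ∀ g ∈ χ.F N l, ∀ e, g.coeff e ≠ 0 →
        (l : ℝ) ≤ (A + δ * (x / m)) * N + (B - δ) * jr e := by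
      intro N l g hg e he
      have hgen : ∀ i, f i ∈ LP P₀ (A + δ * (x / m)) (B - δ) 1 0 le_rfl (n i) (w i) := by
        intro i e h0
        have h1 := hall2 ⟨i, e⟩ (Finset.mem_sigma.2 ⟨Finset.mem_univ _,
          MvPolynomial.mem_support_iff.2 h0⟩)
        rw [hx4] at h1
        linarith
      have := χ.le_LP hspan zero_le_one hgen N l hg e he
      linarith
    refine χ'.graded.no_kink P₀ hD' hq' hS hx hδ (A := A * m + χ'.lam) (B := B) ?_ ?_ ?_
    · intro N j hN hj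
      unfold Graded.nb
      refine (av_mono hj (g := fun _ _ => (A * m + χ'.lam) * N + B * j) ?_).trans
        (le_of_eq (av_const _ _ _ _))
      intro a b' hab
      refine (χ'.nn_le_of (A := A * m) (B := B) hab ?_
        (χ'.graded.W_ne_bot hD' hq' hN hab le_rfl)).trans (le_of_eq (by ring))
      intro l g hg e he
      have := gen1 _ _ g hg e he
      push_cast at this
      linarith
    · intro N j hN hj
      unfold Graded.nb
      refine (av_mono hj (g := fun _ _ => (A * m + χ'.lam) * N + B * j - δ * (j - x * N)) ?_).trans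
        (le_of_eq (av_const _ _ _ _))
      intro a b' hab
      refine (χ'.nn_le_of (A := A * m + δ * x) (B := B - δ) hab ?_
        (χ'.graded.W_ne_bot hD' hq' hN hab le_rfl)).trans (le_of_eq (by ring))
      intro l g hg e he
      have := gen2 _ _ g hg e he
      push_cast at this
      have e1 : δ * ((x : ℝ) / m) * (m * N) = δ * x * N := by field_simp
      linarith
    · intro N hN
      have hxN : |x * N| ≤ 5 * ((r * m * q : ℕ) : ℤ) * N := by
        rw [abs_mul, abs_of_nonneg (by positivity : (0 : ℤ) ≤ N)]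
        exact mul_le_mul_of_nonneg_right hx.le (by positivity)
      unfold Graded.nb
      refine le_trans (le_of_eq (av_const (r * m * q) N (x * N)
        ((A * m + χ'.lam) * N + B * (x * N))).symm) (av_mono hxN ?_)
      intro a b' hab
      have hN0 : 0 < N := by omega
      have hst : ∀ N l, Stable (χ.F N l) := fun N l g h hg hh f hf => hχ g h hg hh N l f hf
      have h1 := (hst _ _).mono (hf b.1) b.2
      have h2 := χ.pow_mem h1 hN0
      rw [monomial_pow] at h2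
      set c := (f b.1).coeff b.2 ^ N with hc
      have hc0 : c ≠ 0 := pow_ne_zero _ (hmem b hb)
      have hin := hab
      have ex := expo_sum_x hin
      have ey := expo_sum_y hin
      have e4 : ∀ i, (N • b.2) i = N * b.2 i := fun i => by simp
      have h3 := (hst _ _).all (e' := expo (r * m * q) N (x * N) a b') h2 (by
        rw [e4, e4]
        zify
        rw [ex]
        have := hx2
        push_cast at this
        have e3 : (N : ℤ) * (b.2 0) + N * (b.2 1) = N * ((b.2 0 : ℤ) + b.2 1) := by ring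
        rw [e3, this, hm]
        push_cast
        ring) (by
        rw [e4, e4]
        zify
        rw [ey]
        have := hx3
        push_cast at this
        have e3 : (N : ℤ) * (b.2 2) + N * (b.2 3) = N * ((b.2 2 : ℤ) + b.2 3) := by ring
        rw [e3, this, hm]
        push_cast
        ring)
      have h4 := χ'.le_nn_of (N := N) (j := x * N) (a := a) (b := b') (l := w b.1 * N) hc0 h3
      refine le_trans (le_of_eq ?_) h4
      push_cast
      rw [hbw]
      ring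

end TestConf

end Pool.Agent.YTD
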