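import Pool.Agent.YTD.Coupling

/-!
Elementary lemmas on concave sequences.
-/

namespace Pool.Agent.YTD

open Finset

theorem sum_JJ (g : ℕ → ℝ) (A : ℕ) :
    ∑ a ∈ range A, ((a : ℝ) + 1) * (2 * g (a + 1) - g a - g (a + 2)) =
      (A + 1) * g A - A * g (A + 1) - g 0 := by
  induction A with
  | zero => simp
  | succ A ih =>
    rw [sum_range_succ, ih]
    push_cast
    ring

theorem sum_II (g : ℕ → ℝ) (A : ℕ) :
    ∑ a ∈ range A, ((a : ℝ) + 1) * ((A : ℝ) - a) * (2 * g (a + 1) - g a - g (a + 2)) =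
      2 * ∑ a ∈ range (A + 2), g a - (A + 2) * (g 0 + g (A + 1)) := by
  induction A with
  | zero =>
    simp [sum_range_succ]
  | succ A ih =>
    have h1 := sum_JJ g (A + 1)
    have h2 : ∑ a ∈ range (A + 1), ((a : ℝ) + 1) * (((A + 1 : ℕ) : ℝ) - a) *
        (2 * g (a + 1) - g a - g (a + 2)) =
        ∑ a ∈ range A, ((a : ℝ) + 1) * ((A : ℝ) - a) * (2 * g (a + 1) - g a - g (a + 2)) +
        ∑ a ∈ range (A + 1), ((a : ℝ) + 1) * (2 * g (a + 1) - g a - g (a + 2)) := by
      rw [sum_range_succ, sum_range_succ (fun a : ℕ => ((a : ℝ) + 1) *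
        (2 * g (a + 1) - g a - g (a + 2))), ← add_assoc, ← sum_add_distrib]
      congr 1
      · apply sum_congr rfl
        intro a _
        push_cast
        ring
      · push_cast
        ring
    rw [h2, ih, h1, sum_range_succ _ (A + 2)]
    push_cast
    ring

/-- the defect of concavity controls the variation of the slopes. -/
theorem slope_le (g : ℕ → ℝ) (A : ℕ) (hg : ∀ a < A, g a + g (a + 2) ≤ 2 * g (a + 1)) {h x n : ℕ}
    (hx : h ≤ x + 1) (hxn : x + n + h ≤ A + 1) :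
    (h : ℝ) ^ 2 * ((g (x + 1) - g x) - (g (x + n + 1) - g (x + n))) ≤
      2 * ∑ a ∈ range (A + 2), g a - (A + 2) * (g 0 + g (A + 1)) := by
  rw [← sum_II g A]
  -- telescoping
  have tel : ∀ n : ℕ, (g (x + 1) - g x) - (g (x + n + 1) - g (x + n)) =
      ∑ i ∈ range n, (2 * g (x + i + 1) - g (x + i) - g (x + i + 2)) := by
    intro n
    induction n with
    | zero => simp
    | succ n ih =>
      rw [sum_range_succ, ← ih]
      rw [show x + (n + 1) + 1 = x + n + 2 by ring, show x + (n + 1) = x + n + 1 by ring]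
      ring
  have hnn : ∀ a ∈ range A, 0 ≤ ((a : ℝ) + 1) * ((A : ℝ) - a) * (2 * g (a + 1) - g a - g (a + 2)) := by
    intro a ha
    have ha' := mem_range.1 ha
    have h1 : (a : ℝ) + 1 ≤ A := by exact_mod_cast ha'
    have h2 := hg a ha'
    apply mul_nonneg (mul_nonneg (by positivity) (by linarith)) (by linarith)
  rw [tel n, mul_sum]
  rcases Nat.eq_zero_or_pos n with rfl | hn
  · simp only [range_zero, sum_empty]
    exact sum_nonneg hnn
  rcases Nat.eq_zero_or_pos h with rfl | hh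
  · simp only [Nat.cast_zero, ne_eq, OfNat.ofNat_ne_zero, not_false_eq_true, zero_pow, zero_mul,
      sum_const_zero]
    exact sum_nonneg hnn
  have hsub : (range n).image (fun i => x + i) ⊆ range A := by
    intro a ha
    obtain ⟨i, hi, rfl⟩ := mem_image.1 ha
    have := mem_range.1 hi
    rw [mem_range]
    omega
  refine le_trans ?_ (sum_le_sum_of_subset_of_nonneg hsub (fun a ha _ => hnn a ha))
  rw [sum_image (by intro i _ j _ hij; simp only at hij; omega)]
  apply sum_le_sum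
  intro i hi
  have hi' := mem_range.1 hi
  have h2 := hg (x + i) (by omega)
  apply mul_le_mul_of_nonneg_right _ (by linarith)
  have h3 : (h : ℝ) ≤ ((x + i : ℕ) : ℝ) + 1 := by
    have : h ≤ x + i + 1 := by omega
    exact_mod_cast this
  have h4 : (h : ℝ) ≤ (A : ℝ) - ((x + i : ℕ) : ℝ) := by
    have : h + (x + i) ≤ A := by omega
    have : (h : ℝ) + ((x + i : ℕ) : ℝ) ≤ A := by exact_mod_cast this
    linarith
  rw [pow_two]
  exact mul_le_mul h3 h4 (by positivity) (by positivity)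

theorem sum_odd_even (k : ℕ) (H : ℕ → ℝ) : ∑ i ∈ range (2 * k + 1), H i =
      ∑ i ∈ range (k + 1), H (2 * i) + ∑ i ∈ range k, H (2 * i + 1) := by
  induction k with
  | zero => simp
  | succ k ih =>
    rw [show 2 * (k + 1) + 1 = 2 * k + 1 + 1 + 1 by ring, sum_range_succ, sum_range_succ, ih,
      sum_range_succ (fun i => H (2 * i)) (k + 1), sum_range_succ (fun i => H (2 * i + 1)) k]
    rw [show 2 * (k + 1) = 2 * k + 1 + 1 by ring]
    ring

/-- doubling with explicit gain. -/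
theorem avg_double {A : ℕ} {f h : ℕ → ℝ} (h0 : ∀ a ≤ A, 2 * f a ≤ h (2 * a))
    (h1 : ∀ a < A, f a + f (a + 1) ≤ h (2 * a + 1)) :
    (2 * (A : ℝ) + 1) * (avg (2 * A) h - 2 * avg A f) ≥ 2 * avg A f - f 0 - f A := by
  unfold avg
  rw [sum_odd_even]
  have s0 : ∑ i ∈ range (A + 1), 2 * f i ≤ ∑ i ∈ range (A + 1), h (2 * i) :=
    sum_le_sum fun i hi => h0 i (Nat.lt_succ_iff.1 (mem_range.1 hi))
  have s1 : ∑ i ∈ range A, (f i + f (i + 1)) ≤ ∑ i ∈ range A, h (2 * i + 1) :=
    sum_le_sum fun i hi => h1 i (mem_range.1 hi)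
  rw [← mul_sum] at s0
  rw [sum_add_distrib] at s1
  have e0 : ∑ i ∈ range (A + 1), f i = ∑ i ∈ range A, f i + f A := sum_range_succ _ _
  have e1 : ∑ i ∈ range (A + 1), f i = ∑ i ∈ range A, f (i + 1) + f 0 := sum_range_succ' _ _
  set S := ∑ i ∈ range (A + 1), f i with hS
  set S0 := ∑ i ∈ range A, f i
  set S1 := ∑ i ∈ range A, f (i + 1)
  set H0 := ∑ i ∈ range (A + 1), h (2 * i)
  set H1 := ∑ i ∈ range A, h (2 * i + 1)
  have p1 : (0 : ℝ) < (A : ℝ) + 1 := by positivity
  have p2 : (0 : ℝ) < 2 * (A : ℝ) + 1 := by positivity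
  push_cast
  have e2 : (2 * (A : ℝ) + 1) * ((H0 + H1) / (2 * A + 1) - 2 * (S / (A + 1))) =
      (H0 + H1) - (2 * A + 1) * 2 * (S / (A + 1)) := by
    field_simp
  rw [e2]
  have e3 : S = (A + 1) * (S / (A + 1)) := by field_simp
  set y := S / ((A : ℝ) + 1) with hy
  have : H0 + H1 ≥ 4 * S - f 0 - f A := by linarith
  nlinarith

theorem avg2_double {A B : ℕ} {f h : ℕ → ℕ → ℝ}
    (H : ∀ a ≤ A, ∀ a' ≤ A, ∀ b ≤ B, ∀ b' ≤ B, f a b + f a' b' ≤ h (a + a') (b + b')) :
    (2 * (A : ℝ) + 1) * (avg2 (2 * A) (2 * B) h - 2 * avg2 A B f) ≥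
      2 * avg2 A B f - avg B (f 0) - avg B (f A) := by
  unfold avg2
  apply avg_double
  · intro a ha
    have := avg_add_le (A := B) (B := B) (f := f a) (g := f a) (h := h (2 * a)) (by
      intro b hb b' hb'
      have := H a ha a ha b hb b' hb'
      rwa [← two_mul] at this)
    rw [← two_mul, ← two_mul] at this
    exact this
  · intro a ha
    have := avg_add_le (A := B) (B := B) (f := f a) (g := f (a + 1)) (h := h (2 * a + 1)) (by
      intro b hb b' hb'
      have := H a ha.le (a + 1) ha b hb b' hb'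
      rwa [show a + (a + 1) = 2 * a + 1 by ring] at this)
    rwa [← two_mul] at this

theorem avg2_comm (A B : ℕ) (f : ℕ → ℕ → ℝ) :
    avg2 A B f = avg2 B A (fun b a => f a b) := by
  have h1 := avg2_eq A B f
  have h2 := avg2_eq B A (fun b a => f a b)
  rw [sum_comm] at h1
  rw [← h2] at h1
  have p1 : (0 : ℝ) < ((A : ℝ) + 1) * (B + 1) := by positivity
  have h3 : ((A : ℝ) + 1) * (B + 1) * avg2 A B f =
      ((A : ℝ) + 1) * (B + 1) * avg2 B A (fun b a => f a b) := by
    rw [h1]; ring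
  exact mul_left_cancel₀ p1.ne' h3

end Pool.Agent.YTD
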