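import Pool.Agent.YTD.Int3Def
import Pool.Agent.YTD.SeqLem

/-!
The envelope is affine in the directions `a`, `b` with constant slopes.
-/

namespace Pool.Agent.YTD

open Finset Filter

/-- constancy from a bound by second differences. -/
theorem const_of_var {Q : ℕ} (hQ : 0 < Q) {C : ℝ} {α w : ℕ → ℤ → ℝ}
    (h1 : ∀ (k : ℕ) (j : ℤ), |j| < 5 * Q * 2 ^ k → α (k + 1) (2 * j) = α k j)
    (h2 : ∀ (k : ℕ) (j : ℤ), |j| + 1 < 5 * Q * 2 ^ k →
      4 * (Q : ℝ) * 2 ^ k * |α k (j + 1) - α k (j - 1)| ≤ 2 * w k j - w k (j - 1) - w k (j + 1))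
    (h3 : ∀ (k : ℕ) (j : ℤ), |j| < 5 * Q * 2 ^ k → 0 ≤ w k j ∧ w k j ≤ C * 2 ^ k)
    {k : ℕ} {j : ℤ} (hj : |j| < 5 * Q * 2 ^ k) : α k j = α 0 0 := by
  have hQ1 : (1 : ℤ) ≤ Q := by exact_mod_cast hQ
  -- scaling
  have hpow : ∀ (k : ℕ) (j : ℤ), |j| < 5 * Q * 2 ^ k → ∀ i : ℕ,
      |2 ^ i * j| < 5 * Q * 2 ^ (k + i) ∧ α (k + i) (2 ^ i * j) = α k j := by
    intro k j hj i
    induction i with
    | zero => simpa using hj
    | succ i ih =>
      obtain ⟨ih1, ih2⟩ := ih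
      have e : (2 : ℤ) ^ (i + 1) * j = 2 * (2 ^ i * j) := by
        rw [pow_succ]
        ring
      refine ⟨?_, ?_⟩
      · rw [e, abs_mul, abs_two, ← add_assoc, pow_succ]
        linarith
      · rw [e, ← add_assoc, h1 _ _ ih1, ih2]
  -- the estimate at a high level
  have hmain : ∀ (k : ℕ) (j₁ j₂ : ℤ), |j₁| < 5 * Q * 2 ^ k → |j₂| < 5 * Q * 2 ^ k → j₁ ≤ j₂ →
      ∀ i : ℕ, |α (k + (i + 1)) (2 ^ (i + 1) * j₂) - α (k + (i + 1)) (2 ^ (i + 1) * j₁)| ≤
        10 * C * 2 ^ k * (1 / 2) ^ i := by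
    intro k j₁ j₂ hj₁ hj₂ h12 i
    set K := k + (i + 1) with hK
    set M : ℕ := 5 * Q * 2 ^ K with hM
    have hMe : (5 * (Q : ℤ) * 2 ^ K) = (M : ℤ) := by
      rw [hM]
      push_cast
      ring
    set H : ℕ := 2 ^ i with hH
    have hH0 : 0 < H := by positivity
    have hHe : ((2 : ℤ) ^ (i + 1)) = 2 * (H : ℤ) := by
      rw [hH, pow_succ]
      push_cast
      ring
    have hMH : (M : ℤ) = 2 * H * (5 * Q * 2 ^ k) := by
      rw [← hMe, hK, pow_add, hHe]
      ring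
    have b1 : -(M : ℤ) + 2 * H ≤ 2 * H * j₁ := by
      rw [abs_lt] at hj₁
      have : -(5 * (Q : ℤ) * 2 ^ k) + 1 ≤ j₁ := by linarith [hj₁.1]
      rw [hMH]
      have hH' : (0 : ℤ) < 2 * H := by positivity
      nlinarith
    have b2 : 2 * (H : ℤ) * j₂ ≤ M - 2 * H := by
      rw [abs_lt] at hj₂
      have : j₂ ≤ 5 * (Q : ℤ) * 2 ^ k - 1 := by linarith [hj₂.2]
      rw [hMH]
      have hH' : (0 : ℤ) < 2 * H := by positivity
      nlinarith
    have b3 : 2 * (H : ℤ) * j₁ ≤ 2 * H * j₂ := mul_le_mul_of_nonneg_left h12 (by positivity)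
    -- natural coordinates
    obtain ⟨x, hx⟩ : ∃ x : ℕ, (x : ℤ) = 2 * H * j₁ - 1 + M :=
      ⟨(2 * (H : ℤ) * j₁ - 1 + M).toNat, Int.toNat_of_nonneg (by linarith)⟩
    obtain ⟨n, hn⟩ : ∃ n : ℕ, (n : ℤ) = H * (j₂ - j₁) :=
      ⟨((H : ℤ) * (j₂ - j₁)).toNat, Int.toNat_of_nonneg
        (mul_nonneg (by positivity) (by linarith))⟩
    set g : ℕ → ℝ := fun c => w K ((c : ℤ) + 1 - M) with hg
    set γ : ℕ → ℝ := fun c => α K ((c : ℤ) + 1 - M) with hγ
    obtain ⟨A, hA⟩ : ∃ A : ℕ, A + 3 = 2 * M := by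
      have h5 : 2 ≤ M := by
        have : (2 : ℤ) ≤ M := by
          rw [hMH]
          have p1 : (1 : ℤ) ≤ H := by exact_mod_cast hH0
          have p2 : (1 : ℤ) ≤ 2 ^ k := by exact_mod_cast Nat.one_le_two_pow
          have p3 : (1 : ℤ) ≤ Q * 2 ^ k := by nlinarith
          nlinarith
        exact_mod_cast this
      exact ⟨2 * M - 3, by omega⟩
    have hin : ∀ c : ℕ, c ≤ A + 1 → |(c : ℤ) + 1 - M| < 5 * Q * 2 ^ K := by
      intro c hc
      rw [hMe, abs_lt]
      constructor <;> omega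
    have hD : ∀ c < A, 4 * (Q : ℝ) * 2 ^ K * |γ (c + 2) - γ c| ≤ 2 * g (c + 1) - g c - g (c + 2) := by
      intro c hc
      have hy : |(c : ℤ) + 2 - M| + 1 < 5 * Q * 2 ^ K := by
        rw [hMe]
        have : |(c : ℤ) + 2 - M| < M - 1 := by
          rw [abs_lt]
          constructor <;> omega
        linarith
      have h4 := h2 K _ hy
      have e1 : (c : ℤ) + 2 - M + 1 = ((c + 2 : ℕ) : ℤ) + 1 - M := by push_cast; ring
      have e2 : (c : ℤ) + 2 - M - 1 = (c : ℤ) + 1 - M := by ring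
      have e3 : (c : ℤ) + 2 - M = ((c + 1 : ℕ) : ℤ) + 1 - M := by push_cast; ring
      rw [e1, e2, e3] at h4
      exact h4
    have hQK : (0 : ℝ) < 4 * (Q : ℝ) * 2 ^ K := by positivity
    have hg' : ∀ c < A, g c + g (c + 2) ≤ 2 * g (c + 1) := by
      intro c hc
      have := hD c hc
      have : 0 ≤ 4 * (Q : ℝ) * 2 ^ K * |γ (c + 2) - γ c| := by positivity
      linarith
    have hxn : x + 2 * n + H ≤ A + 1 := by
      have : (x : ℤ) + 2 * n + H ≤ A + 1 := by
        rw [hx, hn]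
        have : (A : ℤ) + 3 = 2 * M := by exact_mod_cast hA
        have hH1 : (1 : ℤ) ≤ H := by exact_mod_cast hH0
        linarith
      exact_mod_cast this
    have hHx : H ≤ x + 1 := by
      have : (H : ℤ) ≤ x + 1 := by
        rw [hx]
        linarith
      exact_mod_cast this
    -- telescoping of `γ`
    have htel : ∀ n' ≤ n, 4 * (Q : ℝ) * 2 ^ K * |γ (x + 2 * n') - γ x| ≤
        (g (x + 1) - g x) - (g (x + 2 * n' + 1) - g (x + 2 * n')) := by
      intro n' hn'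
      induction n' with
      | zero => simp
      | succ n' ih =>
        have ih' := ih (by omega)
        have d1 := hD (x + 2 * n') (by omega)
        have d2 := hg' (x + 2 * n' + 1) (by omega)
        have tri : |γ (x + 2 * n' + 2) - γ x| ≤
            |γ (x + 2 * n' + 2) - γ (x + 2 * n')| + |γ (x + 2 * n') - γ x| := by
          have := abs_add_le (γ (x + 2 * n' + 2) - γ (x + 2 * n')) (γ (x + 2 * n') - γ x)
          rw [sub_add_sub_cancel] at this
          exact this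
        have d3 := mul_le_mul_of_nonneg_left tri hQK.le
        have d4 : 4 * (Q : ℝ) * 2 ^ K * (|γ (x + 2 * n' + 2) - γ (x + 2 * n')| +
            |γ (x + 2 * n') - γ x|) = 4 * (Q : ℝ) * 2 ^ K * |γ (x + 2 * n' + 2) - γ (x + 2 * n')| +
            4 * (Q : ℝ) * 2 ^ K * |γ (x + 2 * n') - γ x| := by ring
        have e1 : x + 2 * (n' + 1) + 1 = x + 2 * n' + 1 + 2 := by ring
        have e2 : x + 2 * (n' + 1) = x + 2 * n' + 2 := by ring
        rw [e1, e2]
        rw [show x + 2 * n' + 1 + 1 = x + 2 * n' + 2 by ring] at d2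
        linarith
    have hT := htel n le_rfl
    have hsl := slope_le g A hg' (h := H) (x := x) (n := 2 * n) hHx (by linarith)
    have hgb : ∀ c ≤ A + 1, 0 ≤ g c ∧ g c ≤ C * 2 ^ K := fun c hc => h3 K _ (hin c hc)
    have hsum : 2 * ∑ a ∈ range (A + 2), g a - (A + 2) * (g 0 + g (A + 1)) ≤
        4 * M * (C * 2 ^ K) := by
      have s1 : ∑ a ∈ range (A + 2), g a ≤ ∑ _a ∈ range (A + 2), C * 2 ^ K :=
        sum_le_sum fun a ha => (hgb a (by have := mem_range.1 ha; omega)).2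
      rw [sum_const, card_range, nsmul_eq_mul] at s1
      have s2 := (hgb 0 (by omega)).1
      have s3 := (hgb (A + 1) le_rfl).1
      have s4 : (0 : ℝ) ≤ ((A : ℝ) + 2) * (g 0 + g (A + 1)) := by positivity
      have s5 : ((A + 2 : ℕ) : ℝ) ≤ 2 * M := by
        have : A + 2 ≤ 2 * M := by omega
        exact_mod_cast this
      have s6 : 0 ≤ C * 2 ^ K := le_trans s2 (hgb 0 (by omega)).2
      have s7 := mul_le_mul_of_nonneg_right s5 s6
      linarith
    have hfin : (H : ℝ) ^ 2 * (4 * (Q : ℝ) * 2 ^ K * |γ (x + 2 * n) - γ x|) ≤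
        4 * M * (C * 2 ^ K) :=
      le_trans (mul_le_mul_of_nonneg_left hT (by positivity)) (hsl.trans hsum)
    have hMr : (M : ℝ) = 5 * Q * 2 ^ K := by
      rw [hM]
      push_cast
      ring
    have hHr : (H : ℝ) = 2 ^ i := by
      rw [hH]
      push_cast
      rfl
    have hγ2 : γ (x + 2 * n) = α K (2 ^ (i + 1) * j₂) := by
      rw [hγ]
      simp only
      congr 1
      push_cast
      rw [hx, hn, hHe]
      ring
    have hγ1 : γ x = α K (2 ^ (i + 1) * j₁) := by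
      rw [hγ]
      simp only
      congr 1
      rw [hx, hHe]
      ring
    rw [hγ1, hγ2, hMr, hHr] at hfin
    set z := |α K (2 ^ (i + 1) * j₂) - α K (2 ^ (i + 1) * j₁)| with hz
    have hKe : (2 : ℝ) ^ K = 2 ^ k * (2 * 2 ^ i) := by
      rw [hK, pow_add, pow_succ]
      ring
    have p2 : (0 : ℝ) < 2 ^ i := by positivity
    have p3 : (0 : ℝ) < 2 ^ k := by positivity
    have hQr : (0 : ℝ) < Q := by exact_mod_cast hQ
    have h8 : (2 ^ i * z) * (4 * Q * 2 ^ K * 2 ^ i) ≤ (10 * C * 2 ^ k) * (4 * Q * 2 ^ K * 2 ^ i) := by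
      have l1 : (2 ^ i * z) * (4 * Q * 2 ^ K * 2 ^ i) =
          (2 ^ i) ^ 2 * (4 * (Q : ℝ) * 2 ^ K * z) := by ring
      have l2 : (10 * C * 2 ^ k) * (4 * Q * 2 ^ K * 2 ^ i) =
          4 * (5 * Q * 2 ^ K) * (C * (2 ^ k * (2 * 2 ^ i))) := by ring
      rw [l1, l2, ← hKe]
      exact hfin
    have h9 := le_of_mul_le_mul_right h8 (by positivity)
    have e : (1 / 2 : ℝ) ^ i = 1 / 2 ^ i := by rw [one_div, inv_pow, one_div]
    rw [e, mul_one_div, le_div_iff₀ p2]
    linarith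
  -- conclusion
  have heq : ∀ (k : ℕ) (j₁ j₂ : ℤ), |j₁| < 5 * Q * 2 ^ k → |j₂| < 5 * Q * 2 ^ k → j₁ ≤ j₂ →
      α k j₂ = α k j₁ := by
    intro k j₁ j₂ hj₁ hj₂ h12
    have h4 : ∀ i : ℕ, |α k j₂ - α k j₁| ≤ 10 * C * 2 ^ k * (1 / 2) ^ i := by
      intro i
      have := hmain k j₁ j₂ hj₁ hj₂ h12 i
      rw [(hpow k j₁ hj₁ (i + 1)).2, (hpow k j₂ hj₂ (i + 1)).2] at this
      exact this
    have t : Tendsto (fun i : ℕ => 10 * C * 2 ^ k * (1 / 2 : ℝ) ^ i) atTop (nhds 0) := by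
      have := (tendsto_pow_atTop_nhds_zero_of_lt_one (r := (1 / 2 : ℝ)) (by norm_num)
        (by norm_num)).const_mul (10 * C * 2 ^ k)
      simpa using this
    have h5 := ge_of_tendsto' t h4
    have h6 := abs_nonneg (α k j₂ - α k j₁)
    have h7 : |α k j₂ - α k j₁| = 0 := le_antisymm h5 h6
    exact sub_eq_zero.1 (abs_eq_zero.1 h7)
  have h0 : ∀ k : ℕ, |(0 : ℤ)| < 5 * Q * 2 ^ k := by
    intro k
    rw [abs_zero]
    positivity
  have hk0 : ∀ k : ℕ, α k 0 = α 0 0 := by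
    intro k
    induction k with
    | zero => rfl
    | succ k ih =>
      have := h1 k 0 (h0 k)
      rw [mul_zero] at this
      rw [this, ih]
  rw [← hk0 k]
  rcases le_total j 0 with h | h
  · exact (heq k j 0 hj (h0 k) h).symm
  · exact heq k 0 j (h0 k) hj h

theorem int3_small {Q : ℕ} (hQ : 0 < Q) {k : ℕ} {j : ℤ} (hj : |j| < 5 * Q * 2 ^ k) {a b : ℤ}
    (ha : 0 < a) (ha' : a ≤ 10 * Q * 2 ^ k) (hb : 0 < b) (hb' : b ≤ 10 * Q * 2 ^ k) :
    Int3 Q k j a b := by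
  have h := abs_lt.1 hj
  exact ⟨hj, ha, by linarith [h.1], hb, by linarith [h.2]⟩

theorem affine_seq {f : ℤ → ℝ} {A : ℤ}
    (h : ∀ a : ℤ, 0 < a - 1 → a + 1 < A → f (a - 1) + f (a + 1) = 2 * f a) {a : ℤ} (h0 : 0 < a)
    (hA : a < A) : f a = f 1 + (a - 1) * (f 2 - f 1) := by
  have key : ∀ n : ℕ, ((n : ℤ) + 2 < A → f ((n : ℤ) + 1) = f 1 + n * (f 2 - f 1) ∧
      f ((n : ℤ) + 2) = f 1 + (n + 1) * (f 2 - f 1)) := by
    intro n
    induction n with
    | zero =>
      intro _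
      norm_num
    | succ n ih =>
      intro hn
      push_cast at hn
      obtain ⟨i1, i2⟩ := ih (by linarith)
      have h1 := h ((n : ℤ) + 2) (by linarith) (by linarith)
      have e1 : (n : ℤ) + 2 - 1 = n + 1 := by ring
      have e2 : ((n + 1 : ℕ) : ℤ) + 1 = n + 2 := by push_cast; ring
      have e3 : ((n + 1 : ℕ) : ℤ) + 2 = n + 2 + 1 := by push_cast; ring
      rw [e1, i1, i2] at h1
      rw [e2, e3]
      push_cast
      constructor
      · rw [i2]
      · linarith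
  rcases Int.lt_or_le a 2 with h1 | h1
  · have : a = 1 := by linarith
    subst this
    norm_num
  · obtain ⟨n, hn⟩ : ∃ n : ℕ, (n : ℤ) = a - 2 := ⟨(a - 2).toNat, Int.toNat_of_nonneg (by linarith)⟩
    have h2 := (key n (by linarith)).2
    have e1 : (n : ℤ) + 2 = a := by linarith
    have e2 : (n : ℝ) = a - 2 := by exact_mod_cast hn
    rw [e1, e2] at h2
    rw [h2]
    ring

/-- the envelope is affine on each layer. -/
theorem Fam3.layer {Q : ℕ} (hQ : 0 < Q) (F : Fam3 Q)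
    (ha : ∀ k j a b, Int3 Q k j (a - 1) b → Int3 Q k j (a + 1) b →
      F.m k j (a - 1) b + F.m k j (a + 1) b = 2 * F.m k j a b)
    (hb : ∀ k j a b, Int3 Q k j a (b - 1) → Int3 Q k j a (b + 1) →
      F.m k j a (b - 1) + F.m k j a (b + 1) = 2 * F.m k j a b) {k : ℕ} {j a b : ℤ}
    (h : Int3 Q k j a b) : F.m k j a b = F.m k j 1 1 + (a - 1) * (F.m k j 2 1 - F.m k j 1 1) +
      (b - 1) * (F.m k j 1 2 - F.m k j 1 1) := by
  have hj := h.1
  have h10 : (10 : ℤ) ≤ 10 * Q * 2 ^ k := by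
    have p1 : (1 : ℤ) ≤ Q := by exact_mod_cast hQ
    have p2 : (1 : ℤ) ≤ 2 ^ k := by exact_mod_cast Nat.one_le_two_pow
    nlinarith
  set A : ℤ := 25 * Q * 2 ^ k + 3 * j with hA
  set B : ℤ := 25 * Q * 2 ^ k - 3 * j with hB
  have hj' := abs_lt.1 hj
  have hA10 : 10 < A := by linarith [hj'.1]
  have hB10 : 10 < B := by linarith [hj'.2]
  have hI : ∀ a b : ℤ, 0 < a → a < A → 0 < b → b < B → Int3 Q k j a b :=
    fun a b h1 h2 h3 h4 => ⟨hj, h1, h2, h3, h4⟩
  -- affine in `a`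
  have fa : ∀ a b : ℤ, 0 < a → a < A → 0 < b → b < B →
      F.m k j a b = F.m k j 1 b + (a - 1) * (F.m k j 2 b - F.m k j 1 b) := by
    intro a b h1 h2 h3 h4
    exact affine_seq (f := fun a => F.m k j a b) (A := A)
      (fun x hx hx' => ha k j x b (hI _ _ hx (by linarith) h3 h4) (hI _ _ (by linarith) hx' h3 h4))
      h1 h2
  have fb : ∀ a b : ℤ, 0 < a → a < A → 0 < b → b < B →
      F.m k j a b = F.m k j a 1 + (b - 1) * (F.m k j a 2 - F.m k j a 1) := by
    intro a b h1 h2 h3 h4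
    exact affine_seq (f := fun b => F.m k j a b) (A := B)
      (fun x hx hx' => hb k j a x (hI _ _ h1 h2 hx (by linarith)) (hI _ _ h1 h2 (by linarith) hx'))
      h3 h4
  -- the mixed term vanishes
  have g1 := fb 1 3 (by norm_num) (by linarith) (by norm_num) (by linarith)
  have g2 := fa 3 1 (by norm_num) (by linarith) (by norm_num) (by linarith)
  have g3 := fa 3 3 (by norm_num) (by linarith) (by norm_num) (by linarith)
  have g4 := fb 2 3 (by norm_num) (by linarith) (by norm_num) (by linarith)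
  have c1 := F.m_concave (hI 1 1 (by norm_num) (by linarith) (by norm_num) (by linarith)).toP3
    (hI 3 3 (by norm_num) (by linarith) (by norm_num) (by linarith)).toP3
    (hI 2 2 (by norm_num) (by linarith) (by norm_num) (by linarith)).toP3
    (by ring) (by norm_num) (by norm_num)
  have c2 := F.m_concave (hI 1 3 (by norm_num) (by linarith) (by norm_num) (by linarith)).toP3
    (hI 3 1 (by norm_num) (by linarith) (by norm_num) (by linarith)).toP3
    (hI 2 2 (by norm_num) (by linarith) (by norm_num) (by linarith)).toP3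
    (by ring) (by norm_num) (by norm_num)
  have e0 : F.m k j 2 2 = F.m k j 2 1 + F.m k j 1 2 - F.m k j 1 1 := by
    push_cast at g1 g2 g3 g4
    nlinarith
  have e1 := fb 1 b (by norm_num) (by linarith) h.2.2.2.1 h.2.2.2.2
  have e2 := fb 2 b (by norm_num) (by linarith) h.2.2.2.1 h.2.2.2.2
  have e3 := fa a b h.2.1 h.2.2.1 h.2.2.2.1 h.2.2.2.2
  rw [e3, e2, e1, e0]
  ring

/-- (J) -/
theorem Fam3.shape {Q : ℕ} (hQ : 0 < Q) (F : Fam3 Q)
    (ha : ∀ k j a b, Int3 Q k j (a - 1) b → Int3 Q k j (a + 1) b →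
      F.m k j (a - 1) b + F.m k j (a + 1) b = 2 * F.m k j a b)
    (hb : ∀ k j a b, Int3 Q k j a (b - 1) → Int3 Q k j a (b + 1) →
      F.m k j a (b - 1) + F.m k j a (b + 1) = 2 * F.m k j a b) :
    ∃ (α β : ℝ) (u : ℕ → ℤ → ℝ), ∀ k j a b, Int3 Q k j a b →
      F.m k j a b = α * a + β * b + u k j := by
  set α : ℕ → ℤ → ℝ := fun k j => F.m k j 2 1 - F.m k j 1 1 with hα
  set β : ℕ → ℤ → ℝ := fun k j => F.m k j 1 2 - F.m k j 1 1 with hβ
  set w : ℕ → ℤ → ℝ := fun k j => F.m k j (5 * Q * 2 ^ k) (5 * Q * 2 ^ k) with hw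
  have hlay : ∀ k j a b, Int3 Q k j a b →
      F.m k j a b = F.m k j 1 1 + (a - 1) * α k j + (b - 1) * β k j := by
    intro k j a b h
    exact F.layer hQ ha hb h
  have hpos : ∀ k : ℕ, (1 : ℤ) ≤ Q * 2 ^ k := by
    intro k
    have p1 : (1 : ℤ) ≤ Q := by exact_mod_cast hQ
    have p2 : (1 : ℤ) ≤ 2 ^ k := by exact_mod_cast Nat.one_le_two_pow
    nlinarith
  have h3 : ∀ (k : ℕ) (j : ℤ), |j| < 5 * Q * 2 ^ k → 0 ≤ w k j ∧ w k j ≤ F.C * 2 ^ k := by
    intro k j hj
    have := hpos k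
    have hin : Int3 Q k j (5 * Q * 2 ^ k) (5 * Q * 2 ^ k) :=
      int3_small hQ hj (by linarith) (by linarith) (by linarith) (by linarith)
    exact ⟨F.m_nonneg hin.toP3, F.m_le hin.toP3⟩
  -- scaling
  have hsc : ∀ (k : ℕ) (j : ℤ), |j| < 5 * Q * 2 ^ k →
      α (k + 1) (2 * j) = α k j ∧ β (k + 1) (2 * j) = β k j := by
    intro k j hj
    have hp := hpos k
    have hj2 : |2 * j| < 5 * Q * 2 ^ (k + 1) := by
      rw [abs_mul, abs_two, pow_succ]
      linarith
    have hp2 : (10 : ℤ) * Q * 2 ^ (k + 1) = 2 * (10 * Q * 2 ^ k) := by rw [pow_succ]; ring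
    have hI : ∀ a b : ℤ, 0 < a → a ≤ 10 → 0 < b → b ≤ 10 → Int3 Q k j a b := by
      intro a b h1 h2 h3 h4
      exact int3_small hQ hj h1 (by linarith) h3 (by linarith)
    have hI2 : ∀ a b : ℤ, 0 < a → a ≤ 10 → 0 < b → b ≤ 10 → Int3 Q (k + 1) (2 * j) a b := by
      intro a b h1 h2 h3 h4
      exact int3_small hQ hj2 h1 (by rw [hp2]; linarith) h3 (by rw [hp2]; linarith)
    have d1 := F.m_double (hI 1 1 (by norm_num) (by norm_num) (by norm_num) (by norm_num)).toP3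
    have d2 := F.m_double (hI 2 1 (by norm_num) (by norm_num) (by norm_num) (by norm_num)).toP3
    have d3 := F.m_double (hI 1 2 (by norm_num) (by norm_num) (by norm_num) (by norm_num)).toP3
    norm_num at d1 d2 d3
    have l1 := hlay _ _ _ _ (hI2 2 2 (by norm_num) (by norm_num) (by norm_num) (by norm_num))
    have l2 := hlay _ _ _ _ (hI2 4 2 (by norm_num) (by norm_num) (by norm_num) (by norm_num))
    have l3 := hlay _ _ _ _ (hI2 2 4 (by norm_num) (by norm_num) (by norm_num) (by norm_num))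
    push_cast at l1 l2 l3
    have a1 : α k j = F.m k j 2 1 - F.m k j 1 1 := rfl
    have a2 : β k j = F.m k j 1 2 - F.m k j 1 1 := rfl
    constructor <;> linarith
  -- the bounds by second differences
  have hvar : ∀ (k : ℕ) (j : ℤ), |j| + 1 < 5 * Q * 2 ^ k →
      4 * (Q : ℝ) * 2 ^ k * |α k (j + 1) - α k (j - 1)| ≤ 2 * w k j - w k (j - 1) - w k (j + 1) ∧
      4 * (Q : ℝ) * 2 ^ k * |β k (j + 1) - β k (j - 1)| ≤
        2 * w k j - w k (j - 1) - w k (j + 1) := by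
    intro k j hj
    have hp := hpos k
    have hj0 := abs_nonneg j
    have hj1 : |j| < 5 * Q * 2 ^ k := by linarith
    have hj2 : |j - 1| < 5 * Q * 2 ^ k := by
      have := abs_sub j 1
      rw [abs_one] at this
      linarith
    have hj3 : |j + 1| < 5 * Q * 2 ^ k := by
      have := abs_add_le j 1
      rw [abs_one] at this
      linarith
    have main : ∀ s : ℤ, |s| ≤ 4 * Q * 2 ^ k →
        (s : ℝ) * (α k (j + 1) - α k (j - 1)) ≤ 2 * w k j - w k (j - 1) - w k (j + 1) ∧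
        (s : ℝ) * (β k (j + 1) - β k (j - 1)) ≤ 2 * w k j - w k (j - 1) - w k (j + 1) := by
      intro s hs
      rw [abs_le] at hs
      have hc : Int3 Q k j (5 * Q * 2 ^ k) (5 * Q * 2 ^ k) :=
        int3_small hQ hj1 (by linarith) (by linarith) (by linarith) (by linarith)
      have u1 : Int3 Q k (j - 1) (5 * Q * 2 ^ k - s) (5 * Q * 2 ^ k) :=
        int3_small hQ hj2 (by linarith [hs.2]) (by linarith [hs.1]) (by linarith) (by linarith)
      have u2 : Int3 Q k (j + 1) (5 * Q * 2 ^ k + s) (5 * Q * 2 ^ k) :=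
        int3_small hQ hj3 (by linarith [hs.1]) (by linarith [hs.2]) (by linarith) (by linarith)
      have v1 : Int3 Q k (j - 1) (5 * Q * 2 ^ k) (5 * Q * 2 ^ k - s) :=
        int3_small hQ hj2 (by linarith) (by linarith) (by linarith [hs.2]) (by linarith [hs.1])
      have v2 : Int3 Q k (j + 1) (5 * Q * 2 ^ k) (5 * Q * 2 ^ k + s) :=
        int3_small hQ hj3 (by linarith) (by linarith) (by linarith [hs.1]) (by linarith [hs.2])
      have w1 : Int3 Q k (j - 1) (5 * Q * 2 ^ k) (5 * Q * 2 ^ k) :=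
        int3_small hQ hj2 (by linarith) (by linarith) (by linarith) (by linarith)
      have w2 : Int3 Q k (j + 1) (5 * Q * 2 ^ k) (5 * Q * 2 ^ k) :=
        int3_small hQ hj3 (by linarith) (by linarith) (by linarith) (by linarith)
      have c1 := F.m_concave u1.toP3 u2.toP3 hc.toP3 (by ring) (by ring) (by ring)
      have c2 := F.m_concave v1.toP3 v2.toP3 hc.toP3 (by ring) (by ring) (by ring)
      rw [hlay _ _ _ _ u1, hlay _ _ _ _ u2] at c1
      rw [hlay _ _ _ _ v1, hlay _ _ _ _ v2] at c2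
      have z1 := hlay _ _ _ _ w1
      have z2 := hlay _ _ _ _ w2
      have z3 : w k (j - 1) = F.m k (j - 1) (5 * Q * 2 ^ k) (5 * Q * 2 ^ k) := rfl
      have z4 : w k (j + 1) = F.m k (j + 1) (5 * Q * 2 ^ k) (5 * Q * 2 ^ k) := rfl
      have z5 : w k j = F.m k j (5 * Q * 2 ^ k) (5 * Q * 2 ^ k) := rfl
      rw [z3, z4, z5, z1, z2]
      push_cast at c1 c2 ⊢
      constructor <;> linarith
    have hsp : |(4 * (Q : ℤ) * 2 ^ k)| ≤ 4 * Q * 2 ^ k := by
      rw [abs_of_nonneg (by positivity)]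
    have hsn : |-(4 * (Q : ℤ) * 2 ^ k)| ≤ 4 * Q * 2 ^ k := by
      rw [abs_neg, abs_of_nonneg (by positivity)]
    obtain ⟨p1, p2⟩ := main _ hsp
    obtain ⟨n1, n2⟩ := main _ hsn
    push_cast at p1 p2 n1 n2
    constructor
    · rcases abs_cases (α k (j + 1) - α k (j - 1)) with ⟨h, _⟩ | ⟨h, _⟩ <;> rw [h] <;> linarith
    · rcases abs_cases (β k (j + 1) - β k (j - 1)) with ⟨h, _⟩ | ⟨h, _⟩ <;> rw [h] <;> linarith
  refine ⟨α 0 0, β 0 0, fun k j => F.m k j 1 1 - α 0 0 - β 0 0, ?_⟩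
  intro k j a b h
  have ea := const_of_var hQ (fun k j hj => (hsc k j hj).1) (fun k j hj => (hvar k j hj).1) h3 h.1
  have eb := const_of_var hQ (fun k j hj => (hsc k j hj).2) (fun k j hj => (hvar k j hj).2) h3 h.1
  rw [hlay k j a b h, ea, eb]
  ring

end Pool.Agent.YTD
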