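import Pool.Agent.YTD.Limit

namespace Pool.Agent.YTD

open Finset Module Filter

variable {K : Type} [Field K] [Algebra ℂ K]
variable {T : Datum K} {q : ℕ} {D₀ : T.X.Pt →₀ ℤ}

namespace Graded

variable {G : Graded T q D₀}
variable (hD : T.X.deg D₀ = 105 * T.t * q)

/-- expansion of the total dimension. -/
def TotExp (G : Graded T q D₀) (s₀ s₁ : ℝ) : Prop :=
  ∃ C : ℝ, ∀ᶠ M : ℕ in atTop, |G.tot M - (s₀ * M ^ 5 + s₁ * M ^ 4)| ≤ C * M ^ 3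

include hD in
theorem Phi_le_limit (P₀ : T.X.Pt) (hq : 0 < q) {s₀ s₁ : ℝ} (hS : G.TotExp s₀ s₁) {N : ℕ}
    (hN : 4 ≤ N) (s : Sys G (cst T q N) N) :
    s.Phi ≤ s₀ * N ^ 5 + 600000 * T.t * (q : ℝ) ^ 2 * G.Λ * (N : ℝ) ^ 3 := by
  obtain ⟨C₁, hC₁⟩ := hS
  set E : ℝ := 600000 * T.t * (q : ℝ) ^ 2 * G.Λ * (N : ℝ) ^ 3 with hE
  have hE0 : 0 ≤ E := by positivity
  -- the sequence of levels
  let M : ℕ → ℕ := fun i => 2 * N + 2 ^ i * N
  have hM : Tendsto M atTop atTop := by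
    apply tendsto_atTop_mono (f := fun i : ℕ => i)
    · intro i
      have h1 : i < 2 ^ i := Nat.lt_two_pow_self
      have h2 : 2 ^ i ≤ 2 ^ i * N := Nat.le_mul_of_pos_right _ (by omega)
      simp only [M]
      omega
    · exact tendsto_id
  -- bound for large i
  have h1 : ∀ᶠ i : ℕ in atTop, s.Phi - E ≤ s₀ * ((M i : ℝ) / 2 ^ i) ^ 5 +
      s₁ * ((M i : ℝ) / 2 ^ i) ^ 4 * (1 / 2) ^ i + C₁ * ((M i : ℝ) / 2 ^ i) ^ 3 * (1 / 4) ^ i := by
    filter_upwards [hM.eventually hC₁] with i hi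
    obtain ⟨s', hs'⟩ := iterate hq (show 0 < N by omega) s i
    have h2 := Phi_le_tot hD P₀ hq hN s'
    have h3 := (abs_le.1 hi).2
    have h4 : G.tot (2 * N + 2 ^ i * N) = G.tot (M i) := rfl
    rw [h4] at h2
    have h5 : (32 : ℝ) ^ i * (s.Phi - E) ≤ s₀ * (M i : ℝ) ^ 5 + s₁ * (M i : ℝ) ^ 4 +
        C₁ * (M i : ℝ) ^ 3 := by
      have h6 : E * (((32 : ℝ) ^ i - 8 ^ i) / 24) ≤ E * 32 ^ i := by
        apply mul_le_mul_of_nonneg_left _ hE0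
        have : (0 : ℝ) < 8 ^ i := by positivity
        have : (0 : ℝ) < 32 ^ i := by positivity
        linarith
      have h7 : 600000 * T.t * (q : ℝ) ^ 2 * G.Λ * (N : ℝ) ^ 3 * (((32 : ℝ) ^ i - 8 ^ i) / 24) =
        E * (((32 : ℝ) ^ i - 8 ^ i) / 24) := by rw [hE]
      rw [h7] at hs'
      linarith
    have h8 : (0 : ℝ) < 32 ^ i := by positivity
    have h9 : s.Phi - E ≤ (s₀ * (M i : ℝ) ^ 5 + s₁ * (M i : ℝ) ^ 4 +
        C₁ * (M i : ℝ) ^ 3) / 32 ^ i := by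
      rw [le_div_iff₀ h8]
      linarith
    refine h9.trans (le_of_eq ?_)
    have e2 : (32 : ℝ) ^ i = (2 ^ i) ^ 5 := by rw [← pow_mul, mul_comm, pow_mul]; norm_num
    have e3 : (1 / 2 : ℝ) ^ i = 1 / 2 ^ i := by rw [div_pow, one_pow]
    have e4 : (1 / 4 : ℝ) ^ i = 1 / (2 ^ i) ^ 2 := by
      rw [div_pow, one_pow, ← pow_mul, mul_comm, pow_mul]; norm_num
    rw [e2, e3, e4]
    have h10 : (0 : ℝ) < 2 ^ i := by positivity
    field_simp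
  -- limits
  have h2 : Tendsto (fun i : ℕ => (M i : ℝ) / 2 ^ i) atTop (nhds N) := by
    have e : (fun i : ℕ => (M i : ℝ) / 2 ^ i) = fun i : ℕ => (N : ℝ) + 2 * N * (1 / 2) ^ i := by
      funext i
      simp only [M]
      push_cast
      have h10 : (0 : ℝ) < 2 ^ i := by positivity
      rw [show (1 / 2 : ℝ) ^ i = 1 / 2 ^ i by rw [div_pow, one_pow]]
      field_simp
      ring
    rw [e]
    have h3 : Tendsto (fun i : ℕ => (1 / 2 : ℝ) ^ i) atTop (nhds 0) :=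
      tendsto_pow_atTop_nhds_zero_of_lt_one (by norm_num) (by norm_num)
    have h4 := (h3.const_mul (2 * (N : ℝ))).const_add (N : ℝ)
    rw [mul_zero, add_zero] at h4
    exact h4
  have h3 : Tendsto (fun i : ℕ => (1 / 2 : ℝ) ^ i) atTop (nhds 0) :=
    tendsto_pow_atTop_nhds_zero_of_lt_one (by norm_num) (by norm_num)
  have h3' : Tendsto (fun i : ℕ => (1 / 4 : ℝ) ^ i) atTop (nhds 0) :=
    tendsto_pow_atTop_nhds_zero_of_lt_one (by norm_num) (by norm_num)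
  have h4 : Tendsto (fun i : ℕ => s₀ * ((M i : ℝ) / 2 ^ i) ^ 5 +
      s₁ * ((M i : ℝ) / 2 ^ i) ^ 4 * (1 / 2) ^ i + C₁ * ((M i : ℝ) / 2 ^ i) ^ 3 * (1 / 4) ^ i) atTop
      (nhds (s₀ * (N : ℝ) ^ 5 + s₁ * (N : ℝ) ^ 4 * 0 + C₁ * (N : ℝ) ^ 3 * 0)) :=
    (((h2.pow 5).const_mul s₀).add (((h2.pow 4).const_mul s₁).mul h3)).add
      (((h2.pow 3).const_mul C₁).mul h3')
  rw [mul_zero, mul_zero, add_zero, add_zero] at h4
  have h5 := ge_of_tendsto h4 h1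
  linarith

end Graded

end Pool.Agent.YTD
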