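import Pool.Agent.YTD.Expo
import Pool.Agent.YTD.Limit2

/-!
From filtrations of the section ring to torus-graded filtrations.
-/

namespace Pool.Agent.YTD

open Finset Module MvPolynomial Filter

variable {K : Type} [Field K] [Algebra ℂ K]
variable {T : Datum K} {q : ℕ} {D₀ : T.X.Pt →₀ ℤ} {r : ℕ}

namespace Filt

variable (χ : Filt T q D₀ r)

/-- a bound for the filtration. -/
noncomputable def lam : ℕ := χ.bound.choose

theorem lam_spec (N : ℕ) : χ.F N (-(χ.lam * N)) = T.sec q D₀ (r * N) ∧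
    χ.F N (χ.lam * N + 1) = ⊥ := χ.bound.choose_spec N

/-- the graded filtration of initial spaces of `χ`. -/
noncomputable def graded : Graded T (r * q) (r • D₀) where
  Λ := 2 * χ.lam
  W := fun N l j a b => ini (MonomialOrder.lex (σ := Fin 4)) (χ.F N ((l : ℤ) - χ.lam * N))
    (expo (r * q) N j a b)
  W_zero := by
    intro N j a b h
    have e : ((0 : ℕ) : ℤ) - χ.lam * N = -(χ.lam * N) := by simp
    rw [e, (χ.lam_spec N).1, ← T.sec_mul r q D₀ N, T.ini_sec _ h]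
  W_anti := by
    intro N l l' j a b h
    exact ini_mono (χ.anti N _ _ (by
      have : (l : ℤ) ≤ l' := by exact_mod_cast h
      linarith)) _
  W_mul := by
    intro N N' l l' j j' a a' b b' h h' f hf g hg
    rw [← expo_add h h']
    refine ini_mul ?_ hf hg
    intro f hf g hg
    have := χ.mul N N' _ _ f hf g hg
    have e : ((l + l' : ℕ) : ℤ) - χ.lam * ((N + N' : ℕ) : ℤ) =
      ((l : ℤ) - χ.lam * N) + ((l' : ℤ) - χ.lam * N') := by push_cast; ring
    rw [e]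
    exact this
  W_top := by
    intro N l j a b h
    have h1 : χ.F N ((l : ℤ) - χ.lam * N) = ⊥ := by
      rw [eq_bot_iff, ← (χ.lam_spec N).2]
      apply χ.anti
      have : ((2 * χ.lam * N : ℕ) : ℤ) < l := by exact_mod_cast h
      push_cast at this
      linarith
    rw [h1, ini_bot]

theorem graded_Λ : χ.graded.Λ = 2 * χ.lam := rfl

theorem graded_tot (P₀ : T.X.Pt) (N : ℕ) : χ.graded.tot N =
    ∑ l ∈ range (2 * χ.lam * N), (finrank ℂ (χ.F N ((l : ℤ) + 1 - χ.lam * N)) : ℝ) := by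
  have h0 : ∀ (l : ℕ) (j : ℤ) (a b : ℕ), χ.graded.W N (l + 1) j a b =
      ini (MonomialOrder.lex (σ := Fin 4)) (χ.F N ((l : ℤ) + 1 - χ.lam * N))
        (expo (r * q) N j a b) := by
    intro l j a b
    show ini (MonomialOrder.lex (σ := Fin 4)) (χ.F N (((l + 1 : ℕ) : ℤ) - χ.lam * N))
        (expo (r * q) N j a b) = _
    have e : ((l + 1 : ℕ) : ℤ) = (l : ℤ) + 1 := by push_cast; rfl
    rw [e]
  have h1 : ∀ l : ℕ, (finrank ℂ (χ.F N ((l : ℤ) + 1 - χ.lam * N)) : ℝ) =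
      ∑ j ∈ Icc (-((5 * (r * q) * N : ℕ) : ℤ)) ((5 * (r * q) * N : ℕ) : ℤ),
      ∑ a ∈ range (AA (r * q) N j + 1), ∑ b ∈ range (BB (r * q) N j + 1),
        (finrank ℂ (χ.graded.W N (l + 1) j a b) : ℝ) := by
    intro l
    rw [T.finrank_eq_sum P₀ (MonomialOrder.lex (σ := Fin 4)) (q := r * q) (D₀ := r • D₀) (N := N)
      (by rw [T.sec_mul]; exact χ.le N _)]
    refine sum_congr rfl fun j _ => sum_congr rfl fun a _ => sum_congr rfl fun b _ => ?_
    rw [h0]
  unfold Graded.tot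
  rw [graded_Λ]
  rw [sum_congr rfl (fun l _ => h1 l)]
  symm
  rw [sum_comm]
  apply sum_congr rfl
  intro j _
  rw [sum_comm]
  apply sum_congr rfl
  intro a _
  rw [sum_comm]

theorem F_of_le {N : ℕ} {l : ℤ} (h : l ≤ -(χ.lam * N)) : χ.F N l = T.sec q D₀ (r * N) := by
  apply le_antisymm (χ.le N l)
  rw [← (χ.lam_spec N).1]
  exact χ.anti N _ _ h

theorem F_of_gt {N : ℕ} {l : ℤ} (h : χ.lam * N < l) : χ.F N l = ⊥ := by
  rw [eq_bot_iff, ← (χ.lam_spec N).2]
  exact χ.anti N _ _ (by linarith)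

theorem wt_eq_zero_of_lt {N : ℕ} {l : ℤ} (h : l < -(χ.lam * N)) : χ.wt N l = 0 := by
  unfold wt
  rw [χ.F_of_le (by linarith), χ.F_of_le (by linarith), sub_self]

theorem wt_eq_zero_of_gt {N : ℕ} {l : ℤ} (h : χ.lam * N < l) : χ.wt N l = 0 := by
  unfold wt
  rw [χ.F_of_gt h, χ.F_of_gt (by linarith), sub_self]

/-- the traces as finite sums. -/
theorem tr_eq (p N : ℕ) : χ.tr p N = ∑ i ∈ range (2 * χ.lam * N + 1),
    (((i : ℤ) - χ.lam * N : ℤ) : ℝ) ^ p * χ.wt N ((i : ℤ) - χ.lam * N) := by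
  unfold tr
  have h1 : ∑ᶠ l : ℤ, (l : ℝ) ^ p * χ.wt N l =
      ∑ l ∈ Icc (-((χ.lam * N : ℕ) : ℤ)) ((χ.lam * N : ℕ) : ℤ), (l : ℝ) ^ p * χ.wt N l := by
    apply finsum_eq_sum_of_support_subset
    intro l hl
    rw [Function.mem_support] at hl
    rw [Finset.coe_Icc, Set.mem_Icc]
    constructor
    · by_contra h
      apply hl
      rw [χ.wt_eq_zero_of_lt (by push_cast at h; linarith), mul_zero]
    · by_contra h
      apply hl
      rw [χ.wt_eq_zero_of_gt (by push_cast at h; linarith), mul_zero]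
  rw [h1, ← sum_range_eq_Icc (χ.lam * N) (fun l => (l : ℝ) ^ p * χ.wt N l), ← mul_assoc]
  push_cast
  rfl

/-- Abel summation for the trace. -/
theorem tr_one (P₀ : T.X.Pt) (N : ℕ) :
    χ.tr 1 N = χ.graded.tot N - χ.lam * N * χ.dimN N := by
  rw [tr_eq, χ.graded_tot P₀]
  have key : ∀ (h : ℤ → ℝ) (c : ℤ) (M : ℕ), ∑ i ∈ range (M + 1),
      (((i : ℤ) - c : ℤ) : ℝ) ^ 1 * (h ((i : ℤ) - c) - h ((i : ℤ) - c + 1)) =
      ∑ i ∈ range M, h ((i : ℤ) + 1 - c) - c * h (-c) - ((M : ℝ) - c) * h ((M : ℤ) - c + 1) := by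
    intro h c M
    induction M with
    | zero =>
      simp
      ring
    | succ M ih =>
      rw [sum_range_succ, ih, sum_range_succ]
      push_cast
      have e1 : (M : ℤ) + 1 - c = (M : ℤ) - c + 1 := by ring
      rw [e1]
      ring
  have h1 := key (fun l => (finrank ℂ (χ.F N l) : ℝ)) (χ.lam * N) (2 * χ.lam * N)
  have h2 : (finrank ℂ (χ.F N (((2 * χ.lam * N : ℕ) : ℤ) - χ.lam * N + 1)) : ℝ) = 0 := by
    rw [χ.F_of_gt (by push_cast; linarith)]
    simp
  have h3 : (finrank ℂ (χ.F N (-(χ.lam * N))) : ℝ) = χ.dimN N := by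
    rw [χ.F_of_le le_rfl]
    rfl
  rw [h2, h3, mul_zero, sub_zero] at h1
  unfold wt
  rw [h1]
  push_cast
  ring

end Filt

end Pool.Agent.YTD
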