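import Pool.Agent.YTD.Bridge

/-!
From filtrations of the section ring to torus-graded filtrations, for an arbitrary monomial order.
-/

namespace Pool.Agent.YTD

open Finset Module MvPolynomial Filter

variable {K : Type} [Field K] [Algebra ℂ K]
variable {T : Datum K} {q : ℕ} {D₀ : T.X.Pt →₀ ℤ} {r : ℕ}

namespace Filt

variable (χ : Filt T q D₀ r)

/-- the graded filtration of initial spaces of `χ` for the monomial order `m`. -/
noncomputable def gradedM (m : MonomialOrder (Fin 4)) : Graded T (r * q) (r • D₀) where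
  Λ := 2 * χ.lam
  W := fun N l j a b => ini m (χ.F N ((l : ℤ) - χ.lam * N)) (expo (r * q) N j a b)
  W_zero := by
    intro N j a b h
    have e : ((0 : ℕ) : ℤ) - χ.lam * N = -(χ.lam * N) := by simp
    rw [e, (χ.lam_spec N).1, ← T.sec_mul r q D₀ N, T.ini_sec _ h]
  W_anti := by
    intro N l l' j a b h
    exact ini_mono (χ.anti N _ _ (by
      have : (l : ℤ) ≤ l' := by exact_mod_cast h
      linarith)) _
  W_mul := by
    intro N N' l l' j j' a a' b b' h h' f hf g hg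
    rw [← expo_add h h']
    refine ini_mul ?_ hf hg
    intro f hf g hg
    have := χ.mul N N' _ _ f hf g hg
    have e : ((l + l' : ℕ) : ℤ) - χ.lam * ((N + N' : ℕ) : ℤ) =
      ((l : ℤ) - χ.lam * N) + ((l' : ℤ) - χ.lam * N') := by push_cast; ring
    rw [e]
    exact this
  W_top := by
    intro N l j a b h
    have h1 : χ.F N ((l : ℤ) - χ.lam * N) = ⊥ := by
      rw [eq_bot_iff, ← (χ.lam_spec N).2]
      apply χ.anti
      have : ((2 * χ.lam * N : ℕ) : ℤ) < l := by exact_mod_cast h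
      push_cast at this
      linarith
    rw [h1, ini_bot]

theorem gradedM_Λ (m : MonomialOrder (Fin 4)) : (χ.gradedM m).Λ = 2 * χ.lam := rfl

theorem gradedM_W (m : MonomialOrder (Fin 4)) (N l : ℕ) (j : ℤ) (a b : ℕ) :
    (χ.gradedM m).W N l j a b =
      ini m (χ.F N ((l : ℤ) - χ.lam * N)) (expo (r * q) N j a b) := rfl

theorem gradedM_tot (m : MonomialOrder (Fin 4)) (P₀ : T.X.Pt) (N : ℕ) : (χ.gradedM m).tot N =
    ∑ l ∈ range (2 * χ.lam * N), (finrank ℂ (χ.F N ((l : ℤ) + 1 - χ.lam * N)) : ℝ) := by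
  have h0 : ∀ (l : ℕ) (j : ℤ) (a b : ℕ), (χ.gradedM m).W N (l + 1) j a b =
      ini m (χ.F N ((l : ℤ) + 1 - χ.lam * N)) (expo (r * q) N j a b) := by
    intro l j a b
    show ini m (χ.F N (((l + 1 : ℕ) : ℤ) - χ.lam * N)) (expo (r * q) N j a b) = _
    have e : ((l + 1 : ℕ) : ℤ) = (l : ℤ) + 1 := by push_cast; rfl
    rw [e]
  have h1 : ∀ l : ℕ, (finrank ℂ (χ.F N ((l : ℤ) + 1 - χ.lam * N)) : ℝ) =
      ∑ j ∈ Icc (-((5 * (r * q) * N : ℕ) : ℤ)) ((5 * (r * q) * N : ℕ) : ℤ),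
      ∑ a ∈ range (AA (r * q) N j + 1), ∑ b ∈ range (BB (r * q) N j + 1),
        (finrank ℂ ((χ.gradedM m).W N (l + 1) j a b) : ℝ) := by
    intro l
    rw [T.finrank_eq_sum P₀ m (q := r * q) (D₀ := r • D₀) (N := N)
      (by rw [T.sec_mul]; exact χ.le N _)]
    refine sum_congr rfl fun j _ => sum_congr rfl fun a _ => sum_congr rfl fun b _ => ?_
    rw [h0]
  unfold Graded.tot
  rw [gradedM_Λ]
  rw [sum_congr rfl (fun l _ => h1 l)]
  symm
  rw [sum_comm]
  apply sum_congr rfl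
  intro j _
  rw [sum_comm]
  apply sum_congr rfl
  intro a _
  rw [sum_comm]

theorem gradedM_tot_eq (m : MonomialOrder (Fin 4)) (P₀ : T.X.Pt) (N : ℕ) :
    (χ.gradedM m).tot N = χ.graded.tot N := by
  rw [gradedM_tot χ m P₀, graded_tot χ P₀]

/-- Abel summation for the trace. -/
theorem tr_one_M (m : MonomialOrder (Fin 4)) (P₀ : T.X.Pt) (N : ℕ) :
    χ.tr 1 N = (χ.gradedM m).tot N - χ.lam * N * χ.dimN N := by
  rw [gradedM_tot_eq χ m P₀, χ.tr_one P₀]

/-- the expansion of the total dimension, for all monomial orders. -/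
theorem totExp_M (m : MonomialOrder (Fin 4)) (P₀ : T.X.Pt) {a₀ a₁ b₀ b₁ c₀ : ℝ}
    (h : χ.Expansion a₀ a₁ b₀ b₁ c₀) :
    (χ.gradedM m).TotExp (b₀ + χ.lam * a₀) (b₁ + χ.lam * a₁) := by
  obtain ⟨⟨C₁, h1⟩, ⟨C₂, h2⟩, _⟩ := h
  refine ⟨C₂ + χ.lam * C₁, ?_⟩
  filter_upwards [h1, h2] with N g1 g2
  have e := χ.tr_one_M m P₀ N
  have hlam : (0 : ℝ) ≤ χ.lam * N := by positivity
  have g3 : |(χ.lam : ℝ) * N * χ.dimN N - χ.lam * N * (a₀ * N ^ 4 + a₁ * N ^ 3)| ≤
      χ.lam * N * (C₁ * N ^ 2) := by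
    rw [← mul_sub, abs_mul, abs_of_nonneg hlam]
    exact mul_le_mul_of_nonneg_left g1 hlam
  rw [abs_le] at g2 g3 ⊢
  rw [e] at g2
  constructor <;> nlinarith [g2.1, g2.2, g3.1, g3.2]

end Filt

end Pool.Agent.YTD
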