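import Mathlib

/-!
The coupling lemma: if `h(a₁+a₂) ≥ f₁(a₁) + f₂(a₂)` for all `a₁ ≤ A₁`, `a₂ ≤ A₂`, then the
average of `h` over `[0, A₁+A₂]` is at least the sum of the averages of `f₁` and `f₂`.
-/

namespace Pool.Agent.YTD

open Finset

/-- average of `f` over `0,...,A`. -/
noncomputable def avg (A : ℕ) (f : ℕ → ℝ) : ℝ := (∑ a ∈ range (A + 1), f a) / (A + 1)

theorem inv_choose_pascal (n k : ℕ) (hk : k ≤ n) :
    (1 : ℝ) / n.choose k = (n + 1) / (n + 2) *
      (1 / (n + 1).choose k + 1 / (n + 1).choose (k + 1)) := by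
  have h1 : ((n + 1).choose k : ℝ) * (n + 1 - k) = (n + 1) * n.choose k := by
    have := Nat.add_one_mul_choose_eq n k
    have h2 := Nat.choose_mul_succ_eq n k
    have h3 : ((n.choose k * (n + 1) : ℕ) : ℝ) = (((n + 1).choose k * (n + 1 - k) : ℕ) : ℝ) := by
      exact_mod_cast h2
    push_cast [Nat.cast_sub (show k ≤ n + 1 by omega)] at h3
    linarith
  have h2 : ((n + 1).choose (k + 1) : ℝ) * (k + 1) = (n + 1) * n.choose k := by
    have := Nat.add_one_mul_choose_eq n k
    have h3 : (((n + 1) * n.choose k : ℕ) : ℝ) = (((n + 1).choose (k + 1) * (k + 1) : ℕ) : ℝ) := by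
      exact_mod_cast this
    push_cast at h3
    linarith
  have hk' : (k : ℝ) ≤ n := by exact_mod_cast hk
  have p1 : (0 : ℝ) < n.choose k := by exact_mod_cast Nat.choose_pos hk
  have p2 : (0 : ℝ) < (n + 1).choose k := by exact_mod_cast Nat.choose_pos (by omega : k ≤ n + 1)
  have p3 : (0 : ℝ) < (n + 1).choose (k + 1) := by
    exact_mod_cast Nat.choose_pos (by omega : k + 1 ≤ n + 1)
  have e1 : (1 : ℝ) / (n + 1).choose k = (n + 1 - k) / ((n + 1) * n.choose k) := by
    rw [← h1]
    field_simp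
    rw [div_self]
    linarith
  have e2 : (1 : ℝ) / (n + 1).choose (k + 1) = (k + 1) / ((n + 1) * n.choose k) := by
    rw [← h2]
    field_simp
  rw [e1, e2]
  field_simp
  ring

theorem sum_choose_div (A : ℕ) (a : ℕ) (ha : a ≤ A) (B : ℕ) :
    ∑ b ∈ range (B + 1), (B.choose b : ℝ) / (A + B).choose (a + b) =
      (A + B + 1) / ((A + 1) * A.choose a) := by
  induction B with
  | zero =>
    have p1 : (0 : ℝ) < A.choose a := by exact_mod_cast Nat.choose_pos ha
    simp only [zero_add, range_one, sum_singleton, Nat.choose_zero_right, Nat.cast_one, add_zero,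
      Nat.cast_zero]
    field_simp
  | succ B ih =>
    have key : ∑ b ∈ range (B + 1), (B.choose b : ℝ) / (A + B).choose (a + b) =
        (A + B + 1) / (A + B + 2) *
          ∑ b ∈ range (B + 2), ((B + 1).choose b : ℝ) / (A + (B + 1)).choose (a + b) := by
      have e1 : ∀ b ∈ range (B + 1), (B.choose b : ℝ) / (A + B).choose (a + b) =
          (A + B + 1) / (A + B + 2) * ((B.choose b : ℝ) / (A + (B + 1)).choose (a + b) +
            (B.choose b : ℝ) / (A + (B + 1)).choose (a + (b + 1))) := by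
        intro b hb
        have hb' : b ≤ B := by
          have := mem_range.1 hb
          omega
        have := inv_choose_pascal (A + B) (a + b) (by omega)
        rw [div_eq_mul_one_div, this]
        push_cast
        rw [show A + (B + 1) = A + B + 1 by ring, show a + (b + 1) = a + b + 1 by ring]
        ring
      rw [sum_congr rfl e1, ← mul_sum]
      congr 1
      rw [sum_add_distrib]
      rw [sum_range_succ' (fun b => ((B + 1).choose b : ℝ) / (A + (B + 1)).choose (a + b)) (B + 1)]
      have e2 : ∀ b ∈ range (B + 1), ((B + 1).choose (b + 1) : ℝ) /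
          (A + (B + 1)).choose (a + (b + 1)) =
          (B.choose b : ℝ) / (A + (B + 1)).choose (a + (b + 1)) +
          (B.choose (b + 1) : ℝ) / (A + (B + 1)).choose (a + (b + 1)) := by
        intro b _
        rw [Nat.choose_succ_succ]
        push_cast
        ring
      rw [sum_congr rfl e2, sum_add_distrib]
      have e3 : ∑ b ∈ range (B + 1), (B.choose (b + 1) : ℝ) /
          (A + (B + 1)).choose (a + (b + 1)) + (((B + 1).choose 0 : ℕ) : ℝ) /
          (A + (B + 1)).choose (a + 0) =
          ∑ b ∈ range (B + 1), (B.choose b : ℝ) / (A + (B + 1)).choose (a + b) := by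
        have h := sum_range_succ'
          (fun b => (B.choose b : ℝ) / (A + (B + 1)).choose (a + b)) (B + 1)
        rw [sum_range_succ] at h
        simp only [Nat.choose_succ_self, Nat.cast_zero, zero_div, add_zero,
          Nat.choose_zero_right] at h ⊢
        linarith
      linarith
    rw [ih] at key
    have p1 : (0 : ℝ) < A.choose a := by exact_mod_cast Nat.choose_pos ha
    have p2 : (0 : ℝ) < (A : ℝ) + B + 1 := by positivity
    have p3 : (0 : ℝ) < (A : ℝ) + B + 2 := by positivity
    have : ∑ b ∈ range (B + 2), ((B + 1).choose b : ℝ) / (A + (B + 1)).choose (a + b) =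
        (A + B + 2) / (A + B + 1) * ((A + B + 1) / ((A + 1) * A.choose a)) := by
      rw [key]
      field_simp
    rw [this]
    push_cast
    field_simp
    ring

/-- the coupling lemma. -/
theorem avg_add_le {A B : ℕ} {f g h : ℕ → ℝ}
    (H : ∀ a ≤ A, ∀ b ≤ B, f a + g b ≤ h (a + b)) :
    avg A f + avg B g ≤ avg (A + B) h := by
  -- weights
  let w : ℕ → ℕ → ℝ := fun a b => (A.choose a : ℝ) * (B.choose b) / (A + B).choose (a + b)
  have hw : ∀ a b, 0 ≤ w a b := fun a b => by positivity
  have hw1 : ∀ a ≤ A, ∑ b ∈ range (B + 1), w a b = (A + B + 1) / (A + 1) := by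
    intro a ha
    have p1 : (0 : ℝ) < A.choose a := by exact_mod_cast Nat.choose_pos ha
    have : ∑ b ∈ range (B + 1), w a b = (A.choose a : ℝ) *
        ∑ b ∈ range (B + 1), (B.choose b : ℝ) / (A + B).choose (a + b) := by
      rw [mul_sum]
      apply sum_congr rfl
      intro b _
      simp only [w]
      ring
    rw [this, sum_choose_div A a ha B]
    field_simp
  have hw2 : ∀ b ≤ B, ∑ a ∈ range (A + 1), w a b = (A + B + 1) / (B + 1) := by
    intro b hb
    have p1 : (0 : ℝ) < B.choose b := by exact_mod_cast Nat.choose_pos hb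
    have : ∑ a ∈ range (A + 1), w a b = (B.choose b : ℝ) *
        ∑ a ∈ range (A + 1), (A.choose a : ℝ) / (B + A).choose (b + a) := by
      rw [mul_sum]
      apply sum_congr rfl
      intro a _
      simp only [w]
      rw [add_comm A B, add_comm a b]
      ring
    rw [this, sum_choose_div B b hb A]
    field_simp
    ring
  have hw3 : ∀ c ≤ A + B, ∑ ab ∈ antidiagonal c, w ab.1 ab.2 = 1 := by
    intro c hc
    have p1 : (0 : ℝ) < (A + B).choose c := by exact_mod_cast Nat.choose_pos hc
    have : ∑ ab ∈ antidiagonal c, w ab.1 ab.2 =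
        (∑ ab ∈ antidiagonal c, ((A.choose ab.1 * B.choose ab.2 : ℕ) : ℝ)) / (A + B).choose c := by
      rw [sum_div]
      apply sum_congr rfl
      rintro ⟨a, b⟩ hab
      have := HasAntidiagonal.mem_antidiagonal.1 hab
      simp only at this
      simp only [w, this]
      push_cast
      ring
    rw [this, ← Nat.cast_sum, ← Nat.add_choose_eq]
    field_simp
  -- total
  have T : ∑ a ∈ range (A + 1), ∑ b ∈ range (B + 1), w a b * (f a + g b) ≤
      ∑ c ∈ range (A + B + 1), h c := by
    have e1 : ∑ c ∈ range (A + B + 1), h c =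
        ∑ c ∈ range (A + B + 1), ∑ ab ∈ antidiagonal c, w ab.1 ab.2 * h (ab.1 + ab.2) := by
      apply sum_congr rfl
      intro c hc
      have hc' : c ≤ A + B := by
        have := mem_range.1 hc
        omega
      rw [show ∑ ab ∈ antidiagonal c, w ab.1 ab.2 * h (ab.1 + ab.2) =
        ∑ ab ∈ antidiagonal c, w ab.1 ab.2 * h c from by
          apply sum_congr rfl
          rintro ⟨a, b⟩ hab
          rw [HasAntidiagonal.mem_antidiagonal.1 hab], ← sum_mul, hw3 c hc', one_mul]
    rw [e1]
    have e2 : ∑ a ∈ range (A + 1), ∑ b ∈ range (B + 1), w a b * (f a + g b) ≤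
        ∑ a ∈ range (A + 1), ∑ b ∈ range (B + 1), w a b * h (a + b) := by
      apply sum_le_sum
      intro a ha
      apply sum_le_sum
      intro b hb
      apply mul_le_mul_of_nonneg_left _ (hw a b)
      apply H
      · have := mem_range.1 ha
        omega
      · have := mem_range.1 hb
        omega
    refine e2.trans (le_of_eq ?_)
    rw [← sum_product', sum_sigma']
    -- reindex
    have e4 : ∑ x ∈ (range (A + B + 1)).sigma (fun c => antidiagonal c),
        w x.2.1 x.2.2 * h (x.2.1 + x.2.2) =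
        ∑ x ∈ ((range (A + B + 1)).sigma (fun c => antidiagonal c)).filter
          (fun x => x.2.1 ≤ A ∧ x.2.2 ≤ B), w x.2.1 x.2.2 * h (x.2.1 + x.2.2) := by
      symm
      apply sum_subset (filter_subset _ _)
      rintro ⟨c, a, b⟩ hx hx'
      have : ¬ (a ≤ A ∧ b ≤ B) := fun h => hx' (mem_filter.2 ⟨hx, h⟩)
      have h0 : w a b = 0 := by
        simp only [w]
        by_cases ha : a ≤ A
        · have hb : ¬ b ≤ B := fun hb => this ⟨ha, hb⟩
          rw [Nat.choose_eq_zero_of_lt (not_le.1 hb)]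
          simp
        · rw [Nat.choose_eq_zero_of_lt (not_le.1 ha)]
          simp
      simp only [h0, zero_mul]
    rw [e4]
    refine sum_bij' (fun x _ => (⟨x.1 + x.2, (x.1, x.2)⟩ : Σ _ : ℕ, ℕ × ℕ)) (fun x _ => x.2)
      ?_ ?_ ?_ ?_ ?_
    · rintro ⟨a, b⟩ hx
      simp only [mem_product, mem_range] at hx
      simp only [mem_filter, mem_sigma, mem_range, HasAntidiagonal.mem_antidiagonal]
      refine ⟨⟨?_, trivial⟩, ?_, ?_⟩
      · show a + b < A + B + 1
        omega
      · show a ≤ A
        omega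
      · show b ≤ B
        omega
    · rintro ⟨c, a, b⟩ hx
      simp only [mem_filter, mem_sigma, mem_range, HasAntidiagonal.mem_antidiagonal] at hx
      simp only [mem_product, mem_range]
      omega
    · rintro ⟨a, b⟩ hx
      rfl
    · rintro ⟨c, a, b⟩ hx
      simp only [mem_filter, mem_sigma, mem_range, HasAntidiagonal.mem_antidiagonal] at hx
      obtain ⟨⟨_, rfl⟩, _⟩ := hx
      rfl
    · rintro ⟨a, b⟩ hx
      rfl
  -- compute the left hand side
  have L : ∑ a ∈ range (A + 1), ∑ b ∈ range (B + 1), w a b * (f a + g b) =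
      (A + B + 1) / (A + 1) * ∑ a ∈ range (A + 1), f a +
      (A + B + 1) / (B + 1) * ∑ b ∈ range (B + 1), g b := by
    have e1 : ∑ a ∈ range (A + 1), ∑ b ∈ range (B + 1), w a b * (f a + g b) =
        ∑ a ∈ range (A + 1), (∑ b ∈ range (B + 1), w a b) * f a +
        ∑ a ∈ range (A + 1), ∑ b ∈ range (B + 1), w a b * g b := by
      rw [← sum_add_distrib]
      apply sum_congr rfl
      intro a _
      rw [sum_mul, ← sum_add_distrib]
      apply sum_congr rfl
      intro b _
      ring
    rw [e1]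
    congr 1
    · rw [mul_sum]
      apply sum_congr rfl
      intro a ha
      rw [hw1 a (by have := mem_range.1 ha; omega)]
    · rw [sum_comm, mul_sum]
      apply sum_congr rfl
      intro b hb
      rw [← sum_mul, hw2 b (by have := mem_range.1 hb; omega)]
  rw [L] at T
  unfold avg
  have p1 : (0 : ℝ) < (A : ℝ) + 1 := by positivity
  have p2 : (0 : ℝ) < (B : ℝ) + 1 := by positivity
  have p3 : (0 : ℝ) < (A : ℝ) + B + 1 := by positivity
  push_cast
  rw [le_div_iff₀ p3]
  refine le_trans (le_of_eq ?_) T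
  field_simp

/-- average over a box. -/
noncomputable def avg2 (A B : ℕ) (f : ℕ → ℕ → ℝ) : ℝ := avg A fun a => avg B fun b => f a b

theorem avg2_add_le {A₁ A₂ B₁ B₂ : ℕ} {f g h : ℕ → ℕ → ℝ}
    (H : ∀ a₁ ≤ A₁, ∀ a₂ ≤ A₂, ∀ b₁ ≤ B₁, ∀ b₂ ≤ B₂, f a₁ b₁ + g a₂ b₂ ≤ h (a₁ + a₂) (b₁ + b₂)) :
    avg2 A₁ B₁ f + avg2 A₂ B₂ g ≤ avg2 (A₁ + A₂) (B₁ + B₂) h := by
  unfold avg2
  apply avg_add_le
  intro a₁ ha₁ a₂ ha₂
  apply avg_add_le
  intro b₁ hb₁ b₂ hb₂
  exact H a₁ ha₁ a₂ ha₂ b₁ hb₁ b₂ hb₂

theorem avg_mono {A : ℕ} {f g : ℕ → ℝ} (H : ∀ a ≤ A, f a ≤ g a) : avg A f ≤ avg A g := by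
  unfold avg
  apply div_le_div_of_nonneg_right _ (by positivity)
  apply sum_le_sum
  intro a ha
  exact H a (by have := mem_range.1 ha; omega)

theorem avg2_mono {A B : ℕ} {f g : ℕ → ℕ → ℝ} (H : ∀ a ≤ A, ∀ b ≤ B, f a b ≤ g a b) :
    avg2 A B f ≤ avg2 A B g :=
  avg_mono fun a ha => avg_mono fun b hb => H a ha b hb

theorem avg_const (A : ℕ) (c : ℝ) : avg A (fun _ => c) = c := by
  unfold avg
  rw [sum_const, card_range, nsmul_eq_mul]
  push_cast
  have p1 : (0 : ℝ) < (A : ℝ) + 1 := by positivity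
  field_simp

theorem avg2_const (A B : ℕ) (c : ℝ) : avg2 A B (fun _ _ => c) = c := by
  unfold avg2
  simp only [avg_const]

theorem avg_add (A : ℕ) (f g : ℕ → ℝ) : avg A (fun a => f a + g a) = avg A f + avg A g := by
  unfold avg
  rw [sum_add_distrib, add_div]

theorem avg_mul (A : ℕ) (c : ℝ) (f : ℕ → ℝ) : avg A (fun a => c * f a) = c * avg A f := by
  unfold avg
  rw [← mul_sum, mul_div_assoc]

theorem avg2_add (A B : ℕ) (f g : ℕ → ℕ → ℝ) :
    avg2 A B (fun a b => f a b + g a b) = avg2 A B f + avg2 A B g := by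
  unfold avg2
  simp only [avg_add]

theorem avg2_mul (A B : ℕ) (c : ℝ) (f : ℕ → ℕ → ℝ) :
    avg2 A B (fun a b => c * f a b) = c * avg2 A B f := by
  unfold avg2
  simp only [avg_mul]

theorem avg2_eq (A B : ℕ) (f : ℕ → ℕ → ℝ) :
    ((A : ℝ) + 1) * ((B : ℝ) + 1) * avg2 A B f =
      ∑ a ∈ range (A + 1), ∑ b ∈ range (B + 1), f a b := by
  unfold avg2 avg
  rw [← sum_div]
  field_simp

end Pool.Agent.YTD
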