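import Pool.Agent.YTD.HypFinal

/-!
Étale double covers of curves presented by local parametrisations.
-/

namespace Pool.Agent.YTD.Hyp

open Module

noncomputable section

/-- A curve together with embeddings of its function field in the field of Laurent series, one
for each point. -/
structure CurveP {F : Type} [Field F] [Algebra ℂ F] (Λ : LF F) (K : Type) [Field K]
    [Algebra ℂ K] where
  Pt : Type
  phi : Pt → K →ₐ[ℂ] F
  finite_ord : ∀ z : K, z ≠ 0 → {P : Pt | Λ.ord (phi P z) ≠ 0}.Finite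
  sum_ord : ∀ z : K, z ≠ 0 → ∑ᶠ P, Λ.ord (phi P z) = 0

namespace CurveP

variable {F : Type} [Field F] [Algebra ℂ F] {Λ : LF F} {K : Type} [Field K] [Algebra ℂ K]
variable (X : CurveP Λ K)

theorem phi_ne (P : X.Pt) {z : K} (hz : z ≠ 0) : X.phi P z ≠ 0 := (map_ne_zero _).2 hz

/-- the underlying curve -/
@[reducible] def toOrd : CurveOrd K where
  Pt := X.Pt
  ord P z := Λ.ord (X.phi P z)
  ord_mul P f g hf hg := by
    rw [map_mul, Λ.ord_mul (X.phi_ne P hf) (X.phi_ne P hg)]
  ord_add P f g _ _ h := by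
    rw [map_add]
    apply Λ.ord_add
    rw [← map_add]
    exact X.phi_ne P h
  ord_const P c _ := by
    rw [AlgHom.commutes, Λ.ord_const]
  finite_ord := X.finite_ord
  sum_ord := X.sum_ord

theorem res : X.toOrd.Res := by
  intro P f g hf hg h
  obtain ⟨c, hc⟩ := Λ.res (X.phi_ne P hf) (X.phi_ne P hg) h
  refine ⟨c, ?_⟩
  by_cases h0 : f - c • g = 0
  · exact Or.inl h0
  right
  have h1 := X.phi_ne P h0
  have h2 : X.phi P (f - c • g) = X.phi P f - c • X.phi P g := by
    rw [map_sub, map_smul]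
  rcases hc with hc | hc
  · rw [h2] at h1
    exact absurd hc h1
  · show Λ.ord _ < Λ.ord _
    rw [h2]
    exact hc

/-- Riemann-Roch in large degrees -/
def RRL (g : ℤ) : Prop := ∃ c : ℤ, ∀ D : X.Pt →₀ ℤ, c ≤ X.toOrd.deg D →
  (finrank ℂ (X.toOrd.L D) : ℤ) = X.toOrd.deg D + 1 - g

end CurveP

theorem deg_eq_finsum {K : Type} [Field K] [Algebra ℂ K] (X : CurveOrd K) (D : X.Pt →₀ ℤ) :
    X.deg D = ∑ᶠ P, D P := by
  unfold CurveOrd.deg
  rw [Finsupp.sum]
  symm
  exact finsum_eq_sum_of_support_subset _ (by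
    intro P hP
    simpa using hP)

/-! ### Double covers -/

/-- nonsquare condition -/
abbrev NonSqK {K : Type} [Field K] (h : K) : Prop := Fact (∀ r : K, r ^ 2 ≠ h + 0 * r)

/-- the field `K(√h)` -/
abbrev DK {K : Type} [Field K] (h : K) := QuadraticAlgebra K h 0

section dbl

variable {F : Type} [Field F] [Algebra ℂ F] {Λ : LF F} {K : Type} [Field K] [Algebra ℂ K]
variable (X : CurveP Λ K) (h : K)

/-- the points of the double cover -/
abbrev DPt : Type := {x : X.Pt × F // x.2 ^ 2 = X.phi x.1 h}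

variable {X h}

/-- the local parametrisation of the double cover -/
def dphi (x : DPt X h) : DK h →ₐ[ℂ] F where
  toFun z := X.phi x.1.1 z.re + X.phi x.1.1 z.im * x.1.2
  map_one' := by
    rw [QuadraticAlgebra.re_one, QuadraticAlgebra.im_one, map_one, map_zero]
    ring
  map_zero' := by
    rw [QuadraticAlgebra.re_zero, QuadraticAlgebra.im_zero, map_zero]
    ring
  map_mul' z w := by
    rw [QuadraticAlgebra.re_mul, QuadraticAlgebra.im_mul, map_add, map_mul, map_mul, map_mul,
      map_add, map_add, map_mul, map_mul, map_mul, map_mul, map_zero, ← x.2]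
    ring
  map_add' z w := by
    rw [QuadraticAlgebra.re_add, QuadraticAlgebra.im_add, map_add, map_add]
    ring
  commutes' c := by
    have h1 : (algebraMap ℂ (DK h) c).re = algebraMap ℂ K c := rfl
    have h2 : (algebraMap ℂ (DK h) c).im = 0 := rfl
    rw [h1, h2, map_zero, zero_mul, add_zero, AlgHom.commutes]

theorem dphi_apply (x : DPt X h) (z : DK h) :
    dphi x z = X.phi x.1.1 z.re + X.phi x.1.1 z.im * x.1.2 := rfl

/-- the conjugate point -/
def dneg (x : DPt X h) : DPt X h := ⟨(x.1.1, -x.1.2), by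
  show (-x.1.2) ^ 2 = X.phi x.1.1 h
  rw [neg_sq, x.2]⟩

theorem dneg_dneg (x : DPt X h) : dneg (dneg x) = x := by
  apply Subtype.ext
  apply Prod.ext
  · rfl
  · show - - x.1.2 = x.1.2
    rw [neg_neg]

theorem dphi_dneg (x : DPt X h) (z : DK h) : dphi (dneg x) z = dphi x (star z) := by
  rw [dphi_apply, dphi_apply, QuadraticAlgebra.re_star, QuadraticAlgebra.im_star, zero_mul,
    add_zero, map_neg]
  show X.phi x.1.1 z.re + X.phi x.1.1 z.im * (-x.1.2) = _
  ring

/-- the norm -/
def nrm (z : DK h) : K := z.re * z.re - h * (z.im * z.im)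

theorem dphi_mul_dneg (x : DPt X h) (z : DK h) :
    dphi x z * dphi (dneg x) z = X.phi x.1.1 (nrm z) := by
  unfold nrm
  rw [dphi_apply, dphi_apply, map_sub, map_mul, map_mul, map_mul, ← x.2]
  show (X.phi x.1.1 z.re + X.phi x.1.1 z.im * x.1.2) *
    (X.phi x.1.1 z.re + X.phi x.1.1 z.im * (-x.1.2)) = _
  ring

theorem mul_star_eq (z : DK h) : z * star z = algebraMap K (DK h) (nrm z) := by
  apply QuadraticAlgebra.ext
  · rw [QuadraticAlgebra.re_mul, QuadraticAlgebra.re_star, QuadraticAlgebra.im_star]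
    show _ = nrm z
    unfold nrm
    ring
  · rw [QuadraticAlgebra.im_mul, QuadraticAlgebra.re_star, QuadraticAlgebra.im_star]
    show _ = (0 : K)
    ring

variable [hns : NonSqK h]

include hns in
theorem h_ne : h ≠ 0 := by
  intro h0
  apply hns.out 0
  rw [h0]
  ring

theorem dstar_ne {z : DK h} (hz : z ≠ 0) : star z ≠ 0 := by
  intro h1
  apply hz
  rw [← star_star z, h1, star_zero]

theorem nrm_ne {z : DK h} (hz : z ≠ 0) : nrm z ≠ 0 := by
  intro h1
  have h2 := mul_star_eq z
  rw [h1, map_zero] at h2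
  exact mul_ne_zero hz (dstar_ne hz) h2

theorem dphi_ne (x : DPt X h) {z : DK h} (hz : z ≠ 0) : dphi x z ≠ 0 := (map_ne_zero _).2 hz

theorem eta_ne (x : DPt X h) : x.1.2 ≠ 0 := by
  intro h0
  have h1 := x.2
  rw [h0] at h1
  exact X.phi_ne x.1.1 (h_ne (h := h)) (by rw [← h1]; ring)

theorem ord_eta (x : DPt X h) : 2 * Λ.ord x.1.2 = Λ.ord (X.phi x.1.1 h) := by
  rw [← x.2, LF.ord_pow (eta_ne x)]
  rfl

theorem ord_dneg (x : DPt X h) {z : DK h} (hz : z ≠ 0) :
    Λ.ord (dphi x z) + Λ.ord (dphi (dneg x) z) = Λ.ord (X.phi x.1.1 (nrm z)) := by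
  rw [← dphi_mul_dneg, Λ.ord_mul (dphi_ne _ hz) (dphi_ne _ hz)]

/-- lower bound for the order of `u + v √h` -/
theorem le_ord_dphi (x : DPt X h) {z : DK h} (hz : z ≠ 0) {m : ℤ}
    (h1 : z.re ≠ 0 → m ≤ Λ.ord (X.phi x.1.1 z.re))
    (h2 : z.im ≠ 0 → m ≤ Λ.ord (X.phi x.1.1 z.im) + Λ.ord x.1.2) : m ≤ Λ.ord (dphi x z) := by
  by_cases ha : z.re = 0
  · have hb : z.im ≠ 0 := by
      intro hb
      apply hz
      exact QuadraticAlgebra.ext ha hb
    rw [dphi_apply, ha, map_zero, zero_add, Λ.ord_mul (X.phi_ne _ hb) (eta_ne x)]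
    exact h2 hb
  by_cases hb : z.im = 0
  · rw [dphi_apply, hb, map_zero, zero_mul, add_zero]
    exact h1 ha
  have h3 : dphi x z ≠ 0 := dphi_ne x hz
  rw [dphi_apply] at h3 ⊢
  have h4 := Λ.ord_add h3
  rw [Λ.ord_mul (X.phi_ne _ hb) (eta_ne x)] at h4
  exact le_trans (le_min (h1 ha) (h2 hb)) h4

theorem eta_eq_or (x y : DPt X h) (hxy : x.1.1 = y.1.1) : y = x ∨ y = dneg x := by
  have h1 : y.1.2 ^ 2 = x.1.2 ^ 2 := by
    rw [x.2, y.2, hxy]
  rcases sq_eq_sq_iff_eq_or_eq_neg.1 h1 with h2 | h2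
  · left
    apply Subtype.ext
    exact Prod.ext hxy.symm h2
  · right
    apply Subtype.ext
    exact Prod.ext hxy.symm h2

theorem finite_dfiber (P : X.Pt) : {x : DPt X h | x.1.1 = P}.Finite := by
  by_cases h0 : ∃ x : DPt X h, x.1.1 = P
  · obtain ⟨x, hx⟩ := h0
    apply (Set.toFinite ({x, dneg x} : Set (DPt X h))).subset
    intro y hy
    have hy' : y.1.1 = P := hy
    rcases eta_eq_or x y (by rw [hx, hy']) with h1 | h1
    · left
      exact h1
    · right
      exact h1
  · push Not at h0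
    have : {x : DPt X h | x.1.1 = P} = ∅ := by
      ext x
      simp [h0 x]
    rw [this]
    exact Set.finite_empty

theorem finite_preim {A : Set X.Pt} (hA : A.Finite) : {x : DPt X h | x.1.1 ∈ A}.Finite := by
  have : {x : DPt X h | x.1.1 ∈ A} = ⋃ P ∈ A, {x : DPt X h | x.1.1 = P} := by
    ext x
    simp
  rw [this]
  exact hA.biUnion fun P _ => finite_dfiber P

theorem finite_dord {z : DK h} (hz : z ≠ 0) : {x : DPt X h | Λ.ord (dphi x z) ≠ 0}.Finite := by
  have hA1 : {P : X.Pt | z.re ≠ 0 ∧ Λ.ord (X.phi P z.re) ≠ 0}.Finite := by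
    by_cases h0 : z.re = 0
    · simp [h0]
    · exact (X.finite_ord _ h0).subset fun P hP => hP.2
  have hA2 : {P : X.Pt | z.im ≠ 0 ∧ Λ.ord (X.phi P z.im) ≠ 0}.Finite := by
    by_cases h0 : z.im = 0
    · simp [h0]
    · exact (X.finite_ord _ h0).subset fun P hP => hP.2
  have hA3 := X.finite_ord h (h_ne (h := h))
  have hA4 := X.finite_ord _ (nrm_ne hz)
  apply (finite_preim (X := X) (h := h) (hA1.union (hA2.union (hA3.union hA4)))).subset
  intro x hx
  by_contra hP
  simp only [Set.mem_ofPred_eq, Set.mem_union, not_or, not_and, not_not] at hP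
  obtain ⟨h1, h2, h3, h4⟩ := hP
  have he : Λ.ord x.1.2 = 0 := by
    have := ord_eta x
    rw [h3] at this
    linarith
  have h5 : 0 ≤ Λ.ord (dphi x z) := by
    apply le_ord_dphi x hz
    · intro h0
      rw [h1 h0]
    · intro h0
      rw [h2 h0, he, add_zero]
  have h6 : 0 ≤ Λ.ord (dphi (dneg x) z) := by
    apply le_ord_dphi (dneg x) hz
    · intro h0
      show 0 ≤ Λ.ord (X.phi x.1.1 z.re)
      rw [h1 h0]
    · intro h0
      show 0 ≤ Λ.ord (X.phi x.1.1 z.im) + Λ.ord (-x.1.2)
      rw [h2 h0, LF.ord_neg, he, add_zero]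
  have h7 := ord_dneg x hz
  rw [h4] at h7
  exact hx (by linarith)

theorem exists_root (hev : ∀ P, Even (Λ.ord (X.phi P h))) (P : X.Pt) :
    ∃ η : F, η ^ 2 = X.phi P h := by
  obtain ⟨b, hb⟩ := IsAlgClosed.exists_pow_nat_eq (Λ.lc (X.phi P h)) (n := 2) (by norm_num)
  obtain ⟨η, h1, _⟩ := Λ.sqrt (X.phi_ne P (h_ne (h := h))) (hev P) b hb
  exact ⟨η, h1⟩

/-- a chosen root at every point -/
def rt (hev : ∀ P, Even (Λ.ord (X.phi P h))) (P : X.Pt) : F := (exists_root hev P).choose

theorem rt_sq (hev : ∀ P, Even (Λ.ord (X.phi P h))) (P : X.Pt) :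
    rt hev P ^ 2 = X.phi P h := (exists_root hev P).choose_spec

/-- the chosen point over `P` -/
def lft (hev : ∀ P, Even (Λ.ord (X.phi P h))) (P : X.Pt) : DPt X h := ⟨(P, rt hev P), rt_sq hev P⟩

/-- a point is given by its image and a sign -/
def dEquiv (hev : ∀ P, Even (Λ.ord (X.phi P h))) : X.Pt × Bool ≃ DPt X h :=
  Equiv.ofBijective (fun y => if y.2 then lft hev y.1 else dneg (lft hev y.1)) (by
    constructor
    · rintro ⟨P, b⟩ ⟨Q, c⟩ hPQ
      have h1 : P = Q := by
        have h2 := congrArg (fun x : DPt X h => x.1.1) hPQ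
        cases b <;> cases c <;> exact h2
      subst h1
      have h2 := congrArg (fun x : DPt X h => x.1.2) hPQ
      have h3 : rt hev P ≠ - rt hev P := by
        intro h4
        have h5 : (2 : F) * rt hev P = 0 := by
          rw [two_mul]
          nth_rewrite 1 [h4]
          ring
        rcases mul_eq_zero.1 h5 with h6 | h6
        · have h7 : (algebraMap ℂ F 2) = 0 := by
            rw [map_ofNat]
            exact h6
          exact (map_ne_zero (algebraMap ℂ F)).2 (two_ne_zero) h7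
        · exact eta_ne (lft hev P) h6
      cases b <;> cases c
      · rfl
      · exfalso
        exact h3 h2.symm
      · exfalso
        exact h3 h2
      · rfl
    · intro x
      rcases eta_eq_or (lft hev x.1.1) x rfl with h1 | h1
      · exact ⟨(x.1.1, true), h1.symm⟩
      · exact ⟨(x.1.1, false), h1.symm⟩)

theorem dEquiv_true (hev : ∀ P, Even (Λ.ord (X.phi P h))) (P : X.Pt) :
    dEquiv hev (P, true) = lft hev P := rfl

theorem dEquiv_false (hev : ∀ P, Even (Λ.ord (X.phi P h))) (P : X.Pt) :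
    dEquiv hev (P, false) = dneg (lft hev P) := rfl

theorem finsum_fib (hev : ∀ P, Even (Λ.ord (X.phi P h))) {f : DPt X h → ℤ}
    (hf : (Function.support f).Finite) :
    ∑ᶠ x, f x = ∑ᶠ P, (f (lft hev P) + f (dneg (lft hev P))) := by
  rw [← finsum_comp_equiv (dEquiv hev) (f := f), finsum_curry]
  · apply finsum_congr
    intro P
    rw [finsum_eq_sum_of_fintype, Fintype.sum_bool]
    rfl
  · have : (Function.support fun i => f (dEquiv hev i)) = (dEquiv hev) ⁻¹' Function.support f := rfl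
    show (Function.support fun i => f (dEquiv hev i)).Finite
    rw [this]
    exact hf.preimage (dEquiv hev).injective.injOn

variable (X h)

/-- The étale double cover of `X` given by `√h`, where `h` has even orders. -/
@[reducible] def CurveP.dbl (hev : ∀ P, Even (Λ.ord (X.phi P h))) : CurveP Λ (DK h) where
  Pt := DPt X h
  phi := dphi
  finite_ord z hz := finite_dord hz
  sum_ord z hz := by
    rw [finsum_fib hev (finite_dord hz)]
    have h1 : (fun P => Λ.ord (dphi (lft hev P) z) + Λ.ord (dphi (dneg (lft hev P)) z)) =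
        fun P => Λ.ord (X.phi P (nrm z)) := by
      funext P
      exact ord_dneg (lft hev P) hz
    rw [h1]
    exact X.sum_ord _ (nrm_ne hz)

variable {X h}

end dbl

end

end Pool.Agent.YTD.Hyp
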