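import Pool.Agent.YTD.CovRR

/-!
Deck transformations of étale double covers, and squares in quadratic extensions.
-/

namespace Pool.Agent.YTD.Hyp

open Module

noncomputable section

/-! ### Squares -/

theorem sq_of_sq {K : Type} [Field K] [CharZero K] {h u : K} {r : DK h}
    (hr : r ^ 2 = algebraMap K (DK h) u) : (∃ a : K, a ^ 2 = u) ∨ ∃ a : K, a ^ 2 = u * h := by
  have h1 := congrArg QuadraticAlgebra.re hr
  have h2 := congrArg QuadraticAlgebra.im hr
  rw [sq, QuadraticAlgebra.re_mul] at h1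
  rw [sq, QuadraticAlgebra.im_mul] at h2
  have h3 : (algebraMap K (DK h) u).re = u := rfl
  have h4 : (algebraMap K (DK h) u).im = 0 := rfl
  rw [h3] at h1
  rw [h4] at h2
  have h5 : (2 : K) * (r.re * r.im) = 0 := by
    linear_combination h2
  rcases mul_eq_zero.1 h5 with h6 | h6
  · exact absurd h6 two_ne_zero
  rcases mul_eq_zero.1 h6 with h7 | h7
  · right
    refine ⟨h * r.im, ?_⟩
    rw [h7] at h1
    linear_combination h * h1
  · left
    refine ⟨r.re, ?_⟩
    rw [h7] at h1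
    linear_combination h1

theorem nonSqK_of {K : Type} [Field K] [CharZero K] {h u : K} (h1 : ∀ a : K, a ^ 2 ≠ u)
    (h2 : ∀ a : K, a ^ 2 ≠ u * h) : ∀ r : DK h, r ^ 2 ≠ algebraMap K (DK h) u := by
  intro r hr
  rcases sq_of_sq hr with ⟨a, ha⟩ | ⟨a, ha⟩
  · exact h1 a ha
  · exact h2 a ha

theorem NonSqK.mk' {K : Type} [Field K] {h : K} (h1 : ∀ a : K, a ^ 2 ≠ h) : NonSqK h := by
  refine ⟨?_⟩
  intro r hr
  rw [zero_mul, add_zero] at hr
  exact h1 r hr

/-! ### Deck transformations -/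

variable {F : Type} [Field F] [Algebra ℂ F] {Λ : LF F} {K : Type} [Field K] [Algebra ℂ K]

/-- An involution of the curve compatible with the parametrisations. -/
structure Deck (X : CurveP Λ K) where
  θ : K ≃ₐ[ℂ] K
  σ : X.Pt → X.Pt
  θθ : ∀ z, θ (θ z) = z
  σσ : ∀ P, σ (σ P) = P
  comp : ∀ P z, X.phi (σ P) (θ z) = X.phi P z

variable {X : CurveP Λ K} {h : K}

/-- extension of an automorphism fixing `h` -/
def liftHom (θ : K ≃ₐ[ℂ] K) (hθ : θ h = h) : DK h →ₐ[ℂ] DK h where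
  toFun z := ⟨θ z.re, θ z.im⟩
  map_one' := by
    apply QuadraticAlgebra.ext
    · show θ (1 : DK h).re = (1 : DK h).re
      rw [QuadraticAlgebra.re_one, map_one]
    · show θ (1 : DK h).im = (1 : DK h).im
      rw [QuadraticAlgebra.im_one, map_zero]
  map_zero' := by
    apply QuadraticAlgebra.ext
    · show θ (0 : DK h).re = (0 : DK h).re
      rw [QuadraticAlgebra.re_zero, map_zero]
    · show θ (0 : DK h).im = (0 : DK h).im
      rw [QuadraticAlgebra.im_zero, map_zero]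
  map_mul' z w := by
    apply QuadraticAlgebra.ext
    · show θ (z * w).re = ((⟨θ z.re, θ z.im⟩ : DK h) * ⟨θ w.re, θ w.im⟩).re
      simp only [QuadraticAlgebra.re_mul, map_add, map_mul, hθ]
    · show θ (z * w).im = ((⟨θ z.re, θ z.im⟩ : DK h) * ⟨θ w.re, θ w.im⟩).im
      simp only [QuadraticAlgebra.im_mul, map_add, map_mul, map_zero]
  map_add' z w := by
    apply QuadraticAlgebra.ext
    · show θ (z + w).re = ((⟨θ z.re, θ z.im⟩ : DK h) + ⟨θ w.re, θ w.im⟩).re
      simp only [QuadraticAlgebra.re_add, map_add]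
    · show θ (z + w).im = ((⟨θ z.re, θ z.im⟩ : DK h) + ⟨θ w.re, θ w.im⟩).im
      simp only [QuadraticAlgebra.im_add, map_add]
  commutes' c := by
    have h1 : (algebraMap ℂ (DK h) c).re = algebraMap ℂ K c := rfl
    have h2 : (algebraMap ℂ (DK h) c).im = 0 := rfl
    apply QuadraticAlgebra.ext
    · show θ (algebraMap ℂ (DK h) c).re = (algebraMap ℂ (DK h) c).re
      rw [h1, AlgEquiv.commutes]
    · show θ (algebraMap ℂ (DK h) c).im = (algebraMap ℂ (DK h) c).im
      rw [h2, map_zero]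

/-- conjugation -/
def conjHom (h : K) : DK h →ₐ[ℂ] DK h where
  toFun z := ⟨z.re, -z.im⟩
  map_one' := by
    apply QuadraticAlgebra.ext
    · rfl
    · show - (1 : DK h).im = (1 : DK h).im
      rw [QuadraticAlgebra.im_one, neg_zero]
  map_zero' := by
    apply QuadraticAlgebra.ext
    · rfl
    · show - (0 : DK h).im = (0 : DK h).im
      rw [QuadraticAlgebra.im_zero, neg_zero]
  map_mul' z w := by
    apply QuadraticAlgebra.ext
    · show (z * w).re = ((⟨z.re, -z.im⟩ : DK h) * ⟨w.re, -w.im⟩).re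
      simp only [QuadraticAlgebra.re_mul]
      ring
    · show - (z * w).im = ((⟨z.re, -z.im⟩ : DK h) * ⟨w.re, -w.im⟩).im
      simp only [QuadraticAlgebra.im_mul]
      ring
  map_add' z w := by
    apply QuadraticAlgebra.ext
    · show (z + w).re = ((⟨z.re, -z.im⟩ : DK h) + ⟨w.re, -w.im⟩).re
      simp only [QuadraticAlgebra.re_add]
    · show - (z + w).im = ((⟨z.re, -z.im⟩ : DK h) + ⟨w.re, -w.im⟩).im
      simp only [QuadraticAlgebra.im_add]
      ring
  commutes' c := by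
    have h2 : (algebraMap ℂ (DK h) c).im = 0 := rfl
    apply QuadraticAlgebra.ext
    · rfl
    · show - (algebraMap ℂ (DK h) c).im = (algebraMap ℂ (DK h) c).im
      rw [h2, neg_zero]

theorem conjHom_alg (h u : K) : conjHom h (algebraMap K (DK h) u) = algebraMap K (DK h) u := by
  apply QuadraticAlgebra.ext
  · rfl
  · show - (0 : K) = 0
    rw [neg_zero]

theorem liftHom_alg (θ : K ≃ₐ[ℂ] K) (hθ : θ h = h) (u : K) :
    liftHom θ hθ (algebraMap K (DK h) u) = algebraMap K (DK h) (θ u) := by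
  apply QuadraticAlgebra.ext
  · rfl
  · show θ 0 = 0
    rw [map_zero]

/-- extension of an involution -/
def liftEquiv (θ : K ≃ₐ[ℂ] K) (hθ : θ h = h) (hθθ : ∀ z, θ (θ z) = z) : DK h ≃ₐ[ℂ] DK h :=
  AlgEquiv.ofAlgHom (liftHom θ hθ) (liftHom θ hθ)
    (AlgHom.ext fun z => QuadraticAlgebra.ext (hθθ z.re) (hθθ z.im))
    (AlgHom.ext fun z => QuadraticAlgebra.ext (hθθ z.re) (hθθ z.im))

/-- conjugation as an automorphism -/
def conjEquiv (h : K) : DK h ≃ₐ[ℂ] DK h :=
  AlgEquiv.ofAlgHom (conjHom h) (conjHom h)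
    (AlgHom.ext fun z => QuadraticAlgebra.ext rfl (neg_neg z.im))
    (AlgHom.ext fun z => QuadraticAlgebra.ext rfl (neg_neg z.im))

variable [hns : NonSqK h] {hev : ∀ P, Even (Λ.ord (X.phi P h))}

/-- the deck transformation of the double cover -/
def deckConj (hev : ∀ P, Even (Λ.ord (X.phi P h))) : Deck (X.dbl h hev) where
  θ := conjEquiv h
  σ := dneg
  θθ z := QuadraticAlgebra.ext rfl (neg_neg z.im)
  σσ := dneg_dneg
  comp x z := by
    show dphi (dneg x) (conjHom h z) = dphi x z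
    rw [dphi_apply, dphi_apply]
    show X.phi x.1.1 z.re + X.phi x.1.1 (- z.im) * (- x.1.2) = _
    rw [map_neg]
    ring

/-- extension of an involution on points -/
def liftPt (δ : Deck X) (hδ : δ.θ h = h) (x : DPt X h) : DPt X h :=
  ⟨(δ.σ x.1.1, x.1.2), by
    show x.1.2 ^ 2 = X.phi (δ.σ x.1.1) h
    have h1 := δ.comp x.1.1 h
    rw [hδ] at h1
    rw [h1, x.2]⟩

/-- extension of an involution of the curve to the double cover -/
def Deck.lift (δ : Deck X) (hδ : δ.θ h = h) (hev : ∀ P, Even (Λ.ord (X.phi P h))) :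
    Deck (X.dbl h hev) where
  θ := liftEquiv δ.θ hδ δ.θθ
  σ := liftPt δ hδ
  θθ z := QuadraticAlgebra.ext (δ.θθ z.re) (δ.θθ z.im)
  σσ x := by
    apply Subtype.ext
    apply Prod.ext
    · exact δ.σσ x.1.1
    · rfl
  comp x z := by
    show dphi (liftPt δ hδ x) (liftHom δ.θ hδ z) = dphi x z
    rw [dphi_apply, dphi_apply]
    show X.phi (δ.σ x.1.1) (δ.θ z.re) + X.phi (δ.σ x.1.1) (δ.θ z.im) * x.1.2 = _
    rw [δ.comp, δ.comp]

/-- two commuting involutions -/
structure Deck.Comm (δ ε : Deck X) : Prop where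
  θ : ∀ z, δ.θ (ε.θ z) = ε.θ (δ.θ z)
  σ : ∀ P, δ.σ (ε.σ P) = ε.σ (δ.σ P)

theorem Deck.Comm.lift {δ ε : Deck X} (c : δ.Comm ε) (hδ : δ.θ h = h) (hε : ε.θ h = h) :
    (δ.lift hδ hev).Comm (ε.lift hε hev) where
  θ z := QuadraticAlgebra.ext (c.θ z.re) (c.θ z.im)
  σ x := by
    apply Subtype.ext
    apply Prod.ext
    · exact c.σ x.1.1
    · rfl

theorem Deck.lift_comm_conj (δ : Deck X) (hδ : δ.θ h = h) :
    (δ.lift hδ hev).Comm (deckConj hev) where
  θ z := QuadraticAlgebra.ext rfl (map_neg δ.θ z.im)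
  σ x := by
    apply Subtype.ext
    apply Prod.ext
    · rfl
    · rfl

theorem Deck.Comm.symm {δ ε : Deck X} (c : δ.Comm ε) : ε.Comm δ :=
  ⟨fun z => (c.θ z).symm, fun P => (c.σ P).symm⟩

theorem dneg_ne [CharZero F] (x : DPt X h) : dneg x ≠ x := by
  intro h1
  have h2 : - x.1.2 = x.1.2 := congrArg (fun y : DPt X h => y.1.2) h1
  exact eta_ne x (self_eq_neg.1 h2.symm)

end

end Pool.Agent.YTD.Hyp
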