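import Pool.Agent.YTD.HypGamma

/-!
The group `Γ = (ℤ/2)³` acting freely on the curve and on the section ring.
-/

namespace Pool.Agent.YTD

open Finset Module MvPolynomial Filter

variable {K : Type} [Field K] [Algebra ℂ K]
variable {T : Datum K} {q : ℕ} {D₀ : T.X.Pt →₀ ℤ} {r : ℕ}

/-! ### Automorphisms of the coefficient field -/

/-- The automorphism of `K[x₀, x₁, y₀, y₁]` acting by `θ` on the coefficients. -/
noncomputable def coefE (θ : K ≃ₐ[ℂ] K) : Autom K := mapAlgEquiv (Fin 4) θ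

theorem coefE_apply (θ : K ≃ₐ[ℂ] K) (f : MvPolynomial (Fin 4) K) :
    coefE θ f = MvPolynomial.map (θ : K →+* K) f := rfl

theorem coefE_symm (θ : K ≃ₐ[ℂ] K) : (coefE θ).symm = coefE θ.symm := rfl

theorem coeff_coefE (θ : K ≃ₐ[ℂ] K) (f : MvPolynomial (Fin 4) K) (e : Fin 4 →₀ ℕ) :
    (coefE θ f).coeff e = θ (f.coeff e) := by
  rw [coefE_apply, coeff_map]
  rfl

theorem coefE_X (θ : K ≃ₐ[ℂ] K) (i : Fin 4) : coefE θ (X i) = X i := by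
  rw [coefE_apply, map_X]

theorem coefE_C (θ : K ≃ₐ[ℂ] K) (c : K) : coefE θ (C c) = C (θ c) := by
  rw [coefE_apply, map_C]
  rfl

/-- Complex substitutions commute with automorphisms of the coefficients. -/
theorem coefE_subst (θ : K ≃ₐ[ℂ] K) (g h : Matrix (Fin 2) (Fin 2) ℂ)
    (f : MvPolynomial (Fin 4) K) : coefE θ (subst g h f) = subst g h (coefE θ f) := by
  induction f using MvPolynomial.induction_on with
  | C a =>
    have e1 : subst g h (C a) = C a := (subst (K := K) g h).commutes a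
    have e2 : subst g h (C (θ a)) = C (θ a) := (subst (K := K) g h).commutes (θ a)
    rw [e1, coefE_C, e2]
  | add p p' h1 h2 => rw [map_add, map_add, h1, h2, map_add, map_add]
  | mul_X p i hp =>
    rw [map_mul, map_mul, hp, map_mul, map_mul, coefE_X]
    congr 1
    have hi : i = 0 ∨ i = 1 ∨ i = 2 ∨ i = 3 := by
      fin_cases i <;> simp
    rcases hi with rfl | rfl | rfl | rfl
    · rw [subst_X0, map_add, map_smul, map_smul, coefE_X, coefE_X]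
    · rw [subst_X1, map_add, map_smul, map_smul, coefE_X, coefE_X]
    · rw [subst_X2, map_add, map_smul, map_smul, coefE_X, coefE_X]
    · rw [subst_X3, map_add, map_smul, map_smul, coefE_X, coefE_X]

/-- An automorphism of the curve (a field automorphism with the corresponding permutation of
the points) of order two preserving `S` and `S'`. -/
structure Sym (T : Datum K) where
  θ : K ≃ₐ[ℂ] K
  σ : T.X.Pt → T.X.Pt
  θθ : ∀ z, θ (θ z) = z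
  σσ : ∀ P, σ (σ P) = P
  ord_σ : ∀ P z, z ≠ 0 → T.X.ord (σ P) (θ z) = T.X.ord P z
  S_iff : ∀ P, P ∈ T.S ↔ σ P ∈ T.S
  S'_iff : ∀ P, P ∈ T.S' ↔ σ P ∈ T.S'

namespace Sym

variable (κ : Sym T)

/-- The divisor is invariant. -/
def Fixes (D : T.X.Pt →₀ ℤ) : Prop := ∀ P, D (κ.σ P) = D P

theorem symm_eq : κ.θ.symm = κ.θ := by
  apply AlgEquiv.ext
  intro z
  rw [AlgEquiv.symm_apply_eq, κ.θθ]

theorem dvs_σ (hD : κ.Fixes D₀) (N : ℕ) (j : ℤ) (P : T.X.Pt) :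
    T.dvs q D₀ N j (κ.σ P) = T.dvs q D₀ N j P := by
  classical
  unfold Datum.dvs
  have h1 : (κ.σ P ∈ T.S) = (P ∈ T.S) := propext (κ.S_iff P).symm
  have h2 : (κ.σ P ∈ T.S') = (P ∈ T.S') := propext (κ.S'_iff P).symm
  simp only [Finsupp.sub_apply, Finsupp.smul_apply, Inv.sum_single_apply, h1, h2, hD P]

theorem θ_mem_V (hD : κ.Fixes D₀) {N : ℕ} {j : ℤ} {z : K} (hz : z ∈ T.V q D₀ N j) :
    κ.θ z ∈ T.V q D₀ N j := by
  intro h0 P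
  have hz0 : z ≠ 0 := by
    rintro rfl
    exact h0 (map_zero _)
  have h1 := hz hz0 (κ.σ P)
  have h2 := κ.ord_σ (κ.σ P) z hz0
  rw [κ.σσ] at h2
  have h3 := κ.dvs_σ (q := q) hD N j (κ.σ P)
  rw [κ.σσ] at h3
  rw [h2, h3]
  exact h1

theorem coefE_mem_sec (hD : κ.Fixes D₀) {N : ℕ} {f : MvPolynomial (Fin 4) K}
    (hf : f ∈ T.sec q D₀ N) : coefE κ.θ f ∈ T.sec q D₀ N := by
  intro e he
  rw [coeff_coefE] at he ⊢
  have h0 : f.coeff e ≠ 0 := by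
    intro h0
    apply he
    rw [h0, map_zero]
  obtain ⟨j, h1, h2, h3, h4⟩ := hf _ h0
  exact ⟨j, h1, h2, h3, κ.θ_mem_V hD h4⟩

/-- The automorphism of the section ring given by a symmetry of the curve and a pair of
matrices: `f ↦ θ (f ∘ (g, h))`. -/
noncomputable def autE (g h : Matrix (Fin 2) (Fin 2) ℂ) (hg : IsUnit g) (hh : IsUnit h) :
    Autom K := (substE K g h hg hh).trans (coefE κ.θ)

theorem autE_apply {g h : Matrix (Fin 2) (Fin 2) ℂ} (hg : IsUnit g) (hh : IsUnit h)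
    (f : MvPolynomial (Fin 4) K) :
    κ.autE g h hg hh f = MvPolynomial.map (κ.θ : K →+* K) (subst g h f) := rfl

theorem autE_symm_apply {g h : Matrix (Fin 2) (Fin 2) ℂ} (hg : IsUnit g) (hh : IsUnit h)
    (f : MvPolynomial (Fin 4) K) :
    (κ.autE g h hg hh).symm f = subst g⁻¹ h⁻¹ (MvPolynomial.map (κ.θ : K →+* K) f) := by
  have h1 : (κ.autE g h hg hh).symm f = (substE K g h hg hh).symm ((coefE κ.θ).symm f) := rfl
  rw [h1, coefE_symm, κ.symm_eq]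
  rfl

theorem pres_coefE (hD : κ.Fixes D₀) : Pres T q D₀ (coefE κ.θ) :=
  Pres.of_le (fun _ _ hf => κ.coefE_mem_sec hD hf) (fun _ _ hf => by
    rw [coefE_symm, κ.symm_eq]
    exact κ.coefE_mem_sec hD hf)

theorem pres_autE (hD : κ.Fixes D₀) {g h : Matrix (Fin 2) (Fin 2) ℂ} (hg : IsUnit g)
    (hh : IsUnit h) : Pres T q D₀ (κ.autE g h hg hh) :=
  (pres_substE hg hh).trans (κ.pres_coefE hD)

theorem fixes_nsmul {D : T.X.Pt →₀ ℤ} (h : κ.Fixes D) (n : ℕ) : κ.Fixes (n • D) := by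
  intro P
  rw [Finsupp.smul_apply, Finsupp.smul_apply, h P]

end Sym

/-! ### The group -/

/-- Three commuting involutions of the curve generating a group `(ℤ/2)³` which acts freely on
the points. The first one exchanges `S` and `S'`, the other two (`θ₁` and `θ₂`) preserve `S` and
`S'`. -/
structure Gam (T : Datum K) extends Inv T where
  θ₁ : K ≃ₐ[ℂ] K
  θ₂ : K ≃ₐ[ℂ] K
  σ₁ : T.X.Pt → T.X.Pt
  σ₂ : T.X.Pt → T.X.Pt
  θθ₁ : ∀ z, θ₁ (θ₁ z) = z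
  θθ₂ : ∀ z, θ₂ (θ₂ z) = z
  σσ₁ : ∀ P, σ₁ (σ₁ P) = P
  σσ₂ : ∀ P, σ₂ (σ₂ P) = P
  ord_σ₁ : ∀ P z, z ≠ 0 → T.X.ord (σ₁ P) (θ₁ z) = T.X.ord P z
  ord_σ₂ : ∀ P z, z ≠ 0 → T.X.ord (σ₂ P) (θ₂ z) = T.X.ord P z
  S_iff₁ : ∀ P, P ∈ T.S ↔ σ₁ P ∈ T.S
  S_iff₂ : ∀ P, P ∈ T.S ↔ σ₂ P ∈ T.S
  S'_iff₁ : ∀ P, P ∈ T.S' ↔ σ₁ P ∈ T.S'
  S'_iff₂ : ∀ P, P ∈ T.S' ↔ σ₂ P ∈ T.S'
  comm₁₂ : ∀ z, θ₁ (θ₂ z) = θ₂ (θ₁ z)
  comm₁ : ∀ z, θ (θ₁ z) = θ₁ (θ z)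
  comm₂ : ∀ z, θ (θ₂ z) = θ₂ (θ z)
  σcomm₁₂ : ∀ P, σ₁ (σ₂ P) = σ₂ (σ₁ P)
  σcomm₁ : ∀ P, σ (σ₁ P) = σ₁ (σ P)
  σcomm₂ : ∀ P, σ (σ₂ P) = σ₂ (σ P)
  free₁ : ∀ P, σ₁ P ≠ P
  free₂ : ∀ P, σ₂ P ≠ P
  free₁₂ : ∀ P, σ₁ (σ₂ P) ≠ P
  free₀₁ : ∀ P, σ (σ₁ P) ≠ P
  free₀₂ : ∀ P, σ (σ₂ P) ≠ P
  free₀₁₂ : ∀ P, σ (σ₁ (σ₂ P)) ≠ P

namespace Gam

variable (γ : Gam T)

/-- the first symmetry -/
def sym₁ : Sym T := ⟨γ.θ₁, γ.σ₁, γ.θθ₁, γ.σσ₁, γ.ord_σ₁, γ.S_iff₁, γ.S'_iff₁⟩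

/-- the second symmetry -/
def sym₂ : Sym T := ⟨γ.θ₂, γ.σ₂, γ.θθ₂, γ.σσ₂, γ.ord_σ₂, γ.S_iff₂, γ.S'_iff₂⟩

/-- The divisor is invariant under the three involutions. -/
def Fixes (D : T.X.Pt →₀ ℤ) : Prop :=
  (∀ P, D (γ.σ P) = D P) ∧ (∀ P, D (γ.σ₁ P) = D P) ∧ ∀ P, D (γ.σ₂ P) = D P

variable {γ}

theorem Fixes.inv {D : T.X.Pt →₀ ℤ} (h : γ.Fixes D) : γ.toInv.Fixes D := h.1

theorem Fixes.fst {D : T.X.Pt →₀ ℤ} (h : γ.Fixes D) : γ.sym₁.Fixes D := h.2.1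

theorem Fixes.snd {D : T.X.Pt →₀ ℤ} (h : γ.Fixes D) : γ.sym₂.Fixes D := h.2.2

theorem Fixes.nsmul {D : T.X.Pt →₀ ℤ} (h : γ.Fixes D) (n : ℕ) : γ.Fixes (n • D) :=
  ⟨γ.toInv.fixes_nsmul h.inv n, γ.sym₁.fixes_nsmul h.fst n, γ.sym₂.fixes_nsmul h.snd n⟩

variable (γ)

/-- The automorphism `E₁ : f ↦ θ₁ (f (x₀, -x₁, y₀, -y₁))` of the section ring. -/
noncomputable def E₁ : Autom K := γ.sym₁.autE s1 s1 isUnit_s1 isUnit_s1

/-- The automorphism `E₂ : f ↦ θ₂ (f (x₁, x₀, y₁, y₀))` of the section ring. -/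
noncomputable def E₂ : Autom K := γ.sym₂.autE s2 s2 isUnit_s2 isUnit_s2

theorem E₁_apply (f : MvPolynomial (Fin 4) K) :
    γ.E₁ f = MvPolynomial.map (γ.θ₁ : K →+* K) (subst s1 s1 f) := rfl

theorem E₂_apply (f : MvPolynomial (Fin 4) K) :
    γ.E₂ f = MvPolynomial.map (γ.θ₂ : K →+* K) (subst s2 s2 f) := rfl

theorem E₁_eq (f : MvPolynomial (Fin 4) K) :
    γ.E₁ f = subst s1 s1 (MvPolynomial.map (γ.θ₁ : K →+* K) f) :=
  coefE_subst γ.θ₁ s1 s1 f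

theorem E₂_eq (f : MvPolynomial (Fin 4) K) :
    γ.E₂ f = subst s2 s2 (MvPolynomial.map (γ.θ₂ : K →+* K) f) :=
  coefE_subst γ.θ₂ s2 s2 f

variable {γ}

theorem pres_E₁ (hD : γ.Fixes D₀) : Pres T q D₀ γ.E₁ := γ.sym₁.pres_autE hD.fst _ _

theorem pres_E₂ (hD : γ.Fixes D₀) : Pres T q D₀ γ.E₂ := γ.sym₂.pres_autE hD.snd _ _

theorem pres_tauE (hD : γ.Fixes D₀) : Pres T q D₀ γ.tauE := γ.toInv.pres_tauE hD.inv

end Gam

/-- Invariance of a filtration under the group `Γ`: it is stable under `E₁`, `E₂` and `τ`. -/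
structure Filt.GamInv (χ : Filt T q D₀ r) (γ : Gam T) : Prop where
  E₁ : ∀ N l, ∀ f ∈ χ.F N l, γ.E₁ f ∈ χ.F N l
  E₂ : ∀ N l, ∀ f ∈ χ.F N l, γ.E₂ f ∈ χ.F N l
  tau : ∀ N l, ∀ f ∈ χ.F N l, γ.tauE f ∈ χ.F N l

/-- Coefficient automorphisms preserve the destabilizing filtration. -/
theorem Sym.filtU_coefE (κ : Sym T) (hD : κ.Fixes D₀) (u : ℕ) {N : ℕ} {l : ℤ}
    {f : MvPolynomial (Fin 4) K} (hf : f ∈ (filtU T q u D₀).F N l) :
    coefE κ.θ f ∈ (filtU T q u D₀).F N l := by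
  intro e he
  rw [coeff_coefE] at he ⊢
  have h0 : f.coeff e ≠ 0 := by
    intro h0
    apply he
    rw [h0, map_zero]
  obtain ⟨j, h1, h2, h3, h4⟩ := hf _ h0
  refine ⟨j, h1, h2, h3, ?_⟩
  unfold UF at h4 ⊢
  split_ifs at h4 ⊢ with h5
  · exact κ.θ_mem_V hD h4
  · rw [Submodule.mem_bot] at h4 ⊢
    rw [h4, map_zero]

theorem filtU_gamInv (γ : Gam T) (hD : γ.Fixes D₀) (u : ℕ) : (filtU T q u D₀).GamInv γ where
  E₁ N l f hf := γ.sym₁.filtU_coefE hD.fst u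
    (filtU_equivariant T q u D₀ s1 s1 isUnit_s1 isUnit_s1 N l f hf)
  E₂ N l f hf := γ.sym₂.filtU_coefE hD.snd u
    (filtU_equivariant T q u D₀ s2 s2 isUnit_s2 isUnit_s2 N l f hf)
  tau N l f hf := (filtU_gammaInv γ.toInv hD.inv u).tau N l f hf

/-- `Γ`-invariant instability of the polarizations of slope slightly less than the critical
one. -/
theorem unstable_gam (γ : Gam T) {q : ℕ} (hq : 0 < q) (D₀ : T.X.Pt →₀ ℤ) (hγ : γ.Fixes D₀)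
    (hD : T.X.deg D₀ = T.t * (105 * q - 1)) :
    ∃ χ : TestConf T q D₀ 1, χ.Equivariant ∧ χ.GamInv γ ∧
      ∃ Fut : ℝ, χ.HasFutaki Fut ∧ Fut < 0 := by
  obtain ⟨u, h1, h2, _, h4⟩ := exists_u q
  have ht := T.t_pos
  have hD' : 100 * (T.t : ℤ) * q < T.X.deg D₀ := by
    rw [hD]
    have h5 : (1 : ℤ) ≤ q := by exact_mod_cast hq
    have h6 : (1 : ℤ) ≤ T.t := by exact_mod_cast ht
    nlinarith
  have e : ((T.X.deg D₀ : ℤ) : ℝ) = T.t * (105 * q - 1) := by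
    rw [hD]
    push_cast
    ring
  refine ⟨testU T hD' h4, filtU_equivariant T q u D₀, filtU_gamInv γ hγ u, _,
    ⟨_, _, _, _, _, expansion_filtU T hD' h4, rfl⟩, ?_⟩
  rw [e]
  exact fut_neg hq ht h1 h2

/-! ### Invariant divisors -/

open Classical in
/-- The orbit sum of a point. -/
noncomputable def Gam.orb (γ : Gam T) (P : T.X.Pt) (m : ℤ) : T.X.Pt →₀ ℤ :=
  (Finsupp.single P m + Finsupp.single (γ.σ P) m) +
  (Finsupp.single (γ.σ₁ P) m + Finsupp.single (γ.σ (γ.σ₁ P)) m) +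
  ((Finsupp.single (γ.σ₂ P) m + Finsupp.single (γ.σ (γ.σ₂ P)) m) +
  (Finsupp.single (γ.σ₁ (γ.σ₂ P)) m + Finsupp.single (γ.σ (γ.σ₁ (γ.σ₂ P))) m))

/-- Invariant divisors of every degree divisible by eight. -/
theorem Gam.exists_divisor (γ : Gam T) (P : T.X.Pt) (m : ℤ) :
    ∃ D₀ : T.X.Pt →₀ ℤ, T.X.deg D₀ = 8 * m ∧ γ.Fixes D₀ := by
  classical
  refine ⟨γ.orb P m, ?_, ?_, ?_, ?_⟩
  · unfold Gam.orb
    simp only [T.X.deg_add, T.X.deg_single]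
    ring
  · intro Q
    unfold Gam.orb
    simp only [Finsupp.add_apply, Finsupp.single_apply]
    have inv : ∀ A B : T.X.Pt, (γ.σ A = γ.σ B) = (A = B) := fun A B => propext
      ⟨fun h => by rw [← γ.σσ A, h, γ.σσ], fun h => by rw [h]⟩
    have inv' : ∀ A B : T.X.Pt, (A = γ.σ B) = (γ.σ A = B) := fun A B => propext
      ⟨fun h => by rw [h, γ.σσ], fun h => by rw [← h, γ.σσ]⟩
    simp only [inv]
    simp only [inv']
    ring
  · intro Q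
    unfold Gam.orb
    simp only [Finsupp.add_apply, Finsupp.single_apply]
    have inv' : ∀ A B : T.X.Pt, (A = γ.σ₁ B) = (γ.σ₁ A = B) := fun A B => propext
      ⟨fun h => by rw [h, γ.σσ₁], fun h => by rw [← h, γ.σσ₁]⟩
    have c1 : ∀ A, γ.σ₁ (γ.σ A) = γ.σ (γ.σ₁ A) := fun A => (γ.σcomm₁ A).symm
    simp only [inv', c1, γ.σσ₁]
    ring
  · intro Q
    unfold Gam.orb
    simp only [Finsupp.add_apply, Finsupp.single_apply]
    have inv' : ∀ A B : T.X.Pt, (A = γ.σ₂ B) = (γ.σ₂ A = B) := fun A B => propext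
      ⟨fun h => by rw [h, γ.σσ₂], fun h => by rw [← h, γ.σσ₂]⟩
    have c1 : ∀ A, γ.σ₂ (γ.σ A) = γ.σ (γ.σ₂ A) := fun A => (γ.σcomm₂ A).symm
    have c2 : ∀ A, γ.σ₂ (γ.σ₁ A) = γ.σ₁ (γ.σ₂ A) := fun A => (γ.σcomm₁₂ A).symm
    simp only [inv', c1, c2, γ.σσ₂]
    ring

end Pool.Agent.YTD
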