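import Pool.Agent.YTD.CovTower
import Pool.Agent.YTD.Gam

/-!
Existence of the data `(C, S, S')` with a free action of `(ℤ/2)³`.
-/

namespace Pool.Agent.YTD.Hyp

open Polynomial Module

noncomputable section

variable {F : Type} [Field F] [Algebra ℂ F] {Λ : LF F}

section pre

variable {K : Type} [Field K] [Algebra ℂ K] {X : CurveP Λ K} {h : K} [NonSqK h]

open Classical in
/-- The preimage of a finite set of points in the double cover. -/
def pre (hev : ∀ P, Even (Λ.ord (X.phi P h))) (A : Finset X.Pt) : Finset (DPt X h) :=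
  (A ×ˢ (Finset.univ : Finset Bool)).image (dEquiv hev)

theorem mem_pre (hev : ∀ P, Even (Λ.ord (X.phi P h))) (A : Finset X.Pt) (x : DPt X h) :
    x ∈ pre hev A ↔ x.1.1 ∈ A := by
  classical
  unfold pre
  rw [Finset.mem_image]
  constructor
  · rintro ⟨⟨P, b⟩, hP, rfl⟩
    rw [Finset.mem_product] at hP
    cases b <;> exact hP.1
  · intro hx
    refine ⟨(dEquiv hev).symm x, ?_, (dEquiv hev).apply_symm_apply x⟩
    rw [Finset.mem_product]
    refine ⟨?_, Finset.mem_univ _⟩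
    have h1 : ∀ y : X.Pt × Bool, (dEquiv hev y).1.1 = y.1 := by
      rintro ⟨P, b⟩
      cases b <;> rfl
    have h2 := h1 ((dEquiv hev).symm x)
    rw [Equiv.apply_symm_apply] at h2
    rw [← h2]
    exact hx

theorem card_pre (hev : ∀ P, Even (Λ.ord (X.phi P h))) (A : Finset X.Pt) :
    (pre hev A).card = 2 * A.card := by
  classical
  unfold pre
  rw [Finset.card_image_of_injective _ (dEquiv hev).injective, Finset.card_product,
    Finset.card_univ, Fintype.card_bool]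
  ring

end pre

/-- The set of points of a double cover over a finite set with a prescribed choice of the root. -/
theorem exists_sheet {K : Type} [Field K] [Algebra ℂ K] {X : CurveP Λ K} {h : K}
    (A : Finset X.Pt) (r : X.Pt → F) (hr : ∀ P, r P ^ 2 = X.phi P h) :
    ∃ S : Finset (DPt X h), S.card = A.card ∧ ∀ x, x ∈ S ↔ x.1.1 ∈ A ∧ x.1.2 = r x.1.1 := by
  classical
  let ι : X.Pt → DPt X h := fun P => ⟨(P, r P), hr P⟩
  have hι : Function.Injective ι := fun P Q hPQ => congrArg (fun x : DPt X h => x.1.1) hPQ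
  refine ⟨A.image ι, Finset.card_image_of_injective _ hι, ?_⟩
  intro x
  rw [Finset.mem_image]
  constructor
  · rintro ⟨P, hP, rfl⟩
    exact ⟨hP, rfl⟩
  · rintro ⟨h1, h2⟩
    refine ⟨x.1.1, h1, ?_⟩
    apply Subtype.ext
    apply Prod.ext
    · rfl
    · exact h2.symm

theorem exists_roots (g : ℕ) (hg : 1 < g) : ∃ a₁ a₂ a₃ b : ℂ, (fg g).eval a₁ = 0 ∧
    (fg g).eval a₂ = 0 ∧ (fg g).eval a₃ = 0 ∧ (fg g).eval b = 0 ∧ a₁ ≠ a₂ ∧ a₁ ≠ a₃ ∧ a₂ ≠ a₃ ∧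
    a₁ ≠ b ∧ a₂ ≠ b ∧ a₃ ≠ b := by
  have h0 : 2 * g + 1 ≠ 0 := by omega
  have hζ := Complex.isPrimitiveRoot_exp (2 * g + 1) h0
  generalize Complex.exp (2 * Real.pi * Complex.I / ((2 * g + 1 : ℕ) : ℂ)) = ζ at hζ
  have e : ∀ i : ℕ, (fg g).eval (ζ ^ i) = 0 := by
    intro i
    unfold fg
    rw [eval_sub, eval_pow, eval_X, eval_one, ← pow_mul, mul_comm, pow_mul, hζ.pow_eq_one,
      one_pow, sub_self]
  have n : ∀ i j : ℕ, i < 4 → j < 4 → i ≠ j → ζ ^ i ≠ ζ ^ j := by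
    intro i j hi hj hij h
    exact hij (hζ.pow_inj (by omega) (by omega) h)
  exact ⟨ζ ^ 0, ζ ^ 1, ζ ^ 2, ζ ^ 3, e 0, e 1, e 2, e 3,
    n 0 1 (by norm_num) (by norm_num) (by norm_num),
    n 0 2 (by norm_num) (by norm_num) (by norm_num),
    n 1 2 (by norm_num) (by norm_num) (by norm_num),
    n 0 3 (by norm_num) (by norm_num) (by norm_num),
    n 1 3 (by norm_num) (by norm_num) (by norm_num),
    n 2 3 (by norm_num) (by norm_num) (by norm_num)⟩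

section final

variable {f : ℂ[X]} [NonSq f] (G : Good f) {a₁ a₂ a₃ : ℂ} [NonSqK (hh₁ f a₁)]
  [NonSqK (hh₂ f a₁ a₂)] [NonSqK (hh₃ f a₁ a₂ a₃)]
  (h1 : f.eval a₁ = 0) (h2 : f.eval a₂ = 0) (h3 : f.eval a₃ = 0)

/-- The image of a point in the hyperelliptic curve. -/
def base (x : (X₃ G h1 h2 h3 Λ).Pt) : Pts f := x.1.1.1.1.1.1

theorem exists_sheets (m : ℕ) : ∃ S S' : Finset (X₃ G h1 h2 h3 Λ).Pt, S.card = 4 * m ∧
    S'.card = 4 * m ∧ Disjoint S S' ∧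
    (∀ x, x ∈ S ↔ (dk₃ G h1 h2 h3).σ x ∈ S') ∧
    (∀ x, x ∈ S ↔ (dk₁ G h1 h2 h3).σ x ∈ S) ∧ (∀ x, x ∈ S ↔ (dk₂ G h1 h2 h3).σ x ∈ S) ∧
    (∀ x, x ∈ S' ↔ (dk₁ G h1 h2 h3).σ x ∈ S') ∧ (∀ x, x ∈ S' ↔ (dk₂ G h1 h2 h3).σ x ∈ S') := by
  classical
  haveI := infinite_pts f
  obtain ⟨B, hB⟩ := Infinite.exists_subset_card_eq (Pts f) m
  have hr : ∀ P : Pts f, ∃ r : F, r ^ 2 = (parAt Λ G.ne P).phi (emb (X - C a₃)) := by
    intro P
    have e1 : (parAt Λ G.ne P).phi (emb (X - C a₃) : KK f) ≠ 0 :=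
      phi_ne _ (emb_ne (X_sub_C_ne_zero a₃))
    obtain ⟨b, hb⟩ := IsAlgClosed.exists_pow_nat_eq
      (Λ.lc ((parAt Λ G.ne P).phi (emb (X - C a₃)))) (n := 2) (by norm_num)
    obtain ⟨η, h1, _⟩ := Λ.sqrt e1 (even_emb G h3 P) b hb
    exact ⟨η, h1⟩
  choose r hr using hr
  have hphi : ∀ P : (X₂ G h1 h2 Λ).Pt, (X₂ G h1 h2 Λ).phi P (hh₃ f a₁ a₂ a₃) =
      (parAt Λ G.ne P.1.1.1.1).phi (emb (X - C a₃)) := by
    intro P
    show dphi P (hh₃ f a₁ a₂ a₃) = _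
    rw [dphi_alg]
    show dphi P.1.1 _ = _
    rw [dphi_alg]
  let A := pre (ev₂ (Λ := Λ) G h1 h2) (pre (ev₁ G h1) B)
  have hA : A.card = 4 * m := by
    show (pre (ev₂ (Λ := Λ) G h1 h2) (pre (ev₁ G h1) B)).card = _
    rw [card_pre, card_pre, hB]
    ring
  have mA : ∀ P, P ∈ A ↔ P.1.1.1.1 ∈ B := by
    intro P
    show P ∈ pre (ev₂ (Λ := Λ) G h1 h2) (pre (ev₁ G h1) B) ↔ _
    rw [mem_pre, mem_pre]
  obtain ⟨S, hS, mS⟩ := exists_sheet (X := X₂ G h1 h2 Λ) (h := hh₃ f a₁ a₂ a₃) A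
    (fun P => r P.1.1.1.1) (fun P => by rw [hr, hphi])
  obtain ⟨S', hS', mS'⟩ := exists_sheet (X := X₂ G h1 h2 Λ) (h := hh₃ f a₁ a₂ a₃) A
    (fun P => - r P.1.1.1.1) (fun P => by rw [neg_sq, hr, hphi])
  refine ⟨S, S', by rw [hS, hA], by rw [hS', hA], ?_, ?_, ?_, ?_, ?_, ?_⟩
  · rw [Finset.disjoint_left]
    intro x hx hx'
    have e1 := ((mS x).1 hx).2
    have e2 := ((mS' x).1 hx').2
    simp only at e1 e2
    rw [e1] at e2
    haveI := charZero_of_alg F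
    have e3 : r x.1.1.1.1.1.1 = 0 := self_eq_neg.1 e2
    exact eta_ne x (by rw [e1, e3])
  · intro x
    rw [mS, mS', mA, mA]
    show _ ↔ (x.1.1.1.1.1.1 ∈ B ∧ - x.1.2 = - r x.1.1.1.1.1.1)
    rw [neg_inj]
  · intro x
    rw [mS, mS, mA, mA]
    exact Iff.rfl
  · intro x
    rw [mS, mS, mA, mA]
    exact Iff.rfl
  · intro x
    rw [mS', mS', mA, mA]
    exact Iff.rfl
  · intro x
    rw [mS', mS', mA, mA]
    exact Iff.rfl

end final

end

end Pool.Agent.YTD.Hyp
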