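import Pool.Agent.YTD.HypRR

/-!
Riemann-Roch in the range `deg > 2 g - 2` from Riemann-Roch in large degrees.
-/

namespace Pool.Agent.YTD
namespace CurveOrd

open Module

variable {K : Type} [Field K] [Algebra ℂ K] {X : CurveOrd K}

theorem L_inf (A B : X.Pt →₀ ℤ) : X.L (A ⊓ B) = X.L A ⊓ X.L B := by
  apply le_antisymm
  · exact le_inf (X.L_mono fun P => by rw [Finsupp.inf_apply]; exact inf_le_left)
      (X.L_mono fun P => by rw [Finsupp.inf_apply]; exact inf_le_right)
  · rintro f ⟨h1, h2⟩ h0 P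
    rw [Finsupp.inf_apply]
    have g1 := h1 h0 P
    have g2 := h2 h0 P
    rcases min_choice (A P) (B P) with h | h
    · show 0 ≤ X.ord P f + min (A P) (B P)
      rw [h]
      exact g1
    · show 0 ≤ X.ord P f + min (A P) (B P)
      rw [h]
      exact g2

theorem deg_inf_sup (A B : X.Pt →₀ ℤ) : X.deg (A ⊓ B) + X.deg (A ⊔ B) = X.deg A + X.deg B := by
  rw [← X.deg_add, ← X.deg_add]
  congr 1
  ext P
  rw [Finsupp.add_apply, Finsupp.inf_apply, Finsupp.sup_apply, Finsupp.add_apply]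
  exact min_add_max _ _

/-- Riemann-Roch in large degrees. -/
def RRLarge (X : CurveOrd K) (g c : ℤ) : Prop :=
  ∀ D : X.Pt →₀ ℤ, c ≤ X.deg D → (finrank ℂ (X.L D) : ℤ) = X.deg D + 1 - g

theorem L_sup_eq {g c : ℤ} (h : X.RRLarge g c) [∀ D : X.Pt →₀ ℤ, FiniteDimensional ℂ (X.L D)]
    {A B : X.Pt →₀ ℤ} (hc : c ≤ X.deg (A ⊓ B)) : X.L A ⊔ X.L B = X.L (A ⊔ B) := by
  have hA : c ≤ X.deg A := hc.trans (X.deg_mono fun P => by
    rw [Finsupp.inf_apply]; exact inf_le_left)
  have hB : c ≤ X.deg B := hc.trans (X.deg_mono fun P => by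
    rw [Finsupp.inf_apply]; exact inf_le_right)
  have hAB : c ≤ X.deg (A ⊔ B) := hA.trans (X.deg_mono fun P => by
    rw [Finsupp.sup_apply]; exact le_sup_left)
  apply Submodule.eq_of_le_of_finrank_eq
  · exact sup_le (X.L_mono fun P => by rw [Finsupp.sup_apply]; exact le_sup_left)
      (X.L_mono fun P => by rw [Finsupp.sup_apply]; exact le_sup_right)
  · have h1 := Submodule.finrank_sup_add_finrank_inf_eq (X.L A) (X.L B)
    rw [← L_inf] at h1
    have h2 := deg_inf_sup A B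
    have e1 := h _ hc
    have e2 := h _ hA
    have e3 := h _ hB
    have e4 := h _ hAB
    omega

/-- the positive part of a divisor -/
noncomputable def posp (E : X.Pt →₀ ℤ) : X.Pt →₀ ℤ := E ⊔ 0

theorem posp_apply (E : X.Pt →₀ ℤ) (P : X.Pt) : posp E P = max (E P) 0 := by
  unfold posp
  rw [Finsupp.sup_apply]
  rfl

theorem deg_posp_dv {E : X.Pt →₀ ℤ} {f : K} (hf : f ∈ X.L E) (hf0 : f ≠ 0) :
    X.deg (posp (X.dv f)) ≤ X.deg (posp E) := by
  have h1 : X.deg (posp (X.dv f)) = X.deg (posp (-X.dv f)) := by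
    have h2 : posp (X.dv f) = X.dv f + posp (-X.dv f) := by
      ext P
      rw [Finsupp.add_apply, posp_apply, posp_apply, Finsupp.neg_apply]
      rcases le_total (X.dv f P) 0 with h | h
      · rw [max_eq_right h, max_eq_left (by linarith)]
        ring
      · rw [max_eq_left h, max_eq_right (by linarith)]
        ring
    rw [h2, X.deg_add, X.deg_dv hf0, zero_add]
  rw [h1]
  apply X.deg_mono
  intro P
  rw [posp_apply, posp_apply, Finsupp.neg_apply, X.dv_apply hf0]
  have := hf hf0 P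
  exact max_le_max (by linarith) le_rfl

theorem exists_nat_ge (z : ℤ) : ∃ n : ℕ, z ≤ n := ⟨z.toNat, Int.self_le_toNat z⟩

/-- The image of the multiplication map. -/
theorem claim {g c : ℤ} (hR : X.Res) (h : X.RRLarge g c) {Q R : X.Pt} (hQR : Q ≠ R)
    {D : X.Pt →₀ ℤ} (hD : X.deg D + 1 - g < finrank ℂ (X.L D)) (E : X.Pt →₀ ℤ) :
    (finrank ℂ (X.L E) : ℤ) ≤ finrank ℂ (X.L (D - E)) - (X.deg (D - E) + 1 - g) := by
  classical
  have : Nonempty X.Pt := ⟨Q⟩
  have hfin : ∀ D : X.Pt →₀ ℤ, FiniteDimensional ℂ (X.L D) := fun D => finite_L' hR D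
  -- the auxiliary divisors
  obtain ⟨m, hm⟩ : ∃ m : ℕ, c ≤ X.deg D + m ∧ c ≤ X.deg D + m - X.deg E := by
    obtain ⟨m₁, h1⟩ := exists_nat_ge (c - X.deg D)
    obtain ⟨m₂, h2⟩ := exists_nat_ge (c - X.deg D + X.deg E)
    have k1 := Int.natCast_nonneg m₁
    have k2 := Int.natCast_nonneg m₂
    refine ⟨m₁ + m₂, ?_⟩
    push_cast
    constructor <;> linarith
  obtain ⟨B, hB⟩ : ∃ B : X.Pt →₀ ℤ, B = D + Finsupp.single R (m : ℤ) := ⟨_, rfl⟩
  obtain ⟨B₁, hB₁⟩ : ∃ B₁ : X.Pt →₀ ℤ, B₁ = B - E := ⟨_, rfl⟩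
  have hdegB : X.deg B = X.deg D + m := by rw [hB, X.deg_add, X.deg_single]
  have hdegB₁ : X.deg B₁ = X.deg D + m - X.deg E := by rw [hB₁, X.deg_sub, hdegB]
  have hBQ : B Q = D Q := by
    rw [hB, Finsupp.add_apply, Finsupp.single_eq_of_ne hQR, add_zero]
  have hDB : ∀ P, D P ≤ B P := by
    intro P
    rw [hB, Finsupp.add_apply, Finsupp.single_apply]
    split_ifs
    · linarith [Int.natCast_nonneg m]
    · linarith
  obtain ⟨n, hn1, hn2, hn3⟩ : ∃ n : ℕ, c ≤ n + X.deg (B₁ ⊓ D) - X.deg (posp E) ∧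
      c ≤ n + X.deg D ∧ c ≤ n + X.deg (D - E) := by
    obtain ⟨n₁, h1⟩ := exists_nat_ge (c - X.deg (B₁ ⊓ D) + X.deg (posp E))
    obtain ⟨n₂, h2⟩ := exists_nat_ge (c - X.deg D)
    obtain ⟨n₃, h3⟩ := exists_nat_ge (c - X.deg (D - E))
    have k1 := Int.natCast_nonneg n₁
    have k2 := Int.natCast_nonneg n₂
    have k3 := Int.natCast_nonneg n₃
    refine ⟨n₁ + n₂ + n₃, ?_⟩
    push_cast
    refine ⟨?_, ?_, ?_⟩ <;> linarith
  obtain ⟨nQ, hnQ⟩ : ∃ nQ : X.Pt →₀ ℤ, nQ = Finsupp.single Q (n : ℤ) := ⟨_, rfl⟩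
  have hnQQ : nQ Q = n := by
    rw [hnQ]
    exact Finsupp.single_eq_same
  have hnQP : ∀ P, P ≠ Q → nQ P = 0 := by
    intro P hP
    rw [hnQ]
    exact Finsupp.single_eq_of_ne hP
  have hn0 : (0 : ℤ) ≤ n := Int.natCast_nonneg n
  have hnQ0 : ∀ P, 0 ≤ nQ P := by
    intro P
    by_cases hP : P = Q
    · rw [hP, hnQQ]
      exact hn0
    · rw [hnQP P hP]
  have hdegnQ : X.deg nQ = n := by rw [hnQ, X.deg_single]
  -- general fact on intersections
  have hinf : ∀ A A' : X.Pt →₀ ℤ, (∀ P, A P ≤ A' P) → A Q = A' Q → (A + nQ) ⊓ A' = A := by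
    intro A A' h1 h2
    ext P
    rw [Finsupp.inf_apply, Finsupp.add_apply]
    by_cases hP : P = Q
    · rw [hP, hnQQ, ← h2]
      exact min_eq_right (by linarith)
    · rw [hnQP P hP, add_zero]
      exact min_eq_left (h1 P)
  -- dimensions
  have hcod : ∀ A A' : X.Pt →₀ ℤ, (∀ P, A P ≤ A' P) → A Q = A' Q → c ≤ X.deg (A + nQ) →
      c ≤ X.deg A' → (finrank ℂ (X.L (A + nQ) ⊔ X.L A' : Submodule ℂ K) : ℤ) =
        finrank ℂ (X.L (A' + nQ)) - (finrank ℂ (X.L A) - (X.deg A + 1 - g)) := by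
    intro A A' h1 h2 h3 h4
    have k1 := Submodule.finrank_sup_add_finrank_inf_eq (X.L (A + nQ)) (X.L A')
    rw [← L_inf, hinf A A' h1 h2] at k1
    have k2 := h _ h3
    have k3 := h _ h4
    have k4 := h (A' + nQ) (by rw [X.deg_add, hdegnQ]; linarith)
    rw [X.deg_add, hdegnQ] at k2 k4
    omega
  -- the functional
  set T₀ : Submodule ℂ K := X.L (D + nQ) ⊔ X.L B with hT₀
  set T : Submodule ℂ K := X.L (B + nQ) with hT
  have hT₀T : T₀ ≤ T := by
    apply sup_le
    · exact X.L_mono fun P => by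
        rw [Finsupp.add_apply, Finsupp.add_apply]
        linarith [hDB P]
    · exact X.L_mono fun P => by
        rw [Finsupp.add_apply]
        linarith [hnQ0 P]
  have hlt : finrank ℂ T₀ < finrank ℂ T := by
    have := hcod D B hDB hBQ.symm (by rw [X.deg_add, hdegnQ]; linarith) (by rw [hdegB]; exact hm.1)
    rw [← hT₀, ← hT] at this
    omega
  obtain ⟨t, htT, htT₀⟩ : ∃ t ∈ T, t ∉ T₀ := by
    by_contra hcon
    push Not at hcon
    have h1 := Submodule.finrank_mono (show T ≤ T₀ from hcon)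
    omega
  obtain ⟨ω, hω1, hω2⟩ := Submodule.exists_dual_map_eq_bot_of_notMem htT₀ inferInstance
  have hω : ∀ z ∈ T₀, ω z = 0 := by
    intro z hz
    have : ω z ∈ T₀.map ω := ⟨z, hz, rfl⟩
    rw [hω2, Submodule.mem_bot] at this
    exact this
  -- the pairing
  set V : Submodule ℂ K := X.L (B₁ + nQ) with hV
  set U₀ : Submodule ℂ K := X.L ((D - E) + nQ) ⊔ X.L B₁ with hU₀
  have hDE : ∀ P, (D - E) P ≤ B₁ P := by
    intro P
    rw [hB₁, Finsupp.sub_apply, Finsupp.sub_apply]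
    linarith [hDB P]
  have hDEQ : (D - E) Q = B₁ Q := by
    rw [hB₁, Finsupp.sub_apply, Finsupp.sub_apply, hBQ]
  have hU₀V : U₀ ≤ V := by
    apply sup_le
    · exact X.L_mono fun P => by
        rw [Finsupp.add_apply, Finsupp.add_apply]
        linarith [hDE P]
    · exact X.L_mono fun P => by
        rw [Finsupp.add_apply]
        linarith [hnQ0 P]
  have hdimU := hcod (D - E) B₁ hDE hDEQ (by rw [X.deg_add, hdegnQ]; linarith)
    (by rw [hdegB₁]; exact hm.2)
  let Φ : X.L E →ₗ[ℂ] Module.Dual ℂ V :=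
    { toFun := fun f => (ω.comp (LinearMap.mulLeft ℂ (f : K))).comp V.subtype
      map_add' := by
        intro f f'
        ext v
        simp [add_mul]
      map_smul' := by
        intro a f
        ext v
        simp }
  have hΦ : ∀ (f : X.L E) (v : V), Φ f v = ω ((f : K) * v) := fun f v => rfl
  have hker : ∀ f : X.L E, Φ f ∈ (U₀.comap V.subtype).dualAnnihilator := by
    intro f
    rw [Submodule.mem_dualAnnihilator]
    intro v hv
    rw [hΦ]
    apply hω
    obtain ⟨y, hy, z, hz, hyz⟩ := Submodule.mem_sup.1 (show (v : K) ∈ U₀ from hv)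
    rw [← hyz, mul_add]
    apply add_mem
    · apply (le_sup_left : X.L (D + nQ) ≤ T₀)
      have h1 := X.mul_mem_L f.2 hy
      have e1 : E + (D - E + nQ) = D + nQ := by abel
      rwa [e1] at h1
    · apply (le_sup_right : X.L B ≤ T₀)
      have h1 := X.mul_mem_L f.2 hz
      have e1 : E + B₁ = B := by
        rw [hB₁]
        abel
      rwa [e1] at h1
  have hinj : Function.Injective Φ := by
    rw [injective_iff_map_eq_zero]
    intro f hf
    by_contra hf0
    have hf0' : (f : K) ≠ 0 := fun h0 => hf0 (Subtype.ext h0)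
    -- `ω` vanishes on `T`
    obtain ⟨F₁, hF₁⟩ : ∃ F₁ : X.Pt →₀ ℤ, F₁ = B₁ - X.dv (f : K) := ⟨_, rfl⟩
    have hz1 : ∀ z ∈ X.L (F₁ + nQ), ω z = 0 := by
      intro z hz
      have h1 : (f : K)⁻¹ * z ∈ V := by
        have h2 : (f : K) * ((f : K)⁻¹ * z) ∈ X.L (F₁ + nQ) := by
          rw [mul_inv_cancel_left₀ hf0']
          exact hz
        have h3 := (X.mul_mem_L_iff hf0').1 h2
        have e1 : F₁ + nQ + X.dv (f : K) = B₁ + nQ := by
          rw [hF₁]
          abel
        rwa [e1] at h3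
      have h4 := LinearMap.congr_fun hf (⟨_, h1⟩ : V)
      rw [hΦ] at h4
      simp only at h4
      rw [mul_inv_cancel_left₀ hf0'] at h4
      exact h4
    have hpd := deg_posp_dv f.2 hf0'
    have hS1 : c ≤ X.deg ((F₁ + nQ) ⊓ (D + nQ)) := by
      have h1 : X.deg (nQ + (B₁ ⊓ D) - posp (X.dv (f : K))) ≤ X.deg ((F₁ + nQ) ⊓ (D + nQ)) := by
        apply X.deg_mono
        intro P
        rw [Finsupp.sub_apply, Finsupp.add_apply, Finsupp.inf_apply, Finsupp.inf_apply, hF₁,
          Finsupp.add_apply, Finsupp.add_apply, Finsupp.sub_apply, posp_apply]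
        have h2 := le_max_left (X.dv (f : K) P) 0
        have h3 := le_max_right (X.dv (f : K) P) 0
        have h4 : min (B₁ P) (D P) ≤ B₁ P := min_le_left _ _
        have h5 : min (B₁ P) (D P) ≤ D P := min_le_right _ _
        show nQ P + min (B₁ P) (D P) - max (X.dv (f : K) P) 0 ≤
          min (B₁ P - X.dv (f : K) P + nQ P) (D P + nQ P)
        apply le_min <;> linarith
      rw [X.deg_sub, X.deg_add, hdegnQ] at h1
      linarith
    have hsum1 := L_sup_eq h hS1
    obtain ⟨S, hS⟩ : ∃ S : X.Pt →₀ ℤ, S = (F₁ + nQ) ⊔ (D + nQ) := ⟨_, rfl⟩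
    have hz2 : ∀ z ∈ X.L S, ω z = 0 := by
      intro z hz
      rw [hS, ← hsum1] at hz
      obtain ⟨y, hy, w, hw, hyw⟩ := Submodule.mem_sup.1 hz
      rw [← hyw, map_add, hz1 y hy, hω w ((le_sup_left : X.L (D + nQ) ≤ T₀) hw), add_zero]
    have hF₁B : ∀ P, F₁ P ≤ B P := by
      intro P
      rw [hF₁, hB₁, Finsupp.sub_apply, Finsupp.sub_apply, X.dv_apply hf0']
      have := f.2 hf0' P
      linarith
    have hSP : ∀ P, S P = max (F₁ P + nQ P) (D P + nQ P) := by
      intro P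
      rw [hS, Finsupp.sup_apply, Finsupp.add_apply, Finsupp.add_apply]
    have hS2 : c ≤ X.deg (S ⊓ B) := by
      have h1 : X.deg F₁ ≤ X.deg (S ⊓ B) := by
        apply X.deg_mono
        intro P
        rw [Finsupp.inf_apply, hSP]
        apply le_inf
        · exact le_trans (by linarith [hnQ0 P]) (le_max_left _ _)
        · exact hF₁B P
      rw [hF₁, X.deg_sub, X.deg_dv hf0', hdegB₁] at h1
      linarith [hm.2]
    have hsum2 := L_sup_eq h hS2
    have hSB : S ⊔ B = B + nQ := by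
      ext P
      rw [Finsupp.sup_apply, Finsupp.add_apply, hSP]
      show max (max (F₁ P + nQ P) (D P + nQ P)) (B P) = B P + nQ P
      by_cases hP : P = Q
      · rw [hP, hBQ, hnQQ]
        have h1 := hF₁B Q
        rw [hBQ] at h1
        rw [max_eq_right (by linarith : F₁ Q + n ≤ D Q + n), max_eq_left (by linarith)]
      · rw [hnQP P hP, add_zero, add_zero, add_zero]
        exact max_eq_right (max_le (hF₁B P) (hDB P))
    rw [hSB] at hsum2
    apply hω1
    rw [hT, ← hsum2] at htT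
    obtain ⟨y, hy, w, hw, hyw⟩ := Submodule.mem_sup.1 htT
    rw [← hyw, map_add, hz2 y hy, hω w ((le_sup_right : X.L B ≤ T₀) hw), add_zero]
  -- count dimensions
  have hle : finrank ℂ (X.L E) ≤ finrank ℂ (U₀.comap V.subtype).dualAnnihilator :=
    LinearMap.finrank_le_finrank_of_injective (f := Φ.codRestrict _ hker) (by
      intro f f' hff
      exact hinj (congrArg Subtype.val hff))
  have hann := Subspace.finrank_add_finrank_dualAnnihilator_eq (U₀.comap V.subtype)
  have hcomap : finrank ℂ (U₀.comap V.subtype) = finrank ℂ U₀ :=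
    LinearEquiv.finrank_eq (Submodule.comapSubtypeEquivOfLe hU₀V)
  rw [hcomap] at hann
  have hVr := h (B₁ + nQ) (by rw [X.deg_add, hdegnQ]; linarith [hm.2])
  rw [← hU₀, ← hV] at hdimU
  omega

/-- Riemann-Roch in the range `deg > 2 g - 2` from large degrees. -/
theorem rr_of_large (X : CurveOrd K) (hR : X.Res) {Q R : X.Pt} (hQR : Q ≠ R) {g c : ℤ}
    (h : X.RRLarge g c) (D : X.Pt →₀ ℤ) (hD : 2 * g - 2 < X.deg D) :
    (finrank ℂ (X.L D) : ℤ) = X.deg D + 1 - g := by
  classical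
  have : Nonempty X.Pt := ⟨Q⟩
  have hfin : ∀ D : X.Pt →₀ ℤ, FiniteDimensional ℂ (X.L D) := fun D => finite_L' hR D
  have hge : X.deg D + 1 - g ≤ finrank ℂ (X.L D) := by
    obtain ⟨n, hn⟩ := exists_nat_ge (c - X.deg D)
    have h1 := finrank_L_mono hR (D := D) (E := D + Finsupp.single Q (n : ℤ)) (by
      intro P
      rw [Finsupp.add_apply, Finsupp.single_apply]
      split_ifs
      · linarith [Int.natCast_nonneg n]
      · linarith)
    have h2 := h (D + Finsupp.single Q (n : ℤ)) (by rw [X.deg_add, X.deg_single]; linarith)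
    rw [h2, X.deg_add, X.deg_single] at h1
    linarith
  by_contra hne
  have hlt : X.deg D + 1 - g < finrank ℂ (X.L D) := lt_of_le_of_ne hge (Ne.symm hne)
  -- a divisor of large degree
  obtain ⟨k, hk⟩ : ∃ k : ℕ, X.deg D < k ∧ c ≤ k := by
    obtain ⟨k₁, h1⟩ := exists_nat_ge (X.deg D + 1)
    obtain ⟨k₂, h2⟩ := exists_nat_ge c
    have k1 := Int.natCast_nonneg k₁
    have k2 := Int.natCast_nonneg k₂
    refine ⟨k₁ + k₂, ?_⟩
    push_cast
    constructor <;> linarith
  set E : X.Pt →₀ ℤ := Finsupp.single Q (k : ℤ) with hE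
  have hdegE : X.deg E = k := by rw [hE, X.deg_single]
  have h1 := claim hR h hQR hlt E
  have h2 := h E (by rw [hdegE]; exact hk.2)
  have h3 : X.L (D - E) = ⊥ := X.L_eq_bot (by rw [X.deg_sub, hdegE]; linarith [hk.1])
  rw [h3, finrank_bot, X.deg_sub, h2, hdegE] at h1
  push_cast at h1
  linarith

end CurveOrd
end Pool.Agent.YTD
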