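import Pool.Agent.YTD.CovFinal
import Pool.Agent.YTD.RRLarge

/-!
Existence of the data `(C, S, S')` with a free action of `(ℤ/2)³`.
-/

namespace Pool.Agent.YTD.Hyp

open Polynomial Module

noncomputable section

variable {F : Type} [Field F] [Algebra ℂ F] {Λ : LF F}

theorem Deck.ord_comp {K : Type} [Field K] [Algebra ℂ K] {X : CurveP Λ K} (δ : Deck X) (P : X.Pt)
    (z : K) : X.toOrd.ord (δ.σ P) (δ.θ z) = X.toOrd.ord P z := by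
  show Λ.ord (X.phi (δ.σ P) (δ.θ z)) = Λ.ord (X.phi P z)
  rw [δ.comp]

section final

variable {f : ℂ[X]} [NonSq f] (G : Good f) {a₁ a₂ a₃ : ℂ} [NonSqK (hh₁ f a₁)]
  [NonSqK (hh₂ f a₁ a₂)] [NonSqK (hh₃ f a₁ a₂ a₃)]
  (h1 : f.eval a₁ = 0) (h2 : f.eval a₂ = 0) (h3 : f.eval a₃ = 0)

/-- The third cover as a curve with its genus. -/
def X₃C (Λ : LF F) {g : ℕ} (hg : f.natDegree = 2 * g + 1) (hg0 : 0 < g) :
    Curve (DK (hh₃ f a₁ a₂ a₃)) where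
  toCurveOrd := (X₃ G h1 h2 h3 Λ).toOrd
  genus := 8 * g - 7
  riemann_roch := by
    intro D hD
    haveI := charZero_of_alg F
    obtain ⟨c, hc⟩ := X₃_rrl (Λ := Λ) G h1 h2 h3 hg
    have e : (((8 * g - 7 : ℕ) : ℤ)) = 8 * g - 7 := by omega
    rw [e] at hD ⊢
    let Q : (X₃ G h1 h2 h3 Λ).Pt :=
      lft (ev₃ G h1 h2 h3) (lft (ev₂ G h1 h2) (lft (ev₁ G h1) none))
    exact CurveOrd.rr_of_large (X₃ G h1 h2 h3 Λ).toOrd (X₃ G h1 h2 h3 Λ).res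
      (Q := dneg Q) (R := Q) (dneg_ne Q) hc D hD

include G h1 h2 h3 in
theorem exists_gam {g : ℕ} (hg : f.natDegree = 2 * g + 1) {s : ℕ} (hs : 0 < s)
    (hgs : g = 9 * s + 1) :
    ∃ (T : Datum (DK (hh₃ f a₁ a₂ a₃))) (_ : Gam T), T.t = 8 * s := by
  obtain ⟨F, _, _, ⟨Λ⟩⟩ := exists_LF
  haveI := charZero_of_alg F
  have hg0 : 0 < g := by omega
  obtain ⟨S, S', cS, cS', hd, i0, i1, i2, j1, j2⟩ := exists_sheets (Λ := Λ) G h1 h2 h3 (200 * s)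
  let T : Datum (DK (hh₃ f a₁ a₂ a₃)) :=
    { X := X₃C G h1 h2 h3 Λ hg hg0
      t := 8 * s
      t_pos := by omega
      genus_eq := by
        show 8 * g - 7 = 9 * (8 * s) + 1
        omega
      S := S
      S' := S'
      card_S := cS.trans (by ring)
      card_S' := cS'.trans (by ring)
      disj := hd }
  have key1 : ∀ x y : (X₃ G h1 h2 h3 Λ).Pt, y.1.1.1.1 = dneg x.1.1.1.1 → y ≠ x := by
    intro x y hxy hyx
    rw [hyx] at hxy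
    exact dneg_ne _ hxy.symm
  have key2 : ∀ x y : (X₃ G h1 h2 h3 Λ).Pt, y.1.1 = dneg x.1.1 → y ≠ x := by
    intro x y hxy hyx
    rw [hyx] at hxy
    exact dneg_ne _ hxy.symm
  have c₁₂ := comm₁₂ (Λ := Λ) G h1 h2 h3
  have c₁₃ := comm₁₃ (Λ := Λ) G h1 h2 h3
  have c₂₃ := comm₂₃ (Λ := Λ) G h1 h2 h3
  refine ⟨T,
    { θ := (dk₃ (Λ := Λ) G h1 h2 h3).θ
      σ := (dk₃ (Λ := Λ) G h1 h2 h3).σ
      θθ := (dk₃ (Λ := Λ) G h1 h2 h3).θθ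
      σσ := (dk₃ (Λ := Λ) G h1 h2 h3).σσ
      free := fun P => dneg_ne P
      ord_σ := fun P z _ => (dk₃ (Λ := Λ) G h1 h2 h3).ord_comp P z
      S_iff := i0
      θ₁ := (dk₁ (Λ := Λ) G h1 h2 h3).θ
      θ₂ := (dk₂ (Λ := Λ) G h1 h2 h3).θ
      σ₁ := (dk₁ (Λ := Λ) G h1 h2 h3).σ
      σ₂ := (dk₂ (Λ := Λ) G h1 h2 h3).σ
      θθ₁ := (dk₁ (Λ := Λ) G h1 h2 h3).θθ
      θθ₂ := (dk₂ (Λ := Λ) G h1 h2 h3).θθ
      σσ₁ := (dk₁ (Λ := Λ) G h1 h2 h3).σσ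
      σσ₂ := (dk₂ (Λ := Λ) G h1 h2 h3).σσ
      ord_σ₁ := fun P z _ => (dk₁ (Λ := Λ) G h1 h2 h3).ord_comp P z
      ord_σ₂ := fun P z _ => (dk₂ (Λ := Λ) G h1 h2 h3).ord_comp P z
      S_iff₁ := i1
      S_iff₂ := i2
      S'_iff₁ := j1
      S'_iff₂ := j2
      comm₁₂ := c₁₂.θ
      comm₁ := c₁₃.symm.θ
      comm₂ := c₂₃.symm.θ
      σcomm₁₂ := c₁₂.σ
      σcomm₁ := c₁₃.symm.σ
      σcomm₂ := c₂₃.symm.σ
      free₁ := fun P => key1 P _ rfl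
      free₂ := fun P => key2 P _ rfl
      free₁₂ := fun P => key1 P _ rfl
      free₀₁ := fun P => key1 P _ rfl
      free₀₂ := fun P => key2 P _ rfl
      free₀₁₂ := fun P => key1 P _ rfl }, rfl⟩

end final

/-- Existence of the data `(C, S, S')` together with a group `(ℤ/2)³` acting freely on `C`, one
of the generators exchanging `S` and `S'`, the two others preserving `S` and `S'`. -/
theorem exists_datum_Gam (s : ℕ) (hs : 0 < s) :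
    ∃ (K : Type) (_ : Field K) (_ : Algebra ℂ K) (T : Datum K) (_ : Gam T), T.t = 8 * s := by
  obtain ⟨F, _, _, ⟨Λ⟩⟩ := exists_LF
  have G := good_fg (9 * s + 1)
  haveI : NonSq (fg (9 * s + 1)) := G.nonSq
  obtain ⟨a₁, a₂, a₃, b, h1, h2, h3, hb, h12, h13, h23, h1b, h2b, h3b⟩ :=
    exists_roots (9 * s + 1) (by omega)
  haveI i1 : NonSqK (hh₁ (fg (9 * s + 1)) a₁) := ns₁ Λ G hb h1b
  haveI i2 : NonSqK (hh₂ (fg (9 * s + 1)) a₁ a₂) := NonSqK.mk' (ns₂ Λ G hb h12 h1b h2b)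
  haveI i3 : NonSqK (hh₃ (fg (9 * s + 1)) a₁ a₂ a₃) :=
    NonSqK.mk' (ns₃ Λ G hb h12 h13 h23 h1b h2b h3b)
  obtain ⟨T, γ, hT⟩ := exists_gam G h1 h2 h3 (natDegree_fg _) hs rfl
  exact ⟨DK (hh₃ (fg (9 * s + 1)) a₁ a₂ a₃), inferInstance, inferInstance, T, γ, hT⟩

end

end Pool.Agent.YTD.Hyp
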