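import Pool.Agent.YTD.Cov

/-!
Riemann-Roch in large degrees for étale double covers.
-/

namespace Pool.Agent.YTD.Hyp

open Module

noncomputable section

variable {F : Type} [Field F] [Algebra ℂ F] {Λ : LF F} {K : Type} [Field K] [Algebra ℂ K]
variable {X : CurveP Λ K} {h : K} [hns : NonSqK h]

/-- pull-back of divisors -/
def pb (D : X.Pt →₀ ℤ) : DPt X h →₀ ℤ :=
  Finsupp.ofSupportFinite (fun x => D x.1.1) (by
    have h1 := finite_preim (X := X) (h := h) (D.support.finite_toSet)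
    apply h1.subset
    intro x hx
    simpa using hx)

theorem pb_apply (D : X.Pt →₀ ℤ) (x : DPt X h) : pb D x = D x.1.1 := rfl

theorem deg_pb (hev : ∀ P, Even (Λ.ord (X.phi P h))) (D : X.Pt →₀ ℤ) :
    (X.dbl h hev).toOrd.deg (pb D) = 2 * X.toOrd.deg D := by
  rw [deg_eq_finsum, deg_eq_finsum]
  have h1 : (Function.support fun x : DPt X h => pb D x).Finite := by
    apply (pb (h := h) D).support.finite_toSet.subset
    intro x hx
    simpa using hx
  show ∑ᶠ x : DPt X h, pb D x = _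
  rw [finsum_fib hev h1]
  have h2 : (fun P => pb (h := h) D (lft hev P) + pb D (dneg (lft hev P))) = fun P => 2 * D P := by
    funext P
    show D P + D P = _
    ring
  rw [h2]
  have h3 : (Function.support fun P => D P).Finite := by
    apply D.support.finite_toSet.subset
    intro x hx
    simpa using hx
  exact (mul_finsum (fun P => D P) 2).symm

/-- half of the divisor of `h` -/
def hdv (X : CurveP Λ K) (h : K) [hns : NonSqK h] : X.Pt →₀ ℤ :=
  Finsupp.ofSupportFinite (fun P => Λ.ord (X.phi P h) / 2) (by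
    apply (X.finite_ord h (h_ne (h := h))).subset
    intro P hP h0
    apply hP
    show Λ.ord (X.phi P h) / 2 = 0
    rw [h0]
    rfl)

theorem hdv_apply (P : X.Pt) : hdv X h P = Λ.ord (X.phi P h) / 2 := rfl

theorem hdv_eq (x : DPt X h) : hdv X h x.1.1 = Λ.ord x.1.2 := by
  rw [hdv_apply, ← ord_eta x]
  exact Int.mul_ediv_cancel_left _ two_ne_zero

theorem deg_hdv (hev : ∀ P, Even (Λ.ord (X.phi P h))) : X.toOrd.deg (hdv X h) = 0 := by
  have h1 : hdv X h + hdv X h = X.toOrd.dv h := by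
    ext P
    rw [Finsupp.add_apply, X.toOrd.dv_apply (h_ne (h := h)), hdv_apply]
    show _ = Λ.ord (X.phi P h)
    obtain ⟨m, hm⟩ := hev P
    rw [hm]
    omega
  have h2 := X.toOrd.deg_add (hdv X h) (hdv X h)
  rw [h1, X.toOrd.deg_dv (h_ne (h := h))] at h2
  linarith

theorem two_ord (X : CurveP Λ K) (P : X.Pt) {u : K} (hu : u ≠ 0) :
    Λ.ord (X.phi P (algebraMap ℂ K 2 * u)) = Λ.ord (X.phi P u) := by
  rw [map_mul, Λ.ord_mul (X.phi_ne P ((map_ne_zero _).2 two_ne_zero)) (X.phi_ne P hu),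
    AlgHom.commutes, Λ.ord_const, zero_add]

/-- membership in `L` for the double cover -/
theorem mem_L_dbl (hev : ∀ P, Even (Λ.ord (X.phi P h))) (D : X.Pt →₀ ℤ) (z : DK h) :
    z ∈ (X.dbl h hev).toOrd.L (pb D) ↔
      z.re ∈ X.toOrd.L D ∧ z.im ∈ X.toOrd.L (D + hdv X h) := by
  constructor
  · intro hz
    by_cases h0 : z = 0
    · rw [h0, QuadraticAlgebra.re_zero, QuadraticAlgebra.im_zero]
      exact ⟨zero_mem _, zero_mem _⟩
    have h1 : ∀ x : DPt X h, - D x.1.1 ≤ Λ.ord (dphi x z) := by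
      intro x
      have := hz h0 x
      have h2 : 0 ≤ Λ.ord (dphi x z) + D x.1.1 := this
      linarith
    have h2 : ∀ x : DPt X h, - D x.1.1 ≤ Λ.ord (dphi (dneg x) z) := fun x => h1 (dneg x)
    constructor
    · intro hre P
      have h3 := h1 (lft hev P)
      have h4 := h2 (lft hev P)
      have h5 : dphi (lft hev P) z + dphi (dneg (lft hev P)) z =
          X.phi P (algebraMap ℂ K 2 * z.re) := by
        rw [dphi_apply, dphi_apply, map_mul, AlgHom.commutes, map_ofNat]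
        show X.phi P z.re + X.phi P z.im * rt hev P +
          (X.phi P z.re + X.phi P z.im * (- rt hev P)) = _
        ring
      have h6 : dphi (lft hev P) z + dphi (dneg (lft hev P)) z ≠ 0 := by
        rw [h5]
        exact X.phi_ne P (mul_ne_zero ((map_ne_zero _).2 two_ne_zero) hre)
      have h7 := Λ.ord_add h6
      rw [h5, two_ord X P hre] at h7
      have h8 := le_trans (le_min h3 h4) h7
      show 0 ≤ Λ.ord (X.phi P z.re) + D P
      have h9 : - D P ≤ Λ.ord (X.phi P z.re) := h8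
      linarith
    · intro him P
      have h3 := h1 (lft hev P)
      have h4 := h2 (lft hev P)
      have h5 : dphi (lft hev P) z + - dphi (dneg (lft hev P)) z =
          X.phi P (algebraMap ℂ K 2 * z.im) * rt hev P := by
        rw [dphi_apply, dphi_apply, map_mul, AlgHom.commutes, map_ofNat]
        show X.phi P z.re + X.phi P z.im * rt hev P +
          - (X.phi P z.re + X.phi P z.im * (- rt hev P)) = _
        ring
      have hr : rt hev P ≠ 0 := eta_ne (lft hev P)
      have h2' : X.phi P (algebraMap ℂ K 2 * z.im) ≠ 0 :=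
        X.phi_ne P (mul_ne_zero ((map_ne_zero _).2 two_ne_zero) him)
      have h6 : dphi (lft hev P) z + - dphi (dneg (lft hev P)) z ≠ 0 := by
        rw [h5]
        exact mul_ne_zero h2' hr
      have h7 := Λ.ord_add h6
      rw [h5, Λ.ord_mul h2' hr, two_ord X P him, LF.ord_neg] at h7
      have h8 := le_trans (le_min h3 h4) h7
      have h9 : - D P ≤ Λ.ord (X.phi P z.im) + Λ.ord (rt hev P) := h8
      have h10 : hdv X h P = Λ.ord (rt hev P) := hdv_eq (lft hev P)
      show 0 ≤ Λ.ord (X.phi P z.im) + (D + hdv X h) P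
      rw [Finsupp.add_apply, h10]
      linarith
  · rintro ⟨h1, h2⟩ h0 x
    show 0 ≤ Λ.ord (dphi x z) + D x.1.1
    have h3 : - D x.1.1 ≤ Λ.ord (dphi x z) := by
      apply le_ord_dphi x h0
      · intro hre
        have : 0 ≤ Λ.ord (X.phi x.1.1 z.re) + D x.1.1 := h1 hre x.1.1
        linarith
      · intro him
        have : 0 ≤ Λ.ord (X.phi x.1.1 z.im) + (D + hdv X h) x.1.1 := h2 him x.1.1
        rw [Finsupp.add_apply, hdv_eq] at this
        linarith
    linarith

/-- the linear equivalence -/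
def lEquiv (hev : ∀ P, Even (Λ.ord (X.phi P h))) (D : X.Pt →₀ ℤ) :
    (X.dbl h hev).toOrd.L (pb D) ≃ₗ[ℂ] (X.toOrd.L D × X.toOrd.L (D + hdv X h)) where
  toFun z := (⟨z.1.re, ((mem_L_dbl hev D z.1).1 z.2).1⟩, ⟨z.1.im, ((mem_L_dbl hev D z.1).1 z.2).2⟩)
  invFun p := ⟨⟨p.1, p.2⟩, (mem_L_dbl hev D _).2 ⟨p.1.2, p.2.2⟩⟩
  map_add' z w := rfl
  map_smul' c z := rfl
  left_inv z := rfl
  right_inv p := rfl

theorem finrank_pb (hev : ∀ P, Even (Λ.ord (X.phi P h))) (P₀ : X.Pt) (D : X.Pt →₀ ℤ) :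
    finrank ℂ ((X.dbl h hev).toOrd.L (pb D)) =
      finrank ℂ (X.toOrd.L D) + finrank ℂ (X.toOrd.L (D + hdv X h)) := by
  haveI : Nonempty X.toOrd.Pt := ⟨P₀⟩
  haveI := CurveOrd.finite_L' X.res D
  haveI := CurveOrd.finite_L' X.res (D + hdv X h)
  rw [(lEquiv hev D).finrank_eq, finrank_prod]

/-- every divisor is bounded by a pull-back of large degree -/
theorem exists_pb_ge (P₀ : X.Pt) (E : DPt X h →₀ ℤ) (c : ℤ) :
    ∃ D : X.Pt →₀ ℤ, (∀ x, E x ≤ pb D x) ∧ c ≤ X.toOrd.deg D := by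
  classical
  have key : ∃ D : X.Pt →₀ ℤ, (∀ x, E x ≤ pb D x) ∧ ∀ P, 0 ≤ D P := by
    induction E using Finsupp.induction_linear with
    | zero => exact ⟨0, fun x => le_rfl, fun P => le_rfl⟩
    | add A B hA hB =>
      obtain ⟨D, h1, h2⟩ := hA
      obtain ⟨D', h3, h4⟩ := hB
      refine ⟨D + D', ?_, ?_⟩
      · intro x
        rw [Finsupp.add_apply, pb_apply, Finsupp.add_apply]
        exact add_le_add (h1 x) (h3 x)
      · intro P
        rw [Finsupp.add_apply]
        exact add_nonneg (h2 P) (h4 P)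
    | single y n =>
      refine ⟨Finsupp.single y.1.1 |n|, ?_, ?_⟩
      · intro x
        rw [pb_apply]
        by_cases hx : x = y
        · subst hx
          rw [Finsupp.single_eq_same, Finsupp.single_eq_same]
          exact le_abs_self n
        · rw [Finsupp.single_eq_of_ne hx]
          rw [Finsupp.single_apply]
          split_ifs
          · exact abs_nonneg n
          · exact le_rfl
      · intro P
        rw [Finsupp.single_apply]
        split_ifs
        · exact abs_nonneg n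
        · exact le_rfl
  obtain ⟨D, h1, h2⟩ := key
  refine ⟨D + Finsupp.single P₀ |c|, ?_, ?_⟩
  · intro x
    have h3 := h1 x
    rw [pb_apply] at h3 ⊢
    rw [Finsupp.add_apply, Finsupp.single_apply]
    split_ifs
    · have := abs_nonneg c
      linarith
    · linarith
  · rw [X.toOrd.deg_add, X.toOrd.deg_single]
    have h3 := X.toOrd.deg_nonneg h2
    have := le_abs_self c
    linarith

/-- Riemann-Roch in large degrees from Riemann-Roch for a cofinal set of divisors. -/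
theorem rrl_of {K' : Type} [Field K'] [Algebra ℂ K'] (Y : CurveOrd K') (hR : Y.Res) (P₀ : Y.Pt)
    (g' : ℤ) (A : Set (Y.Pt →₀ ℤ)) (hA : ∀ E : Y.Pt →₀ ℤ, ∃ D ∈ A, ∀ x, E x ≤ D x)
    (h1 : ∀ D ∈ A, (finrank ℂ (Y.L D) : ℤ) = Y.deg D + 1 - g') :
    ∃ c : ℤ, ∀ D : Y.Pt →₀ ℤ, c ≤ Y.deg D → (finrank ℂ (Y.L D) : ℤ) = Y.deg D + 1 - g' := by
  haveI : Nonempty Y.Pt := ⟨P₀⟩
  have h2 : ∀ E : Y.Pt →₀ ℤ, Y.deg E + 1 - g' ≤ finrank ℂ (Y.L E) := by
    intro E
    obtain ⟨D, hD1, hD2⟩ := hA E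
    have h3 := CurveOrd.finrank_L_mono hR hD2
    rw [h1 D hD1] at h3
    linarith
  obtain ⟨D₁, hD₁, _⟩ := hA 0
  refine ⟨Y.deg D₁ + g', ?_⟩
  intro E hE
  apply le_antisymm _ (h2 E)
  have h3 := h2 (E - D₁)
  rw [Y.deg_sub] at h3
  have h4 : 0 < finrank ℂ (Y.L (E - D₁)) := by
    have h5 : (0 : ℤ) < finrank ℂ (Y.L (E - D₁)) := by
      linarith
    exact_mod_cast h5
  have h5 : Y.L (E - D₁) ≠ ⊥ := by
    intro h6
    rw [h6, finrank_bot] at h4
    exact lt_irrefl 0 h4
  obtain ⟨z, hz, hz0⟩ := Submodule.exists_mem_ne_zero_of_ne_bot h5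
  have h6 : ∀ x, D₁ x ≤ (E + Y.dv z) x := by
    intro x
    have h7 := hz hz0 x
    rw [Finsupp.sub_apply] at h7
    rw [Finsupp.add_apply, Y.dv_apply hz0]
    linarith
  have h7 := CurveOrd.finrank_L_mono hR h6
  rw [CurveOrd.finrank_L_add_dv E hz0, Y.deg_add, Y.deg_dv hz0, add_zero, h1 D₁ hD₁] at h7
  linarith

/-- Riemann-Roch in large degrees for the double cover. -/
theorem CurveP.RRL.dbl {g : ℤ} (hg : X.RRL g) (hev : ∀ P, Even (Λ.ord (X.phi P h)))
    (P₀ : X.Pt) : (X.dbl h hev).RRL (2 * g - 1) := by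
  obtain ⟨c, hc⟩ := hg
  apply rrl_of (X.dbl h hev).toOrd (X.dbl h hev).res (lft hev P₀) (2 * g - 1)
    {E | ∃ D : X.Pt →₀ ℤ, c ≤ X.toOrd.deg D ∧ E = pb D}
  · intro E
    obtain ⟨D, hD1, hD2⟩ := exists_pb_ge P₀ E c
    exact ⟨pb D, ⟨D, hD2, rfl⟩, hD1⟩
  · rintro _ ⟨D, hD, rfl⟩
    have e1 : X.toOrd.deg (D + hdv X h) = X.toOrd.deg D := by
      rw [X.toOrd.deg_add, deg_hdv hev, add_zero]
    have e2 := hc D hD
    have e3 := hc (D + hdv X h) (by rw [e1]; exact hD)
    rw [finrank_pb hev P₀ D, deg_pb hev D]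
    push_cast
    rw [e2, e3, e1]
    ring

end

end Pool.Agent.YTD.Hyp
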