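import Pool.Agent.YTD.CovDeck

/-!
The tower of three étale double covers of a hyperelliptic curve.
-/

namespace Pool.Agent.YTD.Hyp

open Polynomial Module

noncomputable section

variable {F : Type} [Field F] [Algebra ℂ F] {Λ : LF F} {f : ℂ[X]}

/-- the hyperelliptic curve with its parametrisations -/
@[reducible] def baseP (Λ : LF F) (G : Good f) [NonSq f] : CurveP Λ (KK f) where
  Pt := Pts f
  phi P := (parAt Λ G.ne P).phi
  finite_ord _ hz := finite_ordAt G.ne hz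
  sum_ord _ hz := tot_eq_zero G hz

theorem baseP_rrl (Λ : LF F) (G : Good f) [NonSq f] {g : ℕ} (hg : f.natDegree = 2 * g + 1) :
    (baseP Λ G).RRL g := by
  refine ⟨2 * g - 1, fun D hD => ?_⟩
  exact (curve Λ G hg).riemann_roch D (by
    have h1 : 2 * (g : ℤ) - 1 ≤ (cOrd Λ G).deg D := hD
    show 2 * (g : ℤ) - 2 < (cOrd Λ G).deg D
    linarith)

/-! ### Nonsquares -/

theorem ratfunc_not_sq (Λ : LF F) (a : ℂ) {q : ℂ[X]} (hq : q.eval a ≠ 0) (r : RatFunc ℂ) :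
    r ^ 2 ≠ algebraMap ℂ[X] (RatFunc ℂ) ((X - C a) * q) := by
  intro hr
  have hq0 : q ≠ 0 := by
    rintro rfl
    simp at hq
  have hθ : ∀ c : ℂ, thA Λ 1 a - algebraMap ℂ F c ≠ 0 := thA_sub_ne (by norm_num) a
  let P : Par F (1 : ℂ[X]) := ⟨thA Λ 1 a, 1, by simp, hθ⟩
  have h1 : P.psi r ^ 2 = aeval (thA Λ 1 a) ((X - C a) * q) := by
    rw [← map_pow, hr, P.psi_algebraMap]
  have hr0 : r ≠ 0 := by
    rintro rfl
    rw [map_zero] at h1
    have h2 := aeval_ne_of hθ _ (mul_ne_zero (X_sub_C_ne_zero a) hq0)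
    rw [← h1] at h2
    exact h2 (by ring)
  have h2 : Λ.ord (P.psi r ^ 2) = 2 * Λ.ord (P.psi r) := by
    rw [LF.ord_pow ((_root_.map_ne_zero _).2 hr0)]
    rfl
  have h3 : Λ.ord (aeval (thA Λ 1 a) ((X - C a) * q)) = 1 := by
    rw [map_mul, Λ.ord_mul (aeval_ne_of hθ _ (X_sub_C_ne_zero a)) (aeval_ne_of hθ _ hq0),
      ((ord_aff (by norm_num) a q hq0).1 hq).1, aeval_X_sub_C, thA_sub_self, ord_s_pow]
    norm_num
  rw [h1, h3] at h2
  omega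

theorem charZero_of_alg (K : Type) [Field K] [Algebra ℂ K] : CharZero K :=
  charZero_of_injective_algebraMap (algebraMap ℂ K).injective

theorem nonsq0 (Λ : LF F) (G : Good f) {a b : ℂ} {p q : ℂ[X]} (hp : p = (X - C a) * q)
    (hq : q.eval a ≠ 0) (hb : f.eval b = 0) (hpb : p.eval b ≠ 0) :
    ∀ r : KK f, r ^ 2 ≠ emb p := by
  haveI := charZero_of_alg (RatFunc ℂ)
  apply nonSqK_of
  · intro r
    rw [hp]
    exact ratfunc_not_sq Λ a hq r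
  · intro r
    obtain ⟨q', hq', hq0'⟩ := G.simple b hb
    have e : algebraMap ℂ[X] (RatFunc ℂ) p * algebraMap ℂ[X] (RatFunc ℂ) f =
        algebraMap ℂ[X] (RatFunc ℂ) ((X - C b) * (p * q')) := by
      rw [← map_mul]
      congr 1
      nth_rewrite 1 [hq']
      ring
    rw [e]
    apply ratfunc_not_sq Λ b
    rw [eval_mul]
    exact mul_ne_zero hpb hq0'

/-- the first radicand -/
abbrev hh₁ (f : ℂ[X]) (a₁ : ℂ) : KK f := emb (X - C a₁)

/-- the second radicand -/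
abbrev hh₂ (f : ℂ[X]) (a₁ a₂ : ℂ) [NonSq f] : DK (hh₁ f a₁) :=
  algebraMap (KK f) (DK (hh₁ f a₁)) (emb (X - C a₂))

/-- the third radicand -/
abbrev hh₃ (f : ℂ[X]) (a₁ a₂ a₃ : ℂ) [NonSq f] [NonSqK (hh₁ f a₁)] : DK (hh₂ f a₁ a₂) :=
  algebraMap (DK (hh₁ f a₁)) (DK (hh₂ f a₁ a₂))
    (algebraMap (KK f) (DK (hh₁ f a₁)) (emb (X - C a₃)))

section nonsq

variable [NonSq f] (Λ) (G : Good f) {a₁ a₂ a₃ b : ℂ} (hb : f.eval b = 0)
  (h12 : a₁ ≠ a₂) (h13 : a₁ ≠ a₃) (h23 : a₂ ≠ a₃) (h1b : a₁ ≠ b) (h2b : a₂ ≠ b) (h3b : a₃ ≠ b)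

include Λ G hb

include h1b in
theorem ns₁ : NonSqK (hh₁ f a₁) := by
  apply NonSqK.mk'
  apply nonsq0 Λ G (a := a₁) (q := 1) (by ring) (by simp) hb
  simp only [eval_sub, eval_X, eval_C]
  exact sub_ne_zero.2 h1b.symm

include h1b h2b h12 in
theorem ns₂ : ∀ r : DK (hh₁ f a₁), r ^ 2 ≠ hh₂ f a₁ a₂ := by
  haveI := charZero_of_alg (KK f)
  apply nonSqK_of
  · apply nonsq0 Λ G (a := a₂) (q := 1) (by ring) (by simp) hb
    simp only [eval_sub, eval_X, eval_C]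
    exact sub_ne_zero.2 h2b.symm
  · intro r
    rw [hh₁, ← emb_mul]
    apply nonsq0 Λ G (a := a₂) (q := X - C a₁) rfl _ hb
    · simp only [eval_mul, eval_sub, eval_X, eval_C]
      exact mul_ne_zero (sub_ne_zero.2 h2b.symm) (sub_ne_zero.2 h1b.symm)
    · simp only [eval_sub, eval_X, eval_C]
      exact sub_ne_zero.2 h12.symm

include h1b h2b h3b h12 h13 h23 in
theorem ns₃ [NonSqK (hh₁ f a₁)] : ∀ r : DK (hh₂ f a₁ a₂), r ^ 2 ≠ hh₃ f a₁ a₂ a₃ := by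
  haveI := charZero_of_alg (KK f)
  haveI := charZero_of_alg (DK (hh₁ f a₁))
  apply nonSqK_of
  · apply ns₂ Λ G hb h13 h1b h3b
  · intro r
    have e : algebraMap (KK f) (DK (hh₁ f a₁)) (emb (X - C a₃)) * hh₂ f a₁ a₂ =
        algebraMap (KK f) (DK (hh₁ f a₁)) (emb ((X - C a₃) * (X - C a₂))) := by
      rw [emb_mul, map_mul]
    rw [e]
    revert r
    apply nonSqK_of
    · apply nonsq0 Λ G (a := a₃) (q := X - C a₂) rfl _ hb
      · simp only [eval_mul, eval_sub, eval_X, eval_C]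
        exact mul_ne_zero (sub_ne_zero.2 h3b.symm) (sub_ne_zero.2 h2b.symm)
      · simp only [eval_sub, eval_X, eval_C]
        exact sub_ne_zero.2 h23.symm
    · intro r
      rw [hh₁, ← emb_mul]
      apply nonsq0 Λ G (a := a₃) (q := (X - C a₂) * (X - C a₁)) (by ring) _ hb
      · simp only [eval_mul, eval_sub, eval_X, eval_C]
        exact mul_ne_zero (mul_ne_zero (sub_ne_zero.2 h3b.symm) (sub_ne_zero.2 h2b.symm))
          (sub_ne_zero.2 h1b.symm)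
      · simp only [eval_mul, eval_sub, eval_X, eval_C]
        exact mul_ne_zero (sub_ne_zero.2 h23.symm) (sub_ne_zero.2 h13.symm)

end nonsq

/-! ### Even orders -/

theorem even_emb (G : Good f) {a : ℂ} (ha : f.eval a = 0) (P : Pts f) :
    Even (ordAt Λ G.ne P (emb (X - C a))) := by
  rcases P with _ | P
  · rw [ordAt_emb_none G.ne (X_sub_C_ne_zero a)]
    exact Even.mul_right (by decide) _
  · by_cases h : P.1.1 = a
    · subst h
      rw [ordAt_X_sub_C_self]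
      have h1 : P.1.2 = 0 := by
        have h2 := P.2
        rw [ha] at h2
        exact pow_eq_zero_iff (two_ne_zero) |>.1 h2
      unfold ram
      rw [if_pos h1]
      exact even_two
    · rw [ordAt_emb_zero G.ne P]
      · exact Even.zero
      · simp only [eval_sub, eval_X, eval_C]
        exact sub_ne_zero.2 h

theorem dphi_alg {K : Type} [Field K] [Algebra ℂ K] {X : CurveP Λ K} {h : K} (x : DPt X h)
    (u : K) : dphi x (algebraMap K (DK h) u) = X.phi x.1.1 u := by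
  rw [dphi_apply]
  show X.phi x.1.1 u + X.phi x.1.1 0 * x.1.2 = _
  rw [map_zero]
  ring

section tower

variable [NonSq f] (G : Good f) {a₁ a₂ a₃ : ℂ} [NonSqK (hh₁ f a₁)] [NonSqK (hh₂ f a₁ a₂)]
  [NonSqK (hh₃ f a₁ a₂ a₃)]

theorem ev₁ (h1 : f.eval a₁ = 0) :
    ∀ P, Even (Λ.ord ((baseP Λ G).phi P (hh₁ f a₁))) := even_emb G h1

theorem ev₂ (h1 : f.eval a₁ = 0) (h2 : f.eval a₂ = 0) :
    ∀ P, Even (Λ.ord (((baseP Λ G).dbl (hh₁ f a₁) (ev₁ G h1)).phi P (hh₂ f a₁ a₂))) := by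
  intro P
  show Even (Λ.ord (dphi P (hh₂ f a₁ a₂)))
  rw [dphi_alg]
  exact even_emb G h2 _

theorem ev₃ (h1 : f.eval a₁ = 0) (h2 : f.eval a₂ = 0) (h3 : f.eval a₃ = 0) :
    ∀ P, Even (Λ.ord ((((baseP Λ G).dbl (hh₁ f a₁) (ev₁ G h1)).dbl (hh₂ f a₁ a₂)
      (ev₂ G h1 h2)).phi P (hh₃ f a₁ a₂ a₃))) := by
  intro P
  show Even (Λ.ord (dphi P (hh₃ f a₁ a₂ a₃)))
  rw [dphi_alg]
  show Even (Λ.ord (dphi P.1.1 _))
  rw [dphi_alg]
  exact even_emb G h3 _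

variable (h1 : f.eval a₁ = 0) (h2 : f.eval a₂ = 0) (h3 : f.eval a₃ = 0)

/-- first cover -/
@[reducible] def X₁ (Λ : LF F) : CurveP Λ (DK (hh₁ f a₁)) := (baseP Λ G).dbl (hh₁ f a₁) (ev₁ G h1)

/-- second cover -/
@[reducible] def X₂ (Λ : LF F) : CurveP Λ (DK (hh₂ f a₁ a₂)) :=
  (X₁ G h1 Λ).dbl (hh₂ f a₁ a₂) (ev₂ G h1 h2)

/-- third cover -/
@[reducible] def X₃ (Λ : LF F) : CurveP Λ (DK (hh₃ f a₁ a₂ a₃)) :=
  (X₂ G h1 h2 Λ).dbl (hh₃ f a₁ a₂ a₃) (ev₃ G h1 h2 h3)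

theorem X₃_rrl {g : ℕ} (hg : f.natDegree = 2 * g + 1) :
    (X₃ G h1 h2 h3 Λ).RRL (8 * g - 7) := by
  have e0 := baseP_rrl Λ G hg
  have e1 := e0.dbl (ev₁ G h1) none
  have e2 := e1.dbl (ev₂ G h1 h2) (lft (ev₁ G h1) none)
  have e3 := e2.dbl (ev₃ G h1 h2 h3) (lft (ev₂ G h1 h2) (lft (ev₁ G h1) none))
  have e : (2 * (2 * (2 * (g : ℤ) - 1) - 1) - 1) = 8 * g - 7 := by ring
  rw [e] at e3
  exact e3

/-! ### The group -/

/-- third involution -/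
def dk₃ : Deck (X₃ G h1 h2 h3 Λ) := deckConj (ev₃ G h1 h2 h3)

/-- second involution -/
def dk₂ : Deck (X₃ G h1 h2 h3 Λ) :=
  (deckConj (ev₂ G h1 h2)).lift (conjHom_alg _ _) (ev₃ G h1 h2 h3)

/-- first involution -/
def dk₁ : Deck (X₃ G h1 h2 h3 Λ) :=
  ((deckConj (ev₁ G h1)).lift (conjHom_alg _ _) (ev₂ G h1 h2)).lift (by
    show liftHom (conjEquiv (hh₁ f a₁)) (conjHom_alg _ _) (hh₃ f a₁ a₂ a₃) = hh₃ f a₁ a₂ a₃
    rw [liftHom_alg]
    congr 1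
    exact conjHom_alg _ _) (ev₃ G h1 h2 h3)

theorem comm₂₃ : (dk₂ (Λ := Λ) G h1 h2 h3).Comm (dk₃ G h1 h2 h3) := Deck.lift_comm_conj _ _

theorem comm₁₃ : (dk₁ (Λ := Λ) G h1 h2 h3).Comm (dk₃ G h1 h2 h3) := Deck.lift_comm_conj _ _

theorem comm₁₂ : (dk₁ (Λ := Λ) G h1 h2 h3).Comm (dk₂ G h1 h2 h3) :=
  Deck.Comm.lift (Deck.lift_comm_conj _ _) _ _

end tower

end

end Pool.Agent.YTD.Hyp
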