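import Pool.Agent.YTD.Semi

/-!
One-sided hypotheses on the total dimension.
-/

namespace Pool.Agent.YTD

open Finset Module Filter

variable {K : Type} [Field K] [Algebra ℂ K]
variable {T : Datum K} {q : ℕ} {D₀ : T.X.Pt →₀ ℤ}

namespace Graded

/-- One-sided version of the expansion of the total dimension: the functional `Phi` is bounded by
`s₀ N⁵ + O(N³)` and the total dimension is at least `s₀ N⁵ + s₁ N⁴ - O(N³)`. -/
def Crit (G : Graded T q D₀) (s₀ s₁ : ℝ) : Prop :=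
  (∃ C : ℝ, ∀ N ≥ 4, ∑ j ∈ Icc (-((5 * q * N : ℕ) : ℤ)) ((5 * q * N : ℕ) : ℤ),
    Wt q N j * G.ub N j ≤ s₀ * N ^ 5 + C * N ^ 3) ∧
  (∃ C : ℝ, ∀ᶠ N : ℕ in atTop, s₀ * N ^ 5 + s₁ * N ^ 4 - C * N ^ 3 ≤ G.tot N)

variable {G : Graded T q D₀}
variable (hD : T.X.deg D₀ = 105 * T.t * q)

include hD in
theorem base_Phi (P₀ : T.X.Pt) (hq : 0 < q) {N : ℕ} (hN : 4 ≤ N) :
    (G.base hD P₀ hq hN).Phi =
      ∑ j ∈ Icc (-((5 * q * N : ℕ) : ℤ)) ((5 * q * N : ℕ) : ℤ), Wt q N j * G.ub N j := by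
  unfold Sys.Phi
  rw [sum_range_eq_Icc (5 * q * N) (fun j => Wt q N j * (G.base hD P₀ hq hN).ub j)]
  rfl

include hD in
theorem TotExp.crit (P₀ : T.X.Pt) (hq : 0 < q) {s₀ s₁ : ℝ} (hS : G.TotExp s₀ s₁) :
    G.Crit s₀ s₁ := by
  refine ⟨⟨600000 * T.t * (q : ℝ) ^ 2 * G.Λ, fun N hN => ?_⟩, ?_⟩
  · rw [← base_Phi hD P₀ hq hN]
    exact Phi_le_limit hD P₀ hq hS hN _
  obtain ⟨C, hC⟩ := hS
  refine ⟨C, ?_⟩
  filter_upwards [hC] with N hN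
  have := (abs_le.1 hN).1
  linarith

include hD in
/-- the main inequality. -/
theorem star_crit (P₀ : T.X.Pt) (hq : 0 < q) {s₀ s₁ : ℝ} (hS : G.Crit s₀ s₁) :
    ∃ C : ℝ, ∀ᶠ N : ℕ in atTop, s₁ * N ^ 4 ≤ T.t * Lam q N (G.nb N) -
      50 * (q * N) * ∑ j ∈ Icc (-((5 * q * N : ℕ) : ℤ)) ((5 * q * N : ℕ) : ℤ), G.yb N j +
      (18 * T.t + 1) * G.Z N + C * N ^ 3 := by
  obtain ⟨⟨C₀, hC₀⟩, C₁, hC₁⟩ := hS
  refine ⟨C₁ + C₀ + 11 * q * (G.Λ * (105 * T.t * q)), ?_⟩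
  filter_upwards [hC₁, eventually_ge_atTop 4] with N h2 hN
  have h3 := hC₀ N hN
  have h4 := tot_le (G := G) hD P₀ hq hN
  have h6 : ∑ j ∈ Icc (-((5 * q * N : ℕ) : ℤ)) ((5 * q * N : ℕ) : ℤ),
      (mult q N j * (G.ub N j - 9 * T.t * G.nb N j) - Wt q N j * G.ub N j) ≤
      ∑ j ∈ Icc (-((5 * q * N : ℕ) : ℤ)) ((5 * q * N : ℕ) : ℤ),
      (T.t * ((81 * (j : ℝ) ^ 2 - 375 * ((q : ℝ) * N) ^ 2 -
      5000 * ((q : ℝ) * N) * max 0 (|(j : ℝ)| - 4 * (q * N))) * G.nb N j) -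
      50 * (q * N) * G.yb N j + G.Λ * N * (105 * T.t * q * N) +
      ((if j = ((5 * q * N : ℕ) : ℤ) then 1000 * T.t * ((q : ℝ) * N) ^ 3 * G.nb N j else 0) +
       (if j = -((5 * q * N : ℕ) : ℤ) then 1000 * T.t * ((q : ℝ) * N) ^ 3 * G.nb N j else 0))) :=
    sum_le_sum fun j hj => pointwise hD hq hN (mem_Icc_iff.1 hj)
  have hmem1 : ((5 * q * N : ℕ) : ℤ) ∈ Icc (-((5 * q * N : ℕ) : ℤ)) ((5 * q * N : ℕ) : ℤ) := by
    rw [mem_Icc]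
    constructor
    · have : (0 : ℤ) ≤ ((5 * q * N : ℕ) : ℤ) := by positivity
      linarith
    · exact le_rfl
  have hmem2 : -((5 * q * N : ℕ) : ℤ) ∈ Icc (-((5 * q * N : ℕ) : ℤ)) ((5 * q * N : ℕ) : ℤ) := by
    rw [mem_Icc]
    constructor
    · exact le_rfl
    · have : (0 : ℤ) ≤ ((5 * q * N : ℕ) : ℤ) := by positivity
      linarith
  rw [sum_add_distrib, sum_add_distrib, sum_add_distrib, sum_sub_distrib, sum_ite_eq' , sum_ite_eq',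
    if_pos hmem1, if_pos hmem2, sum_sub_distrib, ← mul_sum, ← mul_sum, sum_const,
    Int.card_Icc, nsmul_eq_mul] at h6
  have h7 : (((((5 * q * N : ℕ) : ℤ) + 1 - -((5 * q * N : ℕ) : ℤ)).toNat : ℕ) : ℝ) =
      10 * (q * N) + 1 := by
    have : (((5 * q * N : ℕ) : ℤ) + 1 - -((5 * q * N : ℕ) : ℤ)).toNat = 10 * (q * N) + 1 := by
      have e : ((5 * q * N : ℕ) : ℤ) = 5 * ((q * N : ℕ) : ℤ) := by push_cast; ring
      rw [e]
      omega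
    rw [this]
    push_cast
    ring
  rw [h7] at h6
  have hQ1 : (1 : ℝ) ≤ q * N := by
    have h1 : 1 ≤ q * N := Nat.mul_pos hq (by omega)
    exact_mod_cast h1
  have h8 : (10 * ((q : ℝ) * N) + 1) * (G.Λ * N * (105 * T.t * q * N)) ≤
      11 * q * (G.Λ * (105 * T.t * q)) * N ^ 3 := by
    have h9 : (0 : ℝ) ≤ G.Λ * N * (105 * T.t * q * N) := by positivity
    have h10 : (10 * ((q : ℝ) * N) + 1) ≤ 11 * (q * N) := by linarith
    calc (10 * ((q : ℝ) * N) + 1) * (G.Λ * N * (105 * T.t * q * N)) ≤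
        (11 * (q * N)) * (G.Λ * N * (105 * T.t * q * N)) := mul_le_mul_of_nonneg_right h10 h9
      _ = _ := by ring
  unfold Lam
  have h11 : (T.t : ℝ) * (∑ j ∈ Icc (-((5 * q * N : ℕ) : ℤ)) ((5 * q * N : ℕ) : ℤ),
    (81 * (j : ℝ) ^ 2 - 375 * ((q : ℝ) * N) ^ 2 -
      5000 * ((q : ℝ) * N) * max 0 (|(j : ℝ)| - 4 * (q * N))) * G.nb N j +
    1000 * ((q : ℝ) * N) ^ 3 * (G.nb N ((5 * q * N : ℕ) : ℤ) + G.nb N (-((5 * q * N : ℕ) : ℤ)))) =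
    T.t * (∑ j ∈ Icc (-((5 * q * N : ℕ) : ℤ)) ((5 * q * N : ℕ) : ℤ),
    (81 * (j : ℝ) ^ 2 - 375 * ((q : ℝ) * N) ^ 2 -
      5000 * ((q : ℝ) * N) * max 0 (|(j : ℝ)| - 4 * (q * N))) * G.nb N j) +
    (1000 * T.t * ((q : ℝ) * N) ^ 3 * G.nb N ((5 * q * N : ℕ) : ℤ) +
      1000 * T.t * ((q : ℝ) * N) ^ 3 * G.nb N (-((5 * q * N : ℕ) : ℤ))) := by ring
  rw [h11]
  linarith

/-- the main inequality along powers of two. -/
theorem main_ineq_crit (P₀ : T.X.Pt) (hq : 0 < q) {s₀ s₁ : ℝ} (hS : G.Crit s₀ s₁) :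
    ∃ err : ℕ → ℝ, Tendsto err atTop (nhds 0) ∧ ∀ᶠ k : ℕ in atTop,
      3072 * s₁ * 16 ^ k + T.t * (G.fam hD hq).gap k + 2400 * q * 2 ^ k * G.ysum k ≤
        err k * 16 ^ k := by
  obtain ⟨C, hC⟩ := star_crit hD P₀ hq hS
  have hZ := Z_tendsto (G := G) hD P₀ hq
  have hpow : Tendsto (fun k : ℕ => 2 ^ (k + 2)) atTop atTop :=
    (tendsto_pow_atTop_atTop_of_one_lt (by norm_num : 1 < 2)).comp (tendsto_add_atTop_nat 2)
  refine ⟨fun k => T.t * (320000 * q * G.Λ * (1 / 4) ^ k +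
    1032000 * (q : ℝ) ^ 2 * (G.fam hD hq).def_ k) +
    3072 * (18 * T.t + 1) * (G.Z (2 ^ (k + 2)) / 16 ^ (k + 2)) + 768 * C * (1 / 2) ^ k, ?_, ?_⟩
  · have t1 : Tendsto (fun k : ℕ => 320000 * (q : ℝ) * G.Λ * (1 / 4 : ℝ) ^ k) atTop
      (nhds (320000 * (q : ℝ) * G.Λ * 0)) :=
      (tendsto_pow_atTop_nhds_zero_of_lt_one (by norm_num) (by norm_num)).const_mul _
    have t2 : Tendsto (fun k : ℕ => 1032000 * (q : ℝ) ^ 2 * (G.fam hD hq).def_ k) atTop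
      (nhds (1032000 * (q : ℝ) ^ 2 * 0)) := (G.fam hD hq).def_tendsto.const_mul _
    have t3 : Tendsto (fun k : ℕ => 3072 * (18 * (T.t : ℝ) + 1) *
      (G.Z (2 ^ (k + 2)) / 16 ^ (k + 2))) atTop (nhds (3072 * (18 * (T.t : ℝ) + 1) * 0)) :=
      ((tendsto_add_atTop_iff_nat 2).2 hZ).const_mul _
    have t4 : Tendsto (fun k : ℕ => 768 * C * (1 / 2 : ℝ) ^ k) atTop (nhds (768 * C * 0)) :=
      (tendsto_pow_atTop_nhds_zero_of_lt_one (by norm_num) (by norm_num)).const_mul _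
    have := (((t1.add t2).const_mul (T.t : ℝ)).add t3).add t4
    simp only [mul_zero, add_zero] at this
    exact this
  · filter_upwards [hpow.eventually hC] with k hk
    have h1 := (G.fam hD hq).lam_le hq k
    rw [fam_ν, fam_C] at h1
    have e1 : ((2 ^ (k + 2) : ℕ) : ℝ) = 4 * 2 ^ k := by push_cast; rw [pow_add]; ring
    rw [e1] at hk
    have e16 : (16 : ℝ) ^ (k + 2) = 256 * 16 ^ k := by rw [pow_add]; ring
    have p16 : (0 : ℝ) < 16 ^ k := by positivity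
    have e2 : (4 * (2 : ℝ) ^ k) ^ 4 = 256 * 16 ^ k := by
      rw [mul_pow, ← pow_mul, mul_comm k 4, pow_mul]; norm_num
    have e3 : (4 * (2 : ℝ) ^ k) ^ 3 = 64 * ((1 / 2) ^ k * 16 ^ k) := by
      rw [← mul_pow, mul_pow, ← pow_mul, mul_comm k 3, pow_mul]
      norm_num
    have e4 : (4 : ℝ) ^ k = (1 / 4) ^ k * 16 ^ k := by rw [← mul_pow]; norm_num
    rw [e2, e3] at hk
    rw [e4] at h1
    have e5 : (G.Z (2 ^ (k + 2)) / 16 ^ (k + 2)) * (256 * 16 ^ k) = G.Z (2 ^ (k + 2)) := by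
      rw [e16]
      field_simp
    have ht : (0 : ℝ) ≤ T.t := by positivity
    have h2 := mul_le_mul_of_nonneg_left h1 ht
    have h3 : G.ysum k = ∑ j ∈ Icc (-((5 * q * 2 ^ (k + 2) : ℕ) : ℤ))
      ((5 * q * 2 ^ (k + 2) : ℕ) : ℤ), G.yb (2 ^ (k + 2)) j := rfl
    rw [← h3] at hk
    have e6 : (T.t * (320000 * q * G.Λ * (1 / 4) ^ k +
      1032000 * (q : ℝ) ^ 2 * (G.fam hD hq).def_ k) +
      3072 * (18 * T.t + 1) * (G.Z (2 ^ (k + 2)) / 16 ^ (k + 2)) + 768 * C * (1 / 2) ^ k) * 16 ^ k =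
      T.t * (320000 * q * G.Λ * ((1 / 4) ^ k * 16 ^ k) +
      1032000 * (q : ℝ) ^ 2 * (G.fam hD hq).def_ k * 16 ^ k) +
      12 * (18 * T.t + 1) * ((G.Z (2 ^ (k + 2)) / 16 ^ (k + 2)) * (256 * 16 ^ k)) +
      768 * C * ((1 / 2) ^ k * 16 ^ k) := by ring
    rw [e6, e5]
    nlinarith

/-- the Futaki invariant is non-negative. -/
theorem Crit.s1_nonpos (P₀ : T.X.Pt) (hD : T.X.deg D₀ = 105 * T.t * q) (hq : 0 < q) {s₀ s₁ : ℝ}
    (hS : G.Crit s₀ s₁) : s₁ ≤ 0 := by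
  obtain ⟨err, h1, h2⟩ := main_ineq_crit (G := G) hD P₀ hq hS
  have h3 : ∀ᶠ k : ℕ in atTop, 3072 * s₁ ≤ err k := by
    filter_upwards [h2] with k hk
    have p16 : (0 : ℝ) < 16 ^ k := by positivity
    have g1 := (G.fam hD hq).gap_nonneg k
    have g2 := G.ysum_nonneg hD hq k
    have g3 : (0 : ℝ) ≤ T.t * (G.fam hD hq).gap k := by positivity
    have g4 : (0 : ℝ) ≤ 2400 * q * 2 ^ k * G.ysum k := by positivity
    have h4 : (3072 * s₁) * 16 ^ k ≤ err k * 16 ^ k := by linarith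
    exact le_of_mul_le_mul_right h4 p16
  have := ge_of_tendsto h1 h3
  linarith

end Graded

end Pool.Agent.YTD
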