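import Mathlib

/-!
Function fields of smooth projective curves over the complex numbers, presented by their
points and orders of vanishing, with Riemann-Roch in the non-special range.
-/

namespace Pool.Agent.YTD

/-- The function field `K` of a smooth projective curve over `ℂ`, presented by the set `Pt` of
points of the curve and the order of vanishing `ord P f` of a non-zero rational function `f`
at a point `P` (the value `ord P 0` is irrelevant). -/
structure CurveOrd (K : Type) [Field K] [Algebra ℂ K] where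
  Pt : Type
  ord : Pt → K → ℤ
  ord_mul : ∀ (P : Pt) (f g : K), f ≠ 0 → g ≠ 0 → ord P (f * g) = ord P f + ord P g
  ord_add : ∀ (P : Pt) (f g : K), f ≠ 0 → g ≠ 0 → f + g ≠ 0 →
    min (ord P f) (ord P g) ≤ ord P (f + g)
  ord_const : ∀ (P : Pt) (c : ℂ), c ≠ 0 → ord P (algebraMap ℂ K c) = 0
  finite_ord : ∀ f : K, f ≠ 0 → {P : Pt | ord P f ≠ 0}.Finite
  sum_ord : ∀ f : K, f ≠ 0 → ∑ᶠ P, ord P f = 0

namespace CurveOrd

variable {K : Type} [Field K] [Algebra ℂ K] (X : CurveOrd K)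

/-- The degree of a divisor. -/
def deg (D : X.Pt →₀ ℤ) : ℤ := D.sum fun _ n => n

/-- The Riemann-Roch space `L(D) = {f : f = 0 or div f + D ≥ 0}`. -/
def L (D : X.Pt →₀ ℤ) : Submodule ℂ K where
  carrier := {f | f ≠ 0 → ∀ P, 0 ≤ X.ord P f + D P}
  zero_mem' := fun h => (h rfl).elim
  add_mem' := by
    intro f g hf hg h P
    by_cases hf0 : f = 0
    · subst hf0
      rw [zero_add] at h ⊢
      exact hg h P
    by_cases hg0 : g = 0
    · subst hg0
      rw [add_zero] at h ⊢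
      exact hf h P
    have h1 := X.ord_add P f g hf0 hg0 h
    have h2 := hf hf0 P
    have h3 := hg hg0 P
    rcases min_choice (X.ord P f) (X.ord P g) with h4 | h4 <;> rw [h4] at h1 <;> linarith
  smul_mem' := by
    intro c f hf h P
    have hc : c ≠ 0 := by
      rintro rfl
      exact h (zero_smul ℂ f)
    have hf0 : f ≠ 0 := by
      rintro rfl
      exact h (smul_zero c)
    rw [Algebra.smul_def, X.ord_mul P _ _ ((map_ne_zero _).2 hc) hf0, X.ord_const P c hc, zero_add]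
    exact hf hf0 P

end CurveOrd

/-- The function field `K` of a smooth projective curve of genus `genus` over `ℂ`:
the data of `CurveOrd`, together with the Riemann-Roch formula
`dim L(D) = deg D + 1 - genus` for `deg D > 2 genus - 2`. -/
structure Curve (K : Type) [Field K] [Algebra ℂ K] extends CurveOrd K where
  genus : ℕ
  riemann_roch : ∀ D : Pt →₀ ℤ, 2 * (genus : ℤ) - 2 < toCurveOrd.deg D →
    (Module.finrank ℂ (toCurveOrd.L D) : ℤ) = toCurveOrd.deg D + 1 - genus

namespace CurveOrd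

variable {K : Type} [Field K] [Algebra ℂ K] (X : CurveOrd K)

theorem mem_L {D : X.Pt →₀ ℤ} {f : K} : f ∈ X.L D ↔ (f ≠ 0 → ∀ P, 0 ≤ X.ord P f + D P) :=
  Iff.rfl

theorem deg_add (D E : X.Pt →₀ ℤ) : X.deg (D + E) = X.deg D + X.deg E := by
  unfold deg
  exact Finsupp.sum_add_index' (fun _ => rfl) (fun _ _ _ => rfl)

theorem deg_neg (D : X.Pt →₀ ℤ) : X.deg (-D) = - X.deg D := by
  have := X.deg_add D (-D)
  rw [add_neg_cancel] at this
  have h0 : X.deg 0 = 0 := by simp [deg]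
  rw [h0] at this
  linarith

@[simp] theorem deg_zero : X.deg 0 = 0 := by simp [deg]

theorem deg_sub (D E : X.Pt →₀ ℤ) : X.deg (D - E) = X.deg D - X.deg E := by
  rw [sub_eq_add_neg, deg_add, deg_neg, sub_eq_add_neg]

theorem deg_nsmul (n : ℕ) (D : X.Pt →₀ ℤ) : X.deg (n • D) = n * X.deg D := by
  induction n with
  | zero => simp
  | succ n ih => rw [succ_nsmul, deg_add, ih]; push_cast; ring

theorem deg_single (P : X.Pt) (n : ℤ) : X.deg (Finsupp.single P n) = n := by
  simp [deg]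

theorem deg_sum {ι : Type*} (s : Finset ι) (D : ι → X.Pt →₀ ℤ) :
    X.deg (∑ i ∈ s, D i) = ∑ i ∈ s, X.deg (D i) := by
  classical
  induction s using Finset.induction_on with
  | empty => simp
  | insert a s ha ih => rw [Finset.sum_insert ha, Finset.sum_insert ha, deg_add, ih]

theorem deg_nonneg {D : X.Pt →₀ ℤ} (h : ∀ P, 0 ≤ D P) : 0 ≤ X.deg D := by
  unfold deg
  exact Finset.sum_nonneg fun P _ => h P

theorem deg_mono {D E : X.Pt →₀ ℤ} (h : ∀ P, D P ≤ E P) : X.deg D ≤ X.deg E := by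
  have := X.deg_nonneg (D := E - D) (fun P => by simp [h P])
  rw [deg_sub] at this
  linarith

/-- The divisor of a rational function (zero for the zero function). -/
noncomputable def dv (f : K) : X.Pt →₀ ℤ :=
  open Classical in
  if h : f = 0 then 0 else Finsupp.ofSupportFinite (fun P => X.ord P f) (X.finite_ord f h)

theorem dv_apply {f : K} (hf : f ≠ 0) (P : X.Pt) : X.dv f P = X.ord P f := by
  unfold dv
  rw [dif_neg hf]
  rfl

theorem deg_dv {f : K} (hf : f ≠ 0) : X.deg (X.dv f) = 0 := by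
  rw [← X.sum_ord f hf]
  have h : (fun P => X.ord P f) = fun P => X.dv f P := by
    funext P
    rw [dv_apply X hf]
  rw [h]
  unfold deg
  rw [Finsupp.sum]
  symm
  exact finsum_eq_sum_of_support_subset _ (by
    intro P hP
    simpa using hP)

theorem ord_one (P : X.Pt) : X.ord P 1 = 0 := by
  have := X.ord_const P 1 one_ne_zero
  rwa [map_one] at this

theorem ord_inv (P : X.Pt) {f : K} (hf : f ≠ 0) : X.ord P f⁻¹ = - X.ord P f := by
  have := X.ord_mul P f f⁻¹ hf (inv_ne_zero hf)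
  rw [mul_inv_cancel₀ hf, ord_one] at this
  linarith

theorem L_mono {D E : X.Pt →₀ ℤ} (h : ∀ P, D P ≤ E P) : X.L D ≤ X.L E := by
  intro f hf h0 P
  have := hf h0 P
  have := h P
  linarith

theorem L_eq_bot {D : X.Pt →₀ ℤ} (h : X.deg D < 0) : X.L D = ⊥ := by
  rw [eq_bot_iff]
  intro f hf
  by_contra h0
  have h0' : f ≠ 0 := h0
  have h1 : 0 ≤ X.deg (X.dv f + D) := by
    apply X.deg_nonneg
    intro P
    rw [Finsupp.add_apply, X.dv_apply h0']
    exact hf h0' P
  rw [deg_add, X.deg_dv h0'] at h1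
  linarith

theorem mul_mem_L {D E : X.Pt →₀ ℤ} {f g : K} (hf : f ∈ X.L D) (hg : g ∈ X.L E) :
    f * g ∈ X.L (D + E) := by
  intro h P
  have hf0 : f ≠ 0 := left_ne_zero_of_mul h
  have hg0 : g ≠ 0 := right_ne_zero_of_mul h
  rw [X.ord_mul P f g hf0 hg0, Finsupp.add_apply]
  have := hf hf0 P
  have := hg hg0 P
  linarith

/-- Multiplication by a non-zero function identifies `L(D)` with `L(D - div f)`. -/
theorem mul_mem_L_iff {D : X.Pt →₀ ℤ} {f g : K} (hf : f ≠ 0) :
    f * g ∈ X.L D ↔ g ∈ X.L (D + X.dv f) := by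
  constructor
  · intro h hg P
    rw [Finsupp.add_apply, X.dv_apply hf]
    have := h (mul_ne_zero hf hg) P
    rw [X.ord_mul P f g hf hg] at this
    linarith
  · intro h hfg P
    have hg : g ≠ 0 := right_ne_zero_of_mul hfg
    rw [X.ord_mul P f g hf hg]
    have := h hg P
    rw [Finsupp.add_apply, X.dv_apply hf] at this
    linarith

/-- least order of vanishing at `P` of a non-zero element of `W`. -/
noncomputable def bord (W : Submodule ℂ K) (P : X.Pt) : ℤ :=
  sInf {n : ℤ | ∃ f ∈ W, f ≠ 0 ∧ X.ord P f = n}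

section bord

variable {X}
variable {W : Submodule ℂ K} {E : X.Pt →₀ ℤ}

theorem bord_bdd (hW : W ≤ X.L E) (P : X.Pt) :
    BddBelow {n : ℤ | ∃ f ∈ W, f ≠ 0 ∧ X.ord P f = n} := by
  refine ⟨- E P, ?_⟩
  rintro n ⟨f, hf, hf0, rfl⟩
  have := hW hf hf0 P
  linarith

theorem bord_le (hW : W ≤ X.L E) (P : X.Pt) {f : K} (hf : f ∈ W) (hf0 : f ≠ 0) :
    X.bord W P ≤ X.ord P f :=
  csInf_le (bord_bdd hW P) ⟨f, hf, hf0, rfl⟩

theorem exists_bord (hW : W ≤ X.L E) (hne : W ≠ ⊥) (P : X.Pt) :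
    ∃ f ∈ W, f ≠ 0 ∧ X.ord P f = X.bord W P := by
  obtain ⟨f, hf, hf0⟩ := Submodule.exists_mem_ne_zero_of_ne_bot hne
  have hS : {n : ℤ | ∃ f ∈ W, f ≠ 0 ∧ X.ord P f = n}.Nonempty := ⟨_, f, hf, hf0, rfl⟩
  exact Int.csInf_mem hS (bord_bdd hW P)

theorem neg_le_bord (hW : W ≤ X.L E) (hne : W ≠ ⊥) (P : X.Pt) : - E P ≤ X.bord W P := by
  obtain ⟨f, hf, hf0, h⟩ := exists_bord hW hne P
  rw [← h]
  have := hW hf hf0 P
  linarith

theorem bord_finite (hW : W ≤ X.L E) (hne : W ≠ ⊥) :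
    (Function.support fun P => - X.bord W P).Finite := by
  obtain ⟨f, hf, hf0⟩ := Submodule.exists_mem_ne_zero_of_ne_bot hne
  apply ((X.finite_ord f hf0).union E.support.finite_toSet).subset
  intro P hP
  by_contra h
  simp only [Set.mem_union, Set.mem_ofPred_eq, Finset.mem_coe, Finsupp.mem_support_iff,
    not_or, not_not] at h
  have h1 := bord_le hW P hf hf0
  have h2 := neg_le_bord hW hne P
  rw [h.1] at h1
  rw [h.2] at h2
  apply hP
  show - X.bord W P = 0
  linarith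

end bord

/-- The mobile divisor of a linear system `W`. -/
noncomputable def mdiv (W : Submodule ℂ K) : X.Pt →₀ ℤ :=
  open Classical in
  if h : (Function.support fun P => - X.bord W P).Finite then
    Finsupp.ofSupportFinite (fun P => - X.bord W P) h else 0

/-- The mobile degree of a linear system `W`. -/
noncomputable def mdeg (W : Submodule ℂ K) : ℤ := X.deg (X.mdiv W)

section mdiv

variable {X}
variable {W W' : Submodule ℂ K} {E : X.Pt →₀ ℤ}

theorem mdiv_apply (hW : W ≤ X.L E) (hne : W ≠ ⊥) (P : X.Pt) : X.mdiv W P = - X.bord W P := by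
  unfold mdiv
  rw [dif_pos (bord_finite hW hne)]
  rfl

theorem le_L_mdiv (hW : W ≤ X.L E) (hne : W ≠ ⊥) : W ≤ X.L (X.mdiv W) := by
  intro f hf h0 P
  rw [mdiv_apply hW hne]
  have := bord_le hW P hf h0
  linarith

theorem mdiv_le (hW : W ≤ X.L E) (hne : W ≠ ⊥) (P : X.Pt) : X.mdiv W P ≤ E P := by
  rw [mdiv_apply hW hne]
  have := neg_le_bord hW hne P
  linarith

theorem mdeg_le (hW : W ≤ X.L E) (hne : W ≠ ⊥) : X.mdeg W ≤ X.deg E :=
  X.deg_mono (mdiv_le hW hne)

theorem mdeg_nonneg (hW : W ≤ X.L E) (hne : W ≠ ⊥) : 0 ≤ X.mdeg W := by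
  obtain ⟨f, hf, hf0⟩ := Submodule.exists_mem_ne_zero_of_ne_bot hne
  have h : X.deg (- X.dv f) ≤ X.deg (X.mdiv W) := by
    apply X.deg_mono
    intro P
    rw [mdiv_apply hW hne, Finsupp.neg_apply, X.dv_apply hf0]
    have := bord_le hW P hf hf0
    linarith
  rw [deg_neg, X.deg_dv hf0, neg_zero] at h
  exact h

theorem mdiv_mono (hW' : W' ≤ X.L E) (hWW' : W ≤ W') (hne : W ≠ ⊥) (P : X.Pt) :
    X.mdiv W P ≤ X.mdiv W' P := by
  have hne' : W' ≠ ⊥ := fun h => hne (by rw [eq_bot_iff]; rw [h] at hWW'; exact hWW')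
  rw [mdiv_apply (hWW'.trans hW') hne, mdiv_apply hW' hne']
  obtain ⟨f, hf, hf0, h⟩ := exists_bord (hWW'.trans hW') hne P
  have := bord_le hW' P (hWW' hf) hf0
  linarith

theorem mdeg_mono (hW' : W' ≤ X.L E) (hWW' : W ≤ W') (hne : W ≠ ⊥) : X.mdeg W ≤ X.mdeg W' :=
  X.deg_mono (mdiv_mono hW' hWW' hne)

/-- Superadditivity of the mobile degree. -/
theorem mdeg_mul {W₁ W₂ W₃ : Submodule ℂ K} {E₁ E₂ E₃ : X.Pt →₀ ℤ}
    (h₁ : W₁ ≤ X.L E₁) (h₂ : W₂ ≤ X.L E₂) (h₃ : W₃ ≤ X.L E₃) (hne₁ : W₁ ≠ ⊥) (hne₂ : W₂ ≠ ⊥)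
    (hmul : ∀ f ∈ W₁, ∀ g ∈ W₂, f * g ∈ W₃) :
    X.mdeg W₁ + X.mdeg W₂ ≤ X.mdeg W₃ := by
  have hne₃ : W₃ ≠ ⊥ := by
    obtain ⟨f, hf, hf0⟩ := Submodule.exists_mem_ne_zero_of_ne_bot hne₁
    obtain ⟨g, hg, hg0⟩ := Submodule.exists_mem_ne_zero_of_ne_bot hne₂
    intro h
    have := hmul f hf g hg
    rw [h, Submodule.mem_bot] at this
    exact mul_ne_zero hf0 hg0 this
  unfold mdeg
  rw [← deg_add]
  apply X.deg_mono
  intro P
  rw [Finsupp.add_apply, mdiv_apply h₁ hne₁, mdiv_apply h₂ hne₂, mdiv_apply h₃ hne₃]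
  obtain ⟨f, hf, hf0, hf1⟩ := exists_bord h₁ hne₁ P
  obtain ⟨g, hg, hg0, hg1⟩ := exists_bord h₂ hne₂ P
  have := bord_le h₃ P (hmul f hf g hg) (mul_ne_zero hf0 hg0)
  rw [X.ord_mul P f g hf0 hg0] at this
  linarith

/-- Existence of a pencil with the same base divisor. -/
theorem exists_pencil (hW : W ≤ X.L E) (hne : W ≠ ⊥) :
    ∃ s₀ ∈ W, ∃ s₁ ∈ W, s₀ ≠ 0 ∧ s₁ ≠ 0 ∧
      ∀ P, min (X.ord P s₀) (X.ord P s₁) = X.bord W P := by
  classical
  obtain ⟨s₀, hs₀, hs₀0⟩ := Submodule.exists_mem_ne_zero_of_ne_bot hne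
  -- the points where `s₀` vanishes more than necessary
  have hfin : {P | X.ord P s₀ ≠ X.bord W P}.Finite := by
    apply ((X.finite_ord s₀ hs₀0).union (bord_finite hW hne)).subset
    intro P hP
    by_contra h
    simp only [Set.mem_union, Set.mem_ofPred_eq, Function.mem_support, not_or, not_not] at h
    apply hP
    rw [h.1]
    have := h.2
    linarith
  -- proper subspaces
  let B : X.Pt → Submodule ℂ W := fun P =>
    Submodule.comap W.subtype (X.L (Finsupp.single P (-(X.bord W P + 1)) +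
      (X.mdiv W - Finsupp.single P (X.mdiv W P))))
  have hB : ∀ P, ∀ f : W, (f : K) ≠ 0 → (f ∈ B P ↔ X.bord W P + 1 ≤ X.ord P f) := by
    intro P f hf
    constructor
    · intro h
      have := h hf P
      simp only [Finsupp.coe_add, Finsupp.coe_sub, Pi.add_apply, Pi.sub_apply,
        Finsupp.single_eq_same, Submodule.coe_subtype] at this
      linarith
    · intro h h0 Q
      by_cases hQ : Q = P
      · subst hQ
        simp only [Finsupp.coe_add, Finsupp.coe_sub, Pi.add_apply, Pi.sub_apply,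
          Finsupp.single_eq_same, Submodule.coe_subtype]
        linarith
      · simp only [Finsupp.coe_add, Finsupp.coe_sub, Pi.add_apply, Pi.sub_apply,
          Submodule.coe_subtype]
        rw [Finsupp.single_eq_of_ne hQ, Finsupp.single_eq_of_ne hQ, mdiv_apply hW hne]
        have := bord_le hW Q f.2 hf
        linarith
  have hBtop : ∀ P, B P ≠ ⊤ := by
    intro P h
    obtain ⟨f, hf, hf0, hf1⟩ := exists_bord hW hne P
    have h1 : (⟨f, hf⟩ : W) ∈ B P := by rw [h]; trivial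
    have := (hB P ⟨f, hf⟩ hf0).1 h1
    simp only at this
    linarith
  have hcov := Subspace.biUnion_ne_univ_of_top_notMem (k := ℂ) (E := W)
    (s := insert ⊥ (hfin.toFinset.image B)) (by
      intro h
      rw [Finset.mem_insert] at h
      rcases h with h | h
      · obtain ⟨f, hf, hf0⟩ := Submodule.exists_mem_ne_zero_of_ne_bot hne
        have h1 : (⟨f, hf⟩ : W) ∈ (⊥ : Submodule ℂ W) := by rw [← h]; trivial
        rw [Submodule.mem_bot] at h1
        exact hf0 (congrArg Subtype.val h1)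
      · obtain ⟨P, _, hP⟩ := Finset.mem_image.1 h
        exact hBtop P hP)
  obtain ⟨s₁, hs₁⟩ := (Set.ne_univ_iff_exists_notMem _).1 hcov
  simp only [Set.mem_iUnion, SetLike.mem_coe, not_exists] at hs₁
  have hs₁0 : (s₁ : K) ≠ 0 := by
    intro h
    apply hs₁ ⊥ (Finset.mem_insert_self _ _)
    rw [Submodule.mem_bot]
    exact Subtype.ext h
  refine ⟨s₀, hs₀, s₁, s₁.2, hs₀0, hs₁0, ?_⟩
  intro P
  have h0 := bord_le hW P hs₀ hs₀0
  have h1 := bord_le hW P s₁.2 hs₁0
  by_cases hP : X.ord P s₀ = X.bord W P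
  · rw [hP, min_eq_left h1]
  · have h2 : s₁ ∉ B P := hs₁ (B P) (Finset.mem_insert_of_mem
      (Finset.mem_image_of_mem B (hfin.mem_toFinset.2 hP)))
    rw [hB P s₁ hs₁0, not_le] at h2
    rw [min_eq_right (by linarith)]
    linarith

end mdiv

end CurveOrd

end Pool.Agent.YTD
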