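import Pool.Agent.YTD.Curve

namespace Pool.Agent.YTD

open Module

namespace Curve

variable {K : Type} [Field K] [Algebra ℂ K] (X : Curve K)

theorem finite_L (P₀ : X.Pt) (D : X.Pt →₀ ℤ) : FiniteDimensional ℂ (X.L D) := by
  obtain ⟨n, hn⟩ : ∃ n : ℕ, 2 * (X.genus : ℤ) ≤ X.deg D + n :=
    ⟨(2 * (X.genus : ℤ) - X.deg D).toNat, by
      have := Int.self_le_toNat (2 * (X.genus : ℤ) - X.deg D)
      linarith⟩
  have hdeg : X.deg (D + Finsupp.single P₀ (n : ℤ)) = X.deg D + n := by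
    rw [X.deg_add, X.deg_single]
  have h1 := X.riemann_roch (D + Finsupp.single P₀ (n : ℤ)) (by rw [hdeg]; linarith)
  have h2 : 0 < finrank ℂ (X.L (D + Finsupp.single P₀ (n : ℤ))) := by
    rw [hdeg] at h1
    have : (0 : ℤ) < (finrank ℂ (X.L (D + Finsupp.single P₀ (n : ℤ))) : ℤ) := by
      rw [h1]; linarith [Int.natCast_nonneg X.genus]
    exact_mod_cast this
  have h3 : FiniteDimensional ℂ (X.L (D + Finsupp.single P₀ (n : ℤ))) :=
    Module.finite_of_finrank_pos h2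
  exact Submodule.finiteDimensional_of_le (X.L_mono (E := D + Finsupp.single P₀ (n : ℤ)) (by
    classical
    intro P
    rw [Finsupp.add_apply, Finsupp.single_apply]
    split_ifs <;> simp))

theorem finite_of_le (P₀ : X.Pt) {W : Submodule ℂ K} {E : X.Pt →₀ ℤ} (hW : W ≤ X.L E) :
    FiniteDimensional ℂ W :=
  have := X.finite_L P₀ E
  Submodule.finiteDimensional_of_le hW

theorem L_ne_bot {D : X.Pt →₀ ℤ} (h : 2 * (X.genus : ℤ) ≤ X.deg D) : X.L D ≠ ⊥ := by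
  intro h0
  have h1 := X.riemann_roch D (by linarith)
  rw [h0, finrank_bot] at h1
  have := Int.natCast_nonneg X.genus
  push_cast at h1
  linarith

/-- Base point freeness. -/
theorem exists_ord_eq (P₀ : X.Pt) {D : X.Pt →₀ ℤ} (h : 2 * (X.genus : ℤ) ≤ X.deg D) (P : X.Pt) :
    ∃ f ∈ X.L D, f ≠ 0 ∧ X.ord P f = - D P := by
  classical
  have := X.finite_L P₀ D
  have hle : X.L (D - Finsupp.single P 1) ≤ X.L D := X.L_mono (by
    intro Q
    rw [Finsupp.sub_apply, Finsupp.single_apply]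
    split_ifs <;> simp)
  have hne : ¬ (X.L D ≤ X.L (D - Finsupp.single P 1)) := by
    intro h1
    have h2 := le_antisymm h1 hle
    have h3 := X.riemann_roch D (by linarith)
    have h4 := X.riemann_roch (D - Finsupp.single P 1) (by
      rw [X.deg_sub, X.deg_single]; linarith)
    rw [X.deg_sub, X.deg_single, ← h2, h3] at h4
    linarith
  obtain ⟨f, hf, hf1⟩ := SetLike.not_le_iff_exists.1 hne
  have hf0 : f ≠ 0 := by
    rintro rfl
    exact hf1 (zero_mem _)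
  refine ⟨f, hf, hf0, ?_⟩
  rw [X.mem_L] at hf1
  push Not at hf1
  obtain ⟨_, Q, hQ⟩ := hf1
  have h2 := hf hf0 Q
  rw [Finsupp.sub_apply, Finsupp.single_apply] at hQ
  split_ifs at hQ with hPQ
  · subst hPQ
    linarith
  · linarith

theorem bord_L (P₀ : X.Pt) {D : X.Pt →₀ ℤ} (h : 2 * (X.genus : ℤ) ≤ X.deg D) (P : X.Pt) :
    X.bord (X.L D) P = - D P := by
  apply le_antisymm
  · obtain ⟨f, hf, hf0, hf1⟩ := X.exists_ord_eq P₀ h P
    rw [← hf1]
    exact CurveOrd.bord_le le_rfl P hf hf0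
  · exact CurveOrd.neg_le_bord le_rfl (X.L_ne_bot h) P

theorem mdiv_L (P₀ : X.Pt) {D : X.Pt →₀ ℤ} (h : 2 * (X.genus : ℤ) ≤ X.deg D) :
    X.mdiv (X.L D) = D := by
  ext P
  rw [CurveOrd.mdiv_apply le_rfl (X.L_ne_bot h), X.bord_L P₀ h]
  ring

theorem mdeg_L (P₀ : X.Pt) {D : X.Pt →₀ ℤ} (h : 2 * (X.genus : ℤ) ≤ X.deg D) :
    X.mdeg (X.L D) = X.deg D := by
  unfold CurveOrd.mdeg
  rw [X.mdiv_L P₀ h]

theorem finrank_le_mdeg (P₀ : X.Pt) {W : Submodule ℂ K} {E : X.Pt →₀ ℤ} (hW : W ≤ X.L E)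
    (hne : W ≠ ⊥) (h : 2 * (X.genus : ℤ) - 2 < X.mdeg W) :
    (finrank ℂ W : ℤ) ≤ X.mdeg W + 1 - X.genus := by
  have := X.finite_L P₀ (X.mdiv W)
  have h1 := X.riemann_roch (X.mdiv W) h
  have h2 := Submodule.finrank_mono (CurveOrd.le_L_mdiv hW hne)
  have h3 : ((finrank ℂ W : ℕ) : ℤ) ≤ (finrank ℂ (X.L (X.mdiv W)) : ℤ) := by exact_mod_cast h2
  rw [h1] at h3
  exact h3

theorem finrank_le_genus (P₀ : X.Pt) {W : Submodule ℂ K} {E : X.Pt →₀ ℤ} (hW : W ≤ X.L E)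
    (hne : W ≠ ⊥) (h : X.mdeg W ≤ 2 * (X.genus : ℤ) - 2) :
    (finrank ℂ W : ℤ) ≤ X.genus := by
  classical
  set k : ℤ := 2 * (X.genus : ℤ) - 1 - X.mdeg W with hk
  have hk0 : 0 ≤ k := by linarith
  have := X.finite_L P₀ (X.mdiv W + Finsupp.single P₀ k)
  have hdeg : X.deg (X.mdiv W + Finsupp.single P₀ k) = 2 * (X.genus : ℤ) - 1 := by
    rw [X.deg_add, X.deg_single]
    show X.mdeg W + k = _
    rw [hk]; ring
  have h1 := X.riemann_roch (X.mdiv W + Finsupp.single P₀ k) (by rw [hdeg]; linarith)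
  have h2 := Submodule.finrank_mono ((CurveOrd.le_L_mdiv hW hne).trans
    (X.L_mono (E := X.mdiv W + Finsupp.single P₀ k) (by
      intro P
      rw [Finsupp.add_apply, Finsupp.single_apply]
      split_ifs <;> simp [hk0])))
  have h3 : ((finrank ℂ W : ℕ) : ℤ) ≤ (finrank ℂ (X.L (X.mdiv W + Finsupp.single P₀ k)) : ℤ) := by
    exact_mod_cast h2
  rw [h1, hdeg] at h3
  linarith

/-- The base point free pencil trick. -/
theorem pencil (P₀ : X.Pt) {W : Submodule ℂ K} {E D : X.Pt →₀ ℤ} (hW : W ≤ X.L E)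
    (hne : W ≠ ⊥) (hD : X.mdeg W + 2 * (X.genus : ℤ) - 1 ≤ X.deg D) :
    X.L (D + X.mdiv W) ≤ W * X.L D := by
  obtain ⟨s₀, hs₀, s₁, hs₁, hs₀0, hs₁0, hmin⟩ := CurveOrd.exists_pencil hW hne
  have hM := CurveOrd.mdeg_nonneg hW hne
  have := X.finite_L P₀ D
  have := X.finite_L P₀ (D + X.mdiv W)
  have := X.finite_L P₀ (D - X.dv s₀ - X.dv s₁ - X.mdiv W)
  let m₀ : K →ₗ[ℂ] K := LinearMap.mulLeft ℂ s₀
  let m₁ : K →ₗ[ℂ] K := LinearMap.mulLeft ℂ s₁
  set A := (X.L D).map m₀ with hA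
  set B := (X.L D).map m₁ with hB
  have hinj₀ : Function.Injective m₀ := fun a b h => mul_left_cancel₀ hs₀0 h
  have hinj₁ : Function.Injective m₁ := fun a b h => mul_left_cancel₀ hs₁0 h
  have hA1 : finrank ℂ A = finrank ℂ (X.L D) :=
    (LinearEquiv.finrank_eq (Submodule.equivMapOfInjective m₀ hinj₀ (X.L D))).symm
  have hB1 : finrank ℂ B = finrank ℂ (X.L D) :=
    (LinearEquiv.finrank_eq (Submodule.equivMapOfInjective m₁ hinj₁ (X.L D))).symm
  have hAW : A ≤ W * X.L D := by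
    rintro _ ⟨a, ha, rfl⟩
    exact Submodule.mul_mem_mul hs₀ ha
  have hBW : B ≤ W * X.L D := by
    rintro _ ⟨a, ha, rfl⟩
    exact Submodule.mul_mem_mul hs₁ ha
  have hord : ∀ s ∈ W, s ≠ 0 → ∀ a ∈ X.L D, s * a ∈ X.L (D + X.mdiv W) := by
    intro s hs _ a ha
    rw [add_comm]
    exact X.mul_mem_L (CurveOrd.le_L_mdiv hW hne hs) ha
  have hAL : A ≤ X.L (D + X.mdiv W) := by
    rintro _ ⟨a, ha, rfl⟩
    exact hord s₀ hs₀ hs₀0 a ha
  have hBL : B ≤ X.L (D + X.mdiv W) := by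
    rintro _ ⟨a, ha, rfl⟩
    exact hord s₁ hs₁ hs₁0 a ha
  have hAB : A ⊓ B ≤ X.L (D - X.dv s₀ - X.dv s₁ - X.mdiv W) := by
    rintro h ⟨⟨a, ha, rfl⟩, ⟨b, hb, hab⟩⟩ h0 P
    have h0' : s₀ * a ≠ 0 := h0
    have hab' : s₁ * b = s₀ * a := hab
    have ha0 : a ≠ 0 := right_ne_zero_of_mul h0'
    have hb0 : b ≠ 0 := by
      rw [← hab'] at h0'
      exact right_ne_zero_of_mul h0'
    have e1 := X.ord_mul P s₀ a hs₀0 ha0
    have e2 := X.ord_mul P s₁ b hs₁0 hb0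
    rw [hab'] at e2
    have e3 := ha ha0 P
    have e4 := hb hb0 P
    have e5 := hmin P
    show 0 ≤ X.ord P (s₀ * a) + (D - X.dv s₀ - X.dv s₁ - X.mdiv W) P
    rw [Finsupp.sub_apply, Finsupp.sub_apply, Finsupp.sub_apply, X.dv_apply hs₀0,
      X.dv_apply hs₁0, CurveOrd.mdiv_apply hW hne]
    rcases min_choice (X.ord P s₀) (X.ord P s₁) with e6 | e6 <;> rw [e6] at e5 <;> linarith
  have hdeg2 : X.deg (D - X.dv s₀ - X.dv s₁ - X.mdiv W) = X.deg D - X.mdeg W := by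
    rw [X.deg_sub, X.deg_sub, X.deg_sub, X.deg_dv hs₀0, X.deg_dv hs₁0]
    show X.deg D - 0 - 0 - X.mdeg W = _
    ring
  have hdeg3 : X.deg (D + X.mdiv W) = X.deg D + X.mdeg W := by
    rw [X.deg_add]; rfl
  have r1 := X.riemann_roch D (by linarith)
  have r2 := X.riemann_roch _ (show 2 * (X.genus : ℤ) - 2 <
    X.deg (D - X.dv s₀ - X.dv s₁ - X.mdiv W) by rw [hdeg2]; linarith)
  have r3 := X.riemann_roch _ (show 2 * (X.genus : ℤ) - 2 <
    X.deg (D + X.mdiv W) by rw [hdeg3]; linarith)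
  rw [hdeg2] at r2
  rw [hdeg3] at r3
  have r4 := Submodule.finrank_mono hAB
  have : FiniteDimensional ℂ A := Submodule.finiteDimensional_of_le hAL
  have : FiniteDimensional ℂ B := Submodule.finiteDimensional_of_le hBL
  have r5 := Submodule.finrank_sup_add_finrank_inf_eq A B
  have r6 : finrank ℂ (X.L (D + X.mdiv W)) ≤ finrank ℂ (A ⊔ B : Submodule ℂ K) := by
    rw [hA1, hB1] at r5
    have r7 : (finrank ℂ (A ⊔ B : Submodule ℂ K) : ℤ) + finrank ℂ (A ⊓ B : Submodule ℂ K) =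
      finrank ℂ (X.L D) + finrank ℂ (X.L D) := by exact_mod_cast r5
    have r8 : (finrank ℂ (A ⊓ B : Submodule ℂ K) : ℤ) ≤
      finrank ℂ (X.L (D - X.dv s₀ - X.dv s₁ - X.mdiv W)) := by exact_mod_cast r4
    have : (finrank ℂ (X.L (D + X.mdiv W)) : ℤ) ≤ finrank ℂ (A ⊔ B : Submodule ℂ K) := by
      rw [r3]
      rw [r2] at r8
      rw [r1] at r7
      linarith
    exact_mod_cast this
  have r9 := Submodule.eq_of_le_of_finrank_le (sup_le hAL hBL) r6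
  rw [← r9]
  exact sup_le hAW hBW

end Curve

end Pool.Agent.YTD
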