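import Pool.Agent.YTD.CurveRR

/-!
The polarized fourfolds `(X, L)` of the construction, presented by their section rings, and
their test configurations, presented by finitely generated filtrations.

Geometry.  Let `C` be a curve of genus `9 t + 1`, `S, S'` disjoint sets of `100 t` points of `C`,
`Y = P(O + O(3,-3)) → P¹ × P¹`, with its two disjoint sections `D_∞, D_0`, and let `X` be the
blow-up of `C × Y` along the surfaces `{y} × D_∞` (`y ∈ S`) and `{y} × D_0` (`y ∈ S'`).  It is a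
smooth projective fourfold of Picard number `4 + 200 t`.  For `q ≥ 1` and a divisor `D₀` on `C`
of degree `> 100 t q`, let `L` be the ample line bundle on `X` which is the pull-back of
`D₀ ⊠ M_q` twisted by `- q ·` (sum of the exceptional divisors), where `M_q` is the line bundle
on `Y` with `H⁰(Y, M_q^N) = ⊕_{|j| ≤ 5qN} Sym^{25qN+3j} ⊗ Sym^{25qN-3j}`.  Then
`H⁰(X, L^N)` is the space `sec N` below, a space of polynomials in the homogeneous coordinates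
`x₀, x₁ ; y₀, y₁` of `P¹ × P¹` with coefficients in the function field of `C`.
-/

namespace Pool.Agent.YTD

open MvPolynomial Module

/-- The data `(C, S, S')`. -/
structure Datum (K : Type) [Field K] [Algebra ℂ K] where
  X : Curve K
  t : ℕ
  t_pos : 0 < t
  genus_eq : X.genus = 9 * t + 1
  S : Finset X.Pt
  S' : Finset X.Pt
  card_S : S.card = 100 * t
  card_S' : S'.card = 100 * t
  disj : Disjoint S S'

namespace Datum

variable {K : Type} [Field K] [Algebra ℂ K] (T : Datum K)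

/-- The divisor `N D₀ - ∑_{y ∈ S} (j - 4qN)⁺ y - ∑_{y ∈ S'} (-j - 4qN)⁺ y` on `C`. -/
noncomputable def dvs (q : ℕ) (D₀ : T.X.Pt →₀ ℤ) (N : ℕ) (j : ℤ) : T.X.Pt →₀ ℤ :=
  N • D₀ - ∑ y ∈ T.S, Finsupp.single y (max 0 (j - 4 * q * N))
    - ∑ y ∈ T.S', Finsupp.single y (max 0 (-j - 4 * q * N))

/-- `V N j`, the Riemann-Roch space of `dvs N j`. -/
noncomputable def V (q : ℕ) (D₀ : T.X.Pt →₀ ℤ) (N : ℕ) (j : ℤ) : Submodule ℂ K :=
  T.X.L (T.dvs q D₀ N j)

/-- `sec N = H⁰(X, L^N)`: polynomials in `x₀, x₁` (variables `0, 1`) and `y₀, y₁`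
(variables `2, 3`) all of whose monomials have degree `25qN+3j` in `x`, degree `25qN-3j` in `y`
for some `j` with `|j| ≤ 5qN`, and coefficient in `V N j`. -/
noncomputable def sec (q : ℕ) (D₀ : T.X.Pt →₀ ℤ) (N : ℕ) : Submodule ℂ (MvPolynomial (Fin 4) K)
    where
  carrier := {f | ∀ e, f.coeff e ≠ 0 → ∃ j : ℤ, |j| ≤ 5 * q * N ∧
    (e 0 : ℤ) + e 1 = 25 * q * N + 3 * j ∧ (e 2 : ℤ) + e 3 = 25 * q * N - 3 * j ∧
    f.coeff e ∈ T.V q D₀ N j}
  zero_mem' := by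
    intro e h
    simp at h
  add_mem' := by
    intro f g hf hg e h
    by_cases h1 : f.coeff e = 0
    · rw [coeff_add, h1, zero_add] at h ⊢
      exact hg e h
    by_cases h2 : g.coeff e = 0
    · rw [coeff_add, h2, add_zero] at h ⊢
      exact hf e h
    obtain ⟨j, h3, h4, h5, h6⟩ := hf e h1
    obtain ⟨j', _, h4', _, h6'⟩ := hg e h2
    have hj : j' = j := by linarith
    subst hj
    exact ⟨j', h3, h4, h5, by rw [coeff_add]; exact add_mem h6 h6'⟩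
  smul_mem' := by
    intro c f hf e h
    have h1 : f.coeff e ≠ 0 := by
      intro h1
      apply h
      rw [coeff_smul, h1, smul_zero]
    obtain ⟨j, h3, h4, h5, h6⟩ := hf e h1
    exact ⟨j, h3, h4, h5, by rw [coeff_smul]; exact Submodule.smul_mem _ _ h6⟩

end Datum

variable {K : Type} [Field K] [Algebra ℂ K]

/-- The linear substitution of the variables `x₀, x₁` by the matrix `g` and of `y₀, y₁` by the
matrix `h`. -/
noncomputable def subst (g h : Matrix (Fin 2) (Fin 2) ℂ) :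
    MvPolynomial (Fin 4) K →ₐ[K] MvPolynomial (Fin 4) K :=
  aeval ![g 0 0 • X 0 + g 0 1 • X 1, g 1 0 • X 0 + g 1 1 • X 1,
    h 0 0 • X 2 + h 0 1 • X 3, h 1 0 • X 2 + h 1 1 • X 3]

/-- A linearly bounded multiplicative decreasing filtration of the graded ring
`⊕_N sec (r N) = ⊕_N H⁰(X, L^{rN})`. -/
structure Filt (T : Datum K) (q : ℕ) (D₀ : T.X.Pt →₀ ℤ) (r : ℕ) where
  F : ℕ → ℤ → Submodule ℂ (MvPolynomial (Fin 4) K)
  le : ∀ N l, F N l ≤ T.sec q D₀ (r * N)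
  anti : ∀ N l l', l ≤ l' → F N l' ≤ F N l
  mul : ∀ N N' l l', ∀ f ∈ F N l, ∀ g ∈ F N' l', f * g ∈ F (N + N') (l + l')
  bound : ∃ Λ : ℕ, ∀ N : ℕ, F N (-(Λ * N)) = T.sec q D₀ (r * N) ∧ F N (Λ * N + 1) = ⊥

/-- The filtration is stable under the group `GL₂ × GL₂` acting by linear substitutions. -/
def Filt.Equivariant {T : Datum K} {q : ℕ} {D₀ : T.X.Pt →₀ ℤ} {r : ℕ} (χ : Filt T q D₀ r) : Prop :=
  ∀ g h : Matrix (Fin 2) (Fin 2) ℂ, IsUnit g → IsUnit h → ∀ N l, ∀ f ∈ χ.F N l,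
    subst g h f ∈ χ.F N l

/-- A test configuration of exponent `r`: a filtration whose Rees algebra is finitely generated. -/
structure TestConf (T : Datum K) (q : ℕ) (D₀ : T.X.Pt →₀ ℤ) (r : ℕ) extends Filt T q D₀ r where
  fg : ∃ (k : ℕ) (n : Fin k → ℕ) (w : Fin k → ℤ) (f : Fin k → MvPolynomial (Fin 4) K),
    (∀ i, f i ∈ F (n i) (w i)) ∧
    ∀ N l, F N l ≤ Submodule.span ℂ {g | ∃ m : Fin k → ℕ,
      ∑ i, m i * n i = N ∧ l ≤ ∑ i, m i * w i ∧ g = ∏ i, f i ^ m i}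

namespace Filt

variable {T : Datum K} {q : ℕ} {D₀ : T.X.Pt →₀ ℤ} {r : ℕ} (χ : Filt T q D₀ r)

/-- `dim H⁰(X₀, L₀^N)`, the dimension of the degree `N` part of the associated graded ring. -/
noncomputable def dimN (_ : Filt T q D₀ r) (N : ℕ) : ℝ := finrank ℂ (T.sec q D₀ (r * N))

/-- dimension of the part of weight `l` of `H⁰(X₀, L₀^N)`. -/
noncomputable def wt (N : ℕ) (l : ℤ) : ℝ := finrank ℂ (χ.F N l) - finrank ℂ (χ.F N (l + 1))

/-- the trace of the `p`-th power of the generator of the `ℂ*`-action on `H⁰(X₀, L₀^N)`. -/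
noncomputable def tr (p N : ℕ) : ℝ := ∑ᶠ l : ℤ, (l : ℝ) ^ p * χ.wt N l

/-- `a₀, a₁, b₀, b₁, c₀` are the coefficients of the asymptotic expansions. -/
def Expansion (a₀ a₁ b₀ b₁ c₀ : ℝ) : Prop :=
  (∃ C : ℝ, ∀ᶠ N : ℕ in Filter.atTop, |χ.dimN N - (a₀ * N ^ 4 + a₁ * N ^ 3)| ≤ C * N ^ 2) ∧
  (∃ C : ℝ, ∀ᶠ N : ℕ in Filter.atTop, |χ.tr 1 N - (b₀ * N ^ 5 + b₁ * N ^ 4)| ≤ C * N ^ 3) ∧
  (∃ C : ℝ, ∀ᶠ N : ℕ in Filter.atTop, |χ.tr 2 N - c₀ * N ^ 6| ≤ C * N ^ 5)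

/-- `Fut` is the Futaki invariant of `χ`. -/
def HasFutaki (Fut : ℝ) : Prop :=
  ∃ a₀ a₁ b₀ b₁ c₀ : ℝ, χ.Expansion a₀ a₁ b₀ b₁ c₀ ∧ Fut = (a₁ * b₀ - a₀ * b₁) / a₀ ^ 2

end Filt

end Pool.Agent.YTD
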