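import Pool.Agent.YTD.Defs

/-!
Reduced and product test configurations.
-/

namespace Pool.Agent.YTD

open MvPolynomial Module

variable {K : Type} [Field K] [Algebra ℂ K]
variable {T : Datum K} {q : ℕ} {D₀ : T.X.Pt →₀ ℤ} {r : ℕ}

/-- The central fibre is reduced: the associated graded ring of the filtration has no nilpotent
homogeneous elements. -/
def Filt.Reduced (χ : Filt T q D₀ r) : Prop :=
  ∀ (N : ℕ) (l : ℤ), ∀ f ∈ χ.F N l, ∀ m : ℕ, 0 < m → f ^ m ∈ χ.F (m * N) (m * l + 1) →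
    f ∈ χ.F N (l + 1)

/-- The filtration of a product test configuration commuting with `GL₂ × GL₂`: the monomials
of degree `25qrN+3j` in `x₀, x₁` have weight `κ N + σ j`. -/
def Filt.IsProduct (χ : Filt T q D₀ r) : Prop :=
  ∃ κ σ : ℤ, ∀ (N : ℕ) (l : ℤ) (f : MvPolynomial (Fin 4) K), f ∈ χ.F N l ↔
    f ∈ T.sec q D₀ (r * N) ∧ ∀ (e : Fin 4 →₀ ℕ) (j : ℤ), f.coeff e ≠ 0 →
      (e 0 : ℤ) + e 1 = 25 * q * ((r * N : ℕ) : ℤ) + 3 * j → l ≤ κ * N + σ * j

end Pool.Agent.YTD
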