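import Pool.Agent.YTD.NumLam

/-!
Concave envelopes of superadditive families along powers of two.
-/

namespace Pool.Agent.YTD

open Finset Filter

/-- A superadditive family: `ν k` is defined on `|j| ≤ 5 Q 2^k`. -/
structure Fam (Q : ℕ) where
  ν : ℕ → ℤ → ℝ
  C : ℝ
  nonneg : ∀ k (j : ℤ), |j| ≤ 5 * Q * 2 ^ k → 0 ≤ ν k j
  le : ∀ k (j : ℤ), |j| ≤ 5 * Q * 2 ^ k → ν k j ≤ C * 2 ^ k
  add : ∀ k (j j' : ℤ), |j| ≤ 5 * Q * 2 ^ k → |j'| ≤ 5 * Q * 2 ^ k →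
    ν k j + ν k j' ≤ ν (k + 1) (j + j')

namespace Fam

variable {Q : ℕ} (F : Fam Q)

theorem rng_pow {k : ℕ} {j : ℤ} (h : |j| ≤ 5 * Q * 2 ^ k) (i : ℕ) :
    |2 ^ i * j| ≤ 5 * Q * 2 ^ (k + i) := by
  rw [abs_mul, abs_of_nonneg (by positivity : (0 : ℤ) ≤ 2 ^ i), pow_add]
  nlinarith [mul_le_mul_of_nonneg_left h (by positivity : (0 : ℤ) ≤ 2 ^ i)]

/-- approximations of the envelope. -/
noncomputable def ap (k : ℕ) (j : ℤ) (i : ℕ) : ℝ := F.ν (k + i) (2 ^ i * j) / 2 ^ i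

theorem ap_step {k : ℕ} {j : ℤ} (h : |j| ≤ 5 * Q * 2 ^ k) (i : ℕ) :
    F.ap k j i ≤ F.ap k j (i + 1) := by
  unfold ap
  rw [div_le_div_iff₀ (by positivity) (by positivity)]
  have := F.add (k + i) (2 ^ i * j) (2 ^ i * j) (rng_pow h i) (rng_pow h i)
  rw [show 2 ^ i * j + 2 ^ i * j = 2 ^ (i + 1) * j by rw [pow_succ]; ring] at this
  have h2 : (0 : ℝ) < 2 ^ i := by positivity
  rw [pow_succ]
  have e : F.ν (k + (i + 1)) (2 ^ (i + 1) * j) = F.ν (k + i + 1) (2 ^ (i + 1) * j) := rfl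
  rw [e]
  nlinarith

theorem ap_mono {k : ℕ} {j : ℤ} (h : |j| ≤ 5 * Q * 2 ^ k) : Monotone (F.ap k j) :=
  monotone_nat_of_le_succ fun i => F.ap_step h i

theorem ap_le {k : ℕ} {j : ℤ} (h : |j| ≤ 5 * Q * 2 ^ k) (i : ℕ) : F.ap k j i ≤ F.C * 2 ^ k := by
  unfold ap
  rw [div_le_iff₀ (by positivity)]
  have := F.le (k + i) (2 ^ i * j) (rng_pow h i)
  rw [pow_add] at this
  linarith

theorem ap_nonneg {k : ℕ} {j : ℤ} (h : |j| ≤ 5 * Q * 2 ^ k) (i : ℕ) : 0 ≤ F.ap k j i :=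
  div_nonneg (F.nonneg _ _ (rng_pow h i)) (by positivity)

theorem ap_bdd {k : ℕ} {j : ℤ} (h : |j| ≤ 5 * Q * 2 ^ k) : BddAbove (Set.range (F.ap k j)) :=
  ⟨F.C * 2 ^ k, by rintro _ ⟨i, rfl⟩; exact F.ap_le h i⟩

/-- the envelope. -/
noncomputable def ψ (k : ℕ) (j : ℤ) : ℝ := ⨆ i, F.ap k j i

theorem tendsto_ψ {k : ℕ} {j : ℤ} (h : |j| ≤ 5 * Q * 2 ^ k) :
    Tendsto (F.ap k j) atTop (nhds (F.ψ k j)) :=
  tendsto_atTop_ciSup (F.ap_mono h) (F.ap_bdd h)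

theorem ap_le_ψ {k : ℕ} {j : ℤ} (h : |j| ≤ 5 * Q * 2 ^ k) (i : ℕ) : F.ap k j i ≤ F.ψ k j :=
  le_ciSup (F.ap_bdd h) i

theorem ν_le_ψ {k : ℕ} {j : ℤ} (h : |j| ≤ 5 * Q * 2 ^ k) : F.ν k j ≤ F.ψ k j := by
  have := F.ap_le_ψ h 0
  unfold ap at this
  simpa using this

theorem ψ_le {k : ℕ} {j : ℤ} (h : |j| ≤ 5 * Q * 2 ^ k) : F.ψ k j ≤ F.C * 2 ^ k :=
  ciSup_le fun i => F.ap_le h i

theorem ψ_nonneg {k : ℕ} {j : ℤ} (h : |j| ≤ 5 * Q * 2 ^ k) : 0 ≤ F.ψ k j :=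
  (F.nonneg k j h).trans (F.ν_le_ψ h)

theorem ψ_concave {k : ℕ} {j₁ j₂ j : ℤ} (h₁ : |j₁| ≤ 5 * Q * 2 ^ k) (h₂ : |j₂| ≤ 5 * Q * 2 ^ k)
    (h : |j| ≤ 5 * Q * 2 ^ k) (hj : j₁ + j₂ = 2 * j) : F.ψ k j₁ + F.ψ k j₂ ≤ 2 * F.ψ k j := by
  have l1 := (F.tendsto_ψ h₁).add (F.tendsto_ψ h₂)
  have l2 := ((F.tendsto_ψ h).comp (tendsto_add_atTop_nat 1)).const_mul 2
  refine le_of_tendsto_of_tendsto' l1 l2 ?_
  intro i
  simp only [Function.comp]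
  unfold ap
  have h3 := F.add (k + i) (2 ^ i * j₁) (2 ^ i * j₂) (rng_pow h₁ i) (rng_pow h₂ i)
  rw [← mul_add, hj, show 2 ^ i * (2 * j) = 2 ^ (i + 1) * j by rw [pow_succ]; ring] at h3
  have e : F.ν (k + (i + 1)) (2 ^ (i + 1) * j) = F.ν (k + i + 1) (2 ^ (i + 1) * j) := rfl
  have e2 : 2 * (F.ν (k + i + 1) (2 ^ (i + 1) * j) / 2 ^ (i + 1)) =
      F.ν (k + i + 1) (2 ^ (i + 1) * j) / 2 ^ i := by
    rw [pow_succ (2 : ℝ) i]
    field_simp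
  rw [e, e2, ← add_div]
  exact div_le_div_of_nonneg_right h3 (by positivity)

theorem ψ_double {k : ℕ} {j : ℤ} (h : |j| ≤ 5 * Q * 2 ^ k) :
    F.ψ (k + 1) (2 * j) = 2 * F.ψ k j := by
  have h' : |2 * j| ≤ 5 * Q * 2 ^ (k + 1) := by
    have := rng_pow h 1
    rwa [pow_one] at this
  have l1 := F.tendsto_ψ h'
  have l2 := ((F.tendsto_ψ h).comp (tendsto_add_atTop_nat 1)).const_mul 2
  refine tendsto_nhds_unique l1 (l2.congr ?_)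
  intro i
  simp only [Function.comp]
  unfold ap
  rw [show 2 ^ i * (2 * j) = 2 ^ (i + 1) * j by rw [pow_succ]; ring,
    show k + 1 + i = k + (i + 1) by ring, pow_succ (2 : ℝ) i]
  field_simp

/-- cell sums -/
noncomputable def Tr (k i : ℕ) (j : ℤ) : ℝ :=
  ∑ c ∈ range (2 ^ i), (F.ν (k + i) (2 ^ i * j + c) + F.ν (k + i) (2 ^ i * j + c + 1)) / 2

theorem cell_rng {k i : ℕ} {j : ℤ} (h : |j| ≤ 5 * Q * 2 ^ k) (h' : |j + 1| ≤ 5 * Q * 2 ^ k)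
    {c : ℕ} (hc : c ≤ 2 ^ i) : |2 ^ i * j + c| ≤ 5 * Q * 2 ^ (k + i) := by
  have h1 := abs_le.1 (rng_pow h i)
  have h2 := abs_le.1 (rng_pow h' i)
  have hc' : (c : ℤ) ≤ 2 ^ i := by exact_mod_cast hc
  have hc0 : (0 : ℤ) ≤ c := by positivity
  rw [abs_le]
  constructor
  · linarith [h1.1]
  · have : 2 ^ i * (j + 1) = 2 ^ i * j + 2 ^ i := by ring
    rw [this] at h2
    linarith [h2.2]

theorem Tr_nonneg {k i : ℕ} {j : ℤ} (h : |j| ≤ 5 * Q * 2 ^ k) (h' : |j + 1| ≤ 5 * Q * 2 ^ k) :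
    0 ≤ F.Tr k i j := by
  unfold Tr
  apply sum_nonneg
  intro c hc
  have hc' := mem_range.1 hc
  have h1 := F.nonneg (k + i) (2 ^ i * j + c) (cell_rng h h' hc'.le)
  have h2 := F.nonneg (k + i) (2 ^ i * j + c + 1) (by
    have := cell_rng (i := i) h h' (show c + 1 ≤ 2 ^ i by omega)
    push_cast at this
    rwa [← add_assoc] at this)
  linarith

theorem Tr_step {k i : ℕ} {j : ℤ} (h : |j| ≤ 5 * Q * 2 ^ k) (h' : |j + 1| ≤ 5 * Q * 2 ^ k) :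
    2 ^ i * (F.ν (k + i) (2 ^ i * j) + F.ν (k + i) (2 ^ i * (j + 1))) + 2 * F.Tr k i j ≤
      F.Tr k (i + 1) j := by
  have hr : ∀ c : ℕ, c ≤ 2 ^ i → |2 ^ i * j + c| ≤ 5 * Q * 2 ^ (k + i) :=
    fun c hc => cell_rng h h' hc
  have e0 : F.Tr k (i + 1) j = ∑ c ∈ range (2 ^ i),
      (F.ν (k + i + 1) (2 ^ (i + 1) * j + c) + F.ν (k + i + 1) (2 ^ (i + 1) * j + c + 1)) / 2 +
      ∑ c ∈ range (2 ^ i), (F.ν (k + i + 1) (2 ^ (i + 1) * j + (2 ^ i + c : ℕ)) +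
        F.ν (k + i + 1) (2 ^ (i + 1) * j + (2 ^ i + c : ℕ) + 1)) / 2 := by
    unfold Tr
    rw [show 2 ^ (i + 1) = 2 ^ i + 2 ^ i by rw [pow_succ]; ring, sum_range_add]
    rfl
  rw [e0]
  have b1 : ∑ c ∈ range (2 ^ i), (F.ν (k + i) (2 ^ i * j) +
      (F.ν (k + i) (2 ^ i * j + c) + F.ν (k + i) (2 ^ i * j + c + 1)) / 2) ≤
      ∑ c ∈ range (2 ^ i),
      (F.ν (k + i + 1) (2 ^ (i + 1) * j + c) + F.ν (k + i + 1) (2 ^ (i + 1) * j + c + 1)) / 2 := by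
    apply sum_le_sum
    intro c hc
    have hc' := mem_range.1 hc
    have r0 := hr 0 (Nat.zero_le _)
    rw [Nat.cast_zero, add_zero] at r0
    have r2 := hr (c + 1) hc'
    push_cast at r2
    rw [← add_assoc] at r2
    have t1 := F.add (k + i) (2 ^ i * j) (2 ^ i * j + c) r0 (hr c hc'.le)
    have t2 := F.add (k + i) (2 ^ i * j) (2 ^ i * j + c + 1) r0 r2
    rw [show 2 ^ i * j + (2 ^ i * j + (c : ℤ)) = 2 ^ (i + 1) * j + c by rw [pow_succ]; ring] at t1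
    rw [show 2 ^ i * j + (2 ^ i * j + (c : ℤ) + 1) = 2 ^ (i + 1) * j + c + 1 by
      rw [pow_succ]; ring] at t2
    linarith
  have b2 : ∑ c ∈ range (2 ^ i), (F.ν (k + i) (2 ^ i * (j + 1)) +
      (F.ν (k + i) (2 ^ i * j + c) + F.ν (k + i) (2 ^ i * j + c + 1)) / 2) ≤
      ∑ c ∈ range (2 ^ i), (F.ν (k + i + 1) (2 ^ (i + 1) * j + (2 ^ i + c : ℕ)) +
        F.ν (k + i + 1) (2 ^ (i + 1) * j + (2 ^ i + c : ℕ) + 1)) / 2 := by
    apply sum_le_sum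
    intro c hc
    have hc' := mem_range.1 hc
    have r0 := rng_pow h' i
    have r2 := hr (c + 1) hc'
    push_cast at r2
    rw [← add_assoc] at r2
    have t1 := F.add (k + i) (2 ^ i * (j + 1)) (2 ^ i * j + c) r0 (hr c hc'.le)
    have t2 := F.add (k + i) (2 ^ i * (j + 1)) (2 ^ i * j + c + 1) r0 r2
    rw [show 2 ^ i * (j + 1) + (2 ^ i * j + (c : ℤ)) = 2 ^ (i + 1) * j + (2 ^ i + c : ℕ) by
      push_cast; rw [pow_succ]; ring] at t1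
    rw [show 2 ^ i * (j + 1) + (2 ^ i * j + (c : ℤ) + 1) = 2 ^ (i + 1) * j + (2 ^ i + c : ℕ) + 1 by
      push_cast; rw [pow_succ]; ring] at t2
    linarith
  refine le_trans (le_of_eq ?_) (add_le_add b1 b2)
  rw [sum_add_distrib, sum_add_distrib, sum_const, sum_const, card_range, nsmul_eq_mul,
    nsmul_eq_mul]
  unfold Tr
  push_cast
  ring

theorem ap_le_pow {k : ℕ} {j : ℤ} (h : |j| ≤ 5 * Q * 2 ^ k) (i m : ℕ) :
    2 ^ (i + m) * F.ap k j i ≤ F.ν (k + (i + m)) (2 ^ (i + m) * j) := by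
  have h1 := F.ap_mono h (show i ≤ i + m by omega)
  have e : F.ν (k + (i + m)) (2 ^ (i + m) * j) = 2 ^ (i + m) * F.ap k j (i + m) := by
    unfold ap
    field_simp
  rw [e]
  exact mul_le_mul_of_nonneg_left h1 (by positivity)

theorem Tr_ge {k : ℕ} {j : ℤ} (h : |j| ≤ 5 * Q * 2 ^ k) (h' : |j + 1| ≤ 5 * Q * 2 ^ k)
    (i m : ℕ) : (1 - (1 / 2) ^ m) * 4 ^ (i + m) * ((F.ap k j i + F.ap k (j + 1) i) / 2) ≤
      F.Tr k (i + m) j := by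
  induction m with
  | zero =>
    simp
    exact F.Tr_nonneg h h'
  | succ m ih =>
    have h1 := F.Tr_step (i := i + m) h h'
    have h2 := F.ap_le_pow h i m
    have h3 := F.ap_le_pow h' i m
    rw [← add_assoc]
    refine le_trans ?_ h1
    have p2 : (0 : ℝ) < 2 ^ (i + m) := by positivity
    have e4 : (4 : ℝ) ^ (i + m) = 2 ^ (i + m) * 2 ^ (i + m) := by rw [← mul_pow]; norm_num
    have e4' : (4 : ℝ) ^ (i + m + 1) = 4 * (2 ^ (i + m) * 2 ^ (i + m)) := by rw [pow_succ, e4]; ring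
    have h4 := mul_le_mul_of_nonneg_left h2 p2.le
    have h5 := mul_le_mul_of_nonneg_left h3 p2.le
    rw [e4] at ih
    rw [e4', pow_succ (1 / 2 : ℝ) m]
    nlinarith

/-- weights of cells -/
noncomputable def wc (Q : ℕ) (k : ℕ) (j : ℤ) : ℝ :=
  625 * ((Q : ℝ) * 2 ^ k) ^ 2 - 9 * max ((j : ℝ) ^ 2) (((j : ℝ) + 1) ^ 2)

theorem wc_ge {k : ℕ} {j : ℤ} (h : |j| ≤ 5 * Q * 2 ^ k) (h' : |j + 1| ≤ 5 * Q * 2 ^ k) :
    400 * ((Q : ℝ) * 2 ^ k) ^ 2 ≤ wc Q k j := by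
  unfold wc
  have h1 : |(j : ℝ)| ≤ 5 * (Q * 2 ^ k) := by
    have : |(j : ℝ)| ≤ 5 * Q * 2 ^ k := by exact_mod_cast h
    linarith
  have h2 : |(j : ℝ) + 1| ≤ 5 * (Q * 2 ^ k) := by
    have : |(j : ℝ) + 1| ≤ 5 * Q * 2 ^ k := by exact_mod_cast h'
    linarith
  have h3 : (j : ℝ) ^ 2 ≤ (5 * (Q * 2 ^ k)) ^ 2 := sq_le_sq' (by linarith [(abs_le.1 h1).1])
    (abs_le.1 h1).2
  have h4 : ((j : ℝ) + 1) ^ 2 ≤ (5 * (Q * 2 ^ k)) ^ 2 := sq_le_sq' (by linarith [(abs_le.1 h2).1])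
    (abs_le.1 h2).2
  have h5 := max_le h3 h4
  nlinarith

theorem wc_refine (k i : ℕ) (j : ℤ) {c : ℕ} (hc : c < 2 ^ i) :
    4 ^ i * wc Q k j ≤ wc Q (k + i) (2 ^ i * j + c) := by
  unfold wc
  have hc0 : (0 : ℝ) ≤ c := by positivity
  have hc1 : (c : ℝ) + 1 ≤ 2 ^ i := by exact_mod_cast hc
  have p : (0 : ℝ) < 2 ^ i := by positivity
  have key : ∀ y : ℝ, 0 ≤ y → y ≤ 2 ^ i →
      (2 ^ i * (j : ℝ) + y) ^ 2 ≤ 4 ^ i * max ((j : ℝ) ^ 2) (((j : ℝ) + 1) ^ 2) := by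
    intro y hy0 hy1
    have e4 : (4 : ℝ) ^ i = 2 ^ i * 2 ^ i := by rw [← mul_pow]; norm_num
    have hc1 : (2 ^ i * (j : ℝ) + y) ^ 2 ≤ (2 ^ i - y) * (2 ^ i * j ^ 2) + y * (2 ^ i * (j + 1) ^ 2) := by
      nlinarith [mul_nonneg hy0 (sub_nonneg.2 hy1)]
    have m1 := le_max_left ((j : ℝ) ^ 2) (((j : ℝ) + 1) ^ 2)
    have m2 := le_max_right ((j : ℝ) ^ 2) (((j : ℝ) + 1) ^ 2)
    rw [e4]
    have n1 := mul_le_mul_of_nonneg_left (mul_le_mul_of_nonneg_left m1 p.le)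
      (sub_nonneg.2 hy1)
    have n2 := mul_le_mul_of_nonneg_left (mul_le_mul_of_nonneg_left m2 p.le) hy0
    nlinarith
  have k1 := key c hc0 (by linarith)
  have k2 := key (c + 1) (by linarith) hc1
  have e4 : (4 : ℝ) ^ i = 2 ^ i * 2 ^ i := by rw [← mul_pow]; norm_num
  have e5 : 625 * ((Q : ℝ) * 2 ^ (k + i)) ^ 2 = 4 ^ i * (625 * (Q * 2 ^ k) ^ 2) := by
    rw [pow_add, e4]; ring
  push_cast
  rw [e5]
  have k3 : max ((2 ^ i * (j : ℝ) + c) ^ 2) ((2 ^ i * (j : ℝ) + c + 1) ^ 2) ≤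
      4 ^ i * max ((j : ℝ) ^ 2) (((j : ℝ) + 1) ^ 2) := by
    apply max_le k1
    rw [add_assoc]
    exact k2
  linarith

theorem sum_range_mul (n m : ℕ) (H : ℕ → ℝ) :
    ∑ u ∈ range (n * m), H u = ∑ v ∈ range m, ∑ c ∈ range n, H (n * v + c) := by
  induction m with
  | zero => simp
  | succ m ih => rw [mul_add, mul_one, sum_range_add, ih, sum_range_succ]

/-- weighted total -/
noncomputable def Lm (k : ℕ) : ℝ :=
  ∑ v ∈ range (2 * (5 * Q * 2 ^ k)), wc Q k ((v : ℤ) - (5 * Q * 2 ^ k : ℕ)) *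
    ((F.ν k ((v : ℤ) - (5 * Q * 2 ^ k : ℕ)) + F.ν k ((v : ℤ) - (5 * Q * 2 ^ k : ℕ) + 1)) / 2)

theorem cell_mem {k : ℕ} {v : ℕ} (hv : v ∈ range (2 * (5 * Q * 2 ^ k))) :
    |(v : ℤ) - (5 * Q * 2 ^ k : ℕ)| ≤ 5 * Q * 2 ^ k ∧
    |(v : ℤ) - (5 * Q * 2 ^ k : ℕ) + 1| ≤ 5 * Q * 2 ^ k := by
  have h := mem_range.1 hv
  have e : (5 * (Q : ℤ) * 2 ^ k) = ((5 * Q * 2 ^ k : ℕ) : ℤ) := by push_cast; ring
  rw [e]
  generalize 5 * Q * 2 ^ k = M at *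
  rw [abs_le, abs_le]
  constructor <;> constructor <;> omega

theorem Lm_refine (k i : ℕ) : 4 ^ i * ∑ v ∈ range (2 * (5 * Q * 2 ^ k)),
    wc Q k ((v : ℤ) - (5 * Q * 2 ^ k : ℕ)) * F.Tr k i ((v : ℤ) - (5 * Q * 2 ^ k : ℕ)) ≤
      F.Lm (k + i) := by
  unfold Lm
  have e : 2 * (5 * Q * 2 ^ (k + i)) = 2 ^ i * (2 * (5 * Q * 2 ^ k)) := by rw [pow_add]; ring
  rw [e, sum_range_mul (2 ^ i) (2 * (5 * Q * 2 ^ k)), mul_sum]
  apply sum_le_sum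
  intro v hv
  obtain ⟨h, h'⟩ := cell_mem hv
  set j : ℤ := (v : ℤ) - (5 * Q * 2 ^ k : ℕ) with hj
  rw [← mul_assoc]
  unfold Tr
  rw [mul_sum]
  apply sum_le_sum
  intro c hc
  have hc' := mem_range.1 hc
  have e2 : ((2 ^ i * v + c : ℕ) : ℤ) - (5 * Q * 2 ^ (k + i) : ℕ) = 2 ^ i * j + c := by
    rw [hj]
    push_cast
    rw [pow_add]
    ring
  rw [e2]
  apply mul_le_mul_of_nonneg_right (wc_refine k i j hc')
  have h1 := F.nonneg (k + i) (2 ^ i * j + c) (cell_rng h h' hc'.le)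
  have h2 := F.nonneg (k + i) (2 ^ i * j + c + 1) (by
    have := cell_rng (i := i) h h' (show c + 1 ≤ 2 ^ i by omega)
    push_cast at this
    rwa [← add_assoc] at this)
  linarith

theorem Lm_step (k : ℕ) : 16 * F.Lm k ≤ F.Lm (k + 1) := by
  refine le_trans ?_ (F.Lm_refine k 1)
  unfold Lm
  rw [mul_sum, mul_sum]
  apply sum_le_sum
  intro v hv
  obtain ⟨h, h'⟩ := cell_mem hv
  set j : ℤ := (v : ℤ) - (5 * Q * 2 ^ k : ℕ) with hj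
  have hw : 0 ≤ wc Q k j := le_trans (by positivity) (wc_ge h h')
  have h1 := F.Tr_step (i := 0) h h'
  have e : F.Tr k 0 j = (F.ν k j + F.ν k (j + 1)) / 2 := by
    unfold Tr
    simp
  rw [e] at h1
  simp only [pow_zero, one_mul, add_zero, zero_add] at h1
  have h2 := mul_le_mul_of_nonneg_left h1 hw
  rw [pow_one]
  nlinarith

theorem C_nonneg : 0 ≤ F.C := by
  have h : |(0 : ℤ)| ≤ 5 * Q * 2 ^ 0 := by rw [abs_zero]; positivity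
  have h1 := F.nonneg 0 0 h
  have h2 := F.le 0 0 h
  simp at h2
  linarith

theorem Lm_le (k : ℕ) : F.Lm k ≤ 6250 * (Q : ℝ) ^ 3 * F.C * 16 ^ k := by
  have hC := F.C_nonneg
  have h1 : F.Lm k ≤ ∑ _v ∈ range (2 * (5 * Q * 2 ^ k)),
      (625 * ((Q : ℝ) * 2 ^ k) ^ 2 * (F.C * 2 ^ k)) := by
    unfold Lm
    apply sum_le_sum
    intro v hv
    obtain ⟨h, h'⟩ := cell_mem hv
    set j : ℤ := (v : ℤ) - (5 * Q * 2 ^ k : ℕ) with hj
    have a1 := F.le k j h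
    have a2 := F.le k (j + 1) h'
    have b1 := F.nonneg k j h
    have b2 := F.nonneg k (j + 1) h'
    have hw : wc Q k j ≤ 625 * ((Q : ℝ) * 2 ^ k) ^ 2 := by
      unfold wc
      have := le_max_left ((j : ℝ) ^ 2) (((j : ℝ) + 1) ^ 2)
      nlinarith [sq_nonneg (j : ℝ)]
    apply mul_le_mul hw (by linarith) (by linarith) (by positivity)
  rw [sum_const, card_range, nsmul_eq_mul] at h1
  refine h1.trans (le_of_eq ?_)
  push_cast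
  rw [show (16 : ℝ) ^ k = (2 ^ k) ^ 4 by rw [← pow_mul, mul_comm, pow_mul]; norm_num]
  ring

/-- the total deficiency -/
noncomputable def def_ (k : ℕ) : ℝ := (⨆ i, F.Lm i / 16 ^ i) - F.Lm k / 16 ^ k

theorem Lm_mono : Monotone fun k => F.Lm k / 16 ^ k := by
  apply monotone_nat_of_le_succ
  intro k
  have := F.Lm_step k
  rw [div_le_div_iff₀ (by positivity) (by positivity), pow_succ]
  have h : (0 : ℝ) < 16 ^ k := by positivity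
  nlinarith

theorem Lm_bdd : BddAbove (Set.range fun k => F.Lm k / 16 ^ k) :=
  ⟨6250 * (Q : ℝ) ^ 3 * F.C, by
    rintro _ ⟨k, rfl⟩
    simp only
    rw [div_le_iff₀ (by positivity)]
    exact F.Lm_le k⟩

theorem def_tendsto : Tendsto F.def_ atTop (nhds 0) := by
  have := (tendsto_atTop_ciSup F.Lm_mono F.Lm_bdd).const_sub (⨆ i, F.Lm i / 16 ^ i)
  rw [sub_self] at this
  exact this

theorem def_nonneg (k : ℕ) : 0 ≤ F.def_ k := by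
  have := le_ciSup F.Lm_bdd k
  unfold def_
  linarith

theorem cell_bound (k : ℕ) : ∑ v ∈ range (2 * (5 * Q * 2 ^ k)),
    wc Q k ((v : ℤ) - (5 * Q * 2 ^ k : ℕ)) *
    ((F.ψ k ((v : ℤ) - (5 * Q * 2 ^ k : ℕ)) + F.ψ k ((v : ℤ) - (5 * Q * 2 ^ k : ℕ) + 1)) / 2) ≤
    (⨆ i, F.Lm i / 16 ^ i) * 16 ^ k := by
  set ℓ := ⨆ i, F.Lm i / 16 ^ i with hℓ
  -- first for approximations
  have h1 : ∀ i : ℕ, ∑ v ∈ range (2 * (5 * Q * 2 ^ k)),
    wc Q k ((v : ℤ) - (5 * Q * 2 ^ k : ℕ)) *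
    ((F.ap k ((v : ℤ) - (5 * Q * 2 ^ k : ℕ)) i + F.ap k ((v : ℤ) - (5 * Q * 2 ^ k : ℕ) + 1) i) / 2) ≤
    ℓ * 16 ^ k := by
    intro i
    set A := ∑ v ∈ range (2 * (5 * Q * 2 ^ k)),
      wc Q k ((v : ℤ) - (5 * Q * 2 ^ k : ℕ)) *
      ((F.ap k ((v : ℤ) - (5 * Q * 2 ^ k : ℕ)) i +
        F.ap k ((v : ℤ) - (5 * Q * 2 ^ k : ℕ) + 1) i) / 2) with hA
    have h2 : ∀ m : ℕ, (1 - (1 / 2) ^ m) * A ≤ ℓ * 16 ^ k := by
      intro m
      have h3 := F.Lm_refine k (i + m)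
      have h4 : F.Lm (k + (i + m)) ≤ ℓ * 16 ^ (k + (i + m)) := by
        have := le_ciSup F.Lm_bdd (k + (i + m))
        rwa [div_le_iff₀ (by positivity)] at this
      have h5 : (1 - (1 / 2) ^ m) * 4 ^ (i + m) * A ≤ ∑ v ∈ range (2 * (5 * Q * 2 ^ k)),
          wc Q k ((v : ℤ) - (5 * Q * 2 ^ k : ℕ)) *
            F.Tr k (i + m) ((v : ℤ) - (5 * Q * 2 ^ k : ℕ)) := by
        rw [hA, mul_sum]
        apply sum_le_sum
        intro v hv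
        obtain ⟨h, h'⟩ := cell_mem hv
        have hw : 0 ≤ wc Q k ((v : ℤ) - (5 * Q * 2 ^ k : ℕ)) :=
          le_trans (by positivity) (wc_ge h h')
        have := mul_le_mul_of_nonneg_left (F.Tr_ge h h' i m) hw
        linarith
      have p4 : (0 : ℝ) < 4 ^ (i + m) := by positivity
      have h6 := mul_le_mul_of_nonneg_left h5 p4.le
      have h7 : (4 : ℝ) ^ (i + m) * ((1 - (1 / 2) ^ m) * 4 ^ (i + m) * A) ≤
          ℓ * 16 ^ (k + (i + m)) := (h6.trans h3).trans h4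
      rw [pow_add (16 : ℝ) k, show (16 : ℝ) ^ (i + m) = 4 ^ (i + m) * 4 ^ (i + m) by
        rw [← mul_pow]; norm_num] at h7
      have p16 : (0 : ℝ) < 4 ^ (i + m) * 4 ^ (i + m) := by positivity
      have h8 : ((1 - (1 / 2) ^ m) * A) * ((4 : ℝ) ^ (i + m) * 4 ^ (i + m)) ≤
          (ℓ * 16 ^ k) * (4 ^ (i + m) * 4 ^ (i + m)) := by linarith
      exact le_of_mul_le_mul_right h8 p16
    have h9 : Tendsto (fun m : ℕ => (1 - (1 / 2 : ℝ) ^ m) * A) atTop (nhds ((1 - 0) * A)) :=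
      ((tendsto_pow_atTop_nhds_zero_of_lt_one (by norm_num) (by norm_num)).const_sub 1).mul_const A
    rw [sub_zero, one_mul] at h9
    exact le_of_tendsto' h9 h2
  refine le_of_tendsto' (x := atTop) (f := fun i : ℕ => ∑ v ∈ range (2 * (5 * Q * 2 ^ k)),
    wc Q k ((v : ℤ) - (5 * Q * 2 ^ k : ℕ)) *
    ((F.ap k ((v : ℤ) - (5 * Q * 2 ^ k : ℕ)) i +
      F.ap k ((v : ℤ) - (5 * Q * 2 ^ k : ℕ) + 1) i) / 2)) ?_ h1
  apply tendsto_finsetSum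
  intro v hv
  obtain ⟨h, h'⟩ := cell_mem hv
  exact ((((F.tendsto_ψ h).add (F.tendsto_ψ h')).div_const 2).const_mul _)

/-- the envelope is close to the family. -/
theorem sum_close (hQ : 0 < Q) (k : ℕ) : ∑ i ∈ range (2 * (5 * Q * 2 ^ k) + 1),
    (F.ψ k ((i : ℤ) - (5 * Q * 2 ^ k : ℕ)) - F.ν k ((i : ℤ) - (5 * Q * 2 ^ k : ℕ))) ≤
      F.def_ k * 4 ^ k := by
  have h1 := F.cell_bound k
  have h2 : F.Lm k / 16 ^ k * 16 ^ k = F.Lm k := by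
    have : (0 : ℝ) < 16 ^ k := by positivity
    field_simp
  set d : ℕ → ℝ := fun i => F.ψ k ((i : ℤ) - (5 * Q * 2 ^ k : ℕ)) -
    F.ν k ((i : ℤ) - (5 * Q * 2 ^ k : ℕ)) with hd
  have hd0 : ∀ i, i ≤ 2 * (5 * Q * 2 ^ k) → 0 ≤ d i := by
    intro i hi
    have hr : |(i : ℤ) - (5 * Q * 2 ^ k : ℕ)| ≤ 5 * Q * 2 ^ k := by
      have e : (5 * (Q : ℤ) * 2 ^ k) = ((5 * Q * 2 ^ k : ℕ) : ℤ) := by push_cast; ring
      rw [e]
      generalize 5 * Q * 2 ^ k = M at *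
      rw [abs_le]
      constructor <;> omega
    have := F.ν_le_ψ hr
    simp only [hd]
    linarith
  have h3 : 400 * ((Q : ℝ) * 2 ^ k) ^ 2 * ∑ v ∈ range (2 * (5 * Q * 2 ^ k)), (d v + d (v + 1)) / 2 ≤
      F.def_ k * 16 ^ k := by
    have h4 : 400 * ((Q : ℝ) * 2 ^ k) ^ 2 *
        ∑ v ∈ range (2 * (5 * Q * 2 ^ k)), (d v + d (v + 1)) / 2 ≤
        ∑ v ∈ range (2 * (5 * Q * 2 ^ k)), (wc Q k ((v : ℤ) - (5 * Q * 2 ^ k : ℕ)) *
        ((F.ψ k ((v : ℤ) - (5 * Q * 2 ^ k : ℕ)) + F.ψ k ((v : ℤ) - (5 * Q * 2 ^ k : ℕ) + 1)) / 2) -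
        wc Q k ((v : ℤ) - (5 * Q * 2 ^ k : ℕ)) *
        ((F.ν k ((v : ℤ) - (5 * Q * 2 ^ k : ℕ)) +
          F.ν k ((v : ℤ) - (5 * Q * 2 ^ k : ℕ) + 1)) / 2)) := by
      rw [mul_sum]
      apply sum_le_sum
      intro v hv
      obtain ⟨h, h'⟩ := cell_mem hv
      have hw := wc_ge h h'
      have hv' := mem_range.1 hv
      have e1 : d (v + 1) = F.ψ k ((v : ℤ) - (5 * Q * 2 ^ k : ℕ) + 1) -
          F.ν k ((v : ℤ) - (5 * Q * 2 ^ k : ℕ) + 1) := by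
        simp only [hd]
        rw [show ((v + 1 : ℕ) : ℤ) - (5 * Q * 2 ^ k : ℕ) = (v : ℤ) - (5 * Q * 2 ^ k : ℕ) + 1 by
          push_cast; ring]
      have h5 : 0 ≤ (d v + d (v + 1)) / 2 := by
        have := hd0 v (by omega)
        have := hd0 (v + 1) (by omega)
        linarith
      have h6 := mul_le_mul_of_nonneg_right hw h5
      refine h6.trans (le_of_eq ?_)
      rw [e1]
      simp only [hd]
      ring
    rw [sum_sub_distrib] at h4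
    have h7 : F.def_ k * 16 ^ k = (⨆ i, F.Lm i / 16 ^ i) * 16 ^ k - F.Lm k := by
      unfold def_
      rw [sub_mul, h2]
    rw [h7]
    refine h4.trans ?_
    have : F.Lm k = ∑ v ∈ range (2 * (5 * Q * 2 ^ k)), wc Q k ((v : ℤ) - (5 * Q * 2 ^ k : ℕ)) *
        ((F.ν k ((v : ℤ) - (5 * Q * 2 ^ k : ℕ)) +
          F.ν k ((v : ℤ) - (5 * Q * 2 ^ k : ℕ) + 1)) / 2) := rfl
    rw [← this]
    linarith
  have h8 : ∑ i ∈ range (2 * (5 * Q * 2 ^ k) + 1), d i ≤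
      2 * ∑ v ∈ range (2 * (5 * Q * 2 ^ k)), (d v + d (v + 1)) / 2 := by
    rw [mul_sum]
    have e : ∀ v ∈ range (2 * (5 * Q * 2 ^ k)), 2 * ((d v + d (v + 1)) / 2) = d v + d (v + 1) :=
      fun v _ => by ring
    rw [sum_congr rfl e, sum_add_distrib, sum_range_succ']
    have hpos : 0 < 2 * (5 * Q * 2 ^ k) := by positivity
    have h9 : d 0 ≤ ∑ v ∈ range (2 * (5 * Q * 2 ^ k)), d v := by
      apply single_le_sum (f := d) (fun i hi => hd0 i (mem_range.1 hi).le) (mem_range.2 hpos)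
    linarith
  refine h8.trans ?_
  have hQ' : (1 : ℝ) ≤ Q := by exact_mod_cast hQ
  have p4 : (0 : ℝ) < 4 ^ k := by positivity
  have e4 : ((Q : ℝ) * 2 ^ k) ^ 2 = Q ^ 2 * 4 ^ k := by
    rw [mul_pow, ← pow_mul, mul_comm k 2, pow_mul]; norm_num
  have e16 : (16 : ℝ) ^ k = 4 ^ k * 4 ^ k := by rw [← mul_pow]; norm_num
  rw [e4, e16] at h3
  set A := ∑ v ∈ range (2 * (5 * Q * 2 ^ k)), (d v + d (v + 1)) / 2 with hA
  have hA0 : 0 ≤ A := by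
    apply sum_nonneg
    intro v hv
    have hv' := mem_range.1 hv
    have := hd0 v (by omega)
    have := hd0 (v + 1) (by omega)
    linarith
  have h10 : 2 * A * 4 ^ k ≤ F.def_ k * 4 ^ k * 4 ^ k := by
    have : 2 * A * 4 ^ k ≤ 400 * (Q ^ 2 * 4 ^ k) * A := by
      have hQ2 : (1 : ℝ) ≤ Q ^ 2 := by nlinarith
      have : 0 ≤ A * 4 ^ k := by positivity
      nlinarith
    linarith
  exact le_of_mul_le_mul_right h10 p4

end Fam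

end Pool.Agent.YTD
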