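import Pool.Agent.YTD.Expo

/-!
Subspaces stable under `GL₂ × GL₂`.
-/

namespace Pool.Agent.YTD

open Finset Module MvPolynomial

variable {K : Type} [Field K] [Algebra ℂ K]

/-- the eigenvalue of the diagonal element. -/
def lamE (e : Fin 4 →₀ ℕ) : ℕ := 2 ^ e 0 * 3 ^ e 1 * 5 ^ e 2 * 7 ^ e 3

theorem lamE_inj {e e' : Fin 4 →₀ ℕ} (h : lamE e = lamE e') : e = e' := by
  have p2 : Nat.Prime 2 := by norm_num
  have p3 : Nat.Prime 3 := by norm_num
  have p5 : Nat.Prime 5 := by norm_num
  have p7 : Nat.Prime 7 := by norm_num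
  have key : ∀ (a b c d : ℕ), (2 ^ a * 3 ^ b * 5 ^ c * 7 ^ d).factorization =
      Finsupp.single 2 a + Finsupp.single 3 b + Finsupp.single 5 c + Finsupp.single 7 d := by
    intro a b c d
    rw [Nat.factorization_mul (by positivity) (by positivity),
      Nat.factorization_mul (by positivity) (by positivity),
      Nat.factorization_mul (by positivity) (by positivity), p2.factorization_pow,
      p3.factorization_pow, p5.factorization_pow, p7.factorization_pow]
  unfold lamE at h
  have h1 := congrArg Nat.factorization h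
  rw [key, key] at h1
  ext i
  fin_cases i
  · simpa [Finsupp.single_apply] using DFunLike.congr_fun h1 2
  · simpa [Finsupp.single_apply] using DFunLike.congr_fun h1 3
  · simpa [Finsupp.single_apply] using DFunLike.congr_fun h1 5
  · simpa [Finsupp.single_apply] using DFunLike.congr_fun h1 7

theorem smul_monomial_C (z : ℂ) (e : Fin 4 →₀ ℕ) (c : K) :
    z • monomial e c = monomial e (z • c) := by
  rw [MvPolynomial.smul_monomial]

theorem subst_diag (e : Fin 4 →₀ ℕ) (c : K) :
    subst !![2, 0; 0, 3] !![5, 0; 0, 7] (monomial e c) = (lamE e : ℂ) • monomial e c := by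
  unfold subst
  rw [aeval_monomial, Finsupp.prod_fintype _ _ (fun i => pow_zero _), Fin.prod_univ_four]
  simp only [Matrix.cons_val_zero, Matrix.cons_val_one, Matrix.cons_val, Matrix.of_apply,
    zero_smul, add_zero, zero_add, smul_pow]
  rw [monomial_eq, Finsupp.prod_fintype _ _ (fun i => pow_zero _), Fin.prod_univ_four]
  unfold lamE
  push_cast
  simp only [mul_smul_comm, smul_mul_assoc, smul_smul]
  rw [MvPolynomial.algebraMap_eq]
  congr 1
  ring

/-- extraction of monomials from stable subspaces. -/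
theorem mono_mem {U : Submodule ℂ (MvPolynomial (Fin 4) K)}
    (hU : ∀ f ∈ U, subst !![2, 0; 0, 3] !![5, 0; 0, 7] f ∈ U) :
    ∀ (n : ℕ) (f : MvPolynomial (Fin 4) K), f.support.card = n → f ∈ U →
      ∀ e, monomial e (f.coeff e) ∈ U := by
  intro n
  induction n with
  | zero =>
    intro f hf _ e
    have : f = 0 := by
      rw [Finset.card_eq_zero] at hf
      exact MvPolynomial.support_eq_empty.1 hf
    subst this
    simp
  | succ n ih =>
    intro f hf hfU e
    by_cases he : f.coeff e = 0
    · rw [he, map_zero]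
      exact zero_mem _
    by_cases hn : ∃ e', e' ≠ e ∧ f.coeff e' ≠ 0
    · obtain ⟨e', hne, he'⟩ := hn
      set g := subst !![2, 0; 0, 3] !![5, 0; 0, 7] f - (lamE e' : ℂ) • f with hg
      have hgU : g ∈ U := sub_mem (hU f hfU) (U.smul_mem _ hfU)
      have hcoef : ∀ e'', g.coeff e'' = ((lamE e'' : ℂ) - lamE e') • f.coeff e'' := by
        intro e''
        rw [hg, coeff_sub, coeff_smul, sub_smul]
        congr 1
        conv_lhs => rw [f.as_sum]
        rw [map_sum, coeff_sum]
        rw [Finset.sum_congr rfl (fun x _ => by rw [subst_diag, coeff_smul])]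
        by_cases h : f.coeff e'' = 0
        · rw [h, smul_zero]
          apply Finset.sum_eq_zero
          intro x _
          rw [coeff_monomial]
          split_ifs with h'
          · subst h'
            rw [h, smul_zero]
          · rw [smul_zero]
        · rw [Finset.sum_eq_single e'']
          · rw [coeff_monomial, if_pos rfl]
          · intro x _ hx
            rw [coeff_monomial, if_neg hx, smul_zero]
          · intro h'
            exact (h' (MvPolynomial.mem_support_iff.2 h)).elim
      have hsupp : g.support = f.support.erase e' := by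
        ext e''
        rw [MvPolynomial.mem_support_iff, Finset.mem_erase, MvPolynomial.mem_support_iff, hcoef]
        constructor
        · intro h
          refine ⟨?_, ?_⟩
          · rintro rfl
            rw [sub_self, zero_smul] at h
            exact h rfl
          · intro h'
            rw [h', smul_zero] at h
            exact h rfl
        · rintro ⟨h1, h2⟩ h3
          rcases smul_eq_zero.1 h3 with h4 | h4
          · apply h1
            apply lamE_inj
            have h5 := sub_eq_zero.1 h4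
            exact_mod_cast h5
          · exact h2 h4
      have hcard : g.support.card = n := by
        rw [hsupp, Finset.card_erase_of_mem (MvPolynomial.mem_support_iff.2 he'), hf]
        rfl
      have h1 := ih g hcard hgU e
      rw [hcoef, ← smul_monomial_C] at h1
      have hne' : (lamE e : ℂ) - lamE e' ≠ 0 := by
        intro h
        apply hne
        apply lamE_inj
        have h5 := sub_eq_zero.1 h
        exact_mod_cast h5.symm
      have h2 := U.smul_mem ((lamE e : ℂ) - lamE e')⁻¹ h1
      rwa [smul_smul, inv_mul_cancel₀ hne', one_smul] at h2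
    · push Not at hn
      have : f = monomial e (f.coeff e) := by
        ext e'
        rw [coeff_monomial]
        split_ifs with h
        · rw [h]
        · exact hn e' (Ne.symm h)
      rw [← this]
      exact hfU

theorem coeff_add_pow {i i' : Fin 4} (hi : i ≠ i') (a : ℕ) :
    ((X i + X i' : MvPolynomial (Fin 4) K) ^ (a + 1)).coeff
      (Finsupp.single i a + Finsupp.single i' 1) = (a + 1 : ℕ) := by
  classical
  rw [add_pow, coeff_sum, Finset.sum_eq_single a]
  · have e : (X i ^ a * X i' ^ (a + 1 - a) * ((a + 1).choose a : MvPolynomial (Fin 4) K)) =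
        monomial (Finsupp.single i a + Finsupp.single i' 1) (((a + 1 : ℕ) : K)) := by
      rw [Nat.choose_succ_self_right, Nat.add_sub_cancel_left, X_pow_eq_monomial,
        X_pow_eq_monomial, monomial_mul, one_mul, ← map_natCast (C (R := K) (σ := Fin 4)),
        mul_comm, C_mul_monomial, mul_one]
    rw [e, coeff_monomial, if_pos rfl]
  · intro m _ hm
    have e : (X i ^ m * X i' ^ (a + 1 - m) * ((a + 1).choose m : MvPolynomial (Fin 4) K)) =
        monomial (Finsupp.single i m + Finsupp.single i' (a + 1 - m)) ((((a + 1).choose m : ℕ) : K)) := by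
      rw [X_pow_eq_monomial, X_pow_eq_monomial, monomial_mul, one_mul,
        ← map_natCast (C (R := K) (σ := Fin 4)), mul_comm, C_mul_monomial, mul_one]
    rw [e, coeff_monomial, if_neg]
    intro h
    apply hm
    have := DFunLike.congr_fun h i
    simpa [Finsupp.single_apply, hi, hi.symm] using this
  · intro h
    exact (h (mem_range.2 (by omega))).elim

theorem coeff_move {i i' : Fin 4} (hi : i ≠ i') (e₁ : Fin 4 →₀ ℕ) (a : ℕ) (c : K) :
    (monomial e₁ c * (X i + X i') ^ (a + 1) : MvPolynomial (Fin 4) K).coeff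
      (e₁ + (Finsupp.single i a + Finsupp.single i' 1)) = ((a + 1 : ℕ) : ℂ) • c := by
  rw [coeff_monomial_mul, coeff_add_pow hi, mul_comm, Algebra.smul_def]
  push_cast
  rfl

/-- the four elementary unipotent substitutions on monomials. -/
theorem subst_move01 (e₁ : Fin 4 →₀ ℕ) (h0 : e₁ 0 = 0) (a : ℕ) (c : K) :
    subst !![1, 1; 0, 1] 1 (monomial (e₁ + Finsupp.single 0 a) c) =
      monomial e₁ c * (X 0 + X 1) ^ a := by
  unfold subst
  rw [aeval_monomial, Finsupp.prod_fintype _ _ (fun i => pow_zero _), Fin.prod_univ_four,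
    monomial_eq, Finsupp.prod_fintype _ _ (fun i => pow_zero _), Fin.prod_univ_four]
  simp [h0, MvPolynomial.algebraMap_eq]
  ring

theorem subst_move10 (e₁ : Fin 4 →₀ ℕ) (h0 : e₁ 1 = 0) (a : ℕ) (c : K) :
    subst !![1, 0; 1, 1] 1 (monomial (e₁ + Finsupp.single 1 a) c) =
      monomial e₁ c * (X 1 + X 0) ^ a := by
  unfold subst
  rw [aeval_monomial, Finsupp.prod_fintype _ _ (fun i => pow_zero _), Fin.prod_univ_four,
    monomial_eq, Finsupp.prod_fintype _ _ (fun i => pow_zero _), Fin.prod_univ_four]
  simp [h0, MvPolynomial.algebraMap_eq]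
  ring

theorem subst_move23 (e₁ : Fin 4 →₀ ℕ) (h0 : e₁ 2 = 0) (a : ℕ) (c : K) :
    subst 1 !![1, 1; 0, 1] (monomial (e₁ + Finsupp.single 2 a) c) =
      monomial e₁ c * (X 2 + X 3) ^ a := by
  unfold subst
  rw [aeval_monomial, Finsupp.prod_fintype _ _ (fun i => pow_zero _), Fin.prod_univ_four,
    monomial_eq, Finsupp.prod_fintype _ _ (fun i => pow_zero _), Fin.prod_univ_four]
  simp [h0, MvPolynomial.algebraMap_eq]
  ring

theorem subst_move32 (e₁ : Fin 4 →₀ ℕ) (h0 : e₁ 3 = 0) (a : ℕ) (c : K) :
    subst 1 !![1, 0; 1, 1] (monomial (e₁ + Finsupp.single 3 a) c) =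
      monomial e₁ c * (X 3 + X 2) ^ a := by
  unfold subst
  rw [aeval_monomial, Finsupp.prod_fintype _ _ (fun i => pow_zero _), Fin.prod_univ_four,
    monomial_eq, Finsupp.prod_fintype _ _ (fun i => pow_zero _), Fin.prod_univ_four]
  simp [h0, MvPolynomial.algebraMap_eq]
  ring

/-- stability under `GL₂ × GL₂`. -/
def Stable (U : Submodule ℂ (MvPolynomial (Fin 4) K)) : Prop :=
  ∀ g h : Matrix (Fin 2) (Fin 2) ℂ, IsUnit g → IsUnit h → ∀ f ∈ U, subst g h f ∈ U

theorem isUnit_of_det {g : Matrix (Fin 2) (Fin 2) ℂ} (h : g.det ≠ 0) : IsUnit g :=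
  (Matrix.isUnit_iff_isUnit_det _).2 (isUnit_iff_ne_zero.2 h)

namespace Stable

variable {U : Submodule ℂ (MvPolynomial (Fin 4) K)} (hU : Stable U)

include hU

theorem mono {f : MvPolynomial (Fin 4) K} (hf : f ∈ U) (e : Fin 4 →₀ ℕ) :
    monomial e (f.coeff e) ∈ U :=
  mono_mem (fun f hf => hU _ _ (isUnit_of_det (by simp [Matrix.det_fin_two]))
    (isUnit_of_det (by simp [Matrix.det_fin_two])) f hf) _ f rfl hf e

theorem of_coeff {f : MvPolynomial (Fin 4) K} (hf : f ∈ U) {e : Fin 4 →₀ ℕ} {n : ℕ} {c : K}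
    (h : f.coeff e = ((n + 1 : ℕ) : ℂ) • c) : monomial e c ∈ U := by
  have h1 := hU.mono hf e
  rw [h, ← smul_monomial_C] at h1
  have hne : ((n + 1 : ℕ) : ℂ) ≠ 0 := by exact_mod_cast Nat.succ_ne_zero n
  have h2 := U.smul_mem ((n + 1 : ℕ) : ℂ)⁻¹ h1
  rwa [smul_smul, inv_mul_cancel₀ hne, one_smul] at h2

theorem move01 {e : Fin 4 →₀ ℕ} {c : K} (h0 : e 0 = 0) (a : ℕ)
    (h : monomial (e + Finsupp.single 0 (a + 1)) c ∈ U) :
    monomial (e + (Finsupp.single 0 a + Finsupp.single 1 1)) c ∈ U := by
  have h1 := hU !![1, 1; 0, 1] 1 (isUnit_of_det (by simp [Matrix.det_fin_two])) isUnit_one _ h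
  rw [subst_move01 e h0] at h1
  exact hU.of_coeff h1 (coeff_move (by decide) e a c)

theorem move10 {e : Fin 4 →₀ ℕ} {c : K} (h0 : e 1 = 0) (a : ℕ)
    (h : monomial (e + Finsupp.single 1 (a + 1)) c ∈ U) :
    monomial (e + (Finsupp.single 1 a + Finsupp.single 0 1)) c ∈ U := by
  have h1 := hU !![1, 0; 1, 1] 1 (isUnit_of_det (by simp [Matrix.det_fin_two])) isUnit_one _ h
  rw [subst_move10 e h0] at h1
  exact hU.of_coeff h1 (coeff_move (by decide) e a c)

theorem move23 {e : Fin 4 →₀ ℕ} {c : K} (h0 : e 2 = 0) (a : ℕ)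
    (h : monomial (e + Finsupp.single 2 (a + 1)) c ∈ U) :
    monomial (e + (Finsupp.single 2 a + Finsupp.single 3 1)) c ∈ U := by
  have h1 := hU 1 !![1, 1; 0, 1] isUnit_one (isUnit_of_det (by simp [Matrix.det_fin_two])) _ h
  rw [subst_move23 e h0] at h1
  exact hU.of_coeff h1 (coeff_move (by decide) e a c)

theorem move32 {e : Fin 4 →₀ ℕ} {c : K} (h0 : e 3 = 0) (a : ℕ)
    (h : monomial (e + Finsupp.single 3 (a + 1)) c ∈ U) :
    monomial (e + (Finsupp.single 3 a + Finsupp.single 2 1)) c ∈ U := by
  have h1 := hU 1 !![1, 0; 1, 1] isUnit_one (isUnit_of_det (by simp [Matrix.det_fin_two])) _ h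
  rw [subst_move32 e h0] at h1
  exact hU.of_coeff h1 (coeff_move (by decide) e a c)

end Stable

/-- exponents as four-tuples. -/
noncomputable def M4 (a b c d : ℕ) : Fin 4 →₀ ℕ := Finsupp.equivFunOnFinite.symm ![a, b, c, d]

theorem M4_self (e : Fin 4 →₀ ℕ) : M4 (e 0) (e 1) (e 2) (e 3) = e := by
  ext i
  fin_cases i <;> rfl

theorem M4_eq (a b c d : ℕ) : M4 a b c d = Finsupp.single 0 a + Finsupp.single 1 b +
    Finsupp.single 2 c + Finsupp.single 3 d := by
  ext i
  fin_cases i <;> simp [M4]

namespace Stable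

variable {U : Submodule ℂ (MvPolynomial (Fin 4) K)} (hU : Stable U)

include hU

theorem m01 {a b c d : ℕ} {z : K} (h : monomial (M4 (a + 1) b c d) z ∈ U) :
    monomial (M4 a (b + 1) c d) z ∈ U := by
  have e1 : M4 (a + 1) b c d = (Finsupp.single 1 b + Finsupp.single 2 c + Finsupp.single 3 d) +
      Finsupp.single 0 (a + 1) := by rw [M4_eq]; abel
  have e2 : M4 a (b + 1) c d = (Finsupp.single 1 b + Finsupp.single 2 c + Finsupp.single 3 d) +
      (Finsupp.single 0 a + Finsupp.single 1 1) := by
    rw [M4_eq, Finsupp.single_add]; abel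
  rw [e1] at h
  rw [e2]
  exact hU.move01 (by simp) a h

theorem m10 {a b c d : ℕ} {z : K} (h : monomial (M4 a (b + 1) c d) z ∈ U) :
    monomial (M4 (a + 1) b c d) z ∈ U := by
  have e1 : M4 a (b + 1) c d = (Finsupp.single 0 a + Finsupp.single 2 c + Finsupp.single 3 d) +
      Finsupp.single 1 (b + 1) := by rw [M4_eq]; abel
  have e2 : M4 (a + 1) b c d = (Finsupp.single 0 a + Finsupp.single 2 c + Finsupp.single 3 d) +
      (Finsupp.single 1 b + Finsupp.single 0 1) := by
    rw [M4_eq, Finsupp.single_add]; abel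
  rw [e1] at h
  rw [e2]
  exact hU.move10 (by simp) b h

theorem m23 {a b c d : ℕ} {z : K} (h : monomial (M4 a b (c + 1) d) z ∈ U) :
    monomial (M4 a b c (d + 1)) z ∈ U := by
  have e1 : M4 a b (c + 1) d = (Finsupp.single 0 a + Finsupp.single 1 b + Finsupp.single 3 d) +
      Finsupp.single 2 (c + 1) := by rw [M4_eq]; abel
  have e2 : M4 a b c (d + 1) = (Finsupp.single 0 a + Finsupp.single 1 b + Finsupp.single 3 d) +
      (Finsupp.single 2 c + Finsupp.single 3 1) := by
    rw [M4_eq, Finsupp.single_add]; abel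
  rw [e1] at h
  rw [e2]
  exact hU.move23 (by simp) c h

theorem m32 {a b c d : ℕ} {z : K} (h : monomial (M4 a b c (d + 1)) z ∈ U) :
    monomial (M4 a b (c + 1) d) z ∈ U := by
  have e1 : M4 a b c (d + 1) = (Finsupp.single 0 a + Finsupp.single 1 b + Finsupp.single 2 c) +
      Finsupp.single 3 (d + 1) := by rw [M4_eq]
  have e2 : M4 a b (c + 1) d = (Finsupp.single 0 a + Finsupp.single 1 b + Finsupp.single 2 c) +
      (Finsupp.single 3 d + Finsupp.single 2 1) := by
    rw [M4_eq, Finsupp.single_add]; abel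
  rw [e1] at h
  rw [e2]
  exact hU.move32 (by simp) d h

theorem toX {a b c d : ℕ} {z : K} (h : monomial (M4 a b c d) z ∈ U) :
    monomial (M4 (a + b) 0 c d) z ∈ U := by
  induction b generalizing a with
  | zero => exact h
  | succ b ih =>
    have := ih (hU.m10 h)
    rwa [show a + 1 + b = a + (b + 1) by ring] at this

theorem ofX {a b c d : ℕ} {z : K} (h : monomial (M4 (a + b) 0 c d) z ∈ U) :
    monomial (M4 a b c d) z ∈ U := by
  induction b generalizing a with
  | zero => exact h
  | succ b ih =>
    apply hU.m01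
    apply ih
    rwa [show a + 1 + b = a + (b + 1) by ring]

theorem toY {a b c d : ℕ} {z : K} (h : monomial (M4 a b c d) z ∈ U) :
    monomial (M4 a b (c + d) 0) z ∈ U := by
  induction d generalizing c with
  | zero => exact h
  | succ b ih =>
    have := ih (hU.m32 h)
    rwa [show c + 1 + b = c + (b + 1) by ring] at this

theorem ofY {a b c d : ℕ} {z : K} (h : monomial (M4 a b (c + d) 0) z ∈ U) :
    monomial (M4 a b c d) z ∈ U := by
  induction d generalizing c with
  | zero => exact h
  | succ d ih =>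
    apply hU.m23
    apply ih
    rwa [show c + 1 + d = c + (d + 1) by ring]

/-- all monomials of the same bidegree with the same coefficient belong together. -/
theorem all {e e' : Fin 4 →₀ ℕ} {z : K} (h : monomial e z ∈ U) (hx : e 0 + e 1 = e' 0 + e' 1)
    (hy : e 2 + e 3 = e' 2 + e' 3) : monomial e' z ∈ U := by
  rw [← M4_self e] at h
  rw [← M4_self e']
  apply hU.ofY
  apply hU.ofX
  rw [← hx, ← hy]
  exact hU.toX (hU.toY h)

end Stable

end Pool.Agent.YTD
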