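import Mathlib

/-!
Initial spaces of subspaces of polynomial rings with respect to a monomial order.
-/

namespace Pool.Agent.YTD

open MvPolynomial Module

variable {σ : Type} {K : Type} [Field K] [Algebra ℂ K]

/-- The coefficient at `e`, as a `ℂ`-linear map. -/
noncomputable def coeffLin (e : σ →₀ ℕ) : MvPolynomial σ K →ₗ[ℂ] K :=
  (MvPolynomial.lcoeff K e).restrictScalars ℂ

@[simp] theorem coeffLin_apply (e : σ →₀ ℕ) (f : MvPolynomial σ K) :
    coeffLin e f = f.coeff e := rfl

/-- polynomials all of whose exponents are at most `e`. -/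
def leDeg (m : MonomialOrder σ) (e : σ →₀ ℕ) : Submodule ℂ (MvPolynomial σ K) where
  carrier := {f | ∀ e', f.coeff e' ≠ 0 → m.toSyn e' ≤ m.toSyn e}
  zero_mem' := by
    intro e' h
    simp at h
  add_mem' := by
    intro f g hf hg e' h
    by_cases h1 : f.coeff e' = 0
    · apply hg
      intro h2
      apply h
      rw [coeff_add, h1, h2, add_zero]
    · exact hf e' h1
  smul_mem' := by
    intro c f hf e' h
    apply hf
    intro h1
    apply h
    rw [coeff_smul, h1, smul_zero]

theorem mem_leDeg {m : MonomialOrder σ} {e : σ →₀ ℕ} {f : MvPolynomial σ K} :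
    f ∈ leDeg m e ↔ ∀ e', f.coeff e' ≠ 0 → m.toSyn e' ≤ m.toSyn e := Iff.rfl

/-- The space of leading coefficients at `e` of the elements of `U` of degree at most `e`. -/
noncomputable def ini (m : MonomialOrder σ) (U : Submodule ℂ (MvPolynomial σ K)) (e : σ →₀ ℕ) :
    Submodule ℂ K := (U ⊓ leDeg m e).map (coeffLin e)

theorem mem_ini {m : MonomialOrder σ} {U : Submodule ℂ (MvPolynomial σ K)} {e : σ →₀ ℕ} {c : K} :
    c ∈ ini m U e ↔ ∃ f ∈ U, (∀ e', f.coeff e' ≠ 0 → m.toSyn e' ≤ m.toSyn e) ∧ f.coeff e = c := by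
  constructor
  · rintro ⟨f, ⟨hf, hf'⟩, rfl⟩
    exact ⟨f, hf, hf', rfl⟩
  · rintro ⟨f, hf, hf', rfl⟩
    exact ⟨f, ⟨hf, hf'⟩, rfl⟩

theorem ini_mono {m : MonomialOrder σ} {U U' : Submodule ℂ (MvPolynomial σ K)} (h : U ≤ U')
    (e : σ →₀ ℕ) : ini m U e ≤ ini m U' e :=
  Submodule.map_mono (inf_le_inf_right _ h)

theorem ini_bot {m : MonomialOrder σ} (e : σ →₀ ℕ) :
    ini m (⊥ : Submodule ℂ (MvPolynomial σ K)) e = ⊥ := by
  rw [eq_bot_iff]
  intro c hc
  obtain ⟨f, hf, _, rfl⟩ := mem_ini.1 hc
  rw [Submodule.mem_bot] at hf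
  subst hf
  simp

theorem degree_le_of_coeff {m : MonomialOrder σ} {e : σ →₀ ℕ} {f : MvPolynomial σ K}
    (h : ∀ e', f.coeff e' ≠ 0 → m.toSyn e' ≤ m.toSyn e) : m.toSyn (m.degree f) ≤ m.toSyn e := by
  by_cases hf : f = 0
  · subst hf
    rw [MonomialOrder.degree_zero, map_zero]
    exact MonomialOrder.zero_le m _
  · apply h
    have := MonomialOrder.degree_mem_support (m := m) hf
    rwa [MvPolynomial.mem_support_iff] at this

theorem ini_mul {m : MonomialOrder σ} {U U' U'' : Submodule ℂ (MvPolynomial σ K)}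
    (H : ∀ f ∈ U, ∀ g ∈ U', f * g ∈ U'') {e e' : σ →₀ ℕ} {c c' : K}
    (hc : c ∈ ini m U e) (hc' : c' ∈ ini m U' e') : c * c' ∈ ini m U'' (e + e') := by
  obtain ⟨f, hf, hf', rfl⟩ := mem_ini.1 hc
  obtain ⟨g, hg, hg', rfl⟩ := mem_ini.1 hc'
  rw [mem_ini]
  have h1 := degree_le_of_coeff hf'
  have h2 := degree_le_of_coeff hg'
  refine ⟨f * g, H f hf g hg, ?_, ?_⟩
  · intro e'' h
    have h3 : m.toSyn e'' ≤ m.toSyn (m.degree (f * g)) := by
      apply MonomialOrder.le_degree
      rwa [MvPolynomial.mem_support_iff]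
    refine h3.trans ?_
    refine (MonomialOrder.degree_mul_le (m := m)).trans ?_
    rw [map_add, map_add]
    exact add_le_add h1 h2
  · exact MonomialOrder.coeff_mul_of_add_of_degree_le h1 h2

theorem finrank_eq_sum_ini (m : MonomialOrder σ) (E : Finset (σ →₀ ℕ)) :
    ∀ (U : Submodule ℂ (MvPolynomial σ K)), FiniteDimensional ℂ U →
    (∀ f ∈ U, ∀ e, f.coeff e ≠ 0 → e ∈ E) → finrank ℂ U = ∑ e ∈ E, finrank ℂ (ini m U e) := by
  classical
  induction hn : E.card using Nat.strong_induction_on generalizing E with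
  | _ n ih =>
    intro U hfin hU
    rcases E.eq_empty_or_nonempty with rfl | hne
    · have : U = ⊥ := by
        rw [eq_bot_iff]
        intro f hf
        rw [Submodule.mem_bot]
        ext e
        by_contra h
        have := hU f hf e h
        simp at this
      rw [this]
      simp
    · obtain ⟨e₀, he₀, hmax⟩ := E.exists_max_image (fun e => m.toSyn e) hne
      -- the restriction of the coefficient map
      let φ : U →ₗ[ℂ] K := (coeffLin e₀).comp U.subtype
      have hrange : LinearMap.range φ = ini m U e₀ := by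
        ext c
        rw [mem_ini]
        constructor
        · rintro ⟨f, rfl⟩
          exact ⟨f, f.2, fun e' he' => hmax e' (hU f f.2 e' he'), rfl⟩
        · rintro ⟨f, hf, _, rfl⟩
          exact ⟨⟨f, hf⟩, rfl⟩
      set U' : Submodule ℂ (MvPolynomial σ K) := U ⊓ LinearMap.ker (coeffLin e₀) with hU'
      have hker : finrank ℂ (LinearMap.ker φ) = finrank ℂ U' := by
        have e1 : (LinearMap.ker φ).map U.subtype = U' := by
          ext f
          constructor
          · rintro ⟨g, hg, rfl⟩
            exact ⟨g.2, hg⟩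
          · rintro ⟨hf, hf'⟩
            exact ⟨⟨f, hf⟩, hf', rfl⟩
        rw [← e1]
        exact (LinearEquiv.finrank_eq (Submodule.equivMapOfInjective U.subtype
          U.injective_subtype (LinearMap.ker φ)))
      have h1 := LinearMap.finrank_range_add_finrank_ker φ
      rw [hrange, hker] at h1
      have hfin' : FiniteDimensional ℂ U' := Submodule.finiteDimensional_of_le inf_le_left
      have h2 := ih (E.erase e₀).card (by
        rw [Finset.card_erase_of_mem he₀]
        have := Finset.card_pos.2 hne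
        omega) (E.erase e₀) rfl U' hfin' (by
        intro f hf e he
        rw [Finset.mem_erase]
        refine ⟨?_, hU f hf.1 e he⟩
        rintro rfl
        exact he hf.2)
      have h3 : ∀ e ∈ E.erase e₀, finrank ℂ (ini m U' e) = finrank ℂ (ini m U e) := by
        intro e he
        have : ini m U' e = ini m U e := by
          apply le_antisymm (ini_mono inf_le_left e)
          intro c hc
          obtain ⟨f, hf, hf', rfl⟩ := mem_ini.1 hc
          rw [mem_ini]
          refine ⟨f, ⟨hf, ?_⟩, hf', rfl⟩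
          show f.coeff e₀ = 0
          by_contra h
          have h4 := hf' e₀ h
          have h5 := hmax e (Finset.mem_of_mem_erase he)
          have h6 : e = e₀ := m.toSyn.injective (le_antisymm h5 h4)
          exact (Finset.ne_of_mem_erase he) h6
        rw [this]
      rw [Finset.sum_congr rfl h3] at h2
      rw [← Finset.add_sum_erase E _ he₀, ← h2, h1]

end Pool.Agent.YTD
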