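import Pool.Agent.YTD.Phi
import Pool.Agent.YTD.Initial

/-!
The exponents of the monomials occurring in the section rings.
-/

namespace Pool.Agent.YTD

open Finset Module MvPolynomial

variable {K : Type} [Field K] [Algebra ℂ K]

/-- the exponent with index `j` and second coordinates `a, b`. -/
noncomputable def expo (q N : ℕ) (j : ℤ) (a b : ℕ) : Fin 4 →₀ ℕ :=
  Finsupp.equivFunOnFinite.symm ![AA q N j - a, a, BB q N j - b, b]

theorem expo_0 (q N : ℕ) (j : ℤ) (a b : ℕ) : expo q N j a b 0 = AA q N j - a := rfl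
theorem expo_1 (q N : ℕ) (j : ℤ) (a b : ℕ) : expo q N j a b 1 = a := rfl
theorem expo_2 (q N : ℕ) (j : ℤ) (a b : ℕ) : expo q N j a b 2 = BB q N j - b := rfl
theorem expo_3 (q N : ℕ) (j : ℤ) (a b : ℕ) : expo q N j a b 3 = b := rfl

theorem expo_add {q N N' : ℕ} {j j' : ℤ} {a a' b b' : ℕ} (h : InR q N j a b)
    (h' : InR q N' j' a' b') :
    expo q N j a b + expo q N' j' a' b' = expo q (N + N') (j + j') (a + a') (b + b') := by
  have h1 := (inR_iff h.1).1 h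
  have h1' := (inR_iff h'.1).1 h'
  have h2 := AA_add h.1 h'.1
  have h3 := BB_add h.1 h'.1
  ext i
  rw [Finsupp.add_apply]
  fin_cases i
  · show expo q N j a b 0 + expo q N' j' a' b' 0 = expo q (N + N') (j + j') (a + a') (b + b') 0
    rw [expo_0, expo_0, expo_0, h2]
    omega
  · rfl
  · show expo q N j a b 2 + expo q N' j' a' b' 2 = expo q (N + N') (j + j') (a + a') (b + b') 2
    rw [expo_2, expo_2, expo_2, h3]
    omega
  · rfl

theorem expo_sum_x {q N : ℕ} {j : ℤ} {a b : ℕ} (h : InR q N j a b) :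
    (expo q N j a b 0 : ℤ) + expo q N j a b 1 = 25 * q * N + 3 * j := by
  have h1 := (inR_iff h.1).1 h
  rw [expo_0, expo_1, ← AA_cast h.1]
  omega

theorem expo_sum_y {q N : ℕ} {j : ℤ} {a b : ℕ} (h : InR q N j a b) :
    (expo q N j a b 2 : ℤ) + expo q N j a b 3 = 25 * q * N - 3 * j := by
  have h1 := (inR_iff h.1).1 h
  rw [expo_2, expo_3, ← BB_cast h.1]
  omega

theorem exists_expo {q N : ℕ} {j : ℤ} (hj : |j| ≤ 5 * q * N) {e : Fin 4 →₀ ℕ}
    (hx : (e 0 : ℤ) + e 1 = 25 * q * N + 3 * j) (hy : (e 2 : ℤ) + e 3 = 25 * q * N - 3 * j) :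
    InR q N j (e 1) (e 3) ∧ e = expo q N j (e 1) (e 3) := by
  refine ⟨⟨hj, by omega, by omega⟩, ?_⟩
  rw [← AA_cast hj] at hx
  rw [← BB_cast hj] at hy
  ext i
  fin_cases i
  · show e 0 = expo q N j (e 1) (e 3) 0
    rw [expo_0]
    omega
  · rfl
  · show e 2 = expo q N j (e 1) (e 3) 2
    rw [expo_2]
    omega
  · rfl

open Classical in
/-- all exponents at level `N`. -/
noncomputable def Eset (q N : ℕ) : Finset (Fin 4 →₀ ℕ) :=
  (Icc (-((5 * q * N : ℕ) : ℤ)) ((5 * q * N : ℕ) : ℤ)).biUnion fun j =>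
    (range (AA q N j + 1) ×ˢ range (BB q N j + 1)).image fun p => expo q N j p.1 p.2

theorem mem_Icc_iff' {q N : ℕ} {j : ℤ} :
    j ∈ Icc (-((5 * q * N : ℕ) : ℤ)) ((5 * q * N : ℕ) : ℤ) ↔ |j| ≤ 5 * q * N := by
  rw [mem_Icc, abs_le]
  push_cast
  rfl

theorem mem_Eset {q N : ℕ} {e : Fin 4 →₀ ℕ} :
    e ∈ Eset q N ↔ ∃ j a b, InR q N j a b ∧ e = expo q N j a b := by
  classical
  unfold Eset
  rw [mem_biUnion]
  constructor
  · rintro ⟨j, hj, h⟩
    obtain ⟨p, hp, rfl⟩ := mem_image.1 h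
    obtain ⟨h1, h2⟩ := mem_product.1 hp
    have h1 := mem_range.1 h1
    have h2 := mem_range.1 h2
    exact ⟨j, p.1, p.2, (inR_iff (mem_Icc_iff'.1 hj)).2 ⟨by omega, by omega⟩, rfl⟩
  · rintro ⟨j, a, b, h, rfl⟩
    refine ⟨j, mem_Icc_iff'.2 h.1, ?_⟩
    rw [mem_image]
    have := (inR_iff h.1).1 h
    refine ⟨(a, b), ?_, rfl⟩
    rw [mem_product, mem_range, mem_range]
    exact ⟨by omega, by omega⟩

theorem sum_Eset (q N : ℕ) (f : (Fin 4 →₀ ℕ) → ℝ) :
    ∑ e ∈ Eset q N, f e = ∑ j ∈ Icc (-((5 * q * N : ℕ) : ℤ)) ((5 * q * N : ℕ) : ℤ),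
      ∑ a ∈ range (AA q N j + 1), ∑ b ∈ range (BB q N j + 1), f (expo q N j a b) := by
  classical
  unfold Eset
  rw [sum_biUnion]
  · apply sum_congr rfl
    intro j hj
    rw [sum_image, sum_product]
    intro p _ p' _ h
    have h1 : expo q N j p.1 p.2 1 = expo q N j p'.1 p'.2 1 := by
      simp only at h
      rw [h]
    have h2 : expo q N j p.1 p.2 3 = expo q N j p'.1 p'.2 3 := by
      simp only at h
      rw [h]
    exact Prod.ext h1 h2
  · intro j hj j' hj' hne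
    rw [Function.onFun, disjoint_left]
    intro e he he'
    apply hne
    obtain ⟨p, hp, rfl⟩ := mem_image.1 he
    obtain ⟨p', hp', h⟩ := mem_image.1 he'
    obtain ⟨h1, h2⟩ := mem_product.1 hp
    obtain ⟨h1', h2'⟩ := mem_product.1 hp'
    rw [mem_range] at h1 h2 h1' h2'
    have g1 := expo_sum_x ((inR_iff (mem_Icc_iff'.1 hj)).2
      ⟨Nat.lt_succ_iff.1 h1, Nat.lt_succ_iff.1 h2⟩)
    have g2 := expo_sum_x ((inR_iff (mem_Icc_iff'.1 hj')).2
      ⟨Nat.lt_succ_iff.1 h1', Nat.lt_succ_iff.1 h2'⟩)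
    rw [h] at g2
    linarith

namespace Datum

variable (T : Datum K)

theorem coeff_mem_V {q : ℕ} {D₀ : T.X.Pt →₀ ℤ} {N : ℕ} {f : MvPolynomial (Fin 4) K}
    (hf : f ∈ T.sec q D₀ N) {j : ℤ} {a b : ℕ} (h : InR q N j a b) :
    f.coeff (expo q N j a b) ∈ T.V q D₀ N j := by
  by_cases h0 : f.coeff (expo q N j a b) = 0
  · rw [h0]
    exact zero_mem _
  · obtain ⟨j', _, h2, _, h4⟩ := hf _ h0
    rw [expo_sum_x h] at h2
    have : j' = j := by linarith
    rwa [this] at h4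

theorem mem_Eset_of_coeff {q : ℕ} {D₀ : T.X.Pt →₀ ℤ} {N : ℕ} {f : MvPolynomial (Fin 4) K}
    (hf : f ∈ T.sec q D₀ N) {e : Fin 4 →₀ ℕ} (h0 : f.coeff e ≠ 0) : e ∈ Eset q N := by
  obtain ⟨j', h1, h2, h3, _⟩ := hf _ h0
  rw [mem_Eset]
  obtain ⟨g1, g2⟩ := exists_expo h1 h2 h3
  exact ⟨j', _, _, g1, g2⟩

theorem monomial_mem_sec {q : ℕ} {D₀ : T.X.Pt →₀ ℤ} {N : ℕ} {j : ℤ} {a b : ℕ}
    (h : InR q N j a b) {c : K} (hc : c ∈ T.V q D₀ N j) :
    monomial (expo q N j a b) c ∈ T.sec q D₀ N := by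
  classical
  intro e he
  rw [coeff_monomial] at he ⊢
  by_cases h1 : expo q N j a b = e
  · rw [if_pos h1]
    subst h1
    exact ⟨j, h.1, expo_sum_x h, expo_sum_y h, hc⟩
  · rw [if_neg h1] at he
    exact (he rfl).elim

theorem ini_sec (m : MonomialOrder (Fin 4)) {q : ℕ} {D₀ : T.X.Pt →₀ ℤ} {N : ℕ} {j : ℤ} {a b : ℕ}
    (h : InR q N j a b) : ini m (T.sec q D₀ N) (expo q N j a b) = T.V q D₀ N j := by
  classical
  apply le_antisymm
  · intro c hc
    obtain ⟨f, hf, _, rfl⟩ := mem_ini.1 hc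
    exact T.coeff_mem_V hf h
  · intro c hc
    rw [mem_ini]
    refine ⟨monomial (expo q N j a b) c, T.monomial_mem_sec h hc, ?_, ?_⟩
    · intro e' he'
      rw [coeff_monomial] at he'
      by_cases h1 : expo q N j a b = e'
      · rw [h1]
      · rw [if_neg h1] at he'
        exact (he' rfl).elim
    · rw [coeff_monomial, if_pos rfl]

/-- monomials with a fixed exponent, as a linear map in the coefficient. -/
noncomputable def monoLin (e : Fin 4 →₀ ℕ) : K →ₗ[ℂ] MvPolynomial (Fin 4) K :=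
  (MvPolynomial.monomial e).restrictScalars ℂ

theorem monoLin_apply (e : Fin 4 →₀ ℕ) (c : K) : monoLin e c = monomial e c := rfl

theorem finite_sec (P₀ : T.X.Pt) (q : ℕ) (D₀ : T.X.Pt →₀ ℤ) (N : ℕ) :
    FiniteDimensional ℂ (T.sec q D₀ N) := by
  classical
  let U : Submodule ℂ (MvPolynomial (Fin 4) K) :=
    (Icc (-((5 * q * N : ℕ) : ℤ)) ((5 * q * N : ℕ) : ℤ)).sup fun j =>
      (Eset q N).sup fun e => (T.V q D₀ N j).map (monoLin e)
  have hV : ∀ (j : ℤ) (e : Fin 4 →₀ ℕ),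
      FiniteDimensional ℂ ((T.V q D₀ N j).map (monoLin e)) := by
    intro j e
    have : FiniteDimensional ℂ (T.V q D₀ N j) := T.X.finite_L P₀ _
    infer_instance
  have hU1 : ∀ j : ℤ, FiniteDimensional ℂ
      ((Eset q N).sup fun e => (T.V q D₀ N j).map (monoLin e) :
        Submodule ℂ (MvPolynomial (Fin 4) K)) := by
    intro j
    have := hV j
    exact Submodule.finiteDimensional_finset_sup _ _
  have hU : FiniteDimensional ℂ U := Submodule.finiteDimensional_finset_sup _ _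
  have hle : T.sec q D₀ N ≤ U := by
    intro f hf
    rw [f.as_sum]
    apply sum_mem
    intro e he
    have he' := MvPolynomial.mem_support_iff.1 he
    obtain ⟨j, h1, h2, h3, h4⟩ := hf e he'
    have g1 : (T.V q D₀ N j).map (monoLin e) ≤ (Eset q N).sup fun e =>
      (T.V q D₀ N j).map (monoLin e) :=
      Finset.le_sup (f := fun e => (T.V q D₀ N j).map (monoLin e)) (T.mem_Eset_of_coeff hf he')
    have g2 : ((Eset q N).sup fun e => (T.V q D₀ N j).map (monoLin e)) ≤ U :=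
      Finset.le_sup (f := fun j => (Eset q N).sup fun e => (T.V q D₀ N j).map (monoLin e))
        (mem_Icc_iff'.2 h1)
    exact g2 (g1 ⟨_, h4, rfl⟩)
  exact Submodule.finiteDimensional_of_le hle

/-- dimension of a subspace of the space of sections through its initial spaces. -/
theorem finrank_eq_sum (P₀ : T.X.Pt) (m : MonomialOrder (Fin 4)) {q : ℕ} {D₀ : T.X.Pt →₀ ℤ} {N : ℕ}
    {U : Submodule ℂ (MvPolynomial (Fin 4) K)} (hU : U ≤ T.sec q D₀ N) :
    (finrank ℂ U : ℝ) = ∑ j ∈ Icc (-((5 * q * N : ℕ) : ℤ)) ((5 * q * N : ℕ) : ℤ),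
      ∑ a ∈ range (AA q N j + 1), ∑ b ∈ range (BB q N j + 1),
        (finrank ℂ (ini m U (expo q N j a b)) : ℝ) := by
  rw [← sum_Eset q N (fun e => (finrank ℂ (ini m U e) : ℝ))]
  have := T.finite_sec P₀ q D₀ N
  have hfin : FiniteDimensional ℂ U := Submodule.finiteDimensional_of_le hU
  rw [finrank_eq_sum_ini m (Eset q N) U hfin (fun f hf e he => T.mem_Eset_of_coeff (hU hf) he)]
  push_cast
  rfl

theorem dvs_mul (r q : ℕ) (D₀ : T.X.Pt →₀ ℤ) (N : ℕ) (j : ℤ) :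
    T.dvs (r * q) (r • D₀) N j = T.dvs q D₀ (r * N) j := by
  unfold dvs
  have e1 : N • r • D₀ = (r * N) • D₀ := by rw [smul_smul, mul_comm]
  have e2 : 4 * ((r * q : ℕ) : ℤ) * N = 4 * (q : ℤ) * ((r * N : ℕ) : ℤ) := by push_cast; ring
  rw [e1, e2]

theorem sec_mul (r q : ℕ) (D₀ : T.X.Pt →₀ ℤ) (N : ℕ) :
    T.sec (r * q) (r • D₀) N = T.sec q D₀ (r * N) := by
  have e5 : 5 * ((r * q : ℕ) : ℤ) * N = 5 * (q : ℤ) * ((r * N : ℕ) : ℤ) := by push_cast; ring
  have e25 : 25 * ((r * q : ℕ) : ℤ) * N = 25 * (q : ℤ) * ((r * N : ℕ) : ℤ) := by push_cast; ring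
  ext f
  show (∀ e, _) ↔ (∀ e, _)
  rw [e5, e25]
  unfold V
  simp only [T.dvs_mul r q D₀ N]

end Datum

end Pool.Agent.YTD
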