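import Pool.Agent.YTD.LinW

/-!
Filtrations all of whose initial spaces are described by one affine weight, up to `O(N^3)`.
-/

namespace Pool.Agent.YTD

open Finset Module MvPolynomial

variable {K : Type} [Field K] [Algebra ℂ K]
variable {T : Datum K} {q : ℕ} {D₀ : T.X.Pt →₀ ℤ} {r : ℕ}

namespace Filt

/-- The initial spaces of `χ` for the monomial order `m` vanish above the affine weight with
coefficients `al, be, ga, de`, and are almost everything below it. -/
structure Rigid (χ : Filt T q D₀ r) (m : MonomialOrder (Fin 4)) (al be ga de : ℤ) : Prop where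
  upper : ∀ N : ℕ, 4 ≤ N → ∀ (l : ℤ) (j : ℤ) (a b : ℕ), InR (r * q) N j a b →
    ini m (χ.F N l) (expo (r * q) N j a b) ≠ ⊥ → l ≤ lw al be ga de N j a b
  full : ∃ C : ℝ, ∀ N : ℕ, 4 ≤ N →
    ∑ j ∈ Icc (-((5 * (r * q) * N : ℕ) : ℤ)) ((5 * (r * q) * N : ℕ) : ℤ),
      ∑ a ∈ range (AA (r * q) N j + 1), ∑ b ∈ range (BB (r * q) N j + 1),
        ∑ l ∈ Ioc (-((χ.lam : ℤ) * N)) (lw al be ga de N j a b),
          ((finrank ℂ (T.V (r * q) (r • D₀) N j) : ℝ) -
            finrank ℂ (ini m (χ.F N l) (expo (r * q) N j a b))) ≤ C * (N : ℝ) ^ 3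

end Filt

end Pool.Agent.YTD
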