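import Pool.Agent.YTD.UnstFilt

/-!
Exact dimension and trace polynomials, and the Futaki invariant of the filtrations `filtU`.
-/

namespace Pool.Agent.YTD

open Finset Module MvPolynomial Filter

/-- coefficient. -/
noncomputable def ca0 (q t : ℕ) (e : ℝ) : ℝ :=
  ((-42850) * q ^ 4 * t + (5500) * q ^ 3 * e)

/-- coefficient. -/
noncomputable def ca1 (q t : ℕ) (e : ℝ) : ℝ :=
  ((-94500) * q ^ 3 * t + (900) * q ^ 2 * e)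

/-- coefficient. -/
noncomputable def cb0 (q u t : ℕ) (e : ℝ) : ℝ :=
  ((598520 / 3) * q ^ 5 * t + (-42850) * q ^ 4 * u * t + (-25625 / 2) * q ^ 4 * e + (5500) * q ^ 3 * u * e + (-625) * q ^ 2 * u ^ 2 * e + (3 / 2) * u ^ 4 * e)

/-- coefficient. -/
noncomputable def cb1 (q u t : ℕ) (e : ℝ) : ℝ :=
  ((2031875 / 6) * q ^ 4 * t + (-94500) * q ^ 3 * u * t + (-3250) * q ^ 3 * e + (5625) * q ^ 2 * u ^ 2 * t + (900) * q ^ 2 * u * e + (-50) * q * u ^ 2 * e + (-27 / 2) * u ^ 4 * t)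

/-- coefficient. -/
noncomputable def cc0 (q u t : ℕ) (e : ℝ) : ℝ :=
  ((-2793970 / 3) * q ^ 6 * t + (1197040 / 3) * q ^ 5 * u * t + (122500 / 3) * q ^ 5 * e + (-42850) * q ^ 4 * u ^ 2 * t + (-25625) * q ^ 4 * u * e + (5500) * q ^ 3 * u ^ 2 * e + (-1250 / 3) * q ^ 2 * u ^ 3 * e + (3 / 5) * u ^ 5 * e)

theorem abs_pow_le (c x : ℝ) (hx : 1 ≤ x) {k m : ℕ} (h : k ≤ m) :
    |c * x ^ k| ≤ |c| * x ^ m := by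
  rw [abs_mul, abs_of_nonneg (by positivity : (0 : ℝ) ≤ x ^ k)]
  exact mul_le_mul_of_nonneg_left (pow_le_pow_right₀ hx h) (abs_nonneg _)

theorem abs_poly_le (c0 c1 c2 c3 c4 c5 x : ℝ) (hx : 1 ≤ x) {m : ℕ} (hm : 5 ≤ m) :
    |c5 * x ^ 5 + c4 * x ^ 4 + c3 * x ^ 3 + c2 * x ^ 2 + c1 * x ^ 1 + c0 * x ^ 0| ≤
      (|c5| + |c4| + |c3| + |c2| + |c1| + |c0|) * x ^ m := by
  have h0 := abs_pow_le c0 x hx (show 0 ≤ m by omega)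
  have h1 := abs_pow_le c1 x hx (show 1 ≤ m by omega)
  have h2 := abs_pow_le c2 x hx (show 2 ≤ m by omega)
  have h3 := abs_pow_le c3 x hx (show 3 ≤ m by omega)
  have h4 := abs_pow_le c4 x hx (show 4 ≤ m by omega)
  have h5 := abs_pow_le c5 x hx (show 5 ≤ m by omega)
  calc |c5 * x ^ 5 + c4 * x ^ 4 + c3 * x ^ 3 + c2 * x ^ 2 + c1 * x ^ 1 + c0 * x ^ 0| ≤
        |c5 * x ^ 5| + |c4 * x ^ 4| + |c3 * x ^ 3| + |c2 * x ^ 2| + |c1 * x ^ 1| + |c0 * x ^ 0| := by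
        refine (abs_add_le _ _).trans ?_
        gcongr
        refine (abs_add_le _ _).trans ?_
        gcongr
        refine (abs_add_le _ _).trans ?_
        gcongr
        refine (abs_add_le _ _).trans ?_
        gcongr
        exact abs_add_le _ _
    _ ≤ _ := by linarith

theorem abs_poly3_le (c0 c1 c2 c3 x : ℝ) (hx : 1 ≤ x) :
    |c3 * x ^ 3 + c2 * x ^ 2 + c1 * x ^ 1 + c0 * x ^ 0| ≤
      (|c3| + |c2| + |c1| + |c0|) * x ^ 3 := by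
  have h0 := abs_pow_le c0 x hx (show 0 ≤ 3 by omega)
  have h1 := abs_pow_le c1 x hx (show 1 ≤ 3 by omega)
  have h2 := abs_pow_le c2 x hx (show 2 ≤ 3 by omega)
  have h3 := abs_pow_le c3 x hx (show 3 ≤ 3 by omega)
  calc |c3 * x ^ 3 + c2 * x ^ 2 + c1 * x ^ 1 + c0 * x ^ 0| ≤
        |c3 * x ^ 3| + |c2 * x ^ 2| + |c1 * x ^ 1| + |c0 * x ^ 0| := by
        refine (abs_add_le _ _).trans ?_
        gcongr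
        refine (abs_add_le _ _).trans ?_
        gcongr
        exact abs_add_le _ _
    _ ≤ _ := by linarith

theorem abs_poly2_le (c0 c1 c2 x : ℝ) (hx : 1 ≤ x) :
    |c2 * x ^ 2 + c1 * x ^ 1 + c0 * x ^ 0| ≤ (|c2| + |c1| + |c0|) * x ^ 2 := by
  have h0 := abs_pow_le c0 x hx (show 0 ≤ 2 by omega)
  have h1 := abs_pow_le c1 x hx (show 1 ≤ 2 by omega)
  have h2 := abs_pow_le c2 x hx (show 2 ≤ 2 by omega)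
  calc |c2 * x ^ 2 + c1 * x ^ 1 + c0 * x ^ 0| ≤
        |c2 * x ^ 2| + |c1 * x ^ 1| + |c0 * x ^ 0| := by
        refine (abs_add_le _ _).trans ?_
        gcongr
        exact abs_add_le _ _
    _ ≤ _ := by linarith

theorem eb2 {f g : ℕ → ℝ} {c0 c1 c2 : ℝ} {N0 : ℕ}
    (h : ∀ N : ℕ, N0 ≤ N → f N = g N + (c2 * N ^ 2 + c1 * N ^ 1 + c0 * N ^ 0)) :
    ∃ C : ℝ, ∀ᶠ N : ℕ in atTop, |f N - g N| ≤ C * N ^ 2 := by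
  refine ⟨|c2| + |c1| + |c0|, ?_⟩
  filter_upwards [eventually_ge_atTop N0, eventually_ge_atTop 1] with N hN hN1
  rw [h N hN, add_sub_cancel_left]
  exact abs_poly2_le _ _ _ _ (by exact_mod_cast hN1)

theorem eb3 {f g : ℕ → ℝ} {c0 c1 c2 c3 : ℝ} {N0 : ℕ}
    (h : ∀ N : ℕ, N0 ≤ N → f N = g N + (c3 * N ^ 3 + c2 * N ^ 2 + c1 * N ^ 1 + c0 * N ^ 0)) :
    ∃ C : ℝ, ∀ᶠ N : ℕ in atTop, |f N - g N| ≤ C * N ^ 3 := by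
  refine ⟨|c3| + |c2| + |c1| + |c0|, ?_⟩
  filter_upwards [eventually_ge_atTop N0, eventually_ge_atTop 1] with N hN hN1
  rw [h N hN, add_sub_cancel_left]
  exact abs_poly3_le _ _ _ _ _ (by exact_mod_cast hN1)

theorem eb5 {f g : ℕ → ℝ} {c0 c1 c2 c3 c4 c5 : ℝ} {N0 : ℕ}
    (h : ∀ N : ℕ, N0 ≤ N → f N = g N + (c5 * N ^ 5 + c4 * N ^ 4 + c3 * N ^ 3 + c2 * N ^ 2 +
      c1 * N ^ 1 + c0 * N ^ 0)) :
    ∃ C : ℝ, ∀ᶠ N : ℕ in atTop, |f N - g N| ≤ C * N ^ 5 := by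
  refine ⟨|c5| + |c4| + |c3| + |c2| + |c1| + |c0|, ?_⟩
  filter_upwards [eventually_ge_atTop N0, eventually_ge_atTop 1] with N hN hN1
  rw [h N hN, add_sub_cancel_left]
  exact abs_poly_le _ _ _ _ _ _ _ (by exact_mod_cast hN1) le_rfl

variable {K : Type} [Field K] [Algebra ℂ K] (T : Datum K)

section

variable {T}
variable {q : ℕ} {D₀ : T.X.Pt →₀ ℤ} {N : ℕ}

theorem mem_Icc_abs {q N : ℕ} {j : ℤ}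
    (hj : j ∈ Icc (-((5 * q * N : ℕ) : ℤ)) ((5 * q * N : ℕ) : ℤ)) : |j| ≤ 5 * q * N := by
  rw [mem_Icc] at hj
  rw [abs_le]
  exact_mod_cast hj

/-- The dimension of `sec N`. -/
theorem finrank_sec (hN : 18 * (T.t : ℤ) + 1 ≤ (T.X.deg D₀ - 100 * T.t * q) * N) :
    (finrank ℂ (T.sec q D₀ N) : ℝ) = ca0 q T.t (T.X.deg D₀ : ℤ) * N ^ 4 +
      ca1 q T.t (T.X.deg D₀ : ℤ) * N ^ 3 +
      (((-10350) * (q : ℝ) ^ 2 * (T.t : ℝ) + (45) * (q : ℝ) * ((T.X.deg D₀ : ℤ) : ℝ)) * N ^ 2 + ((-505) * (q : ℝ) * (T.t : ℝ) + (1) * ((T.X.deg D₀ : ℤ) : ℝ)) * N ^ 1 + ((-9) * (T.t : ℝ)) * N ^ 0) := by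
  rw [sec_eq_bigr, finrank_bigr _ _ _ (T.finite_V q D₀ N)]
  have h : ∑ j ∈ Icc (-((5 * q * N : ℕ) : ℤ)) ((5 * q * N : ℕ) : ℤ),
        (25 * (q : ℝ) * N + 3 * j + 1) * (25 * (q : ℝ) * N - 3 * j + 1) *
          (finrank ℂ (T.V q D₀ N j) : ℝ) =
      ∑ j ∈ Icc (-((5 * q * N : ℕ) : ℤ)) ((5 * q * N : ℕ) : ℤ),
        mu q N j * dm q N T.t (T.X.deg D₀ : ℤ) j := by
    apply sum_congr rfl
    intro j hj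
    rw [finrank_V T hN (mem_Icc_abs hj)]
    rfl
  rw [h, sum_dim]
  unfold ca0 ca1
  ring

theorem tr_one_filtU (hN : 18 * (T.t : ℤ) + 1 ≤ (T.X.deg D₀ - 100 * T.t * q) * N) {u : ℕ}
    (hu : u ≤ 4 * q) :
    (filtU T q u D₀).tr 1 N = cb0 q u T.t (T.X.deg D₀ : ℤ) * N ^ 5 +
      cb1 q u T.t (T.X.deg D₀ : ℤ) * N ^ 4 +
      (((55150) * (q : ℝ) ^ 3 * (T.t : ℝ) + (-10350) * (q : ℝ) ^ 2 * (u : ℝ) * (T.t : ℝ) + (-325 / 2) * (q : ℝ) ^ 2 * ((T.X.deg D₀ : ℤ) : ℝ) + (450) * (q : ℝ) * (u : ℝ) ^ 2 * (T.t : ℝ) + (45) * (q : ℝ) * (u : ℝ) * ((T.X.deg D₀ : ℤ) : ℝ) + (-5 / 2) * (u : ℝ) ^ 2 * ((T.X.deg D₀ : ℤ) : ℝ)) * N ^ 3 + ((21775 / 6) * (q : ℝ) ^ 2 * (T.t : ℝ) + (-505) * (q : ℝ) * (u : ℝ) * (T.t : ℝ) + (-5) * (q : ℝ) * ((T.X.deg D₀ : ℤ) : ℝ) + (45 / 2) * (u : ℝ) ^ 2 * (T.t : ℝ) + (1) * (u : ℝ) * ((T.X.deg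 D₀ : ℤ) : ℝ)) * N ^ 2 + ((415 / 3) * (q : ℝ) * (T.t : ℝ) + (-9) * (u : ℝ) * (T.t : ℝ)) * N ^ 1 + 0 * N ^ 0) := by
  obtain ⟨v, hv⟩ : ∃ v, u + v = 5 * q := ⟨5 * q - u, by omega⟩
  have h := sum_tr_one q N T.t (T.X.deg D₀ : ℤ) hu hv
  rw [tr_filtU]
  have h' : ∑ j ∈ Icc (-((5 * q * N : ℕ) : ℤ)) ((5 * q * N : ℕ) : ℤ),
        mu q N j * (finrank ℂ (T.V q D₀ N j) : ℝ) * ww N u j ^ 1 =
      ∑ j ∈ Icc (-((5 * q * N : ℕ) : ℤ)) ((5 * q * N : ℕ) : ℤ),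
        mu q N j * dm q N T.t (T.X.deg D₀ : ℤ) j * ww N u j := by
    apply sum_congr rfl
    intro j hj
    rw [finrank_V T hN (mem_Icc_abs hj), pow_one]
  rw [h', h]
  unfold cb0 cb1
  ring

theorem tr_two_filtU (hN : 18 * (T.t : ℤ) + 1 ≤ (T.X.deg D₀ - 100 * T.t * q) * N) {u : ℕ}
    (hu : u ≤ 4 * q) :
    (filtU T q u D₀).tr 2 N = cc0 q u T.t (T.X.deg D₀ : ℤ) * N ^ 6 +
      (((-4430000 / 3) * (q : ℝ) ^ 5 * (T.t : ℝ) + (2031875 / 3) * (q : ℝ) ^ 4 * (u : ℝ) * (T.t : ℝ) + (42500 / 3) * (q : ℝ) ^ 4 * ((T.X.deg D₀ : ℤ) : ℝ) + (-94500) * (q : ℝ) ^ 3 * (u : ℝ) ^ 2 * (T.t : ℝ) + (-6500) * (q : ℝ) ^ 3 * (u : ℝ) * ((T.X.deg D₀ : ℤ) : ℝ) + (3750) * (q : ℝ) ^ 2 * (u : ℝ) ^ 3 * (T.t : ℝ) + (900) * (q : ℝ) ^ 2 * (u : ℝ) ^ 2 * ((T.X.deg D₀ : ℤ) : ℝ) + (-100 / 3) * (q : ℝ) * (u : ℝ) ^ 3 * ((T.X.deg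 D₀ : ℤ) : ℝ) + (-27 / 5) * (u : ℝ) ^ 5 * (T.t : ℝ)) * N ^ 5 + ((-322250) * (q : ℝ) ^ 4 * (T.t : ℝ) + (110300) * (q : ℝ) ^ 3 * (u : ℝ) * (T.t : ℝ) + (1625) * (q : ℝ) ^ 3 * ((T.X.deg D₀ : ℤ) : ℝ) + (-10350) * (q : ℝ) ^ 2 * (u : ℝ) ^ 2 * (T.t : ℝ) + (-1600 / 3) * (q : ℝ) ^ 2 * (u : ℝ) * ((T.X.deg D₀ : ℤ) : ℝ) + (300) * (q : ℝ) * (u : ℝ) ^ 3 * (T.t : ℝ) + (45) * (q : ℝ) * (u : ℝ) ^ 2 * ((T.X.deg D₀ : ℤ) : ℝ) + (-2 / 3) * (u : ℝ) ^ 3 * ((T.X.deg D₀ : ℤ) : ℝ)) * N ^ 4 + ((-98875 / 3) * (q : ℝ) ^ 3 * (T.t : ℝ) + (27400 / 3) * (q : ℝ) ^ 2 * (u : ℝ) * (T.t : ℝ) + (325 / 3) * (q : ℝ) ^ 2 * ((T.X.deg D₀ : ℤ) : ℝ) + (-505) * (q : ℝ) * (u : ℝ) ^ 2 * (T.t : ℝ) + (-80 / 3) * (q : ℝ) * (u : ℝ) * ((T.X.deg D₀ : ℤ) : ℝ) + (6) * (u : ℝ) ^ 3 * (T.t : ℝ) + (1) * (u : ℝ) ^ 2 * ((T.X.deg D₀ : ℤ) : ℝ)) * N ^ 3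 + ((-7205 / 3) * (q : ℝ) ^ 2 * (T.t : ℝ) + (1280 / 3) * (q : ℝ) * (u : ℝ) * (T.t : ℝ) + (14 / 3) * (q : ℝ) * ((T.X.deg D₀ : ℤ) : ℝ) + (-9) * (u : ℝ) ^ 2 * (T.t : ℝ) + (-14 / 15) * (u : ℝ) * ((T.X.deg D₀ : ℤ) : ℝ)) * N ^ 2 + ((-42) * (q : ℝ) * (T.t : ℝ) + (42 / 5) * (u : ℝ) * (T.t : ℝ)) * N ^ 1 + 0 * N ^ 0) := by
  obtain ⟨v, hv⟩ : ∃ v, u + v = 5 * q := ⟨5 * q - u, by omega⟩
  have h := sum_tr_two q N T.t (T.X.deg D₀ : ℤ) hu hv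
  rw [tr_filtU]
  have h' : ∑ j ∈ Icc (-((5 * q * N : ℕ) : ℤ)) ((5 * q * N : ℕ) : ℤ),
        mu q N j * (finrank ℂ (T.V q D₀ N j) : ℝ) * ww N u j ^ 2 =
      ∑ j ∈ Icc (-((5 * q * N : ℕ) : ℤ)) ((5 * q * N : ℕ) : ℤ),
        mu q N j * dm q N T.t (T.X.deg D₀ : ℤ) j * ww N u j ^ 2 := by
    apply sum_congr rfl
    intro j hj
    rw [finrank_V T hN (mem_Icc_abs hj)]
  rw [h', h]
  unfold cc0
  ring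

theorem large_of_lt (hD : 100 * (T.t : ℤ) * q < T.X.deg D₀) (hN : 18 * T.t + 1 ≤ N) :
    18 * (T.t : ℤ) + 1 ≤ (T.X.deg D₀ - 100 * T.t * q) * N := by
  have h1 : (1 : ℤ) ≤ T.X.deg D₀ - 100 * T.t * q := by linarith
  have h2 : (18 * (T.t : ℤ) + 1) ≤ N := by exact_mod_cast hN
  nlinarith

end

/-- The asymptotic expansions of `filtU`. -/
theorem expansion_filtU {q : ℕ} {D₀ : T.X.Pt →₀ ℤ} (hD : 100 * (T.t : ℤ) * q < T.X.deg D₀)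
    {u : ℕ} (hu : u ≤ 4 * q) :
    (filtU T q u D₀).Expansion (ca0 q T.t (T.X.deg D₀ : ℤ)) (ca1 q T.t (T.X.deg D₀ : ℤ))
      (cb0 q u T.t (T.X.deg D₀ : ℤ)) (cb1 q u T.t (T.X.deg D₀ : ℤ))
      (cc0 q u T.t (T.X.deg D₀ : ℤ)) := by
  refine ⟨?_, ?_, ?_⟩
  · have e : ∀ N : ℕ, (filtU T q u D₀).dimN N = (finrank ℂ (T.sec q D₀ N) : ℝ) := by
      intro N
      unfold Filt.dimN
      rw [one_mul]
    simp only [e]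
    exact eb2 (N0 := 18 * T.t + 1) fun N hN => finrank_sec (large_of_lt hD hN)
  · exact eb3 (N0 := 18 * T.t + 1) fun N hN => tr_one_filtU (large_of_lt hD hN) hu
  · exact eb5 (N0 := 18 * T.t + 1) fun N hN => tr_two_filtU (large_of_lt hD hN) hu

end Pool.Agent.YTD
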