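import Pool.Agent.YTD.Twist
import Pool.Agent.YTD.UnstFut
import Pool.Agent.YTD.RigidDef

/-!
From the rigidity theorem for graded filtrations to rigidity of filtrations, for all monomial
orders and all automorphisms of the section ring.
-/

namespace Pool.Agent.YTD

open Finset Module MvPolynomial Filter

/-- uniqueness of the coefficients of an asymptotic expansion. -/
theorem coeff_unique {p : ℕ → ℝ} {x y x' y' : ℝ} {k : ℕ}
    (h : ∃ C : ℝ, ∀ᶠ N : ℕ in atTop, |p N - (x * N ^ (k + 2) + y * N ^ (k + 1))| ≤ C * N ^ k)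
    (h' : ∃ C : ℝ, ∀ᶠ N : ℕ in atTop, |p N - (x' * N ^ (k + 2) + y' * N ^ (k + 1))| ≤ C * N ^ k) :
    x = x' ∧ y = y' := by
  obtain ⟨C, hC⟩ := h
  obtain ⟨C', hC'⟩ := h'
  have h1 : ∀ᶠ N : ℕ in atTop, |(x - x') * N + (y - y')| ≤ (C + C') * (1 / N) := by
    filter_upwards [hC, hC', eventually_ge_atTop 1] with N g1 g2 hN
    have hN' : (0 : ℝ) < N := by exact_mod_cast hN
    have g3 : |((x - x') * N + (y - y')) * N ^ (k + 1)| ≤ (C + C') * N ^ k := by
      have e : ((x - x') * N + (y - y')) * N ^ (k + 1) =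
          (p N - (x' * N ^ (k + 2) + y' * N ^ (k + 1))) -
            (p N - (x * N ^ (k + 2) + y * N ^ (k + 1))) := by ring
      rw [e, add_mul]
      refine (abs_sub _ _).trans ?_
      linarith
    rw [abs_mul, abs_of_pos (show (0 : ℝ) < (N : ℝ) ^ (k + 1) by positivity)] at g3
    have e2 : (C + C') * (N : ℝ) ^ k = ((C + C') * (1 / N)) * N ^ (k + 1) := by
      rw [pow_succ]
      field_simp
    rw [e2] at g3
    exact le_of_mul_le_mul_right g3 (by positivity)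
  have h2 : Tendsto (fun N : ℕ => (x - x') * (N : ℝ) + (y - y')) atTop (nhds 0) := by
    apply squeeze_zero_norm' h1
    have := tendsto_one_div_atTop_nhds_zero_nat (𝕜 := ℝ)
    simpa using this.const_mul (C + C')
  have h3 : Tendsto (fun N : ℕ => (x - x') * ((N + 1 : ℕ) : ℝ) + (y - y')) atTop (nhds 0) :=
    (tendsto_add_atTop_iff_nat 1).2 h2
  have h4 := h3.sub h2
  have h5 : (fun N : ℕ => (x - x') * ((N + 1 : ℕ) : ℝ) + (y - y') -
      ((x - x') * (N : ℝ) + (y - y'))) = fun _ => x - x' := by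
    funext N
    push_cast
    ring
  rw [h5, sub_zero] at h4
  have hx : x - x' = 0 := tendsto_nhds_unique tendsto_const_nhds h4
  rw [hx] at h2
  have h6 : (fun N : ℕ => (0 : ℝ) * (N : ℝ) + (y - y')) = fun _ => y - y' := by
    funext N
    ring
  rw [h6] at h2
  have hy : y - y' = 0 := tendsto_nhds_unique tendsto_const_nhds h2
  exact ⟨sub_eq_zero.1 hx, sub_eq_zero.1 hy⟩

variable {K : Type} [Field K] [Algebra ℂ K]
variable {T : Datum K} {q : ℕ} {D₀ : T.X.Pt →₀ ℤ} {r : ℕ}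

/-- The coefficients `a₀, a₁` at the critical slope. -/
theorem Filt.a_eq (hq : 0 < q) (hr : 0 < r) (hD : T.X.deg D₀ = 105 * T.t * q)
    (χ : Filt T q D₀ r) {a₀ a₁ b₀ b₁ c₀ : ℝ} (h : χ.Expansion a₀ a₁ b₀ b₁ c₀) :
    a₀ = 534650 * T.t * ((r * q : ℕ) : ℝ) ^ 4 ∧ a₁ = 0 := by
  have h1 : ∃ C : ℝ, ∀ᶠ N : ℕ in atTop,
      |χ.dimN N - ((534650 * T.t * ((r * q : ℕ) : ℝ) ^ 4) * N ^ (2 + 2) + 0 * N ^ (2 + 1))| ≤
        C * N ^ 2 := by
    refine ⟨|(-10350) * (q : ℝ) ^ 2 * T.t + 45 * q * (105 * T.t * q)| * r ^ 2 +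
      |(-505) * (q : ℝ) * T.t + 1 * (105 * T.t * q)| * r + |(-9) * (T.t : ℝ)|, ?_⟩
    filter_upwards [eventually_ge_atTop (18 * T.t + 1)] with N hN
    have hN1 : (1 : ℝ) ≤ N := by
      have : 1 ≤ N := by omega
      exact_mod_cast this
    have ht := T.t_pos
    have h2 : 18 * (T.t : ℤ) + 1 ≤ (T.X.deg D₀ - 100 * T.t * q) * ((r * N : ℕ) : ℤ) := by
      rw [hD]
      push_cast
      have e1 : (105 * (T.t : ℤ) * q - 100 * T.t * q) * (r * N) = (5 * (T.t * q) * r) * N := by ring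
      rw [e1]
      have g1 : (1 : ℤ) ≤ T.t := by exact_mod_cast ht
      have g2 : (1 : ℤ) ≤ q := by exact_mod_cast hq
      have g3 : (1 : ℤ) ≤ r := by exact_mod_cast hr
      have g4 : (18 * (T.t : ℤ) + 1) ≤ N := by exact_mod_cast hN
      have g5 : (1 : ℤ) ≤ T.t * q := by nlinarith
      have g6 : (1 : ℤ) ≤ 5 * (T.t * q) * r := by nlinarith
      nlinarith
    have h3 := finrank_sec (q := q) (D₀ := D₀) (N := r * N) h2
    have h4 : χ.dimN N = (finrank ℂ (T.sec q D₀ (r * N)) : ℝ) := rfl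
    have e : ((T.X.deg D₀ : ℤ) : ℝ) = 105 * T.t * q := by
      rw [hD]
      push_cast
      ring
    rw [h4, h3, e]
    unfold ca0 ca1
    have e2 : ((-42850) * (q : ℝ) ^ 4 * T.t + 5500 * q ^ 3 * (105 * T.t * q)) *
        ((r * N : ℕ) : ℝ) ^ 4 + ((-94500) * (q : ℝ) ^ 3 * T.t + 900 * q ^ 2 * (105 * T.t * q)) *
        ((r * N : ℕ) : ℝ) ^ 3 +
        (((-10350) * (q : ℝ) ^ 2 * T.t + 45 * q * (105 * T.t * q)) * ((r * N : ℕ) : ℝ) ^ 2 +
        ((-505) * (q : ℝ) * T.t + 1 * (105 * T.t * q)) * ((r * N : ℕ) : ℝ) ^ 1 +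
        ((-9) * (T.t : ℝ)) * ((r * N : ℕ) : ℝ) ^ 0) -
        ((534650 * T.t * ((r * q : ℕ) : ℝ) ^ 4) * N ^ (2 + 2) + 0 * N ^ (2 + 1)) =
        ((-10350) * (q : ℝ) ^ 2 * T.t + 45 * q * (105 * T.t * q)) * (r ^ 2 * N ^ 2) +
        ((-505) * (q : ℝ) * T.t + 1 * (105 * T.t * q)) * (r * N) + (-9) * (T.t : ℝ) := by
      push_cast
      ring
    rw [e2]
    refine (abs_add_three _ _ _).trans ?_
    rw [abs_mul _ ((r : ℝ) ^ 2 * (N : ℝ) ^ 2), abs_mul _ ((r : ℝ) * (N : ℝ)),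
      abs_of_nonneg (show (0 : ℝ) ≤ (r : ℝ) ^ 2 * (N : ℝ) ^ 2 by positivity),
      abs_of_nonneg (show (0 : ℝ) ≤ (r : ℝ) * (N : ℝ) by positivity), add_mul, add_mul]
    have g1 : (N : ℝ) ≤ N ^ 2 := by nlinarith
    have g2 : (1 : ℝ) ≤ N ^ 2 := by nlinarith
    have g3 : |(-505) * (q : ℝ) * T.t + 1 * (105 * T.t * q)| * (r * N) ≤
        |(-505) * (q : ℝ) * T.t + 1 * (105 * T.t * q)| * r * N ^ 2 := by
      rw [mul_assoc |(-505) * (q : ℝ) * T.t + 1 * (105 * T.t * q)|]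
      exact mul_le_mul_of_nonneg_left (mul_le_mul_of_nonneg_left g1 (by positivity)) (abs_nonneg _)
    have g4 : |(-9) * (T.t : ℝ)| ≤ |(-9) * (T.t : ℝ)| * N ^ 2 :=
      le_mul_of_one_le_right (abs_nonneg _) g2
    rw [mul_assoc (|(-10350) * (q : ℝ) ^ 2 * T.t + 45 * q * (105 * T.t * q)|)]
    linarith
  exact coeff_unique h.1 h1

/-- The conclusion of the rigidity theorem for graded filtrations. -/
def Graded.RigidG (G : Graded T q D₀) (al be ga de : ℤ) : Prop :=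
  (∀ N ≥ 4, ∀ (l : ℕ) (j : ℤ) (a b : ℕ), InR q N j a b → G.W N l j a b ≠ ⊥ →
    (l : ℤ) ≤ al * a + be * b + ga * j + de * N) ∧
  ∃ C : ℝ, ∀ N ≥ 4, ∑ j ∈ Icc (-((5 * q * N : ℕ) : ℤ)) ((5 * q * N : ℕ) : ℤ),
    ∑ a ∈ range (AA q N j + 1), ∑ b ∈ range (BB q N j + 1),
      ∑ l ∈ Ioc 0 (al * a + be * b + ga * j + de * N),
        ((finrank ℂ (T.V q D₀ N j) : ℝ) - finrank ℂ (G.W N l.toNat j a b)) ≤ C * (N : ℝ) ^ 3

/-- From rigidity of the graded filtration to rigidity of the filtration. -/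
theorem Filt.Rigid.of_graded {χ : Filt T q D₀ r} {m : MonomialOrder (Fin 4)} {al be ga de : ℤ}
    (h : (χ.gradedM m).RigidG al be ga de) : χ.Rigid m al be ga (de - χ.lam) := by
  obtain ⟨h1, C, h2⟩ := h
  refine ⟨?_, C, ?_⟩
  · intro N hN l j a b hin hne
    by_cases hl : -((χ.lam : ℤ) * N) ≤ l
    · have e : (((l + χ.lam * N).toNat : ℕ) : ℤ) = l + χ.lam * N :=
        Int.toNat_of_nonneg (by linarith)
      have h3 := h1 N hN (l + χ.lam * N).toNat j a b hin (by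
        rw [χ.gradedM_W m, e, add_sub_cancel_right]
        exact hne)
      rw [e] at h3
      unfold lw
      linarith
    · have h3 := h1 N hN 0 j a b hin (by
        rw [χ.gradedM_W m]
        have e0 : ((0 : ℕ) : ℤ) - χ.lam * N = -(χ.lam * N) := by simp
        rw [e0, (χ.lam_spec N).1]
        rw [χ.F_of_le (by linarith)] at hne
        exact hne)
      unfold lw
      push_cast at h3
      push Not at hl
      linarith
  · intro N hN
    refine le_trans (le_of_eq ?_) (h2 N hN)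
    refine sum_congr rfl fun j _ => sum_congr rfl fun a _ => sum_congr rfl fun b _ => ?_
    have e1 : Ioc (0 : ℤ) (al * a + be * b + ga * j + de * N) =
        (Ioc (-((χ.lam : ℤ) * N)) (lw al be ga (de - χ.lam) N j a b)).map
          (addRightEmbedding ((χ.lam : ℤ) * N)) := by
      ext x
      simp only [Finset.mem_map, mem_Ioc, addRightEmbedding_apply]
      unfold lw
      constructor
      · intro hx
        exact ⟨x - χ.lam * N, ⟨by linarith [hx.1], by linarith [hx.2]⟩, by ring⟩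
      · rintro ⟨y, hy, rfl⟩
        exact ⟨by linarith [hy.1], by linarith [hy.2]⟩
    rw [e1, sum_map]
    apply sum_congr rfl
    intro l hl
    rw [mem_Ioc] at hl
    have e : (((l + χ.lam * N).toNat : ℕ) : ℤ) = l + χ.lam * N :=
      Int.toNat_of_nonneg (by linarith [hl.1])
    rw [addRightEmbedding_apply, χ.gradedM_W m, e, add_sub_cancel_right]

/-- The rigidity theorem for graded filtrations, as a statement about `T`. -/
def ThmA (T : Datum K) : Prop := ∀ (q : ℕ) (D₀ : T.X.Pt →₀ ℤ) (G : Graded T q D₀), 0 < q →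
  T.X.deg D₀ = 105 * T.t * q → ∀ s₀ : ℝ, G.TotExp s₀ 0 → ∃ al be ga de : ℤ, G.RigidG al be ga de

/-- Rigidity of filtrations with vanishing Futaki invariant, for all monomial orders and all
automorphisms preserving the section ring. -/
theorem Filt.rigid_all (hA : ThmA T) (hq : 0 < q) (hr : 0 < r) (hD : T.X.deg D₀ = 105 * T.t * q)
    (χ : Filt T q D₀ r) {a₀ a₁ b₀ c₀ : ℝ} (h : χ.Expansion a₀ a₁ b₀ 0 c₀)
    (E : Autom K) (hE : Pres T q D₀ E) (m : MonomialOrder (Fin 4)) :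
    ∃ al be ga de : ℤ, (χ.tw E hE).Rigid m al be ga de := by
  obtain ⟨P₀, _⟩ : T.S.Nonempty := by
    rw [← Finset.card_pos, T.card_S]
    have := T.t_pos
    omega
  have h1 := (χ.a_eq hq hr hD h).2
  have h2 := (χ.tw E hE).totExp_M m P₀ ((χ.expansion_tw E hE).2 h)
  rw [h1, mul_zero, add_zero] at h2
  obtain ⟨al, be, ga, de, h3⟩ := hA (r * q) (r • D₀) ((χ.tw E hE).gradedM m) (Nat.mul_pos hr hq)
    (by rw [T.X.deg_nsmul, hD]; push_cast; ring) _ h2
  exact ⟨al, be, ga, _, Filt.Rigid.of_graded h3⟩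

end Pool.Agent.YTD
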