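import Pool.Agent.YTD.AvgPsi
import Pool.Agent.YTD.RigidCor

/-!
Upper bound of the lengths by an affine function, from the shape of the envelope.
-/

namespace Pool.Agent.YTD

open Finset Module Filter

theorem int3_add {Q k : ℕ} {j a b j' a' b' : ℤ} (h : P3 Q k j a b) (h' : Int3 Q k j' a' b') :
    Int3 Q (k + 1) (j + j') (a + a') (b + b') := by
  obtain ⟨h1, h2, h3, h4, h5⟩ := h
  obtain ⟨h1', h2', h3', h4', h5'⟩ := h'
  have e1 : 5 * (Q : ℤ) * 2 ^ (k + 1) = 5 * Q * 2 ^ k + 5 * Q * 2 ^ k := by rw [pow_succ]; ring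
  have e2 : 25 * (Q : ℤ) * 2 ^ (k + 1) = 25 * Q * 2 ^ k + 25 * Q * 2 ^ k := by rw [pow_succ]; ring
  refine ⟨?_, by linarith, by rw [e2]; linarith, by linarith, by rw [e2]; linarith⟩
  rw [e1]
  exact (abs_add_le _ _).trans_lt (add_lt_add_of_le_of_lt h1 h1')

theorem Fam3.m_le_lin {Q : ℕ} (hQ : 0 < Q) (F : Fam3 Q) {al be ga δ : ℝ}
    (H : ∀ k j a b, Int3 Q k j a b → F.m k j a b = al * a + be * b + ga * j + δ * 2 ^ k)
    {k : ℕ} {j a b : ℤ} (h : P3 Q k j a b) :
    F.m k j a b ≤ al * a + be * b + ga * j + δ * 2 ^ k := by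
  have hp : (1 : ℤ) ≤ Q * 2 ^ k := by
    have p1 : (1 : ℤ) ≤ Q := by exact_mod_cast hQ
    have p2 : (1 : ℤ) ≤ 2 ^ k := by exact_mod_cast Nat.one_le_two_pow
    nlinarith
  have h0 : Int3 Q k 0 (5 * Q * 2 ^ k) (5 * Q * 2 ^ k) :=
    int3_small hQ (by rw [abs_zero]; linarith) (by linarith) (by linarith) (by linarith)
      (by linarith)
  have h1 := F.m_add h h0.toP3
  rw [H _ _ _ _ h0, H _ _ _ _ (int3_add h h0)] at h1
  rw [pow_succ] at h1
  push_cast at h1
  linarith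

variable {K : Type} [Field K] [Algebra ℂ K]
variable {T : Datum K} {q : ℕ} {D₀ : T.X.Pt →₀ ℤ}

namespace Graded

variable {G : Graded T q D₀}
variable (hD : T.X.deg D₀ = 105 * T.t * q)

include hD in
theorem nn_smul (hq : 0 < q) {N : ℕ} (hN : 4 ≤ N) {j : ℤ} {a b : ℕ} (h : InR q N j a b) {c : ℕ}
    (hc : 1 ≤ c) : c * G.nn N j a b ≤ G.nn (c * N) (c * j) (c * a) (c * b) := by
  induction c, hc using Nat.le_induction with
  | base => simp
  | succ c hc ih =>
    have h1 := nn_add (G := G) hD hq (N := c * N) (N' := N) (by nlinarith) hN (h.smul c) h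
    have e1 : (c + 1) * N = c * N + N := by ring
    have e2 : ((c + 1 : ℕ) : ℤ) * j = c * j + j := by push_cast; ring
    have e3 : (c + 1) * a = c * a + a := by ring
    have e4 : (c + 1) * b = c * b + b := by ring
    have e5 : (c + 1) * G.nn N j a b = c * G.nn N j a b + G.nn N j a b := by ring
    rw [e1, e2, e3, e4, e5]
    exact (Nat.add_le_add_right ih _).trans h1

theorem nn_le_lin (hq : 0 < q) {al be ga δ : ℝ}
    (H : ∀ k j a b, Int3 (4 * q) k j a b →
      (G.fam3 hD hq).m k j a b = al * a + be * b + ga * j + δ * 2 ^ k)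
    {N : ℕ} (hN : 4 ≤ N) {j : ℤ} {a b : ℕ} (h : InR q N j a b) :
    (G.nn N j a b : ℝ) ≤ al * a + be * b + ga * j + δ / 4 * N := by
  set y : ℝ := (G.nn N j a b : ℝ) - (al * a + be * b + ga * j + δ / 4 * N) with hy
  have hb : ∀ R : ℕ, ∃ c : ℕ, R < c ∧ (c : ℝ) * y ≤ |δ| / 4 * (N + 4) := by
    intro R
    obtain ⟨k, hk⟩ : ∃ k : ℕ, (R + 1) * N + 4 ≤ 2 ^ (k + 2) := by
      refine ⟨(R + 1) * N + 4, ?_⟩
      have := Nat.lt_two_pow_self (n := (R + 1) * N + 4 + 2)
      omega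
    obtain ⟨c, M, hcM, hM4, hMN, hRc⟩ : ∃ c M : ℕ, 2 ^ (k + 2) = c * N + M ∧ 4 ≤ M ∧ M ≤ N + 4 ∧
        R < c := by
      have hNpos : 0 < N := by omega
      have h4 : 4 ≤ 2 ^ (k + 2) := by omega
      refine ⟨(2 ^ (k + 2) - 4) / N, (2 ^ (k + 2) - 4) % N + 4, ?_, by omega, ?_, ?_⟩
      · have := Nat.div_add_mod' (2 ^ (k + 2) - 4) N
        omega
      · have := Nat.mod_lt (2 ^ (k + 2) - 4) hNpos
        omega
      · have : (R + 1) * N ≤ 2 ^ (k + 2) - 4 := by omega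
        exact (Nat.le_div_iff_mul_le hNpos).2 this
    refine ⟨c, hRc, ?_⟩
    have h1 := nn_smul (G := G) hD hq hN h (c := c) (by omega)
    have hz : InR q M 0 0 0 := by
      refine ⟨?_, ?_, ?_⟩
      · rw [abs_zero]
        positivity
      · push_cast
        positivity
      · push_cast
        rw [sub_zero]
        positivity
    have h2 := nn_add (G := G) hD hq (N := c * N) (N' := M) (by nlinarith) hM4 (h.smul c) hz
    rw [← hcM, add_zero, add_zero, add_zero] at h2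
    have h3 : c * G.nn N j a b ≤ G.nn (2 ^ (k + 2)) (c * j) (c * a) (c * b) := by omega
    have hin : InR q (2 ^ (k + 2)) (c * j) (c * a) (c * b) := by
      have := (h.smul c).add hz
      rw [← hcM, add_zero, add_zero, add_zero] at this
      exact this
    have hP := P3_of_InR hin
    have h4 := (G.fam3 hD hq).ν_le_m hP
    have h5 := (G.fam3 hD hq).m_le_lin (by positivity) H hP
    have h6 : (G.fam3 hD hq).ν k (c * j) ((c * a : ℕ) : ℤ) ((c * b : ℕ) : ℤ) =
        (G.nn (2 ^ (k + 2)) (c * j) (c * a) (c * b) : ℝ) := by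
      show (G.nn (2 ^ (k + 2)) (c * j) (((c * a : ℕ) : ℤ).toNat) (((c * b : ℕ) : ℤ).toNat) : ℝ) = _
      rw [Int.toNat_natCast, Int.toNat_natCast]
    rw [h6] at h4
    have h7 : ((c * G.nn N j a b : ℕ) : ℝ) ≤ (G.nn (2 ^ (k + 2)) (c * j) (c * a) (c * b) : ℝ) := by
      exact_mod_cast h3
    have h8 : (2 : ℝ) ^ k = ((c : ℝ) * N + M) / 4 := by
      have : ((2 ^ (k + 2) : ℕ) : ℝ) = c * N + M := by
        rw [hcM]
        push_cast
        ring
      rw [← this]
      push_cast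
      rw [pow_add]
      ring
    rw [h8] at h5
    have h45 := h4.trans h5
    push_cast at h45 h7
    have h9 : δ / 4 * M ≤ |δ| / 4 * (N + 4) := by
      have m1 : (M : ℝ) ≤ N + 4 := by exact_mod_cast hMN
      have m2 : (0 : ℝ) ≤ M := by positivity
      have m3 : δ ≤ |δ| := le_abs_self δ
      have m4 : 0 ≤ |δ| := abs_nonneg δ
      nlinarith
    rw [hy]
    linarith
  by_contra hcon
  push Not at hcon
  have hy0 : 0 < y := by linarith
  obtain ⟨R, hR⟩ := exists_nat_gt (|δ| / 4 * ((N : ℝ) + 4) / y)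
  obtain ⟨c, hc, hc'⟩ := hb R
  rw [div_lt_iff₀ hy0] at hR
  have : (R : ℝ) < c := by exact_mod_cast hc
  nlinarith

end Graded

end Pool.Agent.YTD
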