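import Pool.Agent.YTD.Fin1

/-!
The total dimension and the slope of the affine function.
-/

namespace Pool.Agent.YTD

open Finset Module Filter

theorem sum_odd_zero {M : ℕ} {f : ℤ → ℝ} (h : ∀ j ∈ Icc (-(M : ℤ)) M, f (-j) = - f j) :
    ∑ j ∈ Icc (-(M : ℤ)) M, f j = 0 := by
  have h1 : ∑ j ∈ Icc (-(M : ℤ)) M, f (-j) = ∑ j ∈ Icc (-(M : ℤ)) M, f j := by
    refine sum_nbij' (fun j => -j) (fun j => -j) ?_ ?_ ?_ ?_ ?_
    · intro j hj
      rw [mem_Icc] at hj ⊢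
      constructor <;> linarith [hj.1, hj.2]
    · intro j hj
      rw [mem_Icc] at hj ⊢
      constructor <;> linarith [hj.1, hj.2]
    · intro j _
      simp
    · intro j _
      simp
    · intro j _
      rfl
  rw [sum_congr rfl h, sum_neg_distrib] at h1
  linarith

theorem dg_neg_fin (t q N : ℕ) (j : ℤ) : dg t q N (-j) = dg t q N j := by
  unfold dg
  rw [neg_neg, add_comm (max 0 (-j - 4 * (q : ℤ) * N))]

theorem mult_neg (q N : ℕ) (j : ℤ) : mult q N (-j) = mult q N j := by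
  unfold mult
  push_cast
  ring

theorem le_zero_of_pow {y C : ℝ} (h : ∀ n : ℕ, ∃ N : ℕ, n ≤ N ∧ 0 < N ∧
    y * (N : ℝ) ^ 5 ≤ C * (N : ℝ) ^ 4) : y ≤ 0 := by
  by_contra hcon
  push Not at hcon
  obtain ⟨n, hn⟩ := exists_nat_gt (C / y)
  obtain ⟨N, hnN, hN0, hN⟩ := h n
  have p : (0 : ℝ) < (N : ℝ) ^ 4 := by
    have : (0 : ℝ) < N := by exact_mod_cast hN0
    positivity
  have h1 : (y * N) * (N : ℝ) ^ 4 ≤ C * (N : ℝ) ^ 4 := by
    refine le_trans (le_of_eq ?_) hN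
    ring
  have h2 := le_of_mul_le_mul_right h1 p
  rw [div_lt_iff₀ hcon] at hn
  have h3 : (n : ℝ) ≤ N := by exact_mod_cast hnN
  nlinarith

variable {K : Type} [Field K] [Algebra ℂ K]
variable {T : Datum K} {q : ℕ} {D₀ : T.X.Pt →₀ ℤ}

theorem finV (hD : T.X.deg D₀ = 105 * T.t * q) (hq : 0 < q) {N : ℕ} (hN : 4 ≤ N) {j : ℤ}
    (hj : |j| ≤ 5 * q * N) :
    (finrank ℂ (T.V q D₀ N j) : ℝ) = (dg T.t q N j : ℝ) - 9 * T.t := by
  have h1 := Graded.deg_ge hD hq hN hj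
  have h2 := T.X.riemann_roch (T.dvs q D₀ N j) (by linarith)
  rw [deg_dvs_crit T q D₀ hD, T.genus_eq] at h2
  have h3 : (finrank ℂ (T.V q D₀ N j) : ℤ) = dg T.t q N j - 9 * T.t := by
    unfold Datum.V
    rw [h2]
    push_cast
    ring
  exact_mod_cast h3

/-- the dimension of `sec N`. -/
noncomputable def dN (T : Datum K) (q : ℕ) (D₀ : T.X.Pt →₀ ℤ) (N : ℕ) : ℝ :=
  ∑ j ∈ Icc (-((5 * q * N : ℕ) : ℤ)) ((5 * q * N : ℕ) : ℤ),
    mult q N j * (finrank ℂ (T.V q D₀ N j) : ℝ)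

theorem dN_eq (hD : T.X.deg D₀ = 105 * T.t * q) (hq : 0 < q) {N : ℕ} (hN : 4 ≤ N) :
    dN T q D₀ N = 534650 * T.t * (q : ℝ) ^ 4 * N ^ 4 - 5625 * T.t * (q : ℝ) ^ 2 * N ^ 2 -
      400 * T.t * q * N - 9 * T.t := by
  have hcond : 18 * (T.t : ℤ) + 1 ≤ (T.X.deg D₀ - 100 * T.t * q) * N := by
    rw [hD]
    have g1 : (1 : ℤ) ≤ T.t := by exact_mod_cast T.t_pos
    have g2 : (1 : ℤ) ≤ q := by exact_mod_cast hq
    have g3 : (4 : ℤ) ≤ N := by exact_mod_cast hN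
    have g4 : (4 : ℤ) ≤ q * N := by nlinarith
    have e : (105 * (T.t : ℤ) * q - 100 * T.t * q) * N = 5 * T.t * (q * N) := by ring
    rw [e]
    nlinarith
  have h := finrank_sec (T := T) (q := q) (D₀ := D₀) (N := N) hcond
  rw [sec_eq_bigr, finrank_bigr _ _ _ (T.finite_V q D₀ N)] at h
  unfold dN mult
  rw [h, hD]
  unfold ca0 ca1
  push_cast
  ring

theorem sum_lin_dim (hD : T.X.deg D₀ = 105 * T.t * q) (hq : 0 < q) {N : ℕ} (hN : 4 ≤ N)
    (al be ga x : ℝ) : ∑ j ∈ Icc (-((5 * q * N : ℕ) : ℤ)) ((5 * q * N : ℕ) : ℤ),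
      ∑ a ∈ range (AA q N j + 1), ∑ b ∈ range (BB q N j + 1),
        (al * a + be * b + ga * j + x * N) * (finrank ℂ (T.V q D₀ N j) : ℝ) =
      (25 * q * (al + be) / 2 + x) * N * dN T q D₀ N := by
  have h1 : ∀ j ∈ Icc (-((5 * q * N : ℕ) : ℤ)) ((5 * q * N : ℕ) : ℤ),
      ∑ a ∈ range (AA q N j + 1), ∑ b ∈ range (BB q N j + 1),
        (al * a + be * b + ga * j + x * N) * (finrank ℂ (T.V q D₀ N j) : ℝ) =
      (25 * q * (al + be) / 2 + x) * N * (mult q N j * (finrank ℂ (T.V q D₀ N j) : ℝ)) +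
      (ga + 3 * (al - be) / 2) * (mult q N j * (finrank ℂ (T.V q D₀ N j) : ℝ) * j) := by
    intro j hj
    have hj' := mem_Icc_iff.1 hj
    have h2 := av_mult hj' (fun a b : ℕ => al * (a : ℝ) + be * b + (ga * j + x * N))
    have h3 : av q N j (fun a b : ℕ => al * (a : ℝ) + be * b + (ga * j + x * N)) =
        al * ((25 * q * N + 3 * j) / 2) + be * ((25 * q * N - 3 * j) / 2) + (ga * j + x * N) := by
      unfold av
      rw [avg2_lin]
      have e1 : ((AA q N j : ℕ) : ℝ) = 25 * q * N + 3 * j := by exact_mod_cast AA_cast hj'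
      have e2 : ((BB q N j : ℕ) : ℝ) = 25 * q * N - 3 * j := by exact_mod_cast BB_cast hj'
      rw [e1, e2]
    have h4 : ∑ a ∈ range (AA q N j + 1), ∑ b ∈ range (BB q N j + 1),
        (al * a + be * b + ga * j + x * N) * (finrank ℂ (T.V q D₀ N j) : ℝ) =
        (∑ a ∈ range (AA q N j + 1), ∑ b ∈ range (BB q N j + 1),
          (al * (a : ℝ) + be * b + (ga * j + x * N))) * (finrank ℂ (T.V q D₀ N j) : ℝ) := by
      rw [sum_mul]
      apply sum_congr rfl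
      intro a _
      rw [sum_mul]
      apply sum_congr rfl
      intro b _
      ring
    rw [h4, ← h2, h3]
    unfold mult
    ring
  rw [sum_congr rfl h1, sum_add_distrib, ← mul_sum, ← mul_sum]
  have h5 : ∑ j ∈ Icc (-((5 * q * N : ℕ) : ℤ)) ((5 * q * N : ℕ) : ℤ),
      (mult q N j * (finrank ℂ (T.V q D₀ N j) : ℝ) * j) = 0 := by
    apply sum_odd_zero
    intro j hj
    have hj' := mem_Icc_iff.1 hj
    rw [mult_neg, finV hD hq hN hj', finV hD hq hN (by rw [abs_neg]; exact hj'), dg_neg_fin]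
    push_cast
    ring
  rw [h5, mul_zero, add_zero]
  rfl

namespace Graded

variable {G : Graded T q D₀}
variable (hD : T.X.deg D₀ = 105 * T.t * q)

theorem sum_W_eq (N : ℕ) (j : ℤ) (a b : ℕ) :
    ∑ l ∈ range (G.Λ * N), (finrank ℂ (G.W N (l + 1) j a b) : ℝ) =
      ∑ l ∈ range (G.nn N j a b), (finrank ℂ (G.W N (l + 1) j a b) : ℝ) := by
  symm
  apply sum_subset (range_subset_range.2 (G.nn_le N j a b))
  intro l _ hl
  rw [mem_range, not_lt] at hl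
  rw [G.W_eq_bot (show G.nn N j a b < l + 1 by omega), finrank_bot]
  simp

theorem finrank_W_le (P₀ : T.X.Pt) {N l : ℕ} {j : ℤ} {a b : ℕ} (h : InR q N j a b) :
    (finrank ℂ (G.W N l j a b) : ℝ) ≤ finrank ℂ (T.V q D₀ N j) := by
  have hfin : Module.Finite ℂ (T.X.L (T.dvs q D₀ N j)) := T.X.finite_L P₀ _
  exact_mod_cast Submodule.finrank_mono (G.W_le N l j a b h)

theorem sum_W_le (P₀ : T.X.Pt) {N : ℕ} {j : ℤ} {a b : ℕ} (h : InR q N j a b) :
    ∑ l ∈ range (G.Λ * N), (finrank ℂ (G.W N (l + 1) j a b) : ℝ) ≤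
      G.nn N j a b * finrank ℂ (T.V q D₀ N j) := by
  rw [sum_W_eq]
  calc ∑ l ∈ range (G.nn N j a b), (finrank ℂ (G.W N (l + 1) j a b) : ℝ) ≤
      ∑ _l ∈ range (G.nn N j a b), (finrank ℂ (T.V q D₀ N j) : ℝ) :=
        sum_le_sum fun l _ => finrank_W_le P₀ h
    _ = _ := by rw [sum_const, card_range, nsmul_eq_mul]

include hD in
theorem tot_le_lin (P₀ : T.X.Pt) (hq : 0 < q) {al be ga x : ℝ} {N : ℕ} (hN : 4 ≤ N)
    (hn : ∀ j a b, InR q N j a b → (G.nn N j a b : ℝ) ≤ al * a + be * b + ga * j + x * N) :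
    G.tot N ≤ (25 * q * (al + be) / 2 + x) * N * dN T q D₀ N := by
  rw [← sum_lin_dim hD hq hN al be ga x]
  unfold tot
  apply sum_le_sum
  intro j hj
  apply sum_le_sum
  intro a ha
  apply sum_le_sum
  intro b hb
  have hin : InR q N j a b := (inR_iff (mem_Icc_iff.1 hj)).2
    ⟨Nat.lt_succ_iff.1 (mem_range.1 ha), Nat.lt_succ_iff.1 (mem_range.1 hb)⟩
  exact (sum_W_le P₀ hin).trans (mul_le_mul_of_nonneg_right (hn j a b hin) (by positivity))

end Graded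

end Pool.Agent.YTD
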