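import Pool.Agent.YTD.Fin2

/-!
Rigidity of the graded filtration from the shape of the envelope and the lower bound of the
leading coefficient.
-/

namespace Pool.Agent.YTD

open Finset Module Filter

theorem int_of_fract {x C : ℝ} (h : ∀ᶠ N : ℕ in atTop, Int.fract (x * N) * N ≤ C) :
    ∃ z : ℤ, x = z := by
  by_contra hcon
  push Not at hcon
  have hf : 0 < Int.fract x := by
    rcases (Int.fract_nonneg x).lt_or_eq with h0 | h0
    · exact h0
    · exact absurd (Int.floor_add_fract x).symm (by rw [← h0, add_zero]; exact hcon _)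
  have hf1 : Int.fract x < 1 := Int.fract_lt_one x
  set ε := min (Int.fract x) (1 - Int.fract x) with hε
  have hε0 : 0 < ε := lt_min hf (by linarith)
  obtain ⟨N₀, hN₀⟩ := eventually_atTop.1 h
  obtain ⟨n, hn⟩ := exists_nat_gt (C / ε)
  set N := max N₀ (max n 1) with hN
  have hNn : (n : ℝ) ≤ N := by
    have : n ≤ N := (le_max_left _ _).trans (le_max_right _ _)
    exact_mod_cast this
  have hN1 : (1 : ℝ) ≤ N := by
    have : 1 ≤ N := (le_max_right _ _).trans (le_max_right _ _)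
    exact_mod_cast this
  rw [div_lt_iff₀ hε0] at hn
  have hlt : ∀ M : ℕ, N ≤ M → Int.fract (x * M) < ε := by
    intro M hM
    have h1 := hN₀ M ((le_max_left _ _).trans hM)
    have hM' : (N : ℝ) ≤ M := by exact_mod_cast hM
    by_contra h2
    push Not at h2
    have h3 : ε * M ≤ Int.fract (x * M) * M := mul_le_mul_of_nonneg_right h2 (by positivity)
    nlinarith
  have h1 := hlt N le_rfl
  have h2 := hlt (N + 1) (Nat.le_succ N)
  have h3 : Int.fract (x * ((N + 1 : ℕ) : ℝ)) = Int.fract (x * N) + Int.fract x := by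
    rw [Int.fract_eq_iff]
    refine ⟨by linarith [Int.fract_nonneg (x * N)], ?_, ⌊x * N⌋ + ⌊x⌋, ?_⟩
    · have := min_le_right (Int.fract x) (1 - Int.fract x)
      linarith
    · have e1 := Int.floor_add_fract (x * N)
      have e2 := Int.floor_add_fract x
      push_cast
      linarith
  rw [h3] at h2
  have h4 := min_le_left (Int.fract x) (1 - Int.fract x)
  linarith [Int.fract_nonneg (x * N)]

theorem bound_all {E : ℕ → ℝ} {C : ℝ} (h : ∀ᶠ N : ℕ in atTop, E N ≤ C * (N : ℝ) ^ 3) :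
    ∃ C' : ℝ, ∀ N ≥ 4, E N ≤ C' * (N : ℝ) ^ 3 := by
  obtain ⟨N₀, hN₀⟩ := eventually_atTop.1 h
  refine ⟨|C| + ∑ N ∈ range N₀, |E N|, fun N hN => ?_⟩
  have p : (1 : ℝ) ≤ (N : ℝ) ^ 3 := by
    have : (1 : ℝ) ≤ N := by
      have : 1 ≤ N := by omega
      exact_mod_cast this
    exact one_le_pow₀ this
  have hs : 0 ≤ ∑ N ∈ range N₀, |E N| := sum_nonneg fun _ _ => abs_nonneg _
  have hC : 0 ≤ |C| := abs_nonneg C
  have hC' : C ≤ |C| := le_abs_self C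
  rcases le_or_gt N₀ N with h1 | h1
  · have h2 := hN₀ N h1
    nlinarith
  · have h2 : |E N| ≤ ∑ N ∈ range N₀, |E N| :=
      single_le_sum (f := fun N => |E N|) (fun _ _ => abs_nonneg _) (mem_range.2 h1)
    have h3 := le_abs_self (E N)
    nlinarith

theorem sum_Ioc_int (f : ℕ → ℝ) (L : ℕ) :
    ∑ l ∈ Ioc (0 : ℤ) L, f l.toNat = ∑ l ∈ range L, f (l + 1) := by
  refine sum_nbij' (fun l => l.toNat - 1) (fun l => (l : ℤ) + 1) ?_ ?_ ?_ ?_ ?_
  · intro l hl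
    rw [mem_Ioc] at hl
    rw [mem_range]
    omega
  · intro l hl
    rw [mem_range] at hl
    rw [mem_Ioc]
    omega
  · intro l hl
    rw [mem_Ioc] at hl
    show ((l.toNat - 1 : ℕ) : ℤ) + 1 = l
    omega
  · intro l hl
    show ((l : ℤ) + 1).toNat - 1 = l
    omega
  · intro l hl
    rw [mem_Ioc] at hl
    show f l.toNat = f (l.toNat - 1 + 1)
    congr 1
    omega

variable {K : Type} [Field K] [Algebra ℂ K]
variable {T : Datum K} {q : ℕ} {D₀ : T.X.Pt →₀ ℤ}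

theorem dN_ge (hD : T.X.deg D₀ = 105 * T.t * q) (hq : 0 < q) {N : ℕ} (hN : 4 ≤ N) :
    (N : ℝ) ^ 4 ≤ dN T q D₀ N := by
  rw [dN_eq hD hq hN]
  have ht : (1 : ℝ) ≤ T.t := by exact_mod_cast T.t_pos
  have hq1 : (1 : ℝ) ≤ q := by exact_mod_cast hq
  have hN1 : (1 : ℝ) ≤ N := by
    have : 1 ≤ N := by omega
    exact_mod_cast this
  have hqN : (1 : ℝ) ≤ q * N := by nlinarith
  have e1 : (q : ℝ) ^ 4 * N ^ 4 = (q * N) ^ 4 := by ring
  have e2 : (q : ℝ) ^ 2 * N ^ 2 = (q * N) ^ 2 := by ring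
  have i1 : ((q : ℝ) * N) ^ 2 ≤ (q * N) ^ 4 := pow_le_pow_right₀ hqN (by norm_num)
  have i2 : (q : ℝ) * N ≤ (q * N) ^ 4 := by
    calc (q : ℝ) * N = (q * N) ^ 1 := (pow_one _).symm
      _ ≤ _ := pow_le_pow_right₀ hqN (by norm_num)
  have i3 : (1 : ℝ) ≤ ((q : ℝ) * N) ^ 4 := one_le_pow₀ hqN
  have i4 : (N : ℝ) ^ 4 ≤ (q * N) ^ 4 := by
    apply pow_le_pow_left₀ (by positivity)
    nlinarith
  have i5 : ((q : ℝ) * N) ^ 4 ≤ T.t * ((q : ℝ) * N) ^ 4 := by nlinarith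
  have j1 : (T.t : ℝ) * ((q : ℝ) * N) ^ 2 ≤ T.t * (q * N) ^ 4 :=
    mul_le_mul_of_nonneg_left i1 (by linarith)
  have j2 : (T.t : ℝ) * ((q : ℝ) * N) ≤ T.t * (q * N) ^ 4 :=
    mul_le_mul_of_nonneg_left i2 (by linarith)
  have j3 : (T.t : ℝ) * 1 ≤ T.t * (q * N) ^ 4 := mul_le_mul_of_nonneg_left i3 (by linarith)
  have e3 : 534650 * (T.t : ℝ) * (q : ℝ) ^ 4 * N ^ 4 - 5625 * T.t * (q : ℝ) ^ 2 * N ^ 2 -
      400 * T.t * q * N - 9 * T.t = 534650 * (T.t * (q * N) ^ 4) - 5625 * (T.t * (q * N) ^ 2) -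
      400 * (T.t * (q * N)) - 9 * (T.t * 1) := by ring
  rw [e3]
  linarith

namespace Graded

variable {G : Graded T q D₀}
variable (hD : T.X.deg D₀ = 105 * T.t * q)

include hD in
theorem defect_le (hq : 0 < q) {s₀ κ : ℝ} (hS : G.Crit s₀ 0)
    (hk : κ * (534650 * T.t * (q : ℝ) ^ 4) ≤ s₀) :
    ∃ C : ℝ, ∀ N ≥ 4, κ * N * dN T q D₀ N - G.tot N ≤ C * (N : ℝ) ^ 3 := by
  obtain ⟨-, C₁, hC₁⟩ := hS
  apply bound_all (C := |κ| * (6034 * T.t * (q : ℝ) ^ 2) + C₁)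
  filter_upwards [hC₁, eventually_ge_atTop 4] with N hN h4
  rw [dN_eq hD hq h4]
  have h1 := hN
  have ht : (1 : ℝ) ≤ T.t := by exact_mod_cast T.t_pos
  have hq1 : (1 : ℝ) ≤ q := by exact_mod_cast hq
  have hN1 : (1 : ℝ) ≤ N := by
    have : 1 ≤ N := by omega
    exact_mod_cast this
  have h2 : κ * (534650 * T.t * (q : ℝ) ^ 4) * N ^ 5 ≤ s₀ * N ^ 5 :=
    mul_le_mul_of_nonneg_right hk (by positivity)
  have h3 : 5625 * T.t * (q : ℝ) ^ 2 * N ^ 2 + 400 * T.t * q * N + 9 * T.t ≤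
      6034 * T.t * (q : ℝ) ^ 2 * N ^ 2 := by
    have i0 : (1 : ℝ) ≤ q * N := by nlinarith
    have i1 : (q : ℝ) * N ≤ (q * N) ^ 2 := by nlinarith
    have i2 : (1 : ℝ) ≤ (q * N) ^ 2 := by nlinarith
    have j1 : (T.t : ℝ) * ((q : ℝ) * N) ≤ T.t * (q * N) ^ 2 :=
      mul_le_mul_of_nonneg_left i1 (by linarith)
    have j2 : (T.t : ℝ) * 1 ≤ T.t * (q * N) ^ 2 := mul_le_mul_of_nonneg_left i2 (by linarith)
    nlinarith
  have h4' : 0 ≤ 5625 * T.t * (q : ℝ) ^ 2 * N ^ 2 + 400 * T.t * q * N + 9 * T.t := by positivity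
  have h5 : -κ * (N * (5625 * T.t * (q : ℝ) ^ 2 * N ^ 2 + 400 * T.t * q * N + 9 * T.t)) ≤
      |κ| * (N * (6034 * T.t * (q : ℝ) ^ 2 * N ^ 2)) := by
    calc _ ≤ |κ| * (N * (5625 * T.t * (q : ℝ) ^ 2 * N ^ 2 + 400 * T.t * q * N + 9 * T.t)) :=
          mul_le_mul_of_nonneg_right (neg_le_abs κ) (by positivity)
      _ ≤ _ := by
          apply mul_le_mul_of_nonneg_left _ (abs_nonneg κ)
          exact mul_le_mul_of_nonneg_left h3 (by positivity)
  have e1 : κ * N * (534650 * T.t * (q : ℝ) ^ 4 * N ^ 4 - 5625 * T.t * (q : ℝ) ^ 2 * N ^ 2 -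
      400 * T.t * q * N - 9 * T.t) = κ * (534650 * T.t * (q : ℝ) ^ 4) * N ^ 5 +
      -κ * (N * (5625 * T.t * (q : ℝ) ^ 2 * N ^ 2 + 400 * T.t * q * N + 9 * T.t)) := by ring
  have e2 : |κ| * (N * (6034 * T.t * (q : ℝ) ^ 2 * N ^ 2)) =
      |κ| * (6034 * T.t * (q : ℝ) ^ 2) * N ^ 3 := by ring
  rw [e1]
  rw [e2] at h5
  linarith

include hD in
theorem int_of_defect (P₀ : T.X.Pt) (hq : 0 < q) {al be ga : ℤ} {x C : ℝ}
    (hn : ∀ N ≥ 4, ∀ (j : ℤ) (a b : ℕ), InR q N j a b →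
      (G.nn N j a b : ℝ) ≤ al * a + be * b + ga * j + x * N)
    (hC : ∀ N ≥ 4, (25 * q * (al + be) / 2 + x) * N * dN T q D₀ N - G.tot N ≤ C * (N : ℝ) ^ 3) :
    ∃ de : ℤ, x = de := by
  apply int_of_fract (C := C)
  filter_upwards [eventually_ge_atTop 4] with N h4
  have hN1 : (1 : ℝ) ≤ N := by
    have : 1 ≤ N := by omega
    exact_mod_cast this
  have h1 : G.tot N ≤ (25 * q * ((al : ℝ) + be) / 2 + ⌊x * N⌋ / N) * N * dN T q D₀ N := by
    apply tot_le_lin hD P₀ hq (ga := ga) h4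
    intro j a b hin
    have h2 := hn N h4 j a b hin
    have h3 : ((G.nn N j a b : ℤ) - (al * a + be * b + ga * j) : ℤ) ≤ ⌊x * N⌋ := by
      rw [Int.le_floor]
      push_cast
      linarith
    have h4 : ((((G.nn N j a b : ℤ) - (al * a + be * b + ga * j) : ℤ)) : ℝ) ≤ (⌊x * N⌋ : ℤ) := by
      exact_mod_cast h3
    push_cast at h4
    rw [div_mul_cancel₀ _ (by positivity)]
    linarith
  have h2 := hC N h4
  have h3 : Int.fract (x * N) * dN T q D₀ N ≤ C * (N : ℝ) ^ 3 := by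
    have e : (25 * q * ((al : ℝ) + be) / 2 + ⌊x * N⌋ / N) * N * dN T q D₀ N =
        (25 * q * ((al : ℝ) + be) / 2 + x) * N * dN T q D₀ N - Int.fract (x * N) * dN T q D₀ N := by
      have e1 := Int.floor_add_fract (x * N)
      have e2 : (⌊x * N⌋ : ℝ) / N * N = ⌊x * N⌋ := div_mul_cancel₀ _ (by positivity)
      have e3 : (25 * q * ((al : ℝ) + be) / 2 + ⌊x * N⌋ / N) * N * dN T q D₀ N =
        (25 * q * ((al : ℝ) + be) / 2 * N + ⌊x * N⌋ / N * N) * dN T q D₀ N := by ring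
      rw [e3, e2]
      have e4 : (⌊x * N⌋ : ℝ) = x * N - Int.fract (x * N) := by linarith
      rw [e4]
      ring
    rw [e] at h1
    linarith
  have h4 := mul_le_mul_of_nonneg_left (dN_ge hD hq h4) (Int.fract_nonneg (x * N))
  have h5 : Int.fract (x * N) * N * (N : ℝ) ^ 3 ≤ C * (N : ℝ) ^ 3 := by
    calc _ = Int.fract (x * N) * (N : ℝ) ^ 4 := by ring
      _ ≤ _ := h4.trans h3
  exact le_of_mul_le_mul_right h5 (by positivity)

theorem sum_defect_eq (N : ℕ) (j : ℤ) (a b : ℕ) {L : ℤ} (hL : (G.nn N j a b : ℤ) ≤ L) :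
    ∑ l ∈ Ioc 0 L, ((finrank ℂ (T.V q D₀ N j) : ℝ) - finrank ℂ (G.W N l.toNat j a b)) =
      L * finrank ℂ (T.V q D₀ N j) -
        ∑ l ∈ range (G.Λ * N), (finrank ℂ (G.W N (l + 1) j a b) : ℝ) := by
  obtain ⟨L', rfl⟩ := Int.eq_ofNat_of_zero_le (show 0 ≤ L by omega)
  rw [sum_sub_distrib, sum_const, sum_W_eq]
  congr 1
  · rw [Int.card_Ioc, nsmul_eq_mul]
    simp
  · rw [sum_Ioc_int (fun l => (finrank ℂ (G.W N l j a b) : ℝ))]
    symm
    apply sum_subset (range_subset_range.2 (by exact_mod_cast hL))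
    intro l _ hl
    rw [mem_range, not_lt] at hl
    rw [G.W_eq_bot (show G.nn N j a b < l + 1 by omega), finrank_bot]
    simp

theorem rigid_of_kappa (P₀ : T.X.Pt) (hq : 0 < q) (hD : T.X.deg D₀ = 105 * T.t * q) {s₀ : ℝ}
    (hS : G.Crit s₀ 0) {al be ga : ℤ} {x : ℝ}
    (hn : ∀ N ≥ 4, ∀ (j : ℤ) (a b : ℕ), InR q N j a b →
      (G.nn N j a b : ℝ) ≤ al * a + be * b + ga * j + x * N)
    (hk : (25 * q * (al + be) / 2 + x) * (534650 * T.t * (q : ℝ) ^ 4) ≤ s₀) :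
    ∃ de : ℤ, (∀ N ≥ 4, ∀ (l : ℕ) (j : ℤ) (a b : ℕ), InR q N j a b → G.W N l j a b ≠ ⊥ →
      (l : ℤ) ≤ al * a + be * b + ga * j + de * N) ∧
    ∃ C : ℝ, ∀ N ≥ 4,
      ∑ j ∈ Icc (-((5 * q * N : ℕ) : ℤ)) ((5 * q * N : ℕ) : ℤ),
        ∑ a ∈ range (AA q N j + 1), ∑ b ∈ range (BB q N j + 1),
          ∑ l ∈ Ioc 0 (al * a + be * b + ga * j + de * N),
            ((finrank ℂ (T.V q D₀ N j) : ℝ) - finrank ℂ (G.W N l.toNat j a b)) ≤ C * N ^ 3 := by
  obtain ⟨C, hC⟩ := defect_le hD hq hS hk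
  obtain ⟨de, rfl⟩ := int_of_defect hD P₀ hq hn hC
  have hn' : ∀ N ≥ 4, ∀ (j : ℤ) (a b : ℕ), InR q N j a b →
      (G.nn N j a b : ℤ) ≤ al * a + be * b + ga * j + de * N := by
    intro N hN j a b hin
    exact_mod_cast hn N hN j a b hin
  refine ⟨de, fun N hN l j a b hin hW => ?_, C, fun N hN => ?_⟩
  · have h1 : l ≤ G.nn N j a b := by
      by_contra h2
      exact hW (G.W_eq_bot (not_le.1 h2))
    exact le_trans (by exact_mod_cast h1) (hn' N hN j a b hin)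
  · refine le_trans (le_of_eq ?_) (hC N hN)
    have h1 := sum_lin_dim hD hq hN (al : ℝ) be ga de
    rw [← h1]
    unfold tot
    rw [← sum_sub_distrib]
    apply sum_congr rfl
    intro j hj
    rw [← sum_sub_distrib]
    apply sum_congr rfl
    intro a ha
    rw [← sum_sub_distrib]
    apply sum_congr rfl
    intro b hb
    have hin : InR q N j a b := (inR_iff (mem_Icc_iff.1 hj)).2
      ⟨Nat.lt_succ_iff.1 (mem_range.1 ha), Nat.lt_succ_iff.1 (mem_range.1 hb)⟩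
    rw [sum_defect_eq N j a b (hn' N hN j a b hin)]
    push_cast
    ring

end Graded

end Pool.Agent.YTD
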