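import Pool.Agent.YTD.Rigid12

/-!
The weighted sum of a linear form.
-/

namespace Pool.Agent.YTD

open Finset Module Filter

theorem sum_cl (n : ℕ) (c s : ℝ) : ∑ i ∈ range n, (c - 9 * ((i : ℝ) - s) ^ 2) =
    c * n - 9 * (n * s ^ 2 - s * n * (n - 1) + (n - 1) * n * (2 * n - 1) / 6) := by
  induction n with
  | zero => simp
  | succ n ih =>
    rw [sum_range_succ, ih]
    push_cast
    ring

theorem sum_cu (n : ℕ) (c s : ℝ) : ∑ i ∈ range n, (c - 9 * (s + (i : ℝ)) ^ 2) * i =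
    (c - 9 * s ^ 2) * (n * (n - 1) / 2) - 18 * s * ((n - 1) * n * (2 * n - 1) / 6) -
      9 * (n * (n - 1) / 2) ^ 2 := by
  induction n with
  | zero => simp
  | succ n ih =>
    rw [sum_range_succ, ih]
    push_cast
    ring

/-- the symmetric sum of the kernel. -/
theorem sum_max (Q : ℕ) : ∑ i ∈ range (2 * (5 * Q) + 1),
    (625 * (Q : ℝ) ^ 2 - 9 * ((i : ℝ) - 5 * Q) ^ 2) * max 0 (|(i : ℝ) - 5 * Q| - 4 * Q) =
    2 * ∑ u ∈ range (Q + 1), (625 * (Q : ℝ) ^ 2 - 9 * (4 * (Q : ℝ) + u) ^ 2) * u := by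
  have e : 2 * (5 * Q) + 1 = (Q + 1) + (8 * Q - 1) + (Q + 1) ∨ Q = 0 := by omega
  rcases e with e | e
  swap
  · subst e; simp
  rcases Nat.eq_zero_or_pos Q with hQ | hQ
  · subst hQ; simp
  rw [e, sum_range_add, sum_range_add]
  have hQr : (1 : ℝ) ≤ Q := by exact_mod_cast hQ
  have m1 : ∑ x ∈ range (8 * Q - 1),
      (625 * (Q : ℝ) ^ 2 - 9 * (((Q + 1 + x : ℕ) : ℝ) - 5 * Q) ^ 2) *
        max 0 (|((Q + 1 + x : ℕ) : ℝ) - 5 * Q| - 4 * Q) = 0 := by
    apply sum_eq_zero
    intro x hx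
    have hx' := mem_range.1 hx
    have h1 : (x : ℝ) + 1 ≤ 8 * Q - 1 := by
      have : x + 1 + 1 ≤ 8 * Q := by omega
      have : (x : ℝ) + 1 + 1 ≤ 8 * Q := by exact_mod_cast this
      linarith
    have h0 : (0 : ℝ) ≤ x := by positivity
    rw [max_eq_left, mul_zero]
    push_cast
    rw [sub_nonpos, abs_le]
    constructor <;> linarith
  rw [m1, add_zero]
  have a1 : ∑ i ∈ range (Q + 1), (625 * (Q : ℝ) ^ 2 - 9 * ((i : ℝ) - 5 * Q) ^ 2) *
      max 0 (|(i : ℝ) - 5 * Q| - 4 * Q) =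
      ∑ u ∈ range (Q + 1), (625 * (Q : ℝ) ^ 2 - 9 * (4 * (Q : ℝ) + u) ^ 2) * u := by
    rw [← sum_range_reflect]
    apply sum_congr rfl
    intro u hu
    have hu' := mem_range.1 hu
    have h1 : ((Q + 1 - 1 - u : ℕ) : ℝ) = Q - u := by
      rw [show Q + 1 - 1 - u = Q - u by omega, Nat.cast_sub (by omega)]
    have h2 : (u : ℝ) ≤ Q := by exact_mod_cast (by omega : u ≤ Q)
    rw [h1, abs_of_nonpos (by linarith), max_eq_right (by linarith)]
    ring
  have a2 : ∑ x ∈ range (Q + 1),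
      (625 * (Q : ℝ) ^ 2 - 9 * (((Q + 1 + (8 * Q - 1) + x : ℕ) : ℝ) - 5 * Q) ^ 2) *
        max 0 (|((Q + 1 + (8 * Q - 1) + x : ℕ) : ℝ) - 5 * Q| - 4 * Q) =
      ∑ u ∈ range (Q + 1), (625 * (Q : ℝ) ^ 2 - 9 * (4 * (Q : ℝ) + u) ^ 2) * u := by
    apply sum_congr rfl
    intro u _
    have h1 : ((Q + 1 + (8 * Q - 1) + u : ℕ) : ℝ) = 9 * Q + u := by
      rw [show Q + 1 + (8 * Q - 1) + u = 9 * Q + u by omega]
      push_cast
      ring
    have h2 : (0 : ℝ) ≤ u := by positivity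
    rw [h1, abs_of_nonneg (by linarith), max_eq_right (by linarith)]
    ring
  rw [a1, a2]
  ring

/-- the weighted sum of the degrees. -/
theorem XX_dg {t q N : ℕ} (hQ : 0 < q * N) : XX q N (fun j => (dg t q N j : ℝ)) =
    t * (534650 * ((q : ℝ) * N) ^ 4 + 1275 * ((q : ℝ) * N) ^ 2) := by
  obtain ⟨Q, hQdef⟩ : ∃ Q : ℕ, Q = q * N := ⟨_, rfl⟩
  have hQr : (Q : ℝ) = q * N := by rw [hQdef]; push_cast; ring
  rw [← hQdef] at hQ
  have e5 : 5 * q * N = 5 * Q := by rw [hQdef]; ring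
  rw [← hQr]
  unfold XX
  rw [e5]
  have term : ∀ i ∈ range (2 * (5 * Q) + 1), Wt q N ((i : ℤ) - (5 * Q : ℕ)) *
      (dg t q N ((i : ℤ) - (5 * Q : ℕ)) : ℝ) =
      (105 * t * Q) * (625 * (Q : ℝ) ^ 2 - 9 * ((i : ℝ) - 5 * Q) ^ 2) -
      (100 * t) * ((625 * (Q : ℝ) ^ 2 - 9 * ((i : ℝ) - 5 * Q) ^ 2) *
        max 0 (|(i : ℝ) - 5 * Q| - 4 * Q)) -
      ((if i = 0 then 1000 * t * (Q : ℝ) ^ 3 else 0) +
        (if i = 2 * (5 * Q) then 1000 * t * (Q : ℝ) ^ 3 else 0)) := by
    intro i hi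
    have hi' := mem_range.1 hi
    rw [dg_real]
    have e1 : (((i : ℤ) - (5 * Q : ℕ) : ℤ) : ℝ) = (i : ℝ) - 5 * Q := by push_cast; ring
    rw [e1, ← hQr]
    by_cases h : |(i : ℤ) - (5 * Q : ℕ)| = 5 * q * N
    · rw [Wt_end h, ← hQr]
      have e2 : (5 * (q : ℤ) * N) = 5 * (Q : ℤ) := by rw [hQdef]; push_cast; ring
      rw [e2] at h
      push_cast at h
      have hQ1 : (1 : ℤ) ≤ Q := by exact_mod_cast hQ
      rcases abs_cases ((i : ℤ) - 5 * Q) with ⟨h1, _⟩ | ⟨h1, _⟩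
      · rw [h1] at h
        have hi2 : i = 2 * (5 * Q) := by omega
        rw [if_neg (by omega), if_pos hi2, hi2]
        push_cast
        rw [show 2 * (5 * (Q : ℝ)) - 5 * Q = 5 * Q by ring, abs_of_nonneg (by positivity),
          max_eq_right (by
            have : (0 : ℝ) ≤ Q := by positivity
            linarith)]
        ring
      · rw [h1] at h
        have hi2 : i = 0 := by omega
        rw [if_pos hi2, if_neg (by omega), hi2]
        push_cast
        rw [show (0 : ℝ) - 5 * Q = -(5 * Q) by ring, abs_neg, abs_of_nonneg (by positivity),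
          max_eq_right (by
            have : (0 : ℝ) ≤ Q := by positivity
            linarith)]
        ring
    · rw [Wt_mid h, e1, ← hQr]
      have e2 : (5 * (q : ℤ) * N) = 5 * (Q : ℤ) := by rw [hQdef]; push_cast; ring
      rw [e2] at h
      rw [if_neg, if_neg]
      · ring
      · rintro rfl
        apply h
        push_cast
        rw [show 2 * (5 * (Q : ℤ)) - 5 * Q = 5 * Q by ring, abs_of_nonneg (by positivity)]
      · rintro rfl
        apply h
        push_cast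
        rw [show (0 : ℤ) - 5 * Q = -(5 * Q) by ring, abs_neg, abs_of_nonneg (by positivity)]
  rw [sum_congr rfl term, sum_sub_distrib, sum_sub_distrib, sum_add_distrib, ← mul_sum, ← mul_sum,
    sum_ite_eq', sum_ite_eq', if_pos (mem_range.2 (by omega)), if_pos (mem_range.2 (by omega)),
    sum_cl, sum_max, sum_cu]
  push_cast
  ring

theorem XX_odd {q N : ℕ} (t : ℕ) : XX q N (fun j => (dg t q N j : ℝ) * j) = 0 := by
  have h1 : XX q N (fun j => (dg t q N j : ℝ) * j) = -XX q N (fun j => (dg t q N j : ℝ) * j) := by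
    conv_lhs => rw [XX_eq_SS, ← SS_neg]
    rw [XX_eq_SS, ← neg_one_mul, ← SS_mul]
    apply SS_congr
    intro j _
    have e1 : Wt q N (-j) = Wt q N j := by
      unfold Wt
      rw [abs_neg]
      push_cast
      rw [neg_sq]
    have e2 : (dg t q N (-j) : ℝ) = dg t q N j := by
      rw [dg_real, dg_real]
      push_cast
      rw [abs_neg]
    rw [e1, e2]
    push_cast
    ring
  linarith

variable {K : Type} [Field K] [Algebra ℂ K]
variable {T : Datum K} {q : ℕ} {D₀ : T.X.Pt →₀ ℤ}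

namespace Graded

theorem kappa_le (G : Graded T q D₀) (P₀ : T.X.Pt) (hq : 0 < q)
    (hD : T.X.deg D₀ = 105 * T.t * q) {s₀ : ℝ} (hS : G.Crit s₀ 0) {al be ga : ℤ} {δ : ℝ}
    (H : ∀ k j a b, Int3 (4 * q) k j a b →
      (G.fam3 hD hq).m k j a b = al * a + be * b + ga * j + δ * 2 ^ k) :
    (δ / 4 + 25 * q * (al + be) / 2) * (534650 * T.t * (q : ℝ) ^ 4) ≤ s₀ := by
  set κ : ℝ := δ / 4 + 25 * q * (al + be) / 2 with hκ
  set κ' : ℝ := 3 * (al - be) / 2 + ga with hκ'
  set t := T.t with ht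
  have H' : ∀ k j a b, Int3 (4 * q) k j a b → (G.fam3 hD hq).m k j a b =
      (al : ℝ) * a + (be : ℝ) * b + (fun (k : ℕ) (j : ℤ) => ga * (j : ℝ) + δ * 2 ^ k) k j := by
    intro k j a b h
    rw [H k j a b h]
    ring
  set A : ℝ := |κ| + 5 * q * |κ'| with hA
  set C : ℝ := 400000 * t * (q : ℝ) ^ 2 * (4 * G.Λ) with hC
  have key : ∀ k : ℕ, κ * (534650 * t * (q : ℝ) ^ 4) * (1024 * 32 ^ k) ≤
      s₀ * (1024 * 32 ^ k) + (C + 64 * (1275 * t * (q : ℝ) ^ 2 * |κ|)) * 16 ^ k +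
        256 * (2000 * t * (q : ℝ) ^ 3 * A) * 16 ^ k := by
    intro k
    obtain ⟨N, hN⟩ : ∃ N : ℕ, N = 2 ^ (k + 2) := ⟨_, rfl⟩
    have hNr : (N : ℝ) = 4 * 2 ^ k := by rw [hN]; push_cast; rw [pow_add]; ring
    have hN1 : (1 : ℝ) ≤ N := by
      rw [hNr]
      have : (1 : ℝ) ≤ 2 ^ k := one_le_pow₀ (by norm_num)
      linarith
    have h1 := XF_env_le hD P₀ hq hS k
    rw [← hC] at h1
    -- lower bound for the envelope
    have h2 : XX q N (fun j => (dg t q N j : ℝ) * (κ * N + κ' * j)) -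
        XX q N (fun j => if |j| = 5 * q * N then (dg t q N j : ℝ) * (A * N) else 0) ≤
        XF (G.Mf hD hq).env t k := by
      unfold XF
      rw [← hN, XX_eq_SS, XX_eq_SS, XX_eq_SS, ← SS_sub]
      apply SS_mono
      intro j hj
      have hw := Wt_nonneg hj
      rw [← mul_sub]
      apply mul_le_mul_of_nonneg_left _ hw
      have hd : (0 : ℝ) ≤ dg t q N j := le_trans (by positivity) (dgr_ge (t := t) hj)
      have hj' : |j| ≤ 5 * ((4 * q : ℕ) : ℤ) * 2 ^ k := by
        rw [hN] at hj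
        exact rng4.1 hj
      have hψ0 : 0 ≤ (G.Mf hD hq).ψ k j := (G.Mf hD hq).ψ_nonneg hj'
      have e0 : (G.Mf hD hq).env.ν k j = (G.Mf hD hq).ψ k j := rfl
      rw [e0]
      split_ifs with hend
      · have hjr : |(j : ℝ)| ≤ 5 * q * N := by exact_mod_cast hj
        have g1 : κ * N + κ' * j ≤ A * N := by
          have g2 : κ * N ≤ |κ| * N := mul_le_mul_of_nonneg_right (le_abs_self κ) (by positivity)
          have g3 : κ' * j ≤ |κ'| * (5 * q * N) := by
            calc κ' * j ≤ |κ' * j| := le_abs_self _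
              _ = |κ'| * |(j : ℝ)| := abs_mul _ _
              _ ≤ |κ'| * (5 * q * N) := mul_le_mul_of_nonneg_left hjr (abs_nonneg _)
          rw [hA]
          nlinarith
        have g4 := mul_le_mul_of_nonneg_left g1 hd
        have g5 : 0 ≤ (dg t q N j : ℝ) * (G.Mf hD hq).ψ k j := mul_nonneg hd hψ0
        linarith
      · have hlt : |j| < 5 * ((4 * q : ℕ) : ℤ) * 2 ^ k := by
          apply lt_of_le_of_ne hj'
          intro he
          apply hend
          rw [he, hN]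
          push_cast
          rw [pow_add]
          ring
        have e1 : (G.fam3 hD hq).env.avg = G.Mf hD hq := rfl
        have := Fam3.avg_ψ hq (G.fam3 hD hq) H' hlt
        rw [e1] at this
        rw [this, sub_zero]
        apply mul_le_mul_of_nonneg_left _ hd
        apply le_of_eq
        rw [hκ, hκ', hNr]
        ring
    have e3 : XX q N (fun j => (dg t q N j : ℝ) * (κ * N + κ' * j)) =
        κ * N * (t * (534650 * ((q : ℝ) * N) ^ 4 + 1275 * ((q : ℝ) * N) ^ 2)) := by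
      have hQ : 0 < q * N := Nat.mul_pos hq (by rw [hN]; positivity)
      rw [← XX_dg hQ]
      have : XX q N (fun j => (dg t q N j : ℝ) * (κ * N + κ' * j)) =
          (κ * N) * XX q N (fun j => (dg t q N j : ℝ)) +
            κ' * XX q N (fun j => (dg t q N j : ℝ) * j) := by
        rw [XX_eq_SS, XX_eq_SS, XX_eq_SS, ← SS_mul, ← SS_mul, ← SS_add]
        apply SS_congr
        intro j _
        ring
      rw [this, XX_odd]
      ring
    have e4 : XX q N (fun j => if |j| = 5 * q * N then (dg t q N j : ℝ) * (A * N) else 0) ≤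
        2000 * t * (q : ℝ) ^ 3 * A * N ^ 4 := by
      have hA0 : 0 ≤ A := by positivity
      have g1 : ∀ j : ℤ, |j| ≤ 5 * q * N → Wt q N j *
          (if |j| = 5 * q * N then (dg t q N j : ℝ) * (A * N) else 0) ≤
          (if j = ((5 * q * N : ℕ) : ℤ) then 1000 * t * (q : ℝ) ^ 3 * A * N ^ 4 else 0) +
          (if j = -((5 * q * N : ℕ) : ℤ) then 1000 * t * (q : ℝ) ^ 3 * A * N ^ 4 else 0) := by
        intro j _
        have p : (0 : ℝ) ≤ 1000 * t * (q : ℝ) ^ 3 * A * N ^ 4 := by positivity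
        by_cases hend : |j| = 5 * q * N
        · rw [if_pos hend, Wt_end hend, dg_real]
          have hjr : |(j : ℝ)| = 5 * q * N := by exact_mod_cast hend
          rw [hjr, max_eq_right (by
            have : (0 : ℝ) ≤ q * N := by positivity
            linarith)]
          have e5 : 200 * ((q : ℝ) * N) ^ 2 * ((105 * t * (q * N) - 100 * t *
              (5 * q * N - 4 * (q * N))) * (A * N)) = 1000 * t * (q : ℝ) ^ 3 * A * N ^ 4 := by
            ring
          rw [e5]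
          rcases abs_cases j with ⟨h3, _⟩ | ⟨h3, _⟩
          · rw [h3] at hend
            rw [if_pos (by push_cast; exact hend)]
            split_ifs <;> linarith
          · rw [h3] at hend
            rw [add_comm, if_pos (by push_cast; omega)]
            split_ifs <;> linarith
        · rw [if_neg hend, mul_zero]
          split_ifs <;> linarith
      rw [XX_eq_SS]
      refine (SS_mono g1).trans ?_
      rw [SS_eq_Icc, sum_add_distrib, sum_ite_eq', sum_ite_eq']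
      have p : (0 : ℝ) ≤ 1000 * t * (q : ℝ) ^ 3 * A * N ^ 4 := by positivity
      split_ifs <;> linarith
    rw [e3] at h2
    have p2 : (0 : ℝ) < 2 ^ k := by positivity
    have e32 : (32 : ℝ) ^ k = (2 ^ k) ^ 5 := by rw [← pow_mul, mul_comm, pow_mul]; norm_num
    have e16 : (16 : ℝ) ^ k = (2 ^ k) ^ 4 := by rw [← pow_mul, mul_comm, pow_mul]; norm_num
    have e8 : (8 : ℝ) ^ k = (2 ^ k) ^ 3 := by rw [← pow_mul, mul_comm, pow_mul]; norm_num
    set x : ℝ := 2 ^ k with hx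
    have hx1 : (1 : ℝ) ≤ x := one_le_pow₀ (by norm_num)
    rw [e32, e8] at h1
    rw [e32, e16]
    rw [hNr] at h2 e4
    have hx3 : x ^ 3 ≤ x ^ 4 := pow_le_pow_right₀ hx1 (by norm_num)
    have c1 : C * x ^ 3 ≤ C * x ^ 4 := mul_le_mul_of_nonneg_left hx3 (by positivity)
    have c2 : -(κ * (4 * x) * (t * (1275 * ((q : ℝ) * (4 * x)) ^ 2))) ≤
        64 * (1275 * t * (q : ℝ) ^ 2 * |κ|) * x ^ 4 := by
      have d1 : -κ ≤ |κ| := neg_le_abs κ
      have d2 : -(κ * (4 * x) * (t * (1275 * ((q : ℝ) * (4 * x)) ^ 2))) =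
          (-κ) * (64 * 1275 * t * (q : ℝ) ^ 2 * x ^ 3) := by ring
      rw [d2]
      calc (-κ) * (64 * 1275 * t * (q : ℝ) ^ 2 * x ^ 3) ≤
          |κ| * (64 * 1275 * t * (q : ℝ) ^ 2 * x ^ 3) :=
            mul_le_mul_of_nonneg_right d1 (by positivity)
        _ ≤ |κ| * (64 * 1275 * t * (q : ℝ) ^ 2 * x ^ 4) := by
            apply mul_le_mul_of_nonneg_left _ (abs_nonneg _)
            exact mul_le_mul_of_nonneg_left hx3 (by positivity)
        _ = _ := by ring
    have c3 : κ * (4 * x) * (t * (534650 * ((q : ℝ) * (4 * x)) ^ 4 +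
        1275 * ((q : ℝ) * (4 * x)) ^ 2)) = κ * (534650 * t * (q : ℝ) ^ 4) * (1024 * x ^ 5) +
        κ * (4 * x) * (t * (1275 * ((q : ℝ) * (4 * x)) ^ 2)) := by ring
    have c4 : 2000 * t * (q : ℝ) ^ 3 * A * (4 * x) ^ 4 =
        256 * (2000 * t * (q : ℝ) ^ 3 * A) * x ^ 4 := by ring
    rw [c3] at h2
    rw [c4] at e4
    nlinarith
  -- limit
  set B : ℝ := ((C + 64 * (1275 * t * (q : ℝ) ^ 2 * |κ|)) +
    256 * (2000 * t * (q : ℝ) ^ 3 * A)) / 1024 with hB
  have lim : Tendsto (fun k : ℕ => s₀ + B * (1 / 2 : ℝ) ^ k) atTop (nhds s₀) := by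
    have := (half_tendsto B).const_add s₀
    simpa using this
  apply ge_of_tendsto' lim
  intro k
  have h := key k
  have p : (0 : ℝ) < 1024 * 32 ^ k := by positivity
  have e16 : (16 : ℝ) ^ k = (1 / 2) ^ k * 32 ^ k := by rw [← mul_pow]; norm_num
  rw [e16] at h
  have h' : (κ * (534650 * t * (q : ℝ) ^ 4)) * (1024 * 32 ^ k) ≤
      (s₀ + B * (1 / 2) ^ k) * (1024 * 32 ^ k) := by
    rw [hB]
    refine h.trans (le_of_eq ?_)
    ring
  exact le_of_mul_le_mul_right h' p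

end Graded

end Pool.Agent.YTD
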