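import Pool.Agent.YTD.Fin3
import Pool.Agent.YTD.Rigid13

/-!
Rigidity of the graded filtration from the shape of the envelope.
-/

namespace Pool.Agent.YTD

open Finset Module Filter

variable {K : Type} [Field K] [Algebra ℂ K]
variable {T : Datum K} {q : ℕ} {D₀ : T.X.Pt →₀ ℤ}

theorem Graded.rigid_of_env (G : Graded T q D₀) (P₀ : T.X.Pt) (hq : 0 < q)
    (hD : T.X.deg D₀ = 105 * T.t * q) {s₀ : ℝ} (hS : G.Crit s₀ 0)
    {al be ga : ℤ} {δ : ℝ} (H : ∀ k j a b, Int3 (4 * q) k j a b →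
      (G.fam3 hD hq).m k j a b = al * a + be * b + ga * j + δ * 2 ^ k) :
    ∃ de : ℤ, (∀ N ≥ 4, ∀ (l : ℕ) (j : ℤ) (a b : ℕ), InR q N j a b → G.W N l j a b ≠ ⊥ →
      (l : ℤ) ≤ al * a + be * b + ga * j + de * N) ∧
    ∃ C : ℝ, ∀ N ≥ 4,
      ∑ j ∈ Icc (-((5 * q * N : ℕ) : ℤ)) ((5 * q * N : ℕ) : ℤ),
        ∑ a ∈ range (AA q N j + 1), ∑ b ∈ range (BB q N j + 1),
          ∑ l ∈ Ioc 0 (al * a + be * b + ga * j + de * N),
            ((finrank ℂ (T.V q D₀ N j) : ℝ) - finrank ℂ (G.W N l.toNat j a b)) ≤ C * N ^ 3 := by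
  have hk := G.kappa_le P₀ hq hD hS H
  refine Graded.rigid_of_kappa P₀ hq hD hS (x := δ / 4)
    (fun N hN j a b hin => Graded.nn_le_lin hD hq H hN hin) ?_
  rw [add_comm]
  exact hk

end Pool.Agent.YTD
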