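import Pool.Agent.YTD.NearMax
import Pool.Agent.YTD.RigidCor

/-!
For orders refining the degree in `x` the slopes in the directions `a`, `b` vanish.
-/

namespace Pool.Agent.YTD

open Finset Module MvPolynomial

variable {K : Type} [Field K] [Algebra ℂ K]
variable {T : Datum K} {q : ℕ} {D₀ : T.X.Pt →₀ ℤ} {r : ℕ}

/-- the order refines the degree in `x` -/
def RefX (m : MonomialOrder (Fin 4)) : Prop := ∀ e e', m.toSyn e' ≤ m.toSyn e → xd e' ≤ xd e

theorem RefX.refines {m : MonomialOrder (Fin 4)} (h : RefX m) (E : Finset (Fin 4 →₀ ℕ)) :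
    Refines m xd E := fun e _ e' _ hle => h e e' hle

theorem refX_mPlus (r₁ r₂ : ℕ) : RefX (mPlus r₁ r₂) := by
  intro e e' h
  rcases mPlus_le h with h | ⟨h, _⟩
  · exact h.le
  · exact h.le

namespace Filt

/-- the twist by a pair of matrices -/
noncomputable def fl (χ : Filt T q D₀ r) {g h : Matrix (Fin 2) (Fin 2) ℂ} (hg : IsUnit g)
    (hh : IsUnit h) : Filt T q D₀ r := χ.tw (substE K g h hg hh) (pres_substE hg hh)

/-- All twists are rigid for all monomial orders. -/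
def AllRigid (χ : Filt T q D₀ r) : Prop :=
  ∀ (g h : Matrix (Fin 2) (Fin 2) ℂ) (hg : IsUnit g) (hh : IsUnit h)
    (m : MonomialOrder.{0, 0} (Fin 4)), ∃ al be ga de : ℤ, (χ.fl hg hh).Rigid m al be ga de

variable {χ : Filt T q D₀ r}

theorem cmpX (hD : T.X.deg D₀ = 105 * T.t * q) (hq : 0 < q) (hr : 0 < r)
    {g h g' h' : Matrix (Fin 2) (Fin 2) ℂ} (hg : IsUnit g) (hh : IsUnit h) (hg' : IsUnit g')
    (hh' : IsUnit h') {m m' : MonomialOrder (Fin 4)} (hm : RefX m) (hm' : RefX m')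
    {al be ga de al' be' ga' de' : ℤ} (hR : (χ.fl hg hh).Rigid m al be ga de)
    (hR' : (χ.fl hg' hh').Rigid m' al' be' ga' de') :
    3 * (al - be) + 2 * ga = 3 * (al' - be') + 2 * ga' ∧
    25 * (r * q) * (al + be) + 2 * de = 25 * (r * q) * (al' + be') + 2 * de' ∧
    al ^ 2 = al' ^ 2 ∧ be ^ 2 = be' ^ 2 :=
  hR.compare hR' hD hq hr (w := xd) (κ := fun N => AA (r * q) N)
    (fun N hN => layerWt_xd (Nat.mul_pos hr hq) (by omega)) (fun N _ => hm.refines _)
    (fun N _ => hm'.refines _) (χ.sameLayers_tw hg hh hg' hh')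

/-- Everything about one adapted flag and one order. -/
theorem flagdata (hΓ : χ.VInv)
    (H : χ.AllRigid) (hD : T.X.deg D₀ = 105 * T.t * q) (hq : 0 < q) (hr : 0 < r)
    {N₀ : ℕ} {l₀ : ℤ} {s : MvPolynomial (Fin 4) K} {c : T.X.Pt} {ρ : K →ₗ[ℂ] ℂ}
    (h : MaxData χ N₀ l₀ s c ρ) {A : ℕ} (hA : TopX A (specm ρ s)) {ξ η : Fin 2 → ℂ}
    (hz : evp ξ η (xpart A (specm ρ s)) = 0) {σ : Matrix (Fin 2) (Fin 2) ℂ} {ε : ℂ}
    (hσ : IsV σ ε) (hg : IsUnit (flagM σ ξ)) (hh : IsUnit (flagM σ η)) (r₁ r₂ : ℕ) :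
    ∃ al be ga de : ℤ, (χ.fl hg hh).Rigid (mPlus r₁ r₂) al be ga de ∧ 0 ≤ r₁ * al + r₂ * be ∧
      ∃ (j : ℤ) (a b : ℕ), InR (r * q) N₀ j a b ∧
      (mPlus r₁ r₂).degree (subst (flagM σ ξ) (flagM σ η) (specm ρ s)) =
        expo (r * q) N₀ j a b ∧ AA (r * q) N₀ j = A ∧
      (0 < al → a = AA (r * q) N₀ j) ∧ (0 < be → b = BB (r * q) N₀ j) ∧
      ¬ (a = AA (r * q) N₀ j ∧ b = BB (r * q) N₀ j) := by
  obtain ⟨al, be, ga, de, hR⟩ := H _ _ hg hh (mPlus r₁ r₂)
  have hQ : 0 < r * q := Nat.mul_pos hr hq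
  have hDeg := deg_crit_mul hD r
  refine ⟨al, be, ga, de, hR, ?_, ?_⟩
  · have hAnti : Anti !![(0 : ℂ), 1; ε, 0] := by
      refine ⟨rfl, rfl, ?_, ?_⟩
      · show (1 : ℂ) ≠ 0
        exact one_ne_zero
      · show ε ≠ 0
        exact hσ.ne
    obtain ⟨θ, hθ⟩ := hΓ σ ε hσ
    refine hR.sign_lex_map hD hq hr hAnti hAnti θ (anti_stable hσ hθ ξ η hg hh) r₁ r₂ xd
      xd_swapE ?_
    intro N _ e _ e' _ hle
    exact mPlus_le hle
  · set P' := subst (flagM σ ξ) (flagM σ η) (specm ρ s) with hP'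
    have hTop : TopX A P' := hA.subst hg hh
    have hsupp := h.supp (flagM σ ξ) (flagM σ η)
    have hP'0 : P' ≠ 0 := by
      intro h0
      apply hTop.ne
      rw [h0]
      ext e
      rw [coeff_xpart]
      simp
    have hlc : P'.coeff ((mPlus r₁ r₂).degree P') ≠ 0 :=
      MonomialOrder.coeff_degree_ne_zero_iff.2 hP'0
    obtain ⟨j, a, b, hin, hdeg⟩ := mem_Eset.1 (hsupp _ hlc)
    obtain ⟨hmax, hup⟩ := h.argmax hQ hDeg hg hh hR hin hdeg
    have hxd := hTop.xd_degree ((refX_mPlus r₁ r₂).refines _) hsupp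
    have hab := (inR_iff hin.1).1 hin
    rw [hdeg, xd_expo hab.1] at hxd
    refine ⟨j, a, b, hin, hdeg, hxd, ?_, ?_, ?_⟩
    · intro hal
      by_contra hne
      have hin' : InR (r * q) N₀ j (a + 1) b := (inR_iff hin.1).2 ⟨by omega, hab.2⟩
      have h1 := hup _ _ _ hin'
      rw [hmax] at h1
      unfold lw at h1
      push_cast at h1
      linarith
    · intro hbe
      by_contra hne
      have hin' : InR (r * q) N₀ j a (b + 1) := (inR_iff hin.1).2 ⟨hab.1, by omega⟩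
      have h1 := hup _ _ _ hin'
      rw [hmax] at h1
      unfold lw at h1
      push_cast at h1
      linarith
    · rintro ⟨ha, hb⟩
      rw [hdeg] at hlc
      refine no_corner (A := A) (B := 50 * (r * q) * N₀ - A) hz (flagM_mulVec σ ξ)
        (flagM_mulVec σ η) (xpart_mem_bih hsupp) hlc ?_ ?_ ?_
      · rw [xd_expo hab.1, hxd]
      · rw [expo_0, ha, Nat.sub_self]
      · rw [expo_2, hb, Nat.sub_self]

theorem expo_of_e2 {Q N : ℕ} {e : Fin 4 →₀ ℕ} (he : e ∈ Eset Q N) {j : ℤ} (hj : |j| ≤ 5 * Q * N)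
    (hx : xd e = AA Q N j) : e 2 + e 3 = BB Q N j := by
  obtain ⟨j', a, b, hin, rfl⟩ := mem_Eset.1 he
  have hab := (inR_iff hin.1).1 hin
  rw [xd_expo hab.1] at hx
  have h1 := AA_cast hin.1
  have h2 := AA_cast hj
  rw [hx] at h1
  have h3 : j' = j := by linarith
  subst h3
  rw [expo_2, expo_3]
  omega

theorem al_be_zero (hΓ : χ.VInv)
    (H : χ.AllRigid) (hD : T.X.deg D₀ = 105 * T.t * q) (hq : 0 < q) (hr : 0 < r)
    {N₀ : ℕ} {l₀ : ℤ} {s : MvPolynomial (Fin 4) K} {c : T.X.Pt} {ρ : K →ₗ[ℂ] ℂ}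
    (h : MaxData χ N₀ l₀ s c ρ) {g₀ h₀ : Matrix (Fin 2) (Fin 2) ℂ} (hg₀ : IsUnit g₀)
    (hh₀ : IsUnit h₀) {m₀ : MonomialOrder (Fin 4)} (hm₀ : RefX m₀) {al₀ be₀ ga₀ de₀ : ℤ}
    (hR₀ : (χ.fl hg₀ hh₀).Rigid m₀ al₀ be₀ ga₀ de₀) : al₀ = 0 ∧ be₀ = 0 := by
  have hQ : 0 < r * q := Nat.mul_pos hr hq
  have hDeg := deg_crit_mul hD r
  obtain ⟨A, hA⟩ := exists_topX h.sne
  set P := specm ρ s with hP
  -- positivity of the bidegree
  have hsuppP : ∀ e, P.coeff e ≠ 0 → e ∈ Eset (r * q) N₀ := by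
    have := h.supp 1 1
    intro e he
    apply this e
    rw [subst_one]
    exact he
  obtain ⟨e₁, he₁⟩ := MvPolynomial.ne_zero_iff.1 hA.ne
  rw [coeff_xpart] at he₁
  have hAB : 0 < A ∧ 0 < 50 * (r * q) * N₀ - A := by
    split_ifs at he₁ with hxA
    · obtain ⟨j, a, b, hin, rfl⟩ := mem_Eset.1 (hsuppP _ he₁)
      have hab := (inR_iff hin.1).1 hin
      rw [xd_expo hab.1] at hxA
      have h1 := AA_cast hin.1
      have h2 := hin.1
      rw [abs_le] at h2
      have hN : (4 : ℤ) ≤ N₀ := by exact_mod_cast h.N4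
      have hQ' : (1 : ℤ) ≤ ((r * q : ℕ) : ℤ) := by exact_mod_cast hQ
      have hQN : (4 : ℤ) ≤ ((r * q : ℕ) : ℤ) * N₀ :=
        hN.trans (le_mul_of_one_le_left (by linarith only [hN]) hQ')
      rw [hxA] at h1
      have e1 : ((50 * (r * q) * N₀ : ℕ) : ℤ) = 50 * (((r * q : ℕ) : ℤ) * N₀) := by
        push_cast
        ring
      have e2 : 25 * ((r * q : ℕ) : ℤ) * N₀ = 25 * (((r * q : ℕ) : ℤ) * N₀) := by ring
      have e3 : 5 * ((r * q : ℕ) : ℤ) * N₀ = 5 * (((r * q : ℕ) : ℤ) * N₀) := by ring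
      rw [e2] at h1
      rw [e3] at h2
      generalize ((r * q : ℕ) : ℤ) * N₀ = x at *
      generalize 50 * (r * q) * N₀ = y at *
      omega
    · exact (he₁ rfl).elim
  have hbih : xpart A P ∈ bih A (50 * (r * q) * N₀ - A) (⊤ : Submodule ℂ ℂ) :=
    xpart_mem_bih hsuppP
  obtain ⟨x, y, _, hy1, hxy⟩ := exists_evp_ne hA.ne
  have hx0 : x ≠ 0 := by
    rintro rfl
    apply hxy
    rw [evp_eq]
    apply sum_eq_zero
    intro e he
    rw [MvPolynomial.mem_support_iff] at he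
    obtain ⟨g1, _, _⟩ := hbih e he
    have : e 0 ≠ 0 ∨ e 1 ≠ 0 := by omega
    rcases this with h1 | h1
    · simp [zero_pow h1]
    · simp [zero_pow h1]
  have hy0 : y ≠ 0 := by
    rintro rfl
    exact hy1 rfl
  -- the first zero
  obtain ⟨ξ, hξ, hzξ⟩ := exists_zero_left hAB.1 hbih y
  obtain ⟨σ, ε, hσ, hg, hh⟩ := exists_IsV hξ hy0
  -- the second zero
  obtain ⟨η, hη, hzη⟩ := exists_zero_right hAB.2 hbih x
  obtain ⟨σ', ε', hσ', hg', hh'⟩ := exists_IsV hx0 hη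
  by_cases hal : al₀ = 0
  · refine ⟨hal, ?_⟩
    by_contra hbe
    subst hal
    set R := 50 * (r * q) * N₀ + 1 with hRdef
    obtain ⟨al, be, ga, de, hR, hsign, j, a, b, hin, hdeg, hAj, ha, hb, hno⟩ :=
      flagdata hΓ H hD hq hr h hA hzη hσ' hg' hh' R 1
    obtain ⟨_, _, c1, c2⟩ := cmpX hD hq hr hg' hh' hg₀ hh₀ (refX_mPlus R 1) hm₀ hR hR₀
    have hal0 : al = 0 := by
      have : al ^ 2 = 0 := by rw [c1]; ring
      exact pow_eq_zero_iff (by norm_num) |>.1 this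
    rw [hal0] at hsign
    have hbe0 : be ≠ 0 := by
      rintro rfl
      apply hbe
      have : be₀ ^ 2 = 0 := by rw [← c2]; ring
      exact pow_eq_zero_iff (by norm_num) |>.1 this
    have hbe1 : 0 < be := by
      have : 0 ≤ be := by
        push_cast at hsign
        linarith
      omega
    apply hno
    refine ⟨?_, hb hbe1⟩
    obtain ⟨e, he, hxe, he0⟩ := exists_e0 (g := flagM σ' x) (h := flagM σ' η) (y := y) hxy hh'
      (flagM_mulVec σ' x)
    have hle := mPlus_le ((mPlus R 1).le_degree (MvPolynomial.mem_support_iff.2 he))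
    rw [hdeg, expo_0, expo_1, expo_3] at hle
    have hab := (inR_iff hin.1).1 hin
    unfold xd at hxe
    rw [he0, zero_add] at hxe
    have h1 := expo_of_e2 (h.supp _ _ e he) hin.1 (by unfold xd; rw [he0, zero_add, hxe, hAj])
    rcases hle with hle | ⟨_, hle⟩
    · omega
    · have hBB : BB (r * q) N₀ j ≤ 50 * (r * q) * N₀ := by
        have k1 := BB_cast hin.1
        have k2 := hin.1
        rw [abs_le] at k2
        have : (BB (r * q) N₀ j : ℤ) ≤ ((50 * (r * q) * N₀ : ℕ) : ℤ) := by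
          rw [k1]
          push_cast at k2 ⊢
          have : (0 : ℤ) ≤ (r : ℤ) * q * N₀ := by positivity
          linarith only [k2.1, this]
        exact_mod_cast this
      by_contra hne
      have h2 : a + 1 ≤ e 1 := by omega
      have h3 : R * (a + 1) ≤ R * e 1 := Nat.mul_le_mul_left R h2
      rw [Nat.mul_add, Nat.mul_one] at h3
      omega
  · exfalso
    by_cases hbe : be₀ = 0
    · subst hbe
      set R := 50 * (r * q) * N₀ + 1 with hRdef
      obtain ⟨al, be, ga, de, hR, hsign, j, a, b, hin, hdeg, hAj, ha, hb, hno⟩ :=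
        flagdata hΓ H hD hq hr h hA hzξ hσ hg hh 1 R
      obtain ⟨_, _, c1, c2⟩ := cmpX hD hq hr hg hh hg₀ hh₀ (refX_mPlus 1 R) hm₀ hR hR₀
      have hbe0 : be = 0 := by
        have : be ^ 2 = 0 := by rw [c2]; ring
        exact pow_eq_zero_iff (by norm_num) |>.1 this
      rw [hbe0] at hsign
      have hal0 : al ≠ 0 := by
        rintro rfl
        apply hal
        have : al₀ ^ 2 = 0 := by rw [← c1]; ring
        exact pow_eq_zero_iff (by norm_num) |>.1 this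
      have hal1 : 0 < al := by
        have : 0 ≤ al := by
          push_cast at hsign
          linarith
        omega
      apply hno
      refine ⟨ha hal1, ?_⟩
      obtain ⟨e, he, hxe, he2⟩ := exists_e2 (g := flagM σ ξ) (h := flagM σ y) (x := x) hxy hg
        (flagM_mulVec σ y)
      have hle := mPlus_le ((mPlus 1 R).le_degree (MvPolynomial.mem_support_iff.2 he))
      rw [hdeg, expo_0, expo_1, expo_3] at hle
      have hab := (inR_iff hin.1).1 hin
      have h1 := expo_of_e2 (h.supp _ _ e he) hin.1 (by rw [hxe, hAj])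
      rw [he2, zero_add] at h1
      unfold xd at hxe
      rcases hle with hle | ⟨_, hle⟩
      · omega
      · have hAA : AA (r * q) N₀ j ≤ 50 * (r * q) * N₀ := by
          rw [hAj]
          omega
        by_contra hne
        have h2 : b + 1 ≤ e 3 := by omega
        have h3 : R * (b + 1) ≤ R * e 3 := Nat.mul_le_mul_left R h2
        rw [Nat.mul_add, Nat.mul_one] at h3
        omega
    · -- both slopes are non-zero
      set u := al₀.natAbs with hu
      set v := be₀.natAbs with hv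
      have hu1 : 1 ≤ u := by omega
      have hv1 : 1 ≤ v := by omega
      have hu2 : al₀ ^ 2 = (u : ℤ) ^ 2 := by rw [hu, Int.natAbs_sq]
      have hv2 : be₀ ^ 2 = (v : ℤ) ^ 2 := by rw [hv, Int.natAbs_sq]
      have hu1' : (1 : ℤ) ≤ u := by exact_mod_cast hu1
      have hv1' : (1 : ℤ) ≤ v := by exact_mod_cast hv1
      obtain ⟨al₁, be₁, ga₁, de₁, hR₁, hsign₁, j₁, a₁, b₁, _, _, _, ha₁, hb₁, hno₁⟩ :=
        flagdata hΓ H hD hq hr h hA hzξ hσ hg hh (10 * v - 1) (10 * u)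
      obtain ⟨al₂, be₂, ga₂, de₂, hR₂, hsign₂, j₂, a₂, b₂, _, _, _, ha₂, hb₂, hno₂⟩ :=
        flagdata hΓ H hD hq hr h hA hzξ hσ hg hh (10 * v + 1) (10 * u)
      obtain ⟨_, _, c1, c2⟩ := cmpX hD hq hr hg hh hg₀ hh₀ (refX_mPlus _ _) hm₀ hR₁ hR₀
      obtain ⟨_, _, c1', c2'⟩ := cmpX hD hq hr hg hh hg₀ hh₀ (refX_mPlus _ _) hm₀ hR₂ hR₀
      rw [hu2] at c1 c1'
      rw [hv2] at c2 c2'
      have hc : ((10 * v - 1 : ℕ) : ℤ) = 10 * v - 1 := by
        push_cast [show 1 ≤ 10 * v by omega]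
        ring
      rw [hc] at hsign₁
      push_cast at hsign₁ hsign₂
      have g1 : al₁ = -u ∧ be₁ = v := by
        rcases sq_eq_sq_iff_eq_or_eq_neg.1 c1 with h1 | h1 <;>
        rcases sq_eq_sq_iff_eq_or_eq_neg.1 c2 with h2 | h2
        · exact (hno₁ ⟨ha₁ (by linarith), hb₁ (by linarith)⟩).elim
        · rw [h1, h2] at hsign₁
          linarith only [hsign₁, hu1']
        · exact ⟨h1, h2⟩
        · rw [h1, h2] at hsign₁
          linarith only [hsign₁, hu1', mul_nonneg (by linarith only [hu1'] : (0 : ℤ) ≤ (u : ℤ))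
            (by linarith only [hv1'] : (0 : ℤ) ≤ (v : ℤ) - 1)]
      have g2 : al₂ = u ∧ be₂ = -v := by
        rcases sq_eq_sq_iff_eq_or_eq_neg.1 c1' with h1 | h1 <;>
        rcases sq_eq_sq_iff_eq_or_eq_neg.1 c2' with h2 | h2
        · exact (hno₂ ⟨ha₂ (by linarith), hb₂ (by linarith)⟩).elim
        · exact ⟨h1, h2⟩
        · rw [h1, h2] at hsign₂
          linarith only [hsign₂, hu1']
        · rw [h1, h2] at hsign₂
          linarith only [hsign₂, hu1', mul_nonneg (by linarith only [hu1'] : (0 : ℤ) ≤ (u : ℤ))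
            (by linarith only [hv1'] : (0 : ℤ) ≤ (v : ℤ))]
      obtain ⟨rfl, rfl⟩ := g1
      obtain ⟨rfl, rfl⟩ := g2
      obtain ⟨d1, d2, _, _⟩ := cmpX hD hq hr hg hh hg hh (refX_mPlus _ _) (refX_mPlus _ _) hR₁ hR₂
      exact hR₁.near_max hu1 hv1 hR₂ (by linarith) (by linarith) c hQ hDeg

/-- For all orders refining the degree in `x` and all flags the weight is the same multiple of
`j` plus the same multiple of `N`. -/
theorem exists_sc (hΓ : χ.VInv)
    (H : χ.AllRigid) (hD : T.X.deg D₀ = 105 * T.t * q) (hq : 0 < q) (hr : 0 < r)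
    {N₀ : ℕ} {l₀ : ℤ} {s : MvPolynomial (Fin 4) K} {c : T.X.Pt} {ρ : K →ₗ[ℂ] ℂ}
    (h : MaxData χ N₀ l₀ s c ρ) : ∃ s' c' : ℤ, ∀ (g h : Matrix (Fin 2) (Fin 2) ℂ)
      (hg : IsUnit g) (hh : IsUnit h) (m : MonomialOrder.{0, 0} (Fin 4)), RefX m →
      (χ.fl hg hh).Rigid m 0 0 s' c' := by
  obtain ⟨al, be, ga, de, hR⟩ := H 1 1 isUnit_one isUnit_one (mPlus 1 1)
  obtain ⟨rfl, rfl⟩ := al_be_zero hΓ H hD hq hr h isUnit_one isUnit_one (refX_mPlus 1 1) hR
  refine ⟨ga, de, ?_⟩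
  intro g h' hg hh m hm
  obtain ⟨al, be, ga', de', hR'⟩ := H g h' hg hh m
  obtain ⟨rfl, rfl⟩ := al_be_zero hΓ H hD hq hr h hg hh hm hR'
  obtain ⟨d1, d2, _, _⟩ := cmpX hD hq hr hg hh isUnit_one isUnit_one hm (refX_mPlus 1 1) hR' hR
  have e1 : ga' = ga := by linarith
  have e2 : de' = de := by linarith
  rw [← e1, ← e2]
  exact hR'

end Filt

end Pool.Agent.YTD
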