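import Pool.Agent.YTD.Tight
import Pool.Agent.YTD.DefsP

/-!
Linear systems of maximal weight without base points, and their consequences.
-/

namespace Pool.Agent.YTD

open Finset Module MvPolynomial Filter

variable {K : Type} [Field K] [Algebra ℂ K]
variable {T : Datum K} {q : ℕ} {D₀ : T.X.Pt →₀ ℤ} {r : ℕ}

namespace Filt

variable (χ : Filt T q D₀ r)

/-- from points to all points. -/
theorem full_of_tight {N₁ : ℕ} {j₁ : ℤ} (hj₁ : |j₁| ≤ 5 * (r * q : ℕ) * N₁) {x : ℝ}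
    (h : ∀ P : T.X.Pt, ∃ (m : ℕ) (l : ℤ) (c : K), 0 < m ∧ c ≠ 0 ∧
      c ∈ χ.Wc (N₁ * m) l (j₁ * m) ∧ (l : ℝ) = x * m ∧
      T.X.ord P c = -(T.dvs (r * q) (r • D₀) (N₁ * m) (j₁ * m) P)) :
    ∃ (m : ℕ) (l : ℤ), 0 < m ∧ (l : ℝ) = x * m ∧ ∀ P : T.X.Pt, ∃ c : K, c ≠ 0 ∧
      c ∈ χ.Wc (N₁ * m) l (j₁ * m) ∧
      T.X.ord P c = -(T.dvs (r * q) (r • D₀) (N₁ * m) (j₁ * m) P) := by
  classical
  obtain ⟨P₀⟩ := T.exists_pt
  choose mm ll cc hm hc0 hc hl ho using h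
  -- powers
  have raise : ∀ (m : ℕ) (l : ℤ) (c : K) (P : T.X.Pt) (m' : ℕ), c ≠ 0 →
      c ∈ χ.Wc (N₁ * m) l (j₁ * m) → (l : ℝ) = x * m →
      T.X.ord P c = -(T.dvs (r * q) (r • D₀) (N₁ * m) (j₁ * m) P) →
      c ^ m' ≠ 0 ∧ c ^ m' ∈ χ.Wc (N₁ * (m * m')) (l * m') (j₁ * (m * m' : ℕ)) ∧
      ((l * m' : ℤ) : ℝ) = x * (m * m' : ℕ) ∧
      T.X.ord P (c ^ m') = -(T.dvs (r * q) (r • D₀) (N₁ * (m * m')) (j₁ * (m * m' : ℕ)) P) := by
    intro m l c P m' h0 h1 h2 h3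
    have e1 : N₁ * (m * m') = N₁ * m * m' := by ring
    have e2 : j₁ * ((m * m' : ℕ) : ℤ) = j₁ * m * m' := by push_cast; ring
    refine ⟨pow_ne_zero _ h0, ?_, ?_, ?_⟩
    · rw [e1, e2]
      exact χ.Wc_pow' (range_mul hj₁ m) h1 m'
    · push_cast
      rw [h2]
      ring
    · rw [T.X.ord_pow P h0, h3, e1, e2, T.dvs_homog _ _ (N₁ * m) (j₁ * m) m',
        Finsupp.smul_apply, nsmul_eq_mul]
      ring
  set Bad : Set T.X.Pt := {P | T.X.ord P (cc P₀) ≠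
    -(T.dvs (r * q) (r • D₀) (N₁ * mm P₀) (j₁ * mm P₀) P)} with hBad
  have hfin : Bad.Finite := by
    apply ((T.X.finite_ord (cc P₀) (hc0 P₀)).union
      (T.dvs (r * q) (r • D₀) (N₁ * mm P₀) (j₁ * mm P₀)).support.finite_toSet).subset
    intro P hP
    by_contra hcon
    simp only [Set.mem_union, Set.mem_ofPred_eq, Finset.mem_coe, Finsupp.mem_support_iff,
      not_or, not_not] at hcon
    apply hP
    rw [hcon.1, hcon.2, neg_zero]
  set B := hfin.toFinset with hB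
  set M : ℕ := ∏ P ∈ B, mm P with hM
  have hM0 : 0 < M := Finset.prod_pos fun P _ => hm P
  refine ⟨mm P₀ * M, ll P₀ * M, Nat.mul_pos (hm P₀) hM0, ?_, ?_⟩
  · push_cast
    rw [hl P₀]
    ring
  · intro P
    by_cases hP : P ∈ B
    · obtain ⟨M', hM'⟩ : mm P ∣ mm P₀ * M :=
        (Finset.dvd_prod_of_mem mm hP).mul_left _
      obtain ⟨g1, g2, g3, g4⟩ := raise (mm P) (ll P) (cc P) P M' (hc0 P) (hc P) (hl P) (ho P)
      rw [← hM'] at g2 g3 g4
      refine ⟨_, g1, ?_, g4⟩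
      have : ll P * M' = ll P₀ * M := by
        have : ((ll P * M' : ℤ) : ℝ) = ((ll P₀ * M : ℤ) : ℝ) := by
          rw [g3]
          push_cast
          rw [hl P₀]
          ring
        exact_mod_cast this
      rw [← this]
      exact g2
    · have hP' : T.X.ord P (cc P₀) =
          -(T.dvs (r * q) (r • D₀) (N₁ * mm P₀) (j₁ * mm P₀) P) := by
        by_contra hcon
        exact hP (hfin.mem_toFinset.2 hcon)
      obtain ⟨g1, g2, g3, g4⟩ := raise (mm P₀) (ll P₀) (cc P₀) P M (hc0 P₀) (hc P₀) (hl P₀) hP'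
      exact ⟨_, g1, g2, g4⟩

/-- complete linear systems of almost maximal weight. -/
theorem complete_of_full (hr : 0 < r) (hq : 0 < q) (hD : T.X.deg D₀ = 105 * T.t * q)
    {N₁ : ℕ} (hN₁ : 0 < N₁) {j₁ : ℤ} (hj₁ : |j₁| ≤ 5 * (r * q : ℕ) * N₁)
    {m : ℕ} {l : ℤ} (hm : 0 < m) (h : ∀ P : T.X.Pt, ∃ c : K, c ≠ 0 ∧
      c ∈ χ.Wc (N₁ * m) l (j₁ * m) ∧
      T.X.ord P c = -(T.dvs (r * q) (r • D₀) (N₁ * m) (j₁ * m) P)) (k : ℕ) :
    T.V (r * q) (r • D₀) (N₁ * m * (5 + k)) (j₁ * m * (5 + k : ℕ)) ≤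
      χ.Wc (N₁ * m * (5 + k)) (l * k - χ.lam * (N₁ * m * 5)) (j₁ * m * (5 + k : ℕ)) := by
  obtain ⟨P₀⟩ := T.exists_pt
  set E := T.dvs (r * q) (r • D₀) (N₁ * m) (j₁ * m) with hE
  set W := χ.Wc (N₁ * m) l (j₁ * m) with hW
  have hjm := range_mul hj₁ m
  have hWE : W ≤ T.X.L E := χ.Wc_le hjm
  have hne : W ≠ ⊥ := by
    obtain ⟨c, hc0, hc, _⟩ := h P₀
    intro h0
    rw [h0, Submodule.mem_bot] at hc
    exact hc0 hc
  have hmd : T.X.mdiv W = E := by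
    ext P
    apply le_antisymm (CurveOrd.mdiv_le hWE hne P)
    obtain ⟨c, hc0, hc, ho⟩ := h P
    rw [CurveOrd.mdiv_apply hWE hne]
    have := CurveOrd.bord_le hWE P hc hc0
    rw [ho] at this
    linarith
  have hdegE : 5 * (T.t : ℤ) ≤ T.X.deg E := by
    rw [hE, deg_dvs_crit T (r * q) (r • D₀) (deg_smul hD)]
    have h1 := le_dg (t := T.t) hjm
    have h2 : (1 : ℤ) ≤ (r * q : ℕ) := by exact_mod_cast Nat.mul_pos hr hq
    have h3 : (1 : ℤ) ≤ ((N₁ * m : ℕ) : ℤ) := by exact_mod_cast Nat.mul_pos hN₁ hm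
    have h4 : (0 : ℤ) ≤ 5 * (T.t : ℤ) := by positivity
    have h5 : (1 : ℤ) ≤ (r * q : ℕ) * ((N₁ * m : ℕ) : ℤ) := by nlinarith
    calc 5 * (T.t : ℤ) = 5 * (T.t : ℤ) * 1 := by ring
      _ ≤ 5 * (T.t : ℤ) * ((r * q : ℕ) * ((N₁ * m : ℕ) : ℤ)) := mul_le_mul_of_nonneg_left h5 h4
      _ = 5 * (T.t : ℤ) * (r * q : ℕ) * ((N₁ * m : ℕ) : ℤ) := by ring
      _ ≤ _ := h1
  have ht : (1 : ℤ) ≤ T.t := by exact_mod_cast T.t_pos
  have hV : ∀ k : ℕ, T.V (r * q) (r • D₀) (N₁ * m * (5 + k)) (j₁ * m * (5 + k : ℕ)) =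
      T.X.L ((5 + k) • E) := by
    intro k
    unfold Datum.V
    rw [T.dvs_homog _ _ (N₁ * m) (j₁ * m) (5 + k)]
  induction k with
  | zero =>
    have := χ.V_le_Wc (N := N₁ * m * (5 + 0)) (j := j₁ * m * (5 + 0 : ℕ)) (range_mul hjm (5 + 0))
    refine this.trans (χ.Wc_anti ?_)
    push_cast
    apply le_of_eq
    ring
  | succ k ih =>
    rw [hV] at ih ⊢
    have e1 : (5 + (k + 1)) • E = (5 + k) • E + T.X.mdiv W := by
      rw [hmd, ← add_assoc, succ_nsmul]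
    rw [e1]
    refine (T.X.pencil P₀ hWE hne ?_).trans ?_
    · unfold CurveOrd.mdeg
      rw [hmd, T.X.deg_nsmul, T.genus_eq]
      push_cast
      nlinarith
    · rw [Submodule.mul_le]
      intro c hc d hd
      have h1 := χ.Wc_mul hjm (range_mul hjm (5 + k)) hc (ih hd)
      have e2 : N₁ * m + N₁ * m * (5 + k) = N₁ * m * (5 + (k + 1)) := by ring
      have e3 : l + (l * k - χ.lam * (N₁ * m * 5)) =
          l * ((k + 1 : ℕ) : ℤ) - χ.lam * (N₁ * m * 5) := by push_cast; ring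
      have e4 : j₁ * (m : ℤ) + j₁ * m * ((5 + k : ℕ) : ℤ) = j₁ * m * ((5 + (k + 1) : ℕ) : ℤ) := by
        push_cast; ring
      rw [e2, e3, e4] at h1
      exact h1

variable {χ}

/-- for reduced filtrations, complete linear systems have the maximal weight. -/
theorem Reduced.mem_Wc (hred : χ.Reduced) (hr : 0 < r) (hq : 0 < q)
    (hD : T.X.deg D₀ = 105 * T.t * q)
    {N₁ : ℕ} (hN₁ : 0 < N₁) {j₁ : ℤ} (hj₁ : |j₁| ≤ 5 * (r * q : ℕ) * N₁) {x : ℝ}
    {m : ℕ} {l : ℤ} (hm : 0 < m) (hl : (l : ℝ) = x * m) (h : ∀ P : T.X.Pt, ∃ c : K, c ≠ 0 ∧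
      c ∈ χ.Wc (N₁ * m) l (j₁ * m) ∧
      T.X.ord P c = -(T.dvs (r * q) (r • D₀) (N₁ * m) (j₁ * m) P)) {c : K}
    (hc : c ∈ T.V (r * q) (r • D₀) N₁ j₁) (l' : ℤ) (hl' : (l' : ℝ) < x + 1) :
    c ∈ χ.Wc N₁ l' j₁ := by
  by_cases hc0 : c = 0
  · rw [hc0]
    exact zero_mem _
  have key : ∀ i : ℕ, ((-((χ.lam : ℤ) * N₁) + i : ℤ) : ℝ) < x + 1 →
      c ∈ χ.Wc N₁ (-((χ.lam : ℤ) * N₁) + i) j₁ := by
    intro i
    induction i with
    | zero =>
      intro _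
      have := χ.V_le_Wc hj₁ hc
      simpa using this
    | succ i ih =>
      intro hi
      have h1 : ((-((χ.lam : ℤ) * N₁) + i : ℤ) : ℝ) < x := by
        push_cast at hi ⊢
        linarith
      have h2 := ih (by linarith)
      set l₀ : ℤ := -((χ.lam : ℤ) * N₁) + i with hl₀
      have e0 : (-((χ.lam : ℤ) * N₁) + ((i + 1 : ℕ) : ℤ)) = l₀ + 1 := by
        rw [hl₀]; push_cast; ring
      rw [e0]
      -- a large power
      have hmr : (0 : ℝ) < m := by exact_mod_cast hm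
      obtain ⟨k, hk⟩ := exists_nat_gt ((χ.lam * (N₁ * m * 5) + 5 * m * l₀ + 1 : ℝ) /
        ((x - l₀) * m))
      have h3 : (0 : ℝ) < (x - l₀) * m := mul_pos (by linarith) hmr
      rw [div_lt_iff₀ h3] at hk
      have h4 : l₀ * (m * (5 + k) : ℕ) + 1 ≤ l * k - χ.lam * (N₁ * m * 5) := by
        have : ((l₀ * (m * (5 + k) : ℕ) + 1 : ℤ) : ℝ) ≤
            ((l * k - χ.lam * (N₁ * m * 5) : ℤ) : ℝ) := by
          push_cast
          rw [hl]
          nlinarith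
        exact_mod_cast this
      have h5 : c ^ (m * (5 + k)) ∈ T.V (r * q) (r • D₀) (N₁ * m * (5 + k))
          (j₁ * m * (5 + k : ℕ)) := by
        have e1 : N₁ * m * (5 + k) = N₁ * (m * (5 + k)) := by ring
        have e2 : j₁ * m * ((5 + k : ℕ) : ℤ) = j₁ * ((m * (5 + k) : ℕ) : ℤ) := by push_cast; ring
        unfold Datum.V
        rw [e1, e2, T.dvs_homog]
        intro _ P
        rw [T.X.ord_pow P hc0, Finsupp.smul_apply, nsmul_eq_mul]
        have := hc hc0 P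
        have hp : (0 : ℤ) ≤ ((m * (5 + k) : ℕ) : ℤ) := Nat.cast_nonneg _
        nlinarith
      have h6 := χ.complete_of_full hr hq hD hN₁ hj₁ hm h k h5
      have h7 := χ.Wc_anti h4 h6
      rw [Filt.mem_Wc] at h7 h2 ⊢
      refine hred N₁ l₀ _ h2 (m * (5 + k)) (Nat.mul_pos hm (by omega)) ?_
      rw [monomial_pow]
      have e1 : N₁ * m * (5 + k) = m * (5 + k) * N₁ := by ring
      have e3 : (m * (5 + k)) • expo (r * q) N₁ j₁ 0 0 =
          expo (r * q) (N₁ * m * (5 + k)) (j₁ * m * (5 + k : ℕ)) 0 0 := by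
        have hin := inR0 hj₁
        have hin' := inR0 (range_mul (range_mul hj₁ m) (5 + k))
        have a1 := expo_sum_x hin
        have a2 := expo_sum_y hin
        have a1' := expo_sum_x hin'
        have a2' := expo_sum_y hin'
        rw [expo_1] at a1 a1'
        rw [expo_3] at a2 a2'
        ext i
        rw [Finsupp.smul_apply, smul_eq_mul]
        fin_cases i
        · show m * (5 + k) * expo (r * q) N₁ j₁ 0 0 0 =
            expo (r * q) (N₁ * m * (5 + k)) (j₁ * m * (5 + k : ℕ)) 0 0 0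
          zify
          push_cast at a1 a1' ⊢
          linear_combination ((m : ℤ) * (5 + k)) * a1 - a1'
        · show m * (5 + k) * expo (r * q) N₁ j₁ 0 0 1 =
            expo (r * q) (N₁ * m * (5 + k)) (j₁ * m * (5 + k : ℕ)) 0 0 1
          rw [expo_1, expo_1, mul_zero]
        · show m * (5 + k) * expo (r * q) N₁ j₁ 0 0 2 =
            expo (r * q) (N₁ * m * (5 + k)) (j₁ * m * (5 + k : ℕ)) 0 0 2
          zify
          push_cast at a2 a2' ⊢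
          linear_combination ((m : ℤ) * (5 + k)) * a2 - a2'
        · show m * (5 + k) * expo (r * q) N₁ j₁ 0 0 3 =
            expo (r * q) (N₁ * m * (5 + k)) (j₁ * m * (5 + k : ℕ)) 0 0 3
          rw [expo_3, expo_3, mul_zero]
      rw [e3]
      have e4 : l₀ * ((m * (5 + k) : ℕ) : ℤ) + 1 = ((m * (5 + k) : ℕ) : ℤ) * l₀ + 1 := by ring
      rw [e4, e1] at h7
      rw [e1]
      exact h7
  by_cases h0 : 0 ≤ l' + χ.lam * N₁
  · obtain ⟨i, hi⟩ := Int.eq_ofNat_of_zero_le h0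
    have e : l' = -((χ.lam : ℤ) * N₁) + i := by
      have : l' + χ.lam * N₁ = (i : ℤ) := hi
      linarith
    rw [e] at hl' ⊢
    exact key i hl'
  · exact χ.Wc_anti (by linarith) (χ.V_le_Wc hj₁ hc)

end Filt

end Pool.Agent.YTD
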