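import Pool.Agent.YTD.Gam

/-!
Relations between the generators of `Γ`.
-/

namespace Pool.Agent.YTD

open Finset Module MvPolynomial Filter

variable {K : Type} [Field K] [Algebra ℂ K]
variable {T : Datum K} {q : ℕ} {D₀ : T.X.Pt →₀ ℤ} {r : ℕ}

theorem s1_mul_s1 : s1 * s1 = 1 := by
  ext i j
  fin_cases i <;> fin_cases j <;> simp [s1]

theorem s2_mul_s2 : s2 * s2 = 1 := by
  ext i j
  fin_cases i <;> fin_cases j <;> simp [s2]

theorem s2_mul_s1 : s2 * s1 = (-1) * (s1 * s2) := by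
  ext i j
  fin_cases i <;> fin_cases j <;> simp [s1, s2]

/-- All monomials have even total degree. -/
def EvenDeg (f : MvPolynomial (Fin 4) K) : Prop :=
  ∀ e, f.coeff e ≠ 0 → Even (e 0 + e 1 + e 2 + e 3)

theorem evenDeg_of_bigr {q N : ℕ} {U : ℤ → Submodule ℂ K} {f : MvPolynomial (Fin 4) K}
    (hf : f ∈ bigr q N U) : EvenDeg f := by
  intro e he
  obtain ⟨j, _, h1, h2, _⟩ := hf e he
  have h3 : ((e 0 + e 1 + e 2 + e 3 : ℕ) : ℤ) = 2 * (25 * q * N) := by
    push_cast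
    linarith
  have h4 : e 0 + e 1 + e 2 + e 3 = 2 * (25 * q * N) := by exact_mod_cast h3
  rw [h4]
  exact even_two_mul _

theorem evenDeg_of_sec {N : ℕ} {f : MvPolynomial (Fin 4) K} (hf : f ∈ T.sec q D₀ N) :
    EvenDeg f := evenDeg_of_bigr hf

theorem EvenDeg.coefE {f : MvPolynomial (Fin 4) K} (hf : EvenDeg f) (θ : K ≃ₐ[ℂ] K) :
    EvenDeg (MvPolynomial.map (θ : K →+* K) f) := by
  intro e he
  apply hf e
  intro h
  apply he
  rw [coeff_map, h, map_zero]

theorem subst_neg_one_monomial (e : Fin 4 →₀ ℕ) (z : K) :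
    subst (-1) (-1) (monomial e z) = (-1) ^ (e 0 + e 1 + e 2 + e 3) * monomial e z := by
  have hX : ∀ i : Fin 4, subst (K := K) (-1) (-1) (X i) = -X i := by
    intro i
    have hi : i = 0 ∨ i = 1 ∨ i = 2 ∨ i = 3 := by
      fin_cases i <;> simp
    rcases hi with rfl | rfl | rfl | rfl
    · rw [subst_X0]
      simp
    · rw [subst_X1]
      simp
    · rw [subst_X2]
      simp
    · rw [subst_X3]
      simp
  have h1 : monomial e z = C z * (X 0 ^ e 0 * X 1 ^ e 1 * X 2 ^ e 2 * X 3 ^ e 3) := by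
    rw [monomial_eq, Finsupp.prod_fintype _ _ (fun i => pow_zero _), Fin.prod_univ_four]
  have hC : subst (K := K) (-1) (-1) (C z) = C z := (subst (K := K) (-1) (-1)).commutes z
  rw [h1, map_mul, map_mul, map_mul, map_mul, map_pow, map_pow, map_pow, map_pow, hX, hX, hX, hX,
    hC, neg_pow (X 0 : MvPolynomial (Fin 4) K), neg_pow (X 1 : MvPolynomial (Fin 4) K),
    neg_pow (X 2 : MvPolynomial (Fin 4) K), neg_pow (X 3 : MvPolynomial (Fin 4) K)]
  ring

theorem EvenDeg.subst_neg_one {f : MvPolynomial (Fin 4) K} (hf : EvenDeg f) :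
    subst (-1) (-1) f = f := by
  conv_lhs => rw [f.as_sum]
  conv_rhs => rw [f.as_sum]
  rw [map_sum]
  apply sum_congr rfl
  intro e he
  rw [subst_neg_one_monomial, (hf e (MvPolynomial.mem_support_iff.1 he)).neg_one_pow, one_mul]

theorem map_map_comm {θ θ' : K ≃ₐ[ℂ] K} (h : ∀ z, θ (θ' z) = θ' (θ z))
    (f : MvPolynomial (Fin 4) K) : MvPolynomial.map (θ : K →+* K) (MvPolynomial.map (θ' : K →+* K) f) =
      MvPolynomial.map (θ' : K →+* K) (MvPolynomial.map (θ : K →+* K) f) := by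
  ext e
  rw [coeff_map, coeff_map, coeff_map, coeff_map]
  exact h _

theorem map_map_self {θ : K ≃ₐ[ℂ] K} (h : ∀ z, θ (θ z) = z)
    (f : MvPolynomial (Fin 4) K) :
    MvPolynomial.map (θ : K →+* K) (MvPolynomial.map (θ : K →+* K) f) = f := by
  ext e
  rw [coeff_map, coeff_map]
  exact h _

theorem map_subst (θ : K ≃ₐ[ℂ] K) (g h : Matrix (Fin 2) (Fin 2) ℂ)
    (f : MvPolynomial (Fin 4) K) : MvPolynomial.map (θ : K →+* K) (subst g h f) =
      subst g h (MvPolynomial.map (θ : K →+* K) f) := coefE_subst θ g h f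

theorem rename_subst (g h : Matrix (Fin 2) (Fin 2) ℂ) (f : MvPolynomial (Fin 4) K) :
    rename Inv.swp (subst g h f) = subst h g (rename Inv.swp f) := by
  have key : (rename (R := K) Inv.swp).comp (subst (K := K) g h) =
      (subst (K := K) h g).comp (rename Inv.swp) := by
    apply MvPolynomial.algHom_ext
    intro i
    rw [AlgHom.comp_apply, AlgHom.comp_apply, rename_X]
    have hi : i = 0 ∨ i = 1 ∨ i = 2 ∨ i = 3 := by
      fin_cases i <;> simp
    have hs : ∀ (c : ℂ) (p : MvPolynomial (Fin 4) K), rename Inv.swp (c • p) =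
        c • rename Inv.swp p := fun c p =>
      ((rename (R := K) Inv.swp).toLinearMap.restrictScalars ℂ).map_smul c p
    rcases hi with rfl | rfl | rfl | rfl
    · rw [subst_X0, map_add, hs, hs, rename_X, rename_X, Inv.swp_0, Inv.swp_1, subst_X2]
    · rw [subst_X1, map_add, hs, hs, rename_X, rename_X, Inv.swp_0, Inv.swp_1, subst_X3]
    · rw [subst_X2, map_add, hs, hs, rename_X, rename_X, Inv.swp_2, Inv.swp_3, subst_X0]
    · rw [subst_X3, map_add, hs, hs, rename_X, rename_X, Inv.swp_2, Inv.swp_3, subst_X1]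
  exact congrArg (fun φ : MvPolynomial (Fin 4) K →ₐ[K] MvPolynomial (Fin 4) K => φ f) key

namespace Gam

variable (γ : Gam T)

theorem E₁_E₁ (f : MvPolynomial (Fin 4) K) : γ.E₁ (γ.E₁ f) = f := by
  rw [γ.E₁_eq f, γ.E₁_apply, subst_subst, s1_mul_s1, subst_one, map_map_self γ.θθ₁]

theorem E₂_E₂ (f : MvPolynomial (Fin 4) K) : γ.E₂ (γ.E₂ f) = f := by
  rw [γ.E₂_eq f, γ.E₂_apply, subst_subst, s2_mul_s2, subst_one, map_map_self γ.θθ₂]

theorem E₁_tauE (f : MvPolynomial (Fin 4) K) : γ.E₁ (γ.tauE f) = γ.tauE (γ.E₁ f) := by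
  rw [γ.E₁_eq, γ.E₁_eq, γ.toInv.tauE_apply, γ.toInv.tauE_apply, rename_subst, map_subst,
    map_rename, map_rename, map_rename, map_map_comm (fun z => (γ.comm₁ z).symm)]

theorem E₂_tauE (f : MvPolynomial (Fin 4) K) : γ.E₂ (γ.tauE f) = γ.tauE (γ.E₂ f) := by
  rw [γ.E₂_eq, γ.E₂_eq, γ.toInv.tauE_apply, γ.toInv.tauE_apply, rename_subst, map_subst,
    map_rename, map_rename, map_rename, map_map_comm (fun z => (γ.comm₂ z).symm)]

theorem E₁_E₂' {f : MvPolynomial (Fin 4) K} (hf : EvenDeg f) :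
    γ.E₁ (γ.E₂ f) = γ.E₂ (γ.E₁ f) := by
  rw [γ.E₁_eq (γ.E₂ f), γ.E₂_eq f, γ.E₂_eq (γ.E₁ f), γ.E₁_eq f, map_subst, map_subst, subst_subst,
    subst_subst, map_map_comm γ.comm₁₂, s2_mul_s1, ← subst_subst,
    ((hf.coefE γ.θ₁).coefE γ.θ₂).subst_neg_one]

theorem E₁_E₂ {q N : ℕ} {U : ℤ → Submodule ℂ K} {f : MvPolynomial (Fin 4) K}
    (hf : f ∈ bigr q N U) : γ.E₁ (γ.E₂ f) = γ.E₂ (γ.E₁ f) := γ.E₁_E₂' (evenDeg_of_bigr hf)

theorem E₁_smul (z : K) (f : MvPolynomial (Fin 4) K) : γ.E₁ (z • f) = γ.θ₁ z • γ.E₁ f := by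
  rw [MvPolynomial.smul_eq_C_mul, map_mul, MvPolynomial.smul_eq_C_mul]
  congr 1
  rw [γ.E₁_apply]
  have h1 : subst (K := K) s1 s1 (C z) = C z := (subst (K := K) s1 s1).commutes z
  rw [h1, map_C]
  rfl

theorem E₂_smul (z : K) (f : MvPolynomial (Fin 4) K) : γ.E₂ (z • f) = γ.θ₂ z • γ.E₂ f := by
  rw [MvPolynomial.smul_eq_C_mul, map_mul, MvPolynomial.smul_eq_C_mul]
  congr 1
  rw [γ.E₂_apply]
  have h1 : subst (K := K) s2 s2 (C z) = C z := (subst (K := K) s2 s2).commutes z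
  rw [h1, map_C]
  rfl

theorem tauE_smul (z : K) (f : MvPolynomial (Fin 4) K) : γ.tauE (z • f) = γ.θ z • γ.tauE f := by
  rw [MvPolynomial.smul_eq_C_mul, map_mul, MvPolynomial.smul_eq_C_mul]
  congr 1
  rw [γ.toInv.tauE_apply, rename_C, map_C]
  rfl

theorem evenDeg_E₁ {f : MvPolynomial (Fin 4) K} (hf : EvenDeg f) : EvenDeg (γ.E₁ f) := by
  intro e he
  rw [γ.E₁_apply, coeff_map] at he
  have h1 : (subst s1 s1 f).coeff e ≠ 0 := by
    intro h
    apply he
    rw [h, map_zero]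
  have h2 : subst (-1) (-1) (subst s1 s1 f) = subst s1 s1 f := by
    rw [subst_subst, show s1 * -1 = -1 * s1 by rw [mul_neg, neg_mul, mul_one, one_mul],
      ← subst_subst, hf.subst_neg_one]
  have h3 : (subst (-1) (-1) (subst s1 s1 f)).coeff e =
      (-1) ^ (e 0 + e 1 + e 2 + e 3) * (subst s1 s1 f).coeff e := by
    generalize subst s1 s1 f = g
    conv_lhs => rw [g.as_sum]
    rw [map_sum, coeff_sum]
    have h4 : ∀ x ∈ g.support, (subst (-1) (-1) (monomial x (g.coeff x))).coeff e =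
        if x = e then (-1) ^ (e 0 + e 1 + e 2 + e 3) * g.coeff e else 0 := by
      intro x _
      rw [subst_neg_one_monomial]
      have h5 : ((-1 : MvPolynomial (Fin 4) K)) ^ (x 0 + x 1 + x 2 + x 3) =
          C ((-1) ^ (x 0 + x 1 + x 2 + x 3)) := by
        rw [map_pow, map_neg, C_1]
      rw [h5, coeff_C_mul, coeff_monomial]
      split_ifs with h6
      · rw [h6]
      · rw [mul_zero]
    rw [sum_congr rfl h4, sum_ite_eq' g.support e]
    split_ifs with h7
    · rfl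
    · rw [MvPolynomial.notMem_support_iff.1 h7, mul_zero]
  rw [h2] at h3
  by_contra hodd
  rw [Nat.not_even_iff_odd] at hodd
  rw [hodd.neg_one_pow, neg_one_mul] at h3
  have h8 : (2 : K) * (subst s1 s1 f).coeff e = 0 := by
    rw [two_mul]
    nth_rewrite 1 [h3]
    exact neg_add_cancel _
  have h9 : (2 : K) ≠ 0 := by
    have : (algebraMap ℂ K) 2 ≠ 0 := (map_ne_zero _).2 two_ne_zero
    rwa [map_ofNat] at this
  rcases mul_eq_zero.1 h8 with h | h
  · exact h9 h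
  · exact h1 h

end Gam

end Pool.Agent.YTD
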