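import Pool.Agent.YTD.Semi

/-!
A small gap forces the envelope to be affine away from the zeros of `gg`.
-/

namespace Pool.Agent.YTD

open Finset Filter

theorem tel_second (g : ℕ → ℝ) (m : ℕ) :
    ∑ c ∈ range m, (g (c + 2) - 2 * g (c + 1) + g c) = (g (m + 1) - g m) - (g 1 - g 0) := by
  induction m with
  | zero => simp
  | succ m ih =>
    rw [sum_range_succ, ih]
    ring

theorem concave_tent (g : ℕ → ℝ) (n : ℕ) (hn : 0 < n)
    (h : ∀ c < 2 * n - 1, g (c + 2) - 2 * g (c + 1) + g c ≤ 0) :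
    -(g (2 * n) - 2 * g n + g 0) ≤
      n * ∑ c ∈ range (2 * n - 1), -(g (c + 2) - 2 * g (c + 1) + g c) := by
  have hs : ∀ c c', c ≤ c' → c' ≤ 2 * n - 1 → g (c' + 1) - g c' ≤ g (c + 1) - g c := by
    intro c c' hc hc'
    induction c', hc using Nat.le_induction with
    | base => exact le_rfl
    | succ c' _ ih =>
      have h1 := ih (by omega)
      have h2 := h c' (by omega)
      linarith
  rw [sum_neg_distrib, tel_second]
  have e1 : 2 * n - 1 + 1 = 2 * n := by omega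
  rw [e1]
  have h1 : g n - g 0 ≤ n * (g 1 - g 0) := by
    rw [← sum_range_sub]
    calc ∑ i ∈ range n, (g (i + 1) - g i) ≤ ∑ _i ∈ range n, (g (0 + 1) - g 0) := by
          apply sum_le_sum
          intro i hi
          have := mem_range.1 hi
          exact hs 0 i (Nat.zero_le _) (by omega)
      _ = n * (g 1 - g 0) := by rw [sum_const, card_range, nsmul_eq_mul]
  have h2 : n * (g (2 * n) - g (2 * n - 1)) ≤ g (2 * n) - g n := by
    have e2 : g (2 * n) - g n = ∑ i ∈ range n, (g (n + i + 1) - g (n + i)) := by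
      have := sum_range_sub (fun i => g (n + i)) n
      simp only [add_zero] at this
      rw [two_mul, ← this]
      rfl
    rw [e2]
    calc n * (g (2 * n) - g (2 * n - 1)) = ∑ _i ∈ range n, (g (2 * n - 1 + 1) - g (2 * n - 1)) := by
          rw [sum_const, card_range, nsmul_eq_mul, e1]
      _ ≤ ∑ i ∈ range n, (g (n + i + 1) - g (n + i)) := by
          apply sum_le_sum
          intro i hi
          have := mem_range.1 hi
          exact hs (n + i) (2 * n - 1) (by omega) le_rfl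
  nlinarith

theorem gg_pos_real {Q x : ℝ} (hQ : 0 < Q) (hx : |x| < 5 * Q) (h : 9 * x ^ 2 ≠ 125 * Q ^ 2) :
    0 < gg Q x := by
  unfold gg
  rcases le_total (|x|) (4 * Q) with h1 | h1
  · rw [max_eq_left (by linarith)]
    have : 9 * x ^ 2 - 125 * Q ^ 2 ≠ 0 := sub_ne_zero.2 h
    have h2 : 0 < (9 * x ^ 2 - 125 * Q ^ 2) ^ 2 := by positivity
    norm_num
    exact h2
  · rw [max_eq_right (by linarith)]
    obtain ⟨u, hu⟩ : ∃ u, |x| = 4 * Q + u := ⟨|x| - 4 * Q, by ring⟩
    have hu0 : 0 ≤ u := by linarith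
    have hu1 : u < Q := by linarith
    have hx2 : x ^ 2 = (4 * Q + u) ^ 2 := by rw [← sq_abs, hu]
    rw [hx2, hu]
    have e : (9 * (4 * Q + u) ^ 2 - 125 * Q ^ 2) ^ 2 - 10000 * Q * (4 * Q + u - 4 * Q) ^ 3 =
        (Q - u) * (361 * Q ^ 3 + 3097 * Q ^ 2 * u + 8623 * Q * u ^ 2 - 81 * u ^ 3) := by ring
    rw [e]
    apply mul_pos (by linarith)
    have h1 : 81 * u ^ 3 ≤ 81 * (Q * u ^ 2) := by
      have : u ^ 3 = u * u ^ 2 := by ring
      rw [this]
      have := mul_le_mul_of_nonneg_right hu1.le (sq_nonneg u)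
      linarith
    have h2 : 0 < Q ^ 3 := by positivity
    have h3 : 0 ≤ Q ^ 2 * u := by positivity
    have h4 : 0 ≤ Q * u ^ 2 := by positivity
    linarith

theorem gg_continuous (Q : ℝ) : Continuous (gg Q) := by
  unfold gg
  fun_prop

theorem gg_scale_pow (Q x : ℝ) (i : ℕ) : gg (Q * 2 ^ i) (2 ^ i * x) = 16 ^ i * gg Q x := by
  unfold gg
  have p : (0 : ℝ) < 2 ^ i := by positivity
  have e1 : |2 ^ i * x| - 4 * (Q * 2 ^ i) = 2 ^ i * (|x| - 4 * Q) := by
    rw [abs_mul, abs_of_pos p]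
    ring
  have e2 : max 0 (2 ^ i * (|x| - 4 * Q)) = 2 ^ i * max 0 (|x| - 4 * Q) := by
    rw [mul_max_of_nonneg _ _ p.le, mul_zero]
  have e3 : (16 : ℝ) ^ i = (2 ^ i) ^ 4 := by
    rw [← pow_mul, mul_comm i 4, pow_mul]
    norm_num
  rw [e1, e2, e3]
  ring

theorem Fam.ψ_pow {Q : ℕ} (F : Fam Q) {k : ℕ} {j : ℤ} (h : |j| ≤ 5 * Q * 2 ^ k) (i : ℕ) :
    F.ψ (k + i) (2 ^ i * j) = 2 ^ i * F.ψ k j := by
  induction i with
  | zero => simp
  | succ i ih =>
    have h1 := F.ψ_double (Fam.rng_pow h i)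
    have e : (2 : ℤ) ^ (i + 1) * j = 2 * (2 ^ i * j) := by
      rw [pow_succ]
      ring
    rw [e, ← add_assoc, h1, ih, pow_succ]
    ring

/-- (K) -/
theorem Fam.kink {Q : ℕ} (hQ : 0 < Q) (F : Fam Q)
    (h : ∃ η : ℕ → ℝ, Tendsto η atTop (nhds 0) ∧ ∀ᶠ k : ℕ in atTop, F.gap k ≤ η k * 16 ^ k)
    {k : ℕ} {j : ℤ} (hj : |j| + 1 < 5 * Q * 2 ^ k)
    (hx : ∀ x : ℝ, |x - j| ≤ 1 → 9 * x ^ 2 ≠ 125 * ((Q : ℝ) * 2 ^ k) ^ 2) :
    F.ψ k (j - 1) + F.ψ k (j + 1) = 2 * F.ψ k j := by
  obtain ⟨η, hη, hgap⟩ := h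
  have hj0 := abs_nonneg j
  have hj1 : |j| ≤ 5 * Q * 2 ^ k := by linarith
  have hj2 : |j - 1| ≤ 5 * Q * 2 ^ k := by
    have := abs_sub j 1
    rw [abs_one] at this
    linarith
  have hj3 : |j + 1| ≤ 5 * Q * 2 ^ k := by
    have := abs_add_le j 1
    rw [abs_one] at this
    linarith
  -- the lower bound for `gg`
  have hQk : (0 : ℝ) < (Q : ℝ) * 2 ^ k := by positivity
  obtain ⟨c₀, hc₀, hc₁⟩ : ∃ c₀ : ℝ, 0 < c₀ ∧ ∀ x : ℝ, |x - j| ≤ 1 → c₀ ≤ gg ((Q : ℝ) * 2 ^ k) x := by
    have hcpt : IsCompact (Set.Icc ((j : ℝ) - 1) (j + 1)) := isCompact_Icc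
    obtain ⟨x₀, hx₀, hmin⟩ := hcpt.exists_isMinOn ⟨(j : ℝ), by constructor <;> linarith⟩
      (gg_continuous ((Q : ℝ) * 2 ^ k)).continuousOn
    have hmem : ∀ x : ℝ, |x - j| ≤ 1 → x ∈ Set.Icc ((j : ℝ) - 1) (j + 1) := by
      intro x hx
      rw [abs_le] at hx
      constructor <;> linarith [hx.1, hx.2]
    have hx₀' : |x₀ - j| ≤ 1 := by
      rw [abs_le]
      constructor <;> linarith [hx₀.1, hx₀.2]
    refine ⟨gg ((Q : ℝ) * 2 ^ k) x₀, ?_, fun x hx => hmin (hmem x hx)⟩
    apply gg_pos_real hQk _ (hx x₀ hx₀')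
    have h1 : |x₀| ≤ |(j : ℝ)| + 1 := by
      have := abs_add_le (x₀ - j) (j : ℝ)
      rw [sub_add_cancel] at this
      linarith
    have h2 : |(j : ℝ)| + 1 < 5 * Q * 2 ^ k := by exact_mod_cast hj
    linarith
  -- the main inequality
  have key : ∀ i : ℕ, c₀ * -(F.ψ k (j + 1) - 2 * F.ψ k j + F.ψ k (j - 1)) * 16 ^ i ≤
      F.gap (k + i) := by
    intro i
    set M : ℕ := 5 * (Q * 2 ^ (k + i)) with hM
    have hMe : (5 * (Q : ℤ) * 2 ^ (k + i)) = (M : ℤ) := by
      rw [hM]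
      push_cast
      ring
    set n : ℕ := 2 ^ i with hn
    have hn0 : 0 < n := by positivity
    have hne : ((2 : ℤ) ^ i) = (n : ℤ) := by
      rw [hn]
      push_cast
      rfl
    have r2 := Fam.rng_pow hj2 i
    have r3 := Fam.rng_pow hj3 i
    have r1 := Fam.rng_pow hj1 i
    rw [hMe, hne, abs_le] at r1 r2 r3
    have q2 : (n : ℤ) * (j - 1) = n * j - n := by ring
    have q3 : (n : ℤ) * (j + 1) = n * j + n := by ring
    rw [q2] at r2
    rw [q3] at r3
    obtain ⟨s, hs⟩ : ∃ s : ℕ, (s : ℤ) = n * j - n + M := ⟨((n : ℤ) * j - n + M).toNat,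
      Int.toNat_of_nonneg (by linarith [r2.1])⟩
    set g : ℕ → ℝ := fun c => F.ψ (k + i) ((n : ℤ) * j - n + c) with hg
    have hg0 : g 0 = 2 ^ i * F.ψ k (j - 1) := by
      rw [hg]
      simp only
      rw [← F.ψ_pow hj2 i, hne]
      congr 1
      push_cast
      ring
    have hgn : g n = 2 ^ i * F.ψ k j := by
      rw [hg]
      simp only
      rw [← F.ψ_pow hj1 i, hne]
      congr 1
      ring
    have hg2 : g (2 * n) = 2 ^ i * F.ψ k (j + 1) := by
      rw [hg]
      simp only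
      rw [← F.ψ_pow hj3 i, hne]
      congr 1
      push_cast
      ring
    -- terms of the gap
    have hterm : ∀ c < 2 * n - 1, s + c ∈ range (2 * M - 1) := by
      intro c hc
      rw [mem_range]
      have : (s : ℤ) + c < 2 * M - 1 := by
        have : (c : ℤ) < 2 * n - 1 := by omega
        rw [hs]
        linarith [r3.2]
      omega
    have hidx : ∀ c : ℕ, ((s + c : ℕ) : ℤ) + 1 - M = n * j - n + c + 1 := by
      intro c
      push_cast
      rw [hs]
      ring
    have hidx2 : ∀ c : ℕ, ((s + c : ℕ) : ℤ) + 2 - M = n * j - n + c + 2 := by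
      intro c
      push_cast
      rw [hs]
      ring
    have hidx0 : ∀ c : ℕ, ((s + c : ℕ) : ℤ) - M = n * j - n + c := by
      intro c
      push_cast
      rw [hs]
      ring
    have hgc : ∀ c : ℕ, g (c + 2) - 2 * g (c + 1) + g c =
        F.ψ (k + i) (((s + c : ℕ) : ℤ) + 2 - M) - 2 * F.ψ (k + i) (((s + c : ℕ) : ℤ) + 1 - M) +
          F.ψ (k + i) (((s + c : ℕ) : ℤ) - M) := by
      intro c
      rw [hidx, hidx2, hidx0, hg]
      simp only
      push_cast
      rw [add_assoc, add_assoc]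
    have hneg : ∀ c < 2 * n - 1, g (c + 2) - 2 * g (c + 1) + g c ≤ 0 := by
      intro c hc
      rw [hgc]
      exact (F.gap_term (k + i) (hterm c hc)).2
    have hggc : ∀ c < 2 * n - 1, 16 ^ i * c₀ ≤
        gg ((Q * 2 ^ (k + i) : ℕ) : ℝ) ((((s + c : ℕ) : ℤ) + 1 - M : ℤ) : ℝ) := by
      intro c hc
      rw [hidx]
      have hn' : ((n : ℕ) : ℝ) = 2 ^ i := by
        rw [hn]
        push_cast
        rfl
      have p : (0 : ℝ) < 2 ^ i := by positivity
      have e1 : (((n : ℤ) * j - n + c + 1 : ℤ) : ℝ) = 2 ^ i * (j - 1 + (c + 1) / 2 ^ i) := by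
        push_cast
        rw [hn']
        field_simp
        ring
      have e2 : ((Q * 2 ^ (k + i) : ℕ) : ℝ) = (Q * 2 ^ k) * 2 ^ i := by
        push_cast
        rw [pow_add]
        ring
      rw [e1, e2, gg_scale_pow]
      apply mul_le_mul_of_nonneg_left _ (by positivity)
      apply hc₁
      have hc' : (c : ℝ) + 1 ≤ 2 * 2 ^ i := by
        rw [← hn']
        have : c + 1 ≤ 2 * n := by omega
        exact_mod_cast this
      have h1 : ((c : ℝ) + 1) / 2 ^ i ≤ 2 := by
        rw [div_le_iff₀ p]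
        exact hc'
      have h2 : 0 ≤ ((c : ℝ) + 1) / 2 ^ i := by positivity
      rw [abs_le]
      constructor <;> linarith
    have hgap' : 16 ^ i * c₀ * ∑ c ∈ range (2 * n - 1), -(g (c + 2) - 2 * g (c + 1) + g c) ≤
        F.gap (k + i) := by
      unfold Fam.gap
      rw [← hM, ← sum_neg_distrib]
      have hsub : (range (2 * n - 1)).image (fun c => s + c) ⊆ range (2 * M - 1) := by
        intro x hx
        obtain ⟨c, hc, rfl⟩ := mem_image.1 hx
        exact hterm c (mem_range.1 hc)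
      refine le_trans ?_ (sum_le_sum_of_subset_of_nonneg hsub ?_)
      · rw [sum_image (by intro i _ j _ hij; simp only at hij; omega), mul_sum]
        apply sum_le_sum
        intro c hc
        have hc' := mem_range.1 hc
        rw [← hgc, ← mul_neg]
        apply mul_le_mul_of_nonneg_right (hggc c hc')
        linarith [hneg c hc']
      · intro x hx _
        obtain ⟨h1, h2⟩ := F.gap_term (k + i) hx
        rw [neg_nonneg]
        exact mul_nonpos_of_nonneg_of_nonpos h1 h2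
    have htent := concave_tent g n hn0 hneg
    rw [hg0, hgn, hg2] at htent
    have hn' : ((n : ℕ) : ℝ) = 2 ^ i := by
      rw [hn]
      push_cast
      rfl
    rw [hn'] at htent
    have p : (0 : ℝ) < 2 ^ i := by positivity
    have h3 : 2 ^ i * -(F.ψ k (j + 1) - 2 * F.ψ k j + F.ψ k (j - 1)) ≤
        2 ^ i * ∑ c ∈ range (2 * n - 1), -(g (c + 2) - 2 * g (c + 1) + g c) := by
      refine le_trans (le_of_eq ?_) htent
      ring
    have h4 := le_of_mul_le_mul_left h3 p
    have h5 := mul_le_mul_of_nonneg_left h4 (show 0 ≤ 16 ^ i * c₀ by positivity)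
    linarith
  -- the limit
  have hle : c₀ * -(F.ψ k (j + 1) - 2 * F.ψ k j + F.ψ k (j - 1)) ≤ 0 := by
    have t1 : Tendsto (fun i : ℕ => η (k + i) * 16 ^ k) atTop (nhds (0 * 16 ^ k)) := by
      apply Tendsto.mul_const
      have := hη.comp (tendsto_add_atTop_nat k)
      refine this.congr ?_
      intro i
      simp only [Function.comp]
      rw [add_comm]
    rw [zero_mul] at t1
    apply ge_of_tendsto t1
    have h1 : ∀ᶠ i : ℕ in atTop, F.gap (k + i) ≤ η (k + i) * 16 ^ (k + i) := by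
      have := (tendsto_add_atTop_nat k).eventually hgap
      refine this.mono ?_
      intro i hi
      rw [add_comm k i]
      exact hi
    refine h1.mono ?_
    intro i hi
    have h2 := (key i).trans hi
    rw [pow_add, ← mul_assoc] at h2
    exact le_of_mul_le_mul_right h2 (by positivity)
  have h5 : -(F.ψ k (j + 1) - 2 * F.ψ k j + F.ψ k (j - 1)) ≤ 0 := by
    by_contra h6
    push Not at h6
    have := mul_pos hc₀ h6
    linarith
  have h6 := F.ψ_concave hj2 hj3 hj1 (by ring)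
  linarith

end Pool.Agent.YTD
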