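import Pool.Agent.YTD.MaxSlope

/-!
General points of the curve and residues at them.
-/

namespace Pool.Agent.YTD

open Finset Module MvPolynomial

variable {K : Type} [Field K] [Algebra ℂ K]

namespace Curve

variable (X : Curve K)

theorem infinite_Pt (P₀ : X.Pt) : Infinite X.Pt := by
  classical
  obtain ⟨f, hf, hf0, hord⟩ := X.exists_ord_eq P₀ (D := Finsupp.single P₀ (2 * (X.genus : ℤ) + 1))
    (by rw [X.deg_single]; linarith) P₀
  rw [Finsupp.single_eq_same] at hord
  have hneg : X.ord P₀ f < 0 := by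
    rw [hord]
    have : (0 : ℤ) ≤ X.genus := by positivity
    linarith
  have hsub : ∀ c : ℂ, f - algebraMap ℂ K c ≠ 0 ∧ X.ord P₀ (f - algebraMap ℂ K c) < 0 := by
    intro c
    by_cases hc : c = 0
    · rw [hc, map_zero, sub_zero]
      exact ⟨hf0, hneg⟩
    have hc' : algebraMap ℂ K c ≠ 0 := (map_ne_zero _).2 hc
    have h1 : f - algebraMap ℂ K c ≠ 0 := by
      intro h
      rw [sub_eq_zero.1 h, X.ord_const P₀ c hc] at hneg
      exact lt_irrefl _ hneg
    refine ⟨h1, ?_⟩
    have h2 := X.ord_add P₀ (f - algebraMap ℂ K c) (algebraMap ℂ K c) h1 hc'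
      (by rw [sub_add_cancel]; exact hf0)
    rw [sub_add_cancel, X.ord_const P₀ c hc] at h2
    by_contra h3
    rw [min_eq_right (not_lt.1 h3)] at h2
    linarith
  have hpos : ∀ c : ℂ, ∃ P : X.Pt, 0 < X.ord P (f - algebraMap ℂ K c) := by
    intro c
    obtain ⟨h1, h2⟩ := hsub c
    by_contra hcon
    push Not at hcon
    have h3 : X.deg (Finsupp.single P₀ 1) ≤ X.deg (-X.dv (f - algebraMap ℂ K c)) := by
      apply X.deg_mono
      intro P
      rw [Finsupp.neg_apply, X.dv_apply h1, Finsupp.single_apply]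
      split_ifs with h
      · subst h
        linarith
      · linarith [hcon P]
    rw [X.deg_single, X.deg_neg, X.deg_dv h1] at h3
    linarith
  choose φ hφ using hpos
  apply Infinite.of_injective φ
  intro c c' h
  by_contra hne
  have h1 := hφ c
  have h2 := hφ c'
  rw [← h] at h2
  have h3 : f - algebraMap ℂ K c ≠ 0 := (hsub c).1
  have h4 : f - algebraMap ℂ K c' ≠ 0 := (hsub c').1
  have hcc : c' - c ≠ 0 := sub_ne_zero.2 (Ne.symm hne)
  have e1 : f - algebraMap ℂ K c = (f - algebraMap ℂ K c') + algebraMap ℂ K (c' - c) := by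
    rw [map_sub]
    ring
  have h5 : X.ord (φ c) (algebraMap ℂ K (c' - c)) = 0 := X.ord_const _ _ hcc
  have e2 : algebraMap ℂ K (c' - c) = (f - algebraMap ℂ K c) + (-(f - algebraMap ℂ K c')) := by
    rw [map_sub]
    ring
  have h6 := X.ord_add (φ c) (f - algebraMap ℂ K c) (-(f - algebraMap ℂ K c')) h3
    (neg_ne_zero.2 h4) (by rw [← e2]; exact (map_ne_zero _).2 hcc)
  rw [← e2, h5] at h6
  have h7 : X.ord (φ c) (-(f - algebraMap ℂ K c')) = X.ord (φ c) (f - algebraMap ℂ K c') := by
    have h8 : -(f - algebraMap ℂ K c') = algebraMap ℂ K (-1) * (f - algebraMap ℂ K c') := by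
      rw [map_neg, map_one]
      ring
    rw [h8, X.ord_mul _ _ _ ((map_ne_zero _).2 (by norm_num)) h4,
      X.ord_const _ _ (by norm_num), zero_add]
  rw [h7] at h6
  rcases min_choice (X.ord (φ c) (f - algebraMap ℂ K c)) (X.ord (φ c) (f - algebraMap ℂ K c'))
    with h8 | h8 <;> rw [h8] at h6 <;> linarith

/-- elements vanishing to order at least `n` at `c`. -/
def ovan (c : X.Pt) (n : ℤ) : Submodule ℂ K where
  carrier := {z | z ≠ 0 → n ≤ X.ord c z}
  zero_mem' := fun h => (h rfl).elim
  add_mem' := by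
    intro f g hf hg h
    by_cases hf0 : f = 0
    · subst hf0
      rw [zero_add] at h ⊢
      exact hg h
    by_cases hg0 : g = 0
    · subst hg0
      rw [add_zero] at h ⊢
      exact hf h
    have h1 := X.ord_add c f g hf0 hg0 h
    have h2 := hf hf0
    have h3 := hg hg0
    rcases min_choice (X.ord c f) (X.ord c g) with h4 | h4 <;> rw [h4] at h1 <;> linarith
  smul_mem' := by
    intro x f hf h
    have hc : x ≠ 0 := by
      rintro rfl
      exact h (zero_smul ℂ f)
    have hf0 : f ≠ 0 := by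
      rintro rfl
      exact h (smul_zero x)
    rw [Algebra.smul_def, X.ord_mul c _ _ ((map_ne_zero _).2 hc) hf0, X.ord_const c x hc, zero_add]
    exact hf hf0

theorem mem_ovan {c : X.Pt} {n : ℤ} {z : K} : z ∈ X.ovan c n ↔ (z ≠ 0 → n ≤ X.ord c z) := Iff.rfl

/-- The residue field at a point is `ℂ`. -/
theorem exists_const_sub_mem {c P₁ : X.Pt} (h1 : P₁ ≠ c) {z : K} (hz : z ∈ X.ovan c 0) :
    ∃ x : ℂ, z - algebraMap ℂ K x ∈ X.ovan c 1 := by
  classical
  by_cases hz0 : z = 0
  · refine ⟨0, ?_⟩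
    rw [map_zero, sub_zero, hz0]
    exact zero_mem _
  -- a large divisor with trivial multiplicity at `c`
  set E : X.Pt →₀ ℤ := Finsupp.onFinset (X.dv z).support (fun P => max 0 (-X.ord P z)) (by
    intro P hP
    rw [Finsupp.mem_support_iff, X.dv_apply hz0]
    intro h
    apply hP
    rw [h]
    simp) with hE
  have hEa : ∀ P, E P = max 0 (-X.ord P z) := fun P => rfl
  set n : ℤ := 2 * X.genus with hn
  set D : X.Pt →₀ ℤ := E + Finsupp.single P₁ n with hD
  have hn0 : 0 ≤ n := by positivity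
  have hDP : ∀ P, E P ≤ D P ∧ 0 ≤ D P := by
    intro P
    rw [hD, Finsupp.add_apply, hEa, Finsupp.single_apply]
    have := le_max_left 0 (-X.ord P z)
    split_ifs <;> constructor <;> linarith
  have hDc : D c = 0 := by
    rw [hD, Finsupp.add_apply, hEa, Finsupp.single_eq_of_ne (Ne.symm h1), add_zero]
    have := (X.mem_ovan).1 hz hz0
    exact max_eq_left (by linarith)
  have hdeg : 2 * (X.genus : ℤ) ≤ X.deg D := by
    rw [hD, X.deg_add, X.deg_single]
    have : 0 ≤ X.deg E := X.deg_nonneg (fun P => by rw [hEa]; exact le_max_left _ _)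
    linarith
  have hfin := X.finite_L c D
  have hle : X.L (D - Finsupp.single c 1) ≤ X.L D := X.L_mono (by
    intro Q
    rw [Finsupp.sub_apply, Finsupp.single_apply]
    split_ifs <;> linarith)
  have hfin' : FiniteDimensional ℂ (X.L (D - Finsupp.single c 1)) :=
    Submodule.finiteDimensional_of_le hle
  have hd1 := X.riemann_roch D (by linarith)
  have hd2 := X.riemann_roch (D - Finsupp.single c 1) (by
    rw [X.deg_sub, X.deg_single]
    linarith)
  rw [X.deg_sub, X.deg_single] at hd2
  have h1D : (1 : K) ∈ X.L D := by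
    intro _ P
    rw [X.ord_one, zero_add]
    exact (hDP P).2
  have h1nD : (1 : K) ∉ X.L (D - Finsupp.single c 1) := by
    intro h
    have := h one_ne_zero c
    rw [X.ord_one, Finsupp.sub_apply, Finsupp.single_eq_same, hDc] at this
    linarith
  have hzD : z ∈ X.L D := by
    intro _ P
    have h2 := (hDP P).1
    rw [hEa] at h2
    have := le_max_right 0 (-X.ord P z)
    linarith
  -- the span of one and the smaller space is everything
  have hsup : X.L (D - Finsupp.single c 1) ⊔ Submodule.span ℂ {(1 : K)} = X.L D := by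
    apply Submodule.eq_of_le_of_finrank_le
    · apply sup_le hle
      rw [Submodule.span_singleton_le_iff_mem]
      exact h1D
    · have hlt : X.L (D - Finsupp.single c 1) <
          X.L (D - Finsupp.single c 1) ⊔ Submodule.span ℂ {(1 : K)} := by
        apply lt_of_le_of_ne le_sup_left
        intro h
        apply h1nD
        rw [h]
        exact Submodule.mem_sup_right (Submodule.mem_span_singleton_self _)
      have := Submodule.finrank_lt_finrank_of_lt hlt
      omega
  rw [← hsup, Submodule.mem_sup] at hzD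
  obtain ⟨y, hy, w, hw, hyw⟩ := hzD
  obtain ⟨x, rfl⟩ := Submodule.mem_span_singleton.1 hw
  refine ⟨x, ?_⟩
  have e : z - algebraMap ℂ K x = y := by
    rw [← hyw, Algebra.smul_def, mul_one]
    ring
  rw [e]
  intro hy0
  have := hy hy0 c
  rw [Finsupp.sub_apply, Finsupp.single_eq_same, hDc] at this
  linarith

/-- A `ℂ`-linear extension of the residue map at `c`. -/
theorem exists_residue {c P₁ : X.Pt} (h1 : P₁ ≠ c) :
    ∃ ρ : K →ₗ[ℂ] ℂ, ∀ z ∈ X.ovan c 0, (ρ z = 0 ↔ z ∈ X.ovan c 1) := by
  have hone : (1 : K) ∉ X.ovan c 1 := by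
    intro h
    have := h one_ne_zero
    rw [X.ord_one] at this
    linarith
  obtain ⟨ρ, hρ1, hρ2⟩ := Submodule.exists_dual_map_eq_bot_of_notMem hone inferInstance
  have hker : ∀ z ∈ X.ovan c 1, ρ z = 0 := by
    intro z hz
    have : ρ z ∈ (X.ovan c 1).map ρ := ⟨z, hz, rfl⟩
    rw [hρ2, Submodule.mem_bot] at this
    exact this
  refine ⟨ρ, fun z hz => ⟨fun h => ?_, hker z⟩⟩
  obtain ⟨x, hx⟩ := X.exists_const_sub_mem h1 hz
  have h2 := hker _ hx
  have h3 : ρ (algebraMap ℂ K x) = x * ρ 1 := by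
    rw [Algebra.algebraMap_eq_smul_one, map_smul, smul_eq_mul]
  rw [map_sub, h, h3, zero_sub, neg_eq_zero] at h2
  have h4 : x = 0 := by
    rcases mul_eq_zero.1 h2 with h4 | h4
    · exact h4
    · exact (hρ1 h4).elim
  rw [h4, map_zero, sub_zero] at hx
  exact hx

end Curve

namespace Datum

variable (T : Datum K)

theorem exists_general_point (P₀ : T.X.Pt) (D : T.X.Pt →₀ ℤ) (Z : Finset K) :
    ∃ c : T.X.Pt, c ∉ T.S ∧ c ∉ T.S' ∧ D c = 0 ∧ ∀ z ∈ Z, z ≠ 0 → T.X.ord c z = 0 := by
  classical
  have := T.X.infinite_Pt P₀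
  have hfin : ((T.S : Set T.X.Pt) ∪ T.S' ∪ D.support ∪
      ⋃ z ∈ Z, {P | z ≠ 0 ∧ T.X.ord P z ≠ 0}).Finite := by
    refine (((T.S.finite_toSet).union (T.S'.finite_toSet)).union D.support.finite_toSet).union ?_
    refine Set.Finite.biUnion Z.finite_toSet fun z _ => ?_
    by_cases hz : z = 0
    · convert Set.finite_empty (α := T.X.Pt)
      ext P
      simp [hz]
    · apply (T.X.finite_ord z hz).subset
      intro P hP
      exact hP.2
  obtain ⟨c, hc⟩ := hfin.exists_notMem
  simp only [Set.mem_union, Finset.mem_coe, Finsupp.mem_support_iff, Set.mem_iUnion,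
    Set.mem_ofPred_eq, exists_prop, not_or, not_exists, not_and, not_not] at hc
  obtain ⟨⟨⟨h1, h2⟩, h3⟩, h4⟩ := hc
  exact ⟨c, h1, h2, h3, h4⟩

theorem exists_ne_point (c : T.X.Pt) : ∃ P : T.X.Pt, P ≠ c := by
  classical
  have h := T.card_S
  have ht := T.t_pos
  by_contra hcon
  push Not at hcon
  have : T.S ⊆ {c} := by
    intro P _
    rw [Finset.mem_singleton]
    exact hcon P
  have := Finset.card_le_card this
  rw [Finset.card_singleton, h] at this
  omega

end Datum

/-! ### Coefficientwise application of a linear functional -/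

/-- Apply a linear functional to all coefficients. -/
noncomputable def specm (ρ : K →ₗ[ℂ] ℂ) (f : MvPolynomial (Fin 4) K) : MvPolynomial (Fin 4) ℂ :=
  ∑ e ∈ f.support, monomial e (ρ (f.coeff e))

theorem coeff_specm (ρ : K →ₗ[ℂ] ℂ) (f : MvPolynomial (Fin 4) K) (e : Fin 4 →₀ ℕ) :
    (specm ρ f).coeff e = ρ (f.coeff e) := by
  classical
  unfold specm
  rw [coeff_sum]
  simp only [coeff_monomial]
  rw [Finset.sum_ite_eq']
  split_ifs with h
  · rfl
  · rw [MvPolynomial.notMem_support_iff.1 h, map_zero]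

theorem specm_add (ρ : K →ₗ[ℂ] ℂ) (f g : MvPolynomial (Fin 4) K) :
    specm ρ (f + g) = specm ρ f + specm ρ g := by
  ext e
  rw [coeff_specm, coeff_add, coeff_add, coeff_specm, coeff_specm, map_add]

theorem specm_zero (ρ : K →ₗ[ℂ] ℂ) : specm ρ 0 = 0 := by
  ext e
  rw [coeff_specm, coeff_zero, coeff_zero, map_zero]

theorem specm_sum (ρ : K →ₗ[ℂ] ℂ) {ι : Type*} (s : Finset ι) (f : ι → MvPolynomial (Fin 4) K) :
    specm ρ (∑ i ∈ s, f i) = ∑ i ∈ s, specm ρ (f i) := by
  classical
  induction s using Finset.induction_on with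
  | empty => simp [specm_zero]
  | insert a s ha ih => rw [Finset.sum_insert ha, Finset.sum_insert ha, specm_add, ih]

theorem specm_C_mul (ρ : K →ₗ[ℂ] ℂ) (z : K) (G : MvPolynomial (Fin 4) ℂ) :
    specm ρ (C z * MvPolynomial.map (algebraMap ℂ K) G) = C (ρ z) * G := by
  ext e
  rw [coeff_specm, coeff_C_mul, coeff_C_mul, coeff_map, mul_comm, ← Algebra.smul_def, map_smul,
    smul_eq_mul, mul_comm]

theorem subst_map (g h : Matrix (Fin 2) (Fin 2) ℂ) (G : MvPolynomial (Fin 4) ℂ) :
    subst g h (MvPolynomial.map (algebraMap ℂ K) G) =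
      MvPolynomial.map (algebraMap ℂ K) (subst g h G) := by
  have key : ((subst (K := K) g h) : MvPolynomial (Fin 4) K →+* MvPolynomial (Fin 4) K).comp
      (MvPolynomial.map (algebraMap ℂ K)) =
      (MvPolynomial.map (algebraMap ℂ K)).comp
        ((subst (K := ℂ) g h) : MvPolynomial (Fin 4) ℂ →+* MvPolynomial (Fin 4) ℂ) := by
    apply MvPolynomial.ringHom_ext
    · intro x
      simp only [RingHom.comp_apply, map_C, RingHom.coe_coe]
      rw [← MvPolynomial.algebraMap_eq, ← MvPolynomial.algebraMap_eq, AlgHom.commutes,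
        AlgHom.commutes, MvPolynomial.algebraMap_eq, MvPolynomial.algebraMap_eq, map_C]
    · intro i
      have hs : ∀ (x : ℂ) (p : MvPolynomial (Fin 4) ℂ),
          MvPolynomial.map (algebraMap ℂ K) (x • p) =
            x • MvPolynomial.map (algebraMap ℂ K) p := by
        intro x p
        ext e
        rw [coeff_map, coeff_smul, coeff_smul, coeff_map, smul_eq_mul, map_mul,
          ← Algebra.smul_def]
      have hi : i = 0 ∨ i = 1 ∨ i = 2 ∨ i = 3 := by
        fin_cases i <;> simp
      simp only [RingHom.comp_apply, map_X, RingHom.coe_coe]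
      rcases hi with rfl | rfl | rfl | rfl
      · rw [subst_X0, subst_X0, map_add, hs, hs, map_X, map_X]
      · rw [subst_X1, subst_X1, map_add, hs, hs, map_X, map_X]
      · rw [subst_X2, subst_X2, map_add, hs, hs, map_X, map_X]
      · rw [subst_X3, subst_X3, map_add, hs, hs, map_X, map_X]
  exact congrArg (fun φ : MvPolynomial (Fin 4) ℂ →+* MvPolynomial (Fin 4) K => φ G) key

theorem specm_subst (ρ : K →ₗ[ℂ] ℂ) (g h : Matrix (Fin 2) (Fin 2) ℂ)
    (f : MvPolynomial (Fin 4) K) : specm ρ (subst g h f) = subst g h (specm ρ f) := by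
  have hmono : ∀ (e : Fin 4 →₀ ℕ) (z : K), specm ρ (subst g h (monomial e z)) =
      subst g h (monomial e (ρ z)) := by
    intro e z
    have e1 : (monomial e z : MvPolynomial (Fin 4) K) =
        C z * MvPolynomial.map (algebraMap ℂ K) (monomial e 1) := by
      rw [map_monomial, map_one, C_mul_monomial, mul_one]
    have e2 : (monomial e (ρ z) : MvPolynomial (Fin 4) ℂ) = C (ρ z) * monomial e 1 := by
      rw [C_mul_monomial, mul_one]
    have e3 : subst g h (C z : MvPolynomial (Fin 4) K) = C z := by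
      rw [← MvPolynomial.algebraMap_eq, AlgHom.commutes]
    have e4 : subst g h (C (ρ z) : MvPolynomial (Fin 4) ℂ) = C (ρ z) := by
      rw [← MvPolynomial.algebraMap_eq, AlgHom.commutes]
    rw [e1, e2, map_mul, map_mul, e3, e4, subst_map, specm_C_mul]
  conv_lhs => rw [f.as_sum]
  rw [map_sum, specm_sum]
  unfold specm
  rw [map_sum]
  apply Finset.sum_congr rfl
  intro e _
  have := hmono e (f.coeff e)
  unfold specm at this
  exact this

end Pool.Agent.YTD
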