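import Pool.Agent.YTD.Defs
import Pool.Agent.YTD.Coupling

/-!
Torus-graded filtrations with values in subspaces of the function field.
-/

namespace Pool.Agent.YTD

open Module

/-- in-range indices. -/
def InR (q N : ℕ) (j : ℤ) (a b : ℕ) : Prop :=
  |j| ≤ 5 * q * N ∧ (a : ℤ) ≤ 25 * q * N + 3 * j ∧ (b : ℤ) ≤ 25 * q * N - 3 * j

theorem InR.add {q N N' : ℕ} {j j' : ℤ} {a a' b b' : ℕ} (h : InR q N j a b)
    (h' : InR q N' j' a' b') : InR q (N + N') (j + j') (a + a') (b + b') := by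
  obtain ⟨h1, h2, h3⟩ := h
  obtain ⟨h1', h2', h3'⟩ := h'
  rw [abs_le] at h1 h1'
  refine ⟨?_, ?_, ?_⟩
  · rw [abs_le]
    push_cast
    constructor <;> nlinarith
  · push_cast
    nlinarith
  · push_cast
    nlinarith

/-- the degree of `V N j` at the critical slope. -/
def dg (t q N : ℕ) (j : ℤ) : ℤ :=
  105 * t * q * N - 100 * t * (max 0 (j - 4 * q * N) + max 0 (-j - 4 * q * N))

theorem deg_dvs {K : Type} [Field K] [Algebra ℂ K] (T : Datum K) (q : ℕ) (D₀ : T.X.Pt →₀ ℤ)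
    (N : ℕ) (j : ℤ) : T.X.deg (T.dvs q D₀ N j) = N * T.X.deg D₀ -
      100 * T.t * (max 0 (j - 4 * q * N) + max 0 (-j - 4 * q * N)) := by
  unfold Datum.dvs
  rw [T.X.deg_sub, T.X.deg_sub, T.X.deg_nsmul, T.X.deg_sum, T.X.deg_sum]
  simp only [T.X.deg_single, Finset.sum_const, T.card_S, T.card_S', nsmul_eq_mul]
  push_cast
  ring

theorem deg_dvs_crit {K : Type} [Field K] [Algebra ℂ K] (T : Datum K) (q : ℕ)
    (D₀ : T.X.Pt →₀ ℤ) (hD : T.X.deg D₀ = 105 * T.t * q) (N : ℕ) (j : ℤ) :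
    T.X.deg (T.dvs q D₀ N j) = dg T.t q N j := by
  rw [deg_dvs, hD]
  unfold dg
  ring

theorem dg_le (t q N : ℕ) (j : ℤ) : dg t q N j ≤ 105 * t * q * N := by
  unfold dg
  have h1 := le_max_left 0 (j - 4 * (q : ℤ) * N)
  have h2 := le_max_left 0 (-j - 4 * (q : ℤ) * N)
  have h3 : (0 : ℤ) ≤ 100 * t * (max 0 (j - 4 * (q : ℤ) * N) + max 0 (-j - 4 * (q : ℤ) * N)) := by
    positivity
  linarith

theorem le_dg {t q N : ℕ} {j : ℤ} (h : |j| ≤ 5 * q * N) : 5 * (t : ℤ) * q * N ≤ dg t q N j := by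
  unfold dg
  rw [abs_le] at h
  have h0 : (0 : ℤ) ≤ q * N := by positivity
  have h1 : max 0 (j - 4 * (q : ℤ) * N) + max 0 (-j - 4 * (q : ℤ) * N) ≤ q * N := by
    rcases max_cases 0 (j - 4 * (q : ℤ) * N) with ⟨h2, h2'⟩ | ⟨h2, h2'⟩ <;>
    rcases max_cases 0 (-j - 4 * (q : ℤ) * N) with ⟨h3, h3'⟩ | ⟨h3, h3'⟩ <;>
    rw [h2, h3] <;> nlinarith
  have h4 : 100 * (t : ℤ) * (max 0 (j - 4 * (q : ℤ) * N) + max 0 (-j - 4 * (q : ℤ) * N)) ≤
      100 * t * (q * N) := mul_le_mul_of_nonneg_left h1 (by positivity)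
  nlinarith

theorem dg_double (t q L : ℕ) (j : ℤ) : dg t q (2 * L) (2 * j) = 2 * dg t q L j := by
  unfold dg
  push_cast
  have e1 : max 0 (2 * j - 4 * (q : ℤ) * (2 * L)) = 2 * max 0 (j - 4 * (q : ℤ) * L) := by
    rw [mul_max_of_nonneg _ _ (by norm_num : (0 : ℤ) ≤ 2)]
    congr 1
    ring
  have e2 : max 0 (-(2 * j) - 4 * (q : ℤ) * (2 * L)) = 2 * max 0 (-j - 4 * (q : ℤ) * L) := by
    rw [mul_max_of_nonneg _ _ (by norm_num : (0 : ℤ) ≤ 2)]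
    congr 1
    ring
  rw [e1, e2]
  ring

theorem dg_double_succ (t q L : ℕ) (j : ℤ) :
    dg t q (2 * L) (2 * j + 1) = dg t q L j + dg t q L (j + 1) := by
  unfold dg
  push_cast
  have e1 : max 0 (2 * j + 1 - 4 * (q : ℤ) * (2 * L)) =
      max 0 (j - 4 * (q : ℤ) * L) + max 0 (j + 1 - 4 * (q : ℤ) * L) := by
    have : 4 * (q : ℤ) * (2 * L) = 2 * (4 * (q : ℤ) * L) := by ring
    rw [this]
    generalize 4 * (q : ℤ) * L = u
    omega
  have e2 : max 0 (-(2 * j + 1) - 4 * (q : ℤ) * (2 * L)) =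
      max 0 (-j - 4 * (q : ℤ) * L) + max 0 (-(j + 1) - 4 * (q : ℤ) * L) := by
    have : 4 * (q : ℤ) * (2 * L) = 2 * (4 * (q : ℤ) * L) := by ring
    rw [this]
    generalize 4 * (q : ℤ) * L = u
    omega
  rw [e1, e2]
  ring

variable {K : Type} [Field K] [Algebra ℂ K]

/-- A multiplicative filtration graded by the torus weights `(j, a, b)`, normalized so that the
`0`-th step is everything. -/
structure Graded (T : Datum K) (q : ℕ) (D₀ : T.X.Pt →₀ ℤ) where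
  Λ : ℕ
  W : ℕ → ℕ → ℤ → ℕ → ℕ → Submodule ℂ K
  W_zero : ∀ N j a b, InR q N j a b → W N 0 j a b = T.V q D₀ N j
  W_anti : ∀ N l l' j a b, l ≤ l' → W N l' j a b ≤ W N l j a b
  W_mul : ∀ N N' l l' j j' a a' b b', InR q N j a b → InR q N' j' a' b' →
    ∀ f ∈ W N l j a b, ∀ g ∈ W N' l' j' a' b', f * g ∈ W (N + N') (l + l') (j + j') (a + a') (b + b')
  W_top : ∀ N l j a b, Λ * N < l → W N l j a b = ⊥

namespace Graded

variable {T : Datum K} {q : ℕ} {D₀ : T.X.Pt →₀ ℤ} (G : Graded T q D₀)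

theorem W_le (N l : ℕ) (j : ℤ) (a b : ℕ) (h : InR q N j a b) :
    G.W N l j a b ≤ T.X.L (T.dvs q D₀ N j) := by
  have := G.W_anti N 0 l j a b (Nat.zero_le l)
  rw [G.W_zero N j a b h] at this
  exact this

/-- `Real c L l j a b μ`: multiplication by the piece `(L, l, j, a, b)` of the filtration sends
complete linear systems of degree at least `c` to complete linear systems, raising the degree by
at least `μ`. -/
def Real (c : ℤ) (L l : ℕ) (j : ℤ) (a b : ℕ) (μ : ℤ) : Prop :=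
  InR q L j a b ∧ 0 ≤ μ ∧ ∀ (N' l' : ℕ) (j' : ℤ) (a' b' : ℕ) (D : T.X.Pt →₀ ℤ),
    InR q N' j' a' b' → T.X.L D ≤ G.W N' l' j' a' b' → c ≤ T.X.deg D →
    ∃ D' : T.X.Pt →₀ ℤ, T.X.deg D + μ ≤ T.X.deg D' ∧
      T.X.L D' ≤ G.W (N' + L) (l' + l) (j' + j) (a' + a) (b' + b)

variable {G}

theorem Real.add {c : ℤ} {L₁ L₂ l₁ l₂ : ℕ} {j₁ j₂ : ℤ} {a₁ a₂ b₁ b₂ : ℕ} {μ₁ μ₂ : ℤ}
    (h₁ : G.Real c L₁ l₁ j₁ a₁ b₁ μ₁) (h₂ : G.Real c L₂ l₂ j₂ a₂ b₂ μ₂) :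
    G.Real c (L₁ + L₂) (l₁ + l₂) (j₁ + j₂) (a₁ + a₂) (b₁ + b₂) (μ₁ + μ₂) := by
  refine ⟨h₁.1.add h₂.1, add_nonneg h₁.2.1 h₂.2.1, ?_⟩
  intro N' l' j' a' b' D hin hD hc
  obtain ⟨D', hD'1, hD'2⟩ := h₁.2.2 N' l' j' a' b' D hin hD hc
  have hc' : c ≤ T.X.deg D' := by
    have := h₁.2.1
    linarith
  obtain ⟨D'', hD''1, hD''2⟩ := h₂.2.2 _ _ _ _ _ D' (hin.add h₁.1) hD'2 hc'
  refine ⟨D'', by linarith, ?_⟩
  rw [add_assoc, add_assoc, add_assoc, add_assoc, add_assoc] at hD''2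
  exact hD''2

theorem Real.mono {c : ℤ} {L l : ℕ} {j : ℤ} {a b : ℕ} {μ μ' : ℤ}
    (h : G.Real c L l j a b μ) (h0 : 0 ≤ μ') (h1 : μ' ≤ μ) : G.Real c L l j a b μ' := by
  refine ⟨h.1, h0, ?_⟩
  intro N' l' j' a' b' D hin hD hc
  obtain ⟨D', hD'1, hD'2⟩ := h.2.2 N' l' j' a' b' D hin hD hc
  exact ⟨D', by linarith, hD'2⟩

variable (G)

/-- the pieces of the filtration are realizable, by the pencil trick. -/
theorem real_base (P₀ : T.X.Pt) {c : ℤ} {N l : ℕ} {j : ℤ} {a b : ℕ} (h : InR q N j a b)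
    (hne : G.W N l j a b ≠ ⊥) (hc : T.X.mdeg (G.W N l j a b) + 2 * (T.X.genus : ℤ) - 1 ≤ c) :
    G.Real c N l j a b (T.X.mdeg (G.W N l j a b)) := by
  have hW := G.W_le N l j a b h
  refine ⟨h, CurveOrd.mdeg_nonneg hW hne, ?_⟩
  intro N' l' j' a' b' D hin hD hcD
  refine ⟨D + T.X.mdiv (G.W N l j a b), ?_, ?_⟩
  · rw [T.X.deg_add]
    exact le_refl _
  · refine (T.X.pencil P₀ hW hne (by linarith)).trans ?_
    rw [Submodule.mul_le]
    intro f hf g hg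
    rw [mul_comm]
    exact G.W_mul _ _ _ _ _ _ _ _ _ _ hin h g (hD hg) f hf

end Graded

end Pool.Agent.YTD
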