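import Pool.Agent.YTD.Initial

/-!
Weights and initial spaces: layer sums and the greedy inequality.
-/

namespace Pool.Agent.YTD

open MvPolynomial Module Finset

variable {σ : Type} {K : Type} [Field K] [Algebra ℂ K]

/-- polynomials all of whose exponents have weight at most `c`. -/
def Wle (w : (σ →₀ ℕ) → ℕ) (c : ℕ) : Submodule ℂ (MvPolynomial σ K) where
  carrier := {f | ∀ e, f.coeff e ≠ 0 → w e ≤ c}
  zero_mem' := by
    intro e h
    simp at h
  add_mem' := by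
    intro f g hf hg e h
    by_cases h1 : f.coeff e = 0
    · apply hg
      intro h2
      apply h
      rw [coeff_add, h1, h2, add_zero]
    · exact hf e h1
  smul_mem' := by
    intro c f hf e h
    apply hf
    intro h1
    apply h
    rw [coeff_smul, h1, smul_zero]

theorem mem_Wle {w : (σ →₀ ℕ) → ℕ} {c : ℕ} {f : MvPolynomial σ K} :
    f ∈ Wle w c ↔ ∀ e, f.coeff e ≠ 0 → w e ≤ c := Iff.rfl

/-- the order `m` refines the weight `w` on `E`. -/
def Refines (m : MonomialOrder σ) (w : (σ →₀ ℕ) → ℕ) (E : Finset (σ →₀ ℕ)) : Prop :=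
  ∀ e ∈ E, ∀ e' ∈ E, m.toSyn e' ≤ m.toSyn e → w e' ≤ w e

theorem ini_Wle_bot {m : MonomialOrder σ} {U : Submodule ℂ (MvPolynomial σ K)}
    {w : (σ →₀ ℕ) → ℕ} {c : ℕ} {e : σ →₀ ℕ} (h : c < w e) : ini m (U ⊓ Wle w c) e = ⊥ := by
  rw [eq_bot_iff]
  intro x hx
  obtain ⟨f, hf, _, rfl⟩ := mem_ini.1 hx
  rw [Submodule.mem_bot]
  by_contra h0
  have := hf.2 e h0
  omega

theorem ini_Wle_eq {m : MonomialOrder σ} {U : Submodule ℂ (MvPolynomial σ K)}
    {w : (σ →₀ ℕ) → ℕ} {E : Finset (σ →₀ ℕ)} (hm : Refines m w E)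
    (hU : ∀ f ∈ U, ∀ e, f.coeff e ≠ 0 → e ∈ E) {c : ℕ} {e : σ →₀ ℕ} (he : e ∈ E) (h : w e ≤ c) :
    ini m (U ⊓ Wle w c) e = ini m U e := by
  apply le_antisymm (ini_mono inf_le_left e)
  intro x hx
  obtain ⟨f, hf, hf', rfl⟩ := mem_ini.1 hx
  rw [mem_ini]
  refine ⟨f, ⟨hf, fun e' he' => ?_⟩, hf', rfl⟩
  exact (hm e he e' (hU f hf e' he') (hf' e' he')).trans h

theorem finite_inf {U U' : Submodule ℂ (MvPolynomial σ K)} (h : FiniteDimensional ℂ U) :
    FiniteDimensional ℂ (U ⊓ U' : Submodule ℂ (MvPolynomial σ K)) :=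
  Submodule.finiteDimensional_of_le inf_le_left

/-- Layer sums are intrinsic. -/
theorem finrank_Wle (m : MonomialOrder σ) {U : Submodule ℂ (MvPolynomial σ K)}
    (hfin : FiniteDimensional ℂ U) {w : (σ →₀ ℕ) → ℕ} {E : Finset (σ →₀ ℕ)} (hm : Refines m w E)
    (hU : ∀ f ∈ U, ∀ e, f.coeff e ≠ 0 → e ∈ E) (c : ℕ) :
    finrank ℂ (U ⊓ Wle w c : Submodule ℂ (MvPolynomial σ K)) =
      ∑ e ∈ E with w e ≤ c, finrank ℂ (ini m U e) := by
  rw [finrank_eq_sum_ini m E _ (finite_inf hfin) (fun f hf => hU f hf.1), Finset.sum_filter]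
  apply Finset.sum_congr rfl
  intro e he
  split_ifs with h
  · rw [ini_Wle_eq hm hU he h]
  · rw [ini_Wle_bot (by omega)]
    simp

theorem finrank_Wle_le (m : MonomialOrder σ) {U : Submodule ℂ (MvPolynomial σ K)}
    (hfin : FiniteDimensional ℂ U) (w : (σ →₀ ℕ) → ℕ) {E : Finset (σ →₀ ℕ)}
    (hU : ∀ f ∈ U, ∀ e, f.coeff e ≠ 0 → e ∈ E)
    (hfin' : ∀ e ∈ E, FiniteDimensional ℂ (ini m U e)) (c : ℕ) :
    finrank ℂ (U ⊓ Wle w c : Submodule ℂ (MvPolynomial σ K)) ≤
      ∑ e ∈ E with w e ≤ c, finrank ℂ (ini m U e) := by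
  rw [finrank_eq_sum_ini m E _ (finite_inf hfin) (fun f hf => hU f hf.1), Finset.sum_filter]
  apply Finset.sum_le_sum
  intro e he
  split_ifs with h
  · have := hfin' e he
    exact Submodule.finrank_mono (ini_mono inf_le_left e)
  · rw [ini_Wle_bot (by omega)]
    simp

theorem finite_ini (m : MonomialOrder σ) {U : Submodule ℂ (MvPolynomial σ K)}
    (hfin : FiniteDimensional ℂ U) (e : σ →₀ ℕ) : FiniteDimensional ℂ (ini m U e) := by
  unfold ini
  have : FiniteDimensional ℂ (U ⊓ leDeg m e : Submodule ℂ (MvPolynomial σ K)) := finite_inf hfin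
  infer_instance

/-- layer cake for a natural weight bounded by `M`. -/
theorem sum_weight (E : Finset (σ →₀ ℕ)) (w : (σ →₀ ℕ) → ℕ) (d : (σ →₀ ℕ) → ℕ) (M : ℕ)
    (hM : ∀ e ∈ E, w e ≤ M) :
    ∑ e ∈ E, w e * d e + ∑ c ∈ range M, ∑ e ∈ E with w e ≤ c, d e = M * ∑ e ∈ E, d e := by
  have h : ∀ e ∈ E, w e * d e + ∑ c ∈ range M, (if w e ≤ c then d e else 0) = M * d e := by
    intro e he
    rw [← Finset.sum_filter, Finset.sum_const, smul_eq_mul, ← add_mul]
    congr 1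
    have h1 : (range M).filter (fun c => w e ≤ c) = Finset.Ico (w e) M := by
      ext c
      simp only [Finset.mem_filter, Finset.mem_range, Finset.mem_Ico]
      tauto
    rw [h1, Nat.card_Ico]
    have := hM e he
    omega
  rw [Finset.mul_sum, ← Finset.sum_congr rfl h, Finset.sum_add_distrib]
  congr 1
  rw [Finset.sum_comm]
  apply Finset.sum_congr rfl
  intro c _
  rw [Finset.sum_filter]

/-- The greedy inequality: if `m` refines `w`, and `w'` is a second weight whose layers have the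
same dimensions, then the total `w'`-weight of the leading exponents is at most the total
`w`-weight. -/
theorem greedy (m : MonomialOrder σ) {U : Submodule ℂ (MvPolynomial σ K)}
    (hfin : FiniteDimensional ℂ U) {w w' : (σ →₀ ℕ) → ℕ} {E : Finset (σ →₀ ℕ)}
    (hm : Refines m w E) (hU : ∀ f ∈ U, ∀ e, f.coeff e ≠ 0 → e ∈ E)
    (hww' : ∀ c, finrank ℂ (U ⊓ Wle w c : Submodule ℂ (MvPolynomial σ K)) ≤
      finrank ℂ (U ⊓ Wle w' c : Submodule ℂ (MvPolynomial σ K))) :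
    ∑ e ∈ E, w' e * finrank ℂ (ini m U e) ≤ ∑ e ∈ E, w e * finrank ℂ (ini m U e) := by
  obtain ⟨M, hM⟩ : ∃ M, ∀ e ∈ E, w e ≤ M ∧ w' e ≤ M := by
    refine ⟨∑ e ∈ E, (w e + w' e), fun e he => ?_⟩
    have h : w e + w' e ≤ ∑ e ∈ E, (w e + w' e) :=
      Finset.single_le_sum (f := fun e => w e + w' e) (fun i _ => Nat.zero_le _) he
    constructor <;> omega
  have h1 := sum_weight E w (fun e => finrank ℂ (ini m U e)) M (fun e he => (hM e he).1)
  have h2 := sum_weight E w' (fun e => finrank ℂ (ini m U e)) M (fun e he => (hM e he).2)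
  have h3 : ∑ c ∈ range M, ∑ e ∈ E with w e ≤ c, finrank ℂ (ini m U e) ≤
      ∑ c ∈ range M, ∑ e ∈ E with w' e ≤ c, finrank ℂ (ini m U e) := by
    apply Finset.sum_le_sum
    intro c _
    rw [← finrank_Wle m hfin hm hU c]
    exact (hww' c).trans (finrank_Wle_le m hfin w' hU (fun e _ => finite_ini m hfin e) c)
  omega

end Pool.Agent.YTD
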