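import Pool.Agent.YTD.HilbComb

/-!
The Hilbert function of the quotient of a bigraded algebra by an element.
-/

namespace Pool.Agent.YTD

open Finset Module

set_option linter.unusedSectionVars false

section lin

variable {K R : Type} [Field K] [AddCommGroup R] [Module K R]

open Classical in
/-- counting the elements of a finite family which do not depend on the previous ones. -/
theorem finrank_std {α β : Type} [LinearOrder β] {κ : α → β} (hκ : Function.Injective κ)
    (W : Submodule K R) [FiniteDimensional K W] (u : α → R) (s : Finset α) :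
    finrank K (W ⊔ Submodule.span K (u '' s) : Submodule K R) = finrank K W +
      (s.filter fun a => u a ∉ W ⊔ Submodule.span K (u '' {b | b ∈ s ∧ κ b < κ a})).card := by
  induction s using Finset.induction_on_max_value κ with
  | empty =>
    rw [coe_empty, Set.image_empty, Submodule.span_empty, sup_bot_eq, filter_empty, card_empty,
      add_zero]
  | insert a s ha hmax ih =>
    have hfin : FiniteDimensional K (Submodule.span K (u '' (s : Set α))) :=
      FiniteDimensional.span_of_finite K (s.finite_toSet.image u)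
    have h1 : {b | b ∈ insert a s ∧ κ b < κ a} = (s : Set α) := by
      ext b
      rw [Set.mem_setOf_eq, mem_insert, mem_coe]
      constructor
      · rintro ⟨h | h, h'⟩
        · subst h
          exact (lt_irrefl _ h').elim
        · exact h
      · intro h
        refine ⟨Or.inr h, lt_of_le_of_ne (hmax b h) fun h' => ?_⟩
        exact ha (hκ h' ▸ h)
    have h2 : ∀ x ∈ s, {b | b ∈ insert a s ∧ κ b < κ x} = {b | b ∈ s ∧ κ b < κ x} := by
      intro x hx
      ext b
      rw [Set.mem_setOf_eq, Set.mem_setOf_eq, mem_insert]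
      constructor
      · rintro ⟨h | h, h'⟩
        · subst h
          exact (not_lt.2 (hmax x hx) h').elim
        · exact ⟨h, h'⟩
      · rintro ⟨h, h'⟩
        exact ⟨Or.inr h, h'⟩
    have h3 : (W ⊔ Submodule.span K (u '' ((insert a s : Finset α) : Set α)) : Submodule K R) =
        (W ⊔ Submodule.span K (u '' (s : Set α))) ⊔ Submodule.span K {u a} := by
      rw [coe_insert, Set.image_insert_eq, Submodule.span_insert, sup_comm (Submodule.span K {u a}),
        ← sup_assoc]
    rw [h3, filter_insert, h1]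
    have h4 : (s.filter fun x => u x ∉ W ⊔
        Submodule.span K (u '' {b | b ∈ insert a s ∧ κ b < κ x})) =
        s.filter fun x => u x ∉ W ⊔ Submodule.span K (u '' {b | b ∈ s ∧ κ b < κ x}) :=
      filter_congr fun x hx => by rw [h2 x hx]
    rw [h4]
    set Y : Submodule K R := W ⊔ Submodule.span K (u '' (s : Set α)) with hY
    by_cases hu : u a ∈ Y
    · rw [if_neg (not_not.2 hu), sup_eq_left.2 ((Submodule.span_singleton_le_iff_mem _ _).2 hu)]
      exact ih
    · rw [if_pos hu, card_insert_of_notMem (fun h => ha (mem_filter.1 h).1), ← add_assoc, ← ih]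
      have hu0 : u a ≠ 0 := fun h => hu (h ▸ zero_mem _)
      have h5 := Submodule.finrank_sup_add_finrank_inf_eq Y (Submodule.span K {u a})
      have h6 : Y ⊓ Submodule.span K {u a} = ⊥ := by
        rw [← disjoint_iff]
        exact (Submodule.disjoint_span_singleton' hu0).2 hu
      rw [h6, finrank_bot, add_zero, finrank_span_singleton hu0] at h5
      exact h5

end lin

variable {K R : Type} [Field K] [CommRing R] [IsDomain R] [Algebra K R]
variable {k : ℕ} (n : Fin k → ℕ) (v : Fin k → ℤ) (g : Fin k → R)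

/-- the weight -/
def wtm (m : Fin k → ℕ) : ℤ := ∑ i, (m i : ℤ) * v i

/-- the monomial -/
def mon (m : Fin k → ℕ) : R := ∏ i, g i ^ m i

theorem wtm_add (m m' : Fin k → ℕ) : wtm v (m + m') = wtm v m + wtm v m' := by
  unfold wtm
  rw [← sum_add_distrib]
  exact sum_congr rfl fun i _ => by rw [Pi.add_apply]; push_cast; ring

theorem mon_add (m m' : Fin k → ℕ) : mon g (m + m') = mon g m * mon g m' := by
  unfold mon
  rw [← prod_mul_distrib]
  exact prod_congr rfl fun i _ => by rw [Pi.add_apply, pow_add]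

variable {n v g}

theorem wtm_ge {Λ : ℕ} (hv : ∀ i, -((Λ * n i : ℕ) : ℤ) ≤ v i) (m : Fin k → ℕ) :
    -((Λ * dgm n m : ℕ) : ℤ) ≤ wtm v m := by
  unfold wtm dgm
  push_cast
  rw [mul_sum, ← sum_neg_distrib]
  refine sum_le_sum fun i _ => ?_
  have h := mul_le_mul_of_nonneg_left (hv i) (Nat.cast_nonneg (m i) : (0 : ℤ) ≤ m i)
  push_cast at h
  linarith

/-- the data of a bigraded algebra -/
structure BigrData (n : Fin k → ℕ) (v : Fin k → ℤ) (g : Fin k → R)
    (B : ℕ → ℤ → Submodule K R) (Λ : ℕ) (e : R) : Prop where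
  hn : ∀ i, 1 ≤ n i
  hv : ∀ i, -((Λ * n i : ℕ) : ℤ) ≤ v i
  hgen : ∀ N l, -((Λ * N : ℕ) : ℤ) ≤ l →
    B N l = Submodule.span K (mon g '' {m | dgm n m = N ∧ wtm v m = l})
  hmul : ∀ N N' l l', ∀ x ∈ B N l, ∀ y ∈ B N' l', x * y ∈ B (N + N') (l + l')
  htop : ∀ N l, ((Λ * N : ℕ) : ℤ) < l → B N l = ⊥
  he : e ∈ B 1 (-(Λ : ℤ))
  he0 : e ≠ 0

variable {B : ℕ → ℤ → Submodule K R} {Λ : ℕ} {e : R}

/-- the multiples of `e` -/
def EE (B : ℕ → ℤ → Submodule K R) (Λ : ℕ) (e : R) : ℕ → ℤ → Submodule K R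
  | 0, _ => ⊥
  | N + 1, l => (B N (l + Λ)).map (LinearMap.mulLeft K e)

/-- the standard exponents -/
def StdS (n : Fin k → ℕ) (v : Fin k → ℤ) (g : Fin k → R) (B : ℕ → ℤ → Submodule K R) (Λ : ℕ)
    (e : R) : Set (Fin k → ℕ) :=
  {m | mon g m ∉ EE B Λ e (dgm n m) (wtm v m) ⊔ Submodule.span K
    (mon g '' {m' | (dgm n m' = dgm n m ∧ wtm v m' = wtm v m) ∧ toLex m' < toLex m})}

namespace BigrData

variable (H : BigrData n v g B Λ e)
include H

theorem mon_mem (m : Fin k → ℕ) : mon g m ∈ B (dgm n m) (wtm v m) := by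
  rw [H.hgen _ _ (wtm_ge H.hv m)]
  exact Submodule.subset_span ⟨m, ⟨rfl, rfl⟩, rfl⟩

theorem mul_mem_EE {N : ℕ} {l : ℤ} {x : R} (hx : x ∈ EE B Λ e N l) (a : Fin k → ℕ) :
    mon g a * x ∈ EE B Λ e (N + dgm n a) (l + wtm v a) := by
  cases N with
  | zero =>
    rw [(Submodule.mem_bot K).1 hx, mul_zero]
    exact zero_mem _
  | succ N =>
    obtain ⟨b, hb, rfl⟩ := hx
    have e1 : N + 1 + dgm n a = (N + dgm n a) + 1 := by ring
    rw [e1]
    refine ⟨b * mon g a, ?_, ?_⟩
    · have h := H.hmul _ _ _ _ b hb (mon g a) (H.mon_mem a)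
      have e2 : l + wtm v a + Λ = l + Λ + wtm v a := by ring
      show b * mon g a ∈ B (N + dgm n a) (l + wtm v a + Λ)
      rw [e2]
      exact h
    · rw [LinearMap.mulLeft_apply, LinearMap.mulLeft_apply]
      ring

theorem lower : IsLowerSet (StdS n v g B Λ e) := by
  intro m' m hle hm'
  obtain ⟨a, rfl⟩ : ∃ a, m' = m + a := ⟨m' - m, by
    funext i
    have h : m i ≤ m' i := hle i
    rw [Pi.add_apply, Pi.sub_apply]
    omega⟩
  intro hm
  apply hm'
  obtain ⟨x, hx, y, hy, hxy⟩ := Submodule.mem_sup.1 hm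
  rw [mon_add, mul_comm, ← hxy, mul_add]
  apply Submodule.add_mem_sup
  · rw [dgm_add, wtm_add]
    exact H.mul_mem_EE hx a
  · have h1 : LinearMap.mulLeft K (mon g a) y ∈ (Submodule.span K (mon g '' {m' |
        (dgm n m' = dgm n m ∧ wtm v m' = wtm v m) ∧ toLex m' < toLex m})).map
        (LinearMap.mulLeft K (mon g a)) := ⟨y, hy, rfl⟩
    rw [Submodule.map_span] at h1
    refine Submodule.span_mono ?_ h1
    rintro _ ⟨_, ⟨m', ⟨⟨h2, h3⟩, h4⟩, rfl⟩, rfl⟩
    refine ⟨m' + a, ⟨⟨?_, ?_⟩, ?_⟩, ?_⟩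
    · rw [dgm_add, dgm_add, h2]
    · rw [wtm_add, wtm_add, h3]
    · exact add_lt_add_left h4 _
    · rw [mon_add, LinearMap.mulLeft_apply, mul_comm]

end BigrData

end Pool.Agent.YTD
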