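import Mathlib

/-!
Lower sets of `ℕ^k` and their counting functions.
-/

namespace Pool.Agent.YTD

open Finset

/-- the translated coordinate subspace -/
def Box {k : ℕ} (b : Fin k → ℕ) (A : Finset (Fin k)) : Set (Fin k → ℕ) :=
  {m | (∀ i, b i ≤ m i) ∧ ∀ i, i ∉ A → m i = b i}

theorem stab {k : ℕ} (S : ℕ → Set (Fin k → ℕ)) (hS : ∀ c, IsLowerSet (S c))
    (hanti : ∀ c c', c ≤ c' → S c' ⊆ S c) : ∃ c₀, ∀ c, c₀ ≤ c → S c = S c₀ := by
  by_contra hcon
  push Not at hcon
  have h1 : ∀ c₀, ∃ c, c₀ < c ∧ ∃ m, m ∈ S c₀ ∧ m ∉ S c := by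
    intro c₀
    obtain ⟨c, hc, hne⟩ := hcon c₀
    have hne' : ¬ S c₀ ⊆ S c := fun h => hne (Set.Subset.antisymm (hanti _ _ hc) h)
    obtain ⟨m, hm, hm'⟩ := Set.not_subset.1 hne'
    refine ⟨c, ?_, m, hm, hm'⟩
    rcases hc.lt_or_eq with h | h
    · exact h
    · subst h
      exact (hm' hm).elim
  choose nx hnx mm hmm hmm' using h1
  let seq : ℕ → ℕ := fun i => nx^[i] 0
  have hseq : ∀ i, seq (i + 1) = nx (seq i) := fun i => Function.iterate_succ_apply' nx i 0
  have hmono : StrictMono seq := strictMono_nat_of_lt_succ fun i => by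
    rw [hseq]
    exact hnx _
  obtain ⟨i, j, hij, hle⟩ := wellQuasiOrdered_le (α := Fin k → ℕ) (fun i => mm (seq i))
  have h2 : mm (seq j) ∈ S (seq j) := hmm _
  have h3 : S (seq j) ⊆ S (nx (seq i)) := by
    apply hanti
    rw [← hseq]
    exact hmono.monotone hij
  exact hmm' (seq i) (hS _ hle (h3 h2))

/-- A lower set is a finite union of translated coordinate subspaces. -/
theorem exists_boxes : ∀ (k : ℕ) (S : Set (Fin k → ℕ)), IsLowerSet S →
    ∃ T : Finset ((Fin k → ℕ) × Finset (Fin k)), ∀ m, m ∈ S ↔ ∃ t ∈ T, m ∈ Box t.1 t.2 := by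
  classical
  intro k
  induction k with
  | zero =>
    intro S _
    by_cases h : (0 : Fin 0 → ℕ) ∈ S
    · refine ⟨{(0, ∅)}, fun m => ⟨fun _ => ⟨(0, ∅), mem_singleton_self _, ?_⟩, fun _ => ?_⟩⟩
      · exact ⟨fun i => i.elim0, fun i => i.elim0⟩
      · rw [Subsingleton.elim m 0]
        exact h
    · refine ⟨∅, fun m => ⟨fun hm => (h ?_).elim, ?_⟩⟩
      · rw [Subsingleton.elim 0 m]
        exact hm
      · rintro ⟨t, ht, _⟩
        exact absurd ht (notMem_empty _)
  | succ k ih =>
    intro S hS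
    let Sl : ℕ → Set (Fin k → ℕ) := fun c => {m | (Fin.cons c m : Fin (k + 1) → ℕ) ∈ S}
    have hcons : ∀ {c c' : ℕ} {m m' : Fin k → ℕ}, c ≤ c' → m ≤ m' →
        (Fin.cons c m : Fin (k + 1) → ℕ) ≤ Fin.cons c' m' := by
      intro c c' m m' hc hm i
      refine Fin.cases ?_ (fun i => ?_) i
      · exact hc
      · exact hm i
    have hSl : ∀ c, IsLowerSet (Sl c) := fun c m m' hle hm => hS (hcons le_rfl hle) hm
    obtain ⟨c₀, hc₀⟩ := stab Sl hSl fun c c' h m hm => hS (hcons h le_rfl) hm
    choose T hT using fun c => ih (Sl c) (hSl c)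
    let lift₁ : ℕ → (Fin k → ℕ) × Finset (Fin k) → (Fin (k + 1) → ℕ) × Finset (Fin (k + 1)) :=
      fun c t => (Fin.cons c t.1, t.2.map (Fin.succEmb k))
    let lift₂ : (Fin k → ℕ) × Finset (Fin k) → (Fin (k + 1) → ℕ) × Finset (Fin (k + 1)) :=
      fun t => (Fin.cons c₀ t.1, insert 0 (t.2.map (Fin.succEmb k)))
    have hmem : ∀ (A : Finset (Fin k)) (i : Fin k),
        i.succ ∈ A.map (Fin.succEmb k) ↔ i ∈ A := by
      intro A i
      rw [mem_map]
      constructor
      · rintro ⟨j, hj, hji⟩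
        have : j = i := Fin.succ_injective _ hji
        rwa [this] at hj
      · intro hi
        exact ⟨i, hi, rfl⟩
    have h0 : ∀ (A : Finset (Fin k)), (0 : Fin (k + 1)) ∉ A.map (Fin.succEmb k) := by
      intro A h
      rw [mem_map] at h
      obtain ⟨j, _, hj⟩ := h
      exact Fin.succ_ne_zero j hj
    have hb₁ : ∀ c t (m : Fin (k + 1) → ℕ), m ∈ Box (lift₁ c t).1 (lift₁ c t).2 ↔
        m 0 = c ∧ (fun i => m (Fin.succ i)) ∈ Box t.1 t.2 := by
      intro c t m
      constructor
      · rintro ⟨h1, h2⟩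
        refine ⟨h2 0 (h0 _), fun i => h1 i.succ, fun i hi => ?_⟩
        exact h2 i.succ (fun h => hi ((hmem _ _).1 h))
      · rintro ⟨h1, h2, h3⟩
        refine ⟨fun i => ?_, fun i => ?_⟩
        · refine Fin.cases ?_ (fun i => ?_) i
          · exact h1.ge
          · exact h2 i
        · refine Fin.cases ?_ (fun i => ?_) i
          · intro _
            exact h1
          · intro hi
            exact h3 i (fun h => hi ((hmem _ _).2 h))
    have hb₂ : ∀ t (m : Fin (k + 1) → ℕ), m ∈ Box (lift₂ t).1 (lift₂ t).2 ↔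
        c₀ ≤ m 0 ∧ (fun i => m (Fin.succ i)) ∈ Box t.1 t.2 := by
      intro t m
      constructor
      · rintro ⟨h1, h2⟩
        refine ⟨h1 0, fun i => h1 i.succ, fun i hi => ?_⟩
        refine h2 i.succ (fun h => hi ?_)
        rcases mem_insert.1 h with h | h
        · exact (Fin.succ_ne_zero _ h).elim
        · exact (hmem _ _).1 h
      · rintro ⟨h1, h2, h3⟩
        refine ⟨fun i => ?_, fun i => ?_⟩
        · refine Fin.cases ?_ (fun i => ?_) i
          · exact h1
          · exact h2 i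
        · refine Fin.cases ?_ (fun i => ?_) i
          · intro h
            exact (h (mem_insert_self _ _)).elim
          · intro hi
            exact h3 i (fun h => hi (mem_insert_of_mem ((hmem _ _).2 h)))
    refine ⟨(range c₀).biUnion (fun c => (T c).image (lift₁ c)) ∪ (T c₀).image lift₂,
      fun m => ?_⟩
    have hm : m ∈ S ↔ (fun i => m (Fin.succ i)) ∈ Sl (m 0) := by
      have : (Fin.cons (m 0) (fun i => m (Fin.succ i)) : Fin (k + 1) → ℕ) = m := Fin.cons_self_tail m
      show m ∈ S ↔ (Fin.cons (m 0) (fun i => m (Fin.succ i)) : Fin (k + 1) → ℕ) ∈ S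
      rw [this]
    rw [hm]
    constructor
    · intro h
      rcases lt_or_ge (m 0) c₀ with hlt | hge
      · obtain ⟨t, ht, htm⟩ := (hT _ _).1 h
        refine ⟨lift₁ (m 0) t, mem_union_left _ (mem_biUnion.2 ⟨m 0, mem_range.2 hlt,
          mem_image_of_mem _ ht⟩), ?_⟩
        rw [hb₁]
        exact ⟨rfl, htm⟩
      · rw [hc₀ _ hge] at h
        obtain ⟨t, ht, htm⟩ := (hT _ _).1 h
        refine ⟨lift₂ t, mem_union_right _ (mem_image_of_mem _ ht), ?_⟩
        rw [hb₂]
        exact ⟨hge, htm⟩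
    · rintro ⟨u, hu, hum⟩
      rcases mem_union.1 hu with hu | hu
      · obtain ⟨c, hc, hu⟩ := mem_biUnion.1 hu
        obtain ⟨t, ht, rfl⟩ := mem_image.1 hu
        rw [hb₁] at hum
        rw [hum.1]
        exact (hT _ _).2 ⟨t, ht, hum.2⟩
      · obtain ⟨t, ht, rfl⟩ := mem_image.1 hu
        rw [hb₂] at hum
        rw [hc₀ _ hum.1]
        exact (hT _ _).2 ⟨t, ht, hum.2⟩

variable {k : ℕ} (n : Fin k → ℕ)

/-- the degree -/
def dgm (m : Fin k → ℕ) : ℕ := ∑ i, m i * n i

theorem dgm_add (m m' : Fin k → ℕ) : dgm n (m + m') = dgm n m + dgm n m' := by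
  unfold dgm
  rw [← sum_add_distrib]
  exact sum_congr rfl fun i _ => by rw [Pi.add_apply, add_mul]

variable {n}

theorem le_dgm (hn : ∀ i, 1 ≤ n i) (m : Fin k → ℕ) (i : Fin k) : m i ≤ dgm n m := by
  unfold dgm
  calc m i = m i * 1 := (mul_one _).symm
    _ ≤ m i * n i := Nat.mul_le_mul_left _ (hn i)
    _ ≤ ∑ i, m i * n i := single_le_sum (f := fun i => m i * n i) (fun _ _ => Nat.zero_le _)
        (mem_univ i)

variable (n) in
/-- the exponents of degree `N` -/
def degSet (N : ℕ) : Finset (Fin k → ℕ) :=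
  (Fintype.piFinset fun _ => range (N + 1)).filter fun m => dgm n m = N

theorem mem_degSet (hn : ∀ i, 1 ≤ n i) {N : ℕ} {m : Fin k → ℕ} :
    m ∈ degSet n N ↔ dgm n m = N := by
  unfold degSet
  rw [mem_filter, Fintype.mem_piFinset]
  constructor
  · exact fun h => h.2
  · intro h
    refine ⟨fun i => ?_, h⟩
    rw [mem_range, ← h]
    exact Nat.lt_succ_of_le (le_dgm hn m i)

open Classical in
theorem card_box_le (hn : ∀ i, 1 ≤ n i) {b : Fin k → ℕ} {A : Finset (Fin k)} (hA : A.card ≤ 4)
    (N : ℕ) : ((degSet n N).filter fun m => m ∈ Box b A).card ≤ (N + 1) ^ 3 := by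
  rcases A.eq_empty_or_nonempty with rfl | ⟨i₀, hi₀⟩
  · have : ((degSet n N).filter fun m => m ∈ Box b ∅).card ≤ 1 := by
      rw [card_le_one]
      intro m hm m' hm'
      rw [mem_filter] at hm hm'
      funext i
      rw [hm.2.2 i (notMem_empty _), hm'.2.2 i (notMem_empty _)]
    exact this.trans (Nat.one_le_pow _ _ (Nat.succ_pos _))
  · let R : Fin k → Finset ℕ := fun i => if i ∈ A.erase i₀ then range (N + 1) else {0}
    have hR : (Fintype.piFinset R).card ≤ (N + 1) ^ 3 := by
      rw [Fintype.card_piFinset]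
      have h1 : ∀ i, (R i).card = if i ∈ A.erase i₀ then N + 1 else 1 := by
        intro i
        show (if i ∈ A.erase i₀ then range (N + 1) else {0}).card = _
        split_ifs
        · rw [card_range]
        · rw [card_singleton]
      rw [prod_congr rfl fun i _ => h1 i, prod_ite, prod_const, prod_const_one, mul_one]
      apply Nat.pow_le_pow_right (Nat.succ_pos _)
      have h2 : (univ.filter fun i => i ∈ A.erase i₀) = A.erase i₀ := by
        ext i
        simp
      rw [h2, card_erase_of_mem hi₀]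
      omega
    refine le_trans ?_ hR
    apply card_le_card_of_injOn (fun m i => if i ∈ A.erase i₀ then m i else 0)
    · intro m hm
      rw [mem_coe, mem_filter, mem_degSet hn] at hm
      rw [mem_coe, Fintype.mem_piFinset]
      intro i
      show (if i ∈ A.erase i₀ then m i else 0) ∈ (if i ∈ A.erase i₀ then range (N + 1) else {0})
      split_ifs
      · rw [mem_range, ← hm.1]
        exact Nat.lt_succ_of_le (le_dgm hn m i)
      · exact mem_singleton_self _
    · intro m hm m' hm' heq
      rw [mem_coe, mem_filter, mem_degSet hn] at hm hm'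
      have h3 : ∀ i, i ≠ i₀ → m i = m' i := by
        intro i hi
        by_cases hiA : i ∈ A
        · have h4 := congrFun heq i
          simp only [mem_erase, ne_eq, hi, not_false_eq_true, hiA, and_self, if_true] at h4
          exact h4
        · rw [hm.2.2 i hiA, hm'.2.2 i hiA]
      have h5 : dgm n m = dgm n m' := hm.1.trans hm'.1.symm
      unfold dgm at h5
      rw [← add_sum_erase _ _ (mem_univ i₀), ← add_sum_erase _ _ (mem_univ i₀)] at h5
      have h6 : ∑ i ∈ univ.erase i₀, m i * n i = ∑ i ∈ univ.erase i₀, m' i * n i :=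
        sum_congr rfl fun i hi => by rw [h3 i (ne_of_mem_erase hi)]
      rw [h6] at h5
      have h7 : m i₀ * n i₀ = m' i₀ * n i₀ := Nat.add_right_cancel h5
      have h8 : m i₀ = m' i₀ := Nat.eq_of_mul_eq_mul_right (hn i₀) h7
      funext i
      by_cases hi : i = i₀
      · rw [hi]
        exact h8
      · exact h3 i hi

open Classical in
theorem card_box_ge (A : Finset (Fin k)) {S : Set (Fin k → ℕ)} (hn : ∀ i, 1 ≤ n i)
    (hS : Box 0 A ⊆ S) (M : ℕ) :
    (M + 1) ^ A.card ≤ ∑ N ∈ range ((∑ i, n i) * M + 1), ((degSet n N).filter (· ∈ S)).card := by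
  let R : Fin k → Finset ℕ := fun i => if i ∈ A then range (M + 1) else {0}
  have hR : (Fintype.piFinset R).card = (M + 1) ^ A.card := by
    rw [Fintype.card_piFinset]
    have h1 : ∀ i, (R i).card = if i ∈ A then M + 1 else 1 := by
      intro i
      show (if i ∈ A then range (M + 1) else {0}).card = _
      split_ifs
      · rw [card_range]
      · rw [card_singleton]
    rw [prod_congr rfl fun i _ => h1 i, prod_ite, prod_const, prod_const_one, mul_one]
    have h2 : (univ.filter fun i => i ∈ A) = A := by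
      ext i
      simp
    rw [h2]
  rw [← hR]
  refine le_trans (card_le_card ?_) card_biUnion_le
  intro m hm
  rw [Fintype.mem_piFinset] at hm
  have h1 : ∀ i, m i ≤ M := by
    intro i
    have h := hm i
    change m i ∈ (if i ∈ A then range (M + 1) else {0}) at h
    split_ifs at h
    · rw [mem_range] at h
      omega
    · rw [mem_singleton] at h
      omega
  have h2 : ∀ i, i ∉ A → m i = 0 := by
    intro i hi
    have h := hm i
    change m i ∈ (if i ∈ A then range (M + 1) else {0}) at h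
    rw [if_neg hi, mem_singleton] at h
    exact h
  rw [mem_biUnion]
  refine ⟨dgm n m, ?_, ?_⟩
  · rw [mem_range, Nat.lt_succ_iff]
    unfold dgm
    rw [sum_mul]
    exact sum_le_sum fun i _ => by
      rw [mul_comm]
      exact Nat.mul_le_mul_left _ (h1 i)
  · rw [mem_filter, mem_degSet hn]
    exact ⟨rfl, hS ⟨fun i => Nat.zero_le _, h2⟩⟩

open Classical in
/-- If the cumulative counting function of a lower set grows at most like `N ^ 4`, its counting
function grows at most like `N ^ 3`. -/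
theorem hl1 (hn : ∀ i, 1 ≤ n i) {S : Set (Fin k → ℕ)} (hS : IsLowerSet S) {C : ℕ}
    (hC : ∀ N, ∑ N' ∈ range (N + 1), ((degSet n N').filter (· ∈ S)).card ≤ C * (N + 1) ^ 4) :
    ∃ C' : ℕ, ∀ N, ((degSet n N).filter (· ∈ S)).card ≤ C' * (N + 1) ^ 3 := by
  obtain ⟨T, hT⟩ := exists_boxes k S hS
  have hA : ∀ t ∈ T, t.2.card ≤ 4 := by
    intro t ht
    by_contra hcon
    push Not at hcon
    have hsub : Box 0 t.2 ⊆ S := by
      intro m hm
      have h1 : t.1 + m ∈ S := by
        refine (hT _).2 ⟨t, ht, fun i => ?_, fun i hi => ?_⟩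
        · rw [Pi.add_apply]
          exact Nat.le_add_right _ _
        · rw [Pi.add_apply, hm.2 i hi]
          rfl
      exact hS (fun i => by rw [Pi.add_apply]; exact Nat.le_add_left _ _) h1
    set D := ∑ i, n i with hD
    have h1 : ∀ M : ℕ, (M + 1) ^ 5 ≤ C * (D + 1) ^ 4 * (M + 1) ^ 4 := by
      intro M
      calc (M + 1) ^ 5 ≤ (M + 1) ^ t.2.card := Nat.pow_le_pow_right (Nat.succ_pos _) hcon
        _ ≤ _ := card_box_ge t.2 hn hsub M
        _ ≤ C * (D * M + 1) ^ 4 := hC _
        _ ≤ C * ((D + 1) * (M + 1)) ^ 4 :=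
          Nat.mul_le_mul_left _ (Nat.pow_le_pow_left (by nlinarith) _)
        _ = _ := by ring
    have h2 := h1 (C * (D + 1) ^ 4)
    rw [pow_succ _ 4, mul_comm] at h2
    have h3 := Nat.le_of_mul_le_mul_right h2 (Nat.pow_pos (Nat.succ_pos _))
    omega
  refine ⟨T.card, fun N => ?_⟩
  calc ((degSet n N).filter (· ∈ S)).card
      ≤ (T.biUnion fun t => (degSet n N).filter fun m => m ∈ Box t.1 t.2).card := by
        apply card_le_card
        intro m hm
        rw [mem_filter] at hm
        obtain ⟨t, ht, htm⟩ := (hT m).1 hm.2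
        rw [mem_biUnion]
        exact ⟨t, ht, mem_filter.2 ⟨hm.1, htm⟩⟩
    _ ≤ ∑ t ∈ T, ((degSet n N).filter fun m => m ∈ Box t.1 t.2).card := card_biUnion_le
    _ ≤ ∑ t ∈ T, (N + 1) ^ 3 := sum_le_sum fun t ht => card_box_le hn (hA t ht) N
    _ = _ := by rw [sum_const, smul_eq_mul]

end Pool.Agent.YTD
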