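import Pool.Agent.YTD.HilbAlg

/-!
The growth of the Hilbert function.
-/

namespace Pool.Agent.YTD

open Finset Module

set_option linter.unusedSectionVars false

variable {K R : Type} [Field K] [CommRing R] [IsDomain R] [Algebra K R]
variable {k : ℕ} {n : Fin k → ℕ} {v : Fin k → ℤ} {g : Fin k → R}
variable {B : ℕ → ℤ → Submodule K R} {Λ : ℕ} {e : R}

namespace BigrData

variable (H : BigrData n v g B Λ e)
include H

theorem finite (N : ℕ) (l : ℤ) (hl : -((Λ * N : ℕ) : ℤ) ≤ l) : FiniteDimensional K (B N l) := by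
  rw [H.hgen N l hl]
  apply FiniteDimensional.span_of_finite
  apply Set.Finite.image
  refine (degSet n N).finite_toSet.subset ?_
  rintro m ⟨hm, _⟩
  rw [mem_coe, mem_degSet H.hn]
  exact hm

theorem EE_le (N : ℕ) (l : ℤ) : EE B Λ e N l ≤ B N l := by
  cases N with
  | zero => exact bot_le
  | succ N =>
    rintro _ ⟨b, hb, rfl⟩
    have h := H.hmul _ _ _ _ b hb e H.he
    rw [LinearMap.mulLeft_apply, mul_comm]
    have e1 : l + Λ + -(Λ : ℤ) = l := by ring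
    rw [e1] at h
    exact h

theorem finrank_EE (N : ℕ) (l : ℤ) : finrank K (EE B Λ e (N + 1) l) = finrank K (B N (l + Λ)) :=
  (LinearEquiv.finrank_eq (Submodule.equivMapOfInjective (LinearMap.mulLeft K e)
    (mul_right_injective₀ H.he0) (B N (l + Λ)))).symm

open Classical in
theorem finrank_B (N : ℕ) (l : ℤ) (hl : -((Λ * N : ℕ) : ℤ) ≤ l) :
    finrank K (B N l) = finrank K (EE B Λ e N l) +
      ((degSet n N).filter fun m => m ∈ StdS n v g B Λ e ∧ wtm v m = l).card := by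
  have hfin := H.finite N l hl
  have : FiniteDimensional K (EE B Λ e N l) := Submodule.finiteDimensional_of_le (H.EE_le N l)
  have h := finrank_std (κ := fun m : Fin k → ℕ => toLex m) toLex.injective (EE B Λ e N l)
    (mon g) ((degSet n N).filter fun m => wtm v m = l)
  have h1 : ((((degSet n N).filter fun m => wtm v m = l : Finset (Fin k → ℕ)) : Set (Fin k → ℕ))) =
      {m | dgm n m = N ∧ wtm v m = l} := by
    ext m
    rw [mem_coe, mem_filter, mem_degSet H.hn]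
    rfl
  rw [h1, ← H.hgen N l hl, sup_eq_right.2 (H.EE_le N l)] at h
  rw [h]
  congr 2
  rw [filter_filter]
  ext m
  rw [mem_filter, mem_filter, mem_degSet H.hn]
  constructor
  · rintro ⟨h2, h3, h4⟩
    refine ⟨h2, ?_, h3⟩
    show mon g m ∉ EE B Λ e (dgm n m) (wtm v m) ⊔ Submodule.span K
      (mon g '' {m' | (dgm n m' = dgm n m ∧ wtm v m' = wtm v m) ∧ toLex m' < toLex m})
    simp only [mem_filter, mem_degSet H.hn] at h4
    rw [h2, h3]
    exact h4
  · rintro ⟨h2, h3, h4⟩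
    refine ⟨h2, h4, ?_⟩
    change mon g m ∉ EE B Λ e (dgm n m) (wtm v m) ⊔ Submodule.span K
      (mon g '' {m' | (dgm n m' = dgm n m ∧ wtm v m' = wtm v m) ∧ toLex m' < toLex m}) at h3
    rw [h2, h4] at h3
    simp only [mem_filter, mem_degSet H.hn]
    exact h3

theorem wtm_le {m : Fin k → ℕ} (hm : m ∈ StdS n v g B Λ e) :
    wtm v m ≤ ((Λ * dgm n m : ℕ) : ℤ) := by
  by_contra h
  push Not at h
  have h1 := H.mon_mem m
  rw [H.htop _ _ h, Submodule.mem_bot] at h1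
  apply hm
  rw [h1]
  exact zero_mem _

open Classical in
/-- the number of standard exponents of degree `N` -/
theorem card_std (N : ℕ) : ((degSet n N).filter (· ∈ StdS n v g B Λ e)).card =
    ∑ l ∈ Icc (-((Λ * N : ℕ) : ℤ)) ((Λ * N : ℕ) : ℤ),
      ((degSet n N).filter fun m => m ∈ StdS n v g B Λ e ∧ wtm v m = l).card := by
  have h := card_eq_sum_card_fiberwise (f := fun m => wtm v m)
    (s := (degSet n N).filter (· ∈ StdS n v g B Λ e))
    (t := Icc (-((Λ * N : ℕ) : ℤ)) ((Λ * N : ℕ) : ℤ)) (by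
      intro m hm
      rw [mem_coe, mem_filter, mem_degSet H.hn] at hm
      rw [mem_coe, mem_Icc]
      have h1 := wtm_ge H.hv m
      have h2 := H.wtm_le hm.2
      rw [hm.1] at h1 h2
      exact ⟨h1, h2⟩)
  rw [h]
  refine sum_congr rfl fun l _ => ?_
  rw [filter_filter]

theorem finrank_zero {N : ℕ} {l : ℤ} (h : ((Λ * N : ℕ) : ℤ) < l) : finrank K (B N l) = 0 := by
  rw [H.htop N l h, finrank_bot]

/-- reindexing -/
theorem sum_shift (N : ℕ) : ∑ l ∈ Icc (-((Λ * (N + 1) : ℕ) : ℤ)) ((Λ * (N + 1) : ℕ) : ℤ),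
    finrank K (B N (l + Λ)) =
    ∑ l ∈ Icc (-((Λ * N : ℕ) : ℤ)) ((Λ * N : ℕ) : ℤ), finrank K (B N l) := by
  have h1 : ∑ l ∈ Icc (-((Λ * (N + 1) : ℕ) : ℤ)) ((Λ * (N + 1) : ℕ) : ℤ), finrank K (B N (l + Λ)) =
      ∑ l ∈ Icc (-((Λ * N : ℕ) : ℤ)) ((Λ * (N + 2) : ℕ) : ℤ), finrank K (B N l) := by
    refine sum_bij' (fun l _ => l + Λ) (fun l _ => l - Λ) ?_ ?_ ?_ ?_ ?_
    · intro l hl
      rw [mem_Icc] at hl ⊢
      push_cast at hl ⊢
      constructor <;> linarith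
    · intro l hl
      rw [mem_Icc] at hl ⊢
      push_cast at hl ⊢
      constructor <;> linarith
    · intro l _
      ring
    · intro l _
      ring
    · intro l _
      rfl
  rw [h1]
  symm
  apply sum_subset
  · intro l hl
    rw [mem_Icc] at hl ⊢
    push_cast at hl ⊢
    refine ⟨hl.1, hl.2.trans ?_⟩
    have : (0 : ℤ) ≤ Λ := by positivity
    linarith
  · intro l hl hl'
    rw [mem_Icc] at hl hl'
    apply H.finrank_zero
    by_contra h
    push Not at h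
    exact hl' ⟨hl.1, h⟩

open Classical in
theorem sum_succ (N : ℕ) :
    ∑ l ∈ Icc (-((Λ * (N + 1) : ℕ) : ℤ)) ((Λ * (N + 1) : ℕ) : ℤ), finrank K (B (N + 1) l) =
    ∑ l ∈ Icc (-((Λ * N : ℕ) : ℤ)) ((Λ * N : ℕ) : ℤ), finrank K (B N l) +
      ((degSet n (N + 1)).filter (· ∈ StdS n v g B Λ e)).card := by
  rw [H.card_std, ← H.sum_shift N, ← sum_add_distrib]
  refine sum_congr rfl fun l hl => ?_
  rw [H.finrank_B (N + 1) l (mem_Icc.1 hl).1, H.finrank_EE]

open Classical in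
theorem sum_cum (N : ℕ) :
    ∑ N' ∈ range (N + 1), ((degSet n N').filter (· ∈ StdS n v g B Λ e)).card =
    ∑ l ∈ Icc (-((Λ * N : ℕ) : ℤ)) ((Λ * N : ℕ) : ℤ), finrank K (B N l) := by
  induction N with
  | zero =>
    rw [sum_range_one, H.card_std]
    refine sum_congr rfl fun l hl => ?_
    rw [H.finrank_B 0 l (mem_Icc.1 hl).1]
    show _ = finrank K (⊥ : Submodule K R) + _
    rw [finrank_bot, zero_add]
  | succ N ih =>
    rw [sum_range_succ, ih, H.sum_succ]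

/-- The main result. -/
theorem hilb {C : ℕ} (hC : ∀ N l, finrank K (B N l) ≤ C * (N + 1) ^ 3) :
    ∃ C' : ℕ, ∀ N, ∑ l ∈ Ioc (-((Λ * (N + 1) : ℕ) : ℤ)) ((Λ * (N + 1) : ℕ) : ℤ),
      finrank K (B (N + 1) l) ≤
      ∑ l ∈ Ioc (-((Λ * N : ℕ) : ℤ)) ((Λ * N : ℕ) : ℤ), finrank K (B N l) +
        C' * (N + 2) ^ 3 := by
  classical
  obtain ⟨C', hC'⟩ := hl1 H.hn H.lower (C := (2 * Λ + 1) * C) (by
    intro N
    rw [H.sum_cum]
    calc ∑ l ∈ Icc (-((Λ * N : ℕ) : ℤ)) ((Λ * N : ℕ) : ℤ), finrank K (B N l)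
        ≤ ∑ l ∈ Icc (-((Λ * N : ℕ) : ℤ)) ((Λ * N : ℕ) : ℤ), C * (N + 1) ^ 3 :=
          sum_le_sum fun l _ => hC N l
      _ = (2 * (Λ * N) + 1) * (C * (N + 1) ^ 3) := by
          rw [sum_const, smul_eq_mul, Int.card_Icc]
          congr 1
          omega
      _ ≤ ((2 * Λ + 1) * (N + 1)) * (C * (N + 1) ^ 3) := Nat.mul_le_mul_right _ (by nlinarith)
      _ = _ := by ring)
  refine ⟨C', fun N => ?_⟩
  have h1 := H.sum_succ N
  have h2 := hC' (N + 1)
  have hI : ∀ M : ℕ, ∀ f : ℤ → ℕ, ∑ l ∈ Icc (-((Λ * M : ℕ) : ℤ)) ((Λ * M : ℕ) : ℤ), f l =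
      f (-((Λ * M : ℕ) : ℤ)) + ∑ l ∈ Ioc (-((Λ * M : ℕ) : ℤ)) ((Λ * M : ℕ) : ℤ), f l := by
    intro M f
    rw [← Ioc_insert_left (show -((Λ * M : ℕ) : ℤ) ≤ ((Λ * M : ℕ) : ℤ) by omega), sum_insert
      (by simp)]
  rw [hI (N + 1), hI N] at h1
  have h3 : finrank K (B N (-((Λ * N : ℕ) : ℤ))) ≤
      finrank K (B (N + 1) (-((Λ * (N + 1) : ℕ) : ℤ))) := by
    rw [H.finrank_B (N + 1) _ le_rfl, H.finrank_EE]
    have e1 : -((Λ * (N + 1) : ℕ) : ℤ) + Λ = -((Λ * N : ℕ) : ℤ) := by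
      push_cast
      ring
    rw [e1]
    exact Nat.le_add_right _ _
  have e2 : N + 1 + 1 = N + 2 := rfl
  rw [e2] at h2
  omega

end BigrData

end Pool.Agent.YTD
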