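import Mathlib

/-!
A combinatorial lemma on concave hulls of finite sets.
-/

namespace Pool.Agent.YTD

theorem hull {ι : Type*} (s : Finset ι) (n x w : ι → ℝ) {Q : ℝ} (_hQ : 0 < Q)
    (hn : ∀ i ∈ s, 0 ≤ n i) (hx : ∀ i ∈ s, |x i| ≤ Q * n i)
    (h0 : ∀ i ∈ s, n i = 0 → w i ≤ 0)
    (hL : ∃ i ∈ s, 0 < n i ∧ x i = -(Q * n i)) (hR : ∃ i ∈ s, 0 < n i ∧ x i = Q * n i) :
    (∃ A B : ℝ, (∀ i ∈ s, w i ≤ A * n i + B * x i) ∧
      (∃ i ∈ s, 0 < n i ∧ x i = -(Q * n i) ∧ w i = A * n i + B * x i) ∧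
      (∃ i ∈ s, 0 < n i ∧ x i = Q * n i ∧ w i = A * n i + B * x i)) ∨
    (∃ A B δ : ℝ, 0 < δ ∧ (∀ i ∈ s, w i ≤ A * n i + B * x i) ∧
      ∃ b ∈ s, 0 < n b ∧ |x b| < Q * n b ∧ w b = A * n b + B * x b ∧
      (∀ i ∈ s, w i ≤ A * n i + B * x i - δ * (x i - x b / n b * n i))) := by
  classical
  set sL := s.filter fun i => 0 < n i ∧ x i = -(Q * n i) with hsL
  have hsL' : sL.Nonempty := by
    obtain ⟨i, hi, h⟩ := hL
    exact ⟨i, Finset.mem_filter.2 ⟨hi, h⟩⟩
  obtain ⟨a, ha, hamax⟩ := sL.exists_max_image (fun i => w i / n i) hsL'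
  obtain ⟨ha, han, hax⟩ := Finset.mem_filter.1 ha
  set κ := w a / n a with hκ
  set sl : ι → ℝ := fun i => (w i - κ * n i) / (x i + Q * n i) with hsl
  set s1 := s.filter fun i => 0 < n i ∧ -(Q * n i) < x i with hs1
  obtain ⟨iR, hiR, hnR, hxR⟩ := hR
  have hR1 : iR ∈ s1 := by
    refine Finset.mem_filter.2 ⟨hiR, hnR, ?_⟩
    rw [hxR]
    nlinarith
  obtain ⟨b₀, hb₀, hb₀max⟩ := s1.exists_max_image sl ⟨iR, hR1⟩
  set m := sl b₀ with hm
  set s2 := s1.filter fun i => sl i = m with hs2
  have hb₀2 : b₀ ∈ s2 := Finset.mem_filter.2 ⟨hb₀, rfl⟩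
  obtain ⟨b, hb, hbmax⟩ := s2.exists_max_image (fun i => x i / n i) ⟨b₀, hb₀2⟩
  obtain ⟨hb1, hbm⟩ := Finset.mem_filter.1 hb
  obtain ⟨hbs, hbn, hbx⟩ := Finset.mem_filter.1 hb1
  set A := κ + m * Q with hA
  have hall : ∀ i ∈ s, w i ≤ A * n i + m * x i := by
    intro i hi
    rcases eq_or_lt_of_le (hn i hi) with h | h
    · have h1 := hx i hi
      rw [← h, mul_zero] at h1
      have h2 : x i = 0 := abs_nonpos_iff.1 h1
      rw [← h, h2, mul_zero, mul_zero, add_zero]
      exact h0 i hi h.symm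
    · rcases eq_or_lt_of_le (abs_le.1 (hx i hi)).1 with h1 | h1
      · have h2 := hamax i (Finset.mem_filter.2 ⟨hi, h, h1.symm⟩)
        have h3 : w i ≤ κ * n i := by rwa [div_le_iff₀ h] at h2
        rw [← h1, hA]
        nlinarith
      · have h2 := hb₀max i (Finset.mem_filter.2 ⟨hi, h, h1⟩)
        have h3 : 0 < x i + Q * n i := by linarith
        have h4 : w i - κ * n i ≤ m * (x i + Q * n i) := by
          rwa [hsl, div_le_iff₀ h3] at h2
        rw [hA]
        linarith
  have hbeq : w b = A * n b + m * x b := by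
    have h3 : 0 < x b + Q * n b := by linarith
    have h4 : w b - κ * n b = m * (x b + Q * n b) := by
      have h5 : (w b - κ * n b) / (x b + Q * n b) = m := hbm
      rwa [div_eq_iff h3.ne'] at h5
    rw [hA]
    linarith
  have haeq : w a = A * n a + m * x a := by
    rw [hax, hA]
    have : κ * n a = w a := by rw [hκ]; field_simp
    linarith
  have hbQ := (abs_le.1 (hx b hbs)).2
  rcases eq_or_lt_of_le hbQ with hcase | hcase
  · left
    exact ⟨A, m, hall, ⟨a, ha, han, hax, haeq⟩, ⟨b, hbs, hbn, hcase, hbeq⟩⟩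
  · right
    set s3 := s.filter fun i => 0 < x i - x b / n b * n i with hs3
    have hiR3 : iR ∈ s3 := by
      refine Finset.mem_filter.2 ⟨hiR, ?_⟩
      rw [hxR]
      have : x b / n b < Q := by rwa [div_lt_iff₀ hbn]
      nlinarith
    have hstrict : ∀ i ∈ s3, 0 < A * n i + m * x i - w i := by
      intro i hi
      obtain ⟨his, hi0⟩ := Finset.mem_filter.1 hi
      rcases eq_or_lt_of_le (hall i his) with h | h
      swap
      · linarith
      exfalso
      have hni : 0 < n i := by
        rcases eq_or_lt_of_le (hn i his) with h1 | h1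
        · have h2 := hx i his
          rw [← h1, mul_zero] at h2
          have h3 : x i = 0 := abs_nonpos_iff.1 h2
          rw [← h1, h3] at hi0
          simp at hi0
        · exact h1
      have hbr : -Q < x b / n b := by
        rw [lt_div_iff₀ hbn]
        linarith
      have hix : -(Q * n i) < x i := by nlinarith
      have hi1 : i ∈ s1 := Finset.mem_filter.2 ⟨his, hni, hix⟩
      have h3 : 0 < x i + Q * n i := by linarith
      have hsi : sl i = m := by
        rw [hsl]
        show (w i - κ * n i) / (x i + Q * n i) = m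
        rw [div_eq_iff h3.ne', h, hA]
        ring
      have := hbmax i (Finset.mem_filter.2 ⟨hi1, hsi⟩)
      have h4 : x b / n b < x i / n i := by
        rw [lt_div_iff₀ hni]
        linarith
      linarith
    obtain ⟨c, hc, hcmin⟩ := s3.exists_min_image
      (fun i => (A * n i + m * x i - w i) / (x i - x b / n b * n i)) ⟨iR, hiR3⟩
    have hc0 := (Finset.mem_filter.1 hc).2
    refine ⟨A, m, (A * n c + m * x c - w c) / (x c - x b / n b * n c),
      div_pos (hstrict c hc) hc0, hall, b, hbs, hbn, ?_, hbeq, ?_⟩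
    · rw [abs_lt]
      exact ⟨by linarith, hcase⟩
    · intro i hi
      set δ := (A * n c + m * x c - w c) / (x c - x b / n b * n c) with hδ
      have hδ0 : 0 < δ := div_pos (hstrict c hc) hc0
      by_cases h : 0 < x i - x b / n b * n i
      · have h1 := hcmin i (Finset.mem_filter.2 ⟨hi, h⟩)
        have h2 : δ * (x i - x b / n b * n i) ≤ A * n i + m * x i - w i := by
          rwa [le_div_iff₀ h] at h1
        linarith
      · push Not at h
        have h1 := hall i hi
        have h2 : δ * (x i - x b / n b * n i) ≤ 0 := mul_nonpos_of_nonneg_of_nonpos hδ0.le h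
        linarith

end Pool.Agent.YTD
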