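import Pool.Agent.YTD.HypPts

/-!
The curve `y² = f(x)` as an instance of `CurveOrd`.
-/

namespace Pool.Agent.YTD.Hyp

open Polynomial

noncomputable section

variable {F : Type} [Field F] [Algebra ℂ F] {Λ : LF F} {f : ℂ[X]}

/-- the function `y` -/
def yy : KK f := ⟨0, 1⟩

theorem phi_yy (P : Par F f) : P.phi (yy : KK f) = P.η := by
  rw [Par.phi_apply]
  show P.psi 0 + P.psi 1 * P.η = P.η
  rw [map_zero, map_one]
  ring

theorem emb_mul (p q : ℂ[X]) : (emb (p * q) : KK f) = emb p * emb q := by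
  unfold emb
  rw [map_mul, map_mul]

theorem emb_add (p q : ℂ[X]) : (emb (p + q) : KK f) = emb p + emb q := by
  unfold emb
  rw [map_add, map_add]

theorem emb_one : (emb 1 : KK f) = 1 := by
  unfold emb
  rw [map_one, map_one]

theorem emb_zero : (emb 0 : KK f) = 0 := by
  unfold emb
  rw [map_zero, map_zero]

theorem emb_C (c : ℂ) : (emb (C c) : KK f) = algebraMap ℂ (KK f) c := by
  unfold emb
  rw [← Polynomial.algebraMap_eq, ← IsScalarTower.algebraMap_apply ℂ ℂ[X] (RatFunc ℂ)]
  rfl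

theorem emb_inj : Function.Injective (emb : ℂ[X] → KK f) := by
  intro p q h
  unfold emb at h
  exact RatFunc.algebraMap_injective ℂ (QuadraticAlgebra.algebraMap_injective h)

theorem emb_ne {p : ℂ[X]} (hp : p ≠ 0) : (emb p : KK f) ≠ 0 := by
  intro h
  apply hp
  apply emb_inj (f := f)
  rw [h, emb_zero]

theorem yy_sq : (yy : KK f) * yy = emb f := by
  apply QuadraticAlgebra.ext
  · simp [yy, emb]
  · simp [yy, emb]

/-- Elements `u + v y` of the affine coordinate ring. -/
def aff (u v : ℂ[X]) : KK f := emb u + emb v * yy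

theorem aff_re (u v : ℂ[X]) : (aff u v : KK f).re = algebraMap ℂ[X] (RatFunc ℂ) u := by
  simp [aff, emb, yy]

theorem aff_im (u v : ℂ[X]) : (aff u v : KK f).im = algebraMap ℂ[X] (RatFunc ℂ) v := by
  simp [aff, emb, yy]

theorem star_aff (u v : ℂ[X]) : star (aff u v : KK f) = aff u (-v) := by
  apply QuadraticAlgebra.ext
  · rw [QuadraticAlgebra.re_star, aff_re, aff_re, zero_mul, add_zero]
  · rw [QuadraticAlgebra.im_star, aff_im, aff_im, map_neg]

theorem exists_aff (z : KK f) : ∃ u v q : ℂ[X], q ≠ 0 ∧ z * emb q = aff u v := by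
  obtain ⟨a, b, hb, h1⟩ := IsFractionRing.div_surjective (A := ℂ[X]) z.re
  obtain ⟨c, d, hd, h2⟩ := IsFractionRing.div_surjective (A := ℂ[X]) z.im
  have hb0 : b ≠ 0 := nonZeroDivisors.ne_zero hb
  have hd0 : d ≠ 0 := nonZeroDivisors.ne_zero hd
  have hb1 : algebraMap ℂ[X] (RatFunc ℂ) b ≠ 0 := by
    intro h
    exact hb0 (RatFunc.algebraMap_injective ℂ (by rw [h, map_zero]))
  have hd1 : algebraMap ℂ[X] (RatFunc ℂ) d ≠ 0 := by
    intro h
    exact hd0 (RatFunc.algebraMap_injective ℂ (by rw [h, map_zero]))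
  refine ⟨a * d, c * b, b * d, mul_ne_zero hb0 hd0, ?_⟩
  have e1 : (emb (b * d) : KK f).re = algebraMap ℂ[X] (RatFunc ℂ) (b * d) := rfl
  have e2 : (emb (b * d) : KK f).im = 0 := rfl
  apply QuadraticAlgebra.ext
  · rw [aff_re, QuadraticAlgebra.re_mul, e1, e2, ← h1, map_mul, map_mul]
    field_simp
    ring
  · rw [aff_im, QuadraticAlgebra.im_mul, e1, e2, ← h2, map_mul, map_mul]
    field_simp
    ring

/-- nonsquare condition, needed for the field structure -/
abbrev NonSq (f : ℂ[X]) : Prop :=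
  Fact (∀ r : RatFunc ℂ, r ^ 2 ≠ algebraMap ℂ[X] (RatFunc ℂ) f + 0 * r)

theorem Good.nonSq (G : Good f) : NonSq f := by
  refine ⟨?_⟩
  intro r h
  rw [zero_mul, add_zero] at h
  have hf : algebraMap ℂ[X] (RatFunc ℂ) f ≠ 0 := by
    intro h1
    exact G.ne (RatFunc.algebraMap_injective ℂ (by rw [h1, map_zero]))
  have hr : r ≠ 0 := by
    rintro rfl
    apply hf
    rw [← h]
    ring
  have h1 : (r ^ 2).intDegree = 2 * r.intDegree := by
    rw [sq, RatFunc.intDegree_mul hr hr]
    ring
  rw [h, RatFunc.intDegree_polynomial] at h1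
  obtain ⟨m, hm⟩ := G.odd
  rw [hm] at h1
  push_cast at h1
  omega

section fld

variable [NonSq f]

theorem phi_ne (P : Par F f) {z : KK f} (hz : z ≠ 0) : P.phi z ≠ 0 := by
  intro h
  have h1 : P.phi z * P.phi z⁻¹ = 1 := by
    rw [← map_mul, mul_inv_cancel₀ hz, map_one]
  rw [h, zero_mul] at h1
  exact zero_ne_one h1

theorem ordAt_mul (hf : f ≠ 0) (P : Pts f) {z w : KK f} (hz : z ≠ 0) (hw : w ≠ 0) :
    ordAt Λ hf P (z * w) = ordAt Λ hf P z + ordAt Λ hf P w := by
  unfold ordAt
  rw [map_mul, Λ.ord_mul (phi_ne _ hz) (phi_ne _ hw)]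

theorem ordAt_add (hf : f ≠ 0) (P : Pts f) {z w : KK f} (h : z + w ≠ 0) :
    min (ordAt Λ hf P z) (ordAt Λ hf P w) ≤ ordAt Λ hf P (z + w) := by
  unfold ordAt
  rw [map_add]
  apply Λ.ord_add
  rw [← map_add]
  exact phi_ne _ h

theorem ordAt_const (hf : f ≠ 0) (P : Pts f) (c : ℂ) :
    ordAt Λ hf P (algebraMap ℂ (KK f) c) = 0 := by
  unfold ordAt
  rw [AlgHom.commutes, Λ.ord_const]

theorem ordAt_neg (hf : f ≠ 0) (P : Pts f) (z : KK f) : ordAt Λ hf P (-z) = ordAt Λ hf P z := by
  unfold ordAt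
  rw [map_neg, LF.ord_neg]

theorem ordAt_res (hf : f ≠ 0) (P : Pts f) {z w : KK f} (hz : z ≠ 0) (hw : w ≠ 0)
    (h : ordAt Λ hf P z = ordAt Λ hf P w) :
    ∃ c : ℂ, z - c • w = 0 ∨ ordAt Λ hf P z < ordAt Λ hf P (z - c • w) := by
  obtain ⟨c, hc⟩ := Λ.res (phi_ne (parAt Λ hf P) hz) (phi_ne (parAt Λ hf P) hw) h
  refine ⟨c, ?_⟩
  by_cases h0 : z - c • w = 0
  · exact Or.inl h0
  right
  have h1 := phi_ne (parAt Λ hf P) h0
  have h2 : (parAt Λ hf P).phi (z - c • w) =
      (parAt Λ hf P).phi z - c • (parAt Λ hf P).phi w := by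
    rw [map_sub, map_smul]
  rcases hc with hc | hc
  · rw [h2] at h1
    exact absurd hc h1
  · unfold ordAt
    rw [h2]
    exact hc

theorem ordAt_yy_nonneg (hf : f ≠ 0) (P : APt f) : 0 ≤ ordAt Λ hf (some P) yy := by
  have h1 := two_ord_eta (Λ := Λ) hf (some P)
  have h2 := ordAt_emb_nonneg (Λ := Λ) hf hf P
  unfold ordAt
  rw [phi_yy]
  linarith

theorem yy_ne : (yy : KK f) ≠ 0 := by
  intro h
  have : (yy : KK f).im = (0 : KK f).im := by rw [h]
  have h1 : (1 : RatFunc ℂ) = 0 := this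
  exact one_ne_zero h1

theorem ordAt_aff_nonneg (hf : f ≠ 0) (P : APt f) {u v : ℂ[X]} (h : (aff u v : KK f) ≠ 0) :
    0 ≤ ordAt Λ hf (some P) (aff u v) := by
  by_cases hu : u = 0
  · have hv : v ≠ 0 := by
      rintro rfl
      apply h
      rw [hu, aff, emb_zero]
      ring
    rw [hu, aff, emb_zero, zero_add, ordAt_mul hf _ (emb_ne hv) yy_ne]
    exact add_nonneg (ordAt_emb_nonneg hf hv P) (ordAt_yy_nonneg hf P)
  by_cases hv : v = 0
  · rw [hv, aff, emb_zero, zero_mul, add_zero]
    exact ordAt_emb_nonneg hf hu P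
  have h1 := ordAt_add (Λ := Λ) hf (some P) h
  rw [ordAt_mul hf _ (emb_ne hv) yy_ne] at h1
  have h2 := ordAt_emb_nonneg (Λ := Λ) hf hu P
  have h3 := add_nonneg (ordAt_emb_nonneg (Λ := Λ) hf hv P) (ordAt_yy_nonneg (Λ := Λ) hf P)
  exact le_trans (le_min h2 h3) h1

theorem finite_fiber (hf : f ≠ 0) (a : ℂ) : {P : APt f | P.1.1 = a}.Finite := by
  obtain ⟨b, hb⟩ := IsAlgClosed.exists_pow_nat_eq (f.eval a) (n := 2) (by norm_num)
  have h1 : ({b, -b} : Set ℂ).Finite := Set.toFinite _
  apply Set.Finite.of_finite_image (f := fun P : APt f => P.1.2)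
  · apply h1.subset
    rintro _ ⟨P, hP, rfl⟩
    have h2 : P.1.2 ^ 2 = b ^ 2 := by
      rw [hb, P.2, show P.1.1 = a from hP]
    rcases sq_eq_sq_iff_eq_or_eq_neg.1 h2 with h3 | h3
    · left
      exact h3
    · right
      exact h3
  · intro P hP Q hQ h
    apply Subtype.ext
    apply Prod.ext
    · rw [show P.1.1 = a from hP, show Q.1.1 = a from hQ]
    · exact h

theorem finite_emb (hf : f ≠ 0) {p : ℂ[X]} (hp : p ≠ 0) :
    {P : Pts f | ordAt Λ hf P (emb p) ≠ 0}.Finite := by
  have h1 : {P : APt f | p.eval P.1.1 = 0}.Finite := by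
    have h2 : {P : APt f | p.eval P.1.1 = 0} ⊆
        ⋃ a ∈ p.roots.toFinset, {P : APt f | P.1.1 = a} := by
      intro P hP
      simp only [Set.mem_iUnion]
      refine ⟨P.1.1, ?_, rfl⟩
      rw [Multiset.mem_toFinset, mem_roots hp]
      exact hP
    apply Set.Finite.subset _ h2
    exact Set.Finite.biUnion (Finset.finite_toSet _) (fun a _ => finite_fiber hf a)
  have h2 : {P : Pts f | ordAt Λ hf P (emb p) ≠ 0} ⊆
      {none} ∪ some '' {P : APt f | p.eval P.1.1 = 0} := by
    intro P hP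
    rcases P with _ | P
    · left
      rfl
    · right
      refine ⟨P, ?_, rfl⟩
      by_contra h
      exact hP (ordAt_emb_zero hf P h)
  exact ((Set.finite_singleton _).union (h1.image _)).subset h2

theorem star_ne {z : KK f} (hz : z ≠ 0) : star z ≠ 0 := by
  intro h
  apply hz
  rw [← star_star z, h, star_zero]

theorem aff_mul_star (u v : ℂ[X]) :
    (aff u v : KK f) * star (aff u v) = emb (u * u - f * v * v) := by
  rw [star_aff]
  have e : (emb (u * u - f * v * v) : KK f) = emb (u * u) - emb (f * v * v) := by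
    unfold emb
    rw [map_sub, map_sub]
  have e2 : (emb (-v) : KK f) = - emb v := by
    unfold emb
    rw [map_neg, map_neg]
  rw [aff, aff, e, emb_mul, emb_mul, emb_mul, ← yy_sq, e2]
  ring

theorem finite_aff (hf : f ≠ 0) {u v : ℂ[X]} (h : (aff u v : KK f) ≠ 0) :
    {P : Pts f | ordAt Λ hf P (aff u v) ≠ 0}.Finite := by
  have hN : u * u - f * v * v ≠ 0 := by
    intro h0
    have h1 := aff_mul_star (f := f) u v
    rw [h0, emb_zero] at h1
    exact mul_ne_zero h (star_ne h) h1
  apply ((Set.finite_singleton (none : Pts f)).union (finite_emb (Λ := Λ) hf hN)).subset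
  intro P hP
  rcases P with _ | P
  · left
    rfl
  · right
    intro h0
    apply hP
    rw [← aff_mul_star, ordAt_mul hf _ h (star_ne h)] at h0
    have h1 := ordAt_aff_nonneg (Λ := Λ) hf P h
    have h2 : 0 ≤ ordAt Λ hf (some P) (star (aff u v)) := by
      rw [star_aff]
      apply ordAt_aff_nonneg hf P
      rw [← star_aff]
      exact star_ne h
    linarith

theorem finite_ordAt (hf : f ≠ 0) {z : KK f} (hz : z ≠ 0) :
    {P : Pts f | ordAt Λ hf P z ≠ 0}.Finite := by
  obtain ⟨u, v, q, hq, h⟩ := exists_aff z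
  have h1 : (aff u v : KK f) ≠ 0 := by
    rw [← h]
    exact mul_ne_zero hz (emb_ne hq)
  apply ((finite_aff (Λ := Λ) hf h1).union (finite_emb (Λ := Λ) hf hq)).subset
  intro P hP
  by_contra h2
  simp only [Set.mem_union, Set.mem_ofPred_eq, not_or, not_not] at h2
  obtain ⟨h3, h4⟩ := h2
  rw [← h, ordAt_mul hf P hz (emb_ne hq), h4, add_zero] at h3
  exact hP h3

/-- total degree of the divisor of a function -/
def tot (Λ : LF F) (hf : f ≠ 0) (z : KK f) : ℤ := ∑ᶠ P, ordAt Λ hf P z

theorem tot_mul (hf : f ≠ 0) {z w : KK f} (hz : z ≠ 0) (hw : w ≠ 0) :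
    tot Λ hf (z * w) = tot Λ hf z + tot Λ hf w := by
  unfold tot
  rw [← finsum_add_distrib (finite_ordAt hf hz) (finite_ordAt hf hw)]
  congr 1
  funext P
  exact ordAt_mul hf P hz hw

theorem tot_const (hf : f ≠ 0) (c : ℂ) : tot Λ hf (algebraMap ℂ (KK f) c) = 0 := by
  unfold tot
  simp only [ordAt_const]
  exact finsum_zero

theorem tot_X_sub_C (hf : f ≠ 0) (c : ℂ) : tot Λ hf (emb (X - C c) : KK f) = 0 := by
  classical
  have hi : ordAt Λ hf none (emb (X - C c)) = -2 := by
    rw [ordAt_emb_none hf (X_sub_C_ne_zero c), natDegree_X_sub_C]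
    norm_num
  have hz : ∀ P : APt f, P.1.1 ≠ c → ordAt Λ hf (some P) (emb (X - C c)) = 0 := by
    intro P hP
    apply ordAt_emb_zero hf P
    rw [eval_sub, eval_X, eval_C]
    exact sub_ne_zero.2 hP
  unfold tot
  by_cases h0 : f.eval c = 0
  · set P₀ : APt f := ⟨(c, 0), by simp [h0]⟩ with hP₀
    have hs : Function.support (fun P => ordAt Λ hf P (emb (X - C c))) ⊆
        (({none, some P₀} : Finset (Pts f)) : Set (Pts f)) := by
      intro P hP
      rcases P with _ | P
      · simp
      · simp only [Finset.coe_insert, Finset.coe_singleton, Set.mem_insert_iff,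
          Set.mem_singleton_iff]
        right
        congr 1
        have h1 : P.1.1 = c := by
          by_contra h1
          exact hP (hz P h1)
        apply Subtype.ext
        apply Prod.ext
        · exact h1
        · have h2 := P.2
          rw [h1, h0] at h2
          exact pow_eq_zero_iff (two_ne_zero) |>.1 h2
    rw [finsum_eq_sum_of_support_subset _ hs, Finset.sum_pair (by simp), hi]
    have h1 : ordAt Λ hf (some P₀) (emb (X - C c)) = ram P₀ := ordAt_X_sub_C_self hf P₀
    rw [h1]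
    unfold ram
    rw [if_pos rfl]
    norm_num
  · obtain ⟨b, hb⟩ := IsAlgClosed.exists_pow_nat_eq (f.eval c) (n := 2) (by norm_num)
    have hb0 : b ≠ 0 := by
      rintro rfl
      apply h0
      rw [← hb]
      ring
    set P₁ : APt f := ⟨(c, b), hb⟩ with hP₁
    set P₂ : APt f := ⟨(c, -b), by simpa using hb⟩ with hP₂
    have hne : (some P₁ : Pts f) ≠ some P₂ := by
      intro h
      have h1 := Option.some_injective _ h
      have h2 : b = -b := congrArg (fun P : APt f => P.1.2) h1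
      exact hb0 (self_eq_neg.1 h2)
    have hs : Function.support (fun P => ordAt Λ hf P (emb (X - C c))) ⊆
        (({none, some P₁, some P₂} : Finset (Pts f)) : Set (Pts f)) := by
      intro P hP
      rcases P with _ | P
      · simp
      · simp only [Finset.coe_insert, Finset.coe_singleton, Set.mem_insert_iff,
          Set.mem_singleton_iff]
        right
        have h1 : P.1.1 = c := by
          by_contra h1
          exact hP (hz P h1)
        have h2 := P.2
        rw [h1, ← hb] at h2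
        rcases sq_eq_sq_iff_eq_or_eq_neg.1 h2 with h3 | h3
        · left
          congr 1
          apply Subtype.ext
          apply Prod.ext
          · exact h1
          · exact h3
        · right
          congr 1
          apply Subtype.ext
          apply Prod.ext
          · exact h1
          · exact h3
    rw [finsum_eq_sum_of_support_subset _ hs, Finset.sum_insert (by simp), Finset.sum_pair hne, hi]
    have h1 : ordAt Λ hf (some P₁) (emb (X - C c)) = ram P₁ := ordAt_X_sub_C_self hf P₁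
    have h2 : ordAt Λ hf (some P₂) (emb (X - C c)) = ram P₂ := ordAt_X_sub_C_self hf P₂
    rw [h1, h2]
    unfold ram
    rw [if_neg hb0, if_neg (show P₂.1.2 ≠ 0 from neg_ne_zero.2 hb0)]
    norm_num

theorem tot_emb (hf : f ≠ 0) : ∀ p : ℂ[X], p ≠ 0 → tot Λ hf (emb p : KK f) = 0 := by
  apply poly_ind
  · intro c _
    rw [emb_C]
    exact tot_const hf c
  · exact tot_X_sub_C hf
  · intro p q hp hq h1 h2
    rw [emb_mul, tot_mul hf (emb_ne hp) (emb_ne hq), h1, h2, add_zero]

theorem tot_star (G : Good f) (z : KK f) : tot Λ G.ne (star z) = tot Λ G.ne z := by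
  unfold tot
  have h1 : (fun P => ordAt Λ G.ne P (star z)) = fun P => ordAt Λ G.ne (tau P) z := by
    funext P
    rw [ordAt_tau G]
  rw [h1]
  exact finsum_comp_equiv (f := fun P => ordAt Λ G.ne P z) ⟨tau, tau, tau_tau, tau_tau⟩

theorem tot_eq_zero (G : Good f) {z : KK f} (hz : z ≠ 0) : tot Λ G.ne z = 0 := by
  obtain ⟨u, v, q, hq, h⟩ := exists_aff z
  have h1 : (aff u v : KK f) ≠ 0 := by
    rw [← h]
    exact mul_ne_zero hz (emb_ne hq)
  have hN : u * u - f * v * v ≠ 0 := by
    intro h0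
    have h2 := aff_mul_star (f := f) u v
    rw [h0, emb_zero] at h2
    exact mul_ne_zero h1 (star_ne h1) h2
  have h2 := tot_emb (Λ := Λ) G.ne _ hN
  rw [← aff_mul_star, tot_mul G.ne h1 (star_ne h1), tot_star G] at h2
  have h3 : tot Λ G.ne (aff u v) = 0 := by linarith
  rw [← h, tot_mul G.ne hz (emb_ne hq), tot_emb G.ne q hq, add_zero] at h3
  exact h3

/-- The curve `y² = f(x)`. -/
def cOrd (Λ : LF F) (G : Good f) : CurveOrd (KK f) where
  Pt := Pts f
  ord := ordAt Λ G.ne
  ord_mul P z w hz hw := ordAt_mul G.ne P hz hw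
  ord_add P z w _ _ h := ordAt_add G.ne P h
  ord_const P c _ := ordAt_const G.ne P c
  finite_ord z hz := finite_ordAt G.ne hz
  sum_ord z hz := tot_eq_zero G hz

theorem cOrd_res (Λ : LF F) (G : Good f) : (cOrd Λ G).Res :=
  fun P _ _ hz hw h => ordAt_res G.ne P hz hw h

end fld

end

end Pool.Agent.YTD.Hyp
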