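import Pool.Agent.YTD.HypCurve
import Pool.Agent.YTD.Defs

/-!
Riemann-Roch for the hyperelliptic curve `y² = f(x)`, and existence of the data `(C, S, S')`.
-/

namespace Pool.Agent.YTD.Hyp

open Polynomial Module

noncomputable section

variable {F : Type} [Field F] [Algebra ℂ F] {Λ : LF F} {f : ℂ[X]}

theorem exists_pt (a : ℂ) : ∃ P : APt f, P.1.1 = a := by
  obtain ⟨b, hb⟩ := IsAlgClosed.exists_pow_nat_eq (f.eval a) (n := 2) (by norm_num)
  exact ⟨⟨(a, b), hb⟩, rfl⟩

theorem infinite_pts (f : ℂ[X]) : Infinite (Pts f) := by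
  have h1 : ∀ a : ℂ, ∃ P : APt f, P.1.1 = a := exists_pt
  choose P hP using h1
  exact Infinite.of_injective (fun a => (some (P a) : Pts f)) (by
    intro a b h
    have h2 := Option.some_injective _ h
    rw [← hP a, ← hP b, h2])

theorem exists_disjoint {α : Type} [Infinite α] (m : ℕ) :
    ∃ S S' : Finset α, S.card = m ∧ S'.card = m ∧ Disjoint S S' := by
  classical
  obtain ⟨U, hU⟩ := Infinite.exists_subset_card_eq α (m + m)
  obtain ⟨S, hS, hSc⟩ := Finset.exists_subset_card_eq (s := U) (n := m) (by omega)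
  refine ⟨S, U \ S, hSc, ?_, Finset.disjoint_sdiff⟩
  rw [Finset.card_sdiff_of_subset hS, hU, hSc]
  omega

theorem emb_smul (c : ℂ) (p : ℂ[X]) : (emb (c • p) : KK f) = algebraMap ℂ (KK f) c * emb p := by
  rw [Polynomial.smul_eq_C_mul, emb_mul, emb_C]

section fld

variable [NonSq f]

/-- rational functions of `x` as elements of the function field -/
def rat (r : RatFunc ℂ) : KK f := algebraMap (RatFunc ℂ) (KK f) r

theorem rat_mul (r s : RatFunc ℂ) : (rat (r * s) : KK f) = rat r * rat s := map_mul _ _ _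

theorem rat_ne {r : RatFunc ℂ} (hr : r ≠ 0) : (rat r : KK f) ≠ 0 := by
  intro h
  apply hr
  apply QuadraticAlgebra.algebraMap_injective (a := algebraMap ℂ[X] (RatFunc ℂ) f) (b := 0)
  rw [map_zero]
  exact h

/-- A rational function of `x` without poles at finite distance is a polynomial. -/
theorem poly_of_nonneg (hf : f ≠ 0) {r : RatFunc ℂ} (hr : r ≠ 0)
    (h : ∀ P : APt f, 0 ≤ ordAt Λ hf (some P) (rat r)) :
    ∃ p : ℂ[X], r = algebraMap ℂ[X] (RatFunc ℂ) p := by
  have hd0 : r.denom ≠ 0 := r.denom_ne_zero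
  have hn0 : r.num ≠ 0 := RatFunc.num_ne_zero hr
  have hq : r.denom.natDegree = 0 := by
    by_contra hn
    obtain ⟨a, ha⟩ := IsAlgClosed.exists_root r.denom (by
      intro h0
      apply hn
      exact Polynomial.natDegree_eq_zero_iff_degree_le_zero.2 (le_of_eq h0))
    obtain ⟨P, hP⟩ := exists_pt (f := f) a
    have h1 : (rat r : KK f) * emb r.denom = emb r.num := by
      have h2 : r * algebraMap ℂ[X] (RatFunc ℂ) r.denom = algebraMap ℂ[X] (RatFunc ℂ) r.num := by
        have h3 : algebraMap ℂ[X] (RatFunc ℂ) r.denom ≠ 0 := by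
          intro h
          exact hd0 (RatFunc.algebraMap_injective ℂ (by rw [h, map_zero]))
        have h4 := RatFunc.num_div_denom r
        rw [div_eq_iff h3] at h4
        exact h4.symm
      unfold rat emb
      rw [← map_mul, h2]
    have h2 := congrArg (ordAt Λ hf (some P)) h1
    rw [ordAt_mul hf _ (rat_ne hr) (emb_ne hd0)] at h2
    have h3 := ordAt_emb_pos (Λ := Λ) hf hd0 P (by rw [hP]; exact ha)
    have h4 : r.num.eval P.1.1 ≠ 0 := by
      rw [hP]
      intro h5
      obtain ⟨s, t, hst⟩ := RatFunc.isCoprime_num_denom r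
      have h6 := congrArg (eval a) hst
      rw [eval_add, eval_mul, eval_mul, h5, show eval a r.denom = 0 from ha, eval_one] at h6
      simp at h6
    rw [ordAt_emb_zero hf P h4] at h2
    have := h P
    linarith
  have h1 : r.denom = 1 := by
    have h2 := RatFunc.monic_denom r
    exact h2.natDegree_eq_zero.1 hq
  refine ⟨r.num, ?_⟩
  have h4 := RatFunc.num_div_denom r
  rw [h1, map_one, div_one] at h4
  exact h4.symm

theorem ordAt_two (hf : f ≠ 0) (P : Pts f) {z : KK f} (hz : z ≠ 0) :
    ordAt Λ hf P (algebraMap ℂ (KK f) 2 * z) = ordAt Λ hf P z := by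
  rw [ordAt_mul hf P ((_root_.map_ne_zero _).2 two_ne_zero) hz, ordAt_const, zero_add]

/-- The functions without poles at finite distance. -/
theorem aff_of_nonneg (G : Good f) {z : KK f} (hz : z ≠ 0)
    (h : ∀ P : APt f, 0 ≤ ordAt Λ G.ne (some P) z) : ∃ u v : ℂ[X], z = aff u v := by
  have hs : ∀ P : APt f, 0 ≤ ordAt Λ G.ne (some P) (star z) := by
    intro P
    rw [← ordAt_tau G]
    exact h _
  have h1 : ∃ u : ℂ[X], z.re = algebraMap ℂ[X] (RatFunc ℂ) u := by
    by_cases h0 : z.re = 0
    · exact ⟨0, by rw [h0, map_zero]⟩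
    apply poly_of_nonneg (Λ := Λ) G.ne h0
    intro P
    have e : z + star z = algebraMap ℂ (KK f) 2 * rat z.re := by
      apply QuadraticAlgebra.ext
      · rw [QuadraticAlgebra.re_add, QuadraticAlgebra.re_star, zero_mul, add_zero,
          QuadraticAlgebra.re_mul]
        have e1 : (algebraMap ℂ (KK f) 2).re = algebraMap ℂ (RatFunc ℂ) 2 := rfl
        have e2 : (algebraMap ℂ (KK f) 2).im = 0 := rfl
        have e3 : (rat z.re : KK f).re = z.re := rfl
        rw [e1, e2, e3, map_ofNat]
        ring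
      · rw [QuadraticAlgebra.im_add, QuadraticAlgebra.im_star, QuadraticAlgebra.im_mul]
        have e2 : (algebraMap ℂ (KK f) 2).im = 0 := rfl
        have e3 : (rat z.re : KK f).im = 0 := rfl
        rw [e2, e3]
        ring
    have hne : z + star z ≠ 0 := by
      rw [e]
      exact mul_ne_zero ((_root_.map_ne_zero _).2 two_ne_zero) (rat_ne h0)
    have h2 := ordAt_add (Λ := Λ) G.ne (some P) hne
    rw [e, ordAt_two G.ne _ (rat_ne h0)] at h2
    exact le_trans (le_min (h P) (hs P)) h2
  have h2 : ∃ v : ℂ[X], z.im = algebraMap ℂ[X] (RatFunc ℂ) v := by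
    by_cases h0 : z.im = 0
    · exact ⟨0, by rw [h0, map_zero]⟩
    -- `(v y)² = v² f` is a polynomial
    have h3 : ∀ P : APt f, 0 ≤ ordAt Λ G.ne (some P) (rat z.im * yy) := by
      intro P
      have e : z + (- star z) = algebraMap ℂ (KK f) 2 * (rat z.im * yy) := by
        apply QuadraticAlgebra.ext
        · rw [QuadraticAlgebra.re_add, QuadraticAlgebra.re_neg, QuadraticAlgebra.re_star, zero_mul,
            add_zero, QuadraticAlgebra.re_mul, QuadraticAlgebra.re_mul, QuadraticAlgebra.im_mul]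
          have e1 : (algebraMap ℂ (KK f) 2).re = algebraMap ℂ (RatFunc ℂ) 2 := rfl
          have e2 : (algebraMap ℂ (KK f) 2).im = 0 := rfl
          have e3 : (rat z.im : KK f).re = z.im := rfl
          have e4 : (rat z.im : KK f).im = 0 := rfl
          have e5 : (yy : KK f).re = 0 := rfl
          rw [e2, e4, e5]
          ring
        · rw [QuadraticAlgebra.im_add, QuadraticAlgebra.im_neg, QuadraticAlgebra.im_star,
            QuadraticAlgebra.im_mul, QuadraticAlgebra.im_mul, QuadraticAlgebra.re_mul]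
          have e1 : (algebraMap ℂ (KK f) 2).re = algebraMap ℂ (RatFunc ℂ) 2 := rfl
          have e2 : (algebraMap ℂ (KK f) 2).im = 0 := rfl
          have e3 : (rat z.im : KK f).re = z.im := rfl
          have e4 : (rat z.im : KK f).im = 0 := rfl
          have e5 : (yy : KK f).re = 0 := rfl
          have e6 : (yy : KK f).im = 1 := rfl
          rw [e1, e2, e3, e4, e5, e6, map_ofNat]
          ring
      have hry : (rat z.im : KK f) * yy ≠ 0 := mul_ne_zero (rat_ne h0) yy_ne
      have hne : z + (-star z) ≠ 0 := by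
        rw [e]
        exact mul_ne_zero ((_root_.map_ne_zero _).2 two_ne_zero) hry
      have h2 := ordAt_add (Λ := Λ) G.ne (some P) hne
      rw [e, ordAt_two G.ne _ hry, ordAt_neg] at h2
      exact le_trans (le_min (h P) (hs P)) h2
    have hf0 : algebraMap ℂ[X] (RatFunc ℂ) f ≠ 0 := by
      intro h1
      exact G.ne (RatFunc.algebraMap_injective ℂ (by rw [h1, map_zero]))
    obtain ⟨t, ht⟩ := poly_of_nonneg (Λ := Λ) (r := z.im * z.im * algebraMap ℂ[X] (RatFunc ℂ) f)
      G.ne (mul_ne_zero (mul_ne_zero h0 h0) hf0) (by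
        intro P
        have e : (rat (z.im * z.im * algebraMap ℂ[X] (RatFunc ℂ) f) : KK f) =
            (rat z.im * yy) * (rat z.im * yy) := by
          rw [rat_mul, rat_mul]
          have : (rat (algebraMap ℂ[X] (RatFunc ℂ) f) : KK f) = yy * yy := by
            rw [yy_sq]
            rfl
          rw [this]
          ring
        have hry : (rat z.im : KK f) * yy ≠ 0 := mul_ne_zero (rat_ne h0) yy_ne
        rw [e, ordAt_mul G.ne _ hry hry]
        exact add_nonneg (h3 P) (h3 P))
    -- descent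
    have hd0 : z.im.denom ≠ 0 := z.im.denom_ne_zero
    have hd1 : algebraMap ℂ[X] (RatFunc ℂ) z.im.denom ≠ 0 := by
      intro h
      exact hd0 (RatFunc.algebraMap_injective ℂ (by rw [h, map_zero]))
    have h4 := RatFunc.num_div_denom z.im
    have h5 : z.im.num * z.im.num * f = t * (z.im.denom * z.im.denom) := by
      apply RatFunc.algebraMap_injective ℂ
      rw [map_mul, map_mul, map_mul, map_mul, ← ht]
      rw [div_eq_iff hd1] at h4
      rw [h4]
      ring
    have h6 : z.im.denom * z.im.denom ∣ f := by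
      have h7 : IsCoprime (z.im.denom * z.im.denom) (z.im.num * z.im.num) := by
        have := (RatFunc.isCoprime_num_denom z.im).symm
        exact (this.mul_left this).mul_right (this.mul_left this)
      exact h7.dvd_of_dvd_mul_left ⟨t, by rw [h5]; ring⟩
    have h7 := G.sqf _ h6
    have h8 : z.im.denom = 1 := (RatFunc.monic_denom z.im).isUnit_iff.1 h7
    refine ⟨z.im.num, ?_⟩
    rw [h8, map_one, div_one] at h4
    exact h4.symm
  obtain ⟨u, hu⟩ := h1
  obtain ⟨v, hv⟩ := h2
  refine ⟨u, v, ?_⟩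
  apply QuadraticAlgebra.ext
  · rw [aff_re, hu]
  · rw [aff_im, hv]

/-- order at infinity -/
theorem ordAt_inf_aff (G : Good f) {u v : ℂ[X]} (hu : u ≠ 0) (hv : v ≠ 0) :
    ordAt Λ G.ne none (aff u v) =
      min (-2 * (u.natDegree : ℤ)) (-2 * (v.natDegree : ℤ) - f.natDegree) := by
  have hu' : (aff u v : KK f).re ≠ 0 := by
    rw [aff_re]
    intro h
    exact hu (RatFunc.algebraMap_injective ℂ (by rw [h, map_zero]))
  have hv' : (aff u v : KK f).im ≠ 0 := by
    rw [aff_im]
    intro h
    exact hv (RatFunc.algebraMap_injective ℂ (by rw [h, map_zero]))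
  unfold ordAt
  rw [ram_min _ G.ne _ _ hu' hv', aff_re, aff_im, Par.psi_algebraMap, Par.psi_algebraMap,
    parAt_none, ord_inf u hu, ord_inf v hv, ord_eta_inf G]
  · rfl
  · intro p hp
    rw [parAt_none, ord_inf p hp]
    exact Even.mul_right (by decide) _
  · rw [ord_eta_inf G]
    exact ((Int.odd_coe_nat _).2 G.odd).neg

theorem ordAt_inf_yy (G : Good f) {v : ℂ[X]} (hv : v ≠ 0) :
    ordAt Λ G.ne none (emb v * yy : KK f) = -2 * (v.natDegree : ℤ) - f.natDegree := by
  rw [ordAt_mul G.ne _ (emb_ne hv) yy_ne, ordAt_emb_none G.ne hv]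
  unfold ordAt
  rw [phi_yy, ord_eta_inf G]
  rfl

theorem ordAt_inf_iff (G : Good f) {u v : ℂ[X]} (h : (aff u v : KK f) ≠ 0) (m : ℤ) :
    0 ≤ ordAt Λ G.ne none (aff u v) + m ↔
      (u ≠ 0 → 2 * (u.natDegree : ℤ) ≤ m) ∧ (v ≠ 0 → 2 * (v.natDegree : ℤ) + f.natDegree ≤ m) := by
  by_cases hu : u = 0
  · have hv : v ≠ 0 := by
      rintro rfl
      apply h
      rw [hu, aff, emb_zero]
      ring
    rw [hu, aff, emb_zero, zero_add, ordAt_inf_yy G hv]
    constructor
    · intro h1
      exact ⟨fun h2 => absurd rfl h2, fun _ => by linarith⟩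
    · intro h1
      linarith [h1.2 hv]
  by_cases hv : v = 0
  · rw [hv, aff, emb_zero, zero_mul, add_zero, ordAt_emb_none G.ne hu]
    constructor
    · intro h1
      exact ⟨fun _ => by linarith, fun h2 => absurd rfl h2⟩
    · intro h1
      linarith [h1.1 hu]
  rw [ordAt_inf_aff G hu hv]
  constructor
  · intro h1
    have h2 := min_le_left (-2 * (u.natDegree : ℤ)) (-2 * (v.natDegree : ℤ) - f.natDegree)
    have h3 := min_le_right (-2 * (u.natDegree : ℤ)) (-2 * (v.natDegree : ℤ) - f.natDegree)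
    exact ⟨fun _ => by linarith, fun _ => by linarith⟩
  · intro h1
    have h2 := h1.1 hu
    have h3 := h1.2 hv
    rcases min_choice (-2 * (u.natDegree : ℤ)) (-2 * (v.natDegree : ℤ) - f.natDegree) with h4 | h4 <;>
      rw [h4] <;> linarith

/-- the parametrisation of `L(2 k ∞)` -/
def parL (f : ℂ[X]) (m n : ℕ) : (degreeLT ℂ m × degreeLT ℂ n) →ₗ[ℂ] KK f where
  toFun p := aff p.1 p.2
  map_add' p q := by
    simp only [aff, Prod.fst_add, Prod.snd_add, Submodule.coe_add, emb_add]
    ring
  map_smul' c p := by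
    simp only [aff, Prod.smul_fst, Prod.smul_snd, SetLike.val_smul, RingHom.id_apply, emb_smul,
      Algebra.smul_def (A := KK f)]
    ring

theorem parL_inj (m n : ℕ) : Function.Injective (parL f m n) := by
  intro p q h
  have h1 : (aff (p.1 : ℂ[X]) p.2 : KK f) = aff q.1 q.2 := h
  have h2 := congrArg QuadraticAlgebra.re h1
  have h3 := congrArg QuadraticAlgebra.im h1
  rw [aff_re, aff_re] at h2
  rw [aff_im, aff_im] at h3
  apply Prod.ext
  · exact Subtype.ext (RatFunc.algebraMap_injective ℂ h2)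
  · exact Subtype.ext (RatFunc.algebraMap_injective ℂ h3)

theorem finrank_degreeLT (n : ℕ) : finrank ℂ (degreeLT ℂ n) = n := by
  rw [(degreeLTEquiv ℂ n).finrank_eq]
  simp

theorem range_parL (G : Good f) {g : ℕ} (hg : f.natDegree = 2 * g + 1) {k : ℕ} (hk : g ≤ k) :
    LinearMap.range (parL f (k + 1) (k - g)) =
      (cOrd Λ G).L (Finsupp.single (none : Pts f) (2 * (k : ℤ))) := by
  have hdeg : ∀ {p : ℂ[X]} {n : ℕ}, p ∈ degreeLT ℂ n ↔ (p ≠ 0 → p.natDegree < n) := by
    intro p n
    rw [mem_degreeLT]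
    constructor
    · intro h hp
      exact (natDegree_lt_iff_degree_lt hp).2 h
    · intro h
      by_cases hp : p = 0
      · rw [hp, degree_zero]
        exact WithBot.bot_lt_coe _
      · exact (natDegree_lt_iff_degree_lt hp).1 (h hp)
  apply le_antisymm
  · rintro _ ⟨⟨⟨u, hu⟩, ⟨v, hv⟩⟩, rfl⟩
    intro h0 P
    rw [hdeg] at hu hv
    have h0' : (aff u v : KK f) ≠ 0 := h0
    rcases P with _ | P
    · rw [Finsupp.single_eq_same]
      show 0 ≤ ordAt Λ G.ne none (aff u v) + 2 * (k : ℤ)
      rw [ordAt_inf_iff G h0', hg]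
      constructor
      · intro h
        have := hu h
        omega
      · intro h
        have := hv h
        omega
    · rw [Finsupp.single_eq_of_ne (by simp), add_zero]
      exact ordAt_aff_nonneg G.ne P h0'
  · intro z hz
    by_cases h0 : z = 0
    · rw [h0]
      exact zero_mem _
    have h1 := hz h0
    obtain ⟨u, v, rfl⟩ := aff_of_nonneg (Λ := Λ) G h0 (by
      intro P
      have h2 := h1 (some P)
      rw [Finsupp.single_eq_of_ne (by simp), add_zero] at h2
      exact h2)
    have h2 := h1 none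
    rw [Finsupp.single_eq_same] at h2
    have h3 : 0 ≤ ordAt Λ G.ne none (aff u v) + 2 * (k : ℤ) := h2
    rw [ordAt_inf_iff G h0, hg] at h3
    refine ⟨⟨⟨u, ?_⟩, ⟨v, ?_⟩⟩, rfl⟩
    · rw [hdeg]
      intro h
      have := h3.1 h
      omega
    · rw [hdeg]
      intro h
      have := h3.2 h
      push_cast at this
      omega

theorem finrank_parL (G : Good f) {g : ℕ} (hg : f.natDegree = 2 * g + 1) {k : ℕ} (hk : g ≤ k) :
    (finrank ℂ ((cOrd Λ G).L (Finsupp.single (none : Pts f) (2 * (k : ℤ)))) : ℤ) =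
      2 * k + 1 - g := by
  rw [← range_parL G hg hk, LinearMap.finrank_range_of_inj (parL_inj _ _), finrank_prod,
    finrank_degreeLT, finrank_degreeLT]
  omega

/-- The hyperelliptic curve `y² = f(x)` of genus `g`. -/
def curve (Λ : LF F) (G : Good f) {g : ℕ} (hg : f.natDegree = 2 * g + 1) : Curve (KK f) where
  toCurveOrd := cOrd Λ G
  genus := g
  riemann_roch D hD := by
    apply CurveOrd.rr_of (cOrd_res Λ G) (inf := (none : Pts f)) (x := emb X) (emb_ne X_ne_zero)
    · show ordAt Λ G.ne none (emb X) = -2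
      rw [ordAt_emb_none G.ne X_ne_zero, natDegree_X]
      norm_num
    · intro P hP
      rcases P with _ | P
      · exact absurd rfl hP
      · exact ordAt_emb_nonneg G.ne X_ne_zero P
    · intro P hP
      rcases P with _ | P
      · exact absurd rfl hP
      · refine ⟨emb (X - C P.1.1), emb_ne (X_sub_C_ne_zero _), ?_, ?_, ?_⟩
        · show 1 ≤ ordAt Λ G.ne (some P) (emb (X - C P.1.1))
          rw [ordAt_X_sub_C_self]
          exact_mod_cast ram_pos P
        · intro Q hQ
          rcases Q with _ | Q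
          · exact absurd rfl hQ
          · exact ordAt_emb_nonneg G.ne (X_sub_C_ne_zero _) Q
        · show Even (ordAt Λ G.ne none (emb (X - C P.1.1)))
          rw [ordAt_emb_none G.ne (X_sub_C_ne_zero _)]
          exact Even.mul_right (by decide) _
    · refine ⟨g, ?_⟩
      intro k hk
      obtain ⟨n, rfl⟩ : ∃ n : ℕ, k = n := ⟨k.toNat, (Int.toNat_of_nonneg (by omega)).symm⟩
      exact finrank_parL G hg (by exact_mod_cast hk)
    · exact hD

end fld

/-- the polynomial `x^(2g+1) - 1` -/
def fg (g : ℕ) : ℂ[X] := X ^ (2 * g + 1) - 1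

theorem natDegree_fg (g : ℕ) : (fg g).natDegree = 2 * g + 1 := by
  unfold fg
  exact natDegree_X_pow_sub_C (r := (1 : ℂ))

theorem separable_fg (g : ℕ) : (fg g).Separable := by
  unfold fg
  have := separable_X_pow_sub_C (n := 2 * g + 1) (1 : ℂ) (by
    exact_mod_cast Nat.succ_ne_zero (2 * g)) one_ne_zero
  simpa using this

theorem good_fg (g : ℕ) : Good (fg g) where
  ne := (separable_fg g).ne_zero
  odd := by
    rw [natDegree_fg]
    exact ⟨g, rfl⟩
  simple := by
    intro a ha
    obtain ⟨q, hq⟩ := dvd_iff_isRoot.2 ha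
    refine ⟨q, hq, ?_⟩
    intro h0
    obtain ⟨r, hr⟩ := dvd_iff_isRoot.2 h0
    have h1 : (X - C a) * (X - C a) ∣ fg g := ⟨r, by rw [mul_assoc, ← hr, ← hq]⟩
    have h2 := (separable_fg g).squarefree _ h1
    exact not_isUnit_X_sub_C a h2
  sqf := (separable_fg g).squarefree

/-- Existence of the data `(C, S, S')` for every `t`. -/
theorem exists_datum (t : ℕ) (ht : 0 < t) :
    ∃ (K : Type) (_ : Field K) (_ : Algebra ℂ K) (T : Datum K), T.t = t := by
  obtain ⟨F, _, _, ⟨Λ⟩⟩ := exists_LF
  have G := good_fg (9 * t + 1)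
  haveI : NonSq (fg (9 * t + 1)) := G.nonSq
  refine ⟨KK (fg (9 * t + 1)), inferInstance, inferInstance, ?_⟩
  haveI := infinite_pts (fg (9 * t + 1))
  obtain ⟨S, S', h1, h2, h3⟩ := exists_disjoint (α := Pts (fg (9 * t + 1))) (100 * t)
  exact ⟨
    { X := curve Λ G (natDegree_fg _)
      t := t
      t_pos := ht
      genus_eq := rfl
      S := S
      S' := S'
      card_S := h1
      card_S' := h2
      disj := h3 }, rfl⟩

end

end Pool.Agent.YTD.Hyp
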