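import Mathlib

/-!
Monomial orders comparing first a weight.
-/

namespace Pool.Agent.YTD

variable {σ : Type}

/-- the exponents, ordered by the weight `w` first and then by `m`. -/
def WSyn (_ : MonomialOrder σ) (_ : (σ →₀ ℕ) →+ ℕ) : Type := σ →₀ ℕ

variable (m : MonomialOrder σ) (w : (σ →₀ ℕ) →+ ℕ)

noncomputable instance : AddCommMonoid (WSyn m w) := inferInstanceAs (AddCommMonoid (σ →₀ ℕ))

/-- the comparison key -/
noncomputable def wkey (e : WSyn m w) : ℕ ×ₗ m.syn := toLex (w e, m.toSyn e)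

theorem wkey_injective : Function.Injective (wkey m w) := by
  intro e e' h
  have h1 : (w e, m.toSyn e) = (w e', m.toSyn e') := toLex.injective h
  exact m.toSyn.injective (Prod.ext_iff.1 h1).2

noncomputable instance : LinearOrder (WSyn m w) :=
  LinearOrder.lift' (wkey m w) (wkey_injective m w)

theorem wle_iff (e e' : WSyn m w) :
    e ≤ e' ↔ w e < w e' ∨ w e = w e' ∧ m.toSyn e ≤ m.toSyn e' := by
  show wkey m w e ≤ wkey m w e' ↔ _
  unfold wkey
  rw [Prod.Lex.toLex_le_toLex]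

theorem wlt_iff (e e' : WSyn m w) :
    e < e' ↔ w e < w e' ∨ w e = w e' ∧ m.toSyn e < m.toSyn e' := by
  show wkey m w e < wkey m w e' ↔ _
  unfold wkey
  rw [Prod.Lex.toLex_lt_toLex]

theorem w_add (e e' : WSyn m w) : w ((e + e' : WSyn m w) : σ →₀ ℕ) = w e + w e' := map_add w _ _

theorem toSyn_add (e e' : WSyn m w) :
    m.toSyn ((e + e' : WSyn m w) : σ →₀ ℕ) = m.toSyn e + m.toSyn e' := map_add m.toSyn _ _

instance : IsOrderedAddMonoid (WSyn m w) where
  add_le_add_left := by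
    intro a b h c
    rw [wle_iff] at h ⊢
    rw [w_add, w_add, toSyn_add, toSyn_add]
    rcases h with h | ⟨h, h'⟩
    · left
      omega
    · right
      exact ⟨by omega, add_le_add_left h' _⟩

instance : WellFoundedLT (WSyn m w) := by
  constructor
  have h : WellFounded (fun a b : ℕ ×ₗ m.syn => a < b) := wellFounded_lt
  exact InvImage.wf (wkey m w) h

/-- The monomial order comparing first the weight `w` and then `m`. -/
noncomputable def weigh : MonomialOrder σ where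
  syn := WSyn m w
  toSyn := AddEquiv.refl _
  toSyn_monotone := by
    intro e e' h
    obtain ⟨d, rfl⟩ := exists_add_of_le h
    refine (wle_iff m w e (e + d)).2 ?_
    rw [map_add w, map_add m.toSyn]
    by_cases hd : w d = 0
    · right
      refine ⟨?_, ?_⟩
      · rw [hd, add_zero]
      · have := m.toSyn_monotone (show e ≤ e + d from le_self_add)
        rwa [map_add] at this
    · left
      omega

theorem weigh_le (e e' : σ →₀ ℕ) : (weigh m w).toSyn e ≤ (weigh m w).toSyn e' ↔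
    w e < w e' ∨ w e = w e' ∧ m.toSyn e ≤ m.toSyn e' := wle_iff m w e e'

theorem weigh_lt (e e' : σ →₀ ℕ) : (weigh m w).toSyn e < (weigh m w).toSyn e' ↔
    w e < w e' ∨ w e = w e' ∧ m.toSyn e < m.toSyn e' := wlt_iff m w e e'

theorem w_le_of_weigh_le {e e' : σ →₀ ℕ} (h : (weigh m w).toSyn e ≤ (weigh m w).toSyn e') :
    w e ≤ w e' := by
  rcases (weigh_le m w e e').1 h with h | h
  · exact le_of_lt h
  · exact le_of_eq h.1

/-- The weight with coefficients `c`. -/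
def wvec (c : Fin 4 → ℕ) : (Fin 4 →₀ ℕ) →+ ℕ where
  toFun e := c 0 * e 0 + c 1 * e 1 + c 2 * e 2 + c 3 * e 3
  map_zero' := by simp
  map_add' e e' := by
    simp only [Finsupp.add_apply]
    ring

theorem wvec_apply (c : Fin 4 → ℕ) (e : Fin 4 →₀ ℕ) :
    wvec c e = c 0 * e 0 + c 1 * e 1 + c 2 * e 2 + c 3 * e 3 := rfl

/-- The order `w+(r₁, r₂)`: larger `x`-degree first, then larger `r₁ e₁ + r₂ e₃`, then `lex`. -/
noncomputable def mPlus (r₁ r₂ : ℕ) : MonomialOrder (Fin 4) :=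
  weigh (weigh MonomialOrder.lex (wvec ![0, r₁, 0, r₂])) (wvec ![1, 1, 0, 0])

/-- The order `w-(r₁, r₂)`: larger `y`-degree first, then larger `r₁ e₁ + r₂ e₃`, then `lex`. -/
noncomputable def mMinus (r₁ r₂ : ℕ) : MonomialOrder (Fin 4) :=
  weigh (weigh MonomialOrder.lex (wvec ![0, r₁, 0, r₂])) (wvec ![0, 0, 1, 1])

/-- The order `wx`: larger `j - e₀` first (i.e. larger `3 e₁ + 2 e₂ + 2 e₃`), then `lex`. -/
noncomputable def mX : MonomialOrder (Fin 4) :=
  weigh MonomialOrder.lex (wvec ![0, 3, 2, 2])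

theorem wx_apply (e : Fin 4 →₀ ℕ) : wvec ![1, 1, 0, 0] e = e 0 + e 1 := by
  rw [wvec_apply]
  simp

theorem wy_apply (e : Fin 4 →₀ ℕ) : wvec ![0, 0, 1, 1] e = e 2 + e 3 := by
  rw [wvec_apply]
  simp

theorem wr_apply (r₁ r₂ : ℕ) (e : Fin 4 →₀ ℕ) :
    wvec ![0, r₁, 0, r₂] e = r₁ * e 1 + r₂ * e 3 := by
  rw [wvec_apply]
  simp

theorem wX_apply (e : Fin 4 →₀ ℕ) : wvec ![0, 3, 2, 2] e = 3 * e 1 + 2 * e 2 + 2 * e 3 := by
  rw [wvec_apply]
  simp

theorem mPlus_le {r₁ r₂ : ℕ} {e e' : Fin 4 →₀ ℕ}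
    (h : (mPlus r₁ r₂).toSyn e ≤ (mPlus r₁ r₂).toSyn e') :
    e 0 + e 1 < e' 0 + e' 1 ∨ e 0 + e 1 = e' 0 + e' 1 ∧
      r₁ * e 1 + r₂ * e 3 ≤ r₁ * e' 1 + r₂ * e' 3 := by
  unfold mPlus at h
  rw [weigh_le, wx_apply, wx_apply] at h
  rcases h with h | ⟨h, h'⟩
  · exact Or.inl h
  · right
    refine ⟨h, ?_⟩
    have := w_le_of_weigh_le _ _ h'
    rwa [wr_apply, wr_apply] at this

theorem mMinus_le {r₁ r₂ : ℕ} {e e' : Fin 4 →₀ ℕ}
    (h : (mMinus r₁ r₂).toSyn e ≤ (mMinus r₁ r₂).toSyn e') :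
    e 2 + e 3 < e' 2 + e' 3 ∨ e 2 + e 3 = e' 2 + e' 3 ∧
      r₁ * e 1 + r₂ * e 3 ≤ r₁ * e' 1 + r₂ * e' 3 := by
  unfold mMinus at h
  rw [weigh_le, wy_apply, wy_apply] at h
  rcases h with h | ⟨h, h'⟩
  · exact Or.inl h
  · right
    refine ⟨h, ?_⟩
    have := w_le_of_weigh_le _ _ h'
    rwa [wr_apply, wr_apply] at this

theorem mX_le {e e' : Fin 4 →₀ ℕ} (h : mX.toSyn e ≤ mX.toSyn e') :
    3 * e 1 + 2 * e 2 + 2 * e 3 ≤ 3 * e' 1 + 2 * e' 2 + 2 * e' 3 := by
  have := w_le_of_weigh_le _ _ h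
  rwa [wX_apply, wX_apply] at this

end Pool.Agent.YTD
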