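import Pool.Agent.YTD.UnstFilt

/-!
Invariance of the bigraded spaces under linear substitutions.
-/

namespace Pool.Agent.YTD

open Finset Module MvPolynomial

variable {K : Type} [Field K] [Algebra ℂ K]

/-- Polynomials of bidegree `(a, b)` with coefficients in `W`. -/
noncomputable def bih (a b : ℕ) (W : Submodule ℂ K) : Submodule ℂ (MvPolynomial (Fin 4) K) where
  carrier := {f | ∀ e, f.coeff e ≠ 0 → e 0 + e 1 = a ∧ e 2 + e 3 = b ∧ f.coeff e ∈ W}
  zero_mem' := by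
    intro e h
    simp at h
  add_mem' := by
    intro f g hf hg e h
    by_cases h1 : f.coeff e = 0
    · rw [coeff_add, h1, zero_add] at h ⊢
      exact hg e h
    by_cases h2 : g.coeff e = 0
    · rw [coeff_add, h2, add_zero] at h ⊢
      exact hf e h
    obtain ⟨h3, h4, h5⟩ := hf e h1
    obtain ⟨_, _, h5'⟩ := hg e h2
    exact ⟨h3, h4, by rw [coeff_add]; exact add_mem h5 h5'⟩
  smul_mem' := by
    intro c f hf e h
    have h1 : f.coeff e ≠ 0 := by
      intro h1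
      apply h
      rw [coeff_smul, h1, smul_zero]
    obtain ⟨h3, h4, h5⟩ := hf e h1
    exact ⟨h3, h4, by rw [coeff_smul]; exact Submodule.smul_mem _ _ h5⟩

theorem bih_mul {a b a' b' : ℕ} {W W' W'' : Submodule ℂ K}
    (H : ∀ x ∈ W, ∀ y ∈ W', x * y ∈ W'') {f g : MvPolynomial (Fin 4) K} (hf : f ∈ bih a b W)
    (hg : g ∈ bih a' b' W') : f * g ∈ bih (a + a') (b + b') W'' := by
  intro e he
  rw [coeff_mul] at he ⊢
  obtain ⟨x, hx, hx0⟩ := Finset.exists_ne_zero_of_sum_ne_zero he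
  rw [Finset.HasAntidiagonal.mem_antidiagonal] at hx
  obtain ⟨h1, h2, h3⟩ := hf _ (left_ne_zero_of_mul hx0)
  obtain ⟨h1', h2', h3'⟩ := hg _ (right_ne_zero_of_mul hx0)
  have ex : ∀ k, e k = x.1 k + x.2 k := fun k => by rw [← hx]; rfl
  refine ⟨?_, ?_, ?_⟩
  · rw [ex, ex]
    omega
  · rw [ex, ex]
    omega
  · refine sum_mem fun y _ => ?_
    by_cases hy0 : f.coeff y.1 * g.coeff y.2 = 0
    · rw [hy0]
      exact zero_mem _
    exact H _ (hf _ (left_ne_zero_of_mul hy0)).2.2 _ (hg _ (right_ne_zero_of_mul hy0)).2.2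

theorem one_mul_mem {W : Submodule ℂ K} : ∀ x ∈ (1 : Submodule ℂ K), ∀ y ∈ W, x * y ∈ W := by
  intro x hx y hy
  obtain ⟨c, rfl⟩ := Submodule.mem_one.1 hx
  rw [← Algebra.smul_def]
  exact W.smul_mem c hy

theorem C_mem_bih {W : Submodule ℂ K} {c : K} (hc : c ∈ W) : C c ∈ bih 0 0 W := by
  intro e he
  rw [coeff_C] at he ⊢
  by_cases h : 0 = e
  · subst h
    rw [if_pos rfl]
    exact ⟨rfl, rfl, hc⟩
  · rw [if_neg h] at he
    exact (he rfl).elim

theorem X_mem_bih_x {i : Fin 4} (hi : i = 0 ∨ i = 1) : (X i : MvPolynomial (Fin 4) K) ∈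
    bih 1 0 (1 : Submodule ℂ K) := by
  intro e he
  rw [coeff_X] at he ⊢
  by_cases h : Finsupp.single i 1 = e
  · subst h
    rw [if_pos rfl]
    refine ⟨?_, ?_, Submodule.one_le.1 le_rfl⟩
    · rcases hi with rfl | rfl <;> simp
    · rcases hi with rfl | rfl <;> simp
  · rw [if_neg h] at he
    exact (he rfl).elim

theorem X_mem_bih_y {i : Fin 4} (hi : i = 2 ∨ i = 3) : (X i : MvPolynomial (Fin 4) K) ∈
    bih 0 1 (1 : Submodule ℂ K) := by
  intro e he
  rw [coeff_X] at he ⊢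
  by_cases h : Finsupp.single i 1 = e
  · subst h
    rw [if_pos rfl]
    refine ⟨?_, ?_, Submodule.one_le.1 le_rfl⟩
    · rcases hi with rfl | rfl <;> simp
    · rcases hi with rfl | rfl <;> simp
  · rw [if_neg h] at he
    exact (he rfl).elim

theorem pow_mem_bih {a b : ℕ} {f : MvPolynomial (Fin 4) K} (hf : f ∈ bih a b (1 : Submodule ℂ K))
    (n : ℕ) : f ^ n ∈ bih (n * a) (n * b) (1 : Submodule ℂ K) := by
  induction n with
  | zero =>
    rw [pow_zero, zero_mul, zero_mul, ← C_1]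
    exact C_mem_bih (Submodule.one_le.1 le_rfl)
  | succ n ih =>
    rw [pow_succ, Nat.succ_mul, Nat.succ_mul]
    exact bih_mul one_mul_mem ih hf

theorem subst_monomial_mem (g h : Matrix (Fin 2) (Fin 2) ℂ) {W : Submodule ℂ K} {c : K}
    (hc : c ∈ W) (e : Fin 4 →₀ ℕ) :
    subst g h (monomial e c) ∈ bih (e 0 + e 1) (e 2 + e 3) W := by
  unfold subst
  rw [aeval_monomial, Finsupp.prod_fintype _ _ (fun i => pow_zero _), Fin.prod_univ_four]
  have h0 : ((g 0 0 • X 0 + g 0 1 • X 1 : MvPolynomial (Fin 4) K)) ^ e 0 ∈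
      bih (e 0 * 1) (e 0 * 0) (1 : Submodule ℂ K) :=
    pow_mem_bih (add_mem (Submodule.smul_mem _ _ (X_mem_bih_x (Or.inl rfl)))
      (Submodule.smul_mem _ _ (X_mem_bih_x (Or.inr rfl)))) _
  have h1 : ((g 1 0 • X 0 + g 1 1 • X 1 : MvPolynomial (Fin 4) K)) ^ e 1 ∈
      bih (e 1 * 1) (e 1 * 0) (1 : Submodule ℂ K) :=
    pow_mem_bih (add_mem (Submodule.smul_mem _ _ (X_mem_bih_x (Or.inl rfl)))
      (Submodule.smul_mem _ _ (X_mem_bih_x (Or.inr rfl)))) _
  have h2 : ((h 0 0 • X 2 + h 0 1 • X 3 : MvPolynomial (Fin 4) K)) ^ e 2 ∈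
      bih (e 2 * 0) (e 2 * 1) (1 : Submodule ℂ K) :=
    pow_mem_bih (add_mem (Submodule.smul_mem _ _ (X_mem_bih_y (Or.inl rfl)))
      (Submodule.smul_mem _ _ (X_mem_bih_y (Or.inr rfl)))) _
  have h3 : ((h 1 0 • X 2 + h 1 1 • X 3 : MvPolynomial (Fin 4) K)) ^ e 3 ∈
      bih (e 3 * 0) (e 3 * 1) (1 : Submodule ℂ K) :=
    pow_mem_bih (add_mem (Submodule.smul_mem _ _ (X_mem_bih_y (Or.inl rfl)))
      (Submodule.smul_mem _ _ (X_mem_bih_y (Or.inr rfl)))) _
  have h4 := bih_mul one_mul_mem (bih_mul one_mul_mem (bih_mul one_mul_mem h0 h1) h2) h3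
  have h5 := bih_mul (W'' := W) (fun x hx y hy => by rw [mul_comm]; exact one_mul_mem y hy x hx)
    (C_mem_bih hc) h4
  have e1 : 0 + (e 0 * 1 + e 1 * 1 + e 2 * 0 + e 3 * 0) = e 0 + e 1 := by ring
  have e2 : 0 + (e 0 * 0 + e 1 * 0 + e 2 * 1 + e 3 * 1) = e 2 + e 3 := by ring
  rw [e1, e2] at h5
  exact h5

theorem subst_mem_bigr (g h : Matrix (Fin 2) (Fin 2) ℂ) {q N : ℕ} {U : ℤ → Submodule ℂ K}
    {f : MvPolynomial (Fin 4) K} (hf : f ∈ bigr q N U) : subst g h f ∈ bigr q N U := by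
  rw [f.as_sum, map_sum]
  refine sum_mem fun e he => ?_
  rw [MvPolynomial.mem_support_iff] at he
  obtain ⟨j, h1, h2, h3, h4⟩ := hf e he
  intro e' he'
  obtain ⟨g1, g2, g3⟩ := subst_monomial_mem g h h4 e e' he'
  refine ⟨j, h1, ?_, ?_, g3⟩
  · rw [← h2]
    exact_mod_cast g1
  · rw [← h3]
    exact_mod_cast g2

theorem filtU_equivariant (T : Datum K) (q u : ℕ) (D₀ : T.X.Pt →₀ ℤ) :
    (filtU T q u D₀).Equivariant := by
  intro g h _ _ N l f hf
  exact subst_mem_bigr g h hf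

end Pool.Agent.YTD
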