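import Pool.Agent.YTD.BridgeM
import Pool.Agent.YTD.Orders
import Pool.Agent.YTD.UnstEq

/-!
Twisting filtrations by automorphisms of the section ring.
-/

namespace Pool.Agent.YTD

open Finset Module MvPolynomial Filter

variable {K : Type} [Field K] [Algebra ℂ K]
variable {T : Datum K} {q : ℕ} {D₀ : T.X.Pt →₀ ℤ} {r : ℕ}

/-- `ℂ`-algebra automorphisms of `K[x₀, x₁, y₀, y₁]`. -/
abbrev Autom (K : Type) [Field K] [Algebra ℂ K] :=
  MvPolynomial (Fin 4) K ≃ₐ[ℂ] MvPolynomial (Fin 4) K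

/-- The automorphism `E` preserves the section ring. -/
def Pres (T : Datum K) (q : ℕ) (D₀ : T.X.Pt →₀ ℤ) (E : Autom K) : Prop :=
  ∀ N, (T.sec q D₀ N).map E.toLinearMap = T.sec q D₀ N

theorem Pres.of_le {E : Autom K} (h1 : ∀ N, ∀ f ∈ T.sec q D₀ N, E f ∈ T.sec q D₀ N)
    (h2 : ∀ N, ∀ f ∈ T.sec q D₀ N, E.symm f ∈ T.sec q D₀ N) : Pres T q D₀ E := by
  intro N
  apply le_antisymm
  · rintro _ ⟨f, hf, rfl⟩
    exact h1 N f hf
  · intro f hf
    exact ⟨E.symm f, h2 N f hf, E.apply_symm_apply f⟩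

theorem Pres.mem {E : Autom K} (h : Pres T q D₀ E) {N : ℕ} {f : MvPolynomial (Fin 4) K}
    (hf : f ∈ T.sec q D₀ N) : E f ∈ T.sec q D₀ N := by
  rw [← h N]
  exact ⟨f, hf, rfl⟩

theorem Pres.symm {E : Autom K} (h : Pres T q D₀ E) : Pres T q D₀ E.symm := by
  intro N
  conv_lhs => rw [← h N]
  ext f
  constructor
  · rintro ⟨_, ⟨g, hg, rfl⟩, rfl⟩
    have : E.symm.toLinearMap (E.toLinearMap g) = g := E.symm_apply_apply g
    rw [this]
    exact hg
  · intro hf
    exact ⟨E f, ⟨f, hf, rfl⟩, E.symm_apply_apply f⟩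

theorem Pres.trans {E E' : Autom K} (h : Pres T q D₀ E) (h' : Pres T q D₀ E') :
    Pres T q D₀ (E.trans E') := by
  intro N
  have e : (E.trans E').toLinearMap = E'.toLinearMap.comp E.toLinearMap := rfl
  rw [e, Submodule.map_comp, h N, h' N]

theorem autom_injective (E : Autom K) : Function.Injective E.toLinearMap := E.injective

namespace Filt

variable (χ : Filt T q D₀ r)

/-- The filtration twisted by an automorphism preserving the section ring. -/
noncomputable def tw (E : Autom K) (hE : Pres T q D₀ E) : Filt T q D₀ r where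
  F N l := (χ.F N l).map E.toLinearMap
  le N l := by
    rw [← hE (r * N)]
    exact Submodule.map_mono (χ.le N l)
  anti N l l' h := Submodule.map_mono (χ.anti N l l' h)
  mul := by
    rintro N N' l l' _ ⟨f, hf, rfl⟩ _ ⟨g, hg, rfl⟩
    exact ⟨f * g, χ.mul N N' l l' f hf g hg, map_mul E f g⟩
  bound := by
    obtain ⟨Λ, h⟩ := χ.bound
    refine ⟨Λ, fun N => ?_⟩
    rw [(h N).1, (h N).2, hE, Submodule.map_bot]
    exact ⟨rfl, rfl⟩

variable (E : Autom K) (hE : Pres T q D₀ E)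

theorem tw_F (N : ℕ) (l : ℤ) : (χ.tw E hE).F N l = (χ.F N l).map E.toLinearMap := rfl

theorem mem_tw {N : ℕ} {l : ℤ} {f : MvPolynomial (Fin 4) K} :
    f ∈ (χ.tw E hE).F N l ↔ E.symm f ∈ χ.F N l := by
  rw [tw_F]
  constructor
  · rintro ⟨g, hg, rfl⟩
    have : E.symm (E.toLinearMap g) = g := E.symm_apply_apply g
    rw [this]
    exact hg
  · intro h
    exact ⟨E.symm f, h, E.apply_symm_apply f⟩

theorem apply_mem_tw {N : ℕ} {l : ℤ} {f : MvPolynomial (Fin 4) K} :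
    E f ∈ (χ.tw E hE).F N l ↔ f ∈ χ.F N l := by
  rw [mem_tw, E.symm_apply_apply]

theorem finrank_tw (N : ℕ) (l : ℤ) : finrank ℂ ((χ.tw E hE).F N l) = finrank ℂ (χ.F N l) := by
  rw [tw_F]
  exact (LinearEquiv.finrank_eq
    (Submodule.equivMapOfInjective E.toLinearMap (autom_injective E) (χ.F N l))).symm

theorem wt_tw (N : ℕ) (l : ℤ) : (χ.tw E hE).wt N l = χ.wt N l := by
  unfold wt
  rw [finrank_tw, finrank_tw]

theorem tr_tw (p N : ℕ) : (χ.tw E hE).tr p N = χ.tr p N := by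
  unfold tr
  simp only [wt_tw]

theorem dimN_tw (N : ℕ) : (χ.tw E hE).dimN N = χ.dimN N := rfl

theorem expansion_tw {a₀ a₁ b₀ b₁ c₀ : ℝ} :
    (χ.tw E hE).Expansion a₀ a₁ b₀ b₁ c₀ ↔ χ.Expansion a₀ a₁ b₀ b₁ c₀ := by
  unfold Expansion
  simp only [tr_tw, dimN_tw]

theorem lam_tw : (χ.tw E hE).lam = χ.lam := by
  have key : (fun Λ : ℕ => ∀ N : ℕ, (χ.tw E hE).F N (-(Λ * N)) = T.sec q D₀ (r * N) ∧
      (χ.tw E hE).F N (Λ * N + 1) = ⊥) =
      fun Λ : ℕ => ∀ N : ℕ, χ.F N (-(Λ * N)) = T.sec q D₀ (r * N) ∧ χ.F N (Λ * N + 1) = ⊥ := by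
    funext Λ
    apply propext
    apply forall_congr'
    intro N
    rw [tw_F, tw_F]
    apply and_congr
    · constructor
      · intro h
        exact Submodule.map_injective_of_injective (autom_injective E) (h.trans (hE (r * N)).symm)
      · intro h
        rw [h]
        exact hE (r * N)
    · exact Submodule.map_eq_bot_iff (p := χ.F N (Λ * N + 1))
        (e := E.toLinearEquiv)
  unfold lam
  congr 1

/-- The filtration is stable under `E`. -/
def Stable (E : Autom K) : Prop := ∀ N l, ∀ f ∈ χ.F N l, E f ∈ χ.F N l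

theorem Stable.tw_le {E : Autom K} {hE : Pres T q D₀ E} (h : χ.Stable E) (N : ℕ) (l : ℤ) :
    (χ.tw E hE).F N l ≤ χ.F N l := by
  rintro _ ⟨f, hf, rfl⟩
  exact h N l f hf

theorem Stable.tw_F_eq (P₀ : T.X.Pt) {E : Autom K} {hE : Pres T q D₀ E} (h : χ.Stable E) (N : ℕ)
    (l : ℤ) : (χ.tw E hE).F N l = χ.F N l := by
  have hfin : FiniteDimensional ℂ (χ.F N l) := by
    have := T.finite_sec P₀ q D₀ (r * N)
    exact Submodule.finiteDimensional_of_le (χ.le N l)
  exact Submodule.eq_of_le_of_finrank_eq (h.tw_le χ N l) (finrank_tw χ E hE N l)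

end Filt

/-! ### Linear substitutions -/

theorem subst_X0 (g h : Matrix (Fin 2) (Fin 2) ℂ) :
    subst (K := K) g h (X 0) = g 0 0 • X 0 + g 0 1 • X 1 := by
  unfold subst
  rw [aeval_X]
  rfl

theorem subst_X1 (g h : Matrix (Fin 2) (Fin 2) ℂ) :
    subst (K := K) g h (X 1) = g 1 0 • X 0 + g 1 1 • X 1 := by
  unfold subst
  rw [aeval_X]
  rfl

theorem subst_X2 (g h : Matrix (Fin 2) (Fin 2) ℂ) :
    subst (K := K) g h (X 2) = h 0 0 • X 2 + h 0 1 • X 3 := by
  unfold subst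
  rw [aeval_X]
  rfl

theorem subst_X3 (g h : Matrix (Fin 2) (Fin 2) ℂ) :
    subst (K := K) g h (X 3) = h 1 0 • X 2 + h 1 1 • X 3 := by
  unfold subst
  rw [aeval_X]
  rfl

theorem subst_smul (g h : Matrix (Fin 2) (Fin 2) ℂ) (c : ℂ) (f : MvPolynomial (Fin 4) K) :
    subst g h (c • f) = c • subst g h f :=
  ((subst (K := K) g h).toLinearMap.restrictScalars ℂ).map_smul c f

theorem subst_subst (g h g' h' : Matrix (Fin 2) (Fin 2) ℂ) (f : MvPolynomial (Fin 4) K) :
    subst g h (subst g' h' f) = subst (g' * g) (h' * h) f := by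
  have key : (subst (K := K) g h).comp (subst g' h') = subst (g' * g) (h' * h) := by
    apply MvPolynomial.algHom_ext
    intro i
    rw [AlgHom.comp_apply]
    have hi : i = 0 ∨ i = 1 ∨ i = 2 ∨ i = 3 := by
      fin_cases i <;> simp
    rcases hi with rfl | rfl | rfl | rfl
    · rw [subst_X0, subst_X0, map_add, subst_smul, subst_smul, subst_X0, subst_X1,
        Matrix.mul_apply, Matrix.mul_apply, Fin.sum_univ_two, Fin.sum_univ_two]
      module
    · rw [subst_X1, subst_X1, map_add, subst_smul, subst_smul, subst_X0, subst_X1,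
        Matrix.mul_apply, Matrix.mul_apply, Fin.sum_univ_two, Fin.sum_univ_two]
      module
    · rw [subst_X2, subst_X2, map_add, subst_smul, subst_smul, subst_X2, subst_X3,
        Matrix.mul_apply, Matrix.mul_apply, Fin.sum_univ_two, Fin.sum_univ_two]
      module
    · rw [subst_X3, subst_X3, map_add, subst_smul, subst_smul, subst_X2, subst_X3,
        Matrix.mul_apply, Matrix.mul_apply, Fin.sum_univ_two, Fin.sum_univ_two]
      module
  exact congrArg (fun φ : MvPolynomial (Fin 4) K →ₐ[K] MvPolynomial (Fin 4) K => φ f) key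

theorem subst_one (f : MvPolynomial (Fin 4) K) : subst 1 1 f = f := by
  have key : (subst (K := K) 1 1) = AlgHom.id K _ := by
    apply MvPolynomial.algHom_ext
    intro i
    have hi : i = 0 ∨ i = 1 ∨ i = 2 ∨ i = 3 := by
      fin_cases i <;> simp
    rcases hi with rfl | rfl | rfl | rfl
    · rw [subst_X0]
      simp
    · rw [subst_X1]
      simp
    · rw [subst_X2]
      simp
    · rw [subst_X3]
      simp
  rw [key]
  rfl

/-- The automorphism given by a pair of invertible matrices. -/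
noncomputable def substE (K : Type) [Field K] [Algebra ℂ K] (g h : Matrix (Fin 2) (Fin 2) ℂ)
    (hg : IsUnit g) (hh : IsUnit h) : Autom K :=
  AlgEquiv.ofAlgHom ((subst (K := K) g h).restrictScalars ℂ)
    ((subst (K := K) g⁻¹ h⁻¹).restrictScalars ℂ)
    (by
      apply AlgHom.ext
      intro f
      show subst g h (subst g⁻¹ h⁻¹ f) = f
      rw [subst_subst, Matrix.nonsing_inv_mul _ ((Matrix.isUnit_iff_isUnit_det g).1 hg),
        Matrix.nonsing_inv_mul _ ((Matrix.isUnit_iff_isUnit_det h).1 hh), subst_one])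
    (by
      apply AlgHom.ext
      intro f
      show subst g⁻¹ h⁻¹ (subst g h f) = f
      rw [subst_subst, Matrix.mul_nonsing_inv _ ((Matrix.isUnit_iff_isUnit_det g).1 hg),
        Matrix.mul_nonsing_inv _ ((Matrix.isUnit_iff_isUnit_det h).1 hh), subst_one])

theorem substE_apply {g h : Matrix (Fin 2) (Fin 2) ℂ} (hg : IsUnit g) (hh : IsUnit h)
    (f : MvPolynomial (Fin 4) K) : substE K g h hg hh f = subst g h f := rfl

theorem substE_symm_apply {g h : Matrix (Fin 2) (Fin 2) ℂ} (hg : IsUnit g) (hh : IsUnit h)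
    (f : MvPolynomial (Fin 4) K) : (substE K g h hg hh).symm f = subst g⁻¹ h⁻¹ f := rfl

theorem subst_mem_sec (g h : Matrix (Fin 2) (Fin 2) ℂ) {N : ℕ} {f : MvPolynomial (Fin 4) K}
    (hf : f ∈ T.sec q D₀ N) : subst g h f ∈ T.sec q D₀ N :=
  subst_mem_bigr g h (q := q) (N := N) (U := T.V q D₀ N) hf

theorem pres_substE {g h : Matrix (Fin 2) (Fin 2) ℂ} (hg : IsUnit g) (hh : IsUnit h) :
    Pres T q D₀ (substE K g h hg hh) :=
  Pres.of_le (fun _ _ hf => subst_mem_sec g h hf) (fun _ _ hf => subst_mem_sec _ _ hf)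

/-! ### Involutions -/

/-- An involution of the curve exchanging `S` and `S'`. -/
structure Inv (T : Datum K) where
  θ : K ≃ₐ[ℂ] K
  σ : T.X.Pt → T.X.Pt
  θθ : ∀ z, θ (θ z) = z
  σσ : ∀ P, σ (σ P) = P
  free : ∀ P, σ P ≠ P
  ord_σ : ∀ P z, z ≠ 0 → T.X.ord (σ P) (θ z) = T.X.ord P z
  S_iff : ∀ P, P ∈ T.S ↔ σ P ∈ T.S'

namespace Inv

variable (ι : Inv T)

theorem S'_iff (P : T.X.Pt) : P ∈ T.S' ↔ ι.σ P ∈ T.S := by
  rw [ι.S_iff (ι.σ P), ι.σσ]

theorem symm_eq : ι.θ.symm = ι.θ := by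
  apply AlgEquiv.ext
  intro z
  rw [AlgEquiv.symm_apply_eq, ι.θθ]

/-- The divisor is invariant. -/
def Fixes (D : T.X.Pt →₀ ℤ) : Prop := ∀ P, D (ι.σ P) = D P

open Classical in
theorem sum_single_apply (A : Finset T.X.Pt) (c : ℤ) (P : T.X.Pt) :
    (∑ y ∈ A, Finsupp.single y c : T.X.Pt →₀ ℤ) P = if P ∈ A then c else 0 := by
  rw [Finsupp.finset_sum_apply]
  simp only [Finsupp.single_apply]
  rw [Finset.sum_ite_eq' A P]

theorem dvs_σ (hD : ι.Fixes D₀) (N : ℕ) (j : ℤ) (P : T.X.Pt) :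
    T.dvs q D₀ N (-j) (ι.σ P) = T.dvs q D₀ N j P := by
  classical
  unfold Datum.dvs
  have h1 : (ι.σ P ∈ T.S) = (P ∈ T.S') := propext (ι.S'_iff P).symm
  have h2 : (ι.σ P ∈ T.S') = (P ∈ T.S) := propext (ι.S_iff P).symm
  simp only [Finsupp.sub_apply, Finsupp.smul_apply, sum_single_apply, h1, h2, hD P, neg_neg]
  ring

theorem θ_mem_V (hD : ι.Fixes D₀) {N : ℕ} {j : ℤ} {z : K} (hz : z ∈ T.V q D₀ N j) :
    ι.θ z ∈ T.V q D₀ N (-j) := by
  intro h0 P
  have hz0 : z ≠ 0 := by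
    rintro rfl
    exact h0 (map_zero _)
  have h1 := hz hz0 (ι.σ P)
  have h2 := ι.ord_σ (ι.σ P) z hz0
  rw [ι.σσ] at h2
  have h3 := ι.dvs_σ (q := q) hD N j (ι.σ P)
  rw [ι.σσ] at h3
  rw [h2, h3]
  exact h1

/-- the exchange of the `x` and `y` variables -/
def swp : Equiv.Perm (Fin 4) := Equiv.swap 0 2 * Equiv.swap 1 3

theorem swp_0 : swp 0 = 2 := by decide
theorem swp_1 : swp 1 = 3 := by decide
theorem swp_2 : swp 2 = 0 := by decide
theorem swp_3 : swp 3 = 1 := by decide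
theorem swp_swp (i : Fin 4) : swp (swp i) = i := by
  revert i
  decide

theorem swp_symm : swp.symm = swp := by
  apply Equiv.ext
  intro i
  rw [Equiv.symm_apply_eq, swp_swp]

/-- The involution `τ` of the section ring: it exchanges `x` and `y` and acts by `θ` on the
coefficients. -/
noncomputable def tauE : Autom K :=
  (AlgEquiv.restrictScalars ℂ (renameEquiv K swp)).trans (mapAlgEquiv (Fin 4) ι.θ)

theorem tauE_apply (f : MvPolynomial (Fin 4) K) :
    ι.tauE f = MvPolynomial.map (ι.θ : K →+* K) (rename swp f) := rfl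

/-- action of `τ` on exponents -/
noncomputable def swe (e : Fin 4 →₀ ℕ) : Fin 4 →₀ ℕ := e.mapDomain swp

theorem swe_apply (e : Fin 4 →₀ ℕ) (i : Fin 4) : swe e i = e (swp i) := by
  unfold swe
  have : e.mapDomain swp (swp (swp i)) = e (swp i) :=
    Finsupp.mapDomain_apply swp.injective e (swp i)
  rwa [swp_swp] at this

theorem swe_swe (e : Fin 4 →₀ ℕ) : swe (swe e) = e := by
  ext i
  rw [swe_apply, swe_apply, swp_swp]

theorem coeff_tauE (f : MvPolynomial (Fin 4) K) (e : Fin 4 →₀ ℕ) :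
    (ι.tauE f).coeff e = ι.θ (f.coeff (swe e)) := by
  rw [tauE_apply, coeff_map]
  have h := coeff_rename_mapDomain swp swp.injective f (swe e)
  have h2 : (swe e).mapDomain swp = e := swe_swe e
  rw [h2] at h
  rw [h]
  rfl

theorem tauE_tauE (f : MvPolynomial (Fin 4) K) : ι.tauE (ι.tauE f) = f := by
  ext e
  rw [coeff_tauE, coeff_tauE, swe_swe, ι.θθ]

theorem tauE_symm : ι.tauE.symm = ι.tauE := by
  apply AlgEquiv.ext
  intro z
  rw [AlgEquiv.symm_apply_eq, ι.tauE_tauE]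

theorem tauE_mem_sec (hD : ι.Fixes D₀) {N : ℕ} {f : MvPolynomial (Fin 4) K}
    (hf : f ∈ T.sec q D₀ N) : ι.tauE f ∈ T.sec q D₀ N := by
  intro e he
  rw [coeff_tauE] at he ⊢
  have h0 : f.coeff (swe e) ≠ 0 := by
    intro h0
    apply he
    rw [h0, map_zero]
  obtain ⟨j, h1, h2, h3, h4⟩ := hf _ h0
  rw [swe_apply, swe_apply, swp_0, swp_1] at h2
  rw [swe_apply, swe_apply, swp_2, swp_3] at h3
  exact ⟨-j, by rw [abs_neg]; exact h1, by rw [h3]; ring, by rw [h2]; ring, ι.θ_mem_V hD h4⟩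

theorem pres_tauE (hD : ι.Fixes D₀) : Pres T q D₀ ι.tauE :=
  Pres.of_le (fun _ _ hf => ι.tauE_mem_sec hD hf) (fun _ _ hf => by
    rw [tauE_symm]
    exact ι.tauE_mem_sec hD hf)

theorem fixes_nsmul {D : T.X.Pt →₀ ℤ} (h : ι.Fixes D) (n : ℕ) : ι.Fixes (n • D) := by
  intro P
  rw [Finsupp.smul_apply, Finsupp.smul_apply, h P]

end Inv

/-! ### The group `Γ` -/

/-- the diagonal matrix `(1, -1)` -/
def s1 : Matrix (Fin 2) (Fin 2) ℂ := !![1, 0; 0, -1]

/-- the antidiagonal matrix -/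
def s2 : Matrix (Fin 2) (Fin 2) ℂ := !![0, 1; 1, 0]

theorem isUnit_s1 : IsUnit s1 := by
  rw [Matrix.isUnit_iff_isUnit_det, s1, Matrix.det_fin_two_of]
  norm_num

theorem isUnit_s2 : IsUnit s2 := by
  rw [Matrix.isUnit_iff_isUnit_det, s2, Matrix.det_fin_two_of]
  norm_num

/-- Invariance of a filtration under the group `Γ = V₄ × ⟨τ⟩`. -/
structure Filt.GammaInv (χ : Filt T q D₀ r) (ι : Inv T) : Prop where
  s1 : ∀ N l, ∀ f ∈ χ.F N l, subst s1 s1 f ∈ χ.F N l
  s2 : ∀ N l, ∀ f ∈ χ.F N l, subst s2 s2 f ∈ χ.F N l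
  tau : ∀ N l, ∀ f ∈ χ.F N l, ι.tauE f ∈ χ.F N l

end Pool.Agent.YTD
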