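import Pool.Agent.YTD.UnstFut

/-!
The sign of the Futaki invariant of `filtU` for polarizations of slope slightly less than the
critical one.
-/

namespace Pool.Agent.YTD

/-- `b₀` for `t = 1`, `deg D₀ = 105 q - 1`. -/
noncomputable def B0 (q u : ℝ) : ℝ :=
  598520 / 3 * q ^ 5 - 42850 * q ^ 4 * u +
    (105 * q - 1) * (-25625 / 2 * q ^ 4 + 5500 * q ^ 3 * u - 625 * q ^ 2 * u ^ 2 + 3 / 2 * u ^ 4)

/-- `b₁` for `t = 1`, `deg D₀ = 105 q - 1`. -/
noncomputable def B1 (q u : ℝ) : ℝ :=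
  -(125 * q ^ 2 - 9 * u ^ 2) ^ 2 / 6 + 50 * q * (5 * q - u) * (13 * q - u)

theorem num_pos_large {q u : ℝ} (hq : 6 ≤ q) (hu : 0 ≤ u) (h1 : 9 * u ^ 2 ≤ 125 * q ^ 2)
    (h2 : 125 * q ^ 2 < 9 * (u + 1) ^ 2) :
    0 < 50 * q * (10693 * q - 110) * B1 q u + 900 * B0 q u := by
  have hu1 : u ≤ 3.727 * q := by
    by_contra h
    push Not at h
    nlinarith
  have hu2 : 3.55 * q ≤ u := by
    have : 3.726 * q < u + 1 := by
      by_contra h
      push Not at h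
      nlinarith
    linarith
  have hX0 : 0 ≤ 125 * q ^ 2 - 9 * u ^ 2 := by linarith
  have hX1 : 125 * q ^ 2 - 9 * u ^ 2 ≤ 68.6 * q := by nlinarith
  have hX2 : (125 * q ^ 2 - 9 * u ^ 2) ^ 2 ≤ 4706 * q ^ 2 := by
    have := pow_le_pow_left₀ hX0 hX1 2
    nlinarith
  have hX3 : 4706 * q ^ 2 ≤ 785 * q ^ 3 := by
    have : 0 ≤ q ^ 2 := by positivity
    nlinarith
  have h3 : 11.8 * q ^ 2 ≤ (5 * q - u) * (13 * q - u) := by
    have a1 : 1.273 * q ≤ 5 * q - u := by linarith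
    have a2 : 9.273 * q ≤ 13 * q - u := by linarith
    have := mul_le_mul a1 a2 (by linarith) (by linarith)
    nlinarith
  have hB1 : 459 * q ^ 3 ≤ B1 q u := by
    unfold B1
    have : 50 * q * (11.8 * q ^ 2) ≤ 50 * q * ((5 * q - u) * (13 * q - u)) :=
      mul_le_mul_of_nonneg_left h3 (by linarith)
    nlinarith
  have hu3 : u ^ 2 ≤ 13.8906 * q ^ 2 := by
    have := pow_le_pow_left₀ hu hu1 2
    nlinarith
  have hu4 : 12.6 * q ^ 2 ≤ u ^ 2 := by
    have := pow_le_pow_left₀ (by linarith) hu2 2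
    nlinarith
  have hu5 : u ^ 4 ≤ 193 * q ^ 4 := by
    have := pow_le_pow_left₀ (by positivity) hu3 2
    nlinarith [pow_nonneg (show (0 : ℝ) ≤ q by linarith) 4]
  have hB0 : -160000 * q ^ 5 ≤ B0 q u := by
    have g1 : -12812.5 * q ^ 4 + 5500 * q ^ 3 * (3.55 * q) - 625 * q ^ 2 * (13.8906 * q ^ 2) ≤
        -25625 / 2 * q ^ 4 + 5500 * q ^ 3 * u - 625 * q ^ 2 * u ^ 2 + 3 / 2 * u ^ 4 := by
      have b1 : q ^ 3 * (3.55 * q) ≤ q ^ 3 * u := mul_le_mul_of_nonneg_left hu2 (by positivity)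
      have b2 : q ^ 2 * u ^ 2 ≤ q ^ 2 * (13.8906 * q ^ 2) :=
        mul_le_mul_of_nonneg_left hu3 (by positivity)
      have b3 : 0 ≤ u ^ 4 := by positivity
      nlinarith
    have g2 : q ^ 4 * u ≤ q ^ 4 * (3.727 * q) := mul_le_mul_of_nonneg_left hu1 (by positivity)
    have g3 : (105 * q - 1) * (-12812.5 * q ^ 4 + 5500 * q ^ 3 * (3.55 * q) -
        625 * q ^ 2 * (13.8906 * q ^ 2)) ≤ (105 * q - 1) * (-25625 / 2 * q ^ 4 +
        5500 * q ^ 3 * u - 625 * q ^ 2 * u ^ 2 + 3 / 2 * u ^ 4) :=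
      mul_le_mul_of_nonneg_left g1 (by linarith)
    unfold B0
    have g4 : 0 ≤ q ^ 4 := by positivity
    have g5 : 0 ≤ q ^ 5 := by positivity
    nlinarith
  have h5 : 10674 * q ≤ 10693 * q - 110 := by linarith
  have h6 : 50 * q * (10674 * q) * (459 * q ^ 3) ≤ 50 * q * (10693 * q - 110) * B1 q u := by
    apply mul_le_mul
    · exact mul_le_mul_of_nonneg_left h5 (by linarith)
    · exact hB1
    · positivity
    · apply mul_nonneg <;> linarith
  have h7 : 0 < q ^ 5 := by positivity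
  nlinarith

theorem num_pos {q u : ℕ} (hq : 0 < q) (h1 : 9 * u ^ 2 ≤ 125 * q ^ 2)
    (h2 : 125 * q ^ 2 < 9 * (u + 1) ^ 2) :
    0 < 50 * (q : ℝ) * (10693 * q - 110) * B1 q u + 900 * B0 q u := by
  rcases Nat.lt_or_ge q 6 with h | h
  · have hu : u < 20 := by
      by_contra h'
      push Not at h'
      have : q ^ 2 ≤ 5 ^ 2 := Nat.pow_le_pow_left (by omega) 2
      nlinarith
    interval_cases q <;> interval_cases u <;> first | omega | (unfold B1 B0; norm_num)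
  · exact num_pos_large (by exact_mod_cast h) (by positivity) (by exact_mod_cast h1)
      (by exact_mod_cast h2)

theorem num_eq (q u t : ℕ) :
    ca0 q t (t * (105 * q - 1)) * cb1 q u t (t * (105 * q - 1)) -
      ca1 q t (t * (105 * q - 1)) * cb0 q u t (t * (105 * q - 1)) =
    t ^ 2 * q ^ 2 * (50 * (q : ℝ) * (10693 * q - 110) * B1 q u + 900 * B0 q u) := by
  unfold ca0 ca1 cb0 cb1 B1 B0
  ring

theorem exists_u (q : ℕ) : ∃ u : ℕ, 9 * u ^ 2 ≤ 125 * q ^ 2 ∧ 125 * q ^ 2 < 9 * (u + 1) ^ 2 ∧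
    3 * q ≤ u ∧ u ≤ 4 * q := by
  have h1 := Nat.sqrt_le' (125 * q ^ 2 / 9)
  have h2 := Nat.lt_succ_sqrt' (125 * q ^ 2 / 9)
  refine ⟨Nat.sqrt (125 * q ^ 2 / 9), ?_, ?_, ?_, ?_⟩
  · omega
  · simp only [Nat.succ_eq_add_one] at h2
    omega
  · apply Nat.le_sqrt'.2
    rw [Nat.le_div_iff_mul_le (by norm_num)]
    nlinarith
  · by_contra h
    push Not at h
    have h3 : (4 * q + 1) ^ 2 ≤ Nat.sqrt (125 * q ^ 2 / 9) ^ 2 := Nat.pow_le_pow_left h 2
    have h4 : 9 * (125 * q ^ 2 / 9) ≤ 125 * q ^ 2 := Nat.mul_div_le _ _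
    nlinarith

theorem fut_neg {q u t : ℕ} (hq : 0 < q) (ht : 0 < t) (h1 : 9 * u ^ 2 ≤ 125 * q ^ 2)
    (h2 : 125 * q ^ 2 < 9 * (u + 1) ^ 2) :
    (ca1 q t (t * (105 * q - 1)) * cb0 q u t (t * (105 * q - 1)) -
      ca0 q t (t * (105 * q - 1)) * cb1 q u t (t * (105 * q - 1))) /
      ca0 q t (t * (105 * q - 1)) ^ 2 < 0 := by
  have h3 := num_pos hq h1 h2
  have h4 := num_eq q u t
  have hq' : (1 : ℝ) ≤ q := by exact_mod_cast hq
  have ht' : (0 : ℝ) < t := by exact_mod_cast ht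
  have h5 : 0 < ca0 q t (t * (105 * q - 1)) := by
    have e : ca0 q t (t * (105 * q - 1)) = t * q ^ 3 * (534650 * q - 5500) := by
      unfold ca0
      ring
    rw [e]
    have : (0 : ℝ) < 534650 * q - 5500 := by linarith
    positivity
  apply div_neg_of_neg_of_pos
  · have : (0 : ℝ) < t ^ 2 * q ^ 2 * (50 * (q : ℝ) * (10693 * q - 110) * B1 q u + 900 * B0 q u) := by
      positivity
    linarith
  · positivity

end Pool.Agent.YTD
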