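import Pool.Agent.YTD.UnstEq
import Pool.Agent.YTD.UnstSign

/-!
Finite generation of the Rees algebra of `filtU`.
-/

namespace Pool.Agent.YTD

open Finset Module MvPolynomial

variable {K : Type} [Field K] [Algebra ℂ K]

section span

variable {k : ℕ} (n : Fin k → ℕ) (w : Fin k → ℤ) (f : Fin k → MvPolynomial (Fin 4) K)

/-- the span of the products of generators of degree `N` and weight at least `l`. -/
noncomputable def gspan (N : ℕ) (l : ℤ) : Submodule ℂ (MvPolynomial (Fin 4) K) :=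
  Submodule.span ℂ {g | ∃ m : Fin k → ℕ,
      ∑ i, m i * n i = N ∧ l ≤ ∑ i, m i * w i ∧ g = ∏ i, f i ^ m i}

variable {n w f}

theorem gspan_anti {N : ℕ} {l l' : ℤ} (h : l ≤ l') : gspan n w f N l' ≤ gspan n w f N l := by
  apply Submodule.span_mono
  rintro g ⟨m, h1, h2, h3⟩
  exact ⟨m, h1, h.trans h2, h3⟩

theorem gspan_mul {N N' : ℕ} {l l' : ℤ} {x y : MvPolynomial (Fin 4) K}
    (hx : x ∈ gspan n w f N l) (hy : y ∈ gspan n w f N' l') :
    x * y ∈ gspan n w f (N + N') (l + l') := by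
  have h : gspan n w f N l * gspan n w f N' l' ≤ gspan n w f (N + N') (l + l') := by
    unfold gspan
    rw [Submodule.span_mul_span]
    apply Submodule.span_mono
    rintro _ ⟨g, ⟨m, h1, h2, rfl⟩, g', ⟨m', h1', h2', rfl⟩, rfl⟩
    refine ⟨m + m', ?_, ?_, ?_⟩
    · rw [← h1, ← h1', ← sum_add_distrib]
      exact sum_congr rfl fun i _ => by rw [Pi.add_apply]; ring
    · have : ∑ i, (((m + m') i : ℕ) : ℤ) * w i = ∑ i, (m i : ℤ) * w i + ∑ i, (m' i : ℤ) * w i := by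
        rw [← sum_add_distrib]
        exact sum_congr rfl fun i _ => by rw [Pi.add_apply]; push_cast; ring
      rw [this]
      exact add_le_add h2 h2'
    · simp only
      rw [← prod_mul_distrib]
      exact prod_congr rfl fun i _ => by rw [Pi.add_apply, pow_add]
  exact h (Submodule.mul_mem_mul hx hy)

theorem gen_mem_gspan (i : Fin k) : f i ∈ gspan n w f (n i) (w i) := by
  apply Submodule.subset_span
  refine ⟨Pi.single i 1, ?_, ?_, ?_⟩
  · rw [sum_eq_single i]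
    · rw [Pi.single_eq_same, one_mul]
    · intro j _ hj
      rw [Pi.single_eq_of_ne hj, zero_mul]
    · intro h
      exact (h (mem_univ _)).elim
  · rw [sum_eq_single i]
    · rw [Pi.single_eq_same, Nat.cast_one, one_mul]
    · intro j _ hj
      rw [Pi.single_eq_of_ne hj, Nat.cast_zero, zero_mul]
    · intro h
      exact (h (mem_univ _)).elim
  · rw [prod_eq_single i]
    · rw [Pi.single_eq_same, pow_one]
    · intro j _ hj
      rw [Pi.single_eq_of_ne hj, pow_zero]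
    · intro h
      exact (h (mem_univ _)).elim

end span

/-- splitting an index within a chamber. -/
theorem split_index {A B C D j : ℤ} (_hA : 0 ≤ A) (hB : 0 ≤ B) (hC : 0 ≤ C) (hD : 0 ≤ D)
    (hCA : C ≤ 4 * A) (hDB : D ≤ 4 * B) (hj : |j| ≤ 5 * (A + B)) :
    ∃ j₁ j₂ : ℤ, j₁ + j₂ = j ∧ |j₁| ≤ 5 * A ∧ |j₂| ≤ 5 * B ∧
      max 0 (j - 4 * (A + B)) = max 0 (j₁ - 4 * A) + max 0 (j₂ - 4 * B) ∧
      max 0 (-j - 4 * (A + B)) = max 0 (-j₁ - 4 * A) + max 0 (-j₂ - 4 * B) ∧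
      min 0 (C + D - |j|) ≤ min 0 (C - |j₁|) + min 0 (D - |j₂|) := by
  have key : ∀ i : ℤ, 0 ≤ i → i ≤ 5 * (A + B) → ∃ i₁ i₂ : ℤ, i₁ + i₂ = i ∧ 0 ≤ i₁ ∧ 0 ≤ i₂ ∧
      i₁ ≤ 5 * A ∧ i₂ ≤ 5 * B ∧
      max 0 (i - 4 * (A + B)) = max 0 (i₁ - 4 * A) + max 0 (i₂ - 4 * B) ∧
      min 0 (C + D - i) ≤ min 0 (C - i₁) + min 0 (D - i₂) := by
    intro i h0 h1
    rcases le_or_gt i (C + D) with h2 | h2
    · exact ⟨max 0 (i - D), i - max 0 (i - D), by omega, by omega, by omega, by omega, by omega,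
        by omega, by omega⟩
    · rcases le_or_gt i (4 * (A + B)) with h3 | h3
      · exact ⟨max C (i - 4 * B), i - max C (i - 4 * B), by omega, by omega, by omega, by omega,
          by omega, by omega, by omega⟩
      · exact ⟨max (4 * A) (i - 5 * B), i - max (4 * A) (i - 5 * B), by omega, by omega,
          by omega, by omega, by omega, by omega, by omega⟩
  rcases le_or_gt 0 j with h | h
  · obtain ⟨i₁, i₂, h1, h2, h3, h4, h5, h6, h7⟩ := key j h (by rwa [abs_of_nonneg h] at hj)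
    refine ⟨i₁, i₂, h1, ?_, ?_, h6, ?_, ?_⟩
    · rwa [abs_of_nonneg h2]
    · rwa [abs_of_nonneg h3]
    · omega
    · rw [abs_of_nonneg h, abs_of_nonneg h2, abs_of_nonneg h3]
      exact h7
  · obtain ⟨i₁, i₂, h1, h2, h3, h4, h5, h6, h7⟩ := key (-j) (by omega)
      (by rwa [abs_of_neg h] at hj)
    refine ⟨-i₁, -i₂, by omega, ?_, ?_, ?_, ?_, ?_⟩
    · rwa [abs_neg, abs_of_nonneg h2]
    · rwa [abs_neg, abs_of_nonneg h3]
    · omega
    · rw [neg_neg, neg_neg]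
      exact h6
    · rw [abs_neg, abs_neg, abs_of_neg h, abs_of_nonneg h2, abs_of_nonneg h3]
      exact h7

/-- splitting an exponent. -/
theorem split_expo {e : Fin 4 →₀ ℕ} {a₁ a₂ b₁ b₂ : ℤ} (ha₁ : 0 ≤ a₁) (ha₂ : 0 ≤ a₂)
    (hb₁ : 0 ≤ b₁) (hb₂ : 0 ≤ b₂) (h1 : (e 0 : ℤ) + e 1 = a₁ + a₂)
    (h2 : (e 2 : ℤ) + e 3 = b₁ + b₂) :
    ∃ e₁ e₂ : Fin 4 →₀ ℕ, e₁ + e₂ = e ∧ (e₁ 0 : ℤ) + e₁ 1 = a₁ ∧ (e₂ 0 : ℤ) + e₂ 1 = a₂ ∧
      (e₁ 2 : ℤ) + e₁ 3 = b₁ ∧ (e₂ 2 : ℤ) + e₂ 3 = b₂ := by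
  obtain ⟨a, ha⟩ := Int.eq_ofNat_of_zero_le ha₁
  obtain ⟨b, hb⟩ := Int.eq_ofNat_of_zero_le hb₁
  obtain ⟨a', ha'⟩ := Int.eq_ofNat_of_zero_le ha₂
  obtain ⟨b', hb'⟩ := Int.eq_ofNat_of_zero_le hb₂
  subst ha hb ha' hb'
  refine ⟨Finsupp.equivFunOnFinite.symm ![min (e 0) a, a - min (e 0) a, min (e 2) b,
      b - min (e 2) b], Finsupp.equivFunOnFinite.symm ![e 0 - min (e 0) a,
      e 1 - (a - min (e 0) a), e 2 - min (e 2) b, e 3 - (b - min (e 2) b)], ?_, ?_, ?_, ?_, ?_⟩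
  · ext i
    fin_cases i
    · show min (e 0) a + (e 0 - min (e 0) a) = e 0
      omega
    · show (a - min (e 0) a) + (e 1 - (a - min (e 0) a)) = e 1
      omega
    · show min (e 2) b + (e 2 - min (e 2) b) = e 2
      omega
    · show (b - min (e 2) b) + (e 3 - (b - min (e 2) b)) = e 3
      omega
  · show ((min (e 0) a : ℕ) : ℤ) + ((a - min (e 0) a : ℕ) : ℤ) = _
    omega
  · show ((e 0 - min (e 0) a : ℕ) : ℤ) + ((e 1 - (a - min (e 0) a) : ℕ) : ℤ) = _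
    omega
  · show ((min (e 2) b : ℕ) : ℤ) + ((b - min (e 2) b : ℕ) : ℤ) = _
    omega
  · show ((e 2 - min (e 2) b : ℕ) : ℤ) + ((e 3 - (b - min (e 2) b) : ℕ) : ℤ) = _
    omega

variable (T : Datum K)

theorem V_split {q : ℕ} {D₀ : T.X.Pt →₀ ℤ} (hD : 100 * (T.t : ℤ) * q < T.X.deg D₀)
    {N₁ N₂ : ℕ} {j₁ j₂ : ℤ} (h₁ : |j₁| ≤ 5 * q * N₁) (h₂ : |j₂| ≤ 5 * q * N₂)
    (hN₁ : 18 * T.t + 2 ≤ N₁) (hN₂ : T.X.deg D₀ * N₁ + 18 * T.t + 1 ≤ N₂)
    (hp : max 0 (j₁ + j₂ - 4 * q * ((N₁ + N₂ : ℕ) : ℤ)) =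
      max 0 (j₁ - 4 * q * N₁) + max 0 (j₂ - 4 * q * N₂))
    (hm : max 0 (-(j₁ + j₂) - 4 * q * ((N₁ + N₂ : ℕ) : ℤ)) =
      max 0 (-j₁ - 4 * q * N₁) + max 0 (-j₂ - 4 * q * N₂)) :
    T.V q D₀ (N₁ + N₂) (j₁ + j₂) ≤ T.V q D₀ N₁ j₁ * T.V q D₀ N₂ j₂ := by
  obtain ⟨P₀⟩ := T.exists_pt
  have ht := T.t_pos
  have hdl : ∀ (N : ℕ) (j : ℤ), |j| ≤ 5 * q * N →
      (T.X.deg D₀ - 100 * T.t * q) * N ≤ T.X.deg (T.dvs q D₀ N j) := by
    intro N j hj
    rw [deg_dvs]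
    have h3 : max 0 (j - 4 * (q : ℤ) * N) + max 0 (-j - 4 * (q : ℤ) * N) ≤ q * N := by
      have h0 : (0 : ℤ) ≤ q * N := by positivity
      have e : 5 * (q : ℤ) * N = 5 * (q * N) := by ring
      have e' : 4 * (q : ℤ) * N = 4 * (q * N) := by ring
      rw [e] at hj
      rw [e']
      generalize (q : ℤ) * N = a at *
      rw [abs_le] at hj
      omega
    have h4 : (0 : ℤ) ≤ 100 * T.t := by positivity
    nlinarith [mul_le_mul_of_nonneg_left h3 h4]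
  have hge : ∀ (N : ℕ) (j : ℤ), |j| ≤ 5 * q * N → (N : ℤ) ≤ T.X.deg (T.dvs q D₀ N j) := by
    intro N j hj
    have h5 := hdl N j hj
    have h6 : (1 : ℤ) ≤ T.X.deg D₀ - 100 * T.t * q := by linarith
    have h7 : (0 : ℤ) ≤ N := by positivity
    nlinarith
  have hdeg1 : 2 * (T.X.genus : ℤ) ≤ T.X.deg (T.dvs q D₀ N₁ j₁) := by
    have h5 := hge N₁ j₁ h₁
    rw [T.genus_eq]
    push_cast
    have : (18 * (T.t : ℤ) + 2) ≤ N₁ := by exact_mod_cast hN₁
    linarith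
  have hW : T.V q D₀ N₁ j₁ ≠ ⊥ := T.X.L_ne_bot hdeg1
  have hmdeg : T.X.mdeg (T.V q D₀ N₁ j₁) = T.X.deg (T.dvs q D₀ N₁ j₁) := T.X.mdeg_L P₀ hdeg1
  have hmdiv : T.X.mdiv (T.V q D₀ N₁ j₁) = T.dvs q D₀ N₁ j₁ := T.X.mdiv_L P₀ hdeg1
  have hup : T.X.deg (T.dvs q D₀ N₁ j₁) ≤ T.X.deg D₀ * N₁ := by
    rw [deg_dvs]
    have h6 : (0 : ℤ) ≤ 100 * T.t *
        (max 0 (j₁ - 4 * (q : ℤ) * N₁) + max 0 (-j₁ - 4 * (q : ℤ) * N₁)) := by positivity
    linarith
  have h := T.X.pencil P₀ (W := T.V q D₀ N₁ j₁) (E := T.dvs q D₀ N₁ j₁)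
    (D := T.dvs q D₀ N₂ j₂) le_rfl hW (by
      rw [hmdeg, T.genus_eq]
      have h5 := hge N₂ j₂ h₂
      push_cast
      linarith)
  rw [hmdiv] at h
  have e : T.dvs q D₀ (N₁ + N₂) (j₁ + j₂) = T.dvs q D₀ N₂ j₂ + T.dvs q D₀ N₁ j₁ := by
    rw [T.dvs_eq, T.dvs_eq, T.dvs_eq, hp, hm, add_smul, add_smul, add_smul]
    abel
  show T.X.L (T.dvs q D₀ (N₁ + N₂) (j₁ + j₂)) ≤ _
  rw [e]
  exact h

/-- Finite generation. -/
theorem filtU_fg {q : ℕ} {D₀ : T.X.Pt →₀ ℤ} (hD : 100 * (T.t : ℤ) * q < T.X.deg D₀) {u : ℕ}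
    (hu : u ≤ 4 * q) :
    ∃ (k : ℕ) (n : Fin k → ℕ) (w : Fin k → ℤ) (f : Fin k → MvPolynomial (Fin 4) K),
    (∀ i, f i ∈ (filtU T q u D₀).F (n i) (w i)) ∧
    ∀ N l, (filtU T q u D₀).F N l ≤ Submodule.span ℂ {g | ∃ m : Fin k → ℕ,
      ∑ i, m i * n i = N ∧ l ≤ ∑ i, m i * w i ∧ g = ∏ i, f i ^ m i} := by
  classical
  have hfin := T.finite_V q D₀
  obtain ⟨d, hd⟩ : ∃ d : ℕ, T.X.deg D₀ = d := by
    apply Int.eq_ofNat_of_zero_le
    have : (0 : ℤ) ≤ 100 * T.t * q := by positivity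
    linarith
  set N₁ : ℕ := 18 * T.t + 2 with hN₁
  set M : ℕ := N₁ + (d * N₁ + 18 * T.t + 1) with hM
  let I : Type := (N : Fin M) × (i : {i // i ∈ idx q (N : ℕ)}) ×
    Fin (finrank ℂ (T.V q D₀ (N : ℕ) i.1.1))
  let φ : Fin (Fintype.card I) ≃ I := (Fintype.equivFin I).symm
  let n : Fin (Fintype.card I) → ℕ := fun i => ((φ i).1 : ℕ)
  let w : Fin (Fintype.card I) → ℤ := fun i =>
    min 0 ((u : ℤ) * ((φ i).1 : ℕ) - |(φ i).2.1.1.1|)
  let f : Fin (Fintype.card I) → MvPolynomial (Fin 4) K := fun i =>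
    monomial (uexpo q ((φ i).1 : ℕ) (φ i).2.1.1)
      ((Module.finBasis ℂ (T.V q D₀ ((φ i).1 : ℕ) (φ i).2.1.1.1) (φ i).2.2 :
        T.V q D₀ ((φ i).1 : ℕ) (φ i).2.1.1.1) : K)
  refine ⟨Fintype.card I, n, w, f, ?_, ?_⟩
  · intro i
    rw [filtU_F]
    have hi := (φ i).2.1.2
    refine monomial_mem_bigr (mem_idx.1 hi).1 (expo_x hi) (expo_y hi) ?_
    rw [UF_pos T le_rfl]
    exact Subtype.coe_prop _
  -- the main induction
  have main : ∀ (N : ℕ) (j : ℤ), |j| ≤ 5 * q * N → ∀ e : Fin 4 →₀ ℕ,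
      (e 0 : ℤ) + e 1 = 25 * q * N + 3 * j → (e 2 : ℤ) + e 3 = 25 * q * N - 3 * j →
      ∀ c ∈ T.V q D₀ N j, monomial e c ∈ gspan n w f N (min 0 ((u : ℤ) * N - |j|)) := by
    intro N
    induction N using Nat.strong_induction_on with
    | _ N ih =>
      intro j hj e h1 h2 c hc
      rcases Nat.lt_or_ge N M with hNM | hNM
      · obtain ⟨h3, h4⟩ := exists_uexpo hj h1 h2
        have h5 : ∀ r : Fin (finrank ℂ (T.V q D₀ N j)),
            monomial e ((Module.finBasis ℂ (T.V q D₀ N j) r : T.V q D₀ N j) : K) ∈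
              gspan n w f N (min 0 ((u : ℤ) * N - |j|)) := by
          intro r
          let x : I := ⟨⟨N, hNM⟩, ⟨⟨j, (e 0, e 2)⟩, h3⟩, r⟩
          have h6 := gen_mem_gspan (n := n) (w := w) (f := f) (φ.symm x)
          have hx : φ (φ.symm x) = x := φ.apply_symm_apply x
          have e1 : n (φ.symm x) = N := by
            show ((φ (φ.symm x)).1 : ℕ) = N
            rw [hx]
          have e2 : w (φ.symm x) = min 0 ((u : ℤ) * N - |j|) := by
            show min 0 ((u : ℤ) * ((φ (φ.symm x)).1 : ℕ) - |(φ (φ.symm x)).2.1.1.1|) = _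
            rw [hx]
          have e3 : f (φ.symm x) =
              monomial e ((Module.finBasis ℂ (T.V q D₀ N j) r : T.V q D₀ N j) : K) := by
            show monomial (uexpo q ((φ (φ.symm x)).1 : ℕ) (φ (φ.symm x)).2.1.1)
              ((Module.finBasis ℂ (T.V q D₀ ((φ (φ.symm x)).1 : ℕ) (φ (φ.symm x)).2.1.1.1)
                (φ (φ.symm x)).2.2 :
                T.V q D₀ ((φ (φ.symm x)).1 : ℕ) (φ (φ.symm x)).2.1.1.1) : K) = _
            rw [hx]
            show monomial (uexpo q N ⟨j, (e 0, e 2)⟩) _ = _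
            rw [h4]
          rw [e1, e2, e3] at h6
          exact h6
        have h7 : c = ∑ r, (Module.finBasis ℂ (T.V q D₀ N j)).repr ⟨c, hc⟩ r •
            ((Module.finBasis ℂ (T.V q D₀ N j) r : T.V q D₀ N j) : K) := by
          have h8 := (Module.finBasis ℂ (T.V q D₀ N j)).sum_repr ⟨c, hc⟩
          have h9 := congrArg (Subtype.val) h8
          rw [AddSubmonoidClass.coe_finsetSum] at h9
          exact h9.symm
        rw [h7, map_sum]
        refine sum_mem fun r _ => ?_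
        have h10 : monomial e ((Module.finBasis ℂ (T.V q D₀ N j)).repr ⟨c, hc⟩ r •
            ((Module.finBasis ℂ (T.V q D₀ N j) r : T.V q D₀ N j) : K)) =
            (Module.finBasis ℂ (T.V q D₀ N j)).repr ⟨c, hc⟩ r • monomial e
              ((Module.finBasis ℂ (T.V q D₀ N j) r : T.V q D₀ N j) : K) := by
          rw [smul_monomial]
        rw [h10]
        exact Submodule.smul_mem _ _ (h5 r)
      · obtain ⟨N₂, rfl⟩ : ∃ N₂, N = N₁ + N₂ := ⟨N - N₁, by omega⟩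
        have hN₂ : d * N₁ + 18 * T.t + 1 ≤ N₂ := by omega
        have eq1 : 5 * (q : ℤ) * ((N₁ + N₂ : ℕ) : ℤ) = 5 * (q * N₁ + q * N₂) := by push_cast; ring
        rw [eq1] at hj
        obtain ⟨j₁, j₂, rfl, g1, g2, g3, g4, g5⟩ := split_index (A := q * N₁) (B := q * N₂)
          (C := u * N₁) (D := u * N₂) (by positivity) (by positivity) (by positivity)
          (by positivity) (by
            have : (u : ℤ) ≤ 4 * q := by exact_mod_cast hu
            nlinarith [(Nat.cast_nonneg N₁ : (0 : ℤ) ≤ N₁)]) (by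
            have : (u : ℤ) ≤ 4 * q := by exact_mod_cast hu
            nlinarith [(Nat.cast_nonneg N₂ : (0 : ℤ) ≤ N₂)]) hj
        have g1' : |j₁| ≤ 5 * q * N₁ := by rw [mul_assoc]; exact g1
        have g2' : |j₂| ≤ 5 * q * N₂ := by rw [mul_assoc]; exact g2
        have hr : ∀ (N : ℕ) (j : ℤ), |j| ≤ 5 * q * N → 0 ≤ 25 * (q : ℤ) * N + 3 * j ∧
            0 ≤ 25 * (q : ℤ) * N - 3 * j := by
          intro N j h
          rw [abs_le] at h
          have : (0 : ℤ) ≤ q * N := by positivity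
          constructor <;> nlinarith
        obtain ⟨e₁, e₂, he, k1, k2, k3, k4⟩ := split_expo (e := e)
          (a₁ := 25 * q * N₁ + 3 * j₁) (a₂ := 25 * q * N₂ + 3 * j₂)
          (b₁ := 25 * q * N₁ - 3 * j₁) (b₂ := 25 * q * N₂ - 3 * j₂)
          (hr _ _ g1').1 (hr _ _ g2').1 (hr _ _ g1').2 (hr _ _ g2').2
          (by rw [h1]; push_cast; ring) (by rw [h2]; push_cast; ring)
        have hsplit := V_split T hD g1' g2' hN₁.ge (by
          rw [hd]
          exact_mod_cast hN₂) (by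
          have a1 : 4 * (q : ℤ) * ((N₁ + N₂ : ℕ) : ℤ) = 4 * (q * N₁ + q * N₂) := by
            push_cast; ring
          rw [a1, g3, mul_assoc, mul_assoc]) (by
          have a1 : 4 * (q : ℤ) * ((N₁ + N₂ : ℕ) : ℤ) = 4 * (q * N₁ + q * N₂) := by
            push_cast; ring
          rw [a1, g4, mul_assoc, mul_assoc])
        have hc' := hsplit hc
        refine gspan_anti (l' := min 0 ((u : ℤ) * N₁ - |j₁|) + min 0 ((u : ℤ) * N₂ - |j₂|)) ?_ ?_
        · refine le_trans (le_of_eq ?_) g5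
          congr 2
          push_cast
          ring
        · refine Submodule.mul_induction_on hc' ?_ ?_
          · intro a ha b hb
            have e3 : monomial e (a * b) = monomial e₁ a * monomial e₂ b := by
              rw [monomial_mul, he]
            rw [e3]
            exact gspan_mul (ih N₁ (by omega) j₁ g1' e₁ k1 k3 a ha)
              (ih N₂ (by omega) j₂ g2' e₂ k2 k4 b hb)
          · intro x y hx hy
            rw [map_add]
            exact add_mem hx hy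
  intro N l g hg
  rw [filtU_F] at hg
  show g ∈ gspan n w f N l
  rw [g.as_sum]
  refine sum_mem fun e he => ?_
  rw [MvPolynomial.mem_support_iff] at he
  obtain ⟨j, h1, h2, h3, h4⟩ := hg e he
  by_cases hl : l ≤ min 0 ((u : ℤ) * N - |j|)
  · rw [UF_pos T hl] at h4
    exact gspan_anti hl (main N j h1 e h2 h3 _ h4)
  · rw [UF_neg T hl, Submodule.mem_bot] at h4
    exact (he h4).elim

/-- the test configurations. -/
noncomputable def testU {q : ℕ} {D₀ : T.X.Pt →₀ ℤ} (hD : 100 * (T.t : ℤ) * q < T.X.deg D₀)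
    {u : ℕ} (hu : u ≤ 4 * q) : TestConf T q D₀ 1 where
  toFilt := filtU T q u D₀
  fg := filtU_fg T hD hu

/-- Instability of the polarizations of slope slightly less than the critical one. -/
theorem unstable {q : ℕ} (hq : 0 < q) (D₀ : T.X.Pt →₀ ℤ)
    (hD : T.X.deg D₀ = T.t * (105 * q - 1)) :
    ∃ χ : TestConf T q D₀ 1, χ.Equivariant ∧ ∃ Fut : ℝ, χ.HasFutaki Fut ∧ Fut < 0 := by
  obtain ⟨u, h1, h2, _, h4⟩ := exists_u q
  have ht := T.t_pos
  have hD' : 100 * (T.t : ℤ) * q < T.X.deg D₀ := by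
    rw [hD]
    have h5 : (1 : ℤ) ≤ q := by exact_mod_cast hq
    have h6 : (1 : ℤ) ≤ T.t := by exact_mod_cast ht
    nlinarith
  have e : ((T.X.deg D₀ : ℤ) : ℝ) = T.t * (105 * q - 1) := by
    rw [hD]
    push_cast
    ring
  refine ⟨testU T hD' h4, filtU_equivariant T q u D₀, _, ⟨_, _, _, _, _,
    expansion_filtU T hD' h4, rfl⟩, ?_⟩
  rw [e]
  exact fut_neg hq ht h1 h2

end Pool.Agent.YTD
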