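import Pool.Agent.YTD.HypTau
import Pool.Agent.YTD.Twist
import Pool.Agent.YTD.UnstFg

/-!
Existence of the data `(C, S, S', τ)`, invariant divisors, and `Γ`-invariance of the
destabilizing filtration.
-/

namespace Pool.Agent.YTD

open Finset Module MvPolynomial

theorem exists_datum_Inv (t : ℕ) (ht : 0 < t) (hev : Even t) :
    ∃ (K : Type) (_ : Field K) (_ : Algebra ℂ K) (T : Datum K) (_ : Inv T), T.t = t := by
  obtain ⟨K, i1, i2, T, θ, σ, h1, h2, h3, h4, h5, h6⟩ := Hyp.exists_datum_inv t ht hev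
  exact ⟨K, i1, i2, T, ⟨θ, σ, h2, h3, h4, h5, h6⟩, h1⟩

variable {K : Type} [Field K] [Algebra ℂ K] {T : Datum K}

/-- Invariant divisors of every even degree. -/
theorem Inv.exists_divisor (ι : Inv T) (P : T.X.Pt) (m : ℤ) :
    ∃ D₀ : T.X.Pt →₀ ℤ, T.X.deg D₀ = 2 * m ∧ ι.Fixes D₀ := by
  classical
  refine ⟨Finsupp.single P m + Finsupp.single (ι.σ P) m, ?_, ?_⟩
  · rw [T.X.deg_add, T.X.deg_single, T.X.deg_single]
    ring
  · intro Q
    rw [Finsupp.add_apply, Finsupp.add_apply]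
    simp only [Finsupp.single_apply]
    have h1 : (P = ι.σ Q) = (ι.σ P = Q) := propext
      ⟨fun h => by rw [h, ι.σσ], fun h => by rw [← h, ι.σσ]⟩
    have h2 : (ι.σ P = ι.σ Q) = (P = Q) := propext
      ⟨fun h => by rw [← ι.σσ P, h, ι.σσ], fun h => by rw [h]⟩
    simp only [h1, h2]
    ring

theorem Datum.exists_point (T : Datum K) : Nonempty T.X.Pt := by
  have h : T.S.Nonempty := by
    rw [← Finset.card_pos, T.card_S]
    have := T.t_pos
    omega
  obtain ⟨P, _⟩ := h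
  exact ⟨P⟩

/-- The destabilizing filtration is `Γ`-invariant. -/
theorem filtU_gammaInv (ι : Inv T) {q : ℕ} {D₀ : T.X.Pt →₀ ℤ} (hD : ι.Fixes D₀) (u : ℕ) :
    (filtU T q u D₀).GammaInv ι where
  s1 N l f hf := filtU_equivariant T q u D₀ s1 s1 isUnit_s1 isUnit_s1 N l f hf
  s2 N l f hf := filtU_equivariant T q u D₀ s2 s2 isUnit_s2 isUnit_s2 N l f hf
  tau := by
    intro N l f hf e he
    rw [ι.coeff_tauE] at he ⊢
    have h0 : f.coeff (Inv.swe e) ≠ 0 := by
      intro h0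
      apply he
      rw [h0, map_zero]
    obtain ⟨j, h1, h2, h3, h4⟩ := hf _ h0
    rw [Inv.swe_apply, Inv.swe_apply, Inv.swp_0, Inv.swp_1] at h2
    rw [Inv.swe_apply, Inv.swe_apply, Inv.swp_2, Inv.swp_3] at h3
    refine ⟨-j, by rw [abs_neg]; exact h1, by rw [h3]; ring, by rw [h2]; ring, ?_⟩
    unfold UF at h4 ⊢
    rw [abs_neg]
    split_ifs at h4 ⊢ with h5
    · exact ι.θ_mem_V hD h4
    · rw [Submodule.mem_bot] at h4 ⊢
      rw [h4, map_zero]

/-- `Γ`-invariant instability of the polarizations of slope slightly less than the critical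
one. -/
theorem unstable_gamma (ι : Inv T) {q : ℕ} (hq : 0 < q) (D₀ : T.X.Pt →₀ ℤ) (hι : ι.Fixes D₀)
    (hD : T.X.deg D₀ = T.t * (105 * q - 1)) :
    ∃ χ : TestConf T q D₀ 1, χ.Equivariant ∧ χ.GammaInv ι ∧
      ∃ Fut : ℝ, χ.HasFutaki Fut ∧ Fut < 0 := by
  obtain ⟨u, h1, h2, _, h4⟩ := exists_u q
  have ht := T.t_pos
  have hD' : 100 * (T.t : ℤ) * q < T.X.deg D₀ := by
    rw [hD]
    have h5 : (1 : ℤ) ≤ q := by exact_mod_cast hq
    have h6 : (1 : ℤ) ≤ T.t := by exact_mod_cast ht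
    nlinarith
  have e : ((T.X.deg D₀ : ℤ) : ℝ) = T.t * (105 * q - 1) := by
    rw [hD]
    push_cast
    ring
  refine ⟨testU T hD' h4, filtU_equivariant T q u D₀, filtU_gammaInv ι hι u, _,
    ⟨_, _, _, _, _, expansion_filtU T hD' h4, rfl⟩, ?_⟩
  rw [e]
  exact fut_neg hq ht h1 h2

end Pool.Agent.YTD
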