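import Pool.Agent.YTD.HypFinal

/-!
A hyperelliptic curve with a fixed point free involution: `y² = x^(2g+1) + x`, `g` odd, with the
involution `(x, y) ↦ (1/x, -y/x^(g+1))`.
-/

namespace Pool.Agent.YTD.Hyp

open Polynomial Module

noncomputable section

variable {F : Type} [Field F] [Algebra ℂ F] {Λ : LF F} {f : ℂ[X]}

theorem good_of_separable (h : f.Separable) (ho : Odd f.natDegree) : Good f where
  ne := h.ne_zero
  odd := ho
  simple := by
    intro a ha
    obtain ⟨q, hq⟩ := dvd_iff_isRoot.2 ha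
    refine ⟨q, hq, ?_⟩
    intro h0
    obtain ⟨r, hr⟩ := dvd_iff_isRoot.2 h0
    have h1 : (X - C a) * (X - C a) ∣ f := ⟨r, by rw [mul_assoc, ← hr, ← hq]⟩
    have h2 := h.squarefree _ h1
    exact not_isUnit_X_sub_C a h2
  sqf := h.squarefree

/-- the polynomial `x^(2g+1) + x` -/
def fh (g : ℕ) : ℂ[X] := X ^ (2 * g + 1) + X

theorem natDegree_fh {g : ℕ} (hg : 0 < g) : (fh g).natDegree = 2 * g + 1 := by
  unfold fh
  rw [natDegree_add_eq_left_of_natDegree_lt, natDegree_X_pow]
  rw [natDegree_X_pow, natDegree_X]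
  omega

theorem separable_fh {g : ℕ} (hg : 0 < g) : (fh g).Separable := by
  obtain ⟨n, rfl⟩ : ∃ n, g = n + 1 := ⟨g - 1, by omega⟩
  have hne : (2 * ((n : ℂ) + 1)) ≠ 0 := by
    have : ((n : ℂ) + 1) ≠ 0 := by exact_mod_cast Nat.succ_ne_zero n
    exact mul_ne_zero two_ne_zero this
  have hC : C ((2 * ((n : ℂ) + 1))⁻¹) * (2 * ((n : ℂ[X]) + 1)) = 1 := by
    have e : (2 * ((n : ℂ[X]) + 1)) = C (2 * ((n : ℂ) + 1)) := by
      rw [C_mul, C_add, C_1, map_natCast C, map_ofNat C]
    rw [e, ← C_mul, inv_mul_cancel₀ hne, C_1]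
  have hd : derivative (fh (n + 1)) = (2 * (n : ℂ[X]) + 3) * X ^ (2 * n + 2) + 1 := by
    unfold fh
    rw [derivative_add, derivative_X, derivative_X_pow]
    have e : 2 * (n + 1) + 1 - 1 = 2 * n + 2 := by omega
    rw [e]
    congr 2
    rw [Nat.cast_add, Nat.cast_mul, Nat.cast_add, Nat.cast_one, Nat.cast_ofNat, C_add, C_mul,
      C_add, C_1, map_natCast C, map_ofNat C]
    ring
  rw [separable_def, hd]
  refine ⟨-(C ((2 * ((n : ℂ) + 1))⁻¹) * (2 * (n : ℂ[X]) + 3) ^ 2 * X ^ (2 * n + 1)),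
    1 + C ((2 * ((n : ℂ) + 1))⁻¹) * (2 * (n : ℂ[X]) + 3) * X ^ (2 * n + 2), ?_⟩
  unfold fh
  have e : (X : ℂ[X]) ^ (2 * (n + 1) + 1) = X ^ (2 * n + 1) * X ^ 2 := by
    rw [← pow_add]
    congr 1
  have e2 : (X : ℂ[X]) ^ (2 * n + 2) = X ^ (2 * n + 1) * X := by
    rw [← pow_succ]
  rw [e, e2]
  linear_combination (-(2 * (n : ℂ[X]) + 3) * X ^ (2 * n + 1) * X) * hC

theorem good_fh {g : ℕ} (hg : 0 < g) : Good (fh g) :=
  good_of_separable (separable_fh hg) (by rw [natDegree_fh hg]; exact ⟨g, rfl⟩)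

section ext

theorem emb_eq_aeval (p : ℂ[X]) : (emb p : KK f) = aeval (emb X : KK f) p := by
  induction p using Polynomial.induction_on' with
  | add p q hp hq => rw [emb_add, hp, hq, map_add]
  | monomial n a =>
    rw [← C_mul_X_pow_eq_monomial, emb_mul, emb_C, map_mul, aeval_C, map_pow, aeval_X]
    congr 1
    unfold emb
    rw [map_pow, map_pow]

theorem algHom_emb {E : Type} [Field E] [Algebra ℂ E] (φ : KK f →ₐ[ℂ] E) (p : ℂ[X]) :
    φ (emb p) = aeval (φ (emb X)) p := by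
  rw [emb_eq_aeval, ← aeval_algHom_apply]

variable [NonSq f]

theorem algHom_ne {E : Type} [Field E] [Algebra ℂ E] (φ : KK f →ₐ[ℂ] E) {z : KK f} (hz : z ≠ 0) :
    φ z ≠ 0 := by
  intro h
  have h1 : φ z * φ z⁻¹ = 1 := by
    rw [← map_mul, mul_inv_cancel₀ hz, map_one]
  rw [h, zero_mul] at h1
  exact zero_ne_one h1

theorem algHom_ext' {E : Type} [Field E] [Algebra ℂ E] {φ ψ : KK f →ₐ[ℂ] E}
    (hx : φ (emb X) = ψ (emb X)) (hy : φ yy = ψ yy) : φ = ψ := by
  apply AlgHom.ext
  intro z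
  obtain ⟨u, v, q, hq, h⟩ := exists_aff z
  have hp : ∀ p : ℂ[X], φ (emb p) = ψ (emb p) := by
    intro p
    exact (algHom_emb φ p).trans (by rw [hx]; exact (algHom_emb ψ p).symm)
  have h1 := congrArg φ h
  have h2 := congrArg ψ h
  rw [map_mul, aff, map_add, map_mul, hp, hp, hp, hy] at h1
  rw [map_mul, aff, map_add, map_mul, ← h1] at h2
  exact (mul_right_cancel₀ (algHom_ne ψ (emb_ne hq)) h2).symm

end ext

section val

variable [NonSq f]

/-- valuations -/
structure IsVal (w : KK f → ℤ) : Prop where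
  mul : ∀ {z z' : KK f}, z ≠ 0 → z' ≠ 0 → w (z * z') = w z + w z'
  add : ∀ {z z' : KK f}, z + z' ≠ 0 → min (w z) (w z') ≤ w (z + z')
  const : ∀ c : ℂ, w (algebraMap ℂ (KK f) c) = 0

theorem isVal_ordAt (hf : f ≠ 0) (P : Pts f) : IsVal (ordAt Λ hf P) where
  mul hz hz' := ordAt_mul hf P hz hz'
  add h := ordAt_add hf P h
  const c := ordAt_const hf P c

theorem IsVal.comp {w : KK f → ℤ} (hw : IsVal w) (φ : KK f →ₐ[ℂ] KK f) :
    IsVal (fun z => w (φ z)) where
  mul hz hz' := by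
    rw [map_mul, hw.mul (algHom_ne φ hz) (algHom_ne φ hz')]
  add h := by
    rw [map_add]
    apply hw.add
    rw [← map_add]
    exact algHom_ne φ h
  const c := by
    rw [AlgHom.commutes, hw.const]

namespace IsVal

variable {w w' : KK f → ℤ}

theorem neg (hw : IsVal w) (z : KK f) : w (-z) = w z := by
  by_cases hz : z = 0
  · rw [hz, neg_zero]
  have h1 : -z = algebraMap ℂ (KK f) (-1) * z := by
    rw [map_neg, map_one]
    ring
  have h2 : algebraMap ℂ (KK f) (-1) ≠ 0 := by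
    rw [map_neg, map_one]
    exact neg_ne_zero.2 one_ne_zero
  rw [h1, hw.mul h2 hz, hw.const, zero_add]

theorem inv (hw : IsVal w) {z : KK f} (hz : z ≠ 0) : w z⁻¹ = - w z := by
  have h1 := hw.mul hz (inv_ne_zero hz)
  have h2 := hw.const 1
  rw [map_one] at h2
  rw [mul_inv_cancel₀ hz, h2] at h1
  linarith

theorem pos_add (hw : IsVal w) {z z' : KK f} (h : z = 0 ∨ 0 < w z) (h' : z' = 0 ∨ 0 < w z') :
    z + z' = 0 ∨ 0 < w (z + z') := by
  by_cases h0 : z + z' = 0
  · exact Or.inl h0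
  right
  rcases h with rfl | h
  · rw [zero_add] at h0 ⊢
    rcases h' with h' | h'
    · exact absurd h' h0
    · exact h'
  rcases h' with rfl | h'
  · rw [add_zero]
    exact h
  exact lt_of_lt_of_le (lt_min h h') (hw.add h0)

theorem pos_mul (hw : IsVal w) {z z' : KK f} (h : z = 0 ∨ 0 < w z) (h' : 0 ≤ w z') :
    z * z' = 0 ∨ 0 < w (z * z') := by
  by_cases h0 : z * z' = 0
  · exact Or.inl h0
  right
  have hz := left_ne_zero_of_mul h0
  have hz' := right_ne_zero_of_mul h0
  rw [hw.mul hz hz']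
  rcases h with h | h
  · exact absurd h hz
  · linarith

theorem const_add (hw : IsVal w) {c : ℂ} (hc : c ≠ 0) {z : KK f} (h : z = 0 ∨ 0 < w z) :
    w (algebraMap ℂ (KK f) c + z) = 0 := by
  rcases h with rfl | h
  · rw [add_zero, hw.const]
  have hc0 : algebraMap ℂ (KK f) c ≠ 0 := (_root_.map_ne_zero _).2 hc
  have h0 : algebraMap ℂ (KK f) c + z ≠ 0 := by
    intro h0
    have h1 : w (algebraMap ℂ (KK f) c) = w z := by
      rw [eq_neg_of_add_eq_zero_left h0, hw.neg]
    rw [hw.const] at h1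
    linarith
  have h1 := hw.add h0
  rw [hw.const, min_eq_left (le_of_lt h)] at h1
  have h2 := hw.add (z := algebraMap ℂ (KK f) c + z) (z' := -z)
    (by rw [add_neg_cancel_right]; exact hc0)
  rw [add_neg_cancel_right, hw.neg, hw.const] at h2
  rcases min_choice (w (algebraMap ℂ (KK f) c + z)) (w z) with h3 | h3 <;> rw [h3] at h2 <;> linarith

theorem eq_emb (hw : IsVal w) (hw' : IsVal w')
    (h : ∀ c : ℂ, w (emb (X - C c)) = w' (emb (X - C c))) :
    ∀ p : ℂ[X], p ≠ 0 → w (emb p) = w' (emb p) := by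
  apply poly_ind
  · intro c _
    rw [emb_C, hw.const, hw'.const]
  · exact h
  · intro p q hp hq h1 h2
    rw [emb_mul, hw.mul (emb_ne hp) (emb_ne hq), hw'.mul (emb_ne hp) (emb_ne hq), h1, h2]

theorem eq_of_aff (hw : IsVal w) (hw' : IsVal w')
    (hp : ∀ p : ℂ[X], p ≠ 0 → w (emb p) = w' (emb p))
    (ha : ∀ u v : ℂ[X], (aff u v : KK f) ≠ 0 → w (aff u v) = w' (aff u v)) :
    ∀ z : KK f, z ≠ 0 → w z = w' z := by
  intro z hz
  obtain ⟨u, v, q, hq, h⟩ := exists_aff z
  have h1 : (aff u v : KK f) ≠ 0 := by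
    rw [← h]
    exact mul_ne_zero hz (emb_ne hq)
  have h2 := ha u v h1
  rw [← h, hw.mul hz (emb_ne hq), hw'.mul hz (emb_ne hq), hp q hq] at h2
  linarith

theorem norm_ne {u v : ℂ[X]} (h : (aff u v : KK f) ≠ 0) : u * u - f * v * v ≠ 0 := by
  intro h0
  have h2 := aff_mul_star (f := f) u v
  rw [h0, emb_zero] at h2
  exact mul_ne_zero h (star_ne h) h2

theorem add_star (hw : IsVal w) (hw' : IsVal w')
    (hp : ∀ p : ℂ[X], p ≠ 0 → w (emb p) = w' (emb p)) {u v : ℂ[X]} (h : (aff u v : KK f) ≠ 0) :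
    w (aff u v) + w (star (aff u v)) = w' (aff u v) + w' (star (aff u v)) := by
  rw [← hw.mul h (star_ne h), ← hw'.mul h (star_ne h), aff_mul_star]
  exact hp _ (norm_ne h)

/-- Uniqueness of extensions at ramified points. -/
theorem uniq_ram (hw : IsVal w) (hw' : IsVal w')
    (h : ∀ c : ℂ, w (emb (X - C c)) = w' (emb (X - C c)))
    (hs : ∀ z, w (star z) = w z) (hs' : ∀ z, w' (star z) = w' z) :
    ∀ z : KK f, z ≠ 0 → w z = w' z := by
  have hp := hw.eq_emb hw' h
  apply hw.eq_of_aff hw' hp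
  intro u v h0
  have h1 := hw.add_star hw' hp h0
  rw [hs, hs'] at h1
  linarith

/-- value of an affine function not vanishing at `(a, b)` -/
theorem aff_zero (hw : IsVal w) {a b : ℂ} (hwp : ∀ p : ℂ[X], p ≠ 0 → p.eval a = 0 → 0 < w (emb p))
    (hwy : 0 ≤ w yy) (hwb : 0 < w (yy - algebraMap ℂ (KK f) b)) {u v : ℂ[X]}
    (h : u.eval a + v.eval a * b ≠ 0) : w (aff u v) = 0 := by
  have hq : ∀ p : ℂ[X], (emb (p - C (p.eval a)) : KK f) = 0 ∨
      0 < w (emb (p - C (p.eval a))) := by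
    intro p
    by_cases h0 : p - C (p.eval a) = 0
    · left
      rw [h0, emb_zero]
    · right
      apply hwp _ h0
      simp
  have e : (aff u v : KK f) = algebraMap ℂ (KK f) (u.eval a + v.eval a * b) +
      (emb (u - C (u.eval a)) + (emb (v - C (v.eval a)) * yy +
        (yy - algebraMap ℂ (KK f) b) * algebraMap ℂ (KK f) (v.eval a))) := by
    have e1 : ∀ p : ℂ[X], (emb (p - C (p.eval a)) : KK f) =
        emb p - algebraMap ℂ (KK f) (p.eval a) := by
      intro p
      rw [← emb_C]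
      unfold emb
      rw [map_sub, map_sub]
    rw [aff, e1, e1, map_add, map_mul]
    ring
  rw [e]
  apply hw.const_add h
  apply hw.pos_add (hq u)
  apply hw.pos_add (hw.pos_mul (hq v) hwy)
  exact hw.pos_mul (Or.inr hwb) (le_of_eq (hw.const _).symm)

/-- Uniqueness of extensions at unramified points. -/
theorem uniq_unram (hw : IsVal w) (hw' : IsVal w') {a b : ℂ} (hb : b ≠ 0)
    (h : ∀ c : ℂ, w (emb (X - C c)) = w' (emb (X - C c)))
    (hwp : ∀ p : ℂ[X], p ≠ 0 → p.eval a = 0 → 0 < w' (emb p))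
    (hwy : 0 ≤ w yy) (hwy' : 0 ≤ w' yy) (hwb : 0 < w (yy - algebraMap ℂ (KK f) b))
    (hwb' : 0 < w' (yy - algebraMap ℂ (KK f) b)) :
    ∀ z : KK f, z ≠ 0 → w z = w' z := by
  have hp := hw.eq_emb hw' h
  have hwp2 : ∀ p : ℂ[X], p ≠ 0 → p.eval a = 0 → 0 < w (emb p) := by
    intro p h1 h2
    rw [hp p h1]
    exact hwp p h1 h2
  apply hw.eq_of_aff hw' hp
  intro u v
  induction hn : u.natDegree + v.natDegree using Nat.strong_induction_on generalizing u v with
  | _ n ih =>
    intro h0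
    by_cases h1 : u.eval a + v.eval a * b = 0
    · by_cases h2 : u.eval a + (-v).eval a * b = 0
      · -- both vanish
        rw [eval_neg] at h2
        have hu : u.eval a = 0 := by
          have : 2 * u.eval a = 0 := by linear_combination h1 + h2
          exact (mul_eq_zero.1 this).resolve_left two_ne_zero
        have hv : v.eval a = 0 := by
          have : 2 * b * v.eval a = 0 := by linear_combination h1 - h2
          exact (mul_eq_zero.1 this).resolve_left (mul_ne_zero two_ne_zero hb)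
        obtain ⟨u', rfl⟩ := dvd_iff_isRoot.2 hu
        obtain ⟨v', rfl⟩ := dvd_iff_isRoot.2 hv
        have e : (aff ((X - C a) * u') ((X - C a) * v') : KK f) = emb (X - C a) * aff u' v' := by
          rw [aff, aff, emb_mul, emb_mul]
          ring
        rw [e] at h0 ⊢
        have h3 := right_ne_zero_of_mul h0
        have h4 : u'.natDegree + v'.natDegree < n := by
          rw [← hn]
          by_cases hu' : u' = 0
          · have hv' : v' ≠ 0 := by
              rintro rfl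
              apply h3
              rw [hu', aff, emb_zero]
              ring
            rw [hu', mul_zero, natDegree_mul (X_sub_C_ne_zero a) hv', natDegree_X_sub_C]
            omega
          · rw [natDegree_mul (X_sub_C_ne_zero a) hu', natDegree_X_sub_C]
            by_cases hv' : v' = 0
            · rw [hv', mul_zero]
              omega
            · rw [natDegree_mul (X_sub_C_ne_zero a) hv', natDegree_X_sub_C]
              omega
        rw [hw.mul (emb_ne (X_sub_C_ne_zero a)) h3, hw'.mul (emb_ne (X_sub_C_ne_zero a)) h3,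
          h a, ih _ h4 u' v' rfl h3]
      · have h3 := hw.add_star hw' hp h0
        rw [star_aff, hw.aff_zero hwp2 hwy hwb h2, hw'.aff_zero hwp hwy' hwb' h2] at h3
        linarith
    · rw [hw.aff_zero hwp2 hwy hwb h1, hw'.aff_zero hwp hwy' hwb' h1]

end IsVal

/-- `y - b` vanishes at `(a, b)`. -/
theorem ordAt_yy_sub (hf : f ≠ 0) (P : APt f) (hb : P.1.2 ≠ 0) :
    0 < ordAt Λ hf (some P) (yy - algebraMap ℂ (KK f) P.1.2) := by
  unfold ordAt
  rw [map_sub, phi_yy, AlgHom.commutes]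
  set Q := parAt Λ hf (some P) with hQ
  have h1 := two_ord_eta (Λ := Λ) hf (some P)
  have h2 : f.eval P.1.1 ≠ 0 := by
    rw [← P.2]
    exact pow_ne_zero 2 hb
  rw [ordAt_emb_zero hf P h2] at h1
  have h3 : Λ.ord Q.η = 0 := by
    rw [hQ]
    linarith
  have hlc : Λ.lc Q.η = P.1.2 := parAt_some_lc Λ hf P hb
  have hη : Q.η ≠ 0 := Q.η_ne hf
  have hone : (1 : F) ≠ 0 := one_ne_zero
  obtain ⟨c, hc⟩ := Λ.res hη hone (by rw [h3, LF.ord_one])
  have hs : c • (1 : F) = algebraMap ℂ F c := by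
    rw [Algebra.smul_def, mul_one]
  rw [hs, h3] at hc
  have hne : (yy - algebraMap ℂ (KK f) P.1.2 : KK f) ≠ 0 := by
    intro h
    have h5 := congrArg QuadraticAlgebra.im h
    have h6 : (1 : RatFunc ℂ) - 0 = 0 := h5
    rw [sub_zero] at h6
    exact one_ne_zero h6
  rcases hc with hc | hc
  · -- `η` constant: impossible
    exfalso
    have h4 : Q.η = algebraMap ℂ F c := sub_eq_zero.1 hc
    have h5 : Λ.lc Q.η = c := by rw [h4, Λ.lc_const]
    rw [hlc] at h5
    apply phi_ne Q hne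
    rw [map_sub, phi_yy, AlgHom.commutes, h5]
    exact hc
  · have hc0 : c ≠ 0 := by
      rintro rfl
      rw [map_zero, sub_zero, h3] at hc
      exact lt_irrefl _ hc
    have hcc : algebraMap ℂ F c ≠ 0 := (_root_.map_ne_zero _).2 hc0
    have h4 : Q.η - algebraMap ℂ F c ≠ 0 := by
      intro h4
      have h5 : Q.η = algebraMap ℂ F c := sub_eq_zero.1 h4
      have h6 : Λ.lc Q.η = c := by rw [h5, Λ.lc_const]
      rw [hlc] at h6
      apply phi_ne Q hne
      rw [map_sub, phi_yy, AlgHom.commutes, h6]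
      exact h4
    have h5 := Λ.lc_add hcc h4 (by rw [Λ.ord_const]; exact hc)
    rw [add_sub_cancel, hlc, Λ.lc_const] at h5
    rw [h5]
    exact hc

end val

end

end Pool.Agent.YTD.Hyp
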