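import Mathlib

/-!
An abstract field of formal Laurent series over `ℂ`.
-/

namespace Pool.Agent.YTD.Hyp

section gen

variable {Γ : Type} [AddCommGroup Γ] [LinearOrder Γ] [IsOrderedAddMonoid Γ]

theorem hs_sqrt_one {z : HahnSeries Γ ℂ} (hz : 0 < (z - 1).orderTop) :
    ∃ w : HahnSeries Γ ℂ, w ^ 2 = z := by
  refine ⟨PowerSeries.heval (z - 1) (PowerSeries.binomialSeries ℂ (1 / 2 : ℂ)), ?_⟩
  rw [← map_pow, sq, ← PowerSeries.binomialSeries_add]
  have h1 : (1 / 2 : ℂ) + 1 / 2 = ((1 : ℕ) : ℂ) := by norm_num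
  rw [h1, PowerSeries.binomialSeries_nat, pow_one, map_add, map_one, PowerSeries.heval_X _ hz]
  ring

theorem hs_lc_neg (z : HahnSeries Γ ℂ) : (-z).leadingCoeff = - z.leadingCoeff := by
  exact HahnSeries.leadingCoeff_neg

theorem hs_sqrt {z : HahnSeries Γ ℂ} (hz : z ≠ 0) (he : Even z.order) (b : ℂ)
    (hb : b ^ 2 = z.leadingCoeff) :
    ∃ η : HahnSeries Γ ℂ, η ^ 2 = z ∧ η.leadingCoeff = b := by
  obtain ⟨m, hm⟩ := he
  have hc := HahnSeries.leadingCoeff_ne_zero.2 hz
  have hb0 : b ≠ 0 := by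
    rintro rfl
    apply hc
    rw [← hb]
    simp
  set u : HahnSeries Γ ℂ := HahnSeries.single m b with hu
  have hu0 : u ≠ 0 := HahnSeries.single_ne_zero hb0
  have hul : u.leadingCoeff = b := HahnSeries.leadingCoeff_of_single
  have huo : u.order = m := HahnSeries.order_single hb0
  have h1 : 0 < (z * (u ^ 2)⁻¹ - 1).orderTop := by
    rw [HahnSeries.orderTop_self_sub_one_pos_iff]
    have h2 : (z * (u ^ 2)⁻¹) * u ^ 2 = z := by
      field_simp
    have h3 : z * (u ^ 2)⁻¹ ≠ 0 := mul_ne_zero hz (inv_ne_zero (pow_ne_zero 2 hu0))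
    constructor
    · have h4 := HahnSeries.order_mul h3 (pow_ne_zero 2 hu0)
      rw [h2, HahnSeries.order_pow, huo, hm] at h4
      rw [← HahnSeries.order_eq_orderTop_of_ne_zero h3]
      have h5 : (z * (u ^ 2)⁻¹).order = 0 := by
        rw [two_nsmul] at h4
        exact (add_right_cancel (b := m + m) (by rw [zero_add]; exact h4)).symm
      rw [h5]
      rfl
    · have h4 := HahnSeries.leadingCoeff_mul (z * (u ^ 2)⁻¹) (u ^ 2)
      have h6 : (u ^ 2).leadingCoeff = b ^ 2 := by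
        rw [sq u, HahnSeries.leadingCoeff_mul, hul, ← sq]
      rw [h2, h6, ← hb] at h4
      have h5 : b ^ 2 ≠ 0 := pow_ne_zero 2 hb0
      exact (mul_right_cancel₀ h5 (by rw [one_mul]; exact h4)).symm
  obtain ⟨w, hw⟩ := hs_sqrt_one h1
  have h2 : (w * u) ^ 2 = z := by
    rw [mul_pow, hw]
    field_simp
  have h3 : (w * u).leadingCoeff ^ 2 = b ^ 2 := by
    rw [hb, sq, ← HahnSeries.leadingCoeff_mul, ← sq, h2]
  rcases sq_eq_sq_iff_eq_or_eq_neg.1 h3 with h4 | h4
  · exact ⟨w * u, h2, h4⟩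
  · refine ⟨-(w * u), (neg_sq (w * u)).trans h2, ?_⟩
    rw [hs_lc_neg, h4, neg_neg]

theorem hs_res {x y : HahnSeries Γ ℂ} (hx : x ≠ 0) (hy : y ≠ 0) (h : x.order = y.order) :
    ∃ c : ℂ, x - HahnSeries.C c * y = 0 ∨ x.order < (x - HahnSeries.C c * y).order := by
  have hy' := HahnSeries.leadingCoeff_ne_zero.2 hy
  have hx' := HahnSeries.leadingCoeff_ne_zero.2 hx
  refine ⟨x.leadingCoeff / y.leadingCoeff, ?_⟩
  by_cases h0 : x - HahnSeries.C (x.leadingCoeff / y.leadingCoeff) * y = 0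
  · exact Or.inl h0
  right
  have hc0 : HahnSeries.C (Γ := Γ) (x.leadingCoeff / y.leadingCoeff) ≠ 0 :=
    (map_ne_zero _).2 (div_ne_zero hx' hy')
  have hcy : HahnSeries.C (Γ := Γ) (x.leadingCoeff / y.leadingCoeff) * y ≠ 0 :=
    mul_ne_zero hc0 hy
  have ho : (HahnSeries.C (Γ := Γ) (x.leadingCoeff / y.leadingCoeff) * y).order = x.order := by
    rw [HahnSeries.order_mul hc0 hy, HahnSeries.order_C, zero_add, h]
  have hle : x.order ≤ (x - HahnSeries.C (x.leadingCoeff / y.leadingCoeff) * y).order := by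
    have h1 := HahnSeries.min_order_le_order_add (x := x)
      (y := -(HahnSeries.C (Γ := Γ) (x.leadingCoeff / y.leadingCoeff) * y))
      (by rw [← sub_eq_add_neg]; exact h0)
    rw [HahnSeries.order_neg, ho, min_self, ← sub_eq_add_neg] at h1
    exact h1
  refine lt_of_le_of_ne hle ?_
  intro he
  have h1 : (x - HahnSeries.C (x.leadingCoeff / y.leadingCoeff) * y).coeff x.order ≠ 0 := by
    rw [he]
    exact fun h2 => h0 (HahnSeries.coeff_order_eq_zero.1 h2)
  apply h1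
  rw [HahnSeries.coeff_sub, HahnSeries.C_mul_eq_smul, HahnSeries.coeff_smul, smul_eq_mul]
  have h2 : x.coeff x.order = x.leadingCoeff := HahnSeries.leadingCoeff_eq.symm
  have h3 : y.coeff x.order = y.leadingCoeff := by
    rw [h]
    exact HahnSeries.leadingCoeff_eq.symm
  rw [h2, h3, div_mul_cancel₀ _ hy', sub_self]

theorem hs_lc_add {x y : HahnSeries Γ ℂ} (hx : x ≠ 0) (hy : y ≠ 0) (h : x.order < y.order) :
    (x + y).leadingCoeff = x.leadingCoeff := by
  apply HahnSeries.leadingCoeff_add_eq_left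
  rw [← HahnSeries.order_eq_orderTop_of_ne_zero hx, ← HahnSeries.order_eq_orderTop_of_ne_zero hy]
  exact_mod_cast h

end gen

/-- A field with the properties of the field of Laurent series over `ℂ`. -/
structure LF (F : Type) [Field F] [Algebra ℂ F] where
  ord : F → ℤ
  lc : F → ℂ
  ord_mul : ∀ {x y : F}, x ≠ 0 → y ≠ 0 → ord (x * y) = ord x + ord y
  ord_add : ∀ {x y : F}, x + y ≠ 0 → min (ord x) (ord y) ≤ ord (x + y)
  ord_const : ∀ c : ℂ, ord (algebraMap ℂ F c) = 0
  lc_mul : ∀ x y : F, lc (x * y) = lc x * lc y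
  lc_const : ∀ c : ℂ, lc (algebraMap ℂ F c) = c
  lc_neg : ∀ x : F, lc (-x) = - lc x
  lc_add : ∀ {x y : F}, x ≠ 0 → y ≠ 0 → ord x < ord y → lc (x + y) = lc x
  res : ∀ {x y : F}, x ≠ 0 → y ≠ 0 → ord x = ord y →
    ∃ c : ℂ, x - c • y = 0 ∨ ord x < ord (x - c • y)
  sqrt : ∀ {z : F}, z ≠ 0 → Even (ord z) → ∀ b : ℂ, b ^ 2 = lc z → ∃ η : F, η ^ 2 = z ∧ lc η = b
  s : F
  s_ne : s ≠ 0
  ord_s : ord s = 1
  lc_s : lc s = 1

theorem exists_LF : ∃ (F : Type) (_ : Field F) (_ : Algebra ℂ F), Nonempty (LF F) := by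
  letI : Algebra ℂ (HahnSeries ℤ ℂ) := RingHom.toAlgebra HahnSeries.C
  refine ⟨HahnSeries ℤ ℂ, inferInstance, inferInstance, ⟨?_⟩⟩
  exact
  { ord := fun x => x.order
    lc := fun x => x.leadingCoeff
    ord_mul := fun hx hy => HahnSeries.order_mul hx hy
    ord_add := fun h => HahnSeries.min_order_le_order_add h
    ord_const := fun c => HahnSeries.order_C
    lc_mul := fun x y => HahnSeries.leadingCoeff_mul x y
    lc_const := fun c => HahnSeries.leadingCoeff_of_single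
    lc_neg := fun x => hs_lc_neg x
    lc_add := fun hx hy h => hs_lc_add hx hy h
    res := by
      intro x y hx hy h
      obtain ⟨c, hc⟩ := hs_res hx hy h
      refine ⟨c, ?_⟩
      rw [Algebra.smul_def]
      exact hc
    sqrt := fun hz he b hb => hs_sqrt hz he b hb
    s := HahnSeries.single 1 1
    s_ne := HahnSeries.single_ne_zero one_ne_zero
    ord_s := HahnSeries.order_single one_ne_zero
    lc_s := HahnSeries.leadingCoeff_of_single }

end Pool.Agent.YTD.Hyp
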