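import Pool.Agent.YTD.HypRR
import Pool.Agent.YTD.HypLoc

/-!
Local parametrisations of plane curves `y² = f(x)` by Laurent series.
-/

namespace Pool.Agent.YTD.Hyp

open Polynomial

noncomputable section

/-- induction principle for polynomials over `ℂ` -/
theorem poly_ind {M : ℂ[X] → Prop} (hC : ∀ c : ℂ, c ≠ 0 → M (C c)) (hX : ∀ a : ℂ, M (X - C a))
    (hmul : ∀ p q : ℂ[X], p ≠ 0 → q ≠ 0 → M p → M q → M (p * q)) : ∀ p : ℂ[X], p ≠ 0 → M p := by
  intro p
  induction h : p.natDegree using Nat.strong_induction_on generalizing p with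
  | _ n ih =>
    intro hp
    by_cases hn : p.natDegree = 0
    · rw [Polynomial.eq_C_of_natDegree_eq_zero hn]
      apply hC
      intro h0
      apply hp
      rw [Polynomial.eq_C_of_natDegree_eq_zero hn, h0, map_zero]
    · obtain ⟨a, ha⟩ := IsAlgClosed.exists_root p (by
        intro h0
        apply hn
        exact Polynomial.natDegree_eq_zero_iff_degree_le_zero.2 (le_of_eq h0))
      obtain ⟨q, hq⟩ := Polynomial.dvd_iff_isRoot.2 ha
      have hq0 : q ≠ 0 := by
        rintro rfl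
        rw [mul_zero] at hq
        exact hp hq
      have hd : q.natDegree < n := by
        rw [← h, hq, Polynomial.natDegree_mul (Polynomial.X_sub_C_ne_zero a) hq0,
          Polynomial.natDegree_X_sub_C]
        omega
      rw [hq]
      exact hmul _ _ (Polynomial.X_sub_C_ne_zero a) hq0 (hX a) (ih _ hd q rfl hq0)

variable {F : Type} [Field F] [Algebra ℂ F] (Λ : LF F)

namespace LF

variable {Λ}

theorem ord_one : Λ.ord 1 = 0 := by
  have := Λ.ord_const 1
  rwa [map_one] at this

theorem ord_neg (x : F) : Λ.ord (-x) = Λ.ord x := by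
  by_cases hx : x = 0
  · rw [hx, neg_zero]
  have h1 : -x = algebraMap ℂ F (-1) * x := by
    rw [map_neg, map_one]
    ring
  have h2 : algebraMap ℂ F (-1) ≠ 0 := by
    rw [map_neg, map_one]
    exact neg_ne_zero.2 one_ne_zero
  rw [h1, Λ.ord_mul h2 hx, Λ.ord_const, zero_add]

theorem ord_pow {x : F} (hx : x ≠ 0) (n : ℕ) : Λ.ord (x ^ n) = n * Λ.ord x := by
  induction n with
  | zero => simp [ord_one]
  | succ n ih =>
    rw [pow_succ, Λ.ord_mul (pow_ne_zero n hx) hx, ih]
    push_cast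
    ring

theorem ord_inv {x : F} (hx : x ≠ 0) : Λ.ord x⁻¹ = - Λ.ord x := by
  have h1 := Λ.ord_mul hx (inv_ne_zero hx)
  rw [mul_inv_cancel₀ hx, ord_one] at h1
  linarith

theorem ord_div {x y : F} (hx : x ≠ 0) (hy : y ≠ 0) : Λ.ord (x / y) = Λ.ord x - Λ.ord y := by
  rw [div_eq_mul_inv, Λ.ord_mul hx (inv_ne_zero hy), ord_inv hy]
  ring

theorem add_ne_zero_of_ord {x y : F} (h : Λ.ord x ≠ Λ.ord y) : x + y ≠ 0 := by
  intro h0
  apply h
  rw [eq_neg_of_add_eq_zero_left h0, ord_neg]

theorem ord_add_lt {x y : F} (hx : x ≠ 0) (h : Λ.ord x < Λ.ord y) :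
    Λ.ord (x + y) = Λ.ord x := by
  have h0 : x + y ≠ 0 := add_ne_zero_of_ord (ne_of_lt h)
  have h1 := Λ.ord_add h0
  rw [min_eq_left (le_of_lt h)] at h1
  have h2 := Λ.ord_add (x := x + y) (y := -y) (by rw [add_neg_cancel_right]; exact hx)
  rw [add_neg_cancel_right, ord_neg] at h2
  rcases min_choice (Λ.ord (x + y)) (Λ.ord y) with h3 | h3 <;> rw [h3] at h2 <;> linarith

theorem ord_add_ne {x y : F} (hx : x ≠ 0) (hy : y ≠ 0) (h : Λ.ord x ≠ Λ.ord y) :
    Λ.ord (x + y) = min (Λ.ord x) (Λ.ord y) := by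
  rcases lt_or_gt_of_ne h with h1 | h1
  · rw [ord_add_lt hx h1, min_eq_left (le_of_lt h1)]
  · rw [add_comm, ord_add_lt hy h1, min_eq_right (le_of_lt h1)]

end LF

/-- A local parametrisation of the curve `y² = f(x)`. -/
structure Par (F : Type) [Field F] [Algebra ℂ F] (f : ℂ[X]) where
  θ : F
  η : F
  hη : η ^ 2 = aeval θ f
  hθ : ∀ c : ℂ, θ - algebraMap ℂ F c ≠ 0

variable {f : ℂ[X]}

theorem aeval_X_sub_C (θ : F) (a : ℂ) : aeval θ (X - C a) = θ - algebraMap ℂ F a := by
  rw [map_sub, aeval_X, aeval_C]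

theorem Par.aeval_ne (P : Par F f) : ∀ p : ℂ[X], p ≠ 0 → aeval P.θ p ≠ 0 := by
  apply poly_ind
  · intro c hc
    rw [aeval_C]
    exact (_root_.map_ne_zero _).2 hc
  · intro a
    rw [aeval_X_sub_C]
    exact P.hθ a
  · intro p q _ _ h1 h2
    rw [map_mul]
    exact mul_ne_zero h1 h2

theorem Par.inj (P : Par F f) : Function.Injective (aeval (R := ℂ) P.θ) := by
  rw [injective_iff_map_eq_zero]
  intro p hp
  by_contra h
  exact P.aeval_ne p h hp

theorem Par.η_ne (P : Par F f) (hf : f ≠ 0) : P.η ≠ 0 := by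
  intro h
  apply P.aeval_ne f hf
  rw [← P.hη, h]
  ring

/-- restriction to `ℂ(x)` -/
def Par.psi (P : Par F f) : RatFunc ℂ →ₐ[ℂ] F :=
  RatFunc.liftAlgHom (aeval P.θ) (nonZeroDivisors_le_comap_nonZeroDivisors_of_injective _ P.inj)

theorem Par.psi_algebraMap (P : Par F f) (p : ℂ[X]) :
    P.psi (algebraMap ℂ[X] (RatFunc ℂ) p) = aeval P.θ p := by
  have := RatFunc.liftAlgHom_apply_div (aeval P.θ)
    (nonZeroDivisors_le_comap_nonZeroDivisors_of_injective _ P.inj) p 1
  simpa [Par.psi] using this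

/-- The function field of `y² = f(x)`. -/
abbrev KK (f : ℂ[X]) := QuadraticAlgebra (RatFunc ℂ) (algebraMap ℂ[X] (RatFunc ℂ) f) 0

/-- The embedding of the function field in the field of Laurent series. -/
def Par.phi (P : Par F f) : KK f →ₐ[ℂ] F where
  toFun z := P.psi z.re + P.psi z.im * P.η
  map_one' := by
    rw [QuadraticAlgebra.re_one, QuadraticAlgebra.im_one, map_one, map_zero]
    ring
  map_zero' := by
    rw [QuadraticAlgebra.re_zero, QuadraticAlgebra.im_zero, map_zero]
    ring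
  map_mul' z w := by
    rw [QuadraticAlgebra.re_mul, QuadraticAlgebra.im_mul, map_add, map_mul, map_mul, map_mul,
      map_add, map_add, map_mul, map_mul, map_mul, map_mul, map_zero, P.psi_algebraMap, ← P.hη]
    ring
  map_add' z w := by
    rw [QuadraticAlgebra.re_add, QuadraticAlgebra.im_add, map_add, map_add]
    ring
  commutes' c := by
    have h1 : (algebraMap ℂ (KK f) c).re = algebraMap ℂ (RatFunc ℂ) c := rfl
    have h2 : (algebraMap ℂ (KK f) c).im = 0 := rfl
    rw [h1, h2, map_zero, zero_mul, add_zero, AlgHom.commutes]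

theorem Par.phi_apply (P : Par F f) (z : KK f) : P.phi z = P.psi z.re + P.psi z.im * P.η := rfl

/-- the conjugate parametrisation -/
def Par.conj (P : Par F f) : Par F f where
  θ := P.θ
  η := -P.η
  hη := by rw [neg_sq, P.hη]
  hθ := P.hθ

theorem Par.phi_conj (P : Par F f) (z : KK f) : P.conj.phi z = P.phi (star z) := by
  rw [phi_apply, phi_apply, QuadraticAlgebra.re_star, QuadraticAlgebra.im_star, zero_mul, add_zero,
    map_neg]
  show P.psi z.re + P.psi z.im * (-P.η) = _
  ring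

end

end Pool.Agent.YTD.Hyp
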