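import Pool.Agent.YTD.HypPar

/-!
The points of the projective curve `y² = f(x)` and their local parametrisations.
-/

namespace Pool.Agent.YTD.Hyp

open Polynomial

noncomputable section

variable {F : Type} [Field F] [Algebra ℂ F] (Λ : LF F)

/-- the value of `x` at an affine point -/
def thA (e : ℕ) (a : ℂ) : F := algebraMap ℂ F a + Λ.s ^ e

/-- the value of `x` at infinity -/
def thI : F := (Λ.s ^ 2)⁻¹

variable {Λ}

theorem ord_s_pow (e : ℕ) : Λ.ord (Λ.s ^ e) = e := by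
  rw [LF.ord_pow Λ.s_ne, Λ.ord_s, mul_one]

theorem lc_s_pow (e : ℕ) : Λ.lc (Λ.s ^ e) = 1 := by
  induction e with
  | zero =>
    have := Λ.lc_const 1
    rw [map_one] at this
    rw [pow_zero, this]
  | succ n ih => rw [pow_succ, Λ.lc_mul, ih, Λ.lc_s, mul_one]

theorem thA_sub (e : ℕ) (a c : ℂ) :
    thA Λ e a - algebraMap ℂ F c = algebraMap ℂ F (a - c) + Λ.s ^ e := by
  unfold thA
  rw [map_sub]
  ring

theorem thA_sub_self (e : ℕ) (a : ℂ) : thA Λ e a - algebraMap ℂ F a = Λ.s ^ e := by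
  rw [thA_sub, sub_self, map_zero, zero_add]

theorem ord_thA_sub {e : ℕ} (he : 0 < e) {a c : ℂ} (h : a ≠ c) :
    Λ.ord (thA Λ e a - algebraMap ℂ F c) = 0 := by
  have h1 : algebraMap ℂ F (a - c) ≠ 0 := (_root_.map_ne_zero _).2 (sub_ne_zero.2 h)
  rw [thA_sub, LF.ord_add_lt h1, Λ.ord_const]
  rw [Λ.ord_const, ord_s_pow]
  exact_mod_cast he

theorem lc_thA_sub {e : ℕ} (he : 0 < e) {a c : ℂ} (h : a ≠ c) :
    Λ.lc (thA Λ e a - algebraMap ℂ F c) = a - c := by
  have h1 : algebraMap ℂ F (a - c) ≠ 0 := (_root_.map_ne_zero _).2 (sub_ne_zero.2 h)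
  rw [thA_sub, Λ.lc_add h1 (pow_ne_zero e Λ.s_ne), Λ.lc_const]
  rw [Λ.ord_const, ord_s_pow]
  exact_mod_cast he

theorem thA_sub_ne {e : ℕ} (he : 0 < e) (a c : ℂ) : thA Λ e a - algebraMap ℂ F c ≠ 0 := by
  by_cases h : a = c
  · subst h
    rw [thA_sub_self]
    exact pow_ne_zero e Λ.s_ne
  · rw [thA_sub]
    apply LF.add_ne_zero_of_ord (Λ := Λ)
    rw [Λ.ord_const, ord_s_pow]
    exact_mod_cast (Nat.ne_of_gt he).symm

theorem ord_thI : Λ.ord (thI Λ) = -2 := by
  unfold thI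
  rw [LF.ord_inv (pow_ne_zero 2 Λ.s_ne), ord_s_pow]
  rfl

theorem thI_ne : thI Λ ≠ 0 := inv_ne_zero (pow_ne_zero 2 Λ.s_ne)

theorem thI_sub_ne (c : ℂ) : thI Λ - algebraMap ℂ F c ≠ 0 := by
  rw [sub_eq_add_neg]
  apply LF.add_ne_zero_of_ord (Λ := Λ)
  rw [LF.ord_neg, Λ.ord_const, ord_thI]
  norm_num

theorem ord_thI_sub (c : ℂ) : Λ.ord (thI Λ - algebraMap ℂ F c) = -2 := by
  rw [sub_eq_add_neg, LF.ord_add_lt thI_ne, ord_thI]
  rw [LF.ord_neg, Λ.ord_const, ord_thI]
  norm_num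

theorem aeval_ne_of {θ : F} (h : ∀ c : ℂ, θ - algebraMap ℂ F c ≠ 0) :
    ∀ p : ℂ[X], p ≠ 0 → aeval θ p ≠ 0 := by
  apply poly_ind
  · intro c hc
    rw [aeval_C]
    exact (_root_.map_ne_zero _).2 hc
  · intro a
    rw [aeval_X_sub_C]
    exact h a
  · intro p q _ _ h1 h2
    rw [map_mul]
    exact mul_ne_zero h1 h2

theorem ord_aff {e : ℕ} (he : 0 < e) (a : ℂ) : ∀ p : ℂ[X], p ≠ 0 →
    (p.eval a ≠ 0 → Λ.ord (aeval (thA Λ e a) p) = 0 ∧ Λ.lc (aeval (thA Λ e a) p) = p.eval a) ∧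
    (p.eval a = 0 → 0 < Λ.ord (aeval (thA Λ e a) p)) := by
  apply poly_ind
  · intro c hc
    rw [aeval_C, eval_C]
    exact ⟨fun _ => ⟨Λ.ord_const c, Λ.lc_const c⟩, fun h => absurd h hc⟩
  · intro c
    rw [aeval_X_sub_C, eval_sub, eval_X, eval_C]
    constructor
    · intro h
      exact ⟨ord_thA_sub he (sub_ne_zero.1 h), lc_thA_sub he (sub_ne_zero.1 h)⟩
    · intro h
      rw [sub_eq_zero] at h
      subst h
      rw [thA_sub_self, ord_s_pow]
      exact_mod_cast he
  · intro p q hp hq h1 h2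
    rw [map_mul, eval_mul, Λ.ord_mul (aeval_ne_of (thA_sub_ne he a) p hp)
      (aeval_ne_of (thA_sub_ne he a) q hq), Λ.lc_mul]
    constructor
    · intro h
      obtain ⟨h3, h4⟩ := h1.1 (left_ne_zero_of_mul h)
      obtain ⟨h5, h6⟩ := h2.1 (right_ne_zero_of_mul h)
      rw [h3, h4, h5, h6]
      simp
    · intro h
      have h3 : 0 ≤ Λ.ord (aeval (thA Λ e a) p) := by
        by_cases h4 : p.eval a = 0
        · exact le_of_lt (h1.2 h4)
        · exact le_of_eq (h1.1 h4).1.symm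
      have h4 : 0 ≤ Λ.ord (aeval (thA Λ e a) q) := by
        by_cases h4 : q.eval a = 0
        · exact le_of_lt (h2.2 h4)
        · exact le_of_eq (h2.1 h4).1.symm
      rcases mul_eq_zero.1 h with h5 | h5
      · have := h1.2 h5
        linarith
      · have := h2.2 h5
        linarith

theorem ord_aff_nonneg {e : ℕ} (he : 0 < e) (a : ℂ) {p : ℂ[X]} (hp : p ≠ 0) :
    0 ≤ Λ.ord (aeval (thA Λ e a) p) := by
  by_cases h4 : p.eval a = 0
  · exact le_of_lt ((ord_aff he a p hp).2 h4)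
  · exact le_of_eq ((ord_aff he a p hp).1 h4).1.symm

theorem ord_aff_even (a : ℂ) : ∀ p : ℂ[X], p ≠ 0 → Even (Λ.ord (aeval (thA Λ 2 a) p)) := by
  apply poly_ind
  · intro c _
    rw [aeval_C, Λ.ord_const]
    exact Even.zero
  · intro c
    rw [aeval_X_sub_C]
    by_cases h : a = c
    · subst h
      rw [thA_sub_self, ord_s_pow]
      exact even_two
    · rw [ord_thA_sub (by norm_num) h]
      exact Even.zero
  · intro p q hp hq h1 h2
    rw [map_mul, Λ.ord_mul (aeval_ne_of (thA_sub_ne (by norm_num) a) p hp)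
      (aeval_ne_of (thA_sub_ne (by norm_num) a) q hq)]
    exact h1.add h2

theorem ord_inf : ∀ p : ℂ[X], p ≠ 0 → Λ.ord (aeval (thI Λ) p) = -2 * (p.natDegree : ℤ) := by
  apply poly_ind
  · intro c _
    rw [aeval_C, Λ.ord_const]
    simp
  · intro c
    rw [aeval_X_sub_C, ord_thI_sub, natDegree_X_sub_C]
    norm_num
  · intro p q hp hq h1 h2
    rw [map_mul, Λ.ord_mul (aeval_ne_of thI_sub_ne p hp) (aeval_ne_of thI_sub_ne q hq), h1, h2,
      natDegree_mul hp hq]
    push_cast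
    ring

variable (f : ℂ[X])

/-- the points of the affine curve -/
abbrev APt := {p : ℂ × ℂ // p.2 ^ 2 = f.eval p.1}

/-- the points of the projective curve -/
abbrev Pts := Option (APt f)

variable {f}

/-- ramification index -/
def ram (P : APt f) : ℕ := if P.1.2 = 0 then 2 else 1

theorem ram_pos (P : APt f) : 0 < ram P := by
  unfold ram
  split <;> norm_num

theorem exists_parA (Λ : LF F) (hf : f ≠ 0) (P : APt f) : ∃ Q : Par F f,
    Q.θ = thA Λ (ram P) P.1.1 ∧ (P.1.2 ≠ 0 → Λ.lc Q.η = P.1.2) := by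
  have hne := aeval_ne_of (thA_sub_ne (Λ := Λ) (ram_pos P) P.1.1) f hf
  by_cases hb : P.1.2 = 0
  · obtain ⟨b, hb'⟩ := IsAlgClosed.exists_pow_nat_eq (Λ.lc (aeval (thA Λ (ram P) P.1.1) f))
      (n := 2) (by norm_num)
    have he : Even (Λ.ord (aeval (thA Λ (ram P) P.1.1) f)) := by
      have : ram P = 2 := by
        unfold ram
        rw [if_pos hb]
      rw [this]
      exact ord_aff_even _ f hf
    obtain ⟨η, h1, h2⟩ := Λ.sqrt hne he b hb'
    exact ⟨⟨_, η, h1, thA_sub_ne (ram_pos P) P.1.1⟩, rfl, fun h => absurd hb h⟩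
  · have h3 : f.eval P.1.1 ≠ 0 := by
      rw [← P.2]
      exact pow_ne_zero 2 hb
    obtain ⟨h4, h5⟩ := (ord_aff (Λ := Λ) (ram_pos P) P.1.1 f hf).1 h3
    obtain ⟨η, h1, h2⟩ := Λ.sqrt hne (by rw [h4]; exact Even.zero) P.1.2 (by rw [h5, ← P.2])
    exact ⟨⟨_, η, h1, thA_sub_ne (ram_pos P) P.1.1⟩, rfl, fun _ => h2⟩

theorem exists_parI (Λ : LF F) (hf : f ≠ 0) : ∃ Q : Par F f, Q.θ = thI Λ := by
  have hne := aeval_ne_of (thI_sub_ne (Λ := Λ)) f hf
  obtain ⟨b, hb'⟩ := IsAlgClosed.exists_pow_nat_eq (Λ.lc (aeval (thI Λ) f))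
      (n := 2) (by norm_num)
  obtain ⟨η, h1, _⟩ := Λ.sqrt hne (by rw [ord_inf f hf]; exact Even.mul_right (by decide) _) b hb'
  exact ⟨⟨_, η, h1, thI_sub_ne⟩, rfl⟩

/-- the local parametrisation at a point -/
def parAt (Λ : LF F) (hf : f ≠ 0) : Pts f → Par F f
  | none => (exists_parI Λ hf).choose
  | some P => (exists_parA Λ hf P).choose

theorem parAt_none (Λ : LF F) (hf : f ≠ 0) : (parAt Λ hf none).θ = thI Λ :=
  (exists_parI Λ hf).choose_spec

theorem parAt_some (Λ : LF F) (hf : f ≠ 0) (P : APt f) :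
    (parAt Λ hf (some P)).θ = thA Λ (ram P) P.1.1 :=
  (exists_parA Λ hf P).choose_spec.1

theorem parAt_some_lc (Λ : LF F) (hf : f ≠ 0) (P : APt f) (h : P.1.2 ≠ 0) :
    Λ.lc (parAt Λ hf (some P)).η = P.1.2 :=
  (exists_parA Λ hf P).choose_spec.2 h

/-- the order of vanishing at a point -/
def ordAt (Λ : LF F) (hf : f ≠ 0) (P : Pts f) (z : KK f) : ℤ := Λ.ord ((parAt Λ hf P).phi z)

/-- polynomials in `x` as rational functions -/
def emb (p : ℂ[X]) : KK f := algebraMap (RatFunc ℂ) (KK f) (algebraMap ℂ[X] (RatFunc ℂ) p)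

theorem phi_emb (P : Par F f) (p : ℂ[X]) : P.phi (emb p) = aeval P.θ p := by
  rw [Par.phi_apply]
  have h1 : (emb p : KK f).re = algebraMap ℂ[X] (RatFunc ℂ) p := rfl
  have h2 : (emb p : KK f).im = 0 := rfl
  rw [h1, h2, map_zero, zero_mul, add_zero, P.psi_algebraMap]

theorem ordAt_emb_none (hf : f ≠ 0) {p : ℂ[X]} (hp : p ≠ 0) :
    ordAt Λ hf none (emb p) = -2 * (p.natDegree : ℤ) := by
  unfold ordAt
  rw [phi_emb, parAt_none, ord_inf p hp]

theorem ordAt_emb_nonneg (hf : f ≠ 0) {p : ℂ[X]} (hp : p ≠ 0) (P : APt f) :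
    0 ≤ ordAt Λ hf (some P) (emb p) := by
  unfold ordAt
  rw [phi_emb, parAt_some]
  exact ord_aff_nonneg (ram_pos P) _ hp

theorem ordAt_emb_zero (hf : f ≠ 0) {p : ℂ[X]} (P : APt f) (h : p.eval P.1.1 ≠ 0) :
    ordAt Λ hf (some P) (emb p) = 0 := by
  have hp : p ≠ 0 := by
    rintro rfl
    simp at h
  unfold ordAt
  rw [phi_emb, parAt_some]
  exact ((ord_aff (ram_pos P) _ p hp).1 h).1

theorem ordAt_emb_pos (hf : f ≠ 0) {p : ℂ[X]} (hp : p ≠ 0) (P : APt f) (h : p.eval P.1.1 = 0) :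
    0 < ordAt Λ hf (some P) (emb p) := by
  unfold ordAt
  rw [phi_emb, parAt_some]
  exact (ord_aff (ram_pos P) _ p hp).2 h

theorem ordAt_X_sub_C_self (hf : f ≠ 0) (P : APt f) :
    ordAt Λ hf (some P) (emb (X - C P.1.1)) = ram P := by
  unfold ordAt
  rw [phi_emb, parAt_some, aeval_X_sub_C, thA_sub_self, ord_s_pow]

theorem two_ord_eta (hf : f ≠ 0) (P : Pts f) :
    2 * Λ.ord (parAt Λ hf P).η = ordAt Λ hf P (emb f) := by
  unfold ordAt
  rw [phi_emb, ← (parAt Λ hf P).hη, LF.ord_pow ((parAt Λ hf P).η_ne hf)]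
  rfl

/-- At a ramified point the order only depends on the class modulo conjugation. -/
theorem ram_min (P : Par F f) (hf : f ≠ 0) (he : ∀ p : ℂ[X], p ≠ 0 → Even (Λ.ord (aeval P.θ p)))
    (ho : Odd (Λ.ord P.η)) {z : KK f} (h1 : z.re ≠ 0) (h2 : z.im ≠ 0) :
    Λ.ord (P.phi z) = min (Λ.ord (P.psi z.re)) (Λ.ord (P.psi z.im) + Λ.ord P.η) := by
  have hev : ∀ r : RatFunc ℂ, r ≠ 0 → Even (Λ.ord (P.psi r)) := by
    intro r hr
    obtain ⟨p, q, hq, hpq⟩ := IsFractionRing.div_surjective (A := ℂ[X]) r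
    have hq0 : q ≠ 0 := nonZeroDivisors.ne_zero hq
    have hp0 : p ≠ 0 := by
      rintro rfl
      apply hr
      rw [← hpq, map_zero, zero_div]
    rw [← hpq, map_div₀, P.psi_algebraMap, P.psi_algebraMap,
      LF.ord_div (P.aeval_ne p hp0) (P.aeval_ne q hq0)]
    exact (he p hp0).sub (he q hq0)
  have h3 : P.psi z.re ≠ 0 := (_root_.map_ne_zero _).2 h1
  have h4 : P.psi z.im ≠ 0 := (_root_.map_ne_zero _).2 h2
  rw [Par.phi_apply, LF.ord_add_ne h3 (mul_ne_zero h4 (P.η_ne hf)), Λ.ord_mul h4 (P.η_ne hf)]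
  rw [Λ.ord_mul h4 (P.η_ne hf)]
  intro h5
  have h6 := hev _ h1
  rw [h5] at h6
  exact (Int.not_even_iff_odd.2 ((hev _ h2).add_odd ho)) h6

theorem ram_star (P : Par F f) (hf : f ≠ 0) (he : ∀ p : ℂ[X], p ≠ 0 → Even (Λ.ord (aeval P.θ p)))
    (ho : Odd (Λ.ord P.η)) (z : KK f) : Λ.ord (P.phi (star z)) = Λ.ord (P.phi z) := by
  have e1 : (star z).re = z.re := by
    rw [QuadraticAlgebra.re_star, zero_mul, add_zero]
  have e2 : (star z).im = - z.im := QuadraticAlgebra.im_star z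
  by_cases h1 : z.re = 0
  · rw [Par.phi_apply, Par.phi_apply, e1, e2, h1, map_zero, zero_add, zero_add, map_neg, neg_mul,
      LF.ord_neg]
  by_cases h2 : z.im = 0
  · rw [Par.phi_apply, Par.phi_apply, e1, e2, h2, neg_zero]
  rw [ram_min P hf he ho h1 h2, ram_min P hf he ho (by rw [e1]; exact h1)
    (by rw [e2]; exact neg_ne_zero.2 h2), e1, e2, map_neg, LF.ord_neg]

/-- the hyperelliptic involution -/
def tau : Pts f → Pts f
  | none => none
  | some P => some ⟨(P.1.1, -P.1.2), by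
      have := P.2
      simp only [neg_sq]
      exact this⟩

theorem tau_tau (P : Pts f) : tau (tau P) = P := by
  rcases P with _ | P
  · rfl
  · unfold tau
    simp

/-- conditions on `f` -/
structure Good (f : ℂ[X]) : Prop where
  ne : f ≠ 0
  odd : Odd f.natDegree
  simple : ∀ a : ℂ, f.eval a = 0 → ∃ q : ℂ[X], f = (X - C a) * q ∧ q.eval a ≠ 0
  sqf : Squarefree f

variable (G : Good f)
include G

theorem ord_eta_inf : Λ.ord (parAt Λ G.ne none).η = - (f.natDegree : ℤ) := by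
  have h1 := two_ord_eta (Λ := Λ) G.ne none
  rw [ordAt_emb_none G.ne G.ne] at h1
  linarith

theorem ord_eta_ram (P : APt f) (h : P.1.2 = 0) : Λ.ord (parAt Λ G.ne (some P)).η = 1 := by
  have h1 := two_ord_eta (Λ := Λ) G.ne (some P)
  have h2 : f.eval P.1.1 = 0 := by
    rw [← P.2, h]
    ring
  obtain ⟨q, hq, hq0⟩ := G.simple _ h2
  have hqn : q ≠ 0 := by
    rintro rfl
    simp at hq0
  have h3 : ordAt Λ G.ne (some P) (emb f) = 2 := by
    have e : (emb f : KK f) = emb (X - C P.1.1) * emb q := by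
      unfold emb
      rw [← map_mul, ← map_mul, ← hq]
    have h4 : ordAt Λ G.ne (some P) (emb f) = ordAt Λ G.ne (some P) (emb (X - C P.1.1)) +
        ordAt Λ G.ne (some P) (emb q) := by
      unfold ordAt
      rw [e, map_mul, Λ.ord_mul]
      · rw [phi_emb]
        exact Par.aeval_ne _ _ (X_sub_C_ne_zero _)
      · rw [phi_emb]
        exact Par.aeval_ne _ _ hqn
    rw [h4, ordAt_X_sub_C_self, ordAt_emb_zero G.ne P hq0]
    unfold ram
    rw [if_pos h]
    rfl
  rw [h3] at h1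
  linarith

theorem ordAt_tau (P : Pts f) (z : KK f) : ordAt Λ G.ne (tau P) z = ordAt Λ G.ne P (star z) := by
  rcases P with _ | P
  · show Λ.ord _ = Λ.ord _
    symm
    apply ram_star _ G.ne
    · intro p hp
      rw [parAt_none, ord_inf p hp]
      exact Even.mul_right (by decide) _
    · rw [ord_eta_inf G]
      have := G.odd
      exact ((Int.odd_coe_nat _).2 this).neg
  · by_cases hb : P.1.2 = 0
    · have h1 : tau (some P) = some P := by
        show some _ = some P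
        apply congrArg some
        apply Subtype.ext
        apply Prod.ext
        · rfl
        · show - P.1.2 = P.1.2
          rw [hb, neg_zero]
      rw [h1]
      symm
      apply ram_star _ G.ne
      · intro p hp
        rw [parAt_some]
        have : ram P = 2 := by
          unfold ram
          rw [if_pos hb]
        rw [this]
        exact ord_aff_even _ p hp
      · rw [ord_eta_ram G P hb]
        exact odd_one
    · set P' : APt f := ⟨(P.1.1, -P.1.2), by
        have := P.2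
        simp only [neg_sq]
        exact this⟩ with hP'
      have h1 : tau (some P) = some P' := rfl
      rw [h1]
      have hb' : P'.1.2 ≠ 0 := neg_ne_zero.2 hb
      have hθ : (parAt Λ G.ne (some P')).θ = (parAt Λ G.ne (some P)).θ := by
        rw [parAt_some, parAt_some]
        have : ram P' = ram P := by
          unfold ram
          rw [if_neg hb, if_neg hb']
        rw [this]
      have hη : (parAt Λ G.ne (some P')).η = - (parAt Λ G.ne (some P)).η := by
        have h2 : (parAt Λ G.ne (some P')).η ^ 2 = (parAt Λ G.ne (some P)).η ^ 2 := by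
          rw [Par.hη, Par.hη, hθ]
        rcases sq_eq_sq_iff_eq_or_eq_neg.1 h2 with h3 | h3
        · exfalso
          have h4 := parAt_some_lc Λ G.ne P hb
          have h5 := parAt_some_lc Λ G.ne P' hb'
          rw [h3, h4] at h5
          apply hb
          have h6 : P.1.2 = - P.1.2 := h5
          exact self_eq_neg.1 h6
        · exact h3
      have h4 : parAt Λ G.ne (some P') = (parAt Λ G.ne (some P)).conj := by
        cases h5 : parAt Λ G.ne (some P') with
        | mk θ' η' hη' hθ' =>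
          rw [h5] at hθ hη
          unfold Par.conj
          congr
      unfold ordAt
      rw [h4, Par.phi_conj]

end

end Pool.Agent.YTD.Hyp
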