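import Pool.Agent.YTD.Curve

/-!
An elementary proof of Riemann-Roch in the non-special range, for a curve with a function `x`
whose only pole is a double pole.
-/

namespace Pool.Agent.YTD
namespace CurveOrd

open Module

variable {K : Type} [Field K] [Algebra ℂ K] (X : CurveOrd K)

/-- all residue fields are `ℂ` -/
def Res : Prop := ∀ (P : X.Pt) (f g : K), f ≠ 0 → g ≠ 0 → X.ord P f = X.ord P g →
  ∃ c : ℂ, f - c • g = 0 ∨ X.ord P f < X.ord P (f - c • g)

variable {X}

theorem L_add_single_le (hR : X.Res) (D : X.Pt →₀ ℤ) (P : X.Pt) :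
    ∃ f₀, X.L (D + Finsupp.single P 1) ≤ X.L D ⊔ Submodule.span ℂ {f₀} := by
  by_cases h : X.L (D + Finsupp.single P 1) ≤ X.L D
  · exact ⟨0, h.trans le_sup_left⟩
  obtain ⟨f₀, hf₀, hf₀'⟩ := Set.not_subset.1 h
  have key : ∀ f ∈ X.L (D + Finsupp.single P 1), f ∉ X.L D → f ≠ 0 ∧ X.ord P f = - D P - 1 := by
    intro f hf hf'
    have h0 : f ≠ 0 := by
      rintro rfl
      exact hf' (zero_mem _)
    refine ⟨h0, ?_⟩
    have h1 : ¬ (f ≠ 0 → ∀ Q, 0 ≤ X.ord Q f + D Q) := hf'
    push Not at h1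
    obtain ⟨_, Q, hQ⟩ := h1
    have h2 := hf h0 Q
    rw [Finsupp.add_apply] at h2
    by_cases hQP : Q = P
    · subst hQP
      rw [Finsupp.single_eq_same] at h2
      linarith
    · rw [Finsupp.single_eq_of_ne hQP] at h2
      linarith
  refine ⟨f₀, ?_⟩
  intro f hf
  by_cases hfD : f ∈ X.L D
  · exact (le_sup_left : X.L D ≤ X.L D ⊔ Submodule.span ℂ {f₀}) hfD
  obtain ⟨h0, h1⟩ := key f hf hfD
  obtain ⟨h0', h1'⟩ := key f₀ hf₀ hf₀'
  obtain ⟨c, hc⟩ := hR P f f₀ h0 h0' (by rw [h1, h1'])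
  have h2 : f - c • f₀ ∈ X.L D := by
    rcases hc with hc | hc
    · rw [hc]
      exact zero_mem _
    · have h3 : f - c • f₀ ∈ X.L (D + Finsupp.single P 1) :=
        sub_mem hf (Submodule.smul_mem _ _ hf₀)
      intro h4 Q
      have h5 := h3 h4 Q
      rw [Finsupp.add_apply] at h5
      by_cases hQP : Q = P
      · subst hQP
        linarith
      · rw [Finsupp.single_eq_of_ne hQP] at h5
        linarith
  rw [Submodule.mem_sup]
  exact ⟨_, h2, c • f₀, Submodule.smul_mem _ _ (Submodule.mem_span_singleton_self f₀), by abel⟩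

theorem finite_L_of_res (hR : X.Res) (P : X.Pt) :
    ∀ (n : ℕ) (D : X.Pt →₀ ℤ), X.deg D < n → Module.Finite ℂ (X.L D) := by
  intro n
  induction n with
  | zero =>
    intro D hD
    rw [X.L_eq_bot (by simpa using hD)]
    infer_instance
  | succ n ih =>
    intro D hD
    have h1 : X.deg (D - Finsupp.single P 1) < n := by
      rw [deg_sub, deg_single]
      push_cast at hD
      linarith
    have h2 := ih _ h1
    obtain ⟨f₀, hf₀⟩ := L_add_single_le hR (D - Finsupp.single P 1) P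
    rw [sub_add_cancel] at hf₀
    exact Submodule.finiteDimensional_of_le hf₀

theorem finite_L' (hR : X.Res) (D : X.Pt →₀ ℤ) [Nonempty X.Pt] : Module.Finite ℂ (X.L D) := by
  obtain ⟨P⟩ := ‹Nonempty X.Pt›
  exact finite_L_of_res hR P ((X.deg D + 1).toNat) D (by have := Int.self_le_toNat (X.deg D + 1); linarith)

theorem finrank_L_add_single (hR : X.Res) (D : X.Pt →₀ ℤ) (P : X.Pt) :
    finrank ℂ (X.L (D + Finsupp.single P 1)) ≤ finrank ℂ (X.L D) + 1 := by
  haveI : Nonempty X.Pt := ⟨P⟩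
  obtain ⟨f₀, hf₀⟩ := L_add_single_le hR D P
  haveI := finite_L' hR D
  have h1 := Submodule.finrank_mono hf₀
  have h2 := Submodule.finrank_add_le_finrank_add_finrank (X.L D) (Submodule.span ℂ {f₀})
  have h3 : finrank ℂ (Submodule.span ℂ {f₀}) ≤ 1 := by
    have := finrank_span_le_card (R := ℂ) ({f₀} : Set K)
    simpa using this
  omega

/-- `dim L(D) - deg D` is non-increasing in `D`. -/
theorem finrank_L_mono (hR : X.Res) {D E : X.Pt →₀ ℤ} (h : ∀ P, D P ≤ E P) :
    (finrank ℂ (X.L E) : ℤ) - X.deg E ≤ finrank ℂ (X.L D) - X.deg D := by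
  obtain ⟨n, hn⟩ : ∃ n : ℕ, (n : ℤ) = X.deg (E - D) :=
    ⟨(X.deg (E - D)).toNat, Int.toNat_of_nonneg (X.deg_nonneg (by intro P; simp [h P]))⟩
  induction n generalizing E with
  | zero =>
    have h0 : E - D = 0 := by
      by_contra h0
      obtain ⟨P, hP⟩ := Finsupp.support_nonempty_iff.2 h0
      have h1 : 0 < X.deg (E - D) := by
        unfold deg
        apply Finset.sum_pos'
        · intro Q _
          simp [h Q]
        · refine ⟨P, hP, ?_⟩
          have h2 : 0 ≤ (E - D) P := by simp [h P]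
          exact lt_of_le_of_ne h2 (Ne.symm (Finsupp.mem_support_iff.1 hP))
      rw [← hn] at h1
      simp at h1
    rw [sub_eq_zero] at h0
    rw [h0]
  | succ n ih =>
    have h0 : ∃ P, D P < E P := by
      by_contra h0
      push Not at h0
      have h1 : E = D := Finsupp.ext fun P => le_antisymm (h0 P) (h P)
      rw [h1, sub_self, deg_zero] at hn
      push_cast at hn
      linarith
    obtain ⟨P, hP⟩ := h0
    have h1 : ∀ Q, D Q ≤ (E - Finsupp.single P (1 : ℤ)) Q := by
      intro Q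
      rw [Finsupp.sub_apply]
      by_cases hQP : Q = P
      · subst hQP
        rw [Finsupp.single_eq_same]
        linarith
      · rw [Finsupp.single_eq_of_ne hQP]
        linarith [h Q]
    have h2 := ih h1 (by
      rw [sub_right_comm, deg_sub, deg_single, ← hn]
      push_cast
      ring)
    have h3 := finrank_L_add_single hR (E - Finsupp.single P 1) P
    rw [sub_add_cancel] at h3
    rw [deg_sub, deg_single] at h2
    have h4 : (finrank ℂ (X.L E) : ℤ) ≤ finrank ℂ (X.L (E - Finsupp.single P 1)) + 1 := by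
      exact_mod_cast h3
    linarith

theorem mulLeft_inj {f : K} (hf : f ≠ 0) : Function.Injective (LinearMap.mulLeft ℂ f) :=
  fun _ _ h => mul_left_cancel₀ hf h

theorem finrank_L_add_dv (D : X.Pt →₀ ℤ) {f : K} (hf : f ≠ 0) :
    finrank ℂ (X.L (D + X.dv f)) = finrank ℂ (X.L D) := by
  have h1 : (X.L (D + X.dv f)).map (LinearMap.mulLeft ℂ f) = X.L D := by
    ext z
    simp only [Submodule.mem_map, LinearMap.mulLeft_apply]
    constructor
    · rintro ⟨w, hw, rfl⟩
      exact (X.mul_mem_L_iff hf).2 hw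
    · intro hz
      refine ⟨f⁻¹ * z, ?_, ?_⟩
      · rw [← X.mul_mem_L_iff hf, mul_inv_cancel_left₀ hf]
        exact hz
      · rw [mul_inv_cancel_left₀ hf]
  rw [← h1]
  exact LinearEquiv.finrank_eq (Submodule.equivMapOfInjective (LinearMap.mulLeft ℂ f)
    (mulLeft_inj hf) (X.L (D + X.dv f)))

/-- Integer sequences which are convex, eventually of slope two, eventually zero. -/
theorem convex_lemma {h : ℤ → ℤ} {d g : ℤ} (hc : ∀ n, 2 * h n ≤ h (n + 1) + h (n - 1))
    (h2 : ∃ n₀ : ℕ, ∀ n : ℤ, (n₀ : ℤ) ≤ n → h n = d + 2 * n + 1 - g)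
    (h0 : ∀ n, d + 2 * n < 0 → h n = 0) (hg : 0 ≤ g) (hd : 2 * g - 2 < d) :
    h 0 = d + 1 - g := by
  obtain ⟨n₀, hn₀⟩ := h2
  -- monotone slopes
  have hs : ∀ (m : ℤ) (k : ℕ), h (m + 1) - h m ≤ h (m + k + 1) - h (m + k) := by
    intro m k
    induction k with
    | zero => simp
    | succ k ih =>
      have := hc (m + k + 1)
      have e1 : m + ((k + 1 : ℕ) : ℤ) = m + k + 1 := by push_cast; ring
      rw [e1]
      have e2 : m + (k : ℤ) + 1 - 1 = m + k := by ring
      rw [e2] at this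
      linarith
  have hs2 : ∀ m : ℤ, h (m + 1) - h m ≤ 2 := by
    intro m
    have h3 := hs m (n₀ + m.natAbs)
    have e1 : (n₀ : ℤ) ≤ m + ((n₀ + m.natAbs : ℕ) : ℤ) := by omega
    rw [hn₀ (m + ((n₀ + m.natAbs : ℕ) : ℤ)) e1,
      hn₀ (m + ((n₀ + m.natAbs : ℕ) : ℤ) + 1) (by linarith)] at h3
    linarith
  have hlow : ∀ k : ℕ, h k ≤ h 0 + 2 * k := by
    intro k
    induction k with
    | zero => simp
    | succ k ih =>
      have := hs2 k
      push_cast
      linarith
  have h3 := hlow n₀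
  rw [hn₀ _ le_rfl] at h3
  by_contra hne
  have h4 : d + 2 - g ≤ h 0 := by omega
  have h5 : h 0 - h (-1) ≤ 1 := by
    by_contra h5
    have h6 : ∀ k : ℕ, h 0 + 2 * k ≤ h k := by
      intro k
      induction k with
      | zero => simp
      | succ k ih =>
        have h7 := hs (-1) (k + 1)
        have e1 : (-1 : ℤ) + ((k + 1 : ℕ) : ℤ) = k := by push_cast; ring
        have e2 : (-1 : ℤ) + 1 = 0 := by norm_num
        rw [e1, e2] at h7
        push_cast
        linarith
    have h7 := h6 n₀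
    rw [hn₀ _ le_rfl] at h7
    linarith
  have h6 : ∀ k : ℕ, h 0 - k ≤ h (-k) := by
    intro k
    induction k with
    | zero => simp
    | succ k ih =>
      have h7 := hs (-(k : ℤ) - 1) k
      have e1 : -(k : ℤ) - 1 + k = -1 := by ring
      have e2 : -(k : ℤ) - 1 + 1 = -k := by ring
      have e3 : (-1 : ℤ) + 1 = 0 := by norm_num
      rw [e1, e2, e3] at h7
      have e4 : (-((k + 1 : ℕ) : ℤ)) = -(k : ℤ) - 1 := by push_cast; ring
      rw [e4]
      push_cast
      linarith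
  have h7 := h6 (d / 2 + 1).toNat
  have h8 : (((d / 2 + 1).toNat : ℕ) : ℤ) = d / 2 + 1 := Int.toNat_of_nonneg (by omega)
  rw [h8, h0 (-(d / 2 + 1)) (by omega)] at h7
  omega

/-- The convexity of `n ↦ dim L(D + 2 n ∞)`. -/
theorem finrank_L_convex (hR : X.Res) {inf : X.Pt} {x : K} (hx : x ≠ 0)
    (hxi : X.ord inf x = -2) (hxP : ∀ P, P ≠ inf → 0 ≤ X.ord P x) (D : X.Pt →₀ ℤ) (n : ℤ) :
    2 * (finrank ℂ (X.L (D + Finsupp.single inf (2 * n))) : ℤ) ≤
      finrank ℂ (X.L (D + Finsupp.single inf (2 * (n + 1)))) +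
      finrank ℂ (X.L (D + Finsupp.single inf (2 * (n - 1)))) := by
  haveI : Nonempty X.Pt := ⟨inf⟩
  haveI := fun D => finite_L' hR D
  set A : ℤ → Submodule ℂ K := fun n => X.L (D + Finsupp.single inf (2 * n)) with hA
  have hinj := mulLeft_inj hx
  set B := (A n).map (LinearMap.mulLeft ℂ x) with hB
  have hfB : finrank ℂ B = finrank ℂ (A n) :=
    (LinearEquiv.finrank_eq (Submodule.equivMapOfInjective (LinearMap.mulLeft ℂ x) hinj _)).symm
  have hfA : finrank ℂ ((A (n - 1)).map (LinearMap.mulLeft ℂ x)) = finrank ℂ (A (n - 1)) :=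
    (LinearEquiv.finrank_eq (Submodule.equivMapOfInjective (LinearMap.mulLeft ℂ x) hinj _)).symm
  have h1 : A n ≤ A (n + 1) := by
    apply X.L_mono
    intro P
    simp only [Finsupp.add_apply]
    by_cases hP : P = inf
    · subst hP
      rw [Finsupp.single_eq_same, Finsupp.single_eq_same]
      linarith
    · rw [Finsupp.single_eq_of_ne hP, Finsupp.single_eq_of_ne hP]
  have h2 : B ≤ A (n + 1) := by
    rintro _ ⟨z, hz, rfl⟩
    intro h0 P
    rw [LinearMap.mulLeft_apply] at h0 ⊢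
    have hz0 : z ≠ 0 := right_ne_zero_of_mul h0
    have h3 := hz hz0 P
    rw [X.ord_mul P x z hx hz0]
    rw [Finsupp.add_apply] at h3 ⊢
    by_cases hP : P = inf
    · subst hP
      rw [Finsupp.single_eq_same] at h3 ⊢
      rw [hxi]
      linarith
    · rw [Finsupp.single_eq_of_ne hP] at h3 ⊢
      have := hxP P hP
      linarith
  have h3 : A n ⊓ B ≤ (A (n - 1)).map (LinearMap.mulLeft ℂ x) := by
    rintro _ ⟨hz, w, hw, rfl⟩
    refine ⟨w, ?_, rfl⟩
    rw [LinearMap.mulLeft_apply] at hz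
    intro h0 P
    have h4 := hw h0 P
    have h5 := hz (mul_ne_zero hx h0) P
    rw [X.ord_mul P x w hx h0] at h5
    rw [Finsupp.add_apply] at h4 h5 ⊢
    by_cases hP : P = inf
    · subst hP
      rw [Finsupp.single_eq_same] at h4 h5 ⊢
      rw [hxi] at h5
      linarith
    · rw [Finsupp.single_eq_of_ne hP] at h4 ⊢
      linarith
  haveI : ∀ m, Module.Finite ℂ (A m) := fun m => finite_L' hR _
  have h4 := Submodule.finrank_sup_add_finrank_inf_eq (A n) B
  have h5 := Submodule.finrank_mono h3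
  have h6 := Submodule.finrank_mono (sup_le h1 h2)
  rw [hfA] at h5
  rw [hfB] at h4
  have h7 : 2 * finrank ℂ (A n) ≤ finrank ℂ (A (n + 1)) + finrank ℂ (A (n - 1)) := by omega
  exact_mod_cast h7

theorem ord_pow (P : X.Pt) {f : K} (hf : f ≠ 0) (n : ℕ) : X.ord P (f ^ n) = n * X.ord P f := by
  induction n with
  | zero => simp [X.ord_one P]
  | succ n ih =>
    rw [pow_succ, X.ord_mul P _ _ (pow_ne_zero n hf) hf, ih]
    push_cast
    ring

theorem exists_bounding {inf : X.Pt}
    (hu : ∀ P, P ≠ inf → ∃ u : K, u ≠ 0 ∧ 1 ≤ X.ord P u ∧ (∀ Q, Q ≠ inf → 0 ≤ X.ord Q u) ∧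
      Even (X.ord inf u)) (D : X.Pt →₀ ℤ) :
    ∃ u : K, u ≠ 0 ∧ (∀ Q, Q ≠ inf → D Q ≤ X.ord Q u) ∧ (∀ Q, Q ≠ inf → 0 ≤ X.ord Q u) ∧
      Even (X.ord inf u) := by
  induction D using Finsupp.induction_linear with
  | zero =>
    refine ⟨1, one_ne_zero, ?_, ?_, ?_⟩
    · intro Q _
      rw [X.ord_one]
      simp
    · intro Q _
      rw [X.ord_one]
    · rw [X.ord_one]
      simp
  | add D E hD hE =>
    obtain ⟨u, hu1, hu2, hu3, hu4⟩ := hD
    obtain ⟨v, hv1, hv2, hv3, hv4⟩ := hE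
    refine ⟨u * v, mul_ne_zero hu1 hv1, ?_, ?_, ?_⟩
    · intro Q hQ
      rw [X.ord_mul Q _ _ hu1 hv1, Finsupp.add_apply]
      exact add_le_add (hu2 Q hQ) (hv2 Q hQ)
    · intro Q hQ
      rw [X.ord_mul Q _ _ hu1 hv1]
      exact add_nonneg (hu3 Q hQ) (hv3 Q hQ)
    · rw [X.ord_mul _ _ _ hu1 hv1]
      exact hu4.add hv4
  | single P n =>
    by_cases hP : P = inf
    · refine ⟨1, one_ne_zero, ?_, ?_, ?_⟩
      · intro Q hQ
        rw [X.ord_one, Finsupp.single_eq_of_ne (by rw [hP]; exact hQ)]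
      · intro Q _
        rw [X.ord_one]
      · rw [X.ord_one]
        simp
    · obtain ⟨u, hu1, hu2, hu3, hu4⟩ := hu P hP
      refine ⟨u ^ n.natAbs, pow_ne_zero _ hu1, ?_, ?_, ?_⟩
      · intro Q hQ
        rw [ord_pow Q hu1]
        by_cases hQP : Q = P
        · subst hQP
          rw [Finsupp.single_eq_same]
          have h1 : (0 : ℤ) ≤ n.natAbs := by positivity
          have h2 : n ≤ n.natAbs := Int.le_natAbs
          nlinarith
        · rw [Finsupp.single_eq_of_ne hQP]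
          have := hu3 Q hQ
          positivity
      · intro Q hQ
        rw [ord_pow Q hu1]
        have := hu3 Q hQ
        positivity
      · rw [ord_pow _ hu1]
        exact hu4.mul_left _

theorem rr_of (hR : X.Res) {inf : X.Pt} {x : K} (hx : x ≠ 0)
    (hxi : X.ord inf x = -2) (hxP : ∀ P, P ≠ inf → 0 ≤ X.ord P x)
    (hu : ∀ P, P ≠ inf → ∃ u : K, u ≠ 0 ∧ 1 ≤ X.ord P u ∧ (∀ Q, Q ≠ inf → 0 ≤ X.ord Q u) ∧
      Even (X.ord inf u)) {g : ℕ}
    (hk : ∃ k₀ : ℕ, ∀ k : ℤ, (k₀ : ℤ) ≤ k →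
      (finrank ℂ (X.L (Finsupp.single inf (2 * k))) : ℤ) = 2 * k + 1 - g)
    (D : X.Pt →₀ ℤ) (hD : 2 * (g : ℤ) - 2 < X.deg D) :
    (finrank ℂ (X.L D) : ℤ) = X.deg D + 1 - g := by
  obtain ⟨k₀, hk⟩ := hk
  have hmain := convex_lemma (h := fun n => (finrank ℂ (X.L (D + Finsupp.single inf (2 * n))) : ℤ))
    (d := X.deg D) (g := g) (fun n => finrank_L_convex hR hx hxi hxP D n) ?_ ?_
    (by positivity) hD
  · have e0 : D + Finsupp.single inf (2 * (0 : ℤ)) = D := by simp
    rw [e0] at hmain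
    exact hmain
  · -- Riemann's theorem
    obtain ⟨u, hu1, hu2, hu3, hu4⟩ := exists_bounding hu D
    obtain ⟨v, hv1, hv2, hv3, hv4⟩ := exists_bounding hu (-D)
    have hw0 := mul_ne_zero hu1 hv1
    obtain ⟨M, hM⟩ : ∃ M : ℤ, X.ord inf (u * v) = -(2 * M) := by
      rw [X.ord_mul _ _ _ hu1 hv1]
      obtain ⟨a, ha⟩ := hu4
      obtain ⟨b, hb⟩ := hv4
      exact ⟨-a - b, by rw [ha, hb]; ring⟩
    have hw1 : ∀ Q, Q ≠ inf → |D Q| ≤ X.ord Q (u * v) := by
      intro Q hQ
      rw [X.ord_mul _ _ _ hu1 hv1]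
      have h1 := hu2 Q hQ
      have h2 := hu3 Q hQ
      have h3 := hv2 Q hQ
      have h4 := hv3 Q hQ
      rw [Finsupp.neg_apply] at h3
      rw [abs_le]
      constructor <;> linarith
    refine ⟨k₀ + M.natAbs + (D inf).natAbs, ?_⟩
    intro n hn
    push_cast at hn
    have hM1 := abs_le.1 (le_refl |M|)
    have hM2 := abs_le.1 (le_refl |D inf|)
    -- upper divisor
    set m : ℤ := n + M + |D inf| with hm
    set m' : ℤ := n - M - |D inf| with hm'
    have h1 := finrank_L_mono hR (D := D + Finsupp.single inf (2 * n))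
      (E := Finsupp.single inf (2 * m) + X.dv (u * v)) (by
        intro P
        rw [Finsupp.add_apply, Finsupp.add_apply, X.dv_apply hw0]
        by_cases hP : P = inf
        · subst hP
          rw [Finsupp.single_eq_same, Finsupp.single_eq_same, hM, hm]
          linarith
        · rw [Finsupp.single_eq_of_ne hP, Finsupp.single_eq_of_ne hP]
          have := abs_le.1 (hw1 P hP)
          linarith)
    have h2 := finrank_L_mono hR (E := D + Finsupp.single inf (2 * n))
      (D := Finsupp.single inf (2 * m') + X.dv (u * v)⁻¹) (by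
        intro P
        rw [Finsupp.add_apply, Finsupp.add_apply, X.dv_apply (inv_ne_zero hw0), X.ord_inv P hw0]
        by_cases hP : P = inf
        · subst hP
          rw [Finsupp.single_eq_same, Finsupp.single_eq_same, hM, hm']
          linarith
        · rw [Finsupp.single_eq_of_ne hP, Finsupp.single_eq_of_ne hP]
          have := abs_le.1 (hw1 P hP)
          linarith)
    rw [finrank_L_add_dv _ hw0, deg_add, deg_add, deg_single, deg_single, X.deg_dv hw0,
      hk m (by rw [hm]; linarith)] at h1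
    rw [finrank_L_add_dv _ (inv_ne_zero hw0), deg_add, deg_add, deg_single, deg_single,
      X.deg_dv (inv_ne_zero hw0), hk m' (by rw [hm']; linarith)] at h2
    linarith
  · intro n hn
    rw [X.L_eq_bot (by rw [deg_add, deg_single]; exact hn)]
    simp

end CurveOrd
end Pool.Agent.YTD
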