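import Pool.Agent.YTD.HypInv

/-!
The involution `(x, y) ↦ (1/x, -y/x^(g+1))` of the curve `y² = x^(2g+1) + x`, `g` odd.
-/

namespace Pool.Agent.YTD.Hyp

open Polynomial Module

noncomputable section

variable {F : Type} [Field F] [Algebra ℂ F] {Λ : LF F}

/-- conjugation as an algebra homomorphism -/
def starHom (f : ℂ[X]) : KK f →ₐ[ℂ] KK f where
  toFun := star
  map_one' := by simp
  map_mul' z w := by rw [star_mul, mul_comm]
  map_zero' := by simp
  map_add' z w := by simp
  commutes' c := by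
    apply QuadraticAlgebra.ext
    · rw [QuadraticAlgebra.re_star, zero_mul, add_zero]
    · rw [QuadraticAlgebra.im_star]
      have : (algebraMap ℂ (KK f) c).im = 0 := rfl
      rw [this, neg_zero]

theorem starHom_apply {f : ℂ[X]} (z : KK f) : starHom f z = star z := rfl

theorem star_emb {f : ℂ[X]} (p : ℂ[X]) : star (emb p : KK f) = emb p := by
  apply QuadraticAlgebra.ext
  · rw [QuadraticAlgebra.re_star, zero_mul, add_zero]
  · rw [QuadraticAlgebra.im_star]
    have : (emb p : KK f).im = 0 := rfl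
    rw [this, neg_zero]

theorem star_yy {f : ℂ[X]} : star (yy : KK f) = -yy := by
  apply QuadraticAlgebra.ext
  · rw [QuadraticAlgebra.re_star, zero_mul, add_zero, QuadraticAlgebra.re_neg]
    have : (yy : KK f).re = 0 := rfl
    rw [this, neg_zero]
  · rw [QuadraticAlgebra.im_star, QuadraticAlgebra.im_neg]

theorem inv_identity {E : Type} [Field E] {x : E} (hx : x ≠ 0) (g : ℕ) :
    (x ^ (2 * g + 1) + x) * x⁻¹ ^ ((g + 1) * 2) = x⁻¹ ^ (2 * g + 1) + x⁻¹ := by
  have h1 : x ^ (2 * g + 1) * x⁻¹ ^ (2 * g + 1) = 1 := by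
    rw [← mul_pow, mul_inv_cancel₀ hx, one_pow]
  have h2 : x * x⁻¹ = 1 := mul_inv_cancel₀ hx
  have e : x⁻¹ ^ ((g + 1) * 2) = x⁻¹ ^ (2 * g + 1) * x⁻¹ := by
    rw [← pow_succ]
    congr 1
    ring
  rw [e]
  linear_combination x⁻¹ * h1 + x⁻¹ ^ (2 * g + 1) * h2

section

variable {g : ℕ} [NonSq (fh g)]

/-- The involution as a parametrisation. -/
def thPar (g : ℕ) [NonSq (fh g)] : Par (KK (fh g)) (fh g) where
  θ := (emb X)⁻¹
  η := -(yy * ((emb X)⁻¹) ^ (g + 1))
  hη := by
    have hx : (emb X : KK (fh g)) ≠ 0 := emb_ne X_ne_zero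
    have h1 : (yy : KK (fh g)) ^ 2 = emb X ^ (2 * g + 1) + emb X := by
      rw [sq, yy_sq]
      unfold fh
      rw [emb_add]
      congr 1
      unfold emb
      rw [map_pow, map_pow]
    have h2 : aeval ((emb X : KK (fh g))⁻¹) (fh g) = ((emb X)⁻¹) ^ (2 * g + 1) + (emb X)⁻¹ := by
      unfold fh
      rw [map_add, map_pow, aeval_X]
    rw [neg_sq, mul_pow, h1, h2, ← pow_mul]
    exact inv_identity hx g
  hθ := by
    intro c h
    have hx : (emb X : KK (fh g)) ≠ 0 := emb_ne X_ne_zero
    have h1 : (emb X : KK (fh g))⁻¹ = algebraMap ℂ (KK (fh g)) c := sub_eq_zero.1 h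
    have hc : c ≠ 0 := by
      rintro rfl
      rw [map_zero] at h1
      exact inv_ne_zero hx h1
    have h2 : (emb X : KK (fh g)) = emb (C c⁻¹) := by
      rw [emb_C, map_inv₀, ← h1, inv_inv]
    have h3 := emb_inj h2
    have h4 := congrArg natDegree h3
    rw [natDegree_X, natDegree_C] at h4
    exact one_ne_zero h4

/-- the involution on functions, as a homomorphism -/
def thHom (g : ℕ) [NonSq (fh g)] : KK (fh g) →ₐ[ℂ] KK (fh g) := (thPar g).phi

theorem thHom_X : thHom g (emb X) = (emb X)⁻¹ := by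
  unfold thHom
  rw [phi_emb, aeval_X]
  rfl

theorem thHom_yy : thHom g yy = -(yy * ((emb X)⁻¹) ^ (g + 1)) := by
  unfold thHom
  rw [phi_yy]
  rfl

theorem thHom_thHom (z : KK (fh g)) : thHom g (thHom g z) = z := by
  have hx : (emb X : KK (fh g)) ≠ 0 := emb_ne X_ne_zero
  have h : (thHom g).comp (thHom g) = AlgHom.id ℂ (KK (fh g)) := by
    apply algHom_ext'
    · rw [AlgHom.comp_apply, thHom_X, map_inv₀, thHom_X, inv_inv]
      rfl
    · rw [AlgHom.comp_apply, thHom_yy, map_neg, map_mul, map_pow, map_inv₀, thHom_X, inv_inv,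
        thHom_yy, neg_mul, neg_neg, mul_assoc, ← mul_pow, inv_mul_cancel₀ hx, one_pow, mul_one]
      rfl
  exact congrArg (fun φ : KK (fh g) →ₐ[ℂ] KK (fh g) => φ z) h

theorem thHom_star (z : KK (fh g)) : thHom g (star z) = star (thHom g z) := by
  have h : (thHom g).comp (starHom (fh g)) = (starHom (fh g)).comp (thHom g) := by
    have hi : star ((emb X : KK (fh g))⁻¹) = (emb X)⁻¹ := by
      rw [← starHom_apply, map_inv₀, starHom_apply, star_emb]
    apply algHom_ext'
    · rw [AlgHom.comp_apply, AlgHom.comp_apply, starHom_apply, starHom_apply, star_emb, thHom_X, hi]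
    · have hs : star (-(yy * ((emb X : KK (fh g))⁻¹) ^ (g + 1))) =
          yy * ((emb X)⁻¹) ^ (g + 1) := by
        show starHom (fh g) (-(yy * ((emb X)⁻¹) ^ (g + 1))) = _
        rw [map_neg, map_mul, map_pow, starHom_apply, starHom_apply, star_yy, hi, neg_mul, neg_neg]
      rw [AlgHom.comp_apply, AlgHom.comp_apply, starHom_apply, star_yy, map_neg, thHom_yy,
        starHom_apply, hs, neg_neg]
  exact congrArg (fun φ : KK (fh g) →ₐ[ℂ] KK (fh g) => φ z) h

/-- the involution on functions -/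
def thEquiv (g : ℕ) [NonSq (fh g)] : KK (fh g) ≃ₐ[ℂ] KK (fh g) :=
  AlgEquiv.ofAlgHom (thHom g) (thHom g)
    (AlgHom.ext fun z => thHom_thHom z) (AlgHom.ext fun z => thHom_thHom z)

theorem thEquiv_apply (z : KK (fh g)) : thEquiv g z = thHom g z := rfl

end

section pts

variable {g : ℕ}

theorem fh_eval (a : ℂ) : (fh g).eval a = a ^ (2 * g + 1) + a := by
  unfold fh
  simp

/-- the point `(0, 0)` -/
def origin (g : ℕ) : APt (fh g) := ⟨(0, 0), by rw [fh_eval]; simp⟩

theorem sig_proof {a b : ℂ} (ha : a ≠ 0) (h : b ^ 2 = (fh g).eval a) :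
    (-(b * (a⁻¹) ^ (g + 1))) ^ 2 = (fh g).eval a⁻¹ := by
  rw [fh_eval] at h ⊢
  rw [neg_sq, mul_pow, h, ← pow_mul]
  exact inv_identity ha g

open Classical in
/-- the involution on points -/
def sig (g : ℕ) : Pts (fh g) → Pts (fh g)
  | none => some (origin g)
  | some P => if h : P.1.1 = 0 then none else
      some ⟨(P.1.1⁻¹, -(P.1.2 * (P.1.1⁻¹) ^ (g + 1))), sig_proof h P.2⟩

theorem eq_origin {P : APt (fh g)} (h : P.1.1 = 0) : P = origin g := by
  apply Subtype.ext
  apply Prod.ext
  · exact h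
  · have h1 := P.2
    rw [h, fh_eval] at h1
    simp only [ne_eq, Nat.add_eq_zero_iff, mul_eq_zero, OfNat.ofNat_ne_zero, false_or,
      one_ne_zero, and_false, not_false_eq_true, zero_pow, add_zero] at h1
    exact (pow_eq_zero_iff two_ne_zero).1 h1

theorem sig_none : sig g none = some (origin g) := rfl

theorem sig_origin : sig g (some (origin g)) = none := by
  unfold sig
  exact dif_pos rfl

theorem sig_some {P : APt (fh g)} (h : P.1.1 ≠ 0) : sig g (some P) =
    some ⟨(P.1.1⁻¹, -(P.1.2 * (P.1.1⁻¹) ^ (g + 1))), sig_proof h P.2⟩ := by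
  unfold sig
  exact dif_neg h

theorem sig_sig (P : Pts (fh g)) : sig g (sig g P) = P := by
  rcases P with _ | P
  · rw [sig_none, sig_origin]
  · by_cases h : P.1.1 = 0
    · rw [eq_origin h, sig_origin, sig_none]
    · rw [sig_some h, sig_some (P := ⟨(P.1.1⁻¹, -(P.1.2 * (P.1.1⁻¹) ^ (g + 1))), sig_proof h P.2⟩)
        (inv_ne_zero h)]
      congr 1
      apply Subtype.ext
      apply Prod.ext
      · exact inv_inv _
      · show -(-(P.1.2 * (P.1.1⁻¹) ^ (g + 1)) * (P.1.1⁻¹⁻¹) ^ (g + 1)) = P.1.2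
        rw [neg_mul, neg_neg, mul_assoc, ← mul_pow, mul_inv_cancel₀ (inv_ne_zero h), one_pow,
          mul_one]

theorem sig_ne (hg : Odd g) (P : Pts (fh g)) : sig g P ≠ P := by
  rcases P with _ | P
  · rw [sig_none]
    simp
  · by_cases h : P.1.1 = 0
    · rw [eq_origin h, sig_origin]
      simp
    · rw [sig_some h]
      intro h1
      have h2 := Option.some_injective _ h1
      have h3 : P.1.1⁻¹ = P.1.1 := congrArg (fun Q : APt (fh g) => Q.1.1) h2
      have h4 : -(P.1.2 * (P.1.1⁻¹) ^ (g + 1)) = P.1.2 :=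
        congrArg (fun Q : APt (fh g) => Q.1.2) h2
      have h5 : P.1.1 ^ 2 = 1 := by
        rw [sq]
        nth_rewrite 1 [← h3]
        exact inv_mul_cancel₀ h
      obtain ⟨m, hm⟩ := hg
      have h6 : (P.1.1⁻¹) ^ (g + 1) = 1 := by
        have e : g + 1 = 2 * (m + 1) := by omega
        rw [h3, e, pow_mul, h5, one_pow]
      rw [h6, mul_one] at h4
      have h7 : P.1.2 = 0 := neg_eq_self.1 h4
      have h8 := P.2
      rw [h7, fh_eval, pow_add, pow_mul, h5, one_pow] at h8
      apply h
      have h9 : 2 * P.1.1 = 0 := by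
        linear_combination -h8
      exact (mul_eq_zero.1 h9).resolve_left two_ne_zero

end pts

section main

variable {g : ℕ} [NonSq (fh g)] (G : Good (fh g))
include G

theorem ordAt_none_X_sub (c : ℂ) : ordAt Λ G.ne none (emb (X - C c)) = -2 := by
  rw [ordAt_emb_none G.ne (X_sub_C_ne_zero c), natDegree_X_sub_C]
  norm_num

open Classical in
theorem ordAt_some_X_sub (P : APt (fh g)) (c : ℂ) :
    ordAt Λ G.ne (some P) (emb (X - C c)) = if P.1.1 = c then (ram P : ℤ) else 0 := by
  split_ifs with h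
  · rw [← h]
    exact ordAt_X_sub_C_self G.ne P
  · apply ordAt_emb_zero G.ne P
    rw [eval_sub, eval_X, eval_C]
    exact sub_ne_zero.2 h

theorem ord_th_zero (Q : Pts (fh g)) :
    ordAt Λ G.ne Q (thHom g (emb (X - C 0))) = - ordAt Λ G.ne Q (emb (X - C 0)) := by
  rw [map_zero C, sub_zero, thHom_X]
  exact (isVal_ordAt G.ne Q).inv (emb_ne X_ne_zero)

theorem ord_th_ne (Q : Pts (fh g)) {c : ℂ} (hc : c ≠ 0) :
    ordAt Λ G.ne Q (thHom g (emb (X - C c))) =
      ordAt Λ G.ne Q (emb (X - C c⁻¹)) - ordAt Λ G.ne Q (emb (X - C 0)) := by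
  have hx : (emb X : KK (fh g)) ≠ 0 := emb_ne X_ne_zero
  have hv := isVal_ordAt (Λ := Λ) G.ne Q
  have es : ∀ d : ℂ, (emb (X - C d) : KK (fh g)) = emb X - algebraMap ℂ (KK (fh g)) d := by
    intro d
    rw [← emb_C]
    unfold emb
    rw [map_sub, map_sub]
  have e : thHom g (emb (X - C c)) =
      algebraMap ℂ (KK (fh g)) (-c) * (emb (X - C c⁻¹) * (emb X)⁻¹) := by
    rw [es, es, map_sub, thHom_X, AlgHom.commutes, sub_mul, mul_inv_cancel₀ hx, map_neg, mul_sub]
    have h1 : algebraMap ℂ (KK (fh g)) c * algebraMap ℂ (KK (fh g)) c⁻¹ = 1 := by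
      rw [← map_mul, mul_inv_cancel₀ hc, map_one]
    linear_combination (-(emb X : KK (fh g))⁻¹) * h1
  have hc0 : algebraMap ℂ (KK (fh g)) (-c) ≠ 0 := (_root_.map_ne_zero _).2 (neg_ne_zero.2 hc)
  rw [e, hv.mul hc0 (mul_ne_zero (emb_ne (X_sub_C_ne_zero _)) (inv_ne_zero hx)), hv.const,
    hv.mul (emb_ne (X_sub_C_ne_zero _)) (inv_ne_zero hx), hv.inv hx, map_zero C, sub_zero]
  ring

theorem ord_sig_X_sub (P : Pts (fh g)) (c : ℂ) :
    ordAt Λ G.ne (sig g P) (thHom g (emb (X - C c))) = ordAt Λ G.ne P (emb (X - C c)) := by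
  classical
  have e1 : (origin g).1.1 = 0 := rfl
  have ho : ram (origin g) = 2 := by
    unfold ram
    have e2 : (origin g).1.2 = 0 := rfl
    rw [if_pos e2]
  rcases P with _ | P
  · rw [sig_none, ordAt_none_X_sub G]
    by_cases hc : c = 0
    · rw [hc, ord_th_zero G, ordAt_some_X_sub G, if_pos e1, ho]
      rfl
    · rw [ord_th_ne G _ hc, ordAt_some_X_sub G, ordAt_some_X_sub G, if_pos e1, if_neg, ho]
      · rfl
      · exact (inv_ne_zero hc).symm
  · by_cases h : P.1.1 = 0
    · rw [eq_origin h, sig_origin, ordAt_some_X_sub G]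
      by_cases hc : c = 0
      · rw [hc, ord_th_zero G, ordAt_none_X_sub G, if_pos e1, ho]
        rfl
      · rw [ord_th_ne G _ hc, ordAt_none_X_sub G, ordAt_none_X_sub G, if_neg]
        · rfl
        · exact fun h => hc h.symm
    · set P' : APt (fh g) := ⟨(P.1.1⁻¹, -(P.1.2 * (P.1.1⁻¹) ^ (g + 1))), sig_proof h P.2⟩ with hP'
      rw [sig_some h, ← hP', ordAt_some_X_sub G]
      have hP1 : P'.1.1 = P.1.1⁻¹ := rfl
      have hram : ram P' = ram P := by
        unfold ram
        by_cases hb : P.1.2 = 0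
        · rw [if_pos hb, if_pos]
          show -(P.1.2 * (P.1.1⁻¹) ^ (g + 1)) = 0
          rw [hb, zero_mul, neg_zero]
        · rw [if_neg hb, if_neg]
          exact neg_ne_zero.2 (mul_ne_zero hb (pow_ne_zero _ (inv_ne_zero h)))
      by_cases hc : c = 0
      · rw [hc, ord_th_zero G, ordAt_some_X_sub G, if_neg h, if_neg]
        · rfl
        · rw [hP1]
          exact inv_ne_zero h
      · rw [ord_th_ne G _ hc, ordAt_some_X_sub G, ordAt_some_X_sub G, hram, hP1,
          if_neg (inv_ne_zero h), sub_zero]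
        by_cases hac : P.1.1 = c
        · rw [if_pos hac, if_pos (by rw [hac])]
        · rw [if_neg hac, if_neg (fun h => hac (inv_injective h))]

theorem ord_sig (P : Pts (fh g)) {z : KK (fh g)} (hz : z ≠ 0) :
    ordAt Λ G.ne (sig g P) (thHom g z) = ordAt Λ G.ne P z := by
  have hw : IsVal (fun z => ordAt Λ G.ne (sig g P) (thHom g z)) :=
    (isVal_ordAt (Λ := Λ) G.ne (sig g P)).comp (thHom g)
  have hw' : IsVal (ordAt Λ G.ne P) := isVal_ordAt (Λ := Λ) G.ne P
  have hX := ord_sig_X_sub (Λ := Λ) G P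
  by_cases hram : tau P = P
  · -- ramified
    have hram' : tau (sig g P) = sig g P := by
      rcases P with _ | P
      · rw [sig_none]
        show some _ = some _
        apply congrArg some
        apply Subtype.ext
        apply Prod.ext
        · rfl
        · exact neg_zero
      · by_cases h : P.1.1 = 0
        · rw [eq_origin h, sig_origin]
          rfl
        · rw [sig_some h]
          show some _ = some _
          apply congrArg some
          apply Subtype.ext
          apply Prod.ext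
          · rfl
          · have h1 : (some (⟨(P.1.1, -P.1.2), _⟩ : APt (fh g))) = some P := hram
            have h2 := Option.some_injective _ h1
            have h3 : -P.1.2 = P.1.2 := congrArg (fun Q : APt (fh g) => Q.1.2) h2
            have h4 : P.1.2 = 0 := neg_eq_self.1 h3
            show - -(P.1.2 * (P.1.1⁻¹) ^ (g + 1)) = -(P.1.2 * (P.1.1⁻¹) ^ (g + 1))
            rw [h4]
            simp
    refine hw.uniq_ram hw' hX ?_ ?_ z hz
    · intro z
      rw [thHom_star, ← ordAt_tau G, hram']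
    · intro z
      rw [← ordAt_tau G, hram]
  · rcases P with _ | P
    · exact absurd rfl hram
    · have hb : P.1.2 ≠ 0 := by
        intro hb
        apply hram
        show some _ = some _
        apply congrArg some
        apply Subtype.ext
        apply Prod.ext
        · rfl
        · show -P.1.2 = P.1.2
          rw [hb, neg_zero]
      have ha : P.1.1 ≠ 0 := by
        intro ha
        apply hb
        rw [eq_origin ha]
        rfl
      set P' : APt (fh g) := ⟨(P.1.1⁻¹, -(P.1.2 * (P.1.1⁻¹) ^ (g + 1))), sig_proof ha P.2⟩ with hP'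
      have hsP : sig g (some P) = some P' := sig_some ha
      have hb' : P'.1.2 ≠ 0 :=
        neg_ne_zero.2 (mul_ne_zero hb (pow_ne_zero _ (inv_ne_zero ha)))
      have hv := isVal_ordAt (Λ := Λ) G.ne (some P')
      have hx : (emb X : KK (fh g)) ≠ 0 := emb_ne X_ne_zero
      have hx0 : ordAt Λ G.ne (some P') (emb X) = 0 := by
        apply ordAt_emb_zero G.ne P'
        rw [eval_X]
        exact inv_ne_zero ha
      have hxi : ordAt Λ G.ne (some P') ((emb X)⁻¹ ^ (g + 1)) = 0 := by
        have h1 : ∀ n : ℕ, ordAt Λ G.ne (some P') ((emb X)⁻¹ ^ n) = 0 := by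
          intro n
          induction n with
          | zero =>
            have := hv.const 1
            rw [map_one] at this
            rw [pow_zero, this]
          | succ n ih =>
            rw [pow_succ, hv.mul (pow_ne_zero n (inv_ne_zero hx)) (inv_ne_zero hx), ih, hv.inv hx,
              hx0]
            rfl
        exact h1 _
      refine hw.uniq_unram hw' hb (a := P.1.1) hX ?_ ?_ ?_ ?_ ?_ z hz
      · intro p hp h0
        exact ordAt_emb_pos G.ne hp P h0
      · show 0 ≤ ordAt Λ G.ne (sig g (some P)) (thHom g yy)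
        rw [hsP, thHom_yy, hv.neg, hv.mul yy_ne (pow_ne_zero _ (inv_ne_zero hx)), hxi, add_zero]
        exact ordAt_yy_nonneg G.ne P'
      · exact ordAt_yy_nonneg G.ne P
      · show 0 < ordAt Λ G.ne (sig g (some P)) (thHom g (yy - algebraMap ℂ (KK (fh g)) P.1.2))
        rw [hsP, map_sub, thHom_yy, AlgHom.commutes]
        -- `- y x^{-(g+1)} - b = - x^{-(g+1)} ((y - b') + (b' + b x^(g+1)))`
        have e : -(yy * ((emb X)⁻¹) ^ (g + 1)) - algebraMap ℂ (KK (fh g)) P.1.2 =
            -(((emb X)⁻¹) ^ (g + 1) * ((yy - algebraMap ℂ (KK (fh g)) P'.1.2) +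
              emb (C P'.1.2 + C P.1.2 * X ^ (g + 1)))) := by
          have e1 : (emb (C P'.1.2 + C P.1.2 * X ^ (g + 1)) : KK (fh g)) =
              algebraMap ℂ (KK (fh g)) P'.1.2 + algebraMap ℂ (KK (fh g)) P.1.2 *
                emb X ^ (g + 1) := by
            rw [emb_add, emb_mul, emb_C, emb_C]
            congr 2
            unfold emb
            rw [map_pow, map_pow]
          have e2 : ((emb X : KK (fh g))⁻¹) ^ (g + 1) * emb X ^ (g + 1) = 1 := by
            rw [← mul_pow, inv_mul_cancel₀ hx, one_pow]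
          rw [e1]
          linear_combination (algebraMap ℂ (KK (fh g)) P.1.2) * e2
        have h0 : thHom g (yy - algebraMap ℂ (KK (fh g)) P.1.2) ≠ 0 := by
          apply algHom_ne
          intro h
          have h5 := congrArg QuadraticAlgebra.im h
          have h6 : (1 : RatFunc ℂ) - 0 = 0 := h5
          rw [sub_zero] at h6
          exact one_ne_zero h6
        rw [map_sub, thHom_yy, AlgHom.commutes, e] at h0
        rw [e, hv.neg]
        have h1 := neg_ne_zero.1 h0
        rw [hv.mul (left_ne_zero_of_mul h1) (right_ne_zero_of_mul h1), hxi, zero_add]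
        have h2 := hv.pos_add (z := yy - algebraMap ℂ (KK (fh g)) P'.1.2)
          (z' := emb (C P'.1.2 + C P.1.2 * X ^ (g + 1))) (Or.inr (ordAt_yy_sub G.ne P' hb')) (by
            by_cases h3 : (C P'.1.2 + C P.1.2 * X ^ (g + 1) : ℂ[X]) = 0
            · left
              rw [h3, emb_zero]
            · right
              apply ordAt_emb_pos G.ne h3 P'
              rw [eval_add, eval_mul, eval_C, eval_C, eval_pow, eval_X]
              show -(P.1.2 * (P.1.1⁻¹) ^ (g + 1)) + P.1.2 * (P.1.1⁻¹) ^ (g + 1) = 0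
              ring)
        exact h2.resolve_left (right_ne_zero_of_mul h1)
      · exact ordAt_yy_sub G.ne P hb

end main

theorem exists_swap {α : Type} [Infinite α] {s : α → α} (hs : ∀ a, s (s a) = a)
    (hn : ∀ a, s a ≠ a) (m : ℕ) :
    ∃ S S' : Finset α, S.card = m ∧ S'.card = m ∧ Disjoint S S' ∧ ∀ a, a ∈ S ↔ s a ∈ S' := by
  classical
  have hinj : Function.Injective s := fun a b h => by rw [← hs a, h, hs b]
  have key : ∀ m : ℕ, ∃ S : Finset α, S.card = m ∧ Disjoint S (S.image s) := by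
    intro m
    induction m with
    | zero => exact ⟨∅, rfl, by simp⟩
    | succ m ih =>
      obtain ⟨S, hS, hd⟩ := ih
      obtain ⟨a, ha⟩ := Infinite.exists_notMem_finset (S ∪ S.image s)
      rw [Finset.mem_union, not_or] at ha
      refine ⟨insert a S, by rw [Finset.card_insert_of_notMem ha.1, hS], ?_⟩
      rw [Finset.image_insert, Finset.disjoint_insert_left, Finset.disjoint_insert_right]
      refine ⟨?_, ?_, hd⟩
      · rw [Finset.mem_insert, not_or]
        exact ⟨(hn a).symm, ha.2⟩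
      · intro h
        apply ha.2
        rw [Finset.mem_image]
        exact ⟨s a, h, hs a⟩
  obtain ⟨S, hS, hd⟩ := key m
  refine ⟨S, S.image s, hS, by rw [Finset.card_image_of_injective _ hinj, hS], hd, ?_⟩
  intro a
  rw [Finset.mem_image]
  constructor
  · intro h
    exact ⟨a, h, rfl⟩
  · rintro ⟨b, hb, hab⟩
    rw [← hinj hab]
    exact hb

/-- Existence of the data `(C, S, S')` with a fixed point free involution of the curve `C`
exchanging `S` and `S'`, for every even `t`. -/
theorem exists_datum_inv (t : ℕ) (ht : 0 < t) (hev : Even t) :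
    ∃ (K : Type) (_ : Field K) (_ : Algebra ℂ K) (T : Datum K) (θ : K ≃ₐ[ℂ] K)
      (σ : T.X.Pt → T.X.Pt), T.t = t ∧ (∀ z, θ (θ z) = z) ∧ (∀ P, σ (σ P) = P) ∧ (∀ P, σ P ≠ P) ∧
      (∀ P z, z ≠ 0 → T.X.ord (σ P) (θ z) = T.X.ord P z) ∧ (∀ P, P ∈ T.S ↔ σ P ∈ T.S') := by
  obtain ⟨F, _, _, ⟨Λ⟩⟩ := exists_LF
  have hg : 0 < 9 * t + 1 := by omega
  have ho : Odd (9 * t + 1) := by
    obtain ⟨m, hm⟩ := hev
    exact ⟨9 * m, by rw [hm]; ring⟩
  have G := good_fh hg
  haveI : NonSq (fh (9 * t + 1)) := G.nonSq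
  refine ⟨KK (fh (9 * t + 1)), inferInstance, inferInstance, ?_⟩
  haveI := infinite_pts (fh (9 * t + 1))
  obtain ⟨S, S', h1, h2, h3, h4⟩ := exists_swap (α := Pts (fh (9 * t + 1)))
    (s := sig (9 * t + 1)) sig_sig (sig_ne ho) (100 * t)
  exact ⟨
    { X := curve Λ G (natDegree_fh hg)
      t := t
      t_pos := ht
      genus_eq := rfl
      S := S
      S' := S'
      card_S := h1
      card_S' := h2
      disj := h3 }, thEquiv _, sig _, rfl, thHom_thHom, sig_sig, sig_ne ho,
      fun P z hz => ord_sig G P hz, h4⟩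

end

end Pool.Agent.YTD.Hyp
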