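import Pool.Agent.YTD.Fam3

/-!
Interior lattice points.
-/

namespace Pool.Agent.YTD

/-- the strict interior of the polytope at level `k`. -/
def Int3 (Q k : ℕ) (j a b : ℤ) : Prop :=
  |j| < 5 * Q * 2 ^ k ∧ 0 < a ∧ a < 25 * Q * 2 ^ k + 3 * j ∧ 0 < b ∧ b < 25 * Q * 2 ^ k - 3 * j

theorem Int3.toP3 {Q k : ℕ} {j a b : ℤ} (h : Int3 Q k j a b) : P3 Q k j a b :=
  ⟨h.1.le, h.2.1.le, h.2.2.1.le, h.2.2.2.1.le, h.2.2.2.2.le⟩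

end Pool.Agent.YTD
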