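import Pool.Agent.YTD.Envelope
import Pool.Agent.YTD.SuperAdd

namespace Pool.Agent.YTD

open Finset Module Filter

variable {K : Type} [Field K] [Algebra ℂ K]
variable {T : Datum K} {q : ℕ} {D₀ : T.X.Pt →₀ ℤ}

namespace Fam

/-- the gap: minus the sum of `gg` times second differences of the envelope. -/
noncomputable def gap {Q : ℕ} (F : Fam Q) (k : ℕ) : ℝ :=
  -∑ i ∈ range (2 * (5 * (Q * 2 ^ k)) - 1), gg ((Q * 2 ^ k : ℕ) : ℝ)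
      ((i : ℤ) + 1 - (5 * (Q * 2 ^ k) : ℕ) : ℤ) *
      (F.ψ k ((i : ℤ) + 2 - (5 * (Q * 2 ^ k) : ℕ)) -
        2 * F.ψ k ((i : ℤ) + 1 - (5 * (Q * 2 ^ k) : ℕ)) +
        F.ψ k ((i : ℤ) - (5 * (Q * 2 ^ k) : ℕ)))

theorem gap_term {Q : ℕ} (F : Fam Q) (k : ℕ) {i : ℕ} (hi : i ∈ range (2 * (5 * (Q * 2 ^ k)) - 1)) :
    0 ≤ gg ((Q * 2 ^ k : ℕ) : ℝ) ((i : ℤ) + 1 - (5 * (Q * 2 ^ k) : ℕ) : ℤ) ∧
    F.ψ k ((i : ℤ) + 2 - (5 * (Q * 2 ^ k) : ℕ)) -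
        2 * F.ψ k ((i : ℤ) + 1 - (5 * (Q * 2 ^ k) : ℕ)) +
        F.ψ k ((i : ℤ) - (5 * (Q * 2 ^ k) : ℕ)) ≤ 0 := by
  have h := mem_range.1 hi
  have e : (5 * (Q : ℤ) * 2 ^ k) = ((5 * (Q * 2 ^ k) : ℕ) : ℤ) := by push_cast; ring
  have hr : ∀ c : ℕ, c ≤ 2 → |(i : ℤ) + c - (5 * (Q * 2 ^ k) : ℕ)| ≤ 5 * Q * 2 ^ k := by
    intro c hc
    rw [e]
    generalize 5 * (Q * 2 ^ k) = M at *
    rw [abs_le]
    constructor <;> omega
  constructor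
  · apply gg_nonneg (by positivity)
    have h1 := hr 1 (by norm_num)
    have : |(((i : ℤ) + 1 - (5 * (Q * 2 ^ k) : ℕ) : ℤ) : ℝ)| ≤ 5 * Q * 2 ^ k := by exact_mod_cast h1
    push_cast at this ⊢
    linarith
  · have h0 := hr 0 (by norm_num)
    have h1 := hr 1 (by norm_num)
    have h2 := hr 2 (by norm_num)
    push_cast at h0 h1 h2
    rw [add_zero] at h0
    have := F.ψ_concave h2 h0 h1 (by ring)
    push_cast
    linarith

theorem gap_nonneg {Q : ℕ} (F : Fam Q) (k : ℕ) : 0 ≤ F.gap k := by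
  unfold gap
  rw [neg_nonneg]
  apply sum_nonpos
  intro i hi
  obtain ⟨h1, h2⟩ := F.gap_term k hi
  exact mul_nonpos_of_nonneg_of_nonpos h1 h2

/-- upper bound for `Lam` of the family in terms of the gap. -/
theorem lam_le {q : ℕ} (hq : 0 < q) (F : Fam (4 * q)) (k : ℕ) :
    12 * Lam q (2 ^ (k + 2)) (F.ν k) ≤ - F.gap k + 80000 * q * F.C * 4 ^ k +
      1032000 * (q : ℝ) ^ 2 * F.def_ k * 16 ^ k := by
  set N : ℕ := 2 ^ (k + 2) with hN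
  set Q : ℕ := 4 * q * 2 ^ k with hQ
  have hQpos : 0 < Q := by positivity
  have hqN : q * N = Q := by rw [hQ, hN, pow_add]; ring
  have hqNr : (q : ℝ) * N = Q := by exact_mod_cast hqN
  have hM : 5 * q * N = 5 * Q := by rw [← hqN]; ring
  have hMz : (5 * ((4 * q : ℕ) : ℤ) * 2 ^ k) = 5 * (Q : ℤ) := by rw [hQ]; push_cast; ring
  have e1 : Lam q N (F.ν k) = ∑ i ∈ range (2 * (5 * Q) + 1),
      Kr Q ((i : ℤ) - (5 * Q : ℕ) : ℤ) * F.ν k ((i : ℤ) - (5 * Q : ℕ)) +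
      1000 * (Q : ℝ) ^ 3 * (F.ν k (5 * Q) + F.ν k (-(5 * Q))) := by
    unfold Lam
    rw [hM, hqNr, ← sum_range_eq_Icc (5 * Q) (fun j => (81 * (j : ℝ) ^ 2 - 375 * (Q : ℝ) ^ 2 -
      5000 * Q * max 0 (|(j : ℝ)| - 4 * Q)) * F.ν k j)]
    push_cast
    rfl
  have hin : ∀ i ∈ range (2 * (5 * Q) + 1), |(i : ℤ) - (5 * Q : ℕ)| ≤ 5 * Q := by
    intro i hi
    have := mem_range.1 hi
    rw [abs_le]
    push_cast
    constructor <;> omega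
  have hin5 : |(5 * Q : ℤ)| ≤ 5 * ((4 * q : ℕ) : ℤ) * 2 ^ k := by
    rw [hMz, abs_of_nonneg (by positivity)]
  have hin5' : |-(5 * Q : ℤ)| ≤ 5 * ((4 * q : ℕ) : ℤ) * 2 ^ k := by
    rw [hMz, abs_neg, abs_of_nonneg (by positivity)]
  have h1 := concave_le Q hQpos (F.ψ k) (F.C * 2 ^ k)
    (fun j hj => F.ψ_nonneg (by rw [hMz]; exact hj)) (fun j hj => F.ψ_le (by rw [hMz]; exact hj))
  have h2 : ∑ i ∈ range (2 * (5 * Q) + 1), 12 * Kr Q ((i : ℤ) - (5 * Q : ℕ) : ℤ) *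
      F.ν k ((i : ℤ) - (5 * Q : ℕ)) ≤
      ∑ i ∈ range (2 * (5 * Q) + 1), 12 * Kr Q ((i : ℤ) - (5 * Q : ℕ) : ℤ) *
        F.ψ k ((i : ℤ) - (5 * Q : ℕ)) + 64500 * (Q : ℝ) ^ 2 * ∑ i ∈ range (2 * (5 * Q) + 1),
        (F.ψ k ((i : ℤ) - (5 * Q : ℕ)) - F.ν k ((i : ℤ) - (5 * Q : ℕ))) := by
    rw [mul_sum, ← sum_add_distrib]
    apply sum_le_sum
    intro i hi
    have hi' := hin i hi
    have h3 := F.ν_le_ψ (k := k) (j := (i : ℤ) - (5 * Q : ℕ)) (by rw [hMz]; exact hi')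
    have h4 : -(5375 * (Q : ℝ) ^ 2) ≤ Kr Q (((i : ℤ) - (5 * Q : ℕ) : ℤ) : ℝ) := by
      unfold Kr
      have h5 : |(((i : ℤ) - (5 * Q : ℕ) : ℤ) : ℝ)| ≤ 5 * Q := by exact_mod_cast hi'
      have h6 : max 0 (|(((i : ℤ) - (5 * Q : ℕ) : ℤ) : ℝ)| - 4 * (Q : ℝ)) ≤ Q := by
        apply max_le (by positivity)
        linarith
      have h7 : 5000 * (Q : ℝ) * max 0 (|(((i : ℤ) - (5 * Q : ℕ) : ℤ) : ℝ)| - 4 * (Q : ℝ)) ≤
          5000 * Q * Q := mul_le_mul_of_nonneg_left h6 (by positivity)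
      nlinarith [sq_nonneg ((((i : ℤ) - (5 * Q : ℕ) : ℤ) : ℝ))]
    nlinarith
  have h3 : ∑ i ∈ range (2 * (5 * Q) + 1),
      (F.ψ k ((i : ℤ) - (5 * Q : ℕ)) - F.ν k ((i : ℤ) - (5 * Q : ℕ))) ≤ F.def_ k * 4 ^ k := by
    have := F.sum_close (by positivity) k
    have e : 5 * (4 * q) * 2 ^ k = 5 * Q := by rw [hQ]; ring
    rw [e] at this
    exact this
  have h4 : 64500 * (Q : ℝ) ^ 2 * ∑ i ∈ range (2 * (5 * Q) + 1),
        (F.ψ k ((i : ℤ) - (5 * Q : ℕ)) - F.ν k ((i : ℤ) - (5 * Q : ℕ))) ≤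
      1032000 * (q : ℝ) ^ 2 * F.def_ k * 16 ^ k := by
    refine (mul_le_mul_of_nonneg_left h3 (by positivity)).trans (le_of_eq ?_)
    rw [hQ]
    push_cast
    rw [show (16 : ℝ) ^ k = 4 ^ k * 4 ^ k by rw [← mul_pow]; norm_num,
      show (4 * (q : ℝ) * 2 ^ k) ^ 2 = 16 * q ^ 2 * 4 ^ k by
        rw [mul_pow, mul_pow, ← pow_mul, mul_comm k 2, pow_mul]; norm_num]
    ring
  have h5 : F.gap k = -∑ i ∈ range (2 * (5 * Q) - 1), gg Q ((i : ℤ) + 1 - (5 * Q : ℕ) : ℤ) *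
      (F.ψ k ((i : ℤ) + 2 - (5 * Q : ℕ)) - 2 * F.ψ k ((i : ℤ) + 1 - (5 * Q : ℕ)) +
        F.ψ k ((i : ℤ) - (5 * Q : ℕ))) := rfl
  have h6 : 20000 * (Q : ℝ) * (F.C * 2 ^ k) = 80000 * q * F.C * 4 ^ k := by
    rw [hQ]
    push_cast
    rw [show (4 : ℝ) ^ k = 2 ^ k * 2 ^ k by rw [← mul_pow]; norm_num]
    ring
  have h7 : F.ν k (5 * Q) + F.ν k (-(5 * Q)) ≤ F.ψ k (5 * Q) + F.ψ k (-(5 * Q)) :=
    add_le_add (F.ν_le_ψ hin5) (F.ν_le_ψ hin5')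
  have h8 : 12000 * (Q : ℝ) ^ 3 * (F.ν k (5 * Q) + F.ν k (-(5 * Q))) ≤
      12000 * (Q : ℝ) ^ 3 * (F.ψ k (5 * Q) + F.ψ k (-(5 * Q))) :=
    mul_le_mul_of_nonneg_left h7 (by positivity)
  have h9 : 12 * ∑ i ∈ range (2 * (5 * Q) + 1),
      Kr Q ((i : ℤ) - (5 * Q : ℕ) : ℤ) * F.ν k ((i : ℤ) - (5 * Q : ℕ)) =
      ∑ i ∈ range (2 * (5 * Q) + 1), 12 * Kr Q ((i : ℤ) - (5 * Q : ℕ) : ℤ) *
      F.ν k ((i : ℤ) - (5 * Q : ℕ)) := by
    rw [mul_sum]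
    apply sum_congr rfl
    intro i _
    ring
  rw [e1, mul_add, h9, h5]
  linarith

end Fam

namespace Graded

variable (G : Graded T q D₀)
variable (hD : T.X.deg D₀ = 105 * T.t * q)

theorem four_le (k : ℕ) : 4 ≤ 2 ^ (k + 2) := by
  have : 1 ≤ 2 ^ k := Nat.one_le_two_pow
  rw [pow_add]
  omega

/-- the family of average lengths. -/
noncomputable def fam (hq : 0 < q) : Fam (4 * q) where
  ν := fun k => G.nb (2 ^ (k + 2))
  C := 4 * G.Λ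
  nonneg := by
    intro k j hj
    apply nb_nonneg
    push_cast at hj ⊢
    rw [pow_add]
    linarith
  le := by
    intro k j hj
    have : G.nb (2 ^ (k + 2)) j ≤ G.Λ * ((2 ^ (k + 2) : ℕ) : ℝ) := by
      apply nb_le
      push_cast at hj ⊢
      rw [pow_add]
      linarith
    have e : ((2 ^ (k + 2) : ℕ) : ℝ) = 4 * 2 ^ k := by push_cast; rw [pow_add]; ring
    rw [e] at this
    linarith
  add := by
    intro k j j' hj hj'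
    have := nb_add (G := G) hD hq (four_le k) (four_le k) (j := j) (j' := j')
      (by push_cast at hj ⊢; rw [pow_add]; linarith) (by push_cast at hj' ⊢; rw [pow_add]; linarith)
    rwa [← two_mul, ← pow_succ'] at this

theorem fam_ν (hq : 0 < q) (k : ℕ) : (G.fam hD hq).ν k = G.nb (2 ^ (k + 2)) := rfl

theorem fam_C (hq : 0 < q) : (G.fam hD hq).C = 4 * G.Λ := rfl

/-- sum of the vertical parts -/
noncomputable def ysum (k : ℕ) : ℝ :=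
  ∑ j ∈ Icc (-((5 * q * 2 ^ (k + 2) : ℕ) : ℤ)) ((5 * q * 2 ^ (k + 2) : ℕ) : ℤ),
    G.yb (2 ^ (k + 2)) j

include hD in
theorem ysum_nonneg (hq : 0 < q) (k : ℕ) : 0 ≤ G.ysum k :=
  sum_nonneg fun j hj => yb_nonneg hD hq (four_le k) (mem_Icc_iff.1 hj)

variable {G}

/-- the main inequality along powers of two. -/
theorem main_ineq (P₀ : T.X.Pt) (hq : 0 < q) {s₀ s₁ : ℝ} (hS : G.TotExp s₀ s₁) :
    ∃ err : ℕ → ℝ, Tendsto err atTop (nhds 0) ∧ ∀ᶠ k : ℕ in atTop,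
      3072 * s₁ * 16 ^ k + T.t * (G.fam hD hq).gap k + 2400 * q * 2 ^ k * G.ysum k ≤
        err k * 16 ^ k := by
  obtain ⟨C, hC⟩ := star hD P₀ hq hS
  have hZ := Z_tendsto (G := G) hD P₀ hq
  have hpow : Tendsto (fun k : ℕ => 2 ^ (k + 2)) atTop atTop :=
    (tendsto_pow_atTop_atTop_of_one_lt (by norm_num : 1 < 2)).comp (tendsto_add_atTop_nat 2)
  refine ⟨fun k => T.t * (320000 * q * G.Λ * (1 / 4) ^ k +
    1032000 * (q : ℝ) ^ 2 * (G.fam hD hq).def_ k) +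
    3072 * (18 * T.t + 1) * (G.Z (2 ^ (k + 2)) / 16 ^ (k + 2)) + 768 * C * (1 / 2) ^ k, ?_, ?_⟩
  · have t1 : Tendsto (fun k : ℕ => 320000 * (q : ℝ) * G.Λ * (1 / 4 : ℝ) ^ k) atTop
      (nhds (320000 * (q : ℝ) * G.Λ * 0)) :=
      (tendsto_pow_atTop_nhds_zero_of_lt_one (by norm_num) (by norm_num)).const_mul _
    have t2 : Tendsto (fun k : ℕ => 1032000 * (q : ℝ) ^ 2 * (G.fam hD hq).def_ k) atTop
      (nhds (1032000 * (q : ℝ) ^ 2 * 0)) := (G.fam hD hq).def_tendsto.const_mul _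
    have t3 : Tendsto (fun k : ℕ => 3072 * (18 * (T.t : ℝ) + 1) *
      (G.Z (2 ^ (k + 2)) / 16 ^ (k + 2))) atTop (nhds (3072 * (18 * (T.t : ℝ) + 1) * 0)) :=
      ((tendsto_add_atTop_iff_nat 2).2 hZ).const_mul _
    have t4 : Tendsto (fun k : ℕ => 768 * C * (1 / 2 : ℝ) ^ k) atTop (nhds (768 * C * 0)) :=
      (tendsto_pow_atTop_nhds_zero_of_lt_one (by norm_num) (by norm_num)).const_mul _
    have := (((t1.add t2).const_mul (T.t : ℝ)).add t3).add t4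
    simp only [mul_zero, add_zero] at this
    exact this
  · filter_upwards [hpow.eventually hC] with k hk
    have h1 := (G.fam hD hq).lam_le hq k
    rw [fam_ν, fam_C] at h1
    have e1 : ((2 ^ (k + 2) : ℕ) : ℝ) = 4 * 2 ^ k := by push_cast; rw [pow_add]; ring
    rw [e1] at hk
    have e16 : (16 : ℝ) ^ (k + 2) = 256 * 16 ^ k := by rw [pow_add]; ring
    have p16 : (0 : ℝ) < 16 ^ k := by positivity
    have e2 : (4 * (2 : ℝ) ^ k) ^ 4 = 256 * 16 ^ k := by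
      rw [mul_pow, ← pow_mul, mul_comm k 4, pow_mul]; norm_num
    have e3 : (4 * (2 : ℝ) ^ k) ^ 3 = 64 * ((1 / 2) ^ k * 16 ^ k) := by
      rw [← mul_pow, mul_pow, ← pow_mul, mul_comm k 3, pow_mul]
      norm_num
    have e4 : (4 : ℝ) ^ k = (1 / 4) ^ k * 16 ^ k := by rw [← mul_pow]; norm_num
    rw [e2, e3] at hk
    rw [e4] at h1
    have e5 : (G.Z (2 ^ (k + 2)) / 16 ^ (k + 2)) * (256 * 16 ^ k) = G.Z (2 ^ (k + 2)) := by
      rw [e16]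
      field_simp
    have ht : (0 : ℝ) ≤ T.t := by positivity
    have h2 := mul_le_mul_of_nonneg_left h1 ht
    have h3 : G.ysum k = ∑ j ∈ Icc (-((5 * q * 2 ^ (k + 2) : ℕ) : ℤ))
      ((5 * q * 2 ^ (k + 2) : ℕ) : ℤ), G.yb (2 ^ (k + 2)) j := rfl
    rw [← h3] at hk
    have e6 : (T.t * (320000 * q * G.Λ * (1 / 4) ^ k +
      1032000 * (q : ℝ) ^ 2 * (G.fam hD hq).def_ k) +
      3072 * (18 * T.t + 1) * (G.Z (2 ^ (k + 2)) / 16 ^ (k + 2)) + 768 * C * (1 / 2) ^ k) * 16 ^ k =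
      T.t * (320000 * q * G.Λ * ((1 / 4) ^ k * 16 ^ k) +
      1032000 * (q : ℝ) ^ 2 * (G.fam hD hq).def_ k * 16 ^ k) +
      12 * (18 * T.t + 1) * ((G.Z (2 ^ (k + 2)) / 16 ^ (k + 2)) * (256 * 16 ^ k)) +
      768 * C * ((1 / 2) ^ k * 16 ^ k) := by ring
    rw [e6, e5]
    nlinarith

/-- the Futaki invariant is non-negative. -/
theorem s₁_nonpos (P₀ : T.X.Pt) (hD : T.X.deg D₀ = 105 * T.t * q) (hq : 0 < q) {s₀ s₁ : ℝ}
    (hS : G.TotExp s₀ s₁) : s₁ ≤ 0 := by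
  obtain ⟨err, h1, h2⟩ := main_ineq (G := G) hD P₀ hq hS
  have h3 : ∀ᶠ k : ℕ in atTop, 3072 * s₁ ≤ err k := by
    filter_upwards [h2] with k hk
    have p16 : (0 : ℝ) < 16 ^ k := by positivity
    have g1 := (G.fam hD hq).gap_nonneg k
    have g2 := G.ysum_nonneg hD hq k
    have g3 : (0 : ℝ) ≤ T.t * (G.fam hD hq).gap k := by positivity
    have g4 : (0 : ℝ) ≤ 2400 * q * 2 ^ k * G.ysum k := by positivity
    have h4 : (3072 * s₁) * 16 ^ k ≤ err k * 16 ^ k := by linarith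
    exact le_of_mul_le_mul_right h4 p16
  have := ge_of_tendsto h1 h3
  linarith

end Graded

end Pool.Agent.YTD
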