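import Pool.Agent.YTD.Bridge
import Pool.Agent.YTD.Semi
import Pool.Agent.YTD.UnstFut

/-!
K-semistability at the critical slope, for all filtrations.
-/

namespace Pool.Agent.YTD

open Finset Module MvPolynomial Filter

theorem poly_zero {α β C : ℝ} (h : ∀ᶠ N : ℕ in atTop, |α * (N : ℝ) ^ 4 + β * N ^ 3| ≤ C * N ^ 2) :
    α = 0 ∧ β = 0 := by
  have hinv : Tendsto (fun N : ℕ => (1 : ℝ) / N) atTop (nhds 0) := tendsto_one_div_atTop_nhds_zero_nat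
  have h1 : ∀ᶠ N : ℕ in atTop, |α + β * (1 / (N : ℝ))| ≤ C * (1 / N) ^ 2 := by
    filter_upwards [h, eventually_gt_atTop 0] with N hN h0
    have hp : (0 : ℝ) < N := by exact_mod_cast h0
    have e : α * (N : ℝ) ^ 4 + β * N ^ 3 = N ^ 4 * (α + β * (1 / (N : ℝ))) := by
      field_simp
    rw [e, abs_mul, abs_of_pos (by positivity)] at hN
    have e2 : C * (N : ℝ) ^ 2 = N ^ 4 * (C * (1 / N) ^ 2) := by
      field_simp
    rw [e2] at hN
    exact le_of_mul_le_mul_left hN (by positivity)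
  have h2 : Tendsto (fun N : ℕ => |α + β * (1 / (N : ℝ))|) atTop (nhds |α + β * 0|) :=
    ((hinv.const_mul β).const_add α).abs
  have h3 : Tendsto (fun N : ℕ => C * (1 / (N : ℝ)) ^ 2) atTop (nhds (C * 0 ^ 2)) :=
    (hinv.pow 2).const_mul C
  have h4 := le_of_tendsto_of_tendsto h2 h3 h1
  have hα : α = 0 := by
    have : |α| ≤ 0 := by simpa using h4
    exact abs_nonpos_iff.1 this
  refine ⟨hα, ?_⟩
  subst hα
  have h5 : ∀ᶠ N : ℕ in atTop, |β| ≤ C * (1 / (N : ℝ)) := by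
    filter_upwards [h1, eventually_gt_atTop 0] with N hN h0
    have hp : (0 : ℝ) < N := by exact_mod_cast h0
    rw [zero_add, abs_mul, abs_of_pos (by positivity : (0 : ℝ) < 1 / N)] at hN
    have e : C * (1 / (N : ℝ)) ^ 2 = C * (1 / N) * (1 / N) := by ring
    rw [e] at hN
    exact le_of_mul_le_mul_right hN (by positivity)
  have h6 := le_of_tendsto_of_tendsto tendsto_const_nhds (hinv.const_mul C) h5
  rw [mul_zero] at h6
  exact abs_nonpos_iff.1 h6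

variable {K : Type} [Field K] [Algebra ℂ K]
variable {T : Datum K} {q : ℕ} {D₀ : T.X.Pt →₀ ℤ} {r : ℕ}

namespace Filt

variable (χ : Filt T q D₀ r)

theorem dim_coeffs (hr : 0 < r) (hq : 0 < q) (hD : T.X.deg D₀ = 105 * T.t * q)
    {a₀ a₁ b₀ b₁ c₀ : ℝ} (h : χ.Expansion a₀ a₁ b₀ b₁ c₀) :
    a₀ = 534650 * T.t * ((r : ℝ) * q) ^ 4 ∧ a₁ = 0 := by
  have ht := T.t_pos
  obtain ⟨C, hC⟩ := h.1
  have hlt : 100 * (T.t : ℤ) * q < T.X.deg D₀ := by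
    rw [hD]
    have h1 : (1 : ℤ) ≤ T.t := by exact_mod_cast ht
    have h2 : (1 : ℤ) ≤ q := by exact_mod_cast hq
    nlinarith
  set A : ℝ := 534650 * T.t * ((r : ℝ) * q) ^ 4 with hA
  have key : ∀ᶠ N : ℕ in atTop, |(A - a₀) * (N : ℝ) ^ 4 + (0 - a₁) * N ^ 3| ≤
      (C + (5625 * T.t * (q : ℝ) ^ 2 * r ^ 2 + 400 * T.t * q * r + 9 * T.t)) * N ^ 2 := by
    filter_upwards [hC, eventually_ge_atTop (18 * T.t + 1)] with N h1 h2
    have hN1 : (1 : ℝ) ≤ N := by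
      have : 1 ≤ N := by omega
      exact_mod_cast this
    have h3 : 18 * T.t + 1 ≤ r * N := h2.trans (Nat.le_mul_of_pos_left N hr)
    have h4 := finrank_sec (T := T) (large_of_lt hlt h3)
    have e : ((T.X.deg D₀ : ℤ) : ℝ) = 105 * T.t * q := by rw [hD]; push_cast; ring
    have h5 : χ.dimN N = A * N ^ 4 + (-(5625 : ℝ) * q ^ 2 * T.t * r ^ 2 * N ^ 2 +
        (-400) * q * T.t * r * N + -(9 * T.t)) := by
      unfold dimN
      rw [h4, e, hA]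
      unfold ca0 ca1
      push_cast
      ring
    rw [h5] at h1
    have h6 : (A - a₀) * (N : ℝ) ^ 4 + (0 - a₁) * N ^ 3 =
      (A * N ^ 4 + (-(5625 : ℝ) * q ^ 2 * T.t * r ^ 2 * N ^ 2 +
        (-400) * q * T.t * r * N + -(9 * T.t)) - (a₀ * N ^ 4 + a₁ * N ^ 3)) +
      (5625 * q ^ 2 * T.t * r ^ 2 * N ^ 2 + 400 * q * T.t * r * N + 9 * T.t) := by ring
    rw [h6]
    refine (abs_add_le _ _).trans ?_
    have h7 : (0 : ℝ) ≤ 5625 * q ^ 2 * T.t * r ^ 2 * N ^ 2 + 400 * q * T.t * r * N + 9 * T.t := by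
      positivity
    rw [abs_of_nonneg h7]
    have hN2 : (N : ℝ) ≤ N ^ 2 := by nlinarith
    have hN3 : (1 : ℝ) ≤ N ^ 2 := by nlinarith
    have h8 : 400 * (q : ℝ) * T.t * r * N ≤ 400 * q * T.t * r * N ^ 2 :=
      mul_le_mul_of_nonneg_left hN2 (by positivity)
    have h9 : 9 * (T.t : ℝ) ≤ 9 * T.t * N ^ 2 := by
      have : (0 : ℝ) ≤ 9 * T.t := by positivity
      nlinarith
    nlinarith
  obtain ⟨h1, h2⟩ := poly_zero key
  exact ⟨by linarith, by linarith⟩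

theorem totExp (P₀ : T.X.Pt) {a₀ a₁ b₀ b₁ c₀ : ℝ} (h : χ.Expansion a₀ a₁ b₀ b₁ c₀) :
    χ.graded.TotExp (b₀ + χ.lam * a₀) (b₁ + χ.lam * a₁) := by
  obtain ⟨C, hC⟩ := h.1
  obtain ⟨C', hC'⟩ := h.2.1
  refine ⟨C' + χ.lam * C, ?_⟩
  filter_upwards [hC, hC'] with N h1 h2
  have h3 := χ.tr_one P₀ N
  have h4 : χ.graded.tot N - ((b₀ + χ.lam * a₀) * (N : ℝ) ^ 5 + (b₁ + χ.lam * a₁) * N ^ 4) =
      (χ.tr 1 N - (b₀ * N ^ 5 + b₁ * N ^ 4)) +
      χ.lam * N * (χ.dimN N - (a₀ * N ^ 4 + a₁ * N ^ 3)) := by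
    rw [h3]
    ring
  rw [h4]
  refine (abs_add_le _ _).trans ?_
  rw [abs_mul (χ.lam * (N : ℝ)), abs_of_nonneg (by positivity : (0 : ℝ) ≤ χ.lam * N)]
  have h5 : (χ.lam : ℝ) * N * |χ.dimN N - (a₀ * N ^ 4 + a₁ * N ^ 3)| ≤
      χ.lam * N * (C * N ^ 2) := mul_le_mul_of_nonneg_left h1 (by positivity)
  nlinarith

theorem deg_smul (hD : T.X.deg D₀ = 105 * T.t * q) :
    T.X.deg (r • D₀) = 105 * T.t * ((r * q : ℕ) : ℤ) := by
  rw [T.X.deg_nsmul, hD]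
  push_cast
  ring

/-- K-semistability: the Futaki invariant of every filtration is non-negative. -/
theorem fut_nonneg (hr : 0 < r) (hq : 0 < q) (hD : T.X.deg D₀ = 105 * T.t * q)
    {Fut : ℝ} (h : χ.HasFutaki Fut) : 0 ≤ Fut := by
  obtain ⟨a₀, a₁, b₀, b₁, c₀, hE, rfl⟩ := h
  obtain ⟨P₀⟩ := T.exists_pt
  obtain ⟨ha₀, ha₁⟩ := χ.dim_coeffs hr hq hD hE
  have h1 := χ.totExp P₀ hE
  rw [ha₁, mul_zero, add_zero] at h1
  have h2 := Graded.s₁_nonpos P₀ (deg_smul (r := r) hD) (Nat.mul_pos hr hq) h1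
  have h3 : 0 ≤ a₀ := by
    rw [ha₀]
    positivity
  rw [ha₁]
  apply div_nonneg _ (sq_nonneg _)
  nlinarith

end Filt

end Pool.Agent.YTD
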