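import Pool.Agent.YTD.RigidDef

/-!
The leading exponents of the `K`-linear combinations of the elements of a rigid filtration.
-/

namespace Pool.Agent.YTD

open Finset Module MvPolynomial Filter

variable {K : Type} [Field K] [Algebra ℂ K]
variable {T : Datum K} {q : ℕ} {D₀ : T.X.Pt →₀ ℤ} {r : ℕ}

theorem ini_le_V (m : MonomialOrder (Fin 4)) {N : ℕ} {U : Submodule ℂ (MvPolynomial (Fin 4) K)}
    (hU : U ≤ T.sec q D₀ N) {j : ℤ} {a b : ℕ} (h : InR q N j a b) :
    ini m U (expo q N j a b) ≤ T.V q D₀ N j := by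
  rw [← T.ini_sec m h]
  exact ini_mono hU _

/-- existence of a multiplier into a subspace of small codimension. -/
theorem exists_multiplier {Z : Submodule ℂ K} {R S U : Submodule ℂ (MvPolynomial (Fin 4) K)}
    [FiniteDimensional ℂ Z] [FiniteDimensional ℂ S] [FiniteDimensional ℂ R]
    (hUS : U ≤ S) (hmul : ∀ z ∈ Z, ∀ u ∈ R, C z * u ∈ S)
    (hdim : finrank ℂ Z * (finrank ℂ S - finrank ℂ U) < finrank ℂ R) :
    ∃ u ∈ R, u ≠ 0 ∧ ∀ z ∈ Z, C z * u ∈ U := by
  classical
  -- the multiplication map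
  let B := Module.finBasis ℂ Z
  let US : Submodule ℂ S := U.submoduleOf S
  let μ : Fin (finrank ℂ Z) → (R →ₗ[ℂ] S) := fun i =>
    { toFun := fun u => ⟨C (B i : K) * (u : MvPolynomial (Fin 4) K), hmul _ (B i).2 _ u.2⟩
      map_add' := by
        intro u v
        apply Subtype.ext
        simp [mul_add]
      map_smul' := by
        intro c u
        apply Subtype.ext
        simp }
  let φ : R →ₗ[ℂ] (Fin (finrank ℂ Z) → (S ⧸ US)) := LinearMap.pi fun i => US.mkQ.comp (μ i)
  have hker : LinearMap.ker φ ≠ ⊥ := by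
    apply LinearMap.ker_ne_bot_of_finrank_lt
    rw [Module.finrank_pi_fintype, Finset.sum_const, Finset.card_univ, Fintype.card_fin,
      smul_eq_mul]
    refine lt_of_le_of_lt ?_ hdim
    apply Nat.mul_le_mul_left
    have h1 := Submodule.finrank_quotient_add_finrank US
    have h2 : finrank ℂ US = finrank ℂ U :=
      LinearEquiv.finrank_eq (Submodule.submoduleOfEquivOfLe hUS)
    omega
  obtain ⟨u, hu, hu0⟩ := Submodule.exists_mem_ne_zero_of_ne_bot hker
  refine ⟨u, u.2, fun h => hu0 (Subtype.ext h), ?_⟩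
  have h1 : ∀ i, C (B i : K) * (u : MvPolynomial (Fin 4) K) ∈ U := by
    intro i
    have h2 : φ u i = 0 := by
      rw [LinearMap.mem_ker.1 hu]
      rfl
    have h3 : US.mkQ (μ i u) = 0 := h2
    rw [Submodule.mkQ_apply, Submodule.Quotient.mk_eq_zero] at h3
    exact h3
  intro z hz
  have h2 : (⟨z, hz⟩ : Z) ∈ Submodule.span ℂ (Set.range B) := by
    rw [B.span_eq]
    trivial
  have h3 : ∀ w : Z, w ∈ Submodule.span ℂ (Set.range B) →
      C (w : K) * (u : MvPolynomial (Fin 4) K) ∈ U := by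
    intro w hw
    induction hw using Submodule.span_induction with
    | mem x hx =>
      obtain ⟨i, rfl⟩ := hx
      exact h1 i
    | zero =>
      simp
    | add x y _ _ hx hy =>
      rw [Submodule.coe_add, map_add, add_mul]
      exact add_mem hx hy
    | smul c x _ hx =>
      have : C ((c • x : Z) : K) * (u : MvPolynomial (Fin 4) K) =
          c • (C (x : K) * (u : MvPolynomial (Fin 4) K)) := by
        rw [Submodule.coe_smul, Algebra.smul_def, Algebra.smul_def, map_mul, mul_assoc]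
        rfl
      rw [this]
      exact Submodule.smul_mem _ _ hx
  exact h3 ⟨z, hz⟩ h2

namespace Filt

variable (χ : Filt T q D₀ r)

theorem one_mem : (1 : MvPolynomial (Fin 4) K) ∈ χ.F 0 0 := by
  classical
  have h := (χ.lam_spec 0).1
  have e : (-(χ.lam * ((0 : ℕ) : ℤ)) : ℤ) = 0 := by simp
  rw [e] at h
  rw [h]
  intro e he
  have h1 : e = 0 := by
    by_contra h1
    apply he
    rw [← C_1, coeff_C, if_neg (Ne.symm h1)]
  subst h1
  refine ⟨0, by simp, by simp, by simp, ?_⟩
  rw [← C_1, coeff_C, if_pos rfl]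
  intro _ P
  rw [CurveOrd.ord_one]
  have : T.dvs q D₀ (r * 0) 0 = 0 := by
    unfold Datum.dvs
    simp
  rw [this]
  simp

/-- powers of a `K`-linear combination of elements of `F N l`. -/
theorem pow_mem_span {N : ℕ} {l : ℤ} {f : MvPolynomial (Fin 4) K} {E : T.X.Pt →₀ ℤ}
    (hf : f ∈ Submodule.span ℂ {h | ∃ z ∈ T.X.L E, ∃ g ∈ χ.F N l, h = C z * g}) (k : ℕ) :
    f ^ k ∈ Submodule.span ℂ {h | ∃ z ∈ T.X.L (k • E), ∃ g ∈ χ.F (k * N) (k * l), h = C z * g} := by
  induction k with
  | zero =>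
    apply Submodule.subset_span
    refine ⟨1, ?_, 1, ?_, by simp⟩
    · intro _ P
      rw [CurveOrd.ord_one]
      simp
    · have e1 : 0 * N = 0 := by simp
      have e2 : ((0 : ℕ) : ℤ) * l = 0 := by simp
      rw [e1, e2]
      exact χ.one_mem
  | succ k ih =>
    rw [pow_succ]
    have h1 := Submodule.mul_mem_mul ih hf
    rw [Submodule.span_mul_span] at h1
    refine Submodule.span_mono ?_ h1
    rintro _ ⟨_, ⟨z, hz, g, hg, rfl⟩, _, ⟨z', hz', g', hg', rfl⟩, rfl⟩
    refine ⟨z * z', ?_, g * g', ?_, ?_⟩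
    · rw [succ_nsmul]
      exact T.X.mul_mem_L hz hz'
    · have := χ.mul _ _ _ _ g hg g' hg'
      have e1 : (k + 1) * N = k * N + N := by ring
      have e2 : ((k + 1 : ℕ) : ℤ) * l = k * l + l := by push_cast; ring
      rw [e1, e2]
      exact this
    · simp only [map_mul]
      ring

/-- a `K`-linear combination of elements of `F N l`, with coefficients in a space `L(E)`. -/
theorem exists_div {N : ℕ} {l : ℤ} {f : MvPolynomial (Fin 4) K}
    (hf : f ∈ Submodule.span K (χ.F N l : Set (MvPolynomial (Fin 4) K))) :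
    ∃ E : T.X.Pt →₀ ℤ, (∀ P, 0 ≤ E P) ∧
      f ∈ Submodule.span ℂ {h | ∃ z ∈ T.X.L E, ∃ g ∈ χ.F N l, h = C z * g} := by
  classical
  induction hf using Submodule.span_induction with
  | mem x hx =>
    refine ⟨0, by simp, Submodule.subset_span ⟨1, ?_, x, hx, by simp⟩⟩
    intro _ P
    rw [CurveOrd.ord_one]
    simp
  | zero => exact ⟨0, by simp, zero_mem _⟩
  | add x y _ _ hx hy =>
    obtain ⟨E, hE, hx⟩ := hx
    obtain ⟨E', hE', hy⟩ := hy
    refine ⟨E + E', fun P => by rw [Finsupp.add_apply]; exact add_nonneg (hE P) (hE' P), ?_⟩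
    apply add_mem
    · refine Submodule.span_mono ?_ hx
      rintro _ ⟨z, hz, g, hg, rfl⟩
      exact ⟨z, T.X.L_mono (fun P => by rw [Finsupp.add_apply]; linarith [hE' P]) hz, g, hg, rfl⟩
    · refine Submodule.span_mono ?_ hy
      rintro _ ⟨z, hz, g, hg, rfl⟩
      exact ⟨z, T.X.L_mono (fun P => by rw [Finsupp.add_apply]; linarith [hE P]) hz, g, hg, rfl⟩
  | smul c x _ hx =>
    obtain ⟨E, hE, hx⟩ := hx
    by_cases hc : c = 0
    · subst hc
      refine ⟨0, by simp, ?_⟩
      rw [zero_smul]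
      exact zero_mem _
    -- a divisor allowing `c`
    let E' : T.X.Pt →₀ ℤ := (T.X.dv c).mapRange (fun n => max 0 (-n)) (by simp)
    have hE'0 : ∀ P, 0 ≤ E' P := by
      intro P
      rw [Finsupp.mapRange_apply]
      exact le_max_left _ _
    have hcE' : c ∈ T.X.L E' := by
      intro _ P
      rw [Finsupp.mapRange_apply, T.X.dv_apply hc]
      have := le_max_right 0 (-T.X.ord P c)
      linarith
    refine ⟨E' + E, fun P => by rw [Finsupp.add_apply]; exact add_nonneg (hE'0 P) (hE P), ?_⟩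
    have h1 : ∀ y, y ∈ Submodule.span ℂ {h | ∃ z ∈ T.X.L E, ∃ g ∈ χ.F N l, h = C z * g} →
        c • y ∈ Submodule.span ℂ {h | ∃ z ∈ T.X.L (E' + E), ∃ g ∈ χ.F N l, h = C z * g} := by
      intro y hy
      induction hy using Submodule.span_induction with
      | mem y hy =>
        obtain ⟨z, hz, g, hg, rfl⟩ := hy
        apply Submodule.subset_span
        refine ⟨c * z, T.X.mul_mem_L hcE' hz, g, hg, ?_⟩
        rw [smul_eq_C_mul, map_mul, mul_assoc]
      | zero =>
        rw [smul_zero]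
        exact zero_mem _
      | add y y' _ _ hy hy' =>
        rw [smul_add]
        exact add_mem hy hy'
      | smul d y _ hy =>
        rw [smul_comm]
        exact Submodule.smul_mem _ _ hy
    exact h1 x hx

end Filt

end Pool.Agent.YTD
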