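import Pool.Agent.YTD.KSpan

namespace Pool.Agent.YTD

open Finset Module MvPolynomial Filter

variable {K : Type} [Field K] [Algebra ℂ K]
variable {T : Datum K} {q : ℕ} {D₀ : T.X.Pt →₀ ℤ} {r : ℕ}

namespace Filt

variable (χ : Filt T q D₀ r)

theorem F_le (N : ℕ) (l : ℤ) : χ.F N l ≤ T.sec (r * q) (r • D₀) N := by
  rw [T.sec_mul]
  exact χ.le N l

theorem F_eq_sec {N : ℕ} {l : ℤ} (h : l ≤ -(χ.lam * N)) :
    χ.F N l = T.sec (r * q) (r • D₀) N := by
  rw [χ.F_of_le h, T.sec_mul]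

theorem ini_le (m : MonomialOrder (Fin 4)) {N : ℕ} {l : ℤ} {j : ℤ} {a b : ℕ}
    (h : InR (r * q) N j a b) :
    ini m (χ.F N l) (expo (r * q) N j a b) ≤ T.V (r * q) (r • D₀) N j :=
  YTD.ini_le_V m (χ.F_le N l) h

theorem codim_nonneg (P₀ : T.X.Pt) (m : MonomialOrder (Fin 4)) {N : ℕ} (l : ℤ) {j : ℤ} {a b : ℕ}
    (h : InR (r * q) N j a b) : (0 : ℝ) ≤ (finrank ℂ (T.V (r * q) (r • D₀) N j) : ℝ) -
      finrank ℂ (ini m (χ.F N l) (expo (r * q) N j a b)) := by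
  have : FiniteDimensional ℂ (T.V (r * q) (r • D₀) N j) := T.X.finite_L P₀ _
  have h1 := Submodule.finrank_mono (χ.ini_le m (l := l) h)
  have h2 : (finrank ℂ (ini m (χ.F N l) (expo (r * q) N j a b)) : ℝ) ≤
    finrank ℂ (T.V (r * q) (r • D₀) N j) := by exact_mod_cast h1
  linarith

theorem codim_anti (P₀ : T.X.Pt) (m : MonomialOrder (Fin 4)) {N : ℕ} {l l' : ℤ} (hl : l ≤ l')
    {j : ℤ} {a b : ℕ} (h : InR (r * q) N j a b) :
    (finrank ℂ (ini m (χ.F N l') (expo (r * q) N j a b)) : ℝ) ≤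
      finrank ℂ (ini m (χ.F N l) (expo (r * q) N j a b)) := by
  have : FiniteDimensional ℂ (T.V (r * q) (r • D₀) N j) := T.X.finite_L P₀ _
  have : FiniteDimensional ℂ (ini m (χ.F N l) (expo (r * q) N j a b)) :=
    Submodule.finiteDimensional_of_le (χ.ini_le m h)
  exact_mod_cast Submodule.finrank_mono (ini_mono (χ.anti N l l' hl) _)

variable {χ}

theorem Rigid.codim_le {m : MonomialOrder (Fin 4)} {al be ga de : ℤ}
    (hR : χ.Rigid m al be ga de) (P₀ : T.X.Pt) : ∃ C : ℝ, 0 ≤ C ∧ ∀ (M : ℕ) (l' : ℤ) (h : ℕ), 4 ≤ M →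
      (∀ j a b, InR (r * q) M j a b → l' + h ≤ lw al be ga de M j a b) →
      (h : ℝ) * ((finrank ℂ (T.sec (r * q) (r • D₀) M) : ℝ) - finrank ℂ (χ.F M l')) ≤
        C * (M : ℝ) ^ 3 := by
  obtain ⟨C, hC⟩ := hR.full
  refine ⟨max C 0, le_max_right _ _, ?_⟩
  intro M l' h hM hl'
  have hM3 : (0 : ℝ) ≤ (M : ℝ) ^ 3 := by positivity
  have hCC : C * (M : ℝ) ^ 3 ≤ max C 0 * (M : ℝ) ^ 3 :=
    mul_le_mul_of_nonneg_right (le_max_left _ _) hM3
  by_cases hcase : l' ≤ -(χ.lam * M)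
  · rw [χ.F_eq_sec hcase, sub_self, mul_zero]
    exact mul_nonneg (le_max_right _ _) hM3
  push Not at hcase
  refine le_trans ?_ ((hC M hM).trans hCC)
  rw [T.finrank_eq_sum P₀ m (le_refl (T.sec (r * q) (r • D₀) M)),
    T.finrank_eq_sum P₀ m (χ.F_le M l'), ← sum_sub_distrib, mul_sum]
  apply sum_le_sum
  intro j hj
  rw [← sum_sub_distrib, mul_sum]
  apply sum_le_sum
  intro a ha
  rw [← sum_sub_distrib, mul_sum]
  apply sum_le_sum
  intro b hb
  have hin : InR (r * q) M j a b := (inR_iff (mem_Icc_iff'.1 hj)).2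
    ⟨Nat.lt_succ_iff.1 (mem_range.1 ha), Nat.lt_succ_iff.1 (mem_range.1 hb)⟩
  rw [T.ini_sec m hin]
  have h1 := hl' j a b hin
  have hsub : Ioc l' (l' + h) ⊆ Ioc (-((χ.lam : ℤ) * M)) (lw al be ga de M j a b) := by
    intro x hx
    rw [mem_Ioc] at hx ⊢
    exact ⟨by linarith, by linarith⟩
  refine le_trans ?_ (sum_le_sum_of_subset_of_nonneg hsub
    (fun l _ _ => χ.codim_nonneg P₀ m l hin))
  have h2 : ∑ _l ∈ Ioc l' (l' + h), ((finrank ℂ (T.V (r * q) (r • D₀) M j) : ℝ) -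
      finrank ℂ (ini m (χ.F M l') (expo (r * q) M j a b))) = (h : ℝ) *
      ((finrank ℂ (T.V (r * q) (r • D₀) M j) : ℝ) -
        finrank ℂ (ini m (χ.F M l') (expo (r * q) M j a b))) := by
    rw [sum_const, Int.card_Ioc, nsmul_eq_mul]
    congr 1
    have : (l' + h - l').toNat = h := by simp
    rw [this]
  rw [← h2]
  apply sum_le_sum
  intro l hl
  have := χ.codim_anti P₀ m (mem_Ioc.1 hl).1.le hin
  linarith

end Filt

/-! ### the space of candidates for the multiplier -/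

section cand

/-- polynomials with coefficients in `L(E)` and exponents in a small box, times a monomial. -/
noncomputable def candMap (Q s : ℕ) (e₁ : Fin 4 →₀ ℕ) (W : Submodule ℂ K) :
    (Fin s × Fin s × Fin s → W) →ₗ[ℂ] MvPolynomial (Fin 4) K where
  toFun c := ∑ p : Fin s × Fin s × Fin s,
    monomial (e₁ + expo Q s ((p.1 : ℕ) : ℤ) (p.2.1 : ℕ) (p.2.2 : ℕ)) (c p : K)
  map_add' c c' := by
    rw [← sum_add_distrib]
    apply sum_congr rfl
    intro p _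
    rw [Pi.add_apply, Submodule.coe_add, map_add]
  map_smul' x c := by
    rw [RingHom.id_apply, smul_sum]
    apply sum_congr rfl
    intro p _
    rw [Pi.smul_apply, Submodule.coe_smul, smul_monomial]

theorem expo_box_injective {Q s : ℕ} (hQ : 0 < Q) (e₁ : Fin 4 →₀ ℕ)
    {p p' : Fin s × Fin s × Fin s}
    (h : e₁ + expo Q s ((p.1 : ℕ) : ℤ) (p.2.1 : ℕ) (p.2.2 : ℕ) =
      e₁ + expo Q s ((p'.1 : ℕ) : ℤ) (p'.2.1 : ℕ) (p'.2.2 : ℕ)) : p = p' := by
  have h := add_left_cancel h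
  have h1 : ((p.2.1 : ℕ)) = (p'.2.1 : ℕ) := by
    have := DFunLike.congr_fun h 1
    exact this
  have h2 : ((p.2.2 : ℕ)) = (p'.2.2 : ℕ) := by
    have := DFunLike.congr_fun h 3
    exact this
  have i1 := inR_box hQ p.1.2.le p.2.1.2.le p.2.2.2.le
  have i2 := inR_box hQ p'.1.2.le p'.2.1.2.le p'.2.2.2.le
  have h3 := expo_sum_x i1
  have h4 := expo_sum_x i2
  rw [h] at h3
  have h5 : ((p.1 : ℕ) : ℤ) = ((p'.1 : ℕ) : ℤ) := by linarith
  refine Prod.ext (Fin.ext (by exact_mod_cast h5)) (Prod.ext (Fin.ext h1) (Fin.ext h2))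

theorem candMap_injective {Q s : ℕ} (hQ : 0 < Q) (e₁ : Fin 4 →₀ ℕ) (W : Submodule ℂ K) :
    Function.Injective (candMap Q s e₁ W) := by
  classical
  rw [injective_iff_map_eq_zero]
  intro c hc
  funext p
  have h1 : (candMap Q s e₁ W c).coeff
      (e₁ + expo Q s ((p.1 : ℕ) : ℤ) (p.2.1 : ℕ) (p.2.2 : ℕ)) = 0 := by
    rw [hc, coeff_zero]
  have h2 : candMap Q s e₁ W c = ∑ p : Fin s × Fin s × Fin s,
    monomial (e₁ + expo Q s ((p.1 : ℕ) : ℤ) (p.2.1 : ℕ) (p.2.2 : ℕ)) (c p : K) := rfl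
  rw [h2, coeff_sum, Finset.sum_eq_single p] at h1
  · rw [coeff_monomial, if_pos rfl] at h1
    exact Subtype.ext h1
  · intro p' _ hp'
    rw [coeff_monomial, if_neg]
    intro h
    exact hp' (expo_box_injective hQ e₁ h)
  · intro h
    exact absurd (mem_univ p) h

theorem finrank_cand {Q s : ℕ} (hQ : 0 < Q) (e₁ : Fin 4 →₀ ℕ) (W : Submodule ℂ K)
    [FiniteDimensional ℂ W] :
    finrank ℂ (LinearMap.range (candMap Q s e₁ W)) = s ^ 3 * finrank ℂ W := by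
  rw [LinearMap.finrank_range_of_inj (candMap_injective hQ e₁ W), Module.finrank_pi_fintype]
  simp only [sum_const, card_univ, Fintype.card_prod, Fintype.card_fin, smul_eq_mul]
  ring

theorem cand_coeff {Q s : ℕ} {e₁ : Fin 4 →₀ ℕ} {W : Submodule ℂ K}
    {u : MvPolynomial (Fin 4) K} (hu : u ∈ LinearMap.range (candMap Q s e₁ W))
    {e : Fin 4 →₀ ℕ} (he : u.coeff e ≠ 0) :
    u.coeff e ∈ W ∧ ∃ x y z : ℕ, x < s ∧ y < s ∧ z < s ∧ e = e₁ + expo Q s (x : ℤ) y z := by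
  classical
  obtain ⟨c, rfl⟩ := hu
  have h2 : candMap Q s e₁ W c = ∑ p : Fin s × Fin s × Fin s,
    monomial (e₁ + expo Q s ((p.1 : ℕ) : ℤ) (p.2.1 : ℕ) (p.2.2 : ℕ)) (c p : K) := rfl
  rw [h2, coeff_sum] at he ⊢
  constructor
  · apply sum_mem
    intro p _
    rw [coeff_monomial]
    split_ifs
    · exact (c p).2
    · exact zero_mem _
  · obtain ⟨p, _, hp⟩ := Finset.exists_ne_zero_of_sum_ne_zero he
    rw [coeff_monomial] at hp
    split_ifs at hp with h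
    · exact ⟨p.1, p.2.1, p.2.2, p.1.2, p.2.1.2, p.2.2.2, h.symm⟩
    · exact absurd rfl hp

end cand

end Pool.Agent.YTD
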