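import Pool.Agent.YTD.KSpan2

namespace Pool.Agent.YTD

open Finset Module MvPolynomial Filter

variable {K : Type} [Field K] [Algebra ℂ K]
variable {T : Datum K} {q : ℕ} {D₀ : T.X.Pt →₀ ℤ} {r : ℕ}

theorem finrank_L_le (X : Curve K) (P₀ : X.Pt) (D : X.Pt →₀ ℤ) (hD : 0 ≤ X.deg D) :
    (finrank ℂ (X.L D) : ℤ) ≤ X.deg D + X.genus + 1 := by
  classical
  have := X.finite_L P₀ (D + Finsupp.single P₀ (2 * (X.genus : ℤ)))
  have h1 := Submodule.finrank_mono (X.L_mono (D := D)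
    (E := D + Finsupp.single P₀ (2 * (X.genus : ℤ))) (by
    intro P
    rw [Finsupp.add_apply, Finsupp.single_apply]
    split_ifs
    · have := Int.natCast_nonneg X.genus
      linarith
    · simp))
  have h2 := X.riemann_roch (D + Finsupp.single P₀ (2 * (X.genus : ℤ))) (by
    rw [X.deg_add, X.deg_single]
    linarith)
  rw [X.deg_add, X.deg_single] at h2
  have h3 : (finrank ℂ (X.L D) : ℤ) ≤
    (finrank ℂ (X.L (D + Finsupp.single P₀ (2 * (X.genus : ℤ)))) : ℤ) := by exact_mod_cast h1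
  rw [h2] at h3
  linarith

theorem dvs_apply (T : Datum K) (Q : ℕ) (D : T.X.Pt →₀ ℤ) (M : ℕ) (j : ℤ) (P : T.X.Pt) :
    T.dvs Q D M j P = M * D P - (∑ y ∈ T.S, Finsupp.single y (max 0 (j - 4 * (Q : ℤ) * M))) P
      - (∑ y ∈ T.S', Finsupp.single y (max 0 (-j - 4 * (Q : ℤ) * M))) P := by
  unfold Datum.dvs
  rw [Finsupp.sub_apply, Finsupp.sub_apply, Finsupp.smul_apply, nsmul_eq_mul]

theorem sum_single_mono (X : CurveOrd K) (A : Finset X.Pt) {x y : ℤ} (h : x ≤ y) (P : X.Pt) :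
    (∑ p ∈ A, Finsupp.single p x) P ≤ (∑ p ∈ A, Finsupp.single p y) P := by
  classical
  rw [Finsupp.finsetSum_apply, Finsupp.finsetSum_apply]
  apply sum_le_sum
  intro p _
  rw [Finsupp.single_apply, Finsupp.single_apply]
  split_ifs
  · exact h
  · exact le_rfl

/-- a divisor of degree `5 t Q M` below the divisors of the spaces `V M j`, for `j` near an
extreme value. -/
theorem exists_low (T : Datum K) {Q : ℕ} {D : T.X.Pt →₀ ℤ} (hD : T.X.deg D = 105 * T.t * Q)
    {j₁ : ℤ} (hj : j₁ = 5 * Q ∨ j₁ = -(5 * Q)) (hQ : 0 < Q) (M s : ℕ) (hs : 2 * s ≤ M) :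
    ∃ F : T.X.Pt →₀ ℤ, T.X.deg F = 5 * T.t * Q * M ∧
      ∀ x : ℕ, x ≤ s → ∀ P, F P ≤ T.dvs Q D M (((M - s : ℕ) : ℤ) * j₁ + x) P := by
  have hQ' : (1 : ℤ) ≤ Q := by exact_mod_cast hQ
  have hM0 : (0 : ℤ) ≤ M := by positivity
  have hs0 : (0 : ℤ) ≤ s := by positivity
  have hs' : 2 * (s : ℤ) ≤ M := by exact_mod_cast hs
  have hsub : ((M - s : ℕ) : ℤ) = M - s := by
    rw [Nat.cast_sub (by omega)]
  have hQM : (M : ℤ) ≤ Q * M := le_mul_of_one_le_left hM0 hQ'
  have hQs : (s : ℤ) ≤ Q * s := le_mul_of_one_le_left hs0 hQ'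
  have hQs2 : (Q : ℤ) * (2 * s) ≤ Q * M := mul_le_mul_of_nonneg_left hs' (by linarith)
  rcases hj with rfl | rfl
  · refine ⟨M • D - ∑ y ∈ T.S, Finsupp.single y ((Q : ℤ) * M), ?_, ?_⟩
    · rw [T.X.deg_sub, T.X.deg_nsmul, T.X.deg_sum]
      simp only [T.X.deg_single, sum_const, T.card_S, nsmul_eq_mul]
      rw [hD]
      push_cast
      ring
    · intro x hx P
      have hx' : (x : ℤ) ≤ s := by exact_mod_cast hx
      have hx0 : (0 : ℤ) ≤ x := by positivity
      rw [dvs_apply, hsub]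
      have h1 : max 0 (-((M - s : ℤ) * (5 * Q) + x) - 4 * (Q : ℤ) * M) = 0 := by
        apply max_eq_left
        linarith only [hQM, hQs, hQs2, hx0, hx', hM0, hs0, hs']
      have h2 : max 0 ((M - s : ℤ) * (5 * Q) + x - 4 * (Q : ℤ) * M) ≤ (Q : ℤ) * M := by
        apply max_le
        · exact hM0.trans hQM
        · linarith only [hQM, hQs, hQs2, hx0, hx', hM0, hs0, hs']
      have h3 := sum_single_mono T.X.toCurveOrd T.S h2 P
      rw [h1]
      simp only [Finsupp.single_zero, sum_const_zero, Finsupp.coe_zero, Pi.zero_apply, sub_zero]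
      rw [Finsupp.sub_apply, Finsupp.smul_apply, nsmul_eq_mul]
      linarith
  · refine ⟨M • D - ∑ y ∈ T.S', Finsupp.single y ((Q : ℤ) * M), ?_, ?_⟩
    · rw [T.X.deg_sub, T.X.deg_nsmul, T.X.deg_sum]
      simp only [T.X.deg_single, sum_const, T.card_S', nsmul_eq_mul]
      rw [hD]
      push_cast
      ring
    · intro x hx P
      have hx' : (x : ℤ) ≤ s := by exact_mod_cast hx
      have hx0 : (0 : ℤ) ≤ x := by positivity
      rw [dvs_apply, hsub]
      have h1 : max 0 ((M - s : ℤ) * (-(5 * Q)) + x - 4 * (Q : ℤ) * M) = 0 := by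
        apply max_eq_left
        linarith only [hQM, hQs, hQs2, hx0, hx', hM0, hs0, hs']
      have h2 : max 0 (-((M - s : ℤ) * (-(5 * Q)) + x) - 4 * (Q : ℤ) * M) ≤ (Q : ℤ) * M := by
        apply max_le
        · exact hM0.trans hQM
        · linarith only [hQM, hQs, hQs2, hx0, hx', hM0, hs0, hs']
      have h3 := sum_single_mono T.X.toCurveOrd T.S' h2 P
      rw [h1]
      simp only [Finsupp.single_zero, sum_const_zero, Finsupp.coe_zero, Pi.zero_apply, sub_zero]
      rw [Finsupp.sub_apply, Finsupp.smul_apply, nsmul_eq_mul]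
      linarith

namespace Filt

variable {χ : Filt T q D₀ r}

/-- `B3`: the leading exponents of the `K`-linear combinations of elements of `F N l`. -/
theorem Rigid.kspan {m : MonomialOrder (Fin 4)} {al be ga de : ℤ}
    (hR : χ.Rigid m al be ga de) (P₀ : T.X.Pt) (hQ : 0 < r * q)
    (hD : T.X.deg (r • D₀) = 105 * T.t * (r * q : ℕ)) {N : ℕ} {l : ℤ}
    {f : MvPolynomial (Fin 4) K}
    (hf : f ∈ Submodule.span K (χ.F N l : Set (MvPolynomial (Fin 4) K))) (hf0 : f ≠ 0)
    {j : ℤ} {a b : ℕ} (hin : InR (r * q) N j a b) (hdeg : m.degree f = expo (r * q) N j a b) :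
    l ≤ lw al be ga de N j a b := by
  classical
  by_contra hlt
  push Not at hlt
  set Q := r * q with hQdef
  set D := r • D₀ with hDdef
  obtain ⟨j₁, a₁, b₁, hin₁, hj₁, hmin⟩ := exists_min_vertex al be ga de Q
  set μ := lw al be ga de 1 j₁ a₁ b₁ with hμ
  obtain ⟨E, hE0, hE⟩ := χ.exists_div hf
  obtain ⟨C₀, hC0, hC⟩ := hR.codim_le P₀
  -- constants
  set B : ℤ := |al| + |be| + |ga| + |de| with hB
  have hBμ : μ ≤ B := by
    have h1 := hmin 1 ((0 : ℕ) : ℤ) 0 0 (inR_box hQ (Nat.zero_le _) (Nat.zero_le _) (Nat.zero_le _))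
    have h2 := lw_le_box al be ga de 1 (x := 0) (y := 0) (z := 0) (by norm_num) (by norm_num)
      (by norm_num)
    push_cast at h1 h2
    linarith
  set e₀ : ℕ := (T.X.deg E).toNat with he₀
  have hdegE : (e₀ : ℤ) = T.X.deg E := Int.toNat_of_nonneg (T.X.deg_nonneg hE0)
  set Θ : ℕ := e₀ + 1 with hΘ
  set b₀ : ℕ := (B - μ).toNat with hb₀
  have hb₀' : (b₀ : ℤ) = B - μ := Int.toNat_of_nonneg (by linarith)
  set d : ℕ := Θ * b₀ + 2 with hd
  obtain ⟨n, hn⟩ := exists_nat_gt (max (max ((d * e₀ + T.X.genus + 1 : ℕ) * C₀ * (d : ℝ) ^ 2) 4)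
    (T.X.genus : ℝ))
  have hn1 : ((d * e₀ + T.X.genus + 1 : ℕ) : ℝ) * C₀ * (d : ℝ) ^ 2 < n :=
    lt_of_le_of_lt ((le_max_left _ _).trans (le_max_left _ _)) hn
  have hn4 : 4 < n := by
    have : (4 : ℝ) < n := lt_of_le_of_lt ((le_max_right _ _).trans (le_max_left _ _)) hn
    exact_mod_cast this
  have hng : T.X.genus < n := by
    have : (T.X.genus : ℝ) < n := lt_of_le_of_lt (le_max_right _ _) hn
    exact_mod_cast this
  set k : ℕ := d * n with hk
  set s : ℕ := Θ * n with hs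
  set M : ℕ := Θ * d * n with hM
  have hΘ1 : 1 ≤ Θ := by omega
  have hd2 : 2 ≤ d := by omega
  have hMs : M = d * s := by rw [hM, hs]; ring
  have hMk : M = Θ * k := by rw [hM, hk]; ring
  have h2s : 2 * s ≤ M := by rw [hMs]; exact Nat.mul_le_mul_right s hd2
  have hsM : s ≤ M := by omega
  have hnk : n ≤ k := Nat.le_mul_of_pos_left n (by omega)
  have hkM : k ≤ M := by rw [hMk]; exact Nat.le_mul_of_pos_left k (by omega)
  have hnM : n ≤ M := hnk.trans hkM
  have hM4 : 4 ≤ M := by omega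
  -- the divisor of the coefficients
  obtain ⟨F₁, hF₁deg, hF₁⟩ := exists_low T hD hj₁ hQ M s h2s
  set E₁ : T.X.Pt →₀ ℤ := F₁ - k • E with hE₁
  have ht : (1 : ℤ) ≤ T.t := by exact_mod_cast T.t_pos
  have hQ1 : (1 : ℤ) ≤ (Q : ℤ) := by exact_mod_cast hQ
  have hdegE₁ : 4 * (M : ℤ) ≤ T.X.deg E₁ := by
    rw [hE₁, T.X.deg_sub, hF₁deg, T.X.deg_nsmul, ← hdegE]
    have h1 : (k : ℤ) * e₀ ≤ M := by
      have : k * e₀ ≤ M := by
        rw [hMk, hΘ, Nat.mul_comm]
        exact Nat.mul_le_mul_right k (Nat.le_succ e₀)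
      exact_mod_cast this
    have h2 : (M : ℤ) ≤ T.t * Q * M := by
      have h3 : (1 : ℤ) ≤ T.t * Q := one_le_mul_of_one_le_of_one_le ht hQ1
      exact le_mul_of_one_le_left (Int.natCast_nonneg M) h3
    have h5 : (5 : ℤ) * T.t * Q * M = 5 * (T.t * Q * M) := by ring
    rw [h5]
    linarith only [h1, h2]
  have hgM : (T.X.genus : ℤ) ≤ M := by
    have : T.X.genus ≤ M := by omega
    exact_mod_cast this
  have hM0 : (0 : ℤ) ≤ M := by positivity
  have hrr := T.X.riemann_roch E₁ (by linarith)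
  have hdimE₁ : M ≤ finrank ℂ (T.X.L E₁) := by
    have : (M : ℤ) ≤ (finrank ℂ (T.X.L E₁) : ℤ) := by
      rw [hrr]; linarith
    exact_mod_cast this
  have hfinE₁ : FiniteDimensional ℂ (T.X.L E₁) := T.X.finite_L P₀ _
  have hfinZ : FiniteDimensional ℂ (T.X.L (k • E)) := T.X.finite_L P₀ _
  have hfinS : FiniteDimensional ℂ (T.sec Q D M) := T.finite_sec P₀ _ _ _
  -- the vertex at level `M - s`
  have hinv : InR Q (M - s) (((M - s : ℕ) : ℤ) * j₁) ((M - s) * a₁) ((M - s) * b₁) := by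
    have := hin₁.smul (M - s)
    rwa [mul_one] at this
  set e₁ : Fin 4 →₀ ℕ := expo Q (M - s) (((M - s : ℕ) : ℤ) * j₁) ((M - s) * a₁) ((M - s) * b₁)
    with he₁
  have hsum : M - s + s = M := by omega
  have hexp : ∀ x y z : ℕ, x < s → y < s → z < s →
      InR Q M (((M - s : ℕ) : ℤ) * j₁ + x) ((M - s) * a₁ + y) ((M - s) * b₁ + z) ∧
      e₁ + expo Q s (x : ℤ) y z =
        expo Q M (((M - s : ℕ) : ℤ) * j₁ + x) ((M - s) * a₁ + y) ((M - s) * b₁ + z) := by
    intro x y z hx hy hz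
    have hbox := inR_box (q := Q) hQ hx.le hy.le hz.le
    have h1 := hinv.add hbox
    have h2 := expo_add hinv hbox
    rw [hsum] at h1 h2
    exact ⟨h1, h2⟩
  set R := LinearMap.range (candMap Q s e₁ (T.X.L E₁)) with hRdef
  have hfinR : FiniteDimensional ℂ R := by
    rw [hRdef]
    infer_instance
  have hdimR : finrank ℂ R = s ^ 3 * finrank ℂ (T.X.L E₁) := finrank_cand hQ _ _
  have hmul : ∀ z ∈ T.X.L (k • E), ∀ u ∈ R, C z * u ∈ T.sec Q D M := by
    intro z hz u hu e he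
    rw [coeff_C_mul] at he
    have hu0 : u.coeff e ≠ 0 := right_ne_zero_of_mul he
    obtain ⟨hc, x, y, w, hx, hy, hw, rfl⟩ := cand_coeff hu hu0
    obtain ⟨g1, g2⟩ := hexp x y w hx hy hw
    rw [coeff_C_mul]
    rw [g2] at hc ⊢
    refine ⟨_, g1.1, expo_sum_x g1, expo_sum_y g1, ?_⟩
    have h3 := T.X.mul_mem_L hz hc
    refine T.X.L_mono ?_ h3
    intro P
    have h4 := hF₁ x hx.le P
    rw [Finsupp.add_apply, hE₁, Finsupp.sub_apply]
    linarith
  -- the subspace of small codimension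
  set l' : ℤ := M * μ - n with hl'
  have hcod := hC M l' n hM4 (by
    intro j a b h
    have := hmin M j a b h
    rw [hl']
    linarith)
  have hUS : χ.F M l' ≤ T.sec Q D M := χ.F_le M l'
  have hdim : finrank ℂ (T.X.L (k • E)) * (finrank ℂ (T.sec Q D M) - finrank ℂ (χ.F M l')) <
      finrank ℂ R := by
    have hle : finrank ℂ (χ.F M l') ≤ finrank ℂ (T.sec Q D M) := Submodule.finrank_mono hUS
    have hZ : (finrank ℂ (T.X.L (k • E)) : ℝ) ≤ (d * e₀ + T.X.genus + 1 : ℕ) * (n : ℝ) := by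
      have h1 := finrank_L_le T.X P₀ (k • E) (by
        rw [T.X.deg_nsmul, ← hdegE]; positivity)
      rw [T.X.deg_nsmul, ← hdegE] at h1
      have h2 : finrank ℂ (T.X.L (k • E)) ≤ k * e₀ + T.X.genus + 1 := by exact_mod_cast h1
      have h3 : k * e₀ + T.X.genus + 1 ≤ (d * e₀ + T.X.genus + 1) * n := by
        have h4 : (T.X.genus + 1) * 1 ≤ (T.X.genus + 1) * n :=
          Nat.mul_le_mul_left _ (by omega)
        have h5 : (d * e₀ + T.X.genus + 1) * n = d * n * e₀ + (T.X.genus + 1) * n := by ring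
        rw [hk, h5]
        omega
      exact_mod_cast h2.trans h3
    have hn0 : (0 : ℝ) < n := by
      have : 0 < n := by omega
      exact_mod_cast this
    have hcod' : ((finrank ℂ (T.sec Q D M) : ℝ) - finrank ℂ (χ.F M l')) ≤
        C₀ * (Θ : ℝ) ^ 3 * (d : ℝ) ^ 3 * (n : ℝ) ^ 2 := by
      have hMr : (M : ℝ) = Θ * d * n := by rw [hM]; push_cast; ring
      rw [hMr] at hcod
      have h1 : (n : ℝ) * ((finrank ℂ (T.sec Q D M) : ℝ) - finrank ℂ (χ.F M l')) ≤
          n * (C₀ * (Θ : ℝ) ^ 3 * (d : ℝ) ^ 3 * (n : ℝ) ^ 2) := by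
        refine hcod.trans (le_of_eq ?_)
        ring
      exact le_of_mul_le_mul_left h1 hn0
    have hcodnn : (0 : ℝ) ≤ (finrank ℂ (T.sec Q D M) : ℝ) - finrank ℂ (χ.F M l') := by
      have : (finrank ℂ (χ.F M l') : ℝ) ≤ finrank ℂ (T.sec Q D M) := by exact_mod_cast hle
      linarith
    have hgoal : (finrank ℂ (T.X.L (k • E)) : ℝ) *
        ((finrank ℂ (T.sec Q D M) : ℝ) - finrank ℂ (χ.F M l')) < (finrank ℂ R : ℝ) := by
      rw [hdimR]
      have hΘr : (1 : ℝ) ≤ Θ := by exact_mod_cast hΘ1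
      have hdr : (2 : ℝ) ≤ d := by exact_mod_cast hd2
      calc (finrank ℂ (T.X.L (k • E)) : ℝ) *
            ((finrank ℂ (T.sec Q D M) : ℝ) - finrank ℂ (χ.F M l'))
          ≤ ((d * e₀ + T.X.genus + 1 : ℕ) * (n : ℝ)) *
            (C₀ * (Θ : ℝ) ^ 3 * (d : ℝ) ^ 3 * (n : ℝ) ^ 2) :=
            mul_le_mul hZ hcod' hcodnn (by positivity)
        _ = (((d * e₀ + T.X.genus + 1 : ℕ) : ℝ) * C₀ * (d : ℝ) ^ 2) *
            ((Θ : ℝ) ^ 3 * d * (n : ℝ) ^ 3) := by ring
        _ < (n : ℝ) * ((Θ : ℝ) ^ 3 * d * (n : ℝ) ^ 3) :=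
            mul_lt_mul_of_pos_right hn1 (by positivity)
        _ ≤ (Θ : ℝ) * ((n : ℝ) * ((Θ : ℝ) ^ 3 * d * (n : ℝ) ^ 3)) :=
            le_mul_of_one_le_left (by positivity) hΘr
        _ = (s : ℝ) ^ 3 * (M : ℝ) := by rw [hs, hM]; push_cast; ring
        _ ≤ ((s ^ 3 * finrank ℂ (T.X.L E₁) : ℕ) : ℝ) := by
            push_cast
            exact mul_le_mul_of_nonneg_left (by exact_mod_cast hdimE₁) (by positivity)
    have h5 : ((finrank ℂ (T.X.L (k • E)) *
        (finrank ℂ (T.sec Q D M) - finrank ℂ (χ.F M l')) : ℕ) : ℝ) < (finrank ℂ R : ℝ) := by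
      rw [Nat.cast_mul, Nat.cast_sub hle]
      exact hgoal
    exact_mod_cast h5
  obtain ⟨u, huR, hu0, hu⟩ := exists_multiplier hUS hmul hdim
  -- the product `u * f ^ k`
  have hfk := χ.pow_mem_span hE k
  have hprod : ∀ h ∈ Submodule.span ℂ {h | ∃ z ∈ T.X.L (k • E), ∃ g ∈ χ.F (k * N) (k * l),
      h = C z * g}, u * h ∈ χ.F (M + k * N) (l' + k * l) := by
    intro h hh
    induction hh using Submodule.span_induction with
    | mem x hx =>
      obtain ⟨z, hz, g, hg, rfl⟩ := hx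
      have e : u * (C z * g) = (C z * u) * g := by ring
      rw [e]
      exact χ.mul _ _ _ _ _ (hu z hz) _ hg
    | zero =>
      rw [mul_zero]
      exact zero_mem _
    | add x y _ _ hx hy =>
      rw [mul_add]
      exact add_mem hx hy
    | smul c x _ hx =>
      rw [mul_smul_comm]
      exact Submodule.smul_mem _ _ hx
  have hmem := hprod _ hfk
  have hufk : u * f ^ k ≠ 0 := mul_ne_zero hu0 (pow_ne_zero _ hf0)
  have hdeg' : m.degree (u * f ^ k) = m.degree u + k • m.degree f := by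
    rw [MonomialOrder.degree_mul hu0 (pow_ne_zero _ hf0), MonomialOrder.degree_pow]
  have hcu : u.coeff (m.degree u) ≠ 0 := by
    have := MonomialOrder.degree_mem_support (m := m) hu0
    rwa [MvPolynomial.mem_support_iff] at this
  obtain ⟨_, x, y, z, hx, hy, hz, hdu⟩ := cand_coeff huR hcu
  obtain ⟨g1, g2⟩ := hexp x y z hx hy hz
  have hkin := hin.smul k
  have hkexp : k • expo Q N j a b = expo Q (k * N) (k * j) (k * a) (k * b) := by
    ext i
    rw [Finsupp.smul_apply, smul_eq_mul]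
    have h3 := hin.1
    have h4 := hkin.1
    have hA : AA Q (k * N) (k * j) = k * AA Q N j := by
      zify
      rw [AA_cast h4, AA_cast h3]
      push_cast
      ring
    have hB : BB Q (k * N) (k * j) = k * BB Q N j := by
      zify
      rw [BB_cast h4, BB_cast h3]
      push_cast
      ring
    fin_cases i
    · show k * expo Q N j a b 0 = expo Q (k * N) (k * j) (k * a) (k * b) 0
      rw [expo_0, expo_0, hA, Nat.mul_sub]
    · rfl
    · show k * expo Q N j a b 2 = expo Q (k * N) (k * j) (k * a) (k * b) 2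
      rw [expo_2, expo_2, hB, Nat.mul_sub]
    · rfl
  have hfin := g1.add hkin
  have hexpfin := expo_add g1 hkin
  rw [hdu, g2, hdeg, hkexp, hexpfin] at hdeg'
  have hub := hR.upper (M + k * N) (by omega) (l' + k * l) _ _ _ hfin (by
    intro h0
    have h1 : (u * f ^ k).coeff (expo (r * q) (M + k * N) (((M - s : ℕ) : ℤ) * j₁ + x + k * j)
        ((M - s) * a₁ + y + k * a) ((M - s) * b₁ + z + k * b)) ∈
        ini m (χ.F (M + k * N) (l' + k * l)) (expo (r * q) (M + k * N)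
          (((M - s : ℕ) : ℤ) * j₁ + x + k * j)
          ((M - s) * a₁ + y + k * a) ((M - s) * b₁ + z + k * b)) := by
      rw [mem_ini]
      refine ⟨u * f ^ k, hmem, ?_, rfl⟩
      intro e' he'
      rw [← hQdef, ← hdeg']
      apply MonomialOrder.le_degree
      rwa [MvPolynomial.mem_support_iff]
    rw [h0, Submodule.mem_bot, ← hQdef, ← hdeg'] at h1
    have h2 := MonomialOrder.degree_mem_support (m := m) hufk
    rw [MvPolynomial.mem_support_iff] at h2
    exact h2 h1)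
  rw [lw_add, lw_smul] at hub
  have hlw1 : lw al be ga de M (((M - s : ℕ) : ℤ) * j₁ + x) ((M - s) * a₁ + y)
      ((M - s) * b₁ + z) = (M - s) * μ + lw al be ga de s (x : ℤ) y z := by
    have h1 := lw_add al be ga de (M - s) s (((M - s : ℕ) : ℤ) * j₁) (x : ℤ) ((M - s) * a₁) y
      ((M - s) * b₁) z
    rw [hsum] at h1
    rw [h1]
    have h2 := lw_smul al be ga de (M - s) 1 j₁ a₁ b₁
    rw [mul_one] at h2
    rw [h2, ← hμ, Nat.cast_sub hsM]
  rw [hlw1] at hub
  have hbox := lw_le_box al be ga de s hx.le hy.le hz.le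
  rw [← hB] at hbox
  have hfinal : (k : ℤ) * (l - lw al be ga de N j a b) ≤ s * (B - μ) + n := by
    rw [hl'] at hub
    linarith
  have h1 : (k : ℤ) ≤ k * (l - lw al be ga de N j a b) := by
    have : (1 : ℤ) ≤ l - lw al be ga de N j a b := by linarith
    exact le_mul_of_one_le_right (Int.natCast_nonneg k) this
  have h2 : (k : ℤ) ≤ s * b₀ + n := by
    rw [hb₀']
    linarith
  have h3 : k ≤ s * b₀ + n := by exact_mod_cast h2
  rw [hk, hs, hd] at h3
  have h4 : (Θ * b₀ + 2) * n = Θ * n * b₀ + 2 * n := by ring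
  omega

end Filt

end Pool.Agent.YTD
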