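import Pool.Agent.YTD.Semi

/-!
Kinks at rational points are impossible when the Futaki invariant vanishes.
-/

namespace Pool.Agent.YTD

open Finset Module Filter

theorem gg_pos {Q : ℕ} (hQ : 0 < Q) {x : ℤ} (hx : |x| < 5 * Q) : 0 < gg Q x := by
  have hQ' : (0 : ℝ) < Q := by exact_mod_cast hQ
  have hxr : |(x : ℝ)| < 5 * Q := by exact_mod_cast hx
  unfold gg
  rcases le_total (|(x : ℝ)|) (4 * Q) with h | h
  · rw [max_eq_left (by linarith)]
    have h1 : 9 * (x : ℝ) ^ 2 - 125 * (Q : ℝ) ^ 2 ≠ 0 := by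
      intro h0
      have h5 : Irrational (Real.sqrt 5) := by
        have := Nat.Prime.irrational_sqrt (show Nat.Prime 5 by norm_num)
        exact_mod_cast this
      have h2 : (5 : ℝ) = ((3 * |(x : ℝ)|) / (5 * Q)) ^ 2 := by
        rw [div_pow, mul_pow, sq_abs]
        field_simp
        linarith
      have h3 : Real.sqrt 5 = (3 * |(x : ℝ)|) / (5 * Q) := by
        have h6 := congrArg Real.sqrt h2
        rwa [Real.sqrt_sq (by positivity)] at h6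
      apply h5
      refine ⟨(3 * |x| : ℚ) / (5 * Q), ?_⟩
      rw [h3]
      push_cast
      rfl
    have h4 : 0 < (9 * (x : ℝ) ^ 2 - 125 * (Q : ℝ) ^ 2) ^ 2 := by positivity
    simpa using h4
  · rw [max_eq_right (by linarith)]
    obtain ⟨u, hu⟩ : ∃ u, |(x : ℝ)| = 4 * Q + u := ⟨|(x : ℝ)| - 4 * Q, by ring⟩
    have hu0 : 0 ≤ u := by linarith
    have hu1 : u < Q := by linarith
    have hx2 : (x : ℝ) ^ 2 = (4 * Q + u) ^ 2 := by rw [← sq_abs, hu]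
    rw [hx2, hu]
    have e : (9 * (4 * (Q : ℝ) + u) ^ 2 - 125 * (Q : ℝ) ^ 2) ^ 2 -
        10000 * Q * (4 * Q + u - 4 * Q) ^ 3 =
        (Q - u) * (361 * Q ^ 3 + 3097 * Q ^ 2 * u + 8623 * Q * u ^ 2 - 81 * u ^ 3) := by ring
    rw [e]
    apply mul_pos (by linarith)
    have h1 : 81 * u ^ 3 ≤ 81 * (Q * u ^ 2) := by
      have : u ^ 3 = u * u ^ 2 := by ring
      rw [this]
      have := mul_le_mul_of_nonneg_right hu1.le (sq_nonneg u)
      linarith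
    have h2 : 0 < (Q : ℝ) ^ 3 := by positivity
    have h3 : 0 ≤ (Q : ℝ) ^ 2 * u := by positivity
    have h4 : 0 ≤ (Q : ℝ) * u ^ 2 := by positivity
    linarith

theorem gg_scale (Q x : ℝ) {M : ℝ} (hM : 0 ≤ M) : gg (Q * M) (x * M) = M ^ 4 * gg Q x := by
  unfold gg
  have e1 : |x * M| - 4 * (Q * M) = (|x| - 4 * Q) * M := by
    rw [abs_mul, abs_of_nonneg hM]
    ring
  have e2 : max 0 ((|x| - 4 * Q) * M) = max 0 (|x| - 4 * Q) * M := by
    rw [max_mul_of_nonneg _ _ hM, zero_mul]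
  rw [e1, e2]
  ring

namespace Fam

theorem gap_ge {Q : ℕ} (F : Fam Q) (k : ℕ) {j : ℤ} (hj : |j| < (5 * (Q * 2 ^ k) : ℕ)) :
    gg ((Q * 2 ^ k : ℕ) : ℝ) (j : ℝ) * (2 * F.ψ k j - F.ψ k (j - 1) - F.ψ k (j + 1)) ≤
      F.gap k := by
  unfold gap
  rw [← Finset.sum_neg_distrib]
  have hj' := abs_lt.1 hj
  set M : ℕ := 5 * (Q * 2 ^ k) with hM
  set i₀ : ℕ := (j - 1 + M).toNat with hi₀
  have hi : (i₀ : ℤ) = j - 1 + M := by
    rw [hi₀, Int.toNat_of_nonneg]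
    linarith [hj'.1]
  have hmem : i₀ ∈ range (2 * M - 1) := by
    rw [mem_range]
    omega
  have := Finset.single_le_sum (s := range (2 * M - 1)) (f := fun i : ℕ =>
    -(gg ((Q * 2 ^ k : ℕ) : ℝ) ((i : ℤ) + 1 - (M : ℕ) : ℤ) *
      (F.ψ k ((i : ℤ) + 2 - (M : ℕ)) -
        2 * F.ψ k ((i : ℤ) + 1 - (M : ℕ)) +
        F.ψ k ((i : ℤ) - (M : ℕ))))) (by
      intro i hi
      obtain ⟨h1, h2⟩ := F.gap_term k hi
      show 0 ≤ -_
      rw [neg_nonneg]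
      exact mul_nonpos_of_nonneg_of_nonpos h1 h2) hmem
  refine le_trans (le_of_eq ?_) this
  have e1 : (i₀ : ℤ) + 1 - (M : ℕ) = j := by rw [hi]; ring
  have e2 : (i₀ : ℤ) + 2 - (M : ℕ) = j + 1 := by rw [hi]; ring
  have e3 : (i₀ : ℤ) - (M : ℕ) = j - 1 := by rw [hi]; ring
  show _ = -(gg _ _ * (_ - _ + _))
  rw [e1, e2, e3]
  ring

theorem ψ_le_of {Q : ℕ} (F : Fam Q) {L : ℕ → ℤ → ℝ} (hL : ∀ k j, L (k + 1) (2 * j) = 2 * L k j)
    (h : ∀ k (j : ℤ), |j| ≤ 5 * Q * 2 ^ k → F.ν k j ≤ L k j) {k : ℕ} {j : ℤ}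
    (hj : |j| ≤ 5 * Q * 2 ^ k) : F.ψ k j ≤ L k j := by
  have hL' : ∀ i, L (k + i) (2 ^ i * j) = 2 ^ i * L k j := by
    intro i
    induction i with
    | zero => simp
    | succ i ih =>
      rw [← add_assoc, show (2 : ℤ) ^ (i + 1) * j = 2 * (2 ^ i * j) by rw [pow_succ]; ring, hL, ih,
        pow_succ]
      ring
  apply ciSup_le
  intro i
  unfold ap
  rw [div_le_iff₀ (by positivity)]
  have := h (k + i) (2 ^ i * j) (rng_pow hj i)
  rw [hL' i] at this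
  linarith

end Fam

namespace Graded

variable {K : Type} [Field K] [Algebra ℂ K]
variable {T : Datum K} {q : ℕ} {D₀ : T.X.Pt →₀ ℤ}

/-- no kinks at rational points. -/
theorem no_kink (G : Graded T q D₀) (P₀ : T.X.Pt) (hD : T.X.deg D₀ = 105 * T.t * q) (hq : 0 < q)
    {s₀ : ℝ} (hS : G.TotExp s₀ 0) {x : ℤ} (hx : |x| < 5 * q) {δ A B : ℝ} (hδ : 0 < δ)
    (h1 : ∀ (N : ℕ) (j : ℤ), 4 ≤ N → |j| ≤ 5 * q * N → G.nb N j ≤ A * N + B * j)
    (h2 : ∀ (N : ℕ) (j : ℤ), 4 ≤ N → |j| ≤ 5 * q * N → G.nb N j ≤ A * N + B * j - δ * (j - x * N))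
    (h3 : ∀ (N : ℕ), 4 ≤ N → A * N + B * (x * N) ≤ G.nb N (x * N)) : False := by
  obtain ⟨err, e1, e2⟩ := main_ineq (G := G) hD P₀ hq hS
  have ht : (0 : ℝ) < T.t := by exact_mod_cast T.t_pos
  have hg := gg_pos hq hx
  have key : ∀ᶠ k : ℕ in atTop, (T.t : ℝ) * (256 * gg q x * δ) ≤ err k := by
    filter_upwards [e2] with k hk
    have hpos : (0 : ℝ) < 16 ^ k := by positivity
    have g2 := G.ysum_nonneg hD hq k
    have g4 : (0 : ℝ) ≤ 2400 * q * 2 ^ k * G.ysum k := by positivity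
    set F := G.fam hD hq with hF
    set j₀ : ℤ := x * 2 ^ (k + 2) with hj₀
    have hN4 : ∀ k : ℕ, 4 ≤ 2 ^ (k + 2) := four_le
    have hrng : ∀ (k : ℕ) (j : ℤ), |j| ≤ 5 * (4 * q : ℕ) * 2 ^ k →
        |j| ≤ 5 * q * ((2 ^ (k + 2) : ℕ) : ℤ) := by
      intro k j hj
      push_cast at hj ⊢
      rw [pow_add]
      linarith
    have hj₀' : |j₀| < (5 * (4 * q * 2 ^ k) : ℕ) := by
      rw [hj₀, abs_mul, abs_of_pos (by positivity : (0 : ℤ) < 2 ^ (k + 2))]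
      have h5 : (0 : ℤ) < 2 ^ (k + 2) := by positivity
      have h6 := mul_lt_mul_of_pos_right hx h5
      push_cast
      rw [pow_add] at h6 ⊢
      linarith
    have hge := F.gap_ge k hj₀'
    have hup := fun (k : ℕ) (j : ℤ) (hj : |j| ≤ 5 * (4 * q : ℕ) * 2 ^ k) =>
      F.ψ_le_of (L := fun k j => A * (2 ^ (k + 2) : ℕ) + B * j)
        (fun k j => by push_cast; rw [pow_succ, pow_add]; ring)
        (fun k j hj => h1 (2 ^ (k + 2)) j (hN4 k) (hrng k j hj)) (k := k) (j := j) hj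
    have hup2 := fun (k : ℕ) (j : ℤ) (hj : |j| ≤ 5 * (4 * q : ℕ) * 2 ^ k) =>
      F.ψ_le_of (L := fun k j => A * (2 ^ (k + 2) : ℕ) + B * j - δ * (j - x * (2 ^ (k + 2) : ℕ)))
        (fun k j => by push_cast; rw [pow_succ, pow_add]; ring)
        (fun k j hj => h2 (2 ^ (k + 2)) j (hN4 k) (hrng k j hj)) (k := k) (j := j) hj
    have hlt := abs_lt.1 hj₀'
    have r0 : |j₀| ≤ 5 * (4 * q : ℕ) * 2 ^ k := by
      rw [abs_le]
      push_cast at hlt ⊢
      constructor <;> linarith [hlt.1, hlt.2]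
    have r1 : |j₀ - 1| ≤ 5 * (4 * q : ℕ) * 2 ^ k := by
      rw [abs_le]
      push_cast at hlt ⊢
      constructor <;> linarith [hlt.1, hlt.2]
    have r2 : |j₀ + 1| ≤ 5 * (4 * q : ℕ) * 2 ^ k := by
      rw [abs_le]
      push_cast at hlt ⊢
      constructor <;> linarith [hlt.1, hlt.2]
    have u1 := hup k (j₀ - 1) r1
    have u2 := hup2 k (j₀ + 1) r2
    have l0 : A * (2 ^ (k + 2) : ℕ) + B * (j₀ : ℝ) ≤ F.ψ k j₀ := by
      refine le_trans ?_ (F.ν_le_ψ r0)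
      have := h3 (2 ^ (k + 2)) (hN4 k)
      rw [hF, fam_ν, hj₀]
      push_cast at this ⊢
      exact this
    have hd : δ ≤ 2 * F.ψ k j₀ - F.ψ k (j₀ - 1) - F.ψ k (j₀ + 1) := by
      have e3 : (j₀ : ℝ) = x * (2 ^ (k + 2) : ℕ) := by rw [hj₀]; push_cast; rfl
      push_cast at u1 u2 l0 e3 ⊢
      rw [e3] at u1 u2 l0
      linarith
    have hgg : gg ((4 * q * 2 ^ k : ℕ) : ℝ) (j₀ : ℝ) = 256 * 16 ^ k * gg q x := by
      have e4 : ((4 * q * 2 ^ k : ℕ) : ℝ) = q * 2 ^ (k + 2) := by push_cast; rw [pow_add]; ring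
      have e5 : (j₀ : ℝ) = x * 2 ^ (k + 2) := by rw [hj₀]; push_cast; rfl
      rw [e4, e5, gg_scale _ _ (by positivity)]
      congr 1
      rw [← pow_mul, show (k + 2) * 4 = 4 * k + 8 by ring, pow_add, pow_mul]
      norm_num
      ring
    rw [hgg] at hge
    have h7 : 256 * 16 ^ k * gg q x * δ ≤ F.gap k :=
      (mul_le_mul_of_nonneg_left hd (by positivity)).trans hge
    have h8 : (T.t : ℝ) * (256 * 16 ^ k * gg q x * δ) ≤ err k * 16 ^ k := by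
      have := mul_le_mul_of_nonneg_left h7 ht.le
      linarith
    have h9 : (T.t : ℝ) * (256 * gg q x * δ) * 16 ^ k ≤ err k * 16 ^ k := by linarith
    exact le_of_mul_le_mul_right h9 hpos
  have h10 := ge_of_tendsto e1 key
  have h11 : 0 < (T.t : ℝ) * (256 * gg q x * δ) := by positivity
  linarith

end Graded

end Pool.Agent.YTD
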