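import Pool.Agent.YTD.PhiDouble

namespace Pool.Agent.YTD

open Finset Module

theorem sum_range_eq_Icc (M : ℕ) (F : ℤ → ℝ) :
    ∑ i ∈ range (2 * M + 1), F ((i : ℤ) - M) = ∑ j ∈ Icc (-(M : ℤ)) M, F j := by
  refine sum_bij' (fun i _ => (i : ℤ) - M) (fun j _ => (j + M).toNat) ?_ ?_ ?_ ?_ ?_
  · intro i hi
    have := mem_range.1 hi
    rw [mem_Icc]
    constructor <;> omega
  · intro j hj
    have := mem_Icc.1 hj
    rw [mem_range]
    omega
  · intro i hi
    simp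
  · intro j hj
    have := mem_Icc.1 hj
    rw [Int.toNat_of_nonneg (by linarith)]
    ring
  · intro i hi
    rfl

variable {K : Type} [Field K] [Algebra ℂ K]
variable {T : Datum K} {q : ℕ} {D₀ : T.X.Pt →₀ ℤ}

theorem av_mult {q L : ℕ} {j : ℤ} (h : |j| ≤ 5 * q * L) (f : ℕ → ℕ → ℝ) :
    ((25 * (q : ℝ) * L + 3 * j + 1) * (25 * (q : ℝ) * L - 3 * j + 1)) * av q L j f =
      ∑ a ∈ range (AA q L j + 1), ∑ b ∈ range (BB q L j + 1), f a b := by
  unfold av
  rw [← avg2_eq]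
  have h1 : ((AA q L j : ℕ) : ℝ) = 25 * q * L + 3 * j := by exact_mod_cast AA_cast h
  have h2 : ((BB q L j : ℕ) : ℝ) = 25 * q * L - 3 * j := by exact_mod_cast BB_cast h
  rw [h1, h2]

theorem Wt_le_mult {q L : ℕ} {j : ℤ} (h : |j| ≤ 5 * q * L) :
    Wt q L j ≤ (25 * (q : ℝ) * L + 3 * j + 1) * (25 * (q : ℝ) * L - 3 * j + 1) := by
  have h1 : |(j : ℝ)| ≤ 5 * q * L := by exact_mod_cast h
  have h2 : (j : ℝ) ^ 2 ≤ (5 * q * L) ^ 2 := sq_le_sq' (by linarith [(abs_le.1 h1).1])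
    (abs_le.1 h1).2
  have h3 : (0 : ℝ) ≤ q * L := by positivity
  unfold Wt
  split_ifs
  · nlinarith
  · nlinarith

namespace Graded

variable (G : Graded T q D₀)

/-- the total dimension at level `M`. -/
noncomputable def tot (M : ℕ) : ℝ :=
  ∑ j ∈ Icc (-((5 * q * M : ℕ) : ℤ)) ((5 * q * M : ℕ) : ℤ), ∑ a ∈ range (AA q M j + 1),
    ∑ b ∈ range (BB q M j + 1), ∑ l ∈ range (G.Λ * M), (finrank ℂ (G.W M (l + 1) j a b) : ℝ)

/-- length of the filtration. -/
noncomputable def nn (N : ℕ) (j : ℤ) (a b : ℕ) : ℕ :=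
  open Classical in
  Nat.findGreatest (fun l => G.W N l j a b ≠ ⊥) (G.Λ * N)

theorem two_genus_le (hq : 0 < q) {N : ℕ} (hN : 4 ≤ N) :
    2 * (T.X.genus : ℤ) ≤ 5 * T.t * q * N := by
  rw [T.genus_eq]
  have h1 := T.t_pos
  have h2 : (1 : ℤ) ≤ T.t := by exact_mod_cast h1
  have h3 : (1 : ℤ) ≤ q := by exact_mod_cast hq
  have h4 : (4 : ℤ) ≤ N := by exact_mod_cast hN
  have h5 : (4 : ℤ) ≤ q * N := by nlinarith
  push_cast
  nlinarith

variable (hD : T.X.deg D₀ = 105 * T.t * q)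

include hD in
theorem deg_ge (hq : 0 < q) {N : ℕ} (hN : 4 ≤ N) {j : ℤ} (hj : |j| ≤ 5 * q * N) :
    2 * (T.X.genus : ℤ) ≤ T.X.deg (T.dvs q D₀ N j) := by
  rw [deg_dvs_crit T q D₀ hD]
  exact (two_genus_le hq hN).trans (le_dg hj)

include hD in
theorem W_zero_ne (hq : 0 < q) {N : ℕ} (hN : 4 ≤ N) {j : ℤ} {a b : ℕ} (h : InR q N j a b) :
    G.W N 0 j a b ≠ ⊥ := by
  rw [G.W_zero N j a b h]
  exact T.X.L_ne_bot (deg_ge hD hq hN h.1)

include hD in
theorem W_ne_bot (hq : 0 < q) {N : ℕ} (hN : 4 ≤ N) {j : ℤ} {a b : ℕ} (h : InR q N j a b)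
    {l : ℕ} (hl : l ≤ G.nn N j a b) : G.W N l j a b ≠ ⊥ := by
  classical
  have h1 : G.W N (G.nn N j a b) j a b ≠ ⊥ := by
    have := Nat.findGreatest_spec (P := fun l => G.W N l j a b ≠ ⊥) (Nat.zero_le (G.Λ * N))
      (G.W_zero_ne hD hq hN h)
    unfold nn
    convert this
  intro h2
  apply h1
  rw [eq_bot_iff, ← h2]
  exact G.W_anti N l _ j a b hl

theorem W_eq_bot {N : ℕ} {j : ℤ} {a b : ℕ} {l : ℕ} (hl : G.nn N j a b < l) :
    G.W N l j a b = ⊥ := by
  classical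
  by_contra h
  have h1 : l ≤ G.Λ * N := by
    by_contra h2
    exact h (G.W_top N l j a b (not_le.1 h2))
  have := Nat.le_findGreatest (P := fun l => G.W N l j a b ≠ ⊥) h1 h
  unfold nn at hl
  have h3 : l ≤ Nat.findGreatest (fun l => G.W N l j a b ≠ ⊥) (G.Λ * N) := this
  have h4 : Nat.findGreatest (fun l => G.W N l j a b ≠ ⊥) (G.Λ * N) < l := by
    convert hl
  omega

theorem nn_le (N : ℕ) (j : ℤ) (a b : ℕ) : G.nn N j a b ≤ G.Λ * N := by
  classical
  unfold nn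
  convert Nat.findGreatest_le (P := fun l => G.W N l j a b ≠ ⊥) (G.Λ * N)

/-- the constant used for realizability at level `N`. -/
noncomputable def cst (T : Datum K) (q N : ℕ) : ℤ := 105 * T.t * q * N + 2 * T.X.genus

/-- the actual system at level `N`. -/
noncomputable def base (P₀ : T.X.Pt) (hq : 0 < q) {N : ℕ} (hN : 4 ≤ N) : Sys G (cst T q N) N where
  n := G.nn N
  m := fun j a b l => T.X.mdeg (G.W N l j a b)
  n_le := fun j a b _ => G.nn_le N j a b
  m_zero := by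
    intro j a b h
    rw [G.W_zero N j a b h]
    unfold Datum.V
    rw [T.X.mdeg_L P₀ (deg_ge hD hq hN h.1), deg_dvs_crit T q D₀ hD]
  m_anti := by
    intro j a b h l l' hl hl'
    exact CurveOrd.mdeg_mono (G.W_le N l j a b h) (G.W_anti N l l' j a b hl)
      (G.W_ne_bot hD hq hN h hl')
  real := by
    intro j a b h l hl
    apply G.real_base P₀ h (G.W_ne_bot hD hq hN h hl)
    have h1 := CurveOrd.mdeg_le (G.W_le N l j a b h) (G.W_ne_bot hD hq hN h hl)
    rw [deg_dvs_crit T q D₀ hD] at h1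
    have h2 := dg_le T.t q N j
    unfold cst
    linarith

variable {G}

/-- iterated doubling. -/
theorem iterate (hq : 0 < q) {c : ℤ} {N : ℕ} (hN : 0 < N) (s : Sys G c N) (i : ℕ) :
    ∃ s' : Sys G c (2 ^ i * N), 32 ^ i * s.Phi -
      600000 * T.t * (q : ℝ) ^ 2 * G.Λ * (N : ℝ) ^ 3 * ((32 ^ i - 8 ^ i) / 24) ≤ s'.Phi := by
  induction i with
  | zero =>
    rw [pow_zero, one_mul]
    refine ⟨s, ?_⟩
    norm_num
  | succ i ih =>
    obtain ⟨s', hs'⟩ := ih
    obtain ⟨s'', hs''⟩ := s'.exists_double_Phi hq (by positivity)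
    have e : 2 * (2 ^ i * N) = 2 ^ (i + 1) * N := by rw [pow_succ]; ring
    rw [← e]
    refine ⟨s'', le_trans ?_ hs''⟩
    push_cast
    have e1 : ((2 : ℝ) ^ i * N) ^ 3 = 8 ^ i * (N : ℝ) ^ 3 := by
      rw [mul_pow, ← pow_mul, mul_comm i 3, pow_mul]
      norm_num
    rw [e1, show (32 : ℝ) ^ (i + 1) = 32 * 32 ^ i from pow_succ' _ _,
      show (8 : ℝ) ^ (i + 1) = 8 * 8 ^ i from pow_succ' _ _]
    have := mul_le_mul_of_nonneg_left hs' (by norm_num : (0 : ℝ) ≤ 32)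
    linarith

include hD in
/-- realizable degrees bound dimensions. -/
theorem Phi_le_tot (P₀ : T.X.Pt) (hq : 0 < q) {N L : ℕ} (hN : 4 ≤ N) (s : Sys G (cst T q N) L) :
    s.Phi ≤ G.tot (2 * N + L) := by
  have hD' : ∀ j : ℤ, |j| ≤ 5 * q * L ↔ j ∈ Icc (-((5 * q * L : ℕ) : ℤ)) ((5 * q * L : ℕ) : ℤ) := by
    intro j
    rw [mem_Icc, abs_le]
    push_cast
    rfl
  have h1 : s.Phi ≤ ∑ j ∈ Icc (-((5 * q * L : ℕ) : ℤ)) ((5 * q * L : ℕ) : ℤ),
      ∑ a ∈ range (AA q L j + 1), ∑ b ∈ range (BB q L j + 1), (s.U j a b : ℝ) := by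
    unfold Sys.Phi
    rw [sum_range_eq_Icc (5 * q * L) (fun j => Wt q L j * s.ub j)]
    apply sum_le_sum
    intro j hj
    have hj' := (hD' j).2 hj
    rw [← av_mult hj']
    exact mul_le_mul_of_nonneg_right (Wt_le_mult hj') (s.ub_nonneg hj')
  refine h1.trans ?_
  unfold tot
  have hsub : Icc (-((5 * q * L : ℕ) : ℤ)) ((5 * q * L : ℕ) : ℤ) ⊆
      Icc (-((5 * q * (2 * N + L) : ℕ) : ℤ)) ((5 * q * (2 * N + L) : ℕ) : ℤ) := by
    apply Icc_subset_Icc
    · apply neg_le_neg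
      exact_mod_cast Nat.mul_le_mul_left (5 * q) (by omega : L ≤ 2 * N + L)
    · exact_mod_cast Nat.mul_le_mul_left (5 * q) (by omega : L ≤ 2 * N + L)
  refine le_trans ?_ (sum_le_sum_of_subset_of_nonneg hsub (fun _ _ _ =>
    sum_nonneg fun _ _ => sum_nonneg fun _ _ => sum_nonneg fun _ _ => by positivity))
  apply sum_le_sum
  intro j hj
  have hj' := (hD' j).2 hj
  have hA : AA q L j ≤ AA q (2 * N + L) j := by
    unfold AA
    apply Int.toNat_le_toNat
    push_cast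
    nlinarith [mul_nonneg (Int.natCast_nonneg q) (Int.natCast_nonneg N)]
  have hB : BB q L j ≤ BB q (2 * N + L) j := by
    unfold BB
    apply Int.toNat_le_toNat
    push_cast
    nlinarith [mul_nonneg (Int.natCast_nonneg q) (Int.natCast_nonneg N)]
  refine le_trans ?_ (sum_le_sum_of_subset_of_nonneg (range_subset_range.2
    (Nat.succ_le_succ hA)) (fun _ _ _ => sum_nonneg fun _ _ => sum_nonneg fun _ _ => by positivity))
  apply sum_le_sum
  intro a ha
  refine le_trans ?_ (sum_le_sum_of_subset_of_nonneg (range_subset_range.2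
    (Nat.succ_le_succ hB)) (fun _ _ _ => sum_nonneg fun _ _ => by positivity))
  apply sum_le_sum
  intro b hb
  have hin : InR q L j a b := (inR_iff hj').2
    ⟨Nat.lt_succ_iff.1 (mem_range.1 ha), Nat.lt_succ_iff.1 (mem_range.1 hb)⟩
  have hn := s.n_le j a b hin
  have hn' : s.n j a b ≤ G.Λ * (2 * N + L) :=
    hn.trans (Nat.mul_le_mul_left _ (by omega))
  refine le_trans ?_ (sum_le_sum_of_subset_of_nonneg (range_subset_range.2 hn')
    (fun _ _ _ => by positivity))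
  unfold Sys.U
  push_cast
  apply sum_le_sum
  intro l hl
  have hl' := mem_range.1 hl
  have hr := s.real j a b hin (l + 1) (by omega)
  have hin0 : InR q (2 * N) 0 0 0 := by
    refine ⟨?_, ?_, ?_⟩
    · rw [abs_zero]; positivity
    · push_cast; positivity
    · push_cast; linarith [mul_nonneg (mul_nonneg (by norm_num : (0 : ℤ) ≤ 25)
        (Int.natCast_nonneg q)) (mul_nonneg (by norm_num : (0 : ℤ) ≤ 2) (Int.natCast_nonneg N))]
  have hdeg0 : dg T.t q (2 * N) 0 = 105 * T.t * q * (2 * N) := by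
    unfold dg
    have : (0 : ℤ) ≤ 4 * q * ((2 * N : ℕ) : ℤ) := by positivity
    rw [max_eq_left (by linarith), max_eq_left (by linarith)]
    push_cast
    ring
  have hg := two_genus_le (T := T) (q := q) hq hN
  have hdvs : T.X.deg (T.dvs q D₀ (2 * N) 0) = 105 * T.t * q * (2 * N) := by
    rw [deg_dvs_crit T q D₀ hD, hdeg0]
  have htq : (0 : ℤ) ≤ T.t * q * N := by positivity
  obtain ⟨D', hD'1, hD'2⟩ := hr.2.2 (2 * N) 0 0 0 0 (T.dvs q D₀ (2 * N) 0) hin0
    (by rw [G.W_zero (2 * N) 0 0 0 hin0]; exact le_rfl) (by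
      rw [hdvs]
      unfold cst
      nlinarith)
  rw [zero_add, zero_add, zero_add, zero_add] at hD'2
  have hin' : InR q (2 * N + L) j a b := by
    have := hin0.add hin
    rwa [zero_add, zero_add, zero_add] at this
  have hfin : FiniteDimensional ℂ (G.W (2 * N + L) (l + 1) j a b) :=
    T.X.finite_of_le P₀ (G.W_le _ _ _ _ _ hin')
  have h3 := Submodule.finrank_mono hD'2
  have hm := s.m_nonneg hin (show l + 1 ≤ s.n j a b by omega)
  rw [hdvs] at hD'1
  have h4 := T.X.riemann_roch D' (by nlinarith)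
  have h5 : ((finrank ℂ (T.X.L D') : ℕ) : ℤ) ≤
      (finrank ℂ (G.W (2 * N + L) (l + 1) j a b) : ℤ) := by exact_mod_cast h3
  rw [h4] at h5
  have h6 : s.m j a b (l + 1) ≤ (finrank ℂ (G.W (2 * N + L) (l + 1) j a b) : ℤ) := by
    have hg0 : (0 : ℤ) ≤ T.X.genus := by positivity
    nlinarith
  exact_mod_cast h6

end Graded

end Pool.Agent.YTD
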