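import Pool.Agent.YTD.Expo

/-!
Linear inequalities for finitely generated filtrations.
-/

namespace Pool.Agent.YTD

open Finset Module MvPolynomial

variable {K : Type} [Field K] [Algebra ℂ K] (X : CurveOrd K)

/-- the index of an exponent. -/
noncomputable def jr (e : Fin 4 →₀ ℕ) : ℝ := (((e 0 : ℝ) + e 1) - (e 2 + e 3)) / 6

theorem jr_add (e e' : Fin 4 →₀ ℕ) : jr (e + e') = jr e + jr e' := by
  unfold jr
  simp only [Finsupp.add_apply]
  push_cast
  ring

theorem jr_zero : jr 0 = 0 := by simp [jr]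

theorem jr_of {e : Fin 4 →₀ ℕ} {q N : ℕ} {j : ℤ} (hx : (e 0 : ℤ) + e 1 = 25 * q * N + 3 * j)
    (hy : (e 2 : ℤ) + e 3 = 25 * q * N - 3 * j) : jr e = j := by
  have hx' : (e 0 : ℝ) + e 1 = 25 * q * N + 3 * j := by exact_mod_cast hx
  have hy' : (e 2 : ℝ) + e 3 = 25 * q * N - 3 * j := by exact_mod_cast hy
  unfold jr
  rw [hx', hy']
  ring

/-- functions with `0 ≤ v + D ord_P`. -/
def LG (P : X.Pt) (D : ℝ) (hD : 0 ≤ D) (v : ℝ) : Submodule ℂ K where
  carrier := {c | c ≠ 0 → 0 ≤ v + D * X.ord P c}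
  zero_mem' := fun h => (h rfl).elim
  add_mem' := by
    intro f g hf hg h
    by_cases hf0 : f = 0
    · subst hf0
      rw [zero_add] at h ⊢
      exact hg h
    by_cases hg0 : g = 0
    · subst hg0
      rw [add_zero] at h ⊢
      exact hf h
    have h1 := X.ord_add P f g hf0 hg0 h
    have h2 := hf hf0
    have h3 := hg hg0
    rcases min_choice (X.ord P f) (X.ord P g) with h4 | h4 <;> rw [h4] at h1
    · have : D * (X.ord P f : ℝ) ≤ D * X.ord P (f + g) :=
        mul_le_mul_of_nonneg_left (by exact_mod_cast h1) hD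
      linarith
    · have : D * (X.ord P g : ℝ) ≤ D * X.ord P (f + g) :=
        mul_le_mul_of_nonneg_left (by exact_mod_cast h1) hD
      linarith
  smul_mem' := by
    intro c f hf h
    have hc : c ≠ 0 := by
      rintro rfl
      exact h (zero_smul ℂ f)
    have hf0 : f ≠ 0 := by
      rintro rfl
      exact h (smul_zero c)
    rw [Algebra.smul_def, X.ord_mul P _ _ ((map_ne_zero _).2 hc) hf0, X.ord_const P c hc, zero_add]
    exact hf hf0

variable {X}

theorem mem_LG {P : X.Pt} {D : ℝ} {hD : 0 ≤ D} {v : ℝ} {c : K} :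
    c ∈ LG X P D hD v ↔ (c ≠ 0 → 0 ≤ v + D * X.ord P c) := Iff.rfl

theorem LG_mul {P : X.Pt} {D : ℝ} {hD : 0 ≤ D} {v v' : ℝ} {c c' : K} (h : c ∈ LG X P D hD v)
    (h' : c' ∈ LG X P D hD v') : c * c' ∈ LG X P D hD (v + v') := by
  intro h0
  have hc : c ≠ 0 := left_ne_zero_of_mul h0
  have hc' : c' ≠ 0 := right_ne_zero_of_mul h0
  rw [X.ord_mul P _ _ hc hc']
  have h1 := h hc
  have h2 := h' hc'
  push_cast
  linarith

theorem LG_mono {P : X.Pt} {D : ℝ} {hD : 0 ≤ D} {v v' : ℝ} (h : v ≤ v') :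
    LG X P D hD v ≤ LG X P D hD v' := by
  intro c hc h0
  have := hc h0
  linarith

/-- polynomials satisfying a linear inequality. -/
noncomputable def LP (P : X.Pt) (A B C D : ℝ) (hD : 0 ≤ D) (N : ℕ) (l : ℤ) :
    Submodule ℂ (MvPolynomial (Fin 4) K) where
  carrier := {f | ∀ e, f.coeff e ∈ LG X P D hD (A * N + B * jr e - C * l)}
  zero_mem' := by
    intro e
    rw [coeff_zero]
    exact zero_mem _
  add_mem' := by
    intro f g hf hg e
    rw [coeff_add]
    exact add_mem (hf e) (hg e)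
  smul_mem' := by
    intro c f hf e
    rw [coeff_smul]
    exact Submodule.smul_mem _ _ (hf e)

theorem mem_LP {P : X.Pt} {A B C D : ℝ} {hD : 0 ≤ D} {N : ℕ} {l : ℤ}
    {f : MvPolynomial (Fin 4) K} : f ∈ LP P A B C D hD N l ↔
      ∀ e, f.coeff e ∈ LG X P D hD (A * N + B * jr e - C * l) := Iff.rfl

theorem LP_mul {P : X.Pt} {A B C D : ℝ} {hD : 0 ≤ D} {N N' : ℕ} {l l' : ℤ}
    {f g : MvPolynomial (Fin 4) K} (hf : f ∈ LP P A B C D hD N l)
    (hg : g ∈ LP P A B C D hD N' l') : f * g ∈ LP P A B C D hD (N + N') (l + l') := by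
  classical
  intro e
  rw [coeff_mul]
  apply sum_mem
  intro p hp
  have hp' := Finset.HasAntidiagonal.mem_antidiagonal.1 hp
  have := LG_mul (hf p.1) (hg p.2)
  rw [← hp', jr_add]
  push_cast
  have e1 : A * ((N : ℝ) + N') + B * (jr p.1 + jr p.2) - C * ((l : ℝ) + l') =
    (A * N + B * jr p.1 - C * l) + (A * N' + B * jr p.2 - C * l') := by ring
  rw [e1]
  exact this

theorem LP_one {P : X.Pt} {A B C D : ℝ} {hD : 0 ≤ D} :
    (1 : MvPolynomial (Fin 4) K) ∈ LP P A B C D hD 0 0 := by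
  classical
  intro e
  rw [coeff_one]
  split_ifs with h
  · intro _
    rw [← h, jr_zero, X.ord_one]
    simp
  · exact zero_mem _

theorem LP_pow {P : X.Pt} {A B C D : ℝ} {hD : 0 ≤ D} {N : ℕ} {l : ℤ}
    {f : MvPolynomial (Fin 4) K} (hf : f ∈ LP P A B C D hD N l) (m : ℕ) :
    f ^ m ∈ LP P A B C D hD (m * N) (m * l) := by
  induction m with
  | zero =>
    rw [pow_zero, Nat.zero_mul, Nat.cast_zero, zero_mul]
    exact LP_one
  | succ m ih =>
    have := LP_mul ih hf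
    rw [pow_succ, Nat.succ_mul]
    push_cast
    rw [add_mul, one_mul]
    exact this

theorem LP_prod {P : X.Pt} {A B C D : ℝ} {hD : 0 ≤ D} {k : ℕ} {n : Fin k → ℕ} {w : Fin k → ℤ}
    {f : Fin k → MvPolynomial (Fin 4) K} (hf : ∀ i, f i ∈ LP P A B C D hD (n i) (w i))
    (m : Fin k → ℕ) (s : Finset (Fin k)) :
    ∏ i ∈ s, f i ^ m i ∈ LP P A B C D hD (∑ i ∈ s, m i * n i) (∑ i ∈ s, m i * w i) := by
  classical
  induction s using Finset.induction_on with
  | empty =>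
    simp only [prod_empty, sum_empty]
    exact LP_one
  | insert a s ha ih =>
    rw [prod_insert ha, sum_insert ha, sum_insert ha]
    exact LP_mul (LP_pow (hf a) (m a)) ih

theorem LP_anti {P : X.Pt} {A B C D : ℝ} {hD : 0 ≤ D} (hC : 0 ≤ C) {N : ℕ} {l l' : ℤ}
    (h : l ≤ l') : (LP P A B C D hD N l' : Submodule ℂ (MvPolynomial (Fin 4) K)) ≤
      LP P A B C D hD N l := by
  intro f hf e
  apply LG_mono _ (hf e)
  have : (l : ℝ) ≤ l' := by exact_mod_cast h
  nlinarith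

/-- linear inequalities satisfied by generators are satisfied by all elements. -/
theorem TestConf.le_LP {T : Datum K} {q : ℕ} {D₀ : T.X.Pt →₀ ℤ} {r : ℕ} (χ : TestConf T q D₀ r)
    {k : ℕ} {n : Fin k → ℕ} {w : Fin k → ℤ} {f : Fin k → MvPolynomial (Fin 4) K}
    (hspan : ∀ N l, χ.F N l ≤ Submodule.span ℂ {g | ∃ m : Fin k → ℕ,
      ∑ i, m i * n i = N ∧ l ≤ ∑ i, m i * w i ∧ g = ∏ i, f i ^ m i})
    {P : T.X.Pt} {A B C D : ℝ} {hD : 0 ≤ D} (hC : 0 ≤ C)
    (hf : ∀ i, f i ∈ LP P A B C D hD (n i) (w i)) (N : ℕ) (l : ℤ) :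
    χ.F N l ≤ LP P A B C D hD N l := by
  refine (hspan N l).trans ?_
  rw [Submodule.span_le]
  rintro g ⟨m, hm, hl, rfl⟩
  have h1 := LP_prod hf m Finset.univ
  rw [hm] at h1
  exact LP_anti hC hl h1

end Pool.Agent.YTD
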