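import Pool.Agent.YTD.Bridge

/-!
Affine weights on the exponents.
-/

namespace Pool.Agent.YTD

open Finset Module MvPolynomial

/-- the affine weight with coefficients `al, be, ga, de`. -/
def lw (al be ga de : ℤ) (N : ℕ) (j : ℤ) (a b : ℕ) : ℤ := al * a + be * b + ga * j + de * N

theorem lw_add (al be ga de : ℤ) (N N' : ℕ) (j j' : ℤ) (a a' b b' : ℕ) :
    lw al be ga de (N + N') (j + j') (a + a') (b + b') =
      lw al be ga de N j a b + lw al be ga de N' j' a' b' := by
  unfold lw
  push_cast
  ring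

theorem lw_smul (al be ga de : ℤ) (k N : ℕ) (j : ℤ) (a b : ℕ) :
    lw al be ga de (k * N) (k * j) (k * a) (k * b) = k * lw al be ga de N j a b := by
  unfold lw
  push_cast
  ring

theorem InR.smul {q N : ℕ} {j : ℤ} {a b : ℕ} (h : InR q N j a b) (k : ℕ) :
    InR q (k * N) (k * j) (k * a) (k * b) := by
  obtain ⟨h1, h2, h3⟩ := h
  have hk : (0 : ℤ) ≤ k := by positivity
  refine ⟨?_, ?_, ?_⟩
  · rw [abs_mul, abs_of_nonneg hk]
    push_cast
    nlinarith
  · push_cast
    nlinarith
  · push_cast
    nlinarith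

/-- a vertex at which the affine weight is minimal. -/
theorem exists_min_vertex (al be ga de : ℤ) (q : ℕ) :
    ∃ (j₁ : ℤ) (a₁ b₁ : ℕ), InR q 1 j₁ a₁ b₁ ∧ (j₁ = 5 * q ∨ j₁ = -(5 * q)) ∧
      ∀ (N : ℕ) (j : ℤ) (a b : ℕ), InR q N j a b →
        N * lw al be ga de 1 j₁ a₁ b₁ ≤ lw al be ga de N j a b := by
  -- the minimal value in the directions `a`, `b` for fixed `j`
  have key : ∀ (ε : ℤ), (ε = 1 ∨ ε = -1) →
      (∀ x : ℤ, |x| ≤ 1 → 0 ≤ (3 * min 0 al - 3 * min 0 be + ga) * (x - ε)) →
      ∃ (j₁ : ℤ) (a₁ b₁ : ℕ), InR q 1 j₁ a₁ b₁ ∧ (j₁ = 5 * q ∨ j₁ = -(5 * q)) ∧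
      ∀ (N : ℕ) (j : ℤ) (a b : ℕ), InR q N j a b →
        N * lw al be ga de 1 j₁ a₁ b₁ ≤ lw al be ga de N j a b := by
    intro ε hε hc
    have hq : (0 : ℤ) ≤ q := by positivity
    have hA : (0 : ℤ) ≤ 25 * q + 3 * (ε * (5 * q)) := by
      rcases hε with rfl | rfl <;> linarith
    have hB : (0 : ℤ) ≤ 25 * q - 3 * (ε * (5 * q)) := by
      rcases hε with rfl | rfl <;> linarith
    refine ⟨ε * (5 * q), if al < 0 then (25 * q + 3 * (ε * (5 * q)) : ℤ).toNat else 0,
      if be < 0 then (25 * q - 3 * (ε * (5 * q)) : ℤ).toNat else 0, ⟨?_, ?_, ?_⟩, ?_, ?_⟩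
    · rcases hε with rfl | rfl
      · rw [one_mul, abs_of_nonneg (by linarith)]
        push_cast
        linarith
      · rw [neg_mul, one_mul, abs_neg, abs_of_nonneg (by linarith)]
        push_cast
        linarith
    · split_ifs
      · rw [Int.toNat_of_nonneg hA]
        push_cast
        linarith
      · push_cast
        linarith
    · split_ifs
      · rw [Int.toNat_of_nonneg hB]
        push_cast
        linarith
      · push_cast
        linarith
    · rcases hε with rfl | rfl
      · left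
        ring
      · right
        ring
    · intro N j a b h
      obtain ⟨h1, h2, h3⟩ := h
      have hN : (0 : ℤ) ≤ N := by positivity
      have ha0 : (0 : ℤ) ≤ a := by positivity
      have hb0 : (0 : ℤ) ≤ b := by positivity
      have ea : al * ((if al < 0 then (25 * q + 3 * (ε * (5 * q)) : ℤ).toNat else 0 : ℕ) : ℤ) =
          min 0 al * (25 * q + 3 * (ε * (5 * q))) := by
        split_ifs with h4
        · rw [Int.toNat_of_nonneg hA, min_eq_right h4.le]
        · rw [min_eq_left (not_lt.1 h4)]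
          simp
      have eb : be * ((if be < 0 then (25 * q - 3 * (ε * (5 * q)) : ℤ).toNat else 0 : ℕ) : ℤ) =
          min 0 be * (25 * q - 3 * (ε * (5 * q))) := by
        split_ifs with h4
        · rw [Int.toNat_of_nonneg hB, min_eq_right h4.le]
        · rw [min_eq_left (not_lt.1 h4)]
          simp
      have fa : min 0 al * (25 * q * N + 3 * j) ≤ al * a := by
        rcases le_total 0 al with h4 | h4
        · rw [min_eq_left h4, zero_mul]
          positivity
        · rw [min_eq_right h4]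
          nlinarith
      have fb : min 0 be * (25 * q * N - 3 * j) ≤ be * b := by
        rcases le_total 0 be with h4 | h4
        · rw [min_eq_left h4, zero_mul]
          positivity
        · rw [min_eq_right h4]
          nlinarith
      have fc : 0 ≤ (3 * min 0 al - 3 * min 0 be + ga) * (j - ε * (5 * q) * N) := by
        rw [abs_le] at h1
        have h5 := hc 1 (by norm_num)
        have h6 := hc (-1) (by norm_num)
        generalize 3 * min 0 al - 3 * min 0 be + ga = c at h5 h6 ⊢
        rcases hε with rfl | rfl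
        · have : c ≤ 0 := by linarith
          nlinarith
        · have : 0 ≤ c := by linarith
          nlinarith
      unfold lw
      rw [ea, eb]
      push_cast
      nlinarith
  by_cases h : 3 * min 0 al - 3 * min 0 be + ga ≤ 0
  · refine key 1 (Or.inl rfl) ?_
    intro x hx
    rw [abs_le] at hx
    nlinarith
  · refine key (-1) (Or.inr rfl) ?_
    intro x hx
    rw [abs_le] at hx
    push Not at h
    nlinarith

/-- crude bound on a small box. -/
theorem lw_le_box (al be ga de : ℤ) (s : ℕ) {x y z : ℕ} (hx : x ≤ s) (hy : y ≤ s) (hz : z ≤ s) :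
    lw al be ga de s (x : ℤ) y z ≤ s * (|al| + |be| + |ga| + |de|) := by
  unfold lw
  have hx' : (x : ℤ) ≤ s := by exact_mod_cast hx
  have hy' : (y : ℤ) ≤ s := by exact_mod_cast hy
  have hz' : (z : ℤ) ≤ s := by exact_mod_cast hz
  have hx0 : (0 : ℤ) ≤ x := by positivity
  have hy0 : (0 : ℤ) ≤ y := by positivity
  have hz0 : (0 : ℤ) ≤ z := by positivity
  have hs0 : (0 : ℤ) ≤ s := by positivity
  have h1 : al * y ≤ |al| * s :=
    (mul_le_mul_of_nonneg_right (le_abs_self al) hy0).trans
      (mul_le_mul_of_nonneg_left hy' (abs_nonneg al))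
  have h2 : be * z ≤ |be| * s :=
    (mul_le_mul_of_nonneg_right (le_abs_self be) hz0).trans
      (mul_le_mul_of_nonneg_left hz' (abs_nonneg be))
  have h3 : ga * x ≤ |ga| * s :=
    (mul_le_mul_of_nonneg_right (le_abs_self ga) hx0).trans
      (mul_le_mul_of_nonneg_left hx' (abs_nonneg ga))
  have h4 : de * s ≤ |de| * s := mul_le_mul_of_nonneg_right (le_abs_self de) hs0
  linarith

theorem inR_box {q s : ℕ} (hq : 0 < q) {x y z : ℕ} (hx : x ≤ s) (hy : y ≤ s) (hz : z ≤ s) :
    InR q s (x : ℤ) y z := by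
  have hq' : (1 : ℤ) ≤ q := by exact_mod_cast hq
  have hx' : (x : ℤ) ≤ s := by exact_mod_cast hx
  have hy' : (y : ℤ) ≤ s := by exact_mod_cast hy
  have hz' : (z : ℤ) ≤ s := by exact_mod_cast hz
  have hx0 : (0 : ℤ) ≤ x := by positivity
  have hs0 : (0 : ℤ) ≤ s := by positivity
  have h1 : (s : ℤ) ≤ q * s := by nlinarith
  refine ⟨?_, ?_, ?_⟩
  · rw [abs_of_nonneg hx0]
    linarith
  · linarith
  · linarith

end Pool.Agent.YTD
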