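import Pool.Agent.YTD.RigidDef
import Pool.Agent.YTD.Twist

/-!
The maximal slope of a filtration: it is attained for test configurations, and it is the maximum
of the affine weight of a rigid filtration.
-/

namespace Pool.Agent.YTD

open Finset Module MvPolynomial

variable {K : Type} [Field K] [Algebra ℂ K]
variable {T : Datum K} {q : ℕ} {D₀ : T.X.Pt →₀ ℤ} {r : ℕ}

theorem deg_crit_mul (hD : T.X.deg D₀ = 105 * T.t * q) (r : ℕ) :
    T.X.deg (r • D₀) = 105 * T.t * ((r * q : ℕ) : ℤ) := by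
  rw [T.X.deg_nsmul, hD]
  push_cast
  ring

theorem finrank_V_ge (hD : T.X.deg D₀ = 105 * T.t * q) (hq : 0 < q) {N : ℕ} (hN : 4 ≤ N) {j : ℤ}
    (hj : |j| ≤ 5 * q * N) : N ≤ finrank ℂ (T.V q D₀ N j) := by
  have ht : (1 : ℤ) ≤ T.t := by exact_mod_cast T.t_pos
  have hq' : (1 : ℤ) ≤ q := by exact_mod_cast hq
  have hN' : (4 : ℤ) ≤ N := by exact_mod_cast hN
  have h1 := le_dg (t := T.t) hj
  have h2 := deg_dvs_crit T q D₀ hD N j
  have hg : (T.X.genus : ℤ) = 9 * T.t + 1 := by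
    rw [T.genus_eq]
    push_cast
    ring
  have hqN : (N : ℤ) ≤ q * N := by nlinarith
  have h3 : 5 * (T.t : ℤ) * N ≤ 5 * (T.t : ℤ) * q * N := by
    have : 5 * (T.t : ℤ) * N ≤ 5 * (T.t : ℤ) * (q * N) :=
      mul_le_mul_of_nonneg_left hqN (by positivity)
    linarith
  have h4 : 5 * (T.t : ℤ) * 4 ≤ 5 * (T.t : ℤ) * N :=
    mul_le_mul_of_nonneg_left hN' (by positivity)
  have h5 := T.X.riemann_roch (T.dvs q D₀ N j) (by rw [h2, hg]; linarith)
  rw [h2, hg] at h5
  have h6 : (N : ℤ) ≤ finrank ℂ (T.V q D₀ N j) := by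
    show (N : ℤ) ≤ finrank ℂ (T.X.L (T.dvs q D₀ N j))
    rw [h5]
    nlinarith
  exact_mod_cast h6

theorem sum_range_box {A B a₀ b₀ n : ℕ} (ha : a₀ + n ≤ A) (hb : b₀ + n ≤ B) {f : ℕ → ℕ → ℝ}
    (hf : ∀ a ≤ A, ∀ b ≤ B, 0 ≤ f a b) {c : ℝ}
    (hc : ∀ a ≤ n, ∀ b ≤ n, c ≤ f (a₀ + a) (b₀ + b)) :
    ((n : ℝ) + 1) ^ 2 * c ≤ ∑ a ∈ range (A + 1), ∑ b ∈ range (B + 1), f a b := by
  have h1 : ∑ a ∈ (range (n + 1)).image (fun a => a₀ + a),
      ∑ b ∈ (range (n + 1)).image (fun b => b₀ + b), f a b ≤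
      ∑ a ∈ range (A + 1), ∑ b ∈ range (B + 1), f a b := by
    have hsa : (range (n + 1)).image (fun a => a₀ + a) ⊆ range (A + 1) := by
      intro a h
      obtain ⟨a', h', rfl⟩ := mem_image.1 h
      rw [mem_range] at h' ⊢
      omega
    have hsb : (range (n + 1)).image (fun b => b₀ + b) ⊆ range (B + 1) := by
      intro a h
      obtain ⟨a', h', rfl⟩ := mem_image.1 h
      rw [mem_range] at h' ⊢
      omega
    refine (sum_le_sum fun a ha' => sum_le_sum_of_subset_of_nonneg hsb fun b hb' _ => ?_).trans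
      (sum_le_sum_of_subset_of_nonneg hsa fun a ha' _ => sum_nonneg fun b hb' => ?_)
    · have h2 := hsa ha'
      rw [mem_range] at h2 hb'
      exact hf a (by omega) b (by omega)
    · rw [mem_range] at ha' hb'
      exact hf a (by omega) b (by omega)
  refine le_trans ?_ h1
  rw [sum_image (fun a _ a' _ h => by simpa using h)]
  have h3 : ∀ a ∈ range (n + 1), ((n : ℝ) + 1) * c ≤
      ∑ b ∈ (range (n + 1)).image (fun b => b₀ + b), f (a₀ + a) b := by
    intro a ha'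
    rw [sum_image (fun a _ a' _ h => by simpa using h)]
    have := card_nsmul_le_sum (range (n + 1)) (fun b => f (a₀ + a) (b₀ + b)) c (fun b hb' => by
      rw [mem_range] at ha' hb'
      exact hc a (by omega) b (by omega))
    rw [card_range, nsmul_eq_mul] at this
    push_cast at this
    exact this
  have h4 := card_nsmul_le_sum (range (n + 1)) _ (((n : ℝ) + 1) * c) h3
  rw [card_range, nsmul_eq_mul] at h4
  push_cast at h4
  rw [sq, mul_assoc]
  exact h4

namespace Filt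

variable {χ : Filt T q D₀ r} {m : MonomialOrder (Fin 4)} {al be ga de : ℤ}

theorem ini_le_V_slope (χ : Filt T q D₀ r) (m : MonomialOrder (Fin 4)) {N : ℕ} (l : ℤ) {j : ℤ} {a b : ℕ}
    (h : InR (r * q) N j a b) :
    ini m (χ.F N l) (expo (r * q) N j a b) ≤ T.V (r * q) (r • D₀) N j := by
  rw [← T.ini_sec m h, T.sec_mul]
  exact ini_mono (χ.le N l) _

theorem finite_V (P₀ : T.X.Pt) (q N : ℕ) (D₀ : T.X.Pt →₀ ℤ) (j : ℤ) :
    FiniteDimensional ℂ (T.V q D₀ N j) := T.X.finite_L P₀ _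

/-- all terms of the deficit sums are nonnegative. -/
theorem defi_nonneg (P₀ : T.X.Pt) (χ : Filt T q D₀ r) (m : MonomialOrder (Fin 4)) {N : ℕ} (l : ℤ)
    {j : ℤ} {a b : ℕ} (h : InR (r * q) N j a b) :
    0 ≤ (finrank ℂ (T.V (r * q) (r • D₀) N j) : ℝ) -
      finrank ℂ (ini m (χ.F N l) (expo (r * q) N j a b)) := by
  have := finite_V P₀ (r * q) N (r • D₀) j
  have h1 := Submodule.finrank_mono (χ.ini_le_V_slope m l h)
  have : ((finrank ℂ (ini m (χ.F N l) (expo (r * q) N j a b)) : ℕ) : ℝ) ≤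
    finrank ℂ (T.V (r * q) (r • D₀) N j) := by exact_mod_cast h1
  linarith

/-- In a large enough box below the affine weight some initial space is not zero. -/
theorem Rigid.exists_ne_bot (hR : χ.Rigid m al be ga de) (P₀ : T.X.Pt) (hQ : 0 < r * q)
    (hD : T.X.deg (r • D₀) = 105 * T.t * ((r * q : ℕ) : ℤ)) (M : ℕ) (hM : 0 < M) :
    ∃ n₀ : ℕ, ∀ n ≥ n₀, ∀ (j : ℤ) (a₀ b₀ : ℕ) (l : ℤ),
      (∀ a ≤ n, ∀ b ≤ n, InR (r * q) (M * n) j (a₀ + a) (b₀ + b) ∧
        l + n ≤ lw al be ga de (M * n) j (a₀ + a) (b₀ + b)) →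
      ∃ a ≤ n, ∃ b ≤ n, ini m (χ.F (M * n) l) (expo (r * q) (M * n) j (a₀ + a) (b₀ + b)) ≠ ⊥ := by
  obtain ⟨C, hC⟩ := hR.full
  refine ⟨4 + (Nat.ceil (C * M ^ 2) + 1), ?_⟩
  intro n hn j a₀ b₀ l hbox
  have hn4 : 4 ≤ n := by omega
  have hN : 4 ≤ M * n := le_trans hn4 (Nat.le_mul_of_pos_left n hM)
  by_contra hcon
  push Not at hcon
  have h00 := hbox 0 (Nat.zero_le _) 0 (Nat.zero_le _)
  have hj := h00.1.1
  -- `l` is above the trivial range
  have hV : (M * n : ℕ) ≤ finrank ℂ (T.V (r * q) (r • D₀) (M * n) j) := finrank_V_ge hD hQ hN hj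
  have hl : -((χ.lam : ℤ) * ((M * n : ℕ) : ℤ)) < l := by
    by_contra hl
    have h1 : χ.F (M * n) l = T.sec q D₀ (r * (M * n)) := χ.F_of_le (not_lt.1 hl)
    have h2 := hcon 0 (Nat.zero_le _) 0 (Nat.zero_le _)
    rw [h1, ← T.sec_mul, T.ini_sec m h00.1] at h2
    rw [h2, finrank_bot] at hV
    omega
  have hfull := hC (M * n) hN
  -- restrict to the layer `j`
  have hsub := single_le_sum (s := Icc (-((5 * (r * q) * (M * n) : ℕ) : ℤ))
      ((5 * (r * q) * (M * n) : ℕ) : ℤ)) (f := fun j => ∑ a ∈ range (AA (r * q) (M * n) j + 1),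
      ∑ b ∈ range (BB (r * q) (M * n) j + 1),
        ∑ l ∈ Ioc (-((χ.lam : ℤ) * ((M * n : ℕ) : ℤ))) (lw al be ga de (M * n) j a b),
          ((finrank ℂ (T.V (r * q) (r • D₀) (M * n) j) : ℝ) -
            finrank ℂ (ini m (χ.F (M * n) l) (expo (r * q) (M * n) j a b)))) (by
      intro j' hj'
      have hj'' := mem_Icc_iff'.1 hj'
      refine sum_nonneg fun a ha => sum_nonneg fun b hb => sum_nonneg fun l' _ => ?_
      rw [mem_range] at ha hb
      exact defi_nonneg P₀ χ m l' ((inR_iff hj'').2 ⟨by omega, by omega⟩)) (mem_Icc_iff'.2 hj)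
  have h1 := hsub.trans hfull
  -- the box
  have hnn := hbox n le_rfl n le_rfl
  have hAB := (inR_iff hj).1 hnn.1
  have h2 := sum_range_box (A := AA (r * q) (M * n) j) (B := BB (r * q) (M * n) j) (a₀ := a₀)
    (b₀ := b₀) (n := n) hAB.1 hAB.2 (f := fun a b =>
        ∑ l ∈ Ioc (-((χ.lam : ℤ) * ((M * n : ℕ) : ℤ))) (lw al be ga de (M * n) j a b),
          ((finrank ℂ (T.V (r * q) (r • D₀) (M * n) j) : ℝ) -
            finrank ℂ (ini m (χ.F (M * n) l) (expo (r * q) (M * n) j a b)))) (by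
      intro a ha b hb
      refine sum_nonneg fun l' _ => ?_
      exact defi_nonneg P₀ χ m l' ((inR_iff hj).2 ⟨ha, hb⟩)) (c := (n : ℝ) * ((M * n : ℕ) : ℝ)) (by
      intro a ha b hb
      obtain ⟨g1, g2⟩ := hbox a ha b hb
      have g3 := hcon a ha b hb
      have hss : Ioc l (lw al be ga de (M * n) j (a₀ + a) (b₀ + b)) ⊆
          Ioc (-((χ.lam : ℤ) * ((M * n : ℕ) : ℤ))) (lw al be ga de (M * n) j (a₀ + a) (b₀ + b)) := by
        intro x hx
        rw [mem_Ioc] at hx ⊢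
        exact ⟨by linarith [hx.1], hx.2⟩
      refine le_trans ?_ (sum_le_sum_of_subset_of_nonneg hss fun l' _ _ =>
        defi_nonneg P₀ χ m l' g1)
      have g4 := card_nsmul_le_sum (Ioc l (lw al be ga de (M * n) j (a₀ + a) (b₀ + b)))
        (fun l' => (finrank ℂ (T.V (r * q) (r • D₀) (M * n) j) : ℝ) -
            finrank ℂ (ini m (χ.F (M * n) l') (expo (r * q) (M * n) j (a₀ + a) (b₀ + b))))
        ((M * n : ℕ) : ℝ) (by
          intro l' hl'
          rw [mem_Ioc] at hl'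
          have : ini m (χ.F (M * n) l') (expo (r * q) (M * n) j (a₀ + a) (b₀ + b)) = ⊥ := by
            rw [eq_bot_iff, ← g3]
            exact ini_mono (χ.anti _ _ _ hl'.1.le) _
          rw [this, finrank_bot]
          push_cast
          rw [sub_zero]
          exact_mod_cast hV)
      refine le_trans ?_ g4
      rw [Int.card_Ioc, nsmul_eq_mul]
      apply mul_le_mul_of_nonneg_right _ (by positivity)
      have : (n : ℤ) ≤ (lw al be ga de (M * n) j (a₀ + a) (b₀ + b) - l).toNat := by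
        rw [Int.toNat_of_nonneg (by linarith)]
        linarith
      exact_mod_cast this)
  have h3 := h2.trans h1
  have h4 : C * M ^ 2 < n := by
    have := Nat.le_ceil (C * (M : ℝ) ^ 2)
    have h5 : ((4 + (Nat.ceil (C * M ^ 2) + 1) : ℕ) : ℝ) ≤ n := by exact_mod_cast hn
    push_cast at h5
    linarith
  have hn0 : (0 : ℝ) < n := by
    have : 0 < n := by omega
    exact_mod_cast this
  have hM0 : (0 : ℝ) < M := by exact_mod_cast hM
  push_cast at h3
  have h5 : (n : ℝ) ^ 2 * (n * (M * n)) ≤ ((n : ℝ) + 1) ^ 2 * (n * (M * n)) := by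
    apply mul_le_mul_of_nonneg_right _ (by positivity)
    nlinarith
  have h6 : C * ((M : ℝ) * n) ^ 3 = (C * M ^ 2) * (M * n ^ 3) := by ring
  have h7 : (C * M ^ 2) * (M * (n : ℝ) ^ 3) < n * (M * n ^ 3) :=
    mul_lt_mul_of_pos_right h4 (by positivity)
  have h8 : (n : ℝ) ^ 2 * (n * (M * n)) = n * (M * n ^ 3) := by ring
  linarith

/-- all slopes are at most `l₀ / N₀`. -/
def SlopeLe (χ : Filt T q D₀ r) (N₀ : ℕ) (l₀ : ℤ) : Prop :=
  ∀ (N : ℕ) (l : ℤ), χ.F N l ≠ ⊥ → l * N₀ ≤ l₀ * N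

theorem SlopeLe.tw {N₀ : ℕ} {l₀ : ℤ} (h : χ.SlopeLe N₀ l₀) (E : Autom K) (hE : Pres T q D₀ E) :
    (χ.tw E hE).SlopeLe N₀ l₀ := by
  intro N l hne
  apply h N l
  intro h0
  apply hne
  rw [tw_F, h0, Submodule.map_bot]

theorem abs_lw_box (al be : ℤ) {n a b : ℕ} (ha : a ≤ n) (hb : b ≤ n) :
    -((|al| + |be|) * n) ≤ al * a + be * b := by
  have ha' : (a : ℤ) ≤ n := by exact_mod_cast ha
  have hb' : (b : ℤ) ≤ n := by exact_mod_cast hb
  have ha0 : (0 : ℤ) ≤ a := by positivity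
  have hb0 : (0 : ℤ) ≤ b := by positivity
  have h1 : -(|al| * n) ≤ al * a := by
    have := neg_abs_le (al * a)
    rw [abs_mul, abs_of_nonneg ha0] at this
    have := mul_le_mul_of_nonneg_left ha' (abs_nonneg al)
    linarith
  have h2 : -(|be| * n) ≤ be * b := by
    have := neg_abs_le (be * b)
    rw [abs_mul, abs_of_nonneg hb0] at this
    have := mul_le_mul_of_nonneg_left hb' (abs_nonneg be)
    linarith
  linarith

/-- the affine weight is at most the maximal slope. -/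
theorem Rigid.lw_le (hR : χ.Rigid m al be ga de) (P₀ : T.X.Pt) (hQ : 0 < r * q)
    (hD : T.X.deg (r • D₀) = 105 * T.t * ((r * q : ℕ) : ℤ)) {N₀ : ℕ} {l₀ : ℤ}
    (hS : χ.SlopeLe N₀ l₀) {N : ℕ} {j : ℤ} {a b : ℕ} (h : InR (r * q) N j a b) :
    lw al be ga de N j a b * N₀ ≤ l₀ * N := by
  by_contra hcon
  push Not at hcon
  set w := lw al be ga de N j a b with hw
  set c : ℤ := |al| + |be| + |de| + 1 with hc
  have hc0 : 0 ≤ c := by positivity
  set D : ℕ := (c * N₀ + |l₀| + 1).toNat with hDd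
  have hDc : (D : ℤ) = c * N₀ + |l₀| + 1 := by
    rw [hDd, Int.toNat_of_nonneg (by positivity)]
  obtain ⟨n₀, hn₀⟩ := hR.exists_ne_bot P₀ hQ hD (D * N + 1) (by omega)
  set n := n₀ + 1 with hn
  have e1 : (D * N + 1) * n = (n * D) * N + n := by ring
  have key := hn₀ n (by omega) ((n * D : ℕ) * j) (n * D * a) (n * D * b)
    ((n * D : ℕ) * w - c * n) (by
      intro a' ha' b' hb'
      rw [e1]
      have g1 : InR (r * q) n 0 a' b' := by
        have h1 : (1 : ℤ) ≤ ((r * q : ℕ) : ℤ) := by exact_mod_cast hQ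
        have h2 : (a' : ℤ) ≤ n := by exact_mod_cast ha'
        have h3 : (b' : ℤ) ≤ n := by exact_mod_cast hb'
        have h4 : (0 : ℤ) ≤ n := by positivity
        have h5 : (n : ℤ) ≤ ((r * q : ℕ) : ℤ) * n := by nlinarith
        refine ⟨?_, ?_, ?_⟩
        · rw [abs_zero]
          positivity
        · linarith
        · linarith
      have g2 := (h.smul (n * D)).add g1
      rw [add_zero] at g2
      refine ⟨g2, ?_⟩
      have g3 := lw_add al be ga de (n * D * N) n ((n * D : ℕ) * j) 0 (n * D * a) a' (n * D * b) b'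
      rw [add_zero, lw_smul, ← hw] at g3
      rw [g3]
      have g4 : lw al be ga de n 0 a' b' = al * a' + be * b' + de * n := by
        unfold lw
        ring
      have g5 := abs_lw_box al be ha' hb'
      have g6 : -(|de| * (n : ℤ)) ≤ de * n := by
        have := neg_abs_le de
        have h4 : (0 : ℤ) ≤ n := by positivity
        nlinarith
      rw [g4]
      have : c * (n : ℤ) = (|al| + |be|) * n + |de| * n + n := by
        rw [hc]
        ring
      linarith)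
  obtain ⟨a', _, b', _, hne⟩ := key
  have hF : χ.F ((D * N + 1) * n) ((n * D : ℕ) * w - c * n) ≠ ⊥ := by
    intro h0
    apply hne
    rw [h0, ini_bot]
  have h1 := hS _ _ hF
  push_cast at h1
  have hn0 : (0 : ℤ) < n := by
    rw [hn]
    positivity
  -- divide by `n`
  have h2 : (D : ℤ) * (w * N₀ - l₀ * N) ≤ c * N₀ + l₀ := by
    have h3 : (n : ℤ) * ((D : ℤ) * (w * N₀ - l₀ * N)) ≤ n * (c * N₀ + l₀) := by linarith
    exact le_of_mul_le_mul_left h3 hn0
  have h3 : 1 ≤ w * N₀ - l₀ * N := by linarith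
  have h4 : (D : ℤ) ≤ (D : ℤ) * (w * N₀ - l₀ * N) := by
    have : (0 : ℤ) ≤ D := by positivity
    nlinarith
  have h5 := le_abs_self l₀
  linarith

theorem exists_degree_expo (χ : Filt T q D₀ r) (m : MonomialOrder (Fin 4)) {N : ℕ} {l : ℤ}
    {f : MvPolynomial (Fin 4) K} (hf : f ∈ χ.F N l) (hf0 : f ≠ 0) :
    ∃ j a b, InR (r * q) N j a b ∧ m.degree f = expo (r * q) N j a b ∧
      ini m (χ.F N l) (expo (r * q) N j a b) ≠ ⊥ := by
  have h1 : f ∈ T.sec (r * q) (r • D₀) N := by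
    rw [T.sec_mul]
    exact χ.le N l hf
  have h2 : f.coeff (m.degree f) ≠ 0 := MonomialOrder.coeff_degree_ne_zero_iff.2 hf0
  obtain ⟨j, a, b, h3, h4⟩ := mem_Eset.1 (T.mem_Eset_of_coeff h1 h2)
  refine ⟨j, a, b, h3, h4, ?_⟩
  rw [← h4]
  intro h5
  have h6 : f.coeff (m.degree f) ∈ ini m (χ.F N l) (m.degree f) := by
    rw [mem_ini]
    exact ⟨f, hf, fun e' he' => m.le_degree (by rwa [MvPolynomial.mem_support_iff]), rfl⟩
  rw [h5, Submodule.mem_bot] at h6
  exact h2 h6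

end Filt

/-- The maximal slope of a test configuration is attained. -/
theorem TestConf.exists_max (χ : TestConf T q D₀ r) (hQ : 0 < r * q)
    (hD : T.X.deg (r • D₀) = 105 * T.t * ((r * q : ℕ) : ℤ)) :
    ∃ (N₀ : ℕ) (l₀ : ℤ), 4 ≤ N₀ ∧ (∃ s ∈ χ.F N₀ l₀, s ≠ 0) ∧ χ.SlopeLe N₀ l₀ := by
  classical
  obtain ⟨k, n, w, f, hf, hspan⟩ := χ.fg
  -- the indices that matter
  let I : Finset (Fin k) := univ.filter fun i => f i ≠ 0 ∧ 0 < n i
  -- a non-zero product
  have hprod : ∀ N l, χ.F N l ≠ ⊥ → ∃ mm : Fin k → ℕ, ∑ i, mm i * n i = N ∧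
      l ≤ ∑ i, mm i * w i ∧ ∀ i, mm i ≠ 0 → f i ≠ 0 := by
    intro N l hne
    by_contra hcon
    push Not at hcon
    apply hne
    rw [eq_bot_iff]
    refine (hspan N l).trans ?_
    rw [Submodule.span_le]
    rintro g ⟨mm, h1, h2, rfl⟩
    obtain ⟨i, h3, h4⟩ := hcon mm h1 h2
    show ∏ i, f i ^ mm i ∈ (⊥ : Submodule ℂ (MvPolynomial (Fin 4) K))
    rw [Submodule.mem_bot]
    apply prod_eq_zero (mem_univ i)
    rw [h4, zero_pow h3]
  -- weights of degree zero are nonpositive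
  have hw0 : ∀ i, f i ≠ 0 → n i = 0 → w i ≤ 0 := by
    intro i h1 h2
    by_contra h3
    have h4 := hf i
    rw [h2, χ.F_of_gt (by push_cast; push Not at h3; linarith), Submodule.mem_bot] at h4
    exact h1 h4
  have hI : I.Nonempty := by
    have hV := finrank_V_ge hD hQ (N := 4) le_rfl (j := 0) (by rw [abs_zero]; positivity)
    have hin : InR (r * q) 4 0 0 0 := by
      refine ⟨by rw [abs_zero]; positivity, ?_, ?_⟩
      · have : (0 : ℤ) ≤ ((r * q : ℕ) : ℤ) := by positivity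
        push_cast at this ⊢
        linarith
      · have : (0 : ℤ) ≤ ((r * q : ℕ) : ℤ) := by positivity
        push_cast at this ⊢
        linarith
    have hne : χ.F 4 (-(χ.lam * (4 : ℕ))) ≠ ⊥ := by
      intro h0
      rw [(χ.lam_spec 4).1, ← T.sec_mul] at h0
      rw [← T.ini_sec MonomialOrder.lex hin, h0, ini_bot, finrank_bot] at hV
      omega
    obtain ⟨mm, h1, _, h3⟩ := hprod _ _ hne
    obtain ⟨i, _, hi⟩ := exists_ne_zero_of_sum_ne_zero (s := univ) (f := fun i => mm i * n i)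
      (by rw [h1]; norm_num)
    exact ⟨i, mem_filter.2 ⟨mem_univ i, h3 i (left_ne_zero_of_mul hi),
      Nat.pos_of_ne_zero (right_ne_zero_of_mul hi)⟩⟩
  obtain ⟨i₀, hi₀, hmax⟩ := I.exists_max_image (fun i => (w i : ℚ) / n i) hI
  obtain ⟨_, hi0, hi1⟩ := mem_filter.1 hi₀
  have hmax' : ∀ i, f i ≠ 0 → w i * (n i₀ : ℤ) ≤ w i₀ * n i := by
    intro i h1
    rcases Nat.eq_zero_or_pos (n i) with h2 | h2
    · rw [h2]
      have := hw0 i h1 h2
      have h3 : (0 : ℤ) ≤ n i₀ := by positivity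
      push_cast
      nlinarith
    · have h3 := hmax i (mem_filter.2 ⟨mem_univ i, h1, h2⟩)
      have h4 : (0 : ℚ) < n i := by exact_mod_cast h2
      have h5 : (0 : ℚ) < n i₀ := by exact_mod_cast hi1
      rw [div_le_div_iff₀ h4 h5] at h3
      exact_mod_cast h3
  refine ⟨4 * n i₀, 4 * w i₀, by omega, ⟨f i₀ ^ 4, ?_, pow_ne_zero 4 hi0⟩, ?_⟩
  · have h1 := χ.mul _ _ _ _ _ (hf i₀) _ (hf i₀)
    have h2 := χ.mul _ _ _ _ _ h1 _ h1
    have e1 : f i₀ * f i₀ * (f i₀ * f i₀) = f i₀ ^ 4 := by ring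
    have e2 : n i₀ + n i₀ + (n i₀ + n i₀) = 4 * n i₀ := by ring
    have e3 : w i₀ + w i₀ + (w i₀ + w i₀) = 4 * w i₀ := by ring
    rw [e1, e2, e3] at h2
    exact h2
  · intro N l hne
    obtain ⟨mm, h1, h2, h3⟩ := hprod N l hne
    have h4 : (∑ i, (mm i : ℤ) * w i) * n i₀ ≤ w i₀ * N := by
      rw [← h1]
      push_cast
      rw [sum_mul, mul_sum]
      apply sum_le_sum
      intro i _
      by_cases h5 : mm i = 0
      · rw [h5]
        simp
      · have := hmax' i (h3 i h5)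
        have h6 : (0 : ℤ) ≤ mm i := by positivity
        nlinarith
    have h5 : l * (n i₀ : ℤ) ≤ (∑ i, (mm i : ℤ) * w i) * n i₀ :=
      mul_le_mul_of_nonneg_right h2 (by positivity)
    push_cast
    linarith

end Pool.Agent.YTD
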