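import Pool.Agent.YTD.Wc

/-!
Elements of nearly maximal weight.
-/

namespace Pool.Agent.YTD

open Finset Module MvPolynomial Filter

variable {K : Type} [Field K] [Algebra ℂ K]
variable {T : Datum K} {q : ℕ} {D₀ : T.X.Pt →₀ ℤ} {r : ℕ}

namespace Filt

variable (χ : Filt T q D₀ r)

theorem one_mem_Wc : (1 : K) ∈ χ.Wc 0 0 0 := by
  have h : |(0 : ℤ)| ≤ 5 * (r * q : ℕ) * (0 : ℕ) := by simp
  have h1 := χ.V_le_Wc h
  have h2 : -((χ.lam : ℤ) * (0 : ℕ)) = 0 := by simp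
  rw [h2] at h1
  apply h1
  intro _ P
  rw [T.X.ord_one]
  have : T.dvs (r * q) (r • D₀) 0 0 P = 0 := by
    unfold Datum.dvs
    simp
  rw [this]
  simp

theorem Wc_pow' {N : ℕ} {l j : ℤ} (hj : |j| ≤ 5 * (r * q : ℕ) * N)
    {c : K} (hc : c ∈ χ.Wc N l j) (m : ℕ) :
    c ^ m ∈ χ.Wc (N * m) (l * m) (j * m) := by
  rcases Nat.eq_zero_or_pos m with rfl | hm
  · simpa using χ.one_mem_Wc
  · exact χ.Wc_pow hj hc hm

/-- elements of nearly maximal weight. -/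
theorem near_top (hr : 0 < r) (hq : 0 < q) (hD : T.X.deg D₀ = 105 * T.t * q)
    {A B : ℝ} {na nb : ℕ} (hna : 0 < na) (hnb : 0 < nb) {wa wb : ℤ} {ca cb : K}
    (hca0 : ca ≠ 0) (hcb0 : cb ≠ 0)
    (hca : ca ∈ χ.Wc na wa (-(5 * (r * q : ℕ) * na)))
    (hcb : cb ∈ χ.Wc nb wb (5 * (r * q : ℕ) * nb))
    (hwa : (wa : ℝ) = A * na + B * (-(5 * (r * q) * na)))
    (hwb : (wb : ℝ) = A * nb + B * (5 * (r * q) * nb)) :
    ∃ C : ℝ, ∀ (N : ℕ) (j : ℤ), 4 ≤ N → |j| ≤ 5 * (r * q : ℕ) * N →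
      ∃ (l : ℤ) (c : K), c ≠ 0 ∧ c ∈ χ.Wc N l j ∧ A * N + B * j - C ≤ l := by
  set Q : ℤ := 5 * (r * q : ℕ) with hQ
  have hQ0 : 0 < Q := by positivity
  have hQr : (Q : ℝ) = 5 * (r * q) := by rw [hQ]; push_cast; ring
  set n₀ : ℕ := na * nb with hn₀
  have hn₀pos : 0 < n₀ := Nat.mul_pos hna hnb
  have hn₀z : (0 : ℤ) < n₀ := by exact_mod_cast hn₀pos
  have ra : |-(Q * na)| ≤ 5 * (r * q : ℕ) * na := by
    rw [abs_neg, abs_of_nonneg (by positivity)]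
  have rb : |Q * nb| ≤ 5 * (r * q : ℕ) * nb := by
    rw [abs_of_nonneg (by positivity)]
  have hα := χ.Wc_pow' ra hca nb
  have hβ := χ.Wc_pow' rb hcb na
  have hα0 : ca ^ nb ≠ 0 := pow_ne_zero _ hca0
  have hβ0 : cb ^ na ≠ 0 := pow_ne_zero _ hcb0
  have eα : -(Q * na) * (nb : ℤ) = -(Q * n₀) := by rw [hn₀]; push_cast; ring
  have eβ : Q * nb * (na : ℤ) = Q * n₀ := by rw [hn₀]; push_cast; ring
  have eβn : nb * na = n₀ := by rw [hn₀, mul_comm]
  rw [eα, ← hn₀] at hα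
  rw [eβ, eβn] at hβ
  set wα : ℤ := wa * nb with hwα
  set wβ : ℤ := wb * na with hwβ
  have hwα' : (wα : ℝ) = A * n₀ - B * Q * n₀ := by
    rw [hwα, hn₀, hQr]; push_cast; rw [hwa]; ring
  have hwβ' : (wβ : ℝ) = A * n₀ + B * Q * n₀ := by
    rw [hwβ, hn₀, hQr]; push_cast; rw [hwb]; ring
  have rα : |-(Q * n₀)| ≤ 5 * (r * q : ℕ) * n₀ := by
    rw [abs_neg, abs_of_nonneg (by positivity)]
  have rβ : |Q * n₀| ≤ 5 * (r * q : ℕ) * n₀ := by
    rw [abs_of_nonneg (by positivity)]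
  refine ⟨(|A| + |B| * Q + χ.lam) * (10 * n₀), ?_⟩
  intro N j hN hj
  have hj' := abs_le.1 hj
  set M : ℤ := 2 * Q * n₀ with hM
  have hM0 : 0 < M := by positivity
  set u : ℤ := Q * N - j with hu
  set v : ℤ := Q * N + j with hv
  have hu0 : 0 ≤ u := by linarith [hj'.2]
  have hv0 : 0 ≤ v := by linarith [hj'.1]
  set p : ℕ := (u / M - 4).toNat with hp
  set s : ℕ := (v / M - 4).toNat with hs
  -- bounds
  have key : ∀ (x : ℤ), 0 ≤ x → M * (((x / M - 4).toNat : ℕ) : ℤ) ≤ x ∧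
      x - M * (((x / M - 4).toNat : ℕ) : ℤ) ≤ 5 * M ∧
      ((x / M - 4).toNat = 0 ∨ 4 * M ≤ x - M * (((x / M - 4).toNat : ℕ) : ℤ)) := by
    intro x hx
    have h1 : M * (x / M) ≤ x := Int.mul_ediv_self_le hM0.ne'
    have h2 : x < M * (x / M) + M := Int.lt_mul_ediv_self_add hM0
    rcases le_total (x / M - 4) 0 with h | h
    · rw [Int.toNat_of_nonpos h]
      refine ⟨by simpa using hx, ?_, Or.inl rfl⟩
      have h3 : M * (x / M) ≤ M * 4 := mul_le_mul_of_nonneg_left (by linarith) hM0.le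
      simp only [Nat.cast_zero, mul_zero, sub_zero]
      linarith
    · rw [Int.toNat_of_nonneg h]
      have e : M * (x / M - 4) = M * (x / M) - 4 * M := by ring
      rw [e]
      exact ⟨by linarith, by linarith, Or.inr (by linarith)⟩
  obtain ⟨u1, u2, u3⟩ := key u hu0
  obtain ⟨v1, v2, v3⟩ := key v hv0
  rw [← hp] at u1 u2 u3
  rw [← hs] at v1 v2 v3
  set u' : ℤ := u - M * p with hu'
  set v' : ℤ := v - M * s with hv'
  have hsum : u' + v' = 2 * Q * ((N : ℤ) - n₀ * p - n₀ * s) := by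
    rw [hu', hv', hu, hv, hM]; ring
  have hpos : 0 < 2 * Q := by positivity
  set N1 : ℤ := (N : ℤ) - n₀ * p - n₀ * s with hN1
  have hN1a : N1 ≤ 10 * n₀ := by
    have : 2 * Q * N1 ≤ 2 * Q * (10 * n₀) := by
      rw [← hsum]
      have : 2 * Q * (10 * (n₀ : ℤ)) = 10 * M := by rw [hM]; ring
      rw [this]
      linarith
    exact le_of_mul_le_mul_left this hpos
  have hN1b : 4 ≤ N1 := by
    by_cases h : p = 0 ∧ s = 0
    · rw [hN1, h.1, h.2]
      simp only [Nat.cast_zero, mul_zero, sub_zero]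
      exact_mod_cast hN
    · have h1 : 4 * M ≤ u' + v' := by
        rcases u3 with h2 | h2
        · rcases v3 with h3 | h3
          · exact (h ⟨h2, h3⟩).elim
          · linarith
        · linarith
      rw [hsum] at h1
      have h2 : 2 * Q * (4 * n₀) ≤ 2 * Q * N1 := by
        have : 2 * Q * (4 * (n₀ : ℤ)) = 4 * M := by rw [hM]; ring
        rw [this]
        exact h1
      have h3 := le_of_mul_le_mul_left h2 hpos
      linarith
  obtain ⟨N', hN'⟩ : ∃ N' : ℕ, (N' : ℤ) = N1 := ⟨N1.toNat, Int.toNat_of_nonneg (by linarith)⟩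
  have hN'4 : 4 ≤ N' := by
    have : (4 : ℤ) ≤ N' := by rw [hN']; exact hN1b
    exact_mod_cast this
  set j' : ℤ := j + Q * n₀ * p - Q * n₀ * s with hj''
  have hrng : |j'| ≤ 5 * (r * q : ℕ) * N' := by
    rw [← hQ, hN', abs_le]
    have h1 : u' = Q * N1 - j' := by rw [hu', hu, hM, hN1, hj'']; ring
    have h2 : v' = Q * N1 + j' := by rw [hv', hv, hM, hN1, hj'']; ring
    constructor <;> linarith
  obtain ⟨c', hc'0, hc'V, _⟩ := χ.exists_extreme hr hq hD hN'4 hrng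
  have hc' := χ.V_le_Wc hrng hc'V
  have m1 := χ.Wc_pow' rα hα p
  have m2 := χ.Wc_pow' rβ hβ s
  have m3 := χ.Wc_mul (range_mul rα p) (range_mul rβ s) m1 m2
  have m4 := χ.Wc_mul (range_add (range_mul rα p) (range_mul rβ s)) hrng m3 hc'
  have eN : n₀ * p + n₀ * s + N' = N := by
    zify
    rw [hN', hN1]
    ring
  have ej : -(Q * n₀) * (p : ℤ) + Q * n₀ * s + j' = j := by rw [hj'']; ring
  rw [eN, ej] at m4
  refine ⟨_, _, mul_ne_zero (mul_ne_zero (pow_ne_zero _ hα0) (pow_ne_zero _ hβ0)) hc'0, m4, ?_⟩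
  push_cast
  rw [hwα', hwβ']
  have eNr : (n₀ : ℝ) * p + n₀ * s + N' = N := by exact_mod_cast eN
  have ejr : -((Q : ℝ) * n₀) * p + Q * n₀ * s + j' = j := by exact_mod_cast ej
  have hjr : |(j' : ℝ)| ≤ Q * N' := by
    have : |j'| ≤ Q * N' := by rw [hQ]; exact hrng
    exact_mod_cast this
  have hNr : (N' : ℝ) ≤ 10 * n₀ := by
    have : (N' : ℤ) ≤ 10 * n₀ := by rw [hN']; exact hN1a
    exact_mod_cast this
  have hN'0 : (0 : ℝ) ≤ N' := Nat.cast_nonneg _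
  have hQr0 : (0 : ℝ) ≤ Q := by exact_mod_cast hQ0.le
  have b1 : A * N' ≤ |A| * N' := mul_le_mul_of_nonneg_right (le_abs_self A) hN'0
  have b2 : B * j' ≤ |B| * (Q * N') := by
    calc B * j' ≤ |B * j'| := le_abs_self _
      _ = |B| * |(j' : ℝ)| := abs_mul _ _
      _ ≤ |B| * (Q * N') := mul_le_mul_of_nonneg_left hjr (abs_nonneg _)
  have b3 : (|A| + |B| * Q + χ.lam) * N' ≤ (|A| + |B| * Q + χ.lam) * (10 * n₀) :=
    mul_le_mul_of_nonneg_left hNr (by positivity)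
  rw [← eNr, ← ejr]
  nlinarith

end Filt

end Pool.Agent.YTD
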