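import Pool.Agent.YTD.TopLayer

/-!
Near-maximal elements of two layers exclude opposite slopes for neighbouring orders.
-/

namespace Pool.Agent.YTD

open Finset Module MvPolynomial

variable {K : Type} [Field K] [Algebra ℂ K]
variable {T : Datum K} {q : ℕ} {D₀ : T.X.Pt →₀ ℤ} {r : ℕ}

namespace Filt

variable {χ : Filt T q D₀ r}

/-- One layer. -/
theorem Rigid.near_step {u v : ℕ} (hu : 1 ≤ u) (hv : 1 ≤ v) {ga₁ de₁ ga₂ de₂ : ℤ}
    (hR₁ : χ.Rigid (mPlus (10 * v - 1) (10 * u)) (-u) v ga₁ de₁)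
    (hR₂ : χ.Rigid (mPlus (10 * v + 1) (10 * u)) u (-v) ga₂ de₂)
    (hga : ga₁ = ga₂ + 3 * (u + v)) (hde : de₁ = de₂ + 25 * (r * q) * (u - v))
    (P₀ : T.X.Pt) (hQ : 0 < r * q)
    (hD : T.X.deg (r • D₀) = 105 * T.t * ((r * q : ℕ) : ℤ)) {k : ℤ} (hk0 : 0 ≤ k)
    (hk : k ≤ 2 * ((r * q : ℕ) : ℤ)) {M : ℕ} (hM : 0 < M) :
    (10 * v - 1) * (25 * ((r * q : ℕ) : ℤ) + 3 * k) * M ≤
      10 * u * (25 * ((r * q : ℕ) : ℤ) - 3 * k) * M + (10 * v - 1) * (u + v + 2) ∧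
    10 * u * (25 * ((r * q : ℕ) : ℤ) - 3 * k) * M ≤
      (10 * v + 1) * (25 * ((r * q : ℕ) : ℤ) + 3 * k) * M + 10 * u * (u + v + 2) := by
  set Q := r * q with hQdef
  have hQ' : (1 : ℤ) ≤ (Q : ℤ) := by exact_mod_cast hQ
  obtain ⟨n₀, hn₀⟩ := hR₁.exists_ne_bot P₀ hQ hD M hM
  set n := n₀ + 4 with hn
  set N := M * n with hN
  have hn0 : (0 : ℤ) < n := by
    rw [hn]
    positivity
  have hM1 : (1 : ℤ) ≤ M := by exact_mod_cast hM
  have hNn : (N : ℤ) = M * n := by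
    rw [hN]
    push_cast
    ring
  have hnN : (n : ℤ) ≤ N := by
    rw [hNn]
    exact le_mul_of_one_le_left hn0.le hM1
  have hN4 : 4 ≤ N := by
    have h1 : (4 : ℤ) ≤ n := by
      rw [hn]
      push_cast
      have : (0 : ℤ) ≤ n₀ := by positivity
      linarith
    have : (4 : ℤ) ≤ N := by linarith
    exact_mod_cast this
  have hN0 : (0 : ℤ) ≤ N := by positivity
  have hkN : k * N ≤ 2 * (Q : ℤ) * N := mul_le_mul_of_nonneg_right hk hN0
  have hkN0 : 0 ≤ k * N := mul_nonneg hk0 hN0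
  have hQN : (N : ℤ) ≤ Q * N := le_mul_of_one_le_left hN0 hQ'
  set j : ℤ := k * N with hj
  have hjr : |j| ≤ 5 * Q * N := by
    rw [abs_of_nonneg hkN0]
    linarith
  set B := BB Q N j with hB
  have hBc : (B : ℤ) = 25 * Q * N - 3 * j := BB_cast hjr
  have hnB : n ≤ B := by
    have : (n : ℤ) ≤ B := by
      rw [hBc]
      linarith
    exact_mod_cast this
  have hBn : ((B - n : ℕ) : ℤ) = B - n := by
    push_cast [hnB]
    ring
  obtain ⟨a, ha, b, hb, hne⟩ := hn₀ n (by omega) j 0 (B - n)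
    (v * B + ga₁ * j + de₁ * N - (u + v + 1) * n) (by
      intro a ha b hb
      have ha' : (a : ℤ) ≤ n := by exact_mod_cast ha
      have hb' : (b : ℤ) ≤ n := by exact_mod_cast hb
      have hb0 : (0 : ℤ) ≤ b := by positivity
      have hu0 : (0 : ℤ) ≤ u := by positivity
      have hv0 : (0 : ℤ) ≤ v := by positivity
      change InR Q N j (0 + a) (B - n + b) ∧
        (v * B + ga₁ * j + de₁ * N - (u + v + 1) * n) + n ≤
          lw (-u) v ga₁ de₁ N j (0 + a) (B - n + b)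
      have hBnb : ((B - n + b : ℕ) : ℤ) = B - n + b := by rw [Nat.cast_add, hBn]
      rw [zero_add]
      refine ⟨⟨hjr, ?_, ?_⟩, ?_⟩
      · linarith
      · rw [hBnb]
        linarith
      · unfold lw
        rw [hBnb]
        linarith only [mul_le_mul_of_nonneg_left ha' hu0, mul_nonneg hv0 hb0])
  rw [zero_add, ← hN] at hne
  obtain ⟨c, hc, hc0⟩ := Submodule.exists_mem_ne_zero_of_ne_bot hne
  obtain ⟨f, hf, hlead, hcf⟩ := mem_ini.1 hc
  have hf0 : f ≠ 0 := by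
    rintro rfl
    rw [coeff_zero] at hcf
    exact hc0 hcf.symm
  have hfe : f.coeff (expo Q N j a (B - n + b)) ≠ 0 := by
    rw [hcf]
    exact hc0
  have hin1 : InR Q N j a (B - n + b) := by
    rw [inR_iff hjr]
    refine ⟨?_, by omega⟩
    have h1 := AA_cast hjr
    have : (a : ℤ) ≤ AA Q N j := by
      rw [h1]
      have ha' : (a : ℤ) ≤ n := by exact_mod_cast ha
      linarith
    exact_mod_cast this
  -- the second order
  obtain ⟨j', a', b', hin2, hdeg, hne2⟩ := χ.exists_degree_expo (mPlus (10 * v + 1) (10 * u)) hf hf0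
  have hup := hR₂.upper N hN4 _ j' a' b' hin2 hne2
  have hc2 : f.coeff (expo Q N j' a' b') ≠ 0 := by
    rw [hQdef, ← hdeg]
    exact MonomialOrder.coeff_degree_ne_zero_iff.2 hf0
  have k1 := mPlus_le (hlead _ hc2)
  have k2 := mPlus_le ((mPlus (10 * v + 1) (10 * u)).le_degree
    (MvPolynomial.mem_support_iff.2 hfe))
  rw [hdeg] at k2
  have x1 := expo_sum_x hin1
  have x2 := expo_sum_x hin2
  rw [expo_0, expo_1, expo_0, expo_1, expo_3, expo_3] at k1 k2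
  rw [expo_0, expo_1] at x1 x2
  simp only [← hQdef] at k1 k2 x1 x2
  have hjj : j' = j ∧ (10 * v - 1) * a' + 10 * u * b' ≤ (10 * v - 1) * a + 10 * u * (B - n + b) ∧
      (10 * v + 1) * a + 10 * u * (B - n + b) ≤ (10 * v + 1) * a' + 10 * u * b' := by
    rcases k1 with k1 | ⟨k1, k1'⟩
    · rcases k2 with k2 | ⟨k2, k2'⟩
      · omega
      · omega
    · rcases k2 with k2 | ⟨k2, k2'⟩
      · omega
      · exact ⟨by omega, k1', k2'⟩
  obtain ⟨hjj, kk1, kk2⟩ := hjj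
  rw [hjj] at hin2 hup
  -- integers
  have i1 : (10 * (v : ℤ) - 1) * a' + 10 * u * b' ≤
      (10 * v - 1) * a + 10 * u * (B - n + b) := by
    have h1 : ((10 * v - 1 : ℕ) : ℤ) = 10 * v - 1 := by
      push_cast [show 1 ≤ 10 * v by omega]
      ring
    have h2 : (((10 * v - 1) * a' + 10 * u * b' : ℕ) : ℤ) ≤
        (((10 * v - 1) * a + 10 * u * (B - n + b) : ℕ) : ℤ) := by exact_mod_cast kk1
    rw [Nat.cast_add, Nat.cast_mul, h1] at h2
    rw [Nat.cast_add, Nat.cast_mul, Nat.cast_mul, Nat.cast_mul, Nat.cast_mul, Nat.cast_mul,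
      Nat.cast_add, hBn, h1] at h2
    push_cast at h2
    linarith
  have i2 : (10 * (v : ℤ) + 1) * a + 10 * u * (B - n + b) ≤
      (10 * v + 1) * a' + 10 * u * b' := by
    have h2 : (((10 * v + 1) * a + 10 * u * (B - n + b) : ℕ) : ℤ) ≤
        (((10 * v + 1) * a' + 10 * u * b' : ℕ) : ℤ) := by exact_mod_cast kk2
    push_cast [hnB] at h2
    linarith
  have hA' : (a' : ℤ) ≤ 25 * Q * N + 3 * j := hin2.2.1
  have hu0 : (1 : ℤ) ≤ u := by exact_mod_cast hu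
  have hv0 : (1 : ℤ) ≤ v := by exact_mod_cast hv
  have hb'0 : (0 : ℤ) ≤ b' := by positivity
  have ha0 : (0 : ℤ) ≤ a := by positivity
  have hb0 : (0 : ℤ) ≤ b := by positivity
  have han : (a : ℤ) ≤ n := by exact_mod_cast ha
  have hbn : (b : ℤ) ≤ n := by exact_mod_cast hb
  have i3 : u * (25 * Q * N + 3 * j - a') + v * b' ≤ (u + v + 1) * (n : ℤ) := by
    unfold lw at hup
    rw [hga, hde, hBc] at hup
    rw [hQdef] at hup ⊢
    push_cast at hup ⊢
    linarith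
  have i4 : 25 * Q * N + 3 * j - a' ≤ (u + v + 1) * (n : ℤ) := by
    have h1 : 0 ≤ 25 * (Q : ℤ) * N + 3 * j - a' := by linarith
    linarith only [i3, mul_nonneg (by linarith only [hu0] : (0 : ℤ) ≤ (u : ℤ) - 1) h1,
      mul_nonneg (by linarith only [hv0] : (0 : ℤ) ≤ (v : ℤ)) hb'0]
  have i5 : (b' : ℤ) ≤ (u + v + 1) * (n : ℤ) := by
    have h1 : 0 ≤ 25 * (Q : ℤ) * N + 3 * j - a' := by linarith
    linarith only [i3, mul_nonneg (by linarith only [hu0] : (0 : ℤ) ≤ (u : ℤ)) h1,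
      mul_nonneg (by linarith only [hv0] : (0 : ℤ) ≤ (v : ℤ) - 1) hb'0]
  have e1 : 25 * (Q : ℤ) * N + 3 * j = (25 * Q + 3 * k) * M * n := by
    rw [hj, hNn]
    ring
  have e2 : (B : ℤ) = (25 * Q - 3 * k) * M * n := by
    rw [hBc, hj, hNn]
    ring
  have p1 : (0 : ℤ) ≤ 10 * v - 1 := by linarith
  constructor
  · have h1 : (n : ℤ) * ((10 * v - 1) * (25 * (Q : ℤ) + 3 * k) * M) ≤
        n * (10 * u * (25 * (Q : ℤ) - 3 * k) * M + (10 * v - 1) * (u + v + 2)) := by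
      have h2 : (10 * (v : ℤ) - 1) * (25 * Q * N + 3 * j) ≤
          (10 * v - 1) * (a' + (u + v + 1) * n) := mul_le_mul_of_nonneg_left (by linarith) p1
      have h3 : (10 * (v : ℤ) - 1) * a ≤ (10 * v - 1) * n := mul_le_mul_of_nonneg_left han p1
      have h4 : 10 * (u : ℤ) * (B - n + b) ≤ 10 * u * B :=
        mul_le_mul_of_nonneg_left (by linarith) (by positivity)
      have h5 : 0 ≤ 10 * (u : ℤ) * b' := by positivity
      rw [e1] at h2
      rw [e2] at h4 i1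
      linarith
    exact le_of_mul_le_mul_left h1 hn0
  · have h1 : (n : ℤ) * (10 * u * (25 * (Q : ℤ) - 3 * k) * M) ≤
        n * ((10 * v + 1) * (25 * (Q : ℤ) + 3 * k) * M + 10 * u * (u + v + 2)) := by
      have h2 : (10 * (v : ℤ) + 1) * a' ≤ (10 * v + 1) * (25 * Q * N + 3 * j) :=
        mul_le_mul_of_nonneg_left hA' (by positivity)
      have h3 : 0 ≤ (10 * (v : ℤ) + 1) * a := by positivity
      have h4 : 10 * (u : ℤ) * (B - n) ≤ 10 * u * (B - n + b) :=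
        mul_le_mul_of_nonneg_left (by linarith) (by positivity)
      have h5 : 10 * (u : ℤ) * b' ≤ 10 * u * ((u + v + 1) * n) :=
        mul_le_mul_of_nonneg_left i5 (by positivity)
      rw [e1] at h2
      rw [e2] at h4 i2
      linarith
    exact le_of_mul_le_mul_left h1 hn0

theorem Rigid.near_max {u v : ℕ} (hu : 1 ≤ u) (hv : 1 ≤ v) {ga₁ de₁ ga₂ de₂ : ℤ}
    (hR₁ : χ.Rigid (mPlus (10 * v - 1) (10 * u)) (-u) v ga₁ de₁)
    (hR₂ : χ.Rigid (mPlus (10 * v + 1) (10 * u)) u (-v) ga₂ de₂)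
    (hga : ga₁ = ga₂ + 3 * (u + v)) (hde : de₁ = de₂ + 25 * (r * q) * (u - v))
    (P₀ : T.X.Pt) (hQ : 0 < r * q)
    (hD : T.X.deg (r • D₀) = 105 * T.t * ((r * q : ℕ) : ℤ)) : False := by
  have hu0 : (1 : ℤ) ≤ u := by exact_mod_cast hu
  have hv0 : (1 : ℤ) ≤ v := by exact_mod_cast hv
  have hQ' : (1 : ℤ) ≤ ((r * q : ℕ) : ℤ) := by exact_mod_cast hQ
  set M : ℕ := (10 * u + 10 * v) * (u + v + 2) + 1 with hM
  have hMc : (M : ℤ) = (10 * u + 10 * v) * (u + v + 2) + 1 := by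
    rw [hM]
    push_cast
    ring
  have hM0 : (0 : ℤ) < M := by
    rw [hMc]
    positivity
  have key : ∀ k : ℤ, 0 ≤ k → k ≤ 2 * ((r * q : ℕ) : ℤ) →
      10 * v * (25 * ((r * q : ℕ) : ℤ) + 3 * k) - 10 * u * (25 * ((r * q : ℕ) : ℤ) - 3 * k) ≤
        25 * ((r * q : ℕ) : ℤ) + 3 * k ∧
      10 * u * (25 * ((r * q : ℕ) : ℤ) - 3 * k) - 10 * v * (25 * ((r * q : ℕ) : ℤ) + 3 * k) ≤
        25 * ((r * q : ℕ) : ℤ) + 3 * k := by
    intro k hk0 hk
    obtain ⟨h1, h2⟩ := hR₁.near_step hu hv hR₂ hga hde P₀ hQ hD hk0 hk (M := M) (by omega)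
    have g1 : (10 * (v : ℤ) - 1) * (u + v + 2) < M := by
      rw [hMc]
      linarith only [mul_nonneg (by linarith only [hu0] : (0 : ℤ) ≤ 10 * (u : ℤ) + 1)
        (by linarith only [hu0, hv0] : (0 : ℤ) ≤ (u : ℤ) + v + 2)]
    have g2 : 10 * (u : ℤ) * (u + v + 2) < M := by
      rw [hMc]
      linarith only [mul_nonneg (by linarith only [hv0] : (0 : ℤ) ≤ 10 * (v : ℤ))
        (by linarith only [hu0, hv0] : (0 : ℤ) ≤ (u : ℤ) + v + 2)]
    constructor
    · by_contra hcon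
      push Not at hcon
      have h3 : 1 ≤ 10 * v * (25 * ((r * q : ℕ) : ℤ) + 3 * k) -
        10 * u * (25 * ((r * q : ℕ) : ℤ) - 3 * k) - (25 * ((r * q : ℕ) : ℤ) + 3 * k) := by linarith
      have h4 := mul_le_mul_of_nonneg_right h3 hM0.le
      linarith
    · by_contra hcon
      push Not at hcon
      have h3 : 1 ≤ 10 * u * (25 * ((r * q : ℕ) : ℤ) - 3 * k) -
        10 * v * (25 * ((r * q : ℕ) : ℤ) + 3 * k) - (25 * ((r * q : ℕ) : ℤ) + 3 * k) := by linarith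
      have h4 := mul_le_mul_of_nonneg_right h3 hM0.le
      linarith
  obtain ⟨h1, h2⟩ := key 0 le_rfl (by positivity)
  obtain ⟨h3, _⟩ := key (2 * ((r * q : ℕ) : ℤ)) (by positivity) le_rfl
  generalize ((r * q : ℕ) : ℤ) = Q at *
  have h4 : (v : ℤ) ≤ u := by
    by_contra hcon
    push Not at hcon
    linarith only [h1, hQ', mul_nonneg (by linarith only [hcon] : (0 : ℤ) ≤ (v : ℤ) - (u + 1))
      (by linarith only [hQ'] : 0 ≤ Q)]
  have h5 : (u : ℤ) ≤ v := by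
    by_contra hcon
    push Not at hcon
    linarith only [h2, hQ', mul_nonneg (by linarith only [hcon] : (0 : ℤ) ≤ (u : ℤ) - (v + 1))
      (by linarith only [hQ'] : 0 ≤ Q)]
  have h6 : (u : ℤ) = v := le_antisymm h5 h4
  rw [← h6] at h3
  linarith only [h3, hQ', mul_nonneg (by linarith only [hu0] : (0 : ℤ) ≤ (u : ℤ) - 1)
    (by linarith only [hQ'] : 0 ≤ Q)]

end Filt

end Pool.Agent.YTD
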