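import Pool.Agent.YTD.Near

/-!
Base points near the top of the filtration are impossible when the Futaki invariant vanishes.
-/

namespace Pool.Agent.YTD

open Finset Module Filter

variable {K : Type} [Field K] [Algebra ℂ K]
variable {T : Datum K} {q : ℕ} {D₀ : T.X.Pt →₀ ℤ}

namespace Graded

theorem Uf_le_of (G : Graded T q D₀) (hD : T.X.deg D₀ = 105 * T.t * q) (hq : 0 < q) {N : ℕ}
    (hN : 4 ≤ N) {j : ℤ} {a b : ℕ} (h : InR q N j a b) {κ v : ℕ} (hκ : κ ≤ G.nn N j a b)
    (hv : ∀ l, G.nn N j a b - κ < l → l ≤ G.nn N j a b →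
      T.X.mdeg (G.W N l j a b) + v ≤ dg T.t q N j) :
    G.Uf N j a b ≤ G.nn N j a b * dg T.t q N j - κ * v := by
  unfold Uf
  set n := G.nn N j a b with hn
  obtain ⟨m, hm⟩ := Nat.exists_eq_add_of_le hκ
  have hm' : n = m + κ := by omega
  rw [hm', sum_range_add]
  have h1 : ∑ l ∈ range m, T.X.mdeg (G.W N (l + 1) j a b) ≤ m * dg T.t q N j := by
    have : ∑ l ∈ range m, T.X.mdeg (G.W N (l + 1) j a b) ≤ ∑ _l ∈ range m, dg T.t q N j := by
      apply sum_le_sum
      intro l hl
      have := mem_range.1 hl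
      exact mdeg_le_dg hD hq hN h (by omega)
    rwa [sum_const, card_range, nsmul_eq_mul] at this
  have h2 : ∑ l ∈ range κ, T.X.mdeg (G.W N (m + l + 1) j a b) ≤ κ * (dg T.t q N j - v) := by
    have : ∑ l ∈ range κ, T.X.mdeg (G.W N (m + l + 1) j a b) ≤
        ∑ _l ∈ range κ, (dg T.t q N j - v) := by
      apply sum_le_sum
      intro l hl
      have := mem_range.1 hl
      have := hv (m + l + 1) (by omega) (by omega)
      linarith
    rwa [sum_const, card_range, nsmul_eq_mul] at this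
  push_cast
  linarith

theorem yb_ge (G : Graded T q D₀) (hD : T.X.deg D₀ = 105 * T.t * q) (hq : 0 < q) {N : ℕ}
    (hN : 4 ≤ N) {j : ℤ} (hj : |j| ≤ 5 * q * N) {κ v : ℕ}
    (hκ : ∀ a b, InR q N j a b → κ ≤ G.nn N j a b)
    (hv : ∀ a b, InR q N j a b → ∀ l, G.nn N j a b - κ < l → l ≤ G.nn N j a b →
      T.X.mdeg (G.W N l j a b) + v ≤ dg T.t q N j) :
    (κ : ℝ) * v ≤ G.yb N j := by
  unfold yb ub nb
  have h1 : av q N j (fun a b => (G.Uf N j a b : ℝ)) ≤
      av q N j (fun a b => (dg T.t q N j : ℝ) * (G.nn N j a b : ℝ) + 1 * (-(κ * v : ℝ))) := by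
    apply av_mono hj
    intro a b hab
    have := Uf_le_of G hD hq hN hab (hκ a b hab) (hv a b hab)
    have h2 : (G.Uf N j a b : ℝ) ≤ G.nn N j a b * dg T.t q N j - κ * v := by exact_mod_cast this
    linarith
  rw [av_lin, av_const] at h1
  linarith

/-- no base points near the top. -/
theorem no_base (G : Graded T q D₀) (P₀ : T.X.Pt) (hD : T.X.deg D₀ = 105 * T.t * q) (hq : 0 < q)
    {s₀ : ℝ} (hS : G.TotExp s₀ 0) {x : ℤ} (hx : |x| ≤ 5 * q) (P : T.X.Pt) {δ C θ A B : ℝ}
    (hδ : 0 < δ) (hθ : 0 < θ)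
    (h1 : ∀ (N : ℕ) (j : ℤ) (a b : ℕ), 4 ≤ N → InR q N j a b →
      A * N + B * j - C ≤ G.nn N j a b)
    (h2 : ∀ (N : ℕ) (j : ℤ) (a b : ℕ) (l : ℕ), 4 ≤ N → InR q N j a b →
      |(j : ℝ) - x * N| ≤ θ * N → A * N + B * j - δ * N / 4 ≤ l →
      ∀ c ∈ G.W N l j a b, c ≠ 0 → δ * N / 2 - T.dvs q D₀ N j P ≤ T.X.ord P c) : False := by
  obtain ⟨err, e1, e2⟩ := main_ineq (G := G) hD P₀ hq hS
  set θ' : ℝ := min θ 1 with hθ'
  have hθ'0 : 0 < θ' := lt_min hθ one_pos
  set c₀ : ℝ := θ' * (δ / 16) * (δ / 4) with hc₀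
  have hc₀0 : 0 < c₀ := by positivity
  have hqr : (0 : ℝ) < q := by exact_mod_cast hq
  -- large levels
  have hpow : Tendsto (fun k : ℕ => 2 ^ (k + 2)) atTop atTop :=
    (tendsto_pow_atTop_atTop_of_one_lt (by norm_num : 1 < 2)).comp (tendsto_add_atTop_nat 2)
  have hlarge : ∀ᶠ N : ℕ in atTop, 16 ≤ δ * N ∧ 8 * C ≤ δ * N := by
    have ht : Tendsto (fun N : ℕ => δ * (N : ℝ)) atTop atTop :=
      tendsto_natCast_atTop_atTop.const_mul_atTop hδ
    exact (ht.eventually_ge_atTop 16).and (ht.eventually_ge_atTop (8 * C))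
  have key : ∀ᶠ k : ℕ in atTop, 2400 * q * (64 * c₀) ≤ err k := by
    filter_upwards [e2, hpow.eventually hlarge] with k hk hl
    obtain ⟨hl1, hl2⟩ := hl
    have hN4 := four_le k
    set N : ℕ := 2 ^ (k + 2) with hN
    have hN0 : (0 : ℝ) < N := by positivity
    set κ : ℕ := ⌊δ * N / 8⌋₊ with hκ
    set v : ℕ := ⌊δ * N / 2⌋₊ with hv
    have hκ1 : (κ : ℝ) ≤ δ * N / 8 := Nat.floor_le (by positivity)
    have hκ2 : δ / 16 * N ≤ κ := by
      have := Nat.lt_floor_add_one (δ * N / 8)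
      rw [← hκ] at this
      linarith
    have hκpos : 0 < κ := by
      have : (0 : ℝ) < κ := lt_of_lt_of_le (by positivity) hκ2
      exact_mod_cast this
    have hv1 : (v : ℝ) ≤ δ * N / 2 := Nat.floor_le (by positivity)
    have hv2 : δ / 4 * N ≤ v := by
      have := Nat.lt_floor_add_one (δ * N / 2)
      rw [← hv] at this
      linarith
    have hvpos : 0 < v := by
      have : (0 : ℝ) < v := lt_of_lt_of_le (by positivity) hv2
      exact_mod_cast this
    -- base points
    have hbase : ∀ (j : ℤ) (a b l : ℕ), InR q N j a b → |(j : ℝ) - x * N| ≤ θ * N →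
        G.nn N j a b < l + κ → ∀ c ∈ G.W N l j a b, c ≠ 0 →
        (v : ℤ) - T.dvs q D₀ N j P ≤ T.X.ord P c := by
      intro j a b l hab hj hlκ c hc hc0
      have g1 := h1 N j a b hN4 hab
      have g2 : (G.nn N j a b : ℝ) < l + κ := by exact_mod_cast hlκ
      have g3 := h2 N j a b l hN4 hab hj (by linarith) c hc hc0
      have g4 : ((v : ℤ) : ℝ) - ((T.dvs q D₀ N j P : ℤ) : ℝ) ≤ ((T.X.ord P c : ℤ) : ℝ) := by
        push_cast
        linarith
      exact_mod_cast g4
    have hκnn : ∀ (j : ℤ) (a b : ℕ), InR q N j a b → |(j : ℝ) - x * N| ≤ θ * N →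
        κ ≤ G.nn N j a b := by
      intro j a b hab hj
      by_contra hcon
      push Not at hcon
      have g1 := hbase j a b 0 hab hj (by omega)
      rw [G.W_zero N j a b hab] at g1
      obtain ⟨c, hc, hc0, hco⟩ := T.X.exists_ord_eq P₀ (deg_ge hD hq hN4 hab.1) P
      have g2 := g1 c hc hc0
      rw [hco] at g2
      have : (0 : ℤ) < v := by exact_mod_cast hvpos
      linarith
    have hyb : ∀ j : ℤ, |j| ≤ 5 * q * N → |(j : ℝ) - x * N| ≤ θ * N → (κ : ℝ) * v ≤ G.yb N j := by
      intro j hj hj2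
      refine yb_ge G hD hq hN4 hj (fun a b hab => hκnn j a b hab hj2) ?_
      intro a b hab l hl1 hl2
      have g1 := hκnn j a b hab hj2
      have g2 := CurveOrd.mdeg_add_le (G.W_le N l j a b hab) (G.W_ne_bot hD hq hN4 hab hl2) P
        (v := v) (hbase j a b l hab hj2 (by omega))
      rwa [deg_dvs_crit T q D₀ hD] at g2
    -- many indices
    obtain ⟨ε, hε, hεx⟩ : ∃ ε : ℤ, (ε = 1 ∨ ε = -1) ∧ ε * x ≤ 0 := by
      rcases le_total x 0 with h | h
      · exact ⟨1, Or.inl rfl, by linarith⟩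
      · exact ⟨-1, Or.inr rfl, by linarith⟩
    set s : ℕ := ⌊θ' * N⌋₊ with hs
    have hs1 : (s : ℝ) ≤ θ' * N := Nat.floor_le (by positivity)
    have hs2 : θ' * N ≤ s + 1 := (Nat.lt_floor_add_one _).le
    have hsN : (s : ℤ) ≤ N := by
      have : (s : ℝ) ≤ N := by
        have : θ' * N ≤ 1 * N := mul_le_mul_of_nonneg_right (min_le_right _ _) hN0.le
        linarith
      exact_mod_cast this
    have hinj : Set.InjOn (fun i : ℕ => x * N + ε * i) (range (s + 1)) := by
      intro i _ i' _ h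
      have h' : x * N + ε * (i : ℤ) = x * N + ε * (i' : ℤ) := h
      have : ε * (i : ℤ) = ε * i' := by linarith
      have hε0 : ε ≠ 0 := by rcases hε with h | h <;> rw [h] <;> norm_num
      exact_mod_cast mul_left_cancel₀ hε0 this
    have hq1 : (1 : ℤ) ≤ q := by exact_mod_cast hq
    have hsub : ∀ i ∈ range (s + 1), |x * N + ε * (i : ℤ)| ≤ 5 * q * N ∧
        |((x * N + ε * (i : ℤ) : ℤ) : ℝ) - x * N| ≤ θ * N := by
      intro i hi
      have hi' : (i : ℤ) ≤ s := by
        have := mem_range.1 hi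
        omega
      have hi0 : (0 : ℤ) ≤ i := Nat.cast_nonneg i
      constructor
      · have hx' := abs_le.1 hx
        have hNz : (0 : ℤ) ≤ N := Nat.cast_nonneg N
        have hxN1 : x * N ≤ 5 * q * N := mul_le_mul_of_nonneg_right hx'.2 hNz
        have hxN2 : -(5 * q * N) ≤ x * N := by
          have := mul_le_mul_of_nonneg_right hx'.1 hNz
          linarith
        have hqN : (N : ℤ) ≤ 5 * q * N := by nlinarith
        rw [abs_le]
        rcases hε with h | h
        · rw [h] at hεx ⊢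
          have hx0 : x * N ≤ 0 := mul_nonpos_of_nonpos_of_nonneg (by linarith) hNz
          constructor <;> linarith
        · rw [h] at hεx ⊢
          have hx0 : 0 ≤ x * N := mul_nonneg (by linarith) hNz
          constructor <;> linarith
      · push_cast
        rw [add_sub_cancel_left, abs_mul]
        have : |(ε : ℝ)| = 1 := by rcases hε with h | h <;> rw [h] <;> norm_num
        rw [this, one_mul, abs_of_nonneg (by positivity)]
        have h3 : (i : ℝ) ≤ s := by exact_mod_cast hi'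
        have h4 : θ' * N ≤ θ * N := mul_le_mul_of_nonneg_right (min_le_left _ _) hN0.le
        linarith
    have hsum : ((s : ℝ) + 1) * (κ * v) ≤ G.ysum k := by
      have g1 : ∑ j ∈ (range (s + 1)).image (fun i : ℕ => x * N + ε * (i : ℤ)), G.yb N j ≤
          G.ysum k := by
        unfold ysum
        apply sum_le_sum_of_subset_of_nonneg
        · intro j hj
          obtain ⟨i, hi, rfl⟩ := mem_image.1 hj
          exact mem_Icc_iff.2 (hsub i hi).1
        · intro j hj _
          exact yb_nonneg hD hq hN4 (mem_Icc_iff.1 hj)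
      rw [sum_image hinj] at g1
      refine le_trans ?_ g1
      have g2 : ∑ _i ∈ range (s + 1), (κ : ℝ) * v ≤
          ∑ i ∈ range (s + 1), G.yb N (x * N + ε * (i : ℤ)) :=
        sum_le_sum fun i hi => hyb _ (hsub i hi).1 (hsub i hi).2
      rw [sum_const, card_range, nsmul_eq_mul] at g2
      push_cast at g2
      exact g2
    have hNN : c₀ * (N : ℝ) ^ 3 ≤ G.ysum k := by
      refine le_trans ?_ hsum
      have e : c₀ * (N : ℝ) ^ 3 = (θ' * N) * ((δ / 16 * N) * (δ / 4 * N)) := by rw [hc₀]; ring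
      rw [e]
      apply mul_le_mul hs2 _ (by positivity) (by positivity)
      exact mul_le_mul hκ2 hv2 (by positivity) (by positivity)
    have hN3 : (N : ℝ) ^ 3 = 64 * 8 ^ k := by
      rw [hN]
      push_cast
      rw [pow_add, mul_pow, ← pow_mul, mul_comm k 3, pow_mul]
      norm_num
      ring
    rw [hN3] at hNN
    have g2 : (0 : ℝ) ≤ T.t * (G.fam hD hq).gap k :=
      mul_nonneg (Nat.cast_nonneg _) ((G.fam hD hq).gap_nonneg k)
    have h2k : (0 : ℝ) ≤ 2400 * q * 2 ^ k := by positivity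
    have g3 := mul_le_mul_of_nonneg_left hNN h2k
    have e16 : (16 : ℝ) ^ k = 2 ^ k * 8 ^ k := by rw [← mul_pow]; norm_num
    have g4 : (2400 * q * (64 * c₀)) * 16 ^ k ≤ err k * 16 ^ k := by
      have : (2400 * q * (64 * c₀)) * (16 : ℝ) ^ k =
          2400 * q * 2 ^ k * (c₀ * (64 * 8 ^ k)) := by rw [e16]; ring
      rw [this]
      linarith
    exact le_of_mul_le_mul_right g4 (by positivity)
  have h10 := ge_of_tendsto e1 key
  have h11 : 0 < 2400 * q * (64 * c₀) := by positivity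
  linarith

end Graded

end Pool.Agent.YTD
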