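import Pool.Agent.YTD.NumZ

/-!
The functional `Lam` is asymptotically non-positive on superadditive families.
-/

namespace Pool.Agent.YTD

open Finset Filter

/-- the kernel -/
noncomputable def Kr (Q : ℝ) (x : ℝ) : ℝ :=
  81 * x ^ 2 - 375 * Q ^ 2 - 5000 * Q * max 0 (|x| - 4 * Q)

/-- `12` times its second antiderivative. -/
noncomputable def gg (Q : ℝ) (x : ℝ) : ℝ :=
  (9 * x ^ 2 - 125 * Q ^ 2) ^ 2 - 10000 * Q * (max 0 (|x| - 4 * Q)) ^ 3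

theorem gg_nonneg {Q x : ℝ} (hQ : 0 ≤ Q) (hx : |x| ≤ 5 * Q) : 0 ≤ gg Q x := by
  unfold gg
  rcases le_total (|x|) (4 * Q) with h | h
  · rw [max_eq_left (by linarith)]
    norm_num
    positivity
  · rw [max_eq_right (by linarith)]
    obtain ⟨u, hu⟩ : ∃ u, |x| = 4 * Q + u := ⟨|x| - 4 * Q, by ring⟩
    have hu0 : 0 ≤ u := by linarith
    have hu1 : u ≤ Q := by linarith
    have hx2 : x ^ 2 = (4 * Q + u) ^ 2 := by rw [← sq_abs, hu]
    rw [hx2, hu]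
    have e : (9 * (4 * Q + u) ^ 2 - 125 * Q ^ 2) ^ 2 - 10000 * Q * (4 * Q + u - 4 * Q) ^ 3 =
        (Q - u) * (361 * Q ^ 3 + 3097 * Q ^ 2 * u + 8623 * Q * u ^ 2 - 81 * u ^ 3) := by ring
    rw [e]
    apply mul_nonneg (by linarith)
    have h1 : 81 * u ^ 3 ≤ 81 * (Q * u ^ 2) := by
      have : u ^ 3 = u * u ^ 2 := by ring
      rw [this]
      have := mul_le_mul_of_nonneg_right hu1 (sq_nonneg u)
      linarith
    have h2 : 0 ≤ Q ^ 3 := by positivity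
    have h3 : 0 ≤ Q ^ 2 * u := by positivity
    have h4 : 0 ≤ Q * u ^ 2 := by positivity
    linarith

/-- the second difference of `gg` at integers. -/
theorem gg_second (Q : ℕ) (hQ : 0 < Q) (j : ℤ) :
    gg Q ((j : ℝ) + 1) - 2 * gg Q j + gg Q ((j : ℝ) - 1) =
      12 * Kr Q j + 162 - (if |j| = 4 * Q then 10000 * (Q : ℝ) else 0) := by
  have cub : (max 0 (|(j : ℝ) + 1| - 4 * Q)) ^ 3 - 2 * (max 0 (|(j : ℝ)| - 4 * Q)) ^ 3 +
      (max 0 (|(j : ℝ) - 1| - 4 * Q)) ^ 3 =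
      6 * max 0 (|(j : ℝ)| - 4 * Q) + (if |j| = 4 * Q then 1 else 0) := by
    rcases lt_trichotomy |j| (4 * Q) with h | h | h
    · -- all zero
      have h1 : |j| + 1 ≤ 4 * Q := by omega
      have h1' : |(j : ℝ)| + 1 ≤ 4 * Q := by exact_mod_cast h1
      have h2 : |(j : ℝ) + 1| ≤ |(j : ℝ)| + 1 := by
        have := abs_add_le (j : ℝ) 1
        rwa [abs_one] at this
      have h3 : |(j : ℝ) - 1| ≤ |(j : ℝ)| + 1 := by
        have := abs_sub (j : ℝ) 1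
        rwa [abs_one] at this
      rw [max_eq_left (by linarith), max_eq_left (by linarith), max_eq_left (by linarith),
        if_neg (by omega)]
      norm_num
    · rw [if_pos h]
      have h' : |(j : ℝ)| = 4 * Q := by exact_mod_cast h
      have hQ' : (1 : ℝ) ≤ Q := by exact_mod_cast hQ
      rcases abs_cases (j : ℝ) with ⟨h1, h2⟩ | ⟨h1, h2⟩
      · have h3 : (j : ℝ) = 4 * Q := by linarith
        rw [h3, abs_of_nonneg (by linarith), abs_of_nonneg (by linarith),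
          abs_of_nonneg (by linarith)]
        rw [max_eq_right (by linarith), max_eq_left (by linarith), max_eq_left (by linarith)]
        ring
      · have h3 : (j : ℝ) = -(4 * Q) := by linarith
        rw [h3, abs_of_nonpos (by linarith), abs_of_nonpos (by linarith),
          abs_of_nonpos (by linarith)]
        rw [max_eq_left (by linarith), max_eq_left (by linarith), max_eq_right (by linarith)]
        ring
    · rw [if_neg (by omega)]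
      have h1 : 4 * (Q : ℤ) + 1 ≤ |j| := by omega
      have h1' : 4 * (Q : ℝ) + 1 ≤ |(j : ℝ)| := by exact_mod_cast h1
      have hQ' : (1 : ℝ) ≤ Q := by exact_mod_cast hQ
      rcases abs_cases (j : ℝ) with ⟨h2, h3⟩ | ⟨h2, h3⟩
      · rw [h2] at h1'
        rw [h2, abs_of_nonneg (by linarith), abs_of_nonneg (by linarith)]
        rw [max_eq_right (by linarith), max_eq_right (by linarith), max_eq_right (by linarith)]
        ring
      · rw [h2] at h1'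
        rw [h2, abs_of_nonpos (by linarith), abs_of_nonpos (by linarith)]
        rw [max_eq_right (by linarith), max_eq_right (by linarith), max_eq_right (by linarith)]
        ring
  unfold gg Kr
  have e : ((9 * ((j : ℝ) + 1) ^ 2 - 125 * (Q : ℝ) ^ 2) ^ 2 -
      10000 * Q * (max 0 (|(j : ℝ) + 1| - 4 * Q)) ^ 3) -
      2 * ((9 * (j : ℝ) ^ 2 - 125 * (Q : ℝ) ^ 2) ^ 2 - 10000 * Q * (max 0 (|(j : ℝ)| - 4 * Q)) ^ 3) +
      ((9 * ((j : ℝ) - 1) ^ 2 - 125 * (Q : ℝ) ^ 2) ^ 2 -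
      10000 * Q * (max 0 (|(j : ℝ) - 1| - 4 * Q)) ^ 3) =
      ((9 * ((j : ℝ) + 1) ^ 2 - 125 * (Q : ℝ) ^ 2) ^ 2 -
      2 * (9 * (j : ℝ) ^ 2 - 125 * (Q : ℝ) ^ 2) ^ 2 +
      (9 * ((j : ℝ) - 1) ^ 2 - 125 * (Q : ℝ) ^ 2) ^ 2) - 10000 * Q *
      ((max 0 (|(j : ℝ) + 1| - 4 * Q)) ^ 3 - 2 * (max 0 (|(j : ℝ)| - 4 * Q)) ^ 3 +
      (max 0 (|(j : ℝ) - 1| - 4 * Q)) ^ 3) := by ring
  rw [e, cub]
  split_ifs <;> ring

/-- summation by parts: the functional is almost non-positive on concave functions. -/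
theorem concave_le (Q : ℕ) (hQ : 0 < Q) (ψ : ℤ → ℝ) (B : ℝ)
    (h0 : ∀ j : ℤ, |j| ≤ 5 * Q → 0 ≤ ψ j) (hB : ∀ j : ℤ, |j| ≤ 5 * Q → ψ j ≤ B) :
    ∑ i ∈ range (2 * (5 * Q) + 1), 12 * Kr Q ((i : ℤ) - (5 * Q : ℕ) : ℤ) *
        ψ ((i : ℤ) - (5 * Q : ℕ)) +
      12000 * (Q : ℝ) ^ 3 * (ψ (5 * Q) + ψ (-(5 * Q))) ≤
    ∑ i ∈ range (2 * (5 * Q) - 1), gg Q ((i : ℤ) + 1 - (5 * Q : ℕ) : ℤ) *
      (ψ ((i : ℤ) + 2 - (5 * Q : ℕ)) - 2 * ψ ((i : ℤ) + 1 - (5 * Q : ℕ)) +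
        ψ ((i : ℤ) - (5 * Q : ℕ))) + 20000 * Q * B := by
  have hQ' : (1 : ℝ) ≤ Q := by exact_mod_cast hQ
  obtain ⟨M, hM⟩ : ∃ M : ℕ, 2 * (5 * Q) = M + 2 := ⟨2 * (5 * Q) - 2, by omega⟩
  -- abstract summation by parts
  have parts : ∀ (M : ℕ) (p h : ℕ → ℝ), h 1 = 0 → h (M + 3) = 0 →
      ∑ i ∈ range (M + 3), p i * (h (i + 2) - 2 * h (i + 1) + h i) =
      ∑ i ∈ range (M + 1), h (i + 2) * (p (i + 2) - 2 * p (i + 1) + p i) + p 0 * h 0 +
        p (M + 2) * h (M + 4) := by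
    have gen : ∀ (M : ℕ) (p h : ℕ → ℝ),
      ∑ i ∈ range (M + 3), p i * (h (i + 2) - 2 * h (i + 1) + h i) =
      ∑ i ∈ range (M + 1), h (i + 2) * (p (i + 2) - 2 * p (i + 1) + p i) + p 0 * h 0 +
        p (M + 2) * h (M + 4) + (p 1 - 2 * p 0) * h 1 + (p (M + 1) - 2 * p (M + 2)) * h (M + 3) := by
      intro M p h
      induction M with
      | zero => simp [sum_range_succ]; ring
      | succ M ih =>
        rw [show M + 1 + 3 = M + 3 + 1 by ring, sum_range_succ, ih, sum_range_succ _ (M + 1)]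
        ring
    intro M p h h1 h2
    rw [gen, h1, h2]
    ring
  have hP := parts M (fun i => ψ ((i : ℤ) - (5 * Q : ℕ)))
    (fun i => gg Q (((i : ℤ) - 1 - (5 * Q : ℕ) : ℤ) : ℝ))
  have g5 : gg Q (5 * (Q : ℝ)) = 0 := by
    unfold gg
    rw [abs_of_nonneg (by linarith), max_eq_right (by linarith)]
    ring
  have g5' : gg Q (-(5 * (Q : ℝ))) = 0 := by
    unfold gg
    rw [abs_neg, abs_of_nonneg (by linarith), max_eq_right (by linarith)]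
    ring
  have g6 : gg Q (5 * (Q : ℝ) + 1) ≤ -(12000 * (Q : ℝ) ^ 3) := by
    unfold gg
    rw [abs_of_nonneg (by linarith), max_eq_right (by linarith)]
    have e : (9 * (5 * (Q : ℝ) + 1) ^ 2 - 125 * (Q : ℝ) ^ 2) ^ 2 -
        10000 * Q * (5 * Q + 1 - 4 * Q) ^ 3 =
        -(12000 * (Q : ℝ) ^ 3) - 20100 * Q ^ 2 - 8380 * Q + 81 := by ring
    rw [e]
    nlinarith
  have g6' : gg Q (-(5 * (Q : ℝ)) - 1) ≤ -(12000 * (Q : ℝ) ^ 3) := by
    have : gg Q (-(5 * (Q : ℝ)) - 1) = gg Q (5 * (Q : ℝ) + 1) := by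
      unfold gg
      rw [show -(5 * (Q : ℝ)) - 1 = -(5 * Q + 1) by ring, abs_neg]
      ring
    rw [this]
    exact g6
  have hM' : (M : ℤ) = 10 * Q - 2 := by omega
  have a1 : (((1 : ℕ) : ℤ) - 1 - ((5 * Q : ℕ) : ℤ) : ℤ) = -(5 * (Q : ℤ)) := by push_cast; ring
  have a2 : (((M + 3 : ℕ) : ℤ) - 1 - ((5 * Q : ℕ) : ℤ) : ℤ) = 5 * (Q : ℤ) := by
    push_cast; rw [hM']; ring
  have a3 : (((0 : ℕ) : ℤ) - 1 - ((5 * Q : ℕ) : ℤ) : ℤ) = -(5 * (Q : ℤ)) - 1 := by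
    push_cast; ring
  have a4 : (((M + 4 : ℕ) : ℤ) - 1 - ((5 * Q : ℕ) : ℤ) : ℤ) = 5 * (Q : ℤ) + 1 := by
    push_cast; rw [hM']; ring
  have a5 : (((0 : ℕ) : ℤ) - ((5 * Q : ℕ) : ℤ) : ℤ) = -(5 * (Q : ℤ)) := by push_cast; ring
  have a6 : (((M + 2 : ℕ) : ℤ) - ((5 * Q : ℕ) : ℤ) : ℤ) = 5 * (Q : ℤ) := by
    push_cast; rw [hM']; ring
  rw [a1, a2, a3, a4, a5, a6] at hP
  have hP' := hP (by push_cast; exact g5') (by push_cast; exact g5)
  -- rewrite second differences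
  have S1 : ∑ i ∈ range (M + 3), ψ ((i : ℤ) - (5 * Q : ℕ)) *
      (gg Q ((((i + 2 : ℕ) : ℤ) - 1 - (5 * Q : ℕ) : ℤ) : ℝ) -
        2 * gg Q ((((i + 1 : ℕ) : ℤ) - 1 - (5 * Q : ℕ) : ℤ) : ℝ) +
        gg Q (((i : ℤ) - 1 - (5 * Q : ℕ) : ℤ) : ℝ)) =
      ∑ i ∈ range (M + 3), (12 * Kr Q ((i : ℤ) - (5 * Q : ℕ) : ℤ) * ψ ((i : ℤ) - (5 * Q : ℕ)) +
        (162 - (if |(i : ℤ) - (5 * Q : ℕ)| = 4 * Q then 10000 * (Q : ℝ) else 0)) *
          ψ ((i : ℤ) - (5 * Q : ℕ))) := by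
    apply sum_congr rfl
    intro i _
    have := gg_second Q hQ ((i : ℤ) - (5 * Q : ℕ))
    have b1 : ((((i + 2 : ℕ) : ℤ) - 1 - (5 * Q : ℕ) : ℤ) : ℝ) =
        (((i : ℤ) - (5 * Q : ℕ) : ℤ) : ℝ) + 1 := by push_cast; ring
    have b2 : ((((i + 1 : ℕ) : ℤ) - 1 - (5 * Q : ℕ) : ℤ) : ℝ) =
        (((i : ℤ) - (5 * Q : ℕ) : ℤ) : ℝ) := by push_cast; ring
    have b3 : (((i : ℤ) - 1 - (5 * Q : ℕ) : ℤ) : ℝ) =
        (((i : ℤ) - (5 * Q : ℕ) : ℤ) : ℝ) - 1 := by push_cast; ring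
    rw [b1, b2, b3, this]
    ring
  rw [S1] at hP'
  have hMr : M + 3 = 2 * (5 * Q) + 1 := by omega
  have hMr' : M + 1 = 2 * (5 * Q) - 1 := by omega
  rw [hMr, hMr', sum_add_distrib] at hP'
  -- the error term
  have hBnn : 0 ≤ B := (h0 0 (by rw [abs_zero]; positivity)).trans
    (hB 0 (by rw [abs_zero]; positivity))
  have S2 : -(20000 * Q * B) ≤ ∑ i ∈ range (2 * (5 * Q) + 1),
      (162 - (if |(i : ℤ) - (5 * Q : ℕ)| = 4 * Q then 10000 * (Q : ℝ) else 0)) *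
          ψ ((i : ℤ) - (5 * Q : ℕ)) := by
    have t1 : ∑ i ∈ range (2 * (5 * Q) + 1), (-((if i = Q then 10000 * (Q : ℝ) * B else 0) +
        (if i = 9 * Q then 10000 * (Q : ℝ) * B else 0))) ≤
        ∑ i ∈ range (2 * (5 * Q) + 1),
      (162 - (if |(i : ℤ) - (5 * Q : ℕ)| = 4 * Q then 10000 * (Q : ℝ) else 0)) *
          ψ ((i : ℤ) - (5 * Q : ℕ)) := by
      apply sum_le_sum
      intro i hi
      have hi' := mem_range.1 hi
      have hin : |(i : ℤ) - (5 * Q : ℕ)| ≤ 5 * Q := by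
        rw [abs_le]
        push_cast
        constructor <;> omega
      have p0 := h0 _ hin
      have pB := hB _ hin
      by_cases h1 : |(i : ℤ) - (5 * Q : ℕ)| = 4 * Q
      · rw [if_pos h1]
        have h2 : i = Q ∨ i = 9 * Q := by
          push_cast at h1
          rcases abs_cases ((i : ℤ) - 5 * Q) with ⟨h3, _⟩ | ⟨h3, _⟩ <;> rw [h3] at h1 <;> omega
        have h3 : 10000 * (Q : ℝ) * ψ ((i : ℤ) - (5 * Q : ℕ)) ≤ 10000 * Q * B :=
          mul_le_mul_of_nonneg_left pB (by positivity)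
        rcases h2 with h2 | h2
        · rw [if_pos h2, if_neg (by omega)]
          linarith
        · rw [if_neg (by omega), if_pos h2]
          linarith
      · rw [if_neg h1, if_neg, if_neg]
        · linarith
        · rintro rfl
          apply h1
          push_cast
          rw [show (9 * (Q : ℤ)) - 5 * Q = 4 * Q by ring, abs_of_nonneg (by positivity)]
        · rintro rfl
          apply h1
          push_cast
          rw [show (i : ℤ) - 5 * i = -(4 * i) by ring, abs_neg, abs_of_nonneg (by positivity)]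
    refine le_trans (le_of_eq ?_) t1
    rw [sum_neg_distrib, sum_add_distrib, sum_ite_eq', sum_ite_eq',
      if_pos (mem_range.2 (by omega)), if_pos (mem_range.2 (by omega))]
    ring
  have S3 : ∑ i ∈ range (2 * (5 * Q) - 1), gg Q ((((i + 2 : ℕ) : ℤ) - 1 - (5 * Q : ℕ) : ℤ) : ℝ) *
      (ψ (((i + 2 : ℕ) : ℤ) - (5 * Q : ℕ)) - 2 * ψ (((i + 1 : ℕ) : ℤ) - (5 * Q : ℕ)) +
        ψ ((i : ℤ) - (5 * Q : ℕ))) =
      ∑ i ∈ range (2 * (5 * Q) - 1), gg Q ((i : ℤ) + 1 - (5 * Q : ℕ) : ℤ) *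
      (ψ ((i : ℤ) + 2 - (5 * Q : ℕ)) - 2 * ψ ((i : ℤ) + 1 - (5 * Q : ℕ)) +
        ψ ((i : ℤ) - (5 * Q : ℕ))) := by
    apply sum_congr rfl
    intro i _
    have c1 : ((((i + 2 : ℕ) : ℤ) - 1 - (5 * Q : ℕ) : ℤ)) = (i : ℤ) + 1 - (5 * Q : ℕ) := by
      push_cast; ring
    have c2 : (((i + 2 : ℕ) : ℤ) - (5 * Q : ℕ)) = (i : ℤ) + 2 - (5 * Q : ℕ) := by push_cast; ring
    have c3 : (((i + 1 : ℕ) : ℤ) - (5 * Q : ℕ)) = (i : ℤ) + 1 - (5 * Q : ℕ) := by push_cast; ring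
    rw [c1, c2, c3]
  rw [S3] at hP'
  have p1 := h0 (5 * Q) (by rw [abs_of_nonneg (by positivity)])
  have p2 := h0 (-(5 * Q)) (by rw [abs_neg, abs_of_nonneg (by positivity)])
  have q1 : ψ (5 * (Q : ℤ)) * gg Q (((5 * (Q : ℤ) + 1 : ℤ) : ℝ)) ≤
      -(12000 * (Q : ℝ) ^ 3 * ψ (5 * (Q : ℤ))) := by
    push_cast
    have := mul_le_mul_of_nonneg_left g6 p1
    linarith
  have q2 : ψ (-(5 * (Q : ℤ))) * gg Q (((-(5 * (Q : ℤ)) - 1 : ℤ) : ℝ)) ≤
      -(12000 * (Q : ℝ) ^ 3 * ψ (-(5 * (Q : ℤ)))) := by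
    push_cast
    have := mul_le_mul_of_nonneg_left g6' p2
    linarith
  linarith

end Pool.Agent.YTD
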