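import Pool.Agent.YTD.Star

/-!
The small-degree part of the filtration is negligible along powers of two.
-/

namespace Pool.Agent.YTD

open Finset Filter

/-- weighted sum -/
noncomputable def Mu (q N : ℕ) (f : ℤ → ℝ) : ℝ :=
  ∑ j ∈ Icc (-((5 * q * N : ℕ) : ℤ)) ((5 * q * N : ℕ) : ℤ), mult q N j * f j

theorem mult_eq (q N : ℕ) (j : ℤ) :
    mult q N j = 625 * ((q : ℝ) * N) ^ 2 - 9 * (j : ℝ) ^ 2 + 50 * (q * N) + 1 := by
  unfold mult; ring

theorem Mu_double {q N : ℕ} (hq : 0 < q) (hN : 0 < N) {R : ℝ} {s H : ℤ → ℝ}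
    (hs : ∀ j : ℤ, |j| ≤ 5 * q * N → 0 ≤ s j) (hs' : ∀ j : ℤ, |j| ≤ 5 * q * N → s j ≤ R)
    (h0 : ∀ j : ℤ, |j| ≤ 5 * q * N → s j ≤ H (2 * j))
    (h1 : ∀ j : ℤ, |j| ≤ 5 * q * N → |j + 1| ≤ 5 * q * N → (s j + s (j + 1)) / 2 ≤ H (2 * j + 1)) :
    8 * Mu q N s - 5000 * ((q : ℝ) * N) ^ 2 * R ≤ Mu q (2 * N) H := by
  set Q : ℕ := q * N with hQ
  have hQ1 : 1 ≤ Q := Nat.mul_pos hq hN
  have hQr : (1 : ℝ) ≤ Q := by exact_mod_cast hQ1
  have hQc : (Q : ℝ) = q * N := by rw [hQ]; push_cast; ring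
  have hQz : (Q : ℤ) = q * N := by rw [hQ]; push_cast; ring
  have hM : 5 * q * N = 5 * Q := by rw [hQ]; ring
  have hM2 : 5 * q * (2 * N) = 2 * (5 * Q) := by rw [hQ]; ring
  have hR : 0 ≤ R := (hs 0 (by rw [abs_zero]; positivity)).trans
    (hs' 0 (by rw [abs_zero]; positivity))
  have rng : ∀ i ∈ range (2 * (5 * Q) + 1), |(i : ℤ) - (5 * Q : ℕ)| ≤ 5 * q * N := by
    intro i hi
    have := mem_range.1 hi
    rw [show (5 * (q : ℤ) * N) = 5 * Q by rw [hQz]; ring, abs_le]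
    push_cast
    constructor <;> omega
  have rng' : ∀ i ∈ range (2 * (5 * Q)), |(i : ℤ) - (5 * Q : ℕ)| ≤ 5 * q * N ∧
      |(i : ℤ) - (5 * Q : ℕ) + 1| ≤ 5 * q * N := by
    intro i hi
    have := mem_range.1 hi
    rw [show (5 * (q : ℤ) * N) = 5 * Q by rw [hQz]; ring, abs_le, abs_le]
    push_cast
    constructor <;> constructor <;> omega
  have e1 : Mu q N s = ∑ i ∈ range (2 * (5 * Q) + 1),
      mult q N ((i : ℤ) - (5 * Q : ℕ)) * s ((i : ℤ) - (5 * Q : ℕ)) := by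
    unfold Mu
    rw [hM, ← sum_range_eq_Icc (5 * Q) (fun j => mult q N j * s j)]
  have e2 : Mu q (2 * N) H = ∑ i ∈ range (4 * (5 * Q) + 1),
      (fun j : ℤ => mult q (2 * N) j * H j) ((i : ℤ) - 2 * ((5 * Q : ℕ) : ℤ)) := by
    unfold Mu
    rw [hM2, ← sum_range_eq_Icc (2 * (5 * Q)) (fun j => mult q (2 * N) j * H j),
      show 2 * (2 * (5 * Q)) + 1 = 4 * (5 * Q) + 1 by ring]
    apply sum_congr rfl
    intro i _
    push_cast
    rfl
  rw [e2, sum_split (5 * Q) (fun j : ℤ => mult q (2 * N) j * H j)]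
  have mpos : ∀ j : ℤ, |j| ≤ 5 * q * ((2 * N : ℕ) : ℤ) → 0 ≤ mult q (2 * N) j :=
    fun j hj => (mult_pos hj).le
  have E1 : ∑ i ∈ range (2 * (5 * Q) + 1), mult q (2 * N) (2 * ((i : ℤ) - (5 * Q : ℕ))) *
      s ((i : ℤ) - (5 * Q : ℕ)) ≤ ∑ i ∈ range (2 * (5 * Q) + 1),
      mult q (2 * N) (2 * ((i : ℤ) - (5 * Q : ℕ))) * H (2 * ((i : ℤ) - (5 * Q : ℕ))) := by
    apply sum_le_sum
    intro i hi
    apply mul_le_mul_of_nonneg_left (h0 _ (rng i hi))
    apply mpos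
    rw [abs_mul, show |(2 : ℤ)| = 2 by rfl]
    push_cast
    have := rng i hi
    push_cast at this
    linarith
  have E2 : ∑ i ∈ range (2 * (5 * Q)), mult q (2 * N) (2 * ((i : ℤ) - (5 * Q : ℕ)) + 1) *
      ((s ((i : ℤ) - (5 * Q : ℕ)) + s ((i : ℤ) - (5 * Q : ℕ) + 1)) / 2) ≤
      ∑ i ∈ range (2 * (5 * Q)), mult q (2 * N) (2 * ((i : ℤ) - (5 * Q : ℕ)) + 1) *
        H (2 * ((i : ℤ) - (5 * Q : ℕ)) + 1) := by
    apply sum_le_sum
    intro i hi
    apply mul_le_mul_of_nonneg_left (h1 _ (rng' i hi).1 (rng' i hi).2)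
    apply mpos
    have h2 := abs_le.1 (rng' i hi).1
    have h3 := abs_le.1 (rng' i hi).2
    rw [abs_le]
    push_cast at *
    constructor <;> linarith
  refine le_trans ?_ (add_le_add E1 E2)
  have E3 : ∑ i ∈ range (2 * (5 * Q)), mult q (2 * N) (2 * ((i : ℤ) - (5 * Q : ℕ)) + 1) *
      ((s ((i : ℤ) - (5 * Q : ℕ)) + s ((i : ℤ) - (5 * Q : ℕ) + 1)) / 2) =
      ∑ i ∈ range (2 * (5 * Q)), (mult q (2 * N) (2 * ((i : ℤ) - (5 * Q : ℕ)) + 1) / 2) *
        s ((i : ℤ) - (5 * Q : ℕ)) +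
      ∑ i ∈ range (2 * (5 * Q)), (mult q (2 * N) (2 * ((i : ℤ) - (5 * Q : ℕ)) + 1) / 2) *
        s (((i + 1 : ℕ) : ℤ) - (5 * Q : ℕ)) := by
    rw [← sum_add_distrib]
    apply sum_congr rfl
    intro i _
    rw [show (((i + 1 : ℕ) : ℤ) - (5 * Q : ℕ)) = ((i : ℤ) - (5 * Q : ℕ)) + 1 by push_cast; ring]
    ring
  rw [E3, sum_shift (2 * (5 * Q)) (fun i => mult q (2 * N) (2 * ((i : ℤ) - (5 * Q : ℕ)) + 1) / 2)
    (fun i => s ((i : ℤ) - (5 * Q : ℕ)))]
  -- pointwise comparison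
  have E4 : ∑ i ∈ range (2 * (5 * Q) + 1), ((8 * mult q N ((i : ℤ) - (5 * Q : ℕ)) - 215 * Q) *
      s ((i : ℤ) - (5 * Q : ℕ)) - ((if i = 0 then 971 * (Q : ℝ) ^ 2 * R else 0) +
        (if i = 2 * (5 * Q) then 971 * (Q : ℝ) ^ 2 * R else 0))) ≤
      ∑ i ∈ range (2 * (5 * Q) + 1), mult q (2 * N) (2 * ((i : ℤ) - (5 * Q : ℕ))) *
      s ((i : ℤ) - (5 * Q : ℕ)) +
      ∑ i ∈ range (2 * (5 * Q) + 1),
      ((if i < 2 * (5 * Q) then
          (fun i : ℕ => mult q (2 * N) (2 * ((i : ℤ) - (5 * Q : ℕ)) + 1) / 2) i else 0) +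
       (if 0 < i then (fun i : ℕ => mult q (2 * N) (2 * ((i : ℤ) - (5 * Q : ℕ)) + 1) / 2) (i - 1)
        else 0)) * (fun i : ℕ => s ((i : ℤ) - (5 * Q : ℕ))) i := by
    rw [← sum_add_distrib]
    apply sum_le_sum
    intro i hi
    have hi' := mem_range.1 hi
    have hs0 := hs _ (rng i hi)
    have hsR := hs' _ (rng i hi)
    rw [← add_mul]
    simp only [mult_eq]
    rcases Nat.eq_zero_or_pos i with h0 | h0
    · subst h0
      rw [if_pos rfl, if_neg (by omega), if_pos (by omega), if_neg (lt_irrefl 0)]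
      push_cast at *
      rw [← hQc]
      have e : ((2 : ℝ) * 0 = 0) := by norm_num
      set x := s (0 - 5 * (Q : ℤ)) with hx
      have h5 : (971 : ℝ) * Q ^ 2 * x ≤ 971 * Q ^ 2 * R := mul_le_mul_of_nonneg_left hsR (by positivity)
      have h6 : (0 : ℝ) ≤ x * Q := by positivity
      have h7 : (0 : ℝ) ≤ x * (Q - 1) := mul_nonneg hs0 (by linarith)
      have h8 : (0 : ℝ) ≤ x * (Q * (Q - 1)) := mul_nonneg hs0 (mul_nonneg (by positivity) (by linarith))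
      rw [show (q : ℝ) * (2 * N) = 2 * Q by rw [hQc]; ring]
      nlinarith
    · rcases Nat.lt_or_ge i (2 * (5 * Q)) with h1 | h1
      · rw [if_neg (by omega), if_neg (by omega), if_pos h1, if_pos h0]
        rw [show (((i - 1 : ℕ) : ℤ) - (5 * Q : ℕ)) = ((i : ℤ) - (5 * Q : ℕ)) - 1 by
          push_cast [Nat.cast_sub (show 1 ≤ i by omega)]; ring]
        push_cast at *
        rw [show (q : ℝ) * (2 * N) = 2 * Q by rw [hQc]; ring, ← hQc]
        set x := s ((i : ℤ) - 5 * (Q : ℤ)) with hx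
        have h6 : (0 : ℝ) ≤ x * (Q - 1) := mul_nonneg hs0 (by linarith)
        nlinarith
      · have hi2 : i = 2 * (5 * Q) := by omega
        subst hi2
        rw [if_neg (by omega), if_pos rfl, if_neg (lt_irrefl _), if_pos h0]
        rw [show (((2 * (5 * Q) - 1 : ℕ) : ℤ) - (5 * Q : ℕ)) = 5 * (Q : ℤ) - 1 by
          rw [Nat.cast_sub (show 1 ≤ 2 * (5 * Q) by omega)]; push_cast; ring]
        push_cast at *
        rw [show (q : ℝ) * (2 * N) = 2 * Q by rw [hQc]; ring, ← hQc]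
        set x := s (2 * (5 * (Q : ℤ)) - 5 * (Q : ℤ)) with hx
        have h5 : (971 : ℝ) * Q ^ 2 * x ≤ 971 * Q ^ 2 * R :=
          mul_le_mul_of_nonneg_left hsR (by positivity)
        have h6 : (0 : ℝ) ≤ x * Q := by positivity
        have h7 : (0 : ℝ) ≤ x * (Q - 1) := mul_nonneg hs0 (by linarith)
        have h8 : (0 : ℝ) ≤ x * (Q * (Q - 1)) :=
          mul_nonneg hs0 (mul_nonneg (by positivity) (by linarith))
        nlinarith
  refine le_trans ?_ E4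
  rw [sum_sub_distrib, sum_add_distrib, sum_ite_eq', sum_ite_eq', if_pos (mem_range.2 (by omega)),
    if_pos (mem_range.2 (by omega))]
  have E5 : ∑ i ∈ range (2 * (5 * Q) + 1), ((8 * mult q N ((i : ℤ) - (5 * Q : ℕ)) - 215 * Q) *
      s ((i : ℤ) - (5 * Q : ℕ))) = 8 * Mu q N s -
      215 * Q * ∑ i ∈ range (2 * (5 * Q) + 1), s ((i : ℤ) - (5 * Q : ℕ)) := by
    rw [e1, mul_sum, mul_sum, ← sum_sub_distrib]
    apply sum_congr rfl
    intro i _
    ring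
  have E6 : ∑ i ∈ range (2 * (5 * Q) + 1), s ((i : ℤ) - (5 * Q : ℕ)) ≤ 11 * Q * R := by
    have : ∑ i ∈ range (2 * (5 * Q) + 1), s ((i : ℤ) - (5 * Q : ℕ)) ≤
        ∑ _i ∈ range (2 * (5 * Q) + 1), R := sum_le_sum fun i hi => hs' _ (rng i hi)
    rw [sum_const, card_range, nsmul_eq_mul] at this
    refine this.trans (mul_le_mul_of_nonneg_right ?_ hR)
    push_cast
    linarith
  have E7 : 215 * (Q : ℝ) * ∑ i ∈ range (2 * (5 * Q) + 1), s ((i : ℤ) - (5 * Q : ℕ)) ≤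
      215 * Q * (11 * Q * R) := mul_le_mul_of_nonneg_left E6 (by positivity)
  rw [E5, ← hQc]
  have : (0 : ℝ) ≤ (Q : ℝ) ^ 2 * R := by positivity
  nlinarith

/-- a bounded, almost increasing sequence has increments tending to zero. -/
theorem incr_tendsto_zero {x : ℕ → ℝ} {C B : ℝ} (h : ∀ k, x k - C * (1 / 2) ^ k ≤ x (k + 1))
    (hB : ∀ k, x k ≤ B) : Tendsto (fun k => x (k + 1) - x k) atTop (nhds 0) := by
  set y : ℕ → ℝ := fun k => x k - 2 * |C| * (1 / 2) ^ k with hy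
  have hmono : Monotone y := by
    apply monotone_nat_of_le_succ
    intro k
    simp only [hy]
    have h1 := h k
    have h2 : C * (1 / 2) ^ k ≤ |C| * (1 / 2) ^ k :=
      mul_le_mul_of_nonneg_right (le_abs_self C) (by positivity)
    rw [pow_succ]
    nlinarith
  have hbd : BddAbove (Set.range y) := by
    refine ⟨B, ?_⟩
    rintro _ ⟨k, rfl⟩
    simp only [hy]
    have : 0 ≤ 2 * |C| * (1 / 2) ^ k := by positivity
    linarith [hB k]
  have hlim := tendsto_atTop_ciSup hmono hbd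
  have hpow : Tendsto (fun k : ℕ => 2 * |C| * (1 / 2 : ℝ) ^ k) atTop (nhds (2 * |C| * 0)) :=
    (tendsto_pow_atTop_nhds_zero_of_lt_one (by norm_num) (by norm_num)).const_mul _
  have hx : Tendsto x atTop (nhds ((⨆ k, y k) + 2 * |C| * 0)) := by
    have := hlim.add hpow
    refine this.congr ?_
    intro k
    simp only [hy]
    ring
  have hx' := hx.comp (tendsto_add_atTop_nat 1)
  have := hx'.sub hx
  rw [sub_self] at this
  exact this

/-- a nonnegative sequence with `z (k+1) ≤ z k / 2 + η k`, `η → 0`, tends to zero. -/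
theorem tendsto_zero_of_half {z η : ℕ → ℝ} (h0 : ∀ k, 0 ≤ z k)
    (h : ∀ k, z (k + 1) ≤ z k / 2 + η k) (hη : Tendsto η atTop (nhds 0)) :
    Tendsto z atTop (nhds 0) := by
  rw [Metric.tendsto_atTop] at hη ⊢
  intro ε hε
  obtain ⟨k₀, hk₀⟩ := hη (ε / 8) (by positivity)
  have h1 : ∀ m, z (k₀ + m) ≤ z k₀ * (1 / 2) ^ m + ε / 4 := by
    intro m
    induction m with
    | zero => simp; linarith
    | succ m ih =>
      have h2 := h (k₀ + m)
      have h3 := hk₀ (k₀ + m) (by omega)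
      rw [Real.dist_eq, sub_zero] at h3
      have h4 := (abs_lt.1 h3).2
      rw [← add_assoc, pow_succ]
      linarith
  have h2 : Tendsto (fun m : ℕ => z k₀ * (1 / 2 : ℝ) ^ m) atTop (nhds (z k₀ * 0)) :=
    (tendsto_pow_atTop_nhds_zero_of_lt_one (by norm_num) (by norm_num)).const_mul _
  rw [mul_zero, Metric.tendsto_atTop] at h2
  obtain ⟨m₀, hm₀⟩ := h2 (ε / 4) (by positivity)
  refine ⟨k₀ + m₀, fun n hn => ?_⟩
  obtain ⟨m, rfl⟩ := Nat.exists_eq_add_of_le (show k₀ ≤ n by omega)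
  have h3 := hm₀ m (by omega)
  rw [Real.dist_eq, sub_zero] at h3
  rw [Real.dist_eq, sub_zero, abs_of_nonneg (h0 _)]
  have h4 := (abs_lt.1 h3).2
  have := h1 m
  linarith

end Pool.Agent.YTD
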