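import Pool.Agent.YTD.System

/-!
The functional `Phi` and its behaviour under doubling.
-/

namespace Pool.Agent.YTD

open Finset

/-- largest exponent in the `a`-direction -/
def AA (q L : ℕ) (j : ℤ) : ℕ := (25 * q * L + 3 * j : ℤ).toNat

/-- largest exponent in the `b`-direction -/
def BB (q L : ℕ) (j : ℤ) : ℕ := (25 * q * L - 3 * j : ℤ).toNat

theorem AA_cast {q L : ℕ} {j : ℤ} (h : |j| ≤ 5 * q * L) :
    ((AA q L j : ℕ) : ℤ) = 25 * q * L + 3 * j := by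
  unfold AA
  rw [Int.toNat_of_nonneg]
  rw [abs_le] at h
  have : (0 : ℤ) ≤ q * L := by positivity
  nlinarith [h.1]

theorem BB_cast {q L : ℕ} {j : ℤ} (h : |j| ≤ 5 * q * L) :
    ((BB q L j : ℕ) : ℤ) = 25 * q * L - 3 * j := by
  unfold BB
  rw [Int.toNat_of_nonneg]
  rw [abs_le] at h
  have : (0 : ℤ) ≤ q * L := by positivity
  nlinarith [h.2]

theorem inR_iff {q L : ℕ} {j : ℤ} (h : |j| ≤ 5 * q * L) {a b : ℕ} :
    InR q L j a b ↔ a ≤ AA q L j ∧ b ≤ BB q L j := by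
  unfold InR
  rw [← AA_cast h, ← BB_cast h]
  constructor
  · rintro ⟨_, h1, h2⟩
    exact ⟨by exact_mod_cast h1, by exact_mod_cast h2⟩
  · rintro ⟨h1, h2⟩
    exact ⟨h, by exact_mod_cast h1, by exact_mod_cast h2⟩

theorem AA_add {q L L' : ℕ} {j j' : ℤ} (h : |j| ≤ 5 * q * L) (h' : |j'| ≤ 5 * q * L') :
    AA q (L + L') (j + j') = AA q L j + AA q L' j' := by
  have h'' : |j + j'| ≤ 5 * q * ((L + L' : ℕ) : ℤ) := by
    push_cast
    calc |j + j'| ≤ |j| + |j'| := abs_add_le _ _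
      _ ≤ _ := by linarith
  zify
  rw [AA_cast h, AA_cast h', AA_cast h'']
  push_cast
  ring

theorem BB_add {q L L' : ℕ} {j j' : ℤ} (h : |j| ≤ 5 * q * L) (h' : |j'| ≤ 5 * q * L') :
    BB q (L + L') (j + j') = BB q L j + BB q L' j' := by
  have h'' : |j + j'| ≤ 5 * q * ((L + L' : ℕ) : ℤ) := by
    push_cast
    calc |j + j'| ≤ |j| + |j'| := abs_add_le _ _
      _ ≤ _ := by linarith
  zify
  rw [BB_cast h, BB_cast h', BB_cast h'']
  push_cast
  ring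

/-- average over the box of weight `j`. -/
noncomputable def av (q L : ℕ) (j : ℤ) (f : ℕ → ℕ → ℝ) : ℝ := avg2 (AA q L j) (BB q L j) f

theorem av_add_le {q L L' : ℕ} {j j' : ℤ} (h : |j| ≤ 5 * q * L) (h' : |j'| ≤ 5 * q * L')
    {f g H : ℕ → ℕ → ℝ} (hH : ∀ a a' b b', InR q L j a b → InR q L' j' a' b' →
      f a b + g a' b' ≤ H (a + a') (b + b')) :
    av q L j f + av q L' j' g ≤ av q (L + L') (j + j') H := by
  unfold av
  rw [AA_add h h', BB_add h h']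
  apply avg2_add_le
  intro a₁ ha₁ a₂ ha₂ b₁ hb₁ b₂ hb₂
  exact hH a₁ a₂ b₁ b₂ ((inR_iff h).2 ⟨ha₁, hb₁⟩) ((inR_iff h').2 ⟨ha₂, hb₂⟩)

theorem av_mono {q L : ℕ} {j : ℤ} (h : |j| ≤ 5 * q * L) {f g : ℕ → ℕ → ℝ}
    (hfg : ∀ a b, InR q L j a b → f a b ≤ g a b) : av q L j f ≤ av q L j g :=
  avg2_mono fun a ha b hb => hfg a b ((inR_iff h).2 ⟨ha, hb⟩)

theorem av_const (q L : ℕ) (j : ℤ) (c : ℝ) : av q L j (fun _ _ => c) = c := avg2_const _ _ _

theorem av_nonneg {q L : ℕ} {j : ℤ} (h : |j| ≤ 5 * q * L) {f : ℕ → ℕ → ℝ}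
    (hf : ∀ a b, InR q L j a b → 0 ≤ f a b) : 0 ≤ av q L j f := by
  rw [← av_const q L j 0]
  exact av_mono h hf

/-- sum over `j` from `-M` to `M`. -/
theorem sum_split (M : ℕ) (F : ℤ → ℝ) :
    ∑ i ∈ range (4 * M + 1), F ((i : ℤ) - 2 * M) =
      ∑ i ∈ range (2 * M + 1), F (2 * ((i : ℤ) - M)) +
        ∑ i ∈ range (2 * M), F (2 * ((i : ℤ) - M) + 1) := by
  have key : ∀ (k : ℕ) (H : ℕ → ℝ), ∑ i ∈ range (2 * k + 1), H i =
      ∑ i ∈ range (k + 1), H (2 * i) + ∑ i ∈ range k, H (2 * i + 1) := by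
    intro k H
    induction k with
    | zero => simp
    | succ k ih =>
      rw [show 2 * (k + 1) + 1 = 2 * k + 1 + 1 + 1 by ring, sum_range_succ, sum_range_succ, ih,
        sum_range_succ (fun i => H (2 * i)) (k + 1), sum_range_succ (fun i => H (2 * i + 1)) k]
      rw [show 2 * (k + 1) = 2 * k + 1 + 1 by ring]
      ring
  rw [show 4 * M + 1 = 2 * (2 * M) + 1 by ring, key (2 * M) (fun i => F ((i : ℤ) - 2 * M))]
  congr 1
  · apply sum_congr rfl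
    intro i _
    congr 1
    push_cast
    ring
  · apply sum_congr rfl
    intro i _
    congr 1
    push_cast
    ring

theorem abel_le (k : ℕ) (w n : ℕ → ℝ) (hw : ∀ i < k, 0 ≤ w i)
    (hw' : ∀ i, i + 1 < k → w (i + 1) ≤ w i) (hn : ∀ i ≤ k, 0 ≤ n i) (h0 : 0 ≤ w 0) :
    ∑ i ∈ range k, w i * (n i - n (i + 1)) ≤ w 0 * n 0 := by
  have key : ∀ m, m + 1 ≤ k →
      ∑ i ∈ range (m + 1), w i * (n i - n (i + 1)) ≤ w 0 * n 0 - w m * n (m + 1) := by
    intro m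
    induction m with
    | zero =>
      intro _
      simp
      linarith
    | succ m ih =>
      intro hm
      rw [sum_range_succ]
      have h1 := ih (by omega)
      have h2 := hw' m (by omega)
      have h3 := hn (m + 1) (by omega)
      nlinarith
  rcases Nat.eq_zero_or_pos k with rfl | hk
  · simp
    exact mul_nonneg h0 (hn 0 le_rfl)
  · obtain ⟨m, rfl⟩ := Nat.exists_eq_add_of_lt hk
    rw [zero_add] at *
    have h1 := key m le_rfl
    have h2 := hw m (by omega)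
    have h3 := hn (m + 1) le_rfl
    have := mul_nonneg h2 h3
    linarith

/-- the weights of the functional. -/
noncomputable def Wt (q L : ℕ) (j : ℤ) : ℝ :=
  if |j| = 5 * q * L then 200 * ((q : ℝ) * L) ^ 2 else 625 * ((q : ℝ) * L) ^ 2 - 9 * (j : ℝ) ^ 2

theorem Wt_end {q L : ℕ} {j : ℤ} (h : |j| = 5 * q * L) : Wt q L j = 200 * ((q : ℝ) * L) ^ 2 := by
  unfold Wt
  rw [if_pos h]

theorem Wt_mid {q L : ℕ} {j : ℤ} (h : |j| ≠ 5 * q * L) :
    Wt q L j = 625 * ((q : ℝ) * L) ^ 2 - 9 * (j : ℝ) ^ 2 := by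
  unfold Wt
  rw [if_neg h]

theorem Wt_nonneg {q L : ℕ} {j : ℤ} (h : |j| ≤ 5 * q * L) : 0 ≤ Wt q L j := by
  unfold Wt
  split_ifs
  · positivity
  · have h1 : |(j : ℝ)| ≤ 5 * q * L := by exact_mod_cast h
    have h2 : (j : ℝ) ^ 2 ≤ (5 * q * L) ^ 2 := sq_le_sq' (by linarith [(abs_le.1 h1).1])
      (abs_le.1 h1).2
    nlinarith [sq_nonneg ((q : ℝ) * L)]

theorem Wt_le {q L : ℕ} {j : ℤ} : Wt q L j ≤ 625 * ((q : ℝ) * L) ^ 2 := by
  unfold Wt
  split_ifs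
  · nlinarith [sq_nonneg ((q : ℝ) * L)]
  · nlinarith [sq_nonneg (j : ℝ)]

variable {K : Type} [Field K] [Algebra ℂ K]
variable {T : Datum K} {q : ℕ} {D₀ : T.X.Pt →₀ ℤ} {G : Graded T q D₀} {c : ℤ} {L : ℕ}

namespace Sys

/-- average of `U`. -/
noncomputable def ub (s : Sys G c L) (j : ℤ) : ℝ := av q L j fun a b => (s.U j a b : ℝ)

/-- average of `n`. -/
noncomputable def nb (s : Sys G c L) (j : ℤ) : ℝ := av q L j fun a b => (s.n j a b : ℝ)

theorem nb_nonneg (s : Sys G c L) {j : ℤ} (h : |j| ≤ 5 * q * L) : 0 ≤ s.nb j :=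
  av_nonneg h fun _ _ _ => by positivity

theorem nb_le (s : Sys G c L) {j : ℤ} (h : |j| ≤ 5 * q * L) : s.nb j ≤ G.Λ * L := by
  rw [← av_const q L j (G.Λ * L)]
  apply av_mono h
  intro a b hab
  exact_mod_cast s.n_le j a b hab

theorem ub_nonneg (s : Sys G c L) {j : ℤ} (h : |j| ≤ 5 * q * L) : 0 ≤ s.ub j :=
  av_nonneg h fun a b hab => by exact_mod_cast s.U_nonneg hab

theorem ub_le (s : Sys G c L) {j : ℤ} (h : |j| ≤ 5 * q * L) :
    s.ub j ≤ G.Λ * L * (105 * T.t * q * L) := by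
  rw [← av_const q L j (G.Λ * L * (105 * T.t * q * L))]
  apply av_mono h
  intro a b hab
  have h1 : (s.U j a b : ℝ) ≤ s.n j a b * dg T.t q L j := by exact_mod_cast s.U_le hab
  have h2 : (s.n j a b : ℝ) ≤ G.Λ * L := by exact_mod_cast s.n_le j a b hab
  have h3 : (dg T.t q L j : ℝ) ≤ 105 * T.t * q * L := by exact_mod_cast dg_le T.t q L j
  have h4 : (0 : ℝ) ≤ dg T.t q L j := by
    have : (0 : ℤ) ≤ dg T.t q L j := le_trans (by positivity) (le_dg h)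
    exact_mod_cast this
  calc (s.U j a b : ℝ) ≤ s.n j a b * dg T.t q L j := h1
    _ ≤ (G.Λ * L) * dg T.t q L j := mul_le_mul_of_nonneg_right h2 h4
    _ ≤ _ := mul_le_mul_of_nonneg_left h3 (by positivity)

/-- the functional. -/
noncomputable def Phi (s : Sys G c L) : ℝ :=
  ∑ i ∈ range (2 * (5 * q * L) + 1), Wt q L ((i : ℤ) - (5 * q * L : ℕ)) *
    s.ub ((i : ℤ) - (5 * q * L : ℕ))

end Sys

end Pool.Agent.YTD
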