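import Pool.Agent.YTD.Phi

namespace Pool.Agent.YTD

open Finset

theorem av_lin (q L : ℕ) (j : ℤ) (x y : ℝ) (f g : ℕ → ℕ → ℝ) :
    av q L j (fun a b => x * f a b + y * g a b) = x * av q L j f + y * av q L j g := by
  unfold av
  rw [avg2_add, avg2_mul, avg2_mul]

variable {K : Type} [Field K] [Algebra ℂ K]
variable {T : Datum K} {q : ℕ} {D₀ : T.X.Pt →₀ ℤ} {G : Graded T q D₀} {c : ℤ} {L : ℕ}

/-- the difference of consecutive degrees -/
theorem dg_diff (t q L : ℕ) (j : ℤ) : dg t q L j - dg t q L (j + 1) =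
    100 * t * ((if 4 * (q : ℤ) * L ≤ j then 1 else 0) -
      (if j + 1 ≤ -(4 * (q : ℤ) * L) then 1 else 0)) := by
  unfold dg
  have hpos : (0 : ℤ) ≤ 4 * q * L := by positivity
  generalize 4 * (q : ℤ) * L = u at *
  have : (max 0 (j + 1 - u) + max 0 (-(j + 1) - u)) - (max 0 (j - u) + max 0 (-j - u)) =
      ((if u ≤ j then 1 else 0) - (if j + 1 ≤ -u then 1 else 0)) := by
    split_ifs <;> omega
  rw [← this]
  ring

theorem sum_shift (N : ℕ) (β u : ℕ → ℝ) :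
    ∑ i ∈ range N, β i * u i + ∑ i ∈ range N, β i * u (i + 1) =
      ∑ i ∈ range (N + 1), ((if i < N then β i else 0) + (if 0 < i then β (i - 1) else 0)) * u i := by
  have e1 : ∑ i ∈ range (N + 1), (if i < N then β i else 0) * u i = ∑ i ∈ range N, β i * u i := by
    rw [sum_range_succ, if_neg (lt_irrefl N), zero_mul, add_zero]
    apply sum_congr rfl
    intro i hi
    rw [if_pos (mem_range.1 hi)]
  have e2 : ∑ i ∈ range (N + 1), (if 0 < i then β (i - 1) else 0) * u i =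
      ∑ i ∈ range N, β i * u (i + 1) := by
    rw [sum_range_succ', if_neg (lt_irrefl 0), zero_mul, add_zero]
    apply sum_congr rfl
    intro i _
    rw [if_pos (Nat.succ_pos i), Nat.add_sub_cancel]
  rw [← e1, ← e2, ← sum_add_distrib]
  apply sum_congr rfl
  intro i _
  ring

/-- the correction term coming from the varying degrees is of lower order. -/
theorem corr_le (t Q : ℕ) (R : ℝ) (n : ℤ → ℝ) (hn : ∀ j : ℤ, |j| ≤ 5 * Q → 0 ≤ n j)
    (hn' : ∀ j : ℤ, |j| ≤ 5 * Q → n j ≤ R) (δ : ℤ → ℝ)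
    (hδ : ∀ j : ℤ, δ j = 100 * t * ((if 4 * (Q : ℤ) ≤ j then 1 else 0) -
      (if j + 1 ≤ -(4 * (Q : ℤ)) then 1 else 0))) :
    ∑ i ∈ range (2 * (5 * Q)), (2500 * (Q : ℝ) ^ 2 - 9 * (2 * (((i : ℤ) - (5 * Q : ℕ) : ℤ) : ℝ) + 1) ^ 2)
      * ((n ((i : ℤ) - (5 * Q : ℕ)) - n ((i : ℤ) - (5 * Q : ℕ) + 1)) * δ ((i : ℤ) - (5 * Q : ℕ))) ≤
      500000 * t * (Q : ℝ) ^ 2 * R := by
  rcases Nat.eq_zero_or_pos Q with rfl | hQ
  · simp
  have hQ' : (1 : ℝ) ≤ Q := by exact_mod_cast hQ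
  have hR : 0 ≤ R := (hn 0 (by simp)).trans (hn' 0 (by simp))
  rw [show 2 * (5 * Q) = Q + (8 * Q + Q) by ring, sum_range_add, sum_range_add]
  -- weights
  let w : ℕ → ℝ := fun i => 2500 * (Q : ℝ) ^ 2 - 9 * (8 * Q + 2 * i + 1) ^ 2
  have hw : ∀ i < Q, 0 ≤ w i := by
    intro i hi
    have h1 : (i : ℝ) + 1 ≤ Q := by exact_mod_cast hi
    have h2 : (0 : ℝ) ≤ i := by positivity
    simp only [w]
    nlinarith
  have hw' : ∀ i, i + 1 < Q → w (i + 1) ≤ w i := by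
    intro i hi
    have h2 : (0 : ℝ) ≤ i := by positivity
    simp only [w]
    push_cast
    nlinarith
  have hw0 : 0 ≤ w 0 := hw 0 hQ
  have hw0' : w 0 ≤ 2500 * (Q : ℝ) ^ 2 := by
    simp only [w]
    nlinarith [sq_nonneg (8 * (Q : ℝ) + 2 * ((0 : ℕ) : ℝ) + 1)]
  -- first block
  have B1 : ∑ x ∈ range Q, (2500 * (Q : ℝ) ^ 2 - 9 * (2 * (((x : ℤ) - (5 * Q : ℕ) : ℤ) : ℝ) + 1) ^ 2)
      * ((n ((x : ℤ) - (5 * Q : ℕ)) - n ((x : ℤ) - (5 * Q : ℕ) + 1)) * δ ((x : ℤ) - (5 * Q : ℕ))) ≤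
      100 * t * (2500 * (Q : ℝ) ^ 2 * R) := by
    rw [← sum_range_reflect]
    have e : ∀ i ∈ range Q, (2500 * (Q : ℝ) ^ 2 -
        9 * (2 * ((((Q - 1 - i : ℕ) : ℤ) - (5 * Q : ℕ) : ℤ) : ℝ) + 1) ^ 2)
        * ((n (((Q - 1 - i : ℕ) : ℤ) - (5 * Q : ℕ)) - n (((Q - 1 - i : ℕ) : ℤ) - (5 * Q : ℕ) + 1)) *
          δ (((Q - 1 - i : ℕ) : ℤ) - (5 * Q : ℕ))) =
        100 * t * (w i * (n (-(4 * Q : ℤ) - i) - n (-(4 * Q : ℤ) - (i + 1 : ℕ)))) := by
      intro i hi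
      have hi' := mem_range.1 hi
      have e1 : ((Q - 1 - i : ℕ) : ℤ) - (5 * Q : ℕ) = -(4 * Q : ℤ) - (i + 1 : ℕ) := by
        push_cast
        omega
      rw [e1, hδ]
      have e2 : -(4 * Q : ℤ) - (i + 1 : ℕ) + 1 = -(4 * Q : ℤ) - i := by push_cast; ring
      rw [e2, if_neg (by omega), if_pos (by omega)]
      simp only [w]
      push_cast
      ring
    rw [sum_congr rfl e, ← mul_sum]
    apply mul_le_mul_of_nonneg_left _ (by positivity)
    refine (abel_le Q w (fun i => n (-(4 * Q : ℤ) - i)) hw hw' ?_ hw0).trans ?_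
    · intro i hi
      apply hn
      rw [abs_le]
      constructor <;> omega
    · apply mul_le_mul hw0' _ _ (by positivity)
      · apply hn'
        rw [abs_le]
        constructor <;> omega
      · apply hn
        rw [abs_le]
        constructor <;> omega
  -- middle block
  have B2 : ∑ x ∈ range (8 * Q), (2500 * (Q : ℝ) ^ 2 -
      9 * (2 * ((((Q + x : ℕ) : ℤ) - (5 * Q : ℕ) : ℤ) : ℝ) + 1) ^ 2)
      * ((n (((Q + x : ℕ) : ℤ) - (5 * Q : ℕ)) - n (((Q + x : ℕ) : ℤ) - (5 * Q : ℕ) + 1)) *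
        δ (((Q + x : ℕ) : ℤ) - (5 * Q : ℕ))) = 0 := by
    apply sum_eq_zero
    intro i hi
    have hi' := mem_range.1 hi
    rw [hδ, if_neg (by push_cast; omega), if_neg (by push_cast; omega)]
    ring
  -- last block
  have B3 : ∑ x ∈ range Q, (2500 * (Q : ℝ) ^ 2 -
      9 * (2 * ((((Q + (8 * Q + x) : ℕ) : ℤ) - (5 * Q : ℕ) : ℤ) : ℝ) + 1) ^ 2)
      * ((n (((Q + (8 * Q + x) : ℕ) : ℤ) - (5 * Q : ℕ)) -
        n (((Q + (8 * Q + x) : ℕ) : ℤ) - (5 * Q : ℕ) + 1)) *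
        δ (((Q + (8 * Q + x) : ℕ) : ℤ) - (5 * Q : ℕ))) ≤ 100 * t * (2500 * (Q : ℝ) ^ 2 * R) := by
    have e : ∀ i ∈ range Q, (2500 * (Q : ℝ) ^ 2 -
        9 * (2 * ((((Q + (8 * Q + i) : ℕ) : ℤ) - (5 * Q : ℕ) : ℤ) : ℝ) + 1) ^ 2)
        * ((n (((Q + (8 * Q + i) : ℕ) : ℤ) - (5 * Q : ℕ)) -
          n (((Q + (8 * Q + i) : ℕ) : ℤ) - (5 * Q : ℕ) + 1)) *
          δ (((Q + (8 * Q + i) : ℕ) : ℤ) - (5 * Q : ℕ))) =
        100 * t * (w i * (n ((4 * Q : ℤ) + i) - n ((4 * Q : ℤ) + (i + 1 : ℕ)))) := by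
      intro i hi
      have hi' := mem_range.1 hi
      have e1 : ((Q + (8 * Q + i) : ℕ) : ℤ) - (5 * Q : ℕ) = (4 * Q : ℤ) + i := by
        push_cast
        omega
      rw [e1, hδ]
      have e2 : (4 * Q : ℤ) + i + 1 = (4 * Q : ℤ) + (i + 1 : ℕ) := by push_cast; ring
      rw [e2, if_pos (by omega), if_neg (by omega)]
      simp only [w]
      push_cast
      ring
    rw [sum_congr rfl e, ← mul_sum]
    apply mul_le_mul_of_nonneg_left _ (by positivity)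
    refine (abel_le Q w (fun i => n ((4 * Q : ℤ) + i)) hw hw' ?_ hw0).trans ?_
    · intro i hi
      apply hn
      rw [abs_le]
      constructor <;> omega
    · apply mul_le_mul hw0' _ _ (by positivity)
      · apply hn'
        rw [abs_le]
        constructor <;> omega
      · apply hn
        rw [abs_le]
        constructor <;> omega
  rw [B2]
  linarith

namespace Sys

theorem exists_double_Phi (s : Sys G c L) (hq : 0 < q) (hL : 0 < L) : ∃ s' : Sys G c (2 * L),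
    32 * s.Phi - 600000 * T.t * (q : ℝ) ^ 2 * G.Λ * (L : ℝ) ^ 3 ≤ s'.Phi := by
  obtain ⟨s', hs'⟩ := s.exists_double
  refine ⟨s', ?_⟩
  set Q : ℕ := q * L with hQ
  have hQ1 : 1 ≤ Q := Nat.mul_pos hq hL
  have hQr : (1 : ℝ) ≤ Q := by exact_mod_cast hQ1
  have hQc : (Q : ℝ) = q * L := by rw [hQ]; push_cast; ring
  have hQz : (Q : ℤ) = q * L := by rw [hQ]; push_cast; ring
  have hM : 5 * q * L = 5 * Q := by rw [hQ]; ring
  -- even step
  have ev : ∀ j : ℤ, |j| ≤ 5 * q * L → 4 * s.ub j ≤ s'.ub (2 * j) := by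
    intro j hj
    have h := av_add_le hj hj (f := fun a b => 2 * (s.U j a b : ℝ) + 0 * 0)
      (g := fun a b => 2 * (s.U j a b : ℝ) + 0 * 0)
      (H := fun a b => (s'.U (j + j) a b : ℝ)) (by
        intro a a' b b' h1 h2
        have := hs' j j a a' b b' h1 h2 (by rw [← two_mul, dg_double]; ring)
        unfold val at this
        rw [sub_self, mul_zero, sub_zero] at this
        have h3 : (2 * (s.U j a b : ℝ) + 2 * s.U j a' b') ≤ s'.U (j + j) (a + a') (b + b') := by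
          exact_mod_cast this
        linarith)
    rw [av_lin q L j 2 0 (fun a b => (s.U j a b : ℝ)) (fun _ _ => 0), av_const] at h
    have e : av q (L + L) (j + j) (fun a b => (s'.U (j + j) a b : ℝ)) = s'.ub (2 * j) := by
      unfold ub
      rw [← two_mul, ← two_mul]
    rw [e] at h
    unfold ub at h ⊢
    linarith
  -- odd step
  have od : ∀ j : ℤ, |j| ≤ 5 * q * L → |j + 1| ≤ 5 * q * L →
      2 * s.ub j + 2 * s.ub (j + 1) -
        (s.nb j - s.nb (j + 1)) * ((dg T.t q L j - dg T.t q L (j + 1) : ℤ) : ℝ) ≤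
      s'.ub (2 * j + 1) := by
    intro j hj hj'
    set δ : ℝ := ((dg T.t q L j - dg T.t q L (j + 1) : ℤ) : ℝ) with hδ
    have h := av_add_le hj hj' (f := fun a b => 2 * (s.U j a b : ℝ) + (-δ) * (s.n j a b : ℝ))
      (g := fun a b => 2 * (s.U (j + 1) a b : ℝ) + δ * (s.n (j + 1) a b : ℝ))
      (H := fun a b => (s'.U (j + (j + 1)) a b : ℝ)) (by
        intro a a' b b' h1 h2
        have := hs' j (j + 1) a a' b b' h1 h2 (by
          rw [show j + (j + 1) = 2 * j + 1 by ring, dg_double_succ])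
        unfold val at this
        have h3 : (2 * (s.U j a b : ℝ) + 2 * s.U (j + 1) a' b' -
          ((s.n j a b : ℝ) - s.n (j + 1) a' b') * δ) ≤
            s'.U (j + (j + 1)) (a + a') (b + b') := by
          rw [hδ]
          exact_mod_cast this
        linarith)
    rw [av_lin, av_lin] at h
    have e : av q (L + L) (j + (j + 1)) (fun a b => (s'.U (j + (j + 1)) a b : ℝ)) =
        s'.ub (2 * j + 1) := by
      unfold ub
      rw [← two_mul, show j + (j + 1) = 2 * j + 1 by ring]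
    rw [e] at h
    simp only [ub, nb] at h ⊢
    linarith
  -- the sum at level 2L
  have S1 : s'.Phi = ∑ i ∈ range (4 * (5 * Q) + 1),
      (fun j : ℤ => Wt q (2 * L) j * s'.ub j) ((i : ℤ) - 2 * ((5 * Q : ℕ) : ℤ)) := by
    unfold Phi
    have e : 5 * q * (2 * L) = 2 * (5 * Q) := by rw [hQ]; ring
    rw [e, show 2 * (2 * (5 * Q)) + 1 = 4 * (5 * Q) + 1 by ring]
    apply sum_congr rfl
    intro i _
    simp only
    congr 2
  rw [S1, sum_split (5 * Q) (fun j : ℤ => Wt q (2 * L) j * s'.ub j)]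
  -- ranges
  have rng : ∀ i ∈ range (2 * (5 * Q) + 1), |(i : ℤ) - (5 * Q : ℕ)| ≤ 5 * q * L := by
    intro i hi
    have := mem_range.1 hi
    have e : (5 * (q : ℤ) * L) = 5 * Q := by rw [hQz]; ring
    rw [e, abs_le]
    push_cast
    constructor <;> omega
  have rng' : ∀ i ∈ range (2 * (5 * Q)), |(i : ℤ) - (5 * Q : ℕ)| ≤ 5 * q * L ∧
      |(i : ℤ) - (5 * Q : ℕ) + 1| ≤ 5 * q * L := by
    intro i hi
    have := mem_range.1 hi
    have e : (5 * (q : ℤ) * L) = 5 * Q := by rw [hQz]; ring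
    rw [e, abs_le, abs_le]
    push_cast
    constructor <;> constructor <;> omega
  have wpos : ∀ j : ℤ, |j| ≤ 5 * q * L → 0 ≤ Wt q (2 * L) (2 * j) := by
    intro j hj
    apply Wt_nonneg
    rw [abs_mul]
    push_cast
    rw [show |(2 : ℤ)| = 2 by rfl]
    linarith
  have wmid : ∀ j : ℤ, |j| ≤ 5 * q * L → |j + 1| ≤ 5 * q * L →
      Wt q (2 * L) (2 * j + 1) = 2500 * (Q : ℝ) ^ 2 - 9 * (2 * (j : ℝ) + 1) ^ 2 := by
    intro j hj hj'
    rw [Wt_mid]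
    · push_cast
      rw [hQc]
      ring
    · rw [abs_le] at hj hj'
      push_cast
      have e : 5 * (q : ℤ) * (2 * L) = 2 * (5 * q * L) := by ring
      rw [e]
      generalize 5 * (q : ℤ) * L = u at *
      intro h
      rcases abs_cases (2 * j + 1) with ⟨h1, _⟩ | ⟨h1, _⟩ <;> rw [h1] at h <;> omega
  have wmidpos : ∀ j : ℤ, |j| ≤ 5 * q * L → |j + 1| ≤ 5 * q * L →
      0 ≤ Wt q (2 * L) (2 * j + 1) := by
    intro j hj hj'
    apply Wt_nonneg
    rw [abs_le] at hj hj' ⊢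
    push_cast
    constructor <;> linarith
  -- lower bounds of the two sums
  have E1 : ∑ i ∈ range (2 * (5 * Q) + 1), 4 * Wt q (2 * L) (2 * ((i : ℤ) - (5 * Q : ℕ))) *
      s.ub ((i : ℤ) - (5 * Q : ℕ)) ≤ ∑ i ∈ range (2 * (5 * Q) + 1),
      Wt q (2 * L) (2 * ((i : ℤ) - (5 * Q : ℕ))) * s'.ub (2 * ((i : ℤ) - (5 * Q : ℕ))) := by
    apply sum_le_sum
    intro i hi
    have := mul_le_mul_of_nonneg_left (ev _ (rng i hi)) (wpos _ (rng i hi))
    linarith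
  have E2 : ∑ i ∈ range (2 * (5 * Q)), Wt q (2 * L) (2 * ((i : ℤ) - (5 * Q : ℕ)) + 1) *
      (2 * s.ub ((i : ℤ) - (5 * Q : ℕ)) + 2 * s.ub ((i : ℤ) - (5 * Q : ℕ) + 1) -
        (s.nb ((i : ℤ) - (5 * Q : ℕ)) - s.nb ((i : ℤ) - (5 * Q : ℕ) + 1)) *
          ((dg T.t q L ((i : ℤ) - (5 * Q : ℕ)) - dg T.t q L ((i : ℤ) - (5 * Q : ℕ) + 1) : ℤ) : ℝ)) ≤
      ∑ i ∈ range (2 * (5 * Q)),
      Wt q (2 * L) (2 * ((i : ℤ) - (5 * Q : ℕ)) + 1) * s'.ub (2 * ((i : ℤ) - (5 * Q : ℕ)) + 1) := by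
    apply sum_le_sum
    intro i hi
    exact mul_le_mul_of_nonneg_left (od _ (rng' i hi).1 (rng' i hi).2)
      (wmidpos _ (rng' i hi).1 (rng' i hi).2)
  refine le_trans ?_ (add_le_add E1 E2)
  -- correction term
  have C1 := corr_le T.t Q (G.Λ * L) s.nb
    (fun j hj => s.nb_nonneg (by rw [show (5 * (q : ℤ) * L) = 5 * Q by rw [hQz]; ring]; exact hj))
    (fun j hj => s.nb_le (by rw [show (5 * (q : ℤ) * L) = 5 * Q by rw [hQz]; ring]; exact hj))
    (fun j => ((dg T.t q L j - dg T.t q L (j + 1) : ℤ) : ℝ))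
    (by
      intro j
      rw [dg_diff, show 4 * (q : ℤ) * L = 4 * (Q : ℤ) by rw [hQz]; ring]
      push_cast
      rfl)
  -- split the second sum
  have E3 : ∑ i ∈ range (2 * (5 * Q)), Wt q (2 * L) (2 * ((i : ℤ) - (5 * Q : ℕ)) + 1) *
      (2 * s.ub ((i : ℤ) - (5 * Q : ℕ)) + 2 * s.ub ((i : ℤ) - (5 * Q : ℕ) + 1) -
        (s.nb ((i : ℤ) - (5 * Q : ℕ)) - s.nb ((i : ℤ) - (5 * Q : ℕ) + 1)) *
          ((dg T.t q L ((i : ℤ) - (5 * Q : ℕ)) - dg T.t q L ((i : ℤ) - (5 * Q : ℕ) + 1) : ℤ) : ℝ)) =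
      (∑ i ∈ range (2 * (5 * Q)), (2 * Wt q (2 * L) (2 * ((i : ℤ) - (5 * Q : ℕ)) + 1)) *
        s.ub ((i : ℤ) - (5 * Q : ℕ)) +
      ∑ i ∈ range (2 * (5 * Q)), (2 * Wt q (2 * L) (2 * ((i : ℤ) - (5 * Q : ℕ)) + 1)) *
        s.ub (((i + 1 : ℕ) : ℤ) - (5 * Q : ℕ))) -
      ∑ i ∈ range (2 * (5 * Q)),
        (2500 * (Q : ℝ) ^ 2 - 9 * (2 * (((i : ℤ) - (5 * Q : ℕ) : ℤ) : ℝ) + 1) ^ 2) *
        ((s.nb ((i : ℤ) - (5 * Q : ℕ)) - s.nb ((i : ℤ) - (5 * Q : ℕ) + 1)) *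
          ((dg T.t q L ((i : ℤ) - (5 * Q : ℕ)) - dg T.t q L ((i : ℤ) - (5 * Q : ℕ) + 1) : ℤ) : ℝ)) := by
    rw [← sum_add_distrib, ← sum_sub_distrib]
    apply sum_congr rfl
    intro i hi
    rw [wmid _ (rng' i hi).1 (rng' i hi).2]
    rw [show (((i + 1 : ℕ) : ℤ) - (5 * Q : ℕ)) = ((i : ℤ) - (5 * Q : ℕ)) + 1 by push_cast; ring]
    ring
  rw [E3, sum_shift (2 * (5 * Q)) (fun i => 2 * Wt q (2 * L) (2 * ((i : ℤ) - (5 * Q : ℕ)) + 1))
    (fun i => s.ub ((i : ℤ) - (5 * Q : ℕ)))]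
  -- main comparison
  have E4 : ∑ i ∈ range (2 * (5 * Q) + 1), (32 * Wt q L ((i : ℤ) - (5 * Q : ℕ)) - 36) *
      s.ub ((i : ℤ) - (5 * Q : ℕ)) ≤
      ∑ i ∈ range (2 * (5 * Q) + 1), 4 * Wt q (2 * L) (2 * ((i : ℤ) - (5 * Q : ℕ))) *
      s.ub ((i : ℤ) - (5 * Q : ℕ)) +
      ∑ i ∈ range (2 * (5 * Q) + 1),
      ((if i < 2 * (5 * Q) then (fun i : ℕ => 2 * Wt q (2 * L) (2 * ((i : ℤ) - (5 * Q : ℕ)) + 1)) i
        else 0) +
       (if 0 < i then (fun i : ℕ => 2 * Wt q (2 * L) (2 * ((i : ℤ) - (5 * Q : ℕ)) + 1)) (i - 1)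
        else 0)) * (fun i : ℕ => s.ub ((i : ℤ) - (5 * Q : ℕ))) i := by
    rw [← sum_add_distrib]
    apply sum_le_sum
    intro i hi
    have hi' := mem_range.1 hi
    have hub := s.ub_nonneg (rng i hi)
    rw [← add_mul]
    apply mul_le_mul_of_nonneg_right _ hub
    simp only
    have hi0 : (i : ℝ) ≤ 10 * Q := by
      have : i ≤ 10 * Q := by omega
      exact_mod_cast this
    rcases Nat.eq_zero_or_pos i with h0 | h0
    · -- left end
      subst h0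
      rw [if_pos (by omega), if_neg (lt_irrefl 0)]
      have ea : |((0 : ℕ) : ℤ) - (5 * Q : ℕ)| = 5 * q * L := by
        rw [show (5 * (q : ℤ) * L) = 5 * Q by rw [hQz]; ring]
        push_cast
        rw [zero_sub, abs_neg, abs_of_nonneg (by positivity)]
      have eb : |2 * (((0 : ℕ) : ℤ) - (5 * Q : ℕ))| = 5 * q * ((2 * L : ℕ) : ℤ) := by
        rw [abs_mul, ea]
        push_cast
        rw [show |(2 : ℤ)| = 2 by rfl]
        ring
      rw [Wt_end ea, Wt_end eb, wmid _ (rng' 0 (mem_range.2 (by omega))).1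
        (rng' 0 (mem_range.2 (by omega))).2]
      push_cast
      rw [hQc] at hQr ⊢
      nlinarith
    · rcases Nat.lt_or_ge i (2 * (5 * Q)) with h1 | h1
      · -- interior
        rw [if_pos h1, if_pos h0]
        have hne : ∀ k : ℕ, 0 < k → k < 2 * (5 * Q) → |(k : ℤ) - (5 * Q : ℕ)| ≠ 5 * q * L := by
          intro k hk hk' h
          rw [show (5 * (q : ℤ) * L) = 5 * Q by rw [hQz]; ring] at h
          push_cast at h
          rcases abs_cases ((k : ℤ) - 5 * Q) with ⟨h2, _⟩ | ⟨h2, _⟩ <;> rw [h2] at h <;> omega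
        have hne2 : |2 * ((i : ℤ) - (5 * Q : ℕ))| ≠ 5 * q * ((2 * L : ℕ) : ℤ) := by
          intro h
          apply hne i h0 h1
          rw [abs_mul, show |(2 : ℤ)| = 2 by rfl] at h
          push_cast at h ⊢
          linarith
        rw [Wt_mid (hne i h0 h1), Wt_mid hne2, wmid _ (rng' i (mem_range.2 h1)).1
          (rng' i (mem_range.2 h1)).2, wmid _ (rng' (i - 1) (mem_range.2 (by omega))).1
          (rng' (i - 1) (mem_range.2 (by omega))).2]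
        rw [show (((i - 1 : ℕ) : ℤ) - (5 * Q : ℕ)) = ((i : ℤ) - (5 * Q : ℕ)) - 1 by
          push_cast [Nat.cast_sub (show 1 ≤ i by omega)]; ring]
        push_cast
        rw [hQc]
        nlinarith
      · -- right end
        have hi2 : i = 2 * (5 * Q) := by omega
        subst hi2
        rw [if_neg (lt_irrefl _), if_pos h0]
        have ea : |((2 * (5 * Q) : ℕ) : ℤ) - (5 * Q : ℕ)| = 5 * q * L := by
          rw [show (5 * (q : ℤ) * L) = 5 * Q by rw [hQz]; ring]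
          push_cast
          rw [show (2 : ℤ) * (5 * Q) - 5 * Q = 5 * Q by ring, abs_of_nonneg (by positivity)]
        have eb : |2 * (((2 * (5 * Q) : ℕ) : ℤ) - (5 * Q : ℕ))| = 5 * q * ((2 * L : ℕ) : ℤ) := by
          rw [abs_mul, ea]
          push_cast
          rw [show |(2 : ℤ)| = 2 by rfl]
          ring
        rw [Wt_end ea, Wt_end eb, wmid _ (rng' (2 * (5 * Q) - 1) (mem_range.2 (by omega))).1
          (rng' (2 * (5 * Q) - 1) (mem_range.2 (by omega))).2]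
        rw [show (((2 * (5 * Q) - 1 : ℕ) : ℤ) - (5 * Q : ℕ)) = 5 * (Q : ℤ) - 1 by
          rw [Nat.cast_sub (show 1 ≤ 2 * (5 * Q) by omega)]; push_cast; ring]
        push_cast
        rw [hQc] at hQr ⊢
        nlinarith
  -- the error term
  have E5 : ∑ i ∈ range (2 * (5 * Q) + 1), 36 * s.ub ((i : ℤ) - (5 * Q : ℕ)) ≤
      36 * ((11 * Q) * (G.Λ * L * (105 * T.t * q * L))) := by
    rw [← mul_sum]
    apply mul_le_mul_of_nonneg_left _ (by norm_num)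
    have : ∑ i ∈ range (2 * (5 * Q) + 1), s.ub ((i : ℤ) - (5 * Q : ℕ)) ≤
        ∑ _i ∈ range (2 * (5 * Q) + 1), ((G.Λ : ℝ) * L * (105 * T.t * q * L)) :=
      sum_le_sum fun i hi => s.ub_le (rng i hi)
    rw [sum_const, card_range, nsmul_eq_mul] at this
    refine this.trans ?_
    apply mul_le_mul_of_nonneg_right _ (by positivity)
    push_cast
    linarith
  have E6 : s.Phi = ∑ i ∈ range (2 * (5 * Q) + 1), Wt q L ((i : ℤ) - (5 * Q : ℕ)) *
      s.ub ((i : ℤ) - (5 * Q : ℕ)) := by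
    unfold Phi
    rw [hM]
  have E7 : ∑ i ∈ range (2 * (5 * Q) + 1), (32 * Wt q L ((i : ℤ) - (5 * Q : ℕ)) - 36) *
      s.ub ((i : ℤ) - (5 * Q : ℕ)) = 32 * s.Phi -
      ∑ i ∈ range (2 * (5 * Q) + 1), 36 * s.ub ((i : ℤ) - (5 * Q : ℕ)) := by
    rw [E6, mul_sum, ← sum_sub_distrib]
    apply sum_congr rfl
    intro i _
    ring
  rw [E7] at E4
  have hfin : 36 * ((11 * (Q : ℝ)) * (G.Λ * L * (105 * T.t * q * L))) +
      500000 * T.t * (Q : ℝ) ^ 2 * (G.Λ * L) ≤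
      600000 * T.t * (q : ℝ) ^ 2 * G.Λ * (L : ℝ) ^ 3 := by
    rw [hQc]
    have : (0 : ℝ) ≤ T.t * (q : ℝ) ^ 2 * G.Λ * (L : ℝ) ^ 3 := by positivity
    nlinarith
  linarith

end Sys

end Pool.Agent.YTD
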