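import Pool.Agent.YTD.DefsP
import Pool.Agent.YTD.UnstFg
import Pool.Agent.YTD.Orders

/-!
The filtrations of the product test configurations.
-/

namespace Pool.Agent.YTD

open Finset Module MvPolynomial

variable {K : Type} [Field K] [Algebra ℂ K]
variable (T : Datum K)

/-- the coefficient spaces of the filtration. -/
noncomputable def PF (q r : ℕ) (k s : ℤ) (D₀ : T.X.Pt →₀ ℤ) (N : ℕ) (l : ℤ) (j : ℤ) :
    Submodule ℂ K :=
  if l ≤ k * N + s * j then T.V q D₀ (r * N) j else ⊥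

variable {T}

theorem PF_pos {q r : ℕ} {k s : ℤ} {D₀ : T.X.Pt →₀ ℤ} {N : ℕ} {l : ℤ} {j : ℤ}
    (h : l ≤ k * N + s * j) : PF T q r k s D₀ N l j = T.V q D₀ (r * N) j := if_pos h

theorem PF_neg {q r : ℕ} {k s : ℤ} {D₀ : T.X.Pt →₀ ℤ} {N : ℕ} {l : ℤ} {j : ℤ}
    (h : ¬ l ≤ k * N + s * j) : PF T q r k s D₀ N l j = ⊥ := if_neg h

theorem finite_PF (q r : ℕ) (k s : ℤ) (D₀ : T.X.Pt →₀ ℤ) (N : ℕ) (l : ℤ) (j : ℤ) :
    FiniteDimensional ℂ (PF T q r k s D₀ N l j) := by
  by_cases h : l ≤ k * N + s * j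
  · rw [PF_pos h]
    exact T.finite_V q D₀ _ j
  · rw [PF_neg h]
    infer_instance

theorem PF_le (q r : ℕ) (k s : ℤ) (D₀ : T.X.Pt →₀ ℤ) (N : ℕ) (l : ℤ) (j : ℤ) :
    PF T q r k s D₀ N l j ≤ T.V q D₀ (r * N) j := by
  unfold PF
  split_ifs
  · exact le_rfl
  · exact bot_le

variable (T)

theorem mem_bigr_PF {q r : ℕ} {k s : ℤ} {D₀ : T.X.Pt →₀ ℤ} {N : ℕ} {l : ℤ}
    {f : MvPolynomial (Fin 4) K} : f ∈ bigr q (r * N) (PF T q r k s D₀ N l) ↔
    f ∈ T.sec q D₀ (r * N) ∧ ∀ (e : Fin 4 →₀ ℕ) (j : ℤ), f.coeff e ≠ 0 →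
      (e 0 : ℤ) + e 1 = 25 * q * ((r * N : ℕ) : ℤ) + 3 * j → l ≤ k * N + s * j := by
  constructor
  · intro hf
    refine ⟨?_, ?_⟩
    · rw [sec_eq_bigr]
      exact bigr_mono (fun j _ => PF_le q r k s D₀ N l j) hf
    · intro e j he hj
      obtain ⟨j', h1, h2, h3, h4⟩ := hf e he
      have hjj : j' = j := by linarith
      subst hjj
      by_contra hl
      rw [PF_neg hl, Submodule.mem_bot] at h4
      exact he h4
  · rintro ⟨hf, H⟩ e he
    obtain ⟨j, h1, h2, h3, h4⟩ := hf e he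
    exact ⟨j, h1, h2, h3, by rw [PF_pos (H e j he h2)]; exact h4⟩

theorem abs_weight_le {q r N : ℕ} (k s : ℤ) {j : ℤ} (hj : |j| ≤ 5 * q * ((r * N : ℕ) : ℤ)) :
    |k * N + s * j| ≤ ((k.natAbs + s.natAbs * (5 * q * r) : ℕ) : ℤ) * N := by
  have h1 : |k * (N : ℤ)| = |k| * N := by
    rw [abs_mul, abs_of_nonneg (by positivity : (0 : ℤ) ≤ (N : ℤ))]
  have h2 : |s * j| ≤ |s| * (5 * q * ((r * N : ℕ) : ℤ)) := by
    rw [abs_mul]
    exact mul_le_mul_of_nonneg_left hj (abs_nonneg _)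
  calc |k * (N : ℤ) + s * j| ≤ |k * (N : ℤ)| + |s * j| := abs_add_le _ _
    _ ≤ |k| * N + |s| * (5 * q * ((r * N : ℕ) : ℤ)) := by
      rw [h1]
      exact add_le_add le_rfl h2
    _ = _ := by
      push_cast
      ring

/-- the filtration. -/
noncomputable def filtP (q r : ℕ) (k s : ℤ) (D₀ : T.X.Pt →₀ ℤ) : Filt T q D₀ r where
  F N l := bigr q (r * N) (PF T q r k s D₀ N l)
  le N l := by
    rw [sec_eq_bigr]
    exact bigr_mono fun j _ => PF_le q r k s D₀ N l j
  anti N l l' h := by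
    refine bigr_mono fun j _ => ?_
    unfold PF
    split_ifs with h1 h2 h2
    · exact le_rfl
    · exact (h2 (h.trans h1)).elim
    · exact bot_le
    · exact bot_le
  mul N N' l l' f hf g hg := by
    rw [mul_add]
    refine bigr_mul ?_ hf hg
    intro j j' _ _ a ha b hb
    unfold PF at ha hb ⊢
    by_cases h : l ≤ k * N + s * j
    · by_cases h' : l' ≤ k * N' + s * j'
      · rw [if_pos h] at ha
        rw [if_pos h'] at hb
        rw [if_pos, mul_add]
        · exact T.V_mul ha hb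
        · have e : k * ((N + N' : ℕ) : ℤ) + s * (j + j') = (k * N + s * j) + (k * N' + s * j') := by
            push_cast
            ring
          rw [e]
          exact add_le_add h h'
      · rw [if_neg h', Submodule.mem_bot] at hb
        rw [hb, mul_zero]
        exact zero_mem _
    · rw [if_neg h, Submodule.mem_bot] at ha
      rw [ha, zero_mul]
      exact zero_mem _
  bound := by
    refine ⟨k.natAbs + s.natAbs * (5 * q * r), fun N => ⟨?_, ?_⟩⟩
    · rw [sec_eq_bigr]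
      apply le_antisymm
      · exact bigr_mono fun j _ => PF_le q r k s D₀ N _ j
      · refine bigr_mono fun j hj => ?_
        rw [PF_pos]
        exact (abs_le.1 (abs_weight_le k s hj)).1
    · refine bigr_eq_bot fun j hj => ?_
      rw [PF_neg]
      intro h
      have h1 := (abs_le.1 (abs_weight_le k s hj)).2
      linarith

theorem filtP_F (q r : ℕ) (k s : ℤ) (D₀ : T.X.Pt →₀ ℤ) (N : ℕ) (l : ℤ) :
    (filtP T q r k s D₀).F N l = bigr q (r * N) (PF T q r k s D₀ N l) := rfl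

theorem mem_filtP {q r : ℕ} {k s : ℤ} {D₀ : T.X.Pt →₀ ℤ} {N : ℕ} {l : ℤ}
    {f : MvPolynomial (Fin 4) K} : f ∈ (filtP T q r k s D₀).F N l ↔
    f ∈ T.sec q D₀ (r * N) ∧ ∀ (e : Fin 4 →₀ ℕ) (j : ℤ), f.coeff e ≠ 0 →
      (e 0 : ℤ) + e 1 = 25 * q * ((r * N : ℕ) : ℤ) + 3 * j → l ≤ k * N + s * j :=
  mem_bigr_PF T

theorem filtP_equivariant (q r : ℕ) (k s : ℤ) (D₀ : T.X.Pt →₀ ℤ) :
    (filtP T q r k s D₀).Equivariant := by
  intro g h _ _ N l f hf
  exact subst_mem_bigr g h hf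

/-- Finite generation. -/
theorem filtP_fg {q r : ℕ} (hr : 0 < r) (k s : ℤ) {D₀ : T.X.Pt →₀ ℤ}
    (hD : 100 * (T.t : ℤ) * q < T.X.deg D₀) :
    ∃ (k' : ℕ) (n : Fin k' → ℕ) (w : Fin k' → ℤ) (f : Fin k' → MvPolynomial (Fin 4) K),
    (∀ i, f i ∈ (filtP T q r k s D₀).F (n i) (w i)) ∧
    ∀ N l, (filtP T q r k s D₀).F N l ≤ Submodule.span ℂ {g | ∃ m : Fin k' → ℕ,
      ∑ i, m i * n i = N ∧ l ≤ ∑ i, m i * w i ∧ g = ∏ i, f i ^ m i} := by
  classical
  have hfin := T.finite_V q D₀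
  obtain ⟨d, hd⟩ : ∃ d : ℕ, T.X.deg D₀ = d := by
    apply Int.eq_ofNat_of_zero_le
    have : (0 : ℤ) ≤ 100 * T.t * q := by positivity
    linarith
  set N₁ : ℕ := 18 * T.t + 2 with hN₁
  set M : ℕ := N₁ + (d * (r * N₁) + 18 * T.t + 1) with hM
  let I : Type := (N : Fin M) × (i : {i // i ∈ idx q (r * (N : ℕ))}) ×
    Fin (finrank ℂ (T.V q D₀ (r * (N : ℕ)) i.1.1))
  let φ : Fin (Fintype.card I) ≃ I := (Fintype.equivFin I).symm
  let n : Fin (Fintype.card I) → ℕ := fun i => ((φ i).1 : ℕ)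
  let w : Fin (Fintype.card I) → ℤ := fun i => k * ((φ i).1 : ℕ) + s * (φ i).2.1.1.1
  let f : Fin (Fintype.card I) → MvPolynomial (Fin 4) K := fun i =>
    monomial (uexpo q (r * ((φ i).1 : ℕ)) (φ i).2.1.1)
      ((Module.finBasis ℂ (T.V q D₀ (r * ((φ i).1 : ℕ)) (φ i).2.1.1.1) (φ i).2.2 :
        T.V q D₀ (r * ((φ i).1 : ℕ)) (φ i).2.1.1.1) : K)
  refine ⟨Fintype.card I, n, w, f, ?_, ?_⟩
  · intro i
    rw [filtP_F]
    have hi := (φ i).2.1.2
    refine monomial_mem_bigr (mem_idx.1 hi).1 (expo_x hi) (expo_y hi) ?_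
    rw [PF_pos le_rfl]
    exact Subtype.coe_prop _
  -- the main induction
  have main : ∀ (N : ℕ) (j : ℤ), |j| ≤ 5 * q * ((r * N : ℕ) : ℤ) → ∀ e : Fin 4 →₀ ℕ,
      (e 0 : ℤ) + e 1 = 25 * q * ((r * N : ℕ) : ℤ) + 3 * j →
      (e 2 : ℤ) + e 3 = 25 * q * ((r * N : ℕ) : ℤ) - 3 * j →
      ∀ c ∈ T.V q D₀ (r * N) j, monomial e c ∈ gspan n w f N (k * N + s * j) := by
    intro N
    induction N using Nat.strong_induction_on with
    | _ N ih =>
      intro j hj e h1 h2 c hc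
      rcases Nat.lt_or_ge N M with hNM | hNM
      · obtain ⟨h3, h4⟩ := exists_uexpo hj h1 h2
        have h5 : ∀ x : Fin (finrank ℂ (T.V q D₀ (r * N) j)),
            monomial e ((Module.finBasis ℂ (T.V q D₀ (r * N) j) x : T.V q D₀ (r * N) j) : K) ∈
              gspan n w f N (k * N + s * j) := by
          intro x'
          let x : I := ⟨⟨N, hNM⟩, ⟨⟨j, (e 0, e 2)⟩, h3⟩, x'⟩
          have h6 := gen_mem_gspan (n := n) (w := w) (f := f) (φ.symm x)
          have hx : φ (φ.symm x) = x := φ.apply_symm_apply x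
          have e1 : n (φ.symm x) = N := by
            show ((φ (φ.symm x)).1 : ℕ) = N
            rw [hx]
          have e2 : w (φ.symm x) = k * N + s * j := by
            show k * ((φ (φ.symm x)).1 : ℕ) + s * (φ (φ.symm x)).2.1.1.1 = _
            rw [hx]
          have e3 : f (φ.symm x) = monomial e
              ((Module.finBasis ℂ (T.V q D₀ (r * N) j) x' : T.V q D₀ (r * N) j) : K) := by
            show monomial (uexpo q (r * ((φ (φ.symm x)).1 : ℕ)) (φ (φ.symm x)).2.1.1)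
              ((Module.finBasis ℂ (T.V q D₀ (r * ((φ (φ.symm x)).1 : ℕ))
                (φ (φ.symm x)).2.1.1.1) (φ (φ.symm x)).2.2 :
                T.V q D₀ (r * ((φ (φ.symm x)).1 : ℕ)) (φ (φ.symm x)).2.1.1.1) : K) = _
            rw [hx]
            show monomial (uexpo q (r * N) ⟨j, (e 0, e 2)⟩) _ = _
            rw [h4]
          rw [e1, e2, e3] at h6
          exact h6
        have h7 : c = ∑ x, (Module.finBasis ℂ (T.V q D₀ (r * N) j)).repr ⟨c, hc⟩ x •
            ((Module.finBasis ℂ (T.V q D₀ (r * N) j) x : T.V q D₀ (r * N) j) : K) := by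
          have h8 := (Module.finBasis ℂ (T.V q D₀ (r * N) j)).sum_repr ⟨c, hc⟩
          have h9 := congrArg (Subtype.val) h8
          rw [AddSubmonoidClass.coe_finsetSum] at h9
          exact h9.symm
        rw [h7, map_sum]
        refine sum_mem fun x _ => ?_
        have h10 : monomial e ((Module.finBasis ℂ (T.V q D₀ (r * N) j)).repr ⟨c, hc⟩ x •
            ((Module.finBasis ℂ (T.V q D₀ (r * N) j) x : T.V q D₀ (r * N) j) : K)) =
            (Module.finBasis ℂ (T.V q D₀ (r * N) j)).repr ⟨c, hc⟩ x • monomial e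
              ((Module.finBasis ℂ (T.V q D₀ (r * N) j) x : T.V q D₀ (r * N) j) : K) := by
          rw [smul_monomial]
        rw [h10]
        exact Submodule.smul_mem _ _ (h5 x)
      · obtain ⟨N₂, rfl⟩ : ∃ N₂, N = N₁ + N₂ := ⟨N - N₁, by omega⟩
        have hN₂ : d * (r * N₁) + 18 * T.t + 1 ≤ N₂ := by omega
        have eq1 : 5 * (q : ℤ) * ((r * (N₁ + N₂) : ℕ) : ℤ) =
            5 * (q * ((r * N₁ : ℕ) : ℤ) + q * ((r * N₂ : ℕ) : ℤ)) := by
          push_cast
          ring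
        rw [eq1] at hj
        obtain ⟨j₁, j₂, rfl, g1, g2, g3, g4, -⟩ := split_index (A := q * ((r * N₁ : ℕ) : ℤ))
          (B := q * ((r * N₂ : ℕ) : ℤ)) (C := 0) (D := 0) (by positivity) (by positivity) le_rfl
          le_rfl (by positivity) (by positivity) hj
        have g1' : |j₁| ≤ 5 * q * ((r * N₁ : ℕ) : ℤ) := by rw [mul_assoc]; exact g1
        have g2' : |j₂| ≤ 5 * q * ((r * N₂ : ℕ) : ℤ) := by rw [mul_assoc]; exact g2
        have hr' : ∀ (N : ℕ) (j : ℤ), |j| ≤ 5 * q * N → 0 ≤ 25 * (q : ℤ) * N + 3 * j ∧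
            0 ≤ 25 * (q : ℤ) * N - 3 * j := by
          intro N j h
          rw [abs_le] at h
          have : (0 : ℤ) ≤ q * N := by positivity
          constructor <;> nlinarith
        obtain ⟨e₁, e₂, he, k1, k2, k3, k4⟩ := split_expo (e := e)
          (a₁ := 25 * q * ((r * N₁ : ℕ) : ℤ) + 3 * j₁) (a₂ := 25 * q * ((r * N₂ : ℕ) : ℤ) + 3 * j₂)
          (b₁ := 25 * q * ((r * N₁ : ℕ) : ℤ) - 3 * j₁) (b₂ := 25 * q * ((r * N₂ : ℕ) : ℤ) - 3 * j₂)
          (hr' _ _ g1').1 (hr' _ _ g2').1 (hr' _ _ g1').2 (hr' _ _ g2').2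
          (by rw [h1]; push_cast; ring) (by rw [h2]; push_cast; ring)
        have a0 : 4 * (q : ℤ) * ((r * N₁ + r * N₂ : ℕ) : ℤ) =
            4 * (q * ((r * N₁ : ℕ) : ℤ) + q * ((r * N₂ : ℕ) : ℤ)) := by
          push_cast
          ring
        have hsplit := V_split T hD g1' g2' (by
          calc 18 * T.t + 2 = 1 * N₁ := by rw [hN₁, one_mul]
            _ ≤ r * N₁ := Nat.mul_le_mul_right _ hr) (by
          rw [hd]
          have h11 : N₂ ≤ r * N₂ := by
            calc N₂ = 1 * N₂ := (one_mul _).symm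
              _ ≤ r * N₂ := Nat.mul_le_mul_right _ hr
          exact_mod_cast hN₂.trans h11) (by
          rw [a0, g3, mul_assoc, mul_assoc]) (by
          rw [a0, g4, mul_assoc, mul_assoc])
        rw [← mul_add] at hsplit
        have hc' := hsplit hc
        have e4 : k * ((N₁ + N₂ : ℕ) : ℤ) + s * (j₁ + j₂) =
            (k * N₁ + s * j₁) + (k * N₂ + s * j₂) := by
          push_cast
          ring
        rw [e4]
        refine Submodule.mul_induction_on hc' ?_ ?_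
        · intro a ha b hb
          have e3 : monomial e (a * b) = monomial e₁ a * monomial e₂ b := by
            rw [monomial_mul, he]
          rw [e3]
          exact gspan_mul (ih N₁ (by omega) j₁ g1' e₁ k1 k3 a ha)
            (ih N₂ (by omega) j₂ g2' e₂ k2 k4 b hb)
        · intro x y hx hy
          rw [map_add]
          exact add_mem hx hy
  intro N l g hg
  rw [filtP_F] at hg
  show g ∈ gspan n w f N l
  rw [g.as_sum]
  refine sum_mem fun e he => ?_
  rw [MvPolynomial.mem_support_iff] at he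
  obtain ⟨j, h1, h2, h3, h4⟩ := hg e he
  by_cases hl : l ≤ k * N + s * j
  · rw [PF_pos hl] at h4
    exact gspan_anti hl (main N j h1 e h2 h3 _ h4)
  · rw [PF_neg hl, Submodule.mem_bot] at h4
    exact (he h4).elim

end Pool.Agent.YTD
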