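import Pool.Agent.YTD.ProdFilt
import Pool.Agent.YTD.RigidCor

/-!
The product test configurations: existence, reducedness, Futaki invariant.
-/

namespace Pool.Agent.YTD

open Finset Module MvPolynomial Filter

variable {K : Type} [Field K] [Algebra ℂ K]
variable (T : Datum K)

/-- a monomial order whose leading exponent has the smallest weight `s * j`. -/
theorem exists_order (s : ℤ) : ∃ o : MonomialOrder.{0, 0} (Fin 4), ∀ (e e' : Fin 4 →₀ ℕ) (A j j' : ℤ),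
    (e 0 : ℤ) + e 1 = A + 3 * j → (e 2 : ℤ) + e 3 = A - 3 * j →
    (e' 0 : ℤ) + e' 1 = A + 3 * j' → (e' 2 : ℤ) + e' 3 = A - 3 * j' →
    o.toSyn e ≤ o.toSyn e' → s * j' ≤ s * j := by
  rcases le_total 0 s with hs | hs
  · refine ⟨mMinus 0 0, fun e e' A j j' h1 h2 h3 h4 h => ?_⟩
    have h5 : e 2 + e 3 ≤ e' 2 + e' 3 := by
      rcases mMinus_le h with h | h
      · exact h.le
      · exact h.1.le
    have h6 : j' ≤ j := by omega
    exact mul_le_mul_of_nonneg_left h6 hs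
  · refine ⟨mPlus 0 0, fun e e' A j j' h1 h2 h3 h4 h => ?_⟩
    have h5 : e 0 + e 1 ≤ e' 0 + e' 1 := by
      rcases mPlus_le h with h | h
      · exact h.le
      · exact h.1.le
    have h6 : j ≤ j' := by omega
    exact mul_le_mul_of_nonpos_left h6 hs

theorem filtP_reduced (q r : ℕ) (k s : ℤ) (D₀ : T.X.Pt →₀ ℤ) : (filtP T q r k s D₀).Reduced := by
  intro N l f hf m hm hfm
  obtain ⟨hf1, hf2⟩ := (mem_filtP T).1 hf
  obtain ⟨hm1, hm2⟩ := (mem_filtP T).1 hfm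
  rw [mem_filtP]
  refine ⟨hf1, fun e j he hej => ?_⟩
  by_cases hf0 : f = 0
  · exact (he (by rw [hf0, coeff_zero])).elim
  obtain ⟨o, ho⟩ := exists_order s
  have hc : f.coeff (o.degree f) ≠ 0 := o.coeff_degree_ne_zero_iff.2 hf0
  obtain ⟨j₀, h1, h2, h3, -⟩ := hf1 _ hc
  obtain ⟨j', g1, g2, g3, -⟩ := hf1 _ he
  have hjj : j' = j := by linarith
  subst hjj
  have h4 := ho e (o.degree f) (25 * q * ((r * N : ℕ) : ℤ)) j' j₀ g2 g3 h2 h3
    (o.le_degree (MvPolynomial.mem_support_iff.2 he))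
  have hcm : (f ^ m).coeff (m • o.degree f) ≠ 0 := by
    rw [← o.degree_pow]
    exact o.coeff_degree_ne_zero_iff.2 (pow_ne_zero _ hf0)
  have h5 := hm2 (m • o.degree f) (m * j₀) hcm (by
    rw [Finsupp.smul_apply, Finsupp.smul_apply, smul_eq_mul, smul_eq_mul]
    push_cast
    have h2' : (m : ℤ) * ((o.degree f 0 : ℤ) + o.degree f 1) =
        m * (25 * q * ((r * N : ℕ) : ℤ) + 3 * j₀) := by rw [h2]
    push_cast at h2'
    linarith)
  have h6 : (m : ℤ) * l + 1 ≤ m * (k * N + s * j₀) := by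
    have e1 : (m : ℤ) * (k * N + s * j₀) = k * ((m * N : ℕ) : ℤ) + s * (m * j₀) := by
      push_cast
      ring
    rw [e1]
    exact h5
  have h7 : l < k * N + s * j₀ := by
    by_contra h8
    push Not at h8
    have h9 : (0 : ℤ) ≤ m := by positivity
    have h10 := mul_le_mul_of_nonneg_left h8 h9
    linarith
  linarith

/-- The product test configurations. -/
theorem product_exists {q r : ℕ} (hr : 0 < r) {D₀ : T.X.Pt →₀ ℤ}
    (hD : 100 * (T.t : ℤ) * q < T.X.deg D₀) (k s : ℤ) :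
    ∃ χ : TestConf T q D₀ r, χ.Equivariant ∧ χ.Reduced ∧
      ∀ (N : ℕ) (l : ℤ) (f : MvPolynomial (Fin 4) K), f ∈ χ.F N l ↔
        f ∈ T.sec q D₀ (r * N) ∧ ∀ (e : Fin 4 →₀ ℕ) (j : ℤ), f.coeff e ≠ 0 →
          (e 0 : ℤ) + e 1 = 25 * q * ((r * N : ℕ) : ℤ) + 3 * j → l ≤ k * N + s * j :=
  ⟨{ toFilt := filtP T q r k s D₀, fg := filtP_fg T hr k s hD }, filtP_equivariant T q r k s D₀,
    filtP_reduced T q r k s D₀, fun _ _ _ => mem_filtP T⟩

variable {T}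
variable {q : ℕ} {D₀ : T.X.Pt →₀ ℤ} {r : ℕ}

/-- The Futaki invariant is well defined. -/
theorem Filt.HasFutaki.unique {χ : Filt T q D₀ r} {x y : ℝ} (hx : χ.HasFutaki x)
    (hy : χ.HasFutaki y) : x = y := by
  obtain ⟨a₀, a₁, b₀, b₁, c₀, ⟨h1, h2, -⟩, rfl⟩ := hx
  obtain ⟨a₀', a₁', b₀', b₁', c₀', ⟨h1', h2', -⟩, rfl⟩ := hy
  obtain ⟨rfl, rfl⟩ := coeff_unique (k := 2) h1 h1'
  obtain ⟨rfl, rfl⟩ := coeff_unique (k := 3) h2 h2'
  rfl

theorem mu_neg (q N : ℕ) (j : ℤ) : mu q N (-j) = mu q N j := by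
  unfold mu
  push_cast
  ring

theorem dm_neg (q N t : ℕ) (d : ℝ) (j : ℤ) : dm q N t d (-j) = dm q N t d j := by
  unfold dm
  rw [Int.cast_neg, abs_neg]

/-- the first moment of the index vanishes. -/
theorem sum_mu_j {M : ℕ} (hM : 18 * (T.t : ℤ) + 1 ≤ (T.X.deg D₀ - 100 * T.t * q) * M) :
    ∑ j ∈ Icc (-((5 * q * M : ℕ) : ℤ)) ((5 * q * M : ℕ) : ℤ),
      mu q M j * (finrank ℂ (T.V q D₀ M j) : ℝ) * j = 0 := by
  have h : ∑ j ∈ Icc (-((5 * q * M : ℕ) : ℤ)) ((5 * q * M : ℕ) : ℤ),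
      mu q M j * (finrank ℂ (T.V q D₀ M j) : ℝ) * j =
      ∑ j ∈ Icc (-((5 * q * M : ℕ) : ℤ)) ((5 * q * M : ℕ) : ℤ),
        mu q M j * dm q M T.t (T.X.deg D₀ : ℤ) j * j :=
    sum_congr rfl fun j hj => by rw [finrank_V T hM (mem_Icc_abs hj)]
  rw [h]
  have h2 : ∑ j ∈ Icc (-((5 * q * M : ℕ) : ℤ)) ((5 * q * M : ℕ) : ℤ),
        mu q M j * dm q M T.t (T.X.deg D₀ : ℤ) j * (j : ℝ) =
      ∑ j ∈ Icc (-((5 * q * M : ℕ) : ℤ)) ((5 * q * M : ℕ) : ℤ),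
        -(mu q M j * dm q M T.t (T.X.deg D₀ : ℤ) j * (j : ℝ)) := by
    refine sum_bij' (fun j _ => -j) (fun j _ => -j) ?_ ?_ ?_ ?_ ?_
    · intro j hj
      rw [mem_Icc] at hj ⊢
      omega
    · intro j hj
      rw [mem_Icc] at hj ⊢
      omega
    · intro j _
      exact neg_neg j
    · intro j _
      exact neg_neg j
    · intro j _
      rw [mu_neg, dm_neg]
      push_cast
      ring
  rw [sum_neg_distrib] at h2
  linarith

theorem Filt.IsProduct.F_eq {χ : Filt T q D₀ r} (h : χ.IsProduct) :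
    ∃ k s : ℤ, ∀ N l, χ.F N l = bigr q (r * N) (PF T q r k s D₀ N l) := by
  obtain ⟨k, s, H⟩ := h
  refine ⟨k, s, fun N l => ?_⟩
  ext f
  rw [H, mem_bigr_PF]

theorem finrank_PF (q r : ℕ) (k s : ℤ) (D₀ : T.X.Pt →₀ ℤ) (N : ℕ) (l : ℤ) (j : ℤ) :
    (finrank ℂ (PF T q r k s D₀ N l j) : ℝ) =
      if l ≤ k * N + s * j then (finrank ℂ (T.V q D₀ (r * N) j) : ℝ) else 0 := by
  by_cases h : l ≤ k * N + s * j
  · rw [PF_pos h, if_pos h]
  · rw [PF_neg h, if_neg h, finrank_bot]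
    norm_num

theorem wt_prod {χ : Filt T q D₀ r} {k s : ℤ}
    (H : ∀ N l, χ.F N l = bigr q (r * N) (PF T q r k s D₀ N l)) (N : ℕ) (l : ℤ) :
    χ.wt N l = ∑ j ∈ Icc (-((5 * q * (r * N) : ℕ) : ℤ)) ((5 * q * (r * N) : ℕ) : ℤ),
      if l = k * N + s * j then mu q (r * N) j * finrank ℂ (T.V q D₀ (r * N) j) else 0 := by
  unfold Filt.wt
  rw [H, H, finrank_bigr _ _ _ (finite_PF q r k s D₀ N l),
    finrank_bigr _ _ _ (finite_PF q r k s D₀ N (l + 1)), ← sum_sub_distrib]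
  apply sum_congr rfl
  intro j _
  rw [finrank_PF, finrank_PF]
  generalize k * (N : ℤ) + s * j = m
  unfold mu
  rcases lt_trichotomy l m with h | h | h
  · rw [if_pos h.le, if_pos (by omega), if_neg (by omega)]
    ring
  · rw [if_pos h.le, if_neg (by omega), if_pos h]
    ring
  · rw [if_neg (by omega), if_neg (by omega), if_neg (by omega)]
    ring

theorem tr_prod {χ : Filt T q D₀ r} {k s : ℤ}
    (H : ∀ N l, χ.F N l = bigr q (r * N) (PF T q r k s D₀ N l)) (p N : ℕ) :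
    χ.tr p N = ∑ j ∈ Icc (-((5 * q * (r * N) : ℕ) : ℤ)) ((5 * q * (r * N) : ℕ) : ℤ),
      mu q (r * N) j * finrank ℂ (T.V q D₀ (r * N) j) * ((k : ℝ) * N + s * j) ^ p := by
  unfold Filt.tr
  have hsupp : (Function.support fun l : ℤ => (l : ℝ) ^ p * χ.wt N l) ⊆
      (((Icc (-((5 * q * (r * N) : ℕ) : ℤ)) ((5 * q * (r * N) : ℕ) : ℤ)).image
        fun j => k * (N : ℤ) + s * j : Finset ℤ) : Set ℤ) := by
    intro l hl
    rw [Function.mem_support] at hl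
    have h1 := right_ne_zero_of_mul hl
    rw [wt_prod H] at h1
    obtain ⟨j, hj, hj0⟩ := Finset.exists_ne_zero_of_sum_ne_zero h1
    rw [Finset.mem_coe, mem_image]
    refine ⟨j, hj, ?_⟩
    by_contra h
    rw [if_neg (fun h' => h h'.symm)] at hj0
    exact hj0 rfl
  rw [finsum_eq_sum_of_support_subset _ hsupp]
  simp only [wt_prod H, mul_sum]
  rw [sum_comm]
  apply sum_congr rfl
  intro j hj
  rw [sum_eq_single (k * (N : ℤ) + s * j)]
  · rw [if_pos rfl]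
    push_cast
    ring
  · intro l _ hl
    rw [if_neg hl, mul_zero]
  · intro h
    exact (h (mem_image_of_mem _ hj)).elim

/-- The Futaki invariant of a product test configuration vanishes. -/
theorem product_futaki (hr : 0 < r) (hD : 100 * (T.t : ℤ) * q < T.X.deg D₀)
    (χ : Filt T q D₀ r) (h : χ.IsProduct) : χ.HasFutaki 0 := by
  obtain ⟨k, s, H⟩ := h.F_eq
  have hr' : (1 : ℝ) ≤ r := by exact_mod_cast hr
  obtain ⟨⟨C, hC⟩, -, ⟨C', hC'⟩⟩ := expansion_filtU T hD (u := 0) (Nat.zero_le _)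
  set A0 := ca0 q T.t (T.X.deg D₀ : ℤ)
  set A1 := ca1 q T.t (T.X.deg D₀ : ℤ)
  set C0 := cc0 q 0 T.t (T.X.deg D₀ : ℤ)
  have htend : Tendsto (fun N : ℕ => r * N) atTop atTop :=
    tendsto_id.const_mul_atTop' hr
  have hC1 := htend.eventually hC
  have hC1' := htend.eventually hC'
  -- the sums
  have hS0 : ∀ N : ℕ, χ.dimN N =
      ∑ j ∈ Icc (-((5 * q * (r * N) : ℕ) : ℤ)) ((5 * q * (r * N) : ℕ) : ℤ),
        mu q (r * N) j * (finrank ℂ (T.V q D₀ (r * N) j) : ℝ) := by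
    intro N
    unfold Filt.dimN
    rw [sec_eq_bigr, finrank_bigr _ _ _ (T.finite_V q D₀ _)]
    rfl
  have hdim : ∀ N : ℕ, (filtU T q 0 D₀).dimN (r * N) = χ.dimN N := by
    intro N
    unfold Filt.dimN
    rw [one_mul]
  have hbig : ∀ N : ℕ, 18 * T.t + 1 ≤ N →
      18 * (T.t : ℤ) + 1 ≤ (T.X.deg D₀ - 100 * T.t * q) * ((r * N : ℕ) : ℤ) := by
    intro N hN
    exact large_of_lt hD (hN.trans (Nat.le_mul_of_pos_left N hr))
  have hS1 : ∀ N : ℕ, 18 * T.t + 1 ≤ N → χ.tr 1 N = k * N * χ.dimN N := by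
    intro N hN
    rw [tr_prod H, hS0, mul_sum]
    have h1 := sum_mu_j (hbig N hN)
    have h2 : ∀ j ∈ Icc (-((5 * q * (r * N) : ℕ) : ℤ)) ((5 * q * (r * N) : ℕ) : ℤ),
        mu q (r * N) j * (finrank ℂ (T.V q D₀ (r * N) j) : ℝ) * ((k : ℝ) * N + s * j) ^ 1 =
        k * N * (mu q (r * N) j * (finrank ℂ (T.V q D₀ (r * N) j) : ℝ)) +
          s * (mu q (r * N) j * (finrank ℂ (T.V q D₀ (r * N) j) : ℝ) * j) := fun j _ => by ring
    rw [sum_congr rfl h2, sum_add_distrib, ← mul_sum _ _ (s : ℝ), h1, mul_zero, add_zero]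
  have hS2 : ∀ N : ℕ, 18 * T.t + 1 ≤ N → χ.tr 2 N =
      k ^ 2 * N ^ 2 * χ.dimN N + s ^ 2 * (filtU T q 0 D₀).tr 2 (r * N) := by
    intro N hN
    rw [tr_prod H, hS0, mul_sum, tr_filtU, mul_sum, ← sum_add_distrib]
    have h1 := sum_mu_j (hbig N hN)
    have h2 : ∀ j ∈ Icc (-((5 * q * (r * N) : ℕ) : ℤ)) ((5 * q * (r * N) : ℕ) : ℤ),
        mu q (r * N) j * (finrank ℂ (T.V q D₀ (r * N) j) : ℝ) * ((k : ℝ) * N + s * j) ^ 2 =
        (k ^ 2 * N ^ 2 * (mu q (r * N) j * (finrank ℂ (T.V q D₀ (r * N) j) : ℝ)) +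
          s ^ 2 * (mu q (r * N) j * (finrank ℂ (T.V q D₀ (r * N) j) : ℝ) *
            ww (r * N) 0 j ^ 2)) + 2 * k * N * s *
          (mu q (r * N) j * (finrank ℂ (T.V q D₀ (r * N) j) : ℝ) * j) := by
      intro j _
      have h3 : ww (r * N) 0 j ^ 2 = (j : ℝ) ^ 2 := by
        rw [← ww_eq]
        have h4 : min 0 (((0 : ℕ) : ℤ) * ((r * N : ℕ) : ℤ) - |j|) = -|j| := by
          have := abs_nonneg j
          push_cast
          rw [zero_mul, zero_sub]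
          exact min_eq_right (by omega)
        rw [h4]
        push_cast
        rw [neg_sq, sq_abs]
      rw [h3]
      ring
    rw [sum_congr rfl h2, sum_add_distrib, ← mul_sum _ _ (2 * (k : ℝ) * N * s),
      h1, mul_zero, add_zero]
  refine ⟨A0 * r ^ 4, A1 * r ^ 3, k * (A0 * r ^ 4), k * (A1 * r ^ 3),
    k ^ 2 * (A0 * r ^ 4) + s ^ 2 * (C0 * r ^ 6), ⟨?_, ?_, ?_⟩, ?_⟩
  · refine ⟨C * r ^ 2, ?_⟩
    filter_upwards [hC1] with N h1
    rw [hdim] at h1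
    push_cast at h1
    calc _ = |χ.dimN N - (A0 * (r * N) ^ 4 + A1 * (r * N) ^ 3)| := by congr 1; ring
      _ ≤ C * (r * N) ^ 2 := h1
      _ = _ := by ring
  · refine ⟨|(k : ℝ)| * (C * r ^ 2), ?_⟩
    filter_upwards [hC1, eventually_ge_atTop (18 * T.t + 1)] with N h1 h2
    rw [hdim] at h1
    push_cast at h1
    rw [hS1 N h2]
    calc _ = |k * N * (χ.dimN N - (A0 * (r * N) ^ 4 + A1 * (r * N) ^ 3))| := by congr 1; ring
      _ = |(k : ℝ)| * N * |χ.dimN N - (A0 * (r * N) ^ 4 + A1 * (r * N) ^ 3)| := by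
        rw [abs_mul, abs_mul, Nat.abs_cast]
      _ ≤ |(k : ℝ)| * N * (C * (r * N) ^ 2) := mul_le_mul_of_nonneg_left h1 (by positivity)
      _ = _ := by ring
  · refine ⟨k ^ 2 * (|C| * r ^ 2) + k ^ 2 * |A1| * r ^ 3 + s ^ 2 * (C' * r ^ 5), ?_⟩
    filter_upwards [hC1, hC1', eventually_ge_atTop (18 * T.t + 1)] with N h1 h1' h2
    rw [hdim] at h1
    push_cast at h1 h1'
    rw [hS2 N h2]
    have hN1 : (1 : ℝ) ≤ N := by
      have : 1 ≤ N := by omega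
      exact_mod_cast this
    have e1 : k ^ 2 * N ^ 2 * χ.dimN N + s ^ 2 * (filtU T q 0 D₀).tr 2 (r * N) -
        (k ^ 2 * (A0 * r ^ 4) + s ^ 2 * (C0 * r ^ 6)) * (N : ℝ) ^ 6 =
        k ^ 2 * N ^ 2 * (χ.dimN N - (A0 * (r * N) ^ 4 + A1 * (r * N) ^ 3)) +
          k ^ 2 * N ^ 2 * (A1 * (r * N) ^ 3) +
          s ^ 2 * ((filtU T q 0 D₀).tr 2 (r * N) - C0 * (r * N) ^ 6) := by ring
    rw [e1]
    have h3 : |(k : ℝ) ^ 2 * N ^ 2 * (χ.dimN N - (A0 * (r * N) ^ 4 + A1 * (r * N) ^ 3))| ≤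
        k ^ 2 * (|C| * r ^ 2) * N ^ 5 := by
      rw [abs_mul, abs_of_nonneg (by positivity : (0 : ℝ) ≤ (k : ℝ) ^ 2 * N ^ 2)]
      calc _ ≤ (k : ℝ) ^ 2 * N ^ 2 * (C * (r * N) ^ 2) :=
            mul_le_mul_of_nonneg_left h1 (by positivity)
        _ ≤ (k : ℝ) ^ 2 * N ^ 2 * (|C| * (r * N) ^ 2) :=
            mul_le_mul_of_nonneg_left (mul_le_mul_of_nonneg_right (le_abs_self _) (by positivity))
              (by positivity)
        _ = k ^ 2 * (|C| * r ^ 2) * N ^ 4 * 1 := by ring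
        _ ≤ k ^ 2 * (|C| * r ^ 2) * N ^ 4 * N := mul_le_mul_of_nonneg_left hN1 (by positivity)
        _ = _ := by ring
    have h4 : |(k : ℝ) ^ 2 * N ^ 2 * (A1 * (r * N) ^ 3)| ≤ k ^ 2 * |A1| * r ^ 3 * N ^ 5 := by
      rw [abs_mul, abs_of_nonneg (by positivity : (0 : ℝ) ≤ (k : ℝ) ^ 2 * N ^ 2), abs_mul,
        abs_of_nonneg (by positivity : (0 : ℝ) ≤ ((r : ℝ) * N) ^ 3)]
      apply le_of_eq
      ring
    have h5 : |(s : ℝ) ^ 2 * ((filtU T q 0 D₀).tr 2 (r * N) - C0 * (r * N) ^ 6)| ≤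
        s ^ 2 * (C' * r ^ 5) * N ^ 5 := by
      rw [abs_mul, abs_of_nonneg (by positivity : (0 : ℝ) ≤ (s : ℝ) ^ 2)]
      calc _ ≤ (s : ℝ) ^ 2 * (C' * (r * N) ^ 5) := mul_le_mul_of_nonneg_left h1' (by positivity)
        _ = _ := by ring
    refine (abs_add_three _ _ _).trans ?_
    linarith
  · have : A1 * (r : ℝ) ^ 3 * (k * (A0 * r ^ 4)) - A0 * r ^ 4 * (k * (A1 * r ^ 3)) = 0 := by ring
    rw [this, zero_div]

end Pool.Agent.YTD
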