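import Pool.Agent.YTD.Full

/-!
Reduced equivariant test configurations with vanishing Futaki invariant are products.
-/

namespace Pool.Agent.YTD

open Finset Module MvPolynomial Filter

variable {K : Type} [Field K] [Algebra ℂ K]
variable {T : Datum K} {q : ℕ} {D₀ : T.X.Pt →₀ ℤ} {r : ℕ}

theorem TestConf.isProduct (χ : TestConf T q D₀ r) (hχ : χ.Equivariant) (hred : χ.Reduced)
    (hr : 0 < r) (hq : 0 < q) (hD : T.X.deg D₀ = 105 * T.t * q)
    {a₀ b₀ c₀ : ℝ} (hE : χ.Expansion a₀ 0 b₀ 0 c₀) : χ.IsProduct := by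
  obtain ⟨P₀⟩ := T.exists_pt
  obtain ⟨k, n, w, f, hf, hspan⟩ := χ.fg
  obtain ⟨A, B, h1, h2, h3⟩ := χ.affine hχ hr hq hD hE hf hspan
  obtain ⟨C, hC⟩ := χ.near hχ hr hq hD hf h2 h3
  -- lower bound for the weights
  have lower : ∀ (N : ℕ) (j : ℤ), 0 < N → |j| ≤ 5 * (r * q : ℕ) * N →
      ∀ c ∈ T.V (r * q) (r • D₀) N j, ∀ l : ℤ, (l : ℝ) < A * N + B * j + 1 → c ∈ χ.Wc N l j := by
    intro N j hN hj c hc l hl
    obtain ⟨m, l₀, hm, hl₀, hfull⟩ := χ.full_of_tight hj (x := A * N + B * j) (fun P =>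
      χ.tight hχ hr hq hD hE hspan hf h1 hC P hN hj)
    exact hred.mem_Wc hr hq hD hN hj hm hl₀ hfull hc l hl
  -- upper bound for the weights
  have upper : ∀ (N : ℕ) (j : ℤ), |j| ≤ 5 * (r * q : ℕ) * N → ∀ l : ℤ, ∀ c ∈ χ.Wc N l j, c ≠ 0 →
      (l : ℝ) ≤ A * N + B * j := by
    intro N j hj l c hc hc0
    have hgen : ∀ i, f i ∈ LP P₀ A B 1 0 le_rfl (n i) (w i) := by
      intro i e h0
      have := h1 i e h0
      linarith
    rw [Filt.mem_Wc] at hc
    have h4 := χ.le_LP hspan zero_le_one hgen N l hc (expo (r * q) N j 0 0)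
    rw [coeff_monomial, if_pos rfl] at h4
    have h5 := h4 hc0
    have hin := inR0 hj
    have h6 : jr (expo (r * q) N j 0 0) = j := jr_of (q := r * q) (N := N)
      (expo_sum_x hin) (expo_sum_y hin)
    rw [h6] at h5
    linarith
  -- integrality
  have hrq : (1 : ℤ) ≤ (r * q : ℕ) := by exact_mod_cast Nat.mul_pos hr hq
  have integral : ∀ (N : ℕ) (j : ℤ), 4 ≤ N → |j| ≤ 5 * (r * q : ℕ) * N →
      ∃ z : ℤ, (z : ℝ) = A * N + B * j := by
    intro N j hN hj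
    obtain ⟨c, hc0, hc, _⟩ := χ.exists_extreme hr hq hD hN hj
    refine ⟨⌈A * N + B * j⌉, le_antisymm ?_ (Int.le_ceil _)⟩
    refine upper N j hj _ c ?_ hc0
    exact lower N j (by omega) hj c hc _ (Int.ceil_lt_add_one _)
  obtain ⟨z₁, hz₁⟩ := integral 4 0 le_rfl (by rw [abs_zero]; positivity)
  obtain ⟨z₂, hz₂⟩ := integral 5 0 (by norm_num) (by rw [abs_zero]; positivity)
  obtain ⟨z₃, hz₃⟩ := integral 4 1 le_rfl (by
    rw [abs_one]
    push_cast at hrq ⊢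
    linarith)
  push_cast at hz₁ hz₂ hz₃
  have hA : A = ((z₂ - z₁ : ℤ) : ℝ) := by push_cast; linarith
  have hB : B = ((z₃ - z₁ : ℤ) : ℝ) := by push_cast; linarith
  refine ⟨z₂ - z₁, z₃ - z₁, ?_⟩
  intro N l g
  rw [hχ.mem_iff]
  have e25 : 25 * ((r * q : ℕ) : ℤ) * N = 25 * (q : ℤ) * ((r * N : ℕ) : ℤ) := by push_cast; ring
  constructor
  · rintro ⟨h4, h5⟩
    refine ⟨h4, ?_⟩
    intro e j he hx
    have h4' := h4
    rw [← T.sec_mul] at h4'
    obtain ⟨j', g1, g2, g3, g4⟩ := h4' e he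
    rw [← e25] at hx
    have hjj : j' = j := by linarith
    subst hjj
    have h6 := upper N j' g1 l _ (h5 e j' he hx) he
    rw [hA, hB] at h6
    exact_mod_cast h6
  · rintro ⟨h4, h5⟩
    refine ⟨h4, ?_⟩
    intro e j he hx
    have h4' := h4
    rw [← T.sec_mul] at h4'
    obtain ⟨j', g1, g2, g3, g4⟩ := h4' e he
    have hjj : j' = j := by linarith
    subst hjj
    have h6 := h5 e j' he (by rw [← e25]; exact hx)
    rcases Nat.eq_zero_or_pos N with hN | hN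
    · subst hN
      have hj0 : j' = 0 := by simpa using g1
      subst hj0
      refine χ.Wc_anti ?_ (χ.V_le_Wc g1 g4)
      simpa using h6
    · refine lower N j' hN g1 _ g4 l ?_
      have h7 : (l : ℝ) ≤ ((z₂ - z₁ : ℤ) : ℝ) * N + ((z₃ - z₁ : ℤ) : ℝ) * j' := by
        exact_mod_cast h6
      rw [← hA, ← hB] at h7
      linarith

/-- the main statement on equality. -/
theorem TestConf.isProduct_of_fut (χ : TestConf T q D₀ r) (hχ : χ.Equivariant) (hred : χ.Reduced)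
    (hr : 0 < r) (hq : 0 < q) (hD : T.X.deg D₀ = 105 * T.t * q)
    (h0 : χ.HasFutaki 0) : χ.IsProduct := by
  obtain ⟨a₀, a₁, b₀, b₁, c₀, hE, h⟩ := h0
  obtain ⟨ha₀, ha₁⟩ := χ.dim_coeffs hr hq hD hE
  have hpos : 0 < a₀ := by
    rw [ha₀]
    have := T.t_pos
    have : (0 : ℝ) < T.t := by exact_mod_cast this
    have : (0 : ℝ) < r := by exact_mod_cast hr
    have : (0 : ℝ) < q := by exact_mod_cast hq
    positivity
  rw [ha₁, zero_mul, zero_sub] at h
  have hb₁ : b₁ = 0 := by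
    by_contra hb
    have h2 : -(a₀ * b₁) / a₀ ^ 2 ≠ 0 :=
      div_ne_zero (neg_ne_zero.2 (mul_ne_zero hpos.ne' hb)) (pow_ne_zero _ hpos.ne')
    exact h2 h.symm
  rw [ha₁, hb₁] at hE
  exact χ.isProduct hχ hred hr hq hD hE

end Pool.Agent.YTD
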