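import Mathlib

/-!
An element `x` of an extension field of the fraction field of a factorial noetherian domain `A`
is integral over `A` as soon as `a * x ^ s` is integral for some `a ≠ 0` all whose prime factors
have a multiplicity small compared with `s`.
-/

namespace Pool.Agent.YTD

open Polynomial

section frac

variable {A K : Type*} [CommRing A] [IsDomain A] [UniqueFactorizationMonoid A] [Field K]
  [Algebra A K] [IsFractionRing A K]

theorem mem_range_of_coprime_mul {c : K} {α β : A} (h : IsRelPrime α β)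
    (hα : c * algebraMap A K α ∈ (algebraMap A K).range)
    (hβ : c * algebraMap A K β ∈ (algebraMap A K).range) : c ∈ (algebraMap A K).range := by
  obtain ⟨u, v, huv, hc⟩ := IsFractionRing.exists_reduced_fraction A c
  have hv0 : (v : A) ≠ 0 := nonZeroDivisors.coe_ne_zero v
  have hv0' : algebraMap A K v ≠ 0 := by
    rw [Ne, IsFractionRing.to_map_eq_zero_iff]
    exact hv0
  have hc' : c * algebraMap A K v = algebraMap A K u := by
    rw [← hc, IsLocalization.mk'_spec]
  have key : ∀ γ : A, c * algebraMap A K γ ∈ (algebraMap A K).range → (v : A) ∣ γ := by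
    rintro γ ⟨r, hr⟩
    have h1 : algebraMap A K (u * γ) = algebraMap A K (r * v) := by
      rw [map_mul, map_mul, hr, ← hc']
      ring
    have h2 : u * γ = r * v := IsFractionRing.injective A K h1
    have h3 : (v : A) ∣ u * γ := ⟨r, by rw [h2, mul_comm]⟩
    exact huv.symm.dvd_of_dvd_mul_left h3
  obtain ⟨w, hw⟩ := h (key α hα) (key β hβ)
  refine ⟨u * ↑w⁻¹, ?_⟩
  rw [map_mul, ← hc', mul_assoc, ← map_mul, ← hw, Units.mul_inv, map_one, mul_one]

variable {L : Type*} [Field L] [Algebra K L] [Algebra A L] [IsScalarTower A K L]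

include K in
/-- If `α w` and `β w` are integral with `α`, `β` coprime then `w` is integral. -/
theorem isIntegral_of_coprime_mul {w : L} {α β : A} (h : IsRelPrime α β)
    (hα0 : α ≠ 0) (hβ0 : β ≠ 0)
    (hα : IsIntegral A (algebraMap A L α * w)) (hβ : IsIntegral A (algebraMap A L β * w)) :
    IsIntegral A w := by
  have hint : ∀ γ : A, γ ≠ 0 → IsIntegral A (algebraMap A L γ * w) → IsIntegral K w ∧
      ∀ i, (minpoly K w).coeff i * algebraMap A K (γ ^ ((minpoly K w).natDegree - i)) ∈
        (algebraMap A K).range := by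
    intro γ hγ0 hγ
    have hγK : algebraMap A K γ ≠ 0 := by
      rw [Ne, IsFractionRing.to_map_eq_zero_iff]
      exact hγ0
    have e1 : algebraMap A L γ * w = (algebraMap A K γ) • w := by
      rw [Algebra.smul_def, ← IsScalarTower.algebraMap_apply]
    have hK : IsIntegral K w := by
      have h1 : IsIntegral K (algebraMap A L γ * w) := hγ.tower_top
      have h2 : w = (algebraMap A K γ)⁻¹ • (algebraMap A L γ * w) := by
        rw [e1, smul_smul, inv_mul_cancel₀ hγK, one_smul]
      rw [h2]
      exact h1.smul _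
    refine ⟨hK, fun i => ?_⟩
    have h3 := IsIntegrallyClosed.minpoly_smul hγK hK
    rw [← e1, minpoly.isIntegrallyClosed_eq_field_fractions' K hγ] at h3
    have h4 := congrArg (fun p => p.coeff i) h3
    simp only [coeff_map, coeff_scaleRoots] at h4
    rw [map_pow]
    exact ⟨_, h4⟩
  obtain ⟨hK, h1⟩ := hint α hα0 hα
  obtain ⟨-, h2⟩ := hint β hβ0 hβ
  have h3 : ∀ i, (minpoly K w).coeff i ∈ (algebraMap A K).range := fun i =>
    mem_range_of_coprime_mul (h.pow (m := (minpoly K w).natDegree - i)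
      (n := (minpoly K w).natDegree - i)) (h1 i) (h2 i)
  obtain ⟨p, hp, hdeg, hmon⟩ := lifts_and_natDegree_eq_and_monic
    ((lifts_iff_coeff_lifts (f := algebraMap A K) (minpoly K w)).2 h3) (minpoly.monic hK)
  refine ⟨p, hmon, ?_⟩
  have h5 := minpoly.aeval K w
  rw [← hp, aeval_map_algebraMap] at h5
  exact h5

include K in
/-- The denominators of `w` form a principal ideal. -/
theorem exists_denominator {w : L} (hw : ∃ b : A, b ≠ 0 ∧ IsIntegral A (algebraMap A L b * w)) :
    ∃ δ : A, δ ≠ 0 ∧ IsIntegral A (algebraMap A L δ * w) ∧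
      ∀ b : A, IsIntegral A (algebraMap A L b * w) → δ ∣ b := by
  have hwf : WellFounded (DvdNotUnit (α := A)) := wellFounded_dvdNotUnit
  obtain ⟨δ, ⟨hδ0, hδ⟩, hmin⟩ := hwf.has_min
    {b : A | b ≠ 0 ∧ IsIntegral A (algebraMap A L b * w)} hw
  refine ⟨δ, hδ0, hδ, fun b hb => ?_⟩
  by_cases hb0 : b = 0
  · rw [hb0]
    exact dvd_zero _
  obtain ⟨δ', b', g, hrel, h1, h2⟩ := UniqueFactorizationMonoid.exists_reduced_factors δ hδ0 b
  have hg0 : g ≠ 0 := by
    rintro rfl
    rw [zero_mul] at h1
    exact hδ0 h1.symm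
  have hδ'0 : δ' ≠ 0 := by
    rintro rfl
    rw [mul_zero] at h1
    exact hδ0 h1.symm
  have hb'0 : b' ≠ 0 := by
    rintro rfl
    rw [mul_zero] at h2
    exact hb0 h2.symm
  have hg : IsIntegral A (algebraMap A L g * w) := by
    apply isIntegral_of_coprime_mul (K := K) hrel hδ'0 hb'0
    · rw [← mul_assoc, ← map_mul, mul_comm δ' g, h1]
      exact hδ
    · rw [← mul_assoc, ← map_mul, mul_comm b' g, h2]
      exact hb
  by_cases hu : IsUnit δ'
  · obtain ⟨u, rfl⟩ := hu
    refine ⟨↑u⁻¹ * b', ?_⟩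
    rw [← h1, ← h2]
    calc g * b' = g * (↑u * ↑u⁻¹) * b' := by rw [Units.mul_inv, mul_one]
      _ = g * ↑u * (↑u⁻¹ * b') := by ring
  · exact (hmin g ⟨hg0, hg⟩ ⟨hg0, δ', hu, h1.symm⟩).elim

end frac

section mult

variable {A : Type*} [CommRing A] [IsDomain A] [UniqueFactorizationMonoid A]

omit [IsDomain A] in
theorem dvd_of_prime_pow {t : A} (x : A) (hx : x ≠ 0)
    (h : ∀ p : A, Prime p → ∀ e : ℕ, p ^ e ∣ x → p ^ e ∣ t) : x ∣ t := by
  induction x using UniqueFactorizationMonoid.induction_on_coprime with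
  | h0 => exact (hx rfl).elim
  | h1 hu => exact hu.dvd
  | hpr i hp => exact h _ hp i dvd_rfl
  | hcp hrel h1 h2 =>
    apply hrel.mul_dvd
    · exact h1 (left_ne_zero_of_mul hx) fun p hp e he => h p hp e (he.mul_right _)
    · exact h2 (right_ne_zero_of_mul hx) fun p hp e he => h p hp e (he.mul_left _)

theorem dvd_pow_of_mult {δ a d : A} {D j s N : ℕ} (hδ : δ ≠ 0) (ha : a ≠ 0)
    (hD : ∀ p : A, Prime p → ∀ e : ℕ, p ^ e ∣ a → e ≤ D) (hs : j * D ≤ s)
    (h1 : δ ∣ a ^ j) (h2 : δ ∣ d ^ N) : δ ∣ d ^ s := by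
  apply dvd_of_prime_pow δ hδ
  intro p hp e he
  by_cases he0 : e = 0
  · rw [he0, pow_zero]
    exact one_dvd _
  have hpd : p ∣ d := hp.dvd_of_dvd_pow ((dvd_pow_self p he0).trans (he.trans h2))
  obtain ⟨c, hc, hpc⟩ := (FiniteMultiplicity.of_prime_left hp ha).exists_eq_pow_mul_and_not_dvd
  set m := multiplicity p a with hm
  have hmD : m ≤ D := hD p hp m ⟨c, hc⟩
  have h3 : p ^ e ∣ p ^ (m * j) := by
    have h4 : p ^ e ∣ p ^ (m * j) * c ^ j := by
      rw [pow_mul, ← mul_pow, ← hc]
      exact he.trans h1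
    exact hp.pow_dvd_of_dvd_mul_right e (fun h => hpc (hp.dvd_of_dvd_pow h)) h4
  have h5 : e ≤ m * j := (pow_dvd_pow_iff hp.ne_zero hp.not_isUnit).1 h3
  have h6 : e ≤ s := by
    calc e ≤ m * j := h5
      _ ≤ D * j := Nat.mul_le_mul_right _ hmD
      _ = j * D := mul_comm _ _
      _ ≤ s := hs
  exact (pow_dvd_pow p h6).trans (pow_dvd_pow_of_dvd hpd s)

end mult

section main

variable {A K : Type*} [CommRing A] [IsDomain A] [UniqueFactorizationMonoid A]
  [IsNoetherianRing A] [Field K] [Algebra A K] [IsFractionRing A K] [CharZero K]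
variable {L : Type*} [Field L] [Algebra K L] [Algebra A L] [IsScalarTower A K L]

include K in
/-- An almost integral element is integral. -/
theorem isIntegral_of_almost {x : L} {d : A} (hd : d ≠ 0)
    (h : ∀ j : ℕ, IsIntegral A (algebraMap A L d * x ^ j)) : IsIntegral A x := by
  have hdK : algebraMap A K d ≠ 0 := by
    rw [Ne, IsFractionRing.to_map_eq_zero_iff]
    exact hd
  have hxK : IsIntegral K x := by
    have h1 : IsIntegral K (algebraMap A L d * x ^ 1) := (h 1).tower_top
    have h2 : x = (algebraMap A K d)⁻¹ • (algebraMap A L d * x ^ 1) := by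
      rw [pow_one, Algebra.smul_def, IsScalarTower.algebraMap_apply A K L, ← mul_assoc, ← map_mul,
        inv_mul_cancel₀ hdK, map_one, one_mul]
    rw [h2]
    exact h1.smul _
  let F := IntermediateField.adjoin K {x}
  have hfin : FiniteDimensional K F := IntermediateField.adjoin.finiteDimensional hxK
  let x' : F := ⟨x, IntermediateField.mem_adjoin_simple_self K x⟩
  have hinjF : Function.Injective (algebraMap F L) := (algebraMap F L).injective
  have htower : IsScalarTower A F L := IsScalarTower.of_algebraMap_eq fun a => by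
    rw [IsScalarTower.algebraMap_apply A K F, ← IsScalarTower.algebraMap_apply K F L,
      ← IsScalarTower.algebraMap_apply A K L]
  have hF : ∀ j : ℕ, IsIntegral A (algebraMap A F d * x' ^ j) := by
    intro j
    rw [← isIntegral_algebraMap_iff hinjF, map_mul, map_pow, ← IsScalarTower.algebraMap_apply]
    exact h j
  have hnoeth : IsNoetherian A (integralClosure A F) :=
    IsIntegralClosure.isNoetherian A K F (integralClosure A F)
  have hmem : ∀ y ∈ Algebra.adjoin A {x'}, IsIntegral A (algebraMap A F d * y) := by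
    intro y hy
    have hy' : y ∈ Submodule.span A ((Submonoid.closure {x'} : Submonoid F) : Set F) := by
      rw [← Algebra.adjoin_eq_span]
      exact hy
    induction hy' using Submodule.span_induction with
    | mem z hz =>
      obtain ⟨n, rfl⟩ := Submonoid.mem_closure_singleton.1 hz
      exact hF n
    | zero =>
      rw [mul_zero]
      exact isIntegral_zero
    | add a b ha hb h1 h2 =>
      rw [mul_add]
      refine (h1 ?_).add (h2 ?_)
      · exact (Algebra.adjoin_eq_span A {x'} ▸ ha :)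
      · exact (Algebra.adjoin_eq_span A {x'} ▸ hb :)
    | smul c a ha h1 =>
      rw [mul_smul_comm]
      refine (h1 ?_).smul c
      exact (Algebra.adjoin_eq_span A {x'} ▸ ha :)
  let μ : (Algebra.adjoin A {x'}) →ₗ[A] integralClosure A F :=
    { toFun := fun y => ⟨algebraMap A F d * (y : F), hmem y y.2⟩
      map_add' := fun a b => Subtype.ext (mul_add _ _ _)
      map_smul' := fun c a => Subtype.ext (mul_smul_comm _ _ _) }
  have hdF : algebraMap A F d ≠ 0 := by
    rw [IsScalarTower.algebraMap_apply A K F, Ne, map_eq_zero]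
    exact hdK
  have hμ : Function.Injective μ := by
    intro a b hab
    apply Subtype.ext
    exact mul_left_cancel₀ hdF (congrArg Subtype.val hab)
  have hN : IsNoetherian A (Algebra.adjoin A {x'}) := isNoetherian_of_injective μ hμ
  have hx' : IsIntegral A x' :=
    IsIntegral.of_mem_of_fg (Algebra.adjoin A {x'})
      ((Submodule.fg_top _).1 (isNoetherian_def.1 hN ⊤)) x'
      (Algebra.self_mem_adjoin_singleton A x')
  exact (isIntegral_algebraMap_iff hinjF).2 hx'

include K in
/-- The main lemma. -/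
theorem isIntegral_of_small {x : L} {deg : A → ℕ}
    (hdeg : ∀ a : A, a ≠ 0 → ∀ p : A, Prime p → ∀ e : ℕ, p ^ e ∣ a → e ≤ deg a)
    (h : ∀ n : ℕ, 1 ≤ n → ∃ s : ℕ, 1 ≤ s ∧ ∃ a : A, a ≠ 0 ∧ n * deg a ≤ s ∧
      IsIntegral A (algebraMap A L a * x ^ s)) : IsIntegral A x := by
  -- a denominator of `x`
  obtain ⟨s₁, hs₁, d, hd0, -, hd⟩ := h 1 le_rfl
  have hdx : IsIntegral A (algebraMap A L d * x) := by
    apply IsIntegral.of_pow (n := s₁) hs₁
    have e : (algebraMap A L d * x) ^ s₁ =
        algebraMap A L (d ^ (s₁ - 1)) * (algebraMap A L d * x ^ s₁) := by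
      rw [mul_pow, map_pow, ← mul_assoc, ← pow_succ, Nat.sub_add_cancel hs₁]
    rw [e]
    exact isIntegral_algebraMap.mul hd
  apply isIntegral_of_almost (K := K) hd0
  intro j
  by_cases hj : j = 0
  · rw [hj, pow_zero, mul_one]
    exact isIntegral_algebraMap
  obtain ⟨s, hs, a, ha0, has, ha⟩ := h j (Nat.one_le_iff_ne_zero.2 hj)
  have h1 : IsIntegral A (algebraMap A L (a ^ j) * x ^ (j * s)) := by
    have e : algebraMap A L (a ^ j) * x ^ (j * s) = (algebraMap A L a * x ^ s) ^ j := by
      rw [mul_pow, map_pow, ← pow_mul, mul_comm s j]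
    rw [e]
    exact ha.pow j
  have h2 : IsIntegral A (algebraMap A L (d ^ (j * s)) * x ^ (j * s)) := by
    have e : algebraMap A L (d ^ (j * s)) * x ^ (j * s) = (algebraMap A L d * x) ^ (j * s) := by
      rw [mul_pow, map_pow]
    rw [e]
    exact hdx.pow _
  obtain ⟨δ, hδ0, hδ, hδ'⟩ := exists_denominator (K := K)
    ⟨a ^ j, pow_ne_zero _ ha0, h1⟩
  obtain ⟨c, hc⟩ := dvd_pow_of_mult hδ0 ha0 (hdeg a ha0) has (hδ' _ h1) (hδ' _ h2)
  apply IsIntegral.of_pow (n := s) hs
  have e : (algebraMap A L d * x ^ j) ^ s =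
      algebraMap A L c * (algebraMap A L δ * x ^ (j * s)) := by
    rw [mul_pow, ← pow_mul, ← map_pow, hc, map_mul]
    ring
  rw [e]
  exact isIntegral_algebraMap.mul hδ

end main

/-- The prime factors of a polynomial have multiplicity at most the total degree. -/
theorem mult_le_totalDegree {σ : Type*} {a : MvPolynomial σ ℂ} (ha : a ≠ 0)
    {p : MvPolynomial σ ℂ} (hp : Prime p) {e : ℕ} (h : p ^ e ∣ a) : e ≤ a.totalDegree := by
  obtain ⟨c, rfl⟩ := h
  have hc : c ≠ 0 := right_ne_zero_of_mul ha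
  have hpow : ∀ n : ℕ, (p ^ n).totalDegree = n * p.totalDegree := by
    intro n
    induction n with
    | zero => rw [pow_zero, MvPolynomial.totalDegree_one, zero_mul]
    | succ n ih =>
      rw [pow_succ, MvPolynomial.totalDegree_mul_of_isDomain (pow_ne_zero _ hp.ne_zero) hp.ne_zero,
        ih, add_mul, one_mul]
  have h1 : 1 ≤ p.totalDegree := by
    by_contra hcon
    have h2 : p.totalDegree = 0 := by omega
    rw [MvPolynomial.totalDegree_eq_zero_iff_eq_C] at h2
    have h3 : p.coeff 0 ≠ 0 := by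
      intro h4
      rw [h4, map_zero] at h2
      exact hp.ne_zero h2
    apply hp.not_isUnit
    rw [h2]
    exact (IsUnit.mk0 _ h3).map MvPolynomial.C
  rw [MvPolynomial.totalDegree_mul_of_isDomain (pow_ne_zero _ hp.ne_zero) hc, hpow]
  nlinarith

/-- Step 6 of the proof, with `A` a polynomial ring. -/
theorem red_alg {k : ℕ} {L : Type*} [Field L] (φ : MvPolynomial (Fin k) ℂ →+* L)
    (hφ : Function.Injective φ) {x : L}
    (h : ∀ n : ℕ, 1 ≤ n → ∃ s : ℕ, 1 ≤ s ∧ ∃ a : MvPolynomial (Fin k) ℂ, a ≠ 0 ∧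
      n * a.totalDegree ≤ s ∧ φ.IsIntegralElem (φ a * x ^ s)) : φ.IsIntegralElem x := by
  let _ : Algebra (MvPolynomial (Fin k) ℂ) L := φ.toAlgebra
  have hfaith : FaithfulSMul (MvPolynomial (Fin k) ℂ) L :=
    (faithfulSMul_iff_algebraMap_injective _ _).2 hφ
  let _ : Algebra (FractionRing (MvPolynomial (Fin k) ℂ)) L :=
    FractionRing.liftAlgebra (MvPolynomial (Fin k) ℂ) L
  have hchar : CharZero (FractionRing (MvPolynomial (Fin k) ℂ)) := inferInstance
  exact isIntegral_of_small (K := FractionRing (MvPolynomial (Fin k) ℂ))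
    (deg := MvPolynomial.totalDegree) (fun a ha p hp e he => mult_le_totalDegree ha hp he) h

end Pool.Agent.YTD
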