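import Pool.Agent.YTD.SatL7

/-!
The coefficients of trivial test configurations, and the consequences of the vanishing of the
Futaki invariant for all exponents.
-/

namespace Pool.Agent.YTD

open Finset Module MvPolynomial Filter

variable {K : Type} [Field K] [Algebra ℂ K]
variable {T : Datum K} {q : ℕ} {D₀ : T.X.Pt →₀ ℤ} {r : ℕ}
variable {γ : Gam T}

/-- The traces of a trivial filtration. -/
theorem QFilt.tr_trivial (χ : QFilt γ q D₀ r) {c : ℤ}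
    (h : ∀ (N : ℕ) (l : ℤ), χ.F N l = if l ≤ c * N then γ.secQ q D₀ (r * N) else ⊥) (p N : ℕ) :
    χ.tr p N = ((c : ℝ) * N) ^ p * χ.dimN N := by
  have h1 : ∀ l : ℤ, l ≠ c * N → (l : ℝ) ^ p * χ.wt N l = 0 := by
    intro l hl
    have : χ.wt N l = 0 := by
      unfold QFilt.wt
      rw [h, h]
      rcases lt_or_gt_of_ne hl with h2 | h2
      · rw [if_pos h2.le, if_pos (by omega), sub_self]
      · rw [if_neg (by omega), if_neg (by omega), sub_self]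
    rw [this, mul_zero]
  unfold QFilt.tr
  rw [finsum_eq_single _ (c * N) h1]
  have h2 : χ.wt N (c * N) = χ.dimN N := by
    unfold QFilt.wt QFilt.dimN
    rw [h, h, if_pos le_rfl, if_neg (by omega), finrank_bot, Nat.cast_zero, sub_zero]
  rw [h2]
  push_cast
  rfl

/-- The coefficients of a trivial filtration. -/
theorem QFilt.expansion_trivial (χ : QFilt γ q D₀ r) {c : ℤ}
    (h : ∀ (N : ℕ) (l : ℤ), χ.F N l = if l ≤ c * N then γ.secQ q D₀ (r * N) else ⊥)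
    {a₀ a₁ b₀ b₁ c₀ : ℝ} (hE : χ.Expansion a₀ a₁ b₀ b₁ c₀) :
    b₀ = c * a₀ ∧ b₁ = c * a₁ ∧ c₀ = (c : ℝ) ^ 2 * a₀ := by
  obtain ⟨⟨C₁, h₁⟩, h₂, ⟨C₃, h₃⟩⟩ := hE
  have k2 : b₀ = c * a₀ ∧ b₁ = c * a₁ := by
    refine coeff_unique (p := χ.tr 1) (k := 3) h₂ ⟨|(c : ℝ)| * C₁, ?_⟩
    filter_upwards [h₁] with N g1
    rw [χ.tr_trivial h, pow_one]
    have e : (c : ℝ) * N * χ.dimN N - (c * a₀ * N ^ (3 + 2) + c * a₁ * N ^ (3 + 1)) =
        c * N * (χ.dimN N - (a₀ * N ^ 4 + a₁ * N ^ 3)) := by ring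
    rw [e, abs_mul, abs_mul, Nat.abs_cast]
    calc |(c : ℝ)| * N * |χ.dimN N - (a₀ * N ^ 4 + a₁ * N ^ 3)| ≤ |(c : ℝ)| * N * (C₁ * N ^ 2) :=
          mul_le_mul_of_nonneg_left g1 (by positivity)
      _ = _ := by ring
  refine ⟨k2.1, k2.2, ?_⟩
  -- the bound for the difference of the leading coefficients
  have k3 : ∀ᶠ N : ℕ in atTop, |((c : ℝ) ^ 2 * a₀ - c₀) * (N : ℝ) ^ (5 + 1)| ≤
      ((c : ℝ) ^ 2 * |C₁| + (c : ℝ) ^ 2 * |a₁| + |C₃|) * (N : ℝ) ^ 5 := by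
    filter_upwards [h₁, h₃, eventually_ge_atTop 1] with N g1 g3 hN
    have hN1 : (1 : ℝ) ≤ N := by exact_mod_cast hN
    rw [χ.tr_trivial h] at g3
    have n45 : (N : ℝ) ^ 4 ≤ (N : ℝ) ^ 5 := pow_le_pow_right₀ hN1 (by norm_num)
    have e : ((c : ℝ) ^ 2 * a₀ - c₀) * (N : ℝ) ^ (5 + 1) =
        (((c : ℝ) * N) ^ 2 * χ.dimN N - c₀ * N ^ 6) -
          (c : ℝ) ^ 2 * N ^ 2 * (χ.dimN N - (a₀ * N ^ 4 + a₁ * N ^ 3)) -
          (c : ℝ) ^ 2 * a₁ * N ^ 5 := by ring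
    rw [e]
    have t1 := abs_sub (((((c : ℝ) * N) ^ 2 * χ.dimN N - c₀ * N ^ 6) -
          (c : ℝ) ^ 2 * N ^ 2 * (χ.dimN N - (a₀ * N ^ 4 + a₁ * N ^ 3)))) ((c : ℝ) ^ 2 * a₁ * N ^ 5)
    have t2 := abs_sub (((c : ℝ) * N) ^ 2 * χ.dimN N - c₀ * N ^ 6)
      ((c : ℝ) ^ 2 * N ^ 2 * (χ.dimN N - (a₀ * N ^ 4 + a₁ * N ^ 3)))
    have t3 : |(c : ℝ) ^ 2 * N ^ 2 * (χ.dimN N - (a₀ * N ^ 4 + a₁ * N ^ 3))| ≤
        (c : ℝ) ^ 2 * |C₁| * N ^ 5 := by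
      rw [abs_mul, abs_of_nonneg (by positivity : (0 : ℝ) ≤ (c : ℝ) ^ 2 * N ^ 2)]
      calc (c : ℝ) ^ 2 * N ^ 2 * |χ.dimN N - (a₀ * N ^ 4 + a₁ * N ^ 3)| ≤
          (c : ℝ) ^ 2 * N ^ 2 * (|C₁| * N ^ 2) := by
            apply mul_le_mul_of_nonneg_left _ (by positivity)
            exact g1.trans (mul_le_mul_of_nonneg_right (le_abs_self _) (by positivity))
        _ = (c : ℝ) ^ 2 * |C₁| * N ^ 4 := by ring
        _ ≤ _ := mul_le_mul_of_nonneg_left n45 (by positivity)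
    have t4 : |(c : ℝ) ^ 2 * a₁ * N ^ 5| = (c : ℝ) ^ 2 * |a₁| * N ^ 5 := by
      rw [abs_mul, abs_mul, abs_of_nonneg (by positivity : (0 : ℝ) ≤ (c : ℝ) ^ 2),
        abs_of_nonneg (by positivity : (0 : ℝ) ≤ (N : ℝ) ^ 5)]
    have t5 : C₃ * (N : ℝ) ^ 5 ≤ |C₃| * N ^ 5 :=
      mul_le_mul_of_nonneg_right (le_abs_self _) (by positivity)
    have e2 : ((c : ℝ) ^ 2 * |C₁| + (c : ℝ) ^ 2 * |a₁| + |C₃|) * (N : ℝ) ^ 5 =
      (c : ℝ) ^ 2 * |C₁| * N ^ 5 + (c : ℝ) ^ 2 * |a₁| * N ^ 5 + |C₃| * N ^ 5 := by ring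
    rw [e2]
    linarith
  apply le_antisymm
  · apply lead_le (k := 5) (C := (c : ℝ) ^ 2 * |C₁| + (c : ℝ) ^ 2 * |a₁| + |C₃|)
    filter_upwards [k3] with N hN
    have := (abs_le.1 hN).1
    linarith
  · apply lead_le (k := 5) (C := (c : ℝ) ^ 2 * |C₁| + (c : ℝ) ^ 2 * |a₁| + |C₃|)
    filter_upwards [k3] with N hN
    have := (abs_le.1 hN).2
    linarith

/-- The Futaki invariant and the norm of a trivial filtration vanish. -/
theorem QFilt.fut_trivial (χ : QFilt γ q D₀ r) {c : ℤ}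
    (h : ∀ (N : ℕ) (l : ℤ), χ.F N l = if l ≤ c * N then γ.secQ q D₀ (r * N) else ⊥)
    {a₀ a₁ b₀ b₁ c₀ : ℝ} (hE : χ.Expansion a₀ a₁ b₀ b₁ c₀) :
    (a₁ * b₀ - a₀ * b₁) / a₀ ^ 2 = 0 ∧ c₀ - b₀ ^ 2 / a₀ = 0 := by
  obtain ⟨h1, h2, h3⟩ := χ.expansion_trivial h hE
  constructor
  · rw [h1, h2]
    have : a₁ * (c * a₀) - a₀ * (c * a₁) = 0 := by ring
    rw [this, zero_div]
  · rw [h1, h3]
    rcases eq_or_ne a₀ 0 with h0 | h0
    · rw [h0]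
      simp
    · field_simp
      ring

/-- The leading coefficients for all exponents. -/
theorem QTestConf.a_signs (χ : QTestConf γ q D₀ r) (hfix : γ.Fixes D₀)
    (hD : T.X.deg D₀ = 105 * T.t * q) (hq : 0 < q) (hr : 0 < r)
    {a₀ a₁ b₀ b₁ c₀ : ℝ} (hE : χ.Expansion a₀ a₁ b₀ b₁ c₀) : 0 < a₀ ∧ a₁ = 0 := by
  have h8 : (8 : ℕ) ≤ r * 8 := Nat.le_mul_of_pos_left 8 hr
  have hE8 := χ.ver_expansion (m := 8) (by norm_num) hE
  have ha := (χ.ver 8 (by norm_num)).toQFilt.a0_pos hfix hD hq h8 hE8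
  have ha1 := ((χ.ver 8 (by norm_num)).toQFilt.a_eq hfix hD hq h8 hE8).2
  constructor
  · by_contra h
    push Not at h
    have : a₀ * ((8 : ℕ) : ℝ) ^ 4 ≤ 0 := mul_nonpos_of_nonpos_of_nonneg h (by positivity)
    linarith
  · rcases mul_eq_zero.1 ha1 with h | h
    · exact h
    · exact absurd h (by positivity)

/-- The deficit of the Veronese of a test configuration with vanishing Futaki invariant. -/
theorem QTestConf.deficit_ver (χ : QTestConf γ q D₀ r) (hfix : γ.Fixes D₀)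
    (hD : T.X.deg D₀ = 105 * T.t * q) (hq : 0 < q) (hr : 0 < r) {m : ℕ} (hm : 0 < m)
    (h8 : 8 ≤ r * m) {a₀ a₁ b₀ b₁ c₀ : ℝ} (hE : χ.Expansion a₀ a₁ b₀ b₁ c₀)
    (hfut : (a₁ * b₀ - a₀ * b₁) / a₀ ^ 2 = 0) :
    b₁ = 0 ∧ ∃ c : ℤ, (∀ N : ℕ, 4 ≤ N → ∀ l : ℤ, χ.F (m * N) l ≠ ⊥ → l ≤ c * N) ∧
      b₀ * m = c * a₀ ∧
      ∃ C : ℝ, ∀ N : ℕ, 4 ≤ N → (finrank ℂ (γ.secQ q D₀ (r * m * N)) : ℝ) -
        finrank ℂ (χ.F (m * N) (c * N)) ≤ C * (N : ℝ) ^ 3 := by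
  obtain ⟨ha0, ha1⟩ := χ.a_signs hfix hD hq hr hE
  have hb1 : b₁ = 0 := by
    rw [ha1, zero_mul, zero_sub, div_eq_zero_iff, neg_eq_zero, mul_eq_zero] at hfut
    rcases hfut with (h | h) | h
    · exact absurd h ha0.ne'
    · exact h
    · exact absurd h (by positivity)
  refine ⟨hb1, ?_⟩
  subst hb1
  have hEm := χ.ver_expansion (m := m) hm hE
  rw [zero_mul] at hEm
  obtain ⟨c, h1, h2, C, h3⟩ := (χ.ver m hm).deficit hfix hD hq h8 hEm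
  refine ⟨c, h1, ?_, C, h3⟩
  have hm' : ((m : ℝ)) ^ 4 ≠ 0 := by positivity
  have e : (b₀ * m) * (m : ℝ) ^ 4 = (c * a₀) * (m : ℝ) ^ 4 := by
    calc (b₀ * m) * (m : ℝ) ^ 4 = b₀ * (m : ℝ) ^ 5 := by ring
      _ = c * (a₀ * (m : ℝ) ^ 4) := h2
      _ = _ := by ring
  exact mul_right_cancel₀ hm' e

/-- A reduced filtration with trivial Veronese is trivial. -/
theorem QFilt.trivial_of_ver (χ : QFilt γ q D₀ r) (hfix : γ.Fixes D₀)
    (hD : T.X.deg D₀ = 105 * T.t * q) (hq : 0 < q) (hr : 0 < r) {m : ℕ} (hm : 0 < m)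
    (hred : ∀ (N : ℕ) (l : ℤ), ∀ f ∈ χ.F N l, f ∉ χ.F N (l + 1) → ∀ k : ℕ, 0 < k →
      f ^ k ∉ χ.F (k * N) (k * l + 1)) {c : ℤ}
    (hver : ∀ (N : ℕ) (l : ℤ), χ.F (m * N) l =
      if l ≤ c * N then γ.secQ q D₀ (r * (m * N)) else ⊥) :
    ∃ c' : ℤ, ∀ (N : ℕ) (l : ℤ), χ.F N l = if l ≤ c' * N then γ.secQ q D₀ (r * N) else ⊥ := by
  obtain ⟨Λ, hΛ⟩ := χ.bound
  -- powers
  have hpow : ∀ (N : ℕ) (l : ℤ) (f), f ∈ χ.F N l → ∀ k : ℕ, 0 < k → f ^ k ∈ χ.F (k * N) (k * l) := by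
    intro N l f hf k hk
    induction k, hk using Nat.le_induction with
    | base => simpa using hf
    | succ k hk ih =>
      rw [pow_succ, Nat.succ_mul]
      have e : (((k + 1 : ℕ) : ℤ)) * l = k * l + l := by push_cast; ring
      rw [e]
      exact χ.mul _ _ _ _ _ ih _ hf
  -- the level of every section
  have hlev : ∀ (N : ℕ) (f), f ∈ γ.secQ q D₀ (r * N) → f ≠ 0 →
      ∃ l : ℤ, f ∈ χ.F N l ∧ f ∉ χ.F N (l + 1) ∧ m * l = c * N := by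
    intro N f hf hf0
    have hex : ∃ l : ℤ, f ∈ χ.F N l ∧ f ∉ χ.F N (l + 1) := by
      by_contra hcon
      push Not at hcon
      have : ∀ n : ℕ, f ∈ χ.F N (-(Λ * N) + n) := by
        intro n
        induction n with
        | zero =>
          rw [Nat.cast_zero, add_zero, (hΛ N).1]
          exact hf
        | succ n ih =>
          have := hcon _ ih
          push_cast
          rw [← add_assoc]
          exact this
      have h1 := this (2 * Λ * N + 1)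
      have e : (-(Λ * N) + ((2 * Λ * N + 1 : ℕ) : ℤ)) = (Λ * N + 1 : ℤ) := by push_cast; ring
      rw [e, (hΛ N).2, Submodule.mem_bot] at h1
      exact hf0 h1
    obtain ⟨l, h1, h2⟩ := hex
    refine ⟨l, h1, h2, ?_⟩
    have h3 := hpow N l f h1 m hm
    have h4 := hred N l f h1 h2 m hm
    rw [hver] at h3 h4
    have hne : f ^ m ≠ 0 := pow_ne_zero _ hf0
    have h5 : (m : ℤ) * l ≤ c * N := by
      by_contra h
      rw [if_neg h, Submodule.mem_bot] at h3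
      exact hne h3
    rw [if_pos h5] at h3
    have h6 : ¬ ((m : ℤ) * l + 1 ≤ c * N) := by
      intro h
      rw [if_pos h] at h4
      exact h4 h3
    omega
  -- divisibility
  have hdiv : ∃ c' : ℤ, c = m * c' := by
    obtain ⟨e1, he1, he10⟩ := γ.exists_secQ_ne_zero hfix hD hq (N := r * 8) (by
      exact Nat.le_mul_of_pos_left 8 hr)
    obtain ⟨e2, he2, he20⟩ := γ.exists_secQ_ne_zero hfix hD hq (N := r * 9) (by
      have : 9 ≤ r * 9 := Nat.le_mul_of_pos_left 9 hr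
      omega)
    obtain ⟨l1, _, _, h1⟩ := hlev 8 e1 he1 he10
    obtain ⟨l2, _, _, h2⟩ := hlev 9 e2 he2 he20
    refine ⟨l2 - l1, ?_⟩
    rw [mul_sub, h1, h2]
    push_cast
    ring
  obtain ⟨c', rfl⟩ := hdiv
  have hm' : (m : ℤ) ≠ 0 := by exact_mod_cast hm.ne'
  have hlev' : ∀ (N : ℕ) (f), f ∈ γ.secQ q D₀ (r * N) → f ≠ 0 →
      f ∈ χ.F N (c' * N) ∧ f ∉ χ.F N (c' * N + 1) := by
    intro N f hf hf0
    obtain ⟨l, h1, h2, h3⟩ := hlev N f hf hf0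
    have h4 : l = c' * N := by
      rw [mul_assoc] at h3
      exact mul_left_cancel₀ hm' h3
    subst h4
    exact ⟨h1, h2⟩
  refine ⟨c', fun N l => ?_⟩
  by_cases hl : l ≤ c' * N
  · rw [if_pos hl]
    apply le_antisymm (χ.le N l)
    intro f hf
    by_cases hf0 : f = 0
    · rw [hf0]
      exact zero_mem _
    · exact χ.anti N _ _ hl (hlev' N f hf hf0).1
  · rw [if_neg hl]
    rw [eq_bot_iff]
    intro f hf
    rw [Submodule.mem_bot]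
    by_contra hf0
    exact (hlev' N f (χ.le N l hf) hf0).2 (χ.anti N _ _ (by omega) hf)

end Pool.Agent.YTD
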