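import Mathlib

/-!
Growth: an algebra generated by elements integral over `k[y₁, …, y_c]` has growth at most `t ^ c`.
-/

namespace Pool.Agent.YTD

open Finset MvPolynomial Module

section Grow

variable {k P : Type} [Field k] [CommRing P] [Algebra k P]

theorem finrank_restrictTotalDegree_le (c t : ℕ) :
    finrank k (restrictTotalDegree (Fin c) k t) ≤ (t + 1) ^ c := by
  have h1 : finrank k (restrictDegree (Fin c) k t) = (t + 1) ^ c := by
    have h2 := Module.finrank_eq_nat_card_basis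
      (basisRestrictSupport k {n : Fin c →₀ ℕ | ∀ i, n i ≤ t})
    have h3 : Nat.card {n : Fin c →₀ ℕ | ∀ i, n i ≤ t} = (t + 1) ^ c := by
      let e : {n : Fin c →₀ ℕ | ∀ i, n i ≤ t} ≃ (Fin c → Fin (t + 1)) :=
        { toFun := fun n i => ⟨n.1 i, Nat.lt_succ_of_le (n.2 i)⟩
          invFun := fun g => ⟨Finsupp.equivFunOnFinite.symm fun i => (g i : ℕ), fun i => by
            show (g i : ℕ) ≤ t
            exact Nat.lt_succ_iff.1 (g i).2⟩
          left_inv := fun n => by
            apply Subtype.ext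
            apply Finsupp.ext
            intro i
            rfl
          right_inv := fun g => by
            funext i
            apply Fin.ext
            rfl }
      rw [Nat.card_congr e, Nat.card_eq_fintype_card, Fintype.card_fun, Fintype.card_fin,
        Fintype.card_fin]
    rw [← h3, ← h2]
    rfl
  rw [← h1]
  exact Submodule.finrank_mono (restrictTotalDegree_le_restrictDegree (Fin c) k t)

/-- The monomials in elements integral over `k[y₁, …, y_c]` of total degree at most `t` lie in a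
space of dimension `O(t ^ c)`. -/
theorem exists_growth_bound {c p : ℕ} (y : Fin c → P) (f : Fin p → P)
    (hf : ∀ i, IsIntegral (Algebra.adjoin k (Set.range y)) (f i)) :
    ∃ D R : ℕ, ∀ t : ℕ, ∃ E : Submodule k P, Module.Finite k E ∧
      finrank k E ≤ R * (D * (t + 1) + 1) ^ c ∧
      ∀ m : Fin p → ℕ, ∑ i, m i ≤ t → ∏ i, f i ^ m i ∈ E := by
  classical
  set A := Algebra.adjoin k (Set.range y) with hA
  have hAm : ∀ a : A, ∃ q : MvPolynomial (Fin c) k, aeval y q = (a : P) := by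
    intro a
    have h1 : (a : P) ∈ (aeval (R := k) y).range := by
      rw [← Algebra.adjoin_range_eq_range_aeval]
      exact a.2
    exact h1
  have hfg : (Subalgebra.toSubmodule (Algebra.adjoin A (Set.range f))).FG :=
    fg_adjoin_of_finite (Set.finite_range f) (by rintro _ ⟨i, rfl⟩; exact hf i)
  obtain ⟨w, hw⟩ := hfg
  have hexp : ∀ x ∈ Algebra.adjoin A (Set.range f), ∃ q : P → MvPolynomial (Fin c) k,
      x = ∑ u ∈ w, aeval y (q u) * u := by
    intro x hx
    have h1 : x ∈ Submodule.span A (w : Set P) := by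
      rw [hw]
      exact hx
    obtain ⟨a, -, ha⟩ := Submodule.mem_span_finset.1 h1
    choose q hq using fun u => hAm (a u)
    refine ⟨q, ?_⟩
    rw [← ha]
    refine Finset.sum_congr rfl fun u _ => ?_
    rw [hq, Subalgebra.smul_def, smul_eq_mul]
  have hwm : ∀ v ∈ w, v ∈ Algebra.adjoin A (Set.range f) := by
    intro v hv
    have h1 : v ∈ Submodule.span A (w : Set P) := Submodule.subset_span hv
    rw [hw] at h1
    exact h1
  have h1 : ∀ (i : Fin p) (v : P), ∃ q : P → MvPolynomial (Fin c) k,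
      v ∈ w → f i * v = ∑ u ∈ w, aeval y (q u) * u := by
    intro i v
    by_cases hv : v ∈ w
    · obtain ⟨q, hq⟩ := hexp (f i * v)
        (mul_mem (Algebra.subset_adjoin ⟨i, rfl⟩) (hwm v hv))
      exact ⟨q, fun _ => hq⟩
    · exact ⟨0, fun h => absurd h hv⟩
  choose q hq using h1
  obtain ⟨q₀, hq₀⟩ := hexp 1 (one_mem _)
  set D : ℕ := ∑ i, ∑ v ∈ w, ∑ u ∈ w, (q i v u).totalDegree + ∑ u ∈ w, (q₀ u).totalDegree with hD
  have hD1 : ∀ i, ∀ v ∈ w, ∀ u ∈ w, (q i v u).totalDegree ≤ D := by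
    intro i v hv u hu
    refine le_trans ?_ (Nat.le_add_right _ _)
    refine le_trans ?_ (Finset.single_le_sum (f := fun i => ∑ v ∈ w, ∑ u ∈ w,
      (q i v u).totalDegree) (fun _ _ => Nat.zero_le _) (Finset.mem_univ i))
    refine le_trans ?_ (Finset.single_le_sum (f := fun v => ∑ u ∈ w,
      (q i v u).totalDegree) (fun _ _ => Nat.zero_le _) hv)
    exact Finset.single_le_sum (f := fun u => (q i v u).totalDegree)
      (fun _ _ => Nat.zero_le _) hu
  have hD2 : ∀ u ∈ w, (q₀ u).totalDegree ≤ D := by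
    intro u hu
    refine le_trans ?_ (Nat.le_add_left _ _)
    exact Finset.single_le_sum (f := fun u => (q₀ u).totalDegree)
      (fun _ _ => Nat.zero_le _) hu
  let S : ℕ → P → Prop := fun t x => ∃ Q : P → MvPolynomial (Fin c) k,
    (∀ u ∈ w, (Q u).totalDegree ≤ D * (t + 1)) ∧ x = ∑ u ∈ w, aeval y (Q u) * u
  have hS0 : S 0 1 := ⟨q₀, fun u hu => by simpa using hD2 u hu, hq₀⟩
  have hSm : ∀ {s t : ℕ} {x : P}, s ≤ t → S s x → S t x := by
    rintro s t x hst ⟨Q, hQ1, hQ2⟩
    exact ⟨Q, fun u hu => (hQ1 u hu).trans (Nat.mul_le_mul_left _ (by omega)), hQ2⟩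
  have hSf : ∀ (t : ℕ) (x : P) (i : Fin p), S t x → S (t + 1) (f i * x) := by
    rintro t x i ⟨Q, hQ1, hQ2⟩
    refine ⟨fun u => ∑ v ∈ w, Q v * q i v u, fun u hu => ?_, ?_⟩
    · refine totalDegree_finsetSum_le fun v hv => ?_
      refine (totalDegree_mul _ _).trans ?_
      have h2 := hQ1 v hv
      have h3 := hD1 i v hv u hu
      calc _ ≤ D * (t + 1) + D := add_le_add h2 h3
        _ = D * (t + 1 + 1) := by ring
    · rw [hQ2, Finset.mul_sum]
      have h4 : ∀ v ∈ w, f i * (aeval y (Q v) * v) =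
          ∑ u ∈ w, aeval y (Q v) * (aeval y (q i v u) * u) := by
        intro v hv
        rw [mul_left_comm, hq i v hv, Finset.mul_sum]
      rw [Finset.sum_congr rfl h4, Finset.sum_comm]
      refine Finset.sum_congr rfl fun u _ => ?_
      rw [map_sum, Finset.sum_mul]
      refine Finset.sum_congr rfl fun v _ => ?_
      rw [map_mul, mul_assoc]
  have hSp : ∀ (n t : ℕ) (x : P) (i : Fin p), S t x → S (t + n) (f i ^ n * x) := by
    intro n
    induction n with
    | zero =>
      intro t x i h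
      rw [pow_zero, one_mul]
      exact h
    | succ n ih =>
      intro t x i h
      have h2 := hSf _ _ i (ih t x i h)
      rw [← mul_assoc, ← pow_succ'] at h2
      exact h2
  have hSprod : ∀ (m : Fin p → ℕ) (s : Finset (Fin p)),
      S (∑ i ∈ s, m i) (∏ i ∈ s, f i ^ m i) := by
    intro m s
    induction s using Finset.induction_on with
    | empty =>
      rw [Finset.sum_empty, Finset.prod_empty]
      exact hS0
    | insert i s hi ih =>
      rw [Finset.sum_insert hi, Finset.prod_insert hi, add_comm]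
      exact hSp _ _ _ _ ih
  refine ⟨D, w.card, fun t => ?_⟩
  let Φ : (w → restrictTotalDegree (Fin c) k (D * (t + 1))) →ₗ[k] P :=
    ∑ u : w, (LinearMap.mulRight k (u : P)) ∘ₗ (aeval (R := k) y).toLinearMap ∘ₗ
      (Submodule.subtype _) ∘ₗ (LinearMap.proj u)
  refine ⟨LinearMap.range Φ, inferInstance, ?_, fun m hm => ?_⟩
  · refine (LinearMap.finrank_range_le Φ).trans ?_
    rw [Module.finrank_pi_fintype, Finset.sum_const, Finset.card_univ, Fintype.card_coe,
      smul_eq_mul]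
    exact Nat.mul_le_mul_left _ (finrank_restrictTotalDegree_le _ _)
  · obtain ⟨Q, hQ1, hQ2⟩ := hSm hm (hSprod m Finset.univ)
    refine ⟨fun u => ⟨Q u, (mem_restrictTotalDegree _ _ _).2 (hQ1 u u.2)⟩, ?_⟩
    rw [hQ2, LinearMap.sum_apply, ← Finset.sum_coe_sort w]
    rfl

/-- If the growth of the algebra generated by `f` is at least `a t ^ 5` then `5 ≤ c`. -/
theorem five_le_of_growth {c p : ℕ} (y : Fin c → P) (f : Fin p → P)
    (hf : ∀ i, IsIntegral (Algebra.adjoin k (Set.range y)) (f i))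
    (V : ℕ → Submodule k P) (t₀ : ℕ)
    (hV : ∀ t ≥ t₀, V t ≤ Submodule.span k
      {x | ∃ m : Fin p → ℕ, ∑ i, m i ≤ t ∧ x = ∏ i, f i ^ m i})
    (a : ℝ) (ha : 0 < a) (hgr : ∀ t ≥ t₀, a * (t : ℝ) ^ 5 ≤ finrank k (V t)) : 5 ≤ c := by
  by_contra hc
  push Not at hc
  obtain ⟨D, R, h⟩ := exists_growth_bound y f hf
  have h1 : ∀ t ≥ t₀, a * (t : ℝ) ^ 5 ≤ R * (D * (t + 1) + 1) ^ 4 := by
    intro t ht
    obtain ⟨E, hE1, hE2, hE3⟩ := h t
    have h2 : V t ≤ E := by
      refine (hV t ht).trans (Submodule.span_le.2 ?_)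
      rintro _ ⟨m, hm, rfl⟩
      exact hE3 m hm
    have h3 : finrank k (V t) ≤ R * (D * (t + 1) + 1) ^ c :=
      (Submodule.finrank_mono h2).trans hE2
    have h4 : R * (D * (t + 1) + 1) ^ c ≤ R * (D * (t + 1) + 1) ^ 4 :=
      Nat.mul_le_mul_left _ (Nat.pow_le_pow_right (by omega) (by omega))
    have h5 : ((finrank k (V t) : ℕ) : ℝ) ≤ ((R * (D * (t + 1) + 1) ^ 4 : ℕ) : ℝ) := by
      exact_mod_cast h3.trans h4
    refine (hgr t ht).trans (h5.trans (le_of_eq ?_))
    push_cast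
    ring
  -- for `t ≥ 1`, `D (t + 1) + 1 ≤ (2 D + 1) t`
  obtain ⟨t, ht⟩ := exists_nat_gt ((R : ℝ) * (2 * D + 1) ^ 4 / a)
  have h6 := h1 (max t₀ (t + 1)) (le_max_left _ _)
  set s : ℕ := max t₀ (t + 1) with hs
  have hs1 : (1 : ℝ) ≤ s := by
    have : 1 ≤ s := le_trans (by omega) (le_max_right t₀ (t + 1))
    exact_mod_cast this
  have hst : (t : ℝ) ≤ s := by
    have : t ≤ s := le_trans (by omega) (le_max_right t₀ (t + 1))
    exact_mod_cast this
  have h7 : ((D : ℝ) * (s + 1) + 1) ≤ (2 * D + 1) * s := by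
    have hD0 : (0 : ℝ) ≤ D := Nat.cast_nonneg _
    nlinarith
  have h8 : ((D : ℝ) * (s + 1) + 1) ^ 4 ≤ ((2 * D + 1) * s) ^ 4 := by
    have hD0 : (0 : ℝ) ≤ D := Nat.cast_nonneg _
    gcongr
  have h9 : a * (s : ℝ) ^ 5 ≤ R * ((2 * D + 1) * s) ^ 4 :=
    h6.trans (mul_le_mul_of_nonneg_left h8 (Nat.cast_nonneg _))
  have h10 : (R : ℝ) * (2 * D + 1) ^ 4 < a * s := by
    rw [div_lt_iff₀ ha] at ht
    calc (R : ℝ) * (2 * D + 1) ^ 4 < t * a := ht
      _ ≤ s * a := mul_le_mul_of_nonneg_right hst ha.le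
      _ = a * s := mul_comm _ _
  have h11 : (0 : ℝ) < (s : ℝ) ^ 4 := by positivity
  have h12 : (R : ℝ) * ((2 * D + 1) * s) ^ 4 < a * (s : ℝ) ^ 5 := by
    calc (R : ℝ) * ((2 * D + 1) * s) ^ 4 = (R * (2 * D + 1) ^ 4) * s ^ 4 := by ring
      _ < (a * s) * s ^ 4 := mul_lt_mul_of_pos_right h10 h11
      _ = a * (s : ℝ) ^ 5 := by ring
  exact absurd h9 (not_le.2 h12)

end Grow

end Pool.Agent.YTD
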