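import Mathlib

/-!
Linear Noether normalisation of finitely many homogeneous polynomials of equal degree.
-/

namespace Pool.Agent.YTD

open Finset MvPolynomial

section NN

variable {k P : Type} [Field k] [CommRing P] [Algebra k P]

/-- Substituting linear forms `b i + c i T` into a form of degree `m`: the coefficient of `T ^ m`
is the value at `c`. -/
theorem coeff_subst_lin {S : Type} [CommRing S] [Algebra k S] {ι : Type} {m : ℕ}
    (G : MvPolynomial ι k) (hG : G.IsHomogeneous m) (b : ι → S) (c : ι → k) :
    (aeval (fun i => Polynomial.C (b i) + Polynomial.C (algebraMap k S (c i)) * Polynomial.X) G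
      : Polynomial S).natDegree ≤ m ∧
    (aeval (fun i => Polynomial.C (b i) + Polynomial.C (algebraMap k S (c i)) * Polynomial.X) G
      : Polynomial S).coeff m = algebraMap k S (MvPolynomial.eval c G) := by
  classical
  set F : ι → Polynomial S := fun i =>
    Polynomial.C (b i) + Polynomial.C (algebraMap k S (c i)) * Polynomial.X with hF
  have h1 : ∀ i, (F i).natDegree ≤ 1 := by
    intro i
    refine (Polynomial.natDegree_add_le _ _).trans ?_
    rw [Polynomial.natDegree_C]
    refine max_le (Nat.zero_le _) ?_
    refine (Polynomial.natDegree_C_mul_le _ _).trans Polynomial.natDegree_X_le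
  have h2 : ∀ i, (F i).coeff 1 = algebraMap k S (c i) := by
    intro i
    simp [hF, Polynomial.coeff_add, Polynomial.coeff_C]
  have h3 : ∀ e : ι →₀ ℕ, (e.prod fun i n => F i ^ n).natDegree ≤ e.degree ∧
      (e.prod fun i n => F i ^ n).coeff e.degree =
        algebraMap k S (e.prod fun i n => c i ^ n) := by
    intro e
    have hd : e.degree = ∑ i ∈ e.support, e i := rfl
    constructor
    · rw [hd]
      refine (Polynomial.natDegree_prod_le _ _).trans (Finset.sum_le_sum fun i _ => ?_)
      refine (Polynomial.natDegree_pow_le).trans ?_
      calc e i * (F i).natDegree ≤ e i * 1 := Nat.mul_le_mul_left _ (h1 i)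
        _ = e i := mul_one _
    · have h4 : ∀ i ∈ e.support, (F i ^ e i).natDegree ≤ e i := by
        intro i _
        refine (Polynomial.natDegree_pow_le).trans ?_
        calc e i * (F i).natDegree ≤ e i * 1 := Nat.mul_le_mul_left _ (h1 i)
          _ = e i := mul_one _
      have h5 : ∀ (s : Finset ι), (∏ i ∈ s, F i ^ e i).natDegree ≤ ∑ i ∈ s, e i ∧
          (∏ i ∈ s, F i ^ e i).coeff (∑ i ∈ s, e i) = ∏ i ∈ s, algebraMap k S (c i) ^ e i := by
        intro s
        induction s using Finset.induction_on with
        | empty => simp
        | insert i s hi ih =>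
          have h6 : (F i ^ e i).natDegree ≤ e i := by
            refine (Polynomial.natDegree_pow_le).trans ?_
            calc e i * (F i).natDegree ≤ e i * 1 := Nat.mul_le_mul_left _ (h1 i)
              _ = e i := mul_one _
          have h7 : (F i ^ e i).coeff (e i) = algebraMap k S (c i) ^ e i := by
            have := Polynomial.coeff_pow_of_natDegree_le (m := e i) (h1 i)
            rw [mul_one] at this
            rw [this, h2]
          rw [Finset.prod_insert hi, Finset.sum_insert hi, Finset.prod_insert hi]
          refine ⟨(Polynomial.natDegree_mul_le).trans (add_le_add h6 ih.1), ?_⟩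
          rw [Polynomial.coeff_mul_add_eq_of_natDegree_le h6 ih.1, h7, ih.2]
      rw [hd, Finsupp.prod, (h5 e.support).2, Finsupp.prod, map_prod]
      exact Finset.prod_congr rfl fun i _ => by rw [map_pow]
  have h8 : aeval F G = ∑ e ∈ G.support, Polynomial.C (algebraMap k S (G.coeff e)) *
      (e.prod fun i n => F i ^ n) := by
    rw [aeval_def, eval₂_eq]
    refine Finset.sum_congr rfl fun e _ => ?_
    rfl
  have h9 : ∀ e ∈ G.support, e.degree = m := by
    intro e he
    have := hG (MvPolynomial.mem_support_iff.1 he)
    rw [Finsupp.degree_eq_weight_one (R := ℕ)]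
    exact this
  constructor
  · rw [h8]
    refine Polynomial.natDegree_sum_le_of_forall_le _ _ fun e he => ?_
    refine (Polynomial.natDegree_C_mul_le _ _).trans ?_
    rw [← h9 e he]
    exact (h3 e).1
  · rw [h8, Polynomial.finsetSum_coeff, MvPolynomial.eval_eq, map_sum]
    refine Finset.sum_congr rfl fun e he => ?_
    rw [Polynomial.coeff_C_mul, ← h9 e he, (h3 e).2, map_mul]
    rfl

/-- A nonzero relation between homogeneous polynomials of equal degree gives a homogeneous one. -/
theorem exists_homogeneous_relation {K σ ι : Type} [Field K] [Algebra k K] {d : ℕ}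
    (g : ι → MvPolynomial σ K) (hg : ∀ i, (g i).IsHomogeneous d) (hd : 0 < d)
    (G : MvPolynomial ι k) (hG : G ≠ 0) (h0 : aeval g G = 0) :
    ∃ (m : ℕ) (G' : MvPolynomial ι k), G' ≠ 0 ∧ G'.IsHomogeneous m ∧ aeval g G' = 0 := by
  classical
  have h1 : ∀ (m : ℕ) (H : MvPolynomial ι k), H.IsHomogeneous m →
      (aeval g H).IsHomogeneous (d * m) := by
    intro m H hH
    rw [aeval_def, eval₂_eq]
    refine MvPolynomial.IsHomogeneous.sum _ _ _ fun e he => ?_
    have h2 : (∏ i ∈ e.support, g i ^ e i).IsHomogeneous (∑ i ∈ e.support, d * e i) :=
      MvPolynomial.IsHomogeneous.prod _ _ _ fun i _ => (hg i).pow _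
    have h3 : ∑ i ∈ e.support, d * e i = d * m := by
      rw [← Finset.mul_sum]
      congr 1
      have := hH (MvPolynomial.mem_support_iff.1 he)
      rw [← this]
      have h6 : e.degree = Finsupp.weight (1 : ι → ℕ) e :=
        congrFun (congrArg _ (Finsupp.degree_eq_weight_one (R := ℕ))) e
      exact h6
    rw [← h3]
    have h4 : algebraMap k (MvPolynomial σ K) (H.coeff e) * ∏ i ∈ e.support, g i ^ e i =
        C (algebraMap k K (H.coeff e)) * ∏ i ∈ e.support, g i ^ e i := rfl
    rw [h4]
    exact h2.C_mul _
  obtain ⟨m, hm⟩ : ∃ m, homogeneousComponent m G ≠ 0 := by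
    by_contra hcon
    simp only [not_exists, not_not] at hcon
    apply hG
    rw [← sum_homogeneousComponent G]
    exact Finset.sum_eq_zero fun i _ => hcon i
  refine ⟨m, homogeneousComponent m G, hm, homogeneousComponent_isHomogeneous m G, ?_⟩
  have h5 : homogeneousComponent (d * m) (aeval g G) = aeval g (homogeneousComponent m G) := by
    conv_lhs => rw [← sum_homogeneousComponent G]
    rw [map_sum, map_sum]
    by_cases hm' : m ∈ Finset.range (G.totalDegree + 1)
    · rw [Finset.sum_eq_single_of_mem m hm']
      · exact (homogeneousComponent_of_mem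
          (h1 m _ (homogeneousComponent_isHomogeneous m G))).trans (if_pos rfl)
      · intro j _ hj
        rw [homogeneousComponent_of_mem (h1 j _ (homogeneousComponent_isHomogeneous j G))]
        rw [if_neg]
        intro h
        exact hj (Nat.eq_of_mul_eq_mul_left hd h).symm
    · exfalso
      apply hm
      apply homogeneousComponent_eq_zero
      rw [Finset.mem_range] at hm'
      omega
  rw [← h5, h0, map_zero]

/-- **Linear Noether normalisation.** -/
theorem exists_linear_noether [Infinite k] {K σ : Type} [Field K] [Algebra k K] {d : ℕ}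
    (hd : 0 < d) : ∀ (p : ℕ) (g : Fin p → MvPolynomial σ K)
    (_ : ∀ i, (g i).IsHomogeneous d),
    ∃ (c : ℕ) (y : Fin c → MvPolynomial σ K),
      (∀ j, y j ∈ Submodule.span k (Set.range g)) ∧ AlgebraicIndependent k y ∧
      ∀ i, IsIntegral (Algebra.adjoin k (Set.range y)) (g i) := by
  classical
  intro p
  induction p with
  | zero =>
    intro g _
    refine ⟨0, g, fun j => j.elim0, ?_, fun i => i.elim0⟩
    rw [algebraicIndependent_empty_type_iff]
    exact (algebraMap k (MvPolynomial σ K)).injective
  | succ p ih =>
    intro g hg
    by_cases hind : AlgebraicIndependent k g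
    · refine ⟨p + 1, g, fun j => Submodule.subset_span ⟨j, rfl⟩, hind, fun i => ?_⟩
      have : g i = algebraMap (Algebra.adjoin k (Set.range g)) (MvPolynomial σ K)
          ⟨g i, Algebra.subset_adjoin ⟨i, rfl⟩⟩ := rfl
      rw [this]
      exact isIntegral_algebraMap
    · rw [algebraicIndependent_iff] at hind
      simp only [not_forall] at hind
      obtain ⟨G₀, hG₀, hG₀'⟩ := hind
      obtain ⟨m, G, hG, hGm, hG0⟩ := exists_homogeneous_relation g hg hd G₀ hG₀' hG₀
      obtain ⟨c, hc⟩ : ∃ c : Fin (p + 1) → k, MvPolynomial.eval c (G * X 0) ≠ 0 := by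
        by_contra hcon
        have h1 : G * X 0 = 0 := MvPolynomial.funext fun x => by
          rw [map_zero]
          by_contra hx
          exact hcon ⟨x, hx⟩
        rcases mul_eq_zero.1 h1 with h2 | h2
        · exact hG h2
        · exact X_ne_zero _ h2
      rw [map_mul, eval_X] at hc
      have hc1 : MvPolynomial.eval c G ≠ 0 := left_ne_zero_of_mul hc
      have hc0 : c 0 ≠ 0 := right_ne_zero_of_mul hc
      set g' : Fin p → MvPolynomial σ K := fun j => g j.succ - (c j.succ * (c 0)⁻¹) • g 0 with hg'
      have hg'h : ∀ j, (g' j).IsHomogeneous d := by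
        intro j
        refine (hg _).sub ?_
        rw [Algebra.smul_def]
        exact (hg 0).C_mul (algebraMap k K (c j.succ * (c 0)⁻¹))
      obtain ⟨r, y, hy1, hy2, hy3⟩ := ih g' hg'h
      have hsp : ∀ j, g' j ∈ Submodule.span k (Set.range g) := fun j =>
        Submodule.sub_mem _ (Submodule.subset_span ⟨_, rfl⟩)
          (Submodule.smul_mem _ _ (Submodule.subset_span ⟨_, rfl⟩))
      refine ⟨r, y, fun j => ?_, hy2, ?_⟩
      · refine Submodule.span_le.2 ?_ (hy1 j)
        rintro _ ⟨i, rfl⟩
        exact hsp i
      set z : MvPolynomial σ K := (c 0)⁻¹ • g 0 with hz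
      have hz1 : IsIntegral (Algebra.adjoin k (Set.range g')) z := by
        set S := Algebra.adjoin k (Set.range g') with hS
        let b : Fin (p + 1) → S := Fin.cons 0 (fun j => ⟨g' j, Algebra.subset_adjoin ⟨j, rfl⟩⟩)
        let F : Polynomial S := aeval (fun i => Polynomial.C (b i) +
          Polynomial.C (algebraMap k S (c i)) * Polynomial.X) G
        obtain ⟨h1, h2⟩ := coeff_subst_lin G hGm b c
        have h3 : Polynomial.aeval z F = 0 := by
          have h4 : Polynomial.aeval z F = aeval g G := by
            have h5 := MvPolynomial.comp_aeval_apply (φ := (Polynomial.aeval (R := S) z).restrictScalars k)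
              (f := fun i => Polynomial.C (b i) +
                Polynomial.C (algebraMap k S (c i)) * Polynomial.X) G
            have h6 : ((Polynomial.aeval (R := S) z).restrictScalars k) F =
              Polynomial.aeval z F := rfl
            rw [← h6, h5]
            congr 1
            congr 1
            funext i
            show Polynomial.aeval z (Polynomial.C (b i) +
              Polynomial.C (algebraMap k S (c i)) * Polynomial.X) = g i
            rw [map_add, map_mul, Polynomial.aeval_C, Polynomial.aeval_C, Polynomial.aeval_X]
            have h7 : algebraMap S (MvPolynomial σ K) (algebraMap k S (c i)) * z = c i • z := by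
              rw [Algebra.smul_def]
              rfl
            rw [h7, hz, smul_smul]
            refine Fin.cases ?_ (fun j => ?_) i
            · have h8 : algebraMap S (MvPolynomial σ K) (b 0) = 0 := rfl
              rw [h8, zero_add, mul_inv_cancel₀ hc0, one_smul]
            · have h8 : algebraMap S (MvPolynomial σ K) (b j.succ) = g' j := rfl
              rw [h8, hg']
              exact sub_add_cancel _ _
          rw [h4, hG0]
        refine ⟨Polynomial.C (algebraMap k S (MvPolynomial.eval c G)⁻¹) * F, ?_, ?_⟩
        · refine Polynomial.monic_of_natDegree_le_of_coeff_eq_one m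
            ((Polynomial.natDegree_C_mul_le _ _).trans h1) ?_
          rw [Polynomial.coeff_C_mul]
          refine (congrArg _ h2).trans ?_
          rw [← map_mul, inv_mul_cancel₀ hc1, map_one]
        · have h9 : Polynomial.aeval z
            (Polynomial.C (algebraMap k S (MvPolynomial.eval c G)⁻¹) * F) = 0 := by
            rw [map_mul, h3, mul_zero]
          exact h9
      set A := Algebra.adjoin k (Set.range y) with hA
      have hI : ∀ x ∈ Algebra.adjoin k (Set.range g'), x ∈ integralClosure A (MvPolynomial σ K) := by
        have h1 : Algebra.adjoin k (Set.range g') ≤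
            (integralClosure A (MvPolynomial σ K)).restrictScalars k := by
          refine Algebra.adjoin_le ?_
          rintro _ ⟨j, rfl⟩
          exact hy3 j
        intro x hx
        exact h1 hx
      have hz2 : IsIntegral A z := by
        have h1 : IsIntegral (integralClosure A (MvPolynomial σ K)) z := by
          let φ : Algebra.adjoin k (Set.range g') →+* integralClosure A (MvPolynomial σ K) :=
            { toFun := fun x => ⟨x.1, hI x.1 x.2⟩
              map_one' := rfl
              map_mul' := fun _ _ => rfl
              map_zero' := rfl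
              map_add' := fun _ _ => rfl }
          exact hz1.map_of_comp_eq φ (RingHom.id _) rfl
        exact isIntegral_trans _ h1
      have hg0 : IsIntegral A (g 0) := by
        have h1 : g 0 = algebraMap k (MvPolynomial σ K) (c 0) * z := by
          rw [← Algebra.smul_def, hz, smul_smul, mul_inv_cancel₀ hc0, one_smul]
        rw [h1]
        refine IsIntegral.mul ?_ hz2
        have h2 : algebraMap k (MvPolynomial σ K) (c 0) =
          algebraMap A (MvPolynomial σ K) (algebraMap k A (c 0)) := rfl
        rw [h2]
        exact isIntegral_algebraMap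
      intro i
      refine Fin.cases hg0 (fun j => ?_) i
      have h1 : g j.succ = g' j + algebraMap k (MvPolynomial σ K) (c j.succ * (c 0)⁻¹) * g 0 := by
        rw [← Algebra.smul_def, hg']
        exact (sub_add_cancel _ _).symm
      rw [h1]
      refine IsIntegral.add (hy3 j) (IsIntegral.mul ?_ hg0)
      have h2 : algebraMap k (MvPolynomial σ K) (c j.succ * (c 0)⁻¹) =
        algebraMap A (MvPolynomial σ K) (algebraMap k A (c j.succ * (c 0)⁻¹)) := rfl
      rw [h2]
      exact isIntegral_algebraMap

end NN

end Pool.Agent.YTD
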