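import Pool.Agent.YTD.SatI

/-!
Levelwise approximation of the saturated filtration by filtrations of small volume: construction.
-/

namespace Pool.Agent.YTD

open Finset Module MvPolynomial Filter

variable {K : Type} [Field K] [Algebra ℂ K]
variable {T : Datum K} {q : ℕ} {D₀ : T.X.Pt →₀ ℤ} {r : ℕ}

/-- the naive multiples of `U` by functions in `L(D)` -/
noncomputable def CurveOrd.LD (X : CurveOrd K) (D : X.Pt →₀ ℤ) (U : Submodule ℂ (MvPolynomial (Fin 4) K)) :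
    Submodule ℂ (MvPolynomial (Fin 4) K) :=
  Submodule.span ℂ {f | ∃ z ∈ X.L D, ∃ u ∈ U, f = z • u}

/-- the average as a linear map -/
noncomputable def Gam.avL (γ : Gam T) :
    MvPolynomial (Fin 4) K →ₗ[ℂ] MvPolynomial (Fin 4) K where
  toFun := γ.av
  map_add' := Gam.av_add
  map_smul' := Gam.av_smul

theorem finite_sec (T : Datum K) (q : ℕ) (D₀ : T.X.Pt →₀ ℤ) (N : ℕ) :
    FiniteDimensional ℂ (T.sec q D₀ N) := by
  rw [sec_eq_bigr]
  exact finite_bigr _ _ _ (T.finite_V q D₀ N)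

theorem Datum.sec_mul_mem (T : Datum K) {q : ℕ} {D₀ : T.X.Pt →₀ ℤ} {N N' : ℕ}
    {f g : MvPolynomial (Fin 4) K} (hf : f ∈ T.sec q D₀ N) (hg : g ∈ T.sec q D₀ N') :
    f * g ∈ T.sec q D₀ (N + N') :=
  bigr_mul (fun _ _ _ _ _ ha _ hb => T.V_mul ha hb) hf hg

theorem one_mem_sec_zero (T : Datum K) (q : ℕ) (D₀ : T.X.Pt →₀ ℤ) :
    (1 : MvPolynomial (Fin 4) K) ∈ T.sec q D₀ 0 := by
  have h : (1 : MvPolynomial (Fin 4) K) = monomial 0 1 := rfl
  rw [h, sec_eq_bigr]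
  refine monomial_mem_bigr (j := 0) (by simp) (by simp) (by simp) ?_
  intro _ P
  have h5 : T.dvs q D₀ 0 0 = 0 := by
    unfold Datum.dvs
    simp
  rw [T.X.ord_one, h5]
  simp

namespace QFilt

variable {γ : Gam T} (χ : QFilt γ q D₀ r)

theorem one_mem_le {Λ : ℕ}
    (hΛ : ∀ N : ℕ, χ.F N (-(Λ * N)) = γ.secQ q D₀ (r * N) ∧ χ.F N (Λ * N + 1) = ⊥)
    {l : ℤ} (hl : l ≤ 0) : (1 : MvPolynomial (Fin 4) K) ∈ χ.F 0 l := by
  have h1 := (hΛ 0).1
  rw [mul_zero, γ.secQ_zero, Nat.cast_zero, mul_zero, neg_zero] at h1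
  apply χ.anti 0 l 0 hl
  rw [h1]
  exact one_mem_sec_zero T q D₀

/-- The filtration generated by `χ` and by all sections in weight `-Λ`. -/
noncomputable def F2 (Λ : ℕ) (M : ℕ) (l : ℤ) : Submodule ℂ (MvPolynomial (Fin 4) K) :=
  Submodule.span ℂ {x | ∃ (M₁ d : ℕ), M₁ + d = M ∧ ∃ f ∈ χ.F M₁ (l + Λ * d),
    ∃ g ∈ T.sec q D₀ (r * d), x = f * g}

variable {χ} {Λ : ℕ}

theorem F2_mul {M M' : ℕ} {l l' : ℤ} {x y : MvPolynomial (Fin 4) K} (hx : x ∈ χ.F2 Λ M l)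
    (hy : y ∈ χ.F2 Λ M' l') : x * y ∈ χ.F2 Λ (M + M') (l + l') := by
  have h : χ.F2 Λ M l * χ.F2 Λ M' l' ≤ χ.F2 Λ (M + M') (l + l') := by
    unfold F2
    rw [Submodule.span_mul_span]
    apply Submodule.span_mono
    rintro _ ⟨_, ⟨M₁, d, h1, f, hf, g, hg, rfl⟩, _, ⟨M₁', d', h1', f', hf', g', hg', rfl⟩, rfl⟩
    refine ⟨M₁ + M₁', d + d', by omega, f * f', ?_, g * g', ?_, ?_⟩
    · have := χ.mul _ _ _ _ f hf f' hf'
      have e : l + l' + (Λ : ℤ) * ((d + d' : ℕ) : ℤ) = (l + Λ * d) + (l' + Λ * d') := by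
        push_cast
        ring
      rw [e]
      exact this
    · rw [mul_add]
      have h2 := T.secP_true q D₀ (r * d)
      exact T.sec_mul_mem hg hg'
    · simp only
      ring
  exact h (Submodule.mul_mem_mul hx hy)

theorem F2_anti {M : ℕ} {l l' : ℤ} (h : l ≤ l') : χ.F2 Λ M l' ≤ χ.F2 Λ M l := by
  apply Submodule.span_mono
  rintro _ ⟨M₁, d, h1, f, hf, g, hg, rfl⟩
  exact ⟨M₁, d, h1, f, χ.anti _ _ _ (by linarith) hf, g, hg, rfl⟩

theorem F_le_F2 {M : ℕ} {l : ℤ} {f : MvPolynomial (Fin 4) K} (hf : f ∈ χ.F M l) :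
    f ∈ χ.F2 Λ M l := by
  apply Submodule.subset_span
  refine ⟨M, 0, add_zero M, f, ?_, 1, ?_, (mul_one f).symm⟩
  · rw [Nat.cast_zero, mul_zero, add_zero]
    exact hf
  · rw [mul_zero]
    exact one_mem_sec_zero T q D₀

theorem sec_le_F2 (hΛ : ∀ N : ℕ, χ.F N (-(Λ * N)) = γ.secQ q D₀ (r * N) ∧ χ.F N (Λ * N + 1) = ⊥)
    {M : ℕ} {l : ℤ} (hl : l ≤ -(Λ * M)) {g : MvPolynomial (Fin 4) K}
    (hg : g ∈ T.sec q D₀ (r * M)) : g ∈ χ.F2 Λ M l := by
  apply Submodule.subset_span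
  exact ⟨0, M, zero_add M, 1, χ.one_mem_le hΛ (by linarith), g, hg, (one_mul g).symm⟩

theorem av_F2 (hfix : γ.Fixes D₀)
    (hΛ : ∀ N : ℕ, χ.F N (-(Λ * N)) = γ.secQ q D₀ (r * N) ∧ χ.F N (Λ * N + 1) = ⊥)
    {M : ℕ} {l : ℤ} {x : MvPolynomial (Fin 4) K} (hx : x ∈ χ.F2 Λ M l) : γ.av x ∈ χ.F M l := by
  have h : (χ.F2 Λ M l).map γ.avL ≤ χ.F M l := by
    unfold F2
    rw [Submodule.map_span, Submodule.span_le]
    rintro _ ⟨_, ⟨M₁, d, h1, f, hf, g, hg, rfl⟩, rfl⟩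
    show γ.av (f * g) ∈ χ.F M l
    obtain ⟨_, g1, g2, g3⟩ := χ.le _ _ hf
    rw [Gam.av_mul_fixed g1 g2 g3]
    have h2 : γ.av g ∈ χ.F d (-(Λ * d)) := by
      rw [(hΛ d).1]
      exact Gam.av_mem_secQ hfix hg
    have h3 := χ.mul _ _ _ _ f hf _ h2
    rw [h1] at h3
    have e : l + (Λ : ℤ) * d + -(Λ * d) = l := by ring
    rwa [e] at h3
  exact h ⟨x, hx, rfl⟩

theorem F2_le_sec {M : ℕ} {l : ℤ} : χ.F2 Λ M l ≤ T.sec q D₀ (r * M) := by
  unfold F2
  rw [Submodule.span_le]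
  rintro _ ⟨M₁, d, h1, f, hf, g, hg, rfl⟩
  rw [← h1, mul_add]
  exact T.sec_mul_mem (χ.le _ _ hf).1 hg

theorem finite_F (M : ℕ) (l : ℤ) : FiniteDimensional ℂ (χ.F M l) := by
  have := finite_sec T q D₀ (r * M)
  exact Submodule.finiteDimensional_of_le ((χ.le M l).trans (γ.secQ_le q D₀ _))

theorem finite_F2 (M : ℕ) (l : ℤ) : FiniteDimensional ℂ (χ.F2 Λ M l) := by
  have := finite_sec T q D₀ (r * M)
  exact Submodule.finiteDimensional_of_le F2_le_sec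

/-- the signs -/
def sg (i : Fin 2) : ℂ := if i = 0 then 1 else -1

theorem sg_mul (i : Fin 2) : sg i * sg i = 1 := by
  unfold sg
  split_ifs <;> norm_num

theorem finrank_F2_le (hfix : γ.Fixes D₀) (hD : T.X.deg D₀ = 105 * T.t * q) (hq : 0 < q)
    (hr : 8 ≤ r)
    (hΛ : ∀ N : ℕ, χ.F N (-(Λ * N)) = γ.secQ q D₀ (r * N) ∧ χ.F N (Λ * N + 1) = ⊥)
    (M : ℕ) (l : ℤ) : finrank ℂ (χ.F2 Λ M l) ≤ 8 * finrank ℂ (χ.F (M + 1) (l - Λ)) := by
  have hdeg := deg_bound_crit hD hq (N := r * 1) (by rw [mul_one]; exact hr) 0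
    (by rw [abs_zero]; positivity)
  choose g hg hg0 hg1 hg2 hg3 using fun i : Fin 2 × Fin 2 × Fin 2 =>
    Gam.exists_semi_sec (γ := γ) hfix (q := q) (N := r * 1) hdeg (sg_mul i.1) (sg_mul i.2.1)
      (sg_mul i.2.2)
  have hmem : ∀ (w : MvPolynomial (Fin 4) K), w ∈ χ.F2 Λ M l → ∀ i,
      γ.av (w * g i) ∈ χ.F (M + 1) (l - Λ) := by
    intro w hw i
    apply av_F2 hfix hΛ
    have h1 := F2_mul hw (sec_le_F2 (χ := χ) hΛ le_rfl (hg i))
    have e : l + -((Λ : ℤ) * ((1 : ℕ) : ℤ)) = l - Λ := by push_cast; ring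
    rwa [e] at h1
  let Φ : χ.F2 Λ M l →ₗ[ℂ] (Fin 2 × Fin 2 × Fin 2 → χ.F (M + 1) (l - Λ)) :=
    { toFun := fun w i => ⟨γ.av (w * g i), hmem w w.2 i⟩
      map_add' := by
        intro w w'
        funext i
        apply Subtype.ext
        show γ.av ((w + w' : MvPolynomial (Fin 4) K) * g i) = γ.av (w * g i) + γ.av (w' * g i)
        rw [add_mul, Gam.av_add]
      map_smul' := by
        intro c w
        funext i
        apply Subtype.ext
        show γ.av ((c • w : MvPolynomial (Fin 4) K) * g i) = c • γ.av (w * g i)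
        rw [smul_mul_assoc, Gam.av_smul] }
  have hΦ : Function.Injective Φ := by
    rw [injective_iff_map_eq_zero]
    intro w hw
    have h1 : ∀ i : Fin 2 × Fin 2 × Fin 2, γ.piE (sg i.1) (sg i.2.1) (sg i.2.2)
        (w : MvPolynomial (Fin 4) K) = 0 := by
      intro i
      have h2 : γ.av ((w : MvPolynomial (Fin 4) K) * g i) = 0 := by
        have := congrFun hw i
        exact congrArg Subtype.val this
      rw [Gam.av_mul (hg1 i) (hg2 i) (hg3 i)] at h2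
      exact (mul_eq_zero.1 h2).resolve_right (hg0 i)
    have h3 := Gam.sum_piE (γ := γ) (w : MvPolynomial (Fin 4) K)
    have s0 : sg 0 = 1 := rfl
    have s1 : sg 1 = -1 := rfl
    have e1 := h1 (0, 0, 0)
    have e2 := h1 (0, 0, 1)
    have e3 := h1 (0, 1, 0)
    have e4 := h1 (0, 1, 1)
    have e5 := h1 (1, 0, 0)
    have e6 := h1 (1, 0, 1)
    have e7 := h1 (1, 1, 0)
    have e8 := h1 (1, 1, 1)
    simp only [s0, s1] at e1 e2 e3 e4 e5 e6 e7 e8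
    rw [e1, e2, e3, e4, e5, e6, e7, e8] at h3
    apply Subtype.ext
    have h4 : (8 : ℂ) • (w : MvPolynomial (Fin 4) K) = 0 := by
      rw [← h3]
      simp
    exact (smul_eq_zero.1 h4).resolve_left (by norm_num)
  have hfin := finite_F (χ := χ) (M + 1) (l - Λ)
  have h1 := LinearMap.finrank_le_finrank_of_injective hΦ
  rw [Module.finrank_pi_fintype] at h1
  simpa using h1

end QFilt

/-! ### The generated filtration -/

/-- Generators: `χ`, all sections in weight `-Λ`, and the level `N` of the saturation. -/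
def QFilt.Gen {γ : Gam T} (χ : QFilt γ q D₀ r) (Λ N : ℕ) (x : ℕ × ℤ × MvPolynomial (Fin 4) K) :
    Prop :=
  x.2.2 ∈ χ.F x.1 x.2.1 ∨ (x.2.2 ∈ T.sec q D₀ (r * x.1) ∧ x.2.1 ≤ -(Λ * x.1)) ∨
    (x.1 = N ∧ x.2.2 ∈ T.X.satD 0 (χ.F N x.2.1))

/-- the span of the products of generators -/
noncomputable def QFilt.GF {γ : Gam T} (χ : QFilt γ q D₀ r) (Λ N : ℕ) (M : ℕ) (l : ℤ) :
    Submodule ℂ (MvPolynomial (Fin 4) K) :=
  Submodule.span ℂ {g | ∃ L : List (ℕ × ℤ × MvPolynomial (Fin 4) K), (∀ x ∈ L, χ.Gen Λ N x) ∧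
    (L.map fun x => x.1).sum = M ∧ l ≤ (L.map fun x => x.2.1).sum ∧
    g = (L.map fun x => x.2.2).prod}

namespace QFilt

variable {γ : Gam T} {χ : QFilt γ q D₀ r} {Λ N : ℕ}

theorem GF_anti {M : ℕ} {l l' : ℤ} (h : l ≤ l') : χ.GF Λ N M l' ≤ χ.GF Λ N M l := by
  apply Submodule.span_mono
  rintro _ ⟨L, h1, h2, h3, rfl⟩
  exact ⟨L, h1, h2, h.trans h3, rfl⟩

theorem GF_mul {M M' : ℕ} {l l' : ℤ} {x y : MvPolynomial (Fin 4) K} (hx : x ∈ χ.GF Λ N M l)
    (hy : y ∈ χ.GF Λ N M' l') : x * y ∈ χ.GF Λ N (M + M') (l + l') := by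
  have h : χ.GF Λ N M l * χ.GF Λ N M' l' ≤ χ.GF Λ N (M + M') (l + l') := by
    unfold GF
    rw [Submodule.span_mul_span]
    apply Submodule.span_mono
    rintro _ ⟨_, ⟨L, h1, h2, h3, rfl⟩, _, ⟨L', h1', h2', h3', rfl⟩, rfl⟩
    refine ⟨L ++ L', ?_, ?_, ?_, ?_⟩
    · intro x hx
      rcases List.mem_append.1 hx with h | h
      · exact h1 x h
      · exact h1' x h
    · rw [List.map_append, List.sum_append, h2, h2']
    · rw [List.map_append, List.sum_append]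
      exact add_le_add h3 h3'
    · simp only
      rw [List.map_append, List.prod_append]
  exact h (Submodule.mul_mem_mul hx hy)

theorem gen_mem_GF {M : ℕ} {l : ℤ} {f : MvPolynomial (Fin 4) K} (h : χ.Gen Λ N (M, l, f)) :
    f ∈ χ.GF Λ N M l := by
  apply Submodule.subset_span
  refine ⟨[(M, l, f)], ?_, ?_, ?_, ?_⟩
  · intro x hx
    rw [List.mem_singleton] at hx
    rw [hx]
    exact h
  · simp
  · simp
  · simp

variable (hfix : γ.Fixes D₀) (hD : T.X.deg D₀ = 105 * T.t * q) (hq : 0 < q) (hr : 8 ≤ r)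

theorem Gen.mem_sat
    (hΛ : ∀ N : ℕ, χ.F N (-(Λ * N)) = γ.secQ q D₀ (r * N) ∧ χ.F N (Λ * N + 1) = ⊥)
    {x : ℕ × ℤ × MvPolynomial (Fin 4) K} (hx : χ.Gen Λ N x) :
    x.2.2 ∈ (χ.sat hfix hD hq hr).F x.1 x.2.1 := by
  rcases hx with h | ⟨h, h'⟩ | ⟨h, h'⟩
  · exact T.X.le_satD _ h
  · apply (χ.sat hfix hD hq hr).anti _ _ _ h'
    rw [(χ.sat_bound hfix hD hq hr hΛ x.1).1]
    exact h
  · rw [h]
    exact h'

theorem GF_le_sat
    (hΛ : ∀ N : ℕ, χ.F N (-(Λ * N)) = γ.secQ q D₀ (r * N) ∧ χ.F N (Λ * N + 1) = ⊥)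
    (M : ℕ) (l : ℤ) : χ.GF Λ N M l ≤ (χ.sat hfix hD hq hr).F M l := by
  unfold GF
  rw [Submodule.span_le]
  rintro _ ⟨L, h1, h2, h3, rfl⟩
  apply (χ.sat hfix hD hq hr).anti _ _ _ h3
  rw [← h2]
  clear h2 h3
  induction L with
  | nil =>
    simp only [List.map_nil, List.sum_nil, List.prod_nil]
    have h := (χ.sat_bound hfix hD hq hr hΛ 0).1
    rw [Nat.cast_zero, mul_zero, neg_zero, mul_zero] at h
    show (1 : MvPolynomial (Fin 4) K) ∈ (χ.sat hfix hD hq hr).F 0 0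
    rw [h]
    exact one_mem_sec_zero T q D₀
  | cons x L ih =>
    simp only [List.map_cons, List.sum_cons, List.prod_cons]
    exact (χ.sat hfix hD hq hr).mul _ _ _ _ _
      ((h1 x (List.mem_cons_self ..)).mem_sat hfix hD hq hr hΛ) _
      (ih fun y hy => h1 y (List.mem_cons_of_mem _ hy))

/-- the generated filtration -/
noncomputable def GFilt
    (hΛ : ∀ N : ℕ, χ.F N (-(Λ * N)) = γ.secQ q D₀ (r * N) ∧ χ.F N (Λ * N + 1) = ⊥)
    (N : ℕ) : Filt T q D₀ r where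
  F := fun M l => χ.GF Λ N M l
  le := fun M l => (GF_le_sat hfix hD hq hr hΛ M l).trans ((χ.sat hfix hD hq hr).le M l)
  anti := fun M l l' h => GF_anti h
  mul := fun M M' l l' f hf g hg => GF_mul hf hg
  bound := by
    refine ⟨Λ, fun M => ⟨?_, ?_⟩⟩
    · apply le_antisymm ((GF_le_sat hfix hD hq hr hΛ M _).trans ((χ.sat hfix hD hq hr).le M _))
      intro f hf
      exact gen_mem_GF (Or.inr (Or.inl ⟨hf, le_rfl⟩))
    · rw [eq_bot_iff, ← (χ.sat_bound hfix hD hq hr hΛ M).2]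
      exact GF_le_sat hfix hD hq hr hΛ M _

theorem GFilt_level
    (hΛ : ∀ N : ℕ, χ.F N (-(Λ * N)) = γ.secQ q D₀ (r * N) ∧ χ.F N (Λ * N + 1) = ⊥)
    (N : ℕ) (l : ℤ) : (GFilt hfix hD hq hr hΛ N).F N l = (χ.sat hfix hD hq hr).F N l := by
  apply le_antisymm (GF_le_sat hfix hD hq hr hΛ N l)
  intro f hf
  exact gen_mem_GF (Or.inr (Or.inr ⟨rfl, hf⟩))

theorem GFilt_bound
    (hΛ : ∀ N : ℕ, χ.F N (-(Λ * N)) = γ.secQ q D₀ (r * N) ∧ χ.F N (Λ * N + 1) = ⊥)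
    (N M : ℕ) : (GFilt hfix hD hq hr hΛ N).F M (-(Λ * M)) = T.sec q D₀ (r * M) ∧
      (GFilt hfix hD hq hr hΛ N).F M (Λ * M + 1) = ⊥ := by
  refine ⟨?_, ?_⟩
  · apply le_antisymm ((GF_le_sat hfix hD hq hr hΛ M _).trans ((χ.sat hfix hD hq hr).le M _))
    intro f hf
    exact gen_mem_GF (Or.inr (Or.inl ⟨hf, le_rfl⟩))
  · rw [eq_bot_iff, ← (χ.sat_bound hfix hD hq hr hΛ M).2]
    exact GF_le_sat hfix hD hq hr hΛ M _

/-! ### Comparison -/

theorem mul_mem_LD {D : T.X.Pt →₀ ℤ} {U U' U'' : Submodule ℂ (MvPolynomial (Fin 4) K)}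
    (hU : ∀ a ∈ U, ∀ b ∈ U', a * b ∈ U'') {a y : MvPolynomial (Fin 4) K} (ha : a ∈ U)
    (hy : y ∈ T.X.LD D U') : a * y ∈ T.X.LD D U'' := by
  unfold CurveOrd.LD at hy
  induction hy using Submodule.span_induction with
  | mem x hx =>
    obtain ⟨z, hz, u, hu, rfl⟩ := hx
    apply Submodule.subset_span
    exact ⟨z, hz, a * u, hU a ha u hu, mul_smul_comm z a u⟩
  | zero =>
    rw [mul_zero]
    exact zero_mem _
  | add x x' _ _ h1 h2 =>
    rw [mul_add]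
    exact add_mem h1 h2
  | smul c x _ h =>
    rw [mul_smul_comm]
    exact Submodule.smul_mem _ c h

theorem LD_mono {D : T.X.Pt →₀ ℤ} {U U' : Submodule ℂ (MvPolynomial (Fin 4) K)} (h : U ≤ U') :
    T.X.LD D U ≤ T.X.LD D U' := by
  apply Submodule.span_mono
  rintro _ ⟨z, hz, u, hu, rfl⟩
  exact ⟨z, hz, u, h hu, rfl⟩

/-- `L(D)` times the generated filtration is contained in `L(D)` times `F₂`. -/
theorem smul_GF_mem
    (hΛ : ∀ N : ℕ, χ.F N (-(Λ * N)) = γ.secQ q D₀ (r * N) ∧ χ.F N (Λ * N + 1) = ⊥)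
    {D : T.X.Pt →₀ ℤ}
    (hS : ∀ (l : ℤ), ∀ z ∈ T.X.L D, ∀ f ∈ T.X.satD 0 (χ.F N l), z • f ∈ T.X.LD D (χ.F N l))
    {M : ℕ} {l : ℤ} {z : K} (hz : z ∈ T.X.L D) {f : MvPolynomial (Fin 4) K}
    (hf : f ∈ χ.GF Λ N M l) : z • f ∈ T.X.LD D (χ.F2 Λ M l) := by
  unfold GF at hf
  induction hf using Submodule.span_induction with
  | mem x hx =>
    obtain ⟨L, h1, h2, h3, rfl⟩ := hx
    apply LD_mono (F2_anti h3)
    rw [← h2]
    clear h2 h3
    induction L generalizing z with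
    | nil =>
      simp only [List.map_nil, List.sum_nil, List.prod_nil]
      apply Submodule.subset_span
      exact ⟨z, hz, 1, F_le_F2 (χ.one_mem_le hΛ le_rfl), rfl⟩
    | cons x L ih =>
      simp only [List.map_cons, List.sum_cons, List.prod_cons]
      have hL : ∀ y ∈ L, χ.Gen Λ N y := fun y hy => h1 y (List.mem_cons_of_mem _ hy)
      rcases h1 x (List.mem_cons_self ..) with h | ⟨h, h'⟩ | ⟨h, h'⟩
      · rw [← mul_smul_comm]
        exact mul_mem_LD (fun a ha b hb => F2_mul ha hb) (F_le_F2 h) (ih hz hL)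
      · rw [← mul_smul_comm]
        exact mul_mem_LD (fun a ha b hb => F2_mul ha hb) (sec_le_F2 hΛ h' h) (ih hz hL)
      · rw [← smul_mul_assoc]
        have h4 := hS x.2.1 z hz x.2.2 h'
        unfold CurveOrd.LD at h4
        generalize z • x.2.2 = w at h4 ⊢
        induction h4 using Submodule.span_induction with
        | mem y hy =>
          obtain ⟨z', hz', u, hu, rfl⟩ := hy
          rw [smul_mul_assoc, ← mul_smul_comm]
          rw [← h] at hu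
          exact mul_mem_LD (fun a ha b hb => F2_mul ha hb) (F_le_F2 hu) (ih hz' hL)
        | zero =>
          rw [zero_mul]
          exact zero_mem _
        | add y y' _ _ g1 g2 =>
          rw [add_mul]
          exact add_mem g1 g2
        | smul c y _ g =>
          rw [smul_mul_assoc]
          exact Submodule.smul_mem _ c g
  | zero =>
    rw [smul_zero]
    exact zero_mem _
  | add x x' _ _ h1 h2 =>
    rw [smul_add]
    exact add_mem h1 h2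
  | smul c x _ h =>
    rw [smul_comm]
    exact Submodule.smul_mem _ c h

end QFilt

end Pool.Agent.YTD
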