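import Pool.Agent.YTD.SatH2

/-!
Veronese subfiltrations of test configurations of the quotient.
-/

namespace Pool.Agent.YTD

open Finset Module MvPolynomial Filter

variable {K : Type} [Field K] [Algebra ℂ K]

section

variable {k : ℕ} {n : Fin k → ℕ} {w : Fin k → ℤ} {f : Fin k → MvPolynomial (Fin 4) K}

theorem one_mem_gspan : (1 : MvPolynomial (Fin 4) K) ∈ gspan n w f 0 0 := by
  apply Submodule.subset_span
  refine ⟨0, ?_, ?_, ?_⟩
  · simp
  · simp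
  · simp

theorem pow_mem_gspan {N : ℕ} {l : ℤ} {x : MvPolynomial (Fin 4) K} (hx : x ∈ gspan n w f N l)
    (c : ℕ) : x ^ c ∈ gspan n w f (c * N) (c * l) := by
  induction c with
  | zero =>
    rw [pow_zero, zero_mul, Nat.cast_zero, zero_mul]
    exact one_mem_gspan
  | succ c ih =>
    rw [pow_succ, Nat.succ_mul]
    have e : ((c + 1 : ℕ) : ℤ) * l = c * l + l := by push_cast; ring
    rw [e]
    exact gspan_mul ih hx

theorem prod_mem_gspan {ι : Type} (s : Finset ι) (d : ι → ℕ) (u : ι → ℤ)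
    (x : ι → MvPolynomial (Fin 4) K) (hx : ∀ i ∈ s, x i ∈ gspan n w f (d i) (u i)) :
    ∏ i ∈ s, x i ∈ gspan n w f (∑ i ∈ s, d i) (∑ i ∈ s, u i) := by
  classical
  induction s using Finset.induction_on with
  | empty =>
    rw [prod_empty, sum_empty, sum_empty]
    exact one_mem_gspan
  | insert a s ha ih =>
    rw [prod_insert ha, sum_insert ha, sum_insert ha]
    exact gspan_mul (hx a (mem_insert_self _ _)) (ih fun i hi => hx i (mem_insert_of_mem hi))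

end

variable {T : Datum K} {q : ℕ} {D₀ : T.X.Pt →₀ ℤ} {r : ℕ}

namespace QFilt

variable {γ : Gam T} (χ : QFilt γ q D₀ r)

theorem one_mem' : (1 : MvPolynomial (Fin 4) K) ∈ χ.F 0 0 := by
  obtain ⟨Λ, hΛ⟩ := χ.bound
  exact χ.one_mem hΛ

theorem pow_mem {N : ℕ} {l : ℤ} {x : MvPolynomial (Fin 4) K} (hx : x ∈ χ.F N l) (c : ℕ) :
    x ^ c ∈ χ.F (c * N) (c * l) := by
  induction c with
  | zero =>
    rw [pow_zero, zero_mul, Nat.cast_zero, zero_mul]
    exact χ.one_mem'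
  | succ c ih =>
    rw [pow_succ, Nat.succ_mul]
    have e : ((c + 1 : ℕ) : ℤ) * l = c * l + l := by push_cast; ring
    rw [e]
    exact χ.mul _ _ _ _ _ ih _ hx

theorem prod_mem {ι : Type} (s : Finset ι) (d : ι → ℕ) (u : ι → ℤ)
    (x : ι → MvPolynomial (Fin 4) K) (hx : ∀ i ∈ s, x i ∈ χ.F (d i) (u i)) :
    ∏ i ∈ s, x i ∈ χ.F (∑ i ∈ s, d i) (∑ i ∈ s, u i) := by
  classical
  induction s using Finset.induction_on with
  | empty =>
    rw [prod_empty, sum_empty, sum_empty]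
    exact χ.one_mem'
  | insert a s ha ih =>
    rw [prod_insert ha, sum_insert ha, sum_insert ha]
    exact χ.mul _ _ _ _ _ (hx a (mem_insert_self _ _)) _
      (ih fun i hi => hx i (mem_insert_of_mem hi))

end QFilt

theorem QTestConf.ver_fg {γ : Gam T} (χ : QTestConf γ q D₀ r) (m : ℕ) (hm : 0 < m) :
    ∃ (k : ℕ) (n : Fin k → ℕ) (w : Fin k → ℤ) (f : Fin k → MvPolynomial (Fin 4) K),
    (∀ i, f i ∈ χ.F (m * n i) (w i)) ∧
    ∀ N l, χ.F (m * N) l ≤ Submodule.span ℂ {g | ∃ a : Fin k → ℕ,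
      ∑ i, a i * n i = N ∧ l ≤ ∑ i, a i * w i ∧ g = ∏ i, f i ^ a i} := by
  classical
  obtain ⟨k, n, w, f, hf, hspan⟩ := χ.fg
  let I : Type := Fin k ⊕ {b : Fin k → Fin m // m ∣ ∑ i, (b i : ℕ) * n i}
  let φ : Fin (Fintype.card I) ≃ I := (Fintype.equivFin I).symm
  let nI : I → ℕ := fun x => Sum.elim (fun i => n i) (fun b => (∑ i, (b.1 i : ℕ) * n i) / m) x
  let wI : I → ℤ := fun x => Sum.elim (fun i => (m : ℤ) * w i)
    (fun b => ∑ i, ((b.1 i : ℕ) : ℤ) * w i) x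
  let fI : I → MvPolynomial (Fin 4) K := fun x => Sum.elim (fun i => f i ^ m)
    (fun b => ∏ i, f i ^ (b.1 i : ℕ)) x
  have hfI : ∀ x, fI x ∈ χ.F (m * nI x) (wI x) := by
    intro x
    rcases x with i | b
    · exact χ.pow_mem (hf i) m
    · show ∏ i, f i ^ (b.1 i : ℕ) ∈ χ.F (m * ((∑ i, (b.1 i : ℕ) * n i) / m))
        (∑ i, ((b.1 i : ℕ) : ℤ) * w i)
      rw [Nat.mul_div_cancel' b.2]
      exact χ.prod_mem univ _ _ _ fun i _ => χ.pow_mem (hf i) _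
  refine ⟨Fintype.card I, fun a => nI (φ a), fun a => wI (φ a), fun a => fI (φ a),
    fun a => hfI (φ a), ?_⟩
  have hgen : ∀ x : I, fI x ∈ gspan (fun a => nI (φ a)) (fun a => wI (φ a))
      (fun a => fI (φ a)) (nI x) (wI x) := by
    intro x
    have h := gen_mem_gspan (n := fun a => nI (φ a)) (w := fun a => wI (φ a))
      (f := fun a => fI (φ a)) (φ.symm x)
    have hx : φ (φ.symm x) = x := φ.apply_symm_apply x
    simp only [hx] at h
    exact h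
  intro N l
  refine (hspan (m * N) l).trans ?_
  rw [Submodule.span_le]
  rintro _ ⟨a, h1, h2, rfl⟩
  have hlt : ∀ i, a i % m < m := fun i => Nat.mod_lt _ hm
  have hdvd : m ∣ ∑ i, (a i % m) * n i := by
    have e1 : ∑ i, a i * n i = m * ∑ i, (a i / m) * n i + ∑ i, (a i % m) * n i := by
      rw [mul_sum, ← sum_add_distrib]
      refine sum_congr rfl fun i _ => ?_
      conv_lhs => rw [← Nat.div_add_mod (a i) m]
      ring
    rw [e1] at h1
    exact (Nat.dvd_add_right (Dvd.intro _ rfl)).1 (h1 ▸ Dvd.intro _ rfl)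
  let b : {b : Fin k → Fin m // m ∣ ∑ i, (b i : ℕ) * n i} := ⟨fun i => ⟨a i % m, hlt i⟩, hdvd⟩
  have e2 : ∏ i, f i ^ a i = (∏ i, fI (Sum.inl i) ^ (a i / m)) * fI (Sum.inr b) := by
    show ∏ i, f i ^ a i = (∏ i, (f i ^ m) ^ (a i / m)) * ∏ i, f i ^ (a i % m)
    rw [← prod_mul_distrib]
    refine prod_congr rfl fun i _ => ?_
    rw [← pow_mul, ← pow_add, Nat.div_add_mod]
  have h3 : (∏ i, fI (Sum.inl i) ^ (a i / m)) * fI (Sum.inr b) ∈
      gspan (fun a => nI (φ a)) (fun a => wI (φ a)) (fun a => fI (φ a))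
        (∑ i, (a i / m) * nI (Sum.inl i) + nI (Sum.inr b))
        (∑ i, ((a i / m : ℕ) : ℤ) * wI (Sum.inl i) + wI (Sum.inr b)) :=
    gspan_mul (prod_mem_gspan univ _ _ _ fun i _ => pow_mem_gspan (hgen _) _) (hgen _)
  have e3 : ∑ i, (a i / m) * nI (Sum.inl i) + nI (Sum.inr b) = N := by
    show ∑ i, (a i / m) * n i + (∑ i, (a i % m) * n i) / m = N
    have e1 : m * (∑ i, (a i / m) * n i + (∑ i, (a i % m) * n i) / m) = m * N := by
      rw [mul_add, Nat.mul_div_cancel' hdvd, ← h1, mul_sum, ← sum_add_distrib]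
      refine sum_congr rfl fun i _ => ?_
      conv_rhs => rw [← Nat.div_add_mod (a i) m]
      ring
    exact Nat.eq_of_mul_eq_mul_left hm e1
  have e4 : ∑ i, ((a i / m : ℕ) : ℤ) * wI (Sum.inl i) + wI (Sum.inr b) = ∑ i, (a i : ℤ) * w i := by
    show ∑ i, ((a i / m : ℕ) : ℤ) * (m * w i) + ∑ i, ((a i % m : ℕ) : ℤ) * w i = _
    rw [← sum_add_distrib]
    refine sum_congr rfl fun i _ => ?_
    have h5 : ((m * (a i / m) + a i % m : ℕ) : ℤ) = a i := by rw [Nat.div_add_mod]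
    rw [← h5]
    push_cast
    ring
  rw [e3, e4] at h3
  show ∏ i, f i ^ a i ∈ gspan (fun a => nI (φ a)) (fun a => wI (φ a)) (fun a => fI (φ a)) N l
  rw [e2]
  exact gspan_anti h2 h3

/-- the Veronese -/
noncomputable def QTestConf.ver {γ : Gam T} (χ : QTestConf γ q D₀ r) (m : ℕ) (hm : 0 < m) :
    QTestConf γ q D₀ (r * m) where
  F := fun N l => χ.F (m * N) l
  le := by
    intro N l
    rw [mul_assoc]
    exact χ.le (m * N) l
  anti := fun N l l' h => χ.anti (m * N) l l' h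
  mul := by
    intro N N' l l' f hf g hg
    rw [mul_add]
    exact χ.mul _ _ _ _ f hf g hg
  bound := by
    obtain ⟨Λ, hΛ⟩ := χ.bound
    refine ⟨Λ * m, fun N => ?_⟩
    have := hΛ (m * N)
    push_cast at this ⊢
    rw [mul_assoc (Λ : ℤ), mul_assoc r]
    exact this
  fg := χ.ver_fg m hm

theorem QTestConf.ver_expansion {γ : Gam T} (χ : QTestConf γ q D₀ r) {m : ℕ} (hm : 0 < m)
    {a₀ a₁ b₀ b₁ c₀ : ℝ} (h : χ.Expansion a₀ a₁ b₀ b₁ c₀) :
    (χ.ver m hm).Expansion (a₀ * m ^ 4) (a₁ * m ^ 3) (b₀ * m ^ 5) (b₁ * m ^ 4)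
      (c₀ * m ^ 6) := by
  have ht : Tendsto (fun N : ℕ => m * N) atTop atTop :=
    tendsto_atTop_mono (fun N => Nat.le_mul_of_pos_left N hm) tendsto_id
  have hdim : ∀ N, (χ.ver m hm).dimN N = χ.dimN (m * N) := by
    intro N
    unfold QFilt.dimN
    rw [mul_assoc]
  have htr : ∀ p N, (χ.ver m hm).tr p N = χ.tr p (m * N) := fun _ _ => rfl
  obtain ⟨⟨C₁, h₁⟩, ⟨C₂, h₂⟩, ⟨C₃, h₃⟩⟩ := h
  refine ⟨⟨C₁ * m ^ 2, ?_⟩, ⟨C₂ * m ^ 3, ?_⟩, ⟨C₃ * m ^ 5, ?_⟩⟩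
  · filter_upwards [ht.eventually h₁] with N hN
    rw [hdim]
    push_cast at hN
    have e1 : a₀ * (m : ℝ) ^ 4 * N ^ 4 + a₁ * m ^ 3 * N ^ 3 =
      a₀ * (m * N) ^ 4 + a₁ * (m * N) ^ 3 := by ring
    have e2 : C₁ * (m : ℝ) ^ 2 * N ^ 2 = C₁ * (m * N) ^ 2 := by ring
    rw [e1, e2]
    exact hN
  · filter_upwards [ht.eventually h₂] with N hN
    rw [htr]
    push_cast at hN
    have e1 : b₀ * (m : ℝ) ^ 5 * N ^ 5 + b₁ * m ^ 4 * N ^ 4 =
      b₀ * (m * N) ^ 5 + b₁ * (m * N) ^ 4 := by ring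
    have e2 : C₂ * (m : ℝ) ^ 3 * N ^ 3 = C₂ * (m * N) ^ 3 := by ring
    rw [e1, e2]
    exact hN
  · filter_upwards [ht.eventually h₃] with N hN
    rw [htr]
    push_cast at hN
    have e1 : c₀ * (m : ℝ) ^ 6 * N ^ 6 = c₀ * (m * N) ^ 6 := by ring
    have e2 : C₃ * (m : ℝ) ^ 5 * N ^ 5 = C₃ * (m * N) ^ 5 := by ring
    rw [e1, e2]
    exact hN

/-! ### Non-zero sections -/

theorem CurveOrd.exists_ne_zero_of_loc {X : CurveOrd K} {V : Type} [AddCommGroup V] [Module K V]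
    [Module ℂ V] [IsScalarTower ℂ K V] {P : X.Pt} {U : Submodule ℂ V} {f : V}
    (hf : f ∈ X.loc P U) (h0 : f ≠ 0) : ∃ u ∈ U, u ≠ 0 := by
  by_contra hcon
  push Not at hcon
  apply h0
  have h : X.loc P U ≤ ⊥ := by
    unfold CurveOrd.loc
    rw [Submodule.span_le]
    intro u hu
    exact hcon u hu
  exact (Submodule.mem_bot _).1 (h hf)

theorem Datum.exists_sec_ne_zero (T : Datum K) {q : ℕ} {D₀ : T.X.Pt →₀ ℤ} {N : ℕ}
    (hD : 18 * (T.t : ℤ) + 2 ≤ N * T.X.deg D₀) : ∃ f ∈ T.sec q D₀ N, f ≠ 0 := by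
  have h0 : 2 * (T.X.genus : ℤ) ≤ T.X.deg (T.dvs q D₀ N 0) := by
    rw [deg_dvs, T.genus_eq]
    have h1 : max 0 ((0 : ℤ) - 4 * q * N) = 0 := max_eq_left (by
      have : (0 : ℤ) ≤ 4 * q * N := by positivity
      linarith)
    have h2 : max 0 (-(0 : ℤ) - 4 * q * N) = 0 := max_eq_left (by
      have : (0 : ℤ) ≤ 4 * q * N := by positivity
      linarith)
    rw [h1, h2]
    push_cast
    linarith
  obtain ⟨z, hz, hz0⟩ := Submodule.exists_mem_ne_zero_of_ne_bot (T.X.L_ne_bot h0)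
  have hj : |(0 : ℤ)| ≤ 5 * q * N := by
    rw [abs_zero]
    positivity
  have hi : (⟨0, (0, 0)⟩ : (_ : ℤ) × (ℕ × ℕ)) ∈ idx q N :=
    mem_idx.2 ⟨hj, Nat.zero_le _, Nat.zero_le _⟩
  refine ⟨monomial (uexpo q N ⟨0, (0, 0)⟩) z, ?_, ?_⟩
  · rw [sec_eq_bigr]
    exact monomial_mem_bigr hj (expo_x hi) (expo_y hi) hz
  · rw [Ne, monomial_eq_zero]
    exact hz0

end Pool.Agent.YTD
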