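import Pool.Agent.YTD.RedFut
import Pool.Agent.YTD.RedTriv

/-!
Test configurations of the quotient with reduced central fibre: the Futaki invariant vanishes
exactly for the trivial ones.
-/

namespace Pool.Agent.YTD

open Finset Module MvPolynomial Filter

variable {K : Type} [Field K] [Algebra ℂ K]
variable {T : Datum K} {q : ℕ} {D₀ : T.X.Pt →₀ ℤ} {r : ℕ} {γ : Gam T}

theorem QTestConf.ver_reduced (χ : QTestConf γ q D₀ r) (hred : χ.Reduced) {m : ℕ} (hm : 0 < m) :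
    (χ.ver m hm).Reduced := by
  intro N l f hf k hk hfk
  refine hred (m * N) l f hf k hk ?_
  have e : k * (m * N) = m * (k * N) := by ring
  rw [e]
  exact hfk

/-- The dimension grows at least like a multiple of `N⁴`. -/
theorem QTestConf.exists_growth (χ : QTestConf γ q D₀ r) (hfix : γ.Fixes D₀)
    (hD : T.X.deg D₀ = 105 * T.t * q) (hq : 0 < q) (hr : 0 < r)
    {a₀ a₁ b₀ b₁ c₀ : ℝ} (hE : χ.Expansion a₀ a₁ b₀ b₁ c₀) :
    ∃ a : ℝ, 0 < a ∧ ∃ N₁ : ℕ, ∀ N : ℕ, N₁ ≤ N →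
      a * (N : ℝ) ^ 4 ≤ finrank ℂ (γ.secQ q D₀ (r * N)) := by
  obtain ⟨ha0, ha1⟩ := χ.a_signs hfix hD hq hr hE
  obtain ⟨⟨C, hC⟩, _, _⟩ := hE
  refine ⟨a₀ / 2, half_pos ha0, ?_⟩
  obtain ⟨n₀, hn₀⟩ := exists_nat_gt (2 * |C| / a₀)
  have hev : ∀ᶠ N : ℕ in atTop, a₀ / 2 * (N : ℝ) ^ 4 ≤ finrank ℂ (γ.secQ q D₀ (r * N)) := by
    filter_upwards [hC, eventually_ge_atTop (max n₀ 1)] with N hN hN1
    have h1 : (n₀ : ℝ) ≤ N := by exact_mod_cast (le_max_left _ _).trans hN1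
    have h1' : (1 : ℝ) ≤ N := by exact_mod_cast (le_max_right _ _).trans hN1
    have h2 : 2 * |C| < a₀ * N := by
      rw [div_lt_iff₀ ha0] at hn₀
      nlinarith
    rw [ha1, zero_mul, add_zero] at hN
    have h3 := (abs_le.1 hN).1
    have h4 : C * (N : ℝ) ^ 2 ≤ |C| * N ^ 2 := by
      have := le_abs_self C
      gcongr
    have h5 : |C| * (N : ℝ) ^ 2 ≤ a₀ / 2 * N ^ 4 := by
      have h6 : (N : ℝ) ≤ N ^ 2 := by nlinarith
      have h7 : |C| ≤ a₀ / 2 * N ^ 2 := by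
        have : a₀ / 2 * N ≤ a₀ / 2 * (N : ℝ) ^ 2 := by gcongr
        linarith
      calc |C| * (N : ℝ) ^ 2 ≤ a₀ / 2 * N ^ 2 * N ^ 2 := by gcongr
        _ = _ := by ring
    have h8 : χ.dimN N = finrank ℂ (γ.secQ q D₀ (r * N)) := rfl
    rw [← h8]
    linarith
  exact eventually_atTop.1 hev

/-- A test configuration of the quotient with reduced central fibre has Futaki invariant zero if
and only if it is trivial. -/
theorem QTestConf.reduced_fut (χ : QTestConf γ q D₀ r) (hfix : γ.Fixes D₀)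
    (hD : T.X.deg D₀ = 105 * T.t * q) (hq : 0 < q) (hr : 0 < r) (hred : χ.Reduced)
    {a₀ a₁ b₀ b₁ c₀ : ℝ} (hE : χ.Expansion a₀ a₁ b₀ b₁ c₀) :
    (a₁ * b₀ - a₀ * b₁) / a₀ ^ 2 = 0 ↔
      ∃ c : ℤ, ∀ (N : ℕ) (l : ℤ), χ.F N l = if l ≤ c * N then γ.secQ q D₀ (r * N) else ⊥ := by
  constructor
  · intro hfut
    have h8 : (8 : ℕ) ≤ r * 8 := Nat.le_mul_of_pos_left 8 hr
    have hm : 0 < 8 := by norm_num
    obtain ⟨_, c, h1, _, C, h2⟩ := χ.deficit_ver hfix hD hq hr hm h8 hE hfut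
    have hE8 := χ.ver_expansion (m := 8) hm hE
    obtain ⟨a, ha, N₁, h3⟩ := (χ.ver 8 hm).exists_growth hfix hD hq (by omega) hE8
    have h4 := (χ.ver 8 hm).trivial_of_deficit hq (by omega) (χ.ver_reduced hred hm) h1 h2 ha h3
    refine χ.toQFilt.trivial_of_ver hfix hD hq hr hm ?_ (c := c) ?_
    · intro N l f hf hf' k hk hfk
      exact hf' (hred N l f hf k hk hfk)
    · intro N l
      have h5 := h4 N l
      rw [mul_assoc] at h5
      exact h5
  · rintro ⟨c, hc⟩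
    exact (χ.toQFilt.fut_trivial hc hE).1

end Pool.Agent.YTD
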