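import Pool.Agent.YTD.Semi

/-!
Numerical doubling inequality for superadditive families (used in the equality analysis).
-/

namespace Pool.Agent.YTD

open Finset Filter

/-- the weighted sum -/
noncomputable def XX (q L : ℕ) (u : ℤ → ℝ) : ℝ :=
  ∑ i ∈ range (2 * (5 * q * L) + 1), Wt q L ((i : ℤ) - (5 * q * L : ℕ)) *
    u ((i : ℤ) - (5 * q * L : ℕ))

theorem XX_double (t q L : ℕ) (hq : 0 < q) (hL : 0 < L) (R : ℝ) (n n' : ℤ → ℝ)
    (hn0 : ∀ j : ℤ, |j| ≤ 5 * q * L → 0 ≤ n j) (hnR : ∀ j : ℤ, |j| ≤ 5 * q * L → n j ≤ R)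
    (h0 : ∀ j : ℤ, |j| ≤ 5 * q * L → 2 * n j ≤ n' (2 * j))
    (h1 : ∀ j : ℤ, |j| ≤ 5 * q * L → |j + 1| ≤ 5 * q * L → n j + n (j + 1) ≤ n' (2 * j + 1)) :
    32 * XX q L (fun j => (dg t q L j : ℝ) * n j) - 600000 * t * (q : ℝ) ^ 2 * (L : ℝ) ^ 2 * R ≤
      XX q (2 * L) (fun j => (dg t q (2 * L) j : ℝ) * n' j) := by
  set u : ℤ → ℝ := fun j => (dg t q L j : ℝ) * n j with hu
  set u' : ℤ → ℝ := fun j => (dg t q (2 * L) j : ℝ) * n' j with hu'
  set Q : ℕ := q * L with hQ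
  have hQ1 : 1 ≤ Q := Nat.mul_pos hq hL
  have hQr : (1 : ℝ) ≤ Q := by exact_mod_cast hQ1
  have hQc : (Q : ℝ) = q * L := by rw [hQ]; push_cast; ring
  have hQz : (Q : ℤ) = q * L := by rw [hQ]; push_cast; ring
  have hM : 5 * q * L = 5 * Q := by rw [hQ]; ring
  have hR0 : 0 ≤ R := (hn0 0 (by rw [abs_zero]; positivity)).trans
    (hnR 0 (by rw [abs_zero]; positivity))
  have hd0 : ∀ j : ℤ, |j| ≤ 5 * q * L → (0 : ℝ) ≤ dg t q L j := by
    intro j hj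
    have : (0 : ℤ) ≤ dg t q L j := le_trans (by positivity) (le_dg hj)
    exact_mod_cast this
  have hd1 : ∀ j : ℤ, (dg t q L j : ℝ) ≤ 105 * t * q * L := by
    intro j
    exact_mod_cast dg_le t q L j
  have hu0 : ∀ j : ℤ, |j| ≤ 5 * q * L → 0 ≤ u j := fun j hj => mul_nonneg (hd0 j hj) (hn0 j hj)
  have huR : ∀ j : ℤ, |j| ≤ 5 * q * L → u j ≤ R * (105 * t * q * L) := by
    intro j hj
    calc u j ≤ (105 * t * q * L) * R := mul_le_mul (hd1 j) (hnR j hj) (hn0 j hj) (by positivity)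
      _ = _ := by ring
  have rg2 : ∀ j : ℤ, |j| ≤ 5 * q * L → |2 * j| ≤ 5 * q * ((2 * L : ℕ) : ℤ) := by
    intro j hj
    rw [abs_mul, show |(2 : ℤ)| = 2 by rfl]
    push_cast
    linarith
  have rg3 : ∀ j : ℤ, |j| ≤ 5 * q * L → |j + 1| ≤ 5 * q * L →
      |2 * j + 1| ≤ 5 * q * ((2 * L : ℕ) : ℤ) := by
    intro j hj hj'
    rw [abs_le] at hj hj' ⊢
    push_cast
    constructor <;> linarith
  have hd0' : ∀ j : ℤ, |j| ≤ 5 * q * ((2 * L : ℕ) : ℤ) → (0 : ℝ) ≤ dg t q (2 * L) j := by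
    intro j hj
    have : (0 : ℤ) ≤ dg t q (2 * L) j := le_trans (by positivity) (le_dg hj)
    exact_mod_cast this
  -- even step
  have ev : ∀ j : ℤ, |j| ≤ 5 * q * L → 4 * u j ≤ u' (2 * j) := by
    intro j hj
    have h := mul_le_mul_of_nonneg_left (h0 j hj) (hd0' _ (rg2 j hj))
    simp only [hu, hu']
    refine le_trans (le_of_eq ?_) h
    rw [dg_double]
    push_cast
    ring
  -- odd step
  have od : ∀ j : ℤ, |j| ≤ 5 * q * L → |j + 1| ≤ 5 * q * L →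
      2 * u j + 2 * u (j + 1) -
        (n j - n (j + 1)) * ((dg t q L j - dg t q L (j + 1) : ℤ) : ℝ) ≤
      u' (2 * j + 1) := by
    intro j hj hj'
    have h := mul_le_mul_of_nonneg_left (h1 j hj hj') (hd0' _ (rg3 j hj hj'))
    simp only [hu, hu']
    refine le_trans (le_of_eq ?_) h
    rw [dg_double_succ]
    push_cast
    ring
  -- the sum at level 2L
  have S1 : XX q (2 * L) u' = ∑ i ∈ range (4 * (5 * Q) + 1),
      (fun j : ℤ => Wt q (2 * L) j * u' j) ((i : ℤ) - 2 * ((5 * Q : ℕ) : ℤ)) := by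
    unfold XX
    have e : 5 * q * (2 * L) = 2 * (5 * Q) := by rw [hQ]; ring
    rw [e, show 2 * (2 * (5 * Q)) + 1 = 4 * (5 * Q) + 1 by ring]
    apply sum_congr rfl
    intro i _
    simp only
    congr 2
  rw [S1, sum_split (5 * Q) (fun j : ℤ => Wt q (2 * L) j * u' j)]
  -- ranges
  have rng : ∀ i ∈ range (2 * (5 * Q) + 1), |(i : ℤ) - (5 * Q : ℕ)| ≤ 5 * q * L := by
    intro i hi
    have := mem_range.1 hi
    have e : (5 * (q : ℤ) * L) = 5 * Q := by rw [hQz]; ring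
    rw [e, abs_le]
    push_cast
    constructor <;> omega
  have rng' : ∀ i ∈ range (2 * (5 * Q)), |(i : ℤ) - (5 * Q : ℕ)| ≤ 5 * q * L ∧
      |(i : ℤ) - (5 * Q : ℕ) + 1| ≤ 5 * q * L := by
    intro i hi
    have := mem_range.1 hi
    have e : (5 * (q : ℤ) * L) = 5 * Q := by rw [hQz]; ring
    rw [e, abs_le, abs_le]
    push_cast
    constructor <;> constructor <;> omega
  have wpos : ∀ j : ℤ, |j| ≤ 5 * q * L → 0 ≤ Wt q (2 * L) (2 * j) := by
    intro j hj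
    apply Wt_nonneg
    rw [abs_mul]
    push_cast
    rw [show |(2 : ℤ)| = 2 by rfl]
    linarith
  have wmid : ∀ j : ℤ, |j| ≤ 5 * q * L → |j + 1| ≤ 5 * q * L →
      Wt q (2 * L) (2 * j + 1) = 2500 * (Q : ℝ) ^ 2 - 9 * (2 * (j : ℝ) + 1) ^ 2 := by
    intro j hj hj'
    rw [Wt_mid]
    · push_cast
      rw [hQc]
      ring
    · rw [abs_le] at hj hj'
      push_cast
      have e : 5 * (q : ℤ) * (2 * L) = 2 * (5 * q * L) := by ring
      rw [e]
      generalize 5 * (q : ℤ) * L = u at *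
      intro h
      rcases abs_cases (2 * j + 1) with ⟨h1, _⟩ | ⟨h1, _⟩ <;> rw [h1] at h <;> omega
  have wmidpos : ∀ j : ℤ, |j| ≤ 5 * q * L → |j + 1| ≤ 5 * q * L →
      0 ≤ Wt q (2 * L) (2 * j + 1) := by
    intro j hj hj'
    apply Wt_nonneg
    rw [abs_le] at hj hj' ⊢
    push_cast
    constructor <;> linarith
  -- lower bounds of the two sums
  have E1 : ∑ i ∈ range (2 * (5 * Q) + 1), 4 * Wt q (2 * L) (2 * ((i : ℤ) - (5 * Q : ℕ))) *
      u ((i : ℤ) - (5 * Q : ℕ)) ≤ ∑ i ∈ range (2 * (5 * Q) + 1),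
      Wt q (2 * L) (2 * ((i : ℤ) - (5 * Q : ℕ))) * u' (2 * ((i : ℤ) - (5 * Q : ℕ))) := by
    apply sum_le_sum
    intro i hi
    have := mul_le_mul_of_nonneg_left (ev _ (rng i hi)) (wpos _ (rng i hi))
    linarith
  have E2 : ∑ i ∈ range (2 * (5 * Q)), Wt q (2 * L) (2 * ((i : ℤ) - (5 * Q : ℕ)) + 1) *
      (2 * u ((i : ℤ) - (5 * Q : ℕ)) + 2 * u ((i : ℤ) - (5 * Q : ℕ) + 1) -
        (n ((i : ℤ) - (5 * Q : ℕ)) - n ((i : ℤ) - (5 * Q : ℕ) + 1)) *
          ((dg t q L ((i : ℤ) - (5 * Q : ℕ)) - dg t q L ((i : ℤ) - (5 * Q : ℕ) + 1) : ℤ) : ℝ)) ≤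
      ∑ i ∈ range (2 * (5 * Q)),
      Wt q (2 * L) (2 * ((i : ℤ) - (5 * Q : ℕ)) + 1) * u' (2 * ((i : ℤ) - (5 * Q : ℕ)) + 1) := by
    apply sum_le_sum
    intro i hi
    exact mul_le_mul_of_nonneg_left (od _ (rng' i hi).1 (rng' i hi).2)
      (wmidpos _ (rng' i hi).1 (rng' i hi).2)
  refine le_trans ?_ (add_le_add E1 E2)
  -- correction term
  have C1 := corr_le t Q R n
    (fun j hj => hn0 j (by rw [show (5 * (q : ℤ) * L) = 5 * Q by rw [hQz]; ring]; exact hj))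
    (fun j hj => hnR j (by rw [show (5 * (q : ℤ) * L) = 5 * Q by rw [hQz]; ring]; exact hj))
    (fun j => ((dg t q L j - dg t q L (j + 1) : ℤ) : ℝ))
    (by
      intro j
      rw [dg_diff, show 4 * (q : ℤ) * L = 4 * (Q : ℤ) by rw [hQz]; ring]
      push_cast
      rfl)
  -- split the second sum
  have E3 : ∑ i ∈ range (2 * (5 * Q)), Wt q (2 * L) (2 * ((i : ℤ) - (5 * Q : ℕ)) + 1) *
      (2 * u ((i : ℤ) - (5 * Q : ℕ)) + 2 * u ((i : ℤ) - (5 * Q : ℕ) + 1) -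
        (n ((i : ℤ) - (5 * Q : ℕ)) - n ((i : ℤ) - (5 * Q : ℕ) + 1)) *
          ((dg t q L ((i : ℤ) - (5 * Q : ℕ)) - dg t q L ((i : ℤ) - (5 * Q : ℕ) + 1) : ℤ) : ℝ)) =
      (∑ i ∈ range (2 * (5 * Q)), (2 * Wt q (2 * L) (2 * ((i : ℤ) - (5 * Q : ℕ)) + 1)) *
        u ((i : ℤ) - (5 * Q : ℕ)) +
      ∑ i ∈ range (2 * (5 * Q)), (2 * Wt q (2 * L) (2 * ((i : ℤ) - (5 * Q : ℕ)) + 1)) *
        u (((i + 1 : ℕ) : ℤ) - (5 * Q : ℕ))) -
      ∑ i ∈ range (2 * (5 * Q)),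
        (2500 * (Q : ℝ) ^ 2 - 9 * (2 * (((i : ℤ) - (5 * Q : ℕ) : ℤ) : ℝ) + 1) ^ 2) *
        ((n ((i : ℤ) - (5 * Q : ℕ)) - n ((i : ℤ) - (5 * Q : ℕ) + 1)) *
          ((dg t q L ((i : ℤ) - (5 * Q : ℕ)) - dg t q L ((i : ℤ) - (5 * Q : ℕ) + 1) : ℤ) : ℝ)) := by
    rw [← sum_add_distrib, ← sum_sub_distrib]
    apply sum_congr rfl
    intro i hi
    rw [wmid _ (rng' i hi).1 (rng' i hi).2]
    rw [show (((i + 1 : ℕ) : ℤ) - (5 * Q : ℕ)) = ((i : ℤ) - (5 * Q : ℕ)) + 1 by push_cast; ring]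
    ring
  rw [E3, sum_shift (2 * (5 * Q)) (fun i => 2 * Wt q (2 * L) (2 * ((i : ℤ) - (5 * Q : ℕ)) + 1))
    (fun i => u ((i : ℤ) - (5 * Q : ℕ)))]
  -- main comparison
  have E4 : ∑ i ∈ range (2 * (5 * Q) + 1), (32 * Wt q L ((i : ℤ) - (5 * Q : ℕ)) - 36) *
      u ((i : ℤ) - (5 * Q : ℕ)) ≤
      ∑ i ∈ range (2 * (5 * Q) + 1), 4 * Wt q (2 * L) (2 * ((i : ℤ) - (5 * Q : ℕ))) *
      u ((i : ℤ) - (5 * Q : ℕ)) +
      ∑ i ∈ range (2 * (5 * Q) + 1),
      ((if i < 2 * (5 * Q) then (fun i : ℕ => 2 * Wt q (2 * L) (2 * ((i : ℤ) - (5 * Q : ℕ)) + 1)) i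
        else 0) +
       (if 0 < i then (fun i : ℕ => 2 * Wt q (2 * L) (2 * ((i : ℤ) - (5 * Q : ℕ)) + 1)) (i - 1)
        else 0)) * (fun i : ℕ => u ((i : ℤ) - (5 * Q : ℕ))) i := by
    rw [← sum_add_distrib]
    apply sum_le_sum
    intro i hi
    have hi' := mem_range.1 hi
    have hub := hu0 _ (rng i hi)
    rw [← add_mul]
    apply mul_le_mul_of_nonneg_right _ hub
    simp only
    have hi0 : (i : ℝ) ≤ 10 * Q := by
      have : i ≤ 10 * Q := by omega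
      exact_mod_cast this
    rcases Nat.eq_zero_or_pos i with h0 | h0
    · -- left end
      subst h0
      rw [if_pos (by omega), if_neg (lt_irrefl 0)]
      have ea : |((0 : ℕ) : ℤ) - (5 * Q : ℕ)| = 5 * q * L := by
        rw [show (5 * (q : ℤ) * L) = 5 * Q by rw [hQz]; ring]
        push_cast
        rw [zero_sub, abs_neg, abs_of_nonneg (by positivity)]
      have eb : |2 * (((0 : ℕ) : ℤ) - (5 * Q : ℕ))| = 5 * q * ((2 * L : ℕ) : ℤ) := by
        rw [abs_mul, ea]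
        push_cast
        rw [show |(2 : ℤ)| = 2 by rfl]
        ring
      rw [Wt_end ea, Wt_end eb, wmid _ (rng' 0 (mem_range.2 (by omega))).1
        (rng' 0 (mem_range.2 (by omega))).2]
      push_cast
      rw [hQc] at hQr ⊢
      nlinarith
    · rcases Nat.lt_or_ge i (2 * (5 * Q)) with h1 | h1
      · -- interior
        rw [if_pos h1, if_pos h0]
        have hne : ∀ k : ℕ, 0 < k → k < 2 * (5 * Q) → |(k : ℤ) - (5 * Q : ℕ)| ≠ 5 * q * L := by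
          intro k hk hk' h
          rw [show (5 * (q : ℤ) * L) = 5 * Q by rw [hQz]; ring] at h
          push_cast at h
          rcases abs_cases ((k : ℤ) - 5 * Q) with ⟨h2, _⟩ | ⟨h2, _⟩ <;> rw [h2] at h <;> omega
        have hne2 : |2 * ((i : ℤ) - (5 * Q : ℕ))| ≠ 5 * q * ((2 * L : ℕ) : ℤ) := by
          intro h
          apply hne i h0 h1
          rw [abs_mul, show |(2 : ℤ)| = 2 by rfl] at h
          push_cast at h ⊢
          linarith
        rw [Wt_mid (hne i h0 h1), Wt_mid hne2, wmid _ (rng' i (mem_range.2 h1)).1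
          (rng' i (mem_range.2 h1)).2, wmid _ (rng' (i - 1) (mem_range.2 (by omega))).1
          (rng' (i - 1) (mem_range.2 (by omega))).2]
        rw [show (((i - 1 : ℕ) : ℤ) - (5 * Q : ℕ)) = ((i : ℤ) - (5 * Q : ℕ)) - 1 by
          push_cast [Nat.cast_sub (show 1 ≤ i by omega)]; ring]
        push_cast
        rw [hQc]
        nlinarith
      · -- right end
        have hi2 : i = 2 * (5 * Q) := by omega
        subst hi2
        rw [if_neg (lt_irrefl _), if_pos h0]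
        have ea : |((2 * (5 * Q) : ℕ) : ℤ) - (5 * Q : ℕ)| = 5 * q * L := by
          rw [show (5 * (q : ℤ) * L) = 5 * Q by rw [hQz]; ring]
          push_cast
          rw [show (2 : ℤ) * (5 * Q) - 5 * Q = 5 * Q by ring, abs_of_nonneg (by positivity)]
        have eb : |2 * (((2 * (5 * Q) : ℕ) : ℤ) - (5 * Q : ℕ))| = 5 * q * ((2 * L : ℕ) : ℤ) := by
          rw [abs_mul, ea]
          push_cast
          rw [show |(2 : ℤ)| = 2 by rfl]
          ring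
        rw [Wt_end ea, Wt_end eb, wmid _ (rng' (2 * (5 * Q) - 1) (mem_range.2 (by omega))).1
          (rng' (2 * (5 * Q) - 1) (mem_range.2 (by omega))).2]
        rw [show (((2 * (5 * Q) - 1 : ℕ) : ℤ) - (5 * Q : ℕ)) = 5 * (Q : ℤ) - 1 by
          rw [Nat.cast_sub (show 1 ≤ 2 * (5 * Q) by omega)]; push_cast; ring]
        push_cast
        rw [hQc] at hQr ⊢
        nlinarith
  -- the error term
  have E5 : ∑ i ∈ range (2 * (5 * Q) + 1), 36 * u ((i : ℤ) - (5 * Q : ℕ)) ≤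
      36 * ((11 * Q) * (R * (105 * t * q * L))) := by
    rw [← mul_sum]
    apply mul_le_mul_of_nonneg_left _ (by norm_num)
    have : ∑ i ∈ range (2 * (5 * Q) + 1), u ((i : ℤ) - (5 * Q : ℕ)) ≤
        ∑ _i ∈ range (2 * (5 * Q) + 1), (R * (105 * t * q * L)) :=
      sum_le_sum fun i hi => huR _ (rng i hi)
    rw [sum_const, card_range, nsmul_eq_mul] at this
    refine this.trans ?_
    apply mul_le_mul_of_nonneg_right _ (by positivity)
    push_cast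
    linarith
  have E6 : XX q L u = ∑ i ∈ range (2 * (5 * Q) + 1), Wt q L ((i : ℤ) - (5 * Q : ℕ)) *
      u ((i : ℤ) - (5 * Q : ℕ)) := by
    unfold XX
    rw [hM]
  have E7 : ∑ i ∈ range (2 * (5 * Q) + 1), (32 * Wt q L ((i : ℤ) - (5 * Q : ℕ)) - 36) *
      u ((i : ℤ) - (5 * Q : ℕ)) = 32 * XX q L u -
      ∑ i ∈ range (2 * (5 * Q) + 1), 36 * u ((i : ℤ) - (5 * Q : ℕ)) := by
    rw [E6, mul_sum, ← sum_sub_distrib]
    apply sum_congr rfl
    intro i _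
    ring
  rw [E7] at E4
  have hfin : 36 * ((11 * (Q : ℝ)) * (R * (105 * t * q * L))) +
      500000 * t * (Q : ℝ) ^ 2 * R ≤
      600000 * t * (q : ℝ) ^ 2 * (L : ℝ) ^ 2 * R := by
    rw [hQc]
    have : (0 : ℝ) ≤ t * (q : ℝ) ^ 2 * (L : ℝ) ^ 2 * R := by positivity
    nlinarith
  linarith

end Pool.Agent.YTD
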