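import Pool.Agent.YTD.Rigid9

/-!
Piecewise affine functions with kinks only at an irrational place.
-/

namespace Pool.Agent.YTD

open Finset Filter

/-- a sequence with vanishing second differences is affine. -/
theorem affine_of {f : ℤ → ℝ} {a b : ℤ} (c : ℤ) (hc : a ≤ c) (hc' : c + 1 ≤ b)
    (h : ∀ j, a < j → j < b → f (j - 1) + f (j + 1) = 2 * f j) :
    ∀ j, a ≤ j → j ≤ b → f j = f c + (j - c) * (f (c + 1) - f c) := by
  have up : ∀ n : ℕ, c + 1 + n ≤ b → f (c + n) = f c + n * (f (c + 1) - f c) ∧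
      f (c + 1 + n) = f c + (n + 1) * (f (c + 1) - f c) := by
    intro n
    induction n with
    | zero => intro _; simp
    | succ n ih =>
      intro hn
      push_cast at hn
      obtain ⟨h1, h2⟩ := ih (by omega)
      have h3 := h (c + 1 + n) (by omega) (by omega)
      have e1 : c + 1 + (n : ℤ) - 1 = c + n := by ring
      have e2 : c + 1 + (n : ℤ) + 1 = c + 1 + ((n + 1 : ℕ) : ℤ) := by push_cast; ring
      have e3 : c + ((n + 1 : ℕ) : ℤ) = c + 1 + n := by push_cast; ring
      rw [e1, e2, h1, h2] at h3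
      rw [e3, h2]
      push_cast
      constructor
      · ring
      · have e4 : c + 1 + ((n : ℤ) + 1) = c + 1 + ((n + 1 : ℕ) : ℤ) := by push_cast; ring
        rw [e4]
        linarith
  have dn : ∀ n : ℕ, a ≤ c - n → f (c - n) = f c - n * (f (c + 1) - f c) ∧
      f (c - n + 1) = f c - (n - 1) * (f (c + 1) - f c) := by
    intro n
    induction n with
    | zero => intro _; simp
    | succ n ih =>
      intro hn
      push_cast at hn
      obtain ⟨h1, h2⟩ := ih (by omega)
      have h3 := h (c - n) (by omega) (by omega)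
      have e1 : c - (n : ℤ) - 1 = c - ((n + 1 : ℕ) : ℤ) := by push_cast; ring
      have e3 : c - ((n + 1 : ℕ) : ℤ) + 1 = c - n := by push_cast; ring
      rw [e1, h1, h2] at h3
      rw [e3, h1]
      constructor
      · push_cast at h3 ⊢
        linarith
      · push_cast
        ring
  intro j hj hj'
  rcases le_total c j with hcj | hcj
  · obtain ⟨n, rfl⟩ : ∃ n : ℕ, j = c + n := ⟨(j - c).toNat, by omega⟩
    rcases Nat.eq_zero_or_pos n with rfl | hn
    · simp
    · obtain ⟨n', rfl⟩ : ∃ n', n = n' + 1 := ⟨n - 1, by omega⟩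
      have := (up n' (by push_cast at hj'; omega)).2
      have e3 : c + ((n' + 1 : ℕ) : ℤ) = c + 1 + n' := by push_cast; ring
      rw [e3, this]
      push_cast
      ring
  · obtain ⟨n, rfl⟩ : ∃ n : ℕ, j = c - n := ⟨(c - j).toNat, by omega⟩
    have := (dn n hj).1
    rw [this]
    push_cast
    ring

/-- `125 x² = 9 y²` has no solutions. -/
theorem no_sol {x y : ℤ} (hx : x ≠ 0) : 9 * y ^ 2 ≠ 125 * x ^ 2 := by
  intro h
  have h5 : ∀ n : ℕ, ∀ x y : ℤ, x.natAbs ≤ n → x ≠ 0 → 9 * y ^ 2 ≠ 5 * x ^ 2 := by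
    intro n
    induction n with
    | zero =>
      intro x y hn hx0
      exfalso
      apply hx0
      omega
    | succ n ih =>
      intro x y hn hx0 he
      have hy : (5 : ℤ) ∣ y := by
        have h1 : (5 : ℤ) ∣ 9 * y ^ 2 := ⟨x ^ 2, he⟩
        have h2 : (5 : ℤ) ∣ y ^ 2 := by
          apply (IsCoprime.dvd_of_dvd_mul_left _ h1)
          exact ⟨2, -1, by norm_num⟩
        exact Int.Prime.dvd_pow' (by norm_num) h2
      obtain ⟨y', rfl⟩ := hy
      have h3 : x ^ 2 = 5 * (9 * y' ^ 2) := by linarith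
      have hx5 : (5 : ℤ) ∣ x := Int.Prime.dvd_pow' (by norm_num) (Dvd.intro _ h3.symm)
      obtain ⟨x', rfl⟩ := hx5
      have hx0' : x' ≠ 0 := by
        rintro rfl
        exact hx0 (by ring)
      exact ih x' y' (by omega) hx0' (by linarith)
  exact h5 _ (5 * x) y le_rfl (by omega) (by linarith)

/-- The pieces of `u`. -/
theorem pieces {Q : ℕ} (hQ : 4 ≤ Q) {u : ℕ → ℤ → ℝ}
    (hom : ∀ (k : ℕ) (j : ℤ), |j| < 5 * Q * 2 ^ k → u (k + 1) (2 * j) = 2 * u k j)
    (Hk : ∀ (k : ℕ) (j : ℤ), |j| + 1 < 5 * Q * 2 ^ k →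
      (∀ x : ℝ, |x - j| ≤ 1 → 9 * x ^ 2 ≠ 125 * ((Q : ℝ) * 2 ^ k) ^ 2) →
      u k (j - 1) + u k (j + 1) = 2 * u k j) :
    ∃ γ δ γ' δ' : ℝ, (∀ (k : ℕ) (j : ℤ), 9 * j ^ 2 < 125 * ((Q : ℤ) * 2 ^ k) ^ 2 →
      u k j = γ * j + δ * 2 ^ k) ∧
      (∀ (k : ℕ) (j : ℤ), 0 < j → 125 * ((Q : ℤ) * 2 ^ k) ^ 2 < 9 * j ^ 2 → j < 5 * Q * 2 ^ k →
      u k j = γ' * j + δ' * 2 ^ k) := by
  have hQk : ∀ k : ℕ, (4 : ℤ) ≤ Q * 2 ^ k := by
    intro k
    have h1 : (4 : ℤ) ≤ Q := by exact_mod_cast hQ
    have h2 : (1 : ℤ) ≤ 2 ^ k := one_le_pow₀ (by norm_num)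
    nlinarith
  refine ⟨u 0 1 - u 0 0, u 0 0, u 0 (4 * Q + 1) - u 0 (4 * Q),
    u 0 (4 * Q) - 4 * Q * (u 0 (4 * Q + 1) - u 0 (4 * Q)), ?_, ?_⟩
  · have h1 : ∀ k : ℕ, u k 0 = 2 ^ k * u 0 0 := by
      intro k
      induction k with
      | zero => simp
      | succ k ih =>
        have := hom k 0 (by rw [abs_zero]; linarith [hQk k])
        rw [mul_zero, ih] at this
        rw [this, pow_succ]
        ring
    -- affine in the middle
    have mid : ∀ (k : ℕ) (j : ℤ), 9 * j ^ 2 < 125 * ((Q : ℤ) * 2 ^ k) ^ 2 →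
        u k j = u k 0 + j * (u k 1 - u k 0) := by
      intro k j hj
      set X : ℤ := Q * 2 ^ k with hX
      have hX4 := hQk k
      rw [← hX] at hX4
      have gen : ∀ M : ℤ, 1 ≤ M → 9 * M ^ 2 < 125 * X ^ 2 → ∀ j, -M ≤ j → j ≤ M →
          u k j = u k 0 + j * (u k 1 - u k 0) := by
        intro M hM hMX j hj1 hj2
        have := affine_of (f := u k) (a := -M) (b := M) 0 (by linarith) (by linarith) (by
          intro i hi1 hi2
          have hMX5 : M < 5 * X := by nlinarith
          have hi : |i| + 1 ≤ M := by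
            rcases abs_cases i with ⟨h2, _⟩ | ⟨h2, _⟩ <;> rw [h2] <;> omega
          apply Hk
          · rw [mul_assoc, ← hX]; linarith
          · intro x hx he
            have h3 : |x| ≤ M := by
              have h4 : |x| ≤ |x - i| + |(i : ℝ)| := by
                have := abs_add_le (x - i) (i : ℝ)
                rwa [sub_add_cancel] at this
              have h5 : |(i : ℝ)| + 1 ≤ M := by exact_mod_cast hi
              linarith
            have h6 : x ^ 2 ≤ (M : ℝ) ^ 2 := sq_le_sq' (by linarith [(abs_le.1 h3).1])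
              (abs_le.1 h3).2
            have h7 : 9 * (M : ℝ) ^ 2 < 125 * ((Q : ℝ) * 2 ^ k) ^ 2 := by
              rw [hX] at hMX
              exact_mod_cast hMX
            linarith) j hj1 hj2
        rw [this]
        push_cast
        ring_nf
      rcases lt_or_ge |j| 1 with h0 | h0
      · have : j = 0 := by
          rw [abs_lt] at h0
          omega
        rw [this]
        simp
      · exact gen |j| h0 (by rw [sq_abs]; exact hj) j (neg_abs_le j) (le_abs_self j)
    have h2 : ∀ k : ℕ, u k 1 - u k 0 = u 0 1 - u 0 0 := by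
      intro k
      induction k with
      | zero => rfl
      | succ k ih =>
        have h3 := hom k 1 (by rw [abs_one]; linarith [hQk k])
        have h4 := hom k 0 (by rw [abs_zero]; linarith [hQk k])
        have h5 := mid (k + 1) 2 (by nlinarith [hQk (k + 1)])
        rw [mul_one] at h3
        rw [mul_zero] at h4
        push_cast at h5
        rw [h3] at h5
        linarith
    intro k j hj
    rw [mid k j hj, h2 k, h1 k]
    ring
  · have h1 : ∀ k : ℕ, u k (4 * Q * 2 ^ k) = 2 ^ k * u 0 (4 * Q) := by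
      intro k
      induction k with
      | zero => simp
      | succ k ih =>
        have := hom k (4 * Q * 2 ^ k) (by
          rw [abs_of_nonneg (by positivity)]
          linarith [hQk k])
        rw [ih] at this
        have e : 2 * (4 * (Q : ℤ) * 2 ^ k) = 4 * Q * 2 ^ (k + 1) := by rw [pow_succ]; ring
        rw [e] at this
        rw [this, pow_succ]
        ring
    -- affine on the right
    have rt : ∀ (k : ℕ) (j : ℤ), 0 < j → 125 * ((Q : ℤ) * 2 ^ k) ^ 2 < 9 * j ^ 2 →
        j < 5 * Q * 2 ^ k → u k j = u k (4 * Q * 2 ^ k) + (j - 4 * Q * 2 ^ k) *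
          (u k (4 * Q * 2 ^ k + 1) - u k (4 * Q * 2 ^ k)) := by
      intro k j hj0 hj hj5
      set X : ℤ := Q * 2 ^ k with hX
      have hX4 := hQk k
      rw [← hX] at hX4
      have e4 : 4 * (Q : ℤ) * 2 ^ k = 4 * X := by rw [hX]; ring
      have e5 : 5 * (Q : ℤ) * 2 ^ k = 5 * X := by rw [hX]; ring
      rw [e5] at hj5
      have := affine_of (f := u k) (a := min j (4 * X)) (b := 5 * X - 1) (4 * X)
        (min_le_right _ _) (by linarith) (by
        intro i hi1 hi2
        have hi3 : 125 * X ^ 2 < 9 * (i - 1) ^ 2 ∧ 0 ≤ i - 1 := by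
          rcases min_cases j (4 * X) with ⟨h2, _⟩ | ⟨h2, _⟩
          · rw [h2] at hi1
            constructor
            · nlinarith
            · linarith
          · rw [h2] at hi1
            constructor
            · nlinarith
            · linarith
        apply Hk
        · rw [e5, abs_of_nonneg (by linarith [hi3.2])]
          linarith
        · intro x hx he
          have h3 : (i : ℝ) - 1 ≤ x := by linarith [(abs_le.1 hx).1]
          have h4 : (0 : ℝ) ≤ (i : ℝ) - 1 := by exact_mod_cast hi3.2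
          have h6 : ((i : ℝ) - 1) ^ 2 ≤ x ^ 2 := by nlinarith
          have h7 : 125 * ((Q : ℝ) * 2 ^ k) ^ 2 < 9 * ((i : ℝ) - 1) ^ 2 := by
            have := hi3.1
            rw [hX] at this
            exact_mod_cast this
          linarith) j (min_le_left _ _) (by linarith)
      rw [e4, this, hX]
      push_cast
      ring_nf
    have h2 : ∀ k : ℕ, u k (4 * Q * 2 ^ k + 1) - u k (4 * Q * 2 ^ k) =
        u 0 (4 * Q + 1) - u 0 (4 * Q) := by
      intro k
      induction k with
      | zero => simp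
      | succ k ih =>
        have hX4 := hQk k
        have h3 := hom k (4 * Q * 2 ^ k + 1) (by
          rw [abs_of_nonneg (by positivity)]
          linarith)
        have h4 := hom k (4 * Q * 2 ^ k) (by
          rw [abs_of_nonneg (by positivity)]
          linarith)
        have e : 2 * (4 * (Q : ℤ) * 2 ^ k) = 4 * Q * 2 ^ (k + 1) := by rw [pow_succ]; ring
        have e' : 2 * (4 * (Q : ℤ) * 2 ^ k + 1) = 4 * Q * 2 ^ (k + 1) + 2 := by rw [pow_succ]; ring
        have eX : 4 * (Q : ℤ) * 2 ^ (k + 1) = 8 * (Q * 2 ^ k) := by rw [pow_succ]; ring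
        have eX2 : (Q : ℤ) * 2 ^ (k + 1) = 2 * (Q * 2 ^ k) := by rw [pow_succ]; ring
        have eX5 : 5 * (Q : ℤ) * 2 ^ (k + 1) = 10 * (Q * 2 ^ k) := by rw [pow_succ]; ring
        have h5 := rt (k + 1) (4 * Q * 2 ^ (k + 1) + 2) (by positivity) (by
          rw [eX, eX2]
          nlinarith) (by rw [eX, eX5]; linarith)
        rw [e] at h4
        rw [e'] at h3
        push_cast at h5
        rw [h3, h4] at h5
        rw [h4]
        linarith
    intro k j hj0 hj hj5
    rw [rt k j hj0 hj hj5, h2 k, h1 k]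
    ring

end Pool.Agent.YTD
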