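import Pool.Agent.YTD.Rigid10

/-!
Integrality of the linear form, and absence of kinks.
-/

namespace Pool.Agent.YTD

open Finset Filter

theorem no_kink_env {Q : ℕ} (hQ : 4 ≤ Q) {u : ℕ → ℤ → ℝ} {γ δ γ' δ' : ℝ}
    (mid : ∀ (k : ℕ) (j : ℤ), 9 * j ^ 2 < 125 * ((Q : ℤ) * 2 ^ k) ^ 2 →
      u k j = γ * j + δ * 2 ^ k)
    (rt : ∀ (k : ℕ) (j : ℤ), 0 < j → 125 * ((Q : ℤ) * 2 ^ k) ^ 2 < 9 * j ^ 2 →
      j < 5 * Q * 2 ^ k → u k j = γ' * j + δ' * 2 ^ k)
    (conc : ∀ (k : ℕ) (j : ℤ), |j| + 1 < 5 * Q * 2 ^ k → u k (j - 1) + u k (j + 1) ≤ 2 * u k j)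
    (hγ : ∃ z : ℤ, γ = z) (hγ' : ∃ z : ℤ, γ' = z) (hδ : ∃ (k : ℕ) (z : ℤ), δ * 2 ^ k = z)
    (hδ' : ∃ (k : ℕ) (z : ℤ), δ' * 2 ^ k = z) : γ' = γ ∧ δ' = δ := by
  have hQr : (4 : ℝ) ≤ Q := by exact_mod_cast hQ
  set w : ℝ := Real.sqrt 125 / 3 * Q with hw
  have hw0 : 0 ≤ w := by positivity
  have hw2 : 9 * w ^ 2 = 125 * (Q : ℝ) ^ 2 := by
    rw [hw, mul_pow, div_pow, Real.sq_sqrt (by norm_num)]
    ring
  have hw4 : w ≤ 4 * Q := by
    apply le_of_sq_le_sq _ (by positivity)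
    nlinarith [sq_nonneg (Q : ℝ)]
  have hw3 : 3 * (Q : ℝ) ≤ w := by
    apply le_of_sq_le_sq _ hw0
    nlinarith [sq_nonneg (Q : ℝ)]
  have key : ∀ k : ℕ, |(γ' - γ) * w + (δ' - δ)| * 2 ^ k ≤ |γ' - γ| := by
    intro k
    have p : (0 : ℝ) < 2 ^ k := by positivity
    have p1 : (1 : ℝ) ≤ 2 ^ k := one_le_pow₀ (by norm_num)
    set j := ⌊w * 2 ^ k⌋ with hj
    have f1 : (j : ℝ) ≤ w * 2 ^ k := Int.floor_le _
    have f2 : w * 2 ^ k < j + 1 := Int.lt_floor_add_one _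
    have hj1 : 1 ≤ j := by
      have h1 : (1 : ℝ) ≤ w * 2 ^ k :=
        one_le_mul_of_one_le_of_one_le (by linarith only [hw3, hQr]) p1
      have : (1 : ℝ) < j + 1 := by linarith
      have : (1 : ℤ) < j + 1 := by exact_mod_cast this
      omega
    have hX4 : (4 : ℤ) ≤ Q * 2 ^ k := by
      have h1 : (4 : ℤ) ≤ Q := by exact_mod_cast hQ
      have h2 : (1 : ℤ) ≤ 2 ^ k := one_le_pow₀ (by norm_num)
      exact h1.trans (le_mul_of_one_le_right (by linarith only [h1]) h2)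
    have hj4 : j ≤ 4 * (Q * 2 ^ k) := by
      have : (j : ℝ) ≤ 4 * (Q * 2 ^ k) := by
        linarith only [f1, mul_le_mul_of_nonneg_right hw4 p.le]
      exact_mod_cast this
    have hjr : (1 : ℝ) ≤ j := by exact_mod_cast hj1
    have hsq : 9 * (w * 2 ^ k) ^ 2 = 125 * ((Q : ℝ) * 2 ^ k) ^ 2 := by
      rw [mul_pow w, ← mul_assoc, hw2]; ring
    have g1 : 9 * j ^ 2 < 125 * ((Q : ℤ) * 2 ^ k) ^ 2 := by
      have h1 : 9 * (j : ℝ) ^ 2 ≤ 125 * ((Q : ℝ) * 2 ^ k) ^ 2 := by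
        rw [← hsq]
        linarith only [pow_le_pow_left₀ (by linarith only [hjr] : (0 : ℝ) ≤ j) f1 2]
      have h2 : 9 * j ^ 2 ≤ 125 * ((Q : ℤ) * 2 ^ k) ^ 2 := by exact_mod_cast h1
      exact lt_of_le_of_ne h2 (no_sol (by omega))
    have g1' : 9 * (j - 1) ^ 2 < 125 * ((Q : ℤ) * 2 ^ k) ^ 2 := by linarith only [g1, hj1]
    have g2 : 125 * ((Q : ℤ) * 2 ^ k) ^ 2 < 9 * (j + 1) ^ 2 := by
      have h1 : 125 * ((Q : ℝ) * 2 ^ k) ^ 2 < 9 * ((j : ℝ) + 1) ^ 2 := by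
        rw [← hsq]
        have : 0 ≤ w * 2 ^ k := by positivity
        linarith only [pow_lt_pow_left₀ f2 this two_ne_zero]
      exact_mod_cast h1
    have g2' : 125 * ((Q : ℤ) * 2 ^ k) ^ 2 < 9 * (j + 2) ^ 2 := by linarith only [g2, hj1]
    have m0 := mid k j g1
    have m1 := mid k (j - 1) g1'
    have r1 := rt k (j + 1) (by omega) g2 (by rw [mul_assoc]; omega)
    have r2 := rt k (j + 2) (by omega) g2' (by rw [mul_assoc]; omega)
    have c1 := conc k j (by rw [abs_of_nonneg (by omega), mul_assoc]; omega)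
    have c2 := conc k (j + 1) (by rw [abs_of_nonneg (by omega), mul_assoc]; omega)
    rw [m0, m1, r1] at c1
    rw [add_sub_cancel_right, show j + 1 + 1 = j + 2 by ring, m0, r1, r2] at c2
    push_cast at c1 c2
    have d1 : (γ' - γ) * (j + 1) + (δ' - δ) * 2 ^ k ≤ 0 := by linarith
    have d2 : 0 ≤ (γ' - γ) * j + (δ' - δ) * 2 ^ k := by linarith
    have e : |(γ' - γ) * w + (δ' - δ)| * 2 ^ k =
        |(γ' - γ) * (w * 2 ^ k) + (δ' - δ) * 2 ^ k| := by
      rw [show (γ' - γ) * (w * 2 ^ k) + (δ' - δ) * 2 ^ k =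
        ((γ' - γ) * w + (δ' - δ)) * 2 ^ k by ring, abs_mul, abs_of_pos p]
    rw [e]
    have hD : γ' - γ ≤ 0 := by linarith
    rw [abs_of_nonpos hD, abs_le]
    have t1 : 0 ≤ (γ' - γ) * (w * 2 ^ k - (j + 1)) :=
      mul_nonneg_of_nonpos_of_nonpos hD (by linarith only [f2])
    have t2 : (γ' - γ) * (w * 2 ^ k - j) ≤ 0 :=
      mul_nonpos_of_nonpos_of_nonneg hD (by linarith only [f1])
    constructor
    · linarith only [t1, d2]
    · linarith only [t2, d1]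
  have h0 : (γ' - γ) * w + (δ' - δ) = 0 := by
    by_contra hne
    have hpos : 0 < |(γ' - γ) * w + (δ' - δ)| := abs_pos.2 hne
    obtain ⟨n, hn⟩ := pow_unbounded_of_one_lt (|γ' - γ| / |(γ' - γ) * w + (δ' - δ)|)
      (by norm_num : (1 : ℝ) < 2)
    rw [div_lt_iff₀ hpos] at hn
    have := key n
    linarith
  obtain ⟨z, hz⟩ := hγ
  obtain ⟨z', hz'⟩ := hγ'
  obtain ⟨k1, x1, h1⟩ := hδ
  obtain ⟨k2, x2, h2⟩ := hδ'
  have hd : z' - z = 0 := by
    by_contra hne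
    have e1 : (δ' - δ) * 2 ^ (k1 + k2) = ((x2 * 2 ^ k1 - x1 * 2 ^ k2 : ℤ) : ℝ) := by
      push_cast
      rw [← h1, ← h2, pow_add]
      ring
    have e2 : ((z' - z : ℤ) : ℝ) * 2 ^ (k1 + k2) * w =
        -((x2 * 2 ^ k1 - x1 * 2 ^ k2 : ℤ) : ℝ) := by
      rw [← e1]
      push_cast
      rw [← hz, ← hz']
      linear_combination (2 : ℝ) ^ (k1 + k2) * h0
    have e3 : (125 : ℝ) * ((Q : ℝ) * ((z' - z : ℤ) : ℝ) * 2 ^ (k1 + k2)) ^ 2 =
        9 * ((x2 * 2 ^ k1 - x1 * 2 ^ k2 : ℤ) : ℝ) ^ 2 := by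
      have : ((x2 * 2 ^ k1 - x1 * 2 ^ k2 : ℤ) : ℝ) =
          -(((z' - z : ℤ) : ℝ) * 2 ^ (k1 + k2) * w) := by rw [e2]; ring
      rw [this]
      have e4 : 9 * (-(((z' - z : ℤ) : ℝ) * 2 ^ (k1 + k2) * w)) ^ 2 =
          (9 * w ^ 2) * (((z' - z : ℤ) : ℝ) * 2 ^ (k1 + k2)) ^ 2 := by ring
      rw [e4, hw2]
      ring
    have e5 : 9 * (x2 * 2 ^ k1 - x1 * 2 ^ k2) ^ 2 =
        125 * ((Q : ℤ) * (z' - z) * 2 ^ (k1 + k2)) ^ 2 := by
      exact_mod_cast e3.symm
    refine no_sol ?_ e5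
    apply mul_ne_zero (mul_ne_zero _ hne) (by positivity)
    have : (4 : ℤ) ≤ Q := by exact_mod_cast hQ
    omega
  have hγγ : γ' = γ := by
    rw [hz, hz']
    have : z' = z := by omega
    rw [this]
  refine ⟨hγγ, ?_⟩
  rw [hγγ, sub_self, zero_mul, zero_add] at h0
  linarith

namespace Fam3

variable {Q : ℕ} (F : Fam3 Q)

theorem integral_aux (hQ : 4 ≤ Q)
    (hint : ∀ k j a b, P3 Q k j a b → ∃ z : ℤ, F.ν k j a b = z)
    (hc : ∃ η : ℕ → ℝ, Tendsto η atTop (nhds 0) ∧ ∀ᶠ k : ℕ in atTop,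
      F.env.T k - F.T k ≤ η k * 8 ^ k) {α β : ℝ} {u : ℕ → ℤ → ℝ}
    (H : ∀ k j a b, Int3 Q k j a b → F.m k j a b = α * a + β * b + u k j)
    (Hk : ∀ (k : ℕ) (j : ℤ), |j| + 1 < 5 * (Q : ℤ) * 2 ^ k →
      (∀ x : ℝ, |x - j| ≤ 1 → 9 * x ^ 2 ≠ 125 * ((Q : ℝ) * 2 ^ k) ^ 2) →
      u k (j - 1) + u k (j + 1) = 2 * u k j) :
    ∃ (al be ga : ℤ) (δ : ℝ), α = al ∧ β = be ∧ ∀ (k : ℕ) (j : ℤ),
      |j| < 5 * (Q : ℤ) * 2 ^ k →
      (9 * j ^ 2 < 125 * ((Q : ℤ) * 2 ^ k) ^ 2 ∨ 0 < j) →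
      u k j = ga * j + δ * 2 ^ k := by
  have hQk : ∀ k : ℕ, (4 : ℤ) * 2 ^ k ≤ Q * 2 ^ k ∧ (1 : ℤ) ≤ 2 ^ k := by
    intro k
    have h1 : (4 : ℤ) ≤ Q := by exact_mod_cast hQ
    have h2 : (1 : ℤ) ≤ 2 ^ k := one_le_pow₀ (by norm_num)
    exact ⟨by nlinarith, h2⟩
  have hin1 : ∀ (k : ℕ) (j a b : ℤ), |j| < 5 * Q * 2 ^ k → 0 < a → a ≤ 9 * (Q * 2 ^ k) → 0 < b →
      b ≤ 9 * (Q * 2 ^ k) → Int3 Q k j a b := by
    intro k j a b hj ha ha' hb hb'
    have h1 := abs_lt.1 hj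
    have h2 := hQk k
    refine ⟨hj, ha, ?_, hb, ?_⟩
    · linarith [h1.1]
    · linarith [h1.2]
  have hom : ∀ (k : ℕ) (j : ℤ), |j| < 5 * Q * 2 ^ k → u (k + 1) (2 * j) = 2 * u k j := by
    intro k j hj
    have h2 := hQk k
    have i1 := hin1 k j 1 1 hj (by norm_num) (by linarith) (by norm_num) (by linarith)
    have e := F.m_double i1.p3
    have i2 : Int3 Q (k + 1) (2 * j) (2 * 1) (2 * 1) := by
      apply hin1
      · rw [abs_mul, show |(2 : ℤ)| = 2 by rfl, pow_succ]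
        linarith
      · norm_num
      · rw [pow_succ]; linarith
      · norm_num
      · rw [pow_succ]; linarith
    rw [H _ _ _ _ i1, H _ _ _ _ i2] at e
    push_cast at e
    linarith
  have conc : ∀ (k : ℕ) (j : ℤ), |j| + 1 < 5 * Q * 2 ^ k →
      u k (j - 1) + u k (j + 1) ≤ 2 * u k j := by
    intro k j hj
    have h2 := hQk k
    have hj' : -(5 * Q * 2 ^ k) + 1 < j ∧ j < 5 * Q * 2 ^ k - 1 := by
      have := abs_lt.1 (show |j| < 5 * Q * 2 ^ k - 1 by linarith)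
      constructor <;> linarith [this.1, this.2]
    have i0 := hin1 k j 1 1 (by linarith) (by norm_num) (by linarith) (by norm_num) (by linarith)
    have i1 := hin1 k (j - 1) 1 1 (by rw [abs_lt]; constructor <;> linarith [hj'.1, hj'.2])
      (by norm_num) (by linarith) (by norm_num) (by linarith)
    have i2 := hin1 k (j + 1) 1 1 (by rw [abs_lt]; constructor <;> linarith [hj'.1, hj'.2])
      (by norm_num) (by linarith) (by norm_num) (by linarith)
    have e := F.m_concave i1.p3 i2.p3 i0.p3 (by ring) (by ring) (by ring)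
    rw [H _ _ _ _ i0, H _ _ _ _ i1, H _ _ _ _ i2] at e
    push_cast at e
    linarith
  obtain ⟨γ, δ, γ', δ', mid, rt⟩ := pieces hQ hom Hk
  -- the two blocks
  have blk : ∀ (k : ℕ) (J j a b : ℤ), (J = 0 ∨ J = 4 * (Q * 2 ^ k)) → J ≤ j → j ≤ J + 2 ^ k →
      5 * (Q * 2 ^ k) ≤ a → a ≤ 5 * (Q * 2 ^ k) + 2 ^ k → 5 * (Q * 2 ^ k) ≤ b →
      b ≤ 5 * (Q * 2 ^ k) + 2 ^ k → Int3 Q k j a b := by
    intro k J j a b hJ hj hj' ha ha' hb hb'
    have h2 := hQk k
    apply hin1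
    · rcases hJ with rfl | rfl
      · rw [abs_of_nonneg (by linarith)]; linarith
      · rw [abs_of_nonneg (by linarith)]; linarith
    all_goals linarith
  have midv : ∀ (k : ℕ) (j : ℤ), 0 ≤ j → j ≤ 2 ^ k → u k j = γ * j + δ * 2 ^ k := by
    intro k j hj hj'
    have h2 := hQk k
    apply mid
    nlinarith
  have rtv : ∀ (k : ℕ) (j : ℤ), 4 * (Q * 2 ^ k) ≤ j → j ≤ 4 * (Q * 2 ^ k) + 2 ^ k →
      u k j = γ' * j + δ' * 2 ^ k := by
    intro k j hj hj'
    have h2 := hQk k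
    apply rt
    · linarith
    · nlinarith
    · linarith
  have cst : ∀ k x : ℕ, x < 2 ^ k → (x : ℤ) + 1 ≤ 2 ^ k := by
    intro k x hx
    exact_mod_cast hx
  have hα : ∃ z : ℤ, α = z := by
    refine F.block_diff hint hc α (fun _ => 0) (fun k => 5 * (Q * 2 ^ k))
      (fun k => 5 * (Q * 2 ^ k)) 0 1 0 ?_
    intro k x y z hx hy hz
    have hx' := cst k x hx
    have hy' := cst k y hy
    have hz' := cst k z hz
    have px : (0 : ℤ) ≤ x := Int.natCast_nonneg x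
    have py : (0 : ℤ) ≤ y := Int.natCast_nonneg y
    have pz : (0 : ℤ) ≤ z := Int.natCast_nonneg z
    have i1 := blk k 0 (0 + x) (5 * (Q * 2 ^ k) + y) (5 * (Q * 2 ^ k) + z) (Or.inl rfl)
      (by linarith only [px, py, pz, hx', hy', hz']) (by linarith only [px, py, pz, hx', hy', hz']) (by linarith only [px, py, pz, hx', hy', hz']) (by linarith only [px, py, pz, hx', hy', hz'])
      (by linarith only [px, py, pz, hx', hy', hz']) (by linarith only [px, py, pz, hx', hy', hz'])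
    have i2 := blk k 0 (0 + 0 + x) (5 * (Q * 2 ^ k) + 1 + y) (5 * (Q * 2 ^ k) + 0 + z)
      (Or.inl rfl)
      (by linarith only [px, py, pz, hx', hy', hz']) (by linarith only [px, py, pz, hx', hy', hz']) (by linarith only [px, py, pz, hx', hy', hz']) (by linarith only [px, py, pz, hx', hy', hz'])
      (by linarith only [px, py, pz, hx', hy', hz']) (by linarith only [px, py, pz, hx', hy', hz'])
    refine ⟨i1.p3, i2.p3, ?_⟩
    rw [H _ _ _ _ i1, H _ _ _ _ i2]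
    push_cast
    ring_nf
  have hβ : ∃ z : ℤ, β = z := by
    refine F.block_diff hint hc β (fun _ => 0) (fun k => 5 * (Q * 2 ^ k))
      (fun k => 5 * (Q * 2 ^ k)) 0 0 1 ?_
    intro k x y z hx hy hz
    have hx' := cst k x hx
    have hy' := cst k y hy
    have hz' := cst k z hz
    have px : (0 : ℤ) ≤ x := Int.natCast_nonneg x
    have py : (0 : ℤ) ≤ y := Int.natCast_nonneg y
    have pz : (0 : ℤ) ≤ z := Int.natCast_nonneg z
    have i1 := blk k 0 (0 + x) (5 * (Q * 2 ^ k) + y) (5 * (Q * 2 ^ k) + z) (Or.inl rfl)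
      (by linarith only [px, py, pz, hx', hy', hz']) (by linarith only [px, py, pz, hx', hy', hz']) (by linarith only [px, py, pz, hx', hy', hz']) (by linarith only [px, py, pz, hx', hy', hz'])
      (by linarith only [px, py, pz, hx', hy', hz']) (by linarith only [px, py, pz, hx', hy', hz'])
    have i2 := blk k 0 (0 + 0 + x) (5 * (Q * 2 ^ k) + 0 + y) (5 * (Q * 2 ^ k) + 1 + z)
      (Or.inl rfl)
      (by linarith only [px, py, pz, hx', hy', hz']) (by linarith only [px, py, pz, hx', hy', hz']) (by linarith only [px, py, pz, hx', hy', hz']) (by linarith only [px, py, pz, hx', hy', hz'])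
      (by linarith only [px, py, pz, hx', hy', hz']) (by linarith only [px, py, pz, hx', hy', hz'])
    refine ⟨i1.p3, i2.p3, ?_⟩
    rw [H _ _ _ _ i1, H _ _ _ _ i2]
    push_cast
    ring_nf
  have hγ : ∃ z : ℤ, γ = z := by
    refine F.block_diff hint hc γ (fun _ => 0) (fun k => 5 * (Q * 2 ^ k))
      (fun k => 5 * (Q * 2 ^ k)) 1 0 0 ?_
    intro k x y z hx hy hz
    have hx' := cst k x hx
    have hy' := cst k y hy
    have hz' := cst k z hz
    have px : (0 : ℤ) ≤ x := Int.natCast_nonneg x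
    have py : (0 : ℤ) ≤ y := Int.natCast_nonneg y
    have pz : (0 : ℤ) ≤ z := Int.natCast_nonneg z
    have i1 := blk k 0 (0 + x) (5 * (Q * 2 ^ k) + y) (5 * (Q * 2 ^ k) + z) (Or.inl rfl)
      (by linarith only [px, py, pz, hx', hy', hz']) (by linarith only [px, py, pz, hx', hy', hz']) (by linarith only [px, py, pz, hx', hy', hz']) (by linarith only [px, py, pz, hx', hy', hz'])
      (by linarith only [px, py, pz, hx', hy', hz']) (by linarith only [px, py, pz, hx', hy', hz'])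
    have i2 := blk k 0 (0 + 1 + x) (5 * (Q * 2 ^ k) + 0 + y) (5 * (Q * 2 ^ k) + 0 + z)
      (Or.inl rfl)
      (by linarith only [px, py, pz, hx', hy', hz']) (by linarith only [px, py, pz, hx', hy', hz']) (by linarith only [px, py, pz, hx', hy', hz']) (by linarith only [px, py, pz, hx', hy', hz'])
      (by linarith only [px, py, pz, hx', hy', hz']) (by linarith only [px, py, pz, hx', hy', hz'])
    refine ⟨i1.p3, i2.p3, ?_⟩
    rw [H _ _ _ _ i1, H _ _ _ _ i2, midv k (0 + x) (by linarith only [px, py, pz, hx', hy', hz']) (by linarith only [px, py, pz, hx', hy', hz']),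
      midv k (0 + 1 + x) (by linarith only [px, py, pz, hx', hy', hz']) (by linarith only [px, py, pz, hx', hy', hz'])]
    push_cast
    ring_nf
  have hγ' : ∃ z : ℤ, γ' = z := by
    refine F.block_diff hint hc γ' (fun k => 4 * (Q * 2 ^ k)) (fun k => 5 * (Q * 2 ^ k))
      (fun k => 5 * (Q * 2 ^ k)) 1 0 0 ?_
    intro k x y z hx hy hz
    have hx' := cst k x hx
    have hy' := cst k y hy
    have hz' := cst k z hz
    have px : (0 : ℤ) ≤ x := Int.natCast_nonneg x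
    have py : (0 : ℤ) ≤ y := Int.natCast_nonneg y
    have pz : (0 : ℤ) ≤ z := Int.natCast_nonneg z
    have i1 := blk k (4 * (Q * 2 ^ k)) (4 * (Q * 2 ^ k) + x) (5 * (Q * 2 ^ k) + y)
      (5 * (Q * 2 ^ k) + z) (Or.inr rfl)
      (by linarith only [px, py, pz, hx', hy', hz']) (by linarith only [px, py, pz, hx', hy', hz']) (by linarith only [px, py, pz, hx', hy', hz']) (by linarith only [px, py, pz, hx', hy', hz'])
      (by linarith only [px, py, pz, hx', hy', hz']) (by linarith only [px, py, pz, hx', hy', hz'])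
    have i2 := blk k (4 * (Q * 2 ^ k)) (4 * (Q * 2 ^ k) + 1 + x) (5 * (Q * 2 ^ k) + 0 + y)
      (5 * (Q * 2 ^ k) + 0 + z) (Or.inr rfl)
      (by linarith only [px, py, pz, hx', hy', hz']) (by linarith only [px, py, pz, hx', hy', hz']) (by linarith only [px, py, pz, hx', hy', hz']) (by linarith only [px, py, pz, hx', hy', hz'])
      (by linarith only [px, py, pz, hx', hy', hz']) (by linarith only [px, py, pz, hx', hy', hz'])
    refine ⟨i1.p3, i2.p3, ?_⟩
    rw [H _ _ _ _ i1, H _ _ _ _ i2, rtv k (4 * (Q * 2 ^ k) + x) (by linarith only [px, py, pz, hx', hy', hz']) (by linarith only [px, py, pz, hx', hy', hz']),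
      rtv k (4 * (Q * 2 ^ k) + 1 + x) (by linarith only [px, py, pz, hx', hy', hz']) (by linarith only [px, py, pz, hx', hy', hz'])]
    push_cast
    ring_nf
  obtain ⟨al, hal⟩ := hα
  obtain ⟨be, hbe⟩ := hβ
  obtain ⟨g, hg⟩ := hγ
  obtain ⟨g', hg'⟩ := hγ'
  obtain ⟨η, hη, hη'⟩ := hc
  have hδ : ∃ (k : ℕ) (z : ℤ), δ * 2 ^ k = z := by
    refine dyadic hη ?_
    filter_upwards [hη'] with k hk
    refine F.block_val hint hk (δ * 2 ^ k) 0 (5 * (Q * 2 ^ k)) (5 * (Q * 2 ^ k)) ?_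
    intro x y z hx hy hz
    have hx' := cst k x hx
    have hy' := cst k y hy
    have hz' := cst k z hz
    have px : (0 : ℤ) ≤ x := Int.natCast_nonneg x
    have py : (0 : ℤ) ≤ y := Int.natCast_nonneg y
    have pz : (0 : ℤ) ≤ z := Int.natCast_nonneg z
    have i1 := blk k 0 (0 + x) (5 * (Q * 2 ^ k) + y) (5 * (Q * 2 ^ k) + z) (Or.inl rfl)
      (by linarith only [px, py, pz, hx', hy', hz']) (by linarith only [px, py, pz, hx', hy', hz']) (by linarith only [px, py, pz, hx', hy', hz']) (by linarith only [px, py, pz, hx', hy', hz'])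
      (by linarith only [px, py, pz, hx', hy', hz']) (by linarith only [px, py, pz, hx', hy', hz'])
    refine ⟨i1.p3, al * (5 * (Q * 2 ^ k) + y) + be * (5 * (Q * 2 ^ k) + z) + g * x, ?_⟩
    rw [H _ _ _ _ i1, midv k (0 + x) (by linarith only [px, py, pz, hx', hy', hz'])
      (by linarith only [px, py, pz, hx', hy', hz']), hal, hbe, hg]
    push_cast
    ring
  have hδ' : ∃ (k : ℕ) (z : ℤ), δ' * 2 ^ k = z := by
    refine dyadic hη ?_
    filter_upwards [hη'] with k hk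
    refine F.block_val hint hk (δ' * 2 ^ k) (4 * (Q * 2 ^ k)) (5 * (Q * 2 ^ k))
      (5 * (Q * 2 ^ k)) ?_
    intro x y z hx hy hz
    have hx' := cst k x hx
    have hy' := cst k y hy
    have hz' := cst k z hz
    have px : (0 : ℤ) ≤ x := Int.natCast_nonneg x
    have py : (0 : ℤ) ≤ y := Int.natCast_nonneg y
    have pz : (0 : ℤ) ≤ z := Int.natCast_nonneg z
    have i1 := blk k (4 * (Q * 2 ^ k)) (4 * (Q * 2 ^ k) + x) (5 * (Q * 2 ^ k) + y)
      (5 * (Q * 2 ^ k) + z) (Or.inr rfl)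
      (by linarith only [px, py, pz, hx', hy', hz']) (by linarith only [px, py, pz, hx', hy', hz']) (by linarith only [px, py, pz, hx', hy', hz']) (by linarith only [px, py, pz, hx', hy', hz'])
      (by linarith only [px, py, pz, hx', hy', hz']) (by linarith only [px, py, pz, hx', hy', hz'])
    refine ⟨i1.p3, al * (5 * (Q * 2 ^ k) + y) + be * (5 * (Q * 2 ^ k) + z) +
      g' * (4 * (Q * 2 ^ k) + x), ?_⟩
    rw [H _ _ _ _ i1, rtv k (4 * (Q * 2 ^ k) + x) (by linarith only [px, py, pz, hx', hy', hz']) (by linarith only [px, py, pz, hx', hy', hz']), hal, hbe, hg']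
    push_cast
    ring
  obtain ⟨e1, e2⟩ := no_kink_env hQ mid rt conc ⟨g, hg⟩ ⟨g', hg'⟩ hδ hδ'
  refine ⟨al, be, g, δ, hal, hbe, ?_⟩
  intro k j hj hj'
  rcases hj' with h | h
  · rw [mid k j h, hg]
  · have hX := hQk k
    rcases lt_or_ge (9 * j ^ 2) (125 * ((Q : ℤ) * 2 ^ k) ^ 2) with h1 | h1
    · rw [mid k j h1, hg]
    · have h2 : 125 * ((Q : ℤ) * 2 ^ k) ^ 2 < 9 * j ^ 2 :=
        lt_of_le_of_ne h1 (Ne.symm (no_sol (by linarith)))
      rw [rt k j h h2 (lt_of_abs_lt hj), e1, e2, hg]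

theorem integral (hQ : 4 ≤ Q)
    (hint : ∀ k j a b, P3 Q k j a b → ∃ z : ℤ, F.ν k j a b = z)
    (hc : ∃ η : ℕ → ℝ, Tendsto η atTop (nhds 0) ∧ ∀ᶠ k : ℕ in atTop,
      F.env.T k - F.T k ≤ η k * 8 ^ k) {α β : ℝ} {u : ℕ → ℤ → ℝ}
    (H : ∀ k j a b, Int3 Q k j a b → F.m k j a b = α * a + β * b + u k j)
    (Hk : ∀ (k : ℕ) (j : ℤ), |j| + 1 < 5 * (Q : ℤ) * 2 ^ k →
      (∀ x : ℝ, |x - j| ≤ 1 → 9 * x ^ 2 ≠ 125 * ((Q : ℝ) * 2 ^ k) ^ 2) →
      u k (j - 1) + u k (j + 1) = 2 * u k j) :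
    ∃ (al be ga : ℤ) (δ : ℝ), ∀ k j a b, Int3 Q k j a b →
      F.m k j a b = al * a + be * b + ga * j + δ * 2 ^ k := by
  obtain ⟨al, be, ga, δ, h1, h2, h3⟩ := F.integral_aux hQ hint hc H Hk
  obtain ⟨al', be', ga', δ', h1', h2', h3'⟩ := F.swap.integral_aux hQ (α := β) (β := α)
    (u := fun k j => u k (-j))
    (fun k j a b h => hint k (-j) b a (P3_swap.2 h))
    (by
      obtain ⟨η, hη, hη'⟩ := hc
      refine ⟨η, hη, ?_⟩
      filter_upwards [hη'] with k hk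
      rwa [swap_env_T, swap_T])
    (by
      intro k j a b h
      rw [swap_m, H _ _ _ _ (Int3_swap.2 h)]
      ring)
    (by
      intro k j hj hx
      have := Hk k (-j) (by rwa [abs_neg]) (by
        intro x hx1 hx2
        refine hx (-x) ?_ (by rwa [neg_sq])
        push_cast at hx1
        rw [show -x - (j : ℝ) = -(x - -(j : ℝ)) by ring, abs_neg]
        exact hx1)
      rw [show -(j - 1) = -j + 1 by ring, show -(j + 1) = -j - 1 by ring, add_comm]
      exact this)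
  have hQ' : (4 : ℤ) ≤ (Q : ℤ) := by exact_mod_cast hQ
  -- compare the two linear forms
  have a0 := h3 0 0 (by rw [abs_zero]; simp only [pow_zero]; linarith)
    (Or.inl (by simp only [pow_zero]; nlinarith))
  have a0' := h3' 0 0 (by rw [abs_zero]; simp only [pow_zero]; linarith)
    (Or.inl (by simp only [pow_zero]; nlinarith))
  have a1 := h3 0 (-1) (by rw [abs_neg, abs_one]; simp only [pow_zero]; linarith)
    (Or.inl (by simp only [pow_zero]; nlinarith))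
  have a1' := h3' 0 1 (by rw [abs_one]; simp only [pow_zero]; linarith)
    (Or.inl (by simp only [pow_zero]; nlinarith))
  simp only [neg_zero] at a0'
  push_cast at a0 a0' a1 a1'
  have eδ : δ' = δ := by linarith
  have eg : (ga' : ℝ) = -ga := by linarith
  refine ⟨al, be, ga, δ, ?_⟩
  intro k j a b h
  rw [H k j a b h, h1, h2]
  rcases lt_trichotomy j 0 with hj | hj | hj
  · have := h3' k (-j) (by rw [abs_neg]; exact h.1) (Or.inr (by linarith))
    simp only [neg_neg] at this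
    rw [this, eδ, eg]
    push_cast
    ring
  · rw [h3 k j h.1 (Or.inl ?_)]
    · ring
    · rw [hj]
      have : (1 : ℤ) ≤ 2 ^ k := one_le_pow₀ (by norm_num)
      have : (4 : ℤ) ≤ (Q : ℤ) * 2 ^ k := by nlinarith
      nlinarith
  · rw [h3 k j h.1 (Or.inr hj)]
    ring

end Fam3

end Pool.Agent.YTD
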