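import Pool.Agent.YTD.Rigid11
import Pool.Agent.YTD.GapKink
import Pool.Agent.YTD.AvgPsi

/-!
The envelope of the lengths is an integral linear form.
-/

namespace Pool.Agent.YTD

open Finset Module Filter

variable {K : Type} [Field K] [Algebra ℂ K]
variable {T : Datum K} {q : ℕ} {D₀ : T.X.Pt →₀ ℤ}

namespace Graded

theorem linear (G : Graded T q D₀) (P₀ : T.X.Pt) (hq : 0 < q)
    (hD : T.X.deg D₀ = 105 * T.t * q) {s₀ : ℝ} (hS : G.Crit s₀ 0) :
    ∃ (al be ga : ℤ) (δ : ℝ), ∀ k j a b, Int3 (4 * q) k j a b →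
      (G.fam3 hD hq).m k j a b = al * a + be * b + ga * j + δ * 2 ^ k := by
  have hQ : 4 ≤ 4 * q := by omega
  obtain ⟨η, hη, hcl⟩ := close1 (G := G) hD P₀ hq hS
  have hloss : ∃ η : ℕ → ℝ, Tendsto η atTop (nhds 0) ∧ ∀ᶠ k : ℕ in atTop,
      SS q (2 ^ (k + 2)) (fun j => (G.fam3 hD hq).env.avg.ψ k j - (G.fam3 hD hq).env.avg.ν k j) ≤
        η k * 2 ^ k := by
    refine ⟨η, hη, ?_⟩
    filter_upwards [hcl] with k hk
    refine le_trans ?_ hk
    apply SS_mono
    intro j hj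
    have := nb_le_Mf (G := G) hD hq hj
    exact sub_le_sub_left this _
  obtain ⟨α, β, u, H⟩ := Fam3.shape (by omega) (G.fam3 hD hq)
    (fun k j a b h1 h2 => (G.fam3 hD hq).affine_a hq hloss h1 h2)
    (fun k j a b h1 h2 => (G.fam3 hD hq).affine_b hq hloss h1 h2)
  refine (G.fam3 hD hq).integral hQ ?_ ?_ H ?_
  · intro k j a b _
    exact ⟨((G.nn (2 ^ (k + 2)) j a.toNat b.toNat : ℕ) : ℤ), by
      show ((G.nn (2 ^ (k + 2)) j a.toNat b.toNat : ℕ) : ℝ) = _
      push_cast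
      rfl⟩
  · refine ⟨fun k => 676 * 16 * (q : ℝ) ^ 2 * η k, ?_, ?_⟩
    · have := hη.const_mul (676 * 16 * (q : ℝ) ^ 2)
      rwa [mul_zero] at this
    · filter_upwards [hcl] with k hk
      rw [Fam3.T_eq, Fam3.T_eq, ← SS_sub]
      have h1 : SS q (2 ^ (k + 2)) (fun j => mult q (2 ^ (k + 2)) j *
          (G.fam3 hD hq).env.avg.ν k j - mult q (2 ^ (k + 2)) j * (G.fam3 hD hq).avg.ν k j) ≤
          SS q (2 ^ (k + 2)) (fun j => (676 * 16 * (q : ℝ) ^ 2 * 4 ^ k) *
            ((G.Mf hD hq).ψ k j - (G.fam hD hq).ν k j)) := by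
        apply SS_mono
        intro j hj
        have g1 := nb_le_Mf (G := G) hD hq hj
        have g2 := Mf_le_ψ (G := G) hD hq hj
        have e1 : (G.fam3 hD hq).env.avg.ν k j = (G.Mf hD hq).ν k j := rfl
        rw [e1, ← fam_ν_eq, ← mul_sub]
        have hm : mult q (2 ^ (k + 2)) j ≤ 676 * 16 * (q : ℝ) ^ 2 * 4 ^ k := by
          rw [mult_eq]
          have hx : (1 : ℝ) ≤ q * ((2 ^ (k + 2) : ℕ) : ℝ) := by
            have : 1 ≤ q * 2 ^ (k + 2) := Nat.mul_pos hq (by positivity)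
            exact_mod_cast this
          have e2 : 676 * 16 * (q : ℝ) ^ 2 * 4 ^ k = 676 * (q * ((2 ^ (k + 2) : ℕ) : ℝ)) ^ 2 := by
            push_cast
            rw [show (4 : ℝ) ^ k = 2 ^ k * 2 ^ k by rw [← mul_pow]; norm_num, pow_add]
            ring
          rw [e2]
          nlinarith [sq_nonneg (j : ℝ)]
        have hm0 : 0 ≤ mult q (2 ^ (k + 2)) j := le_trans (by positivity) (Fam3.mult_ge hj)
        apply mul_le_mul hm (by linarith) (by linarith) (by positivity)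
      refine h1.trans ?_
      rw [SS_mul]
      have h2 := mul_le_mul_of_nonneg_left hk
        (show (0 : ℝ) ≤ 676 * 16 * (q : ℝ) ^ 2 * 4 ^ k by positivity)
      refine h2.trans (le_of_eq ?_)
      rw [show (8 : ℝ) ^ k = 4 ^ k * 2 ^ k by rw [← mul_pow]; norm_num]
      ring
  · intro k j hj hx
    have hk := Fam.kink (by omega) (G.Mf hD hq) (gap_Mf hD P₀ hq hS) hj hx
    have hj' := abs_lt.1 (show |j| < 5 * ((4 * q : ℕ) : ℤ) * 2 ^ k - 1 by linarith)
    have a0 := Fam3.avg_ψ hq (G.fam3 hD hq) H (k := k) (j := j) (by linarith)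
    have a1 := Fam3.avg_ψ hq (G.fam3 hD hq) H (k := k) (j := j - 1) (by
      rw [abs_lt]; constructor <;> linarith [hj'.1, hj'.2])
    have a2 := Fam3.avg_ψ hq (G.fam3 hD hq) H (k := k) (j := j + 1) (by
      rw [abs_lt]; constructor <;> linarith [hj'.1, hj'.2])
    have e1 : (G.fam3 hD hq).env.avg = G.Mf hD hq := rfl
    rw [e1] at a0 a1 a2
    rw [a0, a1, a2] at hk
    push_cast at hk
    linarith

end Graded

end Pool.Agent.YTD
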