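import Pool.Agent.YTD.Rigid12
import Pool.Agent.YTD.Fin4
import Pool.Agent.YTD.RigidCor

/-!
The rigidity theorem for graded filtrations with vanishing Futaki invariant.
-/

namespace Pool.Agent.YTD

open Finset Module Filter

variable {K : Type} [Field K] [Algebra ℂ K]

/-- Theorem A: a torus-graded filtration with vanishing Futaki invariant is given, up to lower
order terms, by an integral linear form (one-sided hypotheses). -/
theorem thmA' {T : Datum K} {q : ℕ} {D₀ : T.X.Pt →₀ ℤ} (G : Graded T q D₀) (hq : 0 < q)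
    (hD : T.X.deg D₀ = 105 * T.t * q) {s₀ : ℝ} (hS : G.Crit s₀ 0) :
    ∃ al be ga de : ℤ, G.RigidG al be ga de := by
  have P₀ : T.X.Pt := T.exists_pt.some
  obtain ⟨al, be, ga, δ, H⟩ := G.linear P₀ hq hD hS
  obtain ⟨de, h1, h2⟩ := G.rigid_of_env P₀ hq hD hS H
  exact ⟨al, be, ga, de, h1, h2⟩

/-- Theorem A: a torus-graded filtration with vanishing Futaki invariant is given, up to lower
order terms, by an integral linear form. -/
theorem thmA (T : Datum K) : ThmA T := by
  intro q D₀ G hq hD s₀ hS
  have P₀ : T.X.Pt := T.exists_pt.some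
  exact thmA' G hq hD (hS.crit hD P₀ hq)

end Pool.Agent.YTD
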