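import Pool.Agent.YTD.Rigid1

/-!
The weighted sums of superadditive families and their limits.
-/

namespace Pool.Agent.YTD

open Finset Filter

/-- plain sum over `|j| ≤ 5qL`. -/
noncomputable def SS (q L : ℕ) (f : ℤ → ℝ) : ℝ :=
  ∑ i ∈ range (2 * (5 * q * L) + 1), f ((i : ℤ) - (5 * q * L : ℕ))

theorem SS_rng {q L i : ℕ} (hi : i ∈ range (2 * (5 * q * L) + 1)) :
    |(i : ℤ) - (5 * q * L : ℕ)| ≤ 5 * q * L := by
  have := mem_range.1 hi
  have e : (5 * (q : ℤ) * L) = ((5 * q * L : ℕ) : ℤ) := by push_cast; ring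
  rw [e]
  generalize 5 * q * L = M at *
  rw [abs_le]
  constructor <;> omega

theorem SS_mono {q L : ℕ} {f g : ℤ → ℝ} (h : ∀ j : ℤ, |j| ≤ 5 * q * L → f j ≤ g j) :
    SS q L f ≤ SS q L g := sum_le_sum fun _ hi => h _ (SS_rng hi)

theorem SS_add (q L : ℕ) (f g : ℤ → ℝ) : SS q L (fun j => f j + g j) = SS q L f + SS q L g :=
  sum_add_distrib

theorem SS_sub (q L : ℕ) (f g : ℤ → ℝ) : SS q L (fun j => f j - g j) = SS q L f - SS q L g :=
  sum_sub_distrib _ _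

theorem SS_mul (q L : ℕ) (c : ℝ) (f : ℤ → ℝ) : SS q L (fun j => c * f j) = c * SS q L f := by
  unfold SS
  rw [mul_sum]

theorem SS_congr {q L : ℕ} {f g : ℤ → ℝ} (h : ∀ j : ℤ, |j| ≤ 5 * q * L → f j = g j) :
    SS q L f = SS q L g := sum_congr rfl fun _ hi => h _ (SS_rng hi)

theorem SS_nonneg {q L : ℕ} {f : ℤ → ℝ} (h : ∀ j : ℤ, |j| ≤ 5 * q * L → 0 ≤ f j) :
    0 ≤ SS q L f := sum_nonneg fun _ hi => h _ (SS_rng hi)

theorem SS_eq_Icc (q L : ℕ) (f : ℤ → ℝ) :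
    SS q L f = ∑ j ∈ Icc (-((5 * q * L : ℕ) : ℤ)) ((5 * q * L : ℕ) : ℤ), f j :=
  sum_range_eq_Icc (5 * q * L) f

theorem XX_eq_SS (q L : ℕ) (u : ℤ → ℝ) : XX q L u = SS q L (fun j => Wt q L j * u j) := rfl

theorem Wt_ge {q L : ℕ} {j : ℤ} (h : |j| ≤ 5 * q * L) : 200 * ((q : ℝ) * L) ^ 2 ≤ Wt q L j := by
  unfold Wt
  split_ifs
  · exact le_rfl
  · have h1 : |(j : ℝ)| ≤ 5 * q * L := by exact_mod_cast h
    have h2 : (j : ℝ) ^ 2 ≤ (5 * q * L) ^ 2 := sq_le_sq' (by linarith [(abs_le.1 h1).1])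
      (abs_le.1 h1).2
    nlinarith [sq_nonneg ((q : ℝ) * L)]

theorem dgr_ge {t q L : ℕ} {j : ℤ} (h : |j| ≤ 5 * q * L) :
    5 * (t : ℝ) * (q * L) ≤ (dg t q L j : ℝ) := by
  have := le_dg (t := t) h
  have h2 : ((5 * (t : ℤ) * q * L : ℤ) : ℝ) ≤ (dg t q L j : ℝ) := by exact_mod_cast this
  push_cast at h2
  linarith

theorem dgr_le (t q L : ℕ) (j : ℤ) : (dg t q L j : ℝ) ≤ 105 * t * (q * L) := by
  have h2 : (dg t q L j : ℝ) ≤ ((105 * (t : ℤ) * q * L : ℤ) : ℝ) := by exact_mod_cast dg_le t q L j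
  push_cast at h2
  linarith

theorem XX_dg_ge {t q L : ℕ} {f : ℤ → ℝ} (hf : ∀ j : ℤ, |j| ≤ 5 * q * L → 0 ≤ f j) :
    1000 * t * ((q : ℝ) * L) ^ 3 * SS q L f ≤ XX q L (fun j => (dg t q L j : ℝ) * f j) := by
  rw [XX_eq_SS, ← SS_mul]
  apply SS_mono
  intro j hj
  have h1 := Wt_ge hj
  have h2 := dgr_ge (t := t) hj
  have h3 := hf j hj
  have h4 : (0 : ℝ) ≤ q * L := by positivity
  calc 1000 * t * ((q : ℝ) * L) ^ 3 * f j = (200 * ((q : ℝ) * L) ^ 2) * ((5 * t * (q * L)) * f j) := by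
        ring
    _ ≤ Wt q L j * ((dg t q L j : ℝ) * f j) := by
        apply mul_le_mul h1 (mul_le_mul_of_nonneg_right h2 h3) (by positivity) (Wt_nonneg hj)

theorem XX_dg_le {t q L : ℕ} {f : ℤ → ℝ} (hf : ∀ j : ℤ, |j| ≤ 5 * q * L → 0 ≤ f j) :
    XX q L (fun j => (dg t q L j : ℝ) * f j) ≤ 65625 * t * ((q : ℝ) * L) ^ 3 * SS q L f := by
  rw [XX_eq_SS, ← SS_mul]
  apply SS_mono
  intro j hj
  have h1 := Wt_le (q := q) (L := L) (j := j)
  have h2 := dgr_le t q L j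
  have h3 := hf j hj
  have h4 : (0 : ℝ) ≤ q * L := by positivity
  have h5 : (0 : ℝ) ≤ dg t q L j := le_trans (by positivity) (dgr_ge (t := t) hj)
  calc Wt q L j * ((dg t q L j : ℝ) * f j) ≤
      (625 * ((q : ℝ) * L) ^ 2) * ((105 * t * (q * L)) * f j) := by
        apply mul_le_mul h1 (mul_le_mul_of_nonneg_right h2 h3) (by positivity) (by positivity)
    _ = _ := by ring

theorem XX_sub (q L : ℕ) (u v : ℤ → ℝ) : XX q L (fun j => u j - v j) = XX q L u - XX q L v := by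
  rw [XX_eq_SS, XX_eq_SS, XX_eq_SS, ← SS_sub]
  congr 1
  funext j
  ring

/-- the weighted sum of a family. -/
noncomputable def XF {q : ℕ} (F : Fam (4 * q)) (t k : ℕ) : ℝ :=
  XX q (2 ^ (k + 2)) (fun j => (dg t q (2 ^ (k + 2)) j : ℝ) * F.ν k j)

theorem rng4 {q k : ℕ} {j : ℤ} : |j| ≤ 5 * q * ((2 ^ (k + 2) : ℕ) : ℤ) ↔
    |j| ≤ 5 * ((4 * q : ℕ) : ℤ) * 2 ^ k := by
  have e : 5 * (q : ℤ) * ((2 ^ (k + 2) : ℕ) : ℤ) = 5 * ((4 * q : ℕ) : ℤ) * 2 ^ k := by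
    push_cast
    rw [pow_add]
    ring
  rw [e]

theorem XF_step {q : ℕ} (hq : 0 < q) (F : Fam (4 * q)) (t k : ℕ) :
    32 * XF F t k - 9600000 * t * (q : ℝ) ^ 2 * F.C * 8 ^ k ≤ XF F t (k + 1) := by
  have h := XX_double t q (2 ^ (k + 2)) hq (by positivity) (F.C * 2 ^ k) (F.ν k) (F.ν (k + 1))
    (fun j hj => F.nonneg k j (rng4.1 hj)) (fun j hj => F.le k j (rng4.1 hj))
    (fun j hj => by
      have := F.add k j j (rng4.1 hj) (rng4.1 hj)
      rw [← two_mul, ← two_mul] at this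
      exact this)
    (fun j hj hj' => by
      have := F.add k j (j + 1) (rng4.1 hj) (rng4.1 hj')
      rw [show j + (j + 1) = 2 * j + 1 by ring] at this
      exact this)
  rw [← pow_succ'] at h
  have e : 600000 * t * (q : ℝ) ^ 2 * ((2 ^ (k + 2) : ℕ) : ℝ) ^ 2 * (F.C * 2 ^ k) =
      9600000 * t * (q : ℝ) ^ 2 * F.C * 8 ^ k := by
    push_cast
    rw [show (8 : ℝ) ^ k = (2 ^ k) ^ 3 by rw [← pow_mul, mul_comm, pow_mul]; norm_num, pow_add]
    ring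
  rw [e] at h
  exact h

theorem XF_le {q : ℕ} (hq : 0 < q) (F : Fam (4 * q)) (t : ℕ) {s : ℝ}
    (h : ∀ ε > 0, ∀ᶠ k : ℕ in atTop, XF F t k ≤ (s + ε) * 32 ^ k) (k : ℕ) :
    XF F t k ≤ s * 32 ^ k + 400000 * t * (q : ℝ) ^ 2 * F.C * 8 ^ k := by
  set K : ℝ := 9600000 * t * (q : ℝ) ^ 2 * F.C with hK
  have hC := F.C_nonneg
  have hK0 : 0 ≤ K := by positivity
  have it : ∀ i : ℕ, 32 ^ i * XF F t k - K * 8 ^ k * ((32 ^ i - 8 ^ i) / 24) ≤ XF F t (k + i) := by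
    intro i
    induction i with
    | zero => simp
    | succ i ih =>
      have h1 := XF_step hq F t (k + i)
      rw [← hK] at h1
      rw [← add_assoc]
      refine le_trans ?_ h1
      have h2 := mul_le_mul_of_nonneg_left ih (by norm_num : (0 : ℝ) ≤ 32)
      rw [pow_succ (32 : ℝ) i, pow_succ (8 : ℝ) i, pow_add (8 : ℝ) k i]
      linarith
  have h3 : ∀ ε > 0, XF F t k - K / 24 * 8 ^ k ≤ (s + ε) * 32 ^ k := by
    intro ε hε
    obtain ⟨k₀, hk₀⟩ := eventually_atTop.1 (h ε hε)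
    have h4 := hk₀ (k + k₀) (by omega)
    have h5 := it k₀
    have h6 : (0 : ℝ) < 32 ^ k₀ := by positivity
    have h7 : (0 : ℝ) < 8 ^ k₀ := by positivity
    have h8 : (0 : ℝ) ≤ K * 8 ^ k := by positivity
    rw [pow_add] at h4
    have h9 : 32 ^ k₀ * (XF F t k - K / 24 * 8 ^ k) ≤ 32 ^ k₀ * ((s + ε) * 32 ^ k) := by
      have : K * 8 ^ k * ((32 ^ k₀ - 8 ^ k₀) / 24) ≤ K * 8 ^ k * (32 ^ k₀ / 24) := by
        apply mul_le_mul_of_nonneg_left _ h8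
        linarith
      linarith
    exact le_of_mul_le_mul_left h9 h6
  have h4 : XF F t k - K / 24 * 8 ^ k ≤ s * 32 ^ k := by
    apply le_of_forall_pos_le_add
    intro ε hε
    have p : (0 : ℝ) < 32 ^ k := by positivity
    have := h3 (ε / 32 ^ k) (by positivity)
    rw [add_mul] at this
    have e : ε / 32 ^ k * 32 ^ k = ε := by field_simp
    rw [e] at this
    exact this
  have e : K / 24 = 400000 * t * (q : ℝ) ^ 2 * F.C := by rw [hK]; ring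
  rw [e] at h4
  linarith

end Pool.Agent.YTD
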