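import Pool.Agent.YTD.Rigid2
import Pool.Agent.YTD.Crit

/-!
Equality analysis: the deficits are of lower order when the Futaki invariant vanishes.
-/

namespace Pool.Agent.YTD

open Finset Module Filter

variable {K : Type} [Field K] [Algebra ℂ K]
variable {T : Datum K} {q : ℕ} {D₀ : T.X.Pt →₀ ℤ}

namespace Graded

variable {G : Graded T q D₀}
variable (hD : T.X.deg D₀ = 105 * T.t * q)

include hD in
/-- upper bound for the total dimension, keeping all the terms. -/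
theorem tot_le' (P₀ : T.X.Pt) (hq : 0 < q) {N : ℕ} (hN : 4 ≤ N) :
    G.tot N ≤ XX q N (G.ub N) + T.t * Lam q N (G.nb N) -
      50 * (q * N) * SS q N (G.yb N) +
      (18 * T.t + 1) * G.Z N + 11 * q * (G.Λ * (105 * T.t * q)) * N ^ 3 := by
  have h4 := tot_le (G := G) hD P₀ hq hN
  have h5 : XX q N (G.ub N) =
      ∑ j ∈ Icc (-((5 * q * N : ℕ) : ℤ)) ((5 * q * N : ℕ) : ℤ), Wt q N j * G.ub N j :=
    sum_range_eq_Icc (5 * q * N) (fun j => Wt q N j * G.ub N j)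
  have h6 : ∑ j ∈ Icc (-((5 * q * N : ℕ) : ℤ)) ((5 * q * N : ℕ) : ℤ),
      (mult q N j * (G.ub N j - 9 * T.t * G.nb N j) - Wt q N j * G.ub N j) ≤
      ∑ j ∈ Icc (-((5 * q * N : ℕ) : ℤ)) ((5 * q * N : ℕ) : ℤ),
      (T.t * ((81 * (j : ℝ) ^ 2 - 375 * ((q : ℝ) * N) ^ 2 -
      5000 * ((q : ℝ) * N) * max 0 (|(j : ℝ)| - 4 * (q * N))) * G.nb N j) -
      50 * (q * N) * G.yb N j + G.Λ * N * (105 * T.t * q * N) +
      ((if j = ((5 * q * N : ℕ) : ℤ) then 1000 * T.t * ((q : ℝ) * N) ^ 3 * G.nb N j else 0) +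
       (if j = -((5 * q * N : ℕ) : ℤ) then 1000 * T.t * ((q : ℝ) * N) ^ 3 * G.nb N j else 0))) :=
    sum_le_sum fun j hj => pointwise hD hq hN (mem_Icc_iff.1 hj)
  have hmem1 : ((5 * q * N : ℕ) : ℤ) ∈ Icc (-((5 * q * N : ℕ) : ℤ)) ((5 * q * N : ℕ) : ℤ) := by
    rw [mem_Icc]
    constructor
    · have : (0 : ℤ) ≤ ((5 * q * N : ℕ) : ℤ) := by positivity
      linarith
    · exact le_rfl
  have hmem2 : -((5 * q * N : ℕ) : ℤ) ∈ Icc (-((5 * q * N : ℕ) : ℤ)) ((5 * q * N : ℕ) : ℤ) := by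
    rw [mem_Icc]
    constructor
    · exact le_rfl
    · have : (0 : ℤ) ≤ ((5 * q * N : ℕ) : ℤ) := by positivity
      linarith
  rw [sum_add_distrib, sum_add_distrib, sum_add_distrib, sum_sub_distrib, sum_ite_eq' , sum_ite_eq',
    if_pos hmem1, if_pos hmem2, sum_sub_distrib, ← mul_sum, ← mul_sum, sum_const,
    Int.card_Icc, nsmul_eq_mul] at h6
  have h7 : (((((5 * q * N : ℕ) : ℤ) + 1 - -((5 * q * N : ℕ) : ℤ)).toNat : ℕ) : ℝ) =
      10 * (q * N) + 1 := by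
    have : (((5 * q * N : ℕ) : ℤ) + 1 - -((5 * q * N : ℕ) : ℤ)).toNat = 10 * (q * N) + 1 := by
      have e : ((5 * q * N : ℕ) : ℤ) = 5 * ((q * N : ℕ) : ℤ) := by push_cast; ring
      rw [e]
      omega
    rw [this]
    push_cast
    ring
  rw [h7] at h6
  have hQ1 : (1 : ℝ) ≤ q * N := by
    have h1 : 1 ≤ q * N := Nat.mul_pos hq (by omega)
    exact_mod_cast h1
  have h8 : (10 * ((q : ℝ) * N) + 1) * (G.Λ * N * (105 * T.t * q * N)) ≤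
      11 * q * (G.Λ * (105 * T.t * q)) * N ^ 3 := by
    have h9 : (0 : ℝ) ≤ G.Λ * N * (105 * T.t * q * N) := by positivity
    have h10 : (10 * ((q : ℝ) * N) + 1) ≤ 11 * (q * N) := by linarith
    calc (10 * ((q : ℝ) * N) + 1) * (G.Λ * N * (105 * T.t * q * N)) ≤
        (11 * (q * N)) * (G.Λ * N * (105 * T.t * q * N)) := mul_le_mul_of_nonneg_right h10 h9
      _ = _ := by ring
  unfold Lam
  rw [h5, SS_eq_Icc]
  have h11 : (T.t : ℝ) * (∑ j ∈ Icc (-((5 * q * N : ℕ) : ℤ)) ((5 * q * N : ℕ) : ℤ),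
    (81 * (j : ℝ) ^ 2 - 375 * ((q : ℝ) * N) ^ 2 -
      5000 * ((q : ℝ) * N) * max 0 (|(j : ℝ)| - 4 * (q * N))) * G.nb N j +
    1000 * ((q : ℝ) * N) ^ 3 * (G.nb N ((5 * q * N : ℕ) : ℤ) + G.nb N (-((5 * q * N : ℕ) : ℤ)))) =
    T.t * (∑ j ∈ Icc (-((5 * q * N : ℕ) : ℤ)) ((5 * q * N : ℕ) : ℤ),
    (81 * (j : ℝ) ^ 2 - 375 * ((q : ℝ) * N) ^ 2 -
      5000 * ((q : ℝ) * N) * max 0 (|(j : ℝ)| - 4 * (q * N))) * G.nb N j) +
    (1000 * T.t * ((q : ℝ) * N) ^ 3 * G.nb N ((5 * q * N : ℕ) : ℤ) +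
      1000 * T.t * ((q : ℝ) * N) ^ 3 * G.nb N (-((5 * q * N : ℕ) : ℤ))) := by ring
  rw [h11]
  linarith

theorem XX_ub (N : ℕ) : XX q N (G.ub N) =
    XX q N (fun j => (dg T.t q N j : ℝ) * G.nb N j) - XX q N (G.yb N) := by
  rw [← XX_sub]
  congr 1
  funext j
  unfold yb
  ring

include hD in
theorem XX_yb_nonneg (hq : 0 < q) {N : ℕ} (hN : 4 ≤ N) : 0 ≤ XX q N (G.yb N) := by
  rw [XX_eq_SS]
  exact SS_nonneg fun j hj => mul_nonneg (Wt_nonneg hj) (yb_nonneg hD hq hN hj)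

/-- auxiliary: powers -/
theorem pow_facts (k : ℕ) : ((2 ^ (k + 2) : ℕ) : ℝ) ^ 3 = 64 * 8 ^ k ∧
    ((2 ^ (k + 2) : ℕ) : ℝ) ^ 4 = 256 * 16 ^ k ∧ ((2 ^ (k + 2) : ℕ) : ℝ) ^ 5 = 1024 * 32 ^ k := by
  push_cast
  refine ⟨?_, ?_, ?_⟩
  · rw [show (8 : ℝ) ^ k = (2 ^ k) ^ 3 by rw [← pow_mul, mul_comm, pow_mul]; norm_num, pow_add]
    ring
  · rw [show (16 : ℝ) ^ k = (2 ^ k) ^ 4 by rw [← pow_mul, mul_comm, pow_mul]; norm_num, pow_add]
    ring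
  · rw [show (32 : ℝ) ^ k = (2 ^ k) ^ 5 by rw [← pow_mul, mul_comm, pow_mul]; norm_num, pow_add]
    ring

theorem pow2_tendsto : Tendsto (fun k : ℕ => 2 ^ (k + 2)) atTop atTop :=
  (tendsto_pow_atTop_atTop_of_one_lt (by norm_num : 1 < 2)).comp (tendsto_add_atTop_nat 2)

theorem half_tendsto (c : ℝ) : Tendsto (fun k : ℕ => c * (1 / 2 : ℝ) ^ k) atTop (nhds 0) := by
  have := (tendsto_pow_atTop_nhds_zero_of_lt_one (r := (1 / 2 : ℝ)) (by norm_num)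
    (by norm_num)).const_mul c
  rwa [mul_zero] at this

theorem quarter_tendsto (c : ℝ) : Tendsto (fun k : ℕ => c * (1 / 4 : ℝ) ^ k) atTop (nhds 0) := by
  have := (tendsto_pow_atTop_nhds_zero_of_lt_one (r := (1 / 4 : ℝ)) (by norm_num)
    (by norm_num)).const_mul c
  rwa [mul_zero] at this

include hD in
/-- the basic inequality in the case of vanishing Futaki invariant, keeping all deficits. -/
theorem basic_ineq (P₀ : T.X.Pt) (hq : 0 < q) {s₀ : ℝ} (hS : G.Crit s₀ 0) :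
    ∃ err : ℕ → ℝ, Tendsto err atTop (nhds 0) ∧ ∀ᶠ k : ℕ in atTop,
      s₀ * (1024 * 32 ^ k) + XX q (2 ^ (k + 2)) (G.yb (2 ^ (k + 2))) +
        50 * (q * ((2 ^ (k + 2) : ℕ) : ℝ)) * SS q (2 ^ (k + 2)) (G.yb (2 ^ (k + 2))) ≤
      XF (G.fam hD hq) T.t k + T.t * Lam q (2 ^ (k + 2)) (G.nb (2 ^ (k + 2))) + err k * 16 ^ k := by
  obtain ⟨-, C, hC⟩ := hS
  have hZ := Z_tendsto (G := G) hD P₀ hq
  set C' : ℝ := 11 * q * (G.Λ * (105 * T.t * q)) with hC'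
  refine ⟨fun k => 256 * (18 * T.t + 1) * (G.Z (2 ^ (k + 2)) / 16 ^ (k + 2)) +
    64 * (C + C') * (1 / 2) ^ k, ?_, ?_⟩
  · have t3 : Tendsto (fun k : ℕ => 256 * (18 * (T.t : ℝ) + 1) *
      (G.Z (2 ^ (k + 2)) / 16 ^ (k + 2))) atTop (nhds (256 * (18 * (T.t : ℝ) + 1) * 0)) :=
      ((tendsto_add_atTop_iff_nat 2).2 hZ).const_mul _
    have := t3.add (half_tendsto (64 * (C + C')))
    simpa using this
  · filter_upwards [pow2_tendsto.eventually hC] with k hk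
    have h1 := tot_le' (G := G) hD P₀ hq (four_le k)
    rw [XX_ub] at h1
    obtain ⟨p3, p4, p5⟩ := pow_facts k
    have h2 := hk
    rw [p3, p5] at h2
    rw [← hC', p3] at h1
    have e : XX q (2 ^ (k + 2)) (fun j => (dg T.t q (2 ^ (k + 2)) j : ℝ) * G.nb (2 ^ (k + 2)) j) =
      XF (G.fam hD hq) T.t k := rfl
    rw [e] at h1
    have e8 : (8 : ℝ) ^ k = (1 / 2) ^ k * 16 ^ k := by rw [← mul_pow]; norm_num
    have e16 : (16 : ℝ) ^ (k + 2) = 256 * 16 ^ k := by rw [pow_add]; ring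
    have p16 : (0 : ℝ) < 16 ^ k := by positivity
    have e5 : (G.Z (2 ^ (k + 2)) / 16 ^ (k + 2)) * (256 * 16 ^ k) = G.Z (2 ^ (k + 2)) := by
      rw [e16]
      field_simp
    rw [e8] at h1 h2
    have e6 : (256 * (18 * T.t + 1) * (G.Z (2 ^ (k + 2)) / 16 ^ (k + 2)) +
      64 * (C + C') * (1 / 2) ^ k) * 16 ^ k =
      (18 * T.t + 1) * ((G.Z (2 ^ (k + 2)) / 16 ^ (k + 2)) * (256 * 16 ^ k)) +
      (C + C') * (64 * ((1 / 2) ^ k * 16 ^ k)) := by ring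
    rw [e6, e5]
    nlinarith

include hD in
/-- the family of the averages has total weight `s₀ N⁵ + o(N⁴)`, from below. -/
theorem deficit (P₀ : T.X.Pt) (hq : 0 < q) {s₀ : ℝ} (hS : G.Crit s₀ 0) :
    ∃ err : ℕ → ℝ, Tendsto err atTop (nhds 0) ∧ ∀ᶠ k : ℕ in atTop,
      s₀ * (1024 * 32 ^ k) + XX q (2 ^ (k + 2)) (G.yb (2 ^ (k + 2))) ≤
      XF (G.fam hD hq) T.t k + err k * 16 ^ k := by
  obtain ⟨err, h1, h2⟩ := basic_ineq hD P₀ hq hS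
  refine ⟨fun k => err k + T.t / 12 * (320000 * q * G.Λ * (1 / 4) ^ k +
    1032000 * (q : ℝ) ^ 2 * (G.fam hD hq).def_ k), ?_, ?_⟩
  · have t2 : Tendsto (fun k : ℕ => 1032000 * (q : ℝ) ^ 2 * (G.fam hD hq).def_ k) atTop
      (nhds (1032000 * (q : ℝ) ^ 2 * 0)) := (G.fam hD hq).def_tendsto.const_mul _
    have := h1.add (((quarter_tendsto (320000 * (q : ℝ) * G.Λ)).add t2).const_mul ((T.t : ℝ) / 12))
    simpa using this
  · filter_upwards [h2] with k hk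
    have h3 := (G.fam hD hq).lam_le hq k
    rw [fam_ν, fam_C] at h3
    have h4 := (G.fam hD hq).gap_nonneg k
    have h5 : 0 ≤ SS q (2 ^ (k + 2)) (G.yb (2 ^ (k + 2))) :=
      SS_nonneg fun j hj => yb_nonneg hD hq (four_le k) hj
    have h6 : (0 : ℝ) ≤ 50 * (q * ((2 ^ (k + 2) : ℕ) : ℝ)) *
      SS q (2 ^ (k + 2)) (G.yb (2 ^ (k + 2))) := by positivity
    have e4 : (4 : ℝ) ^ k = (1 / 4) ^ k * 16 ^ k := by rw [← mul_pow]; norm_num
    rw [e4] at h3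
    have ht : (0 : ℝ) ≤ T.t / 12 := by positivity
    have h7 := mul_le_mul_of_nonneg_left h3 ht
    have h8 := mul_nonneg ht h4
    have e7 : (err k + T.t / 12 * (320000 * q * G.Λ * (1 / 4) ^ k +
      1032000 * (q : ℝ) ^ 2 * (G.fam hD hq).def_ k)) * 16 ^ k = err k * 16 ^ k +
      T.t / 12 * (320000 * q * G.Λ * ((1 / 4) ^ k * 16 ^ k) +
      1032000 * (q : ℝ) ^ 2 * (G.fam hD hq).def_ k * 16 ^ k) := by ring
    rw [e7]
    nlinarith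

include hD in
/-- upper bound: the vertical part does not contribute to the limit. -/
theorem XF_fam_upper (P₀ : T.X.Pt) (hq : 0 < q) {s₀ : ℝ} (hS : G.Crit s₀ 0) :
    ∀ ε > 0, ∀ᶠ k : ℕ in atTop, XF (G.fam hD hq) T.t k ≤ (1024 * s₀ + ε) * 32 ^ k := by
  intro ε hε
  obtain ⟨err, h1, h2⟩ := main_ineq_crit (G := G) hD P₀ hq hS
  -- error terms
  obtain ⟨⟨C₀, hC₀⟩, -⟩ := hS
  have t1 : Tendsto (fun k : ℕ => 64 * C₀ * (1 / 4 : ℝ) ^ k +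
      10000 * (q : ℝ) ^ 2 * err k) atTop (nhds 0) := by
    have := (quarter_tendsto (64 * C₀)).add
      (h1.const_mul (10000 * (q : ℝ) ^ 2))
    simpa using this
  filter_upwards [h2, t1.eventually (gt_mem_nhds hε)] with k hk hk'
  have h3 := hC₀ _ (four_le k)
  have h5 : ∑ j ∈ Icc (-((5 * q * 2 ^ (k + 2) : ℕ) : ℤ)) ((5 * q * 2 ^ (k + 2) : ℕ) : ℤ),
      Wt q (2 ^ (k + 2)) j * G.ub (2 ^ (k + 2)) j = XX q (2 ^ (k + 2)) (G.ub (2 ^ (k + 2))) :=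
    (sum_range_eq_Icc (5 * q * 2 ^ (k + 2)) (fun j => Wt q (2 ^ (k + 2)) j *
      G.ub (2 ^ (k + 2)) j)).symm
  rw [h5, XX_ub] at h3
  have e : XX q (2 ^ (k + 2)) (fun j => (dg T.t q (2 ^ (k + 2)) j : ℝ) * G.nb (2 ^ (k + 2)) j) =
      XF (G.fam hD hq) T.t k := rfl
  rw [e] at h3
  obtain ⟨p3, p4, p5⟩ := pow_facts k
  rw [p5, p3] at h3
  -- the vertical part
  have h6 : XX q (2 ^ (k + 2)) (G.yb (2 ^ (k + 2))) ≤
      625 * ((q : ℝ) * ((2 ^ (k + 2) : ℕ) : ℝ)) ^ 2 * SS q (2 ^ (k + 2)) (G.yb (2 ^ (k + 2))) := by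
    rw [XX_eq_SS, ← SS_mul]
    apply SS_mono
    intro j hj
    exact mul_le_mul_of_nonneg_right Wt_le (yb_nonneg hD hq (four_le k) hj)
  have h7 : G.ysum k = SS q (2 ^ (k + 2)) (G.yb (2 ^ (k + 2))) := by
    rw [SS_eq_Icc]
    rfl
  have h8 := (G.fam hD hq).gap_nonneg k
  have ht : (0 : ℝ) ≤ T.t * (G.fam hD hq).gap k := by positivity
  have hk2 : 2400 * q * 2 ^ k * G.ysum k ≤ err k * 16 ^ k := by linarith
  rw [← h7] at h6
  have hys := G.ysum_nonneg hD hq k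
  have e1 : ((2 ^ (k + 2) : ℕ) : ℝ) = 4 * 2 ^ k := by push_cast; rw [pow_add]; ring
  rw [e1] at h6
  have p2 : (0 : ℝ) < 2 ^ k := by positivity
  have hq1 : (1 : ℝ) ≤ q := by exact_mod_cast hq
  have h9 : 625 * ((q : ℝ) * (4 * 2 ^ k)) ^ 2 * G.ysum k ≤ 10000 * (q : ℝ) ^ 2 * err k * 32 ^ k := by
    have h10 : G.ysum k * 2 ^ k ≤ err k * 16 ^ k := by
      have : 0 ≤ G.ysum k * 2 ^ k := by positivity
      nlinarith
    have e32 : (32 : ℝ) ^ k = 2 ^ k * 16 ^ k := by rw [← mul_pow]; norm_num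
    have h11 : 10000 * (q : ℝ) ^ 2 * 2 ^ k * (G.ysum k * 2 ^ k) ≤
        10000 * (q : ℝ) ^ 2 * 2 ^ k * (err k * 16 ^ k) :=
      mul_le_mul_of_nonneg_left h10 (by positivity)
    rw [e32]
    nlinarith
  have e32 : (8 : ℝ) ^ k = (1 / 4) ^ k * 32 ^ k := by rw [← mul_pow]; norm_num
  rw [e32] at h3
  have p32 : (0 : ℝ) < 32 ^ k := by positivity
  have h12 : (64 * C₀ * (1 / 4 : ℝ) ^ k +
      10000 * (q : ℝ) ^ 2 * err k) * 32 ^ k ≤ ε * 32 ^ k :=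
    mul_le_mul_of_nonneg_right hk'.le p32.le
  nlinarith

end Graded

end Pool.Agent.YTD
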