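import Pool.Agent.YTD.Fam3

/-!
Averages of three-dimensional families.
-/

namespace Pool.Agent.YTD

open Finset Module Filter

theorem four_le' (k : ℕ) : 4 ≤ 2 ^ (k + 2) := by
  have : 1 ≤ 2 ^ k := Nat.one_le_two_pow
  rw [pow_add]
  omega

theorem P3_iff_InR {q k : ℕ} {j a b : ℤ} : P3 (4 * q) k j a b ↔
    0 ≤ a ∧ 0 ≤ b ∧ InR q (2 ^ (k + 2)) j a.toNat b.toNat := by
  have e1 : 5 * ((4 * q : ℕ) : ℤ) * 2 ^ k = 5 * q * ((2 ^ (k + 2) : ℕ) : ℤ) := by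
    push_cast; rw [pow_add]; ring
  have e2 : 25 * ((4 * q : ℕ) : ℤ) * 2 ^ k = 25 * q * ((2 ^ (k + 2) : ℕ) : ℤ) := by
    push_cast; rw [pow_add]; ring
  unfold P3 InR
  rw [e1, e2]
  constructor
  · rintro ⟨h1, h2, h3, h4, h5⟩
    rw [Int.toNat_of_nonneg h2, Int.toNat_of_nonneg h4]
    exact ⟨h2, h4, h1, h3, h5⟩
  · rintro ⟨h2, h4, h1, h3, h5⟩
    rw [Int.toNat_of_nonneg h2] at h3
    rw [Int.toNat_of_nonneg h4] at h5
    exact ⟨h1, h2, h3, h4, h5⟩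

theorem P3_of_InR {q k : ℕ} {j : ℤ} {a b : ℕ} (h : InR q (2 ^ (k + 2)) j a b) :
    P3 (4 * q) k j a b := by
  rw [P3_iff_InR]
  refine ⟨by positivity, by positivity, ?_⟩
  simpa using h

theorem P3_zero {Q k : ℕ} {j : ℤ} (h : |j| ≤ 5 * Q * 2 ^ k) : P3 Q k j 0 0 := by
  have h1 := abs_le.1 h
  refine ⟨h, le_rfl, ?_, le_rfl, ?_⟩
  · linarith [h1.1, show (0 : ℤ) ≤ 5 * Q * 2 ^ k by positivity]
  · linarith [h1.2, show (0 : ℤ) ≤ 5 * Q * 2 ^ k by positivity]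

namespace Fam

variable {Q : ℕ} (F : Fam Q)

theorem ψ_add {k : ℕ} {j j' : ℤ} (h : |j| ≤ 5 * Q * 2 ^ k) (h' : |j'| ≤ 5 * Q * 2 ^ k) :
    F.ψ k j + F.ψ k j' ≤ F.ψ (k + 1) (j + j') := by
  have h'' : |j + j'| ≤ 5 * Q * 2 ^ (k + 1) := by
    have e1 : 5 * (Q : ℤ) * 2 ^ (k + 1) = 5 * Q * 2 ^ k + 5 * Q * 2 ^ k := by rw [pow_succ]; ring
    rw [e1]
    exact (abs_add_le _ _).trans (add_le_add h h')
  refine le_of_tendsto_of_tendsto' ((F.tendsto_ψ h).add (F.tendsto_ψ h')) (F.tendsto_ψ h'') ?_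
  intro i
  unfold ap
  rw [← add_div]
  apply div_le_div_of_nonneg_right _ (by positivity)
  have := F.add (k + i) _ _ (rng_pow h i) (rng_pow h' i)
  rw [← mul_add] at this
  rwa [show k + 1 + i = k + i + 1 by ring]

/-- the envelope as a family. -/
noncomputable def env : Fam Q where
  ν := F.ψ
  C := F.C
  nonneg := fun _ _ h => F.ψ_nonneg h
  le := fun _ _ h => F.ψ_le h
  add := fun _ _ _ h h' => F.ψ_add h h'

end Fam

namespace Fam3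

variable {q : ℕ} (F : Fam3 (4 * q))

/-- the family of averages. -/
noncomputable def avg : Fam (4 * q) where
  ν := fun k j => av q (2 ^ (k + 2)) j fun a b => F.ν k j a b
  C := F.C
  nonneg := by
    intro k j h
    exact av_nonneg (rng4.2 h) fun a b hab => F.nonneg _ _ _ _ (P3_of_InR hab)
  le := by
    intro k j h
    rw [← av_const q (2 ^ (k + 2)) j (F.C * 2 ^ k)]
    exact av_mono (rng4.2 h) fun a b hab => F.le _ _ _ _ (P3_of_InR hab)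
  add := by
    intro k j j' h h'
    have := av_add_le (q := q) (L := 2 ^ (k + 2)) (L' := 2 ^ (k + 2)) (j := j) (j' := j')
      (rng4.2 h) (rng4.2 h') (f := fun a b => F.ν k j a b) (g := fun a b => F.ν k j' a b)
      (H := fun a b => F.ν (k + 1) (j + j') a b) (by
        intro a a' b b' h1 h2
        have := F.add k _ _ _ _ _ _ (P3_of_InR h1) (P3_of_InR h2)
        push_cast
        exact this)
    rw [← two_mul, ← pow_succ'] at this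
    exact this

theorem sum_Pset (k : ℕ) (f : ℤ × ℤ × ℤ → ℝ) : ∑ p ∈ Pset (4 * q) k, f p =
    SS q (2 ^ (k + 2)) (fun j => mult q (2 ^ (k + 2)) j *
      av q (2 ^ (k + 2)) j fun a b => f (j, (a : ℤ), (b : ℤ))) := by
  classical
  rw [SS_eq_Icc]
  have h1 : ∀ j ∈ Icc (-((5 * q * 2 ^ (k + 2) : ℕ) : ℤ)) ((5 * q * 2 ^ (k + 2) : ℕ) : ℤ),
      mult q (2 ^ (k + 2)) j * (av q (2 ^ (k + 2)) j fun a b => f (j, (a : ℤ), (b : ℤ))) =
      ∑ a ∈ range (AA q (2 ^ (k + 2)) j + 1), ∑ b ∈ range (BB q (2 ^ (k + 2)) j + 1),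
        f (j, (a : ℤ), (b : ℤ)) := by
    intro j hj
    exact av_mult (mem_Icc_iff.1 hj) _
  rw [sum_congr rfl h1]
  have h2 : ∑ j ∈ Icc (-((5 * q * 2 ^ (k + 2) : ℕ) : ℤ)) ((5 * q * 2 ^ (k + 2) : ℕ) : ℤ),
      ∑ a ∈ range (AA q (2 ^ (k + 2)) j + 1), ∑ b ∈ range (BB q (2 ^ (k + 2)) j + 1),
        f (j, (a : ℤ), (b : ℤ)) =
      ∑ x ∈ (Icc (-((5 * q * 2 ^ (k + 2) : ℕ) : ℤ)) ((5 * q * 2 ^ (k + 2) : ℕ) : ℤ)).sigma
        (fun j => range (AA q (2 ^ (k + 2)) j + 1) ×ˢ range (BB q (2 ^ (k + 2)) j + 1)),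
        f (x.1, (x.2.1 : ℤ), (x.2.2 : ℤ)) := by
    rw [sum_sigma]
    apply sum_congr rfl
    intro j _
    rw [sum_product]
  rw [h2]
  symm
  refine sum_bij' (fun x _ => (x.1, (x.2.1 : ℤ), (x.2.2 : ℤ)))
    (fun p _ => ⟨p.1, (p.2.1.toNat, p.2.2.toNat)⟩) ?_ ?_ ?_ ?_ ?_
  · rintro ⟨j, a, b⟩ hx
    rw [mem_sigma, mem_product, mem_range, mem_range] at hx
    rw [mem_Pset]
    exact P3_of_InR ((inR_iff (mem_Icc_iff.1 hx.1)).2
      ⟨Nat.lt_succ_iff.1 hx.2.1, Nat.lt_succ_iff.1 hx.2.2⟩)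
  · rintro ⟨j, a, b⟩ hp
    rw [mem_Pset, P3_iff_InR] at hp
    obtain ⟨_, _, h3⟩ := hp
    have h4 := (inR_iff h3.1).1 h3
    rw [mem_sigma, mem_product, mem_range, mem_range]
    exact ⟨mem_Icc_iff.2 h3.1, Nat.lt_succ_iff.2 h4.1, Nat.lt_succ_iff.2 h4.2⟩
  · rintro ⟨j, a, b⟩ _
    simp
  · rintro ⟨j, a, b⟩ hp
    rw [mem_Pset, P3_iff_InR] at hp
    simp only [Int.toNat_of_nonneg hp.1, Int.toNat_of_nonneg hp.2.1]
  · rintro ⟨j, a, b⟩ _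
    rfl

theorem T_eq (k : ℕ) : F.T k =
    SS q (2 ^ (k + 2)) (fun j => mult q (2 ^ (k + 2)) j * F.avg.ν k j) := by
  unfold T
  rw [sum_Pset]
  rfl

theorem avg_le_env {k : ℕ} {j : ℤ} (h : |j| ≤ 5 * q * ((2 ^ (k + 2) : ℕ) : ℤ)) :
    F.avg.ν k j ≤ F.env.avg.ν k j :=
  av_mono h fun _ _ hab => F.ν_le_m (P3_of_InR hab)

theorem mult_ge {q N : ℕ} {j : ℤ} (h : |j| ≤ 5 * q * N) :
    400 * ((q : ℝ) * N) ^ 2 ≤ mult q N j := by
  rw [mult_eq]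
  have h1 : |(j : ℝ)| ≤ 5 * q * N := by exact_mod_cast h
  have h2 : (j : ℝ) ^ 2 ≤ (5 * q * N) ^ 2 := sq_le_sq' (by linarith [(abs_le.1 h1).1])
    (abs_le.1 h1).2
  have h3 : (0 : ℝ) ≤ q * N := by positivity
  nlinarith

/-- the averages of the family and of its envelope are close. -/
theorem SS_env_sub (hq : 0 < q) (k : ℕ) :
    6400 * (q : ℝ) ^ 2 * 4 ^ k * SS q (2 ^ (k + 2)) (fun j => F.env.avg.ν k j - F.avg.ν k j) ≤
      F.env.T k - F.T k := by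
  rw [T_eq, T_eq, ← SS_sub, ← SS_mul]
  apply SS_mono
  intro j hj
  rw [← mul_sub]
  have h1 := mult_ge hj
  have h2 := F.avg_le_env hj
  have e : 400 * ((q : ℝ) * ((2 ^ (k + 2) : ℕ) : ℝ)) ^ 2 = 6400 * (q : ℝ) ^ 2 * 4 ^ k := by
    push_cast
    rw [show (4 : ℝ) ^ k = 2 ^ k * 2 ^ k by rw [← mul_pow]; norm_num, pow_add]
    ring
  rw [e] at h1
  exact mul_le_mul_of_nonneg_right h1 (by linarith)

end Fam3

variable {K : Type} [Field K] [Algebra ℂ K]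
variable {T : Datum K} {q : ℕ} {D₀ : T.X.Pt →₀ ℤ}

namespace Graded

variable (G : Graded T q D₀)
variable (hD : T.X.deg D₀ = 105 * T.t * q)

/-- the three-dimensional family of lengths. -/
noncomputable def fam3 (hq : 0 < q) : Fam3 (4 * q) where
  ν := fun k j a b => (G.nn (2 ^ (k + 2)) j a.toNat b.toNat : ℝ)
  C := 4 * G.Λ
  nonneg := fun _ _ _ _ _ => by positivity
  le := by
    intro k j a b _
    have h1 := G.nn_le (2 ^ (k + 2)) j a.toNat b.toNat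
    have h2 : (G.nn (2 ^ (k + 2)) j a.toNat b.toNat : ℝ) ≤ G.Λ * ((2 ^ (k + 2) : ℕ) : ℝ) := by
      exact_mod_cast h1
    refine h2.trans (le_of_eq ?_)
    push_cast
    rw [pow_add]
    ring
  add := by
    intro k j a b j' a' b' h h'
    rw [P3_iff_InR] at h h'
    have := nn_add (G := G) hD hq (four_le k) (four_le k) h.2.2 h'.2.2
    rw [← two_mul, ← pow_succ', ← Int.toNat_add h.1 h'.1, ← Int.toNat_add h.2.1 h'.2.1] at this
    exact_mod_cast this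

theorem fam3_avg (hq : 0 < q) (k : ℕ) (j : ℤ) :
    (G.fam3 hD hq).avg.ν k j = G.nb (2 ^ (k + 2)) j := by
  show av q (2 ^ (k + 2)) j (fun a b => (G.nn (2 ^ (k + 2)) j ((a : ℤ).toNat) ((b : ℤ).toNat) : ℝ)) = _
  simp only [Int.toNat_natCast]
  rfl

end Graded

end Pool.Agent.YTD
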