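import Pool.Agent.YTD.Rigid4

/-!
Equality analysis: the envelope of the lengths is close to the lengths.
-/

namespace Pool.Agent.YTD

open Finset Module Filter

theorem XF_diff {q : ℕ} (A B : Fam (4 * q)) (t k : ℕ) : XF B t k - XF A t k =
    XX q (2 ^ (k + 2)) (fun j => (dg t q (2 ^ (k + 2)) j : ℝ) * (B.ν k j - A.ν k j)) := by
  unfold XF
  rw [← XX_sub]
  congr 1
  funext j
  ring

theorem XF_diff_le {q : ℕ} {A B : Fam (4 * q)} (t k : ℕ)
    (h : ∀ j : ℤ, |j| ≤ 5 * q * ((2 ^ (k + 2) : ℕ) : ℤ) → A.ν k j ≤ B.ν k j) :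
    XF B t k - XF A t k ≤ 4200000 * t * (q : ℝ) ^ 3 * 8 ^ k *
      SS q (2 ^ (k + 2)) (fun j => B.ν k j - A.ν k j) := by
  rw [XF_diff]
  refine (XX_dg_le fun j hj => sub_nonneg.2 (h j hj)).trans (le_of_eq ?_)
  obtain ⟨p3, _, _⟩ := Graded.pow_facts k
  rw [mul_pow, p3]
  ring

theorem XF_diff_ge {q : ℕ} {A B : Fam (4 * q)} (t k : ℕ)
    (h : ∀ j : ℤ, |j| ≤ 5 * q * ((2 ^ (k + 2) : ℕ) : ℤ) → A.ν k j ≤ B.ν k j) :
    64000 * t * (q : ℝ) ^ 3 * 8 ^ k * SS q (2 ^ (k + 2)) (fun j => B.ν k j - A.ν k j) ≤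
      XF B t k - XF A t k := by
  rw [XF_diff]
  refine le_trans (le_of_eq ?_) (XX_dg_ge fun j hj => sub_nonneg.2 (h j hj))
  obtain ⟨p3, _, _⟩ := Graded.pow_facts k
  rw [mul_pow, p3]
  ring

theorem Fam.SS_close {q : ℕ} (hq : 0 < q) (F : Fam (4 * q)) (k : ℕ) :
    SS q (2 ^ (k + 2)) (fun j => F.ψ k j - F.ν k j) ≤ F.def_ k * 4 ^ k := by
  have h := F.sum_close (by positivity) k
  have e : 5 * (4 * q) * 2 ^ k = 5 * q * 2 ^ (k + 2) := by rw [pow_add]; ring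
  rw [e] at h
  exact h

variable {K : Type} [Field K] [Algebra ℂ K]
variable {T : Datum K} {q : ℕ} {D₀ : T.X.Pt →₀ ℤ}

namespace Graded

variable {G : Graded T q D₀}
variable (hD : T.X.deg D₀ = 105 * T.t * q)

variable (G) in
/-- the family of averages of the envelope. -/
noncomputable def Mf (hq : 0 < q) : Fam (4 * q) := (G.fam3 hD hq).env.avg

theorem fam_ν_eq (hq : 0 < q) (k : ℕ) (j : ℤ) :
    (G.fam hD hq).ν k j = (G.fam3 hD hq).avg.ν k j := by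
  rw [fam3_avg, fam_ν]

theorem nb_le_Mf (hq : 0 < q) {k : ℕ} {j : ℤ} (h : |j| ≤ 5 * q * ((2 ^ (k + 2) : ℕ) : ℤ)) :
    (G.fam hD hq).ν k j ≤ (G.Mf hD hq).ν k j := by
  rw [fam_ν_eq]
  exact (G.fam3 hD hq).avg_le_env h

theorem Mf_le_ψ (hq : 0 < q) {k : ℕ} {j : ℤ} (h : |j| ≤ 5 * q * ((2 ^ (k + 2) : ℕ) : ℤ)) :
    (G.Mf hD hq).ν k j ≤ (G.Mf hD hq).ψ k j := (G.Mf hD hq).ν_le_ψ (rng4.1 h)

theorem close0 (hq : 0 < q) : ∃ η : ℕ → ℝ, Tendsto η atTop (nhds 0) ∧ ∀ k,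
    SS q (2 ^ (k + 2)) (fun j => (G.Mf hD hq).ψ k j - (G.fam hD hq).ν k j) ≤ η k * 4 ^ k := by
  have hQ : 0 < 4 * q := by positivity
  have h1 := (G.fam3 hD hq).T_sub_tendsto hQ
  refine ⟨fun k => (G.Mf hD hq).def_ k +
    1 / (6400 * (q : ℝ) ^ 2) * (((G.fam3 hD hq).env.T k - (G.fam3 hD hq).T k) / 16 ^ k), ?_, ?_⟩
  · have := (G.Mf hD hq).def_tendsto.add (h1.const_mul (1 / (6400 * (q : ℝ) ^ 2)))
    simpa using this
  · intro k
    have h2 := (G.Mf hD hq).SS_close hq k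
    have h3 := (G.fam3 hD hq).SS_env_sub hq k
    have e : SS q (2 ^ (k + 2)) (fun j => (G.Mf hD hq).ψ k j - (G.fam hD hq).ν k j) =
        SS q (2 ^ (k + 2)) (fun j => (G.Mf hD hq).ψ k j - (G.Mf hD hq).ν k j) +
        SS q (2 ^ (k + 2)) (fun j => (G.fam3 hD hq).env.avg.ν k j - (G.fam3 hD hq).avg.ν k j) := by
      rw [← SS_add]
      congr 1
      funext j
      rw [fam_ν_eq]
      unfold Mf
      ring
    rw [e]
    set A := SS q (2 ^ (k + 2)) (fun j => (G.fam3 hD hq).env.avg.ν k j - (G.fam3 hD hq).avg.ν k j)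
      with hA
    have hq' : (0 : ℝ) < q := by exact_mod_cast hq
    have h4 : A ≤ 1 / (6400 * (q : ℝ) ^ 2) *
        (((G.fam3 hD hq).env.T k - (G.fam3 hD hq).T k) / 16 ^ k) * 4 ^ k := by
      have e16 : (16 : ℝ) ^ k = 4 ^ k * 4 ^ k := by rw [← mul_pow]; norm_num
      have p4 : (0 : ℝ) < 4 ^ k := by positivity
      rw [e16]
      have : 1 / (6400 * (q : ℝ) ^ 2) *
        (((G.fam3 hD hq).env.T k - (G.fam3 hD hq).T k) / (4 ^ k * 4 ^ k)) * 4 ^ k =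
        ((G.fam3 hD hq).env.T k - (G.fam3 hD hq).T k) / (6400 * (q : ℝ) ^ 2 * 4 ^ k) := by
        field_simp
      rw [this, le_div_iff₀ (by positivity)]
      linarith
    linarith

/-- the envelope has the right total. -/
theorem XF_env_le (P₀ : T.X.Pt) (hq : 0 < q) {s₀ : ℝ} (hS : G.Crit s₀ 0) (k : ℕ) :
    XF (G.Mf hD hq).env T.t k ≤ 1024 * s₀ * 32 ^ k +
      400000 * T.t * (q : ℝ) ^ 2 * (4 * G.Λ) * 8 ^ k := by
  have h := XF_le hq (G.Mf hD hq).env T.t (s := 1024 * s₀) ?_ k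
  · exact h
  · intro ε hε
    obtain ⟨η, h1, h2⟩ := close0 (G := G) hD hq
    have h3 := XF_fam_upper hD P₀ hq hS (ε / 2) (half_pos hε)
    have t1 : Tendsto (fun k => 4200000 * T.t * (q : ℝ) ^ 3 * η k) atTop (nhds 0) := by
      have := h1.const_mul (4200000 * (T.t : ℝ) * (q : ℝ) ^ 3)
      simpa using this
    filter_upwards [h3, t1.eventually (gt_mem_nhds (half_pos hε))] with k hk hk'
    have h4 := XF_diff_le (A := G.fam hD hq) (B := (G.Mf hD hq).env) T.t k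
      (fun j hj => (nb_le_Mf hD hq hj).trans (Mf_le_ψ hD hq hj))
    have h5 := mul_le_mul_of_nonneg_left (h2 k)
      (show 0 ≤ 4200000 * T.t * (q : ℝ) ^ 3 * 8 ^ k by positivity)
    have e : (G.Mf hD hq).env.ν k = (G.Mf hD hq).ψ k := rfl
    rw [e] at h4
    have e32 : (32 : ℝ) ^ k = 8 ^ k * 4 ^ k := by rw [← mul_pow]; norm_num
    have p32 : (0 : ℝ) < 32 ^ k := by positivity
    have h6 : 4200000 * T.t * (q : ℝ) ^ 3 * 8 ^ k * (η k * 4 ^ k) ≤ ε / 2 * 32 ^ k := by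
      have := mul_le_mul_of_nonneg_right hk'.le p32.le
      rw [e32] at this ⊢
      linarith
    nlinarith

/-- main closeness statement. -/
theorem close1 (P₀ : T.X.Pt) (hq : 0 < q) {s₀ : ℝ} (hS : G.Crit s₀ 0) :
    ∃ η : ℕ → ℝ, Tendsto η atTop (nhds 0) ∧ ∀ᶠ k : ℕ in atTop,
    SS q (2 ^ (k + 2)) (fun j => (G.Mf hD hq).ψ k j - (G.fam hD hq).ν k j) ≤ η k * 2 ^ k := by
  obtain ⟨err, h1, h2⟩ := deficit hD P₀ hq hS
  have ht : (0 : ℝ) < T.t := by exact_mod_cast T.t_pos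
  have hq' : (0 : ℝ) < q := by exact_mod_cast hq
  set c : ℝ := 1 / (64000 * T.t * (q : ℝ) ^ 3) with hc
  set C : ℝ := 400000 * T.t * (q : ℝ) ^ 2 * (4 * G.Λ) with hC
  refine ⟨fun k => c * (err k + C * (1 / 2) ^ k), ?_, ?_⟩
  · have := (h1.add (half_tendsto C)).const_mul c
    simpa using this
  · filter_upwards [h2] with k hk
    have h3 := XF_env_le hD P₀ hq hS k
    rw [← hC] at h3
    have h4 := XF_diff_ge (A := G.fam hD hq) (B := (G.Mf hD hq).env) T.t k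
      (fun j hj => (nb_le_Mf hD hq hj).trans (Mf_le_ψ hD hq hj))
    have e : (G.Mf hD hq).env.ν k = (G.Mf hD hq).ψ k := rfl
    rw [e] at h4
    have hy := XX_yb_nonneg (G := G) hD hq (four_le k)
    set A := SS q (2 ^ (k + 2)) (fun j => (G.Mf hD hq).ψ k j - (G.fam hD hq).ν k j) with hA
    have h5 : 64000 * T.t * (q : ℝ) ^ 3 * 8 ^ k * A ≤ err k * 16 ^ k + C * 8 ^ k := by linarith
    have e8 : (16 : ℝ) ^ k = 2 ^ k * 8 ^ k := by rw [← mul_pow]; norm_num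
    have e1 : (2 : ℝ) ^ k * (1 / 2) ^ k = 1 := by rw [← mul_pow]; norm_num
    have p8 : (0 : ℝ) < 8 ^ k := by positivity
    have h6 : (64000 * T.t * (q : ℝ) ^ 3 * A) * 8 ^ k ≤
        ((err k + C * (1 / 2) ^ k) * 2 ^ k) * 8 ^ k := by
      have : ((err k + C * (1 / 2) ^ k) * 2 ^ k) * 8 ^ k =
          err k * (2 ^ k * 8 ^ k) + C * 8 ^ k * (2 ^ k * (1 / 2) ^ k) := by ring
      rw [this, e1, ← e8]
      linarith
    have h7 := le_of_mul_le_mul_right h6 p8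
    have h8 : A ≤ c * ((err k + C * (1 / 2) ^ k) * 2 ^ k) := by
      rw [hc, one_div, inv_mul_eq_div, le_div_iff₀ (by positivity)]
      linarith
    linarith

/-- the gap of the family of averages of the envelope. -/
theorem gap_Mf (P₀ : T.X.Pt) (hq : 0 < q) {s₀ : ℝ} (hS : G.Crit s₀ 0) :
    ∃ η : ℕ → ℝ, Tendsto η atTop (nhds 0) ∧ ∀ᶠ k : ℕ in atTop,
    (G.Mf hD hq).gap k ≤ η k * 16 ^ k := by
  obtain ⟨err, h1, h2⟩ := basic_ineq hD P₀ hq hS
  obtain ⟨η, h3, h4⟩ := close1 hD P₀ hq hS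
  have ht : (0 : ℝ) < T.t := by exact_mod_cast T.t_pos
  set C : ℝ := 400000 * T.t * (q : ℝ) ^ 2 * (4 * G.Λ) with hC
  refine ⟨fun k => 12 / T.t * (err k + C * (1 / 2) ^ k) + (320000 * q * G.Λ * (1 / 4) ^ k +
    1032000 * (q : ℝ) ^ 2 * (G.Mf hD hq).def_ k) + 1032000 * (q : ℝ) ^ 2 * (η k * (1 / 2) ^ k), ?_, ?_⟩
  · have t1 := (h1.add (half_tendsto C)).const_mul (12 / (T.t : ℝ))
    have t2 := (quarter_tendsto (320000 * (q : ℝ) * G.Λ)).add
      ((G.Mf hD hq).def_tendsto.const_mul (1032000 * (q : ℝ) ^ 2))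
    have t3 : Tendsto (fun k => 1032000 * (q : ℝ) ^ 2 * (η k * (1 / 2 : ℝ) ^ k)) atTop (nhds 0) := by
      have := (h3.mul (tendsto_pow_atTop_nhds_zero_of_lt_one (r := (1 / 2 : ℝ)) (by norm_num)
        (by norm_num))).const_mul (1032000 * (q : ℝ) ^ 2)
      simpa using this
    have := (t1.add t2).add t3
    simpa using this
  · filter_upwards [h2, h4] with k hk hk'
    have h5 := XF_env_le hD P₀ hq hS k
    rw [← hC] at h5
    have h6 := XF_diff_ge (A := G.fam hD hq) (B := (G.Mf hD hq).env) T.t k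
      (fun j hj => (nb_le_Mf hD hq hj).trans (Mf_le_ψ hD hq hj))
    have e : (G.Mf hD hq).env.ν k = (G.Mf hD hq).ψ k := rfl
    rw [e] at h6
    set A := SS q (2 ^ (k + 2)) (fun j => (G.Mf hD hq).ψ k j - (G.fam hD hq).ν k j) with hA
    have hA0 : 0 ≤ A := SS_nonneg fun j hj =>
      sub_nonneg.2 ((nb_le_Mf hD hq hj).trans (Mf_le_ψ hD hq hj))
    have h6' : 0 ≤ 64000 * T.t * (q : ℝ) ^ 3 * 8 ^ k * A := by positivity
    -- the vertical parts
    have hy := XX_yb_nonneg (G := G) hD hq (four_le k)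
    have hy' : 0 ≤ SS q (2 ^ (k + 2)) (G.yb (2 ^ (k + 2))) :=
      SS_nonneg fun j hj => yb_nonneg hD hq (four_le k) hj
    have hy'' : (0 : ℝ) ≤ 50 * (q * ((2 ^ (k + 2) : ℕ) : ℝ)) *
      SS q (2 ^ (k + 2)) (G.yb (2 ^ (k + 2))) := by positivity
    have h7 : -(T.t * Lam q (2 ^ (k + 2)) (G.nb (2 ^ (k + 2)))) ≤ err k * 16 ^ k + C * 8 ^ k := by
      linarith
    -- comparison of `Lam`
    have h8 : Lam q (2 ^ (k + 2)) (G.nb (2 ^ (k + 2))) ≤
        Lam q (2 ^ (k + 2)) ((G.Mf hD hq).ν k) +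
        5375 * ((q : ℝ) * ((2 ^ (k + 2) : ℕ) : ℝ)) ^ 2 *
          SS q (2 ^ (k + 2)) (fun j => (G.Mf hD hq).ν k j - (G.fam hD hq).ν k j) := by
      unfold Lam
      rw [SS_eq_Icc, mul_sum, add_right_comm, ← sum_add_distrib]
      apply add_le_add
      · apply sum_le_sum
        intro j hj
        have hj' := mem_Icc_iff.1 hj
        have h9 := nb_le_Mf (G := G) hD hq hj'
        rw [fam_ν] at h9
        rw [fam_ν]
        have h10 : |(j : ℝ)| ≤ 5 * q * ((2 ^ (k + 2) : ℕ) : ℝ) := by exact_mod_cast hj'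
        set Q : ℝ := (q : ℝ) * ((2 ^ (k + 2) : ℕ) : ℝ) with hQ
        have hQ0 : 0 ≤ Q := by positivity
        have h11 : max 0 (|(j : ℝ)| - 4 * Q) ≤ Q := by
          apply max_le hQ0
          rw [hQ]
          linarith
        have h12 : 5000 * Q * max 0 (|(j : ℝ)| - 4 * Q) ≤ 5000 * Q * Q :=
          mul_le_mul_of_nonneg_left h11 (by positivity)
        have h13 : -(5375 * Q ^ 2) ≤ 81 * (j : ℝ) ^ 2 - 375 * Q ^ 2 -
            5000 * Q * max 0 (|(j : ℝ)| - 4 * Q) := by nlinarith [sq_nonneg (j : ℝ)]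
        nlinarith
      · apply mul_le_mul_of_nonneg_left _ (by positivity)
        apply add_le_add
        · have := nb_le_Mf (G := G) hD hq (k := k) (j := ((5 * q * 2 ^ (k + 2) : ℕ) : ℤ)) (by
            rw [abs_of_nonneg (by positivity)]
            push_cast
            exact le_rfl)
          rwa [fam_ν] at this
        · have := nb_le_Mf (G := G) hD hq (k := k) (j := -((5 * q * 2 ^ (k + 2) : ℕ) : ℤ)) (by
            rw [abs_neg, abs_of_nonneg (by positivity)]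
            push_cast
            exact le_rfl)
          rwa [fam_ν] at this
    have h9 : SS q (2 ^ (k + 2)) (fun j => (G.Mf hD hq).ν k j - (G.fam hD hq).ν k j) ≤ A :=
      SS_mono fun j hj => by
        have := Mf_le_ψ (G := G) hD hq hj
        linarith
    have h10 := (G.Mf hD hq).lam_le hq k
    have eC : (G.Mf hD hq).C = 4 * G.Λ := rfl
    rw [eC] at h10
    obtain ⟨B, hB⟩ : ∃ B, B = SS q (2 ^ (k + 2)) (fun j => (G.Mf hD hq).ν k j -
      (G.fam hD hq).ν k j) := ⟨_, rfl⟩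
    rw [← hB] at h8 h9
    have eQ : 5375 * ((q : ℝ) * ((2 ^ (k + 2) : ℕ) : ℝ)) ^ 2 = 86000 * (q : ℝ) ^ 2 * 4 ^ k := by
      push_cast
      rw [show (4 : ℝ) ^ k = 2 ^ k * 2 ^ k by rw [← mul_pow]; norm_num, pow_add]
      ring
    rw [eQ] at h8
    have h11 : 86000 * (q : ℝ) ^ 2 * 4 ^ k * B ≤ 86000 * (q : ℝ) ^ 2 * 4 ^ k * (η k * 2 ^ k) :=
      mul_le_mul_of_nonneg_left (h9.trans hk') (by positivity)
    have e4 : (4 : ℝ) ^ k = (1 / 4) ^ k * 16 ^ k := by rw [← mul_pow]; norm_num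
    have e8 : (8 : ℝ) ^ k = (1 / 2) ^ k * 16 ^ k := by rw [← mul_pow]; norm_num
    have e82 : (4 : ℝ) ^ k * 2 ^ k = (1 / 2) ^ k * 16 ^ k := by
      rw [← mul_pow, ← mul_pow]; norm_num
    have h12 : 86000 * (q : ℝ) ^ 2 * 4 ^ k * (η k * 2 ^ k) =
        86000 * (q : ℝ) ^ 2 * (η k * ((1 / 2) ^ k * 16 ^ k)) := by
      rw [← e82]; ring
    rw [h12] at h11
    rw [e4] at h10
    rw [e8] at h7
    -- combine
    have h13 : -(12 * Lam q (2 ^ (k + 2)) (G.nb (2 ^ (k + 2)))) ≤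
        12 / T.t * (err k * 16 ^ k + C * ((1 / 2) ^ k * 16 ^ k)) := by
      rw [div_mul_eq_mul_div, le_div_iff₀ ht]
      linarith
    have e14 : (12 / T.t * (err k + C * (1 / 2) ^ k) + (320000 * q * G.Λ * (1 / 4) ^ k +
      1032000 * (q : ℝ) ^ 2 * (G.Mf hD hq).def_ k) + 1032000 * (q : ℝ) ^ 2 *
      (η k * (1 / 2) ^ k)) * 16 ^ k =
      12 / T.t * (err k * 16 ^ k + C * ((1 / 2) ^ k * 16 ^ k)) +
      (320000 * q * G.Λ * ((1 / 4) ^ k * 16 ^ k) +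
      1032000 * (q : ℝ) ^ 2 * (G.Mf hD hq).def_ k * 16 ^ k) +
      1032000 * (q : ℝ) ^ 2 * (η k * ((1 / 2) ^ k * 16 ^ k)) := by ring
    rw [e14]
    linarith

end Graded

end Pool.Agent.YTD
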