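import Pool.Agent.YTD.Rigid6
import Pool.Agent.YTD.Int3Def

/-!
Equality analysis: the envelope is affine in the fibre directions.
-/

namespace Pool.Agent.YTD

open Finset Filter

theorem Int3.p3 {Q k : ℕ} {j a b : ℤ} (h : Int3 Q k j a b) : P3 Q k j a b :=
  ⟨h.1.le, h.2.1.le, h.2.2.1.le, h.2.2.2.1.le, h.2.2.2.2.le⟩

namespace Fam3

variable {Q : ℕ} (F : Fam3 Q)

theorem P3_pert {K : ℕ} {j a b : ℤ} (h : Int3 Q K j a b) (i : ℕ) {r1 r3 : ℤ}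
    (h1 : 0 ≤ r1) (h1' : 4 * r1 ≤ 2 ^ i) (h3 : 0 ≤ r3) (h3' : 4 * r3 ≤ 2 ^ i) :
    P3 Q (K + i) (2 ^ i * j + r1) (2 ^ i * a) (2 ^ i * b + r3) := by
  obtain ⟨g1, g2, g3, g4, g5⟩ := h
  rw [abs_lt] at g1
  have p : (0 : ℤ) < 2 ^ i := by positivity
  have e5 : 5 * (Q : ℤ) * 2 ^ (K + i) = 2 ^ i * (5 * Q * 2 ^ K) := by rw [pow_add]; ring
  have e25 : 25 * (Q : ℤ) * 2 ^ (K + i) = 2 ^ i * (25 * Q * 2 ^ K) := by rw [pow_add]; ring
  have k1 : 2 ^ i * (j + 1) ≤ 2 ^ i * (5 * Q * 2 ^ K) :=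
    mul_le_mul_of_nonneg_left (by linarith [g1.2]) p.le
  have k2 : 2 ^ i * (-(5 * Q * 2 ^ K) + 1) ≤ 2 ^ i * j :=
    mul_le_mul_of_nonneg_left (by linarith [g1.1]) p.le
  have k3 : 2 ^ i * (a + 1) ≤ 2 ^ i * (25 * Q * 2 ^ K + 3 * j) :=
    mul_le_mul_of_nonneg_left (by linarith) p.le
  have k4 : 2 ^ i * (b + 1) ≤ 2 ^ i * (25 * Q * 2 ^ K - 3 * j) :=
    mul_le_mul_of_nonneg_left (by linarith) p.le
  have k5 : 0 ≤ 2 ^ i * a := mul_nonneg p.le g2.le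
  have k6 : 0 ≤ 2 ^ i * b := mul_nonneg p.le g4.le
  refine ⟨?_, k5, ?_, by linarith, ?_⟩
  · rw [abs_le, e5]
    constructor <;> linarith
  · rw [e25]; linarith
  · rw [e25]; linarith

theorem P3_pert' {K : ℕ} {j a b : ℤ} (h : Int3 Q K j a b) (i : ℕ) {r1 r3 : ℤ}
    (h1 : 0 ≤ r1) (h1' : 4 * r1 ≤ 2 ^ i) (h3 : 0 ≤ r3) (h3' : 4 * r3 ≤ 2 ^ i) :
    P3 Q (K + i) (2 ^ i * j - r1) (2 ^ i * a) (2 ^ i * b - r3) := by
  obtain ⟨g1, g2, g3, g4, g5⟩ := h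
  rw [abs_lt] at g1
  have p : (0 : ℤ) < 2 ^ i := by positivity
  have e5 : 5 * (Q : ℤ) * 2 ^ (K + i) = 2 ^ i * (5 * Q * 2 ^ K) := by rw [pow_add]; ring
  have e25 : 25 * (Q : ℤ) * 2 ^ (K + i) = 2 ^ i * (25 * Q * 2 ^ K) := by rw [pow_add]; ring
  have k1 : 2 ^ i * (j + 1) ≤ 2 ^ i * (5 * Q * 2 ^ K) :=
    mul_le_mul_of_nonneg_left (by linarith [g1.2]) p.le
  have k2 : 2 ^ i * (-(5 * Q * 2 ^ K) + 1) ≤ 2 ^ i * j :=
    mul_le_mul_of_nonneg_left (by linarith [g1.1]) p.le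
  have k3 : 2 ^ i * (a + 1) ≤ 2 ^ i * (25 * Q * 2 ^ K + 3 * j) :=
    mul_le_mul_of_nonneg_left (by linarith) p.le
  have k4 : 2 ^ i * (b + 1) ≤ 2 ^ i * (25 * Q * 2 ^ K - 3 * j) :=
    mul_le_mul_of_nonneg_left (by linarith) p.le
  have k5 : 0 ≤ 2 ^ i * a := mul_nonneg p.le g2.le
  have k6 : 2 ^ i * 1 ≤ 2 ^ i * b := mul_le_mul_of_nonneg_left (by linarith) p.le
  refine ⟨?_, k5, ?_, by linarith, ?_⟩
  · rw [abs_le, e5]
    constructor <;> linarith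
  · rw [e25]; linarith
  · rw [e25]; linarith

theorem pert_lower {K : ℕ} {j a b : ℤ} (h : Int3 Q K j a b) (s n : ℕ) {r1 r3 : ℤ}
    (h1 : 0 ≤ r1) (h1' : r1 < 2 ^ n) (h3 : 0 ≤ r3) (h3' : r3 < 2 ^ n) :
    (2 ^ s - 1) * 2 ^ (n + 2) * F.m K j a b ≤ F.m (K + (s + 2 + n)) (2 ^ (s + 2 + n) * j + r1)
      (2 ^ (s + 2 + n) * a) (2 ^ (s + 2 + n) * b + r3) := by
  have e4 : (2 : ℤ) ^ (n + 2) = 4 * 2 ^ n := by rw [pow_add]; ring
  have hy := P3_pert h (n + 2) h1 (by rw [e4]; linarith) h3 (by rw [e4]; linarith)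
  have hx := h.p3.pow (n + 2)
  obtain ⟨_, g2⟩ := F.m_chain hx hy s
  have g3 := F.m_nonneg hy
  rw [F.m_pow h.p3] at g2
  have e : K + (n + 2) + s = K + (s + 2 + n) := by ring
  have e1 : ∀ x y : ℤ, (2 ^ s - 1) * (2 ^ (n + 2) * x) + (2 ^ (n + 2) * x + y) =
      2 ^ (s + 2 + n) * x + y := by
    intro x y
    have : (2 : ℤ) ^ (s + 2 + n) = 2 ^ s * 2 ^ (n + 2) := by rw [← pow_add]; congr 1; ring
    rw [this]
    ring
  have e2 : (2 ^ s - 1) * (2 ^ (n + 2) * a) + (2 ^ (n + 2) * a) = 2 ^ (s + 2 + n) * a := by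
    have := e1 a 0
    simpa using this
  rw [e, e1, e1, e2] at g2
  linarith

theorem pert_upper {K : ℕ} {j a b : ℤ} (h : Int3 Q K j a b) (s n : ℕ) {r1 r3 : ℤ}
    (h1 : 0 ≤ r1) (h1' : r1 < 2 ^ n) (h3 : 0 ≤ r3) (h3' : r3 < 2 ^ n) :
    (2 ^ s - 1) * F.m (K + (s + 2 + n)) (2 ^ (s + 2 + n) * j + r1)
      (2 ^ (s + 2 + n) * a) (2 ^ (s + 2 + n) * b + r3) ≤
      2 ^ (s + (s + 2 + n)) * F.m K j a b := by
  have e4 : (2 : ℤ) ^ (s + 2 + n) = 4 * (2 ^ s * 2 ^ n) := by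
    rw [← pow_add, show s + 2 + n = 2 + (s + n) by ring, pow_add]; ring
  have ps : (1 : ℤ) ≤ 2 ^ s := one_le_pow₀ (by norm_num)
  have pn : (0 : ℤ) < 2 ^ n := by positivity
  have b1 : 4 * r1 ≤ 2 ^ (s + 2 + n) := by rw [e4]; nlinarith
  have b3 : 4 * r3 ≤ 2 ^ (s + 2 + n) := by rw [e4]; nlinarith
  have c1 : 4 * ((2 ^ s - 1) * r1) ≤ 2 ^ (s + 2 + n) := by rw [e4]; nlinarith
  have c3 : 4 * ((2 ^ s - 1) * r3) ≤ 2 ^ (s + 2 + n) := by rw [e4]; nlinarith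
  have hx := P3_pert h (s + 2 + n) h1 b1 h3 b3
  have hy := P3_pert' h (s + 2 + n) (mul_nonneg (by linarith) h1) c1
    (mul_nonneg (by linarith) h3) c3
  obtain ⟨_, g2⟩ := F.m_chain hx hy s
  have g3 := F.m_nonneg hy
  have e : K + (s + 2 + n) + s = K + (s + (s + 2 + n)) := by ring
  have e1 : ∀ x y : ℤ, (2 ^ s - 1) * (2 ^ (s + 2 + n) * x + y) +
      (2 ^ (s + 2 + n) * x - (2 ^ s - 1) * y) = 2 ^ (s + (s + 2 + n)) * x := by
    intro x y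
    rw [pow_add 2 s (s + 2 + n)]
    ring
  have e2 : (2 ^ s - 1) * (2 ^ (s + 2 + n) * a) + (2 ^ (s + 2 + n) * a) =
      2 ^ (s + (s + 2 + n)) * a := by
    have := e1 a 0
    simpa using this
  rw [e, e1, e1, e2, F.m_pow h.p3] at g2
  linarith

end Fam3

namespace Fam3

variable {q : ℕ} (F : Fam3 (4 * q))

theorem line_le (hq : 0 < q) {K : ℕ} {j b : ℤ} {a : ℕ} (h1 : Int3 (4 * q) K j ((a : ℤ) - 1) b)
    (h2 : Int3 (4 * q) K j ((a : ℤ) + 1) b) (s n : ℕ) {r1 r3 : ℤ}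
    (g1 : 0 ≤ r1) (g1' : r1 < 2 ^ n) (g3 : 0 ≤ r3) (g3' : r3 < 2 ^ n) :
    2 ^ (s + 2 + n + (n + 2)) * (4 ^ s * (2 * F.m K j a b - F.m K j (a - 1) b -
      F.m K j (a + 1) b) - 4 * 2 ^ s * F.m K j a b) ≤
      (2 ^ s - 1) * F.WW (K + (s + 2 + n)) (2 ^ (s + 2 + n) * j + r1)
        (2 ^ (s + 2 + n) * b + r3) := by
  have h0 : Int3 (4 * q) K j a b :=
    ⟨h1.1, by linarith [h1.2.1], by linarith [h2.2.2.1], h1.2.2.2.1, h1.2.2.2.2⟩
  have ha2 : 2 ≤ a := by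
    have := h1.2.1
    omega
  have e4 : (2 : ℤ) ^ (s + 2 + n) = 4 * (2 ^ s * 2 ^ n) := by
    rw [← pow_add, show s + 2 + n = 2 + (s + n) by ring, pow_add]; ring
  have ps : (1 : ℤ) ≤ 2 ^ s := one_le_pow₀ (by norm_num)
  have pn : (0 : ℤ) < 2 ^ n := by positivity
  have b1 : 4 * r1 ≤ 2 ^ (s + 2 + n) := by rw [e4]; nlinarith
  have b3 : 4 * r3 ≤ 2 ^ (s + 2 + n) := by rw [e4]; nlinarith
  have hx := P3_pert h0 (s + 2 + n) g1 b1 g3 b3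
  have L0 := F.pert_lower h0 s n g1 g1' g3 g3'
  have L1 := F.pert_upper h1 s n g1 g1' g3 g3'
  have L2 := F.pert_upper h2 s n g1 g1' g3 g3'
  set i := s + 2 + n with hi
  set k := K + i with hk
  set j' : ℤ := 2 ^ i * j + r1 with hj'
  set b' : ℤ := 2 ^ i * b + r3 with hb'
  have hA := AA_cast hx.1
  set A := AA q (2 ^ (k + 2)) j' with hAdef
  have pi : (0 : ℤ) < 2 ^ i := by positivity
  have hAge : 2 ^ i * a + 2 * 2 ^ i ≤ A + 1 := by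
    have t1 : 2 ^ i * ((a : ℤ) + 2) ≤ 2 ^ i * (25 * ((4 * q : ℕ) : ℤ) * 2 ^ K + 3 * j) :=
      mul_le_mul_of_nonneg_left (by linarith [h2.2.2.1]) pi.le
    have t2 : 25 * ((4 * q : ℕ) : ℤ) * 2 ^ k = 2 ^ i * (25 * ((4 * q : ℕ) : ℤ) * 2 ^ K) := by
      rw [hk, pow_add]; ring
    have t3 : (2 : ℤ) ^ i * a + 2 * 2 ^ i ≤ A + 1 := by
      rw [hA, t2, hj']
      linarith
    exact_mod_cast t3
  have S := second_le (fun x => F.m k j' x b') A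
    (fun x hx' => F.line_concave hx.1 hx.2.2.2.1 hx.2.2.2.2 x hx') (h := 2 ^ i) (x := 2 ^ i * a)
    Nat.one_le_two_pow (by nlinarith [Nat.one_le_two_pow (n := i)]) hAge
  have eW : 2 * ∑ x ∈ range (A + 1), F.m k j' x b' - ((A : ℝ) + 1) *
      (F.m k j' ((0 : ℕ) : ℤ) b' + F.m k j' A b') = F.WW k j' b' := by
    unfold WW
    rw [← hAdef, Nat.cast_zero]
  rw [eW] at S
  have c1 : ((2 ^ i * a - 2 ^ i : ℕ) : ℤ) = 2 ^ i * ((a : ℤ) - 1) := by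
    rw [Nat.cast_sub (by nlinarith [Nat.one_le_two_pow (n := i)])]
    push_cast
    ring
  have c2 : ((2 ^ i * a + 2 ^ i : ℕ) : ℤ) = 2 ^ i * ((a : ℤ) + 1) := by push_cast; ring
  have c0 : ((2 ^ i * a : ℕ) : ℤ) = 2 ^ i * (a : ℤ) := by push_cast; ring
  rw [c1, c2, c0] at S
  set m0 := F.m k j' (2 ^ i * (a : ℤ)) b'
  set m1 := F.m k j' (2 ^ i * ((a : ℤ) - 1)) b'
  set m2 := F.m k j' (2 ^ i * ((a : ℤ) + 1)) b'
  set M0 := F.m K j a b with hM0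
  set M1 := F.m K j (a - 1) b
  set M2 := F.m K j (a + 1) b
  have hM0' : 0 ≤ M0 := F.m_nonneg h0.p3
  push_cast at S
  set x : ℝ := 2 ^ s with hx'
  have hx1 : (1 : ℝ) ≤ x := one_le_pow₀ (by norm_num)
  set y : ℝ := 2 ^ n with hy
  have hy0 : (0 : ℝ) < y := by positivity
  have ei : (2 : ℝ) ^ i = 4 * (x * y) := by
    rw [hi, hx', hy, ← pow_add, show s + 2 + n = 2 + (s + n) by ring, pow_add]; ring
  have en : (2 : ℝ) ^ (n + 2) = 4 * y := by rw [pow_add, hy]; ring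
  have e44 : (4 : ℝ) ^ s = x * x := by rw [hx', ← mul_pow]; norm_num
  rw [pow_add (2 : ℝ) i (n + 2), ei, en, e44]
  rw [en] at L0
  rw [pow_add (2 : ℝ) s i, ei, ← hx'] at L1 L2
  rw [ei] at S
  have hxm : (0 : ℝ) ≤ x - 1 := by linarith
  have S' := mul_le_mul_of_nonneg_left S hxm
  refine le_trans ?_ S'
  have hL0 : (x - 1) * ((x - 1) * (4 * y) * M0) ≤ (x - 1) * m0 :=
    mul_le_mul_of_nonneg_left L0 hxm
  have key : 4 * y * (x * x * (2 * M0 - M1 - M2) - 4 * x * M0) ≤ (x - 1) * (2 * m0 - m1 - m2) := by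
    have t1 : (x - 1) * (2 * m0 - m1 - m2) = 2 * ((x - 1) * m0) - (x - 1) * m1 - (x - 1) * m2 := by
      ring
    rw [t1]
    have t2 : 0 ≤ y * M0 := by positivity
    nlinarith
  have := mul_le_mul_of_nonneg_left key (show (0 : ℝ) ≤ 4 * (x * y) by positivity)
  linarith

/-- summing over the perturbations. -/
theorem line_sum (hq : 0 < q) {K : ℕ} {j b : ℤ} {a : ℕ} (h1 : Int3 (4 * q) K j ((a : ℤ) - 1) b)
    (h2 : Int3 (4 * q) K j ((a : ℤ) + 1) b) (s n : ℕ) :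
    4 ^ n * (2 ^ (s + 2 + n + (n + 2)) * (4 ^ s * (2 * F.m K j a b - F.m K j (a - 1) b -
      F.m K j (a + 1) b) - 4 * 2 ^ s * F.m K j a b)) ≤
      (2 ^ s - 1) * SS q (2 ^ (K + (s + 2 + n) + 2)) (fun j =>
        ∑ b ∈ range (BB q (2 ^ (K + (s + 2 + n) + 2)) j + 1), F.WW (K + (s + 2 + n)) j b) := by
  have h0 : Int3 (4 * q) K j a b :=
    ⟨h1.1, by linarith [h1.2.1], by linarith [h2.2.2.1], h1.2.2.2.1, h1.2.2.2.2⟩
  set X := 2 ^ (s + 2 + n + (n + 2)) * (4 ^ s * (2 * F.m K j a b - F.m K j (a - 1) b -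
      F.m K j (a + 1) b) - 4 * 2 ^ s * F.m K j a b) with hX
  have e4 : (2 : ℤ) ^ (s + 2 + n) = 4 * (2 ^ s * 2 ^ n) := by
    rw [← pow_add, show s + 2 + n = 2 + (s + n) by ring, pow_add]; ring
  have ps : (1 : ℤ) ≤ 2 ^ s := one_le_pow₀ (by norm_num)
  have pn : (0 : ℤ) < 2 ^ n := by positivity
  have hin : ∀ r1 ∈ range (2 ^ n), ∀ r3 ∈ range (2 ^ n), P3 (4 * q) (K + (s + 2 + n))
      (2 ^ (s + 2 + n) * j + (r1 : ℕ)) (2 ^ (s + 2 + n) * a) (2 ^ (s + 2 + n) * b + (r3 : ℕ)) := by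
    intro r1 hr1 r3 hr3
    have c1 : (r1 : ℤ) < 2 ^ n := by exact_mod_cast mem_range.1 hr1
    have c3 : (r3 : ℤ) < 2 ^ n := by exact_mod_cast mem_range.1 hr3
    exact P3_pert h0 (s + 2 + n) (by positivity) (by rw [e4]; nlinarith) (by positivity)
      (by rw [e4]; nlinarith)
  have h4 : ∀ r1 ∈ range (2 ^ n), ∀ r3 ∈ range (2 ^ n), X ≤
      (2 ^ s - 1) * F.WW (K + (s + 2 + n)) (2 ^ (s + 2 + n) * j + (r1 : ℕ))
        (2 ^ (s + 2 + n) * b + (r3 : ℕ)) := by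
    intro r1 hr1 r3 hr3
    have c1 : (r1 : ℤ) < 2 ^ n := by exact_mod_cast mem_range.1 hr1
    have c3 : (r3 : ℤ) < 2 ^ n := by exact_mod_cast mem_range.1 hr3
    exact F.line_le hq h1 h2 s n (by positivity) c1 (by positivity) c3
  have h5 : ∑ r1 ∈ range (2 ^ n), ∑ r3 ∈ range (2 ^ n), X ≤
      ∑ r1 ∈ range (2 ^ n), ∑ r3 ∈ range (2 ^ n), (2 ^ s - 1) *
        F.WW (K + (s + 2 + n)) (2 ^ (s + 2 + n) * j + (r1 : ℕ)) (2 ^ (s + 2 + n) * b + (r3 : ℕ)) :=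
    sum_le_sum fun r1 hr1 => sum_le_sum fun r3 hr3 => h4 r1 hr1 r3 hr3
  have e1 : ∑ _r1 ∈ range (2 ^ n), ∑ _r3 ∈ range (2 ^ n), X = 4 ^ n * X := by
    simp only [sum_const, card_range, nsmul_eq_mul]
    push_cast
    rw [← mul_assoc, ← mul_pow]
    norm_num
  rw [e1] at h5
  refine h5.trans ?_
  have e2 : ∑ r1 ∈ range (2 ^ n), ∑ r3 ∈ range (2 ^ n), ((2 : ℝ) ^ s - 1) *
        F.WW (K + (s + 2 + n)) (2 ^ (s + 2 + n) * j + (r1 : ℕ)) (2 ^ (s + 2 + n) * b + (r3 : ℕ)) =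
      (2 ^ s - 1) * ∑ r1 ∈ range (2 ^ n), ∑ r3 ∈ range (2 ^ n),
        F.WW (K + (s + 2 + n)) (2 ^ (s + 2 + n) * j + (r1 : ℕ))
          (2 ^ (s + 2 + n) * b + (r3 : ℕ)) := by
    rw [mul_sum]
    apply sum_congr rfl
    intro r1 _
    rw [mul_sum]
  rw [e2]
  apply mul_le_mul_of_nonneg_left _ (by
    have : (1 : ℝ) ≤ 2 ^ s := one_le_pow₀ (by norm_num)
    linarith)
  set k := K + (s + 2 + n) with hk
  set i := s + 2 + n with hi
  rw [SS_eq_Icc]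
  have hIcc : ∀ j' : ℤ, j' ∈ Icc (-((5 * q * 2 ^ (k + 2) : ℕ) : ℤ)) ((5 * q * 2 ^ (k + 2) : ℕ) : ℤ) ↔
      |j'| ≤ 5 * ((4 * q : ℕ) : ℤ) * 2 ^ k := by
    intro j'
    rw [← rng4, abs_le, mem_Icc]
    push_cast
    exact Iff.rfl
  have hnn : ∀ j' : ℤ, |j'| ≤ 5 * ((4 * q : ℕ) : ℤ) * 2 ^ k →
      ∀ b' ∈ range (BB q (2 ^ (k + 2)) j' + 1), 0 ≤ F.WW k j' b' := by
    intro j' hj' b' hb'
    apply F.WW_nonneg hq hj' (by positivity)
    rw [← BB_cast hj']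
    have := mem_range.1 hb'
    omega
  have inj1 : Set.InjOn (fun r : ℕ => 2 ^ i * j + (r : ℤ)) (range (2 ^ n) : Finset ℕ) := by
    intro x _ y _ hxy
    simp only at hxy
    omega
  have sub1 : (range (2 ^ n)).image (fun r : ℕ => 2 ^ i * j + (r : ℤ)) ⊆
      Icc (-((5 * q * 2 ^ (k + 2) : ℕ) : ℤ)) ((5 * q * 2 ^ (k + 2) : ℕ) : ℤ) := by
    intro x hx
    obtain ⟨r, hr, rfl⟩ := mem_image.1 hx
    rw [hIcc]
    exact (hin r hr 0 (mem_range.2 (by positivity))).1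
  refine le_trans ?_ (sum_le_sum_of_subset_of_nonneg sub1
    (fun j' hj' _ => sum_nonneg (hnn j' ((hIcc j').1 hj'))))
  rw [sum_image inj1]
  apply sum_le_sum
  intro r1 hr1
  have hb0 : 0 ≤ b := h0.2.2.2.1.le
  obtain ⟨b0, rfl⟩ := Int.eq_ofNat_of_zero_le hb0
  have inj2 : Set.InjOn (fun r : ℕ => 2 ^ i * b0 + r) (range (2 ^ n) : Finset ℕ) := by
    intro x _ y _ hxy
    simp only at hxy
    omega
  have hj1 := (hin r1 hr1 0 (mem_range.2 (by positivity))).1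
  have sub2 : (range (2 ^ n)).image (fun r : ℕ => 2 ^ i * b0 + r) ⊆
      range (BB q (2 ^ (k + 2)) (2 ^ i * j + (r1 : ℤ)) + 1) := by
    intro x hx
    obtain ⟨r, hr, rfl⟩ := mem_image.1 hx
    have h6 := (hin r1 hr1 r hr).2.2.2.2
    rw [← BB_cast hj1] at h6
    rw [mem_range, Nat.lt_succ_iff]
    exact_mod_cast h6
  refine le_trans (le_of_eq ?_) (sum_le_sum_of_subset_of_nonneg sub2
    (fun b' hb' _ => hnn _ hj1 b' hb'))
  rw [sum_image inj2]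
  apply sum_congr rfl
  intro r3 _
  push_cast
  rfl

/-- (L) the envelope is affine in `a` in the interior. -/
theorem affine_a (hq : 0 < q)
    (h : ∃ η : ℕ → ℝ, Tendsto η atTop (nhds 0) ∧ ∀ᶠ k : ℕ in atTop,
      SS q (2 ^ (k + 2)) (fun j => F.env.avg.ψ k j - F.env.avg.ν k j) ≤ η k * 2 ^ k)
    {k : ℕ} {j a b : ℤ} (h1 : Int3 (4 * q) k j (a - 1) b) (h2 : Int3 (4 * q) k j (a + 1) b) :
    F.m k j (a - 1) b + F.m k j (a + 1) b = 2 * F.m k j a b := by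
  obtain ⟨η, hη, hη'⟩ := h
  have ha0 : 0 ≤ a := by linarith [h1.2.1]
  obtain ⟨a, rfl⟩ := Int.eq_ofNat_of_zero_le ha0
  have h0 : Int3 (4 * q) k j a b :=
    ⟨h1.1, by linarith [h1.2.1], by linarith [h2.2.2.1], h1.2.2.2.1, h1.2.2.2.2⟩
  have hle := F.m_concave h1.p3 h2.p3 h0.p3 (by ring) (by ring) (by ring)
  set D := 2 * F.m k j a b - F.m k j (a - 1) b - F.m k j (a + 1) b with hD
  have hD0 : 0 ≤ D := by rw [hD]; linarith
  set M0 := F.m k j a b with hM0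
  have hM0' : 0 ≤ M0 := F.m_nonneg h0.p3
  -- for all `s`
  have key : ∀ s : ℕ, 2 ^ s * D ≤ 4 * M0 := by
    intro s
    have ev : ∀ᶠ n : ℕ in atTop, 2 ^ s * D - 4 * M0 ≤
        (2 ^ (3 * s + 4) * (20000000 * (q : ℝ) ^ 3) * 16 ^ k) * η (n + (k + (s + 2))) := by
      have := (tendsto_add_atTop_nat (k + (s + 2))).eventually hη'
      filter_upwards [this] with n hn
      have g1 := F.line_sum hq h1 h2 s n
      have g2 := F.sum_WW_le hq (k + (s + 2 + n))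
      have ek : n + (k + (s + 2)) = k + (s + 2 + n) := by ring
      rw [ek] at hn ⊢
      rw [← hD, ← hM0] at g1
      set kk := k + (s + 2 + n) with hkk
      set P := SS q (2 ^ (kk + 2)) (fun j => F.env.avg.ψ kk j - F.env.avg.ν kk j) with hP
      set R := SS q (2 ^ (kk + 2)) (fun j => ∑ b ∈ range (BB q (2 ^ (kk + 2)) j + 1),
        F.WW kk j b) with hR
      have hR0 : 0 ≤ R := by
        apply SS_nonneg
        intro j' hj'
        apply sum_nonneg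
        intro b' hb'
        apply F.WW_nonneg hq (rng4.1 hj') (by positivity)
        rw [← BB_cast (rng4.1 hj')]
        have := mem_range.1 hb'
        omega
      have g3 : R ≤ 20000000 * (q : ℝ) ^ 3 * 8 ^ kk * (η kk * 2 ^ kk) :=
        g2.trans (mul_le_mul_of_nonneg_left hn (by positivity))
      have g4 : ((2 : ℝ) ^ s - 1) * R ≤ 2 ^ s * (20000000 * (q : ℝ) ^ 3 * 8 ^ kk *
          (η kk * 2 ^ kk)) := by
        have : ((2 : ℝ) ^ s - 1) * R ≤ 2 ^ s * R :=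
          mul_le_mul_of_nonneg_right (by linarith) hR0
        exact this.trans (mul_le_mul_of_nonneg_left g3 (by positivity))
      have g5 := g1.trans g4
      have x1 : (4 : ℝ) ^ n * (2 ^ (s + 2 + n + (n + 2)) * (4 ^ s * D - 4 * 2 ^ s * M0)) =
          (2 ^ s * D - 4 * M0) * (2 ^ (4 * n + 2 * s + 4)) := by
        have y1 : (4 : ℝ) ^ n = 2 ^ n * 2 ^ n := by rw [← mul_pow]; norm_num
        have y2 : (4 : ℝ) ^ s = 2 ^ s * 2 ^ s := by rw [← mul_pow]; norm_num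
        rw [y1, y2]
        simp only [pow_add, pow_mul, mul_comm 4 n, mul_comm 2 s]
        rw [show ((2 : ℝ) ^ n) ^ 4 = 2 ^ n * 2 ^ n * 2 ^ n * 2 ^ n by ring]
        ring
      have x2 : (2 : ℝ) ^ s * (20000000 * (q : ℝ) ^ 3 * 8 ^ kk * (η kk * 2 ^ kk)) =
          ((2 ^ (3 * s + 4) * (20000000 * (q : ℝ) ^ 3) * 16 ^ k) * η kk) *
            (2 ^ (4 * n + 2 * s + 4)) := by
        have y1 : (8 : ℝ) ^ kk * 2 ^ kk = 16 ^ k * 2 ^ (4 * (s + 2 + n)) := by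
          rw [← mul_pow, hkk, pow_add, pow_mul]
          norm_num
        have y2 : (2 : ℝ) ^ s * 2 ^ (4 * (s + 2 + n)) =
            2 ^ (3 * s + 4) * 2 ^ (4 * n + 2 * s + 4) := by
          rw [← pow_add, ← pow_add]
          congr 1
          ring
        calc (2 : ℝ) ^ s * (20000000 * (q : ℝ) ^ 3 * 8 ^ kk * (η kk * 2 ^ kk)) =
            20000000 * (q : ℝ) ^ 3 * η kk * (2 ^ s * (8 ^ kk * 2 ^ kk)) := by ring
          _ = 20000000 * (q : ℝ) ^ 3 * η kk * 16 ^ k * (2 ^ s * 2 ^ (4 * (s + 2 + n))) := by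
            rw [y1]; ring
          _ = _ := by rw [y2]; ring
      rw [x1, x2] at g5
      exact le_of_mul_le_mul_right g5 (by positivity)
    have lim : Tendsto (fun n : ℕ => (2 ^ (3 * s + 4) * (20000000 * (q : ℝ) ^ 3) * 16 ^ k) *
        η (n + (k + (s + 2)))) atTop (nhds 0) := by
      have := ((tendsto_add_atTop_iff_nat (k + (s + 2))).2 hη).const_mul
        (2 ^ (3 * s + 4) * (20000000 * (q : ℝ) ^ 3) * 16 ^ k)
      rwa [mul_zero] at this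
    have := ge_of_tendsto lim ev
    linarith
  have hfin : D ≤ 0 := by
    have lim := half_tendsto' (4 * M0)
    apply ge_of_tendsto' lim
    intro s
    have := key s
    have e1 : (2 : ℝ) ^ s * (1 / 2) ^ s = 1 := by rw [← mul_pow]; norm_num
    have p : (0 : ℝ) < (1 / 2) ^ s := by positivity
    have h3 := mul_le_mul_of_nonneg_right this p.le
    nlinarith
  rw [hD] at hfin hD0
  linarith
where
  half_tendsto' (c : ℝ) : Tendsto (fun k : ℕ => c * (1 / 2 : ℝ) ^ k) atTop (nhds 0) :=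
    Graded.half_tendsto c

end Fam3

end Pool.Agent.YTD
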