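import Pool.Agent.YTD.Rigid7

/-!
The symmetric statement, by swapping the two fibre directions.
-/

namespace Pool.Agent.YTD

open Finset Filter

theorem P3_swap {Q k : ℕ} {j a b : ℤ} : P3 Q k (-j) b a ↔ P3 Q k j a b := by
  unfold P3
  rw [abs_neg, mul_neg, sub_neg_eq_add, ← sub_eq_add_neg]
  tauto

theorem Int3_swap {Q k : ℕ} {j a b : ℤ} : Int3 Q k (-j) b a ↔ Int3 Q k j a b := by
  unfold Int3
  rw [abs_neg, mul_neg, sub_neg_eq_add, ← sub_eq_add_neg]
  tauto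

theorem SS_neg (q L : ℕ) (f : ℤ → ℝ) : SS q L (fun j => f (-j)) = SS q L f := by
  rw [SS_eq_Icc, SS_eq_Icc]
  refine sum_bij' (fun x _ => -x) (fun x _ => -x) ?_ ?_ ?_ ?_ ?_
  · intro x hx; rw [mem_Icc] at hx ⊢; constructor <;> linarith [hx.1, hx.2]
  · intro x hx; rw [mem_Icc] at hx ⊢; constructor <;> linarith [hx.1, hx.2]
  · intro x _; simp
  · intro x _; simp
  · intro x _; rfl

theorem AA_neg_aux (q L : ℕ) (j : ℤ) : AA q L (-j) = BB q L j := by
  unfold AA BB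
  congr 1
  ring

theorem BB_neg_aux (q L : ℕ) (j : ℤ) : BB q L (-j) = AA q L j := by
  unfold AA BB
  congr 1
  ring

namespace Fam3

section
variable {Q : ℕ} (F : Fam3 Q)

/-- the swapped family. -/
def swap : Fam3 Q where
  ν := fun k j a b => F.ν k (-j) b a
  C := F.C
  nonneg := fun k j a b h => F.nonneg k (-j) b a (P3_swap.2 h)
  le := fun k j a b h => F.le k (-j) b a (P3_swap.2 h)
  add := by
    intro k j a b j' a' b' h h'
    have := F.add k (-j) b a (-j') b' a' (P3_swap.2 h) (P3_swap.2 h')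
    rwa [← neg_add] at this

theorem swap_m (k : ℕ) (j a b : ℤ) : F.swap.m k j a b = F.m k (-j) b a := by
  unfold m ap
  simp only [swap, mul_neg]

end

section
variable {q : ℕ} (F : Fam3 (4 * q))

theorem swap_avg (k : ℕ) (j : ℤ) : F.swap.env.avg.ν k j = F.env.avg.ν k (-j) := by
  show avg2 (AA q (2 ^ (k + 2)) j) (BB q (2 ^ (k + 2)) j) (fun a b => F.swap.m k j a b) =
    avg2 (AA q (2 ^ (k + 2)) (-j)) (BB q (2 ^ (k + 2)) (-j)) (fun a b => F.m k (-j) a b)
  rw [AA_neg_aux, BB_neg_aux, avg2_comm]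
  simp only [swap_m]

theorem swap_ψ (k : ℕ) (j : ℤ) : F.swap.env.avg.ψ k j = F.env.avg.ψ k (-j) := by
  unfold Fam.ψ Fam.ap
  simp only [swap_avg, mul_neg]

theorem affine_b (hq : 0 < q)
    (h : ∃ η : ℕ → ℝ, Tendsto η atTop (nhds 0) ∧ ∀ᶠ k : ℕ in atTop,
      SS q (2 ^ (k + 2)) (fun j => F.env.avg.ψ k j - F.env.avg.ν k j) ≤ η k * 2 ^ k)
    {k : ℕ} {j a b : ℤ} (h1 : Int3 (4 * q) k j a (b - 1)) (h2 : Int3 (4 * q) k j a (b + 1)) :
    F.m k j a (b - 1) + F.m k j a (b + 1) = 2 * F.m k j a b := by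
  obtain ⟨η, h3, h4⟩ := h
  have := F.swap.affine_a hq (k := k) (j := -j) (a := b) (b := a) ⟨η, h3, by
    filter_upwards [h4] with k hk
    refine le_trans (le_of_eq ?_) hk
    rw [← SS_neg]
    simp only [swap_ψ, swap_avg, neg_neg]⟩ (Int3_swap.2 h1) (Int3_swap.2 h2)
  simpa only [swap_m, neg_neg] using this

end

end Fam3

end Pool.Agent.YTD
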