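import Pool.Agent.YTD.Rigid8

/-!
Integrality: rounding forces the slopes of the envelope to be integers.
-/

namespace Pool.Agent.YTD

open Finset Filter

/-- distance to the nearest integer -/
noncomputable def rd (x : ℝ) : ℝ := |x - round x|

theorem rd_nonneg (x : ℝ) : 0 ≤ rd x := abs_nonneg _

theorem rd_le (x : ℝ) (z : ℤ) : rd x ≤ |x - z| := round_le x z

theorem rd_add_le (x y : ℝ) : rd (x + y) ≤ rd x + rd y := by
  refine (rd_le (x + y) (round x + round y)).trans ?_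
  push_cast
  have : x + y - ((round x : ℝ) + round y) = (x - round x) + (y - round y) := by ring
  rw [this]
  exact abs_add_le _ _

theorem rd_neg_le (x : ℝ) : rd (-x) ≤ rd x := by
  refine (rd_le (-x) (-round x)).trans ?_
  push_cast
  rw [show -x - -(round x : ℝ) = -(x - round x) by ring, abs_neg]
  exact le_rfl

theorem rd_sub_le (x y : ℝ) : rd (x - y) ≤ rd x + rd y := by
  rw [sub_eq_add_neg]
  exact (rd_add_le _ _).trans (by linarith [rd_neg_le y])

theorem rd_int (z : ℤ) : rd (z : ℝ) = 0 := by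
  unfold rd
  simp

theorem rd_add_int (x : ℝ) (z : ℤ) : rd (x + z) = rd x := by
  apply le_antisymm
  · have := rd_add_le x z
    rw [rd_int] at this
    linarith
  · have := rd_sub_le (x + z) z
    rw [rd_int, add_sub_cancel_right] at this
    linarith

theorem eq_of_rd {x : ℝ} (h : rd x = 0) : ∃ z : ℤ, x = z :=
  ⟨round x, by unfold rd at h; rw [abs_eq_zero] at h; linarith⟩

theorem rd_double {x : ℝ} (h : rd x < 1 / 4) : rd (2 * x) = 2 * rd x := by
  apply le_antisymm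
  · rw [two_mul, two_mul]
    exact rd_add_le x x
  · by_cases hw : round (2 * x) = 2 * round x
    · unfold rd
      rw [hw]
      push_cast
      rw [show 2 * x - 2 * (round x : ℝ) = 2 * (x - round x) by ring, abs_mul]
      norm_num
    · exfalso
      have h1 : (1 : ℝ) ≤ |((round (2 * x) - 2 * round x : ℤ) : ℝ)| := by
        have h2 : (1 : ℤ) ≤ |round (2 * x) - 2 * round x| := Int.one_le_abs (sub_ne_zero.2 hw)
        exact_mod_cast h2
      have h3 : |2 * x - round (2 * x)| ≤ 1 / 2 := abs_sub_round (2 * x)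
      unfold rd at h
      have h4 : |((round (2 * x) - 2 * round x : ℤ) : ℝ)| ≤
          |2 * x - round (2 * x)| + 2 * |x - round x| := by
        have e : ((round (2 * x) - 2 * round x : ℤ) : ℝ) =
            -(2 * x - round (2 * x)) + 2 * (x - round x) := by push_cast; ring
        rw [e]
        refine (abs_add_le _ _).trans ?_
        rw [abs_neg, abs_mul]
        norm_num
      linarith

theorem dyadic {δ : ℝ} {η : ℕ → ℝ} (hη : Tendsto η atTop (nhds 0))
    (h : ∀ᶠ k : ℕ in atTop, rd (δ * 2 ^ k) ≤ η k) : ∃ (k : ℕ) (z : ℤ), δ * 2 ^ k = z := by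
  have h1 : ∀ᶠ k : ℕ in atTop, rd (δ * 2 ^ k) < 1 / 4 := by
    filter_upwards [h, hη.eventually (gt_mem_nhds (show (0 : ℝ) < 1 / 4 by norm_num))] with k h2 h3
    linarith
  obtain ⟨k₀, hk₀⟩ := eventually_atTop.1 h1
  refine ⟨k₀, ?_⟩
  apply eq_of_rd
  by_contra hne
  have hpos : 0 < rd (δ * 2 ^ k₀) := lt_of_le_of_ne (rd_nonneg _) (Ne.symm hne)
  have h2 : ∀ i : ℕ, rd (δ * 2 ^ (k₀ + i)) = 2 ^ i * rd (δ * 2 ^ k₀) := by
    intro i
    induction i with
    | zero => simp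
    | succ i ih =>
      have h3 := rd_double (hk₀ (k₀ + i) (by omega))
      rw [ih] at h3
      rw [← add_assoc, pow_succ, ← mul_assoc, mul_comm _ (2 : ℝ), h3, pow_succ]
      ring
  obtain ⟨n, hn⟩ := pow_unbounded_of_one_lt (1 / rd (δ * 2 ^ k₀)) (by norm_num : (1 : ℝ) < 2)
  have h4 := hk₀ (k₀ + n) (by omega)
  rw [h2] at h4
  rw [div_lt_iff₀ hpos] at hn
  linarith

namespace Fam3

variable {Q : ℕ} (F : Fam3 Q)

theorem T_sub (k : ℕ) : F.env.T k - F.T k = ∑ p ∈ Pset Q k,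
    (F.m k p.1 p.2.1 p.2.2 - F.ν k p.1 p.2.1 p.2.2) := by
  unfold T
  rw [← sum_sub_distrib]
  rfl

theorem block (hint : ∀ k j a b, P3 Q k j a b → ∃ z : ℤ, F.ν k j a b = z) (k : ℕ) (J A B : ℤ)
    (hP : ∀ x y z : ℕ, x < 2 ^ k → y < 2 ^ k → z < 2 ^ k → P3 Q k (J + x) (A + y) (B + z)) :
    ∑ x ∈ range (2 ^ k), ∑ y ∈ range (2 ^ k), ∑ z ∈ range (2 ^ k),
      rd (F.m k (J + (x : ℕ)) (A + (y : ℕ)) (B + (z : ℕ))) ≤ F.env.T k - F.T k := by
  classical
  rw [T_sub]
  have h0 : ∀ p ∈ Pset Q k, 0 ≤ F.m k p.1 p.2.1 p.2.2 - F.ν k p.1 p.2.1 p.2.2 :=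
    fun p hp => sub_nonneg.2 (F.ν_le_m (mem_Pset.1 hp))
  set R : Finset (ℕ × ℕ × ℕ) := range (2 ^ k) ×ˢ range (2 ^ k) ×ˢ range (2 ^ k) with hR
  let φ : ℕ × ℕ × ℕ → ℤ × ℤ × ℤ := fun r => (J + (r.1 : ℕ), A + (r.2.1 : ℕ), B + (r.2.2 : ℕ))
  have hinj : Set.InjOn φ R := by
    rintro ⟨x, y, z⟩ _ ⟨x', y', z'⟩ _ h
    simp only [φ, Prod.mk.injEq] at h
    obtain ⟨h1, h2, h3⟩ := h
    have e1 : x = x' := by omega
    have e2 : y = y' := by omega
    have e3 : z = z' := by omega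
    rw [e1, e2, e3]
  have hP' : ∀ r ∈ R, P3 Q k (φ r).1 (φ r).2.1 (φ r).2.2 := by
    intro r hr
    rw [hR, mem_product, mem_product, mem_range, mem_range, mem_range] at hr
    exact hP _ _ _ hr.1 hr.2.1 hr.2.2
  have hsub : R.image φ ⊆ Pset Q k := by
    intro p hp
    obtain ⟨r, hr, rfl⟩ := mem_image.1 hp
    exact mem_Pset.2 (hP' r hr)
  refine le_trans ?_ (sum_le_sum_of_subset_of_nonneg hsub fun p hp _ => h0 p hp)
  rw [sum_image hinj, hR, sum_product]
  apply sum_le_sum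
  intro x hx
  rw [sum_product]
  apply sum_le_sum
  intro y hy
  apply sum_le_sum
  intro z hz
  have h1 := hP x y z (mem_range.1 hx) (mem_range.1 hy) (mem_range.1 hz)
  obtain ⟨w, hw⟩ := hint _ _ _ _ h1
  simp only [φ]
  rw [hw]
  have h2 := F.ν_le_m h1
  rw [hw] at h2
  refine (rd_le _ w).trans ?_
  rw [abs_of_nonneg (by linarith)]

/-- a number which is a constant difference over a block is an integer. -/
theorem block_diff (hint : ∀ k j a b, P3 Q k j a b → ∃ z : ℤ, F.ν k j a b = z)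
    (hc : ∃ η : ℕ → ℝ, Tendsto η atTop (nhds 0) ∧ ∀ᶠ k : ℕ in atTop,
      F.env.T k - F.T k ≤ η k * 8 ^ k) (θ : ℝ) (J A B : ℕ → ℤ) (e1 e2 e3 : ℤ)
    (hP : ∀ (k x y z : ℕ), x < 2 ^ k → y < 2 ^ k → z < 2 ^ k →
      P3 Q k (J k + x) (A k + y) (B k + z) ∧
      P3 Q k (J k + e1 + x) (A k + e2 + y) (B k + e3 + z) ∧
      F.m k (J k + e1 + x) (A k + e2 + y) (B k + e3 + z) - F.m k (J k + x) (A k + y) (B k + z) =
        θ) : ∃ z : ℤ, θ = z := by
  obtain ⟨η, hη, hk⟩ := hc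
  apply eq_of_rd
  apply le_antisymm _ (rd_nonneg θ)
  have lim : Tendsto (fun k => 2 * η k) atTop (nhds 0) := by
    have := hη.const_mul 2
    rwa [mul_zero] at this
  apply ge_of_tendsto lim
  filter_upwards [hk] with k hk
  have b1 := F.block hint k (J k) (A k) (B k) fun x y z hx hy hz => (hP k x y z hx hy hz).1
  have b2 := F.block hint k (J k + e1) (A k + e2) (B k + e3)
    fun x y z hx hy hz => (hP k x y z hx hy hz).2.1
  have b3 : ∑ x ∈ range (2 ^ k), ∑ y ∈ range (2 ^ k), ∑ z ∈ range (2 ^ k), rd θ ≤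
      ∑ x ∈ range (2 ^ k), ∑ y ∈ range (2 ^ k), ∑ z ∈ range (2 ^ k),
        (rd (F.m k (J k + e1 + (x : ℕ)) (A k + e2 + (y : ℕ)) (B k + e3 + (z : ℕ))) +
          rd (F.m k (J k + (x : ℕ)) (A k + (y : ℕ)) (B k + (z : ℕ)))) := by
    apply sum_le_sum
    intro x hx
    apply sum_le_sum
    intro y hy
    apply sum_le_sum
    intro z hz
    have := (hP k x y z (mem_range.1 hx) (mem_range.1 hy) (mem_range.1 hz)).2.2
    rw [← this]
    exact rd_sub_le _ _
  simp only [sum_add_distrib] at b3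
  have e : ∑ _x ∈ range (2 ^ k), ∑ _y ∈ range (2 ^ k), ∑ _z ∈ range (2 ^ k), rd θ =
      8 ^ k * rd θ := by
    simp only [sum_const, card_range, nsmul_eq_mul]
    push_cast
    rw [← mul_assoc, ← mul_assoc, ← mul_pow, ← mul_pow]
    norm_num
  rw [e] at b3
  have p8 : (0 : ℝ) < 8 ^ k := by positivity
  have : 8 ^ k * rd θ ≤ 8 ^ k * (2 * η k) := by linarith
  exact le_of_mul_le_mul_left this p8

/-- the constant values on blocks are nearly integers. -/
theorem block_val (hint : ∀ k j a b, P3 Q k j a b → ∃ z : ℤ, F.ν k j a b = z)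
    {k : ℕ} {η : ℝ} (hk : F.env.T k - F.T k ≤ η * 8 ^ k) (θ : ℝ) (J A B : ℤ)
    (hP : ∀ (x y z : ℕ), x < 2 ^ k → y < 2 ^ k → z < 2 ^ k →
      P3 Q k (J + x) (A + y) (B + z) ∧ ∃ w : ℤ, F.m k (J + x) (A + y) (B + z) = θ + w) :
    rd θ ≤ η := by
  have b1 := F.block hint k J A B fun x y z hx hy hz => (hP x y z hx hy hz).1
  have b3 : ∑ x ∈ range (2 ^ k), ∑ y ∈ range (2 ^ k), ∑ z ∈ range (2 ^ k), rd θ =
      ∑ x ∈ range (2 ^ k), ∑ y ∈ range (2 ^ k), ∑ z ∈ range (2 ^ k),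
        rd (F.m k (J + (x : ℕ)) (A + (y : ℕ)) (B + (z : ℕ))) := by
    apply sum_congr rfl
    intro x hx
    apply sum_congr rfl
    intro y hy
    apply sum_congr rfl
    intro z hz
    obtain ⟨w, hw⟩ := (hP x y z (mem_range.1 hx) (mem_range.1 hy) (mem_range.1 hz)).2
    rw [hw, rd_add_int]
  have e : ∑ _x ∈ range (2 ^ k), ∑ _y ∈ range (2 ^ k), ∑ _z ∈ range (2 ^ k), rd θ =
      8 ^ k * rd θ := by
    simp only [sum_const, card_range, nsmul_eq_mul]
    push_cast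
    rw [← mul_assoc, ← mul_assoc, ← mul_pow, ← mul_pow]
    norm_num
  rw [← b3, e] at b1
  have p8 : (0 : ℝ) < 8 ^ k := by positivity
  have : 8 ^ k * rd θ ≤ 8 ^ k * η := by linarith
  exact le_of_mul_le_mul_left this p8

theorem swap_T (k : ℕ) : F.swap.T k = F.T k := by
  unfold T
  refine sum_bij' (fun p _ => (-p.1, p.2.2, p.2.1)) (fun p _ => (-p.1, p.2.2, p.2.1))
    ?_ ?_ ?_ ?_ ?_
  · intro p hp
    rw [mem_Pset] at hp ⊢
    exact P3_swap.2 hp
  · intro p hp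
    rw [mem_Pset] at hp ⊢
    exact P3_swap.2 hp
  · intro p _; simp
  · intro p _; simp
  · intro p _; rfl

theorem swap_env_T (k : ℕ) : F.swap.env.T k = F.env.T k := by
  have : F.swap.env.T k = F.env.swap.T k := by
    unfold T
    apply sum_congr rfl
    intro p _
    exact F.swap_m k p.1 p.2.1 p.2.2
  rw [this, swap_T]

end Fam3

end Pool.Agent.YTD
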