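import Pool.Agent.YTD.RigidCompare

/-!
Two rigid filtrations with the same layer dimensions: the mean and the second moments agree.
-/

namespace Pool.Agent.YTD

open Module Finset MvPolynomial

variable {K : Type} [Field K] [Algebra ℂ K]
variable {T : Datum K} {q : ℕ} {D₀ : T.X.Pt →₀ ℤ} {r : ℕ}

theorem lw_real (al be ga de : ℤ) (N : ℕ) (j : ℤ) (a b : ℕ) (c : ℝ) :
    (lw al be ga de N j a b : ℝ) + c = al * a + be * b + (ga * j + de * N + c) := by
  unfold lw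
  push_cast
  ring

/-- crude bound for the linear form. -/
theorem abs_lw_le (al be ga de : ℤ) {Q N : ℕ} {j : ℤ} {a b : ℕ} (h : InR Q N j a b) :
    |(lw al be ga de N j a b : ℝ)| ≤
      (40 * Q * (|(al : ℝ)| + |(be : ℝ)| + |(ga : ℝ)|) + |(de : ℝ)|) * N := by
  obtain ⟨h1, h2, h3⟩ := h
  rw [abs_le] at h1
  have hQN : (0 : ℝ) ≤ Q * N := by positivity
  have ha : (a : ℝ) ≤ 40 * Q * N := by
    have h4 : (a : ℤ) ≤ 40 * Q * N := by linarith
    exact_mod_cast h4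
  have hb : (b : ℝ) ≤ 40 * Q * N := by
    have h4 : (b : ℤ) ≤ 40 * Q * N := by linarith
    exact_mod_cast h4
  have hj : |(j : ℝ)| ≤ 40 * Q * N := by
    have h5 : |(j : ℤ)| ≤ 5 * Q * N := abs_le.2 h1
    have h4 : |(j : ℝ)| ≤ 5 * Q * N := by exact_mod_cast h5
    linarith
  have e : (lw al be ga de N j a b : ℝ) = al * a + be * b + ga * j + de * N := by
    unfold lw
    push_cast
    ring
  rw [e]
  have g1 : |(al : ℝ) * a| ≤ |(al : ℝ)| * (40 * Q * N) := by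
    rw [abs_mul, Nat.abs_cast]
    exact mul_le_mul_of_nonneg_left ha (abs_nonneg _)
  have g2 : |(be : ℝ) * b| ≤ |(be : ℝ)| * (40 * Q * N) := by
    rw [abs_mul, Nat.abs_cast]
    exact mul_le_mul_of_nonneg_left hb (abs_nonneg _)
  have g3 : |(ga : ℝ) * j| ≤ |(ga : ℝ)| * (40 * Q * N) := by
    rw [abs_mul]
    exact mul_le_mul_of_nonneg_left hj (abs_nonneg _)
  have g4 : |(de : ℝ) * N| = |(de : ℝ)| * N := by
    rw [abs_mul, Nat.abs_cast]
  calc |(al : ℝ) * a + be * b + ga * j + de * N|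
      ≤ |(al : ℝ) * a| + |(be : ℝ) * b| + |(ga : ℝ) * j| + |(de : ℝ) * N| := by
        refine (abs_add_le _ _).trans (add_le_add_left ((abs_add_le _ _).trans
          (add_le_add_left (abs_add_le _ _) _)) _)
    _ ≤ |(al : ℝ)| * (40 * Q * N) + |(be : ℝ)| * (40 * Q * N) + |(ga : ℝ)| * (40 * Q * N) +
        |(de : ℝ)| * N := by linarith
    _ = _ := by ring

namespace Filt

/-- size of a layer. -/
noncomputable def msz (χ : Filt T q D₀ r) (N : ℕ) (j : ℤ) : ℝ :=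
  χ.vdim N j * ((AA (r * q) N j + 1) * (BB (r * q) N j + 1))

theorem le_msz (χ : Filt T q D₀ r) (hD : T.X.deg D₀ = 105 * T.t * q) (hq : 0 < q) (hr : 0 < r)
    {N : ℕ} (hN : 4 ≤ N) {j : ℤ} (hj : j ∈ JJ (r * q) N) :
    100 * (N : ℝ) ^ 3 ≤ χ.msz N j := by
  unfold msz
  have h1 := χ.le_vdim hD hq hr hN hj
  have h4 : 1 ≤ r * q := Nat.mul_pos hr hq
  have h2 : (10 : ℝ) * N ≤ AA (r * q) N j + 1 := by
    have h5 := ten_le_AA hj
    have h6 : 10 * N ≤ AA (r * q) N j := by nlinarith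
    have h7 : ((10 * N : ℕ) : ℝ) ≤ AA (r * q) N j := by exact_mod_cast h6
    push_cast at h7
    linarith
  have h3 : (10 : ℝ) * N ≤ BB (r * q) N j + 1 := by
    have h5 := ten_le_BB hj
    have h6 : 10 * N ≤ BB (r * q) N j := by nlinarith
    have h7 : ((10 * N : ℕ) : ℝ) ≤ BB (r * q) N j := by exact_mod_cast h6
    push_cast at h7
    linarith
  calc 100 * (N : ℝ) ^ 3 = N * ((10 * N) * (10 * N)) := by ring
    _ ≤ _ := by
        apply mul_le_mul h1 _ (by positivity) (le_trans (by positivity) h1)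
        exact mul_le_mul h2 h3 (by positivity) (by positivity)

/-- Two rigid filtrations with the same layer sums have the same mean and second moments on all
layers. -/
theorem Rigid.layer_eq {χ χ' : Filt T q D₀ r} {m m' : MonomialOrder (Fin 4)}
    {al be ga de al' be' ga' de' : ℤ} (hR : χ.Rigid m al be ga de)
    (hR' : χ'.Rigid m' al' be' ga' de') (hD : T.X.deg D₀ = 105 * T.t * q) (hq : 0 < q) (hr : 0 < r)
    (hlay : ∀ N : ℕ, 4 ≤ N → ∀ l : ℤ, ∀ j ∈ JJ (r * q) N,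
      ∑ a ∈ range (AA (r * q) N j + 1), ∑ b ∈ range (BB (r * q) N j + 1), χ.idim m N l j a b =
      ∑ a ∈ range (AA (r * q) N j + 1), ∑ b ∈ range (BB (r * q) N j + 1), χ'.idim m' N l j a b) :
    3 * (al - be) + 2 * ga = 3 * (al' - be') + 2 * ga' ∧
    25 * (r * q) * (al + be) + 2 * de = 25 * (r * q) * (al' + be') + 2 * de' ∧
    al ^ 2 = al' ^ 2 ∧ be ^ 2 = be' ^ 2 := by
  obtain ⟨C, hC0, hC⟩ := hR.layer_compare hR' hlay
  set Λ : ℕ := max χ.lam χ'.lam with hΛ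
  have hΛ1 : χ.lam ≤ Λ := le_max_left _ _
  have hΛ2 : χ'.lam ≤ Λ := le_max_right _ _
  have hlow1 : ∀ N : ℕ, 4 ≤ N → ∀ j a b, InR (r * q) N j a b →
      -((Λ * N : ℕ) : ℤ) ≤ lw al be ga de N j a b := by
    intro N hN j a b h
    refine le_trans ?_ (hR.lower hD hq hr hN h)
    have : ((χ.lam * N : ℕ) : ℤ) ≤ ((Λ * N : ℕ) : ℤ) := by
      exact_mod_cast Nat.mul_le_mul_right N hΛ1
    push_cast at this ⊢
    linarith
  have hlow2 : ∀ N : ℕ, 4 ≤ N → ∀ j a b, InR (r * q) N j a b →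
      -((Λ * N : ℕ) : ℤ) ≤ lw al' be' ga' de' N j a b := by
    intro N hN j a b h
    refine le_trans ?_ (hR'.lower hD hq hr hN h)
    have : ((χ'.lam * N : ℕ) : ℤ) ≤ ((Λ * N : ℕ) : ℤ) := by
      exact_mod_cast Nat.mul_le_mul_right N hΛ2
    push_cast at this ⊢
    linarith
  -- the value of the linear form
  have hA : ∀ N : ℕ, ∀ j ∈ JJ (r * q) N, (AA (r * q) N j : ℝ) = 25 * (r * q) * N + 3 * j := by
    intro N j hj
    have h := AA_cast (mem_JJ.1 hj)
    have h' : ((AA (r * q) N j : ℤ) : ℝ) = ((25 * (r * q : ℕ) * N + 3 * j : ℤ) : ℝ) := by rw [h]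
    push_cast at h'
    exact h'
  have hB : ∀ N : ℕ, ∀ j ∈ JJ (r * q) N, (BB (r * q) N j : ℝ) = 25 * (r * q) * N - 3 * j := by
    intro N j hj
    have h := BB_cast (mem_JJ.1 hj)
    have h' : ((BB (r * q) N j : ℤ) : ℝ) = ((25 * (r * q : ℕ) * N - 3 * j : ℤ) : ℝ) := by rw [h]
    push_cast at h'
    exact h'
  -- first moments
  have first : ∀ N : ℕ, 4 ≤ N → ∀ j ∈ JJ (r * q) N,
      |(3 * ((al : ℝ) - be) + 2 * ga - (3 * (al' - be') + 2 * ga')) * j +
        (25 * (r * q) * ((al : ℝ) + be) + 2 * de - (25 * (r * q) * (al' + be') + 2 * de')) * N| ≤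
      C / 50 := by
    intro N hN j hj
    have hNpos : (0 : ℝ) < N := by
      have : (4 : ℝ) ≤ N := by exact_mod_cast hN
      linarith
    have h1 := hC N hN Λ hΛ1 hΛ2 (fun _ => 1) 1 zero_le_one (fun _ _ _ _ _ _ _ => by simp) j hj
    have e1 : χ.vdim N j * (∑ a ∈ range (AA (r * q) N j + 1), ∑ b ∈ range (BB (r * q) N j + 1),
        (∑ _l ∈ Ioc (-((Λ * N : ℕ) : ℤ)) (lw al be ga de N j a b), (1 : ℝ) -
        ∑ _l ∈ Ioc (-((Λ * N : ℕ) : ℤ)) (lw al' be' ga' de' N j a b), (1 : ℝ))) =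
        χ.msz N j / 2 * ((3 * ((al : ℝ) - be) + 2 * ga - (3 * (al' - be') + 2 * ga')) * j +
        (25 * (r * q) * ((al : ℝ) + be) + 2 * de - (25 * (r * q) * (al' + be') + 2 * de')) *
          N) := by
      have e2 : ∑ a ∈ range (AA (r * q) N j + 1), ∑ b ∈ range (BB (r * q) N j + 1),
        (∑ _l ∈ Ioc (-((Λ * N : ℕ) : ℤ)) (lw al be ga de N j a b), (1 : ℝ) -
        ∑ _l ∈ Ioc (-((Λ * N : ℕ) : ℤ)) (lw al' be' ga' de' N j a b), (1 : ℝ)) =
        ∑ a ∈ range (AA (r * q) N j + 1), ∑ b ∈ range (BB (r * q) N j + 1),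
          (((al : ℝ) - al') * a + ((be : ℝ) - be') * b +
            (((ga : ℝ) - ga') * j + ((de : ℝ) - de') * N)) := by
        apply sum_congr rfl
        intro a ha
        apply sum_congr rfl
        intro b hb
        have hin := forall_JJ hj ha hb
        rw [sum_Ioc_one (hlow1 N hN j a b hin), sum_Ioc_one (hlow2 N hN j a b hin), lw_real,
          lw_real]
        ring
      rw [e2, sum_lin, hA N j hj, hB N j hj]
      unfold msz
      rw [hA N j hj, hB N j hj]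
      ring
    rw [e1, abs_mul] at h1
    have h2 := χ.le_msz hD hq hr hN hj
    have h3 : (0 : ℝ) < N ^ 3 := by positivity
    rw [abs_of_nonneg (by linarith : (0 : ℝ) ≤ χ.msz N j / 2), one_mul] at h1
    generalize |(3 * ((al : ℝ) - be) + 2 * ga - (3 * (al' - be') + 2 * ga')) * j +
        (25 * (r * q) * ((al : ℝ) + be) + 2 * de - (25 * (r * q) * (al' + be') + 2 * de')) *
          N| = z at h1 ⊢
    by_contra h4
    push Not at h4
    have h5 : 0 ≤ z := by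
      have : 0 ≤ C / 50 := by positivity
      linarith
    have h6 : 50 * (N : ℝ) ^ 3 * z ≤ χ.msz N j / 2 * z :=
      mul_le_mul_of_nonneg_right (by linarith) h5
    have h7 : 50 * (N : ℝ) ^ 3 * z > 50 * (N : ℝ) ^ 3 * (C / 50) :=
      mul_lt_mul_of_pos_left h4 (by positivity)
    have h8 : 50 * (N : ℝ) ^ 3 * (C / 50) = C * (N : ℝ) ^ 3 := by ring
    linarith
  have hj0 : ∀ N : ℕ, (0 : ℤ) ∈ JJ (r * q) N := by
    intro N
    rw [mem_JJ, abs_zero]
    positivity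
  have hj5 : ∀ N : ℕ, (5 * ((r * q : ℕ) : ℤ) * N) ∈ JJ (r * q) N := by
    intro N
    rw [mem_JJ, abs_of_nonneg (by positivity)]
  have hY : 25 * (r * q) * (al + be) + 2 * de - (25 * (r * q) * (al' + be') + 2 * de') = 0 := by
    apply int_eq_zero_of_bdd (C := C / 50)
    intro N hN
    have h1 := first N hN 0 (hj0 N)
    rw [Int.cast_zero, mul_zero, zero_add, abs_mul, Nat.abs_cast] at h1
    push_cast
    exact h1
  have hX : 3 * (al - be) + 2 * ga - (3 * (al' - be') + 2 * ga') = 0 := by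
    have h0 : 5 * ((r * q : ℕ) : ℤ) * (3 * (al - be) + 2 * ga - (3 * (al' - be') + 2 * ga')) = 0 := by
      apply int_eq_zero_of_bdd (C := C / 50)
      intro N hN
      have h1 := first N hN _ (hj5 N)
      have hY' : (25 * (r * q) * ((al : ℝ) + be) + 2 * de -
          (25 * (r * q) * (al' + be') + 2 * de')) = 0 := by
        exact_mod_cast hY
      rw [hY', zero_mul, add_zero] at h1
      have e : (3 * ((al : ℝ) - be) + 2 * ga - (3 * (al' - be') + 2 * ga')) *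
          ((5 * ((r * q : ℕ) : ℤ) * N : ℤ) : ℝ) =
          ((5 * ((r * q : ℕ) : ℤ) * (3 * (al - be) + 2 * ga - (3 * (al' - be') + 2 * ga')) : ℤ) : ℝ)
            * N := by
        push_cast
        ring
      rw [e, abs_mul, Nat.abs_cast] at h1
      exact h1
    have hrq : (5 * ((r * q : ℕ) : ℤ)) ≠ 0 := by
      have : 1 ≤ r * q := Nat.mul_pos hr hq
      omega
    exact (mul_eq_zero.1 h0).resolve_left hrq
  refine ⟨by linarith, by linarith, ?_⟩
  -- second moments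
  obtain ⟨c, hc0, hc⟩ : ∃ c : ℝ, 0 ≤ c ∧ ∀ N : ℕ, 4 ≤ N → ∀ j a b l, InR (r * q) N j a b →
      -((Λ * N : ℕ) : ℤ) < l →
      (l ≤ lw al be ga de N j a b ∨ l ≤ lw al' be' ga' de' N j a b) →
      |2 * ((l : ℝ) + ((Λ * N : ℕ) : ℤ)) - 1| ≤ c * N := by
    refine ⟨2 * ((40 * (r * q : ℕ) * (|(al : ℝ)| + |(be : ℝ)| + |(ga : ℝ)|) + |(de : ℝ)|) +
      (40 * (r * q : ℕ) * (|(al' : ℝ)| + |(be' : ℝ)| + |(ga' : ℝ)|) + |(de' : ℝ)|)) + 2 * Λ,
      by positivity, ?_⟩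
    intro N hN j a b l hin h1 h2
    have h3 : (1 : ℝ) ≤ (l : ℝ) + ((Λ * N : ℕ) : ℤ) := by
      have : 1 ≤ l + ((Λ * N : ℕ) : ℤ) := by omega
      exact_mod_cast this
    rw [abs_of_nonneg (by linarith)]
    have g1 := abs_lw_le al be ga de hin
    have g2 := abs_lw_le al' be' ga' de' hin
    have g3 := le_abs_self (lw al be ga de N j a b : ℝ)
    have g4 := le_abs_self (lw al' be' ga' de' N j a b : ℝ)
    have g5 := abs_nonneg (lw al be ga de N j a b : ℝ)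
    have g6 := abs_nonneg (lw al' be' ga' de' N j a b : ℝ)
    have h4 : (l : ℝ) ≤ (40 * (r * q : ℕ) * (|(al : ℝ)| + |(be : ℝ)| + |(ga : ℝ)|) + |(de : ℝ)|) * N +
      (40 * (r * q : ℕ) * (|(al' : ℝ)| + |(be' : ℝ)| + |(ga' : ℝ)|) + |(de' : ℝ)|) * N := by
      rcases h2 with h2 | h2
      · have : (l : ℝ) ≤ (lw al be ga de N j a b : ℝ) := by exact_mod_cast h2
        linarith
      · have : (l : ℝ) ≤ (lw al' be' ga' de' N j a b : ℝ) := by exact_mod_cast h2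
        linarith
    push_cast at h4 ⊢
    linarith
  have second : ∀ N : ℕ, 4 ≤ N → ∀ j ∈ JJ (r * q) N,
      |((al : ℝ) ^ 2 - (al' : ℝ) ^ 2) * (AA (r * q) N j * (AA (r * q) N j + 2)) +
        ((be : ℝ) ^ 2 - (be' : ℝ) ^ 2) * (BB (r * q) N j * (BB (r * q) N j + 2))| ≤
      c * C * N := by
    intro N hN j hj
    have hNpos : (0 : ℝ) < N := by
      have : (4 : ℝ) ≤ N := by exact_mod_cast hN
      linarith
    have h1 := hC N hN Λ hΛ1 hΛ2 (fun l => 2 * ((l : ℝ) + ((Λ * N : ℕ) : ℤ)) - 1) (c * N)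
      (by positivity) (fun j a b l hin g1 g2 => hc N hN j a b l hin g1 g2) j hj
    have hX' : (3 * ((al : ℝ) - be) + 2 * ga - (3 * (al' - be') + 2 * ga')) = 0 := by
      exact_mod_cast hX
    have hY' : (25 * (r * q) * ((al : ℝ) + be) + 2 * de -
        (25 * (r * q) * (al' + be') + 2 * de')) = 0 := by
      exact_mod_cast hY
    have e1 : χ.vdim N j * (∑ a ∈ range (AA (r * q) N j + 1), ∑ b ∈ range (BB (r * q) N j + 1),
        (∑ l ∈ Ioc (-((Λ * N : ℕ) : ℤ)) (lw al be ga de N j a b),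
          (2 * ((l : ℝ) + ((Λ * N : ℕ) : ℤ)) - 1) -
        ∑ l ∈ Ioc (-((Λ * N : ℕ) : ℤ)) (lw al' be' ga' de' N j a b),
          (2 * ((l : ℝ) + ((Λ * N : ℕ) : ℤ)) - 1))) =
        χ.msz N j / 12 * (((al : ℝ) ^ 2 - (al' : ℝ) ^ 2) *
          (AA (r * q) N j * (AA (r * q) N j + 2)) +
        ((be : ℝ) ^ 2 - (be' : ℝ) ^ 2) * (BB (r * q) N j * (BB (r * q) N j + 2))) := by
      have e2 : ∑ a ∈ range (AA (r * q) N j + 1), ∑ b ∈ range (BB (r * q) N j + 1),
        (∑ l ∈ Ioc (-((Λ * N : ℕ) : ℤ)) (lw al be ga de N j a b),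
          (2 * ((l : ℝ) + ((Λ * N : ℕ) : ℤ)) - 1) -
        ∑ l ∈ Ioc (-((Λ * N : ℕ) : ℤ)) (lw al' be' ga' de' N j a b),
          (2 * ((l : ℝ) + ((Λ * N : ℕ) : ℤ)) - 1)) =
        ∑ a ∈ range (AA (r * q) N j + 1), ∑ b ∈ range (BB (r * q) N j + 1),
          ((al : ℝ) * a + be * b + (ga * j + de * N + ((Λ * N : ℕ) : ℤ))) *
          ((al : ℝ) * a + be * b + (ga * j + de * N + ((Λ * N : ℕ) : ℤ))) -
        ∑ a ∈ range (AA (r * q) N j + 1), ∑ b ∈ range (BB (r * q) N j + 1),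
          ((al' : ℝ) * a + be' * b + (ga' * j + de' * N + ((Λ * N : ℕ) : ℤ))) *
          ((al' : ℝ) * a + be' * b + (ga' * j + de' * N + ((Λ * N : ℕ) : ℤ))) := by
        rw [← sum_sub_distrib]
        apply sum_congr rfl
        intro a ha
        rw [← sum_sub_distrib]
        apply sum_congr rfl
        intro b hb
        have hin := forall_JJ hj ha hb
        rw [sum_Ioc_odd (hlow1 N hN j a b hin), sum_Ioc_odd (hlow2 N hN j a b hin), lw_real,
          lw_real]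
        ring
      have e3 : (al : ℝ) * AA (r * q) N j / 2 + be * BB (r * q) N j / 2 +
          (ga * j + de * N + ((Λ * N : ℕ) : ℤ)) = (al' : ℝ) * AA (r * q) N j / 2 +
          be' * BB (r * q) N j / 2 + (ga' * j + de' * N + ((Λ * N : ℕ) : ℤ)) := by
        rw [hA N j hj, hB N j hj]
        linear_combination (j : ℝ) / 2 * hX' + (N : ℝ) / 2 * hY'
      rw [e2, sum_bilin, sum_bilin, e3]
      unfold msz
      ring
    rw [e1, abs_mul] at h1
    have h2 := χ.le_msz hD hq hr hN hj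
    have h3 : (0 : ℝ) < N ^ 3 := by positivity
    rw [abs_of_nonneg (by linarith : (0 : ℝ) ≤ χ.msz N j / 12)] at h1
    generalize |((al : ℝ) ^ 2 - (al' : ℝ) ^ 2) * (AA (r * q) N j * (AA (r * q) N j + 2)) +
        ((be : ℝ) ^ 2 - (be' : ℝ) ^ 2) * (BB (r * q) N j * (BB (r * q) N j + 2))| = z at h1 ⊢
    by_contra h4
    push Not at h4
    have h4' : 0 ≤ c * C * N := by positivity
    have h5 : 0 ≤ z := by linarith
    have h6 : (N : ℝ) ^ 3 * z ≤ χ.msz N j / 12 * z :=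
      mul_le_mul_of_nonneg_right (by linarith) h5
    have h7 : (N : ℝ) ^ 3 * z > (N : ℝ) ^ 3 * (c * C * N) :=
      mul_lt_mul_of_pos_left h4 (by positivity)
    have h8 : (N : ℝ) ^ 3 * (c * C * N) = c * N * C * (N : ℝ) ^ 3 := by ring
    linarith
  have hrq1 : (1 : ℝ) ≤ r * q := by exact_mod_cast Nat.mul_pos hr hq
  have hsum : (al ^ 2 - al' ^ 2) + (be ^ 2 - be' ^ 2) = 0 := by
    apply int_eq_zero_of_bdd (C := c * C)
    intro N hN
    have hN4 : (4 : ℝ) ≤ N := by exact_mod_cast hN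
    have h1 := second N hN 0 (hj0 N)
    rw [hA N 0 (hj0 N), hB N 0 (hj0 N)] at h1
    have e1 : ((al : ℝ) ^ 2 - (al' : ℝ) ^ 2) *
        ((25 * (r * q) * N + 3 * ((0 : ℤ) : ℝ)) * (25 * (r * q) * N + 3 * ((0 : ℤ) : ℝ) + 2)) +
        ((be : ℝ) ^ 2 - (be' : ℝ) ^ 2) *
        ((25 * (r * q) * N - 3 * ((0 : ℤ) : ℝ)) * (25 * (r * q) * N - 3 * ((0 : ℤ) : ℝ) + 2)) =
        (((al ^ 2 - al' ^ 2) + (be ^ 2 - be' ^ 2) : ℤ) : ℝ) *
          ((25 * (r * q) * N) * (25 * (r * q) * N + 2)) := by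
      push_cast
      ring
    rw [e1, abs_mul, abs_of_nonneg (by positivity :
      (0 : ℝ) ≤ (25 * (r * q) * N) * (25 * (r * q) * N + 2))] at h1
    have h2 : (N : ℝ) * N ≤ (25 * (r * q) * N) * (25 * (r * q) * N + 2) := by
      have h3 : (N : ℝ) ≤ 25 * (r * q) * N := by nlinarith
      apply mul_le_mul h3 (by linarith) (by positivity) (by positivity)
    have h3 : |(((al ^ 2 - al' ^ 2) + (be ^ 2 - be' ^ 2) : ℤ) : ℝ)| * (N * N) ≤ c * C * N :=
      (mul_le_mul_of_nonneg_left h2 (abs_nonneg _)).trans h1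
    have h4 : |(((al ^ 2 - al' ^ 2) + (be ^ 2 - be' ^ 2) : ℤ) : ℝ)| * N * N ≤ c * C * N := by
      linarith
    exact le_of_mul_le_mul_right h4 (by linarith)
  have hal : al ^ 2 - al' ^ 2 = 0 := by
    apply int_eq_zero_of_bdd (C := c * C)
    intro N hN
    have hN4 : (4 : ℝ) ≤ N := by exact_mod_cast hN
    have h1 := second N hN _ (hj5 N)
    rw [hA N _ (hj5 N), hB N _ (hj5 N)] at h1
    have hsum' : ((be : ℝ) ^ 2 - (be' : ℝ) ^ 2) = -((al : ℝ) ^ 2 - (al' : ℝ) ^ 2) := by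
      have h : (((al ^ 2 - al' ^ 2) + (be ^ 2 - be' ^ 2) : ℤ) : ℝ) = 0 := by exact_mod_cast hsum
      push_cast at h
      linarith
    have e1 : ((al : ℝ) ^ 2 - (al' : ℝ) ^ 2) *
        ((25 * (r * q) * N + 3 * ((5 * ((r * q : ℕ) : ℤ) * N : ℤ) : ℝ)) *
          (25 * (r * q) * N + 3 * ((5 * ((r * q : ℕ) : ℤ) * N : ℤ) : ℝ) + 2)) +
        ((be : ℝ) ^ 2 - (be' : ℝ) ^ 2) *
        ((25 * (r * q) * N - 3 * ((5 * ((r * q : ℕ) : ℤ) * N : ℤ) : ℝ)) *
          (25 * (r * q) * N - 3 * ((5 * ((r * q : ℕ) : ℤ) * N : ℤ) : ℝ) + 2)) =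
        ((al ^ 2 - al' ^ 2 : ℤ) : ℝ) *
          (1500 * (r * q * N) ^ 2 + 60 * (r * q * N)) := by
      rw [hsum']
      push_cast
      ring
    rw [e1, abs_mul, abs_of_nonneg (by positivity :
      (0 : ℝ) ≤ 1500 * (r * q * N) ^ 2 + 60 * (r * q * N))] at h1
    have h2 : (N : ℝ) * N ≤ 1500 * (r * q * N) ^ 2 + 60 * (r * q * N) := by
      have h3 : (N : ℝ) ≤ r * q * N := by nlinarith
      nlinarith
    have h3 : |((al ^ 2 - al' ^ 2 : ℤ) : ℝ)| * (N * N) ≤ c * C * N :=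
      (mul_le_mul_of_nonneg_left h2 (abs_nonneg _)).trans h1
    have h4 : |((al ^ 2 - al' ^ 2 : ℤ) : ℝ)| * N * N ≤ c * C * N := by
      linarith
    exact le_of_mul_le_mul_right h4 (by linarith)
  constructor <;> linarith

/-- The layers of two filtrations have the same dimensions. -/
def SameLayers (χ χ' : Filt T q D₀ r) (w : (Fin 4 →₀ ℕ) → ℕ) : Prop :=
  ∀ N l c, finrank ℂ (χ.F N l ⊓ Wle w c : Submodule ℂ (MvPolynomial (Fin 4) K)) =
    finrank ℂ (χ'.F N l ⊓ Wle w c : Submodule ℂ (MvPolynomial (Fin 4) K))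

/-- Intrinsic moments for orders refining the degree in `x` (`w = xd`) or in `y` (`w = yd`). -/
theorem Rigid.compare {χ χ' : Filt T q D₀ r} {m m' : MonomialOrder (Fin 4)}
    {al be ga de al' be' ga' de' : ℤ} (hR : χ.Rigid m al be ga de)
    (hR' : χ'.Rigid m' al' be' ga' de') (hD : T.X.deg D₀ = 105 * T.t * q) (hq : 0 < q) (hr : 0 < r)
    {w : (Fin 4 →₀ ℕ) → ℕ} {κ : ℕ → ℤ → ℕ} (hw : ∀ N, 4 ≤ N → LayerWt w (r * q) N (κ N))
    (hm : ∀ N, 4 ≤ N → Refines m w (Eset (r * q) N))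
    (hm' : ∀ N, 4 ≤ N → Refines m' w (Eset (r * q) N)) (hs : SameLayers χ χ' w) :
    3 * (al - be) + 2 * ga = 3 * (al' - be') + 2 * ga' ∧
    25 * (r * q) * (al + be) + 2 * de = 25 * (r * q) * (al' + be') + 2 * de' ∧
    al ^ 2 = al' ^ 2 ∧ be ^ 2 = be' ^ 2 := by
  apply hR.layer_eq hR' hD hq hr
  intro N hN l j hj
  rw [χ.sum_idim_layer (hw N hN) (hm N hN) l hj, χ'.sum_idim_layer (hw N hN) (hm' N hN) l hj,
    hs, hs]

end Filt

end Pool.Agent.YTD
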