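import Pool.Agent.YTD.RigidSign

/-!
Sign of the slopes for filtrations stable under an involution exchanging the coordinates.
-/

namespace Pool.Agent.YTD

open Module Finset MvPolynomial

variable {K : Type} [Field K] [Algebra ℂ K]
variable {T : Datum K} {q : ℕ} {D₀ : T.X.Pt →₀ ℤ} {r : ℕ}

/-- a lexicographic order refines the combined weight. -/
theorem Refines.of_lex {m : MonomialOrder (Fin 4)} {w1 w2 : (Fin 4 →₀ ℕ) → ℕ}
    {E : Finset (Fin 4 →₀ ℕ)} {M : ℕ}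
    (h : ∀ e ∈ E, ∀ e' ∈ E, m.toSyn e' ≤ m.toSyn e → w1 e' < w1 e ∨ w1 e' = w1 e ∧ w2 e' ≤ w2 e)
    (hM : ∀ e ∈ E, w2 e ≤ M) : Refines m (fun e => M * w1 e + w2 e) E := by
  intro e he e' he' hle
  rcases h e he e' he' hle with h1 | ⟨h1, h2⟩
  · have h3 := hM e' he'
    have h4 : M * (w1 e' + 1) ≤ M * w1 e := Nat.mul_le_mul_left M h1
    rw [Nat.mul_add, Nat.mul_one] at h4
    show M * w1 e' + w2 e' ≤ M * w1 e + w2 e
    omega
  · show M * w1 e' + w2 e' ≤ M * w1 e + w2 e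
    rw [h1]
    omega

theorem Refines.of_lex' {m : MonomialOrder (Fin 4)} {w1 w2 : (Fin 4 →₀ ℕ) → ℕ}
    {E : Finset (Fin 4 →₀ ℕ)}
    (h : ∀ e ∈ E, ∀ e' ∈ E, m.toSyn e' ≤ m.toSyn e → w1 e' < w1 e ∨ w1 e' = w1 e ∧ w2 e' ≤ w2 e) :
    Refines m w1 E := by
  intro e he e' he' hle
  rcases h e he e' he' hle with h1 | ⟨h1, _⟩
  · exact h1.le
  · exact h1.le

theorem neg_mem_JJ {Q N : ℕ} {j : ℤ} (h : j ∈ JJ Q N) : -j ∈ JJ Q N := by
  rw [mem_JJ] at h ⊢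
  rwa [abs_neg]

theorem AA_neg (Q N : ℕ) (j : ℤ) : AA Q N (-j) = BB Q N j := by
  unfold AA BB
  congr 1
  ring

theorem BB_neg (Q N : ℕ) (j : ℤ) : BB Q N (-j) = AA Q N j := by
  unfold AA BB
  congr 1
  ring

theorem dg_neg (t Q N : ℕ) (j : ℤ) : dg t Q N (-j) = dg t Q N j := by
  unfold dg
  rw [neg_neg]
  ring

theorem sum_JJ_neg (Q N : ℕ) (f : ℤ → ℝ) : ∑ j ∈ JJ Q N, f (-j) = ∑ j ∈ JJ Q N, f j :=
  sum_nbij' (fun j => -j) (fun j => -j) (fun _ h => neg_mem_JJ h) (fun _ h => neg_mem_JJ h)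
    (fun _ _ => neg_neg _) (fun _ _ => neg_neg _) (fun _ _ => rfl)

theorem AA_real {Q N : ℕ} {j : ℤ} (hj : j ∈ JJ Q N) : (AA Q N j : ℝ) = 25 * Q * N + 3 * j := by
  have h := AA_cast (mem_JJ.1 hj)
  have h' : ((AA Q N j : ℤ) : ℝ) = ((25 * Q * N + 3 * j : ℤ) : ℝ) := by rw [h]
  push_cast at h'
  exact h'

theorem BB_real {Q N : ℕ} {j : ℤ} (hj : j ∈ JJ Q N) : (BB Q N j : ℝ) = 25 * Q * N - 3 * j := by
  have h := BB_cast (mem_JJ.1 hj)
  have h' : ((BB Q N j : ℤ) : ℝ) = ((25 * Q * N - 3 * j : ℤ) : ℝ) := by rw [h]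
  push_cast at h'
  exact h'

theorem zero_mem_JJ (Q N : ℕ) : (0 : ℤ) ∈ JJ Q N := by
  rw [mem_JJ, abs_zero]
  positivity

namespace Filt

theorem vdim_neg (χ : Filt T q D₀ r) (hD : T.X.deg D₀ = 105 * T.t * q) (hq : 0 < q) (hr : 0 < r)
    {N : ℕ} (hN : 4 ≤ N) {j : ℤ} (hj : j ∈ JJ (r * q) N) : χ.vdim N (-j) = χ.vdim N j := by
  rw [χ.vdim_eq hD hq hr hN hj, χ.vdim_eq hD hq hr hN (neg_mem_JJ hj), dg_neg]

theorem msz_neg (χ : Filt T q D₀ r) (hD : T.X.deg D₀ = 105 * T.t * q) (hq : 0 < q) (hr : 0 < r)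
    {N : ℕ} (hN : 4 ≤ N) {j : ℤ} (hj : j ∈ JJ (r * q) N) : χ.msz N (-j) = χ.msz N j := by
  unfold msz
  rw [χ.vdim_neg hD hq hr hN hj, AA_neg, BB_neg]
  ring

theorem msz_nonneg (χ : Filt T q D₀ r) (N : ℕ) (j : ℤ) : 0 ≤ χ.msz N j := by
  unfold msz vdim
  positivity

/-- second moment of `a` -/
noncomputable def sA (χ : Filt T q D₀ r) (N : ℕ) : ℝ :=
  ∑ j ∈ JJ (r * q) N, χ.msz N j * (AA (r * q) N j * (AA (r * q) N j + 2))

theorem sA_eq (χ : Filt T q D₀ r) (hD : T.X.deg D₀ = 105 * T.t * q) (hq : 0 < q) (hr : 0 < r)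
    {N : ℕ} (hN : 4 ≤ N) :
    ∑ j ∈ JJ (r * q) N, χ.msz N j * (BB (r * q) N j * (BB (r * q) N j + 2)) = χ.sA N := by
  unfold sA
  rw [← sum_JJ_neg (r * q) N (fun j => χ.msz N j * (AA (r * q) N j * (AA (r * q) N j + 2)))]
  apply sum_congr rfl
  intro j hj
  rw [χ.msz_neg hD hq hr hN hj, AA_neg]

theorem le_sA (χ : Filt T q D₀ r) (hD : T.X.deg D₀ = 105 * T.t * q) (hq : 0 < q) (hr : 0 < r)
    {N : ℕ} (hN : 4 ≤ N) : 62500 * (N : ℝ) ^ 5 ≤ χ.sA N := by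
  have h0 : (0 : ℤ) ∈ JJ (r * q) N := zero_mem_JJ _ _
  refine le_trans ?_ (single_le_sum (f := fun j => χ.msz N j *
    (AA (r * q) N j * (AA (r * q) N j + 2))) (fun j _ => mul_nonneg (χ.msz_nonneg N j)
      (by positivity)) h0)
  have h1 := χ.le_msz hD hq hr hN h0
  have hrq : (1 : ℝ) ≤ (r * q : ℕ) := by exact_mod_cast Nat.mul_pos hr hq
  have hN4 : (4 : ℝ) ≤ N := by exact_mod_cast hN
  have h2 : (25 : ℝ) * N ≤ AA (r * q) N 0 := by
    rw [AA_real h0]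
    have : (25 : ℝ) * N * 1 ≤ 25 * N * (r * q : ℕ) :=
      mul_le_mul_of_nonneg_left hrq (by positivity)
    simp
    push_cast at this
    linarith
  calc 62500 * (N : ℝ) ^ 5 = 100 * (N : ℝ) ^ 3 * ((25 * N) * (25 * N)) := by ring
    _ ≤ _ := by
        apply mul_le_mul h1 _ (by positivity) (χ.msz_nonneg N 0)
        apply mul_le_mul h2 (by linarith) (by positivity) (by positivity)

/-- Sign of the slopes. -/
theorem Rigid.sign_core {χ : Filt T q D₀ r} {m : MonomialOrder (Fin 4)}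
    {al be ga de : ℤ} (hR : χ.Rigid m al be ga de)
    (hD : T.X.deg D₀ = 105 * T.t * q) (hq : 0 < q) (hr : 0 < r)
    (hinv : ∀ N l w c,
      finrank ℂ (χ.F N l ⊓ Wle w c : Submodule ℂ (MvPolynomial (Fin 4) K)) ≤
      finrank ℂ (χ.F N l ⊓ Wle (fun e => w (swapE e)) c :
        Submodule ℂ (MvPolynomial (Fin 4) K)))
    (r1 r2 : ℕ) (v : ℕ → (Fin 4 →₀ ℕ) → ℕ) (hv : ∀ N e, v N (swapE e) = v N e)
    (hm : ∀ N, 4 ≤ N → Refines m (fun e => v N e + (r1 * e 1 + r2 * e 3)) (Eset (r * q) N)) :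
    0 ≤ r1 * al + r2 * be := by
  have hval : ∀ N j a b, InR (r * q) N j a b →
      ((v N (expo (r * q) N j a b) + (r1 * (expo (r * q) N j a b) 1 +
        r2 * (expo (r * q) N j a b) 3) : ℕ) : ℝ) -
      ((v N (swapE (expo (r * q) N j a b)) + (r1 * (swapE (expo (r * q) N j a b)) 1 +
        r2 * (swapE (expo (r * q) N j a b)) 3) : ℕ) : ℝ) =
      2 * r1 * a + 2 * r2 * b + (-(r1 * AA (r * q) N j) - r2 * BB (r * q) N j) := by
    intro N j a b h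
    rw [hv, swapE_1, swapE_3, expo_0, expo_1, expo_2, expo_3]
    have h1 := (inR_iff h.1).1 h
    push_cast [Nat.cast_sub h1.1, Nat.cast_sub h1.2]
    ring
  obtain ⟨C, hC0, hC⟩ := hR.greedy hD hq hr (w := fun N e => v N e + (r1 * e 1 + r2 * e 3))
    (w' := fun N e => v N (swapE e) + (r1 * (swapE e) 1 + r2 * (swapE e) 3))
    hm (fun N _ l c => hinv N l _ c)
    (B := 40 * (r * q : ℕ) * (r1 + r2)) (by
      intro N hN j a b h
      rw [hval N j a b h]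
      have h1 := (inR_iff h.1).1 h
      have ha : (a : ℝ) ≤ AA (r * q) N j := by exact_mod_cast h1.1
      have hb : (b : ℝ) ≤ BB (r * q) N j := by exact_mod_cast h1.2
      have ha0 : (0 : ℝ) ≤ a := by positivity
      have hb0 : (0 : ℝ) ≤ b := by positivity
      have hj := mem_JJ.2 h.1
      have hj' : |(j : ℝ)| ≤ 5 * (r * q : ℕ) * N := by exact_mod_cast h.1
      rw [abs_le] at hj'
      have hA : (AA (r * q) N j : ℝ) ≤ 40 * (r * q : ℕ) * N := by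
        rw [AA_real hj]
        linarith
      have hB : (BB (r * q) N j : ℝ) ≤ 40 * (r * q : ℕ) * N := by
        rw [BB_real hj]
        linarith
      have g1 : |2 * (a : ℝ) - AA (r * q) N j| ≤ 40 * (r * q : ℕ) * N := by
        rw [abs_le]
        constructor <;> linarith
      have g2 : |2 * (b : ℝ) - BB (r * q) N j| ≤ 40 * (r * q : ℕ) * N := by
        rw [abs_le]
        constructor <;> linarith
      calc |2 * (r1 : ℝ) * a + 2 * r2 * b + (-(r1 * AA (r * q) N j) - r2 * BB (r * q) N j)|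
          = |(r1 : ℝ) * (2 * a - AA (r * q) N j) + r2 * (2 * b - BB (r * q) N j)| := by
            congr 1
            ring
        _ ≤ |(r1 : ℝ) * (2 * a - AA (r * q) N j)| + |(r2 : ℝ) * (2 * b - BB (r * q) N j)| :=
            abs_add_le _ _
        _ = r1 * |2 * (a : ℝ) - AA (r * q) N j| + r2 * |2 * (b : ℝ) - BB (r * q) N j| := by
            rw [abs_mul, abs_mul, Nat.abs_cast, Nat.abs_cast]
        _ ≤ r1 * (40 * (r * q : ℕ) * N) + r2 * (40 * (r * q : ℕ) * N) :=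
            add_le_add (mul_le_mul_of_nonneg_left g1 (by positivity))
              (mul_le_mul_of_nonneg_left g2 (by positivity))
        _ = _ := by ring)
  have hsum : ∀ N : ℕ, 4 ≤ N → ∑ j ∈ JJ (r * q) N, χ.vdim N j *
      ∑ a ∈ range (AA (r * q) N j + 1), ∑ b ∈ range (BB (r * q) N j + 1),
      (((v N (expo (r * q) N j a b) + (r1 * (expo (r * q) N j a b) 1 +
        r2 * (expo (r * q) N j a b) 3) : ℕ) : ℝ) -
      ((v N (swapE (expo (r * q) N j a b)) + (r1 * (swapE (expo (r * q) N j a b)) 1 +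
        r2 * (swapE (expo (r * q) N j a b)) 3) : ℕ) : ℝ)) *
        ((lw al be ga de N j a b : ℝ) + ((χ.lam * N : ℕ) : ℤ)) =
      ((r1 * al + r2 * be : ℤ) : ℝ) / 6 * χ.sA N := by
    intro N hN
    have e1 : ∀ j ∈ JJ (r * q) N, χ.vdim N j *
      ∑ a ∈ range (AA (r * q) N j + 1), ∑ b ∈ range (BB (r * q) N j + 1),
      (((v N (expo (r * q) N j a b) + (r1 * (expo (r * q) N j a b) 1 +
        r2 * (expo (r * q) N j a b) 3) : ℕ) : ℝ) -
      ((v N (swapE (expo (r * q) N j a b)) + (r1 * (swapE (expo (r * q) N j a b)) 1 +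
        r2 * (swapE (expo (r * q) N j a b)) 3) : ℕ) : ℝ)) *
        ((lw al be ga de N j a b : ℝ) + ((χ.lam * N : ℕ) : ℤ)) =
      (r1 * al : ℝ) / 6 * (χ.msz N j * (AA (r * q) N j * (AA (r * q) N j + 2))) +
      (r2 * be : ℝ) / 6 * (χ.msz N j * (BB (r * q) N j * (BB (r * q) N j + 2))) := by
      intro j hj
      have e2 : ∑ a ∈ range (AA (r * q) N j + 1), ∑ b ∈ range (BB (r * q) N j + 1),
        (((v N (expo (r * q) N j a b) + (r1 * (expo (r * q) N j a b) 1 +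
        r2 * (expo (r * q) N j a b) 3) : ℕ) : ℝ) -
        ((v N (swapE (expo (r * q) N j a b)) + (r1 * (swapE (expo (r * q) N j a b)) 1 +
        r2 * (swapE (expo (r * q) N j a b)) 3) : ℕ) : ℝ)) *
        ((lw al be ga de N j a b : ℝ) + ((χ.lam * N : ℕ) : ℤ)) =
        ∑ a ∈ range (AA (r * q) N j + 1), ∑ b ∈ range (BB (r * q) N j + 1),
        (2 * (r1 : ℝ) * a + 2 * r2 * b + (-(r1 * AA (r * q) N j) - r2 * BB (r * q) N j)) *
        ((al : ℝ) * a + be * b + (ga * j + de * N + ((χ.lam * N : ℕ) : ℤ))) := by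
        apply sum_congr rfl
        intro a ha
        apply sum_congr rfl
        intro b hb
        rw [hval N j a b (forall_JJ hj ha hb), lw_real]
      rw [e2, sum_bilin]
      unfold msz
      ring
    rw [sum_congr rfl e1, sum_add_distrib, ← mul_sum, ← mul_sum, χ.sA_eq hD hq hr hN]
    unfold sA
    push_cast
    ring
  by_contra hneg
  push Not at hneg
  have h1 : ((r1 * al + r2 * be : ℤ) : ℝ) ≤ -1 := by
    have : r1 * al + r2 * be ≤ -1 := by omega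
    exact_mod_cast this
  obtain ⟨n, hn⟩ := exists_nat_gt C
  have h2 := hC (n + 4) (by omega)
  rw [hsum (n + 4) (by omega)] at h2
  have h3 := χ.le_sA hD hq hr (N := n + 4) (by omega)
  have h4 : (0 : ℝ) < ((n + 4 : ℕ) : ℝ) ^ 4 := by positivity
  have h5 : C < ((n + 4 : ℕ) : ℝ) := by
    push_cast
    linarith
  have h6 : C * ((n + 4 : ℕ) : ℝ) ^ 4 < ((n + 4 : ℕ) : ℝ) * ((n + 4 : ℕ) : ℝ) ^ 4 :=
    mul_lt_mul_of_pos_right h5 h4
  have h7 : ((n + 4 : ℕ) : ℝ) * ((n + 4 : ℕ) : ℝ) ^ 4 = ((n + 4 : ℕ) : ℝ) ^ 5 := by ring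
  have h8 : (0 : ℝ) < ((n + 4 : ℕ) : ℝ) ^ 5 := by positivity
  have h9 : ((r1 * al + r2 * be : ℤ) : ℝ) / 6 * χ.sA (n + 4) ≤ -1 / 6 * χ.sA (n + 4) :=
    mul_le_mul_of_nonneg_right (by linarith) (by linarith)
  linarith

theorem Rigid.sign_lex_core {χ : Filt T q D₀ r} {m : MonomialOrder (Fin 4)}
    {al be ga de : ℤ} (hR : χ.Rigid m al be ga de)
    (hD : T.X.deg D₀ = 105 * T.t * q) (hq : 0 < q) (hr : 0 < r)
    (hinv : ∀ N l w c,
      finrank ℂ (χ.F N l ⊓ Wle w c : Submodule ℂ (MvPolynomial (Fin 4) K)) ≤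
      finrank ℂ (χ.F N l ⊓ Wle (fun e => w (swapE e)) c :
        Submodule ℂ (MvPolynomial (Fin 4) K)))
    (r1 r2 : ℕ) (v : (Fin 4 →₀ ℕ) → ℕ) (hv : ∀ e, v (swapE e) = v e)
    (hm : ∀ N, 4 ≤ N → ∀ e ∈ Eset (r * q) N, ∀ e' ∈ Eset (r * q) N, m.toSyn e' ≤ m.toSyn e →
      v e' < v e ∨ v e' = v e ∧ r1 * e' 1 + r2 * e' 3 ≤ r1 * e 1 + r2 * e 3) :
    0 ≤ r1 * al + r2 * be := by
  refine hR.sign_core hD hq hr hinv r1 r2
    (fun N e => (∑ e ∈ Eset (r * q) N, (r1 * e 1 + r2 * e 3)) * v e)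
    (fun N e => by simp only [hv e]) ?_
  intro N hN
  exact Refines.of_lex (hm N hN) (fun e he =>
    single_le_sum (f := fun e : Fin 4 →₀ ℕ => r1 * e 1 + r2 * e 3) (fun _ _ => Nat.zero_le _) he)

/-- Sign of the slopes for an order which compares first a weight `v N` invariant under the
exchange of the coordinates (`xd` or `yd`), then `r1 * e 1 + r2 * e 3`, for a filtration stable
under `map θ ∘ subst s s'`. -/
theorem Rigid.sign_lex_map {χ : Filt T q D₀ r} {m : MonomialOrder (Fin 4)}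
    {al be ga de : ℤ} (hR : χ.Rigid m al be ga de)
    (hD : T.X.deg D₀ = 105 * T.t * q) (hq : 0 < q) (hr : 0 < r)
    {s s' : Matrix (Fin 2) (Fin 2) ℂ} (hs : Anti s) (hs' : Anti s') (θ : K ≃ₐ[ℂ] K)
    (hinv : ∀ N l, ∀ f ∈ χ.F N l, MvPolynomial.map (θ : K →+* K) (subst s s' f) ∈ χ.F N l)
    (r1 r2 : ℕ) (v : (Fin 4 →₀ ℕ) → ℕ) (hv : ∀ e, v (swapE e) = v e)
    (hm : ∀ N, 4 ≤ N → ∀ e ∈ Eset (r * q) N, ∀ e' ∈ Eset (r * q) N, m.toSyn e' ≤ m.toSyn e →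
      v e' < v e ∨ v e' = v e ∧ r1 * e' 1 + r2 * e' 3 ≤ r1 * e 1 + r2 * e 3) :
    0 ≤ r1 * al + r2 * be :=
  hR.sign_lex_core hD hq hr (fun N l w c =>
    finrank_swap_map hs hs' θ (χ.finite_F N l) (hinv N l) w c) r1 r2 v hv hm

/-- Sign of the slopes for an order which compares first a weight `v N` invariant under the
exchange of the coordinates (`xd` or `yd`), then `r1 * e 1 + r2 * e 3`. -/
theorem Rigid.sign_lex {χ : Filt T q D₀ r} {m : MonomialOrder (Fin 4)}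
    {al be ga de : ℤ} (hR : χ.Rigid m al be ga de)
    (hD : T.X.deg D₀ = 105 * T.t * q) (hq : 0 < q) (hr : 0 < r)
    {s s' : Matrix (Fin 2) (Fin 2) ℂ} (hs : Anti s) (hs' : Anti s')
    (hinv : ∀ N l, ∀ f ∈ χ.F N l, subst s s' f ∈ χ.F N l)
    (r1 r2 : ℕ) (v : (Fin 4 →₀ ℕ) → ℕ) (hv : ∀ e, v (swapE e) = v e)
    (hm : ∀ N, 4 ≤ N → ∀ e ∈ Eset (r * q) N, ∀ e' ∈ Eset (r * q) N, m.toSyn e' ≤ m.toSyn e →
      v e' < v e ∨ v e' = v e ∧ r1 * e' 1 + r2 * e' 3 ≤ r1 * e 1 + r2 * e 3) :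
    0 ≤ r1 * al + r2 * be :=
  hR.sign_lex_core hD hq hr (fun N l w c =>
    finrank_swap hs hs' (χ.finite_F N l) (hinv N l) w c) r1 r2 v hv hm

end Filt

theorem xd_swapE (e : Fin 4 →₀ ℕ) : xd (swapE e) = xd e := by
  unfold xd
  rw [swapE_0, swapE_1, add_comm]

theorem yd_swapE (e : Fin 4 →₀ ℕ) : yd (swapE e) = yd e := by
  unfold yd
  rw [swapE_2, swapE_3, add_comm]

end Pool.Agent.YTD
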