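import Pool.Agent.YTD.RigidLayers

/-!
Comparison of the layers of two rigid filtrations.
-/

namespace Pool.Agent.YTD

open Module Finset MvPolynomial

variable {K : Type} [Field K] [Algebra ℂ K]
variable {T : Datum K} {q : ℕ} {D₀ : T.X.Pt →₀ ℤ} {r : ℕ}

/-! ### elementary sums -/

theorem sum_one_range (A : ℕ) : ∑ a ∈ range (A + 1), (a : ℝ) = A * (A + 1) / 2 := by
  induction A with
  | zero => simp
  | succ n ih =>
    rw [sum_range_succ, ih]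
    push_cast
    ring

theorem sum_sq_range (A : ℕ) :
    ∑ a ∈ range (A + 1), (a : ℝ) ^ 2 = A * (A + 1) * (2 * A + 1) / 6 := by
  induction A with
  | zero => simp
  | succ n ih =>
    rw [sum_range_succ, ih]
    push_cast
    ring

theorem sum_lin (A B : ℕ) (p u s : ℝ) :
    ∑ a ∈ range (A + 1), ∑ b ∈ range (B + 1), (p * a + u * b + s) =
      (A + 1) * (B + 1) * (p * A / 2 + u * B / 2 + s) := by
  have h : ∀ a : ℕ, ∑ b ∈ range (B + 1), (p * a + u * b + s) =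
      (B + 1) * p * a + (B + 1) * (u * B / 2 + s) := by
    intro a
    rw [sum_add_distrib, sum_add_distrib, ← mul_sum (range (B + 1)) (fun b : ℕ => (b : ℝ)) u,
      sum_one_range]
    simp
    ring
  rw [sum_congr rfl (fun a _ => h a), sum_add_distrib,
    ← mul_sum (range (A + 1)) (fun a : ℕ => (a : ℝ)), sum_one_range]
  simp
  ring

theorem sum_bilin (A B : ℕ) (p u s p' u' s' : ℝ) :
    ∑ a ∈ range (A + 1), ∑ b ∈ range (B + 1), (p * a + u * b + s) * (p' * a + u' * b + s') =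
      (A + 1) * (B + 1) * (p * p' * (A * (A + 2)) / 12 + u * u' * (B * (B + 2)) / 12 +
        (p * A / 2 + u * B / 2 + s) * (p' * A / 2 + u' * B / 2 + s')) := by
  have h : ∀ a : ℕ, ∑ b ∈ range (B + 1), (p * a + u * b + s) * (p' * a + u' * b + s') =
      (B + 1) * p * p' * (a : ℝ) ^ 2 +
        ((B + 1) * (p * (u' * B / 2 + s') + p' * (u * B / 2 + s))) * a +
        (u * u' * (B * (B + 1) * (2 * B + 1) / 6) + (u * s' + u' * s) * (B * (B + 1) / 2) +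
          (B + 1) * s * s') := by
    intro a
    have h1 : ∀ b ∈ range (B + 1), (p * a + u * b + s) * (p' * a + u' * b + s') =
        (p * p' * (a : ℝ) ^ 2 + (p * s' + p' * s) * a + s * s') +
        ((p * u' + p' * u) * a + (u * s' + u' * s)) * b + u * u' * (b : ℝ) ^ 2 := by
      intro b _
      ring
    rw [sum_congr rfl h1, sum_add_distrib, sum_add_distrib, ← mul_sum, ← mul_sum, sum_one_range,
      sum_sq_range]
    simp
    ring
  rw [sum_congr rfl (fun a _ => h a), sum_add_distrib, sum_add_distrib, ← mul_sum, ← mul_sum,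
    sum_one_range, sum_sq_range]
  simp
  ring

theorem sum_Ioc_one {c L : ℤ} (h : -c ≤ L) : ∑ _l ∈ Ioc (-c) L, (1 : ℝ) = L + c := by
  rw [sum_const, Int.card_Ioc, nsmul_eq_mul, mul_one]
  have h1 : ((L - -c).toNat : ℤ) = L + c := by
    rw [Int.toNat_of_nonneg (by linarith)]
    ring
  exact_mod_cast h1

theorem sum_Ioc_odd {c L : ℤ} (h : -c ≤ L) :
    ∑ l ∈ Ioc (-c) L, (2 * ((l : ℝ) + c) - 1) = ((L : ℝ) + c) ^ 2 := by
  obtain ⟨n, hn⟩ : ∃ n : ℕ, L = -c + n := ⟨(L + c).toNat, by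
    rw [Int.toNat_of_nonneg (by linarith)]
    ring⟩
  subst hn
  clear h
  induction n with
  | zero => simp
  | succ n ih =>
    have h1 : Ioc (-c) (-c + ((n + 1 : ℕ) : ℤ)) = insert (-c + ((n : ℤ) + 1)) (Ioc (-c) (-c + (n : ℤ))) := by
      ext x
      rw [mem_insert, mem_Ioc, mem_Ioc]
      push_cast
      omega
    rw [h1, sum_insert, ih]
    · push_cast
      ring
    · rw [mem_Ioc]
      omega

theorem int_eq_zero_of_bdd {y : ℤ} {C : ℝ} (h : ∀ N : ℕ, 4 ≤ N → |(y : ℝ)| * N ≤ C) : y = 0 := by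
  by_contra h0
  have h1 : (1 : ℝ) ≤ |(y : ℝ)| := by
    have : 1 ≤ |y| := Int.one_le_abs h0
    exact_mod_cast this
  obtain ⟨n, hn⟩ := exists_nat_gt C
  have h2 := h (n + 4) (by omega)
  push_cast at h2
  have h3 : (0 : ℝ) ≤ n := by positivity
  nlinarith

namespace Filt

/-- transfer of layer moments between two rigid filtrations with the same layer sums. -/
theorem Rigid.layer_compare {χ χ' : Filt T q D₀ r} {m m' : MonomialOrder (Fin 4)}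
    {al be ga de al' be' ga' de' : ℤ} (hR : χ.Rigid m al be ga de)
    (hR' : χ'.Rigid m' al' be' ga' de')
    (hlay : ∀ N : ℕ, 4 ≤ N → ∀ l : ℤ, ∀ j ∈ JJ (r * q) N,
      ∑ a ∈ range (AA (r * q) N j + 1), ∑ b ∈ range (BB (r * q) N j + 1), χ.idim m N l j a b =
      ∑ a ∈ range (AA (r * q) N j + 1), ∑ b ∈ range (BB (r * q) N j + 1), χ'.idim m' N l j a b) :
    ∃ C : ℝ, 0 ≤ C ∧ ∀ N : ℕ, 4 ≤ N → ∀ Λ : ℕ, χ.lam ≤ Λ → χ'.lam ≤ Λ →
    ∀ (φ : ℤ → ℝ) (Ω : ℝ), 0 ≤ Ω →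
    (∀ j a b l, InR (r * q) N j a b → -((Λ * N : ℕ) : ℤ) < l →
      (l ≤ lw al be ga de N j a b ∨ l ≤ lw al' be' ga' de' N j a b) → |φ l| ≤ Ω) →
    ∀ j ∈ JJ (r * q) N, |χ.vdim N j * (∑ a ∈ range (AA (r * q) N j + 1),
      ∑ b ∈ range (BB (r * q) N j + 1),
      (∑ l ∈ Ioc (-((Λ * N : ℕ) : ℤ)) (lw al be ga de N j a b), φ l -
        ∑ l ∈ Ioc (-((Λ * N : ℕ) : ℤ)) (lw al' be' ga' de' N j a b), φ l))| ≤
      Ω * C * (N : ℝ) ^ 3 := by
  obtain ⟨C, hC0, hC⟩ := hR.moment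
  obtain ⟨C', hC0', hC'⟩ := hR'.moment
  refine ⟨C + C', by positivity, ?_⟩
  intro N hN Λ hΛ hΛ' φ Ω hΩ hφ j hj
  have h1 := hC N hN Λ hΛ (fun _ _ _ l => φ l) Ω hΩ
    (fun j a b l h h1 h2 => hφ j a b l h h1 (Or.inl h2))
  have h2 := hC' N hN Λ hΛ' (fun _ _ _ l => φ l) Ω hΩ
    (fun j a b l h h1 h2 => hφ j a b l h h1 (Or.inr h2))
  have h1j := (single_le_sum (f := fun j => |∑ a ∈ range (AA (r * q) N j + 1),
      ∑ b ∈ range (BB (r * q) N j + 1),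
      (χ.vdim N j * ∑ l ∈ Ioc (-((Λ * N : ℕ) : ℤ)) (lw al be ga de N j a b), φ l -
        ∑ l ∈ Ioc (-((Λ * N : ℕ) : ℤ)) ((Λ * N : ℕ) : ℤ), φ l * χ.idim m N l j a b)|)
      (fun i _ => abs_nonneg _) hj).trans h1
  have h2j := (single_le_sum (f := fun j => |∑ a ∈ range (AA (r * q) N j + 1),
      ∑ b ∈ range (BB (r * q) N j + 1),
      (χ'.vdim N j * ∑ l ∈ Ioc (-((Λ * N : ℕ) : ℤ)) (lw al' be' ga' de' N j a b), φ l -
        ∑ l ∈ Ioc (-((Λ * N : ℕ) : ℤ)) ((Λ * N : ℕ) : ℤ), φ l * χ'.idim m' N l j a b)|)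
      (fun i _ => abs_nonneg _) hj).trans h2
  have e1 : ∀ (d : ℤ → ℕ → ℕ → ℝ),
      ∑ a ∈ range (AA (r * q) N j + 1), ∑ b ∈ range (BB (r * q) N j + 1),
      ∑ l ∈ Ioc (-((Λ * N : ℕ) : ℤ)) ((Λ * N : ℕ) : ℤ), φ l * d l a b =
      ∑ l ∈ Ioc (-((Λ * N : ℕ) : ℤ)) ((Λ * N : ℕ) : ℤ), φ l *
        ∑ a ∈ range (AA (r * q) N j + 1), ∑ b ∈ range (BB (r * q) N j + 1), d l a b := by
    intro d
    simp only [mul_sum]
    rw [sum_congr rfl (fun a _ => sum_comm), sum_comm]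
  have e2 : ∑ a ∈ range (AA (r * q) N j + 1), ∑ b ∈ range (BB (r * q) N j + 1),
      ∑ l ∈ Ioc (-((Λ * N : ℕ) : ℤ)) ((Λ * N : ℕ) : ℤ), φ l * χ.idim m N l j a b =
      ∑ a ∈ range (AA (r * q) N j + 1), ∑ b ∈ range (BB (r * q) N j + 1),
      ∑ l ∈ Ioc (-((Λ * N : ℕ) : ℤ)) ((Λ * N : ℕ) : ℤ), φ l * χ'.idim m' N l j a b := by
    rw [e1 (fun l a b => χ.idim m N l j a b), e1 (fun l a b => χ'.idim m' N l j a b)]
    apply sum_congr rfl
    intro l _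
    rw [hlay N hN l j hj]
  have e3 : χ.vdim N j * (∑ a ∈ range (AA (r * q) N j + 1),
      ∑ b ∈ range (BB (r * q) N j + 1),
      (∑ l ∈ Ioc (-((Λ * N : ℕ) : ℤ)) (lw al be ga de N j a b), φ l -
        ∑ l ∈ Ioc (-((Λ * N : ℕ) : ℤ)) (lw al' be' ga' de' N j a b), φ l)) =
      ∑ a ∈ range (AA (r * q) N j + 1), ∑ b ∈ range (BB (r * q) N j + 1),
      (χ.vdim N j * ∑ l ∈ Ioc (-((Λ * N : ℕ) : ℤ)) (lw al be ga de N j a b), φ l -
        ∑ l ∈ Ioc (-((Λ * N : ℕ) : ℤ)) ((Λ * N : ℕ) : ℤ), φ l * χ.idim m N l j a b) -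
      ∑ a ∈ range (AA (r * q) N j + 1), ∑ b ∈ range (BB (r * q) N j + 1),
      (χ'.vdim N j * ∑ l ∈ Ioc (-((Λ * N : ℕ) : ℤ)) (lw al' be' ga' de' N j a b), φ l -
        ∑ l ∈ Ioc (-((Λ * N : ℕ) : ℤ)) ((Λ * N : ℕ) : ℤ), φ l * χ'.idim m' N l j a b) := by
    simp only [sum_sub_distrib, mul_sub]
    rw [e2]
    have e4 : χ'.vdim N j = χ.vdim N j := rfl
    rw [e4]
    simp only [mul_sum]
    ring
  rw [e3]
  calc _ ≤ _ := abs_sub _ _
    _ ≤ Ω * C * (N : ℝ) ^ 3 + Ω * C' * (N : ℝ) ^ 3 := add_le_add h1j h2j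
    _ = _ := by ring

end Filt

end Pool.Agent.YTD
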