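import Pool.Agent.YTD.RigidNorm
import Pool.Agent.YTD.Twist

/-!
The comparison theorems for arbitrary flags and orders.
-/

namespace Pool.Agent.YTD

open Module Finset MvPolynomial

variable {K : Type} [Field K] [Algebra ℂ K]
variable {T : Datum K} {q : ℕ} {D₀ : T.X.Pt →₀ ℤ} {r : ℕ}

theorem subst_mem_Wle_xd (g h : Matrix (Fin 2) (Fin 2) ℂ) {c : ℕ} {f : MvPolynomial (Fin 4) K}
    (hf : f ∈ Wle xd c) : subst g h f ∈ Wle xd c := by
  rw [f.as_sum, map_sum]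
  refine sum_mem fun e he => ?_
  rw [MvPolynomial.mem_support_iff] at he
  have h1 := hf e he
  intro e' he'
  obtain ⟨g1, _, _⟩ := subst_monomial_mem g h (W := (⊤ : Submodule ℂ K)) (c := f.coeff e)
    trivial e e' he'
  unfold xd at h1 ⊢
  omega

theorem subst_mem_Wle_yd (g h : Matrix (Fin 2) (Fin 2) ℂ) {c : ℕ} {f : MvPolynomial (Fin 4) K}
    (hf : f ∈ Wle yd c) : subst g h f ∈ Wle yd c := by
  rw [f.as_sum, map_sum]
  refine sum_mem fun e he => ?_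
  rw [MvPolynomial.mem_support_iff] at he
  have h1 := hf e he
  intro e' he'
  obtain ⟨_, g1, _⟩ := subst_monomial_mem g h (W := (⊤ : Submodule ℂ K)) (c := f.coeff e)
    trivial e e' he'
  unfold yd at h1 ⊢
  omega

/-- The layers are preserved by automorphisms preserving the weight. -/
theorem finrank_map_Wle {E : Autom K} {w : (Fin 4 →₀ ℕ) → ℕ} {c : ℕ}
    (h1 : ∀ f ∈ Wle (K := K) w c, E f ∈ Wle (K := K) w c)
    (h2 : ∀ f ∈ Wle (K := K) w c, E.symm f ∈ Wle (K := K) w c)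
    (U : Submodule ℂ (MvPolynomial (Fin 4) K)) :
    finrank ℂ (U.map E.toLinearMap ⊓ Wle w c : Submodule ℂ (MvPolynomial (Fin 4) K)) =
      finrank ℂ (U ⊓ Wle w c : Submodule ℂ (MvPolynomial (Fin 4) K)) := by
  have h : (U.map E.toLinearMap ⊓ Wle w c : Submodule ℂ (MvPolynomial (Fin 4) K)) =
      (U ⊓ Wle w c : Submodule ℂ (MvPolynomial (Fin 4) K)).map E.toLinearMap := by
    ext f
    constructor
    · rintro ⟨⟨g, hg, rfl⟩, hg'⟩
      refine ⟨g, ⟨hg, ?_⟩, rfl⟩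
      have := h2 _ hg'
      have e : E.symm (E.toLinearMap g) = g := E.symm_apply_apply g
      rwa [e] at this
    · rintro ⟨g, ⟨hg, hg'⟩, rfl⟩
      exact ⟨⟨g, hg, rfl⟩, h1 g hg'⟩
  rw [h]
  exact (LinearEquiv.finrank_eq
    (Submodule.equivMapOfInjective E.toLinearMap (autom_injective E) _)).symm

namespace Filt

/-- (L), general weight. -/
theorem layer_forms (χ : Filt T q D₀ r) (hq : 0 < q) (hr : 0 < r)
    (hD : T.X.deg D₀ = 105 * T.t * q) {E E' : Autom K} {hE : Pres T q D₀ E} {hE' : Pres T q D₀ E'}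
    {w : (Fin 4 →₀ ℕ) → ℕ} {κ : ℕ → ℤ → ℕ} (hw : ∀ N, 4 ≤ N → LayerWt w (r * q) N (κ N))
    (h1 : ∀ c, ∀ f ∈ Wle (K := K) w c, E f ∈ Wle (K := K) w c)
    (h2 : ∀ c, ∀ f ∈ Wle (K := K) w c, E.symm f ∈ Wle (K := K) w c)
    (h1' : ∀ c, ∀ f ∈ Wle (K := K) w c, E' f ∈ Wle (K := K) w c)
    (h2' : ∀ c, ∀ f ∈ Wle (K := K) w c, E'.symm f ∈ Wle (K := K) w c)
    {m m' : MonomialOrder (Fin 4)} (hm : ∀ e e', m.toSyn e ≤ m.toSyn e' → w e ≤ w e')
    (hm' : ∀ e e', m'.toSyn e ≤ m'.toSyn e' → w e ≤ w e')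
    {al be ga de al' be' ga' de' : ℤ} (hR : (χ.tw E hE).Rigid m al be ga de)
    (hR' : (χ.tw E' hE').Rigid m' al' be' ga' de') :
    al ^ 2 = al' ^ 2 ∧ be ^ 2 = be' ^ 2 ∧
    2 * ga + 3 * (al - be) = 2 * ga' + 3 * (al' - be') ∧
    2 * de + 25 * ((r * q : ℕ) : ℤ) * (al + be) = 2 * de' + 25 * ((r * q : ℕ) : ℤ) * (al' + be') := by
  obtain ⟨g1, g2, g3, g4⟩ := hR.compare hR' hD hq hr hw
    (fun N _ e _ e' _ h => hm e' e h) (fun N _ e _ e' _ h => hm' e' e h) (by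
      intro N l c
      rw [tw_F, tw_F, finrank_map_Wle (h1 c) (h2 c), finrank_map_Wle (h1' c) (h2' c)])
  refine ⟨g3, g4, by linarith, ?_⟩
  push_cast
  linarith

/-- (L) for flags. -/
theorem layer_flags (χ : Filt T q D₀ r) (hq : 0 < q) (hr : 0 < r)
    (hD : T.X.deg D₀ = 105 * T.t * q) {g h g' h' : Matrix (Fin 2) (Fin 2) ℂ}
    {hg : IsUnit g} {hh : IsUnit h} {hg' : IsUnit g'} {hh' : IsUnit h'}
    {m m' : MonomialOrder (Fin 4)}
    (hm : ∀ e e', m.toSyn e ≤ m.toSyn e' → e 0 + e 1 ≤ e' 0 + e' 1)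
    (hm' : ∀ e e', m'.toSyn e ≤ m'.toSyn e' → e 0 + e 1 ≤ e' 0 + e' 1)
    {al be ga de al' be' ga' de' : ℤ}
    (hR : (χ.tw (substE K g h hg hh) (pres_substE hg hh)).Rigid m al be ga de)
    (hR' : (χ.tw (substE K g' h' hg' hh') (pres_substE hg' hh')).Rigid m' al' be' ga' de') :
    al ^ 2 = al' ^ 2 ∧ be ^ 2 = be' ^ 2 ∧
    2 * ga + 3 * (al - be) = 2 * ga' + 3 * (al' - be') ∧
    2 * de + 25 * ((r * q : ℕ) : ℤ) * (al + be) = 2 * de' + 25 * ((r * q : ℕ) : ℤ) * (al' + be') :=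
  χ.layer_forms hq hr hD (E := substE K g h hg hh) (E' := substE K g' h' hg' hh')
    (w := xd) (κ := AA (r * q))
    (fun N hN => layerWt_xd (Nat.mul_pos hr hq) (by omega))
    (fun c f hf => subst_mem_Wle_xd g h hf) (fun c f hf => subst_mem_Wle_xd g⁻¹ h⁻¹ hf)
    (fun c f hf => subst_mem_Wle_xd g' h' hf) (fun c f hf => subst_mem_Wle_xd g'⁻¹ h'⁻¹ hf)
    hm hm' hR hR'

/-- (L) for flags and orders in which small `j` come first. -/
theorem layer_flags_y (χ : Filt T q D₀ r) (hq : 0 < q) (hr : 0 < r)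
    (hD : T.X.deg D₀ = 105 * T.t * q) {g h g' h' : Matrix (Fin 2) (Fin 2) ℂ}
    {hg : IsUnit g} {hh : IsUnit h} {hg' : IsUnit g'} {hh' : IsUnit h'}
    {m m' : MonomialOrder (Fin 4)}
    (hm : ∀ e e', m.toSyn e ≤ m.toSyn e' → e 2 + e 3 ≤ e' 2 + e' 3)
    (hm' : ∀ e e', m'.toSyn e ≤ m'.toSyn e' → e 2 + e 3 ≤ e' 2 + e' 3)
    {al be ga de al' be' ga' de' : ℤ}
    (hR : (χ.tw (substE K g h hg hh) (pres_substE hg hh)).Rigid m al be ga de)
    (hR' : (χ.tw (substE K g' h' hg' hh') (pres_substE hg' hh')).Rigid m' al' be' ga' de') :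
    al ^ 2 = al' ^ 2 ∧ be ^ 2 = be' ^ 2 ∧
    2 * ga + 3 * (al - be) = 2 * ga' + 3 * (al' - be') ∧
    2 * de + 25 * ((r * q : ℕ) : ℤ) * (al + be) = 2 * de' + 25 * ((r * q : ℕ) : ℤ) * (al' + be') :=
  χ.layer_forms hq hr hD (E := substE K g h hg hh) (E' := substE K g' h' hg' hh')
    (w := yd) (κ := BB (r * q))
    (fun N hN => layerWt_yd (Nat.mul_pos hr hq) (by omega))
    (fun c f hf => subst_mem_Wle_yd g h hf) (fun c f hf => subst_mem_Wle_yd g⁻¹ h⁻¹ hf)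
    (fun c f hf => subst_mem_Wle_yd g' h' hf) (fun c f hf => subst_mem_Wle_yd g'⁻¹ h'⁻¹ hf)
    hm hm' hR hR'

theorem anti_eps {ε : ℂ} (hε : ε = 1 ∨ ε = -1) : Anti !![0, 1; ε, 0] where
  z0 := rfl
  z1 := rfl
  n0 := one_ne_zero
  n1 := by
    show ε ≠ 0
    rcases hε with rfl | rfl
    · exact one_ne_zero
    · exact neg_ne_zero.2 one_ne_zero

/-- (S) -/
theorem Rigid.sign_eps {χ : Filt T q D₀ r} {m : MonomialOrder (Fin 4)}
    {al be ga de : ℤ} (hR : χ.Rigid m al be ga de)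
    (hq : 0 < q) (hr : 0 < r) (hD : T.X.deg D₀ = 105 * T.t * q) {r1 r2 : ℕ}
    (hm : ∀ e e', m.toSyn e ≤ m.toSyn e' → e 0 + e 1 < e' 0 + e' 1 ∨
      e 0 + e 1 = e' 0 + e' 1 ∧ r1 * e 1 + r2 * e 3 ≤ r1 * e' 1 + r2 * e' 3)
    {ε ε' : ℂ} (hε : ε = 1 ∨ ε = -1) (hε' : ε' = 1 ∨ ε' = -1)
    (hinv : ∀ N l, ∀ f ∈ χ.F N l, subst !![0, 1; ε, 0] !![0, 1; ε', 0] f ∈ χ.F N l) :
    0 ≤ al * r1 + be * r2 := by
  have h := hR.sign_lex hD hq hr (anti_eps hε) (anti_eps hε') hinv r1 r2 xd xd_swapE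
    (fun N _ e _ e' _ h => hm e' e h)
  linarith

/-- (S), for a filtration stable under `map θ ∘ subst`. -/
theorem Rigid.sign_eps_map {χ : Filt T q D₀ r} {m : MonomialOrder (Fin 4)}
    {al be ga de : ℤ} (hR : χ.Rigid m al be ga de)
    (hq : 0 < q) (hr : 0 < r) (hD : T.X.deg D₀ = 105 * T.t * q) {r1 r2 : ℕ}
    (hm : ∀ e e', m.toSyn e ≤ m.toSyn e' → e 0 + e 1 < e' 0 + e' 1 ∨
      e 0 + e 1 = e' 0 + e' 1 ∧ r1 * e 1 + r2 * e 3 ≤ r1 * e' 1 + r2 * e' 3)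
    {ε ε' : ℂ} (hε : ε = 1 ∨ ε = -1) (hε' : ε' = 1 ∨ ε' = -1) (θ : K ≃ₐ[ℂ] K)
    (hinv : ∀ N l, ∀ f ∈ χ.F N l,
      MvPolynomial.map (θ : K →+* K) (subst !![0, 1; ε, 0] !![0, 1; ε', 0] f) ∈ χ.F N l) :
    0 ≤ al * r1 + be * r2 := by
  have h := hR.sign_lex_map hD hq hr (anti_eps hε) (anti_eps hε') θ hinv r1 r2 xd xd_swapE
    (fun N _ e _ e' _ h => hm e' e h)
  linarith

/-- (T) -/
theorem total_forms (χ : Filt T q D₀ r) (hq : 0 < q) (hr : 0 < r)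
    (hD : T.X.deg D₀ = 105 * T.t * q) {E E' : Autom K} {hE : Pres T q D₀ E} {hE' : Pres T q D₀ E'}
    {m m' : MonomialOrder (Fin 4)}
    {al be ga de al' be' ga' de' : ℤ} (hR : (χ.tw E hE).Rigid m al be ga de)
    (hR' : (χ.tw E' hE').Rigid m' al' be' ga' de') :
    2 * de + 25 * ((r * q : ℕ) : ℤ) * (al + be) =
      2 * de' + 25 * ((r * q : ℕ) : ℤ) * (al' + be') ∧
    9109046 * (al ^ 2 + be ^ 2) * 4 + 1006853 * (2 * ga + 3 * (al - be)) ^ 2 =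
      9109046 * (al' ^ 2 + be' ^ 2) * 4 + 1006853 * (2 * ga' + 3 * (al' - be')) ^ 2 := by
  have hdim : ∀ N : ℕ, 4 ≤ N → ∀ l : ℤ,
      finrank ℂ ((χ.tw E hE).F N l) = finrank ℂ ((χ.tw E' hE').F N l) := by
    intro N _ l
    rw [finrank_tw, finrank_tw]
  have h1 := hR.total_mean hR' hD hq hr hdim
  have h2 := hR.total_second hR' hD hq hr hdim
  constructor
  · push_cast
    linarith
  · linarith

/-- (Max) -/
theorem max_forms (χ : Filt T q D₀ r) (hq : 0 < q) (hr : 0 < r)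
    (hD : T.X.deg D₀ = 105 * T.t * q) {E E' : Autom K} {hE : Pres T q D₀ E} {hE' : Pres T q D₀ E'}
    {m m' : MonomialOrder (Fin 4)}
    {al be ga de al' be' ga' de' : ℤ} (hR : (χ.tw E hE).Rigid m al be ga de)
    (hR' : (χ.tw E' hE').Rigid m' al' be' ga' de') {μ : ℤ}
    (h : ∀ j a b, InR (r * q) 1 j a b → lw al be ga de 1 j a b ≤ μ)
    {N : ℕ} {j : ℤ} {a b : ℕ} (hin : InR (r * q) N j a b) :
    lw al' be' ga' de' N j a b ≤ μ * N := by
  have hdim : ∀ N : ℕ, 4 ≤ N → ∀ l : ℤ,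
      finrank ℂ ((χ.tw E' hE').F N l) = finrank ℂ ((χ.tw E hE).F N l) := by
    intro N _ l
    rw [finrank_tw, finrank_tw]
  apply hR'.max_le hR hD hq hr hdim _ hin
  intro N j a b hin
  obtain ⟨j₁, a₁, b₁, g1, _, g2⟩ := exists_min_vertex (-al) (-be) (-ga) (-de) (r * q)
  have g3 := g2 N j a b hin
  have g4 := h j₁ a₁ b₁ g1
  have e1 : lw (-al) (-be) (-ga) (-de) N j a b = -lw al be ga de N j a b := by
    unfold lw
    ring
  have e2 : lw (-al) (-be) (-ga) (-de) 1 j₁ a₁ b₁ = -lw al be ga de 1 j₁ a₁ b₁ := by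
    unfold lw
    ring
  rw [e1, e2] at g3
  have g5 : (N : ℤ) * lw al be ga de 1 j₁ a₁ b₁ ≤ N * μ :=
    mul_le_mul_of_nonneg_left g4 (by positivity)
  linarith

/-- (Min) -/
theorem min_forms (χ : Filt T q D₀ r) (hq : 0 < q) (hr : 0 < r)
    (hD : T.X.deg D₀ = 105 * T.t * q) {E E' : Autom K} {hE : Pres T q D₀ E} {hE' : Pres T q D₀ E'}
    {m m' : MonomialOrder (Fin 4)}
    {al be ga de al' be' ga' de' : ℤ} (hR : (χ.tw E hE).Rigid m al be ga de)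
    (hR' : (χ.tw E' hE').Rigid m' al' be' ga' de') {μ : ℤ}
    (h : ∀ j a b, InR (r * q) 1 j a b → μ ≤ lw al be ga de 1 j a b)
    {N : ℕ} {j : ℤ} {a b : ℕ} (hin : InR (r * q) N j a b) :
    μ * N ≤ lw al' be' ga' de' N j a b := by
  have hdim : ∀ N : ℕ, 4 ≤ N → ∀ l : ℤ,
      finrank ℂ ((χ.tw E' hE').F N l) = finrank ℂ ((χ.tw E hE).F N l) := by
    intro N _ l
    rw [finrank_tw, finrank_tw]
  apply hR'.min_le hR hD hq hr hdim _ hin
  intro N j a b hin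
  obtain ⟨j₁, a₁, b₁, g1, _, g2⟩ := exists_min_vertex al be ga de (r * q)
  have g3 := g2 N j a b hin
  have g4 := h j₁ a₁ b₁ g1
  have g5 : (N : ℤ) * μ ≤ N * lw al be ga de 1 j₁ a₁ b₁ :=
    mul_le_mul_of_nonneg_left g4 (by positivity)
  linarith

theorem min_forms_one (χ : Filt T q D₀ r) (hq : 0 < q) (hr : 0 < r)
    (hD : T.X.deg D₀ = 105 * T.t * q) {E E' : Autom K} {hE : Pres T q D₀ E} {hE' : Pres T q D₀ E'}
    {m m' : MonomialOrder (Fin 4)}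
    {al be ga de al' be' ga' de' : ℤ} (hR : (χ.tw E hE).Rigid m al be ga de)
    (hR' : (χ.tw E' hE').Rigid m' al' be' ga' de') {μ : ℤ}
    (h : ∀ j a b, InR (r * q) 1 j a b → μ ≤ lw al be ga de 1 j a b) :
    ∀ j a b, InR (r * q) 1 j a b → μ ≤ lw al' be' ga' de' 1 j a b := by
  intro j a b hin
  have := χ.min_forms hq hr hD hR hR' h hin
  simpa using this

theorem max_forms_one (χ : Filt T q D₀ r) (hq : 0 < q) (hr : 0 < r)
    (hD : T.X.deg D₀ = 105 * T.t * q) {E E' : Autom K} {hE : Pres T q D₀ E} {hE' : Pres T q D₀ E'}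
    {m m' : MonomialOrder (Fin 4)}
    {al be ga de al' be' ga' de' : ℤ} (hR : (χ.tw E hE).Rigid m al be ga de)
    (hR' : (χ.tw E' hE').Rigid m' al' be' ga' de') {μ : ℤ}
    (h : ∀ j a b, InR (r * q) 1 j a b → lw al be ga de 1 j a b ≤ μ) :
    ∀ j a b, InR (r * q) 1 j a b → lw al' be' ga' de' 1 j a b ≤ μ := by
  intro j a b hin
  have := χ.max_forms hq hr hD hR hR' h hin
  simpa using this

/-- (G), for an arbitrary order refining the weight `wxw`. -/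
theorem Rigid.greedy_wx {χ : Filt T q D₀ r} {m m' : MonomialOrder (Fin 4)}
    {ga de ga' de' : ℤ} (hR : χ.Rigid m 0 0 ga de) (hR' : χ.Rigid m' 0 0 ga' de')
    (hq : 0 < q) (hr : 0 < r) (hD : T.X.deg D₀ = 105 * T.t * q)
    (hm : ∀ e e', m.toSyn e ≤ m.toSyn e' →
      3 * e 1 + 2 * e 2 + 2 * e 3 ≤ 3 * e' 1 + 2 * e' 2 + 2 * e' 3) : ga ≤ ga' := by
  have hmean := hR.total_mean hR' hD hq hr (fun _ _ _ => rfl)
  have hde : de = de' := by linarith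
  subst hde
  obtain ⟨C, hC0, hC⟩ := hR.greedy_two hR' hD hq hr (w := fun _ => wxw)
    (fun N _ e _ e' _ h => hm e' e h)
    (B := 140 * (r * q : ℕ)) (by
      intro N hN j a b h
      have h1 := (inR_iff h.1).1 h
      have hj := mem_JJ.2 h.1
      have hj' : |(j : ℝ)| ≤ 5 * (r * q : ℕ) * N := by exact_mod_cast h.1
      rw [abs_le] at hj'
      have ha : (a : ℝ) ≤ AA (r * q) N j := by exact_mod_cast h1.1
      unfold wxw
      rw [expo_1, expo_2, expo_3]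
      push_cast [Nat.cast_sub h1.2]
      rw [AA_real hj] at ha
      rw [BB_real hj]
      push_cast at ha hj' ⊢
      linarith)
  have hval : ∀ N : ℕ, 4 ≤ N → ∑ j ∈ JJ (r * q) N, χ.vdim N j *
      ∑ a ∈ range (AA (r * q) N j + 1),
      ∑ b ∈ range (BB (r * q) N j + 1), (wxw (expo (r * q) N j a b) : ℝ) *
        ((lw 0 0 ga de N j a b : ℝ) - (lw 0 0 ga' de N j a b : ℝ)) =
      -(3 / 2 * (ga - ga') * χ.sJ N) := by
    intro N hN
    have e1 : ∀ j ∈ JJ (r * q) N, χ.vdim N j * ∑ a ∈ range (AA (r * q) N j + 1),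
      ∑ b ∈ range (BB (r * q) N j + 1), (wxw (expo (r * q) N j a b) : ℝ) *
        ((lw 0 0 ga de N j a b : ℝ) - (lw 0 0 ga' de N j a b : ℝ)) =
        -(3 / 2 * (ga - ga')) * (χ.msz N j * (j : ℝ) ^ 2) +
          (175 / 2 * (r * q : ℕ) * N * (ga - ga')) * (χ.msz N j * (j : ℝ)) := by
      intro j hj
      have e2 : ∑ a ∈ range (AA (r * q) N j + 1), ∑ b ∈ range (BB (r * q) N j + 1),
        (wxw (expo (r * q) N j a b) : ℝ) *
        ((lw 0 0 ga de N j a b : ℝ) - (lw 0 0 ga' de N j a b : ℝ)) =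
        ∑ a ∈ range (AA (r * q) N j + 1), ∑ b ∈ range (BB (r * q) N j + 1),
        ((3 * (ga - ga') * j : ℝ) * a + 0 * b + 2 * BB (r * q) N j * (ga - ga') * j) := by
        apply sum_congr rfl
        intro a ha
        apply sum_congr rfl
        intro b hb
        have hin := forall_JJ hj ha hb
        have h1 := (inR_iff hin.1).1 hin
        unfold wxw lw
        rw [expo_1, expo_2, expo_3]
        push_cast [Nat.cast_sub h1.2]
        ring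
      rw [e2, sum_lin]
      unfold msz
      rw [AA_real hj, BB_real hj]
      ring
    rw [sum_congr rfl e1, sum_add_distrib, ← mul_sum, ← mul_sum, χ.sum_msz_odd hD hq hr hN]
    unfold sJ
    ring
  by_contra hlt
  push Not at hlt
  have h1 : (1 : ℝ) ≤ (ga : ℝ) - ga' := by
    have : ga' + 1 ≤ ga := hlt
    have h2 : ((ga' + 1 : ℤ) : ℝ) ≤ ga := by exact_mod_cast this
    push_cast at h2
    linarith
  obtain ⟨n, hn⟩ := exists_nat_gt C
  have h2 := hC (n + 4) (by omega)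
  rw [hval (n + 4) (by omega)] at h2
  have h3 := χ.le_sJ hD hq hr (N := n + 4) (by omega)
  have h4 : (0 : ℝ) < ((n + 4 : ℕ) : ℝ) ^ 4 := by positivity
  have h5 : C < ((n + 4 : ℕ) : ℝ) := by
    push_cast
    linarith
  have h6 : C * ((n + 4 : ℕ) : ℝ) ^ 4 < ((n + 4 : ℕ) : ℝ) * ((n + 4 : ℕ) : ℝ) ^ 4 :=
    mul_lt_mul_of_pos_right h5 h4
  have h7 : ((n + 4 : ℕ) : ℝ) * ((n + 4 : ℕ) : ℝ) ^ 4 = ((n + 4 : ℕ) : ℝ) ^ 5 := by ring
  have h8 : (0 : ℝ) < ((n + 4 : ℕ) : ℝ) ^ 5 := by positivity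
  have h9 : 1 * χ.sJ (n + 4) ≤ ((ga : ℝ) - ga') * χ.sJ (n + 4) :=
    mul_le_mul_of_nonneg_right h1 (by linarith)
  linarith

end Filt

end Pool.Agent.YTD
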