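import Pool.Agent.YTD.RigidMoments

/-!
The mean and the second moment of a rigid filtration on a layer are intrinsic.
-/

namespace Pool.Agent.YTD

open Module Finset MvPolynomial

variable {K : Type} [Field K] [Algebra ℂ K]
variable {T : Datum K} {q : ℕ} {D₀ : T.X.Pt →₀ ℤ} {r : ℕ}

/-- the degree in `x₀, x₁`. -/
def xd (e : Fin 4 →₀ ℕ) : ℕ := e 0 + e 1

/-- the degree in `y₀, y₁`. -/
def yd (e : Fin 4 →₀ ℕ) : ℕ := e 2 + e 3

theorem xd_expo {Q N : ℕ} {j : ℤ} {a b : ℕ} (ha : a ≤ AA Q N j) : xd (expo Q N j a b) = AA Q N j := by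
  unfold xd
  rw [expo_0, expo_1]
  omega

theorem yd_expo {Q N : ℕ} {j : ℤ} {a b : ℕ} (hb : b ≤ BB Q N j) : yd (expo Q N j a b) = BB Q N j := by
  unfold yd
  rw [expo_2, expo_3]
  omega

theorem ten_le_AA {Q N : ℕ} {j : ℤ} (hj : j ∈ JJ Q N) : 10 * Q * N ≤ AA Q N j := by
  have h := mem_JJ.1 hj
  have h1 := AA_cast h
  rw [abs_le] at h
  have : ((10 * Q * N : ℕ) : ℤ) ≤ AA Q N j := by
    rw [h1]
    push_cast
    linarith
  exact_mod_cast this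

theorem ten_le_BB {Q N : ℕ} {j : ℤ} (hj : j ∈ JJ Q N) : 10 * Q * N ≤ BB Q N j := by
  have h := mem_JJ.1 hj
  have h1 := BB_cast h
  rw [abs_le] at h
  have : ((10 * Q * N : ℕ) : ℤ) ≤ BB Q N j := by
    rw [h1]
    push_cast
    linarith
  exact_mod_cast this

theorem AA_inj {Q N : ℕ} {j j' : ℤ} (hj : j ∈ JJ Q N) (hj' : j' ∈ JJ Q N)
    (h : AA Q N j = AA Q N j') : j = j' := by
  have h1 := AA_cast (mem_JJ.1 hj)
  have h2 := AA_cast (mem_JJ.1 hj')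
  rw [h] at h1
  linarith

theorem BB_inj {Q N : ℕ} {j j' : ℤ} (hj : j ∈ JJ Q N) (hj' : j' ∈ JJ Q N)
    (h : BB Q N j = BB Q N j') : j = j' := by
  have h1 := BB_cast (mem_JJ.1 hj)
  have h2 := BB_cast (mem_JJ.1 hj')
  rw [h] at h1
  linarith

/-- splitting off a layer. -/
theorem sum_layer {Q N : ℕ} {j : ℤ} (hj : j ∈ JJ Q N) {w : (Fin 4 →₀ ℕ) → ℕ} {κ : ℤ → ℕ}
    (hw : ∀ j ∈ JJ Q N, ∀ a b, a ≤ AA Q N j → b ≤ BB Q N j → w (expo Q N j a b) = κ j)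
    (hκ : ∀ j ∈ JJ Q N, ∀ j' ∈ JJ Q N, κ j = κ j' → j = j') (hpos : 0 < κ j)
    (f : (Fin 4 →₀ ℕ) → ℝ) :
    ∑ e ∈ Eset Q N with w e ≤ κ j, f e = ∑ e ∈ Eset Q N with w e ≤ κ j - 1, f e +
      ∑ a ∈ range (AA Q N j + 1), ∑ b ∈ range (BB Q N j + 1), f (expo Q N j a b) := by
  have key : ∀ c : ℕ, ∑ e ∈ Eset Q N with w e ≤ c, f e = ∑ i ∈ JJ Q N,
      if κ i ≤ c then ∑ a ∈ range (AA Q N i + 1), ∑ b ∈ range (BB Q N i + 1), f (expo Q N i a b)
        else 0 := by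
    intro c
    rw [sum_filter, sum_Eset]
    apply sum_congr rfl
    intro i hi
    split_ifs with h
    · apply sum_congr rfl
      intro a ha
      apply sum_congr rfl
      intro b hb
      rw [if_pos]
      rw [hw i hi a b (Nat.lt_succ_iff.1 (mem_range.1 ha)) (Nat.lt_succ_iff.1 (mem_range.1 hb))]
      exact h
    · apply sum_eq_zero
      intro a ha
      apply sum_eq_zero
      intro b hb
      rw [if_neg]
      rw [hw i hi a b (Nat.lt_succ_iff.1 (mem_range.1 ha)) (Nat.lt_succ_iff.1 (mem_range.1 hb))]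
      exact h
  rw [key, key, ← sub_eq_iff_eq_add', ← sum_sub_distrib, sum_eq_single_of_mem j hj]
  · rw [if_pos le_rfl, if_neg (by omega), sub_zero]
  · intro i hi hne
    have h1 : κ i ≠ κ j := fun h => hne (hκ i hi j hj h)
    by_cases h2 : κ i ≤ κ j
    · rw [if_pos h2, if_pos (by omega), sub_self]
    · rw [if_neg h2, if_neg (by omega), sub_self]

/-- `w` is an injective function of the layer. -/
structure LayerWt (w : (Fin 4 →₀ ℕ) → ℕ) (Q N : ℕ) (κ : ℤ → ℕ) : Prop where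
  eq : ∀ j ∈ JJ Q N, ∀ a b, a ≤ AA Q N j → b ≤ BB Q N j → w (expo Q N j a b) = κ j
  inj : ∀ j ∈ JJ Q N, ∀ j' ∈ JJ Q N, κ j = κ j' → j = j'
  pos : ∀ j ∈ JJ Q N, 0 < κ j

theorem layerWt_xd {Q N : ℕ} (hQ : 0 < Q) (hN : 0 < N) : LayerWt xd Q N (AA Q N) where
  eq := fun _ _ _ _ ha _ => xd_expo ha
  inj := fun _ hj _ hj' h => AA_inj hj hj' h
  pos := fun _ hj => lt_of_lt_of_le (by positivity) (ten_le_AA hj)

theorem layerWt_yd {Q N : ℕ} (hQ : 0 < Q) (hN : 0 < N) : LayerWt yd Q N (BB Q N) where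
  eq := fun _ _ _ _ _ hb => yd_expo hb
  inj := fun _ hj _ hj' h => BB_inj hj hj' h
  pos := fun _ hj => lt_of_lt_of_le (by positivity) (ten_le_BB hj)

namespace Filt

/-- The sum of the dimensions of the initial spaces over a layer is intrinsic. -/
theorem sum_idim_layer (χ : Filt T q D₀ r) {m : MonomialOrder (Fin 4)} {w : (Fin 4 →₀ ℕ) → ℕ}
    {N : ℕ} {κ : ℤ → ℕ} (hw : LayerWt w (r * q) N κ) (hm : Refines m w (Eset (r * q) N))
    (l : ℤ) {j : ℤ} (hj : j ∈ JJ (r * q) N) :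
    ∑ a ∈ range (AA (r * q) N j + 1), ∑ b ∈ range (BB (r * q) N j + 1), χ.idim m N l j a b =
      (finrank ℂ (χ.F N l ⊓ Wle w (κ j) : Submodule ℂ (MvPolynomial (Fin 4) K)) : ℝ) -
      finrank ℂ (χ.F N l ⊓ Wle w (κ j - 1) : Submodule ℂ (MvPolynomial (Fin 4) K)) := by
  rw [finrank_Wle m (χ.finite_F N l) hm χ.F_exp, finrank_Wle m (χ.finite_F N l) hm χ.F_exp]
  push_cast
  rw [sum_layer hj hw.eq hw.inj (hw.pos j hj) (fun e => (finrank ℂ (ini m (χ.F N l) e) : ℝ))]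
  unfold idim
  ring

/-- dimension of the pieces. -/
theorem vdim_eq (χ : Filt T q D₀ r) (hD : T.X.deg D₀ = 105 * T.t * q) (hq : 0 < q) (hr : 0 < r)
    {N : ℕ} (hN : 4 ≤ N) {j : ℤ} (hj : j ∈ JJ (r * q) N) :
    χ.vdim N j = (dg T.t (r * q) N j : ℝ) - 9 * T.t := by
  have hD' : T.X.deg (r • D₀) = 105 * T.t * (r * q : ℕ) := by
    rw [T.X.deg_nsmul, hD]
    push_cast
    ring
  have h1 := deg_dvs_crit T (r * q) (r • D₀) hD' N j
  have ht := T.t_pos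
  have h2 : 5 * (T.t : ℤ) * (r * q : ℕ) * N ≤ dg T.t (r * q) N j := le_dg (mem_JJ.1 hj)
  have h3 : 20 * (T.t : ℤ) ≤ 5 * (T.t : ℤ) * (r * q : ℕ) * N := by
    have h4 : 1 ≤ r * q := Nat.mul_pos hr hq
    have h5 : 1 * 4 ≤ (r * q) * N := Nat.mul_le_mul h4 hN
    have h6 : 5 * T.t * (1 * 4) ≤ 5 * T.t * ((r * q) * N) := Nat.mul_le_mul_left _ h5
    have h7 : ((5 * T.t * (1 * 4) : ℕ) : ℤ) ≤ ((5 * T.t * ((r * q) * N) : ℕ) : ℤ) := by
      exact_mod_cast h6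
    push_cast at h7 ⊢
    linarith
  have h8 := T.X.riemann_roch (T.dvs (r * q) (r • D₀) N j) (by
    rw [h1, T.genus_eq]
    push_cast
    omega)
  rw [h1, T.genus_eq] at h8
  have h9 : (finrank ℂ (T.V (r * q) (r • D₀) N j) : ℤ) = dg T.t (r * q) N j - 9 * T.t := by
    unfold Datum.V
    rw [h8]
    push_cast
    ring
  unfold vdim
  have h10 : ((finrank ℂ (T.V (r * q) (r • D₀) N j) : ℤ) : ℝ) =
      ((dg T.t (r * q) N j - 9 * T.t : ℤ) : ℝ) := by rw [h9]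
  push_cast at h10
  exact h10

theorem le_vdim (χ : Filt T q D₀ r) (hD : T.X.deg D₀ = 105 * T.t * q) (hq : 0 < q) (hr : 0 < r)
    {N : ℕ} (hN : 4 ≤ N) {j : ℤ} (hj : j ∈ JJ (r * q) N) : (N : ℝ) ≤ χ.vdim N j := by
  rw [χ.vdim_eq hD hq hr hN hj]
  have h2 : 5 * (T.t : ℤ) * (r * q : ℕ) * N ≤ dg T.t (r * q) N j := le_dg (mem_JJ.1 hj)
  have h3 : ((5 * (T.t : ℤ) * (r * q : ℕ) * N : ℤ) : ℝ) ≤ (dg T.t (r * q) N j : ℝ) := by
    exact_mod_cast h2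
  push_cast at h3
  have ht : (1 : ℝ) ≤ T.t := by exact_mod_cast T.t_pos
  have h4 : (1 : ℝ) ≤ r * q := by exact_mod_cast Nat.mul_pos hr hq
  have hN' : (4 : ℝ) ≤ N := by exact_mod_cast hN
  have h5 : (T.t : ℝ) * N * 1 ≤ T.t * N * (r * q) := by
    apply mul_le_mul_of_nonneg_left h4
    positivity
  nlinarith

theorem vdim_pos (χ : Filt T q D₀ r) (hD : T.X.deg D₀ = 105 * T.t * q) (hq : 0 < q) (hr : 0 < r)
    {N : ℕ} (hN : 4 ≤ N) {j : ℤ} (hj : j ∈ JJ (r * q) N) : 0 < χ.vdim N j := by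
  have h := χ.le_vdim hD hq hr hN hj
  have hN' : (4 : ℝ) ≤ N := by exact_mod_cast hN
  linarith

/-- the linear form of a rigid filtration is bounded below. -/
theorem Rigid.lower {χ : Filt T q D₀ r} {m : MonomialOrder (Fin 4)} {al be ga de : ℤ}
    (hR : χ.Rigid m al be ga de) (hD : T.X.deg D₀ = 105 * T.t * q) (hq : 0 < q) (hr : 0 < r)
    {N : ℕ} (hN : 4 ≤ N) {j : ℤ} {a b : ℕ} (h : InR (r * q) N j a b) :
    -((χ.lam : ℤ) * N) ≤ lw al be ga de N j a b := by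
  apply hR.upper N hN _ j a b h
  have h1 := χ.vdim_pos hD hq hr hN (mem_JJ.2 h.1)
  intro h0
  have h2 := χ.idim_eq_vdim m (l := -((χ.lam : ℤ) * N)) h le_rfl
  unfold idim at h2
  rw [h0] at h2
  simp at h2
  linarith

end Filt

end Pool.Agent.YTD
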