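import Pool.Agent.YTD.RigidDef
import Pool.Agent.YTD.Greedy

/-!
Moments of rigid filtrations.
-/

namespace Pool.Agent.YTD

open Module Finset MvPolynomial

variable {K : Type} [Field K] [Algebra ℂ K]
variable {T : Datum K} {q : ℕ} {D₀ : T.X.Pt →₀ ℤ} {r : ℕ}

theorem Datum.exists_point_mom (T : Datum K) : Nonempty T.X.Pt := by
  have h : 0 < T.S.card := by
    rw [T.card_S]
    have := T.t_pos
    omega
  obtain ⟨P, _⟩ := Finset.card_pos.1 h
  exact ⟨P⟩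

/-- indices at level `N` -/
noncomputable def JJ (q N : ℕ) : Finset ℤ := Icc (-((5 * q * N : ℕ) : ℤ)) ((5 * q * N : ℕ) : ℤ)

theorem mem_JJ {q N : ℕ} {j : ℤ} : j ∈ JJ q N ↔ |j| ≤ 5 * q * N := mem_Icc_iff'

namespace Filt

variable (χ : Filt T q D₀ r)

/-- dimension of the full graded piece. -/
noncomputable def vdim (_ : Filt T q D₀ r) (N : ℕ) (j : ℤ) : ℝ :=
  finrank ℂ (T.V (r * q) (r • D₀) N j)

/-- dimension of the graded piece of the initial space. -/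
noncomputable def idim (m : MonomialOrder (Fin 4)) (N : ℕ) (l j : ℤ) (a b : ℕ) : ℝ :=
  finrank ℂ (ini m (χ.F N l) (expo (r * q) N j a b))

theorem F_le_sec (N : ℕ) (l : ℤ) : χ.F N l ≤ T.sec (r * q) (r • D₀) N := by
  rw [T.sec_mul]
  exact χ.le N l

theorem finite_F (N : ℕ) (l : ℤ) : FiniteDimensional ℂ (χ.F N l) := by
  obtain ⟨P₀⟩ := T.exists_point_mom
  have := T.finite_sec P₀ (r * q) (r • D₀) N
  exact Submodule.finiteDimensional_of_le (χ.F_le_sec N l)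

theorem F_exp {N : ℕ} {l : ℤ} : ∀ f ∈ χ.F N l, ∀ e, f.coeff e ≠ 0 → e ∈ Eset (r * q) N :=
  fun _ hf _ he => T.mem_Eset_of_coeff (χ.F_le_sec N l hf) he

theorem ini_le_V (m : MonomialOrder (Fin 4)) {N : ℕ} (l : ℤ) {j : ℤ} {a b : ℕ}
    (h : InR (r * q) N j a b) :
    ini m (χ.F N l) (expo (r * q) N j a b) ≤ T.V (r * q) (r • D₀) N j := by
  rw [← T.ini_sec m h]
  exact ini_mono (χ.F_le_sec N l) _

theorem idim_nonneg (m : MonomialOrder (Fin 4)) (N : ℕ) (l j : ℤ) (a b : ℕ) :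
    0 ≤ χ.idim m N l j a b := by
  unfold idim
  positivity

theorem idim_le (m : MonomialOrder (Fin 4)) {N : ℕ} (l : ℤ) {j : ℤ} {a b : ℕ}
    (h : InR (r * q) N j a b) : χ.idim m N l j a b ≤ χ.vdim N j := by
  obtain ⟨P₀⟩ := T.exists_point_mom
  have : FiniteDimensional ℂ (T.V (r * q) (r • D₀) N j) := T.X.finite_L P₀ _
  unfold idim vdim
  exact_mod_cast Submodule.finrank_mono (χ.ini_le_V m l h)

theorem idim_eq_vdim (m : MonomialOrder (Fin 4)) {N : ℕ} {l : ℤ} {j : ℤ} {a b : ℕ}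
    (h : InR (r * q) N j a b) (hl : l ≤ -(χ.lam * N)) : χ.idim m N l j a b = χ.vdim N j := by
  unfold idim vdim
  rw [χ.F_of_le hl, ← T.sec_mul, T.ini_sec m h]

theorem idim_eq_zero (m : MonomialOrder (Fin 4)) {N : ℕ} {l : ℤ} {j : ℤ} {a b : ℕ}
    (hl : χ.lam * N < l) : χ.idim m N l j a b = 0 := by
  unfold idim
  rw [χ.F_of_gt hl, ini_bot]
  simp

end Filt

theorem Filt.Rigid.idim_eq_zero {χ : Filt T q D₀ r} {m : MonomialOrder (Fin 4)} {al be ga de : ℤ}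
    (hR : χ.Rigid m al be ga de) {N : ℕ} (hN : 4 ≤ N) {l j : ℤ} {a b : ℕ}
    (h : InR (r * q) N j a b) (hl : lw al be ga de N j a b < l) : χ.idim m N l j a b = 0 := by
  unfold Filt.idim
  have : ini m (χ.F N l) (expo (r * q) N j a b) = ⊥ := by
    by_contra h0
    have := hR.upper N hN l j a b h h0
    omega
  rw [this]
  simp

/-- sums over a level -/
theorem forall_JJ {Q N : ℕ} {j : ℤ} (hj : j ∈ JJ Q N) {a b : ℕ} (ha : a ∈ range (AA Q N j + 1))
    (hb : b ∈ range (BB Q N j + 1)) : InR Q N j a b :=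
  (inR_iff (mem_JJ.1 hj)).2 ⟨Nat.lt_succ_iff.1 (mem_range.1 ha), Nat.lt_succ_iff.1 (mem_range.1 hb)⟩

/-- Transfer of moments. -/
theorem Filt.Rigid.moment {χ : Filt T q D₀ r} {m : MonomialOrder (Fin 4)} {al be ga de : ℤ}
    (hR : χ.Rigid m al be ga de) : ∃ C : ℝ, 0 ≤ C ∧ ∀ N : ℕ, 4 ≤ N → ∀ Λ : ℕ, χ.lam ≤ Λ →
    ∀ (φ : ℤ → ℕ → ℕ → ℤ → ℝ) (Ω : ℝ), 0 ≤ Ω →
    (∀ j a b l, InR (r * q) N j a b → -((Λ * N : ℕ) : ℤ) < l → l ≤ lw al be ga de N j a b →
      |φ j a b l| ≤ Ω) →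
    ∑ j ∈ JJ (r * q) N, |∑ a ∈ range (AA (r * q) N j + 1), ∑ b ∈ range (BB (r * q) N j + 1),
      (χ.vdim N j * ∑ l ∈ Ioc (-((Λ * N : ℕ) : ℤ)) (lw al be ga de N j a b), φ j a b l -
        ∑ l ∈ Ioc (-((Λ * N : ℕ) : ℤ)) ((Λ * N : ℕ) : ℤ), φ j a b l * χ.idim m N l j a b)| ≤
      Ω * C * (N : ℝ) ^ 3 := by
  obtain ⟨C, hC⟩ := hR.full
  refine ⟨max C 0, le_max_right _ _, ?_⟩
  intro N hN Λ hΛ φ Ω hΩ hφ
  have hΛN : ((χ.lam * N : ℕ) : ℤ) ≤ ((Λ * N : ℕ) : ℤ) := by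
    exact_mod_cast Nat.mul_le_mul_right N hΛ
  have key : ∀ j ∈ JJ (r * q) N, ∀ a ∈ range (AA (r * q) N j + 1),
      ∀ b ∈ range (BB (r * q) N j + 1),
      |χ.vdim N j * ∑ l ∈ Ioc (-((Λ * N : ℕ) : ℤ)) (lw al be ga de N j a b), φ j a b l -
        ∑ l ∈ Ioc (-((Λ * N : ℕ) : ℤ)) ((Λ * N : ℕ) : ℤ), φ j a b l * χ.idim m N l j a b| ≤
      Ω * ∑ l ∈ Ioc (-((χ.lam : ℤ) * N)) (lw al be ga de N j a b),
        (χ.vdim N j - χ.idim m N l j a b) := by
    intro j hj a ha b hb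
    have hin := forall_JJ hj ha hb
    set L := lw al be ga de N j a b with hL
    have e1 : ∑ l ∈ Ioc (-((Λ * N : ℕ) : ℤ)) ((Λ * N : ℕ) : ℤ), φ j a b l * χ.idim m N l j a b =
        ∑ l ∈ Ioc (-((Λ * N : ℕ) : ℤ)) L, φ j a b l * χ.idim m N l j a b := by
      have h1 : ∑ l ∈ Ioc (-((Λ * N : ℕ) : ℤ)) ((Λ * N : ℕ) : ℤ), φ j a b l * χ.idim m N l j a b =
          ∑ l ∈ Ioc (-((Λ * N : ℕ) : ℤ)) (max ((Λ * N : ℕ) : ℤ) L),
            φ j a b l * χ.idim m N l j a b := by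
        apply sum_subset (Ioc_subset_Ioc_right (le_max_left _ _))
        intro l hl hl'
        rw [mem_Ioc] at hl hl'
        have h2 : χ.lam * N < l := by
          have h3 : ((Λ * N : ℕ) : ℤ) < l := by
            by_contra h
            exact hl' ⟨hl.1, by omega⟩
          have h4 : ((χ.lam * N : ℕ) : ℤ) = (χ.lam : ℤ) * N := by push_cast; rfl
          omega
        rw [χ.idim_eq_zero m h2, mul_zero]
      have h2 : ∑ l ∈ Ioc (-((Λ * N : ℕ) : ℤ)) L, φ j a b l * χ.idim m N l j a b =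
          ∑ l ∈ Ioc (-((Λ * N : ℕ) : ℤ)) (max ((Λ * N : ℕ) : ℤ) L),
            φ j a b l * χ.idim m N l j a b := by
        apply sum_subset (Ioc_subset_Ioc_right (le_max_right _ _))
        intro l hl hl'
        rw [mem_Ioc] at hl hl'
        rw [hR.idim_eq_zero hN hin (by
          by_contra h
          exact hl' ⟨hl.1, by omega⟩), mul_zero]
      rw [h1, h2]
    rw [e1, mul_sum, ← sum_sub_distrib]
    have e2 : ∀ l ∈ Ioc (-((Λ * N : ℕ) : ℤ)) L, |χ.vdim N j * φ j a b l -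
        φ j a b l * χ.idim m N l j a b| ≤ Ω * (χ.vdim N j - χ.idim m N l j a b) := by
      intro l hl
      rw [mem_Ioc] at hl
      have h1 : χ.vdim N j * φ j a b l - φ j a b l * χ.idim m N l j a b =
          φ j a b l * (χ.vdim N j - χ.idim m N l j a b) := by ring
      have h2 := χ.idim_le m l hin
      rw [h1, abs_mul, abs_of_nonneg (by linarith : 0 ≤ χ.vdim N j - χ.idim m N l j a b)]
      exact mul_le_mul_of_nonneg_right (hφ j a b l hin hl.1 hl.2) (by linarith)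
    refine (abs_sum_le_sum_abs _ _).trans ((sum_le_sum e2).trans ?_)
    rw [← mul_sum]
    apply mul_le_mul_of_nonneg_left _ hΩ
    apply le_of_eq
    symm
    apply sum_subset (Ioc_subset_Ioc_left (by omega))
    intro l hl hl'
    rw [mem_Ioc] at hl hl'
    have h3 : l ≤ -(χ.lam * N) := by
      have h4 : ((χ.lam * N : ℕ) : ℤ) = (χ.lam : ℤ) * N := by push_cast; rfl
      have h5 : l ≤ -((χ.lam * N : ℕ) : ℤ) := by
        by_contra h
        exact hl' ⟨by omega, hl.2⟩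
      omega
    rw [χ.idim_eq_vdim m hin h3, sub_self]
  calc _ ≤ ∑ j ∈ JJ (r * q) N, ∑ a ∈ range (AA (r * q) N j + 1),
        ∑ b ∈ range (BB (r * q) N j + 1),
        Ω * ∑ l ∈ Ioc (-((χ.lam : ℤ) * N)) (lw al be ga de N j a b),
          (χ.vdim N j - χ.idim m N l j a b) := by
        apply sum_le_sum
        intro j hj
        refine (abs_sum_le_sum_abs _ _).trans (sum_le_sum fun a ha => ?_)
        exact (abs_sum_le_sum_abs _ _).trans (sum_le_sum fun b hb => key j hj a ha b hb)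
    _ = Ω * ∑ j ∈ JJ (r * q) N, ∑ a ∈ range (AA (r * q) N j + 1),
        ∑ b ∈ range (BB (r * q) N j + 1),
        ∑ l ∈ Ioc (-((χ.lam : ℤ) * N)) (lw al be ga de N j a b),
          (χ.vdim N j - χ.idim m N l j a b) := by
        simp only [mul_sum]
    _ ≤ Ω * (C * (N : ℝ) ^ 3) := mul_le_mul_of_nonneg_left (hC N hN) hΩ
    _ ≤ Ω * (max C 0 * (N : ℝ) ^ 3) := by
        apply mul_le_mul_of_nonneg_left _ hΩ
        apply mul_le_mul_of_nonneg_right (le_max_left _ _) (by positivity)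
    _ = _ := by ring

end Pool.Agent.YTD
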