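import Pool.Agent.YTD.RigidWx

/-!
A rigid filtration with constant linear form has norm zero.
-/

namespace Pool.Agent.YTD

open Module Finset MvPolynomial Filter

variable {K : Type} [Field K] [Algebra ℂ K]
variable {T : Datum K} {q : ℕ} {D₀ : T.X.Pt →₀ ℤ} {r : ℕ}

theorem sum_range_Ioc (M : ℕ) (f : ℤ → ℝ) :
    ∑ i ∈ range (2 * M), f ((i : ℤ) + 1 - M) = ∑ l ∈ Ioc (-(M : ℤ)) M, f l := by
  have h1 : Ioc (-(M : ℤ)) M = (range (2 * M)).image (fun i : ℕ => (i : ℤ) + 1 - M) := by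
    classical
    ext l
    rw [mem_Ioc, mem_image]
    constructor
    · rintro ⟨h1, h2⟩
      refine ⟨(l + M - 1).toNat, ?_, ?_⟩
      · rw [mem_range]
        omega
      · omega
    · rintro ⟨i, hi, rfl⟩
      rw [mem_range] at hi
      omega
  classical
  rw [h1, sum_image]
  intro i _ i' _ h
  simp only at h
  omega

theorem real_eq_zero_of_bdd {x C : ℝ} (h : ∀ᶠ N : ℕ in atTop, |x| * N ≤ C) : x = 0 := by
  by_contra h0
  have h1 : 0 < |x| := abs_pos.2 h0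
  obtain ⟨N0, hN0⟩ := eventually_atTop.1 h
  obtain ⟨n, hn⟩ := exists_nat_gt (C / |x|)
  have h2 := hN0 (max n N0) (le_max_right _ _)
  have h3 : (n : ℝ) ≤ (max n N0 : ℕ) := by exact_mod_cast le_max_left _ _
  rw [div_lt_iff₀ h1] at hn
  nlinarith

namespace Filt

theorem dimN_eq (χ : Filt T q D₀ r) (N : ℕ) : χ.dimN N = χ.s0 N := by
  have h := χ.sum_idim (MonomialOrder.lex (σ := Fin 4)) N (-((χ.lam : ℤ) * N))
  have h1 : (finrank ℂ (χ.F N (-((χ.lam : ℤ) * N))) : ℝ) = χ.dimN N := by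
    rw [χ.F_of_le le_rfl]
    rfl
  rw [h1] at h
  rw [← h]
  unfold s0 msz
  apply sum_congr rfl
  intro j hj
  have h2 : ∀ a ∈ range (AA (r * q) N j + 1), ∑ b ∈ range (BB (r * q) N j + 1),
      χ.idim (MonomialOrder.lex (σ := Fin 4)) N (-((χ.lam : ℤ) * N)) j a b =
      ∑ _b ∈ range (BB (r * q) N j + 1), χ.vdim N j := by
    intro a ha
    apply sum_congr rfl
    intro b hb
    exact χ.idim_eq_vdim _ (forall_JJ hj ha hb) le_rfl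
  rw [sum_congr rfl h2, sum_const, sum_const, card_range, card_range, nsmul_eq_mul, nsmul_eq_mul]
  push_cast
  ring

theorem tr_one' (χ : Filt T q D₀ r) (N : ℕ) :
    χ.tr 1 N = ∑ l ∈ Ioc (-((χ.lam * N : ℕ) : ℤ)) ((χ.lam * N : ℕ) : ℤ),
      (finrank ℂ (χ.F N l) : ℝ) - χ.lam * N * χ.dimN N := by
  obtain ⟨P₀⟩ := T.exists_point_mom
  rw [χ.tr_one P₀, χ.graded_tot P₀, ← sum_range_Ioc]
  have e : 2 * χ.lam * N = 2 * (χ.lam * N) := by ring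
  rw [e]
  push_cast
  rfl

/-- Abel summation for the second trace. -/
theorem tr_two (χ : Filt T q D₀ r) (N : ℕ) :
    χ.tr 2 N = ∑ l ∈ Ioc (-((χ.lam * N : ℕ) : ℤ)) ((χ.lam * N : ℕ) : ℤ),
      (2 * (l : ℝ) - 1) * (finrank ℂ (χ.F N l) : ℝ) + (χ.lam * N) ^ 2 * χ.dimN N := by
  rw [tr_eq]
  have key : ∀ (h : ℤ → ℝ) (c : ℤ) (M : ℕ), ∑ i ∈ range (M + 1),
      (((i : ℤ) - c : ℤ) : ℝ) ^ 2 * (h ((i : ℤ) - c) - h ((i : ℤ) - c + 1)) =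
      ∑ i ∈ range M, (2 * (((i : ℤ) + 1 - c : ℤ) : ℝ) - 1) * h ((i : ℤ) + 1 - c) +
        (c : ℝ) ^ 2 * h (-c) - ((M : ℝ) - c) ^ 2 * h ((M : ℤ) - c + 1) := by
    intro h c M
    induction M with
    | zero =>
      simp
      ring
    | succ M ih =>
      rw [sum_range_succ, ih, sum_range_succ]
      push_cast
      have e1 : (M : ℤ) + 1 - c = (M : ℤ) - c + 1 := by ring
      rw [e1]
      ring
  have h1 := key (fun l => (finrank ℂ (χ.F N l) : ℝ)) (χ.lam * N) (2 * χ.lam * N)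
  have h2 : (finrank ℂ (χ.F N (((2 * χ.lam * N : ℕ) : ℤ) - χ.lam * N + 1)) : ℝ) = 0 := by
    rw [χ.F_of_gt (by push_cast; linarith)]
    simp
  have h3 : (finrank ℂ (χ.F N (-(χ.lam * N))) : ℝ) = χ.dimN N := by
    rw [χ.F_of_le le_rfl]
    rfl
  rw [h2, h3, mul_zero, sub_zero] at h1
  unfold wt
  rw [h1, ← sum_range_Ioc (χ.lam * N) (fun l => (2 * (l : ℝ) - 1) * (finrank ℂ (χ.F N l) : ℝ))]
  have e : 2 * χ.lam * N = 2 * (χ.lam * N) := by ring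
  rw [e]
  push_cast
  rfl

theorem sum_Ioc_odd' {c L : ℤ} (h : -c ≤ L) :
    ∑ l ∈ Ioc (-c) L, (2 * (l : ℝ) - 1) = (L : ℝ) ^ 2 - (c : ℝ) ^ 2 := by
  have h1 := sum_Ioc_odd h
  have h2 := sum_Ioc_one h
  have h3 : ∑ l ∈ Ioc (-c) L, (2 * ((l : ℝ) + c) - 1) =
      ∑ l ∈ Ioc (-c) L, (2 * (l : ℝ) - 1) + 2 * c * ∑ _l ∈ Ioc (-c) L, (1 : ℝ) := by
    rw [mul_sum, ← sum_add_distrib]
    apply sum_congr rfl
    intro l _
    ring
  rw [h3, h2] at h1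
  linarith

/-- A rigid filtration with constant linear form has norm zero. -/
theorem Rigid.norm_zero {χ : Filt T q D₀ r} {m : MonomialOrder (Fin 4)} {c : ℤ}
    (hR : χ.Rigid m 0 0 0 c) (hD : T.X.deg D₀ = 105 * T.t * q) (hq : 0 < q) (hr : 0 < r)
    {a₀ a₁ b₀ b₁ c₀ : ℝ} (hE : χ.Expansion a₀ a₁ b₀ b₁ c₀) :
    b₀ = c * a₀ ∧ c₀ = c ^ 2 * a₀ := by
  obtain ⟨C, hC0, hC⟩ := hR.total
  have hlow : ∀ N : ℕ, 4 ≤ N → ∀ j a b, InR (r * q) N j a b →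
      -((χ.lam * N : ℕ) : ℤ) ≤ lw 0 0 0 c N j a b := by
    intro N hN j a b h
    have h1 := hR.lower hD hq hr hN h
    push_cast
    linarith
  have hconst : ∀ (N : ℕ) (z : ℝ), ∑ j ∈ JJ (r * q) N, χ.vdim N j *
      ∑ _a ∈ range (AA (r * q) N j + 1), ∑ _b ∈ range (BB (r * q) N j + 1), z = z * χ.dimN N := by
    intro N z
    rw [χ.dimN_eq]
    unfold s0 msz
    rw [mul_sum]
    apply sum_congr rfl
    intro j _
    rw [sum_const, sum_const, card_range, card_range, nsmul_eq_mul, nsmul_eq_mul]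
    push_cast
    ring
  have hlw : ∀ (N : ℕ) (j : ℤ) (a b : ℕ), (lw 0 0 0 c N j a b : ℝ) = c * N := by
    intro N j a b
    unfold lw
    push_cast
    ring
  -- first trace
  have h1 : ∀ N : ℕ, 4 ≤ N → |χ.tr 1 N - c * N * χ.dimN N| ≤ C * (N : ℝ) ^ 3 := by
    intro N hN
    have g1 := hC N hN χ.lam le_rfl (fun _ => 1) 1 zero_le_one (fun _ _ _ _ _ _ _ => by simp)
    have e1 : ∑ j ∈ JJ (r * q) N, χ.vdim N j * ∑ a ∈ range (AA (r * q) N j + 1),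
        ∑ b ∈ range (BB (r * q) N j + 1),
        ∑ _l ∈ Ioc (-((χ.lam * N : ℕ) : ℤ)) (lw 0 0 0 c N j a b), (1 : ℝ) =
        (c * N + χ.lam * N) * χ.dimN N := by
      rw [← hconst]
      apply sum_congr rfl
      intro j hj
      congr 1
      apply sum_congr rfl
      intro a ha
      apply sum_congr rfl
      intro b hb
      rw [sum_Ioc_one (hlow N hN j a b (forall_JJ hj ha hb)), hlw]
      push_cast
      ring
    rw [e1] at g1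
    simp only [one_mul] at g1
    rw [χ.tr_one', abs_sub_comm]
    calc _ = _ := by congr 1; ring
      _ ≤ _ := g1
  -- second trace
  obtain ⟨d, hd0, hd⟩ : ∃ d : ℝ, 0 ≤ d ∧ ∀ N : ℕ, 4 ≤ N → ∀ j a b l, InR (r * q) N j a b →
      -((χ.lam * N : ℕ) : ℤ) < l → l ≤ lw 0 0 0 c N j a b → |2 * (l : ℝ) - 1| ≤ d * N := by
    refine ⟨2 * (χ.lam + |(c : ℝ)|) + 1, by positivity, ?_⟩
    intro N hN j a b l _ g1 g2
    have hN4 : (4 : ℝ) ≤ N := by exact_mod_cast hN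
    have g3 : -((χ.lam : ℝ) * N) ≤ l := by
      have : -((χ.lam * N : ℕ) : ℤ) ≤ l := g1.le
      have h5 : ((-((χ.lam * N : ℕ) : ℤ) : ℤ) : ℝ) ≤ l := by exact_mod_cast this
      push_cast at h5
      exact h5
    have g4 : (l : ℝ) ≤ c * N := by
      rw [← hlw N j a b]
      exact_mod_cast g2
    have g5 : (c : ℝ) * N ≤ |(c : ℝ)| * N := mul_le_mul_of_nonneg_right (le_abs_self _) (by positivity)
    have g6 : 0 ≤ |(c : ℝ)| * N := by positivity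
    have g7 : 0 ≤ (χ.lam : ℝ) * N := by positivity
    rw [abs_le]
    constructor <;> nlinarith
  have h2 : ∀ N : ℕ, 4 ≤ N → |χ.tr 2 N - c ^ 2 * (N : ℝ) ^ 2 * χ.dimN N| ≤
      d * C * (N : ℝ) ^ 4 := by
    intro N hN
    have g1 := hC N hN χ.lam le_rfl (fun l => 2 * (l : ℝ) - 1) (d * N) (by positivity)
      (fun j a b l h g1 g2 => hd N hN j a b l h g1 g2)
    have e1 : ∑ j ∈ JJ (r * q) N, χ.vdim N j * ∑ a ∈ range (AA (r * q) N j + 1),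
        ∑ b ∈ range (BB (r * q) N j + 1),
        ∑ l ∈ Ioc (-((χ.lam * N : ℕ) : ℤ)) (lw 0 0 0 c N j a b), (2 * (l : ℝ) - 1) =
        ((c * N) ^ 2 - (χ.lam * N) ^ 2) * χ.dimN N := by
      rw [← hconst]
      apply sum_congr rfl
      intro j hj
      congr 1
      apply sum_congr rfl
      intro a ha
      apply sum_congr rfl
      intro b hb
      rw [sum_Ioc_odd' (hlow N hN j a b (forall_JJ hj ha hb)), hlw]
      push_cast
      ring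
    rw [e1] at g1
    rw [χ.tr_two, abs_sub_comm]
    calc _ = _ := by congr 1; ring
      _ ≤ _ := g1
      _ = _ := by ring
  obtain ⟨⟨E1, hE1⟩, ⟨E2, hE2⟩, ⟨E3, hE3⟩⟩ := hE
  have hb : b₀ - c * a₀ = 0 := by
    apply real_eq_zero_of_bdd (C := |b₁ - c * a₁| + |(c : ℝ)| * |E1| + |E2| + C)
    filter_upwards [hE1, hE2, eventually_ge_atTop 4] with N g1 g2 hN
    have hN4 : (4 : ℝ) ≤ N := by exact_mod_cast hN
    have hN1 : (1 : ℝ) ≤ N := by linarith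
    have g3 := h1 N hN
    have e1 : (b₀ - c * a₀) * (N : ℝ) ^ 5 = -((b₁ - c * a₁) * (N : ℝ) ^ 4) +
        (c * N * (χ.dimN N - (a₀ * N ^ 4 + a₁ * N ^ 3))) -
        (χ.tr 1 N - (b₀ * N ^ 5 + b₁ * N ^ 4)) + (χ.tr 1 N - c * N * χ.dimN N) := by ring
    have p32 : (N : ℝ) ^ 3 ≤ (N : ℝ) ^ 4 := pow_le_pow_right₀ hN1 (by norm_num)
    have f1 : |(b₁ - c * a₁) * (N : ℝ) ^ 4| = |b₁ - c * a₁| * (N : ℝ) ^ 4 := by
      rw [abs_mul, abs_of_nonneg (by positivity : (0 : ℝ) ≤ (N : ℝ) ^ 4)]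
    have f2 : |c * N * (χ.dimN N - (a₀ * N ^ 4 + a₁ * N ^ 3))| ≤ |(c : ℝ)| * |E1| * (N : ℝ) ^ 4 := by
      rw [abs_mul, abs_mul, Nat.abs_cast]
      calc |(c : ℝ)| * N * |χ.dimN N - (a₀ * N ^ 4 + a₁ * N ^ 3)|
          ≤ |(c : ℝ)| * N * (|E1| * N ^ 2) := by
            apply mul_le_mul_of_nonneg_left _ (by positivity)
            exact g1.trans (mul_le_mul_of_nonneg_right (le_abs_self _) (by positivity))
        _ = |(c : ℝ)| * |E1| * N ^ 3 := by ring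
        _ ≤ _ := mul_le_mul_of_nonneg_left p32 (by positivity)
    have f3 : |χ.tr 1 N - (b₀ * N ^ 5 + b₁ * N ^ 4)| ≤ |E2| * (N : ℝ) ^ 4 :=
      g2.trans (mul_le_mul (le_abs_self _) p32 (by positivity) (abs_nonneg _))
    have f4 : |χ.tr 1 N - c * N * χ.dimN N| ≤ C * (N : ℝ) ^ 4 :=
      g3.trans (mul_le_mul_of_nonneg_left p32 hC0)
    have f5 : |b₀ - c * a₀| * (N : ℝ) ^ 5 ≤
        (|b₁ - c * a₁| + |(c : ℝ)| * |E1| + |E2| + C) * (N : ℝ) ^ 4 := by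
      have : |b₀ - c * a₀| * (N : ℝ) ^ 5 = |(b₀ - c * a₀) * (N : ℝ) ^ 5| := by
        rw [abs_mul, abs_of_nonneg (by positivity : (0 : ℝ) ≤ (N : ℝ) ^ 5)]
      rw [this, e1]
      have t1 := abs_add_le (-((b₁ - c * a₁) * (N : ℝ) ^ 4) +
        (c * N * (χ.dimN N - (a₀ * N ^ 4 + a₁ * N ^ 3))) -
        (χ.tr 1 N - (b₀ * N ^ 5 + b₁ * N ^ 4))) (χ.tr 1 N - c * N * χ.dimN N)
      have t2 := abs_sub (-((b₁ - c * a₁) * (N : ℝ) ^ 4) +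
        (c * N * (χ.dimN N - (a₀ * N ^ 4 + a₁ * N ^ 3)))) (χ.tr 1 N - (b₀ * N ^ 5 + b₁ * N ^ 4))
      have t3 := abs_add_le (-((b₁ - c * a₁) * (N : ℝ) ^ 4))
        (c * N * (χ.dimN N - (a₀ * N ^ 4 + a₁ * N ^ 3)))
      rw [abs_neg, f1] at t3
      linarith
    have f6 : |b₀ - c * a₀| * N * (N : ℝ) ^ 4 ≤
        (|b₁ - c * a₁| + |(c : ℝ)| * |E1| + |E2| + C) * (N : ℝ) ^ 4 := by
      calc _ = |b₀ - c * a₀| * (N : ℝ) ^ 5 := by ring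
        _ ≤ _ := f5
    exact le_of_mul_le_mul_right f6 (by positivity)
  have hc : c₀ - c ^ 2 * a₀ = 0 := by
    apply real_eq_zero_of_bdd (C := |c ^ 2 * a₁| + |(c : ℝ) ^ 2| * |E1| + |E3| + d * C)
    filter_upwards [hE1, hE3, eventually_ge_atTop 4] with N g1 g2 hN
    have hN4 : (4 : ℝ) ≤ N := by exact_mod_cast hN
    have hN1 : (1 : ℝ) ≤ N := by linarith
    have g3 := h2 N hN
    have e1 : (c₀ - c ^ 2 * a₀) * (N : ℝ) ^ 6 = (c ^ 2 * a₁) * (N : ℝ) ^ 5 +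
        (c ^ 2 * N ^ 2 * (χ.dimN N - (a₀ * N ^ 4 + a₁ * N ^ 3))) -
        (χ.tr 2 N - c₀ * N ^ 6) + (χ.tr 2 N - c ^ 2 * N ^ 2 * χ.dimN N) := by ring
    have p45 : (N : ℝ) ^ 4 ≤ (N : ℝ) ^ 5 := pow_le_pow_right₀ hN1 (by norm_num)
    have f1 : |(c ^ 2 * a₁) * (N : ℝ) ^ 5| = |c ^ 2 * a₁| * (N : ℝ) ^ 5 := by
      rw [abs_mul, abs_of_nonneg (by positivity : (0 : ℝ) ≤ (N : ℝ) ^ 5)]
    have f2 : |c ^ 2 * N ^ 2 * (χ.dimN N - (a₀ * N ^ 4 + a₁ * N ^ 3))| ≤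
        |(c : ℝ) ^ 2| * |E1| * (N : ℝ) ^ 5 := by
      rw [abs_mul, abs_mul, abs_of_nonneg (by positivity : (0 : ℝ) ≤ (N : ℝ) ^ 2)]
      calc |(c : ℝ) ^ 2| * N ^ 2 * |χ.dimN N - (a₀ * N ^ 4 + a₁ * N ^ 3)|
          ≤ |(c : ℝ) ^ 2| * N ^ 2 * (|E1| * N ^ 2) := by
            apply mul_le_mul_of_nonneg_left _ (by positivity)
            exact g1.trans (mul_le_mul_of_nonneg_right (le_abs_self _) (by positivity))
        _ = |(c : ℝ) ^ 2| * |E1| * N ^ 4 := by ring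
        _ ≤ _ := mul_le_mul_of_nonneg_left p45 (by positivity)
    have f3 : |χ.tr 2 N - c₀ * N ^ 6| ≤ |E3| * (N : ℝ) ^ 5 :=
      g2.trans (mul_le_mul_of_nonneg_right (le_abs_self _) (by positivity))
    have f4 : |χ.tr 2 N - c ^ 2 * N ^ 2 * χ.dimN N| ≤ d * C * (N : ℝ) ^ 5 :=
      g3.trans (mul_le_mul_of_nonneg_left p45 (by positivity))
    have f5 : |c₀ - c ^ 2 * a₀| * (N : ℝ) ^ 6 ≤
        (|c ^ 2 * a₁| + |(c : ℝ) ^ 2| * |E1| + |E3| + d * C) * (N : ℝ) ^ 5 := by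
      have : |c₀ - c ^ 2 * a₀| * (N : ℝ) ^ 6 = |(c₀ - c ^ 2 * a₀) * (N : ℝ) ^ 6| := by
        rw [abs_mul, abs_of_nonneg (by positivity : (0 : ℝ) ≤ (N : ℝ) ^ 6)]
      rw [this, e1]
      have t1 := abs_add_le ((c ^ 2 * a₁) * (N : ℝ) ^ 5 +
        (c ^ 2 * N ^ 2 * (χ.dimN N - (a₀ * N ^ 4 + a₁ * N ^ 3))) -
        (χ.tr 2 N - c₀ * N ^ 6)) (χ.tr 2 N - c ^ 2 * N ^ 2 * χ.dimN N)
      have t2 := abs_sub ((c ^ 2 * a₁) * (N : ℝ) ^ 5 +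
        (c ^ 2 * N ^ 2 * (χ.dimN N - (a₀ * N ^ 4 + a₁ * N ^ 3)))) (χ.tr 2 N - c₀ * N ^ 6)
      have t3 := abs_add_le ((c ^ 2 * a₁) * (N : ℝ) ^ 5)
        (c ^ 2 * N ^ 2 * (χ.dimN N - (a₀ * N ^ 4 + a₁ * N ^ 3)))
      rw [f1] at t3
      linarith
    have f6 : |c₀ - c ^ 2 * a₀| * N * (N : ℝ) ^ 5 ≤
        (|c ^ 2 * a₁| + |(c : ℝ) ^ 2| * |E1| + |E3| + d * C) * (N : ℝ) ^ 5 := by
      calc _ = |c₀ - c ^ 2 * a₀| * (N : ℝ) ^ 6 := by ring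
        _ ≤ _ := f5
    exact le_of_mul_le_mul_right f6 (by positivity)
  constructor <;> linarith

/-- the norm vanishes. -/
theorem Rigid.norm_zero' {χ : Filt T q D₀ r} {m : MonomialOrder (Fin 4)} {c : ℤ}
    (hR : χ.Rigid m 0 0 0 c) (hD : T.X.deg D₀ = 105 * T.t * q) (hq : 0 < q) (hr : 0 < r)
    {a₀ a₁ b₀ b₁ c₀ : ℝ} (hE : χ.Expansion a₀ a₁ b₀ b₁ c₀) : c₀ - b₀ ^ 2 / a₀ = 0 := by
  obtain ⟨rfl, rfl⟩ := hR.norm_zero hD hq hr hE
  by_cases h : a₀ = 0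
  · simp [h]
  · field_simp
    ring

end Filt

end Pool.Agent.YTD
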