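import Pool.Agent.YTD.RigidTotal

/-!
The maximum and the minimum over the polytope of a rigid filtration do not depend on the order.
-/

namespace Pool.Agent.YTD

open Module Finset MvPolynomial

variable {K : Type} [Field K] [Algebra ℂ K]
variable {T : Datum K} {q : ℕ} {D₀ : T.X.Pt →₀ ℤ} {r : ℕ}

theorem sum_shift_int {f : ℤ → ℝ} {S : Finset ℤ} {c : ℤ} {s : ℕ}
    (h : ∀ i : ℕ, i ≤ s → c + i ∈ S) (hf : ∀ j ∈ S, 0 ≤ f j) :
    ∑ i ∈ range (s + 1), f (c + i) ≤ ∑ j ∈ S, f j := by
  classical
  have h1 : ∑ i ∈ range (s + 1), f (c + i) =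
      ∑ j ∈ (range (s + 1)).image (fun i : ℕ => c + (i : ℤ)), f j := by
    rw [sum_image]
    intro i _ i' _ h
    simp only at h
    omega
  rw [h1]
  apply sum_le_sum_of_subset_of_nonneg
  · intro j hj
    obtain ⟨i, hi, rfl⟩ := mem_image.1 hj
    exact h i (Nat.lt_succ_iff.1 (mem_range.1 hi))
  · intro j hj _
    exact hf j hj

theorem sum_shift_nat {f : ℕ → ℝ} {M c s : ℕ}
    (h : c + s ≤ M) (hf : ∀ j ∈ range (M + 1), 0 ≤ f j) :
    ∑ i ∈ range (s + 1), f (c + i) ≤ ∑ j ∈ range (M + 1), f j := by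
  classical
  have h1 : ∑ i ∈ range (s + 1), f (c + i) =
      ∑ j ∈ (range (s + 1)).image (fun i : ℕ => c + i), f j := by
    rw [sum_image]
    intro i _ i' _ h
    simp only at h
    omega
  rw [h1]
  apply sum_le_sum_of_subset_of_nonneg
  · intro j hj
    obtain ⟨i, hi, rfl⟩ := mem_image.1 hj
    have := mem_range.1 hi
    rw [mem_range]
    omega
  · intro j hj _
    exact hf j hj

namespace Filt

/-- A linear form whose positive part is small is non-positive. -/
theorem nonpos_of_sum_le (χ : Filt T q D₀ r) (hD : T.X.deg D₀ = 105 * T.t * q) (hq : 0 < q)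
    (hr : 0 < r) {al be ga de : ℤ} {C : ℝ}
    (hC : ∀ N : ℕ, 4 ≤ N → ∑ j ∈ JJ (r * q) N, χ.vdim N j *
      ∑ a ∈ range (AA (r * q) N j + 1), ∑ b ∈ range (BB (r * q) N j + 1),
        max 0 (lw al be ga de N j a b : ℝ) ≤ C * (N : ℝ) ^ 3)
    {N : ℕ} {j : ℤ} {a b : ℕ} (h : InR (r * q) N j a b) : lw al be ga de N j a b ≤ 0 := by
  by_contra hneg
  push Not at hneg
  have hrq : 0 < r * q := Nat.mul_pos hr hq
  obtain ⟨c, hc⟩ : ∃ c : ℕ, |al| + |be| + |ga| + |de| ≤ c :=
    ⟨(|al| + |be| + |ga| + |de|).toNat, by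
      rw [Int.toNat_of_nonneg (by positivity)]⟩
  -- parameters
  set k : ℕ → ℕ := fun s => (c + 1) * s with hk
  set M : ℕ := (c + 1) * N + 1 with hM
  obtain ⟨s0, hs0⟩ := exists_nat_gt (C * (M : ℝ) ^ 3)
  set s : ℕ := s0 + 4 with hs
  have hs4 : 4 ≤ s := by omega
  have hlev : k s * N + s = M * s := by
    rw [hk, hM]
    ring
  have hM1 : 1 ≤ M := by omega
  have hL4 : 4 ≤ M * s := by nlinarith
  have hbound := hC (M * s) hL4
  have hin : ∀ x y z : ℕ, x ≤ s → y ≤ s → z ≤ s →
      InR (r * q) (M * s) (k s * j + x) (k s * a + y) (k s * b + z) := by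
    intro x y z hx hy hz
    rw [← hlev]
    exact (h.smul (k s)).add (inR_box hrq hx hy hz)
  have hlow : ∀ x y z : ℕ, x ≤ s → y ≤ s → z ≤ s →
      (s : ℝ) ≤ max 0 (lw al be ga de (M * s) (k s * j + x) (k s * a + y) (k s * b + z) : ℝ) := by
    intro x y z hx hy hz
    have e1 : lw al be ga de (M * s) (k s * j + x) (k s * a + y) (k s * b + z) =
        k s * lw al be ga de N j a b + lw al be ga de s (x : ℤ) y z := by
      rw [← hlev, lw_add, lw_smul]
    have e2 : -(s * (c : ℤ)) ≤ lw al be ga de s (x : ℤ) y z := by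
      have h1 := lw_le_box (-al) (-be) (-ga) (-de) s hx hy hz
      have h2 : lw (-al) (-be) (-ga) (-de) s (x : ℤ) y z = - lw al be ga de s (x : ℤ) y z := by
        unfold lw
        ring
      rw [h2, abs_neg, abs_neg, abs_neg, abs_neg] at h1
      have h3 : (s : ℤ) * (|al| + |be| + |ga| + |de|) ≤ s * c :=
        mul_le_mul_of_nonneg_left hc (by positivity)
      linarith
    have e3 : (s : ℤ) ≤ lw al be ga de (M * s) (k s * j + x) (k s * a + y) (k s * b + z) := by
      rw [e1]
      have h1 : (k s : ℤ) * 1 ≤ k s * lw al be ga de N j a b :=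
        mul_le_mul_of_nonneg_left hneg (by positivity)
      have h2 : (k s : ℤ) = (c + 1) * s := by
        rw [hk]
        push_cast
        ring
      rw [h2] at h1 ⊢
      linarith
    refine le_trans ?_ (le_max_right _ _)
    exact_mod_cast e3
  have hsum : (s : ℝ) ^ 3 * (s * s) ≤ ∑ j ∈ JJ (r * q) (M * s), χ.vdim (M * s) j *
      ∑ a ∈ range (AA (r * q) (M * s) j + 1), ∑ b ∈ range (BB (r * q) (M * s) j + 1),
        max 0 (lw al be ga de (M * s) j a b : ℝ) := by
    have hvpos : ∀ j, 0 ≤ χ.vdim (M * s) j := fun _ => by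
      unfold vdim
      positivity
    have g1 := sum_shift_int (f := fun j => χ.vdim (M * s) j *
      ∑ a ∈ range (AA (r * q) (M * s) j + 1), ∑ b ∈ range (BB (r * q) (M * s) j + 1),
        max 0 (lw al be ga de (M * s) j a b : ℝ)) (S := JJ (r * q) (M * s)) (c := k s * j) (s := s)
      (fun x hx => mem_JJ.2 (hin x 0 0 hx (Nat.zero_le _) (Nat.zero_le _)).1)
      (fun j _ => mul_nonneg (hvpos j) (sum_nonneg fun _ _ => sum_nonneg fun _ _ =>
        le_max_left _ _))
    refine le_trans ?_ g1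
    have g2 : ∀ x ∈ range (s + 1), (s : ℝ) ^ 2 * (s * s) ≤ χ.vdim (M * s) (k s * j + x) *
      ∑ a ∈ range (AA (r * q) (M * s) (k s * j + x) + 1),
        ∑ b ∈ range (BB (r * q) (M * s) (k s * j + x) + 1),
        max 0 (lw al be ga de (M * s) (k s * j + x) a b : ℝ) := by
      intro x hx
      have hx' : x ≤ s := Nat.lt_succ_iff.1 (mem_range.1 hx)
      have hj := mem_JJ.2 (hin x 0 0 hx' (Nat.zero_le _) (Nat.zero_le _)).1
      have g3 := χ.le_vdim hD hq hr hL4 hj
      have hMs : (s : ℝ) ≤ ((M * s : ℕ) : ℝ) := by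
        exact_mod_cast Nat.le_mul_of_pos_left s hM1
      have g4 : (s : ℝ) ≤ χ.vdim (M * s) (k s * j + x) := hMs.trans g3
      have g5 : (s : ℝ) ^ 2 * s ≤ ∑ a ∈ range (AA (r * q) (M * s) (k s * j + x) + 1),
        ∑ b ∈ range (BB (r * q) (M * s) (k s * j + x) + 1),
        max 0 (lw al be ga de (M * s) (k s * j + x) a b : ℝ) := by
        have hAle : k s * a + s ≤ AA (r * q) (M * s) (k s * j + x) :=
          ((inR_iff (mem_JJ.1 hj)).1 (hin x s 0 hx' le_rfl (Nat.zero_le _))).1
        have g6 := sum_shift_nat (f := fun a =>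
          ∑ b ∈ range (BB (r * q) (M * s) (k s * j + x) + 1),
          max 0 (lw al be ga de (M * s) (k s * j + x) a b : ℝ)) hAle
          (fun _ _ => sum_nonneg fun _ _ => le_max_left _ _)
        refine le_trans ?_ g6
        have g7 : ∀ y ∈ range (s + 1), (s : ℝ) * s ≤
          ∑ b ∈ range (BB (r * q) (M * s) (k s * j + x) + 1),
          max 0 (lw al be ga de (M * s) (k s * j + x) (k s * a + y) b : ℝ) := by
          intro y hy
          have hy' : y ≤ s := Nat.lt_succ_iff.1 (mem_range.1 hy)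
          have hBle : k s * b + s ≤ BB (r * q) (M * s) (k s * j + x) :=
            ((inR_iff (mem_JJ.1 hj)).1 (hin x 0 s hx' (Nat.zero_le _) le_rfl)).2
          have g8 := sum_shift_nat (f := fun b =>
            max 0 (lw al be ga de (M * s) (k s * j + x) (k s * a + y) b : ℝ)) hBle
            (fun _ _ => le_max_left _ _)
          refine le_trans ?_ g8
          have g9 : ∑ _z ∈ range (s + 1), (s : ℝ) ≤ ∑ z ∈ range (s + 1),
              max 0 (lw al be ga de (M * s) (k s * j + x) (k s * a + y) (k s * b + z) : ℝ) :=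
            sum_le_sum fun z hz => hlow x y z hx' hy' (Nat.lt_succ_iff.1 (mem_range.1 hz))
          refine le_trans ?_ g9
          rw [sum_const, card_range, nsmul_eq_mul]
          push_cast
          have : (0 : ℝ) ≤ s := by positivity
          nlinarith
        refine le_trans ?_ (sum_le_sum g7)
        rw [sum_const, card_range, nsmul_eq_mul]
        push_cast
        have : (0 : ℝ) ≤ s * s := by positivity
        nlinarith
      calc (s : ℝ) ^ 2 * (s * s) = s * (s ^ 2 * s) := by ring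
        _ ≤ _ := mul_le_mul g4 g5 (by positivity) (hvpos _)
    refine le_trans ?_ (sum_le_sum g2)
    rw [sum_const, card_range, nsmul_eq_mul]
    push_cast
    have : (0 : ℝ) ≤ s ^ 2 * (s * s) := by positivity
    nlinarith
  have h1 := hsum.trans hbound
  have hspos : (0 : ℝ) < (s : ℝ) ^ 3 := by positivity
  have h2 : (s : ℝ) ^ 3 * (s * s) ≤ (s : ℝ) ^ 3 * (C * (M : ℝ) ^ 3) := by
    push_cast at h1
    calc _ ≤ _ := h1
      _ = _ := by ring
  have h3 : (s : ℝ) * s ≤ C * (M : ℝ) ^ 3 := le_of_mul_le_mul_left h2 hspos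
  have h4 : (s0 : ℝ) + 4 = s := by
    rw [hs]
    push_cast
    ring
  have h5 : (4 : ℝ) ≤ s := by exact_mod_cast hs4
  nlinarith

/-- number of `l` above a level -/
theorem sum_Ioc_gt {c L M : ℤ} (hM : -c ≤ M) :
    ∑ l ∈ Ioc (-c) L, (if M < l then (1 : ℝ) else 0) = max 0 ((L : ℝ) - M) := by
  rw [← sum_filter]
  have h1 : (Ioc (-c) L).filter (fun l => M < l) = Ioc M L := by
    ext l
    rw [mem_filter, mem_Ioc, mem_Ioc]
    omega
  rw [h1, sum_const, Int.card_Ioc, nsmul_eq_mul, mul_one]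
  have h2 : (((L - M).toNat : ℕ) : ℝ) = (((L - M).toNat : ℤ) : ℝ) := by push_cast; rfl
  rw [h2, Int.toNat_eq_max]
  push_cast
  rw [max_comm]

/-- The maximum is intrinsic. -/
theorem Rigid.max_le {χ χ' : Filt T q D₀ r} {m m' : MonomialOrder (Fin 4)}
    {al be ga de al' be' ga' de' : ℤ} (hR : χ.Rigid m al be ga de)
    (hR' : χ'.Rigid m' al' be' ga' de') (hD : T.X.deg D₀ = 105 * T.t * q) (hq : 0 < q) (hr : 0 < r)
    (hdim : ∀ N : ℕ, 4 ≤ N → ∀ l : ℤ, finrank ℂ (χ.F N l) = finrank ℂ (χ'.F N l)) {M : ℤ}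
    (hM : ∀ N j a b, InR (r * q) N j a b → lw al' be' ga' de' N j a b ≤ M * N)
    {N : ℕ} {j : ℤ} {a b : ℕ} (h : InR (r * q) N j a b) : lw al be ga de N j a b ≤ M * N := by
  obtain ⟨C, hC0, hC⟩ := hR.total_compare hR' hdim
  have key := χ.nonpos_of_sum_le hD hq hr (al := al) (be := be) (ga := ga) (de := de - M)
    (C := C) (by
      intro N hN
      set Λ : ℕ := max χ.lam χ'.lam with hΛ
      have hΛ1 : χ.lam ≤ Λ := le_max_left _ _
      have hΛ2 : χ'.lam ≤ Λ := le_max_right _ _
      have hMN : -((Λ * N : ℕ) : ℤ) ≤ M * N := by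
        have h00 : (0 : ℤ) ≤ 25 * ((r * q : ℕ) : ℤ) * N := by positivity
        have h0 : InR (r * q) N 0 0 0 :=
          ⟨by rw [abs_zero]; positivity, by simpa using h00, by simpa using h00⟩
        have h1 := hR'.lower hD hq hr hN h0
        have h2 := hM N 0 0 0 h0
        have : ((χ'.lam * N : ℕ) : ℤ) ≤ ((Λ * N : ℕ) : ℤ) := by
          exact_mod_cast Nat.mul_le_mul_right N hΛ2
        push_cast at this ⊢
        linarith
      have h1 := hC N hN Λ hΛ1 hΛ2 (fun l => if M * N < l then 1 else 0) 1 zero_le_one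
        (fun _ _ _ l _ _ _ => by split_ifs <;> simp)
      rw [one_mul] at h1
      refine le_trans (le_of_eq ?_) ((le_abs_self _).trans h1)
      apply sum_congr rfl
      intro j hj
      congr 1
      apply sum_congr rfl
      intro a ha
      apply sum_congr rfl
      intro b hb
      have hin := forall_JJ hj ha hb
      rw [sum_Ioc_gt hMN, sum_Ioc_gt hMN]
      have h2 : ((lw al' be' ga' de' N j a b : ℝ) - ((M * N : ℤ) : ℝ)) ≤ 0 := by
        have := hM N j a b hin
        have h3 : (lw al' be' ga' de' N j a b : ℝ) ≤ ((M * N : ℤ) : ℝ) := by exact_mod_cast this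
        linarith
      rw [max_eq_left h2, sub_zero]
      congr 1
      unfold lw
      push_cast
      ring) h
  have e : lw al be ga (de - M) N j a b = lw al be ga de N j a b - M * N := by
    unfold lw
    ring
  rw [e] at key
  linarith

/-- The minimum is intrinsic. -/
theorem Rigid.min_le {χ χ' : Filt T q D₀ r} {m m' : MonomialOrder (Fin 4)}
    {al be ga de al' be' ga' de' : ℤ} (hR : χ.Rigid m al be ga de)
    (hR' : χ'.Rigid m' al' be' ga' de') (hD : T.X.deg D₀ = 105 * T.t * q) (hq : 0 < q) (hr : 0 < r)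
    (hdim : ∀ N : ℕ, 4 ≤ N → ∀ l : ℤ, finrank ℂ (χ.F N l) = finrank ℂ (χ'.F N l)) {M : ℤ}
    (hM : ∀ N j a b, InR (r * q) N j a b → M * N ≤ lw al' be' ga' de' N j a b)
    {N : ℕ} {j : ℤ} {a b : ℕ} (h : InR (r * q) N j a b) : M * N ≤ lw al be ga de N j a b := by
  obtain ⟨C, hC0, hC⟩ := hR.total_compare hR' hdim
  have key := χ.nonpos_of_sum_le hD hq hr (al := -al) (be := -be) (ga := -ga) (de := M - de)
    (C := C) (by
      intro N hN
      set Λ : ℕ := max (max χ.lam χ'.lam) M.natAbs with hΛ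
      have hΛ1 : χ.lam ≤ Λ := (le_max_left _ _).trans (le_max_left _ _)
      have hΛ2 : χ'.lam ≤ Λ := (le_max_right _ _).trans (le_max_left _ _)
      have hΛ3 : M.natAbs ≤ Λ := le_max_right _ _
      have hMN : -((Λ * N : ℕ) : ℤ) ≤ M * N := by
        have h4 : -(Λ : ℤ) ≤ M := by omega
        have h5 : -(Λ : ℤ) * N ≤ M * N := mul_le_mul_of_nonneg_right h4 (by positivity)
        push_cast
        linarith
      have hlow1 : ∀ j a b, InR (r * q) N j a b →
          -((Λ * N : ℕ) : ℤ) ≤ lw al be ga de N j a b := by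
        intro j a b h
        refine le_trans ?_ (hR.lower hD hq hr hN h)
        have : ((χ.lam * N : ℕ) : ℤ) ≤ ((Λ * N : ℕ) : ℤ) := by
          exact_mod_cast Nat.mul_le_mul_right N hΛ1
        push_cast at this ⊢
        linarith
      have hlow2 : ∀ j a b, InR (r * q) N j a b →
          -((Λ * N : ℕ) : ℤ) ≤ lw al' be' ga' de' N j a b := by
        intro j a b h
        refine le_trans ?_ (hR'.lower hD hq hr hN h)
        have : ((χ'.lam * N : ℕ) : ℤ) ≤ ((Λ * N : ℕ) : ℤ) := by
          exact_mod_cast Nat.mul_le_mul_right N hΛ2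
        push_cast at this ⊢
        linarith
      have h1 := hC N hN Λ hΛ1 hΛ2 (fun l => 1 - if M * N < l then 1 else 0) 1 zero_le_one
        (fun _ _ _ l _ _ _ => by split_ifs <;> simp)
      rw [one_mul] at h1
      refine le_trans (le_of_eq ?_) ((neg_le_abs _).trans h1)
      rw [← sum_neg_distrib]
      apply sum_congr rfl
      intro j hj
      rw [← mul_neg, ← sum_neg_distrib]
      congr 1
      apply sum_congr rfl
      intro a ha
      rw [← sum_neg_distrib]
      apply sum_congr rfl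
      intro b hb
      have hin := forall_JJ hj ha hb
      rw [sum_sub_distrib, sum_sub_distrib, sum_Ioc_gt hMN, sum_Ioc_gt hMN,
        sum_Ioc_one (hlow1 j a b hin), sum_Ioc_one (hlow2 j a b hin)]
      have h2 : 0 ≤ ((lw al' be' ga' de' N j a b : ℝ) - ((M * N : ℤ) : ℝ)) := by
        have := hM N j a b hin
        have h3 : ((M * N : ℤ) : ℝ) ≤ (lw al' be' ga' de' N j a b : ℝ) := by exact_mod_cast this
        linarith
      rw [max_eq_right h2]
      have e : (lw (-al) (-be) (-ga) (M - de) N j a b : ℝ) =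
          -((lw al be ga de N j a b : ℝ) - ((M * N : ℤ) : ℝ)) := by
        unfold lw
        push_cast
        ring
      rw [e]
      rcases le_total 0 ((lw al be ga de N j a b : ℝ) - ((M * N : ℤ) : ℝ)) with h4 | h4
      · rw [max_eq_left (by linarith), max_eq_right h4]
        ring
      · rw [max_eq_right (by linarith), max_eq_left h4]
        ring) h
  have e : lw (-al) (-be) (-ga) (M - de) N j a b = M * N - lw al be ga de N j a b := by
    unfold lw
    ring
  rw [e] at key
  linarith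

end Filt

end Pool.Agent.YTD
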