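import Pool.Agent.YTD.RigidB1

/-!
The greedy inequality for rigid filtrations and the sign of the slopes for filtrations stable
under an involution exchanging the coordinates.
-/

namespace Pool.Agent.YTD

open Module Finset MvPolynomial

section greedy

variable {σ : Type} {K : Type} [Field K] [Algebra ℂ K]

/-- The greedy inequality for two spaces and two orders. -/
theorem greedy' (m m' : MonomialOrder σ) {U U' : Submodule ℂ (MvPolynomial σ K)}
    (hfin : FiniteDimensional ℂ U) (hfin' : FiniteDimensional ℂ U')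
    {w w' : (σ →₀ ℕ) → ℕ} {E : Finset (σ →₀ ℕ)}
    (hm : Refines m w E) (hU : ∀ f ∈ U, ∀ e, f.coeff e ≠ 0 → e ∈ E)
    (hU' : ∀ f ∈ U', ∀ e, f.coeff e ≠ 0 → e ∈ E) (hdim : finrank ℂ U = finrank ℂ U')
    (hww' : ∀ c, finrank ℂ (U ⊓ Wle w c : Submodule ℂ (MvPolynomial σ K)) ≤
      finrank ℂ (U' ⊓ Wle w' c : Submodule ℂ (MvPolynomial σ K))) :
    ∑ e ∈ E, w' e * finrank ℂ (ini m' U' e) ≤ ∑ e ∈ E, w e * finrank ℂ (ini m U e) := by
  obtain ⟨M, hM⟩ : ∃ M, ∀ e ∈ E, w e ≤ M ∧ w' e ≤ M := by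
    refine ⟨∑ e ∈ E, (w e + w' e), fun e he => ?_⟩
    have h : w e + w' e ≤ ∑ e ∈ E, (w e + w' e) :=
      Finset.single_le_sum (f := fun e => w e + w' e) (fun i _ => Nat.zero_le _) he
    constructor <;> omega
  have h1 := sum_weight E w (fun e => finrank ℂ (ini m U e)) M (fun e he => (hM e he).1)
  have h2 := sum_weight E w' (fun e => finrank ℂ (ini m' U' e)) M (fun e he => (hM e he).2)
  have h3 : ∑ c ∈ range M, ∑ e ∈ E with w e ≤ c, finrank ℂ (ini m U e) ≤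
      ∑ c ∈ range M, ∑ e ∈ E with w' e ≤ c, finrank ℂ (ini m' U' e) := by
    apply Finset.sum_le_sum
    intro c _
    rw [← finrank_Wle m hfin hm hU c]
    exact (hww' c).trans (finrank_Wle_le m' hfin' w' hU' (fun e _ => finite_ini m' hfin' e) c)
  rw [← finrank_eq_sum_ini m E U hfin hU] at h1
  rw [← finrank_eq_sum_ini m' E U' hfin' hU', ← hdim] at h2
  omega

/-- exchange of the coordinates `x₀, x₁` and of `y₀, y₁`. -/
noncomputable def swapE (e : Fin 4 →₀ ℕ) : Fin 4 →₀ ℕ :=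
  Finsupp.equivFunOnFinite.symm ![e 1, e 0, e 3, e 2]

theorem swapE_0 (e : Fin 4 →₀ ℕ) : swapE e 0 = e 1 := rfl
theorem swapE_1 (e : Fin 4 →₀ ℕ) : swapE e 1 = e 0 := rfl
theorem swapE_2 (e : Fin 4 →₀ ℕ) : swapE e 2 = e 3 := rfl
theorem swapE_3 (e : Fin 4 →₀ ℕ) : swapE e 3 = e 2 := rfl

theorem swapE_swapE (e : Fin 4 →₀ ℕ) : swapE (swapE e) = e := by
  ext i
  fin_cases i <;> rfl

theorem swapE_inj {e e' : Fin 4 →₀ ℕ} (h : swapE e = swapE e') : e = e' := by
  rw [← swapE_swapE e, h, swapE_swapE]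

/-- antidiagonal invertible matrices. -/
structure Anti (s : Matrix (Fin 2) (Fin 2) ℂ) : Prop where
  z0 : s 0 0 = 0
  z1 : s 1 1 = 0
  n0 : s 0 1 ≠ 0
  n1 : s 1 0 ≠ 0

/-- the scalar by which the monomial with exponent `e` is multiplied. -/
noncomputable def antiC (s s' : Matrix (Fin 2) (Fin 2) ℂ) (e : Fin 4 →₀ ℕ) : ℂ :=
  s 0 1 ^ e 0 * s 1 0 ^ e 1 * s' 0 1 ^ e 2 * s' 1 0 ^ e 3

theorem antiC_ne {s s' : Matrix (Fin 2) (Fin 2) ℂ} (hs : Anti s) (hs' : Anti s')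
    (e : Fin 4 →₀ ℕ) : antiC s s' e ≠ 0 := by
  unfold antiC
  have := hs.n0
  have := hs.n1
  have := hs'.n0
  have := hs'.n1
  positivity

theorem subst_monomial {s s' : Matrix (Fin 2) (Fin 2) ℂ} (hs : Anti s) (hs' : Anti s')
    (e : Fin 4 →₀ ℕ) (c : K) :
    subst s s' (monomial e c) = monomial (swapE e) (antiC s s' e • c) := by
  unfold subst
  rw [aeval_monomial, Finsupp.prod_fintype _ _ (by intro i; exact pow_zero _), Fin.prod_univ_four]
  have e0 : (![s 0 0 • X 0 + s 0 1 • X 1, s 1 0 • X 0 + s 1 1 • X 1,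
      s' 0 0 • X 2 + s' 0 1 • X 3, s' 1 0 • X 2 + s' 1 1 • X 3] : Fin 4 → MvPolynomial (Fin 4) K) 0
      = s 0 1 • X 1 := by
    show s 0 0 • X 0 + s 0 1 • X 1 = _
    rw [hs.z0, zero_smul, zero_add]
  have e1 : (![s 0 0 • X 0 + s 0 1 • X 1, s 1 0 • X 0 + s 1 1 • X 1,
      s' 0 0 • X 2 + s' 0 1 • X 3, s' 1 0 • X 2 + s' 1 1 • X 3] : Fin 4 → MvPolynomial (Fin 4) K) 1
      = s 1 0 • X 0 := by
    show s 1 0 • X 0 + s 1 1 • X 1 = _
    rw [hs.z1, zero_smul, add_zero]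
  have e2 : (![s 0 0 • X 0 + s 0 1 • X 1, s 1 0 • X 0 + s 1 1 • X 1,
      s' 0 0 • X 2 + s' 0 1 • X 3, s' 1 0 • X 2 + s' 1 1 • X 3] : Fin 4 → MvPolynomial (Fin 4) K) 2
      = s' 0 1 • X 3 := by
    show s' 0 0 • X 2 + s' 0 1 • X 3 = _
    rw [hs'.z0, zero_smul, zero_add]
  have e3 : (![s 0 0 • X 0 + s 0 1 • X 1, s 1 0 • X 0 + s 1 1 • X 1,
      s' 0 0 • X 2 + s' 0 1 • X 3, s' 1 0 • X 2 + s' 1 1 • X 3] : Fin 4 → MvPolynomial (Fin 4) K) 3
      = s' 1 0 • X 2 := by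
    show s' 1 0 • X 2 + s' 1 1 • X 3 = _
    rw [hs'.z1, zero_smul, add_zero]
  rw [e0, e1, e2, e3, smul_pow, smul_pow, smul_pow, smul_pow]
  have e4 : (monomial (swapE e) (antiC s s' e • c) : MvPolynomial (Fin 4) K) =
      antiC s s' e • (C c * (X 0 ^ e 1 * X 1 ^ e 0 * X 2 ^ e 3 * X 3 ^ e 2)) := by
    have h1 : (monomial (swapE e) (antiC s s' e • c) : MvPolynomial (Fin 4) K) =
        antiC s s' e • monomial (swapE e) c := by
      rw [smul_monomial]
    rw [h1, monomial_eq, Finsupp.prod_fintype _ _ (by intro i; exact pow_zero _),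
      Fin.prod_univ_four]
    rfl
  rw [e4, smul_mul_smul_comm, smul_mul_smul_comm, smul_mul_smul_comm, mul_smul_comm]
  have e5 : algebraMap K (MvPolynomial (Fin 4) K) c *
      (X 1 ^ e 0 * X 0 ^ e 1 * X 3 ^ e 2 * X 2 ^ e 3) =
      C c * (X 0 ^ e 1 * X 1 ^ e 0 * X 2 ^ e 3 * X 3 ^ e 2) := by
    rw [algebraMap_eq]
    ring
  rw [e5]
  rfl

theorem subst_coeff {s s' : Matrix (Fin 2) (Fin 2) ℂ} (hs : Anti s) (hs' : Anti s')
    (f : MvPolynomial (Fin 4) K) (e : Fin 4 →₀ ℕ) :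
    (subst s s' f).coeff (swapE e) = antiC s s' e • f.coeff e := by
  induction f using MvPolynomial.induction_on' with
  | monomial e' c =>
    classical
    rw [subst_monomial hs hs', coeff_monomial, coeff_monomial]
    by_cases h : e' = e
    · subst h
      simp
    · rw [if_neg h, if_neg (fun h' => h (swapE_inj h')), smul_zero]
  | add f g hf hg => rw [map_add, coeff_add, hf, hg, coeff_add, smul_add]

theorem subst_injective {s s' : Matrix (Fin 2) (Fin 2) ℂ} (hs : Anti s) (hs' : Anti s') :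
    Function.Injective (subst (K := K) s s') := by
  rw [injective_iff_map_eq_zero]
  intro f hf
  ext e
  have h := subst_coeff hs hs' f e
  rw [hf, coeff_zero] at h
  rw [coeff_zero]
  exact (smul_eq_zero.1 h.symm).resolve_left (antiC_ne hs hs' e)

/-- the layers of a subspace stable under `map θ ∘ subst s s'` have the same dimension for a
weight and its transform. -/
theorem finrank_swap_map {s s' : Matrix (Fin 2) (Fin 2) ℂ} (hs : Anti s) (hs' : Anti s')
    (θ : K ≃ₐ[ℂ] K) {U : Submodule ℂ (MvPolynomial (Fin 4) K)} (hfin : FiniteDimensional ℂ U)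
    (hinv : ∀ f ∈ U, MvPolynomial.map (θ : K →+* K) (subst s s' f) ∈ U)
    (w : (Fin 4 →₀ ℕ) → ℕ) (c : ℕ) :
    finrank ℂ (U ⊓ Wle w c : Submodule ℂ (MvPolynomial (Fin 4) K)) ≤
      finrank ℂ (U ⊓ Wle (fun e => w (swapE e)) c : Submodule ℂ (MvPolynomial (Fin 4) K)) := by
  have : FiniteDimensional ℂ (U ⊓ Wle (fun e => w (swapE e)) c :
    Submodule ℂ (MvPolynomial (Fin 4) K)) := finite_inf hfin
  have hcoef : ∀ (f : MvPolynomial (Fin 4) K) (e : Fin 4 →₀ ℕ),
      (MvPolynomial.map (θ : K →+* K) (subst s s' f)).coeff (swapE e) =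
        antiC s s' e • θ (f.coeff e) := by
    intro f e
    rw [coeff_map, subst_coeff hs hs']
    show θ (antiC s s' e • f.coeff e) = _
    rw [map_smul]
  have hmem : ∀ f : (U ⊓ Wle w c : Submodule ℂ (MvPolynomial (Fin 4) K)),
      MvPolynomial.map (θ : K →+* K) (subst s s' (f : MvPolynomial (Fin 4) K)) ∈
        U ⊓ Wle (fun e => w (swapE e)) c := by
    intro f
    refine ⟨hinv _ f.2.1, ?_⟩
    intro e he
    have h1 := hcoef (f : MvPolynomial (Fin 4) K) (swapE e)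
    rw [swapE_swapE] at h1
    apply f.2.2
    intro h2
    apply he
    rw [h1, h2, map_zero, smul_zero]
  let ψ : MvPolynomial (Fin 4) K →ₗ[ℂ] MvPolynomial (Fin 4) K :=
    { toFun := fun f => MvPolynomial.map (θ : K →+* K) (subst s s' f)
      map_add' := fun f g => by rw [map_add, map_add]
      map_smul' := fun c f => by
        ext e
        have h1 := hcoef (c • f) (swapE e)
        have h2 := hcoef f (swapE e)
        rw [swapE_swapE] at h1 h2
        rw [h1, RingHom.id_apply, coeff_smul, coeff_smul, h2, map_smul, smul_comm] }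
  let φ : (U ⊓ Wle w c : Submodule ℂ (MvPolynomial (Fin 4) K)) →ₗ[ℂ]
      (U ⊓ Wle (fun e => w (swapE e)) c : Submodule ℂ (MvPolynomial (Fin 4) K)) :=
    LinearMap.codRestrict _ (ψ.comp (Submodule.subtype _)) hmem
  apply LinearMap.finrank_le_finrank_of_injective (f := φ)
  intro f g h
  have h1 : MvPolynomial.map (θ : K →+* K) (subst s s' (f : MvPolynomial (Fin 4) K)) =
    MvPolynomial.map (θ : K →+* K) (subst s s' (g : MvPolynomial (Fin 4) K)) :=
    congrArg Subtype.val h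
  apply Subtype.ext
  ext e
  have h2 := hcoef (f : MvPolynomial (Fin 4) K) e
  rw [h1, hcoef] at h2
  have h3 := smul_right_injective K (antiC_ne hs hs' e) h2
  exact (θ.injective h3).symm

/-- the layers of a stable subspace have the same dimension for a weight and its transform. -/
theorem finrank_swap {s s' : Matrix (Fin 2) (Fin 2) ℂ} (hs : Anti s) (hs' : Anti s')
    {U : Submodule ℂ (MvPolynomial (Fin 4) K)} (hfin : FiniteDimensional ℂ U)
    (hinv : ∀ f ∈ U, subst s s' f ∈ U) (w : (Fin 4 →₀ ℕ) → ℕ) (c : ℕ) :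
    finrank ℂ (U ⊓ Wle w c : Submodule ℂ (MvPolynomial (Fin 4) K)) ≤
      finrank ℂ (U ⊓ Wle (fun e => w (swapE e)) c : Submodule ℂ (MvPolynomial (Fin 4) K)) := by
  apply finrank_swap_map hs hs' (AlgEquiv.refl (R := ℂ) (A₁ := K)) hfin _ w c
  intro f hf
  have e : ((AlgEquiv.refl (R := ℂ) (A₁ := K)) : K →+* K) = RingHom.id K := rfl
  rw [e, MvPolynomial.map_id]
  exact hinv f hf

end greedy

variable {K : Type} [Field K] [Algebra ℂ K]
variable {T : Datum K} {q : ℕ} {D₀ : T.X.Pt →₀ ℤ} {r : ℕ}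

namespace Filt

/-- sum over the exponents of a level. -/
theorem sum_Eset_idim (χ : Filt T q D₀ r) (m : MonomialOrder (Fin 4)) (N : ℕ) (l : ℤ)
    (w : (Fin 4 →₀ ℕ) → ℝ) :
    ∑ e ∈ Eset (r * q) N, w e * (finrank ℂ (ini m (χ.F N l) e) : ℝ) =
    ∑ j ∈ JJ (r * q) N, ∑ a ∈ range (AA (r * q) N j + 1), ∑ b ∈ range (BB (r * q) N j + 1),
      w (expo (r * q) N j a b) * χ.idim m N l j a b :=
  sum_Eset (r * q) N (fun e => w e * (finrank ℂ (ini m (χ.F N l) e) : ℝ))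

/-- Greedy inequality for one rigid filtration and two weights. -/
theorem Rigid.greedy {χ : Filt T q D₀ r} {m : MonomialOrder (Fin 4)}
    {al be ga de : ℤ} (hR : χ.Rigid m al be ga de)
    (hD : T.X.deg D₀ = 105 * T.t * q) (hq : 0 < q) (hr : 0 < r)
    {w w' : ℕ → (Fin 4 →₀ ℕ) → ℕ} (hm : ∀ N, 4 ≤ N → Refines m (w N) (Eset (r * q) N))
    (hww' : ∀ N, 4 ≤ N → ∀ l c,
      finrank ℂ (χ.F N l ⊓ Wle (w N) c : Submodule ℂ (MvPolynomial (Fin 4) K)) ≤
      finrank ℂ (χ.F N l ⊓ Wle (w' N) c : Submodule ℂ (MvPolynomial (Fin 4) K)))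
    {B : ℝ} (hB : ∀ N, 4 ≤ N → ∀ j a b, InR (r * q) N j a b →
      |(w N (expo (r * q) N j a b) : ℝ) - w' N (expo (r * q) N j a b)| ≤ B * N) :
    ∃ C : ℝ, 0 ≤ C ∧ ∀ N : ℕ, 4 ≤ N → -(C * (N : ℝ) ^ 4) ≤
      ∑ j ∈ JJ (r * q) N, χ.vdim N j * ∑ a ∈ range (AA (r * q) N j + 1),
      ∑ b ∈ range (BB (r * q) N j + 1),
      ((w N (expo (r * q) N j a b) : ℝ) - w' N (expo (r * q) N j a b)) *
        ((lw al be ga de N j a b : ℝ) + ((χ.lam * N : ℕ) : ℤ)) := by
  obtain ⟨C, hC0, hC⟩ := hR.moment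
  refine ⟨max B 0 * C, by positivity, ?_⟩
  intro N hN
  have h1 := hC N hN χ.lam le_rfl
    (fun j a b _ => (w N (expo (r * q) N j a b) : ℝ) - w' N (expo (r * q) N j a b)) (max B 0 * N)
    (by positivity) (fun j a b l h _ _ => (hB N hN j a b h).trans
      (mul_le_mul_of_nonneg_right (le_max_left _ _) (by positivity)))
  have h2 : ∀ l : ℤ, 0 ≤ ∑ j ∈ JJ (r * q) N, ∑ a ∈ range (AA (r * q) N j + 1),
      ∑ b ∈ range (BB (r * q) N j + 1),
      ((w N (expo (r * q) N j a b) : ℝ) - w' N (expo (r * q) N j a b)) *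
        χ.idim m N l j a b := by
    intro l
    have h3 := greedy' m m (χ.finite_F N l) (χ.finite_F N l) (hm N hN) χ.F_exp χ.F_exp rfl
      (fun c => hww' N hN l c)
    have h4 : ((∑ e ∈ Eset (r * q) N, w' N e * finrank ℂ (ini m (χ.F N l) e) : ℕ) : ℝ) ≤
        ((∑ e ∈ Eset (r * q) N, w N e * finrank ℂ (ini m (χ.F N l) e) : ℕ) : ℝ) := by
      exact_mod_cast h3
    push_cast at h4
    rw [χ.sum_Eset_idim m N l (fun e => (w' N e : ℝ)),
      χ.sum_Eset_idim m N l (fun e => (w N e : ℝ))] at h4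
    simp only [sub_mul, sum_sub_distrib]
    linarith
  have h5 : 0 ≤ ∑ j ∈ JJ (r * q) N, ∑ a ∈ range (AA (r * q) N j + 1),
      ∑ b ∈ range (BB (r * q) N j + 1),
      ∑ l ∈ Ioc (-((χ.lam * N : ℕ) : ℤ)) ((χ.lam * N : ℕ) : ℤ),
      ((w N (expo (r * q) N j a b) : ℝ) - w' N (expo (r * q) N j a b)) *
        χ.idim m N l j a b := by
    have e1 : ∑ j ∈ JJ (r * q) N, ∑ a ∈ range (AA (r * q) N j + 1),
      ∑ b ∈ range (BB (r * q) N j + 1),
      ∑ l ∈ Ioc (-((χ.lam * N : ℕ) : ℤ)) ((χ.lam * N : ℕ) : ℤ),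
      ((w N (expo (r * q) N j a b) : ℝ) - w' N (expo (r * q) N j a b)) *
        χ.idim m N l j a b = ∑ l ∈ Ioc (-((χ.lam * N : ℕ) : ℤ)) ((χ.lam * N : ℕ) : ℤ),
        ∑ j ∈ JJ (r * q) N, ∑ a ∈ range (AA (r * q) N j + 1),
        ∑ b ∈ range (BB (r * q) N j + 1),
        ((w N (expo (r * q) N j a b) : ℝ) - w' N (expo (r * q) N j a b)) *
          χ.idim m N l j a b := by
      symm
      rw [sum_comm]
      apply sum_congr rfl
      intro j _
      rw [sum_comm]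
      apply sum_congr rfl
      intro a _
      rw [sum_comm]
    rw [e1]
    exact sum_nonneg fun l _ => h2 l
  have e2 : ∀ j ∈ JJ (r * q) N, ∀ a ∈ range (AA (r * q) N j + 1),
      ∀ b ∈ range (BB (r * q) N j + 1),
      ∑ l ∈ Ioc (-((χ.lam * N : ℕ) : ℤ)) (lw al be ga de N j a b),
        ((w N (expo (r * q) N j a b) : ℝ) - w' N (expo (r * q) N j a b)) =
      ((w N (expo (r * q) N j a b) : ℝ) - w' N (expo (r * q) N j a b)) *
        ((lw al be ga de N j a b : ℝ) + ((χ.lam * N : ℕ) : ℤ)) := by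
    intro j hj a ha b hb
    have hlow := hR.lower hD hq hr hN (forall_JJ hj ha hb)
    have h6 := sum_Ioc_one (c := ((χ.lam * N : ℕ) : ℤ)) (L := lw al be ga de N j a b) (by
      push_cast
      linarith)
    rw [← h6, mul_sum]
    simp
  have h7 := (abs_le.1 ((abs_sum_le_sum_abs _ _).trans h1)).1
  simp only [sum_sub_distrib] at h7
  have e3 : ∑ j ∈ JJ (r * q) N, ∑ a ∈ range (AA (r * q) N j + 1),
      ∑ b ∈ range (BB (r * q) N j + 1), χ.vdim N j *
      ∑ l ∈ Ioc (-((χ.lam * N : ℕ) : ℤ)) (lw al be ga de N j a b),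
        ((w N (expo (r * q) N j a b) : ℝ) - w' N (expo (r * q) N j a b)) =
      ∑ j ∈ JJ (r * q) N, χ.vdim N j * ∑ a ∈ range (AA (r * q) N j + 1),
      ∑ b ∈ range (BB (r * q) N j + 1),
      ((w N (expo (r * q) N j a b) : ℝ) - w' N (expo (r * q) N j a b)) *
        ((lw al be ga de N j a b : ℝ) + ((χ.lam * N : ℕ) : ℤ)) := by
    apply sum_congr rfl
    intro j hj
    rw [mul_sum]
    apply sum_congr rfl
    intro a ha
    rw [mul_sum]
    apply sum_congr rfl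
    intro b hb
    rw [e2 j hj a ha b hb]
  simp only [sum_sub_distrib] at e3
  rw [e3] at h7
  have h8 : max B 0 * N * C * (N : ℝ) ^ 3 = max B 0 * C * (N : ℝ) ^ 4 := by ring
  rw [h8] at h7
  linarith

end Filt

end Pool.Agent.YTD
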