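import Mathlib

/-!
Exact evaluation of the sums giving the dimensions and the traces.
-/

namespace Pool.Agent.YTD

open Finset

theorem sum_even (M : ℕ) (f : ℤ → ℝ) (h : ∀ j, f (-j) = f j) :
    ∑ j ∈ Icc (-(M : ℤ)) M, f j = 2 * ∑ k ∈ range (M + 1), f k - f 0 := by
  induction M with
  | zero => simp; ring
  | succ n ih =>
    have h1 : Icc (-((n + 1 : ℕ) : ℤ)) ((n + 1 : ℕ) : ℤ) =
        insert (-((n : ℤ) + 1)) (insert ((n : ℤ) + 1) (Icc (-(n : ℤ)) n)) := by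
      ext x
      simp only [mem_insert, mem_Icc]
      push_cast
      constructor
      · rintro ⟨h1, h2⟩
        omega
      · rintro (h | h | h) <;> omega
    rw [h1, sum_insert, sum_insert, ih, sum_range_succ _ (n + 1)]
    · rw [h]
      push_cast
      ring
    · simp only [mem_Icc, not_and, not_le]
      omega
    · simp only [mem_insert, mem_Icc, not_or, not_and, not_le]
      omega

theorem sum_tail (a n : ℕ) (g : ℕ → ℝ) (h : ∀ k < a, g k = 0) :
    ∑ k ∈ range (a + n), g k = ∑ i ∈ range n, g (a + i) := by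
  rw [sum_range_add]
  rw [sum_eq_zero (s := range a) (fun k hk => h k (mem_range.1 hk)), zero_add]

theorem sum_poly (n : ℕ) (c0 c1 c2 c3 c4 c5 : ℝ) :
    ∑ i ∈ range (n + 1), (c0 + c1 * (i : ℝ) + c2 * (i : ℝ) ^ 2 + c3 * (i : ℝ) ^ 3 +
      c4 * (i : ℝ) ^ 4 + c5 * (i : ℝ) ^ 5) =
    c0 * (n + 1) + c1 * (n * (n + 1) / 2) + c2 * (n * (n + 1) * (2 * n + 1) / 6) +
      c3 * (n ^ 2 * (n + 1) ^ 2 / 4) +
      c4 * (n * (n + 1) * (2 * n + 1) * (3 * n ^ 2 + 3 * n - 1) / 30) +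
      c5 * (n ^ 2 * (n + 1) ^ 2 * (2 * n ^ 2 + 2 * n - 1) / 12) := by
  induction n with
  | zero => simp
  | succ n ih =>
    rw [sum_range_succ, ih]
    push_cast
    ring

section

variable (q N t : ℕ) (e : ℝ)

/-- the dimension of `V N j`. -/
noncomputable def dm (j : ℤ) : ℝ :=
  e * N - 9 * t - 100 * t * max 0 (|(j : ℝ)| - 4 * q * N)

/-- the multiplicity. -/
noncomputable def mu (j : ℤ) : ℝ :=
  (25 * (q : ℝ) * N + 3 * j + 1) * (25 * (q : ℝ) * N - 3 * j + 1)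

theorem max_term {k : ℕ} (h : k < 4 * (q * N)) : max 0 (|((k : ℤ) : ℝ)| - 4 * (q : ℝ) * N) = 0 := by
  apply max_eq_left
  have h1 : (k : ℝ) ≤ 4 * (q * N) := by exact_mod_cast h.le
  have h2 : |((k : ℤ) : ℝ)| = k := by
    push_cast
    exact abs_of_nonneg (by positivity)
  rw [h2]
  linarith

theorem max_term' (i : ℕ) :
    max 0 (|(((4 * (q * N) + i : ℕ) : ℤ) : ℝ)| - 4 * (q : ℝ) * N) = i := by
  have h2 : |(((4 * (q * N) + i : ℕ) : ℤ) : ℝ)| = 4 * (q * N) + i := by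
    push_cast
    exact abs_of_nonneg (by positivity)
  rw [h2]
  rw [max_eq_right]
  · ring
  · have : (0 : ℝ) ≤ i := by positivity
    linarith

theorem sum_dim : ∑ j ∈ Icc (-((5 * q * N : ℕ) : ℤ)) ((5 * q * N : ℕ) : ℤ),
    mu q N j * dm q N t e j =
    (-42850 * q ^ 4 * t + 5500 * q ^ 3 * e) * N ^ 4 + (-94500 * q ^ 3 * t + 900 * q ^ 2 * e) * N ^ 3 +
    (-10350 * q ^ 2 * t + 45 * q * e) * N ^ 2 + (-505 * q * t + e) * N - 9 * t := by
  rw [sum_even]
  · have e1 : ∑ k ∈ range (5 * q * N + 1), mu q N (k : ℤ) * dm q N t e (k : ℤ) =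
        ∑ k ∈ range (5 * q * N + 1), ((25 * (q : ℝ) * N + 1) ^ 2 * (e * N - 9 * t) +
          0 * (k : ℝ) + (-9 * (e * N - 9 * t)) * (k : ℝ) ^ 2 + 0 * (k : ℝ) ^ 3 +
          0 * (k : ℝ) ^ 4 + 0 * (k : ℝ) ^ 5) -
        100 * t * ∑ k ∈ range (4 * (q * N) + (q * N + 1)),
          mu q N (k : ℤ) * max 0 (|((k : ℤ) : ℝ)| - 4 * (q : ℝ) * N) := by
      have e0 : 4 * (q * N) + (q * N + 1) = 5 * q * N + 1 := by ring
      rw [e0, mul_sum, ← sum_sub_distrib]
      apply sum_congr rfl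
      intro k _
      unfold mu dm
      push_cast
      ring
    have e2 : ∑ k ∈ range (4 * (q * N) + (q * N + 1)),
          mu q N (k : ℤ) * max 0 (|((k : ℤ) : ℝ)| - 4 * (q : ℝ) * N) =
        ∑ i ∈ range (q * N + 1), (0 + ((25 * (q : ℝ) * N + 1) ^ 2 - 144 * (q * N) ^ 2) * (i : ℝ) +
          (-72 * ((q : ℝ) * N)) * (i : ℝ) ^ 2 + (-9) * (i : ℝ) ^ 3 + 0 * (i : ℝ) ^ 4 +
          0 * (i : ℝ) ^ 5) := by
      rw [sum_tail]
      · apply sum_congr rfl
        intro i _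
        rw [max_term']
        unfold mu
        push_cast
        ring
      · intro k hk
        rw [max_term q N hk, mul_zero]
    rw [e1, e2, sum_poly, sum_poly]
    unfold mu dm
    rw [max_eq_left (by simp only [Int.cast_zero, abs_zero, zero_sub, Left.neg_nonpos_iff]; positivity)]
    push_cast
    ring
  · intro j
    unfold mu dm
    push_cast
    rw [abs_neg]
    ring

/-- the weight. -/
noncomputable def ww (u : ℕ) (j : ℤ) : ℝ := min 0 ((u : ℝ) * N - |(j : ℝ)|)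

theorem ww_zero (u : ℕ) {k : ℕ} (h : k < u * N) : ww N u (k : ℤ) = 0 := by
  apply min_eq_left
  have h1 : (k : ℝ) ≤ u * N := by exact_mod_cast h.le
  have h2 : |((k : ℤ) : ℝ)| = k := by
    push_cast
    exact abs_of_nonneg (by positivity)
  rw [h2]
  linarith

theorem ww_tail (u : ℕ) (i : ℕ) : ww N u ((u * N + i : ℕ) : ℤ) = - i := by
  unfold ww
  have h2 : |(((u * N + i : ℕ) : ℤ) : ℝ)| = u * N + i := by
    push_cast
    exact abs_of_nonneg (by positivity)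
  rw [h2, min_eq_right]
  · ring
  · have : (0 : ℝ) ≤ i := by positivity
    linarith

theorem ww_top {u : ℕ} (hu : u ≤ 4 * q) (i : ℕ) : ww N u ((4 * (q * N) + i : ℕ) : ℤ) =
    (u : ℝ) * N - 4 * (q * N) - i := by
  unfold ww
  have h2 : |(((4 * (q * N) + i : ℕ) : ℤ) : ℝ)| = 4 * (q * N) + i := by
    push_cast
    exact abs_of_nonneg (by positivity)
  have h3 : (u : ℝ) * N ≤ 4 * (q * N) := by
    have : (u : ℝ) ≤ 4 * q := by exact_mod_cast hu
    nlinarith [(Nat.cast_nonneg N : (0 : ℝ) ≤ N)]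
  rw [h2, min_eq_right]
  · ring
  · have : (0 : ℝ) ≤ i := by positivity
    linarith

theorem sum_tr_one {u v : ℕ} (hu : u ≤ 4 * q) (huv : u + v = 5 * q) :
    ∑ j ∈ Icc (-((5 * q * N : ℕ) : ℤ)) ((5 * q * N : ℕ) : ℤ), mu q N j * dm q N t e j * ww N u j =
    ((598520 / 3) * q ^ 5 * t + (-42850) * q ^ 4 * u * t + (-25625 / 2) * q ^ 4 * e + (5500) * q ^ 3 * u * e + (-625) * q ^ 2 * u ^ 2 * e + (3 / 2) * u ^ 4 * e) * N ^ 5 +
    ((2031875 / 6) * q ^ 4 * t + (-94500) * q ^ 3 * u * t + (-3250) * q ^ 3 * e + (5625) * q ^ 2 * u ^ 2 * t + (900) * q ^ 2 * u * e + (-50) * q * u ^ 2 * e + (-27 / 2) * u ^ 4 * t) * N ^ 4 +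
    ((55150) * q ^ 3 * t + (-10350) * q ^ 2 * u * t + (-325 / 2) * q ^ 2 * e + (450) * q * u ^ 2 * t + (45) * q * u * e + (-5 / 2) * u ^ 2 * e) * N ^ 3 +
    ((21775 / 6) * q ^ 2 * t + (-505) * q * u * t + (-5) * q * e + (45 / 2) * u ^ 2 * t + (1) * u * e) * N ^ 2 +
    ((415 / 3) * q * t + (-9) * u * t) * N ^ 1 := by
  rw [sum_even]
  · have hv : (v : ℝ) = 5 * q - u := by
      have : (u : ℝ) + v = 5 * q := by exact_mod_cast huv
      linarith
    have e0 : 4 * (q * N) + (q * N + 1) = 5 * q * N + 1 := by ring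
    have e0' : u * N + (v * N + 1) = 5 * q * N + 1 := by rw [← huv]; ring
    have e1 : ∑ k ∈ range (5 * q * N + 1), mu q N (k : ℤ) * dm q N t e (k : ℤ) * ww N u (k : ℤ) =
        (e * N - 9 * t) * ∑ k ∈ range (u * N + (v * N + 1)), mu q N (k : ℤ) * ww N u (k : ℤ) -
        100 * t * ∑ k ∈ range (4 * (q * N) + (q * N + 1)),
          mu q N (k : ℤ) * max 0 (|((k : ℤ) : ℝ)| - 4 * (q : ℝ) * N) * ww N u (k : ℤ) := by
      rw [e0, e0', mul_sum, mul_sum, ← sum_sub_distrib]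
      apply sum_congr rfl
      intro k _
      unfold dm
      ring
    have e2 : ∑ k ∈ range (u * N + (v * N + 1)), mu q N (k : ℤ) * ww N u (k : ℤ) =
        ∑ i ∈ range (v * N + 1), (0 + (-((25 * (q : ℝ) * N + 1) ^ 2 - 9 * (u * N) ^ 2)) * (i : ℝ) +
          (18 * ((u : ℝ) * N)) * (i : ℝ) ^ 2 + 9 * (i : ℝ) ^ 3 + 0 * (i : ℝ) ^ 4 +
          0 * (i : ℝ) ^ 5) := by
      rw [sum_tail]
      · apply sum_congr rfl
        intro i _
        rw [ww_tail]
        unfold mu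
        push_cast
        ring
      · intro k hk
        rw [ww_zero N u hk, mul_zero]
    have e3 : ∑ k ∈ range (4 * (q * N) + (q * N + 1)),
          mu q N (k : ℤ) * max 0 (|((k : ℤ) : ℝ)| - 4 * (q : ℝ) * N) * ww N u (k : ℤ) =
        ∑ i ∈ range (q * N + 1), (0 + (-((25 * (q : ℝ) * N + 1) ^ 2 - 144 * (q * N) ^ 2) *
          (4 * (q * N) - u * N)) * (i : ℝ) +
          (72 * ((q : ℝ) * N) * (4 * (q * N) - u * N) -
            ((25 * (q : ℝ) * N + 1) ^ 2 - 144 * (q * N) ^ 2)) * (i : ℝ) ^ 2 +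
          (72 * ((q : ℝ) * N) + 9 * (4 * (q * N) - u * N)) * (i : ℝ) ^ 3 + 9 * (i : ℝ) ^ 4 +
          0 * (i : ℝ) ^ 5) := by
      rw [sum_tail]
      · apply sum_congr rfl
        intro i _
        rw [max_term', ww_top q N hu]
        unfold mu
        push_cast
        ring
      · intro k hk
        rw [max_term q N hk, mul_zero, zero_mul]
    rw [e1, e2, e3, sum_poly, sum_poly]
    have e4 : ww N u 0 = 0 := by
      unfold ww
      rw [min_eq_left]
      simp only [Int.cast_zero, abs_zero, sub_zero]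
      positivity
    rw [e4]
    push_cast
    rw [hv]
    ring
  · intro j
    unfold mu dm ww
    push_cast
    rw [abs_neg]
    ring

theorem sum_tr_two {u v : ℕ} (hu : u ≤ 4 * q) (huv : u + v = 5 * q) :
    ∑ j ∈ Icc (-((5 * q * N : ℕ) : ℤ)) ((5 * q * N : ℕ) : ℤ),
      mu q N j * dm q N t e j * ww N u j ^ 2 =
    ((-2793970 / 3) * q ^ 6 * t + (1197040 / 3) * q ^ 5 * u * t + (122500 / 3) * q ^ 5 * e + (-42850) * q ^ 4 * u ^ 2 * t + (-25625) * q ^ 4 * u * e + (5500) * q ^ 3 * u ^ 2 * e + (-1250 / 3) * q ^ 2 * u ^ 3 * e + (3 / 5) * u ^ 5 * e) * N ^ 6 +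
    ((-4430000 / 3) * q ^ 5 * t + (2031875 / 3) * q ^ 4 * u * t + (42500 / 3) * q ^ 4 * e + (-94500) * q ^ 3 * u ^ 2 * t + (-6500) * q ^ 3 * u * e + (3750) * q ^ 2 * u ^ 3 * t + (900) * q ^ 2 * u ^ 2 * e + (-100 / 3) * q * u ^ 3 * e + (-27 / 5) * u ^ 5 * t) * N ^ 5 +
    ((-322250) * q ^ 4 * t + (110300) * q ^ 3 * u * t + (1625) * q ^ 3 * e + (-10350) * q ^ 2 * u ^ 2 * t + (-1600 / 3) * q ^ 2 * u * e + (300) * q * u ^ 3 * t + (45) * q * u ^ 2 * e + (-2 / 3) * u ^ 3 * e) * N ^ 4 +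
    ((-98875 / 3) * q ^ 3 * t + (27400 / 3) * q ^ 2 * u * t + (325 / 3) * q ^ 2 * e + (-505) * q * u ^ 2 * t + (-80 / 3) * q * u * e + (6) * u ^ 3 * t + (1) * u ^ 2 * e) * N ^ 3 +
    ((-7205 / 3) * q ^ 2 * t + (1280 / 3) * q * u * t + (14 / 3) * q * e + (-9) * u ^ 2 * t + (-14 / 15) * u * e) * N ^ 2 +
    ((-42) * q * t + (42 / 5) * u * t) * N ^ 1 := by
  rw [sum_even]
  · have hv : (v : ℝ) = 5 * q - u := by
      have : (u : ℝ) + v = 5 * q := by exact_mod_cast huv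
      linarith
    have e0 : 4 * (q * N) + (q * N + 1) = 5 * q * N + 1 := by ring
    have e0' : u * N + (v * N + 1) = 5 * q * N + 1 := by rw [← huv]; ring
    have e1 : ∑ k ∈ range (5 * q * N + 1),
          mu q N (k : ℤ) * dm q N t e (k : ℤ) * ww N u (k : ℤ) ^ 2 =
        (e * N - 9 * t) * ∑ k ∈ range (u * N + (v * N + 1)), mu q N (k : ℤ) * ww N u (k : ℤ) ^ 2 -
        100 * t * ∑ k ∈ range (4 * (q * N) + (q * N + 1)),
          mu q N (k : ℤ) * max 0 (|((k : ℤ) : ℝ)| - 4 * (q : ℝ) * N) * ww N u (k : ℤ) ^ 2 := by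
      rw [e0, e0', mul_sum, mul_sum, ← sum_sub_distrib]
      apply sum_congr rfl
      intro k _
      unfold dm
      ring
    have e2 : ∑ k ∈ range (u * N + (v * N + 1)), mu q N (k : ℤ) * ww N u (k : ℤ) ^ 2 =
        ∑ i ∈ range (v * N + 1), (0 + 0 * (i : ℝ) +
          ((25 * (q : ℝ) * N + 1) ^ 2 - 9 * (u * N) ^ 2) * (i : ℝ) ^ 2 +
          (-18 * ((u : ℝ) * N)) * (i : ℝ) ^ 3 + (-9) * (i : ℝ) ^ 4 +
          0 * (i : ℝ) ^ 5) := by
      rw [sum_tail]
      · apply sum_congr rfl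
        intro i _
        rw [ww_tail]
        unfold mu
        push_cast
        ring
      · intro k hk
        rw [ww_zero N u hk]
        ring
    have e3 : ∑ k ∈ range (4 * (q * N) + (q * N + 1)),
          mu q N (k : ℤ) * max 0 (|((k : ℤ) : ℝ)| - 4 * (q : ℝ) * N) * ww N u (k : ℤ) ^ 2 =
        ∑ i ∈ range (q * N + 1), (0 + (((25 * (q : ℝ) * N + 1) ^ 2 - 144 * (q * N) ^ 2) *
          (4 * (q * N) - u * N) ^ 2) * (i : ℝ) +
          (2 * (4 * (q * N) - u * N) * ((25 * (q : ℝ) * N + 1) ^ 2 - 144 * (q * N) ^ 2) -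
            72 * ((q : ℝ) * N) * (4 * (q * N) - u * N) ^ 2) * (i : ℝ) ^ 2 +
          ((25 * (q : ℝ) * N + 1) ^ 2 - 144 * (q * N) ^ 2 -
            144 * ((q : ℝ) * N) * (4 * (q * N) - u * N) -
            9 * (4 * (q * N) - u * N) ^ 2) * (i : ℝ) ^ 3 +
          (-72 * ((q : ℝ) * N) - 18 * (4 * (q * N) - u * N)) * (i : ℝ) ^ 4 +
          (-9) * (i : ℝ) ^ 5) := by
      rw [sum_tail]
      · apply sum_congr rfl
        intro i _
        rw [max_term', ww_top q N hu]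
        unfold mu
        push_cast
        ring
      · intro k hk
        rw [max_term q N hk, mul_zero, zero_mul]
    rw [e1, e2, e3, sum_poly, sum_poly]
    have e4 : ww N u 0 = 0 := by
      unfold ww
      rw [min_eq_left]
      simp only [Int.cast_zero, abs_zero, sub_zero]
      positivity
    rw [e4]
    push_cast
    rw [hv]
    ring
  · intro j
    unfold mu dm ww
    push_cast
    rw [abs_neg]
    ring

end

end Pool.Agent.YTD
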