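import Pool.Agent.YTD.RigidB2
import Pool.Agent.YTD.UnstSum

/-!
The total size and the second moments of a level.
-/

namespace Pool.Agent.YTD

open Module Finset MvPolynomial

theorem sum_dim_sq (q N t : ℕ) : ∑ j ∈ Icc (-((5 * q * N : ℕ) : ℤ)) ((5 * q * N : ℕ) : ℤ),
    mu q N j * dm q N t (105 * t * q) j * (j : ℝ) ^ 2 =
    t * (10068530 / 3 * (q * N : ℝ) ^ 6 + 32500 / 3 * (q * N : ℝ) ^ 5 - 151625 * (q * N : ℝ) ^ 4 -
      64750 / 3 * (q * N : ℝ) ^ 3 - 5735 / 3 * (q * N : ℝ) ^ 2 - 42 * (q * N : ℝ)) := by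
  rw [sum_even]
  · have e1 : ∑ k ∈ range (5 * q * N + 1), mu q N (k : ℤ) * dm q N t (105 * t * q) (k : ℤ) *
          (((k : ℤ) : ℝ)) ^ 2 =
        ∑ k ∈ range (5 * q * N + 1), (0 + 0 * (k : ℝ) +
          ((25 * (q : ℝ) * N + 1) ^ 2 * (105 * t * q * N - 9 * t)) * (k : ℝ) ^ 2 + 0 * (k : ℝ) ^ 3 +
          (-9 * (105 * t * q * N - 9 * t)) * (k : ℝ) ^ 4 + 0 * (k : ℝ) ^ 5) -
        100 * t * ∑ k ∈ range (4 * (q * N) + (q * N + 1)),
          mu q N (k : ℤ) * (((k : ℤ) : ℝ)) ^ 2 * max 0 (|((k : ℤ) : ℝ)| - 4 * (q : ℝ) * N) := by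
      have e0 : 4 * (q * N) + (q * N + 1) = 5 * q * N + 1 := by ring
      rw [e0, mul_sum, ← sum_sub_distrib]
      apply sum_congr rfl
      intro k _
      unfold mu dm
      push_cast
      ring
    have e2 : ∑ k ∈ range (4 * (q * N) + (q * N + 1)),
          mu q N (k : ℤ) * (((k : ℤ) : ℝ)) ^ 2 * max 0 (|((k : ℤ) : ℝ)| - 4 * (q : ℝ) * N) =
        ∑ i ∈ range (q * N + 1), (0 +
          (((25 * (q : ℝ) * N + 1) ^ 2 - 144 * (q * N) ^ 2) * (16 * (q * N) ^ 2)) * (i : ℝ) +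
          (-72 * ((q : ℝ) * N) * (16 * (q * N) ^ 2) +
            8 * (q * N) * ((25 * (q : ℝ) * N + 1) ^ 2 - 144 * (q * N) ^ 2)) * (i : ℝ) ^ 2 +
          (-9 * (16 * (q * N) ^ 2) + 8 * (q * N) * (-72 * ((q : ℝ) * N)) +
            ((25 * (q : ℝ) * N + 1) ^ 2 - 144 * (q * N) ^ 2)) * (i : ℝ) ^ 3 +
          (-72 * ((q : ℝ) * N) - 9 * (8 * (q * N))) * (i : ℝ) ^ 4 +
          (-9) * (i : ℝ) ^ 5) := by
      rw [sum_tail]
      · apply sum_congr rfl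
        intro i _
        rw [max_term']
        unfold mu
        push_cast
        ring
      · intro k hk
        rw [max_term q N hk, mul_zero]
    rw [e1, e2, sum_poly, sum_poly]
    push_cast
    ring
  · intro j
    unfold mu dm
    push_cast
    rw [abs_neg]
    ring

theorem dg_real_sub (t Q N : ℕ) (j : ℤ) :
    (dg t Q N j : ℝ) - 9 * t = dm Q N t (105 * t * Q) j := by
  unfold dg dm
  have h : ((max 0 (j - 4 * Q * N) + max 0 (-j - 4 * Q * N) : ℤ) : ℝ) =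
      max 0 (|(j : ℝ)| - 4 * Q * N) := by
    push_cast
    have hn : (0 : ℝ) ≤ 4 * Q * N := by positivity
    rcases le_total 0 (j : ℝ) with h | h
    · rw [abs_of_nonneg h, max_eq_left (by linarith : -(j : ℝ) - 4 * Q * N ≤ 0), add_zero]
    · rw [abs_of_nonpos h, max_eq_left (by linarith : (j : ℝ) - 4 * Q * N ≤ 0), zero_add]
  have e : ((105 * t * Q * N - 100 * t * (max 0 (j - 4 * Q * N) + max 0 (-j - 4 * Q * N)) : ℤ) : ℝ) =
      105 * t * Q * N - 100 * t * ((max 0 (j - 4 * Q * N) + max 0 (-j - 4 * Q * N) : ℤ) : ℝ) := by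
    push_cast
    ring
  rw [e, h]
  ring

variable {K : Type} [Field K] [Algebra ℂ K]
variable {T : Datum K} {q : ℕ} {D₀ : T.X.Pt →₀ ℤ} {r : ℕ}

namespace Filt

theorem msz_eq (χ : Filt T q D₀ r) (hD : T.X.deg D₀ = 105 * T.t * q) (hq : 0 < q) (hr : 0 < r)
    {N : ℕ} (hN : 4 ≤ N) {j : ℤ} (hj : j ∈ JJ (r * q) N) :
    χ.msz N j = mu (r * q) N j * dm (r * q) N T.t (105 * T.t * (r * q : ℕ)) j := by
  unfold msz
  rw [χ.vdim_eq hD hq hr hN hj, dg_real_sub, AA_real hj, BB_real hj]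
  unfold mu
  ring

/-- total size -/
noncomputable def s0 (χ : Filt T q D₀ r) (N : ℕ) : ℝ := ∑ j ∈ JJ (r * q) N, χ.msz N j

/-- second moment of `j` -/
noncomputable def sJ (χ : Filt T q D₀ r) (N : ℕ) : ℝ :=
  ∑ j ∈ JJ (r * q) N, χ.msz N j * (j : ℝ) ^ 2

theorem s0_eq (χ : Filt T q D₀ r) (hD : T.X.deg D₀ = 105 * T.t * q) (hq : 0 < q) (hr : 0 < r)
    {N : ℕ} (hN : 4 ≤ N) : χ.s0 N = T.t * (534650 * ((r * q : ℕ) * N : ℝ) ^ 4 -
      5625 * ((r * q : ℕ) * N : ℝ) ^ 2 - 400 * ((r * q : ℕ) * N : ℝ) - 9) := by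
  unfold s0
  rw [sum_congr rfl (fun j hj => χ.msz_eq hD hq hr hN hj)]
  have h := sum_dim (r * q) N T.t (105 * T.t * (r * q : ℕ))
  unfold JJ
  rw [h]
  ring

theorem sJ_eq (χ : Filt T q D₀ r) (hD : T.X.deg D₀ = 105 * T.t * q) (hq : 0 < q) (hr : 0 < r)
    {N : ℕ} (hN : 4 ≤ N) : χ.sJ N = T.t * (10068530 / 3 * ((r * q : ℕ) * N : ℝ) ^ 6 +
      32500 / 3 * ((r * q : ℕ) * N : ℝ) ^ 5 - 151625 * ((r * q : ℕ) * N : ℝ) ^ 4 -
      64750 / 3 * ((r * q : ℕ) * N : ℝ) ^ 3 - 5735 / 3 * ((r * q : ℕ) * N : ℝ) ^ 2 -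
      42 * ((r * q : ℕ) * N : ℝ)) := by
  unfold sJ
  rw [sum_congr rfl (fun j hj => by rw [χ.msz_eq hD hq hr hN hj])]
  exact sum_dim_sq (r * q) N T.t

theorem sA_eq' (χ : Filt T q D₀ r) (hD : T.X.deg D₀ = 105 * T.t * q) (hq : 0 < q) (hr : 0 < r)
    {N : ℕ} (hN : 4 ≤ N) : χ.sA N = (625 * ((r * q : ℕ) * N : ℝ) ^ 2 +
      50 * ((r * q : ℕ) * N : ℝ)) * χ.s0 N + 9 * χ.sJ N := by
  have h1 := χ.sA_eq hD hq hr hN
  have h2 : 2 * χ.sA N = ∑ j ∈ JJ (r * q) N, χ.msz N j *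
      (AA (r * q) N j * (AA (r * q) N j + 2)) +
      ∑ j ∈ JJ (r * q) N, χ.msz N j * (BB (r * q) N j * (BB (r * q) N j + 2)) := by
    rw [h1]
    unfold sA
    ring
  rw [← sum_add_distrib] at h2
  have h3 : ∑ j ∈ JJ (r * q) N, (χ.msz N j *
      (AA (r * q) N j * (AA (r * q) N j + 2)) +
      χ.msz N j * (BB (r * q) N j * (BB (r * q) N j + 2))) =
      (2 * (625 * ((r * q : ℕ) * N : ℝ) ^ 2 + 50 * ((r * q : ℕ) * N : ℝ))) * χ.s0 N +
        18 * χ.sJ N := by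
    unfold s0 sJ
    rw [mul_sum, mul_sum, ← sum_add_distrib]
    apply sum_congr rfl
    intro j hj
    rw [AA_real hj, BB_real hj]
    ring
  rw [h3] at h2
  linarith

/-- the odd moments vanish. -/
theorem sum_msz_odd (χ : Filt T q D₀ r) (hD : T.X.deg D₀ = 105 * T.t * q) (hq : 0 < q) (hr : 0 < r)
    {N : ℕ} (hN : 4 ≤ N) : ∑ j ∈ JJ (r * q) N, χ.msz N j * (j : ℝ) = 0 := by
  have h := sum_JJ_neg (r * q) N (fun j => χ.msz N j * (j : ℝ))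
  have h1 : ∑ j ∈ JJ (r * q) N, χ.msz N (-j) * (((-j : ℤ) : ℝ)) =
      - ∑ j ∈ JJ (r * q) N, χ.msz N j * (j : ℝ) := by
    rw [← sum_neg_distrib]
    apply sum_congr rfl
    intro j hj
    rw [χ.msz_neg hD hq hr hN hj]
    push_cast
    ring
  rw [h1] at h
  linarith

end Filt

end Pool.Agent.YTD
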