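import Pool.Agent.YTD.RigidSums

/-!
The total mean and the total second moment of a rigid filtration do not depend on the order.
-/

namespace Pool.Agent.YTD

open Module Finset MvPolynomial

variable {K : Type} [Field K] [Algebra ℂ K]
variable {T : Datum K} {q : ℕ} {D₀ : T.X.Pt →₀ ℤ} {r : ℕ}

theorem poly_b1 {z : ℝ} (hz1 : 1 ≤ z) : |(26830000 * z ^ 5 - 4880250 * z ^ 4 - 725500 * z ^ 3 -
    42830 * z ^ 2 - 828 * z) / 12| ≤ 10 ^ 8 * z ^ 5 := by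
  have hz2 : z ^ 2 ≤ z ^ 5 := pow_le_pow_right₀ hz1 (by norm_num)
  have hz3 : z ^ 3 ≤ z ^ 5 := pow_le_pow_right₀ hz1 (by norm_num)
  have hz4 : z ^ 4 ≤ z ^ 5 := pow_le_pow_right₀ hz1 (by norm_num)
  have hz5 : z ≤ z ^ 5 := by
    calc z = z ^ 1 := (pow_one z).symm
      _ ≤ z ^ 5 := pow_le_pow_right₀ hz1 (by norm_num)
  have hz0 : 0 ≤ z := by linarith
  have p2 : 0 ≤ z ^ 2 := by positivity
  have p3 : 0 ≤ z ^ 3 := by positivity
  have p4 : 0 ≤ z ^ 4 := by positivity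
  have p5 : 0 ≤ z ^ 5 := by positivity
  rw [abs_le]
  constructor <;> linarith

theorem poly_b2 {z : ℝ} (hz1 : 1 ≤ z) : |(32500 / 3 * z ^ 5 - 151625 * z ^ 4 -
    64750 / 3 * z ^ 3 - 5735 / 3 * z ^ 2 - 42 * z) / 4| ≤ 10 ^ 8 * z ^ 5 := by
  have hz2 : z ^ 2 ≤ z ^ 5 := pow_le_pow_right₀ hz1 (by norm_num)
  have hz3 : z ^ 3 ≤ z ^ 5 := pow_le_pow_right₀ hz1 (by norm_num)
  have hz4 : z ^ 4 ≤ z ^ 5 := pow_le_pow_right₀ hz1 (by norm_num)
  have hz5 : z ≤ z ^ 5 := by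
    calc z = z ^ 1 := (pow_one z).symm
      _ ≤ z ^ 5 := pow_le_pow_right₀ hz1 (by norm_num)
  have hz0 : 0 ≤ z := by linarith
  have p2 : 0 ≤ z ^ 2 := by positivity
  have p3 : 0 ≤ z ^ 3 := by positivity
  have p4 : 0 ≤ z ^ 4 := by positivity
  have p5 : 0 ≤ z ^ 5 := by positivity
  rw [abs_le]
  constructor <;> linarith

namespace Filt

theorem sum_idim (χ : Filt T q D₀ r) (m : MonomialOrder (Fin 4)) (N : ℕ) (l : ℤ) :
    ∑ j ∈ JJ (r * q) N, ∑ a ∈ range (AA (r * q) N j + 1), ∑ b ∈ range (BB (r * q) N j + 1),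
      χ.idim m N l j a b = (finrank ℂ (χ.F N l) : ℝ) := by
  obtain ⟨P₀⟩ := T.exists_point_mom
  exact (T.finrank_eq_sum P₀ m (χ.F_le_sec N l)).symm

theorem sum_idim_comm (χ : Filt T q D₀ r) (m : MonomialOrder (Fin 4)) (N : ℕ) (S : Finset ℤ)
    (φ : ℤ → ℝ) :
    ∑ j ∈ JJ (r * q) N, ∑ a ∈ range (AA (r * q) N j + 1), ∑ b ∈ range (BB (r * q) N j + 1),
      ∑ l ∈ S, φ l * χ.idim m N l j a b = ∑ l ∈ S, φ l * (finrank ℂ (χ.F N l) : ℝ) := by
  have e1 : ∑ j ∈ JJ (r * q) N, ∑ a ∈ range (AA (r * q) N j + 1),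
      ∑ b ∈ range (BB (r * q) N j + 1), ∑ l ∈ S, φ l * χ.idim m N l j a b =
      ∑ l ∈ S, ∑ j ∈ JJ (r * q) N, ∑ a ∈ range (AA (r * q) N j + 1),
      ∑ b ∈ range (BB (r * q) N j + 1), φ l * χ.idim m N l j a b := by
    symm
    rw [sum_comm]
    apply sum_congr rfl
    intro j _
    rw [sum_comm]
    apply sum_congr rfl
    intro a _
    rw [sum_comm]
  rw [e1]
  apply sum_congr rfl
  intro l _
  rw [← χ.sum_idim m N l]
  simp only [mul_sum]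

/-- total moment of one filtration. -/
theorem Rigid.total {χ : Filt T q D₀ r} {m : MonomialOrder (Fin 4)} {al be ga de : ℤ}
    (hR : χ.Rigid m al be ga de) :
    ∃ C : ℝ, 0 ≤ C ∧ ∀ N : ℕ, 4 ≤ N → ∀ Λ : ℕ, χ.lam ≤ Λ →
    ∀ (φ : ℤ → ℝ) (Ω : ℝ), 0 ≤ Ω →
    (∀ j a b l, InR (r * q) N j a b → -((Λ * N : ℕ) : ℤ) < l →
      l ≤ lw al be ga de N j a b → |φ l| ≤ Ω) →
    |∑ j ∈ JJ (r * q) N, χ.vdim N j * ∑ a ∈ range (AA (r * q) N j + 1),
      ∑ b ∈ range (BB (r * q) N j + 1),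
      ∑ l ∈ Ioc (-((Λ * N : ℕ) : ℤ)) (lw al be ga de N j a b), φ l -
      ∑ l ∈ Ioc (-((Λ * N : ℕ) : ℤ)) ((Λ * N : ℕ) : ℤ), φ l * (finrank ℂ (χ.F N l) : ℝ)| ≤
      Ω * C * (N : ℝ) ^ 3 := by
  obtain ⟨C, hC0, hC⟩ := hR.moment
  refine ⟨C, hC0, ?_⟩
  intro N hN Λ hΛ φ Ω hΩ hφ
  have h1 := hC N hN Λ hΛ (fun _ _ _ l => φ l) Ω hΩ hφ
  refine le_trans (le_of_eq ?_) ((abs_sum_le_sum_abs _ _).trans h1)
  congr 1
  rw [← χ.sum_idim_comm m]
  simp only [sum_sub_distrib, mul_sum]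

/-- transfer of total moments between two rigid filtrations. -/
theorem Rigid.total_compare {χ χ' : Filt T q D₀ r} {m m' : MonomialOrder (Fin 4)}
    {al be ga de al' be' ga' de' : ℤ} (hR : χ.Rigid m al be ga de)
    (hR' : χ'.Rigid m' al' be' ga' de')
    (hdim : ∀ N : ℕ, 4 ≤ N → ∀ l : ℤ, finrank ℂ (χ.F N l) = finrank ℂ (χ'.F N l)) :
    ∃ C : ℝ, 0 ≤ C ∧ ∀ N : ℕ, 4 ≤ N → ∀ Λ : ℕ, χ.lam ≤ Λ → χ'.lam ≤ Λ →
    ∀ (φ : ℤ → ℝ) (Ω : ℝ), 0 ≤ Ω →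
    (∀ j a b l, InR (r * q) N j a b → -((Λ * N : ℕ) : ℤ) < l →
      (l ≤ lw al be ga de N j a b ∨ l ≤ lw al' be' ga' de' N j a b) → |φ l| ≤ Ω) →
    |∑ j ∈ JJ (r * q) N, χ.vdim N j * ∑ a ∈ range (AA (r * q) N j + 1),
      ∑ b ∈ range (BB (r * q) N j + 1),
      (∑ l ∈ Ioc (-((Λ * N : ℕ) : ℤ)) (lw al be ga de N j a b), φ l -
        ∑ l ∈ Ioc (-((Λ * N : ℕ) : ℤ)) (lw al' be' ga' de' N j a b), φ l)| ≤
      Ω * C * (N : ℝ) ^ 3 := by
  obtain ⟨C, hC0, hC⟩ := hR.total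
  obtain ⟨C', hC0', hC'⟩ := hR'.total
  refine ⟨C + C', by positivity, ?_⟩
  intro N hN Λ hΛ hΛ' φ Ω hΩ hφ
  have h1 := hC N hN Λ hΛ φ Ω hΩ (fun j a b l h h1 h2 => hφ j a b l h h1 (Or.inl h2))
  have h2 := hC' N hN Λ hΛ' φ Ω hΩ (fun j a b l h h1 h2 => hφ j a b l h h1 (Or.inr h2))
  have e2 : ∑ l ∈ Ioc (-((Λ * N : ℕ) : ℤ)) ((Λ * N : ℕ) : ℤ), φ l * (finrank ℂ (χ.F N l) : ℝ) =
      ∑ l ∈ Ioc (-((Λ * N : ℕ) : ℤ)) ((Λ * N : ℕ) : ℤ), φ l * (finrank ℂ (χ'.F N l) : ℝ) := by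
    apply sum_congr rfl
    intro l _
    rw [hdim N hN l]
  rw [e2] at h1
  have e4 : ∀ j, χ'.vdim N j = χ.vdim N j := fun _ => rfl
  simp only [e4] at h2
  have e3 : ∑ j ∈ JJ (r * q) N, χ.vdim N j * ∑ a ∈ range (AA (r * q) N j + 1),
      ∑ b ∈ range (BB (r * q) N j + 1),
      (∑ l ∈ Ioc (-((Λ * N : ℕ) : ℤ)) (lw al be ga de N j a b), φ l -
        ∑ l ∈ Ioc (-((Λ * N : ℕ) : ℤ)) (lw al' be' ga' de' N j a b), φ l) =
      ∑ j ∈ JJ (r * q) N, χ.vdim N j * ∑ a ∈ range (AA (r * q) N j + 1),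
      ∑ b ∈ range (BB (r * q) N j + 1),
      ∑ l ∈ Ioc (-((Λ * N : ℕ) : ℤ)) (lw al be ga de N j a b), φ l -
      ∑ j ∈ JJ (r * q) N, χ.vdim N j * ∑ a ∈ range (AA (r * q) N j + 1),
      ∑ b ∈ range (BB (r * q) N j + 1),
      ∑ l ∈ Ioc (-((Λ * N : ℕ) : ℤ)) (lw al' be' ga' de' N j a b), φ l := by
    rw [← sum_sub_distrib]
    apply sum_congr rfl
    intro j _
    simp only [sum_sub_distrib, mul_sub]
  rw [e3]
  rw [abs_le] at h1 h2 ⊢
  have e5 : Ω * (C + C') * (N : ℝ) ^ 3 = Ω * C * (N : ℝ) ^ 3 + Ω * C' * (N : ℝ) ^ 3 := by ring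
  rw [e5]
  constructor <;> linarith

theorem le_s0 (χ : Filt T q D₀ r) (hD : T.X.deg D₀ = 105 * T.t * q) (hq : 0 < q) (hr : 0 < r)
    {N : ℕ} (hN : 4 ≤ N) : 100 * (N : ℝ) ^ 3 ≤ χ.s0 N :=
  (χ.le_msz hD hq hr hN (zero_mem_JJ _ _)).trans
    (single_le_sum (f := fun j => χ.msz N j) (fun j _ => χ.msz_nonneg N j) (zero_mem_JJ _ _))

/-- the total mean is intrinsic. -/
theorem Rigid.total_mean {χ χ' : Filt T q D₀ r} {m m' : MonomialOrder (Fin 4)}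
    {al be ga de al' be' ga' de' : ℤ} (hR : χ.Rigid m al be ga de)
    (hR' : χ'.Rigid m' al' be' ga' de') (hD : T.X.deg D₀ = 105 * T.t * q) (hq : 0 < q) (hr : 0 < r)
    (hdim : ∀ N : ℕ, 4 ≤ N → ∀ l : ℤ, finrank ℂ (χ.F N l) = finrank ℂ (χ'.F N l)) :
    25 * (r * q) * (al + be) + 2 * de = 25 * (r * q) * (al' + be') + 2 * de' := by
  obtain ⟨C, hC0, hC⟩ := hR.total_compare hR' hdim
  set Λ : ℕ := max χ.lam χ'.lam with hΛ
  have hΛ1 : χ.lam ≤ Λ := le_max_left _ _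
  have hΛ2 : χ'.lam ≤ Λ := le_max_right _ _
  have hlow1 : ∀ N : ℕ, 4 ≤ N → ∀ j a b, InR (r * q) N j a b →
      -((Λ * N : ℕ) : ℤ) ≤ lw al be ga de N j a b := by
    intro N hN j a b h
    refine le_trans ?_ (hR.lower hD hq hr hN h)
    have : ((χ.lam * N : ℕ) : ℤ) ≤ ((Λ * N : ℕ) : ℤ) := by
      exact_mod_cast Nat.mul_le_mul_right N hΛ1
    push_cast at this ⊢
    linarith
  have hlow2 : ∀ N : ℕ, 4 ≤ N → ∀ j a b, InR (r * q) N j a b →
      -((Λ * N : ℕ) : ℤ) ≤ lw al' be' ga' de' N j a b := by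
    intro N hN j a b h
    refine le_trans ?_ (hR'.lower hD hq hr hN h)
    have : ((χ'.lam * N : ℕ) : ℤ) ≤ ((Λ * N : ℕ) : ℤ) := by
      exact_mod_cast Nat.mul_le_mul_right N hΛ2
    push_cast at this ⊢
    linarith
  have hY : 25 * (r * q) * (al + be) + 2 * de - (25 * (r * q) * (al' + be') + 2 * de') = 0 := by
    apply int_eq_zero_of_bdd (C := C / 50)
    intro N hN
    have h1 := hC N hN Λ hΛ1 hΛ2 (fun _ => 1) 1 zero_le_one (fun _ _ _ _ _ _ _ => by simp)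
    have e1 : ∑ j ∈ JJ (r * q) N, χ.vdim N j * ∑ a ∈ range (AA (r * q) N j + 1),
        ∑ b ∈ range (BB (r * q) N j + 1),
        (∑ _l ∈ Ioc (-((Λ * N : ℕ) : ℤ)) (lw al be ga de N j a b), (1 : ℝ) -
        ∑ _l ∈ Ioc (-((Λ * N : ℕ) : ℤ)) (lw al' be' ga' de' N j a b), (1 : ℝ)) =
        ((25 * (r * q) * (al + be) + 2 * de - (25 * (r * q) * (al' + be') + 2 * de') : ℤ) : ℝ) *
          (N / 2 * χ.s0 N) := by
      have e2 : ∀ j ∈ JJ (r * q) N, χ.vdim N j * ∑ a ∈ range (AA (r * q) N j + 1),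
        ∑ b ∈ range (BB (r * q) N j + 1),
        (∑ _l ∈ Ioc (-((Λ * N : ℕ) : ℤ)) (lw al be ga de N j a b), (1 : ℝ) -
        ∑ _l ∈ Ioc (-((Λ * N : ℕ) : ℤ)) (lw al' be' ga' de' N j a b), (1 : ℝ)) =
        (3 * ((al : ℝ) - be) + 2 * ga - (3 * (al' - be') + 2 * ga')) / 2 * (χ.msz N j * j) +
        (25 * (r * q) * ((al : ℝ) + be) + 2 * de - (25 * (r * q) * (al' + be') + 2 * de')) *
          (N / 2) * χ.msz N j := by
        intro j hj
        have e3 : ∑ a ∈ range (AA (r * q) N j + 1), ∑ b ∈ range (BB (r * q) N j + 1),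
          (∑ _l ∈ Ioc (-((Λ * N : ℕ) : ℤ)) (lw al be ga de N j a b), (1 : ℝ) -
          ∑ _l ∈ Ioc (-((Λ * N : ℕ) : ℤ)) (lw al' be' ga' de' N j a b), (1 : ℝ)) =
          ∑ a ∈ range (AA (r * q) N j + 1), ∑ b ∈ range (BB (r * q) N j + 1),
          (((al : ℝ) - al') * a + ((be : ℝ) - be') * b +
            (((ga : ℝ) - ga') * j + ((de : ℝ) - de') * N)) := by
          apply sum_congr rfl
          intro a ha
          apply sum_congr rfl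
          intro b hb
          have hin := forall_JJ hj ha hb
          rw [sum_Ioc_one (hlow1 N hN j a b hin), sum_Ioc_one (hlow2 N hN j a b hin), lw_real,
            lw_real]
          ring
        rw [e3, sum_lin]
        unfold msz
        rw [AA_real hj, BB_real hj]
        push_cast
        ring
      rw [sum_congr rfl e2, sum_add_distrib, ← mul_sum, ← mul_sum, χ.sum_msz_odd hD hq hr hN]
      unfold s0
      push_cast
      ring
    rw [e1, abs_mul] at h1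
    have h2 := χ.le_s0 hD hq hr hN
    have hNpos : (0 : ℝ) < N := by
      have : (4 : ℝ) ≤ N := by exact_mod_cast hN
      linarith
    have h3 : 50 * (N : ℝ) ^ 3 * N ≤ N / 2 * χ.s0 N := by
      have := mul_le_mul_of_nonneg_left h2 (by positivity : (0 : ℝ) ≤ N / 2)
      linarith
    rw [abs_of_nonneg (le_trans (by positivity) h3 : (0 : ℝ) ≤ N / 2 * χ.s0 N)] at h1
    have h4 := (mul_le_mul_of_nonneg_left h3 (abs_nonneg
      ((25 * (r * q) * (al + be) + 2 * de - (25 * (r * q) * (al' + be') + 2 * de') : ℤ) : ℝ))).trans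
        h1
    have h5 : (0 : ℝ) < 50 * (N : ℝ) ^ 3 := by positivity
    have h6 : |((25 * (r * q) * (al + be) + 2 * de - (25 * (r * q) * (al' + be') + 2 * de') : ℤ)
        : ℝ)| * N * (50 * (N : ℝ) ^ 3) ≤ C / 50 * (50 * (N : ℝ) ^ 3) := by
      linarith
    exact le_of_mul_le_mul_right h6 h5
  linarith

/-- the total second moment is intrinsic. -/
theorem Rigid.total_second {χ χ' : Filt T q D₀ r} {m m' : MonomialOrder (Fin 4)}
    {al be ga de al' be' ga' de' : ℤ} (hR : χ.Rigid m al be ga de)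
    (hR' : χ'.Rigid m' al' be' ga' de') (hD : T.X.deg D₀ = 105 * T.t * q) (hq : 0 < q) (hr : 0 < r)
    (hdim : ∀ N : ℕ, 4 ≤ N → ∀ l : ℤ, finrank ℂ (χ.F N l) = finrank ℂ (χ'.F N l)) :
    36436184 * (al ^ 2 + be ^ 2) + 1006853 * (3 * (al - be) + 2 * ga) ^ 2 =
    36436184 * (al' ^ 2 + be' ^ 2) + 1006853 * (3 * (al' - be') + 2 * ga') ^ 2 := by
  have hmean := hR.total_mean hR' hD hq hr hdim
  obtain ⟨C, hC0, hC⟩ := hR.total_compare hR' hdim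
  set Λ : ℕ := max χ.lam χ'.lam with hΛ
  have hΛ1 : χ.lam ≤ Λ := le_max_left _ _
  have hΛ2 : χ'.lam ≤ Λ := le_max_right _ _
  have hlow1 : ∀ N : ℕ, 4 ≤ N → ∀ j a b, InR (r * q) N j a b →
      -((Λ * N : ℕ) : ℤ) ≤ lw al be ga de N j a b := by
    intro N hN j a b h
    refine le_trans ?_ (hR.lower hD hq hr hN h)
    have : ((χ.lam * N : ℕ) : ℤ) ≤ ((Λ * N : ℕ) : ℤ) := by
      exact_mod_cast Nat.mul_le_mul_right N hΛ1
    push_cast at this ⊢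
    linarith
  have hlow2 : ∀ N : ℕ, 4 ≤ N → ∀ j a b, InR (r * q) N j a b →
      -((Λ * N : ℕ) : ℤ) ≤ lw al' be' ga' de' N j a b := by
    intro N hN j a b h
    refine le_trans ?_ (hR'.lower hD hq hr hN h)
    have : ((χ'.lam * N : ℕ) : ℤ) ≤ ((Λ * N : ℕ) : ℤ) := by
      exact_mod_cast Nat.mul_le_mul_right N hΛ2
    push_cast at this ⊢
    linarith
  obtain ⟨c, hc0, hc⟩ : ∃ c : ℝ, 0 ≤ c ∧ ∀ N : ℕ, 4 ≤ N → ∀ j a b l, InR (r * q) N j a b →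
      -((Λ * N : ℕ) : ℤ) < l →
      (l ≤ lw al be ga de N j a b ∨ l ≤ lw al' be' ga' de' N j a b) →
      |2 * ((l : ℝ) + ((Λ * N : ℕ) : ℤ)) - 1| ≤ c * N := by
    refine ⟨2 * ((40 * (r * q : ℕ) * (|(al : ℝ)| + |(be : ℝ)| + |(ga : ℝ)|) + |(de : ℝ)|) +
      (40 * (r * q : ℕ) * (|(al' : ℝ)| + |(be' : ℝ)| + |(ga' : ℝ)|) + |(de' : ℝ)|)) + 2 * Λ,
      by positivity, ?_⟩
    intro N hN j a b l hin h1 h2
    have h3 : (1 : ℝ) ≤ (l : ℝ) + ((Λ * N : ℕ) : ℤ) := by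
      have : 1 ≤ l + ((Λ * N : ℕ) : ℤ) := by omega
      exact_mod_cast this
    rw [abs_of_nonneg (by linarith)]
    have g1 := abs_lw_le al be ga de hin
    have g2 := abs_lw_le al' be' ga' de' hin
    have g3 := le_abs_self (lw al be ga de N j a b : ℝ)
    have g4 := le_abs_self (lw al' be' ga' de' N j a b : ℝ)
    have g5 := abs_nonneg (lw al be ga de N j a b : ℝ)
    have g6 := abs_nonneg (lw al' be' ga' de' N j a b : ℝ)
    have h4 : (l : ℝ) ≤ (40 * (r * q : ℕ) * (|(al : ℝ)| + |(be : ℝ)| + |(ga : ℝ)|) + |(de : ℝ)|) * N +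
      (40 * (r * q : ℕ) * (|(al' : ℝ)| + |(be' : ℝ)| + |(ga' : ℝ)|) + |(de' : ℝ)|) * N := by
      rcases h2 with h2 | h2
      · have : (l : ℝ) ≤ (lw al be ga de N j a b : ℝ) := by exact_mod_cast h2
        linarith
      · have : (l : ℝ) ≤ (lw al' be' ga' de' N j a b : ℝ) := by exact_mod_cast h2
        linarith
    push_cast at h4 ⊢
    linarith
  have hY' : (25 * (r * q) * ((al : ℝ) + be) + 2 * de -
      (25 * (r * q) * (al' + be') + 2 * de')) = 0 := by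
    have h : 25 * (r * q) * (al + be) + 2 * de - (25 * (r * q) * (al' + be') + 2 * de') = 0 := by
      linarith
    exact_mod_cast h
  -- the difference of the second moments
  have hdiff : ∀ N : ℕ, 4 ≤ N →
      |(((al : ℝ) ^ 2 + be ^ 2) - ((al' : ℝ) ^ 2 + be' ^ 2)) / 12 * χ.sA N +
        ((3 * ((al : ℝ) - be) + 2 * ga) ^ 2 - (3 * ((al' : ℝ) - be') + 2 * ga') ^ 2) / 4 * χ.sJ N|
        ≤ c * C * (N : ℝ) ^ 4 := by
    intro N hN
    have h1 := hC N hN Λ hΛ1 hΛ2 (fun l => 2 * ((l : ℝ) + ((Λ * N : ℕ) : ℤ)) - 1) (c * N)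
      (by positivity) (fun j a b l hin g1 g2 => hc N hN j a b l hin g1 g2)
    have e1 : ∑ j ∈ JJ (r * q) N, χ.vdim N j * ∑ a ∈ range (AA (r * q) N j + 1),
        ∑ b ∈ range (BB (r * q) N j + 1),
        (∑ l ∈ Ioc (-((Λ * N : ℕ) : ℤ)) (lw al be ga de N j a b),
          (2 * ((l : ℝ) + ((Λ * N : ℕ) : ℤ)) - 1) -
        ∑ l ∈ Ioc (-((Λ * N : ℕ) : ℤ)) (lw al' be' ga' de' N j a b),
          (2 * ((l : ℝ) + ((Λ * N : ℕ) : ℤ)) - 1)) =
        (((al : ℝ) ^ 2 + be ^ 2) - ((al' : ℝ) ^ 2 + be' ^ 2)) / 12 * χ.sA N +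
        ((3 * ((al : ℝ) - be) + 2 * ga) ^ 2 - (3 * ((al' : ℝ) - be') + 2 * ga') ^ 2) / 4 *
          χ.sJ N := by
      have e2 : ∀ j ∈ JJ (r * q) N, χ.vdim N j * ∑ a ∈ range (AA (r * q) N j + 1),
        ∑ b ∈ range (BB (r * q) N j + 1),
        (∑ l ∈ Ioc (-((Λ * N : ℕ) : ℤ)) (lw al be ga de N j a b),
          (2 * ((l : ℝ) + ((Λ * N : ℕ) : ℤ)) - 1) -
        ∑ l ∈ Ioc (-((Λ * N : ℕ) : ℤ)) (lw al' be' ga' de' N j a b),
          (2 * ((l : ℝ) + ((Λ * N : ℕ) : ℤ)) - 1)) =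
        ((al : ℝ) ^ 2 - al' ^ 2) / 12 * (χ.msz N j * (AA (r * q) N j * (AA (r * q) N j + 2))) +
        ((be : ℝ) ^ 2 - be' ^ 2) / 12 * (χ.msz N j * (BB (r * q) N j * (BB (r * q) N j + 2))) +
        ((3 * ((al : ℝ) - be) + 2 * ga) ^ 2 - (3 * ((al' : ℝ) - be') + 2 * ga') ^ 2) / 4 *
          (χ.msz N j * (j : ℝ) ^ 2) +
        ((3 * ((al : ℝ) - be) + 2 * ga) - (3 * ((al' : ℝ) - be') + 2 * ga')) *
          ((25 * (r * q) * ((al : ℝ) + be) + 2 * de) * N / 2 + ((Λ * N : ℕ) : ℤ)) *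
          (χ.msz N j * (j : ℝ)) := by
        intro j hj
        have e3 : ∑ a ∈ range (AA (r * q) N j + 1), ∑ b ∈ range (BB (r * q) N j + 1),
          (∑ l ∈ Ioc (-((Λ * N : ℕ) : ℤ)) (lw al be ga de N j a b),
            (2 * ((l : ℝ) + ((Λ * N : ℕ) : ℤ)) - 1) -
          ∑ l ∈ Ioc (-((Λ * N : ℕ) : ℤ)) (lw al' be' ga' de' N j a b),
            (2 * ((l : ℝ) + ((Λ * N : ℕ) : ℤ)) - 1)) =
          ∑ a ∈ range (AA (r * q) N j + 1), ∑ b ∈ range (BB (r * q) N j + 1),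
            ((al : ℝ) * a + be * b + (ga * j + de * N + ((Λ * N : ℕ) : ℤ))) *
            ((al : ℝ) * a + be * b + (ga * j + de * N + ((Λ * N : ℕ) : ℤ))) -
          ∑ a ∈ range (AA (r * q) N j + 1), ∑ b ∈ range (BB (r * q) N j + 1),
            ((al' : ℝ) * a + be' * b + (ga' * j + de' * N + ((Λ * N : ℕ) : ℤ))) *
            ((al' : ℝ) * a + be' * b + (ga' * j + de' * N + ((Λ * N : ℕ) : ℤ))) := by
          rw [← sum_sub_distrib]
          apply sum_congr rfl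
          intro a ha
          rw [← sum_sub_distrib]
          apply sum_congr rfl
          intro b hb
          have hin := forall_JJ hj ha hb
          rw [sum_Ioc_odd (hlow1 N hN j a b hin), sum_Ioc_odd (hlow2 N hN j a b hin), lw_real,
            lw_real]
          ring
        have e4 : (al : ℝ) * AA (r * q) N j / 2 + be * BB (r * q) N j / 2 +
            (ga * j + de * N + ((Λ * N : ℕ) : ℤ)) =
            (3 * ((al : ℝ) - be) + 2 * ga) / 2 * j +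
            ((25 * (r * q) * ((al : ℝ) + be) + 2 * de) * N / 2 + ((Λ * N : ℕ) : ℤ)) := by
          rw [AA_real hj, BB_real hj]
          push_cast
          ring
        have e5 : (al' : ℝ) * AA (r * q) N j / 2 + be' * BB (r * q) N j / 2 +
            (ga' * j + de' * N + ((Λ * N : ℕ) : ℤ)) =
            (3 * ((al' : ℝ) - be') + 2 * ga') / 2 * j +
            ((25 * (r * q) * ((al : ℝ) + be) + 2 * de) * N / 2 + ((Λ * N : ℕ) : ℤ)) := by
          rw [AA_real hj, BB_real hj]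
          push_cast
          linear_combination (-(N : ℝ) / 2) * hY'
        rw [e3, sum_bilin, sum_bilin, e4, e5]
        unfold msz
        ring
      rw [sum_congr rfl e2, sum_add_distrib, sum_add_distrib, sum_add_distrib, ← mul_sum,
        ← mul_sum, ← mul_sum, ← mul_sum, χ.sum_msz_odd hD hq hr hN, χ.sA_eq hD hq hr hN]
      unfold sA sJ
      ring
    rw [e1] at h1
    have h8 : c * N * C * (N : ℝ) ^ 3 = c * C * (N : ℝ) ^ 4 := by ring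
    rw [h8] at h1
    exact h1
  -- asymptotics
  set n : ℕ := r * q with hn
  have hn1 : (1 : ℝ) ≤ n := by exact_mod_cast Nat.mul_pos hr hq
  have ht1 : (1 : ℝ) ≤ T.t := by exact_mod_cast T.t_pos
  set u : ℝ := ((al : ℝ) ^ 2 + be ^ 2) - ((al' : ℝ) ^ 2 + be' ^ 2) with hu
  set v : ℝ := (3 * ((al : ℝ) - be) + 2 * ga) ^ 2 - (3 * ((al' : ℝ) - be') + 2 * ga') ^ 2 with hv
  have hzero : 36436184 * ((al ^ 2 + be ^ 2) - (al' ^ 2 + be' ^ 2)) +
      1006853 * ((3 * (al - be) + 2 * ga) ^ 2 - (3 * (al' - be') + 2 * ga') ^ 2) = 0 := by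
    apply int_eq_zero_of_bdd (C := 2 * (c * C + (|u| + |v|) * 10 ^ 9 * T.t * (n : ℝ) ^ 6))
    intro N hN
    have hN4 : (4 : ℝ) ≤ N := by exact_mod_cast hN
    have h1 := hdiff N hN
    rw [χ.sA_eq' hD hq hr hN, χ.s0_eq hD hq hr hN, χ.sJ_eq hD hq hr hN, ← hn] at h1
    set z : ℝ := (n : ℝ) * N with hz
    have hz1 : 1 ≤ z := one_le_mul_of_one_le_of_one_le hn1 (by linarith only [hN4])
    have hcast : ((36436184 * ((al ^ 2 + be ^ 2) - (al' ^ 2 + be' ^ 2)) +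
      1006853 * ((3 * (al - be) + 2 * ga) ^ 2 - (3 * (al' - be') + 2 * ga') ^ 2) : ℤ) : ℝ) =
      36436184 * u + 1006853 * v := by
      rw [hu, hv]
      push_cast
      ring
    rw [hcast]
    set g : ℝ := 36436184 * u + 1006853 * v with hg
    -- main term and remainder
    have e1 : u / 12 * ((625 * z ^ 2 + 50 * z) * (T.t * (534650 * z ^ 4 - 5625 * z ^ 2 -
        400 * z - 9)) + 9 * (T.t * (10068530 / 3 * z ^ 6 + 32500 / 3 * z ^ 5 - 151625 * z ^ 4 -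
        64750 / 3 * z ^ 3 - 5735 / 3 * z ^ 2 - 42 * z))) +
        v / 4 * (T.t * (10068530 / 3 * z ^ 6 + 32500 / 3 * z ^ 5 - 151625 * z ^ 4 -
        64750 / 3 * z ^ 3 - 5735 / 3 * z ^ 2 - 42 * z)) =
        5 / 6 * T.t * g * z ^ 6 + T.t * (u * (26830000 * z ^ 5 - 4880250 * z ^ 4 - 725500 * z ^ 3 -
          42830 * z ^ 2 - 828 * z) / 12 + v * (32500 / 3 * z ^ 5 - 151625 * z ^ 4 -
          64750 / 3 * z ^ 3 - 5735 / 3 * z ^ 2 - 42 * z) / 4) := by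
      rw [hg]
      ring
    rw [e1] at h1
    have b1 := poly_b1 hz1
    have b2 := poly_b2 hz1
    have b3 : |T.t * (u * (26830000 * z ^ 5 - 4880250 * z ^ 4 - 725500 * z ^ 3 -
          42830 * z ^ 2 - 828 * z) / 12 + v * (32500 / 3 * z ^ 5 - 151625 * z ^ 4 -
          64750 / 3 * z ^ 3 - 5735 / 3 * z ^ 2 - 42 * z) / 4)| ≤
          T.t * ((|u| + |v|) * (10 ^ 8 * z ^ 5)) := by
      rw [abs_mul, Nat.abs_cast]
      apply mul_le_mul_of_nonneg_left _ (by positivity)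
      calc _ ≤ |u * (26830000 * z ^ 5 - 4880250 * z ^ 4 - 725500 * z ^ 3 -
          42830 * z ^ 2 - 828 * z) / 12| + |v * (32500 / 3 * z ^ 5 - 151625 * z ^ 4 -
          64750 / 3 * z ^ 3 - 5735 / 3 * z ^ 2 - 42 * z) / 4| := abs_add_le _ _
        _ ≤ |u| * (10 ^ 8 * z ^ 5) + |v| * (10 ^ 8 * z ^ 5) := by
          rw [mul_div_assoc, mul_div_assoc, abs_mul, abs_mul]
          exact add_le_add (mul_le_mul_of_nonneg_left b1 (abs_nonneg _))
            (mul_le_mul_of_nonneg_left b2 (abs_nonneg _))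
        _ = _ := by ring
    have b4 : |5 / 6 * T.t * g * z ^ 6| ≤ c * C * (N : ℝ) ^ 4 +
        T.t * ((|u| + |v|) * (10 ^ 8 * z ^ 5)) := by
      have h9 := abs_sub (5 / 6 * T.t * g * z ^ 6 + T.t * (u * (26830000 * z ^ 5 -
          4880250 * z ^ 4 - 725500 * z ^ 3 -
          42830 * z ^ 2 - 828 * z) / 12 + v * (32500 / 3 * z ^ 5 - 151625 * z ^ 4 -
          64750 / 3 * z ^ 3 - 5735 / 3 * z ^ 2 - 42 * z) / 4)) (T.t * (u * (26830000 * z ^ 5 -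
          4880250 * z ^ 4 - 725500 * z ^ 3 -
          42830 * z ^ 2 - 828 * z) / 12 + v * (32500 / 3 * z ^ 5 - 151625 * z ^ 4 -
          64750 / 3 * z ^ 3 - 5735 / 3 * z ^ 2 - 42 * z) / 4))
      rw [add_sub_cancel_right] at h9
      linarith only [h9, h1, b3]
    have e2 : |5 / 6 * T.t * g * z ^ 6| = 5 / 6 * T.t * |g| * z ^ 6 := by
      rw [abs_mul, abs_mul, abs_mul, Nat.abs_cast, abs_of_nonneg (by positivity : 0 ≤ z ^ 6),
        abs_of_nonneg (by norm_num : (0 : ℝ) ≤ 5 / 6)]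
    rw [e2] at b4
    -- divide by `N ^ 5`
    have hzN : z ^ 5 = (n : ℝ) ^ 5 * (N : ℝ) ^ 5 := by rw [hz, mul_pow]
    have hz6 : (N : ℝ) ^ 6 ≤ z ^ 6 := by
      apply pow_le_pow_left₀ (by positivity)
      rw [hz]
      exact le_mul_of_one_le_left (by linarith only [hN4]) hn1
    have hg0 := abs_nonneg g
    have b5 : 5 / 6 * |g| * (N : ℝ) ^ 6 ≤ 5 / 6 * T.t * |g| * z ^ 6 := by
      have : 5 / 6 * |g| * (N : ℝ) ^ 6 ≤ 5 / 6 * |g| * z ^ 6 :=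
        mul_le_mul_of_nonneg_left hz6 (by positivity)
      have h10 : 5 / 6 * |g| * z ^ 6 * 1 ≤ 5 / 6 * |g| * z ^ 6 * T.t :=
        mul_le_mul_of_nonneg_left ht1 (by positivity)
      linarith only [this, h10]
    have hn5 : (n : ℝ) ^ 5 ≤ (n : ℝ) ^ 6 := pow_le_pow_right₀ hn1 (by norm_num)
    have b6 : T.t * ((|u| + |v|) * (10 ^ 8 * z ^ 5)) ≤
        (|u| + |v|) * 10 ^ 8 * T.t * (n : ℝ) ^ 6 * (N : ℝ) ^ 5 := by
      rw [hzN]
      have : (|u| + |v|) * 10 ^ 8 * T.t * (N : ℝ) ^ 5 * (n : ℝ) ^ 5 ≤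
        (|u| + |v|) * 10 ^ 8 * T.t * (N : ℝ) ^ 5 * (n : ℝ) ^ 6 :=
        mul_le_mul_of_nonneg_left hn5 (by positivity)
      linarith only [this]
    have b7 : c * C * (N : ℝ) ^ 4 ≤ c * C * (N : ℝ) ^ 5 := by
      apply mul_le_mul_of_nonneg_left _ (by positivity)
      exact pow_le_pow_right₀ (by linarith) (by norm_num)
    have b8 : 5 / 6 * |g| * N * (N : ℝ) ^ 5 ≤
        (c * C + (|u| + |v|) * 10 ^ 8 * T.t * (n : ℝ) ^ 6) * (N : ℝ) ^ 5 := by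
      have e : 5 / 6 * |g| * N * (N : ℝ) ^ 5 = 5 / 6 * |g| * (N : ℝ) ^ 6 := by ring
      rw [e]
      linarith only [b4, b5, b6, b7]
    have b9 : 5 / 6 * |g| * N ≤ c * C + (|u| + |v|) * 10 ^ 8 * T.t * (n : ℝ) ^ 6 :=
      le_of_mul_le_mul_right b8 (by positivity)
    have b10 : (0 : ℝ) ≤ (|u| + |v|) * 10 ^ 8 * T.t * (n : ℝ) ^ 6 := by positivity
    have b11 : (0 : ℝ) ≤ c * C := by positivity
    linarith only [b9, b10, b11]
  linarith

end Filt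

end Pool.Agent.YTD
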