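import Pool.Agent.YTD.RigidRange

/-!
Comparison of the order `wx` with the orders in which small `j` come first.
-/

namespace Pool.Agent.YTD

open Module Finset MvPolynomial

variable {K : Type} [Field K] [Algebra ℂ K]
variable {T : Datum K} {q : ℕ} {D₀ : T.X.Pt →₀ ℤ} {r : ℕ}

namespace Filt

/-- Greedy inequality for two orders. -/
theorem Rigid.greedy_two {χ : Filt T q D₀ r} {m m' : MonomialOrder (Fin 4)}
    {al be ga de al' be' ga' de' : ℤ} (hR : χ.Rigid m al be ga de)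
    (hR' : χ.Rigid m' al' be' ga' de')
    (hD : T.X.deg D₀ = 105 * T.t * q) (hq : 0 < q) (hr : 0 < r)
    {w : ℕ → (Fin 4 →₀ ℕ) → ℕ} (hm : ∀ N, 4 ≤ N → Refines m (w N) (Eset (r * q) N))
    {B : ℝ} (hB : ∀ N, 4 ≤ N → ∀ j a b, InR (r * q) N j a b →
      (w N (expo (r * q) N j a b) : ℝ) ≤ B * N) :
    ∃ C : ℝ, 0 ≤ C ∧ ∀ N : ℕ, 4 ≤ N → -(C * (N : ℝ) ^ 4) ≤
      ∑ j ∈ JJ (r * q) N, χ.vdim N j * ∑ a ∈ range (AA (r * q) N j + 1),
      ∑ b ∈ range (BB (r * q) N j + 1), (w N (expo (r * q) N j a b) : ℝ) *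
        ((lw al be ga de N j a b : ℝ) - (lw al' be' ga' de' N j a b : ℝ)) := by
  obtain ⟨C, hC0, hC⟩ := hR.moment
  obtain ⟨C', hC0', hC'⟩ := hR'.moment
  refine ⟨max B 0 * (C + C'), by positivity, ?_⟩
  intro N hN
  have hφ : ∀ j a b, InR (r * q) N j a b →
      |(w N (expo (r * q) N j a b) : ℝ)| ≤ max B 0 * N := by
    intro j a b h
    rw [Nat.abs_cast]
    exact (hB N hN j a b h).trans (mul_le_mul_of_nonneg_right (le_max_left _ _) (by positivity))
  have h1 := hC N hN χ.lam le_rfl (fun j a b _ => (w N (expo (r * q) N j a b) : ℝ))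
    (max B 0 * N) (by positivity) (fun j a b l h _ _ => hφ j a b h)
  have h1' := hC' N hN χ.lam le_rfl (fun j a b _ => (w N (expo (r * q) N j a b) : ℝ))
    (max B 0 * N) (by positivity) (fun j a b l h _ _ => hφ j a b h)
  have h2 : ∀ l : ℤ, ∑ j ∈ JJ (r * q) N, ∑ a ∈ range (AA (r * q) N j + 1),
      ∑ b ∈ range (BB (r * q) N j + 1),
      (w N (expo (r * q) N j a b) : ℝ) * χ.idim m' N l j a b ≤
      ∑ j ∈ JJ (r * q) N, ∑ a ∈ range (AA (r * q) N j + 1),
      ∑ b ∈ range (BB (r * q) N j + 1),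
      (w N (expo (r * q) N j a b) : ℝ) * χ.idim m N l j a b := by
    intro l
    have h3 := greedy' m m' (χ.finite_F N l) (χ.finite_F N l) (hm N hN) χ.F_exp χ.F_exp rfl
      (fun c => le_rfl)
    have h4 : ((∑ e ∈ Eset (r * q) N, w N e * finrank ℂ (ini m' (χ.F N l) e) : ℕ) : ℝ) ≤
        ((∑ e ∈ Eset (r * q) N, w N e * finrank ℂ (ini m (χ.F N l) e) : ℕ) : ℝ) := by
      exact_mod_cast h3
    push_cast at h4
    rw [χ.sum_Eset_idim m N l (fun e => (w N e : ℝ)),
      χ.sum_Eset_idim m' N l (fun e => (w N e : ℝ))] at h4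
    exact h4
  have hcomm : ∀ d : ℤ → ℤ → ℕ → ℕ → ℝ, ∑ j ∈ JJ (r * q) N, ∑ a ∈ range (AA (r * q) N j + 1),
      ∑ b ∈ range (BB (r * q) N j + 1),
      ∑ l ∈ Ioc (-((χ.lam * N : ℕ) : ℤ)) ((χ.lam * N : ℕ) : ℤ), d l j a b =
      ∑ l ∈ Ioc (-((χ.lam * N : ℕ) : ℤ)) ((χ.lam * N : ℕ) : ℤ),
        ∑ j ∈ JJ (r * q) N, ∑ a ∈ range (AA (r * q) N j + 1),
        ∑ b ∈ range (BB (r * q) N j + 1), d l j a b := by
    intro d
    symm
    rw [sum_comm]
    apply sum_congr rfl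
    intro j _
    rw [sum_comm]
    apply sum_congr rfl
    intro a _
    rw [sum_comm]
  have h5 : ∑ j ∈ JJ (r * q) N, ∑ a ∈ range (AA (r * q) N j + 1),
      ∑ b ∈ range (BB (r * q) N j + 1),
      ∑ l ∈ Ioc (-((χ.lam * N : ℕ) : ℤ)) ((χ.lam * N : ℕ) : ℤ),
      (w N (expo (r * q) N j a b) : ℝ) * χ.idim m' N l j a b ≤
      ∑ j ∈ JJ (r * q) N, ∑ a ∈ range (AA (r * q) N j + 1),
      ∑ b ∈ range (BB (r * q) N j + 1),
      ∑ l ∈ Ioc (-((χ.lam * N : ℕ) : ℤ)) ((χ.lam * N : ℕ) : ℤ),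
      (w N (expo (r * q) N j a b) : ℝ) * χ.idim m N l j a b := by
    rw [hcomm (fun l j a b => (w N (expo (r * q) N j a b) : ℝ) * χ.idim m' N l j a b),
      hcomm (fun l j a b => (w N (expo (r * q) N j a b) : ℝ) * χ.idim m N l j a b)]
    exact sum_le_sum fun l _ => h2 l
  have e2 : ∀ {al be ga de : ℤ}, (∀ j a b, InR (r * q) N j a b →
      -((χ.lam : ℤ) * N) ≤ lw al be ga de N j a b) →
      ∑ j ∈ JJ (r * q) N, ∑ a ∈ range (AA (r * q) N j + 1),
      ∑ b ∈ range (BB (r * q) N j + 1), χ.vdim N j *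
      ∑ _l ∈ Ioc (-((χ.lam * N : ℕ) : ℤ)) (lw al be ga de N j a b),
        (w N (expo (r * q) N j a b) : ℝ) =
      ∑ j ∈ JJ (r * q) N, χ.vdim N j * ∑ a ∈ range (AA (r * q) N j + 1),
      ∑ b ∈ range (BB (r * q) N j + 1), (w N (expo (r * q) N j a b) : ℝ) *
        ((lw al be ga de N j a b : ℝ) + ((χ.lam * N : ℕ) : ℤ)) := by
    intro al be ga de hlow
    apply sum_congr rfl
    intro j hj
    rw [mul_sum]
    apply sum_congr rfl
    intro a ha
    rw [mul_sum]
    apply sum_congr rfl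
    intro b hb
    have h6 := sum_Ioc_one (c := ((χ.lam * N : ℕ) : ℤ)) (L := lw al be ga de N j a b) (by
      have := hlow j a b (forall_JJ hj ha hb)
      push_cast
      linarith)
    rw [← h6, mul_sum]
    simp
    ring
  have h7 := (abs_le.1 ((abs_sum_le_sum_abs _ _).trans h1)).1
  have h7' := (abs_le.1 ((abs_sum_le_sum_abs _ _).trans h1')).2
  simp only [sum_sub_distrib] at h7 h7'
  rw [e2 (fun j a b h => hR.lower hD hq hr hN h)] at h7
  rw [e2 (fun j a b h => hR'.lower hD hq hr hN h)] at h7'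
  have e3 : ∑ j ∈ JJ (r * q) N, χ.vdim N j * ∑ a ∈ range (AA (r * q) N j + 1),
      ∑ b ∈ range (BB (r * q) N j + 1), (w N (expo (r * q) N j a b) : ℝ) *
        ((lw al be ga de N j a b : ℝ) - (lw al' be' ga' de' N j a b : ℝ)) =
      ∑ j ∈ JJ (r * q) N, χ.vdim N j * ∑ a ∈ range (AA (r * q) N j + 1),
      ∑ b ∈ range (BB (r * q) N j + 1), (w N (expo (r * q) N j a b) : ℝ) *
        ((lw al be ga de N j a b : ℝ) + ((χ.lam * N : ℕ) : ℤ)) -
      ∑ j ∈ JJ (r * q) N, χ.vdim N j * ∑ a ∈ range (AA (r * q) N j + 1),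
      ∑ b ∈ range (BB (r * q) N j + 1), (w N (expo (r * q) N j a b) : ℝ) *
        ((lw al' be' ga' de' N j a b : ℝ) + ((χ.lam * N : ℕ) : ℤ)) := by
    rw [← sum_sub_distrib]
    apply sum_congr rfl
    intro j _
    rw [← mul_sub, ← sum_sub_distrib]
    congr 1
    apply sum_congr rfl
    intro a _
    rw [← sum_sub_distrib]
    apply sum_congr rfl
    intro b _
    ring
  rw [e3]
  have h8 : max B 0 * (C + C') * (N : ℝ) ^ 4 =
      max B 0 * N * C * (N : ℝ) ^ 3 + max B 0 * N * C' * (N : ℝ) ^ 3 := by ring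
  rw [h8]
  linarith

theorem le_sJ (χ : Filt T q D₀ r) (hD : T.X.deg D₀ = 105 * T.t * q) (hq : 0 < q) (hr : 0 < r)
    {N : ℕ} (hN : 4 ≤ N) : 2500 * (N : ℝ) ^ 5 ≤ χ.sJ N := by
  have h5 : (5 * ((r * q : ℕ) : ℤ) * N) ∈ JJ (r * q) N := by
    rw [mem_JJ, abs_of_nonneg (by positivity)]
  refine le_trans ?_ (single_le_sum (f := fun j => χ.msz N j * (j : ℝ) ^ 2)
    (fun j _ => mul_nonneg (χ.msz_nonneg N j) (by positivity)) h5)
  have h1 := χ.le_msz hD hq hr hN h5
  have hrq : (1 : ℝ) ≤ (r * q : ℕ) := by exact_mod_cast Nat.mul_pos hr hq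
  have h2 : (5 * (N : ℝ)) ≤ ((5 * ((r * q : ℕ) : ℤ) * N : ℤ) : ℝ) := by
    push_cast
    push_cast at hrq
    have : (5 : ℝ) * N * 1 ≤ 5 * N * (r * q) :=
      mul_le_mul_of_nonneg_left hrq (by positivity)
    linarith
  calc 2500 * (N : ℝ) ^ 5 = 100 * (N : ℝ) ^ 3 * (5 * N) ^ 2 := by ring
    _ ≤ _ := by
        apply mul_le_mul h1 _ (by positivity) (χ.msz_nonneg N _)
        exact pow_le_pow_left₀ (by positivity) h2 2

/-- the arithmetic of the comparison. -/
theorem wx_arith {p u X s : ℤ} (hp : 0 ≤ p) (hu : 0 ≤ u)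
    (h1 : 8 * p + 2 * u + |X| ≤ 2 * s) (h2 : 2 * p + 8 * u + |X| ≤ 2 * s)
    (h3 : 36436184 * (p ^ 2 + u ^ 2) + 1006853 * X ^ 2 = 1006853 * (4 * s ^ 2)) :
    p = 0 ∧ u = 0 := by
  have hX := abs_nonneg X
  have hX2 : X ^ 2 = |X| ^ 2 := (sq_abs X).symm
  rw [hX2] at h3
  generalize |X| = Y at h1 h2 h3 hX
  have h4 : (8 * p + 2 * u + Y) ^ 2 ≤ (2 * s) ^ 2 := by
    apply pow_le_pow_left₀ (by positivity) h1
  have h5 : (2 * p + 8 * u + Y) ^ 2 ≤ (2 * s) ^ 2 := by
    apply pow_le_pow_left₀ (by positivity) h2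
  have hpY : 0 ≤ p * Y := by positivity
  have huY : 0 ≤ u * Y := by positivity
  have hpu : 0 ≤ p * u := by positivity
  rcases le_total u p with h | h
  · have h6 : u * u ≤ p * u := mul_le_mul_of_nonneg_right h hu
    have h7 : p ^ 2 ≤ 0 := by nlinarith
    have h8 : p = 0 := by
      have : p ^ 2 = 0 := le_antisymm h7 (by positivity)
      exact pow_eq_zero_iff (by norm_num) |>.1 this
    exact ⟨h8, by linarith⟩
  · have h6 : p * p ≤ p * u := mul_le_mul_of_nonneg_left h hp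
    have h7 : u ^ 2 ≤ 0 := by nlinarith
    have h8 : u = 0 := by
      have : u ^ 2 = 0 := le_antisymm h7 (by positivity)
      exact pow_eq_zero_iff (by norm_num) |>.1 this
    exact ⟨by linarith, h8⟩

/-- The linear form at the vertices. -/
theorem vertex_le {Q : ℕ} (hQ : 0 < Q) {al be ga de c M : ℤ}
    (hmean : 25 * Q * (al + be) + 2 * de = 2 * c)
    (h : ∀ N j a b, InR Q N j a b → lw al be ga de N j a b ≤ (5 * Q * M + c) * N) :
    8 * |al| + 2 * |be| + (3 * (al - be) + 2 * ga) ≤ 2 * M ∧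
    2 * |al| + 8 * |be| - (3 * (al - be) + 2 * ga) ≤ 2 * M := by
  have hQ' : (0 : ℤ) < Q := by exact_mod_cast hQ
  have key : ∀ (ε : ℤ) (A B : ℕ), (ε = 1 ∨ ε = -1) → (A : ℤ) = 25 * Q + 15 * ε * Q →
      (B : ℤ) = 25 * Q - 15 * ε * Q →
      |al| * A + |be| * B + (3 * (al - be) + 2 * ga) * (5 * ε * Q) ≤ 10 * Q * M := by
    intro ε A B hε hA hB
    have hin : ∀ a b : ℕ, a ≤ A → b ≤ B → InR Q 1 (5 * ε * Q) a b := by
      intro a b ha hb
      have ha' : (a : ℤ) ≤ A := by exact_mod_cast ha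
      have hb' : (b : ℤ) ≤ B := by exact_mod_cast hb
      refine ⟨?_, ?_, ?_⟩
      · rcases hε with rfl | rfl
        · rw [abs_of_nonneg (by positivity)]
          push_cast
          linarith
        · rw [abs_of_nonpos (by linarith)]
          push_cast
          linarith
      · push_cast
        linarith
      · push_cast
        linarith
    have h1 := h 1 (5 * ε * Q) (if 0 ≤ al then A else 0) (if 0 ≤ be then B else 0)
      (hin _ _ (by split_ifs <;> omega) (by split_ifs <;> omega))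
    have ea : 2 * al * ((if 0 ≤ al then A else 0 : ℕ) : ℤ) = |al| * A + al * A := by
      split_ifs with h2
      · rw [abs_of_nonneg h2]
        ring
      · rw [abs_of_neg (not_le.1 h2)]
        push_cast
        ring
    have eb : 2 * be * ((if 0 ≤ be then B else 0 : ℕ) : ℤ) = |be| * B + be * B := by
      split_ifs with h2
      · rw [abs_of_nonneg h2]
        ring
      · rw [abs_of_neg (not_le.1 h2)]
        push_cast
        ring
    unfold lw at h1
    have h3 : 2 * al * ((if 0 ≤ al then A else 0 : ℕ) : ℤ) +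
        2 * be * ((if 0 ≤ be then B else 0 : ℕ) : ℤ) + 2 * ga * (5 * ε * Q) + 2 * de ≤
        2 * (5 * Q * M + c) := by
      rw [Nat.cast_one, mul_one, mul_one] at h1
      linarith
    rw [ea, eb] at h3
    have h4 : al * (A : ℤ) = al * (25 * Q + 15 * ε * Q) := by rw [hA]
    have h5 : be * (B : ℤ) = be * (25 * Q - 15 * ε * Q) := by rw [hB]
    rw [h4, h5] at h3
    linarith
  have hA1 : (((40 * Q : ℕ)) : ℤ) = 25 * Q + 15 * 1 * Q := by push_cast; ring
  have hB1 : (((10 * Q : ℕ)) : ℤ) = 25 * Q - 15 * 1 * Q := by push_cast; ring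
  have hA2 : (((10 * Q : ℕ)) : ℤ) = 25 * Q + 15 * (-1) * Q := by push_cast; ring
  have hB2 : (((40 * Q : ℕ)) : ℤ) = 25 * Q - 15 * (-1) * Q := by push_cast; ring
  have k1 := key 1 (40 * Q) (10 * Q) (Or.inl rfl) hA1 hB1
  have k2 := key (-1) (10 * Q) (40 * Q) (Or.inr rfl) hA2 hB2
  push_cast at k1 k2
  constructor
  · have : (5 * (Q : ℤ)) * (8 * |al| + 2 * |be| + (3 * (al - be) + 2 * ga)) ≤ 5 * Q * (2 * M) := by
      linarith
    exact le_of_mul_le_mul_left this (by positivity)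
  · have : (5 * (Q : ℤ)) * (2 * |al| + 8 * |be| - (3 * (al - be) + 2 * ga)) ≤ 5 * Q * (2 * M) := by
      linarith
    exact le_of_mul_le_mul_left this (by positivity)

/-- the weight `3 (j - e₀) + 125 q N`. -/
def wxw (e : Fin 4 →₀ ℕ) : ℕ := 3 * e 1 + 2 * e 2 + 2 * e 3

/-- Any order can only be one of `± s j + c`. -/
theorem Rigid.slope_eq {χ χ' : Filt T q D₀ r} {m m' : MonomialOrder (Fin 4)}
    {al be ga de s c : ℤ} (hR : χ.Rigid m al be ga de) (hR' : χ'.Rigid m' 0 0 (-s) c)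
    (hs : 0 ≤ s) (hD : T.X.deg D₀ = 105 * T.t * q) (hq : 0 < q) (hr : 0 < r)
    (hdim : ∀ N : ℕ, 4 ≤ N → ∀ l : ℤ, finrank ℂ (χ.F N l) = finrank ℂ (χ'.F N l)) :
    al = 0 ∧ be = 0 ∧ de = c ∧ (ga = s ∨ ga = -s) := by
  have hrq : 0 < r * q := Nat.mul_pos hr hq
  have hmean := hR.total_mean hR' hD hq hr hdim
  have hsec := hR.total_second hR' hD hq hr hdim
  have hmean' : 25 * ((r * q : ℕ) : ℤ) * (al + be) + 2 * de = 2 * c := by
    push_cast
    linarith
  have hmax : ∀ N j a b, InR (r * q) N j a b →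
      lw al be ga de N j a b ≤ (5 * (r * q : ℕ) * s + c) * N := by
    intro N j a b h
    apply hR.max_le hR' hD hq hr hdim _ h
    intro N j a b h
    have h1 := h.1
    rw [abs_le] at h1
    unfold lw
    have h2 : s * (-j) ≤ s * (5 * (r * q : ℕ) * N) := mul_le_mul_of_nonneg_left (by linarith) hs
    linarith
  have hmin : ∀ N j a b, InR (r * q) N j a b →
      (-(5 * (r * q : ℕ) * s) + c) * N ≤ lw al be ga de N j a b := by
    intro N j a b h
    apply hR.min_le hR' hD hq hr hdim _ h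
    intro N j a b h
    have h1 := h.1
    rw [abs_le] at h1
    unfold lw
    have h2 : s * j ≤ s * (5 * (r * q : ℕ) * N) := mul_le_mul_of_nonneg_left (by linarith) hs
    linarith
  have v1 := vertex_le hrq hmean' hmax
  have v2 := vertex_le hrq (al := -al) (be := -be) (ga := -ga) (de := -de) (c := -c) (M := s)
    (by linarith) (by
      intro N j a b h
      have h1 := hmin N j a b h
      unfold lw at h1 ⊢
      linarith)
  rw [abs_neg, abs_neg] at v2
  have hX1 : 8 * |al| + 2 * |be| + |3 * (al - be) + 2 * ga| ≤ 2 * s := by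
    rcases abs_cases (3 * (al - be) + 2 * ga) with ⟨h, _⟩ | ⟨h, _⟩
    · rw [h]
      linarith [v1.1]
    · rw [h]
      linarith [v2.1]
  have hX2 : 2 * |al| + 8 * |be| + |3 * (al - be) + 2 * ga| ≤ 2 * s := by
    rcases abs_cases (3 * (al - be) + 2 * ga) with ⟨h, _⟩ | ⟨h, _⟩
    · rw [h]
      linarith [v2.2]
    · rw [h]
      linarith [v1.2]
  obtain ⟨ha, hb⟩ := wx_arith (abs_nonneg al) (abs_nonneg be) hX1 hX2 (by
    rw [sq_abs, sq_abs, hsec]
    ring)
  rw [abs_eq_zero] at ha hb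
  subst ha hb
  refine ⟨rfl, rfl, by linarith, ?_⟩
  have h1 : ga ^ 2 = s ^ 2 := by linarith
  exact sq_eq_sq_iff_eq_or_eq_neg.1 h1

/-- For an order refining the weight `wxw`, the filtration is described by the same linear form
as for the orders in which small `j` come first. -/
theorem Rigid.wx_eq {χ : Filt T q D₀ r} {m m' : MonomialOrder (Fin 4)}
    {al be ga de s c : ℤ} (hR : χ.Rigid m al be ga de) (hR' : χ.Rigid m' 0 0 (-s) c)
    (hs : 0 ≤ s) (hD : T.X.deg D₀ = 105 * T.t * q) (hq : 0 < q) (hr : 0 < r)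
    (hm : ∀ N, 4 ≤ N → Refines m wxw (Eset (r * q) N)) :
    al = 0 ∧ be = 0 ∧ ga = -s ∧ de = c := by
  obtain ⟨rfl, rfl, rfl, h⟩ := hR.slope_eq hR' hs hD hq hr (fun _ _ _ => rfl)
  refine ⟨rfl, rfl, ?_, rfl⟩
  rcases h with rfl | h
  swap
  · exact h
  obtain ⟨C, hC0, hC⟩ := hR.greedy_two hR' hD hq hr (w := fun _ => wxw) hm
    (B := 140 * (r * q : ℕ)) (by
      intro N hN j a b h
      have h1 := (inR_iff h.1).1 h
      have hj := mem_JJ.2 h.1
      have hj' : |(j : ℝ)| ≤ 5 * (r * q : ℕ) * N := by exact_mod_cast h.1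
      rw [abs_le] at hj'
      have ha : (a : ℝ) ≤ AA (r * q) N j := by exact_mod_cast h1.1
      unfold wxw
      rw [expo_1, expo_2, expo_3]
      push_cast [Nat.cast_sub h1.2]
      rw [AA_real hj] at ha
      rw [BB_real hj]
      push_cast at ha hj' ⊢
      linarith)
  have hval : ∀ N : ℕ, 4 ≤ N → ∑ j ∈ JJ (r * q) N, χ.vdim N j *
      ∑ a ∈ range (AA (r * q) N j + 1),
      ∑ b ∈ range (BB (r * q) N j + 1), (wxw (expo (r * q) N j a b) : ℝ) *
        ((lw 0 0 ga de N j a b : ℝ) - (lw 0 0 (-ga) de N j a b : ℝ)) = -(3 * ga * χ.sJ N) := by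
    intro N hN
    have e1 : ∀ j ∈ JJ (r * q) N, χ.vdim N j * ∑ a ∈ range (AA (r * q) N j + 1),
      ∑ b ∈ range (BB (r * q) N j + 1), (wxw (expo (r * q) N j a b) : ℝ) *
        ((lw 0 0 ga de N j a b : ℝ) - (lw 0 0 (-ga) de N j a b : ℝ)) =
        -(3 * ga) * (χ.msz N j * (j : ℝ) ^ 2) +
          (175 * (r * q : ℕ) * N * ga) * (χ.msz N j * (j : ℝ)) := by
      intro j hj
      have e2 : ∑ a ∈ range (AA (r * q) N j + 1), ∑ b ∈ range (BB (r * q) N j + 1),
        (wxw (expo (r * q) N j a b) : ℝ) *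
        ((lw 0 0 ga de N j a b : ℝ) - (lw 0 0 (-ga) de N j a b : ℝ)) =
        ∑ a ∈ range (AA (r * q) N j + 1), ∑ b ∈ range (BB (r * q) N j + 1),
        ((6 * ga * j : ℝ) * a + 0 * b + 4 * BB (r * q) N j * ga * j) := by
        apply sum_congr rfl
        intro a ha
        apply sum_congr rfl
        intro b hb
        have hin := forall_JJ hj ha hb
        have h1 := (inR_iff hin.1).1 hin
        unfold wxw lw
        rw [expo_1, expo_2, expo_3]
        push_cast [Nat.cast_sub h1.2]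
        ring
      rw [e2, sum_lin]
      unfold msz
      rw [AA_real hj, BB_real hj]
      ring
    rw [sum_congr rfl e1, sum_add_distrib, ← mul_sum, ← mul_sum, χ.sum_msz_odd hD hq hr hN]
    unfold sJ
    ring
  have hga : ga = 0 := by
    apply int_eq_zero_of_bdd (C := C)
    intro N hN
    have h1 := hC N hN
    rw [hval N hN] at h1
    have h2 := χ.le_sJ hD hq hr hN
    have hg0 : (0 : ℝ) ≤ ga := by exact_mod_cast hs
    rw [abs_of_nonneg hg0]
    have hNpos : (0 : ℝ) < N := by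
      have : (4 : ℝ) ≤ N := by exact_mod_cast hN
      linarith
    have h3 : ga * (2500 * (N : ℝ) ^ 5) ≤ ga * χ.sJ N := mul_le_mul_of_nonneg_left h2 hg0
    have h4 : ga * (N : ℝ) * (N : ℝ) ^ 4 ≤ C * (N : ℝ) ^ 4 := by
      have h5 : 0 ≤ ga * (N : ℝ) ^ 5 := by positivity
      have h6 : ga * (N : ℝ) * (N : ℝ) ^ 4 = ga * (N : ℝ) ^ 5 := by ring
      rw [h6]
      linarith
    exact le_of_mul_le_mul_right h4 (by positivity)
  rw [hga]
  rfl

end Filt

end Pool.Agent.YTD
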