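import Pool.Agent.YTD.SatDef

/-!
Basic properties of the sheaf generated by a space of sections.
-/

namespace Pool.Agent.YTD

open Finset Module MvPolynomial Filter

namespace CurveOrd

variable {K : Type} [Field K] [Algebra ℂ K] (X : CurveOrd K)
variable {V : Type} [AddCommGroup V] [Module K V] [Module ℂ V]

theorem smul_mem_loc {P : X.Pt} {U : Submodule ℂ V} {z : K} (hz : z ≠ 0 → 0 ≤ X.ord P z) {f : V}
    (hf : f ∈ X.loc P U) : z • f ∈ X.loc P U :=
  (X.loc P U).smul_mem (⟨z, hz⟩ : X.OO P) hf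

theorem mem_loc (P : X.Pt) {U : Submodule ℂ V} {f : V} (hf : f ∈ U) : f ∈ X.loc P U :=
  Submodule.subset_span hf

theorem loc_mono (P : X.Pt) {U U' : Submodule ℂ V} (h : U ≤ U') : X.loc P U ≤ X.loc P U' :=
  Submodule.span_mono h

/-- The local ring is local. -/
instance OO_isLocalRing (P : X.Pt) : IsLocalRing (X.OO P) := by
  apply IsLocalRing.of_isUnit_or_isUnit_one_sub_self
  have unit : ∀ a : X.OO P, (a : K) ≠ 0 → X.ord P (a : K) = 0 → IsUnit a := by
    intro a ha h
    refine ⟨⟨a, ⟨(a : K)⁻¹, ?_⟩, ?_, ?_⟩, rfl⟩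
    · intro _
      rw [X.ord_inv P ha, h, neg_zero]
    · apply Subtype.ext
      exact mul_inv_cancel₀ ha
    · apply Subtype.ext
      exact inv_mul_cancel₀ ha
  intro a
  by_cases ha : (a : K) = 0
  · right
    have h1 : a = 0 := Subtype.ext ha
    rw [h1, sub_zero]
    exact isUnit_one
  have h0 : 0 ≤ X.ord P (a : K) := a.2 ha
  rcases h0.eq_or_lt with h | h
  · left
    exact unit a ha h.symm
  · right
    have h1 : (1 : K) - a ≠ 0 := by
      intro h2
      have h3 : (a : K) = 1 := (sub_eq_zero.1 h2).symm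
      rw [h3, X.ord_one] at h
      exact lt_irrefl _ h
    apply unit (1 - a) h1
    have h2 : 0 ≤ X.ord P ((1 : K) - a) := (1 - a).2 h1
    by_contra h3
    have h4 : 0 < X.ord P ((1 : K) - a) := lt_of_le_of_ne h2 (Ne.symm h3)
    have h5 := X.ord_add P (a : K) (1 - a) ha h1 (by
      rw [add_sub_cancel]
      exact one_ne_zero)
    rw [add_sub_cancel, X.ord_one] at h5
    rcases min_choice (X.ord P (a : K)) (X.ord P ((1 : K) - a)) with h6 | h6 <;>
      rw [h6] at h5 <;> linarith

variable [IsScalarTower ℂ K V]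

theorem mem_satD {D : X.Pt →₀ ℤ} {U : Submodule ℂ V} {f : V} : f ∈ X.satD D U ↔
    ∀ (P : X.Pt) (z : K), z ≠ 0 → D P ≤ X.ord P z → z • f ∈ X.loc P U := Iff.rfl

theorem mem_satD_zero {U : Submodule ℂ V} {f : V} : f ∈ X.satD 0 U ↔ ∀ P, f ∈ X.loc P U := by
  rw [mem_satD]
  constructor
  · intro h P
    have := h P 1 one_ne_zero (X.ord_one P).ge
    rwa [one_smul] at this
  · intro h P z _ hz
    exact X.smul_mem_loc (fun _ => hz) (h P)

theorem le_satD (U : Submodule ℂ V) : U ≤ X.satD 0 U := fun _ hf =>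
  X.mem_satD_zero.2 fun P => X.mem_loc P hf

theorem satD_mono {D E : X.Pt →₀ ℤ} (h : ∀ P, D P ≤ E P) {U U' : Submodule ℂ V} (hU : U ≤ U') :
    X.satD D U ≤ X.satD E U' := fun _ hf P z hz0 hz =>
  X.loc_mono P hU (hf P z hz0 ((h P).trans hz))

theorem satD_zero_bot (P₀ : X.Pt) : X.satD 0 (⊥ : Submodule ℂ V) = ⊥ := by
  rw [eq_bot_iff]
  intro f hf
  have h := X.mem_satD_zero.1 hf P₀
  have e : X.loc P₀ (⊥ : Submodule ℂ V) = ⊥ := by
    unfold loc
    rw [Submodule.span_eq_bot]
    intro x hx
    exact hx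
  rw [e] at h
  exact h

theorem smul_mem_satD {D : X.Pt →₀ ℤ} {U : Submodule ℂ V} {z : K} (hz : z ≠ 0) {f : V} :
    z • f ∈ X.satD D U ↔ f ∈ X.satD (D + X.dv z) U := by
  rw [mem_satD, mem_satD]
  constructor
  · intro h P w hw hw'
    rw [Finsupp.add_apply, X.dv_apply hz] at hw'
    have h1 := h P (w * z⁻¹) (mul_ne_zero hw (inv_ne_zero hz)) (by
      rw [X.ord_mul P _ _ hw (inv_ne_zero hz), X.ord_inv P hz]
      linarith)
    rwa [smul_smul, mul_assoc, inv_mul_cancel₀ hz, mul_one] at h1
  · intro h P w hw hw'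
    rw [smul_smul]
    apply h P (w * z) (mul_ne_zero hw hz)
    rw [Finsupp.add_apply, X.dv_apply hz, X.ord_mul P _ _ hw hz]
    linarith

theorem loc_satD (P : X.Pt) (U : Submodule ℂ V) : X.loc P (X.satD 0 U) = X.loc P U := by
  apply le_antisymm
  · apply Submodule.span_le.2
    intro f hf
    exact X.mem_satD_zero.1 hf P
  · exact X.loc_mono P (X.le_satD U)

theorem satD_satD (D : X.Pt →₀ ℤ) (U : Submodule ℂ V) :
    X.satD D (X.satD 0 U) = X.satD D U := by
  ext f
  rw [mem_satD, mem_satD]
  simp only [X.loc_satD]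

theorem mul_mem_loc {P : X.Pt} {U U' : Submodule ℂ (MvPolynomial (Fin 4) K)}
    {f f' : MvPolynomial (Fin 4) K} (hf : f ∈ X.loc P U) (hf' : f' ∈ X.loc P U') :
    f * f' ∈ X.loc P (U * U') := by
  induction hf using Submodule.span_induction with
  | mem x hx =>
    induction hf' using Submodule.span_induction with
    | mem y hy => exact X.mem_loc P (Submodule.mul_mem_mul hx hy)
    | zero =>
      rw [mul_zero]
      exact zero_mem _
    | add y y' _ _ h1 h2 =>
      rw [mul_add]
      exact add_mem h1 h2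
    | smul a y _ h =>
      have e : x * (a • y) = a • (x * y) := mul_smul_comm a x y
      rw [e]
      exact Submodule.smul_mem _ a h
  | zero =>
    rw [zero_mul]
    exact zero_mem _
  | add x x' _ _ h1 h2 =>
    rw [add_mul]
    exact add_mem h1 h2
  | smul a x _ h =>
    have e : (a • x) * f' = a • (x * f') := smul_mul_assoc a x f'
    rw [e]
    exact Submodule.smul_mem _ a h

theorem mul_mem_satD {U U' : Submodule ℂ (MvPolynomial (Fin 4) K)}
    {f f' : MvPolynomial (Fin 4) K} (hf : f ∈ X.satD 0 U) (hf' : f' ∈ X.satD 0 U') :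
    f * f' ∈ X.satD 0 (U * U') :=
  X.mem_satD_zero.2 fun P => X.mul_mem_loc (X.mem_satD_zero.1 hf P) (X.mem_satD_zero.1 hf' P)

/-- the span over the local ring of a `ℂ`-span -/
theorem loc_span (P : X.Pt) (s : Set V) : X.loc P (Submodule.span ℂ s) =
    Submodule.span (X.OO P) s := by
  apply le_antisymm
  · apply Submodule.span_le.2
    intro f hf
    induction hf using Submodule.span_induction with
    | mem x hx => exact Submodule.subset_span hx
    | zero => exact zero_mem _
    | add x y _ _ h1 h2 => exact add_mem h1 h2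
    | smul c x _ h =>
      by_cases hc : c = 0
      · rw [hc, zero_smul]
        exact zero_mem _
      have e : c • x = (⟨algebraMap ℂ K c, fun _ => (X.ord_const P c hc).ge⟩ : X.OO P) • x := by
        show c • x = algebraMap ℂ K c • x
        rw [algebraMap_smul]
      rw [e]
      exact Submodule.smul_mem _ _ h
  · exact Submodule.span_mono Submodule.subset_span

/-- the stalks of a finite-dimensional space are finitely generated -/
theorem loc_fg (P : X.Pt) (U : Submodule ℂ V) [FiniteDimensional ℂ U] : (X.loc P U).FG := by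
  obtain ⟨s, hs⟩ := (Submodule.fg_iff_finiteDimensional U).2 inferInstance
  refine ⟨s, ?_⟩
  rw [← hs, X.loc_span]

/-- Nakayama's lemma for stalks: it is enough to generate modulo functions vanishing at `P`. -/
theorem loc_le_of_nakayama (P : X.Pt) {U : Submodule ℂ V} [FiniteDimensional ℂ U]
    {N : Submodule (X.OO P) V} (h : ∀ f ∈ U, ∃ g ∈ N, ∃ h ∈ Submodule.span (X.OO P)
      {x : V | ∃ z : K, (z ≠ 0 → 0 < X.ord P z) ∧ ∃ u ∈ X.loc P U, x = z • u}, f = g + h) :
    X.loc P U ≤ N := by
  apply Submodule.le_of_le_smul_of_le_jacobson_bot (X.loc_fg P U)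
    (I := IsLocalRing.maximalIdeal (X.OO P)) (IsLocalRing.maximalIdeal_le_jacobson _)
  apply Submodule.span_le.2
  intro f hf
  obtain ⟨g, hg, k, hk, rfl⟩ := h f hf
  refine add_mem (Submodule.mem_sup_left hg) (Submodule.mem_sup_right ?_)
  clear hf
  induction hk using Submodule.span_induction with
  | mem x hx =>
    obtain ⟨z, hz, u, hu, rfl⟩ := hx
    have h1 : (⟨z, fun h0 => (hz h0).le⟩ : X.OO P) ∈ IsLocalRing.maximalIdeal (X.OO P) := by
      rw [IsLocalRing.mem_maximalIdeal, mem_nonunits_iff]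
      intro h2
      obtain ⟨⟨a, b, hab, hba⟩, h3⟩ := h2
      have h4 : (a : K) = z := by
        have := congrArg Subtype.val h3
        exact this
      have h5 : (a : K) * (b : K) = 1 := by
        have := congrArg Subtype.val hab
        exact this
      have ha0 : (a : K) ≠ 0 := left_ne_zero_of_mul_eq_one h5
      have hb0 : (b : K) ≠ 0 := right_ne_zero_of_mul_eq_one h5
      have h6 := X.ord_mul P _ _ ha0 hb0
      rw [h5, X.ord_one] at h6
      have h7 := b.2 hb0
      rw [h4] at h6 ha0
      have h8 := hz ha0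
      linarith
    exact Submodule.smul_mem_smul h1 hu
  | zero => exact zero_mem _
  | add x y _ _ h1 h2 => exact add_mem h1 h2
  | smul a x _ h => exact Submodule.smul_mem _ a h

/-- coefficients of elements of a stalk -/
theorem coeff_mem_of_loc {P : X.Pt} {U : Submodule ℂ (MvPolynomial (Fin 4) K)}
    {f : MvPolynomial (Fin 4) K} (hf : f ∈ X.loc P U) {e : Fin 4 →₀ ℕ} {n : ℤ}
    (hU : ∀ u ∈ U, u.coeff e ≠ 0 → n ≤ X.ord P (u.coeff e)) :
    f.coeff e ≠ 0 → n ≤ X.ord P (f.coeff e) := by
  induction hf using Submodule.span_induction with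
  | mem x hx => exact hU x hx
  | zero => exact fun h => (h (coeff_zero e)).elim
  | add x y _ _ h1 h2 =>
    rw [coeff_add]
    intro h
    by_cases hx : x.coeff e = 0
    · rw [hx, zero_add] at h ⊢
      exact h2 h
    by_cases hy : y.coeff e = 0
    · rw [hy, add_zero] at h ⊢
      exact h1 h
    have h3 := X.ord_add P _ _ hx hy h
    have h4 := h1 hx
    have h5 := h2 hy
    rcases min_choice (X.ord P (x.coeff e)) (X.ord P (y.coeff e)) with h6 | h6 <;>
      rw [h6] at h3 <;> linarith
  | smul a x _ h =>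
    have e1 : (a • x).coeff e = (a : K) * x.coeff e := by
      show ((a : K) • x).coeff e = _
      rw [coeff_smul, smul_eq_mul]
    rw [e1]
    intro h0
    have ha : (a : K) ≠ 0 := left_ne_zero_of_mul h0
    have hx : x.coeff e ≠ 0 := right_ne_zero_of_mul h0
    rw [X.ord_mul P _ _ ha hx]
    have h1 := a.2 ha
    have h2 := h hx
    linarith

theorem coeff_eq_zero_of_loc {P : X.Pt} {U : Submodule ℂ (MvPolynomial (Fin 4) K)}
    {f : MvPolynomial (Fin 4) K} (hf : f ∈ X.loc P U) {e : Fin 4 →₀ ℕ}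
    (hU : ∀ u ∈ U, u.coeff e = 0) : f.coeff e = 0 := by
  induction hf using Submodule.span_induction with
  | mem x hx => exact hU x hx
  | zero => exact coeff_zero e
  | add x y _ _ h1 h2 => rw [coeff_add, h1, h2, add_zero]
  | smul a x _ h =>
    show ((a : K) • x).coeff e = _
    rw [coeff_smul, h, smul_zero]

end CurveOrd

end Pool.Agent.YTD
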