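import Pool.Agent.YTD.SatA
import Pool.Agent.YTD.GenPoint

/-!
Dimensions of the spaces of global sections of the sheaf generated by a space of sections.
-/

namespace Pool.Agent.YTD

open Finset Module MvPolynomial Filter

/-- Coordinates with respect to a linearly independent family, extended to the whole space. -/
theorem exists_coord {K : Type} [Field K] {V : Type} [AddCommGroup V] [Module K V] {ι : Type}
    [Fintype ι] {w : ι → V} (hw : LinearIndependent K w) :
    ∃ g : V →ₗ[K] (ι → K), ∀ a : ι → K, g (∑ i, a i • w i) = a := by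
  classical
  have hinj : LinearMap.ker (Fintype.linearCombination K w) = ⊥ := by
    rw [LinearMap.ker_eq_bot]
    exact hw.fintypeLinearCombination_injective
  obtain ⟨g, hg⟩ := (Fintype.linearCombination K w).exists_leftInverse_of_injective hinj
  refine ⟨g, fun a => ?_⟩
  have h1 := LinearMap.congr_fun hg a
  rw [LinearMap.comp_apply, Fintype.linearCombination_apply, LinearMap.id_apply] at h1
  exact h1

theorem coord_sum {K : Type} [Field K] {V : Type} [AddCommGroup V] [Module K V] {ι : Type}
    [Fintype ι] {w : ι → V} {g : V →ₗ[K] (ι → K)} (hg : ∀ a : ι → K, g (∑ i, a i • w i) = a)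
    {f : V} (hf : f ∈ Submodule.span K (Set.range w)) : ∑ i, g f i • w i = f := by
  obtain ⟨a, rfl⟩ := (Submodule.mem_span_range_iff_exists_fun K).1 hf
  rw [hg]

namespace Curve

variable {K : Type} [Field K] [Algebra ℂ K] (X : Curve K)
variable {V : Type} [AddCommGroup V] [Module K V] [Module ℂ V] [IsScalarTower ℂ K V]

/-- Every function lies in the Riemann-Roch space of an effective divisor. -/
theorem exists_mem_L (z : K) : ∃ B : X.Pt →₀ ℤ, (∀ P, 0 ≤ B P) ∧ z ∈ X.L B := by
  classical
  refine ⟨Finsupp.onFinset (X.dv z).support (fun P => max 0 (-(X.dv z P))) (by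
    intro P hP
    rw [Finsupp.mem_support_iff]
    intro h
    rw [h] at hP
    simp at hP), fun P => ?_, ?_⟩
  · rw [Finsupp.onFinset_apply]
    exact le_max_left _ _
  · intro hz P
    rw [Finsupp.onFinset_apply, X.dv_apply hz]
    have := le_max_right 0 (-X.ord P z)
    linarith

/-- The values of a linear map on a finite-dimensional space lie in the Riemann-Roch space of an
effective divisor. -/
theorem exists_map_le_L {ι : Type} [Finite ι] (g : V →ₗ[K] (ι → K)) (U : Submodule ℂ V)
    [FiniteDimensional ℂ U] :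
    ∃ B : X.Pt →₀ ℤ, (∀ P, 0 ≤ B P) ∧ ∀ u ∈ U, ∀ i, g u i ∈ X.L B := by
  classical
  have := Fintype.ofFinite ι
  obtain ⟨s, hs⟩ := (Submodule.fg_iff_finiteDimensional U).2 inferInstance
  choose B hB hB' using X.exists_mem_L
  have hBn : ∀ P, 0 ≤ (∑ u ∈ s, ∑ i, B (g u i)) P := by
    intro P
    rw [Finsupp.finsetSum_apply]
    apply Finset.sum_nonneg
    intro u _
    rw [Finsupp.finsetSum_apply]
    exact Finset.sum_nonneg fun i _ => hB _ P
  refine ⟨∑ u ∈ s, ∑ i, B (g u i), hBn, ?_⟩
  intro u hu i
  rw [← hs] at hu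
  induction hu using Submodule.span_induction with
  | mem x hx =>
    refine X.L_mono (fun P => ?_) (hB' (g x i))
    rw [Finsupp.finsetSum_apply]
    refine le_trans ?_ (Finset.single_le_sum (f := fun u => (∑ i, B (g u i)) P)
      (fun u _ => ?_) hx)
    · show _ ≤ (∑ i, B (g x i)) P
      rw [Finsupp.finsetSum_apply]
      exact Finset.single_le_sum (f := fun i => B (g x i) P) (fun i _ => hB _ P)
        (Finset.mem_univ i)
    · show 0 ≤ (∑ i, B (g u i)) P
      rw [Finsupp.finsetSum_apply]
      exact Finset.sum_nonneg fun i _ => hB _ P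
  | zero =>
    rw [map_zero]
    exact zero_mem _
  | add x y _ _ h1 h2 =>
    rw [map_add]
    exact add_mem h1 h2
  | smul c x _ h =>
    have e : g (c • x) i = c • (g x i) := by
      rw [← algebraMap_smul K c x, map_smul, Pi.smul_apply, algebraMap_smul]
    rw [e]
    exact Submodule.smul_mem _ c h

omit [IsScalarTower ℂ K V] in
/-- Values of a linear map on a stalk. -/
theorem map_mem_ovan {ι : Type} (g : V →ₗ[K] (ι → K)) {P : X.Pt} {U : Submodule ℂ V} {n : ℤ}
    (i : ι) (hU : ∀ u ∈ U, g u i ∈ X.ovan P n) {f : V} (hf : f ∈ X.loc P U) :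
    g f i ∈ X.ovan P n := by
  induction hf using Submodule.span_induction with
  | mem x hx => exact hU x hx
  | zero =>
    rw [map_zero]
    exact zero_mem _
  | add x y _ _ h1 h2 =>
    rw [map_add]
    exact add_mem h1 h2
  | smul a x _ h =>
    have e : g (a • x) i = (a : K) * g x i := by
      have e1 : a • x = (a : K) • x := rfl
      rw [e1, map_smul, Pi.smul_apply, smul_eq_mul]
    rw [e]
    intro h0
    have ha : (a : K) ≠ 0 := left_ne_zero_of_mul h0
    have hx : g x i ≠ 0 := right_ne_zero_of_mul h0
    rw [X.ord_mul P _ _ ha hx]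
    have h1 := a.2 ha
    have h2 := h hx
    linarith

theorem exists_ord (P : X.Pt) (n : ℤ) : ∃ z : K, z ≠ 0 ∧ X.ord P z = n := by
  classical
  have := X.infinite_Pt P
  obtain ⟨P₁, hP₁⟩ := exists_ne P
  obtain ⟨f, -, hf0, hf⟩ := X.exists_ord_eq P
    (D := Finsupp.single P (-n) + Finsupp.single P₁ (2 * (X.genus : ℤ) + n)) (by
      rw [X.deg_add, X.deg_single, X.deg_single]
      linarith) P
  refine ⟨f, hf0, ?_⟩
  rw [hf, Finsupp.add_apply, Finsupp.single_eq_same, Finsupp.single_eq_of_ne (Ne.symm hP₁),
    add_zero, neg_neg]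

/-- Values of a linear map on global sections. -/
theorem map_mem_L {ι : Type} (g : V →ₗ[K] (ι → K)) {U : Submodule ℂ V}
    {B D : X.Pt →₀ ℤ} (i : ι) (hU : ∀ u ∈ U, g u i ∈ X.L B) {f : V} (hf : f ∈ X.satD D U) :
    g f i ∈ X.L (D + B) := by
  intro h0 P
  obtain ⟨z, hz0, hz⟩ := X.exists_ord P (D P)
  have h1 := hf P z hz0 hz.ge
  have h2 := X.map_mem_ovan g (n := -(B P)) i (fun u hu h => by
    have := hU u hu h P
    linarith) h1
  rw [map_smul, Pi.smul_apply, smul_eq_mul] at h2
  have h3 := h2 (mul_ne_zero hz0 h0)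
  rw [X.ord_mul P _ _ hz0 h0, hz] at h3
  rw [Finsupp.add_apply]
  linarith

omit [IsScalarTower ℂ K V] in
theorem loc_le_span (P : X.Pt) (U : Submodule ℂ V) {f : V} (hf : f ∈ X.loc P U) :
    f ∈ Submodule.span K (U : Set V) := by
  induction hf using Submodule.span_induction with
  | mem x hx => exact Submodule.subset_span hx
  | zero => exact zero_mem _
  | add x y _ _ h1 h2 => exact add_mem h1 h2
  | smul a x _ h => exact Submodule.smul_mem _ (a : K) h

theorem satD_le_span (P₀ : X.Pt) (D : X.Pt →₀ ℤ) (U : Submodule ℂ V) {f : V}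
    (hf : f ∈ X.satD D U) : f ∈ Submodule.span K (U : Set V) := by
  obtain ⟨z, hz0, hz⟩ := X.exists_ord P₀ (D P₀)
  have h1 := X.loc_le_span P₀ U (hf P₀ z hz0 hz.ge)
  have h2 := Submodule.smul_mem _ z⁻¹ h1
  rwa [smul_smul, inv_mul_cancel₀ hz0, one_smul] at h2

/-- A basis of the `K`-span consisting of elements of `U`. -/
theorem exists_basis (U : Submodule ℂ V) [FiniteDimensional ℂ U] :
    ∃ w : Fin (CurveOrd.kdim K U) → V, (∀ i, w i ∈ U) ∧ LinearIndependent K w ∧
      Submodule.span K (Set.range w) = Submodule.span K (U : Set V) := by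
  obtain ⟨s, hs⟩ := (Submodule.fg_iff_finiteDimensional U).2 inferInstance
  have hfin : FiniteDimensional K (Submodule.span K (U : Set V)) := by
    have e : Submodule.span K (U : Set V) = Submodule.span K (s : Set V) := by
      apply le_antisymm
      · apply Submodule.span_le.2
        intro u hu
        rw [SetLike.mem_coe, ← hs] at hu
        exact Submodule.span_le_restrictScalars ℂ K (s : Set V) hu
      · apply Submodule.span_mono
        rw [← hs]
        exact Submodule.subset_span
    rw [e]
    infer_instance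
  obtain ⟨b, hb1, hb2, hb3⟩ := exists_linearIndependent K (U : Set V)
  have hbfin : Finite b := by
    have : FiniteDimensional K (Submodule.span K b) := by
      rw [hb2]
      exact hfin
    have h3 : LinearIndependent K (fun x : b => (⟨x, Submodule.subset_span x.2⟩ :
        Submodule.span K b)) := by
      apply LinearIndependent.of_comp (Submodule.subtype _)
      exact hb3
    exact h3.finite
  have := Fintype.ofFinite b
  have hcard : Fintype.card b = CurveOrd.kdim K U := by
    unfold CurveOrd.kdim
    rw [← hb2]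
    have := finrank_span_eq_card hb3
    rw [Subtype.range_coe] at this
    exact this.symm
  let e := (Fintype.equivFinOfCardEq hcard).symm
  refine ⟨fun i => (e i : V), fun i => hb1 (e i).2, hb3.comp e e.injective, ?_⟩
  rw [← hb2]
  congr 1
  ext x
  constructor
  · rintro ⟨i, rfl⟩
    exact (e i).2
  · intro hx
    exact ⟨e.symm ⟨x, hx⟩, by simp⟩

theorem finite_satD (P₀ : X.Pt) (D : X.Pt →₀ ℤ) (U : Submodule ℂ V) [FiniteDimensional ℂ U] :
    FiniteDimensional ℂ (X.satD D U) := by
  obtain ⟨w, hwU, hw, hspan⟩ := exists_basis (K := K) U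
  obtain ⟨g, hg⟩ := exists_coord hw
  obtain ⟨B, -, hB⟩ := X.exists_map_le_L g U
  have := X.finite_L P₀ (D + B)
  let φ : X.satD D U →ₗ[ℂ] (Fin (CurveOrd.kdim K U) → X.L (D + B)) :=
    { toFun := fun f i => ⟨g (f : V) i, X.map_mem_L g i (fun u hu => hB u hu i) f.2⟩
      map_add' := by
        intro x y
        funext i
        apply Subtype.ext
        show g ((x : V) + y) i = _
        rw [map_add]
        rfl
      map_smul' := by
        intro c x
        funext i
        apply Subtype.ext
        show g (c • (x : V)) i = _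
        rw [← algebraMap_smul K c (x : V), map_smul, Pi.smul_apply, algebraMap_smul]
        rfl }
  apply FiniteDimensional.of_injective φ
  intro x y hxy
  apply Subtype.ext
  have hx := coord_sum hg (f := (x : V)) (by
    rw [hspan]
    exact X.satD_le_span P₀ D U x.2)
  have hy := coord_sum hg (f := (y : V)) (by
    rw [hspan]
    exact X.satD_le_span P₀ D U y.2)
  rw [← hx, ← hy]
  apply Finset.sum_congr rfl
  intro i _
  have h1 : (φ x i : K) = φ y i := by rw [hxy]
  have h2 : g (x : V) i = g (y : V) i := h1
  rw [h2]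

end Curve

end Pool.Agent.YTD
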