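import Pool.Agent.YTD.SatB

/-!
Local bases of the sheaf generated by a space of sections, and the growth of the dimension of the
space of global sections.
-/

namespace Pool.Agent.YTD

open Finset Module MvPolynomial Filter

namespace Curve

variable {K : Type} [Field K] [Algebra ℂ K] (X : Curve K)

theorem mem_OO_of_ord {P : X.Pt} {z : K} (h : z ≠ 0 → 0 ≤ X.ord P z) : z ∈ X.OO P := h

/-- The local ring is a principal ideal domain. -/
theorem OO_isPrincipalIdealRing (P : X.Pt) : IsPrincipalIdealRing (X.OO P) := by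
  refine ⟨fun I => ?_⟩
  by_cases hI : I = ⊥
  · rw [hI]
    exact ⟨0, by simp⟩
  obtain ⟨x, hxI, hx0⟩ := Submodule.exists_mem_ne_zero_of_ne_bot hI
  have hne : ∃ n : ℕ, ∃ a ∈ I, a ≠ 0 ∧ X.ord P (a : K) = n := by
    have h1 : (x : K) ≠ 0 := fun h => hx0 (Subtype.ext h)
    refine ⟨(X.ord P (x : K)).toNat, x, hxI, hx0, ?_⟩
    rw [Int.toNat_of_nonneg (x.2 h1)]
  classical
  obtain ⟨a, haI, ha0, ha⟩ := Nat.find_spec hne
  have hmin : ∀ b ∈ I, b ≠ 0 → X.ord P (a : K) ≤ X.ord P (b : K) := by
    intro b hb hb0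
    have h1 : (b : K) ≠ 0 := fun h => hb0 (Subtype.ext h)
    have h2 : Nat.find hne ≤ (X.ord P (b : K)).toNat :=
      Nat.find_min' hne ⟨b, hb, hb0, by rw [Int.toNat_of_nonneg (b.2 h1)]⟩
    rw [ha]
    have h3 := b.2 h1
    omega
  refine ⟨a, ?_⟩
  apply le_antisymm
  · intro b hb
    by_cases hb0 : b = 0
    · rw [hb0]
      exact Submodule.zero_mem _
    have h1 : (b : K) ≠ 0 := fun h => hb0 (Subtype.ext h)
    have h2 : (a : K) ≠ 0 := fun h => ha0 (Subtype.ext h)
    rw [Submodule.mem_span_singleton]
    refine ⟨⟨(b : K) * (a : K)⁻¹, fun _ => ?_⟩, ?_⟩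
    · rw [X.ord_mul P _ _ h1 (inv_ne_zero h2), X.ord_inv P h2]
      have := hmin b hb hb0
      linarith
    · apply Subtype.ext
      show (b : K) * (a : K)⁻¹ * (a : K) = b
      rw [mul_assoc, inv_mul_cancel₀ h2, mul_one]
  · rw [Submodule.span_singleton_le_iff_mem]
    exact haI

variable {V : Type} [AddCommGroup V] [Module K V] [Module ℂ V] [IsScalarTower ℂ K V]

omit [IsScalarTower ℂ K V] [Module ℂ V] in
theorem linearIndependent_of_OO (P : X.Pt) {ι : Type} [Fintype ι] {b : ι → V}
    (hb : LinearIndependent (X.OO P) b) : LinearIndependent K b := by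
  classical
  rw [Fintype.linearIndependent_iff] at hb ⊢
  intro a ha
  -- a common denominator
  obtain ⟨n, hn⟩ : ∃ n : ℕ, ∀ i, a i ≠ 0 → -(n : ℤ) ≤ X.ord P (a i) := by
    refine ⟨∑ i, (X.ord P (a i)).natAbs, fun i _ => ?_⟩
    have h1 : (X.ord P (a i)).natAbs ≤ ∑ i, (X.ord P (a i)).natAbs :=
      Finset.single_le_sum (f := fun i => (X.ord P (a i)).natAbs) (fun _ _ => Nat.zero_le _)
        (Finset.mem_univ i)
    omega
  obtain ⟨z, hz0, hz⟩ := X.exists_ord P n
  have hmem : ∀ i, z * a i ∈ X.OO P := by
    intro i h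
    have hi : a i ≠ 0 := right_ne_zero_of_mul h
    rw [X.ord_mul P _ _ hz0 hi, hz]
    have := hn i hi
    linarith
  have h1 := hb (fun i => ⟨z * a i, hmem i⟩) (by
    have e : ∀ i, (⟨z * a i, hmem i⟩ : X.OO P) • b i = z • (a i • b i) := by
      intro i
      rw [smul_smul]
      rfl
    simp only [e]
    rw [← Finset.smul_sum, ha, smul_zero])
  intro i
  have h2 : z * a i = 0 := congrArg Subtype.val (h1 i)
  exact (mul_eq_zero.1 h2).resolve_left hz0

/-- The stalks are free of rank `kdim`. -/
theorem exists_local_basis (P : X.Pt) (U : Submodule ℂ V) [FiniteDimensional ℂ U] :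
    ∃ b : Fin (CurveOrd.kdim K U) → V, LinearIndependent K b ∧
      X.loc P U = Submodule.span (X.OO P) (Set.range b) := by
  have h1 := X.OO_isPrincipalIdealRing P
  have h2 : Module.Finite (X.OO P) (X.loc P U) :=
    Module.Finite.iff_fg.2 (X.loc_fg P U)
  have h3 : Module.IsTorsionFree (X.OO P) (X.loc P U) := by
    apply Module.IsTorsionFree.of_smul_eq_zero
    intro r m h
    have h4 : (r : K) • (m : V) = 0 := congrArg Subtype.val h
    rcases smul_eq_zero.1 h4 with h5 | h5
    · exact Or.inl (Subtype.ext h5)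
    · exact Or.inr (Subtype.ext h5)
  have h4 : Module.Free (X.OO P) (X.loc P U) := inferInstance
  have b := Module.finBasis (X.OO P) (X.loc P U)
  have hli : LinearIndependent (X.OO P) (fun i => (b i : V)) :=
    b.linearIndependent.map' (X.loc P U).subtype (Submodule.ker_subtype _)
  have hspan : X.loc P U = Submodule.span (X.OO P) (Set.range fun i => (b i : V)) := by
    have h5 := b.span_eq
    have h6 := congrArg (Submodule.map (X.loc P U).subtype) h5
    rw [Submodule.map_span, Submodule.map_top, Submodule.range_subtype, ← Set.range_comp] at h6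
    exact h6.symm
  have hK := X.linearIndependent_of_OO P hli
  have hspanK : Submodule.span K (Set.range fun i => (b i : V)) =
      Submodule.span K (U : Set V) := by
    apply le_antisymm
    · apply Submodule.span_le.2
      rintro _ ⟨i, rfl⟩
      exact X.loc_le_span P U (b i).2
    · apply Submodule.span_le.2
      intro u hu
      have h7 : u ∈ X.loc P U := Submodule.subset_span hu
      rw [hspan] at h7
      exact Submodule.span_le_restrictScalars (X.OO P) K _ h7
  have hcard : finrank (X.OO P) (X.loc P U) = CurveOrd.kdim K U := by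
    unfold CurveOrd.kdim
    rw [← hspanK, finrank_span_eq_card hK, Fintype.card_fin]
  rw [← hcard]
  exact ⟨fun i => (b i : V), hK, hspan⟩

theorem finrank_satD_add_single (D : X.Pt →₀ ℤ) (P : X.Pt) (U : Submodule ℂ V)
    [FiniteDimensional ℂ U] : finrank ℂ (X.satD (D + Finsupp.single P 1) U) ≤
      finrank ℂ (X.satD D U) + CurveOrd.kdim K U := by
  classical
  obtain ⟨b, hb, hbs⟩ := X.exists_local_basis P U
  obtain ⟨g, hg⟩ := exists_coord hb
  obtain ⟨z₀, hz0, hz⟩ := X.exists_ord P (D P + 1)
  have := X.infinite_Pt P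
  obtain ⟨P₁, hP₁⟩ := exists_ne P
  obtain ⟨ρ, hρ⟩ := X.exists_residue hP₁
  have := X.finite_satD P D U
  have := X.finite_satD P (D + Finsupp.single P 1) U
  have hcoord : ∀ x ∈ X.loc P U, (∀ i, g x i ∈ X.ovan P 0) ∧ ∑ i, g x i • b i = x := by
    intro x hx
    rw [hbs] at hx
    obtain ⟨a, ha⟩ := (Submodule.mem_span_range_iff_exists_fun (X.OO P)).1 hx
    have e : g x = fun i => (a i : K) := by
      rw [← ha, ← hg (fun i => (a i : K))]
      rfl
    refine ⟨fun i => ?_, ?_⟩
    · rw [e]
      exact (a i).2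
    · rw [e, ← ha]
      rfl
  have hmem : ∀ f ∈ X.satD (D + Finsupp.single P 1) U, z₀ • f ∈ X.loc P U := by
    intro f hf
    apply hf P z₀ hz0
    rw [Finsupp.add_apply, Finsupp.single_eq_same, hz]
  let φ : X.satD (D + Finsupp.single P 1) U →ₗ[ℂ] (Fin (CurveOrd.kdim K U) → ℂ) :=
    { toFun := fun f i => ρ (g (z₀ • (f : V)) i)
      map_add' := by
        intro x y
        funext i
        show ρ (g (z₀ • ((x : V) + y)) i) = _
        rw [smul_add, map_add, Pi.add_apply, map_add]
        rfl
      map_smul' := by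
        intro c x
        funext i
        show ρ (g (z₀ • (c • (x : V))) i) = _
        rw [← algebraMap_smul K c (x : V), smul_comm, map_smul, Pi.smul_apply, algebraMap_smul,
          map_smul]
        rfl }
  have hker : (LinearMap.ker φ).map (Submodule.subtype _) ≤ X.satD D U := by
    rintro _ ⟨f, hf, rfl⟩
    rw [SetLike.mem_coe, LinearMap.mem_ker] at hf
    obtain ⟨h1, h2⟩ := hcoord _ (hmem f f.2)
    have h3 : ∀ i, g (z₀ • (f : V)) i ∈ X.ovan P 1 := fun i =>
      (hρ _ (h1 i)).1 (congrFun hf i)
    show (f : V) ∈ X.satD D U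
    intro Q w hw hDQ
    by_cases hQ : Q = P
    · subst hQ
      have h4 : w • (f : V) = ∑ i, (w * z₀⁻¹ * g (z₀ • (f : V)) i) • b i := by
        have e : w • (f : V) = (w * z₀⁻¹) • (z₀ • (f : V)) := by
          rw [smul_smul, mul_assoc, inv_mul_cancel₀ hz0, mul_one]
        rw [e]
        conv_lhs => rw [← h2]
        rw [Finset.smul_sum]
        apply Finset.sum_congr rfl
        intro i _
        rw [smul_smul]
      rw [h4, hbs]
      apply Submodule.sum_mem
      intro i _
      have h5 : w * z₀⁻¹ * g (z₀ • (f : V)) i ∈ X.OO Q := by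
        intro h0
        have h6 : g (z₀ • (f : V)) i ≠ 0 := right_ne_zero_of_mul h0
        rw [X.ord_mul Q _ _ (mul_ne_zero hw (inv_ne_zero hz0)) h6,
          X.ord_mul Q _ _ hw (inv_ne_zero hz0), X.ord_inv Q hz0, hz]
        have := h3 i h6
        linarith
      exact Submodule.smul_mem _ (⟨_, h5⟩ : X.OO Q) (Submodule.subset_span ⟨i, rfl⟩)
    · apply f.2 Q w hw
      rw [Finsupp.add_apply, Finsupp.single_eq_of_ne hQ, add_zero]
      exact hDQ
  have h1 := Submodule.finrank_mono hker
  rw [Submodule.finrank_map_subtype_eq] at h1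
  have h2 := LinearMap.finrank_range_add_finrank_ker φ
  have h3 := Submodule.finrank_le (LinearMap.range φ)
  rw [Module.finrank_fin_fun] at h3
  omega

theorem finrank_satD_le (P₀ : X.Pt) {D E : X.Pt →₀ ℤ} (h : ∀ P, D P ≤ E P) (U : Submodule ℂ V)
    [FiniteDimensional ℂ U] : (finrank ℂ (X.satD E U) : ℤ) ≤
      finrank ℂ (X.satD D U) + CurveOrd.kdim K U * (X.deg E - X.deg D) := by
  classical
  obtain ⟨n, hn⟩ : ∃ n : ℕ, X.deg E - X.deg D = n :=
    ⟨(X.deg E - X.deg D).toNat, by
      have := X.deg_mono h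
      rw [Int.toNat_of_nonneg (by linarith)]⟩
  induction n generalizing E with
  | zero =>
    have e : E = D := by
      by_contra hne
      obtain ⟨P, hP⟩ : ∃ P, D P < E P := by
        by_contra hcon
        push Not at hcon
        apply hne
        ext P
        exact le_antisymm (hcon P) (h P)
      have h1 : ∀ Q, (D + Finsupp.single P 1 : X.Pt →₀ ℤ) Q ≤ E Q := by
        intro Q
        rw [Finsupp.add_apply, Finsupp.single_apply]
        split_ifs with hQ
        · subst hQ
          linarith
        · rw [add_zero]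
          exact h Q
      have h2 := X.deg_mono h1
      rw [X.deg_add, X.deg_single] at h2
      push_cast at hn
      linarith
    subst e
    rw [sub_self, mul_zero, add_zero]
  | succ n ih =>
    obtain ⟨P, hP⟩ : ∃ P, D P < E P := by
      by_contra hcon
      push Not at hcon
      have h2 := X.deg_mono hcon
      push_cast at hn
      linarith [Int.natCast_nonneg n]
    have h1 : ∀ Q, D Q ≤ (E - Finsupp.single P 1 : X.Pt →₀ ℤ) Q := by
      intro Q
      rw [Finsupp.sub_apply, Finsupp.single_apply]
      split_ifs with hQ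
      · subst hQ
        linarith
      · rw [sub_zero]
        exact h Q
    have h2 := ih h1 (by
      rw [X.deg_sub, X.deg_single]
      push_cast at hn
      linarith)
    have h3 := X.finrank_satD_add_single (E - Finsupp.single P 1) P U
    rw [sub_add_cancel] at h3
    rw [X.deg_sub, X.deg_single] at h2
    have h4 : (finrank ℂ (X.satD E U) : ℤ) ≤
        finrank ℂ (X.satD (E - Finsupp.single P 1) U) + CurveOrd.kdim K U := by
      exact_mod_cast h3
    nlinarith

end Curve

end Pool.Agent.YTD
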