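import Pool.Agent.YTD.SatA
import Pool.Agent.YTD.GamRel
import Pool.Agent.YTD.GenPoint

/-!
Local generation of the section ring by the invariants of `Γ`.
-/

namespace Pool.Agent.YTD

open Finset Module MvPolynomial Filter

variable {K : Type} [Field K] [Algebra ℂ K]

/-- The functions with orders at least `d`. -/
def CurveOrd.Lf (X : CurveOrd K) (d : X.Pt → ℤ) : Submodule ℂ K where
  carrier := {z | z ≠ 0 → ∀ Q, d Q ≤ X.ord Q z}
  zero_mem' := fun h => (h rfl).elim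
  add_mem' := by
    intro f g hf hg h Q
    by_cases hf0 : f = 0
    · subst hf0
      rw [zero_add] at h ⊢
      exact hg h Q
    by_cases hg0 : g = 0
    · subst hg0
      rw [add_zero] at h ⊢
      exact hf h Q
    have h1 := X.ord_add Q f g hf0 hg0 h
    have h2 := hf hf0 Q
    have h3 := hg hg0 Q
    rcases min_choice (X.ord Q f) (X.ord Q g) with h4 | h4 <;> rw [h4] at h1 <;> linarith
  smul_mem' := by
    intro x f hf h Q
    have hc : x ≠ 0 := by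
      rintro rfl
      exact h (zero_smul ℂ f)
    have hf0 : f ≠ 0 := by
      rintro rfl
      exact h (smul_zero x)
    rw [Algebra.smul_def, X.ord_mul Q _ _ ((map_ne_zero _).2 hc) hf0, X.ord_const Q x hc, zero_add]
    exact hf hf0 Q

theorem CurveOrd.mem_Lf {X : CurveOrd K} {d : X.Pt → ℤ} {z : K} :
    z ∈ X.Lf d ↔ (z ≠ 0 → ∀ Q, d Q ≤ X.ord Q z) := Iff.rfl

theorem CurveOrd.Lf_mono (X : CurveOrd K) {d d' : X.Pt → ℤ} (h : ∀ Q, d Q ≤ d' Q) :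
    X.Lf d' ≤ X.Lf d := fun _ hz h0 Q => (h Q).trans (hz h0 Q)

theorem Curve.exists_sub_smul (X : Curve K) {P : X.Pt} {z w : K} (hz : z ≠ 0) (hw : w ≠ 0)
    (h : X.ord P z = X.ord P w) :
    ∃ c : ℂ, z - c • w ≠ 0 → X.ord P w < X.ord P (z - c • w) := by
  have hinf := X.infinite_Pt P
  obtain ⟨P₁, hP₁⟩ := exists_ne P
  obtain ⟨c, hc⟩ := X.exists_const_sub_mem (c := P) hP₁ (z := z * w⁻¹) (fun _ => by
    rw [X.ord_mul P _ _ hz (inv_ne_zero hw), X.ord_inv P hw, h]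
    linarith)
  refine ⟨c, fun h0 => ?_⟩
  have e : z - c • w = w * (z * w⁻¹ - algebraMap ℂ K c) := by
    rw [Algebra.smul_def]
    field_simp
  rw [e] at h0 ⊢
  have h1 := right_ne_zero_of_mul h0
  rw [X.ord_mul P _ _ hw h1]
  have := hc h1
  linarith

variable {T : Datum K} {q : ℕ} {D₀ : T.X.Pt →₀ ℤ} {r : ℕ}

open Classical in
/-- The coefficient spaces `V N j` for `j` with `p j`, with additional vanishing `d`. -/
noncomputable def Datum.PV (T : Datum K) (q : ℕ) (D₀ : T.X.Pt →₀ ℤ) (N : ℕ) (p : ℤ → Prop)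
    (d : T.X.Pt → ℤ) (j : ℤ) : Submodule ℂ K :=
  if p j then T.X.Lf (fun Q => d Q - T.dvs q D₀ N j Q) else ⊥

open Classical in
/-- The part of `sec N` supported on the indices `j` with `p j`. -/
noncomputable def Datum.secP (T : Datum K) (q : ℕ) (D₀ : T.X.Pt →₀ ℤ) (N : ℕ) (p : ℤ → Prop) :
    Submodule ℂ (MvPolynomial (Fin 4) K) :=
  bigr q N (fun j => if p j then T.V q D₀ N j else ⊥)

theorem Datum.mem_PV {N : ℕ} {p : ℤ → Prop} {d : T.X.Pt → ℤ} {j : ℤ} {z : K} :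
    z ∈ T.PV q D₀ N p d j ↔ (z ≠ 0 → p j ∧ ∀ Q, d Q - T.dvs q D₀ N j Q ≤ T.X.ord Q z) := by
  unfold Datum.PV
  split_ifs with h
  · rw [CurveOrd.mem_Lf]
    exact ⟨fun h1 h0 => ⟨h, h1 h0⟩, fun h1 h0 => (h1 h0).2⟩
  · rw [Submodule.mem_bot]
    constructor
    · intro h1 h2
      exact (h2 h1).elim
    · intro h1
      by_contra h2
      exact h (h1 h2).1

theorem Datum.secP_eq (T : Datum K) (q : ℕ) (D₀ : T.X.Pt →₀ ℤ) (N : ℕ) (p : ℤ → Prop) :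
    T.secP q D₀ N p = bigr q N (T.PV q D₀ N p (fun _ => 0)) := by
  unfold Datum.secP
  congr 1
  funext j
  ext z
  rw [Datum.mem_PV]
  split_ifs with h
  · unfold Datum.V
    rw [T.X.mem_L]
    constructor
    · intro h1 h0
      exact ⟨h, fun Q => by linarith [h1 h0 Q]⟩
    · intro h1 h0 Q
      linarith [(h1 h0).2 Q]
  · rw [Submodule.mem_bot]
    constructor
    · intro h1 h2
      exact (h2 h1).elim
    · intro h1
      by_contra h2
      exact h (h1 h2).1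

theorem Datum.secP_le_sec (T : Datum K) (q : ℕ) (D₀ : T.X.Pt →₀ ℤ) (N : ℕ) (p : ℤ → Prop) :
    T.secP q D₀ N p ≤ T.sec q D₀ N := by
  rw [sec_eq_bigr]
  apply bigr_mono
  intro j _
  split_ifs
  · exact le_rfl
  · exact bot_le

theorem Datum.secP_true (T : Datum K) (q : ℕ) (D₀ : T.X.Pt →₀ ℤ) (N : ℕ) :
    T.secP q D₀ N (fun _ => True) = T.sec q D₀ N := by
  unfold Datum.secP
  rw [sec_eq_bigr]
  congr 1
  funext j
  rw [if_pos trivial]

theorem PV_mono {N : ℕ} {p : ℤ → Prop} {d d' : T.X.Pt → ℤ} (h : ∀ Q, d Q ≤ d' Q) (j : ℤ) :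
    T.PV q D₀ N p d' j ≤ T.PV q D₀ N p d j := by
  intro z hz
  rw [Datum.mem_PV] at hz ⊢
  exact fun h0 => ⟨(hz h0).1, fun Q => by linarith [(hz h0).2 Q, h Q]⟩

/-! ### The action of `Γ` -/

theorem Sym.mem_PV (κ : Sym T) (hD : κ.Fixes D₀) {N : ℕ} {p : ℤ → Prop} {d : T.X.Pt → ℤ} {j : ℤ}
    {z : K} (hz : z ∈ T.PV q D₀ N p d j) : κ.θ z ∈ T.PV q D₀ N p (fun Q => d (κ.σ Q)) j := by
  rw [Datum.mem_PV] at hz ⊢
  intro h0
  have hz0 : z ≠ 0 := by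
    rintro rfl
    exact h0 (map_zero _)
  obtain ⟨h1, h2⟩ := hz hz0
  refine ⟨h1, fun Q => ?_⟩
  have h3 := κ.ord_σ (κ.σ Q) z hz0
  rw [κ.σσ] at h3
  rw [h3, ← κ.dvs_σ (q := q) hD N j Q]
  exact h2 (κ.σ Q)

theorem Inv.mem_PV (ι : Inv T) (hD : ι.Fixes D₀) {N : ℕ} {p : ℤ → Prop} (hp : ∀ j, p j → p (-j))
    {d : T.X.Pt → ℤ} {j : ℤ} {z : K} (hz : z ∈ T.PV q D₀ N p d j) :
    ι.θ z ∈ T.PV q D₀ N p (fun Q => d (ι.σ Q)) (-j) := by
  rw [Datum.mem_PV] at hz ⊢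
  intro h0
  have hz0 : z ≠ 0 := by
    rintro rfl
    exact h0 (map_zero _)
  obtain ⟨h1, h2⟩ := hz hz0
  refine ⟨hp j h1, fun Q => ?_⟩
  have h3 := ι.ord_σ (ι.σ Q) z hz0
  rw [ι.σσ] at h3
  have h4 := ι.dvs_σ (q := q) hD N j (ι.σ Q)
  rw [ι.σσ] at h4
  rw [h3, h4]
  exact h2 (ι.σ Q)

theorem Sym.coefE_mem_bigr (κ : Sym T) (hD : κ.Fixes D₀) {N : ℕ} {p : ℤ → Prop}
    {d : T.X.Pt → ℤ} {f : MvPolynomial (Fin 4) K} (hf : f ∈ bigr q N (T.PV q D₀ N p d)) :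
    MvPolynomial.map (κ.θ : K →+* K) f ∈ bigr q N (T.PV q D₀ N p (fun Q => d (κ.σ Q))) := by
  intro e he
  rw [coeff_map] at he ⊢
  have h0 : f.coeff e ≠ 0 := by
    intro h0
    apply he
    rw [h0, map_zero]
  obtain ⟨j, h1, h2, h3, h4⟩ := hf e h0
  exact ⟨j, h1, h2, h3, κ.mem_PV hD h4⟩

namespace Gam

variable {γ : Gam T}

theorem E₁_mem_PV (hD : γ.Fixes D₀) {N : ℕ} {p : ℤ → Prop} {d : T.X.Pt → ℤ}
    {f : MvPolynomial (Fin 4) K} (hf : f ∈ bigr q N (T.PV q D₀ N p d)) :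
    γ.E₁ f ∈ bigr q N (T.PV q D₀ N p (fun Q => d (γ.σ₁ Q))) := by
  rw [γ.E₁_apply]
  exact γ.sym₁.coefE_mem_bigr hD.fst (subst_mem_bigr s1 s1 hf)

theorem E₂_mem_PV (hD : γ.Fixes D₀) {N : ℕ} {p : ℤ → Prop} {d : T.X.Pt → ℤ}
    {f : MvPolynomial (Fin 4) K} (hf : f ∈ bigr q N (T.PV q D₀ N p d)) :
    γ.E₂ f ∈ bigr q N (T.PV q D₀ N p (fun Q => d (γ.σ₂ Q))) := by
  rw [γ.E₂_apply]
  exact γ.sym₂.coefE_mem_bigr hD.snd (subst_mem_bigr s2 s2 hf)

theorem tauE_mem_PV (hD : γ.Fixes D₀) {N : ℕ} {p : ℤ → Prop} (hp : ∀ j, p j → p (-j))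
    {d : T.X.Pt → ℤ} {f : MvPolynomial (Fin 4) K} (hf : f ∈ bigr q N (T.PV q D₀ N p d)) :
    γ.tauE f ∈ bigr q N (T.PV q D₀ N p (fun Q => d (γ.σ Q))) := by
  intro e he
  rw [γ.toInv.coeff_tauE] at he ⊢
  have h0 : f.coeff (Inv.swe e) ≠ 0 := by
    intro h0
    apply he
    rw [h0, map_zero]
  obtain ⟨j, h1, h2, h3, h4⟩ := hf _ h0
  rw [Inv.swe_apply, Inv.swe_apply, Inv.swp_0, Inv.swp_1] at h2
  rw [Inv.swe_apply, Inv.swe_apply, Inv.swp_2, Inv.swp_3] at h3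
  exact ⟨-j, by rw [abs_neg]; exact h1, by rw [h3]; ring, by rw [h2]; ring,
    γ.toInv.mem_PV hD.inv hp h4⟩

/-- the sum over `Γ` -/
noncomputable def av (γ : Gam T) (f : MvPolynomial (Fin 4) K) : MvPolynomial (Fin 4) K :=
  ((f + γ.E₁ f) + γ.E₂ (f + γ.E₁ f)) + γ.tauE ((f + γ.E₁ f) + γ.E₂ (f + γ.E₁ f))

theorem E₁_av {f : MvPolynomial (Fin 4) K} (hf : EvenDeg f) : γ.E₁ (γ.av f) = γ.av f := by
  have h1 : γ.E₁ (f + γ.E₁ f) = f + γ.E₁ f := by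
    rw [map_add, γ.E₁_E₁, add_comm]
  have h2 : EvenDeg (f + γ.E₁ f) := by
    intro e he
    by_cases h : f.coeff e = 0
    · apply γ.evenDeg_E₁ hf e
      intro h3
      apply he
      rw [coeff_add, h, h3, add_zero]
    · exact hf e h
  have h3 : γ.E₁ ((f + γ.E₁ f) + γ.E₂ (f + γ.E₁ f)) = (f + γ.E₁ f) + γ.E₂ (f + γ.E₁ f) := by
    rw [map_add, h1, γ.E₁_E₂' h2, h1]
  unfold av
  rw [map_add, γ.E₁_tauE, h3]

theorem E₂_av (f : MvPolynomial (Fin 4) K) : γ.E₂ (γ.av f) = γ.av f := by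
  have h3 : γ.E₂ ((f + γ.E₁ f) + γ.E₂ (f + γ.E₁ f)) = (f + γ.E₁ f) + γ.E₂ (f + γ.E₁ f) := by
    rw [map_add, γ.E₂_E₂, add_comm]
  unfold av
  rw [map_add, γ.E₂_tauE, h3]

theorem tauE_av (f : MvPolynomial (Fin 4) K) : γ.tauE (γ.av f) = γ.av f := by
  unfold av
  rw [map_add, γ.toInv.tauE_tauE, add_comm]

theorem av_eq (f : MvPolynomial (Fin 4) K) : γ.av f = f + (γ.E₁ f + γ.E₂ f + γ.E₂ (γ.E₁ f) +
    γ.tauE f + γ.tauE (γ.E₁ f) + γ.tauE (γ.E₂ f) + γ.tauE (γ.E₂ (γ.E₁ f))) := by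
  unfold av
  simp only [map_add]
  ring

end Gam

/-! ### Local generation -/

open Classical in
/-- vanishing at one point -/
noncomputable def delta {α : Type} (P : α) : α → ℤ := fun Q => if Q = P then 1 else 0

/-- Sections vanishing at `P` are in the maximal ideal times the stalk. -/
theorem mem_span_of_vanish {N : ℕ} {p : ℤ → Prop}
    (hdeg : ∀ j, p j → |j| ≤ 5 * q * N → 2 * (T.X.genus : ℤ) ≤ T.X.deg (T.dvs q D₀ N j))
    (P : T.X.Pt) {f : MvPolynomial (Fin 4) K} (hf : f ∈ bigr q N (T.PV q D₀ N p (delta P))) :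
    f ∈ Submodule.span (T.X.OO P) {x : MvPolynomial (Fin 4) K | ∃ z : K,
      (z ≠ 0 → 0 < T.X.ord P z) ∧ ∃ u ∈ T.X.loc P (T.secP q D₀ N p), x = z • u} := by
  rw [f.as_sum]
  refine sum_mem fun e he => ?_
  have he0 := MvPolynomial.mem_support_iff.1 he
  obtain ⟨j, h1, h2, h3, h4⟩ := hf e he0
  rw [Datum.mem_PV] at h4
  obtain ⟨hp, h5⟩ := h4 he0
  obtain ⟨w, hw, hw0, hw1⟩ := T.X.exists_ord_eq P (hdeg j hp h1) P
  apply Submodule.subset_span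
  refine ⟨f.coeff e * w⁻¹, ?_, monomial e w, ?_, ?_⟩
  · intro _
    have h6 := h5 P
    unfold delta at h6
    rw [if_pos rfl] at h6
    rw [T.X.ord_mul P _ _ he0 (inv_ne_zero hw0), T.X.ord_inv P hw0, hw1]
    linarith
  · apply T.X.mem_loc
    unfold Datum.secP
    refine monomial_mem_bigr h1 h2 h3 ?_
    rw [if_pos hp]
    exact hw
  · rw [smul_monomial, smul_eq_mul, mul_assoc, inv_mul_cancel₀ hw0, mul_one]

theorem Gam.loc_secP (γ : Gam T) (hfix : γ.Fixes D₀) {N : ℕ} (p : ℤ → Prop)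
    (hp : ∀ j, p j → p (-j))
    (hdeg : ∀ j, p j → |j| ≤ 5 * q * N → 2 * (T.X.genus : ℤ) + 7 ≤ T.X.deg (T.dvs q D₀ N j))
    (P : T.X.Pt) : T.X.loc P (T.secP q D₀ N p) ≤
      T.X.loc P (T.secP q D₀ N p ⊓ γ.secQ q D₀ N) := by
  classical
  have hfin : FiniteDimensional ℂ (T.secP q D₀ N p) := by
    unfold Datum.secP
    apply finite_bigr
    intro j
    by_cases h : p j
    · rw [if_pos h]
      exact T.finite_V q D₀ N j
    · rw [if_neg h]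
      infer_instance
  apply T.X.loc_le_of_nakayama P
  -- it is enough to treat monomials
  suffices H : T.secP q D₀ N p ≤ ((T.X.loc P (T.secP q D₀ N p ⊓ γ.secQ q D₀ N) ⊔
      Submodule.span (T.X.OO P) {x : MvPolynomial (Fin 4) K | ∃ z : K,
      (z ≠ 0 → 0 < T.X.ord P z) ∧ ∃ u ∈ T.X.loc P (T.secP q D₀ N p), x = z • u} :
        Submodule (T.X.OO P) (MvPolynomial (Fin 4) K)) : Set (MvPolynomial (Fin 4) K)) by
    intro f hf
    obtain ⟨g, hg, h, hh, e⟩ := Submodule.mem_sup.1 (H hf)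
    exact ⟨g, hg, h, hh, e.symm⟩
  intro f hf
  rw [SetLike.mem_coe]
  have hf' := hf
  rw [T.secP_eq] at hf'
  rw [f.as_sum]
  refine sum_mem fun e he => ?_
  have he0 := MvPolynomial.mem_support_iff.1 he
  obtain ⟨j, h1, h2, h3, h4⟩ := hf' e he0
  rw [Datum.mem_PV] at h4
  obtain ⟨hpj, h5⟩ := h4 he0
  set z := f.coeff e with hz
  -- the orbit without `P`
  set B : Finset T.X.Pt := {γ.σ₁ P, γ.σ₂ P, γ.σ₁ (γ.σ₂ P), γ.σ P, γ.σ₁ (γ.σ P), γ.σ₂ (γ.σ P),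
    γ.σ₁ (γ.σ₂ (γ.σ P))} with hB
  have hPB : P ∉ B := by
    rw [hB]
    simp only [Finset.mem_insert, Finset.mem_singleton, not_or]
    refine ⟨(γ.free₁ P).symm, (γ.free₂ P).symm, (γ.free₁₂ P).symm, (γ.free P).symm, ?_, ?_, ?_⟩
    · rw [← γ.σcomm₁]
      exact (γ.free₀₁ P).symm
    · rw [← γ.σcomm₂]
      exact (γ.free₀₂ P).symm
    · rw [← γ.σcomm₂, ← γ.σcomm₁]
      exact (γ.free₀₁₂ P).symm
  have hBcard : B.card ≤ 7 :=
    (Finset.card_insert_le _ _).trans (Nat.succ_le_succ Finset.card_le_six)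
  set DB : T.X.Pt →₀ ℤ := ∑ Q ∈ B, Finsupp.single Q 1 with hDB
  have hDBd : T.X.deg DB ≤ 7 := by
    rw [hDB, T.X.deg_sum]
    simp only [T.X.deg_single, Finset.sum_const, nsmul_eq_mul, mul_one]
    exact_mod_cast hBcard
  have hDBa : ∀ Q, DB Q = if Q ∈ B then 1 else 0 := by
    intro Q
    rw [hDB, Finsupp.finsetSum_apply]
    simp only [Finsupp.single_apply]
    rw [Finset.sum_ite_eq' B Q]
  obtain ⟨w, hw, hw0, hw1⟩ := T.X.exists_ord_eq P (D := T.dvs q D₀ N j - DB) (by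
    rw [T.X.deg_sub]
    have := hdeg j hpj h1
    linarith) P
  rw [Finsupp.sub_apply, hDBa, if_neg hPB, sub_zero] at hw1
  -- approximate `z` by a multiple of `w`
  obtain ⟨c, hc⟩ : ∃ c : ℂ, z - c • w ≠ 0 → -(T.dvs q D₀ N j P) < T.X.ord P (z - c • w) := by
    by_cases h6 : T.X.ord P z = T.X.ord P w
    · obtain ⟨c, hc⟩ := T.X.exists_sub_smul he0 hw0 h6
      exact ⟨c, fun h => by rw [← hw1]; exact hc h⟩
    · refine ⟨0, fun _ => ?_⟩
      rw [zero_smul, sub_zero]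
      have h7 := h5 P
      rw [zero_sub] at h7
      exact lt_of_le_of_ne h7 (by rw [← hw1]; exact Ne.symm h6)
  -- the average of the approximation
  set d : T.X.Pt → ℤ := fun Q => if Q ∈ B then 1 else 0 with hd
  have hd0 : ∀ Q, 0 ≤ d Q := by
    intro Q
    rw [hd]
    dsimp only
    split_ifs <;> norm_num
  have hcw : c • w ∈ T.PV q D₀ N p d j := by
    rw [Datum.mem_PV]
    intro h0
    refine ⟨hpj, fun Q => ?_⟩
    have h6 : c • w ∈ T.X.L (T.dvs q D₀ N j - DB) := Submodule.smul_mem _ _ hw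
    have h7 := h6 h0 Q
    rw [Finsupp.sub_apply, hDBa] at h7
    rw [hd]
    dsimp only
    linarith
  set h : MvPolynomial (Fin 4) K := monomial e (c • w) with hh
  have hmem : h ∈ bigr q N (T.PV q D₀ N p d) := monomial_mem_bigr h1 h2 h3 hcw
  have hmem0 : ∀ {d' : T.X.Pt → ℤ} {g : MvPolynomial (Fin 4) K}, (∀ Q, 0 ≤ d' Q) →
      g ∈ bigr q N (T.PV q D₀ N p d') → g ∈ T.secP q D₀ N p := by
    intro d' g hd' hg
    rw [T.secP_eq]
    exact bigr_mono (fun j _ => PV_mono hd' j) hg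
  have hvan : ∀ {d' : T.X.Pt → ℤ} {g : MvPolynomial (Fin 4) K}, (∀ Q, 0 ≤ d' Q) → 1 ≤ d' P →
      g ∈ bigr q N (T.PV q D₀ N p d') → g ∈ bigr q N (T.PV q D₀ N p (delta P)) := by
    intro d' g hd' h1 hg
    refine bigr_mono (fun j _ => PV_mono ?_ j) hg
    intro Q
    unfold delta
    split_ifs with h6
    · rw [h6]
      exact h1
    · exact hd' Q
  have t1 := γ.E₁_mem_PV hfix hmem
  have t2 := γ.E₂_mem_PV hfix hmem
  have t12 := γ.E₂_mem_PV hfix t1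
  have t0 := γ.tauE_mem_PV hfix hp hmem
  have t01 := γ.tauE_mem_PV hfix hp t1
  have t02 := γ.tauE_mem_PV hfix hp t2
  have t012 := γ.tauE_mem_PV hfix hp t12
  have hdB : ∀ Q, Q ∈ B → 1 ≤ d Q := by
    intro Q hQ
    rw [hd]
    dsimp only
    rw [if_pos hQ]
  have hBm : ∀ Q, (Q = γ.σ₁ P ∨ Q = γ.σ₂ P ∨ Q = γ.σ₁ (γ.σ₂ P) ∨ Q = γ.σ P ∨
      Q = γ.σ₁ (γ.σ P) ∨ Q = γ.σ₂ (γ.σ P) ∨ Q = γ.σ₁ (γ.σ₂ (γ.σ P))) → Q ∈ B := by
    intro Q hQ
    rw [hB]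
    simpa only [Finset.mem_insert, Finset.mem_singleton] using hQ
  have havm : γ.av h ∈ T.secP q D₀ N p ⊓ γ.secQ q D₀ N := by
    have g1 : γ.av h ∈ T.secP q D₀ N p := by
      rw [γ.av_eq]
      exact add_mem (hmem0 hd0 hmem) (add_mem (add_mem (add_mem (add_mem (add_mem (add_mem
        (hmem0 (fun Q => hd0 _) t1) (hmem0 (fun Q => hd0 _) t2)) (hmem0 (fun Q => hd0 _) t12))
        (hmem0 (fun Q => hd0 _) t0)) (hmem0 (fun Q => hd0 _) t01)) (hmem0 (fun Q => hd0 _) t02))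
        (hmem0 (fun Q => hd0 _) t012))
    exact ⟨g1, T.secP_le_sec q D₀ N p g1, Gam.E₁_av (evenDeg_of_bigr hmem), Gam.E₂_av h,
      Gam.tauE_av h⟩
  have hrest : γ.E₁ h + γ.E₂ h + γ.E₂ (γ.E₁ h) + γ.tauE h + γ.tauE (γ.E₁ h) + γ.tauE (γ.E₂ h) +
      γ.tauE (γ.E₂ (γ.E₁ h)) ∈ bigr q N (T.PV q D₀ N p (delta P)) := by
    refine add_mem (add_mem (add_mem (add_mem (add_mem (add_mem
        (hvan (fun Q => hd0 _) ?_ t1) (hvan (fun Q => hd0 _) ?_ t2)) (hvan (fun Q => hd0 _) ?_ t12))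
        (hvan (fun Q => hd0 _) ?_ t0)) (hvan (fun Q => hd0 _) ?_ t01))
        (hvan (fun Q => hd0 _) ?_ t02)) (hvan (fun Q => hd0 _) ?_ t012)
    all_goals
      apply hdB
      apply hBm
      simp
  have hdiff : monomial e (z - c • w) ∈ bigr q N (T.PV q D₀ N p (delta P)) := by
    refine monomial_mem_bigr h1 h2 h3 ?_
    rw [Datum.mem_PV]
    intro h0
    refine ⟨hpj, fun Q => ?_⟩
    unfold delta
    split_ifs with h6
    · rw [h6]
      have := hc h0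
      linarith
    · have g1 : z ∈ T.X.L (T.dvs q D₀ N j) := by
        intro _ Q
        linarith [h5 Q]
      have g2 : c • w ∈ T.X.L (T.dvs q D₀ N j) := by
        apply Submodule.smul_mem
        refine T.X.L_mono ?_ hw
        intro Q
        rw [Finsupp.sub_apply, hDBa]
        split_ifs <;> linarith
      have g3 := sub_mem g1 g2
      have := g3 h0 Q
      linarith
  have efin : monomial e z = γ.av h - (γ.E₁ h + γ.E₂ h + γ.E₂ (γ.E₁ h) + γ.tauE h +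
      γ.tauE (γ.E₁ h) + γ.tauE (γ.E₂ h) + γ.tauE (γ.E₂ (γ.E₁ h))) + monomial e (z - c • w) := by
    rw [γ.av_eq, add_sub_cancel_right, hh, ← map_add]
    congr 1
    ring
  rw [efin]
  have hdeg' : ∀ j, p j → |j| ≤ 5 * q * N → 2 * (T.X.genus : ℤ) ≤ T.X.deg (T.dvs q D₀ N j) :=
    fun j h7 h8 => by linarith [hdeg j h7 h8]
  refine add_mem (sub_mem (Submodule.mem_sup_left (T.X.mem_loc P havm))
    (Submodule.mem_sup_right (mem_span_of_vanish hdeg' P hrest)))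
    (Submodule.mem_sup_right (mem_span_of_vanish hdeg' P hdiff))

end Pool.Agent.YTD
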