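import Pool.Agent.YTD.SatB
import Pool.Agent.YTD.SatD

/-!
Serre's theorem: for divisors of large degree the twisted sheaf is generated in the naive sense.
-/

namespace Pool.Agent.YTD

open Finset Module MvPolynomial Filter

namespace Curve

variable {K : Type} [Field K] [Algebra ℂ K] (X : Curve K)
variable {V : Type} [AddCommGroup V] [Module K V] [Module ℂ V] [IsScalarTower ℂ K V]

/-- Approximation of finitely many local functions by a global one. -/
theorem exists_approx (D : X.Pt →₀ ℤ) (c : X.Pt → K) : ∀ (n : ℕ) (B : X.Pt →₀ ℤ),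
    (∀ P, 0 ≤ B P) → X.deg B = n → 2 * (X.genus : ℤ) - 1 ≤ X.deg D - n →
    (∀ Q, 0 < B Q → c Q ∈ X.ovan Q (-(D Q))) →
    ∃ z ∈ X.L D, ∀ Q, 0 < B Q → z - c Q ∈ X.ovan Q (B Q - D Q) := by
  classical
  intro n
  induction n with
  | zero =>
    intro B hB hdeg _ _
    refine ⟨0, zero_mem _, fun Q hQ => ?_⟩
    exfalso
    have h1 : ∀ P, (Finsupp.single Q 1 : X.Pt →₀ ℤ) P ≤ B P := by
      intro P
      rw [Finsupp.single_apply]
      split_ifs with h
      · subst h
        omega
      · exact hB P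
    have h2 := X.deg_mono h1
    rw [X.deg_single, hdeg] at h2
    norm_num at h2
  | succ n ih =>
    intro B hB hdeg hD hc
    obtain ⟨P, hP⟩ : ∃ P, 0 < B P := by
      by_contra hcon
      push Not at hcon
      have h1 : ∀ P, B P ≤ (0 : X.Pt →₀ ℤ) P := hcon
      have h2 := X.deg_mono h1
      rw [hdeg, X.deg_zero] at h2
      push_cast at h2
      linarith [Int.natCast_nonneg n]
    set B' : X.Pt →₀ ℤ := B - Finsupp.single P 1 with hB'
    have hB'P : B' P = B P - 1 := by
      rw [hB', Finsupp.sub_apply, Finsupp.single_eq_same]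
    have hB'Q : ∀ Q, Q ≠ P → B' Q = B Q := by
      intro Q hQ
      rw [hB', Finsupp.sub_apply, Finsupp.single_eq_of_ne hQ, sub_zero]
    have hB'0 : ∀ Q, 0 ≤ B' Q := by
      intro Q
      by_cases hQ : Q = P
      · rw [hQ, hB'P]
        omega
      · rw [hB'Q Q hQ]
        exact hB Q
    have hB'B : ∀ Q, B' Q ≤ B Q := by
      intro Q
      by_cases hQ : Q = P
      · rw [hQ, hB'P]
        omega
      · rw [hB'Q Q hQ]
    have hdeg' : X.deg B' = n := by
      rw [hB', X.deg_sub, X.deg_single, hdeg]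
      push_cast
      ring
    obtain ⟨z, hz, hzc⟩ := ih B' hB'0 hdeg' (by push_cast at hD; linarith)
      (fun Q hQ => hc Q (lt_of_lt_of_le hQ (hB'B Q)))
    -- the error at `P`
    have he : c P - z ∈ X.ovan P (B' P - D P) := by
      by_cases h0 : 0 < B' P
      · have h1 := neg_mem (hzc P h0)
        rwa [neg_sub] at h1
      · have h1 : B' P = 0 := le_antisymm (not_lt.1 h0) (hB'0 P)
        rw [h1, zero_sub]
        refine sub_mem (hc P hP) ?_
        intro h2
        have h3 := hz h2 P
        linarith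
    obtain ⟨y₀, hy₀, hy₀0, hy₀P⟩ := X.exists_ord_eq P (D := D - B') (by
      rw [X.deg_sub, hdeg']
      push_cast at hD
      linarith) P
    have hy₀P' : X.ord P y₀ = B' P - D P := by
      rw [hy₀P, Finsupp.sub_apply]
      ring
    obtain ⟨a, ha⟩ : ∃ a : ℂ, (c P - z) - a • y₀ ∈ X.ovan P (B P - D P) := by
      by_cases h0 : c P - z = 0
      · refine ⟨0, ?_⟩
        rw [h0, zero_smul, sub_zero]
        exact zero_mem _
      · rcases eq_or_lt_of_le (he h0) with h1 | h1
        · obtain ⟨a, ha⟩ := X.exists_sub_smul (P := P) h0 hy₀0 (by rw [hy₀P', h1])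
          refine ⟨a, fun h2 => ?_⟩
          have h3 := ha h2
          rw [hy₀P', hB'P] at h3
          omega
        · refine ⟨0, ?_⟩
          rw [zero_smul, sub_zero]
          intro _
          rw [hB'P] at h1
          omega
    have hy : ∀ Q, a • y₀ ∈ X.ovan Q (B' Q - D Q) := by
      intro Q
      apply Submodule.smul_mem
      intro _
      have h1 := hy₀ hy₀0 Q
      rw [Finsupp.sub_apply] at h1
      linarith
    refine ⟨z + a • y₀, add_mem hz (Submodule.smul_mem _ _ (X.L_mono (fun Q => ?_) hy₀)), ?_⟩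
    · rw [Finsupp.sub_apply]
      linarith [hB'0 Q]
    · intro Q hQ
      by_cases hQP : Q = P
      · subst hQP
        have e : z + a • y₀ - c Q = -((c Q - z) - a • y₀) := by ring
        rw [e]
        exact neg_mem ha
      · have e : z + a • y₀ - c Q = (z - c Q) + a • y₀ := by ring
        rw [e, ← hB'Q Q hQP]
        refine add_mem (hzc Q ?_) (hy Q)
        rw [hB'Q Q hQP]
        exact hQ

/-- Serre: for divisors of large degree the twisted sheaf is generated in the naive sense. -/
theorem exists_satD_le (P₀ : X.Pt) (U : Submodule ℂ V) [FiniteDimensional ℂ U] :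
    ∃ d₀ : ℤ, ∀ D : X.Pt →₀ ℤ, d₀ ≤ X.deg D →
      X.satD D U ≤ Submodule.span ℂ {f | ∃ z ∈ X.L D, ∃ u ∈ U, f = z • u} := by
  classical
  obtain ⟨w, hwU, hw, hspan⟩ := exists_basis (K := K) U
  obtain ⟨g, hg⟩ := exists_coord hw
  obtain ⟨B, hB0, hB⟩ := X.exists_map_le_L g U
  obtain ⟨s, hs⟩ := (Submodule.fg_iff_finiteDimensional U).2 inferInstance
  have hsU : ∀ u ∈ s, u ∈ U := fun u hu => by
    rw [← hs]
    exact Submodule.subset_span hu
  obtain ⟨n, hn⟩ : ∃ n : ℕ, X.deg B = n := ⟨(X.deg B).toNat, by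
    rw [Int.toNat_of_nonneg (X.deg_nonneg hB0)]⟩
  refine ⟨2 * (X.genus : ℤ) - 1 + n, fun D hD f hf => ?_⟩
  -- local expansions
  have hloc : ∀ Q : X.Pt, ∃ c : V → K, (∀ u, c u ∈ X.ovan Q (-(D Q))) ∧
      f = ∑ u ∈ s, c u • u := by
    intro Q
    obtain ⟨z₀, hz0, hz⟩ := X.exists_ord Q (D Q)
    have h1 := hf Q z₀ hz0 hz.ge
    rw [← hs, X.loc_span] at h1
    obtain ⟨a, -, ha⟩ := Submodule.mem_span_finset.1 h1
    refine ⟨fun u => z₀⁻¹ * (a u : K), fun u h0 => ?_, ?_⟩
    · have h2 := right_ne_zero_of_mul h0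
      rw [X.ord_mul Q _ _ (inv_ne_zero hz0) h2, X.ord_inv Q hz0, hz]
      linarith [(a u).2 h2]
    · have h3 : f = z₀⁻¹ • (z₀ • f) := by
        rw [smul_smul, inv_mul_cancel₀ hz0, one_smul]
      rw [h3, ← ha, Finset.smul_sum]
      refine Finset.sum_congr rfl fun u _ => ?_
      rw [mul_smul]
      rfl
  choose c hc hcf using hloc
  -- global approximations
  have happ : ∀ u : V, ∃ z ∈ X.L D, ∀ Q, 0 < B Q → z - c Q u ∈ X.ovan Q (B Q - D Q) := fun u =>
    X.exists_approx D (fun Q => c Q u) n B hB0 hn (by linarith) (fun Q _ => hc Q u)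
  choose z hz hzc using happ
  set f' : V := f - ∑ u ∈ s, z u • u with hf'
  have hsat : f' ∈ X.satD D U := by
    refine sub_mem hf (sum_mem fun u hu => ?_)
    intro Q y hy hyD
    rw [smul_smul]
    apply X.smul_mem_loc _ (X.mem_loc Q (hsU u hu))
    intro h0
    have h1 := right_ne_zero_of_mul h0
    rw [X.ord_mul Q _ _ hy h1]
    linarith [hz u h1 Q]
  have hcoord : ∀ i, g f' i ∈ X.L D := by
    intro i h0 Q
    by_cases hQ : 0 < B Q
    · have e : g f' i = ∑ u ∈ s, (c Q u - z u) * g u i := by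
        have e1 : f' = ∑ u ∈ s, (c Q u - z u) • u := by
          rw [hf']
          nth_rewrite 1 [hcf Q]
          rw [← Finset.sum_sub_distrib]
          refine Finset.sum_congr rfl fun u _ => ?_
          rw [sub_smul]
        rw [e1, map_sum, Finset.sum_apply]
        refine Finset.sum_congr rfl fun u _ => ?_
        rw [map_smul, Pi.smul_apply, smul_eq_mul]
      have h1 : g f' i ∈ X.ovan Q (-(D Q)) := by
        rw [e]
        refine sum_mem fun u hu => ?_
        intro h2
        have h3 := left_ne_zero_of_mul h2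
        have h4 := right_ne_zero_of_mul h2
        rw [X.ord_mul Q _ _ h3 h4]
        have h5 := neg_mem (hzc u Q hQ)
        rw [neg_sub] at h5
        have h6 := h5 h3
        have h7 := hB u (hsU u hu) i h4 Q
        linarith
      have h8 := h1 h0
      linarith
    · have hQ0 : B Q = 0 := le_antisymm (not_lt.1 hQ) (hB0 Q)
      have h1 := X.map_mem_L g i (fun u hu => hB u hu i) hsat h0 Q
      rw [Finsupp.add_apply, hQ0, add_zero] at h1
      exact h1
  have hf'eq : ∑ i, g f' i • w i = f' := coord_sum hg (by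
    rw [hspan]
    exact X.satD_le_span P₀ D U hsat)
  have e : f = ∑ i, g f' i • w i + ∑ u ∈ s, z u • u := by
    rw [hf'eq, hf', sub_add_cancel]
  rw [e]
  refine add_mem (sum_mem fun i _ => ?_) (sum_mem fun u hu => ?_)
  · exact Submodule.subset_span ⟨_, hcoord i, _, hwU i, rfl⟩
  · exact Submodule.subset_span ⟨_, hz u, _, hsU u hu, rfl⟩

end Curve

end Pool.Agent.YTD
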