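import Pool.Agent.YTD.SatB2

/-!
A bound for the dimension of the first cohomology of the sheaf generated by a space of sections.
-/

namespace Pool.Agent.YTD

open Finset Module MvPolynomial Filter

namespace Curve

variable {K : Type} [Field K] [Algebra ℂ K] (X : Curve K)
variable {V : Type} [AddCommGroup V] [Module K V] [Module ℂ V] [IsScalarTower ℂ K V]

/-- linearly equivalent twists -/
theorem finrank_satD_add_dv {D : X.Pt →₀ ℤ} {U : Submodule ℂ V} {z : K} (hz : z ≠ 0) :
    finrank ℂ (X.satD (D + X.dv z) U) = finrank ℂ (X.satD D U) := by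
  let φ : V →ₗ[ℂ] V :=
    { toFun := fun f => z • f
      map_add' := fun x y => smul_add z x y
      map_smul' := fun c x => by
        show z • c • x = c • z • x
        rw [← algebraMap_smul K c x, ← algebraMap_smul K c (z • x), smul_comm] }
  have hinj : Function.Injective φ := by
    intro x y h
    have h1 : z • x = z • y := h
    have h2 := congrArg (fun v => z⁻¹ • v) h1
    simp only [smul_smul, inv_mul_cancel₀ hz, one_smul] at h2
    exact h2
  have e : (X.satD (D + X.dv z) U).map φ = X.satD D U := by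
    ext f
    constructor
    · rintro ⟨x, hx, rfl⟩
      exact (X.smul_mem_satD hz).2 hx
    · intro hf
      refine ⟨z⁻¹ • f, ?_, ?_⟩
      · apply (X.smul_mem_satD hz).1
        rw [smul_smul, mul_inv_cancel₀ hz, one_smul]
        exact hf
      · show z • z⁻¹ • f = f
        rw [smul_smul, mul_inv_cancel₀ hz, one_smul]
  rw [← e]
  exact LinearEquiv.finrank_eq (Submodule.equivMapOfInjective φ hinj _)

/-- The constants are the only functions without poles. -/
theorem finrank_L_zero_le (P₀ : X.Pt) : finrank ℂ (X.L 0) ≤ 1 := by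
  have := X.infinite_Pt P₀
  obtain ⟨P₁, hP₁⟩ := exists_ne P₀
  have h1 : X.L 0 ≤ Submodule.span ℂ {(1 : K)} := by
    intro f hf
    have h2 : f ∈ X.ovan P₀ 0 := by
      intro h
      have := hf h P₀
      rwa [Finsupp.zero_apply, add_zero] at this
    obtain ⟨x, hx⟩ := X.exists_const_sub_mem hP₁ h2
    have h3 : algebraMap ℂ K x ∈ X.L 0 := by
      intro h P
      have hx0 : x ≠ 0 := by
        rintro rfl
        exact h (map_zero _)
      rw [X.ord_const P x hx0, Finsupp.zero_apply, add_zero]
    have h4 : f - algebraMap ℂ K x ∈ X.L 0 := sub_mem hf h3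
    have h5 : f - algebraMap ℂ K x ∈ X.L (-(Finsupp.single P₀ 1)) := by
      classical
      intro h P
      rw [Finsupp.neg_apply, Finsupp.single_apply]
      split_ifs with hP
      · subst hP
        have := hx h
        linarith
      · have := h4 h P
        rw [Finsupp.zero_apply] at this
        linarith
    rw [X.L_eq_bot (by rw [X.deg_neg, X.deg_single]; norm_num), Submodule.mem_bot,
      sub_eq_zero] at h5
    rw [Submodule.mem_span_singleton]
    refine ⟨x, ?_⟩
    rw [h5, Algebra.smul_def, mul_one]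
  have h2 := Submodule.finrank_mono h1
  exact h2.trans (finrank_span_singleton one_ne_zero).le

/-- The space of the combinations `∑ aᵢ wᵢ` with `aᵢ ∈ L(Eᵢ)`. -/
noncomputable def combo {ι : Type} [Fintype ι] (w : ι → V) (E : ι → X.Pt →₀ ℤ) :
    (∀ i, X.L (E i)) →ₗ[ℂ] V where
  toFun a := ∑ i, (a i : K) • w i
  map_add' a b := by
    rw [← Finset.sum_add_distrib]
    apply Finset.sum_congr rfl
    intro i _
    rw [← add_smul]
    rfl
  map_smul' c a := by
    rw [RingHom.id_apply, Finset.smul_sum]
    apply Finset.sum_congr rfl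
    intro i _
    rw [← smul_assoc]
    rfl

theorem finrank_range_combo {ι : Type} [Fintype ι] {w : ι → V} (hw : LinearIndependent K w)
    (E : ι → X.Pt →₀ ℤ) (P₀ : X.Pt) :
    finrank ℂ (LinearMap.range (X.combo w E)) = ∑ i, finrank ℂ (X.L (E i)) := by
  have hfin : ∀ i, FiniteDimensional ℂ (X.L (E i)) := fun i => X.finite_L P₀ (E i)
  obtain ⟨g, hg⟩ := exists_coord hw
  have hinj : Function.Injective (X.combo w E) := by
    intro a b hab
    funext i
    apply Subtype.ext
    have h1 : g (∑ i, (a i : K) • w i) = g (∑ i, (b i : K) • w i) := congrArg g hab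
    rw [hg, hg] at h1
    exact congrFun h1 i
  rw [LinearMap.finrank_range_of_inj hinj, Module.finrank_pi_fintype]

theorem finrank_add_le_of_good {ι : Type} [Fintype ι] {w : ι → V} (hw : LinearIndependent K w)
    {g : V →ₗ[K] (ι → K)} (hg : ∀ a : ι → K, g (∑ i, a i • w i) = a)
    (P₀ : X.Pt) (U : Submodule ℂ V) [FiniteDimensional ℂ U]
    (D : ι → X.Pt →₀ ℤ)
    (h : ∀ i P (z : K), z ≠ 0 → -(D i P) ≤ X.ord P z → z • w i ∈ X.loc P U)
    {A : X.Pt →₀ ℤ} (hA : ∀ P, 0 ≤ A P)
    (hgood : ∀ P, A P ≠ 0 → ∀ i, D i P = 0 ∧ ∀ u ∈ U, g u i ∈ X.ovan P 0) :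
    finrank ℂ (X.satD 0 U) + ∑ i, finrank ℂ (X.L (D i + A)) ≤
      finrank ℂ (X.satD A U) + ∑ i, finrank ℂ (X.L (D i)) := by
  have h0 := X.finite_satD P₀ 0 U
  have hAf := X.finite_satD P₀ A U
  have hfin : ∀ i, FiniteDimensional ℂ (X.L (D i + A)) := fun i => X.finite_L P₀ _
  have hfin' : ∀ i, FiniteDimensional ℂ (X.L (D i)) := fun i => X.finite_L P₀ _
  set M := LinearMap.range (X.combo w (fun i => D i + A)) with hM
  set M₀ := LinearMap.range (X.combo w D) with hM₀
  have h1 : X.satD 0 U ≤ X.satD A U := X.satD_mono (fun P => hA P) le_rfl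
  have h2 : M ≤ X.satD A U := by
    rintro _ ⟨a, rfl⟩ P z hz0 hz
    show z • ∑ i, (a i : K) • w i ∈ _
    rw [Finset.smul_sum]
    apply Submodule.sum_mem
    intro i _
    rw [smul_smul]
    by_cases ha : (a i : K) = 0
    · rw [ha, mul_zero, zero_smul]
      exact zero_mem _
    apply h i P _ (mul_ne_zero hz0 ha)
    rw [X.ord_mul P _ _ hz0 ha]
    have h3 := (a i).2 ha P
    rw [Finsupp.add_apply] at h3
    linarith
  have h3 : X.satD 0 U ⊓ M ≤ M₀ := by
    rintro f ⟨hf, ⟨a, rfl⟩⟩
    have hga : g (X.combo w (fun i => D i + A) a) = fun i => (a i : K) := hg _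
    have hmem : ∀ i, (a i : K) ∈ X.L (D i) := by
      intro i ha P
      by_cases hP : A P = 0
      · have h4 := (a i).2 ha P
        rwa [Finsupp.add_apply, hP, add_zero] at h4
      · obtain ⟨h5, h6⟩ := hgood P hP i
        have h7 := X.map_mem_ovan g i h6 (X.mem_satD_zero.1 hf P)
        rw [hga] at h7
        have h8 := h7 ha
        rw [h5]
        linarith
    exact ⟨fun i => ⟨a i, hmem i⟩, rfl⟩
  have h4 := Submodule.finrank_mono (sup_le h1 h2)
  have h5 := Submodule.finrank_mono h3
  have h6 := Submodule.finrank_sup_add_finrank_inf_eq (X.satD 0 U) M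
  rw [hM, X.finrank_range_combo hw _ P₀, ← hM] at h6
  rw [hM₀, X.finrank_range_combo hw _ P₀] at h5
  omega

theorem finrank_L_add_single (Q : X.Pt) {D : X.Pt →₀ ℤ} {n : ℕ}
    (hD : 2 * (X.genus : ℤ) - 1 ≤ X.deg D) :
    finrank ℂ (X.L D) + n = finrank ℂ (X.L (D + Finsupp.single Q (n : ℤ))) := by
  have h1 := X.riemann_roch D (by linarith)
  have h2 := X.riemann_roch (D + Finsupp.single Q (n : ℤ)) (by
    rw [X.deg_add, X.deg_single]
    linarith [Int.natCast_nonneg n])
  rw [X.deg_add, X.deg_single] at h2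
  omega

theorem finrank_L_single (Q : X.Pt) {n : ℕ} (hn : 2 * X.genus ≤ n) :
    finrank ℂ (X.L 0) + n ≤ finrank ℂ (X.L (0 + Finsupp.single Q (n : ℤ))) + X.genus := by
  have h1 := X.finrank_L_zero_le Q
  have h2 := X.riemann_roch (0 + Finsupp.single Q (n : ℤ)) (by
    rw [zero_add, X.deg_single]
    omega)
  rw [zero_add, X.deg_single] at h2
  rw [zero_add]
  omega

theorem bd_of_family (P₀ : X.Pt) (U : Submodule ℂ V) [FiniteDimensional ℂ U] {k₁ : ℕ}
    (v : Fin k₁ → V) (hv : LinearIndependent K v) (D : Fin k₁ → X.Pt →₀ ℤ)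
    (hD : ∀ i, 2 * (X.genus : ℤ) - 1 ≤ X.deg (D i))
    (h : ∀ i P (z : K), z ≠ 0 → -(D i P) ≤ X.ord P z → z • v i ∈ X.loc P U) :
    X.Bd U (X.genus * (CurveOrd.kdim K U - k₁)) := by
  classical
  obtain ⟨b, hbt, hvb, htb, hb⟩ := exists_linearIndepOn_id_extension (s := Set.range v)
    (t := Set.range v ∪ (U : Set V)) hv.linearIndepOn_id Set.subset_union_left
  have hvspan : ∀ i, v i ∈ Submodule.span K (U : Set V) := by
    intro i
    obtain ⟨z, hz0, hz⟩ := X.exists_ord P₀ (-(D i P₀))
    have h1 := X.loc_le_span P₀ U (h i P₀ z hz0 hz.ge)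
    have h2 := Submodule.smul_mem _ z⁻¹ h1
    rwa [smul_smul, inv_mul_cancel₀ hz0, one_smul] at h2
  have hbspan : Submodule.span K b = Submodule.span K (U : Set V) := by
    apply le_antisymm
    · apply Submodule.span_le.2
      intro x hx
      rcases hbt hx with ⟨i, rfl⟩ | hx
      · exact hvspan i
      · exact Submodule.subset_span hx
    · apply Submodule.span_le.2
      intro x hx
      exact htb (Or.inr hx)
  obtain ⟨w₀, -, hw₀, hw₀s⟩ := exists_basis (K := K) U
  have hfin : FiniteDimensional K (Submodule.span K b) := by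
    rw [hbspan, ← hw₀s]
    exact FiniteDimensional.span_of_finite K (Set.finite_range w₀)
  have hbli : LinearIndependent K (fun x : b => (x : V)) := hb
  have hbfin : Finite b := by
    have h3 : LinearIndependent K (fun x : b => (⟨x, Submodule.subset_span x.2⟩ :
        Submodule.span K b)) := by
      apply LinearIndependent.of_comp (Submodule.subtype _)
      exact hbli
    exact h3.finite
  have := Fintype.ofFinite b
  have hcard : Fintype.card b = CurveOrd.kdim K U := by
    unfold CurveOrd.kdim
    rw [← hbspan]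
    have := finrank_span_eq_card hbli
    rw [Subtype.range_coe] at this
    exact this.symm
  obtain ⟨g, hg⟩ := exists_coord hbli
  obtain ⟨B, hB0, hB⟩ := X.exists_map_le_L g U
  let D' : b → X.Pt →₀ ℤ := fun x =>
    if hx : (x : V) ∈ Set.range v then D hx.choose else 0
  have hD' : ∀ (x : b) P (z : K), z ≠ 0 → -(D' x P) ≤ X.ord P z → z • (x : V) ∈ X.loc P U := by
    intro x P z hz0 hz
    by_cases hx : (x : V) ∈ Set.range v
    · simp only [D', dif_pos hx] at hz
      have h1 := h _ P z hz0 hz
      rwa [hx.choose_spec] at h1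
    · simp only [D', dif_neg hx, Finsupp.zero_apply, neg_zero] at hz
      apply X.smul_mem_loc (fun _ => hz)
      rcases hbt x.2 with h1 | h1
      · exact (hx h1).elim
      · exact X.mem_loc P h1
  -- a good point
  have := X.infinite_Pt P₀
  obtain ⟨Q, hQ⟩ := (B.support ∪ Finset.univ.biUnion fun x : b => (D' x).support).exists_notMem
  rw [Finset.mem_union, not_or, Finset.mem_biUnion] at hQ
  push Not at hQ
  obtain ⟨hQ1, hQ2⟩ := hQ
  rw [Finsupp.notMem_support_iff] at hQ1
  have hQ3 : ∀ x : b, D' x Q = 0 := fun x =>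
    Finsupp.notMem_support_iff.1 (hQ2 x (Finset.mem_univ x))
  -- the inequality for multiples of `Q`
  let c : b → ℕ := fun x => if (x : V) ∈ Set.range v then 0 else X.genus
  have hc : ∑ x, c x = X.genus * (CurveOrd.kdim K U - k₁) := by
    have h1 : ∀ x : b, c x = X.genus * (if ¬ (x : V) ∈ Set.range v then 1 else 0) := by
      intro x
      by_cases hx : (x : V) ∈ Set.range v
      · rw [if_neg (not_not.2 hx), mul_zero]
        exact if_pos hx
      · rw [if_pos hx, mul_one]
        exact if_neg hx
    rw [Finset.sum_congr rfl fun x _ => h1 x, ← Finset.mul_sum, Finset.sum_boole]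
    congr 1
    have h2 : #{x : b | (x : V) ∈ Set.range v} = k₁ := by
      have h3 : ({x : b | (x : V) ∈ Set.range v} : Finset b) =
          Finset.univ.image fun i : Fin k₁ => (⟨v i, hvb ⟨i, rfl⟩⟩ : b) := by
        ext x
        simp only [Finset.mem_filter, Finset.mem_univ, true_and, Finset.mem_image, Set.mem_range]
        constructor
        · rintro ⟨i, hi⟩
          exact ⟨i, Subtype.ext hi⟩
        · rintro ⟨i, hi⟩
          exact ⟨i, congrArg Subtype.val hi⟩
      rw [h3, Finset.card_image_of_injective, Finset.card_univ, Fintype.card_fin]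
      intro i j hij
      exact hv.injective (congrArg Subtype.val hij)
    have h4 := Finset.card_filter_add_card_filter_not (s := (Finset.univ : Finset b))
      (fun x : b => (x : V) ∈ Set.range v)
    rw [Finset.card_univ, hcard, h2] at h4
    simp only [Nat.cast_id]
    omega
  have hkey : ∀ n : ℕ, 2 * X.genus ≤ n → finrank ℂ (X.satD 0 U) + n * CurveOrd.kdim K U ≤
      finrank ℂ (X.satD (Finsupp.single Q (n : ℤ)) U) +
        X.genus * (CurveOrd.kdim K U - k₁) := by
    intro n hn
    have h1 := X.finrank_add_le_of_good hbli hg P₀ U D' hD' (A := Finsupp.single Q (n : ℤ))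
      (by
        intro P
        rw [Finsupp.single_apply]
        split_ifs <;> omega)
      (by
        intro P hP x
        have hPQ : P = Q := by
          by_contra hne
          exact hP (Finsupp.single_eq_of_ne hne)
        subst hPQ
        refine ⟨hQ3 x, fun u hu h0 => ?_⟩
        have := hB u hu x h0 P
        rw [hQ1, add_zero] at this
        exact this)
    have h2 : ∀ x : b, finrank ℂ (X.L (D' x)) + n ≤
        finrank ℂ (X.L (D' x + Finsupp.single Q (n : ℤ))) + c x := by
      intro x
      by_cases hx : (x : V) ∈ Set.range v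
      · have e1 : D' x = D hx.choose := dif_pos hx
        have e2 : c x = 0 := if_pos hx
        rw [e1, e2, add_zero]
        exact (X.finrank_L_add_single Q (hD _)).le
      · have e1 : D' x = 0 := dif_neg hx
        have e2 : c x = X.genus := if_neg hx
        rw [e1, e2]
        exact X.finrank_L_single Q hn
    have h3 := Finset.sum_le_sum fun x (_ : x ∈ (Finset.univ : Finset b)) => h2 x
    rw [Finset.sum_add_distrib, Finset.sum_add_distrib, hc, Finset.sum_const, Finset.card_univ,
      hcard, smul_eq_mul] at h3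
    have h4 : CurveOrd.kdim K U * n = n * CurveOrd.kdim K U := mul_comm _ _
    omega
  -- the general case
  intro A hA
  have hdegA := X.deg_nonneg hA
  set n : ℕ := 2 * X.genus + (X.deg A).toNat with hn
  have hn' : (n : ℤ) = 2 * X.genus + X.deg A := by
    rw [hn]
    push_cast
    rw [Int.toNat_of_nonneg hdegA]
  have hne : X.L (Finsupp.single Q (n : ℤ) - A) ≠ ⊥ := by
    apply X.L_ne_bot
    rw [X.deg_sub, X.deg_single]
    linarith
  obtain ⟨z, hz, hz0⟩ := Submodule.exists_mem_ne_zero_of_ne_bot hne
  have h1 := X.finrank_satD_le P₀ (D := A) (E := Finsupp.single Q (n : ℤ) + X.dv z) (by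
    intro P
    have := hz hz0 P
    rw [Finsupp.sub_apply] at this
    rw [Finsupp.add_apply, X.dv_apply hz0]
    linarith) U
  rw [X.finrank_satD_add_dv hz0, X.deg_add, X.deg_single, X.deg_dv hz0] at h1
  have h2 := hkey n (by omega)
  have h3 : (finrank ℂ (X.satD 0 U) : ℤ) + n * CurveOrd.kdim K U ≤
      finrank ℂ (X.satD (Finsupp.single Q (n : ℤ)) U) +
        (X.genus * (CurveOrd.kdim K U - k₁) : ℕ) := by
    exact_mod_cast h2
  have h4 : (CurveOrd.kdim K U : ℤ) * ((n : ℤ) + 0 - X.deg A) =
      n * CurveOrd.kdim K U - CurveOrd.kdim K U * X.deg A := by ring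
  rw [h4] at h1
  linarith

end Curve

end Pool.Agent.YTD
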