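import Pool.Agent.YTD.Gam

/-!
The sheaf generated by a space of sections over a curve, and its twists: definitions.
The section rings of the quotients by `Γ` and their filtrations.
-/

namespace Pool.Agent.YTD

open Finset Module MvPolynomial Filter

namespace CurveOrd

variable {K : Type} [Field K] [Algebra ℂ K] (X : CurveOrd K)

/-- The local ring of the functions regular at `P`. -/
def OO (P : X.Pt) : Subring K where
  carrier := {z | z ≠ 0 → 0 ≤ X.ord P z}
  one_mem' := fun _ => (X.ord_one P).ge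
  zero_mem' := fun h => (h rfl).elim
  mul_mem' := by
    intro a b ha hb h
    have ha0 : a ≠ 0 := left_ne_zero_of_mul h
    have hb0 : b ≠ 0 := right_ne_zero_of_mul h
    rw [X.ord_mul P a b ha0 hb0]
    have := ha ha0
    have := hb hb0
    linarith
  add_mem' := by
    intro a b ha hb h
    by_cases ha0 : a = 0
    · subst ha0
      rw [zero_add] at h ⊢
      exact hb h
    by_cases hb0 : b = 0
    · subst hb0
      rw [add_zero] at h ⊢
      exact ha h
    have h1 := X.ord_add P a b ha0 hb0 h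
    have h2 := ha ha0
    have h3 := hb hb0
    rcases min_choice (X.ord P a) (X.ord P b) with h4 | h4 <;> rw [h4] at h1 <;> linarith
  neg_mem' := by
    intro a ha h
    have ha0 : a ≠ 0 := by
      rintro rfl
      exact h neg_zero
    have h1 : -a = algebraMap ℂ K (-1) * a := by
      rw [map_neg, map_one, neg_one_mul]
    have h2 : algebraMap ℂ K (-1) ≠ 0 := by
      rw [map_neg, map_one]
      exact neg_ne_zero.2 one_ne_zero
    rw [h1, X.ord_mul P _ _ h2 ha0, X.ord_const P (-1) (by norm_num), zero_add]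
    exact ha ha0

theorem mem_OO {P : X.Pt} {z : K} : z ∈ X.OO P ↔ (z ≠ 0 → 0 ≤ X.ord P z) := Iff.rfl

variable {V : Type} [AddCommGroup V] [Module K V] [Module ℂ V] [IsScalarTower ℂ K V]

/-- The stalk at `P` of the sheaf generated by `U`. -/
def loc (P : X.Pt) (U : Submodule ℂ V) : Submodule (X.OO P) V :=
  Submodule.span (X.OO P) (U : Set V)

/-- The global sections of the sheaf generated by `U`, twisted by the divisor `D`. -/
def satD (D : X.Pt →₀ ℤ) (U : Submodule ℂ V) : Submodule ℂ V where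
  carrier := {f | ∀ (P : X.Pt) (z : K), z ≠ 0 → D P ≤ X.ord P z → z • f ∈ X.loc P U}
  zero_mem' := by
    intro P z _ _
    rw [smul_zero]
    exact Submodule.zero_mem _
  add_mem' := by
    intro f g hf hg P z hz h
    rw [smul_add]
    exact Submodule.add_mem _ (hf P z hz h) (hg P z hz h)
  smul_mem' := by
    intro c f hf P z hz h
    by_cases hc : c = 0
    · rw [hc, zero_smul, smul_zero]
      exact Submodule.zero_mem _
    have hc' : algebraMap ℂ K c ≠ 0 := (map_ne_zero _).2 hc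
    have e : z • c • f = (z * algebraMap ℂ K c) • f := by
      rw [mul_smul, algebraMap_smul]
    rw [e]
    apply hf P _ (mul_ne_zero hz hc')
    rw [X.ord_mul P _ _ hz hc', X.ord_const P c hc, add_zero]
    exact h

/-- The dimension of the `K`-span. -/
noncomputable def kdim (K : Type) [Field K] [Algebra ℂ K] {V : Type} [AddCommGroup V]
    [Module K V] [Module ℂ V] (U : Submodule ℂ V) : ℕ :=
  finrank K (Submodule.span K (U : Set V))

/-- `Bd U h`: the first cohomology of the sheaf generated by `U` has dimension at most `h`. -/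
def Bd (U : Submodule ℂ V) (h : ℕ) : Prop := ∀ A : X.Pt →₀ ℤ, (∀ P, 0 ≤ A P) →
  (kdim K U : ℤ) * X.deg A + finrank ℂ (X.satD 0 U) ≤ finrank ℂ (X.satD A U) + h

end CurveOrd

variable {K : Type} [Field K] [Algebra ℂ K]
variable {T : Datum K} {q : ℕ} {D₀ : T.X.Pt →₀ ℤ} {r : ℕ}

/-- The sections of the `N`-th power of the line bundle on the quotient by `Γ`: the elements of
`sec N` fixed by `Γ`. -/
noncomputable def Gam.secQ (γ : Gam T) (q : ℕ) (D₀ : T.X.Pt →₀ ℤ) (N : ℕ) :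
    Submodule ℂ (MvPolynomial (Fin 4) K) where
  carrier := {f | f ∈ T.sec q D₀ N ∧ γ.E₁ f = f ∧ γ.E₂ f = f ∧ γ.tauE f = f}
  zero_mem' := ⟨zero_mem _, map_zero _, map_zero _, map_zero _⟩
  add_mem' := by
    rintro f g ⟨h1, h2, h3, h4⟩ ⟨h1', h2', h3', h4'⟩
    exact ⟨add_mem h1 h1', by rw [map_add, h2, h2'], by rw [map_add, h3, h3'],
      by rw [map_add, h4, h4']⟩
  smul_mem' := by
    rintro c f ⟨h1, h2, h3, h4⟩
    exact ⟨Submodule.smul_mem _ _ h1, by rw [map_smul, h2], by rw [map_smul, h3],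
      by rw [map_smul, h4]⟩

theorem Gam.mem_secQ {γ : Gam T} {N : ℕ} {f : MvPolynomial (Fin 4) K} :
    f ∈ γ.secQ q D₀ N ↔ f ∈ T.sec q D₀ N ∧ γ.E₁ f = f ∧ γ.E₂ f = f ∧ γ.tauE f = f := Iff.rfl

theorem Gam.secQ_le (γ : Gam T) (q : ℕ) (D₀ : T.X.Pt →₀ ℤ) (N : ℕ) :
    γ.secQ q D₀ N ≤ T.sec q D₀ N := fun _ h => h.1

/-- A linearly bounded multiplicative decreasing filtration of the graded ring
`⊕_N secQ (r N)` of the quotient. -/
structure QFilt (γ : Gam T) (q : ℕ) (D₀ : T.X.Pt →₀ ℤ) (r : ℕ) where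
  F : ℕ → ℤ → Submodule ℂ (MvPolynomial (Fin 4) K)
  le : ∀ N l, F N l ≤ γ.secQ q D₀ (r * N)
  anti : ∀ N l l', l ≤ l' → F N l' ≤ F N l
  mul : ∀ N N' l l', ∀ f ∈ F N l, ∀ g ∈ F N' l', f * g ∈ F (N + N') (l + l')
  bound : ∃ Λ : ℕ, ∀ N : ℕ, F N (-(Λ * N)) = γ.secQ q D₀ (r * N) ∧ F N (Λ * N + 1) = ⊥

/-- A test configuration of exponent `r` of the quotient: a filtration whose Rees algebra is
finitely generated. -/
structure QTestConf (γ : Gam T) (q : ℕ) (D₀ : T.X.Pt →₀ ℤ) (r : ℕ) extends QFilt γ q D₀ r where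
  fg : ∃ (k : ℕ) (n : Fin k → ℕ) (w : Fin k → ℤ) (f : Fin k → MvPolynomial (Fin 4) K),
    (∀ i, f i ∈ F (n i) (w i)) ∧
    ∀ N l, F N l ≤ Submodule.span ℂ {g | ∃ m : Fin k → ℕ,
      ∑ i, m i * n i = N ∧ l ≤ ∑ i, m i * w i ∧ g = ∏ i, f i ^ m i}

namespace QFilt

variable {γ : Gam T} (χ : QFilt γ q D₀ r)

/-- The dimension of the degree `N` part of the section ring. -/
noncomputable def dimN (_ : QFilt γ q D₀ r) (N : ℕ) : ℝ := finrank ℂ (γ.secQ q D₀ (r * N))

/-- The dimension of the part of weight `l`. -/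
noncomputable def wt (N : ℕ) (l : ℤ) : ℝ := finrank ℂ (χ.F N l) - finrank ℂ (χ.F N (l + 1))

/-- The trace of the `p`-th power of the generator of the `ℂ*`-action. -/
noncomputable def tr (p N : ℕ) : ℝ := ∑ᶠ l : ℤ, (l : ℝ) ^ p * χ.wt N l

/-- `a₀, a₁, b₀, b₁, c₀` are the coefficients of the asymptotic expansions. -/
def Expansion (a₀ a₁ b₀ b₁ c₀ : ℝ) : Prop :=
  (∃ C : ℝ, ∀ᶠ N : ℕ in Filter.atTop, |χ.dimN N - (a₀ * N ^ 4 + a₁ * N ^ 3)| ≤ C * N ^ 2) ∧
  (∃ C : ℝ, ∀ᶠ N : ℕ in Filter.atTop, |χ.tr 1 N - (b₀ * N ^ 5 + b₁ * N ^ 4)| ≤ C * N ^ 3) ∧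
  (∃ C : ℝ, ∀ᶠ N : ℕ in Filter.atTop, |χ.tr 2 N - c₀ * N ^ 6| ≤ C * N ^ 5)

/-- `Fut` is the Futaki invariant. -/
def HasFutaki (Fut : ℝ) : Prop :=
  ∃ a₀ a₁ b₀ b₁ c₀ : ℝ, χ.Expansion a₀ a₁ b₀ b₁ c₀ ∧ Fut = (a₁ * b₀ - a₀ * b₁) / a₀ ^ 2

end QFilt

end Pool.Agent.YTD
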