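import Pool.Agent.YTD.SatD

/-!
The saturated filtration of the section ring of the covering.
-/

namespace Pool.Agent.YTD

open Finset Module MvPolynomial Filter

variable {K : Type} [Field K] [Algebra ℂ K]
variable {T : Datum K} {q : ℕ} {D₀ : T.X.Pt →₀ ℤ} {r : ℕ}

theorem Datum.satD_secP (T : Datum K) (q : ℕ) (D₀ : T.X.Pt →₀ ℤ) (N : ℕ) (p : ℤ → Prop) :
    T.X.satD 0 (T.secP q D₀ N p) = T.secP q D₀ N p := by
  classical
  apply le_antisymm _ (T.X.le_satD _)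
  intro f hf
  rw [T.X.mem_satD_zero] at hf
  obtain ⟨P₀⟩ := T.exists_pt
  rw [T.secP_eq] at hf ⊢
  intro e he
  have h1 : ∃ u ∈ bigr q N (T.PV q D₀ N p (fun _ => 0)), u.coeff e ≠ 0 := by
    by_contra hcon
    push Not at hcon
    exact he (T.X.coeff_eq_zero_of_loc (hf P₀) hcon)
  obtain ⟨u, hu, hue⟩ := h1
  obtain ⟨j, h1, h2, h3, h4⟩ := hu e hue
  refine ⟨j, h1, h2, h3, ?_⟩
  rw [Datum.mem_PV] at h4 ⊢
  intro _
  refine ⟨(h4 hue).1, fun Q => ?_⟩
  refine T.X.coeff_mem_of_loc (hf Q) (n := 0 - T.dvs q D₀ N j Q) ?_ he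
  intro u' hu' hue'
  obtain ⟨j', g1, g2, g3, g4⟩ := hu' e hue'
  have hj : j' = j := by linarith
  subst hj
  rw [Datum.mem_PV] at g4
  exact (g4 hue').2 Q

theorem Datum.satD_sec (T : Datum K) (q : ℕ) (D₀ : T.X.Pt →₀ ℤ) (N : ℕ) :
    T.X.satD 0 (T.sec q D₀ N) = T.sec q D₀ N := by
  rw [← T.secP_true, T.satD_secP]

theorem Gam.loc_secP_eq (γ : Gam T) (hfix : γ.Fixes D₀) {N : ℕ} (p : ℤ → Prop)
    (hp : ∀ j, p j → p (-j))
    (hdeg : ∀ j, p j → |j| ≤ 5 * q * N → 2 * (T.X.genus : ℤ) + 7 ≤ T.X.deg (T.dvs q D₀ N j))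
    (P : T.X.Pt) : T.X.loc P (T.secP q D₀ N p ⊓ γ.secQ q D₀ N) =
      T.X.loc P (T.secP q D₀ N p) :=
  le_antisymm (T.X.loc_mono P inf_le_left) (γ.loc_secP hfix p hp hdeg P)

theorem Gam.satD_secP (γ : Gam T) (hfix : γ.Fixes D₀) {N : ℕ} (p : ℤ → Prop)
    (hp : ∀ j, p j → p (-j))
    (hdeg : ∀ j, p j → |j| ≤ 5 * q * N → 2 * (T.X.genus : ℤ) + 7 ≤ T.X.deg (T.dvs q D₀ N j)) :
    T.X.satD 0 (T.secP q D₀ N p ⊓ γ.secQ q D₀ N) = T.secP q D₀ N p := by
  rw [← T.satD_secP q D₀ N p]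
  ext f
  rw [T.X.mem_satD_zero, T.X.mem_satD_zero]
  simp only [T.satD_secP, γ.loc_secP_eq hfix p hp hdeg]

theorem Gam.loc_secQ (γ : Gam T) (hfix : γ.Fixes D₀) {N : ℕ}
    (hdeg : ∀ j : ℤ, |j| ≤ 5 * q * N → 2 * (T.X.genus : ℤ) + 7 ≤ T.X.deg (T.dvs q D₀ N j))
    (P : T.X.Pt) : T.X.loc P (γ.secQ q D₀ N) = T.X.loc P (T.sec q D₀ N) := by
  have h := γ.loc_secP_eq hfix (N := N) (fun _ => True) (fun _ _ => trivial)
    (fun j _ hj => hdeg j hj) P
  rwa [T.secP_true, inf_eq_right.2 (γ.secQ_le q D₀ N)] at h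

theorem Gam.satD_secQ (γ : Gam T) (hfix : γ.Fixes D₀) {N : ℕ}
    (hdeg : ∀ j : ℤ, |j| ≤ 5 * q * N → 2 * (T.X.genus : ℤ) + 7 ≤ T.X.deg (T.dvs q D₀ N j)) :
    T.X.satD 0 (γ.secQ q D₀ N) = T.sec q D₀ N := by
  have h := γ.satD_secP hfix (N := N) (fun _ => True) (fun _ _ => trivial)
    (fun j _ hj => hdeg j hj)
  rwa [T.secP_true, inf_eq_right.2 (γ.secQ_le q D₀ N)] at h

/-- the degree bound at the critical slope -/
theorem deg_bound_crit (hD : T.X.deg D₀ = 105 * T.t * q) (hq : 0 < q) {N : ℕ} (hN : 8 ≤ N)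
    (j : ℤ) (hj : |j| ≤ 5 * q * N) : 2 * (T.X.genus : ℤ) + 7 ≤ T.X.deg (T.dvs q D₀ N j) := by
  rw [deg_dvs_crit T q D₀ hD]
  have h1 := le_dg (t := T.t) hj
  have h2 : (T.X.genus : ℤ) = 9 * T.t + 1 := by
    rw [T.genus_eq]
    push_cast
    ring
  have h3 : (1 : ℤ) ≤ T.t := by exact_mod_cast T.t_pos
  have h4 : (1 : ℤ) ≤ q := by exact_mod_cast hq
  have h5 : (8 : ℤ) ≤ N := by exact_mod_cast hN
  have h6 : (8 : ℤ) ≤ q * N := by nlinarith
  have h7 : 5 * (T.t : ℤ) * 8 ≤ 5 * T.t * (q * N) := by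
    apply mul_le_mul_of_nonneg_left h6
    positivity
  rw [h2]
  nlinarith

/-- regular functions on the curve are constant -/
theorem Curve.exists_const (X : Curve K) (P₀ : X.Pt) {z : K} (hz : z ∈ X.L 0) :
    ∃ c : ℂ, z = algebraMap ℂ K c := by
  classical
  have hinf := X.infinite_Pt P₀
  obtain ⟨P₁, hP₁⟩ := exists_ne P₀
  obtain ⟨c, hc⟩ := X.exists_const_sub_mem (c := P₀) hP₁ (z := z) (fun h0 => by
    have := hz h0 P₀
    rwa [Finsupp.zero_apply, add_zero] at this)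
  refine ⟨c, ?_⟩
  by_contra hne
  have h0 : z - algebraMap ℂ K c ≠ 0 := sub_ne_zero.2 hne
  have h1 : z - algebraMap ℂ K c ∈ X.L 0 := by
    apply sub_mem hz
    intro h2 Q
    have h3 : c ≠ 0 := by
      rintro rfl
      exact h2 (map_zero _)
    rw [X.ord_const Q c h3, Finsupp.zero_apply, add_zero]
  have h2 : z - algebraMap ℂ K c ∈ X.L (0 - Finsupp.single P₀ 1) := by
    intro _ Q
    rw [Finsupp.sub_apply, Finsupp.single_apply]
    split_ifs with h3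
    · subst h3
      have := hc h0
      rw [Finsupp.zero_apply]
      linarith
    · have := h1 h0 Q
      rw [Finsupp.zero_apply] at this ⊢
      linarith
  rw [X.L_eq_bot (by rw [X.deg_sub, X.deg_zero, X.deg_single]; norm_num)] at h2
  exact h0 h2

theorem Gam.secQ_zero (γ : Gam T) (q : ℕ) (D₀ : T.X.Pt →₀ ℤ) :
    γ.secQ q D₀ 0 = T.sec q D₀ 0 := by
  apply le_antisymm (γ.secQ_le q D₀ 0)
  intro f hf
  obtain ⟨P₀⟩ := T.exists_pt
  have key : ∃ c : ℂ, f = c • (1 : MvPolynomial (Fin 4) K) := by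
    have h0 : ∀ e, f.coeff e ≠ 0 → e = 0 ∧ f.coeff e ∈ T.X.L 0 := by
      intro e he
      obtain ⟨j, h1, h2, h3, h4⟩ := hf e he
      have hj : j = 0 := by simpa using h1
      subst hj
      simp only [Nat.cast_zero, mul_zero, add_zero, sub_zero] at h2 h3
      refine ⟨?_, ?_⟩
      · ext i
        have a0 : e 0 = 0 := by omega
        have a1 : e 1 = 0 := by omega
        have a2 : e 2 = 0 := by omega
        have a3 : e 3 = 0 := by omega
        fin_cases i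
        · exact a0
        · exact a1
        · exact a2
        · exact a3
      · have h5 : T.dvs q D₀ 0 0 = 0 := by
          unfold Datum.dvs
          simp
        unfold Datum.V at h4
        rwa [h5] at h4
    by_cases hf0 : f.coeff 0 = 0
    · refine ⟨0, ?_⟩
      rw [zero_smul]
      ext e
      rw [coeff_zero]
      by_contra he
      rw [(h0 e he).1] at he
      exact he hf0
    · obtain ⟨c, hc⟩ := T.X.exists_const P₀ (h0 0 hf0).2
      refine ⟨c, ?_⟩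
      ext e
      rw [coeff_smul, coeff_one]
      by_cases he : 0 = e
      · rw [if_pos he, ← he, hc, Algebra.smul_def, mul_one]
      · rw [if_neg he, smul_zero]
        by_contra h1
        exact he (h0 e h1).1.symm
  obtain ⟨c, rfl⟩ := key
  exact ⟨hf, by rw [map_smul, map_one], by rw [map_smul, map_one], by rw [map_smul, map_one]⟩

/-- A semilinear automorphism fixing `U` pointwise preserves the saturation of `U`. -/
theorem satD_stable {E : Autom K} {θ : K ≃ₐ[ℂ] K} {σ : T.X.Pt → T.X.Pt}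
    (hσσ : ∀ P, σ (σ P) = P) (hσ : ∀ P z, z ≠ 0 → T.X.ord (σ P) (θ z) = T.X.ord P z)
    (hE : ∀ (z : K) (f : MvPolynomial (Fin 4) K), E (z • f) = θ z • E f)
    {U : Submodule ℂ (MvPolynomial (Fin 4) K)} (hU : ∀ u ∈ U, E u ∈ U)
    {f : MvPolynomial (Fin 4) K} (hf : f ∈ T.X.satD 0 U) : E f ∈ T.X.satD 0 U := by
  rw [T.X.mem_satD_zero] at hf ⊢
  intro P
  have h1 := hf (σ P)
  clear hf
  induction h1 using Submodule.span_induction with
  | mem x hx => exact T.X.mem_loc P (hU x hx)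
  | zero =>
    rw [map_zero]
    exact zero_mem _
  | add x y _ _ h1 h2 =>
    rw [map_add]
    exact add_mem h1 h2
  | smul a x _ h =>
    have e : E (a • x) = θ (a : K) • E x := hE a x
    rw [e]
    apply T.X.smul_mem_loc _ h
    intro h0
    have ha : (a : K) ≠ 0 := by
      intro h2
      exact h0 (by rw [h2, map_zero])
    have h2 := hσ (σ P) a ha
    rw [hσσ] at h2
    rw [h2]
    exact a.2 ha

/-- The filtration of the section ring generated, locally over the curve, by a filtration of the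
section ring of the quotient. -/
noncomputable def QFilt.sat {γ : Gam T} (χ : QFilt γ q D₀ r) (hfix : γ.Fixes D₀)
    (hD : T.X.deg D₀ = 105 * T.t * q) (hq : 0 < q) (hr : 8 ≤ r) : Filt T q D₀ r where
  F := fun N l => T.X.satD 0 (χ.F N l)
  le := by
    intro N l
    rw [← T.satD_sec]
    exact T.X.satD_mono (fun _ => le_rfl) ((χ.le N l).trans (γ.secQ_le q D₀ _))
  anti := fun N l l' h => T.X.satD_mono (fun _ => le_rfl) (χ.anti N l l' h)
  mul := by
    intro N N' l l' f hf g hg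
    refine T.X.satD_mono (fun _ => le_rfl) ?_ (T.X.mul_mem_satD hf hg)
    exact Submodule.mul_le.2 fun a ha b hb => χ.mul N N' l l' a ha b hb
  bound := by
    obtain ⟨Λ, hΛ⟩ := χ.bound
    obtain ⟨P₀⟩ := T.exists_pt
    refine ⟨Λ, fun N => ⟨?_, ?_⟩⟩
    · rw [(hΛ N).1]
      rcases Nat.eq_zero_or_pos N with h | h
      · subst h
        rw [mul_zero, γ.secQ_zero, T.satD_sec]
      · exact γ.satD_secQ hfix (deg_bound_crit hD hq (hr.trans (Nat.le_mul_of_pos_right r h)))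
    · rw [(hΛ N).2, T.X.satD_zero_bot P₀]

theorem QFilt.sat_F {γ : Gam T} (χ : QFilt γ q D₀ r) (hfix : γ.Fixes D₀)
    (hD : T.X.deg D₀ = 105 * T.t * q) (hq : 0 < q) (hr : 8 ≤ r) (N : ℕ) (l : ℤ) :
    (χ.sat hfix hD hq hr).F N l = T.X.satD 0 (χ.F N l) := rfl

/-- the same bound holds -/
theorem QFilt.sat_bound {γ : Gam T} (χ : QFilt γ q D₀ r) (hfix : γ.Fixes D₀)
    (hD : T.X.deg D₀ = 105 * T.t * q) (hq : 0 < q) (hr : 8 ≤ r) {Λ : ℕ}
    (hΛ : ∀ N : ℕ, χ.F N (-(Λ * N)) = γ.secQ q D₀ (r * N) ∧ χ.F N (Λ * N + 1) = ⊥) (N : ℕ) :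
    (χ.sat hfix hD hq hr).F N (-(Λ * N)) = T.sec q D₀ (r * N) ∧
      (χ.sat hfix hD hq hr).F N (Λ * N + 1) = ⊥ := by
  obtain ⟨P₀⟩ := T.exists_pt
  rw [QFilt.sat_F, QFilt.sat_F, (hΛ N).1, (hΛ N).2, T.X.satD_zero_bot P₀]
  refine ⟨?_, rfl⟩
  rcases Nat.eq_zero_or_pos N with h | h
  · subst h
    rw [mul_zero, γ.secQ_zero, T.satD_sec]
  · exact γ.satD_secQ hfix (deg_bound_crit hD hq (hr.trans (Nat.le_mul_of_pos_right r h)))

theorem QFilt.sat_gamInv {γ : Gam T} (χ : QFilt γ q D₀ r) (hfix : γ.Fixes D₀)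
    (hD : T.X.deg D₀ = 105 * T.t * q) (hq : 0 < q) (hr : 8 ≤ r) :
    (χ.sat hfix hD hq hr).GamInv γ where
  E₁ N l f hf := satD_stable γ.σσ₁ γ.ord_σ₁ γ.E₁_smul (fun u hu => by
    rw [(χ.le N l hu).2.1]
    exact hu) hf
  E₂ N l f hf := satD_stable γ.σσ₂ γ.ord_σ₂ γ.E₂_smul (fun u hu => by
    rw [(χ.le N l hu).2.2.1]
    exact hu) hf
  tau N l f hf := satD_stable γ.σσ γ.ord_σ γ.tauE_smul (fun u hu => by
    rw [(χ.le N l hu).2.2.2]
    exact hu) hf

end Pool.Agent.YTD
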