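import Pool.Agent.YTD.SatE
import Pool.Agent.YTD.SatB2

/-!
Semilinear involutions and the isotypic decomposition of the sections.
-/

namespace Pool.Agent.YTD

open Finset Module MvPolynomial Filter

namespace CurveOrd

variable {K : Type} [Field K] [Algebra ℂ K] {X : CurveOrd K}
variable {V : Type} [AddCommGroup V] [Module K V] [Module ℂ V] [IsScalarTower ℂ K V]

variable (X) in
/-- The stalk of the sheaf generated by `U`, twisted by `n P`. -/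
def stk (P : X.Pt) (n : ℤ) (U : Submodule ℂ V) : Set V :=
  {f | ∀ z : K, z ≠ 0 → n ≤ X.ord P z → z • f ∈ X.loc P U}

theorem mem_satD_iff {D : X.Pt →₀ ℤ} {U : Submodule ℂ V} {f : V} :
    f ∈ X.satD D U ↔ ∀ P, f ∈ X.stk P (D P) U := Iff.rfl

/-- A semilinear involution. -/
structure SInv (X : CurveOrd K) (V : Type) [AddCommGroup V] [Module K V] [Module ℂ V]
    [IsScalarTower ℂ K V] where
  θ : K ≃ₐ[ℂ] K
  σ : X.Pt → X.Pt
  θθ : ∀ z, θ (θ z) = z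
  σσ : ∀ P, σ (σ P) = P
  ord_σ : ∀ P z, z ≠ 0 → X.ord (σ P) (θ z) = X.ord P z
  E : V →ₗ[ℂ] V
  E_smul : ∀ (z : K) (v : V), E (z • v) = θ z • E v

namespace SInv

variable (S : SInv X V) {U : Submodule ℂ V}

theorem ord_θ (P : X.Pt) {z : K} (hz : z ≠ 0) : X.ord P (S.θ z) = X.ord (S.σ P) z := by
  have := S.ord_σ (S.σ P) z hz
  rwa [S.σσ] at this

theorem E_span (hU : ∀ u ∈ U, S.E u = u) {f : V} (hf : f ∈ Submodule.span K (U : Set V)) :
    S.E f ∈ Submodule.span K (U : Set V) := by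
  induction hf using Submodule.span_induction with
  | mem x h => rw [hU x h]; exact Submodule.subset_span h
  | zero => rw [map_zero]; exact zero_mem _
  | add x y _ _ hx hy => rw [map_add]; exact add_mem hx hy
  | smul a x _ hx => rw [S.E_smul]; exact Submodule.smul_mem _ _ hx

theorem E_E (hU : ∀ u ∈ U, S.E u = u) {f : V} (hf : f ∈ Submodule.span K (U : Set V)) :
    S.E (S.E f) = f := by
  induction hf using Submodule.span_induction with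
  | mem x h => rw [hU x h, hU x h]
  | zero => rw [map_zero, map_zero]
  | add x y _ _ hx hy => rw [map_add, map_add, hx, hy]
  | smul a x _ hx => rw [S.E_smul, S.E_smul, S.θθ, hx]

theorem E_comm {S' : SInv X V} (hc : ∀ z, S.θ (S'.θ z) = S'.θ (S.θ z))
    (hU : ∀ u ∈ U, S.E u = u) (hU' : ∀ u ∈ U, S'.E u = u) {f : V}
    (hf : f ∈ Submodule.span K (U : Set V)) : S.E (S'.E f) = S'.E (S.E f) := by
  induction hf using Submodule.span_induction with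
  | mem x h => rw [hU' x h, hU x h, hU' x h]
  | zero => rw [map_zero, map_zero, map_zero]
  | add x y _ _ hx hy => rw [map_add, map_add, map_add, map_add, hx, hy]
  | smul a x _ hx => rw [S'.E_smul, S.E_smul, S.E_smul, S'.E_smul, hx, hc]

theorem E_loc (hU : ∀ u ∈ U, S.E u = u) {P : X.Pt} {f : V} (hf : f ∈ X.loc P U) :
    S.E f ∈ X.loc (S.σ P) U := by
  unfold loc at hf
  induction hf using Submodule.span_induction with
  | mem x h => rw [hU x h]; exact Submodule.subset_span h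
  | zero => rw [map_zero]; exact zero_mem _
  | add x y _ _ hx hy => rw [map_add]; exact add_mem hx hy
  | smul a x _ hx =>
    have e : S.E (a • x) = S.θ (a : K) • S.E x := S.E_smul a x
    rw [e]
    have ha : S.θ (a : K) ∈ X.OO (S.σ P) := by
      intro h0
      have h1 : (a : K) ≠ 0 := by
        intro h2
        rw [h2, map_zero] at h0
        exact h0 rfl
      rw [S.ord_σ P _ h1]
      exact a.2 h1
    exact Submodule.smul_mem (X.loc (S.σ P) U) (⟨S.θ (a : K), ha⟩ : X.OO (S.σ P)) hx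

theorem E_stk (hU : ∀ u ∈ U, S.E u = u) {P : X.Pt} {n : ℤ} {f : V} (hf : f ∈ X.stk P n U) :
    S.E f ∈ X.stk (S.σ P) n U := by
  intro z hz hn
  have hz' : S.θ z ≠ 0 := (map_ne_zero _).2 hz
  have h1 := hf (S.θ z) hz' (by rwa [S.ord_θ P hz])
  have h2 := S.E_loc hU h1
  rwa [S.E_smul, S.θθ] at h2

theorem E_satD (hU : ∀ u ∈ U, S.E u = u) {D : X.Pt →₀ ℤ} (hD : ∀ P, D (S.σ P) = D P) {f : V}
    (hf : f ∈ X.satD D U) : S.E f ∈ X.satD D U := by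
  rw [mem_satD_iff] at hf ⊢
  intro P
  have h1 := S.E_stk hU (hf (S.σ P))
  rwa [S.σσ, hD] at h1

end SInv

/-- the eigenspaces of an involution -/
def eig (E : V →ₗ[ℂ] V) (ε : ℤˣ) : Submodule ℂ V where
  carrier := {f | E f = (ε : ℤ) • f}
  zero_mem' := by
    show E 0 = (ε : ℤ) • (0 : V)
    rw [map_zero, smul_zero]
  add_mem' := by
    intro f g hf hg
    show E (f + g) = (ε : ℤ) • (f + g)
    rw [map_add, show E f = (ε : ℤ) • f from hf, show E g = (ε : ℤ) • g from hg, smul_add]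
  smul_mem' := by
    intro c f hf
    show E (c • f) = (ε : ℤ) • (c • f)
    rw [map_smul, show E f = (ε : ℤ) • f from hf, smul_comm]

theorem mem_eig {E : V →ₗ[ℂ] V} {ε : ℤˣ} {f : V} : f ∈ eig E ε ↔ E f = (ε : ℤ) • f := Iff.rfl

theorem finrank_split (W : Submodule ℂ V) [FiniteDimensional ℂ W] (E : V →ₗ[ℂ] V)
    (h1 : ∀ f ∈ W, E f ∈ W) (h2 : ∀ f ∈ W, E (E f) = f) :
    ∑ ε : ℤˣ, finrank ℂ (W ⊓ eig E ε : Submodule ℂ V) = finrank ℂ W := by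
  have hsup : (W ⊓ eig E 1) ⊔ (W ⊓ eig E (-1)) = W := by
    apply le_antisymm
    · exact sup_le inf_le_left inf_le_left
    · intro f hf
      have e : f = ((1 / 2 : ℂ) • (f + E f)) + ((1 / 2 : ℂ) • (f - E f)) := by
        rw [← smul_add, add_add_sub_cancel, ← two_smul ℂ f, smul_smul]
        norm_num
      rw [e]
      apply Submodule.add_mem_sup
      · refine ⟨Submodule.smul_mem _ _ (add_mem hf (h1 f hf)), ?_⟩
        rw [SetLike.mem_coe, mem_eig, map_smul, map_add, h2 f hf]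
        rw [Units.val_one, one_smul, add_comm]
      · refine ⟨Submodule.smul_mem _ _ (sub_mem hf (h1 f hf)), ?_⟩
        rw [SetLike.mem_coe, mem_eig, map_smul, map_sub, h2 f hf]
        rw [Units.val_neg, Units.val_one, neg_smul, one_smul, ← smul_neg, neg_sub]
  have hinf : (W ⊓ eig E 1) ⊓ (W ⊓ eig E (-1)) = ⊥ := by
    rw [eq_bot_iff]
    rintro f ⟨⟨_, h3⟩, ⟨_, h4⟩⟩
    rw [SetLike.mem_coe, mem_eig, Units.val_one, one_smul] at h3
    rw [SetLike.mem_coe, mem_eig, Units.val_neg, Units.val_one, neg_smul, one_smul, h3] at h4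
    rw [Submodule.mem_bot]
    have h5 : (2 : ℂ) • f = 0 := by
      rw [two_smul]
      nth_rewrite 1 [h4]
      rw [neg_add_cancel]
    rcases smul_eq_zero.1 h5 with h6 | h6
    · norm_num at h6
    · exact h6
  have f1 : FiniteDimensional ℂ (W ⊓ eig E 1 : Submodule ℂ V) :=
    Submodule.finiteDimensional_of_le (inf_le_left : W ⊓ eig E 1 ≤ W)
  have f2 : FiniteDimensional ℂ (W ⊓ eig E (-1) : Submodule ℂ V) :=
    Submodule.finiteDimensional_of_le (inf_le_left : W ⊓ eig E (-1) ≤ W)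
  have h3 := Submodule.finrank_sup_add_finrank_inf_eq (W ⊓ eig E 1) (W ⊓ eig E (-1))
  rw [hsup, hinf, finrank_bot, add_zero] at h3
  rw [h3, UnitsInt.univ, Finset.sum_insert (by decide), Finset.sum_singleton]

/-- isotypic part -/
def iso (W : Submodule ℂ V) (E₀ E₁ E₂ : V →ₗ[ℂ] V) (ε : ℤˣ × ℤˣ × ℤˣ) : Submodule ℂ V :=
  ((W ⊓ eig E₀ ε.1) ⊓ eig E₁ ε.2.1) ⊓ eig E₂ ε.2.2

theorem iso_le (W : Submodule ℂ V) (E₀ E₁ E₂ : V →ₗ[ℂ] V) (ε : ℤˣ × ℤˣ × ℤˣ) :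
    iso W E₀ E₁ E₂ ε ≤ W := (inf_le_left.trans inf_le_left).trans inf_le_left

theorem mem_iso {W : Submodule ℂ V} {E₀ E₁ E₂ : V →ₗ[ℂ] V} {ε : ℤˣ × ℤˣ × ℤˣ} {f : V} :
    f ∈ iso W E₀ E₁ E₂ ε ↔ f ∈ W ∧ E₀ f = (ε.1 : ℤ) • f ∧ E₁ f = (ε.2.1 : ℤ) • f ∧
      E₂ f = (ε.2.2 : ℤ) • f := by
  unfold iso
  simp only [Submodule.mem_inf, mem_eig]
  tauto

theorem sum_iso (W : Submodule ℂ V) [FiniteDimensional ℂ W] (E₀ E₁ E₂ : V →ₗ[ℂ] V)
    (a0 : ∀ f ∈ W, E₀ f ∈ W) (a1 : ∀ f ∈ W, E₁ f ∈ W) (a2 : ∀ f ∈ W, E₂ f ∈ W)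
    (b0 : ∀ f ∈ W, E₀ (E₀ f) = f) (b1 : ∀ f ∈ W, E₁ (E₁ f) = f) (b2 : ∀ f ∈ W, E₂ (E₂ f) = f)
    (c01 : ∀ f ∈ W, E₀ (E₁ f) = E₁ (E₀ f)) (c02 : ∀ f ∈ W, E₀ (E₂ f) = E₂ (E₀ f))
    (c12 : ∀ f ∈ W, E₁ (E₂ f) = E₂ (E₁ f)) :
    ∑ ε : ℤˣ × ℤˣ × ℤˣ, finrank ℂ (iso W E₀ E₁ E₂ ε) = finrank ℂ W := by
  have hfin : ∀ W' : Submodule ℂ V, W' ≤ W → FiniteDimensional ℂ W' := fun W' h =>
    Submodule.finiteDimensional_of_le h
  rw [Fintype.sum_prod_type]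
  simp only [Fintype.sum_prod_type]
  have s2 : ∀ ε₀ ε₁ : ℤˣ, ∑ ε₂ : ℤˣ, finrank ℂ (iso W E₀ E₁ E₂ (ε₀, ε₁, ε₂)) =
      finrank ℂ ((W ⊓ eig E₀ ε₀) ⊓ eig E₁ ε₁ : Submodule ℂ V) := by
    intro ε₀ ε₁
    have := hfin ((W ⊓ eig E₀ ε₀) ⊓ eig E₁ ε₁) (inf_le_left.trans inf_le_left)
    refine finrank_split ((W ⊓ eig E₀ ε₀) ⊓ eig E₁ ε₁) E₂ ?_ ?_
    · rintro f ⟨⟨h1, h2⟩, h3⟩
      rw [SetLike.mem_coe, mem_eig] at h2 h3
      refine ⟨⟨a2 f h1, ?_⟩, ?_⟩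
      · rw [SetLike.mem_coe, mem_eig, c02 f h1, h2, map_zsmul]
      · rw [SetLike.mem_coe, mem_eig, c12 f h1, h3, map_zsmul]
    · rintro f ⟨⟨h1, _⟩, _⟩
      exact b2 f h1
  have s1 : ∀ ε₀ : ℤˣ, ∑ ε₁ : ℤˣ, finrank ℂ ((W ⊓ eig E₀ ε₀) ⊓ eig E₁ ε₁ : Submodule ℂ V) =
      finrank ℂ (W ⊓ eig E₀ ε₀ : Submodule ℂ V) := by
    intro ε₀
    have := hfin (W ⊓ eig E₀ ε₀) inf_le_left
    refine finrank_split (W ⊓ eig E₀ ε₀) E₁ ?_ ?_
    · rintro f ⟨h1, h2⟩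
      rw [SetLike.mem_coe, mem_eig] at h2
      refine ⟨a1 f h1, ?_⟩
      rw [SetLike.mem_coe, mem_eig, c01 f h1, h2, map_zsmul]
    · rintro f ⟨h1, _⟩
      exact b1 f h1
  simp only [s2, s1]
  exact finrank_split W E₀ a0 b0

end CurveOrd

end Pool.Agent.YTD
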