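import Pool.Agent.YTD.SatF1

/-!
Isotypic components of the sections of the twists of the sheaf generated by a space of
`Γ`-invariant sections.
-/

namespace Pool.Agent.YTD

open Finset Module MvPolynomial Filter CurveOrd

variable {K : Type} [Field K] [Algebra ℂ K]
variable {T : Datum K} {q : ℕ} {D₀ : T.X.Pt →₀ ℤ}

namespace Gam

variable (γ : Gam T)

/-- the semilinear involution `τ` -/
noncomputable def S₀ : SInv T.X.toCurveOrd (MvPolynomial (Fin 4) K) where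
  θ := γ.θ
  σ := γ.σ
  θθ := γ.θθ
  σσ := γ.σσ
  ord_σ := γ.ord_σ
  E := γ.tauE.toLinearMap
  E_smul := by
    intro z v
    show γ.tauE (z • v) = γ.θ z • γ.tauE v
    rw [MvPolynomial.smul_eq_C_mul, MvPolynomial.smul_eq_C_mul, map_mul]
    congr 1
    rw [Inv.tauE_apply, rename_C, map_C]
    rfl

/-- the semilinear involution `E₁` -/
noncomputable def S₁ : SInv T.X.toCurveOrd (MvPolynomial (Fin 4) K) where
  θ := γ.θ₁
  σ := γ.σ₁
  θθ := γ.θθ₁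
  σσ := γ.σσ₁
  ord_σ := γ.ord_σ₁
  E := γ.E₁.toLinearMap
  E_smul := by
    intro z v
    show γ.E₁ (z • v) = γ.θ₁ z • γ.E₁ v
    rw [E₁_apply, map_smul, MvPolynomial.smul_eq_C_mul, MvPolynomial.smul_eq_C_mul, map_mul, map_C]
    rfl

/-- the semilinear involution `E₂` -/
noncomputable def S₂ : SInv T.X.toCurveOrd (MvPolynomial (Fin 4) K) where
  θ := γ.θ₂
  σ := γ.σ₂
  θθ := γ.θθ₂
  σσ := γ.σσ₂
  ord_σ := γ.ord_σ₂
  E := γ.E₂.toLinearMap
  E_smul := by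
    intro z v
    show γ.E₂ (z • v) = γ.θ₂ z • γ.E₂ v
    rw [E₂_apply, map_smul, MvPolynomial.smul_eq_C_mul, MvPolynomial.smul_eq_C_mul, map_mul, map_C]
    rfl

/-! ### Orbits -/

theorem orb_fixes (P : T.X.Pt) (m : ℤ) : γ.Fixes (γ.orb P m) := by
  classical
  refine ⟨?_, ?_, ?_⟩
  · intro Q
    unfold Gam.orb
    simp only [Finsupp.add_apply, Finsupp.single_apply]
    have inv : ∀ A B : T.X.Pt, (γ.σ A = γ.σ B) = (A = B) := fun A B => propext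
      ⟨fun h => by rw [← γ.σσ A, h, γ.σσ], fun h => by rw [h]⟩
    have inv' : ∀ A B : T.X.Pt, (A = γ.σ B) = (γ.σ A = B) := fun A B => propext
      ⟨fun h => by rw [h, γ.σσ], fun h => by rw [← h, γ.σσ]⟩
    simp only [inv]
    simp only [inv']
    ring
  · intro Q
    unfold Gam.orb
    simp only [Finsupp.add_apply, Finsupp.single_apply]
    have inv' : ∀ A B : T.X.Pt, (A = γ.σ₁ B) = (γ.σ₁ A = B) := fun A B => propext
      ⟨fun h => by rw [h, γ.σσ₁], fun h => by rw [← h, γ.σσ₁]⟩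
    have c1 : ∀ A, γ.σ₁ (γ.σ A) = γ.σ (γ.σ₁ A) := fun A => (γ.σcomm₁ A).symm
    simp only [inv', c1, γ.σσ₁]
    ring
  · intro Q
    unfold Gam.orb
    simp only [Finsupp.add_apply, Finsupp.single_apply]
    have inv' : ∀ A B : T.X.Pt, (A = γ.σ₂ B) = (γ.σ₂ A = B) := fun A B => propext
      ⟨fun h => by rw [h, γ.σσ₂], fun h => by rw [← h, γ.σσ₂]⟩
    have c1 : ∀ A, γ.σ₂ (γ.σ A) = γ.σ (γ.σ₂ A) := fun A => (γ.σcomm₂ A).symm
    have c2 : ∀ A, γ.σ₂ (γ.σ₁ A) = γ.σ₁ (γ.σ₂ A) := fun A => (γ.σcomm₁₂ A).symm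
    simp only [inv', c1, c2, γ.σσ₂]
    ring

theorem deg_orb (P : T.X.Pt) (m : ℤ) : T.X.deg (γ.orb P m) = 8 * m := by
  unfold Gam.orb
  simp only [T.X.deg_add, T.X.deg_single]
  ring

theorem orb_self (P : T.X.Pt) : γ.orb P 1 P = 1 := by
  classical
  unfold Gam.orb
  simp only [Finsupp.add_apply, Finsupp.single_apply, γ.free P, γ.free₁ P, γ.free₂ P,
    γ.free₁₂ P, γ.free₀₁ P, γ.free₀₂ P, γ.free₀₁₂ P, if_true, if_false]
  norm_num

/-- induction over the points of an orbit -/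
theorem orb_induction (P : T.X.Pt) {p : T.X.Pt → Prop} (h₀ : ∀ Q, p Q → p (γ.σ Q))
    (h₁ : ∀ Q, p Q → p (γ.σ₁ Q)) (h₂ : ∀ Q, p Q → p (γ.σ₂ Q)) (hP : p P)
    (h : ∀ Q, γ.orb P 1 Q = 0 → p Q) (Q : T.X.Pt) : p Q := by
  classical
  by_cases h0 : γ.orb P 1 Q = 0
  · exact h Q h0
  · unfold Gam.orb at h0
    simp only [Finsupp.add_apply, Finsupp.single_apply] at h0
    by_cases e1 : P = Q
    · rw [← e1]; exact hP
    by_cases e2 : γ.σ P = Q
    · rw [← e2]; exact h₀ _ hP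
    by_cases e3 : γ.σ₁ P = Q
    · rw [← e3]; exact h₁ _ hP
    by_cases e4 : γ.σ (γ.σ₁ P) = Q
    · rw [← e4]; exact h₀ _ (h₁ _ hP)
    by_cases e5 : γ.σ₂ P = Q
    · rw [← e5]; exact h₂ _ hP
    by_cases e6 : γ.σ (γ.σ₂ P) = Q
    · rw [← e6]; exact h₀ _ (h₂ _ hP)
    by_cases e7 : γ.σ₁ (γ.σ₂ P) = Q
    · rw [← e7]; exact h₁ _ (h₂ _ hP)
    by_cases e8 : γ.σ (γ.σ₁ (γ.σ₂ P)) = Q
    · rw [← e8]; exact h₀ _ (h₁ _ (h₂ _ hP))
    rw [if_neg e1, if_neg e2, if_neg e3, if_neg e4, if_neg e5, if_neg e6, if_neg e7,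
      if_neg e8] at h0
    exact (h0 rfl).elim

end Gam

/-! ### Eigenvectors and stalks -/

theorem neg_mem_stk {X : CurveOrd K} {V : Type} [AddCommGroup V] [Module K V] [Module ℂ V]
    [IsScalarTower ℂ K V] {P : X.Pt} {n : ℤ} {U : Submodule ℂ V} {f : V}
    (hf : f ∈ X.stk P n U) : -f ∈ X.stk P n U := by
  intro z hz hn
  rw [smul_neg]
  exact neg_mem (hf z hz hn)

theorem SInv.stk_of_eig {X : CurveOrd K} {V : Type} [AddCommGroup V] [Module K V] [Module ℂ V]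
    [IsScalarTower ℂ K V] (S : SInv X V) {U : Submodule ℂ V} (hU : ∀ u ∈ U, S.E u = u)
    {P : X.Pt} {n : ℤ} {f : V} {ε : ℤˣ} (hε : S.E f = (ε : ℤ) • f) (hf : f ∈ X.stk P n U) :
    f ∈ X.stk (S.σ P) n U := by
  have h1 := S.E_stk hU hf
  rw [hε] at h1
  rcases Int.units_eq_one_or ε with rfl | rfl
  · rwa [Units.val_one, one_smul] at h1
  · rw [Units.val_neg, Units.val_one, neg_smul, one_smul] at h1
    have h2 := neg_mem_stk h1
    rwa [neg_neg] at h2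

namespace Gam

variable (γ : Gam T) {U : Submodule ℂ (MvPolynomial (Fin 4) K)}

/-- the space is pointwise fixed -/
structure Fixed (U : Submodule ℂ (MvPolynomial (Fin 4) K)) : Prop where
  h₀ : ∀ u ∈ U, γ.S₀.E u = u
  h₁ : ∀ u ∈ U, γ.S₁.E u = u
  h₂ : ∀ u ∈ U, γ.S₂.E u = u

theorem fixed_of_le {M : ℕ} (hU : U ≤ γ.secQ q D₀ M) : γ.Fixed U where
  h₀ _ hu := (hU hu).2.2.2
  h₁ _ hu := (hU hu).2.1
  h₂ _ hu := (hU hu).2.2.1

/-- isotypic part of the sections of the twist by `D` -/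
noncomputable def ic (U : Submodule ℂ (MvPolynomial (Fin 4) K)) (D : T.X.Pt →₀ ℤ)
    (ε : ℤˣ × ℤˣ × ℤˣ) : Submodule ℂ (MvPolynomial (Fin 4) K) :=
  iso (T.X.satD D U) γ.S₀.E γ.S₁.E γ.S₂.E ε

theorem ic_le (U : Submodule ℂ (MvPolynomial (Fin 4) K)) (D : T.X.Pt →₀ ℤ)
    (ε : ℤˣ × ℤˣ × ℤˣ) : γ.ic U D ε ≤ T.X.satD D U := iso_le _ _ _ _ _

variable {γ}

theorem Fixed.sum_ic (h : γ.Fixed U) [FiniteDimensional ℂ U] {D : T.X.Pt →₀ ℤ}
    (hD : γ.Fixes D) :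
    ∑ ε : ℤˣ × ℤˣ × ℤˣ, finrank ℂ (γ.ic U D ε) = finrank ℂ (T.X.satD D U) := by
  obtain ⟨P₀⟩ := T.exists_pt
  have := T.X.finite_satD P₀ D U
  have hs : ∀ f ∈ T.X.satD D U, f ∈ Submodule.span K (U : Set (MvPolynomial (Fin 4) K)) :=
    fun f hf => T.X.satD_le_span P₀ D U hf
  refine sum_iso (T.X.satD D U) γ.S₀.E γ.S₁.E γ.S₂.E
    (fun f hf => γ.S₀.E_satD h.h₀ hD.1 hf) (fun f hf => γ.S₁.E_satD h.h₁ hD.2.1 hf)
    (fun f hf => γ.S₂.E_satD h.h₂ hD.2.2 hf)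
    (fun f hf => γ.S₀.E_E h.h₀ (hs f hf)) (fun f hf => γ.S₁.E_E h.h₁ (hs f hf))
    (fun f hf => γ.S₂.E_E h.h₂ (hs f hf))
    (fun f hf => γ.S₀.E_comm (S' := γ.S₁) γ.comm₁ h.h₀ h.h₁ (hs f hf))
    (fun f hf => γ.S₀.E_comm (S' := γ.S₂) γ.comm₂ h.h₀ h.h₂ (hs f hf))
    (fun f hf => γ.S₁.E_comm (S' := γ.S₂) γ.comm₁₂ h.h₁ h.h₂ (hs f hf))

theorem Fixes.sub_orb {D : T.X.Pt →₀ ℤ} (hD : γ.Fixes D) (P : T.X.Pt) :
    γ.Fixes (D - γ.orb P 1) := by
  have h := γ.orb_fixes P 1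
  refine ⟨fun Q => ?_, fun Q => ?_, fun Q => ?_⟩
  · rw [Finsupp.sub_apply, Finsupp.sub_apply, hD.1, h.1]
  · rw [Finsupp.sub_apply, Finsupp.sub_apply, hD.2.1, h.2.1]
  · rw [Finsupp.sub_apply, Finsupp.sub_apply, hD.2.2, h.2.2]

theorem Fixed.ic_inf_le (h : γ.Fixed U) {D : T.X.Pt →₀ ℤ} (hD : γ.Fixes D) (P : T.X.Pt)
    (ε : ℤˣ × ℤˣ × ℤˣ) :
    γ.ic U D ε ⊓ T.X.satD (D - Finsupp.single P 1) U ≤ γ.ic U (D - γ.orb P 1) ε := by
  rintro f ⟨hf, hf'⟩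
  have hf1 := mem_iso.1 hf
  refine mem_iso.2 ⟨?_, hf1.2⟩
  rw [mem_satD_iff]
  have hF := hD.sub_orb P
  refine γ.orb_induction P ?_ ?_ ?_ ?_ ?_
  · intro Q hQ
    have := SInv.stk_of_eig γ.S₀ h.h₀ hf1.2.1 hQ
    rw [hF.1]
    exact this
  · intro Q hQ
    have := SInv.stk_of_eig γ.S₁ h.h₁ hf1.2.2.1 hQ
    rw [hF.2.1]
    exact this
  · intro Q hQ
    have := SInv.stk_of_eig γ.S₂ h.h₂ hf1.2.2.2 hQ
    rw [hF.2.2]
    exact this
  · have h1 := mem_satD_iff.1 hf' P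
    rw [Finsupp.sub_apply, γ.orb_self]
    rw [Finsupp.sub_apply, Finsupp.single_eq_same] at h1
    exact h1
  · intro Q hQ
    have h1 := mem_satD_iff.1 hf1.1 Q
    rw [Finsupp.sub_apply, hQ, sub_zero]
    exact h1

end Gam

theorem finrank_le_inf {V : Type} [AddCommGroup V] [Module ℂ V] (W A B : Submodule ℂ V)
    [FiniteDimensional ℂ W] (hA : A ≤ W) (hB : B ≤ W) :
    finrank ℂ A + finrank ℂ B ≤ finrank ℂ (A ⊓ B : Submodule ℂ V) + finrank ℂ W := by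
  have : FiniteDimensional ℂ A := Submodule.finiteDimensional_of_le hA
  have : FiniteDimensional ℂ B := Submodule.finiteDimensional_of_le hB
  have h1 := Submodule.finrank_sup_add_finrank_inf_eq A B
  have h2 := Submodule.finrank_mono (sup_le hA hB)
  omega

namespace Gam

variable {γ : Gam T} {U : Submodule ℂ (MvPolynomial (Fin 4) K)}

theorem Fixed.step (h : γ.Fixed U) [FiniteDimensional ℂ U] {D : T.X.Pt →₀ ℤ}
    (hD : γ.Fixes D) (P : T.X.Pt) (ε : ℤˣ × ℤˣ × ℤˣ) :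
    finrank ℂ (γ.ic U D ε) ≤ finrank ℂ (γ.ic U (D - γ.orb P 1) ε) + kdim K U := by
  classical
  obtain ⟨P₀⟩ := T.exists_pt
  have i1 := T.X.finite_satD P₀ D U
  have i2 := T.X.finite_satD P₀ (D - γ.orb P 1) U
  have i3 : FiniteDimensional ℂ (γ.ic U (D - γ.orb P 1) ε) :=
    Submodule.finiteDimensional_of_le (γ.ic_le U _ ε)
  have hle : ∀ Q, (D - Finsupp.single P 1 : T.X.Pt →₀ ℤ) Q ≤ D Q := by
    intro Q
    rw [Finsupp.sub_apply, Finsupp.single_apply]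
    split_ifs <;> simp
  have h1 := finrank_le_inf (T.X.satD D U) (γ.ic U D ε) (T.X.satD (D - Finsupp.single P 1) U)
    (γ.ic_le U D ε) (T.X.satD_mono hle le_rfl)
  have h2 := Submodule.finrank_mono (h.ic_inf_le hD P ε)
  have h3 := T.X.finrank_satD_le P₀ hle U
  rw [T.X.deg_sub, T.X.deg_single] at h3
  have h4 : (finrank ℂ (T.X.satD D U) : ℤ) ≤
      finrank ℂ (T.X.satD (D - Finsupp.single P 1) U) + kdim K U := by
    linarith
  have h5 : finrank ℂ (T.X.satD D U) ≤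
      finrank ℂ (T.X.satD (D - Finsupp.single P 1) U) + kdim K U := by exact_mod_cast h4
  omega

theorem Fixed.incr (h : γ.Fixed U) [FiniteDimensional ℂ U] {D : T.X.Pt →₀ ℤ}
    (hD : γ.Fixes D) (ε : ℤˣ × ℤˣ × ℤˣ) : ∀ (n : ℕ) (D' : T.X.Pt →₀ ℤ), γ.Fixes D' →
    (∀ P, D P ≤ D' P) → T.X.deg D' - T.X.deg D = n →
    8 * finrank ℂ (γ.ic U D' ε) ≤ 8 * finrank ℂ (γ.ic U D ε) + kdim K U * n := by
  intro n
  induction n using Nat.strong_induction_on with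
  | _ n ih =>
    intro D' hD' hle hn
    by_cases heq : D' = D
    · rw [heq]
      exact Nat.le_add_right _ _
    · obtain ⟨P, hP⟩ : ∃ P, D' P ≠ D P := by
        by_contra hc
        push Not at hc
        exact heq (Finsupp.ext hc)
      have hP' : D P < D' P := lt_of_le_of_ne (hle P) (Ne.symm hP)
      have hle' : ∀ Q, D Q ≤ (D' - γ.orb P 1 : T.X.Pt →₀ ℤ) Q := by
        have hF := hD'.sub_orb P
        refine γ.orb_induction P ?_ ?_ ?_ ?_ ?_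
        · intro Q hQ
          rw [hF.1, hD.1]
          exact hQ
        · intro Q hQ
          rw [hF.2.1, hD.2.1]
          exact hQ
        · intro Q hQ
          rw [hF.2.2, hD.2.2]
          exact hQ
        · rw [Finsupp.sub_apply, γ.orb_self]
          omega
        · intro Q hQ
          rw [Finsupp.sub_apply, hQ, sub_zero]
          exact hle Q
      have hdeg : T.X.deg (D' - γ.orb P 1) = T.X.deg D' - 8 := by
        rw [T.X.deg_sub, γ.deg_orb]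
        ring
      have h0 := T.X.deg_mono hle'
      rw [hdeg] at h0
      have hn8 : 8 ≤ n := by omega
      have h1 := ih (n - 8) (by omega) (D' - γ.orb P 1) (hD'.sub_orb P) hle' (by
        rw [hdeg]
        omega)
      have h2 := h.step hD' P ε
      obtain ⟨m, rfl⟩ : ∃ m, n = m + 8 := ⟨n - 8, by omega⟩
      rw [Nat.add_sub_cancel] at h1
      nlinarith

end Gam

end Pool.Agent.YTD
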