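import Pool.Agent.YTD.SatF2

/-!
The isotypic components of the sections of the sheaf generated by a space of `Γ`-invariant
sections have almost the same dimension.
-/

namespace Pool.Agent.YTD

open Finset Module MvPolynomial Filter CurveOrd

variable {K : Type} [Field K] [Algebra ℂ K]
variable {T : Datum K} {q : ℕ} {D₀ : T.X.Pt →₀ ℤ}

/-! ### Semi-invariant functions -/

theorem units_smul_self {A : Type} [AddCommGroup A] (ε : ℤˣ) (a : A) :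
    (ε : ℤ) • (ε : ℤ) • a = a := by
  rcases Int.units_eq_one_or ε with rfl | rfl
  · rw [Units.val_one, one_smul, one_smul]
  · rw [Units.val_neg, Units.val_one, neg_smul, one_smul, neg_smul, one_smul, neg_neg]

theorem semi_self (θ : K ≃ₐ[ℂ] K) (h : ∀ z, θ (θ z) = z) (ε : ℤˣ) (x : K) :
    θ (x + (ε : ℤ) • θ x) = (ε : ℤ) • (x + (ε : ℤ) • θ x) := by
  rw [map_add, map_zsmul, h, smul_add, units_smul_self, add_comm]

theorem semi_comm (θ θ' : K ≃ₐ[ℂ] K) (h : ∀ z, θ (θ' z) = θ' (θ z)) (ε ε' : ℤˣ) (x : K)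
    (hx : θ x = (ε : ℤ) • x) :
    θ (x + (ε' : ℤ) • θ' x) = (ε : ℤ) • (x + (ε' : ℤ) • θ' x) := by
  rw [map_add, map_zsmul, h, hx, map_zsmul, smul_add]
  congr 1
  rw [smul_smul, smul_smul, mul_comm]

/-- semi-invariant functions exist for every character -/
theorem Gam.exists_semi (γ : Gam T) (χ : ℤˣ × ℤˣ × ℤˣ) :
    ∃ h : K, h ≠ 0 ∧ γ.θ h = (χ.1 : ℤ) • h ∧ γ.θ₁ h = (χ.2.1 : ℤ) • h ∧
      γ.θ₂ h = (χ.2.2 : ℤ) • h := by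
  classical
  obtain ⟨P⟩ := T.exists_pt
  obtain ⟨f, hf, hf0, hf1⟩ := T.X.exists_ord_eq P
    (D := Finsupp.single P (2 * (T.X.genus : ℤ) + 1)) (by rw [T.X.deg_single]; linarith) P
  rw [Finsupp.single_eq_same] at hf1
  obtain ⟨a, b, c⟩ := χ
  set x₂ := f + (c : ℤ) • γ.θ₂ f with hx₂
  set x₁ := x₂ + (b : ℤ) • γ.θ₁ x₂ with hx₁
  set x₀ := x₁ + (a : ℤ) • γ.θ x₁ with hx₀
  have e22 : γ.θ₂ x₂ = (c : ℤ) • x₂ := semi_self γ.θ₂ γ.θθ₂ c f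
  have e21 : γ.θ₂ x₁ = (c : ℤ) • x₁ :=
    semi_comm γ.θ₂ γ.θ₁ (fun z => (γ.comm₁₂ z).symm) c b x₂ e22
  have e20 : γ.θ₂ x₀ = (c : ℤ) • x₀ :=
    semi_comm γ.θ₂ γ.θ (fun z => (γ.comm₂ z).symm) c a x₁ e21
  have e11 : γ.θ₁ x₁ = (b : ℤ) • x₁ := semi_self γ.θ₁ γ.θθ₁ b x₂
  have e10 : γ.θ₁ x₀ = (b : ℤ) • x₀ :=
    semi_comm γ.θ₁ γ.θ (fun z => (γ.comm₁ z).symm) b a x₁ e11
  have e00 : γ.θ x₀ = (a : ℤ) • x₀ := semi_self γ.θ γ.θθ a x₁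
  refine ⟨x₀, ?_, e00, e10, e20⟩
  intro h0
  -- regularity of the conjugates at `P`
  have key : ∀ Q : T.X.Pt, Q ≠ P → 0 ≤ T.X.ord Q f := by
    intro Q hQ
    have h1 := hf hf0 Q
    rw [Finsupp.single_eq_of_ne hQ, add_zero] at h1
    exact h1
  have hz : ∀ (R : Subring K) (n : ℤ) (x : K), x ∈ R → n • x ∈ R := fun R n x hx =>
    zsmul_mem hx n
  have o0 : ∀ (Q : T.X.Pt) (z : K), z ≠ 0 → T.X.ord Q (γ.θ z) = T.X.ord (γ.σ Q) z :=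
    fun Q z h => γ.S₀.ord_θ Q h
  have o1 : ∀ (Q : T.X.Pt) (z : K), z ≠ 0 → T.X.ord Q (γ.θ₁ z) = T.X.ord (γ.σ₁ Q) z :=
    fun Q z h => γ.S₁.ord_θ Q h
  have o2 : ∀ (Q : T.X.Pt) (z : K), z ≠ 0 → T.X.ord Q (γ.θ₂ z) = T.X.ord (γ.σ₂ Q) z :=
    fun Q z h => γ.S₂.ord_θ Q h
  have n0 : γ.θ f ≠ 0 := (map_ne_zero _).2 hf0
  have n1 : γ.θ₁ f ≠ 0 := (map_ne_zero _).2 hf0
  have n2 : γ.θ₂ f ≠ 0 := (map_ne_zero _).2 hf0
  have n12 : γ.θ₁ (γ.θ₂ f) ≠ 0 := (map_ne_zero _).2 n2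
  have r2 : γ.θ₂ f ∈ T.X.OO P := fun _ => by
    rw [o2 P f hf0]
    exact key _ (γ.free₂ P)
  have r1 : γ.θ₁ f ∈ T.X.OO P := fun _ => by
    rw [o1 P f hf0]
    exact key _ (γ.free₁ P)
  have r0 : γ.θ f ∈ T.X.OO P := fun _ => by
    rw [o0 P f hf0]
    exact key _ (γ.free P)
  have r12 : γ.θ₁ (γ.θ₂ f) ∈ T.X.OO P := fun _ => by
    rw [o1 P _ n2, o2 _ _ hf0]
    apply key
    rw [← γ.σcomm₁₂]
    exact γ.free₁₂ P
  have r01 : γ.θ (γ.θ₁ f) ∈ T.X.OO P := fun _ => by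
    rw [o0 P _ n1, o1 _ _ hf0]
    apply key
    rw [← γ.σcomm₁]
    exact γ.free₀₁ P
  have r02 : γ.θ (γ.θ₂ f) ∈ T.X.OO P := fun _ => by
    rw [o0 P _ n2, o2 _ _ hf0]
    apply key
    rw [← γ.σcomm₂]
    exact γ.free₀₂ P
  have r012 : γ.θ (γ.θ₁ (γ.θ₂ f)) ∈ T.X.OO P := fun _ => by
    rw [o0 P _ n12, o1 _ _ n2, o2 _ _ hf0]
    apply key
    rw [← γ.σcomm₁, ← γ.σcomm₂, ← γ.σcomm₁₂]
    exact γ.free₀₁₂ P
  have hsum : x₀ - f ∈ T.X.OO P := by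
    have e : x₀ - f = (c : ℤ) • γ.θ₂ f + (b : ℤ) • (γ.θ₁ f + (c : ℤ) • γ.θ₁ (γ.θ₂ f)) +
        (a : ℤ) • (γ.θ f + (c : ℤ) • γ.θ (γ.θ₂ f) +
          (b : ℤ) • (γ.θ (γ.θ₁ f) + (c : ℤ) • γ.θ (γ.θ₁ (γ.θ₂ f)))) := by
      rw [hx₀, hx₁, hx₂]
      simp only [map_add, map_zsmul]
      abel
    rw [e]
    exact add_mem (add_mem (hz _ _ _ r2) (hz _ _ _ (add_mem r1 (hz _ _ _ r12))))
      (hz _ _ _ (add_mem (add_mem r0 (hz _ _ _ r02))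
        (hz _ _ _ (add_mem r01 (hz _ _ _ r012)))))
  rw [h0, zero_sub] at hsum
  have h1 := neg_mem hsum
  rw [neg_neg] at h1
  have h2 := h1 hf0
  rw [hf1] at h2
  have h3 : (0 : ℤ) ≤ (T.X.genus : ℤ) := Int.natCast_nonneg _
  linarith

namespace Gam

variable {γ : Gam T} {U : Submodule ℂ (MvPolynomial (Fin 4) K)}

theorem smul_ic {D : T.X.Pt →₀ ℤ} {h : K} (h0 : h ≠ 0) {χ : ℤˣ × ℤˣ × ℤˣ}
    (hχ : γ.θ h = (χ.1 : ℤ) • h ∧ γ.θ₁ h = (χ.2.1 : ℤ) • h ∧ γ.θ₂ h = (χ.2.2 : ℤ) • h)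
    {ε : ℤˣ × ℤˣ × ℤˣ} {f : MvPolynomial (Fin 4) K} (hf : f ∈ γ.ic U (D + T.X.dv h) ε) :
    h • f ∈ γ.ic U D (χ * ε) := by
  have key : ∀ (S : SInv T.X.toCurveOrd (MvPolynomial (Fin 4) K)) (c e : ℤˣ),
      S.θ h = (c : ℤ) • h → S.E f = (e : ℤ) • f → S.E (h • f) = ((c * e : ℤˣ) : ℤ) • h • f := by
    intro S c e h1 h2
    rw [S.E_smul, h1, h2, Units.val_mul, mul_smul, smul_assoc, smul_comm h (e : ℤ) f]
  obtain ⟨h1, h2, h3, h4⟩ := mem_iso.1 hf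
  exact mem_iso.2 ⟨(T.X.smul_mem_satD h0).2 h1, key γ.S₀ _ _ hχ.1 h2, key γ.S₁ _ _ hχ.2.1 h3,
    key γ.S₂ _ _ hχ.2.2 h4⟩

theorem finrank_ic_le [FiniteDimensional ℂ U] {D : T.X.Pt →₀ ℤ} {h : K} (h0 : h ≠ 0)
    {χ : ℤˣ × ℤˣ × ℤˣ}
    (hχ : γ.θ h = (χ.1 : ℤ) • h ∧ γ.θ₁ h = (χ.2.1 : ℤ) • h ∧ γ.θ₂ h = (χ.2.2 : ℤ) • h)
    (ε : ℤˣ × ℤˣ × ℤˣ) :
    finrank ℂ (γ.ic U (D + T.X.dv h) ε) ≤ finrank ℂ (γ.ic U D (χ * ε)) := by
  obtain ⟨P₀⟩ := T.exists_pt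
  have i1 := T.X.finite_satD P₀ D U
  have i2 : FiniteDimensional ℂ (γ.ic U D (χ * ε)) :=
    Submodule.finiteDimensional_of_le (γ.ic_le U _ _)
  let m : MvPolynomial (Fin 4) K →ₗ[ℂ] MvPolynomial (Fin 4) K :=
    { toFun := fun f => h • f
      map_add' := fun f g => smul_add _ _ _
      map_smul' := fun c f => smul_comm _ _ _ }
  have hinj : Function.Injective m := by
    intro f g hfg
    have h1 : h • f = h • g := hfg
    have h2 := congrArg (fun x => h⁻¹ • x) h1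
    simpa only [inv_smul_smul₀ h0] using h2
  have e : finrank ℂ ((γ.ic U (D + T.X.dv h) ε).map m) = finrank ℂ (γ.ic U (D + T.X.dv h) ε) :=
    (LinearEquiv.finrank_eq (Submodule.equivMapOfInjective m hinj _)).symm
  rw [← e]
  apply Submodule.finrank_mono
  rintro _ ⟨f, hf, rfl⟩
  exact smul_ic h0 hχ hf

theorem fixes_dv {h : K} (h0 : h ≠ 0) {χ : ℤˣ × ℤˣ × ℤˣ}
    (hχ : γ.θ h = (χ.1 : ℤ) • h ∧ γ.θ₁ h = (χ.2.1 : ℤ) • h ∧ γ.θ₂ h = (χ.2.2 : ℤ) • h) :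
    γ.Fixes (T.X.dv h) := by
  have hneg : ∀ Q : T.X.Pt, T.X.ord Q (-h) = T.X.ord Q h := by
    intro Q
    have e : -h = algebraMap ℂ K (-1) * h := by
      rw [map_neg, map_one, neg_one_mul]
    have h2 : algebraMap ℂ K (-1) ≠ 0 := by
      rw [map_neg, map_one]
      exact neg_ne_zero.2 one_ne_zero
    rw [e, T.X.ord_mul Q _ _ h2 h0, T.X.ord_const Q (-1) (by norm_num), zero_add]
  have hu : ∀ (Q : T.X.Pt) (c : ℤˣ), T.X.ord Q ((c : ℤ) • h) = T.X.ord Q h := by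
    intro Q c
    rcases Int.units_eq_one_or c with rfl | rfl
    · rw [Units.val_one, one_smul]
    · rw [Units.val_neg, Units.val_one, neg_smul, one_smul, hneg]
  refine ⟨fun Q => ?_, fun Q => ?_, fun Q => ?_⟩
  · rw [T.X.dv_apply h0, T.X.dv_apply h0, ← γ.ord_σ Q h h0, hχ.1, hu]
  · rw [T.X.dv_apply h0, T.X.dv_apply h0, ← γ.ord_σ₁ Q h h0, hχ.2.1, hu]
  · rw [T.X.dv_apply h0, T.X.dv_apply h0, ← γ.ord_σ₂ Q h h0, hχ.2.2, hu]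

theorem Fixed.ic_zero_le (hF : γ.Fixed U) [FiniteDimensional ℂ U] {h : ℕ} (hB : T.X.Bd U h)
    (χ ε : ℤˣ × ℤˣ × ℤˣ) :
    finrank ℂ (γ.ic U 0 ε) ≤ finrank ℂ (γ.ic U 0 (χ * ε)) + h := by
  classical
  obtain ⟨z, z0, hz⟩ := γ.exists_semi χ
  have hdv := fixes_dv z0 hz
  -- the effective divisor
  set A : T.X.Pt →₀ ℤ := (T.X.dv z) ⊔ 0 with hA
  have hA' : ∀ P, A P = max (T.X.dv z P) 0 := fun P => by
    rw [hA, Finsupp.sup_apply]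
    rfl
  have hAf : γ.Fixes A := by
    refine ⟨fun Q => ?_, fun Q => ?_, fun Q => ?_⟩
    · rw [hA', hA', hdv.1]
    · rw [hA', hA', hdv.2.1]
    · rw [hA', hA', hdv.2.2]
  have hA0 : ∀ P, (0 : T.X.Pt →₀ ℤ) P ≤ A P := fun P => by
    rw [hA']
    exact le_max_right _ _
  have hAd : ∀ P, T.X.dv z P ≤ A P := fun P => by
    rw [hA']
    exact le_max_left _ _
  have h0f : γ.Fixes (0 : T.X.Pt →₀ ℤ) := ⟨fun _ => rfl, fun _ => rfl, fun _ => rfl⟩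
  have hdegA : 0 ≤ T.X.deg A := T.X.deg_nonneg hA0
  obtain ⟨n, hn⟩ : ∃ n : ℕ, T.X.deg A = n := ⟨(T.X.deg A).toNat, by omega⟩
  have h1 : ∀ ε', 8 * finrank ℂ (γ.ic U A ε') ≤ 8 * finrank ℂ (γ.ic U 0 ε') + kdim K U * n :=
    fun ε' => hF.incr h0f ε' n A hAf hA0 (by rw [T.X.deg_zero, sub_zero, hn])
  have h2 : 8 * finrank ℂ (γ.ic U A ε) ≤ 8 * finrank ℂ (γ.ic U (T.X.dv z) ε) + kdim K U * n :=
    hF.incr hdv ε n A hAf hAd (by rw [T.X.deg_dv z0, sub_zero, hn])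
  have h3 : finrank ℂ (γ.ic U (T.X.dv z) ε) ≤ finrank ℂ (γ.ic U 0 (χ * ε)) := by
    have := finrank_ic_le (U := U) (D := 0) z0 hz ε
    rwa [zero_add] at this
  have h4 := hB A hA0
  rw [hn] at h4
  have h5 : kdim K U * n + finrank ℂ (T.X.satD 0 U) ≤ finrank ℂ (T.X.satD A U) + h := by
    exact_mod_cast h4
  rw [← hF.sum_ic h0f, ← hF.sum_ic hAf] at h5
  have hcard : (Finset.univ.erase ε : Finset (ℤˣ × ℤˣ × ℤˣ)).card = 7 := by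
    rw [Finset.card_erase_of_mem (Finset.mem_univ ε)]
    rfl
  have h6 : 8 * ∑ ε' ∈ Finset.univ.erase ε, finrank ℂ (γ.ic U A ε') ≤
      8 * ∑ ε' ∈ Finset.univ.erase ε, finrank ℂ (γ.ic U 0 ε') + 7 * (kdim K U * n) := by
    rw [Finset.mul_sum, Finset.mul_sum, ← hcard, ← smul_eq_mul (a := (_ : ℕ)) (b := kdim K U * n),
      ← Finset.sum_const, ← Finset.sum_add_distrib]
    exact Finset.sum_le_sum fun ε' _ => h1 ε'
  rw [← Finset.add_sum_erase Finset.univ _ (Finset.mem_univ ε),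
    ← Finset.add_sum_erase Finset.univ _ (Finset.mem_univ ε)] at h5
  set S0 := ∑ ε' ∈ Finset.univ.erase ε, finrank ℂ (γ.ic U 0 ε')
  set SA := ∑ ε' ∈ Finset.univ.erase ε, finrank ℂ (γ.ic U A ε')
  set kn := kdim K U * n
  omega

end Gam

/-- (F): the isotypic components have almost equal dimensions. -/
theorem Gam.finrank_satD' (γ : Gam T) {M : ℕ}
    (U : Submodule ℂ (MvPolynomial (Fin 4) K)) (hU : U ≤ γ.secQ q D₀ M) {h : ℕ}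
    (hB : T.X.Bd U h) :
    8 * finrank ℂ (T.X.satD 0 U ⊓ γ.secQ q D₀ M : Submodule ℂ (MvPolynomial (Fin 4) K)) ≤
      finrank ℂ (T.X.satD 0 U) + 7 * h ∧
    finrank ℂ (T.X.satD 0 U) ≤
      8 * finrank ℂ (T.X.satD 0 U ⊓ γ.secQ q D₀ M : Submodule ℂ (MvPolynomial (Fin 4) K)) +
        7 * h := by
  classical
  obtain ⟨P₀⟩ := T.exists_pt
  have i0 := T.finite_sec P₀ q D₀ M
  have i1 : FiniteDimensional ℂ U :=
    Submodule.finiteDimensional_of_le (hU.trans (γ.secQ_le q D₀ M))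
  have hF : γ.Fixed U := γ.fixed_of_le hU
  have h0f : γ.Fixes (0 : T.X.Pt →₀ ℤ) := ⟨fun _ => rfl, fun _ => rfl, fun _ => rfl⟩
  have e1 : T.X.satD 0 U ⊓ γ.secQ q D₀ M = γ.ic U 0 1 := by
    ext f
    constructor
    · rintro ⟨h1, h2⟩
      refine mem_iso.2 ⟨h1, ?_, ?_, ?_⟩
      · rw [Prod.fst_one, Units.val_one, one_smul]
        exact h2.2.2.2
      · rw [Prod.snd_one, Prod.fst_one, Units.val_one, one_smul]
        exact h2.2.1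
      · rw [Prod.snd_one, Prod.snd_one, Units.val_one, one_smul]
        exact h2.2.2.1
    · intro hf
      obtain ⟨h1, h2, h3, h4⟩ := mem_iso.1 hf
      rw [Prod.fst_one, Units.val_one, one_smul] at h2
      rw [Prod.snd_one, Prod.fst_one, Units.val_one, one_smul] at h3
      rw [Prod.snd_one, Prod.snd_one, Units.val_one, one_smul] at h4
      refine ⟨h1, ?_, h3, h4, h2⟩
      rw [← T.satD_sec q D₀ M]
      exact (T.X.satD_mono (fun _ => le_rfl) (hU.trans (γ.secQ_le q D₀ M)) h1)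
  rw [e1, ← hF.sum_ic h0f, ← Finset.add_sum_erase Finset.univ _ (Finset.mem_univ 1)]
  have hcard : (Finset.univ.erase 1 : Finset (ℤˣ × ℤˣ × ℤˣ)).card = 7 := by
    rw [Finset.card_erase_of_mem (Finset.mem_univ 1)]
    rfl
  have h1 : 7 * finrank ℂ (γ.ic U 0 1) ≤
      ∑ ε ∈ Finset.univ.erase 1, finrank ℂ (γ.ic U 0 ε) + 7 * h := by
    rw [← hcard, ← smul_eq_mul (a := (_ : ℕ)) (b := finrank ℂ (γ.ic U 0 1)),
      ← smul_eq_mul (a := (_ : ℕ)) (b := h), ← Finset.sum_const, ← Finset.sum_const,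
      ← Finset.sum_add_distrib]
    refine Finset.sum_le_sum fun ε _ => ?_
    have := hF.ic_zero_le hB ε 1
    rwa [mul_one] at this
  have h2 : ∑ ε ∈ Finset.univ.erase 1, finrank ℂ (γ.ic U 0 ε) ≤
      7 * finrank ℂ (γ.ic U 0 1) + 7 * h := by
    rw [← hcard, ← smul_eq_mul (a := (_ : ℕ)) (b := finrank ℂ (γ.ic U 0 1)),
      ← smul_eq_mul (a := (_ : ℕ)) (b := h), ← Finset.sum_const, ← Finset.sum_const,
      ← Finset.sum_add_distrib]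
    refine Finset.sum_le_sum fun ε _ => ?_
    have := hF.ic_zero_le hB ε⁻¹ ε
    rwa [inv_mul_cancel] at this
  constructor <;> omega

theorem Gam.finrank_satD (γ : Gam T) (_ : γ.Fixes D₀) {M : ℕ}
    (U : Submodule ℂ (MvPolynomial (Fin 4) K)) (hU : U ≤ γ.secQ q D₀ M) {h : ℕ}
    (hB : T.X.Bd U h) :
    8 * finrank ℂ (T.X.satD 0 U ⊓ γ.secQ q D₀ M : Submodule ℂ (MvPolynomial (Fin 4) K)) ≤
      finrank ℂ (T.X.satD 0 U) + 7 * h ∧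
    finrank ℂ (T.X.satD 0 U) ≤
      8 * finrank ℂ (T.X.satD 0 U ⊓ γ.secQ q D₀ M : Submodule ℂ (MvPolynomial (Fin 4) K)) +
        7 * h := γ.finrank_satD' U hU hB

end Pool.Agent.YTD
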