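import Pool.Agent.YTD.SatI2

/-!
Levelwise approximation of the saturated filtration by filtrations of small volume: conclusion.
-/

namespace Pool.Agent.YTD

open Finset Module MvPolynomial Filter

variable {K : Type} [Field K] [Algebra ℂ K]
variable {T : Datum K} {q : ℕ} {D₀ : T.X.Pt →₀ ℤ} {r : ℕ}

theorem dvs_zero (T : Datum K) (q : ℕ) (D₀ : T.X.Pt →₀ ℤ) (N : ℕ) :
    T.dvs q D₀ N 0 = N • D₀ := by
  unfold Datum.dvs
  have h : max 0 (0 - 4 * (q : ℤ) * N) = 0 := by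
    apply max_eq_left
    have : (0 : ℤ) ≤ 4 * q * N := by positivity
    linarith
  have h' : max 0 (-0 - 4 * (q : ℤ) * N) = 0 := by
    rw [neg_zero]
    exact h
  simp only [h, h', Finsupp.single_zero, sum_const_zero, sub_zero]

namespace QFilt

variable {γ : Gam T} {Λ : ℕ}

/-- The volume of the generated filtration is at most that of the original one. -/
theorem exists_level (χ : QFilt γ q D₀ r) (hfix : γ.Fixes D₀)
    (hD : T.X.deg D₀ = 105 * T.t * q) (hq : 0 < q) (hr : 8 ≤ r)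
    (hΛ : ∀ N : ℕ, χ.F N (-(Λ * N)) = γ.secQ q D₀ (r * N) ∧ χ.F N (Λ * N + 1) = ⊥)
    (hSer : ∀ U : Submodule ℂ (MvPolynomial (Fin 4) K), FiniteDimensional ℂ U →
      ∃ d₀ : ℤ, ∀ D : T.X.Pt →₀ ℤ, d₀ ≤ T.X.deg D → T.X.satD D U ≤ T.X.LD D U) (N : ℕ) :
    ∃ G : Filt T q D₀ r, (∀ l, G.F N l = (χ.sat hfix hD hq hr).F N l) ∧
      (∀ M : ℕ, G.F M (-(Λ * M)) = T.sec q D₀ (r * M) ∧ G.F M (Λ * M + 1) = ⊥) ∧
      ∃ c : ℕ, ∀ (M : ℕ) (l : ℤ),
        finrank ℂ (G.F M l) ≤ 8 * finrank ℂ (χ.F (M + c) (l - Λ * c)) := by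
  classical
  obtain ⟨P₀⟩ := T.exists_pt
  refine ⟨GFilt hfix hD hq hr hΛ N, GFilt_level hfix hD hq hr hΛ N,
    GFilt_bound hfix hD hq hr hΛ N, ?_⟩
  -- the divisor `D`
  choose d₀ hd₀ using fun l : ℤ => hSer (χ.F N l) (finite_F N l)
  set I : Finset ℤ := Icc (-((Λ * N : ℕ) : ℤ)) ((Λ * N : ℕ) : ℤ) with hI
  obtain ⟨B, hB0, hBg, hBI⟩ : ∃ B : ℕ, 0 < B ∧ 2 * (T.X.genus : ℤ) ≤ B ∧ ∀ l ∈ I, d₀ l ≤ B := by
    refine ⟨2 * T.X.genus + ∑ l ∈ I, (d₀ l).natAbs + 1, by omega, by omega, ?_⟩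
    intro l hl
    have h1 : (d₀ l).natAbs ≤ ∑ l ∈ I, (d₀ l).natAbs :=
      single_le_sum (f := fun l => (d₀ l).natAbs) (fun _ _ => Nat.zero_le _) hl
    have h2 : d₀ l ≤ (d₀ l).natAbs := Int.le_natAbs
    have h3 : (((d₀ l).natAbs : ℕ) : ℤ) ≤ ((∑ l ∈ I, (d₀ l).natAbs : ℕ) : ℤ) := by
      exact_mod_cast h1
    have h4 : ((2 * T.X.genus + ∑ l ∈ I, (d₀ l).natAbs + 1 : ℕ) : ℤ) =
        2 * T.X.genus + ((∑ l ∈ I, (d₀ l).natAbs : ℕ) : ℤ) + 1 := by push_cast; ring
    rw [h4]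
    have h5 : (0 : ℤ) ≤ 2 * T.X.genus := by positivity
    linarith
  set D : T.X.Pt →₀ ℤ := Finsupp.single P₀ (B : ℤ) with hDdef
  have hDdeg : T.X.deg D = B := T.X.deg_single _ _
  have hS : ∀ (l : ℤ), ∀ z ∈ T.X.L D, ∀ f ∈ T.X.satD 0 (χ.F N l), z • f ∈ T.X.LD D (χ.F N l) := by
    -- for `l` in the range
    have key : ∀ l ∈ I, ∀ z ∈ T.X.L D, ∀ f ∈ T.X.satD 0 (χ.F N l),
        z • f ∈ T.X.LD D (χ.F N l) := by
      intro l hl z hz f hf
      apply hd₀ l D (by rw [hDdeg]; exact hBI l hl)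
      by_cases hz0 : z = 0
      · rw [hz0, zero_smul]
        exact zero_mem _
      rw [T.X.smul_mem_satD hz0]
      apply T.X.satD_mono _ le_rfl hf
      intro P
      rw [Finsupp.zero_apply, Finsupp.add_apply, T.X.dv_apply hz0]
      have := hz hz0 P
      linarith
    have hΛN := hΛ N
    have eN : ((Λ * N : ℕ) : ℤ) = (Λ : ℤ) * N := by push_cast; ring
    intro l z hz f hf
    by_cases h1 : l < -((Λ * N : ℕ) : ℤ)
    · have e : χ.F N l = χ.F N (-((Λ * N : ℕ) : ℤ)) := by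
        apply le_antisymm
        · rw [eN, hΛN.1]
          exact χ.le N l
        · exact χ.anti N _ _ h1.le
      rw [e] at hf ⊢
      have h0 : (0 : ℤ) ≤ ((Λ * N : ℕ) : ℤ) := by positivity
      exact key _ (by rw [hI, mem_Icc]; exact ⟨le_rfl, by linarith⟩) z hz f hf
    · by_cases h2 : ((Λ * N : ℕ) : ℤ) < l
      · have e : χ.F N l = ⊥ := by
          rw [eq_bot_iff, ← hΛN.2]
          apply χ.anti
          rw [eN] at h2
          linarith
        rw [e, T.X.satD_zero_bot P₀, Submodule.mem_bot] at hf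
        rw [hf, smul_zero]
        exact zero_mem _
      · exact key l (by rw [hI, mem_Icc]; exact ⟨not_lt.1 h1, not_lt.1 h2⟩) z hz f hf
  -- a nonzero function in `L(D)`
  obtain ⟨m, hm, hm0, _⟩ := T.X.exists_ord_eq P₀ (D := D) (by rw [hDdeg]; exact hBg) P₀
  -- the element `e`
  set d : ℕ := B + 2 * T.X.genus with hd
  obtain ⟨a, ha, ha0, _⟩ := T.X.exists_ord_eq P₀ (D := (r * d) • D₀ - D) (by
    rw [T.X.deg_sub, T.X.deg_nsmul, hD, hDdeg]
    have h1 : (1 : ℤ) ≤ T.t := by exact_mod_cast T.t_pos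
    have h2 : (1 : ℤ) ≤ q := by exact_mod_cast hq
    have h3 : (1 : ℤ) ≤ r := by
      have : 1 ≤ r := by omega
      exact_mod_cast this
    have h4 : (d : ℤ) = B + 2 * T.X.genus := by rw [hd]; push_cast; ring
    have h5 : (1 : ℤ) ≤ T.t * q := by nlinarith
    have h6 : (1 : ℤ) ≤ r * (105 * T.t * q) := by nlinarith
    have h7 : (0 : ℤ) ≤ d := by positivity
    have h8 : (d : ℤ) ≤ d * (r * (105 * T.t * q)) := by nlinarith
    push_cast
    nlinarith) P₀
  set e₀ : Fin 4 →₀ ℕ := Finsupp.equivFunOnFinite.symm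
    ![25 * q * (r * d), 0, 25 * q * (r * d), 0] with he₀
  have e0 : e₀ 0 = 25 * q * (r * d) := rfl
  have e1 : e₀ 1 = 0 := rfl
  have e2 : e₀ 2 = 25 * q * (r * d) := rfl
  have e3 : e₀ 3 = 0 := rfl
  set e : MvPolynomial (Fin 4) K := monomial e₀ a with he
  have he0 : e ≠ 0 := by
    intro h
    apply ha0
    have := congrArg (coeff e₀) h
    rwa [he, coeff_monomial, if_pos rfl, coeff_zero] at this
  have hze : ∀ z ∈ T.X.L D, z • e ∈ T.sec q D₀ (r * d) := by
    intro z hz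
    rw [he, smul_monomial, smul_eq_mul, sec_eq_bigr]
    refine monomial_mem_bigr (j := 0) (by rw [abs_zero]; positivity)
      (by rw [e0, e1]; push_cast; ring) (by rw [e2, e3]; push_cast; ring) ?_
    have h1 := T.X.mul_mem_L hz ha
    have h2 : D + ((r * d) • D₀ - D) = T.dvs q D₀ (r * d) 0 := by
      rw [dvs_zero]
      abel
    rw [h2] at h1
    exact h1
  -- the comparison map
  refine ⟨d + 1, fun M l => ?_⟩
  have hmap : ∀ f ∈ χ.GF Λ N M l, (m • f) * e ∈ χ.F2 Λ (M + d) (l - Λ * d) := by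
    intro f hf
    have h1 := smul_GF_mem hΛ hS hm hf
    unfold CurveOrd.LD at h1
    generalize m • f = w at h1 ⊢
    induction h1 using Submodule.span_induction with
    | mem y hy =>
      obtain ⟨z, hz, u, hu, rfl⟩ := hy
      have h2 : z • u * e = u * (z • e) := by
        rw [smul_mul_assoc, ← mul_smul_comm]
      rw [h2]
      have h3 := F2_mul hu (sec_le_F2 (χ := χ) hΛ le_rfl (hze z hz))
      rwa [← sub_eq_add_neg] at h3
    | zero =>
      rw [zero_mul]
      exact zero_mem _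
    | add y y' _ _ h1 h2 =>
      rw [add_mul]
      exact add_mem h1 h2
    | smul c y _ h =>
      rw [smul_mul_assoc]
      exact Submodule.smul_mem _ c h
  let Φ : χ.GF Λ N M l →ₗ[ℂ] χ.F2 Λ (M + d) (l - Λ * d) :=
    { toFun := fun f => ⟨(m • (f : MvPolynomial (Fin 4) K)) * e, hmap f f.2⟩
      map_add' := by
        intro f f'
        apply Subtype.ext
        show (m • ((f : MvPolynomial (Fin 4) K) + f')) * e = (m • (f : MvPolynomial (Fin 4) K)) * e +
          (m • (f' : MvPolynomial (Fin 4) K)) * e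
        rw [smul_add, add_mul]
      map_smul' := by
        intro c f
        apply Subtype.ext
        show (m • (c • (f : MvPolynomial (Fin 4) K))) * e =
          c • ((m • (f : MvPolynomial (Fin 4) K)) * e)
        rw [smul_comm, smul_mul_assoc] }
  have hΦ : Function.Injective Φ := by
    rw [injective_iff_map_eq_zero]
    intro f hf
    have h1 : (m • (f : MvPolynomial (Fin 4) K)) * e = 0 := congrArg Subtype.val hf
    have h2 := (mul_eq_zero.1 h1).resolve_right he0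
    apply Subtype.ext
    exact (smul_eq_zero.1 h2).resolve_left hm0
  have hfin := finite_F2 (χ := χ) (Λ := Λ) (M + d) (l - Λ * d)
  have h1 := LinearMap.finrank_le_finrank_of_injective hΦ
  have h2 := finrank_F2_le hfix hD hq hr hΛ (M + d) (l - Λ * d)
  have e5 : l - (Λ : ℤ) * d - Λ = l - Λ * ((d + 1 : ℕ) : ℤ) := by push_cast; ring
  rw [e5, add_assoc] at h2
  exact h1.trans h2

end QFilt

end Pool.Agent.YTD
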