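import Pool.Agent.YTD.SatC
import Pool.Agent.YTD.SatE
import Pool.Agent.YTD.SatB
import Pool.Agent.YTD.SatI3

/-!
The first cohomology of the sheaf generated by a level of a filtration of the section ring of the
quotient.
-/

namespace Pool.Agent.YTD

open Finset Module MvPolynomial Filter

variable {K : Type} [Field K] [Algebra ℂ K]
variable {T : Datum K} {q : ℕ} {D₀ : T.X.Pt →₀ ℤ} {r : ℕ}

/-- multiplication by a nonzero polynomial preserves linear independence over `K`. -/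
theorem linearIndependent_mul {ι : Type} {w : ι → MvPolynomial (Fin 4) K}
    (hw : LinearIndependent K w) {e : MvPolynomial (Fin 4) K} (he : e ≠ 0) :
    LinearIndependent K (fun i => e * w i) := by
  have h := hw.map' (LinearMap.mulLeft K e) (LinearMap.ker_eq_bot.2 (mul_right_injective₀ he))
  exact h

/-- the local sections `z x^e` with `j = 0`. -/
theorem Datum.smul_monomial_mem_loc {M : ℕ}
    (hdeg : 2 * (T.X.genus : ℤ) ≤ T.X.deg (T.dvs q D₀ M 0)) (P : T.X.Pt) {z : K} (hz0 : z ≠ 0)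
    (hz : -((M • D₀) P) ≤ T.X.ord P z) :
    z • (monomial (expo q M 0 0 0) (1 : K)) ∈ T.X.loc P (T.sec q D₀ M) := by
  have hin : InR q M 0 0 0 := by
    refine ⟨by rw [abs_zero]; positivity, ?_, ?_⟩
    · have : (0 : ℤ) ≤ (q : ℤ) * M := by positivity
      push_cast
      linarith
    · have : (0 : ℤ) ≤ (q : ℤ) * M := by positivity
      push_cast
      linarith
  obtain ⟨f, hf, hf0, hford⟩ := T.X.exists_ord_eq P hdeg P
  have h1 : monomial (expo q M 0 0 0) f ∈ T.sec q D₀ M := T.monomial_mem_sec hin hf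
  have h2 : z • (monomial (expo q M 0 0 0) (1 : K)) =
      (z / f) • (monomial (expo q M 0 0 0) f) := by
    rw [smul_monomial, smul_monomial]
    congr 1
    rw [smul_eq_mul, smul_eq_mul, mul_one, div_mul_cancel₀ _ hf0]
  rw [h2]
  apply T.X.smul_mem_loc
  · intro _
    have h3 : T.X.ord P z = T.X.ord P (z / f) + T.X.ord P f := by
      rw [← T.X.ord_mul P _ _ (div_ne_zero hz0 hf0) hf0, div_mul_cancel₀ _ hf0]
    rw [dvs_zero] at hford
    linarith
  · exact T.X.mem_loc P h1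

theorem QFilt.bd_level {γ : Gam T} (χ : QFilt γ q D₀ r) (hfix : γ.Fixes D₀)
    (hD : T.X.deg D₀ = 105 * T.t * q) (hq : 0 < q) (hr : 8 ≤ r) {Λ : ℕ}
    (hΛ : ∀ N : ℕ, χ.F N (-(Λ * N)) = γ.secQ q D₀ (r * N) ∧ χ.F N (Λ * N + 1) = ⊥)
    {N : ℕ} (hN : 1 ≤ N) (l : ℤ) :
    T.X.Bd (χ.F N l) (T.X.genus * (CurveOrd.kdim K (χ.F N l) -
      CurveOrd.kdim K (χ.F (N - 1) (l + Λ)))) := by
  obtain ⟨P₀, _⟩ : ∃ P : T.X.Pt, P ∈ T.S := by
    have h1 := T.card_S
    have h2 := T.t_pos
    have h3 : 0 < T.S.card := by omega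
    exact Finset.card_pos.1 h3
  have hfin := χ.finite_F N l
  have hfin' := χ.finite_F (N - 1) (l + Λ)
  have hdeg := deg_bound_crit hD hq hr
  have hdeg0 : 2 * (T.X.genus : ℤ) + 7 ≤ T.X.deg (T.dvs q D₀ r 0) :=
    hdeg 0 (by rw [abs_zero]; positivity)
  obtain ⟨w, hwU, hw, -⟩ := Curve.exists_basis (K := K) (χ.F (N - 1) (l + Λ))
  set e : MvPolynomial (Fin 4) K := monomial (expo q r 0 0 0) 1 with he
  have he0 : e ≠ 0 := by
    rw [he]
    exact (monomial_eq_zero (s := expo q r 0 0 0) (b := (1 : K))).not.2 one_ne_zero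
  refine T.X.bd_of_family P₀ (χ.F N l) (fun i => e * w i) (linearIndependent_mul hw he0)
    (fun _ => r • D₀) (fun _ => ?_) ?_
  · rw [dvs_zero] at hdeg0
    linarith
  · intro i P z hz0 hz
    have h1 := Datum.smul_monomial_mem_loc (q := q) (by linarith) P hz0 hz
    rw [← γ.loc_secQ hfix hdeg P] at h1
    have h2 := T.X.mul_mem_loc h1 (T.X.mem_loc P (hwU i))
    rw [smul_mul_assoc] at h2
    refine T.X.loc_mono P ?_ h2
    rw [Submodule.mul_le]
    intro s hs u hu
    have h3 : s ∈ χ.F 1 (-(Λ * (1 : ℕ))) := by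
      rw [(hΛ 1).1, mul_one]
      exact hs
    have h4 := χ.mul _ _ _ _ s h3 u hu
    have e1 : 1 + (N - 1) = N := by omega
    have e2 : -((Λ : ℤ) * (1 : ℕ)) + (l + Λ) = l := by
      push_cast
      ring
    rw [e1, e2] at h4
    exact h4

end Pool.Agent.YTD
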