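import Pool.Agent.YTD.SatDef
import Pool.Agent.YTD.HilbCount

/-!
Growth of the dimensions of the `K`-spans of the levels of a test configuration of the quotient.
-/

namespace Pool.Agent.YTD

open Finset Module MvPolynomial Filter

variable {K : Type} [Field K] [Algebra ℂ K]
variable {T : Datum K} {q : ℕ} {D₀ : T.X.Pt →₀ ℤ} {r : ℕ}

namespace QFilt

variable {γ : Gam T} (χ : QFilt γ q D₀ r)

/-- The `K`-span of a level. -/
noncomputable def KB (N : ℕ) (l : ℤ) : Submodule K (MvPolynomial (Fin 4) K) :=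
  Submodule.span K (χ.F N l : Set (MvPolynomial (Fin 4) K))

theorem KB_mul (N N' : ℕ) (l l' : ℤ) (x : MvPolynomial (Fin 4) K) (hx : x ∈ χ.KB N l)
    (y : MvPolynomial (Fin 4) K) (hy : y ∈ χ.KB N' l') : x * y ∈ χ.KB (N + N') (l + l') := by
  have h : χ.KB N l * χ.KB N' l' ≤ χ.KB (N + N') (l + l') := by
    unfold KB
    rw [Submodule.span_mul_span]
    apply Submodule.span_mono
    rintro _ ⟨a, ha, b, hb, rfl⟩
    exact χ.mul _ _ _ _ a ha b hb
  exact h (Submodule.mul_mem_mul hx hy)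

theorem KB_anti {N : ℕ} {l l' : ℤ} (h : l ≤ l') : χ.KB N l' ≤ χ.KB N l :=
  Submodule.span_mono (χ.anti N l l' h)

theorem F_zero_le {l : ℤ} {f : MvPolynomial (Fin 4) K} (hf : f ∈ χ.F 0 l) :
    ∃ c : K, f = c • (1 : MvPolynomial (Fin 4) K) := by
  have h := (χ.le 0 l hf).1
  refine ⟨f.coeff 0, ?_⟩
  rw [MvPolynomial.smul_eq_C_mul, mul_one]
  ext e
  rw [coeff_C]
  split_ifs with he
  · rw [he]
  · by_contra h1
    obtain ⟨j, h2, h3, h4, _⟩ := h e h1
    have h5 : j = 0 := by
      rw [mul_zero, Nat.cast_zero, mul_zero] at h2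
      exact abs_eq_zero.1 (le_antisymm h2 (abs_nonneg _))
    rw [h5, mul_zero, Nat.cast_zero, mul_zero] at h3 h4
    apply he
    ext i
    rw [Finsupp.zero_apply]
    fin_cases i
    · show 0 = e 0
      omega
    · show 0 = e 1
      omega
    · show 0 = e 2
      omega
    · show 0 = e 3
      omega

section

variable {Λ : ℕ} (hΛ : ∀ N : ℕ, χ.F N (-(Λ * N)) = γ.secQ q D₀ (r * N) ∧ χ.F N (Λ * N + 1) = ⊥)
include hΛ

theorem F_eq_bot {N : ℕ} {l : ℤ} (h : ((Λ * N : ℕ) : ℤ) < l) : χ.F N l = ⊥ := by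
  rw [eq_bot_iff, ← (hΛ N).2]
  apply χ.anti
  push_cast at h
  linarith

theorem F_le (N : ℕ) (l : ℤ) : χ.F N l ≤ χ.F N (-((Λ * N : ℕ) : ℤ)) := by
  have h := (hΛ N).1
  push_cast
  rw [h]
  exact χ.le N l

theorem KB_eq_bot {N : ℕ} {l : ℤ} (h : ((Λ * N : ℕ) : ℤ) < l) : χ.KB N l = ⊥ := by
  unfold KB
  rw [χ.F_eq_bot hΛ h]
  simp

theorem one_mem : (1 : MvPolynomial (Fin 4) K) ∈ χ.F 0 0 := by
  classical
  have h := (hΛ 0).1
  have e : (-(Λ * ((0 : ℕ) : ℤ)) : ℤ) = 0 := by simp
  rw [e] at h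
  rw [h]
  refine ⟨?_, map_one _, map_one _, map_one _⟩
  intro e he
  have h1 : e = 0 := by
    by_contra h1
    apply he
    rw [← C_1, coeff_C, if_neg (Ne.symm h1)]
  subst h1
  refine ⟨0, by simp, by simp, by simp, ?_⟩
  rw [← C_1, coeff_C, if_pos rfl]
  intro _ P
  rw [CurveOrd.ord_one]
  have : T.dvs q D₀ (r * 0) 0 = 0 := by
    unfold Datum.dvs
    simp
  rw [this]
  simp

end

/-- the exponents of the monomials of `sec M` -/
theorem KB_le (N : ℕ) (l : ℤ) : χ.KB N l ≤ Submodule.span K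
    ((fun i => monomial (uexpo q (r * N) i) (1 : K)) '' (idx q (r * N) : Set _)) := by
  unfold KB
  rw [Submodule.span_le]
  intro f hf
  have h := (χ.le N l hf).1
  rw [SetLike.mem_coe, f.as_sum]
  refine sum_mem fun e he => ?_
  rw [MvPolynomial.mem_support_iff] at he
  obtain ⟨j, h1, h2, h3, _⟩ := h e he
  obtain ⟨h4, h5⟩ := exists_uexpo h1 h2 h3
  have e1 : monomial e (f.coeff e) = f.coeff e • monomial e (1 : K) := by
    rw [smul_monomial, smul_eq_mul, mul_one]
  rw [e1]
  apply Submodule.smul_mem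
  apply Submodule.subset_span
  refine ⟨⟨j, (e 0, e 2)⟩, h4, ?_⟩
  show monomial (uexpo q (r * N) ⟨j, (e 0, e 2)⟩) (1 : K) = _
  rw [h5]

theorem card_idx_le (q M : ℕ) : (idx q M).card ≤ (10 * q * M + 1) * (40 * q * M + 1) ^ 2 := by
  unfold idx
  rw [card_sigma]
  calc ∑ j ∈ Icc (-((5 * q * M : ℕ) : ℤ)) ((5 * q * M : ℕ) : ℤ),
        (range (AA q M j + 1) ×ˢ range (BB q M j + 1)).card
      ≤ ∑ j ∈ Icc (-((5 * q * M : ℕ) : ℤ)) ((5 * q * M : ℕ) : ℤ), (40 * q * M + 1) ^ 2 := by
        refine sum_le_sum fun j hj => ?_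
        rw [mem_Icc] at hj
        rw [card_product, card_range, card_range, sq]
        have h1 : AA q M j ≤ 40 * q * M := by
          unfold AA
          rw [Int.toNat_le]
          push_cast at hj ⊢
          linarith
        have h2 : BB q M j ≤ 40 * q * M := by
          unfold BB
          rw [Int.toNat_le]
          push_cast at hj ⊢
          linarith
        exact Nat.mul_le_mul (by omega) (by omega)
    _ = _ := by
        rw [sum_const, smul_eq_mul, Int.card_Icc]
        congr 1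
        have : 10 * q * M = 2 * (5 * q * M) := by ring
        rw [this]
        omega

theorem finrank_KB_le (N : ℕ) (l : ℤ) : finrank K (χ.KB N l) ≤
    ((10 * q * r + 1) * (40 * q * r + 1) ^ 2) * (N + 1) ^ 3 := by
  classical
  have hfin : ((fun i => monomial (uexpo q (r * N) i) (1 : K)) ''
      (idx q (r * N) : Set _)).Finite := (idx q (r * N)).finite_toSet.image _
  have : FiniteDimensional K (Submodule.span K
    ((fun i => monomial (uexpo q (r * N) i) (1 : K)) '' (idx q (r * N) : Set _))) :=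
    FiniteDimensional.span_of_finite K hfin
  calc finrank K (χ.KB N l) ≤ finrank K (Submodule.span K
        ((fun i => monomial (uexpo q (r * N) i) (1 : K)) '' (idx q (r * N) : Set _))) :=
        Submodule.finrank_mono (χ.KB_le N l)
    _ ≤ (idx q (r * N)).card := by
        rw [← coe_image]
        exact (finrank_span_finset_le_card _).trans card_image_le
    _ ≤ (10 * q * (r * N) + 1) * (40 * q * (r * N) + 1) ^ 2 := card_idx_le q (r * N)
    _ ≤ ((10 * q * r + 1) * (N + 1)) * ((40 * q * r + 1) * (N + 1)) ^ 2 := by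
        apply Nat.mul_le_mul
        · nlinarith
        · apply Nat.pow_le_pow_left
          nlinarith
    _ = _ := by ring

end QFilt

end Pool.Agent.YTD
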