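import Pool.Agent.YTD.SatH

/-!
Growth of the dimensions of the `K`-spans of the levels of a test configuration of the quotient.
-/

namespace Pool.Agent.YTD

open Finset Module MvPolynomial Filter

section

set_option linter.unusedSectionVars false

variable {K R : Type} [Field K] [CommRing R] [IsDomain R] [Algebra K R]
variable {k : ℕ} (n : Fin k → ℕ) (v : Fin k → ℤ) (g : Fin k → R)

theorem dgm_single (a : Fin k) : dgm n (Pi.single a 1) = n a := by
  unfold dgm
  rw [sum_eq_single a]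
  · rw [Pi.single_eq_same, one_mul]
  · intro j _ hj
    rw [Pi.single_eq_of_ne hj, zero_mul]
  · intro h
    exact (h (mem_univ _)).elim

theorem wtm_single (a : Fin k) : wtm v (Pi.single a 1) = v a := by
  unfold wtm
  rw [sum_eq_single a]
  · rw [Pi.single_eq_same, Nat.cast_one, one_mul]
  · intro j _ hj
    rw [Pi.single_eq_of_ne hj, Nat.cast_zero, zero_mul]
  · intro h
    exact (h (mem_univ _)).elim

theorem mon_single (a : Fin k) : mon g (Pi.single a 1) = g a := by
  unfold mon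
  rw [prod_eq_single a]
  · rw [Pi.single_eq_same, pow_one]
  · intro j _ hj
    rw [Pi.single_eq_of_ne hj, pow_zero]
  · intro h
    exact (h (mem_univ _)).elim

theorem dgm_zero : dgm n 0 = 0 := by
  unfold dgm
  simp

theorem wtm_zero : wtm v 0 = 0 := by
  unfold wtm
  simp

theorem mon_zero : mon g 0 = 1 := by
  unfold mon
  simp

variable {n v g}

theorem one_mem_span_mon : (1 : R) ∈ Submodule.span K (mon g '' {m | dgm n m = 0 ∧ wtm v m = 0}) :=
  Submodule.subset_span ⟨0, ⟨dgm_zero n, wtm_zero v⟩, mon_zero g⟩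

theorem mul_mem_span_mon {N : ℕ} {l : ℤ} (a : Fin k) {x : R}
    (hx : x ∈ Submodule.span K (mon g '' {m | dgm n m = N ∧ wtm v m = l})) :
    x * g a ∈ Submodule.span K (mon g '' {m | dgm n m = N + n a ∧ wtm v m = l + v a}) := by
  have h1 : LinearMap.mulLeft K (g a) x ∈ (Submodule.span K (mon g '' {m |
      dgm n m = N ∧ wtm v m = l})).map (LinearMap.mulLeft K (g a)) := ⟨x, hx, rfl⟩
  rw [Submodule.map_span] at h1
  rw [mul_comm]
  refine Submodule.span_mono ?_ h1
  rintro _ ⟨_, ⟨m, ⟨h2, h3⟩, rfl⟩, rfl⟩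
  refine ⟨m + Pi.single a 1, ⟨?_, ?_⟩, ?_⟩
  · rw [dgm_add, dgm_single, h2]
  · rw [wtm_add, wtm_single, h3]
  · rw [mon_add, mon_single, LinearMap.mulLeft_apply, mul_comm]

end

variable {K : Type} [Field K] [Algebra ℂ K]
variable {T : Datum K} {q : ℕ} {D₀ : T.X.Pt →₀ ℤ} {r : ℕ}

theorem QTestConf.exists_bigr {γ : Gam T} (χ : QTestConf γ q D₀ r) {Λ : ℕ}
    (hΛ : ∀ N : ℕ, χ.F N (-(Λ * N)) = γ.secQ q D₀ (r * N) ∧ χ.F N (Λ * N + 1) = ⊥)
    {e : MvPolynomial (Fin 4) K} (he : e ∈ χ.F 1 (-(Λ : ℤ))) (he0 : e ≠ 0) :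
    ∃ (k' : ℕ) (n' : Fin k' → ℕ) (v' : Fin k' → ℤ) (g' : Fin k' → MvPolynomial (Fin 4) K),
      BigrData n' v' g' χ.KB Λ e := by
  classical
  obtain ⟨k, n, w, f, hf, hspan⟩ := χ.fg
  let w' : Fin k → ℤ := fun i => max (w i) (-((Λ * n i : ℕ) : ℤ))
  have hw' : ∀ i, f i ∈ χ.F (n i) (w' i) := by
    intro i
    rcases max_choice (w i) (-((Λ * n i : ℕ) : ℤ)) with h | h
    · show f i ∈ χ.F (n i) (max (w i) (-((Λ * n i : ℕ) : ℤ)))
      rw [h]
      exact hf i
    · show f i ∈ χ.F (n i) (max (w i) (-((Λ * n i : ℕ) : ℤ)))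
      rw [h]
      exact χ.F_le hΛ _ _ (hf i)
  let I : Type := (i : {i : Fin k // 1 ≤ n i}) ×
    {v : ℤ // v ∈ Icc (-((Λ * n i.1 : ℕ) : ℤ)) (w' i.1)}
  let φ : Fin (Fintype.card I) ≃ I := (Fintype.equivFin I).symm
  let n' : Fin (Fintype.card I) → ℕ := fun a => n (φ a).1.1
  let v' : Fin (Fintype.card I) → ℤ := fun a => (φ a).2.1
  let g' : Fin (Fintype.card I) → MvPolynomial (Fin 4) K := fun a => f (φ a).1.1
  have hmem : ∀ a, g' a ∈ χ.F (n' a) (v' a) := by
    intro a
    exact χ.anti _ _ _ (mem_Icc.1 (φ a).2.2).2 (hw' _)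
  -- monomials in the new generators
  have hmon : ∀ (s : ℕ) (m : Fin (Fintype.card I) → ℕ), ∑ a, m a = s →
      mon g' m ∈ χ.F (dgm n' m) (wtm v' m) := by
    intro s
    induction s with
    | zero =>
      intro m hm
      have h0 : m = 0 := by
        funext a
        exact (sum_eq_zero_iff.1 hm) a (mem_univ _)
      rw [h0, mon_zero, dgm_zero, wtm_zero]
      exact χ.one_mem hΛ
    | succ s ih =>
      intro m hm
      obtain ⟨a, ha⟩ : ∃ a, m a ≠ 0 := by
        by_contra hcon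
        push Not at hcon
        rw [sum_congr rfl fun a _ => hcon a, sum_const_zero] at hm
        omega
      obtain ⟨m₁, rfl⟩ : ∃ m₁ : Fin (Fintype.card I) → ℕ, m = m₁ + Pi.single a 1 :=
        ⟨m - Pi.single a 1, by
          funext b
          rw [Pi.add_apply, Pi.sub_apply]
          by_cases hb : b = a
          · subst hb
            rw [Pi.single_eq_same]
            omega
          · rw [Pi.single_eq_of_ne hb]
            omega⟩
      rw [mon_add, dgm_add, wtm_add, mon_single, dgm_single, wtm_single]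
      refine χ.mul _ _ _ _ _ (ih m₁ ?_) _ (hmem a)
      simp only [Pi.add_apply] at hm
      rw [sum_add_distrib, sum_pi_single' a 1 univ, if_pos (mem_univ _)] at hm
      omega
  -- the converse
  have hconv : ∀ (s : ℕ) (m : Fin k → ℕ), ∑ i, m i = s → ∀ l : ℤ,
      -((Λ * dgm n m : ℕ) : ℤ) ≤ l → l ≤ wtm w' m → mon f m ∈ Submodule.span K
        (mon g' '' {m' | dgm n' m' = dgm n m ∧ wtm v' m' = l}) := by
    intro s
    induction s with
    | zero =>
      intro m hm l hl1 hl2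
      have h0 : m = 0 := by
        funext a
        exact (sum_eq_zero_iff.1 hm) a (mem_univ _)
      rw [h0, dgm_zero] at hl1
      rw [h0, wtm_zero] at hl2
      have h1 : l = 0 := by
        rw [mul_zero, Nat.cast_zero, neg_zero] at hl1
        exact le_antisymm hl2 hl1
      rw [h0, mon_zero, dgm_zero, h1]
      exact one_mem_span_mon
    | succ s ih =>
      intro m hm l hl1 hl2
      obtain ⟨i, hi⟩ : ∃ i, m i ≠ 0 := by
        by_contra hcon
        push Not at hcon
        rw [sum_congr rfl fun a _ => hcon a, sum_const_zero] at hm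
        omega
      obtain ⟨m₁, rfl⟩ : ∃ m₁ : Fin k → ℕ, m = m₁ + Pi.single i 1 :=
        ⟨m - Pi.single i 1, by
          funext b
          rw [Pi.add_apply, Pi.sub_apply]
          by_cases hb : b = i
          · subst hb
            rw [Pi.single_eq_same]
            omega
          · rw [Pi.single_eq_of_ne hb]
            omega⟩
      have hm₁ : ∑ i, m₁ i = s := by
        simp only [Pi.add_apply] at hm
        rw [sum_add_distrib, sum_pi_single' i 1 univ, if_pos (mem_univ _)] at hm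
        omega
      rw [dgm_add, dgm_single] at hl1 ⊢
      rw [wtm_add, wtm_single] at hl2
      rw [mon_add, mon_single]
      have hwge : -((Λ * dgm n m₁ : ℕ) : ℤ) ≤ wtm w' m₁ :=
        wtm_ge (fun i => le_max_right _ _) m₁
      rcases Nat.eq_zero_or_pos (n i) with hni | hni
      · have hwi : w' i = max (w i) 0 := by
          show max (w i) (-((Λ * n i : ℕ) : ℤ)) = _
          rw [hni, mul_zero, Nat.cast_zero, neg_zero]
        have hfi := hw' i
        rw [hni] at hfi
        rw [hni, add_zero] at hl1 ⊢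
        rcases lt_or_ge 0 (w i) with hwpos | hwneg
        · rw [χ.F_eq_bot hΛ (by
            rw [mul_zero, Nat.cast_zero, hwi]
            exact lt_max_of_lt_left hwpos), Submodule.mem_bot] at hfi
          rw [hfi, mul_zero]
          exact zero_mem _
        · obtain ⟨c, hc⟩ := χ.F_zero_le hfi
          rw [hwi, max_eq_right hwneg, add_zero] at hl2
          rw [hc, mul_smul_comm, mul_one]
          exact Submodule.smul_mem _ _ (ih m₁ hm₁ l hl1 hl2)
      · set u : ℤ := max (-((Λ * n i : ℕ) : ℤ)) (l - wtm w' m₁) with hu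
        have hu1 : -((Λ * n i : ℕ) : ℤ) ≤ u := le_max_left _ _
        have hu2 : l - wtm w' m₁ ≤ u := le_max_right _ _
        have hu3 : u ≤ w' i := max_le (le_max_right _ _) (by linarith)
        let x : I := ⟨⟨i, hni⟩, ⟨u, mem_Icc.2 ⟨hu1, hu3⟩⟩⟩
        have hx : φ (φ.symm x) = x := φ.apply_symm_apply x
        have e1 : n' (φ.symm x) = n i := by
          show n (φ (φ.symm x)).1.1 = n i
          rw [hx]
        have e2 : v' (φ.symm x) = u := by
          show (φ (φ.symm x)).2.1 = u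
          rw [hx]
        have e3 : g' (φ.symm x) = f i := by
          show f (φ (φ.symm x)).1.1 = f i
          rw [hx]
        have h1 : -((Λ * dgm n m₁ : ℕ) : ℤ) ≤ l - u := by
          rcases max_choice (-((Λ * n i : ℕ) : ℤ)) (l - wtm w' m₁) with h | h
          · rw [hu, h]
            push_cast at hl1 ⊢
            linarith
          · rw [hu, h]
            linarith
        have h2 := ih m₁ hm₁ (l - u) h1 (by linarith)
        have h3 := mul_mem_span_mon (n := n') (v := v') (g := g') (φ.symm x) h2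
        rw [e1, e2, e3, sub_add_cancel] at h3
        exact h3
  refine ⟨Fintype.card I, n', v', g', ?_⟩
  refine
    { hn := fun a => (φ a).1.2
      hv := fun a => (mem_Icc.1 (φ a).2.2).1
      hgen := ?_
      hmul := χ.KB_mul
      htop := fun N l h => χ.KB_eq_bot hΛ h
      he := Submodule.subset_span he
      he0 := he0 }
  intro N l hl
  apply le_antisymm
  · unfold QFilt.KB
    rw [Submodule.span_le]
    intro x hx
    have h1 := hspan N l hx
    have h2 : Submodule.span ℂ {g | ∃ m : Fin k → ℕ,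
        ∑ i, m i * n i = N ∧ l ≤ ∑ i, m i * w i ∧ g = ∏ i, f i ^ m i} ≤
        (Submodule.span K (mon g' '' {m | dgm n' m = N ∧ wtm v' m = l})).restrictScalars ℂ := by
      rw [Submodule.span_le]
      rintro _ ⟨m, h3, h4, rfl⟩
      have h5 : wtm w m ≤ wtm w' m := by
        unfold wtm
        exact sum_le_sum fun i _ => mul_le_mul_of_nonneg_left (le_max_left _ _)
          (Nat.cast_nonneg _)
      have h6 : dgm n m = N := h3
      have h7 := hconv _ m rfl l (by rw [h6]; exact hl) (le_trans h4 h5)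
      rw [h6] at h7
      exact h7
    exact h2 h1
  · rw [Submodule.span_le]
    rintro _ ⟨m, ⟨h1, h2⟩, rfl⟩
    have h3 := hmon _ m rfl
    rw [h1, h2] at h3
    exact Submodule.subset_span h3

/-- (H), given a section of degree one. -/
theorem QTestConf.hilb_of {γ : Gam T} (χ : QTestConf γ q D₀ r) {Λ : ℕ}
    (hΛ : ∀ N : ℕ, χ.F N (-(Λ * N)) = γ.secQ q D₀ (r * N) ∧ χ.F N (Λ * N + 1) = ⊥)
    {e : MvPolynomial (Fin 4) K} (he : e ∈ γ.secQ q D₀ r) (he0 : e ≠ 0) :
    ∃ C : ℝ, ∀ N : ℕ, 1 ≤ N →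
      ∑ l ∈ Ioc (-((Λ * N : ℕ) : ℤ)) ((Λ * N : ℕ) : ℤ), (CurveOrd.kdim K (χ.F N l) : ℝ) ≤
      ∑ l ∈ Ioc (-((Λ * (N - 1) : ℕ) : ℤ)) ((Λ * (N - 1) : ℕ) : ℤ),
        (CurveOrd.kdim K (χ.F (N - 1) l) : ℝ) + C * (N : ℝ) ^ 3 := by
  have he' : e ∈ χ.F 1 (-(Λ : ℤ)) := by
    have h := (hΛ 1).1
    rw [Nat.cast_one, mul_one, mul_one] at h
    rw [h]
    exact he
  obtain ⟨k', n', v', g', H⟩ := χ.exists_bigr hΛ he' he0
  obtain ⟨C', hC'⟩ := H.hilb (C := (10 * q * r + 1) * (40 * q * r + 1) ^ 2)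
    (fun N l => χ.finrank_KB_le N l)
  refine ⟨C' * 8, fun N hN => ?_⟩
  obtain ⟨N, rfl⟩ : ∃ M, N = M + 1 := ⟨N - 1, by omega⟩
  have h := hC' N
  have h' : ((∑ l ∈ Ioc (-((Λ * (N + 1) : ℕ) : ℤ)) ((Λ * (N + 1) : ℕ) : ℤ),
      finrank K (χ.KB (N + 1) l) : ℕ) : ℝ) ≤
      ((∑ l ∈ Ioc (-((Λ * N : ℕ) : ℤ)) ((Λ * N : ℕ) : ℤ), finrank K (χ.KB N l) +
        C' * (N + 2) ^ 3 : ℕ) : ℝ) := by
    exact_mod_cast h
  rw [Nat.add_sub_cancel]
  push_cast at h' ⊢
  refine le_trans h' ?_
  have h2 : ((N : ℝ) + 2) ^ 3 ≤ 8 * ((N : ℝ) + 1) ^ 3 := by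
    have h0 : (0 : ℝ) ≤ N := Nat.cast_nonneg N
    calc ((N : ℝ) + 2) ^ 3 ≤ (2 * ((N : ℝ) + 1)) ^ 3 :=
          pow_le_pow_left₀ (by positivity) (by linarith) 3
      _ = _ := by ring
  have h3 : (C' : ℝ) * ((N : ℝ) + 2) ^ 3 ≤ C' * 8 * ((N : ℝ) + 1) ^ 3 := by
    rw [mul_assoc]
    exact mul_le_mul_of_nonneg_left h2 (Nat.cast_nonneg _)
  have h4 : ∀ N l, CurveOrd.kdim K (χ.F N l) = finrank K (χ.KB N l) := fun _ _ => rfl
  simp only [h4]
  linarith

end Pool.Agent.YTD
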