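import Pool.Agent.YTD.SatE
import Pool.Agent.YTD.SatJ

/-!
The Hilbert function of a test configuration of the quotient.
-/

namespace Pool.Agent.YTD

open Finset Module MvPolynomial Filter

variable {K : Type} [Field K] [Algebra ℂ K]
variable {T : Datum K} {q : ℕ} {D₀ : T.X.Pt →₀ ℤ} {r : ℕ}

/-- The quotient has non-zero sections. -/
theorem Gam.exists_secQ_ne_zero (γ : Gam T) (hfix : γ.Fixes D₀)
    (hD : T.X.deg D₀ = 105 * T.t * q) (hq : 0 < q) {N : ℕ} (hN : 8 ≤ N) :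
    ∃ e ∈ γ.secQ q D₀ N, e ≠ 0 := by
  obtain ⟨P₀⟩ := T.exists_pt
  obtain ⟨f, hf, hf0⟩ := T.exists_sec_ne_zero (q := q) (D₀ := D₀) (N := N) (by
    rw [hD]
    have h3 : (1 : ℤ) ≤ T.t := by exact_mod_cast T.t_pos
    have h4 : (1 : ℤ) ≤ q := by exact_mod_cast hq
    have h5 : (8 : ℤ) ≤ N := by exact_mod_cast hN
    have h6 : (8 : ℤ) ≤ N * q := by nlinarith
    have h7 : (T.t : ℤ) * 8 ≤ T.t * (N * q) := by
      apply mul_le_mul_of_nonneg_left h6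
      positivity
    nlinarith)
  have h1 : f ∈ T.X.loc P₀ (γ.secQ q D₀ N) := by
    rw [γ.loc_secQ hfix (fun j hj => deg_bound_crit hD hq hN j hj)]
    exact T.X.mem_loc P₀ hf
  exact CurveOrd.exists_ne_zero_of_loc h1 hf0

theorem QTestConf.hilb {γ : Gam T} (χ : QTestConf γ q D₀ r) (hfix : γ.Fixes D₀)
    (hD : T.X.deg D₀ = 105 * T.t * q) (hq : 0 < q) (hr : 8 ≤ r) {Λ : ℕ}
    (hΛ : ∀ N : ℕ, χ.F N (-(Λ * N)) = γ.secQ q D₀ (r * N) ∧ χ.F N (Λ * N + 1) = ⊥) :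
    ∃ C : ℝ, ∀ N : ℕ, 1 ≤ N →
      ∑ l ∈ Ioc (-((Λ * N : ℕ) : ℤ)) ((Λ * N : ℕ) : ℤ), (CurveOrd.kdim K (χ.F N l) : ℝ) ≤
      ∑ l ∈ Ioc (-((Λ * (N - 1) : ℕ) : ℤ)) ((Λ * (N - 1) : ℕ) : ℤ),
        (CurveOrd.kdim K (χ.F (N - 1) l) : ℝ) + C * (N : ℝ) ^ 3 := by
  obtain ⟨e, he, he0⟩ := γ.exists_secQ_ne_zero hfix hD hq hr
  exact χ.hilb_of hΛ he he0

end Pool.Agent.YTD
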