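import Pool.Agent.YTD.SatE

/-!
Levelwise approximation of the saturated filtration by filtrations of small volume.
-/

namespace Pool.Agent.YTD

open Finset Module MvPolynomial Filter

variable {K : Type} [Field K] [Algebra ℂ K]
variable {T : Datum K} {q : ℕ} {D₀ : T.X.Pt →₀ ℤ} {r : ℕ}

/-! ### Semi-invariants -/

namespace Gam

variable {γ : Gam T}

/-- the projection to an isotypic component, up to a factor -/
noncomputable def piE (γ : Gam T) (a b c : ℂ) (f : MvPolynomial (Fin 4) K) :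
    MvPolynomial (Fin 4) K :=
  ((f + a • γ.E₁ f) + b • γ.E₂ (f + a • γ.E₁ f)) +
    c • γ.tauE ((f + a • γ.E₁ f) + b • γ.E₂ (f + a • γ.E₁ f))

theorem piE_eq (a b c : ℂ) (f : MvPolynomial (Fin 4) K) : γ.piE a b c f =
    f + (a • γ.E₁ f + b • γ.E₂ f + (b * a) • γ.E₂ (γ.E₁ f) +
    c • γ.tauE f + (c * a) • γ.tauE (γ.E₁ f) + (c * b) • γ.tauE (γ.E₂ f) +
      (c * (b * a)) • γ.tauE (γ.E₂ (γ.E₁ f))) := by
  unfold piE
  simp only [map_add, map_smul, smul_add, smul_smul]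
  ring

theorem sum_piE (f : MvPolynomial (Fin 4) K) :
    γ.piE 1 1 1 f + γ.piE 1 1 (-1) f + γ.piE 1 (-1) 1 f + γ.piE 1 (-1) (-1) f +
    γ.piE (-1) 1 1 f + γ.piE (-1) 1 (-1) f + γ.piE (-1) (-1) 1 f + γ.piE (-1) (-1) (-1) f =
      (8 : ℂ) • f := by
  simp only [piE_eq]
  module

theorem evenDeg_add {f g : MvPolynomial (Fin 4) K} (hf : EvenDeg f) (hg : EvenDeg g) :
    EvenDeg (f + g) := by
  intro e he
  by_cases h : f.coeff e = 0
  · apply hg e
    intro h3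
    apply he
    rw [coeff_add, h, h3, add_zero]
  · exact hf e h

theorem evenDeg_smul {f : MvPolynomial (Fin 4) K} (hf : EvenDeg f) (c : ℂ) :
    EvenDeg (c • f) := by
  intro e he
  apply hf e
  intro h
  apply he
  rw [coeff_smul, h, smul_zero]

theorem E₁_piE {a : ℂ} (ha : a * a = 1) (b c : ℂ) {f : MvPolynomial (Fin 4) K}
    (hf : EvenDeg f) : γ.E₁ (γ.piE a b c f) = a • γ.piE a b c f := by
  have h1 : γ.E₁ (f + a • γ.E₁ f) = a • (f + a • γ.E₁ f) := by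
    rw [map_add, map_smul, γ.E₁_E₁, smul_add, smul_smul, ha, one_smul, add_comm]
  have h2 : EvenDeg (f + a • γ.E₁ f) := evenDeg_add hf (evenDeg_smul (γ.evenDeg_E₁ hf) a)
  have h3 : γ.E₁ ((f + a • γ.E₁ f) + b • γ.E₂ (f + a • γ.E₁ f)) =
      a • ((f + a • γ.E₁ f) + b • γ.E₂ (f + a • γ.E₁ f)) := by
    rw [map_add, map_smul, h1, γ.E₁_E₂' h2, h1, map_smul]
    module
  unfold piE
  rw [map_add, map_smul, γ.E₁_tauE, h3, map_smul]
  module

theorem E₂_piE (a : ℂ) {b : ℂ} (hb : b * b = 1) (c : ℂ) (f : MvPolynomial (Fin 4) K) :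
    γ.E₂ (γ.piE a b c f) = b • γ.piE a b c f := by
  have h3 : γ.E₂ ((f + a • γ.E₁ f) + b • γ.E₂ (f + a • γ.E₁ f)) =
      b • ((f + a • γ.E₁ f) + b • γ.E₂ (f + a • γ.E₁ f)) := by
    generalize f + a • γ.E₁ f = A
    rw [map_add, map_smul, γ.E₂_E₂, smul_add, smul_smul, hb, one_smul, add_comm]
  unfold piE
  rw [map_add, map_smul, γ.E₂_tauE, h3, map_smul]
  module

theorem tauE_piE (a b : ℂ) {c : ℂ} (hc : c * c = 1) (f : MvPolynomial (Fin 4) K) :
    γ.tauE (γ.piE a b c f) = c • γ.piE a b c f := by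
  unfold piE
  generalize (f + a • γ.E₁ f) + b • γ.E₂ (f + a • γ.E₁ f) = A
  rw [map_add, map_smul, γ.toInv.tauE_tauE, smul_add, smul_smul, hc, one_smul, add_comm]

/-- multiplication by a semi-invariant -/
theorem av_mul {a b c : ℂ} {g : MvPolynomial (Fin 4) K} (h1 : γ.E₁ g = a • g)
    (h2 : γ.E₂ g = b • g) (h3 : γ.tauE g = c • g) (f : MvPolynomial (Fin 4) K) :
    γ.av (f * g) = γ.piE a b c f * g := by
  rw [av_eq, piE_eq]
  simp only [map_mul, h1, h2, h3, map_smul]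
  simp only [Algebra.smul_def, map_mul]
  ring

theorem av_mul_fixed {g : MvPolynomial (Fin 4) K} (h1 : γ.E₁ g = g)
    (h2 : γ.E₂ g = g) (h3 : γ.tauE g = g) (f : MvPolynomial (Fin 4) K) :
    γ.av (g * f) = g * γ.av f := by
  rw [av_eq, av_eq]
  simp only [map_mul, h1, h2, h3]
  ring

theorem av_add (f g : MvPolynomial (Fin 4) K) : γ.av (f + g) = γ.av f + γ.av g := by
  rw [av_eq, av_eq, av_eq]
  simp only [map_add]
  ring

theorem av_smul (c : ℂ) (f : MvPolynomial (Fin 4) K) : γ.av (c • f) = c • γ.av f := by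
  rw [av_eq, av_eq]
  simp only [map_smul, smul_add]

theorem av_fixed {g : MvPolynomial (Fin 4) K} (h1 : γ.E₁ g = g)
    (h2 : γ.E₂ g = g) (h3 : γ.tauE g = g) : γ.av g = (8 : ℂ) • g := by
  rw [av_eq, h1, h2, h3]
  module

theorem av_mem_secQ (hfix : γ.Fixes D₀) {N : ℕ} {f : MvPolynomial (Fin 4) K}
    (hf : f ∈ T.sec q D₀ N) : γ.av f ∈ γ.secQ q D₀ N := by
  have p1 := fun {g : MvPolynomial (Fin 4) K} (hg : g ∈ T.sec q D₀ N) =>
    (pres_E₁ hfix (q := q)).mem hg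
  have p2 := fun {g : MvPolynomial (Fin 4) K} (hg : g ∈ T.sec q D₀ N) =>
    (pres_E₂ hfix (q := q)).mem hg
  have p3 := fun {g : MvPolynomial (Fin 4) K} (hg : g ∈ T.sec q D₀ N) =>
    (pres_tauE hfix (q := q)).mem hg
  refine ⟨?_, E₁_av (evenDeg_of_sec hf), E₂_av f, tauE_av f⟩
  unfold av
  have h1 := add_mem hf (p1 hf)
  have h2 := add_mem h1 (p2 h1)
  exact add_mem h2 (p3 h2)

/-- Semi-invariant sections of every character. -/
theorem exists_semi_sec (hfix : γ.Fixes D₀) {N : ℕ}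
    (hdeg : 2 * (T.X.genus : ℤ) + 7 ≤ T.X.deg (T.dvs q D₀ N 0))
    {a b c : ℂ} (ha : a * a = 1) (hb : b * b = 1) (hc : c * c = 1) :
    ∃ g ∈ T.sec q D₀ N, g ≠ 0 ∧ γ.E₁ g = a • g ∧ γ.E₂ g = b • g ∧ γ.tauE g = c • g := by
  classical
  obtain ⟨P⟩ := T.exists_pt
  set B : Finset T.X.Pt := {γ.σ₁ P, γ.σ₂ P, γ.σ₁ (γ.σ₂ P), γ.σ P, γ.σ₁ (γ.σ P), γ.σ₂ (γ.σ P),
    γ.σ₁ (γ.σ₂ (γ.σ P))} with hB
  have hPB : P ∉ B := by
    rw [hB]
    simp only [Finset.mem_insert, Finset.mem_singleton, not_or]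
    refine ⟨(γ.free₁ P).symm, (γ.free₂ P).symm, (γ.free₁₂ P).symm, (γ.free P).symm, ?_, ?_, ?_⟩
    · rw [← γ.σcomm₁]
      exact (γ.free₀₁ P).symm
    · rw [← γ.σcomm₂]
      exact (γ.free₀₂ P).symm
    · rw [← γ.σcomm₂, ← γ.σcomm₁]
      exact (γ.free₀₁₂ P).symm
  have hBcard : B.card ≤ 7 :=
    (Finset.card_insert_le _ _).trans (Nat.succ_le_succ Finset.card_le_six)
  set DB : T.X.Pt →₀ ℤ := ∑ Q ∈ B, Finsupp.single Q 1 with hDB
  have hDBd : T.X.deg DB ≤ 7 := by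
    rw [hDB, T.X.deg_sum]
    simp only [T.X.deg_single, Finset.sum_const, nsmul_eq_mul, mul_one]
    exact_mod_cast hBcard
  have hDBa : ∀ Q, DB Q = if Q ∈ B then 1 else 0 := by
    intro Q
    rw [hDB, Finsupp.finsetSum_apply]
    simp only [Finsupp.single_apply]
    rw [Finset.sum_ite_eq' B Q]
  obtain ⟨w, hw, hw0, hw1⟩ := T.X.exists_ord_eq P (D := T.dvs q D₀ N 0 - DB) (by
    rw [T.X.deg_sub]
    linarith) P
  rw [Finsupp.sub_apply, hDBa, if_neg hPB, sub_zero] at hw1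
  set d : T.X.Pt → ℤ := fun Q => if Q ∈ B then 1 else 0 with hd
  have hd0 : ∀ Q, 0 ≤ d Q := by
    intro Q
    rw [hd]
    dsimp only
    split_ifs <;> norm_num
  set p : ℤ → Prop := fun _ => True with hp
  have hp' : ∀ j, p j → p (-j) := fun _ _ => trivial
  have hcw : w ∈ T.PV q D₀ N p d 0 := by
    rw [Datum.mem_PV]
    intro h0
    refine ⟨trivial, fun Q => ?_⟩
    have h7 := hw h0 Q
    rw [Finsupp.sub_apply, hDBa] at h7
    rw [hd]
    dsimp only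
    linarith
  set e : Fin 4 →₀ ℕ := Finsupp.equivFunOnFinite.symm ![25 * q * N, 0, 25 * q * N, 0] with he
  have e0 : e 0 = 25 * q * N := rfl
  have e1 : e 1 = 0 := rfl
  have e2 : e 2 = 25 * q * N := rfl
  have e3 : e 3 = 0 := rfl
  set h : MvPolynomial (Fin 4) K := monomial e w with hh
  have hmem : h ∈ bigr q N (T.PV q D₀ N p d) := monomial_mem_bigr (j := 0)
    (by rw [abs_zero]; positivity) (by rw [e0, e1]; push_cast; ring)
    (by rw [e2, e3]; push_cast; ring) hcw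
  have hvan : ∀ {d' : T.X.Pt → ℤ} {g : MvPolynomial (Fin 4) K} (x : ℂ), (∀ Q, 0 ≤ d' Q) →
      1 ≤ d' P → g ∈ bigr q N (T.PV q D₀ N p d') →
      x • g ∈ bigr q N (T.PV q D₀ N p (delta P)) := by
    intro d' g x hd' h1 hg
    apply Submodule.smul_mem
    refine bigr_mono (fun j _ => PV_mono ?_ j) hg
    intro Q
    unfold delta
    split_ifs with h6
    · rw [h6]
      exact h1
    · exact hd' Q
  have t1 := γ.E₁_mem_PV hfix hmem
  have t2 := γ.E₂_mem_PV hfix hmem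
  have t12 := γ.E₂_mem_PV hfix t1
  have t0 := γ.tauE_mem_PV hfix hp' hmem
  have t01 := γ.tauE_mem_PV hfix hp' t1
  have t02 := γ.tauE_mem_PV hfix hp' t2
  have t012 := γ.tauE_mem_PV hfix hp' t12
  have hdB : ∀ Q, Q ∈ B → 1 ≤ d Q := by
    intro Q hQ
    rw [hd]
    dsimp only
    rw [if_pos hQ]
  have hBm : ∀ Q, (Q = γ.σ₁ P ∨ Q = γ.σ₂ P ∨ Q = γ.σ₁ (γ.σ₂ P) ∨ Q = γ.σ P ∨
      Q = γ.σ₁ (γ.σ P) ∨ Q = γ.σ₂ (γ.σ P) ∨ Q = γ.σ₁ (γ.σ₂ (γ.σ P))) → Q ∈ B := by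
    intro Q hQ
    rw [hB]
    simpa only [Finset.mem_insert, Finset.mem_singleton] using hQ
  have hrest : a • γ.E₁ h + b • γ.E₂ h + (b * a) • γ.E₂ (γ.E₁ h) +
      c • γ.tauE h + (c * a) • γ.tauE (γ.E₁ h) + (c * b) • γ.tauE (γ.E₂ h) +
      (c * (b * a)) • γ.tauE (γ.E₂ (γ.E₁ h)) ∈ bigr q N (T.PV q D₀ N p (delta P)) := by
    refine add_mem (add_mem (add_mem (add_mem (add_mem (add_mem
        (hvan _ (fun Q => hd0 _) ?_ t1) (hvan _ (fun Q => hd0 _) ?_ t2))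
        (hvan _ (fun Q => hd0 _) ?_ t12))
        (hvan _ (fun Q => hd0 _) ?_ t0)) (hvan _ (fun Q => hd0 _) ?_ t01))
        (hvan _ (fun Q => hd0 _) ?_ t02)) (hvan _ (fun Q => hd0 _) ?_ t012)
    all_goals
      apply hdB
      apply hBm
      simp
  have hsec : h ∈ T.sec q D₀ N := by
    rw [← T.secP_true, T.secP_eq]
    exact bigr_mono (fun j _ => PV_mono hd0 j) hmem
  refine ⟨γ.piE a b c h, ?_, ?_, E₁_piE ha b c (evenDeg_of_bigr hmem), E₂_piE a hb c h,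
    tauE_piE a b hc h⟩
  · have p1 := fun {g : MvPolynomial (Fin 4) K} (hg : g ∈ T.sec q D₀ N) =>
      (pres_E₁ hfix (q := q)).mem hg
    have p2 := fun {g : MvPolynomial (Fin 4) K} (hg : g ∈ T.sec q D₀ N) =>
      (pres_E₂ hfix (q := q)).mem hg
    have p3 := fun {g : MvPolynomial (Fin 4) K} (hg : g ∈ T.sec q D₀ N) =>
      (pres_tauE hfix (q := q)).mem hg
    unfold piE
    have h1 := add_mem hsec (Submodule.smul_mem _ a (p1 hsec))
    have h2 := add_mem h1 (Submodule.smul_mem _ b (p2 h1))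
    exact add_mem h2 (Submodule.smul_mem _ c (p3 h2))
  · intro h0
    rw [piE_eq] at h0
    have h1 : h ∈ bigr q N (T.PV q D₀ N p (delta P)) := by
      rw [eq_neg_of_add_eq_zero_left h0]
      exact neg_mem hrest
    have h2 : h.coeff e = w := by
      rw [hh, coeff_monomial, if_pos rfl]
    obtain ⟨j, g1, g2, g3, g4⟩ := h1 e (by rw [h2]; exact hw0)
    rw [h2, Datum.mem_PV] at g4
    have hj : j = 0 := by
      rw [e0, e1] at g2
      push_cast at g2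
      linarith
    subst hj
    have := (g4 hw0).2 P
    unfold delta at this
    rw [if_pos rfl, hw1] at this
    linarith

end Gam

end Pool.Agent.YTD
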