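import Pool.Agent.YTD.SatI3
import Pool.Agent.YTD.SatB3

namespace Pool.Agent.YTD

open Finset Module MvPolynomial Filter

variable {K : Type} [Field K] [Algebra ℂ K]
variable {T : Datum K} {q : ℕ} {D₀ : T.X.Pt →₀ ℤ} {r : ℕ}

/-- Levelwise approximation by filtrations of small volume. -/
theorem QFilt.exists_level' {γ : Gam T} {Λ : ℕ} (χ : QFilt γ q D₀ r) (hfix : γ.Fixes D₀)
    (hD : T.X.deg D₀ = 105 * T.t * q) (hq : 0 < q) (hr : 8 ≤ r)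
    (hΛ : ∀ N : ℕ, χ.F N (-(Λ * N)) = γ.secQ q D₀ (r * N) ∧ χ.F N (Λ * N + 1) = ⊥) (N : ℕ) :
    ∃ G : Filt T q D₀ r, (∀ l, G.F N l = (χ.sat hfix hD hq hr).F N l) ∧
      (∀ M : ℕ, G.F M (-(Λ * M)) = T.sec q D₀ (r * M) ∧ G.F M (Λ * M + 1) = ⊥) ∧
      ∃ c : ℕ, ∀ (M : ℕ) (l : ℤ),
        finrank ℂ (G.F M l) ≤ 8 * finrank ℂ (χ.F (M + c) (l - Λ * c)) := by
  obtain ⟨P₀⟩ := T.exists_pt
  exact χ.exists_level hfix hD hq hr hΛ (fun U _ => T.X.exists_satD_le P₀ U) N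

end Pool.Agent.YTD
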