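import Pool.Agent.YTD.SatJ

/-!
Finite generation of the invariants of an involution acting on a finitely generated filtration.
-/

namespace Pool.Agent.YTD

open Finset Module MvPolynomial Filter

variable {K : Type} [Field K] [Algebra ℂ K]

/-- A multiplicative decreasing family of subspaces which contains the generators contains the
spans of the products of the generators. -/
theorem gspan_le {k : ℕ} {n : Fin k → ℕ} {w : Fin k → ℤ} {f : Fin k → MvPolynomial (Fin 4) K}
    (R : ℕ → ℤ → Submodule ℂ (MvPolynomial (Fin 4) K)) (h1 : (1 : MvPolynomial (Fin 4) K) ∈ R 0 0)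
    (hanti : ∀ N l l', l ≤ l' → R N l' ≤ R N l)
    (hmul : ∀ N N' l l', ∀ x ∈ R N l, ∀ y ∈ R N' l', x * y ∈ R (N + N') (l + l'))
    (hf : ∀ i, f i ∈ R (n i) (w i)) (N : ℕ) (l : ℤ) : gspan n w f N l ≤ R N l := by
  classical
  unfold gspan
  rw [Submodule.span_le]
  rintro _ ⟨m, e1, e2, rfl⟩
  have hpow : ∀ i (c : ℕ), f i ^ c ∈ R (c * n i) (c * w i) := by
    intro i c
    induction c with
    | zero =>
      rw [pow_zero, zero_mul, Nat.cast_zero, zero_mul]
      exact h1
    | succ c ih =>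
      rw [pow_succ, Nat.succ_mul]
      have e : ((c + 1 : ℕ) : ℤ) * w i = c * w i + w i := by push_cast; ring
      rw [e]
      exact hmul _ _ _ _ _ ih _ (hf i)
  have hprod : ∀ s : Finset (Fin k), ∏ i ∈ s, f i ^ m i ∈ R (∑ i ∈ s, m i * n i)
      (∑ i ∈ s, (m i : ℤ) * w i) := by
    intro s
    induction s using Finset.induction_on with
    | empty =>
      rw [prod_empty, sum_empty, sum_empty]
      exact h1
    | insert a s ha ih =>
      rw [prod_insert ha, sum_insert ha, sum_insert ha]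
      exact hmul _ _ _ _ _ (hpow a (m a)) _ ih
  have h := hprod univ
  rw [e1] at h
  exact hanti _ _ _ e2 h

/-- Finite generation of the invariants of an involution. -/
theorem fg_inv (F F' : ℕ → ℤ → Submodule ℂ (MvPolynomial (Fin 4) K)) (E : Autom K)
    (hE : ∀ N l, ∀ x ∈ F N l, E x ∈ F N l) (hEE : ∀ N l, ∀ x ∈ F N l, E (E x) = x)
    (hF' : ∀ N l x, x ∈ F' N l ↔ x ∈ F N l ∧ E x = x)
    (hmul : ∀ N N' l l', ∀ x ∈ F N l, ∀ y ∈ F N' l', x * y ∈ F (N + N') (l + l'))
    (hfg : ∃ (k : ℕ) (n : Fin k → ℕ) (w : Fin k → ℤ) (f : Fin k → MvPolynomial (Fin 4) K),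
      (∀ i, f i ∈ F (n i) (w i)) ∧
      ∀ N l, F N l ≤ Submodule.span ℂ {g | ∃ m : Fin k → ℕ,
        ∑ i, m i * n i = N ∧ l ≤ ∑ i, m i * w i ∧ g = ∏ i, f i ^ m i}) :
    ∃ (k : ℕ) (n : Fin k → ℕ) (w : Fin k → ℤ) (f : Fin k → MvPolynomial (Fin 4) K),
      (∀ i, f i ∈ F' (n i) (w i)) ∧
      ∀ N l, F' N l ≤ Submodule.span ℂ {g | ∃ m : Fin k → ℕ,
        ∑ i, m i * n i = N ∧ l ≤ ∑ i, m i * w i ∧ g = ∏ i, f i ^ m i} := by
  classical
  obtain ⟨k, n, w, f, hf, hspan⟩ := hfg
  -- the even and odd parts of the generators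
  let a : Fin k → MvPolynomial (Fin 4) K := fun i => (1 / 2 : ℂ) • (f i + E (f i))
  let b : Fin k → MvPolynomial (Fin 4) K := fun i => (1 / 2 : ℂ) • (f i - E (f i))
  have hab : ∀ i, f i = a i + b i := by
    intro i
    show f i = (1 / 2 : ℂ) • (f i + E (f i)) + (1 / 2 : ℂ) • (f i - E (f i))
    rw [← smul_add, add_add_sub_cancel, ← two_smul ℂ (f i), smul_smul]
    norm_num
  have haF : ∀ i, a i ∈ F (n i) (w i) := fun i =>
    Submodule.smul_mem _ _ (add_mem (hf i) (hE _ _ _ (hf i)))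
  have hbF : ∀ i, b i ∈ F (n i) (w i) := fun i =>
    Submodule.smul_mem _ _ (sub_mem (hf i) (hE _ _ _ (hf i)))
  have haE : ∀ i, E (a i) = a i := by
    intro i
    show E ((1 / 2 : ℂ) • (f i + E (f i))) = (1 / 2 : ℂ) • (f i + E (f i))
    rw [map_smul, map_add, hEE _ _ _ (hf i), add_comm]
  have hbE : ∀ i, E (b i) = -b i := by
    intro i
    show E ((1 / 2 : ℂ) • (f i - E (f i))) = -((1 / 2 : ℂ) • (f i - E (f i)))
    rw [map_smul, map_sub, hEE _ _ _ (hf i), ← smul_neg, neg_sub]
  let I : Type := Fin k ⊕ (Fin k × Fin k)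
  let φ : Fin (Fintype.card I) ≃ I := (Fintype.equivFin I).symm
  let nI : I → ℕ := Sum.elim (fun i => n i) (fun p => n p.1 + n p.2)
  let wI : I → ℤ := Sum.elim (fun i => w i) (fun p => w p.1 + w p.2)
  let fI : I → MvPolynomial (Fin 4) K := Sum.elim (fun i => a i) (fun p => b p.1 * b p.2)
  have hfI : ∀ x, fI x ∈ F' (nI x) (wI x) := by
    intro x
    rw [hF']
    rcases x with i | p
    · exact ⟨haF i, haE i⟩
    · refine ⟨hmul _ _ _ _ _ (hbF p.1) _ (hbF p.2), ?_⟩
      show E (b p.1 * b p.2) = b p.1 * b p.2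
      rw [map_mul, hbE, hbE, neg_mul_neg]
  refine ⟨Fintype.card I, fun x => nI (φ x), fun x => wI (φ x), fun x => fI (φ x),
    fun x => hfI (φ x), ?_⟩
  set G : ℕ → ℤ → Submodule ℂ (MvPolynomial (Fin 4) K) :=
    gspan (fun x => nI (φ x)) (fun x => wI (φ x)) (fun x => fI (φ x)) with hG
  have hgen : ∀ x : I, fI x ∈ G (nI x) (wI x) := by
    intro x
    have h := gen_mem_gspan (n := fun a => nI (φ a)) (w := fun a => wI (φ a))
      (f := fun a => fI (φ a)) (φ.symm x)
    have hx : φ (φ.symm x) = x := φ.apply_symm_apply x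
    simp only [hx] at h
    exact h
  have hGE : ∀ N l, ∀ x ∈ G N l, E x = x := by
    intro N l x hx
    rw [hG] at hx
    unfold gspan at hx
    induction hx using Submodule.span_induction with
    | mem x h =>
      obtain ⟨m, _, _, rfl⟩ := h
      rw [map_prod]
      refine prod_congr rfl fun i _ => ?_
      rw [map_pow, ((hF' _ _ _).1 (hfI (φ i))).2]
    | zero => rw [map_zero]
    | add x y _ _ hx hy => rw [map_add, hx, hy]
    | smul c x _ hx => rw [map_smul, hx]
  let H : ℕ → ℤ → Submodule ℂ (MvPolynomial (Fin 4) K) := fun N l =>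
    Submodule.span ℂ {y | ∃ (i : Fin k) (N' : ℕ) (l' : ℤ), N = N' + n i ∧ l ≤ l' + w i ∧
      ∃ g ∈ G N' l', y = b i * g}
  have hHE : ∀ N l, ∀ x ∈ H N l, E x = -x := by
    intro N l x hx
    induction hx using Submodule.span_induction with
    | mem x h =>
      obtain ⟨i, N', l', _, _, g, hg, rfl⟩ := h
      rw [map_mul, hbE, hGE _ _ _ hg, neg_mul]
    | zero => rw [map_zero, neg_zero]
    | add x y _ _ hx hy => rw [map_add, hx, hy, neg_add]
    | smul c x _ hx => rw [map_smul, hx, smul_neg]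
  have hGanti : ∀ N l l', l ≤ l' → G N l' ≤ G N l := fun N l l' h => gspan_anti h
  have hHanti : ∀ N l l', l ≤ l' → H N l' ≤ H N l := by
    intro N l l' h
    apply Submodule.span_mono
    rintro _ ⟨i, N', l'', e1, e2, g, hg, rfl⟩
    exact ⟨i, N', l'', e1, h.trans e2, g, hg, rfl⟩
  have hGG : ∀ N N' l l', G N l * G N' l' ≤ G (N + N') (l + l') := by
    intro N N' l l'
    rw [Submodule.mul_le]
    intro x hx y hy
    exact gspan_mul hx hy
  have hHG : ∀ N N' l l', H N l * G N' l' ≤ H (N + N') (l + l') := by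
    intro N N' l l'
    rw [Submodule.mul_le]
    intro x hx y hy
    induction hx using Submodule.span_induction with
    | mem x h =>
      obtain ⟨i, M, l'', e1, e2, g, hg, rfl⟩ := h
      apply Submodule.subset_span
      refine ⟨i, M + N', l'' + l', by omega, by omega, g * y, gspan_mul hg hy, ?_⟩
      rw [mul_assoc]
    | zero => rw [zero_mul]; exact zero_mem _
    | add x x' _ _ hx hx' => rw [add_mul]; exact add_mem hx hx'
    | smul c x _ hx => rw [smul_mul_assoc]; exact Submodule.smul_mem _ _ hx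
  have hHH : ∀ N N' l l', H N l * H N' l' ≤ G (N + N') (l + l') := by
    intro N N' l l'
    show Submodule.span ℂ _ * Submodule.span ℂ _ ≤ _
    rw [Submodule.span_mul_span, Submodule.span_le]
    rintro _ ⟨_, ⟨i, M, u, e1, e2, g, hg, rfl⟩, _, ⟨i', M', u', e1', e2', g', hg', rfl⟩, rfl⟩
    have e : b i * g * (b i' * g') = fI (Sum.inr (i, i')) * (g * g') := by
      show b i * g * (b i' * g') = (b i * b i') * (g * g')
      ring
    have h1 : fI (Sum.inr (i, i')) * (g * g') ∈
        G (nI (Sum.inr (i, i')) + (M + M')) (wI (Sum.inr (i, i')) + (u + u')) :=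
      gspan_mul (hgen _) (gspan_mul hg hg')
    show b i * g * (b i' * g') ∈ G (N + N') (l + l')
    rw [e]
    have e3 : nI (Sum.inr (i, i')) + (M + M') = N + N' := by
      show n i + n i' + (M + M') = N + N'
      omega
    rw [e3] at h1
    refine hGanti _ _ _ ?_ h1
    show l + l' ≤ w i + w i' + (u + u')
    omega
  -- every element is the sum of an even and of an odd element
  have hR := gspan_le (n := n) (w := w) (f := f) (fun N l => G N l ⊔ H N l)
    (Submodule.mem_sup_left one_mem_gspan)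
    (fun N l l' h => sup_le_sup (hGanti N l l' h) (hHanti N l l' h))
    (by
      intro N N' l l' x hx y hy
      obtain ⟨x₁, hx₁, x₂, hx₂, rfl⟩ := Submodule.mem_sup.1 hx
      obtain ⟨y₁, hy₁, y₂, hy₂, rfl⟩ := Submodule.mem_sup.1 hy
      have e : (x₁ + x₂) * (y₁ + y₂) = (x₁ * y₁ + x₂ * y₂) + (x₂ * y₁ + y₂ * x₁) := by ring
      rw [e]
      apply Submodule.add_mem_sup
      · exact add_mem (hGG _ _ _ _ (Submodule.mul_mem_mul hx₁ hy₁))
          (hHH _ _ _ _ (Submodule.mul_mem_mul hx₂ hy₂))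
      · refine add_mem (hHG _ _ _ _ (Submodule.mul_mem_mul hx₂ hy₁)) ?_
        have := hHG _ _ _ _ (Submodule.mul_mem_mul hy₂ hx₁)
        rwa [add_comm N' N, add_comm l' l] at this)
    (by
      intro i
      show f i ∈ G (n i) (w i) ⊔ H (n i) (w i)
      rw [hab i]
      apply Submodule.add_mem_sup
      · exact hgen (Sum.inl i)
      · apply Submodule.subset_span
        exact ⟨i, 0, 0, by omega, by omega, 1, one_mem_gspan, by rw [mul_one]⟩)
  intro N l x hx
  obtain ⟨hxF, hxE⟩ := (hF' _ _ _).1 hx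
  have h1 : x ∈ gspan n w f N l := hspan N l hxF
  obtain ⟨g, hg, h, hh, rfl⟩ := Submodule.mem_sup.1 (hR N l h1)
  have h2 : h = 0 := by
    have h3 : g + -h = g + h := by
      rw [map_add, hGE _ _ _ hg, hHE _ _ _ hh] at hxE
      exact hxE
    have h4 : -h = h := add_left_cancel h3
    have h5 : (2 : ℂ) • h = 0 := by
      rw [two_smul]
      nth_rewrite 1 [← h4]
      rw [neg_add_cancel]
    rcases smul_eq_zero.1 h5 with h6 | h6
    · norm_num at h6
    · exact h6
  rw [h2, add_zero]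
  exact hg

end Pool.Agent.YTD
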