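import Pool.Agent.YTD.SatK1
import Pool.Agent.YTD.GamRel

/-!
The test configuration of the quotient given by a `Γ`-invariant test configuration.
-/

namespace Pool.Agent.YTD

open Finset Module MvPolynomial Filter

variable {K : Type} [Field K] [Algebra ℂ K]
variable {T : Datum K} {q : ℕ} {D₀ : T.X.Pt →₀ ℤ} {r : ℕ}

/-- The test configuration of the quotient: the invariants of a `Γ`-invariant test
configuration. -/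
noncomputable def TestConf.quot (χ : TestConf T q D₀ r) {γ : Gam T} (h : χ.GamInv γ) :
    QTestConf γ q D₀ r where
  F := fun N l => χ.F N l ⊓ γ.secQ q D₀ (r * N)
  le := fun _ _ => inf_le_right
  anti := fun N l l' hl => inf_le_inf_right _ (χ.anti N l l' hl)
  mul := by
    rintro N N' l l' f ⟨hf, hf'⟩ g ⟨hg, hg'⟩
    have h1 := χ.mul N N' l l' f hf g hg
    refine ⟨h1, χ.le _ _ h1, ?_, ?_, ?_⟩
    · rw [map_mul, hf'.2.1, hg'.2.1]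
    · rw [map_mul, hf'.2.2.1, hg'.2.2.1]
    · rw [map_mul, hf'.2.2.2, hg'.2.2.2]
  bound := by
    obtain ⟨Λ, hΛ⟩ := χ.bound
    refine ⟨Λ, fun N => ⟨?_, ?_⟩⟩
    · show χ.F N (-(Λ * N)) ⊓ γ.secQ q D₀ (r * N) = γ.secQ q D₀ (r * N)
      rw [(hΛ N).1]
      exact inf_eq_right.2 (γ.secQ_le q D₀ (r * N))
    · show χ.F N (Λ * N + 1) ⊓ γ.secQ q D₀ (r * N) = ⊥
      rw [(hΛ N).2, bot_inf_eq]
  fg := by
    let F₁ : ℕ → ℤ → Submodule ℂ (MvPolynomial (Fin 4) K) := fun N l =>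
      χ.F N l ⊓ LinearMap.eqLocus (γ.E₁.toLinearMap) LinearMap.id
    let F₂ : ℕ → ℤ → Submodule ℂ (MvPolynomial (Fin 4) K) := fun N l =>
      F₁ N l ⊓ LinearMap.eqLocus (γ.E₂.toLinearMap) LinearMap.id
    have m₁ : ∀ N l x, x ∈ F₁ N l ↔ x ∈ χ.F N l ∧ γ.E₁ x = x := fun N l x => Iff.rfl
    have m₂ : ∀ N l x, x ∈ F₂ N l ↔ x ∈ F₁ N l ∧ γ.E₂ x = x := fun N l x => Iff.rfl
    have m₃ : ∀ N l x, x ∈ χ.F N l ⊓ γ.secQ q D₀ (r * N) ↔ x ∈ F₂ N l ∧ γ.tauE x = x := by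
      intro N l x
      rw [m₂, m₁, Submodule.mem_inf, Gam.mem_secQ]
      constructor
      · rintro ⟨h1, _, h2, h3, h4⟩
        exact ⟨⟨⟨h1, h2⟩, h3⟩, h4⟩
      · rintro ⟨⟨⟨h1, h2⟩, h3⟩, h4⟩
        exact ⟨h1, χ.le _ _ h1, h2, h3, h4⟩
    have f₁ := fg_inv χ.F F₁ γ.E₁ h.E₁ (fun _ _ x _ => γ.E₁_E₁ x) m₁ χ.mul χ.fg
    have f₂ := fg_inv F₁ F₂ γ.E₂ (fun N l x hx => (m₁ _ _ _).2 ⟨h.E₂ _ _ _ ((m₁ _ _ _).1 hx).1, by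
        rw [γ.E₁_E₂' (evenDeg_of_sec (χ.le _ _ ((m₁ _ _ _).1 hx).1)), ((m₁ _ _ _).1 hx).2]⟩)
      (fun _ _ x _ => γ.E₂_E₂ x) m₂ (fun N N' l l' x hx y hy =>
        (m₁ _ _ _).2 ⟨χ.mul _ _ _ _ _ ((m₁ _ _ _).1 hx).1 _ ((m₁ _ _ _).1 hy).1, by
          rw [map_mul, ((m₁ _ _ _).1 hx).2, ((m₁ _ _ _).1 hy).2]⟩) f₁
    exact fg_inv F₂ _ γ.tauE (fun N l x hx => by
        obtain ⟨h1, h2⟩ := (m₂ _ _ _).1 hx
        obtain ⟨h3, h4⟩ := (m₁ _ _ _).1 h1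
        exact (m₂ _ _ _).2 ⟨(m₁ _ _ _).2 ⟨h.tau _ _ _ h3, by rw [γ.E₁_tauE, h4]⟩, by
          rw [γ.E₂_tauE, h2]⟩)
      (fun _ _ x _ => γ.toInv.tauE_tauE x) m₃ (fun N N' l l' x hx y hy => by
        obtain ⟨h1, h2⟩ := (m₂ _ _ _).1 hx
        obtain ⟨h3, h4⟩ := (m₁ _ _ _).1 h1
        obtain ⟨h1', h2'⟩ := (m₂ _ _ _).1 hy
        obtain ⟨h3', h4'⟩ := (m₁ _ _ _).1 h1'
        exact (m₂ _ _ _).2 ⟨(m₁ _ _ _).2 ⟨χ.mul _ _ _ _ _ h3 _ h3', by rw [map_mul, h4, h4']⟩, by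
          rw [map_mul, h2, h2']⟩) f₂

theorem TestConf.quot_F (χ : TestConf T q D₀ r) {γ : Gam T} (h : χ.GamInv γ) (N : ℕ) (l : ℤ) :
    (χ.quot h).F N l = χ.F N l ⊓ γ.secQ q D₀ (r * N) := rfl

end Pool.Agent.YTD
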