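import Pool.Agent.YTD.SatC
import Pool.Agent.YTD.SatF3
import Pool.Agent.YTD.SatK2

/-!
The dimension of the invariant part of the sections supported on a symmetric set of indices.
-/

namespace Pool.Agent.YTD

open Finset Module MvPolynomial Filter

variable {K : Type} [Field K] [Algebra ℂ K]
variable {T : Datum K} {q : ℕ} {D₀ : T.X.Pt →₀ ℤ} {r : ℕ}

theorem Datum.finite_secP (T : Datum K) (q : ℕ) (D₀ : T.X.Pt →₀ ℤ) (N : ℕ) (p : ℤ → Prop) :
    FiniteDimensional ℂ (T.secP q D₀ N p) := by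
  classical
  unfold Datum.secP
  apply finite_bigr
  intro j
  by_cases h : p j
  · rw [if_pos h]
    exact T.finite_V q D₀ N j
  · rw [if_neg h]
    infer_instance

theorem Gam.bd_secP (γ : Gam T) (hfix : γ.Fixes D₀) {N : ℕ} (p : ℤ → Prop)
    (hp : ∀ j, p j → p (-j))
    (hdeg : ∀ j, p j → |j| ≤ 5 * q * N → 2 * (T.X.genus : ℤ) + 7 ≤ T.X.deg (T.dvs q D₀ N j)) :
    T.X.Bd (T.secP q D₀ N p ⊓ γ.secQ q D₀ N) 0 := by
  classical
  obtain ⟨P₀⟩ := T.exists_pt
  have hfin := T.finite_secP q D₀ N p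
  set U : Submodule ℂ (MvPolynomial (Fin 4) K) := T.secP q D₀ N p ⊓ γ.secQ q D₀ N with hU
  have hfinU : FiniteDimensional ℂ U := Submodule.finiteDimensional_of_le inf_le_left
  set s : Finset ((_ : ℤ) × (ℕ × ℕ)) := (idx q N).filter fun i => p i.1 with hs
  let e : Fin s.card ≃ s := s.equivFin.symm
  let v : Fin s.card → MvPolynomial (Fin 4) K := fun a => monomial (uexpo q N (e a).1) 1
  have hmem : ∀ a, (e a).1 ∈ idx q N ∧ p (e a).1.1 := fun a => mem_filter.1 (e a).2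
  have hv : LinearIndependent K v := by
    have h1 := (MvPolynomial.basisMonomials (Fin 4) K).linearIndependent
    have h2 : Function.Injective fun a : Fin s.card => uexpo q N (e a).1 := by
      intro a a' h
      exact e.injective (Subtype.ext (expo_inj (hmem a).1 (hmem a').1 h))
    have h3 := h1.comp _ h2
    have h4 : v = (⇑(MvPolynomial.basisMonomials (Fin 4) K)) ∘
        (fun a : Fin s.card => uexpo q N (e a).1) := by
      funext a
      show _ = MvPolynomial.basisMonomials (Fin 4) K (uexpo q N (e a).1)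
      rw [MvPolynomial.coe_basisMonomials]
    rw [h4]
    exact h3
  have hk : CurveOrd.kdim K U ≤ s.card := by
    unfold CurveOrd.kdim
    have hle : Submodule.span K (U : Set (MvPolynomial (Fin 4) K)) ≤
        Submodule.span K (Set.range v) := by
      rw [Submodule.span_le]
      intro f hf
      have hf1 : f ∈ T.secP q D₀ N p := hf.1
      rw [T.secP_eq] at hf1
      rw [SetLike.mem_coe, f.as_sum]
      refine sum_mem fun x hx => ?_
      have hx0 := MvPolynomial.mem_support_iff.1 hx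
      obtain ⟨j, h1, h2, h3, h4⟩ := hf1 x hx0
      rw [Datum.mem_PV] at h4
      obtain ⟨h5, h6⟩ := exists_uexpo h1 h2 h3
      have h7 : (⟨j, (x 0, x 2)⟩ : (_ : ℤ) × (ℕ × ℕ)) ∈ s := by
        rw [hs, mem_filter]
        exact ⟨h5, (h4 hx0).1⟩
      have h8 : monomial x (f.coeff x) = (f.coeff x) • v (e.symm ⟨_, h7⟩) := by
        show _ = (f.coeff x) • monomial (uexpo q N (e (e.symm ⟨_, h7⟩)).1) 1
        rw [Equiv.apply_symm_apply]
        show _ = (f.coeff x) • monomial (uexpo q N ⟨j, (x 0, x 2)⟩) 1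
        rw [h6, smul_monomial, smul_eq_mul, mul_one]
      rw [h8]
      exact Submodule.smul_mem _ _ (Submodule.subset_span ⟨_, rfl⟩)
    have h9 : Module.Finite K (Submodule.span K (Set.range v)) :=
      Module.Finite.span_of_finite K (Set.finite_range v)
    refine (Submodule.finrank_mono hle).trans ?_
    refine (finrank_range_le_card v).trans ?_
    rw [Fintype.card_fin]
  have h := T.X.bd_of_family P₀ U v hv (fun a => T.dvs q D₀ N (e a).1.1) (by
    intro a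
    have h1 := hdeg _ (hmem a).2 (mem_idx.1 (hmem a).1).1
    linarith) (by
    intro a P z hz hzP
    obtain ⟨w, hw, hw0, hw1⟩ := T.X.exists_ord_eq P (D := T.dvs q D₀ N (e a).1.1)
      (by have h1 := hdeg _ (hmem a).2 (mem_idx.1 (hmem a).1).1
          linarith) P
    have e1 : z • v a = (z * w⁻¹) • (w • v a) := by
      rw [smul_smul, mul_assoc, inv_mul_cancel₀ hw0, mul_one]
    rw [e1]
    apply T.X.smul_mem_loc
    · intro _
      rw [T.X.ord_mul P _ _ hz (inv_ne_zero hw0), T.X.ord_inv P hw0, hw1]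
      linarith
    · rw [hU, γ.loc_secP_eq hfix p hp hdeg]
      apply T.X.mem_loc
      show w • monomial (uexpo q N (e a).1) 1 ∈ _
      rw [smul_monomial, smul_eq_mul, mul_one]
      unfold Datum.secP
      refine monomial_mem_bigr (mem_idx.1 (hmem a).1).1 (expo_x (hmem a).1)
        (expo_y (hmem a).1) ?_
      rw [if_pos (hmem a).2]
      exact hw)
  rw [Nat.sub_eq_zero_of_le hk, mul_zero] at h
  exact h

/-- One eighth of the sections supported on a symmetric set of indices is invariant. -/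
theorem Gam.finrank_secP_inf (γ : Gam T) (hfix : γ.Fixes D₀) {N : ℕ} (p : ℤ → Prop)
    (hp : ∀ j, p j → p (-j))
    (hdeg : ∀ j, p j → |j| ≤ 5 * q * N → 2 * (T.X.genus : ℤ) + 7 ≤ T.X.deg (T.dvs q D₀ N j)) :
    8 * finrank ℂ (T.secP q D₀ N p ⊓ γ.secQ q D₀ N : Submodule ℂ (MvPolynomial (Fin 4) K)) =
      finrank ℂ (T.secP q D₀ N p) := by
  have h := γ.finrank_satD' (T.secP q D₀ N p ⊓ γ.secQ q D₀ N) inf_le_right
    (γ.bd_secP hfix p hp hdeg)
  rw [γ.satD_secP hfix p hp hdeg] at h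
  omega

/-- the degree bound for large `N` -/
theorem deg_bound_large (hD : 100 * (T.t : ℤ) * q < T.X.deg D₀) {N : ℕ}
    (hN : 18 * T.t + 9 ≤ N) (j : ℤ) (hj : |j| ≤ 5 * q * N) :
    2 * (T.X.genus : ℤ) + 7 ≤ T.X.deg (T.dvs q D₀ N j) := by
  rw [deg_dvs, T.genus_eq]
  have h3 : max 0 (j - 4 * (q : ℤ) * N) + max 0 (-j - 4 * (q : ℤ) * N) ≤ q * N := by
    have h0 : (0 : ℤ) ≤ q * N := by positivity
    have e : 5 * (q : ℤ) * N = 5 * (q * N) := by ring
    have e' : 4 * (q : ℤ) * N = 4 * (q * N) := by ring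
    rw [e] at hj
    rw [e']
    generalize (q : ℤ) * N = a at *
    rw [abs_le] at hj
    omega
  have h4 : (0 : ℤ) ≤ 100 * T.t := by positivity
  have h5 := mul_le_mul_of_nonneg_left h3 h4
  have h6 : (1 : ℤ) ≤ T.X.deg D₀ - 100 * T.t * q := by linarith
  have h7 : (18 * (T.t : ℤ) + 9) ≤ N := by exact_mod_cast hN
  have h8 : (N : ℤ) ≤ (T.X.deg D₀ - 100 * T.t * q) * N := by
    have : (0 : ℤ) ≤ N := by positivity
    nlinarith
  push_cast
  nlinarith

/-- The dimension of the sections of the quotient. -/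
theorem Gam.finrank_secQ (γ : Gam T) (hfix : γ.Fixes D₀) {N : ℕ}
    (hdeg : ∀ j : ℤ, |j| ≤ 5 * q * N → 2 * (T.X.genus : ℤ) + 7 ≤ T.X.deg (T.dvs q D₀ N j)) :
    8 * finrank ℂ (γ.secQ q D₀ N) = finrank ℂ (T.sec q D₀ N) := by
  have h := γ.finrank_secP_inf hfix (N := N) (fun _ => True) (fun _ _ => trivial)
    (fun j _ hj => hdeg j hj)
  rwa [T.secP_true, inf_eq_right.2 (γ.secQ_le q D₀ N)] at h

/-! ### The filtrations `filtU` -/

theorem filtU_F_eq_secP (T : Datum K) (q u : ℕ) (D₀ : T.X.Pt →₀ ℤ) (N : ℕ) (l : ℤ) :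
    (filtU T q u D₀).F N l = T.secP q D₀ N (fun j => l ≤ min 0 ((u : ℤ) * N - |j|)) := by
  rw [filtU_F]
  unfold Datum.secP
  congr 1
  funext j
  by_cases h : l ≤ min 0 ((u : ℤ) * N - |j|)
  · rw [UF_pos T h, if_pos h]
  · rw [UF_neg T h, if_neg h]

/-- The test configurations of the quotients. -/
noncomputable def testQ (γ : Gam T) (hfix : γ.Fixes D₀) (hD : 100 * (T.t : ℤ) * q < T.X.deg D₀)
    {u : ℕ} (hu : u ≤ 4 * q) : QTestConf γ q D₀ 1 :=
  (testU T hD hu).quot (filtU_gamInv γ hfix u)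

theorem testQ_F (γ : Gam T) (hfix : γ.Fixes D₀) (hD : 100 * (T.t : ℤ) * q < T.X.deg D₀)
    {u : ℕ} (hu : u ≤ 4 * q) (N : ℕ) (l : ℤ) :
    (testQ γ hfix hD hu).F N l =
      T.secP q D₀ N (fun j => l ≤ min 0 ((u : ℤ) * N - |j|)) ⊓ γ.secQ q D₀ N := by
  show (filtU T q u D₀).F N l ⊓ γ.secQ q D₀ (1 * N) = _
  rw [filtU_F_eq_secP, one_mul]

theorem finrank_testQ (γ : Gam T) (hfix : γ.Fixes D₀) (hD : 100 * (T.t : ℤ) * q < T.X.deg D₀)
    {u : ℕ} (hu : u ≤ 4 * q) {N : ℕ} (hN : 18 * T.t + 9 ≤ N) (l : ℤ) :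
    (finrank ℂ ((testQ γ hfix hD hu).F N l) : ℝ) =
      (finrank ℂ ((filtU T q u D₀).F N l) : ℝ) / 8 := by
  rw [testQ_F, filtU_F_eq_secP, ← γ.finrank_secP_inf hfix _ (fun j hj => by rwa [abs_neg])
    (fun j _ hj => deg_bound_large hD hN j hj)]
  push_cast
  ring

theorem wt_testQ (γ : Gam T) (hfix : γ.Fixes D₀) (hD : 100 * (T.t : ℤ) * q < T.X.deg D₀)
    {u : ℕ} (hu : u ≤ 4 * q) {N : ℕ} (hN : 18 * T.t + 9 ≤ N) (l : ℤ) :
    (testQ γ hfix hD hu).wt N l = (filtU T q u D₀).wt N l / 8 := by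
  unfold QFilt.wt Filt.wt
  rw [finrank_testQ γ hfix hD hu hN, finrank_testQ γ hfix hD hu hN]
  ring

theorem tr_testQ (γ : Gam T) (hfix : γ.Fixes D₀) (hD : 100 * (T.t : ℤ) * q < T.X.deg D₀)
    {u : ℕ} (hu : u ≤ 4 * q) {N : ℕ} (hN : 18 * T.t + 9 ≤ N) (p : ℕ) :
    (testQ γ hfix hD hu).tr p N = (filtU T q u D₀).tr p N / 8 := by
  unfold QFilt.tr Filt.tr
  rw [div_eq_inv_mul, ← smul_eq_mul, smul_finsum]
  refine finsum_congr fun l => ?_
  rw [wt_testQ γ hfix hD hu hN, smul_eq_mul]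
  ring

theorem dimN_testQ (γ : Gam T) (hfix : γ.Fixes D₀) (hD : 100 * (T.t : ℤ) * q < T.X.deg D₀)
    {u : ℕ} (hu : u ≤ 4 * q) {N : ℕ} (hN : 18 * T.t + 9 ≤ N) :
    (testQ γ hfix hD hu).dimN N = (filtU T q u D₀).dimN N / 8 := by
  unfold QFilt.dimN Filt.dimN
  rw [one_mul, ← γ.finrank_secQ hfix (fun j hj => deg_bound_large hD hN j hj)]
  push_cast
  ring

/-- The asymptotic expansions of `testQ`. -/
theorem expansion_testQ (γ : Gam T) (hfix : γ.Fixes D₀) (hD : 100 * (T.t : ℤ) * q < T.X.deg D₀)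
    {u : ℕ} (hu : u ≤ 4 * q) :
    (testQ γ hfix hD hu).Expansion (ca0 q T.t (T.X.deg D₀ : ℤ) / 8)
      (ca1 q T.t (T.X.deg D₀ : ℤ) / 8) (cb0 q u T.t (T.X.deg D₀ : ℤ) / 8)
      (cb1 q u T.t (T.X.deg D₀ : ℤ) / 8) (cc0 q u T.t (T.X.deg D₀ : ℤ) / 8) := by
  obtain ⟨⟨C₁, h₁⟩, ⟨C₂, h₂⟩, ⟨C₃, h₃⟩⟩ := expansion_filtU T hD hu
  have key : ∀ {a b c : ℝ}, |a - b| ≤ c → |a / 8 - b / 8| ≤ c / 8 := by
    intro a b c h
    rw [← sub_div, abs_div, abs_of_pos (by norm_num : (0 : ℝ) < 8)]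
    linarith
  refine ⟨⟨C₁ / 8, ?_⟩, ⟨C₂ / 8, ?_⟩, ⟨C₃ / 8, ?_⟩⟩
  · filter_upwards [h₁, eventually_ge_atTop (18 * T.t + 9)] with N hN hN'
    rw [dimN_testQ γ hfix hD hu hN']
    have := key hN
    convert this using 1 <;> [congr 1; skip] <;> ring
  · filter_upwards [h₂, eventually_ge_atTop (18 * T.t + 9)] with N hN hN'
    rw [tr_testQ γ hfix hD hu hN']
    have := key hN
    convert this using 1 <;> [congr 1; skip] <;> ring
  · filter_upwards [h₃, eventually_ge_atTop (18 * T.t + 9)] with N hN hN'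
    rw [tr_testQ γ hfix hD hu hN']
    have := key hN
    convert this using 1 <;> [congr 1; skip] <;> ring

/-- (K): instability of the quotient near the critical slope. -/
theorem unstable_quot (γ : Gam T) {q : ℕ} (hq : 0 < q) (D₀ : T.X.Pt →₀ ℤ) (hγ : γ.Fixes D₀)
    (hD : T.X.deg D₀ = T.t * (105 * q - 1)) :
    ∃ χ : QTestConf γ q D₀ 1, ∃ Fut : ℝ, χ.HasFutaki Fut ∧ Fut < 0 := by
  obtain ⟨u, h1, h2, _, h4⟩ := exists_u q
  have ht := T.t_pos
  have hD' : 100 * (T.t : ℤ) * q < T.X.deg D₀ := by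
    rw [hD]
    have h5 : (1 : ℤ) ≤ q := by exact_mod_cast hq
    have h6 : (1 : ℤ) ≤ T.t := by exact_mod_cast ht
    nlinarith
  have e : ((T.X.deg D₀ : ℤ) : ℝ) = T.t * (105 * q - 1) := by
    rw [hD]
    push_cast
    ring
  refine ⟨testQ γ hγ hD' h4, _, ⟨_, _, _, _, _, expansion_testQ γ hγ hD' h4, rfl⟩, ?_⟩
  have h5 := fut_neg hq ht h1 h2
  rw [e]
  refine lt_of_eq_of_lt ?_ h5
  rw [div_pow]
  generalize ca0 q T.t (T.t * (105 * q - 1)) = x0
  generalize ca1 q T.t (T.t * (105 * q - 1)) = x1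
  generalize cb0 q u T.t (T.t * (105 * q - 1)) = y0
  generalize cb1 q u T.t (T.t * (105 * q - 1)) = y1
  rcases eq_or_ne x0 0 with rfl | h0
  · simp
  · field_simp

end Pool.Agent.YTD
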