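import Pool.Agent.YTD.Gam

/-!
The critical polarizations are not uniformly K-stable.
-/

namespace Pool.Agent.YTD

open Finset Module MvPolynomial Filter

variable {K : Type} [Field K] [Algebra ℂ K]
variable {T : Datum K} {q : ℕ} {D₀ : T.X.Pt →₀ ℤ} {r : ℕ}

/-- The maximal weight of the filtration, divided by the degree:
`m` is the supremum of `l / N` over all `N ≥ 1` and `l` with `F N l ≠ 0`. -/
def Filt.HasMaxWeight (χ : Filt T q D₀ r) (m : ℝ) : Prop :=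
  IsLUB {x : ℝ | ∃ (N : ℕ) (l : ℤ), 0 < N ∧ χ.F N l ≠ ⊥ ∧ x = l / N} m

/-- `J` is the value of the non-archimedean `J`-functional at `χ`, the difference of the maximal
and the average (normalized) weight. -/
def Filt.HasJ (χ : Filt T q D₀ r) (J : ℝ) : Prop :=
  ∃ m a₀ a₁ b₀ b₁ c₀ : ℝ, χ.HasMaxWeight m ∧ χ.Expansion a₀ a₁ b₀ b₁ c₀ ∧ J = (m - b₀ / a₀) / r

/-- Regard a filtration of exponent one for `L^r` as a filtration of exponent `r` for `L`. -/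
noncomputable def Filt.desc (χ : Filt T (r * q) (r • D₀) 1) : Filt T q D₀ r where
  F := χ.F
  le N l := by
    have h := χ.le N l
    rw [T.sec_mul, one_mul] at h
    exact h
  anti := χ.anti
  mul := χ.mul
  bound := by
    obtain ⟨Λ, hΛ⟩ := χ.bound
    refine ⟨Λ, fun N => ?_⟩
    have h := hΛ N
    rw [T.sec_mul, one_mul] at h
    exact h

theorem Filt.desc_F (χ : Filt T (r * q) (r • D₀) 1) : χ.desc.F = χ.F := rfl

theorem Filt.desc_expansion {χ : Filt T (r * q) (r • D₀) 1} {a₀ a₁ b₀ b₁ c₀ : ℝ}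
    (h : χ.Expansion a₀ a₁ b₀ b₁ c₀) : χ.desc.Expansion a₀ a₁ b₀ b₁ c₀ := by
  have e1 : χ.desc.dimN = χ.dimN := by
    funext N
    unfold Filt.dimN
    rw [T.sec_mul, one_mul]
  have e2 : χ.desc.tr = χ.tr := rfl
  unfold Filt.Expansion at h ⊢
  rw [e1, e2]
  exact h

/-- Regard a test configuration of exponent one for `L^r` as one of exponent `r` for `L`. -/
noncomputable def TestConf.desc (χ : TestConf T (r * q) (r • D₀) 1) : TestConf T q D₀ r where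
  toFilt := χ.toFilt.desc
  fg := χ.fg

/-! ### The numbers at the critical slope -/

theorem ca0_crit (q t : ℕ) : ca0 q t (105 * t * q) = 534650 * t * q ^ 4 := by
  unfold ca0
  ring

theorem ca1_crit (q t : ℕ) : ca1 q t (105 * t * q) = 0 := by
  unfold ca1
  ring

theorem cb1_crit (q u t : ℕ) :
    cb1 q u t (105 * t * q) = -(t * (125 * (q : ℝ) ^ 2 - 9 * u ^ 2) ^ 2 / 6) := by
  unfold cb1
  ring

theorem cb0_crit (q u t : ℕ) :
    cb0 q u t (105 * t * q) = -(t * (6874835 / 6 * (q : ℝ) ^ 5 - 534650 * q ^ 4 * u +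
      65625 * q ^ 3 * u ^ 2 - 315 / 2 * q * u ^ 4)) := by
  unfold cb0
  ring

theorem cc0_crit (q u t : ℕ) :
    cc0 q u t (105 * t * q) = t * (10068530 / 3 * (q : ℝ) ^ 6 - 6874835 / 3 * q ^ 5 * u +
      534650 * q ^ 4 * u ^ 2 - 43750 * q ^ 3 * u ^ 3 + 63 * q * u ^ 5) := by
  unfold cc0
  ring

/-- the average weight -/
noncomputable def fx (x : ℝ) : ℝ := 6874835 / 6 - 534650 * x + 65625 * x ^ 2 - 315 / 2 * x ^ 4

/-- the second moment of the weights -/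
noncomputable def cx (x : ℝ) : ℝ :=
  10068530 / 3 - 6874835 / 3 * x + 534650 * x ^ 2 - 43750 * x ^ 3 + 63 * x ^ 5

theorem fx_bounds {x : ℝ} (h1 : 3.7 ≤ x) (h2 : x ≤ 3.727) : 34000 ≤ fx x ∧ fx x ≤ 37000 := by
  obtain ⟨h, rfl⟩ : ∃ h, x = 3.7 + h := ⟨x - 3.7, by ring⟩
  have h3 : 0 ≤ h := by linarith
  have h4 : h ≤ 0.027 := by linarith
  have p2 : h ^ 2 ≤ 0.027 ^ 2 := pow_le_pow_left₀ h3 h4 2
  have p3 : h ^ 3 ≤ 0.027 ^ 3 := pow_le_pow_left₀ h3 h4 3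
  have p4 : h ^ 4 ≤ 0.027 ^ 4 := pow_le_pow_left₀ h3 h4 4
  have q2 : 0 ≤ h ^ 2 := by positivity
  have q3 : 0 ≤ h ^ 3 := by positivity
  have q4 : 0 ≤ h ^ 4 := by positivity
  unfold fx
  constructor <;> linarith only [h3, h4, p2, p3, p4, q2, q3, q4]

theorem cx_lower {x : ℝ} (h1 : 3.7 ≤ x) (h2 : x ≤ 3.727) : 22000 ≤ cx x := by
  obtain ⟨h, rfl⟩ : ∃ h, x = 3.7 + h := ⟨x - 3.7, by ring⟩
  have h3 : 0 ≤ h := by linarith
  have h4 : h ≤ 0.027 := by linarith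
  have p2 : h ^ 2 ≤ 0.027 ^ 2 := pow_le_pow_left₀ h3 h4 2
  have p3 : h ^ 3 ≤ 0.027 ^ 3 := pow_le_pow_left₀ h3 h4 3
  have q2 : 0 ≤ h ^ 2 := by positivity
  have q3 : 0 ≤ h ^ 3 := by positivity
  have q4 : 0 ≤ h ^ 4 := by positivity
  have q5 : 0 ≤ h ^ 5 := by positivity
  unfold cx
  linarith only [h3, h4, p2, p3, q2, q3, q4, q5]

/-- The numbers of the test configuration. -/
theorem numbers {Q u t : ℕ} {q r : ℝ} (hq : 1 ≤ q) (hr : 0 < r) (hQ : (Q : ℝ) = r * q)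
    (ht : 0 < t) (h1 : 9 * u ^ 2 ≤ 125 * Q ^ 2) (h2 : 125 * Q ^ 2 < 9 * (u + 1) ^ 2)
    (h4 : u ≤ 4 * Q) (hlarge : 38 ≤ Q) {a₀ b₀ b₁ c₀ : ℝ} (ha₀ : a₀ = ca0 Q t (105 * t * Q))
    (hb₀ : b₀ = cb0 Q u t (105 * t * Q)) (hb₁ : b₁ = cb1 Q u t (105 * t * Q))
    (hc₀ : c₀ = cc0 Q u t (105 * t * Q)) :
    0 ≤ -b₁ / a₀ ∧ -b₁ / a₀ ≤ 1 / Q ∧ (9 * u ^ 2 ≠ 125 * Q ^ 2 → 0 < -b₁ / a₀) ∧
      1 / 20 ≤ (0 - b₀ / a₀) / r ∧ 1 / 20 ≤ (c₀ - b₀ ^ 2 / a₀) / r ^ 6 := by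
  have hQ1 : (38 : ℝ) ≤ Q := by exact_mod_cast hlarge
  have hQ0 : (0 : ℝ) < Q := by linarith
  have ht1 : (1 : ℝ) ≤ t := by exact_mod_cast ht
  have ht0 : (0 : ℝ) < t := by linarith
  have g1 : 9 * (u : ℝ) ^ 2 ≤ 125 * Q ^ 2 := by exact_mod_cast h1
  have g2 : 125 * (Q : ℝ) ^ 2 < 9 * (u + 1) ^ 2 := by exact_mod_cast h2
  have g4 : (u : ℝ) ≤ 4 * Q := by exact_mod_cast h4
  have hu0 : (0 : ℝ) ≤ u := by positivity
  rw [ca0_crit] at ha₀
  rw [cb0_crit] at hb₀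
  rw [cb1_crit] at hb₁
  rw [cc0_crit] at hc₀
  have ha : 0 < a₀ := by
    rw [ha₀]
    positivity
  -- the ratio
  obtain ⟨x, hx⟩ : ∃ x : ℝ, (u : ℝ) = x * Q := ⟨u / Q, by field_simp⟩
  have x1 : x ≤ 3.727 := by
    by_contra h
    push Not at h
    rw [hx] at g1
    have : (3.727 * Q) ^ 2 < (x * Q) ^ 2 := by
      apply pow_lt_pow_left₀ _ (by positivity) (by norm_num)
      exact mul_lt_mul_of_pos_right h hQ0
    linarith only [g1, this, pow_pos hQ0 2]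
  have x2 : 3.7 ≤ x := by
    by_contra h
    push Not at h
    have e1 : (u : ℝ) + 1 ≤ 3.7264 * Q := by
      rw [hx]
      linarith only [mul_le_mul_of_nonneg_right h.le hQ0.le, hQ1]
    have : ((u : ℝ) + 1) ^ 2 ≤ (3.7264 * Q) ^ 2 := pow_le_pow_left₀ (by positivity) e1 2
    linarith only [g2, this, pow_pos hQ0 2]
  obtain ⟨f1, f2⟩ := fx_bounds x2 x1
  have c1 := cx_lower x2 x1
  have hb0' : b₀ = -(t * Q ^ 5 * fx x) := by
    rw [hb₀, hx]
    unfold fx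
    ring
  have hc0' : c₀ = t * Q ^ 6 * cx x := by
    rw [hc₀, hx]
    unfold cx
    ring
  have hb1' : -b₁ / a₀ = (125 * (Q : ℝ) ^ 2 - 9 * u ^ 2) ^ 2 / (3207900 * Q ^ 4) := by
    rw [hb₁, ha₀, neg_neg, div_eq_div_iff (by positivity) (by positivity)]
    ring
  refine ⟨?_, ?_, ?_, ?_, ?_⟩
  · rw [hb1']
    positivity
  · rw [hb1', div_le_div_iff₀ (by positivity) hQ0]
    have k1 : 0 ≤ 125 * (Q : ℝ) ^ 2 - 9 * u ^ 2 := by linarith
    have k2 : 125 * (Q : ℝ) ^ 2 - 9 * u ^ 2 ≤ 81 * Q := by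
      linarith only [g2, g4, hQ1]
    have k3 : (125 * (Q : ℝ) ^ 2 - 9 * u ^ 2) ^ 2 ≤ (81 * Q) ^ 2 := pow_le_pow_left₀ k1 k2 2
    have k4 : (Q : ℝ) ^ 3 ≤ Q ^ 4 := pow_le_pow_right₀ (by linarith) (by norm_num)
    linarith only [mul_le_mul_of_nonneg_right k3 hQ0.le, k4, pow_nonneg hQ0.le 4]
  · intro hne
    rw [hb1']
    have : 125 * (Q : ℝ) ^ 2 - 9 * u ^ 2 ≠ 0 := by
      intro h
      apply hne
      have : 9 * (u : ℝ) ^ 2 = 125 * Q ^ 2 := by linarith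
      exact_mod_cast this
    positivity
  · have e : (0 - b₀ / a₀) / r = q * fx x / 534650 := by
      rw [hb0', ha₀, hQ]
      field_simp
      ring
    rw [e]
    have : 34000 ≤ q * fx x := f1.trans (le_mul_of_one_le_left (by linarith only [f1]) hq)
    rw [div_le_div_iff₀ (by norm_num) (by norm_num)]
    linarith
  · have e : (c₀ - b₀ ^ 2 / a₀) / r ^ 6 = t * q ^ 6 * (cx x - fx x ^ 2 / 534650) := by
      have e0 : b₀ ^ 2 / a₀ = t * Q ^ 6 * (fx x ^ 2 / 534650) := by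
        rw [hb0', ha₀, div_eq_iff (by positivity)]
        ring
      rw [e0, hc0', div_eq_iff (by positivity), hQ]
      ring
    rw [e]
    have k1 : fx x ^ 2 ≤ 37000 ^ 2 := pow_le_pow_left₀ (by linarith) f2 2
    have k2 : 1 ≤ cx x - fx x ^ 2 / 534650 := by
      have : fx x ^ 2 / 534650 ≤ 37000 ^ 2 / 534650 := by gcongr
      have : (37000 : ℝ) ^ 2 / 534650 ≤ 3000 := by norm_num
      linarith
    have k3 : 1 ≤ (t : ℝ) * q ^ 6 := by
      exact one_le_mul_of_one_le_of_one_le ht1 (one_le_pow₀ hq)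
    have k4 := one_le_mul_of_one_le_of_one_le k3 k2
    linarith only [k4]

/-- `125 Q² = 9 u²` has no solutions. -/
theorem irr {Q u : ℕ} (hQ : 0 < Q) : 9 * u ^ 2 ≠ 125 * Q ^ 2 := by
  intro h
  have h1 : Irrational (Real.sqrt 5) := by
    have := Nat.Prime.irrational_sqrt (show Nat.Prime 5 by norm_num)
    exact_mod_cast this
  apply h1
  refine ⟨3 * u / (5 * Q), ?_⟩
  have hQ' : (0 : ℝ) < Q := by exact_mod_cast hQ
  have h2 : 9 * (u : ℝ) ^ 2 = 125 * Q ^ 2 := by exact_mod_cast h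
  symm
  rw [Real.sqrt_eq_iff_mul_self_eq (by norm_num) (by push_cast; positivity)]
  push_cast
  field_simp
  nlinarith

/-- zero is the maximal weight of `filtU`. -/
theorem filtU_maxWeight (hD : 100 * (T.t : ℤ) * q < T.X.deg D₀) (u : ℕ) :
    (filtU T q u D₀).HasMaxWeight 0 := by
  constructor
  · rintro x ⟨N, l, hN, hF, rfl⟩
    have hl : l ≤ 0 := by
      by_contra h
      push Not at h
      apply hF
      rw [filtU_F]
      refine bigr_eq_bot fun j _ => ?_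
      rw [UF_neg]
      intro h'
      have := h'.trans (min_le_left _ _)
      omega
    have : (l : ℝ) ≤ 0 := by exact_mod_cast hl
    exact div_nonpos_of_nonpos_of_nonneg this (by positivity)
  · intro b hb
    apply hb
    set N : ℕ := 18 * T.t + 1 with hN
    refine ⟨N, 0, by omega, ?_, by simp⟩
    have h1 := large_of_lt (T := T) (D₀ := D₀) (q := q) hD (N := N) le_rfl
    have hj : |(0 : ℤ)| ≤ 5 * q * N := by
      rw [abs_zero]
      positivity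
    have h2 := finrank_V T h1 hj
    have hpos : 0 < finrank ℂ (T.V q D₀ N 0) := by
      have h3 : (0 : ℝ) < dm q N T.t (T.X.deg D₀ : ℤ) (0 : ℤ) := by
        unfold dm
        have e1 : max 0 (|((0 : ℤ) : ℝ)| - 4 * (q : ℝ) * N) = 0 := by
          rw [max_eq_left]
          rw [Int.cast_zero, abs_zero]
          have : (0 : ℝ) ≤ 4 * q * N := by positivity
          linarith
        rw [e1]
        have h4 : (18 * (T.t : ℤ) + 1 : ℝ) ≤ ((T.X.deg D₀ : ℤ) - 100 * T.t * q) * N := by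
          exact_mod_cast h1
        push_cast at h4
        have h5 : (0 : ℝ) ≤ 100 * T.t * q * N := by positivity
        have h6 : (0 : ℝ) < T.t := by exact_mod_cast T.t_pos
        linarith
      rw [← h2] at h3
      exact_mod_cast h3
    have hfin := T.finite_V q D₀ N 0
    obtain ⟨⟨c, hc⟩, hc0⟩ := Module.finrank_pos_iff_exists_ne_zero.1 hpos
    have hc0' : c ≠ 0 := fun h => hc0 (Subtype.ext h)
    rw [filtU_F, Submodule.ne_bot_iff]
    have e0 : (0 : ℤ) ≤ 25 * q * N := by positivity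
    refine ⟨monomial (Finsupp.single 0 (25 * q * N) + Finsupp.single 2 (25 * q * N)) c,
      monomial_mem_bigr (j := 0) hj ?_ ?_ ?_, ?_⟩
    · simp
    · simp
    · rw [UF_pos]
      · exact hc
      · simp only [abs_zero, sub_zero]
        apply le_min le_rfl
        positivity
    · rw [Ne, monomial_eq_zero]
      exact hc0'

theorem Filt.desc_maxWeight {χ : Filt T (r * q) (r • D₀) 1} {m : ℝ} (h : χ.HasMaxWeight m) :
    χ.desc.HasMaxWeight m := h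

theorem Filt.desc_gamInv {χ : Filt T (r * q) (r • D₀) 1} {γ : Gam T} (h : χ.GamInv γ) :
    χ.desc.GamInv γ := ⟨h.E₁, h.E₂, h.tau⟩

theorem Filt.desc_equivariant {χ : Filt T (r * q) (r • D₀) 1} (h : χ.Equivariant) :
    χ.desc.Equivariant := h

/-- At the critical slope there are `Γ`-invariant test configurations with arbitrarily small
Futaki invariant and with `J` and the norm bounded from below. -/
theorem exists_small_fut (γ : Gam T) {q : ℕ} (hq : 0 < q) (D₀ : T.X.Pt →₀ ℤ)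
    (hγ : γ.Fixes D₀) (hD : T.X.deg D₀ = 105 * T.t * q) {ε : ℝ} (hε : 0 < ε) :
    ∃ r : ℕ, 0 < r ∧ ∃ χ : TestConf T q D₀ r, χ.Equivariant ∧ χ.GamInv γ ∧
      ∃ a₀ a₁ b₀ b₁ c₀ : ℝ, χ.Expansion a₀ a₁ b₀ b₁ c₀ ∧ χ.HasMaxWeight 0 ∧
        0 < (a₁ * b₀ - a₀ * b₁) / a₀ ^ 2 ∧ (a₁ * b₀ - a₀ * b₁) / a₀ ^ 2 < ε ∧
        1 / 20 ≤ (0 - b₀ / a₀) / r ∧ 1 / 20 ≤ (c₀ - b₀ ^ 2 / a₀) / r ^ 6 := by
  obtain ⟨n, hn⟩ := exists_nat_gt (1 / ε)
  set r : ℕ := max 38 (n + 1) with hr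
  have hr38 : 38 ≤ r := le_max_left _ _
  have hrn : n + 1 ≤ r := le_max_right _ _
  have hr0 : 0 < r := by omega
  obtain ⟨u, h1, h2, h3, h4⟩ := exists_u (r * q)
  have hq1 : (1 : ℤ) ≤ q := by exact_mod_cast hq
  have ht1 : (1 : ℤ) ≤ T.t := by exact_mod_cast T.t_pos
  have hr1 : (1 : ℤ) ≤ r := by exact_mod_cast hr0
  have hdeg : T.X.deg (r • D₀) = 105 * T.t * ((r * q : ℕ) : ℤ) := by
    rw [T.X.deg_nsmul, hD]
    push_cast
    ring
  have hD' : 100 * (T.t : ℤ) * ((r * q : ℕ) : ℤ) < T.X.deg (r • D₀) := by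
    rw [hdeg]
    have : (0 : ℤ) < T.t * ((r * q : ℕ) : ℤ) := by positivity
    linarith
  have he : ((T.X.deg (r • D₀) : ℤ) : ℝ) = 105 * T.t * ((r * q : ℕ) : ℝ) := by
    rw [hdeg]
    push_cast
    ring
  have hexp := expansion_filtU T hD' h4
  rw [he] at hexp
  have hQ : 38 ≤ r * q := le_trans hr38 (Nat.le_mul_of_pos_right r hq)
  have hnum := numbers (Q := r * q) (u := u) (t := T.t) (q := q) (r := r)
    (by exact_mod_cast hq) (by exact_mod_cast hr0) (by push_cast; ring) T.t_pos h1 h2 h4 hQ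
    rfl rfl rfl rfl
  obtain ⟨n1, n2, n3, n4, n5⟩ := hnum
  have n3' := n3 (irr (by omega))
  have ha0 : (0 : ℝ) < ca0 (r * q) T.t (105 * T.t * ((r * q : ℕ) : ℝ)) := by
    rw [ca0_crit]
    have h5 : (0 : ℝ) < T.t := by exact_mod_cast T.t_pos
    have h6 : (0 : ℝ) < ((r * q : ℕ) : ℝ) := by exact_mod_cast (by omega : 0 < r * q)
    positivity
  have hfut : (ca1 (r * q) T.t (105 * T.t * ((r * q : ℕ) : ℝ)) *
      cb0 (r * q) u T.t (105 * T.t * ((r * q : ℕ) : ℝ)) -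
      ca0 (r * q) T.t (105 * T.t * ((r * q : ℕ) : ℝ)) *
      cb1 (r * q) u T.t (105 * T.t * ((r * q : ℕ) : ℝ))) /
      ca0 (r * q) T.t (105 * T.t * ((r * q : ℕ) : ℝ)) ^ 2 =
      -cb1 (r * q) u T.t (105 * T.t * ((r * q : ℕ) : ℝ)) /
        ca0 (r * q) T.t (105 * T.t * ((r * q : ℕ) : ℝ)) := by
    rw [ca1_crit, div_eq_div_iff (by positivity) (by positivity)]
    ring
  refine ⟨r, hr0, (testU T hD' h4).desc, Filt.desc_equivariant (filtU_equivariant T _ u _),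
    Filt.desc_gamInv (filtU_gamInv γ (hγ.nsmul r) u), _, _, _, _, _, Filt.desc_expansion hexp,
    Filt.desc_maxWeight (filtU_maxWeight hD' u), ?_, ?_, n4, n5⟩
  · rw [hfut]
    exact n3'
  · rw [hfut]
    refine lt_of_le_of_lt n2 ?_
    have h7 : (1 : ℝ) / ε < ((r * q : ℕ) : ℝ) := by
      have : ((n + 1 : ℕ) : ℝ) ≤ ((r * q : ℕ) : ℝ) := by
        exact_mod_cast le_trans hrn (Nat.le_mul_of_pos_right r hq)
      push_cast at this ⊢
      linarith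
    rw [div_lt_iff₀ (by positivity)]
    rw [div_lt_iff₀ hε] at h7
    linarith

/-- `(X, L)` is uniformly K-stable with respect to `Γ`-invariant test configurations:
`Fut ≥ ε J` for some `ε > 0` and all of them. -/
def UniformlyStable (γ : Gam T) (q : ℕ) (D₀ : T.X.Pt →₀ ℤ) : Prop :=
  ∃ ε : ℝ, 0 < ε ∧ ∀ (r : ℕ), 0 < r → ∀ χ : TestConf T q D₀ r, χ.GamInv γ →
    ∀ J Fut : ℝ, χ.HasJ J → χ.HasFutaki Fut → ε * J ≤ Fut

/-- The critical polarizations are not uniformly K-stable. -/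
theorem not_uniformlyStable (γ : Gam T) {q : ℕ} (hq : 0 < q) (D₀ : T.X.Pt →₀ ℤ)
    (hγ : γ.Fixes D₀) (hD : T.X.deg D₀ = 105 * T.t * q) : ¬ UniformlyStable γ q D₀ := by
  rintro ⟨ε, hε, h⟩
  obtain ⟨r, hr, χ, -, hγ', a₀, a₁, b₀, b₁, c₀, hE, hm, -, hf, hJ, -⟩ :=
    exists_small_fut γ hq D₀ hγ hD (ε := ε / 20) (by positivity)
  have h1 := h r hr χ hγ' _ _ ⟨0, a₀, a₁, b₀, b₁, c₀, hm, hE, rfl⟩ ⟨a₀, a₁, b₀, b₁, c₀, hE, rfl⟩
  have h2 : ε * (1 / 20) ≤ ε * ((0 - b₀ / a₀) / r) := mul_le_mul_of_nonneg_left hJ hε.le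
  linarith

end Pool.Agent.YTD
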