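import Pool.Agent.YTD.SatK3
import Pool.Agent.YTD.UnifK

/-!
The quotients with critical polarization are not uniformly K-stable.
-/

namespace Pool.Agent.YTD

open Finset Module MvPolynomial Filter

variable {K : Type} [Field K] [Algebra ℂ K]
variable {T : Datum K} {q : ℕ} {D₀ : T.X.Pt →₀ ℤ} {r : ℕ}

/-- The maximal weight of the filtration, divided by the degree:
`m` is the supremum of `l / N` over all `N ≥ 1` and `l` with `F N l ≠ 0`. -/
def QFilt.HasMaxWeight {γ : Gam T} (χ : QFilt γ q D₀ r) (m : ℝ) : Prop :=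
  IsLUB {x : ℝ | ∃ (N : ℕ) (l : ℤ), 0 < N ∧ χ.F N l ≠ ⊥ ∧ x = l / N} m

/-- `J` is the value of the non-archimedean `J`-functional at `χ`, the difference of the maximal
and the average (normalized) weight. -/
def QFilt.HasJ {γ : Gam T} (χ : QFilt γ q D₀ r) (J : ℝ) : Prop :=
  ∃ m a₀ a₁ b₀ b₁ c₀ : ℝ, χ.HasMaxWeight m ∧ χ.Expansion a₀ a₁ b₀ b₁ c₀ ∧ J = (m - b₀ / a₀) / r

theorem Gam.secQ_mul (γ : Gam T) (q : ℕ) (D₀ : T.X.Pt →₀ ℤ) (r N : ℕ) :
    γ.secQ (r * q) (r • D₀) N = γ.secQ q D₀ (r * N) := by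
  ext f
  rw [Gam.mem_secQ, Gam.mem_secQ, T.sec_mul]

/-- Regard a filtration of exponent one for `L^r` as a filtration of exponent `r` for `L`. -/
noncomputable def QFilt.desc {γ : Gam T} (χ : QFilt γ (r * q) (r • D₀) 1) : QFilt γ q D₀ r where
  F := χ.F
  le N l := by
    have h := χ.le N l
    rw [γ.secQ_mul, one_mul] at h
    exact h
  anti := χ.anti
  mul := χ.mul
  bound := by
    obtain ⟨Λ, hΛ⟩ := χ.bound
    refine ⟨Λ, fun N => ?_⟩
    have h := hΛ N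
    rw [γ.secQ_mul, one_mul] at h
    exact h

theorem QFilt.desc_expansion {γ : Gam T} {χ : QFilt γ (r * q) (r • D₀) 1}
    {a₀ a₁ b₀ b₁ c₀ : ℝ} (h : χ.Expansion a₀ a₁ b₀ b₁ c₀) :
    χ.desc.Expansion a₀ a₁ b₀ b₁ c₀ := by
  have e1 : χ.desc.dimN = χ.dimN := by
    funext N
    unfold QFilt.dimN
    rw [γ.secQ_mul, one_mul]
  have e2 : χ.desc.tr = χ.tr := rfl
  unfold QFilt.Expansion at h ⊢
  rw [e1, e2]
  exact h

/-- Regard a test configuration of exponent one for `L^r` as one of exponent `r` for `L`. -/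
noncomputable def QTestConf.desc {γ : Gam T} (χ : QTestConf γ (r * q) (r • D₀) 1) :
    QTestConf γ q D₀ r where
  toQFilt := χ.toQFilt.desc
  fg := χ.fg

/-- zero is the maximal weight of `testQ`. -/
theorem testQ_maxWeight (γ : Gam T) (hfix : γ.Fixes D₀) (hD : 100 * (T.t : ℤ) * q < T.X.deg D₀)
    {u : ℕ} (hu : u ≤ 4 * q) : (testQ γ hfix hD hu).HasMaxWeight 0 := by
  obtain ⟨hub, -⟩ := filtU_maxWeight (T := T) (D₀ := D₀) hD u
  constructor
  · rintro x ⟨N, l, hN, hF, rfl⟩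
    refine hub ⟨N, l, hN, ?_, rfl⟩
    intro h
    apply hF
    rw [testQ_F, ← filtU_F_eq_secP, h, bot_inf_eq]
  · intro b hb
    apply hb
    set N : ℕ := 18 * T.t + 9 with hN
    refine ⟨N, 0, by omega, ?_, by simp⟩
    have hj : |(0 : ℤ)| ≤ 5 * q * N := by
      rw [abs_zero]
      positivity
    have h0 := deg_bound_large (q := q) hD (N := N) le_rfl 0 hj
    obtain ⟨c, hc, hc0⟩ := Submodule.exists_mem_ne_zero_of_ne_bot
      (T.X.L_ne_bot (D := T.dvs q D₀ N 0) (by linarith))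
    have h1 : monomial (Finsupp.single 0 (25 * q * N) + Finsupp.single 2 (25 * q * N)) c ∈
        (filtU T q u D₀).F N 0 := by
      rw [filtU_F]
      refine monomial_mem_bigr (j := 0) hj ?_ ?_ ?_
      · simp
      · simp
      · rw [UF_pos]
        · exact hc
        · simp only [abs_zero, sub_zero]
          apply le_min le_rfl
          positivity
    intro h
    have h2 := finrank_testQ γ hfix hD hu (N := N) le_rfl 0
    have h3 : (testQ γ hfix hD hu).F N 0 = ⊥ := h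
    rw [h3, finrank_bot] at h2
    have h4 : finrank ℂ ((filtU T q u D₀).F N 0) = 0 := by
      have : (finrank ℂ ((filtU T q u D₀).F N 0) : ℝ) = 0 := by
        rw [Nat.cast_zero] at h2
        linarith
      exact_mod_cast this
    have hfin : FiniteDimensional ℂ ((filtU T q u D₀).F N 0) := by
      rw [filtU_F_eq_secP]
      exact T.finite_secP _ _ _ _
    rw [Submodule.finrank_eq_zero] at h4
    rw [h4, Submodule.mem_bot, monomial_eq_zero] at h1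
    exact hc0 h1

theorem QFilt.desc_maxWeight {γ : Gam T} {χ : QFilt γ (r * q) (r • D₀) 1} {m : ℝ}
    (h : χ.HasMaxWeight m) : χ.desc.HasMaxWeight m := h

/-- At the critical slope there are test configurations of the quotient with arbitrarily small
Futaki invariant and with `J` and the norm bounded from below. -/
theorem exists_small_fut_quot (γ : Gam T) {q : ℕ} (hq : 0 < q) (D₀ : T.X.Pt →₀ ℤ)
    (hγ : γ.Fixes D₀) (hD : T.X.deg D₀ = 105 * T.t * q) {ε : ℝ} (hε : 0 < ε) :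
    ∃ r : ℕ, 0 < r ∧ ∃ χ : QTestConf γ q D₀ r,
      ∃ a₀ a₁ b₀ b₁ c₀ : ℝ, χ.Expansion a₀ a₁ b₀ b₁ c₀ ∧ χ.HasMaxWeight 0 ∧
        0 < (a₁ * b₀ - a₀ * b₁) / a₀ ^ 2 ∧ (a₁ * b₀ - a₀ * b₁) / a₀ ^ 2 < ε ∧
        1 / 20 ≤ (0 - b₀ / a₀) / r ∧ 1 / 160 ≤ (c₀ - b₀ ^ 2 / a₀) / r ^ 6 := by
  obtain ⟨n, hn⟩ := exists_nat_gt (1 / ε)
  set r : ℕ := max 38 (n + 1) with hr
  have hr38 : 38 ≤ r := le_max_left _ _
  have hrn : n + 1 ≤ r := le_max_right _ _
  have hr0 : 0 < r := by omega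
  obtain ⟨u, h1, h2, h3, h4⟩ := exists_u (r * q)
  have hq1 : (1 : ℤ) ≤ q := by exact_mod_cast hq
  have ht1 : (1 : ℤ) ≤ T.t := by exact_mod_cast T.t_pos
  have hr1 : (1 : ℤ) ≤ r := by exact_mod_cast hr0
  have hdeg : T.X.deg (r • D₀) = 105 * T.t * ((r * q : ℕ) : ℤ) := by
    rw [T.X.deg_nsmul, hD]
    push_cast
    ring
  have hD' : 100 * (T.t : ℤ) * ((r * q : ℕ) : ℤ) < T.X.deg (r • D₀) := by
    rw [hdeg]
    have : (0 : ℤ) < T.t * ((r * q : ℕ) : ℤ) := by positivity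
    linarith
  have he : ((T.X.deg (r • D₀) : ℤ) : ℝ) = 105 * T.t * ((r * q : ℕ) : ℝ) := by
    rw [hdeg]
    push_cast
    ring
  have hexp := expansion_testQ γ (hγ.nsmul r) hD' h4
  rw [he] at hexp
  have hQ : 38 ≤ r * q := le_trans hr38 (Nat.le_mul_of_pos_right r hq)
  have hnum := numbers (Q := r * q) (u := u) (t := T.t) (q := q) (r := r)
    (by exact_mod_cast hq) (by exact_mod_cast hr0) (by push_cast; ring) T.t_pos h1 h2 h4 hQ
    rfl rfl rfl rfl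
  obtain ⟨n1, n2, n3, n4, n5⟩ := hnum
  have n3' := n3 (irr (by omega))
  have ha0 : (0 : ℝ) < ca0 (r * q) T.t (105 * T.t * ((r * q : ℕ) : ℝ)) := by
    rw [ca0_crit]
    have h5 : (0 : ℝ) < T.t := by exact_mod_cast T.t_pos
    have h6 : (0 : ℝ) < ((r * q : ℕ) : ℝ) := by exact_mod_cast (by omega : 0 < r * q)
    positivity
  have hfut : (ca1 (r * q) T.t (105 * T.t * ((r * q : ℕ) : ℝ)) / 8 *
      (cb0 (r * q) u T.t (105 * T.t * ((r * q : ℕ) : ℝ)) / 8) -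
      ca0 (r * q) T.t (105 * T.t * ((r * q : ℕ) : ℝ)) / 8 *
      (cb1 (r * q) u T.t (105 * T.t * ((r * q : ℕ) : ℝ)) / 8)) /
      (ca0 (r * q) T.t (105 * T.t * ((r * q : ℕ) : ℝ)) / 8) ^ 2 =
      -cb1 (r * q) u T.t (105 * T.t * ((r * q : ℕ) : ℝ)) /
        ca0 (r * q) T.t (105 * T.t * ((r * q : ℕ) : ℝ)) := by
    rw [ca1_crit, div_eq_div_iff (by positivity) (by positivity)]
    ring
  refine ⟨r, hr0, (testQ γ (hγ.nsmul r) hD' h4).desc, _, _, _, _, _,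
    QFilt.desc_expansion hexp,
    QFilt.desc_maxWeight (testQ_maxWeight γ (hγ.nsmul r) hD' h4), ?_, ?_, ?_, ?_⟩
  · rw [hfut]
    exact n3'
  · rw [hfut]
    refine lt_of_le_of_lt n2 ?_
    have h7 : (1 : ℝ) / ε < ((r * q : ℕ) : ℝ) := by
      have : ((n + 1 : ℕ) : ℝ) ≤ ((r * q : ℕ) : ℝ) := by
        exact_mod_cast le_trans hrn (Nat.le_mul_of_pos_right r hq)
      push_cast at this ⊢
      linarith
    rw [div_lt_iff₀ (by positivity)]
    rw [div_lt_iff₀ hε] at h7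
    linarith
  · have e : cb0 (r * q) u T.t (105 * T.t * ((r * q : ℕ) : ℝ)) / 8 /
        (ca0 (r * q) T.t (105 * T.t * ((r * q : ℕ) : ℝ)) / 8) =
        cb0 (r * q) u T.t (105 * T.t * ((r * q : ℕ) : ℝ)) /
        ca0 (r * q) T.t (105 * T.t * ((r * q : ℕ) : ℝ)) := by
      rw [div_div_div_cancel_right₀ (by norm_num)]
    rw [e]
    exact n4
  · have e : (cc0 (r * q) u T.t (105 * T.t * ((r * q : ℕ) : ℝ)) / 8 -
        (cb0 (r * q) u T.t (105 * T.t * ((r * q : ℕ) : ℝ)) / 8) ^ 2 /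
        (ca0 (r * q) T.t (105 * T.t * ((r * q : ℕ) : ℝ)) / 8)) / (r : ℝ) ^ 6 =
        (cc0 (r * q) u T.t (105 * T.t * ((r * q : ℕ) : ℝ)) -
        cb0 (r * q) u T.t (105 * T.t * ((r * q : ℕ) : ℝ)) ^ 2 /
        ca0 (r * q) T.t (105 * T.t * ((r * q : ℕ) : ℝ))) / (r : ℝ) ^ 6 / 8 := by
      field_simp
    rw [e]
    have : (1 : ℝ) / 160 = 1 / 20 / 8 := by norm_num
    rw [this]
    exact div_le_div_of_nonneg_right n5 (by norm_num)

/-- The quotient is uniformly K-stable: `Fut ≥ ε J` for some `ε > 0` and all of its test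
configurations. -/
def UniformlyStableQ (γ : Gam T) (q : ℕ) (D₀ : T.X.Pt →₀ ℤ) : Prop :=
  ∃ ε : ℝ, 0 < ε ∧ ∀ (r : ℕ), 0 < r → ∀ χ : QTestConf γ q D₀ r,
    ∀ J Fut : ℝ, χ.HasJ J → χ.HasFutaki Fut → ε * J ≤ Fut

/-- The quotients with critical polarization are not uniformly K-stable. -/
theorem not_uniformlyStableQ (γ : Gam T) {q : ℕ} (hq : 0 < q) (D₀ : T.X.Pt →₀ ℤ)
    (hγ : γ.Fixes D₀) (hD : T.X.deg D₀ = 105 * T.t * q) : ¬ UniformlyStableQ γ q D₀ := by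
  rintro ⟨ε, hε, h⟩
  obtain ⟨r, hr, χ, a₀, a₁, b₀, b₁, c₀, hE, hm, -, hf, hJ, -⟩ :=
    exists_small_fut_quot γ hq D₀ hγ hD (ε := ε / 20) (by positivity)
  have h1 := h r hr χ _ _ ⟨0, a₀, a₁, b₀, b₁, c₀, hm, hE, rfl⟩ ⟨a₀, a₁, b₀, b₁, c₀, hE, rfl⟩
  have h2 : ε * (1 / 20) ≤ ε * ((0 - b₀ / a₀) / r) := mul_le_mul_of_nonneg_left hJ hε.le
  linarith

end Pool.Agent.YTD
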