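import Pool.Agent.YTD.Crit
import Pool.Agent.YTD.RigidCor

/-!
Torus-graded filtrations with an explicit bound, and a criterion for the one-sided hypotheses
on the total dimension.
-/

namespace Pool.Agent.YTD

open Finset Module MvPolynomial Filter

variable {K : Type} [Field K] [Algebra ℂ K]
variable {T : Datum K} {q : ℕ} {D₀ : T.X.Pt →₀ ℤ} {r : ℕ}

namespace Graded

/-- the functional depends on the level only. -/
theorem ub_congr {G G' : Graded T q D₀} (hΛ : G.Λ = G'.Λ) {N : ℕ}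
    (h : ∀ l j a b, G.W N l j a b = G'.W N l j a b) (j : ℤ) : G.ub N j = G'.ub N j := by
  unfold ub Uf nn
  simp only [h, hΛ]

variable {G : Graded T q D₀}

/-- upper bound for the functional from an upper bound of the total dimension. -/
theorem Phi_le_up (hD : T.X.deg D₀ = 105 * T.t * q) (P₀ : T.X.Pt) (hq : 0 < q) {s₀ C₀ : ℝ}
    (hS : ∀ᶠ M : ℕ in atTop, G.tot M ≤ s₀ * M ^ 5 + C₀ * M ^ 4) {N : ℕ} (hN : 4 ≤ N) :
    ∑ j ∈ Icc (-((5 * q * N : ℕ) : ℤ)) ((5 * q * N : ℕ) : ℤ), Wt q N j * G.ub N j ≤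
      s₀ * N ^ 5 + 600000 * T.t * (q : ℝ) ^ 2 * G.Λ * (N : ℝ) ^ 3 := by
  rw [← base_Phi hD P₀ hq hN]
  set s := G.base hD P₀ hq hN
  set E : ℝ := 600000 * T.t * (q : ℝ) ^ 2 * G.Λ * (N : ℝ) ^ 3 with hE
  have hE0 : 0 ≤ E := by positivity
  -- the sequence of levels
  let M : ℕ → ℕ := fun i => 2 * N + 2 ^ i * N
  have hM : Tendsto M atTop atTop := by
    apply tendsto_atTop_mono (f := fun i : ℕ => i)
    · intro i
      have h1 : i < 2 ^ i := Nat.lt_two_pow_self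
      have h2 : 2 ^ i ≤ 2 ^ i * N := Nat.le_mul_of_pos_right _ (by omega)
      simp only [M]
      omega
    · exact tendsto_id
  -- bound for large i
  have h1 : ∀ᶠ i : ℕ in atTop, s.Phi - E ≤ s₀ * ((M i : ℝ) / 2 ^ i) ^ 5 +
      C₀ * ((M i : ℝ) / 2 ^ i) ^ 4 * (1 / 2) ^ i := by
    filter_upwards [hM.eventually hS] with i hi
    obtain ⟨s', hs'⟩ := iterate hq (show 0 < N by omega) s i
    have h2 := Phi_le_tot hD P₀ hq hN s'
    have h4 : G.tot (2 * N + 2 ^ i * N) = G.tot (M i) := rfl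
    rw [h4] at h2
    have h5 : (32 : ℝ) ^ i * (s.Phi - E) ≤ s₀ * (M i : ℝ) ^ 5 + C₀ * (M i : ℝ) ^ 4 := by
      have h6 : E * (((32 : ℝ) ^ i - 8 ^ i) / 24) ≤ E * 32 ^ i := by
        apply mul_le_mul_of_nonneg_left _ hE0
        have : (0 : ℝ) < 8 ^ i := by positivity
        have : (0 : ℝ) < 32 ^ i := by positivity
        linarith
      have h7 : 600000 * T.t * (q : ℝ) ^ 2 * G.Λ * (N : ℝ) ^ 3 * (((32 : ℝ) ^ i - 8 ^ i) / 24) =
        E * (((32 : ℝ) ^ i - 8 ^ i) / 24) := by rw [hE]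
      rw [h7] at hs'
      linarith
    have h8 : (0 : ℝ) < 32 ^ i := by positivity
    have h9 : s.Phi - E ≤ (s₀ * (M i : ℝ) ^ 5 + C₀ * (M i : ℝ) ^ 4) / 32 ^ i := by
      rw [le_div_iff₀ h8]
      linarith
    refine h9.trans (le_of_eq ?_)
    have e2 : (32 : ℝ) ^ i = (2 ^ i) ^ 5 := by rw [← pow_mul, mul_comm, pow_mul]; norm_num
    have e3 : (1 / 2 : ℝ) ^ i = 1 / 2 ^ i := by rw [div_pow, one_pow]
    rw [e2, e3]
    have h10 : (0 : ℝ) < 2 ^ i := by positivity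
    field_simp
  -- limits
  have h2 : Tendsto (fun i : ℕ => (M i : ℝ) / 2 ^ i) atTop (nhds N) := by
    have e : (fun i : ℕ => (M i : ℝ) / 2 ^ i) = fun i : ℕ => (N : ℝ) + 2 * N * (1 / 2) ^ i := by
      funext i
      simp only [M]
      push_cast
      have h10 : (0 : ℝ) < 2 ^ i := by positivity
      rw [show (1 / 2 : ℝ) ^ i = 1 / 2 ^ i by rw [div_pow, one_pow]]
      field_simp
      ring
    rw [e]
    have h3 : Tendsto (fun i : ℕ => (1 / 2 : ℝ) ^ i) atTop (nhds 0) :=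
      tendsto_pow_atTop_nhds_zero_of_lt_one (by norm_num) (by norm_num)
    have h4 := (h3.const_mul (2 * (N : ℝ))).const_add (N : ℝ)
    rw [mul_zero, add_zero] at h4
    exact h4
  have h3 : Tendsto (fun i : ℕ => (1 / 2 : ℝ) ^ i) atTop (nhds 0) :=
    tendsto_pow_atTop_nhds_zero_of_lt_one (by norm_num) (by norm_num)
  have h4 : Tendsto (fun i : ℕ => s₀ * ((M i : ℝ) / 2 ^ i) ^ 5 +
      C₀ * ((M i : ℝ) / 2 ^ i) ^ 4 * (1 / 2) ^ i) atTop
      (nhds (s₀ * (N : ℝ) ^ 5 + C₀ * (N : ℝ) ^ 4 * 0)) :=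
    ((h2.pow 5).const_mul s₀).add (((h2.pow 4).const_mul C₀).mul h3)
  rw [mul_zero, add_zero] at h4
  have h5 := ge_of_tendsto h4 h1
  linarith

end Graded

namespace Filt

/-- `L` is a bound for the filtration. -/
def Bdd (χ : Filt T q D₀ r) (L : ℕ) : Prop :=
  ∀ N : ℕ, χ.F N (-(L * N)) = T.sec q D₀ (r * N) ∧ χ.F N (L * N + 1) = ⊥

variable (χ : Filt T q D₀ r) {L : ℕ} (hL : χ.Bdd L)

include hL in
theorem Bdd.F_of_le {N : ℕ} {l : ℤ} (h : l ≤ -(L * N)) : χ.F N l = T.sec q D₀ (r * N) := by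
  apply le_antisymm (χ.le N l)
  rw [← (hL N).1]
  exact χ.anti N _ _ h

include hL in
theorem Bdd.F_of_gt {N : ℕ} {l : ℤ} (h : L * N < l) : χ.F N l = ⊥ := by
  rw [eq_bot_iff, ← (hL N).2]
  exact χ.anti N _ _ (by linarith)

include hL in
theorem Bdd.tw (E : Autom K) (hE : Pres T q D₀ E) : (χ.tw E hE).Bdd L := by
  intro N
  rw [tw_F, tw_F, (hL N).1, (hL N).2, hE, Submodule.map_bot]
  exact ⟨rfl, rfl⟩

/-- the graded filtration of initial spaces of `χ` for the monomial order `m`, normalized by the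
bound `L`. -/
noncomputable def gradedL (m : MonomialOrder (Fin 4)) : Graded T (r * q) (r • D₀) where
  Λ := 2 * L
  W := fun N l j a b => ini m (χ.F N ((l : ℤ) - L * N)) (expo (r * q) N j a b)
  W_zero := by
    intro N j a b h
    have e : ((0 : ℕ) : ℤ) - L * N = -(L * N) := by simp
    rw [e, (hL N).1, ← T.sec_mul r q D₀ N, T.ini_sec _ h]
  W_anti := by
    intro N l l' j a b h
    exact ini_mono (χ.anti N _ _ (by
      have : (l : ℤ) ≤ l' := by exact_mod_cast h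
      linarith)) _
  W_mul := by
    intro N N' l l' j j' a a' b b' h h' f hf g hg
    rw [← expo_add h h']
    refine ini_mul ?_ hf hg
    intro f hf g hg
    have := χ.mul N N' _ _ f hf g hg
    have e : ((l + l' : ℕ) : ℤ) - L * ((N + N' : ℕ) : ℤ) =
      ((l : ℤ) - L * N) + ((l' : ℤ) - L * N') := by push_cast; ring
    rw [e]
    exact this
  W_top := by
    intro N l j a b h
    have h1 : χ.F N ((l : ℤ) - L * N) = ⊥ := by
      rw [eq_bot_iff, ← (hL N).2]
      apply χ.anti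
      have : ((2 * L * N : ℕ) : ℤ) < l := by exact_mod_cast h
      push_cast at this
      linarith
    rw [h1, ini_bot]

theorem gradedL_Λ (m : MonomialOrder (Fin 4)) : (χ.gradedL hL m).Λ = 2 * L := rfl

theorem gradedL_W (m : MonomialOrder (Fin 4)) (N l : ℕ) (j : ℤ) (a b : ℕ) :
    (χ.gradedL hL m).W N l j a b = ini m (χ.F N ((l : ℤ) - L * N)) (expo (r * q) N j a b) := rfl

/-- the total dimension in the window given by `L`. -/
noncomputable def totL (L : ℕ) (N : ℕ) : ℝ :=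
  ∑ l ∈ Ioc (-((L * N : ℕ) : ℤ)) ((L * N : ℕ) : ℤ), (finrank ℂ (χ.F N l) : ℝ)

theorem sum_range_eq_Ioc (M : ℕ) (F : ℤ → ℝ) :
    ∑ i ∈ range (2 * M), F ((i : ℤ) + 1 - M) = ∑ l ∈ Ioc (-(M : ℤ)) M, F l := by
  refine sum_bij' (fun i _ => (i : ℤ) + 1 - M) (fun j _ => (j - 1 + M).toNat) ?_ ?_ ?_ ?_ ?_
  · intro i hi
    have := mem_range.1 hi
    rw [mem_Ioc]
    constructor <;> omega
  · intro j hj
    have := mem_Ioc.1 hj
    rw [mem_range]
    omega
  · intro i hi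
    have := mem_range.1 hi
    omega
  · intro j hj
    have := mem_Ioc.1 hj
    rw [Int.toNat_of_nonneg (by linarith)]
    ring
  · intro i hi
    rfl

theorem gradedL_tot (m : MonomialOrder (Fin 4)) (P₀ : T.X.Pt) (N : ℕ) :
    (χ.gradedL hL m).tot N = χ.totL L N := by
  have e0 : χ.totL L N = ∑ l ∈ range (2 * L * N), (finrank ℂ (χ.F N ((l : ℤ) + 1 - L * N)) : ℝ) := by
    unfold totL
    rw [← sum_range_eq_Ioc (L * N) (fun l => (finrank ℂ (χ.F N l) : ℝ)), ← mul_assoc]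
    push_cast
    rfl
  rw [e0]
  have h0 : ∀ (l : ℕ) (j : ℤ) (a b : ℕ), (χ.gradedL hL m).W N (l + 1) j a b =
      ini m (χ.F N ((l : ℤ) + 1 - L * N)) (expo (r * q) N j a b) := by
    intro l j a b
    show ini m (χ.F N (((l + 1 : ℕ) : ℤ) - L * N)) (expo (r * q) N j a b) = _
    have e : ((l + 1 : ℕ) : ℤ) = (l : ℤ) + 1 := by push_cast; rfl
    rw [e]
  have h1 : ∀ l : ℕ, (finrank ℂ (χ.F N ((l : ℤ) + 1 - L * N)) : ℝ) =
      ∑ j ∈ Icc (-((5 * (r * q) * N : ℕ) : ℤ)) ((5 * (r * q) * N : ℕ) : ℤ),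
      ∑ a ∈ range (AA (r * q) N j + 1), ∑ b ∈ range (BB (r * q) N j + 1),
        (finrank ℂ ((χ.gradedL hL m).W N (l + 1) j a b) : ℝ) := by
    intro l
    rw [T.finrank_eq_sum P₀ m (q := r * q) (D₀ := r • D₀) (N := N)
      (by rw [T.sec_mul]; exact χ.le N _)]
    refine sum_congr rfl fun j _ => sum_congr rfl fun a _ => sum_congr rfl fun b _ => ?_
    rw [h0]
  unfold Graded.tot
  rw [gradedL_Λ]
  rw [sum_congr rfl (fun l _ => h1 l)]
  symm
  rw [sum_comm]
  apply sum_congr rfl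
  intro j _
  rw [sum_comm]
  apply sum_congr rfl
  intro a _
  rw [sum_comm]

theorem totL_tw (E : Autom K) (hE : Pres T q D₀ E) (L N : ℕ) : (χ.tw E hE).totL L N = χ.totL L N := by
  unfold totL
  simp only [finrank_tw]

/-- the upper half of the criterion: every level can be embedded into a filtration of total
dimension at most `s₀ M⁵ + O(M⁴)`. -/
def UpHyp (L : ℕ) (s₀ : ℝ) : Prop :=
  ∀ N : ℕ, ∃ G : Filt T q D₀ r, G.Bdd L ∧ (∀ l, G.F N l = χ.F N l) ∧
    ∃ C₀ : ℝ, ∀ᶠ M : ℕ in atTop, G.totL L M ≤ s₀ * M ^ 5 + C₀ * M ^ 4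

/-- the lower half of the criterion -/
def LowHyp (L : ℕ) (s₀ s₁ : ℝ) : Prop :=
  ∃ C : ℝ, ∀ᶠ N : ℕ in atTop, s₀ * N ^ 5 + s₁ * N ^ 4 - C * N ^ 3 ≤ χ.totL L N

variable {χ}

theorem UpHyp.tw {s₀ : ℝ} (h : χ.UpHyp L s₀) (E : Autom K) (hE : Pres T q D₀ E) :
    (χ.tw E hE).UpHyp L s₀ := by
  intro N
  obtain ⟨G, h1, h2, C₀, h3⟩ := h N
  refine ⟨G.tw E hE, Bdd.tw G h1 E hE, fun l => ?_, C₀, ?_⟩
  · rw [tw_F, tw_F, h2]
  · filter_upwards [h3] with M hM
    rwa [totL_tw]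

theorem LowHyp.tw {s₀ s₁ : ℝ} (h : χ.LowHyp L s₀ s₁) (E : Autom K) (hE : Pres T q D₀ E) :
    (χ.tw E hE).LowHyp L s₀ s₁ := by
  obtain ⟨C, h⟩ := h
  refine ⟨C, ?_⟩
  filter_upwards [h] with N hN
  rwa [totL_tw]

theorem deg_smul' (hD : T.X.deg D₀ = 105 * T.t * q) :
    T.X.deg (r • D₀) = 105 * T.t * ((r * q : ℕ) : ℤ) := by
  rw [T.X.deg_nsmul, hD]
  push_cast
  ring

/-- the criterion -/
theorem crit_of_hyp (hq : 0 < q) (hr : 0 < r) (hD : T.X.deg D₀ = 105 * T.t * q) {s₀ s₁ : ℝ}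
    (h : χ.UpHyp L s₀) (h' : χ.LowHyp L s₀ s₁) (m : MonomialOrder (Fin 4)) :
    (χ.gradedL hL m).Crit s₀ s₁ := by
  obtain ⟨P₀⟩ := T.exists_pt
  refine ⟨⟨600000 * T.t * ((r * q : ℕ) : ℝ) ^ 2 * ((2 * L : ℕ) : ℝ), fun N hN => ?_⟩, ?_⟩
  · obtain ⟨G, h1, h2, C₀, h3⟩ := h N
    have e : ∀ j, (χ.gradedL hL m).ub N j = (G.gradedL h1 m).ub N j := by
      apply Graded.ub_congr
      · rfl
      · intro l j a b
        rw [gradedL_W, gradedL_W, h2]
    simp only [e]
    refine Graded.Phi_le_up (G := G.gradedL h1 m) (deg_smul' hD) P₀ (Nat.mul_pos hr hq)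
      (C₀ := C₀) ?_ hN
    filter_upwards [h3] with M hM
    rwa [gradedL_tot G h1 m P₀]
  · obtain ⟨C, h'⟩ := h'
    refine ⟨C, ?_⟩
    filter_upwards [h'] with N hN
    rwa [gradedL_tot χ hL m P₀]

/-- From rigidity of the graded filtration to rigidity of the filtration. -/
theorem Rigid.of_gradedL {m : MonomialOrder (Fin 4)} {al be ga de : ℤ}
    (h : (χ.gradedL hL m).RigidG al be ga de) : χ.Rigid m al be ga (de - L) := by
  obtain ⟨h1, C, h2⟩ := h
  have up : ∀ N : ℕ, 4 ≤ N → ∀ (l : ℤ) (j : ℤ) (a b : ℕ), InR (r * q) N j a b →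
      ini m (χ.F N l) (expo (r * q) N j a b) ≠ ⊥ → l ≤ lw al be ga (de - L) N j a b := by
    intro N hN l j a b hin hne
    by_cases hl : -((L : ℤ) * N) ≤ l
    · have e : (((l + L * N).toNat : ℕ) : ℤ) = l + L * N :=
        Int.toNat_of_nonneg (by linarith)
      have h3 := h1 N hN (l + L * N).toNat j a b hin (by
        rw [gradedL_W, e, add_sub_cancel_right]
        exact hne)
      rw [e] at h3
      unfold lw
      linarith
    · have h3 := h1 N hN 0 j a b hin (by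
        rw [gradedL_W]
        have e0 : ((0 : ℕ) : ℤ) - L * N = -(L * N) := by simp
        rw [e0, (hL N).1]
        rw [Bdd.F_of_le χ hL (by linarith)] at hne
        exact hne)
      unfold lw
      push_cast at h3
      push Not at hl
      linarith
  refine ⟨up, C, ?_⟩
  intro N hN
  refine le_trans (sum_le_sum fun j hj => sum_le_sum fun a ha => sum_le_sum fun b hb => ?_)
    (h2 N hN)
  obtain ⟨P₀⟩ := T.exists_pt
  have hj' : |j| ≤ 5 * (r * q : ℕ) * N := by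
    rw [mem_Icc] at hj
    rw [abs_le]
    push_cast at hj ⊢
    constructor
    · linarith [hj.1]
    · linarith [hj.2]
  have hin : InR (r * q) N j a b := (inR_iff hj').2
    ⟨Nat.lt_succ_iff.1 (mem_range.1 ha), Nat.lt_succ_iff.1 (mem_range.1 hb)⟩
  -- compare the two windows
  set f : ℤ → ℝ := fun l => (finrank ℂ (T.V (r * q) (r • D₀) N j) : ℝ) -
    finrank ℂ (ini m (χ.F N l) (expo (r * q) N j a b)) with hf
  have hV := T.ini_sec m hin (D₀ := r • D₀)
  have f0 : ∀ l, χ.F N l = T.sec q D₀ (r * N) → f l = 0 := by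
    intro l hl
    rw [hf]
    simp only
    rw [hl, ← T.sec_mul, hV, sub_self]
  have fnn : ∀ l, 0 ≤ f l := by
    intro l
    have : FiniteDimensional ℂ (T.V (r * q) (r • D₀) N j) := T.X.finite_L P₀ _
    have h3 : ini m (χ.F N l) (expo (r * q) N j a b) ≤ T.V (r * q) (r • D₀) N j := by
      rw [← hV]
      apply ini_mono
      rw [T.sec_mul]
      exact χ.le N l
    have h4 := Submodule.finrank_mono h3
    have h5 : (finrank ℂ (ini m (χ.F N l) (expo (r * q) N j a b)) : ℝ) ≤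
        finrank ℂ (T.V (r * q) (r • D₀) N j) := by exact_mod_cast h4
    rw [hf]
    simp only
    linarith
  have e1 : Ioc (0 : ℤ) (al * a + be * b + ga * j + de * N) =
      (Ioc (-((L : ℤ) * N)) (lw al be ga (de - L) N j a b)).map
        (addRightEmbedding ((L : ℤ) * N)) := by
    ext x
    simp only [Finset.mem_map, mem_Ioc, addRightEmbedding_apply]
    unfold lw
    constructor
    · intro hx
      exact ⟨x - L * N, ⟨by linarith [hx.1], by linarith [hx.2]⟩, by ring⟩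
    · rintro ⟨y, hy, rfl⟩
      exact ⟨by linarith [hy.1], by linarith [hy.2]⟩
  have e2 : ∑ l ∈ Ioc 0 (al * a + be * b + ga * j + de * N),
      ((finrank ℂ (T.V (r * q) (r • D₀) N j) : ℝ) -
        finrank ℂ ((χ.gradedL hL m).W N l.toNat j a b)) =
      ∑ l ∈ Ioc (-((L : ℤ) * N)) (lw al be ga (de - L) N j a b), f l := by
    rw [e1, sum_map]
    apply sum_congr rfl
    intro l hl
    rw [mem_Ioc] at hl
    have e : (((l + L * N).toNat : ℕ) : ℤ) = l + L * N :=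
      Int.toNat_of_nonneg (by linarith [hl.1])
    rw [addRightEmbedding_apply, gradedL_W, e, add_sub_cancel_right]
  rw [e2]
  have e3 : ∑ l ∈ Ioc (-((χ.lam : ℤ) * N)) (lw al be ga (de - L) N j a b), f l =
      ∑ l ∈ (Ioc (-((χ.lam : ℤ) * N)) (lw al be ga (de - L) N j a b)).filter
        (fun l => -((L : ℤ) * N) < l), f l := by
    symm
    apply sum_subset (filter_subset _ _)
    intro l hl hl'
    rw [mem_filter] at hl'
    push Not at hl'
    exact f0 l (Bdd.F_of_le χ hL (hl' hl))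
  rw [e3]
  apply sum_le_sum_of_subset_of_nonneg
  · intro l hl
    rw [mem_filter, mem_Ioc] at hl
    rw [mem_Ioc]
    exact ⟨hl.2, hl.1.2⟩
  · intro l _ _
    exact fnn l

end Filt

end Pool.Agent.YTD
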