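import Pool.Agent.YTD.SatL1

/-!
Consequences of the one-sided hypotheses; asymptotics of the dimensions.
-/

namespace Pool.Agent.YTD

open Finset Module MvPolynomial Filter

variable {K : Type} [Field K] [Algebra ℂ K]
variable {T : Datum K} {q : ℕ} {D₀ : T.X.Pt →₀ ℤ} {r : ℕ}

theorem mult_le {q N : ℕ} (hN : 1 ≤ q * N) (j : ℤ) : mult q N j ≤ 676 * ((q : ℝ) * N) ^ 2 := by
  have h1 : (1 : ℝ) ≤ q * N := by exact_mod_cast hN
  unfold mult
  nlinarith [sq_nonneg (j : ℝ)]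

theorem mult_sub_Wt {q N : ℕ} (hN : 1 ≤ q * N) {j : ℤ} (hj : |j| ≤ 5 * q * N) :
    mult q N j - Wt q N j ≤ 51 * ((q : ℝ) * N) +
      ((if j = ((5 * q * N : ℕ) : ℤ) then 251 * ((q : ℝ) * N) ^ 2 else 0) +
       (if j = -((5 * q * N : ℕ) : ℤ) then 251 * ((q : ℝ) * N) ^ 2 else 0)) := by
  have h1 : (1 : ℝ) ≤ q * N := by exact_mod_cast hN
  have p1 : (0 : ℝ) ≤ if j = ((5 * q * N : ℕ) : ℤ) then 251 * ((q : ℝ) * N) ^ 2 else 0 := by
    split_ifs <;> positivity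
  have p2 : (0 : ℝ) ≤ if j = -((5 * q * N : ℕ) : ℤ) then 251 * ((q : ℝ) * N) ^ 2 else 0 := by
    split_ifs <;> positivity
  by_cases h : |j| = 5 * q * N
  · rw [Wt_end h]
    have hj2 : (j : ℝ) ^ 2 = 25 * ((q : ℝ) * N) ^ 2 := by
      have : (j : ℝ) ^ 2 = ((|j| : ℤ) : ℝ) ^ 2 := by
        rw [Int.cast_abs, sq_abs]
      rw [this, h]
      push_cast
      ring
    have e : mult q N j = 625 * ((q : ℝ) * N) ^ 2 + 50 * (q * N) + 1 - 9 * (j : ℝ) ^ 2 := by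
      unfold mult
      ring
    rw [e, hj2]
    rcases abs_cases j with ⟨h2, _⟩ | ⟨h2, _⟩
    · have h3 : j = ((5 * q * N : ℕ) : ℤ) := by
        rw [← h2, h]
        push_cast
        ring
      rw [if_pos h3]
      nlinarith
    · have h3 : j = -((5 * q * N : ℕ) : ℤ) := by
        have : -j = 5 * q * N := by rw [← h2, h]
        push_cast
        linarith
      rw [if_pos h3]
      nlinarith
  · rw [Wt_mid h]
    have e : mult q N j = 625 * ((q : ℝ) * N) ^ 2 + 50 * (q * N) + 1 - 9 * (j : ℝ) ^ 2 := by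
      unfold mult
      ring
    rw [e]
    linarith

namespace Graded

variable {G : Graded T q D₀}

/-- upper bound for the total dimension. -/
theorem tot_le_Phi (hD : T.X.deg D₀ = 105 * T.t * q) (P₀ : T.X.Pt) (hq : 0 < q) :
    ∃ C : ℝ, ∀ N ≥ 4, G.tot N ≤
      ∑ j ∈ Icc (-((5 * q * N : ℕ) : ℤ)) ((5 * q * N : ℕ) : ℤ), Wt q N j * G.ub N j +
        C * N ^ 4 := by
  refine ⟨1063 * (q : ℝ) ^ 2 * (G.Λ * (105 * T.t * q)) +
    (18 * T.t + 1) * (7436 * (q : ℝ) ^ 3 * G.Λ), fun N hN => ?_⟩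
  have hqN : 1 ≤ q * N := Nat.mul_pos hq (by omega)
  have hqN' : (1 : ℝ) ≤ q * N := by exact_mod_cast hqN
  have hN1 : (1 : ℝ) ≤ N := by
    have : 1 ≤ N := by omega
    exact_mod_cast this
  refine (tot_le (G := G) hD P₀ hq hN).trans ?_
  set U : ℝ := G.Λ * N * (105 * T.t * q * N) with hU
  have hU0 : 0 ≤ U := by positivity
  set S := Icc (-((5 * q * N : ℕ) : ℤ)) ((5 * q * N : ℕ) : ℤ) with hS
  have hcard : ((S.card : ℕ) : ℝ) ≤ 11 * (q * N) := by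
    rw [hS, Int.card_Icc]
    have : (((5 * q * N : ℕ) : ℤ) + 1 - -((5 * q * N : ℕ) : ℤ)).toNat = 10 * (q * N) + 1 := by
      have e : ((5 * q * N : ℕ) : ℤ) = 5 * ((q * N : ℕ) : ℤ) := by push_cast; ring
      rw [e]
      omega
    rw [this]
    push_cast
    linarith
  -- the first sum
  have h1 : ∀ j ∈ S, mult q N j * (G.ub N j - 9 * T.t * G.nb N j) ≤ Wt q N j * G.ub N j +
      (51 * ((q : ℝ) * N) * U +
      ((if j = ((5 * q * N : ℕ) : ℤ) then 251 * ((q : ℝ) * N) ^ 2 * U else 0) +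
       (if j = -((5 * q * N : ℕ) : ℤ) then 251 * ((q : ℝ) * N) ^ 2 * U else 0))) := by
    intro j hj
    have hj' := mem_Icc_iff.1 hj
    have g1 := (mult_pos hj').le
    have g2 := nb_nonneg (G := G) hj'
    have g3 := ub_nonneg (G := G) hD hq hN hj'
    have g4 := ub_le (G := G) hD hq hN hj'
    have g5 := mult_sub_Wt hqN hj'
    have g6 : mult q N j * (G.ub N j - 9 * T.t * G.nb N j) ≤ mult q N j * G.ub N j := by
      apply mul_le_mul_of_nonneg_left _ g1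
      have : (0 : ℝ) ≤ 9 * T.t * G.nb N j := by positivity
      linarith
    have g7 : (mult q N j - Wt q N j) * G.ub N j ≤ (51 * ((q : ℝ) * N) +
      ((if j = ((5 * q * N : ℕ) : ℤ) then 251 * ((q : ℝ) * N) ^ 2 else 0) +
       (if j = -((5 * q * N : ℕ) : ℤ) then 251 * ((q : ℝ) * N) ^ 2 else 0))) * U := by
      refine (mul_le_mul_of_nonneg_right g5 g3).trans ?_
      apply mul_le_mul_of_nonneg_left g4
      have p1 : (0 : ℝ) ≤ if j = ((5 * q * N : ℕ) : ℤ) then 251 * ((q : ℝ) * N) ^ 2 else 0 := by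
        split_ifs <;> positivity
      have p2 : (0 : ℝ) ≤ if j = -((5 * q * N : ℕ) : ℤ) then 251 * ((q : ℝ) * N) ^ 2 else 0 := by
        split_ifs <;> positivity
      positivity
    have g8 : (51 * ((q : ℝ) * N) +
      ((if j = ((5 * q * N : ℕ) : ℤ) then 251 * ((q : ℝ) * N) ^ 2 else 0) +
       (if j = -((5 * q * N : ℕ) : ℤ) then 251 * ((q : ℝ) * N) ^ 2 else 0))) * U =
      (51 * ((q : ℝ) * N) * U +
      ((if j = ((5 * q * N : ℕ) : ℤ) then 251 * ((q : ℝ) * N) ^ 2 * U else 0) +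
       (if j = -((5 * q * N : ℕ) : ℤ) then 251 * ((q : ℝ) * N) ^ 2 * U else 0))) := by
      rw [add_mul, add_mul, ite_mul, ite_mul, zero_mul]
    rw [g8] at g7
    linarith
  have hmem1 : ((5 * q * N : ℕ) : ℤ) ∈ S := by
    rw [hS, mem_Icc]
    constructor
    · have : (0 : ℤ) ≤ ((5 * q * N : ℕ) : ℤ) := by positivity
      linarith
    · exact le_rfl
  have hmem2 : -((5 * q * N : ℕ) : ℤ) ∈ S := by
    rw [hS, mem_Icc]
    constructor
    · exact le_rfl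
    · have : (0 : ℤ) ≤ ((5 * q * N : ℕ) : ℤ) := by positivity
      linarith
  have h2 := sum_le_sum h1
  rw [sum_add_distrib, sum_add_distrib, sum_add_distrib, sum_ite_eq', sum_ite_eq', if_pos hmem1,
    if_pos hmem2, sum_const, nsmul_eq_mul] at h2
  have h3 : ((S.card : ℕ) : ℝ) * (51 * ((q : ℝ) * N) * U) ≤ 11 * (q * N) * (51 * (q * N) * U) :=
    mul_le_mul_of_nonneg_right hcard (by positivity)
  -- the second sum
  have h4 : G.Z N ≤ 11 * (q * N) * (676 * ((q : ℝ) * N) ^ 2 * (G.Λ * N)) := by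
    unfold Z
    refine le_trans (sum_le_sum (g := fun _ => 676 * ((q : ℝ) * N) ^ 2 * (G.Λ * N)) ?_) ?_
    · intro j hj
      have hj' := mem_Icc_iff.1 hj
      have g1 := nb_le (G := G) hj'
      have g2 := nb'_nonneg (G := G) hj'
      have g3 := nb'_le_nb (G := G) hj'
      have g4 := mult_le hqN j
      calc mult q N j * (G.nb N j - G.nb' N j) ≤ (676 * ((q : ℝ) * N) ^ 2) *
            (G.nb N j - G.nb' N j) := mul_le_mul_of_nonneg_right g4 (by linarith)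
        _ ≤ (676 * ((q : ℝ) * N) ^ 2) * (G.Λ * N) :=
            mul_le_mul_of_nonneg_left (by linarith) (by positivity)
    · rw [sum_const, nsmul_eq_mul]
      exact mul_le_mul_of_nonneg_right hcard (by positivity)
  have h5 : (18 * (T.t : ℝ) + 1) * G.Z N ≤
      (18 * T.t + 1) * (11 * (q * N) * (676 * ((q : ℝ) * N) ^ 2 * (G.Λ * N))) :=
    mul_le_mul_of_nonneg_left h4 (by positivity)
  have e1 : 11 * ((q : ℝ) * N) * (51 * (q * N) * U) + (251 * ((q : ℝ) * N) ^ 2 * U +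
      251 * ((q : ℝ) * N) ^ 2 * U) = 1063 * (q : ℝ) ^ 2 * (G.Λ * (105 * T.t * q)) * N ^ 4 := by
    rw [hU]
    ring
  have e2 : (18 * (T.t : ℝ) + 1) * (11 * (q * N) * (676 * ((q : ℝ) * N) ^ 2 * (G.Λ * N))) =
      (18 * T.t + 1) * (7436 * (q : ℝ) ^ 3 * G.Λ) * N ^ 4 := by ring
  rw [e2] at h5
  have e3 : (1063 * (q : ℝ) ^ 2 * (G.Λ * (105 * T.t * q)) +
    (18 * T.t + 1) * (7436 * (q : ℝ) ^ 3 * G.Λ)) * N ^ 4 =
    1063 * (q : ℝ) ^ 2 * (G.Λ * (105 * T.t * q)) * N ^ 4 +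
    (18 * T.t + 1) * (7436 * (q : ℝ) ^ 3 * G.Λ) * N ^ 4 := by ring
  rw [e3, ← e1]
  linarith

theorem Crit.tot_le (hD : T.X.deg D₀ = 105 * T.t * q) (P₀ : T.X.Pt) (hq : 0 < q) {s₀ s₁ : ℝ}
    (hS : G.Crit s₀ s₁) : ∃ C : ℝ, ∀ N ≥ 4, G.tot N ≤ s₀ * N ^ 5 + C * N ^ 4 := by
  obtain ⟨⟨C₀, hC₀⟩, -⟩ := hS
  obtain ⟨C, hC⟩ := tot_le_Phi (G := G) hD P₀ hq
  refine ⟨|C₀| + C, fun N hN => ?_⟩
  have h1 := hC₀ N hN
  have h2 := hC N hN
  have hN1 : (1 : ℝ) ≤ N := by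
    have : 1 ≤ N := by omega
    exact_mod_cast this
  have h3 : C₀ * (N : ℝ) ^ 3 ≤ |C₀| * N ^ 4 := by
    calc C₀ * (N : ℝ) ^ 3 ≤ |C₀| * N ^ 3 := mul_le_mul_of_nonneg_right (le_abs_self _) (by positivity)
      _ ≤ |C₀| * N ^ 4 := mul_le_mul_of_nonneg_left
          (pow_le_pow_right₀ hN1 (by norm_num)) (abs_nonneg _)
  linarith

end Graded

/-- The dimensions of the spaces of sections at the critical slope. -/
theorem dim_sec_asymp (hq : 0 < q) (hr : 0 < r) (hD : T.X.deg D₀ = 105 * T.t * q) :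
    ∃ C : ℝ, ∀ᶠ N : ℕ in atTop, |(finrank ℂ (T.sec q D₀ (r * N)) : ℝ) -
      (534650 * T.t * ((r * q : ℕ) : ℝ) ^ 4) * N ^ 4| ≤ C * N ^ 2 := by
  refine ⟨5625 * T.t * (q : ℝ) ^ 2 * r ^ 2 + 400 * T.t * q * r + 9 * T.t, ?_⟩
  have ht := T.t_pos
  have hlt : 100 * (T.t : ℤ) * q < T.X.deg D₀ := by
    rw [hD]
    have h1 : (1 : ℤ) ≤ T.t := by exact_mod_cast ht
    have h2 : (1 : ℤ) ≤ q := by exact_mod_cast hq
    nlinarith
  filter_upwards [eventually_ge_atTop (18 * T.t + 1)] with N h2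
  have hN1 : (1 : ℝ) ≤ N := by
    have : 1 ≤ N := by omega
    exact_mod_cast this
  have h3 : 18 * T.t + 1 ≤ r * N := h2.trans (Nat.le_mul_of_pos_left N hr)
  have h4 := finrank_sec (T := T) (large_of_lt hlt h3)
  have e : ((T.X.deg D₀ : ℤ) : ℝ) = 105 * T.t * q := by rw [hD]; push_cast; ring
  rw [h4, e]
  have h6 : ca0 q T.t (105 * T.t * q) * ((r * N : ℕ) : ℝ) ^ 4 + ca1 q T.t (105 * T.t * q) * ((r * N : ℕ) : ℝ) ^ 3 +
        (((-10350) * (q : ℝ) ^ 2 * T.t + 45 * q * (105 * T.t * q)) * ((r * N : ℕ) : ℝ) ^ 2 +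
        ((-505) * (q : ℝ) * T.t + 1 * (105 * T.t * q)) * ((r * N : ℕ) : ℝ) ^ 1 +
        ((-9) * (T.t : ℝ)) * ((r * N : ℕ) : ℝ) ^ 0) -
      (534650 * T.t * ((r * q : ℕ) : ℝ) ^ 4) * N ^ 4 =
      -(5625 * q ^ 2 * T.t * r ^ 2 * N ^ 2 + 400 * q * T.t * r * N + 9 * T.t) := by
    unfold ca0 ca1
    push_cast
    ring
  rw [h6, abs_neg]
  have h7 : (0 : ℝ) ≤ 5625 * q ^ 2 * T.t * r ^ 2 * N ^ 2 + 400 * q * T.t * r * N + 9 * T.t := by
    positivity
  rw [abs_of_nonneg h7]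
  have hN2 : (N : ℝ) ≤ N ^ 2 := by nlinarith
  have hN3 : (1 : ℝ) ≤ N ^ 2 := by nlinarith
  have h8 : 400 * (q : ℝ) * T.t * r * N ≤ 400 * q * T.t * r * N ^ 2 :=
    mul_le_mul_of_nonneg_left hN2 (by positivity)
  have h9 : 9 * (T.t : ℝ) ≤ 9 * T.t * N ^ 2 := by
    have : (0 : ℝ) ≤ 9 * T.t := by positivity
    nlinarith
  nlinarith

end Pool.Agent.YTD
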