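import Pool.Agent.YTD.SatL2
import Pool.Agent.YTD.SatH3
import Pool.Agent.YTD.SatF3
import Pool.Agent.YTD.SatI3

/-!
The traces of the filtrations of the section rings of the quotients as sums of dimensions.
-/

namespace Pool.Agent.YTD

open Finset Module MvPolynomial Filter

/-! ### Abel summation -/

/-- first moments -/
theorem abel_sum (h : ℤ → ℝ) (M : ℕ) (h1 : ∀ l, (M : ℤ) < l → h l = 0) :
    ∑ l ∈ Icc (-(M : ℤ)) M, (h l - h (l + 1)) = h (-M) ∧
    ∑ l ∈ Icc (-(M : ℤ)) M, (l : ℝ) * (h l - h (l + 1)) =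
      ∑ l ∈ Ioc (-(M : ℤ)) M, h l - M * h (-M) := by
  have key : ∀ (c : ℤ) (m : ℕ), ∑ i ∈ range (m + 1),
      (((i : ℤ) - c : ℤ) : ℝ) * (h ((i : ℤ) - c) - h ((i : ℤ) - c + 1)) =
      ∑ i ∈ range m, h ((i : ℤ) + 1 - c) - c * h (-c) - ((m : ℝ) - c) * h ((m : ℤ) - c + 1) := by
    intro c m
    induction m with
    | zero =>
      simp
      ring
    | succ M ih =>
      rw [sum_range_succ, ih, sum_range_succ]
      push_cast
      have e1 : (M : ℤ) + 1 - c = (M : ℤ) - c + 1 := by ring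
      rw [e1]
      ring
  have key0 : ∀ (c : ℤ) (m : ℕ), ∑ i ∈ range (m + 1),
      (h ((i : ℤ) - c) - h ((i : ℤ) - c + 1)) = h (-c) - h ((m : ℤ) - c + 1) := by
    intro c m
    induction m with
    | zero => simp
    | succ M ih =>
      rw [sum_range_succ, ih]
      push_cast
      have e1 : (M : ℤ) + 1 - c = (M : ℤ) - c + 1 := by ring
      rw [e1]
      ring
  constructor
  · rw [← sum_range_eq_Icc M (fun l => h l - h (l + 1)), key0]
    rw [h1 (((2 * M : ℕ) : ℤ) - M + 1) (by push_cast; linarith), sub_zero]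
  · rw [← sum_range_eq_Icc M (fun l => (l : ℝ) * (h l - h (l + 1))), key,
      ← Filt.sum_range_eq_Ioc M h]
    rw [h1 (((2 * M : ℕ) : ℤ) - M + 1) (by push_cast; linarith)]
    push_cast
    ring

/-- the moments as finite sums -/
theorem finsum_eq_Icc (h : ℤ → ℝ) (M : ℕ) (h0 : ∀ l, l ≤ -(M : ℤ) → h l = h (-M))
    (h1 : ∀ l, (M : ℤ) < l → h l = 0) (p : ℕ) :
    ∑ᶠ l : ℤ, (l : ℝ) ^ p * (h l - h (l + 1)) =
      ∑ l ∈ Icc (-(M : ℤ)) M, (l : ℝ) ^ p * (h l - h (l + 1)) := by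
  apply finsum_eq_sum_of_support_subset
  intro l hl
  rw [Function.mem_support] at hl
  rw [Finset.coe_Icc, Set.mem_Icc]
  constructor
  · by_contra h2
    apply hl
    rw [h0 l (by linarith), h0 (l + 1) (by omega), sub_self, mul_zero]
  · by_contra h2
    apply hl
    rw [h1 l (by linarith), h1 (l + 1) (by linarith), sub_self, mul_zero]

variable {K : Type} [Field K] [Algebra ℂ K]
variable {T : Datum K} {q : ℕ} {D₀ : T.X.Pt →₀ ℤ} {r : ℕ}

namespace QFilt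

variable {γ : Gam T} (χ : QFilt γ q D₀ r)

/-- the total dimension in the window given by `L`. -/
noncomputable def totL (L : ℕ) (N : ℕ) : ℝ :=
  ∑ l ∈ Ioc (-((L * N : ℕ) : ℤ)) ((L * N : ℕ) : ℤ), (finrank ℂ (χ.F N l) : ℝ)

/-- `L` is a bound for the filtration. -/
def Bdd (L : ℕ) : Prop :=
  ∀ N : ℕ, χ.F N (-(L * N)) = γ.secQ q D₀ (r * N) ∧ χ.F N (L * N + 1) = ⊥

variable {L : ℕ} (hL : χ.Bdd L)

include hL in
theorem Bdd.F_of_le {N : ℕ} {l : ℤ} (h : l ≤ -(((L * N : ℕ)) : ℤ)) :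
    χ.F N l = γ.secQ q D₀ (r * N) := by
  apply le_antisymm (χ.le N l)
  rw [← (hL N).1]
  exact χ.anti N _ _ (by push_cast at h; exact h)

include hL in
theorem Bdd.F_of_gt {N : ℕ} {l : ℤ} (h : ((L * N : ℕ) : ℤ) < l) : χ.F N l = ⊥ := by
  rw [eq_bot_iff, ← (hL N).2]
  exact χ.anti N _ _ (by push_cast at h; linarith)

include hL in
theorem Bdd.tr_eq (p N : ℕ) : χ.tr p N =
    ∑ l ∈ Icc (-((L * N : ℕ) : ℤ)) ((L * N : ℕ) : ℤ), (l : ℝ) ^ p * χ.wt N l := by
  unfold tr wt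
  apply finsum_eq_Icc (fun l => (finrank ℂ (χ.F N l) : ℝ))
  · intro l hl
    rw [Bdd.F_of_le χ hL hl, Bdd.F_of_le χ hL le_rfl]
  · intro l hl
    rw [Bdd.F_of_gt χ hL hl, finrank_bot, Nat.cast_zero]

include hL in
theorem Bdd.dimN_eq (N : ℕ) : χ.dimN N =
    ∑ l ∈ Icc (-((L * N : ℕ) : ℤ)) ((L * N : ℕ) : ℤ), χ.wt N l := by
  unfold wt
  rw [(abel_sum (fun l => (finrank ℂ (χ.F N l) : ℝ)) (L * N) (fun l hl => by
    rw [Bdd.F_of_gt χ hL hl, finrank_bot, Nat.cast_zero])).1, Bdd.F_of_le χ hL le_rfl]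
  rfl

include hL in
theorem Bdd.tr_one (N : ℕ) : χ.tr 1 N = χ.totL L N - L * N * χ.dimN N := by
  rw [Bdd.tr_eq χ hL]
  simp only [pow_one]
  unfold wt
  rw [(abel_sum (fun l => (finrank ℂ (χ.F N l) : ℝ)) (L * N) (fun l hl => by
    rw [Bdd.F_of_gt χ hL hl, finrank_bot, Nat.cast_zero])).2, Bdd.F_of_le χ hL le_rfl]
  unfold totL dimN
  push_cast
  ring

theorem finite_F' (N : ℕ) (l : ℤ) : FiniteDimensional ℂ (χ.F N l) := by
  obtain ⟨P₀⟩ := T.exists_pt
  have := T.finite_sec P₀ q D₀ (r * N)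
  exact Submodule.finiteDimensional_of_le ((χ.le N l).trans (γ.secQ_le q D₀ (r * N)))

theorem wt_nonneg (N : ℕ) (l : ℤ) : 0 ≤ χ.wt N l := by
  have := χ.finite_F' N l
  have h := Submodule.finrank_mono (χ.anti N l (l + 1) (by linarith))
  unfold wt
  have h' : (finrank ℂ (χ.F N (l + 1)) : ℝ) ≤ finrank ℂ (χ.F N l) := by exact_mod_cast h
  linarith

include hL in
/-- expansion of the total dimension -/
theorem Bdd.tot_exp {a₀ a₁ b₀ b₁ c₀ : ℝ} (h : χ.Expansion a₀ a₁ b₀ b₁ c₀) :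
    ∃ C : ℝ, ∀ᶠ N : ℕ in atTop, |χ.totL L N - ((b₀ + L * a₀) * N ^ 5 + (b₁ + L * a₁) * N ^ 4)| ≤
      C * N ^ 3 := by
  obtain ⟨⟨C₁, h1⟩, ⟨C₂, h2⟩, _⟩ := h
  refine ⟨C₂ + L * C₁, ?_⟩
  filter_upwards [h1, h2] with N g1 g2
  have e := Bdd.tr_one χ hL N
  have hlam : (0 : ℝ) ≤ L * N := by positivity
  have g3 : |(L : ℝ) * N * χ.dimN N - L * N * (a₀ * N ^ 4 + a₁ * N ^ 3)| ≤
      L * N * (C₁ * N ^ 2) := by
    rw [← mul_sub, abs_mul, abs_of_nonneg hlam]
    exact mul_le_mul_of_nonneg_left g1 hlam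
  rw [abs_le] at g2 g3 ⊢
  rw [e] at g2
  constructor <;> nlinarith [g2.1, g2.2, g3.1, g3.2]

/-! ### `K`-dimensions -/

theorem finite_KB (N : ℕ) (l : ℤ) : FiniteDimensional K (χ.KB N l) := by
  classical
  have hfin : ((fun i => monomial (uexpo q (r * N) i) (1 : K)) ''
      (idx q (r * N) : Set _)).Finite := (idx q (r * N)).finite_toSet.image _
  have : FiniteDimensional K (Submodule.span K
    ((fun i => monomial (uexpo q (r * N) i) (1 : K)) '' (idx q (r * N) : Set _))) :=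
    FiniteDimensional.span_of_finite K hfin
  exact Submodule.finiteDimensional_of_le (χ.KB_le N l)

include hL in
theorem Bdd.kdim_le {e : MvPolynomial (Fin 4) K} (he : e ∈ γ.secQ q D₀ r) (he0 : e ≠ 0)
    {N : ℕ} (hN : 1 ≤ N) (l : ℤ) :
    CurveOrd.kdim K (χ.F (N - 1) (l + L)) ≤ CurveOrd.kdim K (χ.F N l) := by
  have he' : e ∈ χ.F 1 (-(L : ℤ)) := by
    have h := (hL 1).1
    rw [Nat.cast_one, mul_one, mul_one] at h
    rw [h]
    exact he
  have hinj : Function.Injective (LinearMap.mulLeft K e) := by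
    intro x y hxy
    exact mul_left_cancel₀ he0 hxy
  have := χ.finite_KB N l
  have h1 : finrank K ((χ.KB (N - 1) (l + L)).map (LinearMap.mulLeft K e)) =
      finrank K (χ.KB (N - 1) (l + L)) :=
    (LinearEquiv.finrank_eq (Submodule.equivMapOfInjective _ hinj _)).symm
  have h2 : (χ.KB (N - 1) (l + L)).map (LinearMap.mulLeft K e) ≤ χ.KB N l := by
    rintro _ ⟨x, hx, rfl⟩
    have h3 := χ.KB_mul 1 (N - 1) (-(L : ℤ)) (l + L) e (Submodule.subset_span he') x hx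
    have e1 : 1 + (N - 1) = N := by omega
    have e2 : -(L : ℤ) + (l + L) = l := by ring
    rw [e1, e2] at h3
    exact h3
  have h3 := Submodule.finrank_mono h2
  rw [h1] at h3
  exact h3

end QFilt

end Pool.Agent.YTD
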