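import Pool.Agent.YTD.SatL3
import Pool.Agent.YTD.SatG
import Pool.Agent.YTD.SatI4

/-!
The one-sided hypotheses on the total dimension for the saturated filtration.
-/

namespace Pool.Agent.YTD

open Finset Module MvPolynomial Filter

variable {K : Type} [Field K] [Algebra ℂ K]
variable {T : Datum K} {q : ℕ} {D₀ : T.X.Pt →₀ ℤ} {r : ℕ}

variable {γ : Gam T} {L : ℕ}

/-- the sum of the bounds for the first cohomology -/
theorem QTestConf.sum_h (χ : QTestConf γ q D₀ r) (hfix : γ.Fixes D₀)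
    (hD : T.X.deg D₀ = 105 * T.t * q) (hq : 0 < q) (hr : 8 ≤ r) (hL : χ.toQFilt.Bdd L) :
    ∃ C : ℝ, ∀ N : ℕ, 1 ≤ N → ∑ l ∈ Ioc (-((L * N : ℕ) : ℤ)) ((L * N : ℕ) : ℤ),
      ((T.X.genus * (CurveOrd.kdim K (χ.F N l) -
        CurveOrd.kdim K (χ.F (N - 1) (l + L))) : ℕ) : ℝ) ≤ C * (N : ℝ) ^ 3 := by
  obtain ⟨C, hC⟩ := χ.hilb hfix hD hq hr hL
  obtain ⟨e, he, he0⟩ := γ.exists_secQ_ne_zero hfix hD hq hr
  refine ⟨T.X.genus * C, fun N hN => ?_⟩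
  have h1 := hC N hN
  have hk : ∀ l : ℤ, CurveOrd.kdim K (χ.F (N - 1) (l + L)) ≤ CurveOrd.kdim K (χ.F N l) :=
    fun l => QFilt.Bdd.kdim_le χ.toQFilt hL he he0 hN l
  have h2 : ∀ l : ℤ, ((T.X.genus * (CurveOrd.kdim K (χ.F N l) -
      CurveOrd.kdim K (χ.F (N - 1) (l + L))) : ℕ) : ℝ) = T.X.genus *
      ((CurveOrd.kdim K (χ.F N l) : ℝ) - CurveOrd.kdim K (χ.F (N - 1) (l + L))) := by
    intro l
    rw [Nat.cast_mul, Nat.cast_sub (hk l)]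
  rw [sum_congr rfl (fun l _ => h2 l), ← mul_sum, sum_sub_distrib, mul_assoc]
  apply mul_le_mul_of_nonneg_left _ (by positivity)
  have h3 : ∑ l ∈ Ioc (-((L * (N - 1) : ℕ) : ℤ)) ((L * (N - 1) : ℕ) : ℤ),
      (CurveOrd.kdim K (χ.F (N - 1) l) : ℝ) ≤
      ∑ l ∈ Ioc (-((L * N : ℕ) : ℤ)) ((L * N : ℕ) : ℤ),
        (CurveOrd.kdim K (χ.F (N - 1) (l + L)) : ℝ) := by
    have e1 : ∑ l ∈ Ioc (-((L * N : ℕ) : ℤ)) ((L * N : ℕ) : ℤ),
        (CurveOrd.kdim K (χ.F (N - 1) (l + L)) : ℝ) =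
        ∑ l ∈ (Ioc (-((L * N : ℕ) : ℤ)) ((L * N : ℕ) : ℤ)).map (addRightEmbedding (L : ℤ)),
          (CurveOrd.kdim K (χ.F (N - 1) l) : ℝ) := by
      rw [sum_map]
      rfl
    rw [e1]
    apply sum_le_sum_of_subset_of_nonneg
    · intro l hl
      rw [mem_Ioc] at hl
      rw [Finset.mem_map]
      refine ⟨l - L, ?_, by rw [addRightEmbedding_apply]; ring⟩
      rw [mem_Ioc]
      obtain ⟨N', rfl⟩ : ∃ N', N = N' + 1 := ⟨N - 1, by omega⟩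
      rw [Nat.add_sub_cancel] at hl
      push_cast at hl ⊢
      constructor
      · linarith [hl.1]
      · have : (0 : ℤ) ≤ L := by positivity
        linarith [hl.2]
    · intro _ _ _
      positivity
  linarith

/-- the total dimension of the saturated filtration -/
theorem QTestConf.tot_le_sat (χ : QTestConf γ q D₀ r) (hfix : γ.Fixes D₀)
    (hD : T.X.deg D₀ = 105 * T.t * q) (hq : 0 < q) (hr : 8 ≤ r) (hL : χ.toQFilt.Bdd L) :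
    ∃ C : ℝ, ∀ N : ℕ, 1 ≤ N →
      8 * χ.toQFilt.totL L N ≤ (χ.toQFilt.sat hfix hD hq hr).totL L N + C * (N : ℝ) ^ 3 := by
  obtain ⟨C, hC⟩ := χ.sum_h hfix hD hq hr hL
  refine ⟨7 * C, fun N hN => ?_⟩
  have h1 := hC N hN
  have h2 : ∀ l : ℤ, 8 * (finrank ℂ (χ.F N l) : ℝ) ≤
      (finrank ℂ ((χ.toQFilt.sat hfix hD hq hr).F N l) : ℝ) +
      7 * ((T.X.genus * (CurveOrd.kdim K (χ.F N l) -
        CurveOrd.kdim K (χ.F (N - 1) (l + L))) : ℕ) : ℝ) := by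
    intro l
    have g1 := γ.finrank_satD hfix (χ.F N l) (χ.le N l)
      (χ.toQFilt.bd_level hfix hD hq hr hL hN l)
    obtain ⟨P₀⟩ := T.exists_pt
    have g2 := T.finite_sec P₀ q D₀ (r * N)
    have g3 : FiniteDimensional ℂ (T.X.satD 0 (χ.F N l) ⊓ γ.secQ q D₀ (r * N) :
        Submodule ℂ (MvPolynomial (Fin 4) K)) :=
      Submodule.finiteDimensional_of_le (inf_le_right.trans (γ.secQ_le q D₀ (r * N)))
    have g4 := Submodule.finrank_mono (le_inf (T.X.le_satD (χ.F N l)) (χ.le N l))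
    have g5 : (χ.toQFilt.sat hfix hD hq hr).F N l = T.X.satD 0 (χ.F N l) := rfl
    rw [g5]
    have g6 : 8 * finrank ℂ (χ.F N l) ≤ finrank ℂ (T.X.satD 0 (χ.F N l)) +
        7 * (T.X.genus * (CurveOrd.kdim K (χ.F N l) -
        CurveOrd.kdim K (χ.F (N - 1) (l + L)))) :=
      (Nat.mul_le_mul_left 8 g4).trans g1.1
    exact_mod_cast g6
  have h3 := sum_le_sum (s := Ioc (-((L * N : ℕ) : ℤ)) ((L * N : ℕ) : ℤ)) (fun l _ => h2 l)
  rw [← mul_sum, sum_add_distrib, ← mul_sum] at h3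
  unfold QFilt.totL Filt.totL
  linarith

/-- the lower half of the one-sided hypotheses -/
theorem QTestConf.lowHyp (χ : QTestConf γ q D₀ r) (hfix : γ.Fixes D₀)
    (hD : T.X.deg D₀ = 105 * T.t * q) (hq : 0 < q) (hr : 8 ≤ r) (hL : χ.toQFilt.Bdd L)
    {a₀ a₁ b₀ b₁ c₀ : ℝ} (hE : χ.Expansion a₀ a₁ b₀ b₁ c₀) :
    (χ.toQFilt.sat hfix hD hq hr).LowHyp L (8 * (b₀ + L * a₀)) (8 * (b₁ + L * a₁)) := by
  obtain ⟨C, hC⟩ := χ.tot_le_sat hfix hD hq hr hL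
  obtain ⟨C', hC'⟩ := QFilt.Bdd.tot_exp χ.toQFilt hL hE
  refine ⟨8 * C' + C, ?_⟩
  filter_upwards [hC', eventually_ge_atTop 1] with N g1 g2
  have g3 := hC N g2
  have g4 := (abs_le.1 g1).1
  nlinarith

/-- the upper half of the one-sided hypotheses -/
theorem QTestConf.upHyp (χ : QTestConf γ q D₀ r) (hfix : γ.Fixes D₀)
    (hD : T.X.deg D₀ = 105 * T.t * q) (hq : 0 < q) (hr : 8 ≤ r) (hL : χ.toQFilt.Bdd L)
    {a₀ a₁ b₀ b₁ c₀ : ℝ} (hE : χ.Expansion a₀ a₁ b₀ b₁ c₀) :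
    (χ.toQFilt.sat hfix hD hq hr).UpHyp L (8 * (b₀ + L * a₀)) := by
  intro N
  obtain ⟨G, h1, h2, c, h3⟩ := χ.toQFilt.exists_level' hfix hD hq hr hL N
  refine ⟨G, h2, h1, ?_⟩
  obtain ⟨C', hC'⟩ := QFilt.Bdd.tot_exp χ.toQFilt hL hE
  set s₀ : ℝ := b₀ + L * a₀
  set s₁ : ℝ := b₁ + L * a₁
  have h4 : ∀ M : ℕ, G.totL L M ≤ 8 * χ.toQFilt.totL L (M + c) := by
    intro M
    unfold Filt.totL QFilt.totL
    rw [mul_sum]
    have g1 : ∑ l ∈ Ioc (-((L * M : ℕ) : ℤ)) ((L * M : ℕ) : ℤ), (finrank ℂ (G.F M l) : ℝ) ≤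
        ∑ l ∈ Ioc (-((L * M : ℕ) : ℤ)) ((L * M : ℕ) : ℤ),
          8 * (finrank ℂ (χ.F (M + c) (l - L * c)) : ℝ) :=
      sum_le_sum fun l _ => by exact_mod_cast h3 M l
    refine g1.trans ?_
    have e1 : ∑ l ∈ Ioc (-((L * M : ℕ) : ℤ)) ((L * M : ℕ) : ℤ),
        8 * (finrank ℂ (χ.F (M + c) (l - L * c)) : ℝ) =
        ∑ l ∈ (Ioc (-((L * M : ℕ) : ℤ)) ((L * M : ℕ) : ℤ)).map
          (addRightEmbedding (-(L * c : ℤ))), 8 * (finrank ℂ (χ.F (M + c) l) : ℝ) := by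
      rw [sum_map]
      rfl
    rw [e1]
    apply sum_le_sum_of_subset_of_nonneg
    · intro l hl
      rw [Finset.mem_map] at hl
      obtain ⟨l', hl', rfl⟩ := hl
      rw [mem_Ioc] at hl'
      rw [addRightEmbedding_apply, mem_Ioc]
      have g2 : (0 : ℤ) ≤ L * c := by positivity
      push_cast at hl' ⊢
      constructor
      · linarith [hl'.1]
      · linarith [hl'.2]
    · intro _ _ _
      positivity
  -- the polynomial estimate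
  have hev := (tendsto_add_atTop_nat c).eventually hC'
  refine ⟨8 * (|s₀| * (31 * (1 + c) ^ 5) + (|s₁| + |C'|) * (1 + c) ^ 4), ?_⟩
  filter_upwards [hev, eventually_ge_atTop 1] with M g1 g2
  have g3 := h4 M
  have g4 := (abs_le.1 g1).2
  have hM : (1 : ℝ) ≤ M := by exact_mod_cast g2
  have hc : (0 : ℝ) ≤ c := by positivity
  have p1 : ((M + c : ℕ) : ℝ) ≤ M * (1 + c) := by
    push_cast
    nlinarith
  have p0 : (0 : ℝ) ≤ ((M + c : ℕ) : ℝ) := by positivity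
  have q1 : s₁ * ((M + c : ℕ) : ℝ) ^ 4 ≤ |s₁| * (1 + c) ^ 4 * M ^ 4 := by
    calc s₁ * ((M + c : ℕ) : ℝ) ^ 4 ≤ |s₁| * ((M + c : ℕ) : ℝ) ^ 4 :=
          mul_le_mul_of_nonneg_right (le_abs_self _) (by positivity)
      _ ≤ |s₁| * (M * (1 + c)) ^ 4 := mul_le_mul_of_nonneg_left
          (pow_le_pow_left₀ p0 p1 4) (abs_nonneg _)
      _ = _ := by ring
  have q2 : C' * ((M + c : ℕ) : ℝ) ^ 3 ≤ |C'| * (1 + c) ^ 4 * M ^ 4 := by
    have hc1 : (1 : ℝ) ≤ 1 + c := by linarith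
    calc C' * ((M + c : ℕ) : ℝ) ^ 3 ≤ |C'| * ((M + c : ℕ) : ℝ) ^ 3 :=
          mul_le_mul_of_nonneg_right (le_abs_self _) (by positivity)
      _ ≤ |C'| * (M * (1 + c)) ^ 3 := mul_le_mul_of_nonneg_left
          (pow_le_pow_left₀ p0 p1 3) (abs_nonneg _)
      _ ≤ |C'| * (M * (1 + c)) ^ 4 := mul_le_mul_of_nonneg_left
          (pow_le_pow_right₀ (by nlinarith) (by norm_num)) (abs_nonneg _)
      _ = _ := by ring
  have q3 : s₀ * ((M + c : ℕ) : ℝ) ^ 5 ≤ s₀ * M ^ 5 + |s₀| * (31 * (1 + c) ^ 5) * M ^ 4 := by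
    have e2 : ((M + c : ℕ) : ℝ) ^ 5 - M ^ 5 ≤ 31 * (1 + c) ^ 5 * M ^ 4 := by
      have e3 : ((M + c : ℕ) : ℝ) ^ 5 - M ^ 5 = c * (5 * M ^ 4 + 10 * M ^ 3 * c + 10 * M ^ 2 * c ^ 2 +
          5 * M * c ^ 3 + c ^ 4) := by
        push_cast
        ring
      rw [e3]
      have m3 : (M : ℝ) ^ 3 ≤ M ^ 4 := pow_le_pow_right₀ hM (by norm_num)
      have m2 : (M : ℝ) ^ 2 ≤ M ^ 4 := pow_le_pow_right₀ hM (by norm_num)
      have m1 : (M : ℝ) ≤ M ^ 4 := by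
        calc (M : ℝ) = M ^ 1 := (pow_one _).symm
          _ ≤ M ^ 4 := pow_le_pow_right₀ hM (by norm_num)
      have m0 : (1 : ℝ) ≤ M ^ 4 := one_le_pow₀ hM
      have n4 : (1 : ℝ) ≤ (1 + c) ^ 4 := one_le_pow₀ (by linarith)
      have n1 : (c : ℝ) ≤ (1 + c) ^ 4 := by
        calc (c : ℝ) ≤ 1 + c := by linarith
          _ = (1 + c) ^ 1 := (pow_one _).symm
          _ ≤ (1 + c) ^ 4 := pow_le_pow_right₀ (by linarith) (by norm_num)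
      have n2 : (c : ℝ) ^ 2 ≤ (1 + c) ^ 4 := by
        calc (c : ℝ) ^ 2 ≤ (1 + c) ^ 2 := pow_le_pow_left₀ hc (by linarith) 2
          _ ≤ (1 + c) ^ 4 := pow_le_pow_right₀ (by linarith) (by norm_num)
      have n3 : (c : ℝ) ^ 3 ≤ (1 + c) ^ 4 := by
        calc (c : ℝ) ^ 3 ≤ (1 + c) ^ 3 := pow_le_pow_left₀ hc (by linarith) 3
          _ ≤ (1 + c) ^ 4 := pow_le_pow_right₀ (by linarith) (by norm_num)
      have n5 : (c : ℝ) ^ 4 ≤ (1 + c) ^ 4 := pow_le_pow_left₀ hc (by linarith) 4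
      have k0 : 5 * (M : ℝ) ^ 4 ≤ 5 * ((1 + c) ^ 4 * M ^ 4) := by
        have : (0 : ℝ) ≤ M ^ 4 := by positivity
        nlinarith
      have k1 : 10 * (M : ℝ) ^ 3 * c ≤ 10 * ((1 + c) ^ 4 * M ^ 4) := by
        have : (M : ℝ) ^ 3 * c ≤ M ^ 4 * (1 + c) ^ 4 := mul_le_mul m3 n1 hc (by positivity)
        linarith
      have k2 : 10 * (M : ℝ) ^ 2 * c ^ 2 ≤ 10 * ((1 + c) ^ 4 * M ^ 4) := by
        have : (M : ℝ) ^ 2 * c ^ 2 ≤ M ^ 4 * (1 + c) ^ 4 :=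
          mul_le_mul m2 n2 (by positivity) (by positivity)
        linarith
      have k3 : 5 * (M : ℝ) * c ^ 3 ≤ 5 * ((1 + c) ^ 4 * M ^ 4) := by
        have : (M : ℝ) * c ^ 3 ≤ M ^ 4 * (1 + c) ^ 4 :=
          mul_le_mul m1 n3 (by positivity) (by positivity)
        linarith
      have k4 : (c : ℝ) ^ 4 ≤ (1 + c) ^ 4 * M ^ 4 := by
        have : (1 : ℝ) * c ^ 4 ≤ M ^ 4 * (1 + c) ^ 4 :=
          mul_le_mul m0 n5 (by positivity) (by positivity)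
        linarith
      calc c * (5 * (M : ℝ) ^ 4 + 10 * M ^ 3 * c + 10 * M ^ 2 * c ^ 2 + 5 * M * c ^ 3 + c ^ 4) ≤
          c * (31 * ((1 + c) ^ 4 * M ^ 4)) := mul_le_mul_of_nonneg_left (by linarith) hc
        _ ≤ (1 + c) * (31 * ((1 + c) ^ 4 * M ^ 4)) :=
            mul_le_mul_of_nonneg_right (by linarith) (by positivity)
        _ = _ := by ring
    have e4 : s₀ * (((M + c : ℕ) : ℝ) ^ 5 - M ^ 5) ≤ |s₀| * (31 * (1 + c) ^ 5 * M ^ 4) := by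
      have e5 : (0 : ℝ) ≤ ((M + c : ℕ) : ℝ) ^ 5 - M ^ 5 := by
        have : (M : ℝ) ≤ ((M + c : ℕ) : ℝ) := by push_cast; linarith
        have := pow_le_pow_left₀ (by positivity : (0 : ℝ) ≤ M) this 5
        linarith
      calc s₀ * (((M + c : ℕ) : ℝ) ^ 5 - M ^ 5) ≤ |s₀| * (((M + c : ℕ) : ℝ) ^ 5 - M ^ 5) :=
            mul_le_mul_of_nonneg_right (le_abs_self _) e5
        _ ≤ _ := mul_le_mul_of_nonneg_left e2 (abs_nonneg _)
    linarith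
  have e6 : 8 * (|s₀| * (31 * (1 + (c : ℝ)) ^ 5) + (|s₁| + |C'|) * (1 + c) ^ 4) * M ^ 4 =
      8 * (|s₀| * (31 * (1 + c) ^ 5) * M ^ 4) + 8 * (|s₁| * (1 + c) ^ 4 * M ^ 4) +
      8 * (|C'| * (1 + c) ^ 4 * M ^ 4) := by ring
  rw [e6]
  linarith

end Pool.Agent.YTD
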