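import Pool.Agent.YTD.SlopeB6

/-!
A rigid invariant filtration whose maximal slope is attained is trivial up to a shift and `O(N^3)`.
-/

namespace Pool.Agent.YTD

open Finset Module MvPolynomial Filter

variable {K : Type} [Field K] [Algebra ℂ K]
variable {T : Datum K} {q : ℕ} {D₀ : T.X.Pt →₀ ℤ} {r : ℕ}

namespace Filt

theorem exists_maxData_of_slope (χ : Filt T q D₀ r) (P₀ : T.X.Pt) {N₀ : ℕ} {l₀ : ℤ}
    (hN : 0 < N₀) {s : MvPolynomial (Fin 4) K} (hs : s ∈ χ.F N₀ l₀) (hs0 : s ≠ 0)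
    (hslope : χ.SlopeLe N₀ l₀) : ∃ N₁ l₁ s₁ c ρ, MaxData χ N₁ l₁ s₁ c ρ := by
  classical
  have hs4 : s ^ 4 ∈ χ.F (4 * N₀) (4 * l₀) := by
    have h1 := χ.mul _ _ _ _ _ hs _ hs
    have h2 := χ.mul _ _ _ _ _ h1 _ h1
    have e1 : s * s * (s * s) = s ^ 4 := by ring
    have e2 : N₀ + N₀ + (N₀ + N₀) = 4 * N₀ := by ring
    have e3 : l₀ + l₀ + (l₀ + l₀) = 4 * l₀ := by ring
    rw [e1, e2, e3] at h2
    exact h2
  have hslope4 : χ.SlopeLe (4 * N₀) (4 * l₀) := by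
    intro N l hne
    have := hslope N l hne
    push_cast
    linarith
  obtain ⟨c, h1, h2, h3, h4⟩ := T.exists_general_point P₀ D₀ ((s ^ 4).support.image (s ^ 4).coeff)
  obtain ⟨P₁, hP₁⟩ := T.exists_ne_point c
  obtain ⟨ρ, hρ⟩ := T.X.exists_residue hP₁
  have hord : ∀ e, (s ^ 4).coeff e ≠ 0 → T.X.ord c ((s ^ 4).coeff e) = 0 := by
    intro e he
    exact h4 _ (mem_image.2 ⟨e, MvPolynomial.mem_support_iff.2 he, rfl⟩) he
  have hov : ∀ e, (s ^ 4).coeff e ∈ T.X.ovan c 0 := by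
    intro e he
    rw [hord e he]
  refine ⟨4 * N₀, 4 * l₀, s ^ 4, c, ρ, by omega, hs4, pow_ne_zero 4 hs0, hslope4, h1, h2, h3,
    hov, hρ, ?_⟩
  obtain ⟨e, he⟩ := MvPolynomial.ne_zero_iff.1 (pow_ne_zero 4 hs0)
  intro h0
  have h5 := coeff_specm ρ (s ^ 4) e
  rw [h0, coeff_zero] at h5
  have h6 := (hρ _ (hov e)).1 h5.symm
  have h7 := (T.X.mem_ovan).1 h6 he
  rw [hord e he] at h7
  norm_num at h7

/-- Consequences of rigidity with constant linear form. -/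
theorem Rigid.trivial {χ : Filt T q D₀ r} {m : MonomialOrder (Fin 4)} {c : ℤ}
    (hR : χ.Rigid m 0 0 0 c) (hD : T.X.deg D₀ = 105 * T.t * q) (hq : 0 < q) (hr : 0 < r) :
    (∀ N : ℕ, 4 ≤ N → ∀ l : ℤ, χ.F N l ≠ ⊥ → l ≤ c * N) ∧
    ∃ C : ℝ, 0 ≤ C ∧ ∀ N : ℕ, 4 ≤ N → ∀ Λ : ℤ,
      ∑ l ∈ Ioc (-(Λ * N)) (c * N), (χ.dimN N - (finrank ℂ (χ.F N l) : ℝ)) ≤ C * (N : ℝ) ^ 3 := by
  have hlw : ∀ (N : ℕ) (j : ℤ) (a b : ℕ), lw 0 0 0 c N j a b = c * N := by
    intro N j a b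
    unfold lw
    ring
  have hup : ∀ N : ℕ, 4 ≤ N → ∀ l : ℤ, χ.F N l ≠ ⊥ → l ≤ c * N := by
    intro N hN l hne
    obtain ⟨f, hf, hf0⟩ := Submodule.exists_mem_ne_zero_of_ne_bot hne
    obtain ⟨j, a, b, hin, _, hne'⟩ := χ.exists_degree_expo m hf hf0
    have := hR.upper N hN l j a b hin hne'
    rwa [hlw] at this
  refine ⟨hup, ?_⟩
  obtain ⟨C, hC0, hC⟩ := hR.total
  have hconst : ∀ (N : ℕ) (z : ℝ), ∑ j ∈ JJ (r * q) N, χ.vdim N j *
      ∑ _a ∈ range (AA (r * q) N j + 1), ∑ _b ∈ range (BB (r * q) N j + 1), z = z * χ.dimN N := by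
    intro N z
    rw [χ.dimN_eq]
    unfold s0 msz
    rw [mul_sum]
    apply sum_congr rfl
    intro j _
    rw [sum_const, sum_const, card_range, card_range, nsmul_eq_mul, nsmul_eq_mul]
    push_cast
    ring
  obtain ⟨P₀⟩ := T.exists_point_mom
  have hnn : ∀ (N : ℕ) (l : ℤ), 0 ≤ χ.dimN N - (finrank ℂ (χ.F N l) : ℝ) := by
    intro N l
    have := T.finite_sec P₀ q D₀ (r * N)
    have h1 := Submodule.finrank_mono (χ.le N l)
    have : ((finrank ℂ (χ.F N l) : ℕ) : ℝ) ≤ finrank ℂ (T.sec q D₀ (r * N)) := by exact_mod_cast h1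
    unfold dimN
    linarith
  refine ⟨C, hC0, ?_⟩
  intro N hN Λ
  -- a larger constant
  set M : ℕ := max χ.lam Λ.toNat with hM
  have hM1 : χ.lam ≤ M := le_max_left _ _
  have hM2 : Λ ≤ M := by
    have : Λ ≤ Λ.toNat := Int.self_le_toNat Λ
    have h2 : (Λ.toNat : ℤ) ≤ M := by exact_mod_cast le_max_right _ _
    linarith
  have hNpos : (0 : ℤ) ≤ N := by positivity
  have hsub : Ioc (-(Λ * (N : ℤ))) (c * N) ⊆ Ioc (-((M * N : ℕ) : ℤ)) (c * N) := by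
    intro l hl
    rw [mem_Ioc] at hl ⊢
    refine ⟨lt_of_le_of_lt ?_ hl.1, hl.2⟩
    push_cast
    have := mul_le_mul_of_nonneg_right hM2 hNpos
    linarith
  refine (sum_le_sum_of_subset_of_nonneg hsub fun l _ _ => hnn N l).trans ?_
  have hlow : -((M * N : ℕ) : ℤ) ≤ c * N := by
    have h0 : InR (r * q) N 0 0 0 := by
      refine ⟨by rw [abs_zero]; positivity, ?_, ?_⟩
      · have : (0 : ℤ) ≤ ((r * q : ℕ) : ℤ) * N := by positivity
        push_cast at this ⊢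
        linarith
      · have : (0 : ℤ) ≤ ((r * q : ℕ) : ℤ) * N := by positivity
        push_cast at this ⊢
        linarith
    have h1 := hR.lower hD hq hr hN h0
    rw [hlw] at h1
    refine le_trans ?_ h1
    have h2 : ((χ.lam * N : ℕ) : ℤ) ≤ ((M * N : ℕ) : ℤ) := by
      exact_mod_cast Nat.mul_le_mul_right N hM1
    push_cast at h2 ⊢
    linarith
  have g1 := hC N hN M hM1 (fun _ => 1) 1 zero_le_one (fun _ _ _ _ _ _ _ => by simp)
  have e1 : ∑ j ∈ JJ (r * q) N, χ.vdim N j * ∑ a ∈ range (AA (r * q) N j + 1),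
      ∑ b ∈ range (BB (r * q) N j + 1),
      ∑ _l ∈ Ioc (-((M * N : ℕ) : ℤ)) (lw 0 0 0 c N j a b), (1 : ℝ) =
      (c * N + M * N) * χ.dimN N := by
    rw [← hconst]
    apply sum_congr rfl
    intro j hj
    congr 1
    apply sum_congr rfl
    intro a ha
    apply sum_congr rfl
    intro b hb
    rw [hlw, sum_Ioc_one hlow]
    push_cast
    ring
  rw [e1] at g1
  simp only [one_mul] at g1
  -- the sum of the dimensions
  have e2 : ∑ l ∈ Ioc (-((M * N : ℕ) : ℤ)) (c * N), (finrank ℂ (χ.F N l) : ℝ) =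
      ∑ l ∈ Ioc (-((M * N : ℕ) : ℤ)) ((M * N : ℕ) : ℤ), (finrank ℂ (χ.F N l) : ℝ) := by
    have hz1 : ∀ l : ℤ, c * N < l → (finrank ℂ (χ.F N l) : ℝ) = 0 := by
      intro l hl
      by_cases h : χ.F N l = ⊥
      · rw [h]
        simp
      · exact absurd (hup N hN l h) (not_le.2 hl)
    have hz2 : ∀ l : ℤ, ((M * N : ℕ) : ℤ) < l → (finrank ℂ (χ.F N l) : ℝ) = 0 := by
      intro l hl
      have h2 : ((χ.lam * N : ℕ) : ℤ) ≤ ((M * N : ℕ) : ℤ) := by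
        exact_mod_cast Nat.mul_le_mul_right N hM1
      rw [χ.F_of_gt (by push_cast at h2 hl ⊢; linarith)]
      simp
    rcases le_total (c * (N : ℤ)) ((M * N : ℕ) : ℤ) with h | h
    · apply sum_subset (Ioc_subset_Ioc_right h)
      intro l hl hl'
      apply hz1
      rw [mem_Ioc] at hl hl'
      by_contra hcon
      exact hl' ⟨hl.1, not_lt.1 hcon⟩
    · symm
      apply sum_subset (Ioc_subset_Ioc_right h)
      intro l hl hl'
      apply hz2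
      rw [mem_Ioc] at hl hl'
      by_contra hcon
      exact hl' ⟨hl.1, not_lt.1 hcon⟩
  rw [sum_sub_distrib, e2]
  have e3 : ∑ _l ∈ Ioc (-((M * N : ℕ) : ℤ)) (c * N), χ.dimN N = (c * N + M * N) * χ.dimN N := by
    have h1 := sum_Ioc_one hlow
    rw [← mul_one (χ.dimN N), ← mul_sum, h1]
    push_cast
    ring
  rw [e3]
  exact (le_abs_self _).trans g1

/-- An invariant filtration with rigid initial spaces whose maximal slope is attained. -/
theorem exists_trivial (χ : Filt T q D₀ r) (γ : Gam T) (hfix : γ.Fixes D₀)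
    (hΓ : χ.GamInv γ) (H : χ.AllRigid)
    (hD : T.X.deg D₀ = 105 * T.t * q) (hq : 0 < q) (hr : 0 < r) {N₀ : ℕ} {l₀ : ℤ}
    (hN : 0 < N₀) {s : MvPolynomial (Fin 4) K} (hs : s ∈ χ.F N₀ l₀) (hs0 : s ≠ 0)
    (hslope : χ.SlopeLe N₀ l₀) :
    ∃ c : ℤ, (∀ N : ℕ, 4 ≤ N → ∀ l : ℤ, χ.F N l ≠ ⊥ → l ≤ c * N) ∧
    ∃ C : ℝ, 0 ≤ C ∧ ∀ N : ℕ, 4 ≤ N → ∀ Λ : ℤ,
      ∑ l ∈ Ioc (-(Λ * N)) (c * N), (χ.dimN N - (finrank ℂ (χ.F N l) : ℝ)) ≤ C * (N : ℝ) ^ 3 := by
  obtain ⟨P₀, _⟩ : ∃ P : T.X.Pt, P ∈ T.S := by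
    have h1 := T.card_S
    have h2 := T.t_pos
    have h3 : 0 < T.S.card := by omega
    exact Finset.card_pos.1 h3
  obtain ⟨N₁, l₁, s₁, c, ρ, h⟩ := χ.exists_maxData_of_slope P₀ hN hs hs0 hslope
  obtain ⟨c', hR⟩ := Filt.exists_const hΓ.vInv γ.toInv hfix.inv hΓ.tau H hD hq hr h
  have key := hR.trivial hD hq hr
  have hbot : ∀ (N : ℕ) (l : ℤ), (χ.fl isUnit_one isUnit_one).F N l = ⊥ ↔ χ.F N l = ⊥ := by
    intro N l
    unfold fl
    rw [tw_F]
    constructor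
    · intro h0
      rw [eq_bot_iff]
      intro f hf
      have h1 := Submodule.mem_map_of_mem (f := (substE K 1 1 isUnit_one isUnit_one).toLinearMap) hf
      rw [h0, Submodule.mem_bot] at h1
      exact (Submodule.mem_bot ℂ).2 (autom_injective _ (h1.trans (map_zero _).symm))
    · intro h0
      rw [h0, Submodule.map_bot]
  have hfr : ∀ (N : ℕ) (l : ℤ), finrank ℂ ((χ.fl isUnit_one isUnit_one).F N l) =
      finrank ℂ (χ.F N l) := by
    intro N l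
    exact finrank_tw χ _ _ N l
  refine ⟨c', ?_, ?_⟩
  · intro N hN l hne
    apply key.1 N hN l
    intro h0
    exact hne ((hbot N l).1 h0)
  · obtain ⟨C, hC0, hC⟩ := key.2
    refine ⟨C, hC0, ?_⟩
    intro N hN Λ
    have := hC N hN Λ
    simp only [hfr] at this
    exact this

end Filt

end Pool.Agent.YTD
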