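import Pool.Agent.YTD.SatL4
import Pool.Agent.YTD.SatM
import Pool.Agent.YTD.SatK3
import Pool.Agent.YTD.Rigid14

/-!
Rigidity of the test configurations of the quotient with vanishing Futaki invariant.
-/

namespace Pool.Agent.YTD

open Finset Module MvPolynomial Filter

/-- comparison of leading coefficients -/
theorem lead_le {x y C : ℝ} {k : ℕ}
    (h : ∀ᶠ N : ℕ in atTop, x * (N : ℝ) ^ (k + 1) ≤ y * N ^ (k + 1) + C * N ^ k) : x ≤ y := by
  have hinv : Tendsto (fun N : ℕ => (1 : ℝ) / N) atTop (nhds 0) :=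
    tendsto_one_div_atTop_nhds_zero_nat
  have h1 : ∀ᶠ N : ℕ in atTop, x ≤ y + C * (1 / (N : ℝ)) := by
    filter_upwards [h, eventually_gt_atTop 0] with N hN h0
    have hp : (0 : ℝ) < N := by exact_mod_cast h0
    have e : y * (N : ℝ) ^ (k + 1) + C * N ^ k = (y + C * (1 / (N : ℝ))) * N ^ (k + 1) := by
      rw [pow_succ]
      field_simp
    rw [e] at hN
    exact le_of_mul_le_mul_right hN (by positivity)
  have h2 := (hinv.const_mul C).const_add y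
  rw [mul_zero, add_zero] at h2
  exact ge_of_tendsto h2 h1

variable {K : Type} [Field K] [Algebra ℂ K]
variable {T : Datum K} {q : ℕ} {D₀ : T.X.Pt →₀ ℤ} {r : ℕ}
variable {γ : Gam T} {L : ℕ}

/-- the dimensions of the quotient -/
theorem QFilt.eight_dimN (χ : QFilt γ q D₀ r) (hfix : γ.Fixes D₀)
    (hD : T.X.deg D₀ = 105 * T.t * q) (hq : 0 < q) (hr : 8 ≤ r) {N : ℕ} (hN : 1 ≤ N) :
    8 * χ.dimN N = (finrank ℂ (T.sec q D₀ (r * N)) : ℝ) := by
  have h8 : 8 ≤ r * N := hr.trans (Nat.le_mul_of_pos_right r hN)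
  unfold QFilt.dimN
  exact_mod_cast γ.finrank_secQ hfix (fun j hj => deg_bound_crit hD hq h8 j hj)

/-- The coefficients `a₀, a₁`. -/
theorem QFilt.a_eq (χ : QFilt γ q D₀ r) (hfix : γ.Fixes D₀)
    (hD : T.X.deg D₀ = 105 * T.t * q) (hq : 0 < q) (hr : 8 ≤ r)
    {a₀ a₁ b₀ b₁ c₀ : ℝ} (hE : χ.Expansion a₀ a₁ b₀ b₁ c₀) :
    a₀ = 534650 * T.t * ((r * q : ℕ) : ℝ) ^ 4 / 8 ∧ a₁ = 0 := by
  obtain ⟨C, hC⟩ := dim_sec_asymp (r := r) hq (by omega) hD
  refine coeff_unique (p := χ.dimN) (k := 2) hE.1 ⟨C / 8, ?_⟩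
  filter_upwards [hC, eventually_ge_atTop 1] with N h1 h2
  rw [← χ.eight_dimN hfix hD hq hr h2] at h1
  have e : χ.dimN N - (534650 * T.t * ((r * q : ℕ) : ℝ) ^ 4 / 8 * N ^ (2 + 2) + 0 * N ^ (2 + 1)) =
      (8 * χ.dimN N - 534650 * T.t * ((r * q : ℕ) : ℝ) ^ 4 * N ^ 4) / 8 := by ring
  rw [e, abs_div, abs_of_pos (by norm_num : (0 : ℝ) < 8)]
  rw [div_mul_eq_mul_div]
  exact div_le_div_of_nonneg_right h1 (by norm_num)

theorem QFilt.a0_pos (χ : QFilt γ q D₀ r) (hfix : γ.Fixes D₀)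
    (hD : T.X.deg D₀ = 105 * T.t * q) (hq : 0 < q) (hr : 8 ≤ r)
    {a₀ a₁ b₀ b₁ c₀ : ℝ} (hE : χ.Expansion a₀ a₁ b₀ b₁ c₀) : 0 < a₀ := by
  rw [(χ.a_eq hfix hD hq hr hE).1]
  have h1 : (0 : ℝ) < T.t := by exact_mod_cast T.t_pos
  have h2 : (0 : ℝ) < ((r * q : ℕ) : ℝ) := by
    have : 0 < r * q := Nat.mul_pos (by omega) hq
    exact_mod_cast this
  positivity

theorem QTestConf.sat_bdd (χ : QTestConf γ q D₀ r) (hfix : γ.Fixes D₀)
    (hD : T.X.deg D₀ = 105 * T.t * q) (hq : 0 < q) (hr : 8 ≤ r) (hL : χ.toQFilt.Bdd L) :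
    (χ.toQFilt.sat hfix hD hq hr).Bdd L := fun N => χ.toQFilt.sat_bound hfix hD hq hr hL N

/-- The one-sided hypotheses hold for all twists and all monomial orders. -/
theorem QTestConf.crit (χ : QTestConf γ q D₀ r) (hfix : γ.Fixes D₀)
    (hD : T.X.deg D₀ = 105 * T.t * q) (hq : 0 < q) (hr : 8 ≤ r) (hL : χ.toQFilt.Bdd L)
    {a₀ a₁ b₀ b₁ c₀ : ℝ} (hE : χ.Expansion a₀ a₁ b₀ b₁ c₀) (E : Autom K) (hE' : Pres T q D₀ E)
    (m : MonomialOrder (Fin 4)) :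
    (((χ.toQFilt.sat hfix hD hq hr).tw E hE').gradedL
      (Filt.Bdd.tw _ (χ.sat_bdd hfix hD hq hr hL) E hE') m).Crit
      (8 * (b₀ + L * a₀)) (8 * (b₁ + L * a₁)) :=
  Filt.crit_of_hyp _ hq (by omega) hD ((χ.upHyp hfix hD hq hr hL hE).tw E hE')
    ((χ.lowHyp hfix hD hq hr hL hE).tw E hE') m

theorem pres_refl : Pres T q D₀ (AlgEquiv.refl : Autom K) := by
  intro N
  exact Submodule.map_id _

/-- K-semistability of the quotient -/
theorem QTestConf.b1_nonpos (χ : QTestConf γ q D₀ r) (hfix : γ.Fixes D₀)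
    (hD : T.X.deg D₀ = 105 * T.t * q) (hq : 0 < q) (hr : 8 ≤ r)
    {a₀ a₁ b₀ b₁ c₀ : ℝ} (hE : χ.Expansion a₀ a₁ b₀ b₁ c₀) : b₁ ≤ 0 := by
  obtain ⟨L, hL⟩ := χ.bound
  obtain ⟨P₀⟩ := T.exists_pt
  have h := (χ.crit hfix hD hq hr (L := L) hL hE AlgEquiv.refl pres_refl
    MonomialOrder.lex).s1_nonpos P₀ (Filt.deg_smul' hD) (Nat.mul_pos (by omega) hq)
  rw [(χ.toQFilt.a_eq hfix hD hq hr hE).2] at h
  linarith

/-- Rigidity of the saturated filtration. -/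
theorem QTestConf.allRigid (χ : QTestConf γ q D₀ r) (hfix : γ.Fixes D₀)
    (hD : T.X.deg D₀ = 105 * T.t * q) (hq : 0 < q) (hr : 8 ≤ r)
    {a₀ a₁ b₀ c₀ : ℝ} (hE : χ.Expansion a₀ a₁ b₀ 0 c₀) :
    (χ.toQFilt.sat hfix hD hq hr).AllRigid := by
  obtain ⟨L, hL⟩ := χ.bound
  intro g h hg hh m
  have h1 := χ.crit hfix hD hq hr (L := L) hL hE (substE K g h hg hh) (pres_substE hg hh) m
  rw [(χ.toQFilt.a_eq hfix hD hq hr hE).2, mul_zero, add_zero, mul_zero] at h1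
  obtain ⟨al, be, ga, de, h2⟩ := thmA' _ (Nat.mul_pos (by omega) hq) (Filt.deg_smul' hD) h1
  exact ⟨al, be, ga, _, Filt.Rigid.of_gradedL _ h2⟩

/-- The maximal slope of a test configuration is attained. -/
theorem QTestConf.exists_max (χ : QTestConf γ q D₀ r) (hfix : γ.Fixes D₀)
    (hD : T.X.deg D₀ = 105 * T.t * q) (hq : 0 < q) (hr : 8 ≤ r) :
    ∃ (N₀ : ℕ) (l₀ : ℤ), 0 < N₀ ∧ (∃ s ∈ χ.F N₀ l₀, s ≠ 0) ∧
      ∀ (N : ℕ) (l : ℤ), χ.F N l ≠ ⊥ → l * N₀ ≤ l₀ * N := by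
  classical
  obtain ⟨L, hL⟩ := χ.bound
  obtain ⟨k, n, w, f, hf, hspan⟩ := χ.fg
  -- the indices that matter
  let I : Finset (Fin k) := univ.filter fun i => f i ≠ 0 ∧ 0 < n i
  -- a non-zero product
  have hprod : ∀ N l, χ.F N l ≠ ⊥ → ∃ mm : Fin k → ℕ, ∑ i, mm i * n i = N ∧
      l ≤ ∑ i, mm i * w i ∧ ∀ i, mm i ≠ 0 → f i ≠ 0 := by
    intro N l hne
    by_contra hcon
    push Not at hcon
    apply hne
    rw [eq_bot_iff]
    refine (hspan N l).trans ?_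
    rw [Submodule.span_le]
    rintro g ⟨mm, h1, h2, rfl⟩
    obtain ⟨i, h3, h4⟩ := hcon mm h1 h2
    show ∏ i, f i ^ mm i ∈ (⊥ : Submodule ℂ (MvPolynomial (Fin 4) K))
    rw [Submodule.mem_bot]
    apply prod_eq_zero (mem_univ i)
    rw [h4, zero_pow h3]
  -- weights of degree zero are nonpositive
  have hw0 : ∀ i, f i ≠ 0 → n i = 0 → w i ≤ 0 := by
    intro i h1 h2
    by_contra h3
    have h4 := hf i
    rw [h2, QFilt.Bdd.F_of_gt χ.toQFilt hL (by push_cast; push Not at h3; linarith),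
      Submodule.mem_bot] at h4
    exact h1 h4
  have hI : I.Nonempty := by
    obtain ⟨e, he, he0⟩ := γ.exists_secQ_ne_zero hfix hD hq hr
    have hne : χ.F 1 (-(L : ℤ)) ≠ ⊥ := by
      intro h0
      have h := (hL 1).1
      rw [Nat.cast_one, mul_one, mul_one] at h
      rw [h] at h0
      rw [h0, Submodule.mem_bot] at he
      exact he0 he
    obtain ⟨mm, h1, _, h3⟩ := hprod _ _ hne
    obtain ⟨i, _, hi⟩ := exists_ne_zero_of_sum_ne_zero (s := univ) (f := fun i => mm i * n i)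
      (by rw [h1]; norm_num)
    exact ⟨i, mem_filter.2 ⟨mem_univ i, h3 i (left_ne_zero_of_mul hi),
      Nat.pos_of_ne_zero (right_ne_zero_of_mul hi)⟩⟩
  obtain ⟨i₀, hi₀, hmax⟩ := I.exists_max_image (fun i => (w i : ℚ) / n i) hI
  obtain ⟨_, hi0, hi1⟩ := mem_filter.1 hi₀
  have hmax' : ∀ i, f i ≠ 0 → w i * (n i₀ : ℤ) ≤ w i₀ * n i := by
    intro i h1
    rcases Nat.eq_zero_or_pos (n i) with h2 | h2
    · rw [h2]
      have := hw0 i h1 h2
      have h3 : (0 : ℤ) ≤ n i₀ := by positivity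
      push_cast
      nlinarith
    · have h3 := hmax i (mem_filter.2 ⟨mem_univ i, h1, h2⟩)
      have h4 : (0 : ℚ) < n i := by exact_mod_cast h2
      have h5 : (0 : ℚ) < n i₀ := by exact_mod_cast hi1
      rw [div_le_div_iff₀ h4 h5] at h3
      exact_mod_cast h3
  refine ⟨n i₀, w i₀, hi1, ⟨f i₀, hf i₀, hi0⟩, ?_⟩
  intro N l hne
  obtain ⟨mm, h1, h2, h3⟩ := hprod N l hne
  have h4 : (∑ i, (mm i : ℤ) * w i) * n i₀ ≤ w i₀ * N := by
    rw [← h1]
    push_cast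
    rw [sum_mul, mul_sum]
    apply sum_le_sum
    intro i _
    by_cases h5 : mm i = 0
    · rw [h5]
      simp
    · have := hmax' i (h3 i h5)
      have h6 : (0 : ℤ) ≤ mm i := by positivity
      nlinarith
  have h7 : (0 : ℤ) ≤ n i₀ := by positivity
  nlinarith

/-- The data of a rigid test configuration. -/
theorem QTestConf.exists_slope (χ : QTestConf γ q D₀ r) (hfix : γ.Fixes D₀)
    (hD : T.X.deg D₀ = 105 * T.t * q) (hq : 0 < q) (hr : 8 ≤ r)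
    {a₀ a₁ b₀ c₀ : ℝ} (hE : χ.Expansion a₀ a₁ b₀ 0 c₀) :
    ∃ c : ℤ, (∀ N : ℕ, 4 ≤ N → ∀ l : ℤ, χ.F N l ≠ ⊥ → l ≤ c * N) ∧ (c : ℝ) * a₀ ≤ b₀ := by
  obtain ⟨L, hL⟩ := χ.bound
  obtain ⟨P₀⟩ := T.exists_pt
  obtain ⟨N₀, l₀, hN₀, ⟨s, hs, hs0⟩, hslope⟩ := χ.exists_max hfix hD hq hr
  set F := χ.toQFilt.sat hfix hD hq hr with hF
  have hle : ∀ N l, χ.F N l ≤ F.F N l := fun N l => T.X.le_satD _
  have hbot : ∀ N l, F.F N l ≠ ⊥ → χ.F N l ≠ ⊥ := by
    intro N l h1 h2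
    apply h1
    rw [hF, QFilt.sat_F, h2, T.X.satD_zero_bot P₀]
  obtain ⟨c, h1, C, hC0, h2⟩ := F.exists_trivial γ hfix (χ.toQFilt.sat_gamInv hfix hD hq hr)
    (χ.allRigid hfix hD hq hr hE) hD hq (by omega) hN₀ (hle _ _ hs) hs0
    (fun N l h => hslope N l (hbot N l h))
  refine ⟨c, ?_, ?_⟩
  · intro N hN l hne
    apply h1 N hN l
    intro h3
    apply hne
    rw [eq_bot_iff, ← h3]
    exact hle N l
  · -- comparison of the leading coefficients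
    have hcr := χ.crit hfix hD hq hr (L := L) hL hE AlgEquiv.refl pres_refl MonomialOrder.lex
    obtain ⟨C₁, hC₁⟩ := hcr.tot_le (Filt.deg_smul' hD) P₀ (Nat.mul_pos (by omega) hq)
    obtain ⟨C₂, hC₂⟩ := dim_sec_asymp (r := r) hq (by omega) hD
    obtain ⟨ha0, ha1⟩ := χ.toQFilt.a_eq hfix hD hq hr hE
    have key : ∀ᶠ N : ℕ in atTop, (8 * ((c : ℝ) + L) * a₀) * (N : ℝ) ^ (4 + 1) ≤
        (8 * (b₀ + L * a₀)) * N ^ (4 + 1) + (C₁ + C + |(c : ℝ) + L| * |C₂|) * N ^ 4 := by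
      filter_upwards [hC₂, eventually_ge_atTop 4] with N g1 g2
      have hN1 : (1 : ℝ) ≤ N := by
        have : 1 ≤ N := by omega
        exact_mod_cast this
      have g3 := hC₁ N g2
      rw [Filt.gradedL_tot _ _ _ P₀, Filt.totL_tw] at g3
      have g4 := h2 N g2 L
      have g5 : F.dimN N = (finrank ℂ (T.sec q D₀ (r * N)) : ℝ) := rfl
      rw [sum_sub_distrib, sum_const, Int.card_Ioc, nsmul_eq_mul, g5] at g4
      have g6 : ((c * N - -((L : ℤ) * N)).toNat : ℝ) ≥ ((c : ℝ) + L) * N := by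
        have := Int.self_le_toNat (c * N - -((L : ℤ) * N))
        have h3 : (((c * N - -((L : ℤ) * N)) : ℤ) : ℝ) ≤
          (((c * N - -((L : ℤ) * N)).toNat : ℤ) : ℝ) := by exact_mod_cast this
        push_cast at h3
        have h4 : (((c * N - -((L : ℤ) * N)).toNat : ℤ) : ℝ) =
          ((c * N - -((L : ℤ) * N)).toNat : ℝ) := by rfl
        linarith
      have g7 : ∑ l ∈ Ioc (-((L : ℤ) * N)) (c * N), (finrank ℂ (F.F N l) : ℝ) ≤ F.totL L N := by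
        unfold Filt.totL
        have e1 : ∑ l ∈ Ioc (-((L : ℤ) * N)) (c * N), (finrank ℂ (F.F N l) : ℝ) =
            ∑ l ∈ (Ioc (-((L : ℤ) * N)) (c * N)).filter (fun l : ℤ => l ≤ (L : ℤ) * N),
              (finrank ℂ (F.F N l) : ℝ) := by
          symm
          apply sum_subset (filter_subset _ _)
          intro l hl hl'
          rw [mem_filter] at hl'
          push Not at hl'
          rw [Filt.Bdd.F_of_gt F (χ.sat_bdd hfix hD hq hr hL) (hl' hl), finrank_bot,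
            Nat.cast_zero]
        rw [e1]
        apply sum_le_sum_of_subset_of_nonneg
        · intro l hl
          rw [mem_filter, mem_Ioc] at hl
          rw [mem_Ioc]
          push_cast
          exact ⟨hl.1.1, hl.2⟩
        · intro _ _ _
          positivity
      have g8 : ((c : ℝ) + L) * N * (finrank ℂ (T.sec q D₀ (r * N)) : ℝ) ≤
          ((c * N - -((L : ℤ) * N)).toNat : ℝ) * (finrank ℂ (T.sec q D₀ (r * N)) : ℝ) :=
        mul_le_mul_of_nonneg_right g6 (by positivity)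
      have g9 : ((c : ℝ) + L) * (8 * a₀ * N ^ 4) - |(c : ℝ) + L| * (|C₂| * N ^ 2) ≤
          ((c : ℝ) + L) * (finrank ℂ (T.sec q D₀ (r * N)) : ℝ) := by
        have e2 : 8 * a₀ * (N : ℝ) ^ 4 = 534650 * T.t * ((r * q : ℕ) : ℝ) ^ 4 * N ^ 4 := by
          rw [ha0]
          ring
        rw [e2]
        have h5 : |((c : ℝ) + L) * ((finrank ℂ (T.sec q D₀ (r * N)) : ℝ) -
            534650 * T.t * ((r * q : ℕ) : ℝ) ^ 4 * N ^ 4)| ≤ |(c : ℝ) + L| * (|C₂| * N ^ 2) := by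
          rw [abs_mul]
          apply mul_le_mul_of_nonneg_left _ (abs_nonneg _)
          exact g1.trans (mul_le_mul_of_nonneg_right (le_abs_self _) (by positivity))
        have h6 := (abs_le.1 h5).1
        linarith
      have g10 := mul_le_mul_of_nonneg_right g9 (by positivity : (0 : ℝ) ≤ N)
      have k1 : |(c : ℝ) + L| * (|C₂| * (N : ℝ) ^ 2) * N ≤ |(c : ℝ) + L| * |C₂| * N ^ 4 := by
        have h3 : (N : ℝ) ^ 3 ≤ (N : ℝ) ^ 4 := pow_le_pow_right₀ hN1 (by norm_num)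
        calc |(c : ℝ) + L| * (|C₂| * (N : ℝ) ^ 2) * N = |(c : ℝ) + L| * |C₂| * (N : ℝ) ^ 3 := by ring
          _ ≤ _ := mul_le_mul_of_nonneg_left h3 (by positivity)
      have k2 : C * (N : ℝ) ^ 3 ≤ C * N ^ 4 :=
        mul_le_mul_of_nonneg_left (pow_le_pow_right₀ hN1 (by norm_num)) hC0
      have e3 : (8 * ((c : ℝ) + L) * a₀) * (N : ℝ) ^ (4 + 1) =
        ((c : ℝ) + L) * (8 * a₀ * N ^ 4) * N := by ring
      have e4 : (C₁ + C + |(c : ℝ) + L| * |C₂|) * (N : ℝ) ^ 4 =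
        C₁ * N ^ 4 + C * N ^ 4 + |(c : ℝ) + L| * |C₂| * N ^ 4 := by ring
      rw [e3, e4]
      have e5 : (8 * (b₀ + (L : ℝ) * a₀)) * (N : ℝ) ^ (4 + 1) =
        8 * (b₀ + L * a₀) * N ^ 5 := by ring
      rw [e5]
      linarith
    have h3 := lead_le key
    linarith

end Pool.Agent.YTD
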