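import Pool.Agent.YTD.SatL5

/-!
K-stability of the quotient.
-/

namespace Pool.Agent.YTD

open Finset Module MvPolynomial Filter

variable {K : Type} [Field K] [Algebra ℂ K]
variable {T : Datum K} {q : ℕ} {D₀ : T.X.Pt →₀ ℤ} {r : ℕ}
variable {γ : Gam T} {L : ℕ}

/-- A filtration of the quotient whose slopes are at most `c` satisfies `b₀ ≤ c a₀`, and its norm
vanishes in the case of equality. -/
theorem QFilt.norm_le (χ : QFilt γ q D₀ r) (hL : χ.Bdd L)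
    {a₀ b₀ c₀ : ℝ} (hE : χ.Expansion a₀ 0 b₀ 0 c₀) {c : ℤ}
    (hc : ∀ N : ℕ, 4 ≤ N → ∀ l : ℤ, χ.F N l ≠ ⊥ → l ≤ c * N) :
    b₀ ≤ c * a₀ ∧ (b₀ = c * a₀ → c₀ ≤ (c : ℝ) ^ 2 * a₀) := by
  obtain ⟨⟨E1, hE1⟩, ⟨E2, hE2⟩, ⟨E3, hE3⟩⟩ := hE
  -- the weights vanish above the slope
  have hw : ∀ N : ℕ, 4 ≤ N → ∀ l : ℤ, c * N < l → χ.wt N l = 0 := by
    intro N hN l hl
    have h1 : χ.F N l = ⊥ := by
      by_contra h
      have := hc N hN l h
      linarith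
    have h2 : χ.F N (l + 1) = ⊥ := by
      by_contra h
      have := hc N hN (l + 1) h
      linarith
    unfold QFilt.wt
    rw [h1, h2, sub_self]
  -- first moment
  have m1 : ∀ N : ℕ, ∑ l ∈ Icc (-((L * N : ℕ) : ℤ)) ((L * N : ℕ) : ℤ),
      ((c : ℝ) * N - l) * χ.wt N l = c * N * χ.dimN N - χ.tr 1 N := by
    intro N
    rw [QFilt.Bdd.dimN_eq χ hL N, QFilt.Bdd.tr_eq χ hL 1 N, mul_sum, ← sum_sub_distrib]
    apply sum_congr rfl
    intro l _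
    ring
  have m2 : ∀ N : ℕ, ∑ l ∈ Icc (-((L * N : ℕ) : ℤ)) ((L * N : ℕ) : ℤ),
      ((c : ℝ) * N - l) ^ 2 * χ.wt N l =
      (c : ℝ) ^ 2 * N ^ 2 * χ.dimN N - 2 * c * N * χ.tr 1 N + χ.tr 2 N := by
    intro N
    rw [QFilt.Bdd.dimN_eq χ hL N, QFilt.Bdd.tr_eq χ hL 1 N, QFilt.Bdd.tr_eq χ hL 2 N, mul_sum,
      mul_sum, ← sum_sub_distrib, ← sum_add_distrib]
    apply sum_congr rfl
    intro l _
    ring
  have pos1 : ∀ N : ℕ, 4 ≤ N → 0 ≤ (c : ℝ) * N * χ.dimN N - χ.tr 1 N := by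
    intro N hN
    rw [← m1]
    apply sum_nonneg
    intro l _
    rcases le_or_gt l (c * N) with h | h
    · apply mul_nonneg _ (χ.wt_nonneg N l)
      have : (l : ℝ) ≤ c * N := by exact_mod_cast h
      linarith
    · rw [hw N hN l h, mul_zero]
  have comp : ∀ N : ℕ, 4 ≤ N → (c : ℝ) ^ 2 * N ^ 2 * χ.dimN N - 2 * c * N * χ.tr 1 N + χ.tr 2 N ≤
      (|(c : ℝ)| + L) * N * ((c : ℝ) * N * χ.dimN N - χ.tr 1 N) := by
    intro N hN
    rw [← m1, ← m2, mul_sum]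
    apply sum_le_sum
    intro l hl
    rcases le_or_gt l (c * N) with h | h
    · have h1 : (l : ℝ) ≤ c * N := by exact_mod_cast h
      have h2 : -((L : ℝ) * N) ≤ l := by
        have := (mem_Icc.1 hl).1
        exact_mod_cast this
      have h3 : (c : ℝ) * N ≤ |(c : ℝ)| * N := mul_le_mul_of_nonneg_right (le_abs_self _) (by positivity)
      rw [sq, mul_assoc]
      apply mul_le_mul_of_nonneg_right _ (mul_nonneg (by linarith) (χ.wt_nonneg N l))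
      linarith
    · rw [hw N hN l h, mul_zero, mul_zero, mul_zero]
  have hge : ∀ᶠ N : ℕ in atTop, 4 ≤ N := eventually_ge_atTop 4
  constructor
  · -- `b₀ ≤ c a₀`
    have key : ∀ᶠ N : ℕ in atTop, b₀ * (N : ℝ) ^ (4 + 1) ≤ (c * a₀) * N ^ (4 + 1) +
        (|(c : ℝ)| * |E1| + |E2|) * N ^ 4 := by
      filter_upwards [hE1, hE2, hge] with N g1 g2 g3
      have hN1 : (1 : ℝ) ≤ N := by
        have : 1 ≤ N := by omega
        exact_mod_cast this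
      have g4 := pos1 N g3
      have g5 := (abs_le.1 g2).1
      have g6 : |(c : ℝ) * N * (χ.dimN N - (a₀ * N ^ 4 + 0 * N ^ 3))| ≤
          |(c : ℝ)| * N * (E1 * N ^ 2) := by
        rw [abs_mul, abs_mul, Nat.abs_cast]
        exact mul_le_mul_of_nonneg_left g1 (by positivity)
      have g7 := (abs_le.1 g6).2
      have k1 : |(c : ℝ)| * N * (E1 * N ^ 2) ≤ |(c : ℝ)| * |E1| * N ^ 4 := by
        have h3 : (N : ℝ) ^ 3 ≤ (N : ℝ) ^ 4 := pow_le_pow_right₀ hN1 (by norm_num)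
        calc |(c : ℝ)| * N * (E1 * N ^ 2) = |(c : ℝ)| * E1 * (N : ℝ) ^ 3 := by ring
          _ ≤ |(c : ℝ)| * |E1| * (N : ℝ) ^ 3 := by
              apply mul_le_mul_of_nonneg_right _ (by positivity)
              exact mul_le_mul_of_nonneg_left (le_abs_self _) (abs_nonneg _)
          _ ≤ _ := mul_le_mul_of_nonneg_left h3 (by positivity)
      have k2 : E2 * (N : ℝ) ^ 3 ≤ |E2| * N ^ 4 := by
        have h3 : (N : ℝ) ^ 3 ≤ (N : ℝ) ^ 4 := pow_le_pow_right₀ hN1 (by norm_num)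
        calc E2 * (N : ℝ) ^ 3 ≤ |E2| * (N : ℝ) ^ 3 :=
              mul_le_mul_of_nonneg_right (le_abs_self _) (by positivity)
          _ ≤ _ := mul_le_mul_of_nonneg_left h3 (abs_nonneg _)
      have e1 : b₀ * (N : ℝ) ^ (4 + 1) = b₀ * N ^ 5 := by ring
      have e2 : (c * a₀) * (N : ℝ) ^ (4 + 1) = c * N * (a₀ * N ^ 4 + 0 * N ^ 3) := by ring
      rw [e1, e2]
      linarith
    exact lead_le key
  · intro hb
    have key : ∀ᶠ N : ℕ in atTop, c₀ * (N : ℝ) ^ (5 + 1) ≤ ((c : ℝ) ^ 2 * a₀) * N ^ (5 + 1) +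
        (((|(c : ℝ)| + L) * |(c : ℝ)| + (c : ℝ) ^ 2) * |E1| +
          (|(c : ℝ)| + L + 2 * |(c : ℝ)|) * |E2| + |E3|) * N ^ 5 := by
      filter_upwards [hE1, hE2, hE3, hge] with N g1 g2 g3 g4
      have hN1 : (1 : ℝ) ≤ N := by
        have : 1 ≤ N := by omega
        exact_mod_cast this
      have g5 := comp N g4
      -- set up the errors
      set x := χ.dimN N - (a₀ * N ^ 4 + 0 * N ^ 3) with hx
      set y := χ.tr 1 N - (b₀ * N ^ 5 + 0 * N ^ 4) with hy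
      set z := χ.tr 2 N - c₀ * N ^ 6 with hz
      have ex : χ.dimN N = a₀ * N ^ 4 + x := by rw [hx]; ring
      have ey : χ.tr 1 N = b₀ * N ^ 5 + y := by rw [hy]; ring
      have ez : χ.tr 2 N = c₀ * N ^ 6 + z := by rw [hz]; ring
      have n34 : (N : ℝ) ^ 3 ≤ (N : ℝ) ^ 4 := pow_le_pow_right₀ hN1 (by norm_num)
      have n45 : (N : ℝ) ^ 4 ≤ (N : ℝ) ^ 5 := pow_le_pow_right₀ hN1 (by norm_num)
      have x1 : |x| ≤ |E1| * N ^ 2 := g1.trans (mul_le_mul_of_nonneg_right (le_abs_self _) (by positivity))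
      have y1 : |y| ≤ |E2| * N ^ 3 := g2.trans (mul_le_mul_of_nonneg_right (le_abs_self _) (by positivity))
      have z1 : |z| ≤ |E3| * N ^ 5 := g3.trans (mul_le_mul_of_nonneg_right (le_abs_self _) (by positivity))
      rw [ex, ey, ez, hb] at g5
      -- the inequality for the leading coefficients
      have g6 : c₀ * (N : ℝ) ^ 6 ≤ ((c : ℝ) ^ 2 * a₀) * N ^ 6 +
          ((|(c : ℝ)| + L) * N * (c * N * x - y) - (c : ℝ) ^ 2 * N ^ 2 * x + 2 * c * N * y - z) := by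
        nlinarith [g5]
      have t1 : (|(c : ℝ)| + L) * N * (c * N * x - y) ≤
          (|(c : ℝ)| + L) * |(c : ℝ)| * |E1| * N ^ 5 + (|(c : ℝ)| + L) * |E2| * N ^ 5 := by
        have u1 : (c : ℝ) * N * x - y ≤ |(c : ℝ)| * N * (|E1| * N ^ 2) + |E2| * N ^ 3 := by
          have v1 : (c : ℝ) * N * x ≤ |(c : ℝ)| * N * (|E1| * N ^ 2) := by
            calc (c : ℝ) * N * x ≤ |(c : ℝ) * N * x| := le_abs_self _
              _ = |(c : ℝ)| * N * |x| := by rw [abs_mul, abs_mul, Nat.abs_cast]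
              _ ≤ _ := mul_le_mul_of_nonneg_left x1 (by positivity)
          have v2 : -y ≤ |E2| * N ^ 3 := (neg_le_abs y).trans y1
          linarith
        calc (|(c : ℝ)| + L) * N * (c * N * x - y) ≤
            (|(c : ℝ)| + L) * N * (|(c : ℝ)| * N * (|E1| * N ^ 2) + |E2| * N ^ 3) :=
              mul_le_mul_of_nonneg_left u1 (by positivity)
          _ = (|(c : ℝ)| + L) * |(c : ℝ)| * |E1| * (N : ℝ) ^ 4 + (|(c : ℝ)| + L) * |E2| * (N : ℝ) ^ 4 := by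
              ring
          _ ≤ _ := add_le_add (mul_le_mul_of_nonneg_left n45 (by positivity))
              (mul_le_mul_of_nonneg_left n45 (by positivity))
      have t2 : -((c : ℝ) ^ 2 * N ^ 2 * x) ≤ (c : ℝ) ^ 2 * |E1| * N ^ 5 := by
        calc -((c : ℝ) ^ 2 * N ^ 2 * x) ≤ |(c : ℝ) ^ 2 * N ^ 2 * x| := neg_le_abs _
          _ = (c : ℝ) ^ 2 * N ^ 2 * |x| := by
              rw [abs_mul, abs_of_nonneg (by positivity : (0 : ℝ) ≤ (c : ℝ) ^ 2 * N ^ 2)]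
          _ ≤ (c : ℝ) ^ 2 * N ^ 2 * (|E1| * N ^ 2) := mul_le_mul_of_nonneg_left x1 (by positivity)
          _ = (c : ℝ) ^ 2 * |E1| * (N : ℝ) ^ 4 := by ring
          _ ≤ _ := mul_le_mul_of_nonneg_left n45 (by positivity)
      have t3 : 2 * (c : ℝ) * N * y ≤ 2 * |(c : ℝ)| * |E2| * N ^ 5 := by
        calc 2 * (c : ℝ) * N * y ≤ |2 * (c : ℝ) * N * y| := le_abs_self _
          _ = 2 * |(c : ℝ)| * N * |y| := by
              rw [abs_mul, abs_mul, abs_mul, Nat.abs_cast, abs_of_pos (by norm_num : (0 : ℝ) < 2)]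
          _ ≤ 2 * |(c : ℝ)| * N * (|E2| * N ^ 3) := mul_le_mul_of_nonneg_left y1 (by positivity)
          _ = 2 * |(c : ℝ)| * |E2| * (N : ℝ) ^ 4 := by ring
          _ ≤ _ := mul_le_mul_of_nonneg_left n45 (by positivity)
      have t4 : -z ≤ |E3| * N ^ 5 := (neg_le_abs z).trans z1
      have e1 : c₀ * (N : ℝ) ^ (5 + 1) = c₀ * N ^ 6 := by ring
      have e2 : ((c : ℝ) ^ 2 * a₀) * (N : ℝ) ^ (5 + 1) = ((c : ℝ) ^ 2 * a₀) * N ^ 6 := by ring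
      have e3 : (((|(c : ℝ)| + L) * |(c : ℝ)| + (c : ℝ) ^ 2) * |E1| +
          (|(c : ℝ)| + L + 2 * |(c : ℝ)|) * |E2| + |E3|) * (N : ℝ) ^ 5 =
          (|(c : ℝ)| + L) * |(c : ℝ)| * |E1| * N ^ 5 + (|(c : ℝ)| + L) * |E2| * N ^ 5 +
          (c : ℝ) ^ 2 * |E1| * N ^ 5 + 2 * |(c : ℝ)| * |E2| * N ^ 5 + |E3| * N ^ 5 := by ring
      rw [e1, e2, e3]
      linarith
    exact lead_le key

/-- Test configurations of the quotient with vanishing Futaki invariant. -/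
theorem QTestConf.exists_slope' (χ : QTestConf γ q D₀ r) (hfix : γ.Fixes D₀)
    (hD : T.X.deg D₀ = 105 * T.t * q) (hq : 0 < q) (hr : 8 ≤ r)
    {a₀ a₁ b₀ c₀ : ℝ} (hE : χ.Expansion a₀ a₁ b₀ 0 c₀) :
    ∃ c : ℤ, (∀ N : ℕ, 4 ≤ N → ∀ l : ℤ, χ.F N l ≠ ⊥ → l ≤ c * N) ∧ b₀ = c * a₀ ∧
      c₀ - b₀ ^ 2 / a₀ ≤ 0 := by
  obtain ⟨L, hL⟩ := χ.bound
  have ha := χ.toQFilt.a0_pos hfix hD hq hr hE
  obtain ⟨c, h1, h2⟩ := χ.exists_slope hfix hD hq hr hE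
  have ha1 := (χ.toQFilt.a_eq hfix hD hq hr hE).2
  subst ha1
  obtain ⟨h3, h4⟩ := χ.toQFilt.norm_le (L := L) hL hE h1
  have hb : b₀ = c * a₀ := le_antisymm h3 h2
  refine ⟨c, h1, hb, ?_⟩
  have h5 := h4 hb
  have e : b₀ ^ 2 / a₀ = (c : ℝ) ^ 2 * a₀ := by
    rw [hb]
    field_simp
  rw [e]
  linarith

/-- K-stability for large exponents. -/
theorem QTestConf.fut_pos_aux (χ : QTestConf γ q D₀ r) (hfix : γ.Fixes D₀)
    (hD : T.X.deg D₀ = 105 * T.t * q) (hq : 0 < q) (hr : 8 ≤ r)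
    {a₀ a₁ b₀ b₁ c₀ : ℝ} (hE : χ.Expansion a₀ a₁ b₀ b₁ c₀) (hn : 0 < c₀ - b₀ ^ 2 / a₀) :
    0 < (a₁ * b₀ - a₀ * b₁) / a₀ ^ 2 := by
  have ha := χ.toQFilt.a0_pos hfix hD hq hr hE
  have ha1 := (χ.toQFilt.a_eq hfix hD hq hr hE).2
  have hb1 := χ.b1_nonpos hfix hD hq hr hE
  have hb1' : b₁ ≠ 0 := by
    rintro rfl
    obtain ⟨c, _, _, h⟩ := χ.exists_slope' hfix hD hq hr hE
    linarith
  have hb : b₁ < 0 := lt_of_le_of_ne hb1 hb1'
  rw [ha1, zero_mul, zero_sub]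
  apply div_pos _ (by positivity)
  nlinarith

/-- K-semistability: the Futaki invariant of every test configuration of the quotient is
non-negative. -/
theorem QTestConf.fut_nonneg (χ : QTestConf γ q D₀ r) (hfix : γ.Fixes D₀)
    (hD : T.X.deg D₀ = 105 * T.t * q) (hq : 0 < q) (hr : 0 < r)
    {a₀ a₁ b₀ b₁ c₀ : ℝ} (hE : χ.Expansion a₀ a₁ b₀ b₁ c₀) :
    0 ≤ (a₁ * b₀ - a₀ * b₁) / a₀ ^ 2 := by
  have h8 : (8 : ℕ) ≤ r * 8 := Nat.le_mul_of_pos_left 8 hr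
  have hE8 := χ.ver_expansion (m := 8) (by norm_num) hE
  have ha := (χ.ver 8 (by norm_num)).toQFilt.a0_pos hfix hD hq h8 hE8
  have ha1 := ((χ.ver 8 (by norm_num)).toQFilt.a_eq hfix hD hq h8 hE8).2
  have hb1 := (χ.ver 8 (by norm_num)).b1_nonpos hfix hD hq h8 hE8
  have c8 : (0 : ℝ) < ((8 : ℕ) : ℝ) := by norm_num
  have ha0 : 0 < a₀ := by
    by_contra h
    push Not at h
    have : a₀ * ((8 : ℕ) : ℝ) ^ 4 ≤ 0 := mul_nonpos_of_nonpos_of_nonneg h (by positivity)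
    linarith
  have ha1' : a₁ = 0 := by
    rcases mul_eq_zero.1 ha1 with h | h
    · exact h
    · exact absurd h (by positivity)
  have hb1' : b₁ ≤ 0 := by
    by_contra h
    push Not at h
    have : 0 < b₁ * ((8 : ℕ) : ℝ) ^ 4 := by positivity
    linarith
  rw [ha1', zero_mul, zero_sub]
  apply div_nonneg _ (by positivity)
  nlinarith

/-- K-stability of the quotient: the Futaki invariant of every test configuration of positive
norm is positive. -/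
theorem QTestConf.fut_pos (χ : QTestConf γ q D₀ r) (hfix : γ.Fixes D₀)
    (hD : T.X.deg D₀ = 105 * T.t * q) (hq : 0 < q) (hr : 0 < r)
    {a₀ a₁ b₀ b₁ c₀ : ℝ} (hE : χ.Expansion a₀ a₁ b₀ b₁ c₀) (hn : 0 < c₀ - b₀ ^ 2 / a₀) :
    0 < (a₁ * b₀ - a₀ * b₁) / a₀ ^ 2 := by
  have h8 : (8 : ℕ) ≤ r * 8 := Nat.le_mul_of_pos_left 8 hr
  have hE8 := χ.ver_expansion (m := 8) (by norm_num) hE
  have ha := (χ.ver 8 (by norm_num)).toQFilt.a0_pos hfix hD hq h8 hE8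
  have c8 : (0 : ℝ) < ((8 : ℕ) : ℝ) := by norm_num
  have ha0 : a₀ ≠ 0 := by
    rintro rfl
    rw [zero_mul] at ha
    exact lt_irrefl _ ha
  have h := (χ.ver 8 (by norm_num)).fut_pos_aux hfix hD hq h8 hE8 (by
    have e : c₀ * ((8 : ℕ) : ℝ) ^ 6 - (b₀ * ((8 : ℕ) : ℝ) ^ 5) ^ 2 / (a₀ * ((8 : ℕ) : ℝ) ^ 4) =
        (c₀ - b₀ ^ 2 / a₀) * ((8 : ℕ) : ℝ) ^ 6 := by
      field_simp
    rw [e]
    positivity)
  have e : (a₁ * ((8 : ℕ) : ℝ) ^ 3 * (b₀ * ((8 : ℕ) : ℝ) ^ 5) - a₀ * ((8 : ℕ) : ℝ) ^ 4 *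
      (b₁ * ((8 : ℕ) : ℝ) ^ 4)) / (a₀ * ((8 : ℕ) : ℝ) ^ 4) ^ 2 =
      (a₁ * b₀ - a₀ * b₁) / a₀ ^ 2 := by
    field_simp
  rwa [e] at h

end Pool.Agent.YTD
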