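import Pool.Agent.YTD.SatL6

/-!
Test configurations of the quotient with vanishing Futaki invariant are almost trivial.
-/

namespace Pool.Agent.YTD

open Finset Module MvPolynomial Filter

variable {K : Type} [Field K] [Algebra ℂ K]
variable {T : Datum K} {q : ℕ} {D₀ : T.X.Pt →₀ ℤ} {r : ℕ}
variable {γ : Gam T} {L : ℕ}

/-- The total deficit of a test configuration with vanishing Futaki invariant. -/
theorem QTestConf.deficit (χ : QTestConf γ q D₀ r) (hfix : γ.Fixes D₀)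
    (hD : T.X.deg D₀ = 105 * T.t * q) (hq : 0 < q) (hr : 8 ≤ r)
    {a₀ a₁ b₀ c₀ : ℝ} (hE : χ.Expansion a₀ a₁ b₀ 0 c₀) :
    ∃ c : ℤ, (∀ N : ℕ, 4 ≤ N → ∀ l : ℤ, χ.F N l ≠ ⊥ → l ≤ c * N) ∧ b₀ = c * a₀ ∧
      ∃ C : ℝ, ∀ N : ℕ, 4 ≤ N → (finrank ℂ (γ.secQ q D₀ (r * N)) : ℝ) -
        finrank ℂ (χ.F N (c * N)) ≤ C * (N : ℝ) ^ 3 := by
  obtain ⟨L, hL⟩ := χ.bound
  have hL' : χ.toQFilt.Bdd L := hL
  obtain ⟨P₀⟩ := T.exists_pt
  obtain ⟨c, h1, hb, _⟩ := χ.exists_slope' hfix hD hq hr hE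
  have ha1 := (χ.toQFilt.a_eq hfix hD hq hr hE).2
  subst ha1
  refine ⟨c, h1, hb, ?_⟩
  obtain ⟨C, hC⟩ := QFilt.Bdd.tot_exp χ.toQFilt hL' hE
  obtain ⟨⟨E1, hE1⟩, -⟩ := hE
  -- the slope is at least `-L`
  have hcL : -(L : ℤ) ≤ c := by
    obtain ⟨e, he, he0⟩ := γ.exists_secQ_ne_zero hfix hD hq (N := r * 4) (by omega)
    have h2 := h1 4 le_rfl (-(L * (4 : ℕ))) (by
      intro h0
      rw [(hL 4).1] at h0
      rw [h0, Submodule.mem_bot] at he
      exact he0 he)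
    push_cast at h2
    linarith
  have hfin : ∀ N l, (finrank ℂ (χ.F N l) : ℝ) ≤ χ.dimN N := by
    intro N l
    have i1 := T.finite_sec P₀ q D₀ (r * N)
    have i2 : FiniteDimensional ℂ (γ.secQ q D₀ (r * N)) :=
      Submodule.finiteDimensional_of_le (γ.secQ_le q D₀ (r * N))
    have := Submodule.finrank_mono (χ.le N l)
    unfold QFilt.dimN
    exact_mod_cast this
  apply bound_all (C := ((c : ℝ) + L) * |E1| + |C|)
  filter_upwards [hC, hE1, eventually_ge_atTop 4] with N g1 g2 g3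
  have hN1 : (1 : ℝ) ≤ N := by
    have : 1 ≤ N := by omega
    exact_mod_cast this
  have hcL' : (0 : ℝ) ≤ (c : ℝ) + L := by
    have : -(L : ℝ) ≤ c := by exact_mod_cast hcL
    linarith
  have hN0 : (0 : ℤ) ≤ N := by positivity
  show χ.dimN N - (finrank ℂ (χ.F N (c * N)) : ℝ) ≤ _
  rcases lt_or_ge (-((L : ℤ) * N)) (c * N) with hlt | hge
  · -- the sum of the deficits
    have s1 : χ.dimN N - (finrank ℂ (χ.F N (c * N)) : ℝ) ≤
        ∑ l ∈ Ioc (-((L : ℤ) * N)) (c * N), (χ.dimN N - (finrank ℂ (χ.F N l) : ℝ)) :=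
      single_le_sum (f := fun l => χ.dimN N - (finrank ℂ (χ.F N l) : ℝ))
        (fun l _ => by have := hfin N l; linarith) (mem_Ioc.2 ⟨hlt, le_rfl⟩)
    have s2 : χ.toQFilt.totL L N ≤ ∑ l ∈ Ioc (-((L : ℤ) * N)) (c * N), (finrank ℂ (χ.F N l) : ℝ) := by
      unfold QFilt.totL
      have e1 : ∑ l ∈ Ioc (-((L * N : ℕ) : ℤ)) ((L * N : ℕ) : ℤ), (finrank ℂ (χ.F N l) : ℝ) =
          ∑ l ∈ (Ioc (-((L * N : ℕ) : ℤ)) ((L * N : ℕ) : ℤ)).filter (fun l : ℤ => l ≤ c * N),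
            (finrank ℂ (χ.F N l) : ℝ) := by
        symm
        apply sum_subset (filter_subset _ _)
        intro l hl hl'
        rw [mem_filter] at hl'
        push Not at hl'
        have h3 : χ.F N l = ⊥ := by
          by_contra h4
          have := h1 N g3 l h4
          have := hl' hl
          linarith
        rw [h3, finrank_bot, Nat.cast_zero]
      rw [e1]
      apply sum_le_sum_of_subset_of_nonneg
      · intro l hl
        rw [mem_filter, mem_Ioc] at hl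
        rw [mem_Ioc]
        push_cast at hl
        exact ⟨hl.1.1, hl.2⟩
      · intro _ _ _
        positivity
    rw [sum_sub_distrib, sum_const, Int.card_Ioc, nsmul_eq_mul] at s1
    have s3 : (((c * N - -((L : ℤ) * N)).toNat : ℕ) : ℝ) = ((c : ℝ) + L) * N := by
      have h3 : (((c * N - -((L : ℤ) * N)).toNat : ℕ) : ℤ) = c * N - -((L : ℤ) * N) :=
        Int.toNat_of_nonneg (by linarith)
      have h4 : ((((c * N - -((L : ℤ) * N)).toNat : ℕ) : ℤ) : ℝ) =
        ((c * N - -((L : ℤ) * N) : ℤ) : ℝ) := by rw [h3]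
      push_cast at h4
      rw [h4]
      ring
    rw [s3] at s1
    have g4 := (abs_le.1 g1).1
    have g5 := (abs_le.1 g2).2
    have g6 : ((c : ℝ) + L) * N * (χ.dimN N - (a₀ * N ^ 4 + 0 * N ^ 3)) ≤
        ((c : ℝ) + L) * |E1| * N ^ 3 := by
      calc ((c : ℝ) + L) * N * (χ.dimN N - (a₀ * N ^ 4 + 0 * N ^ 3)) ≤
          ((c : ℝ) + L) * N * (E1 * N ^ 2) := mul_le_mul_of_nonneg_left g5 (by positivity)
        _ ≤ ((c : ℝ) + L) * N * (|E1| * N ^ 2) := by
            apply mul_le_mul_of_nonneg_left _ (by positivity)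
            exact mul_le_mul_of_nonneg_right (le_abs_self _) (by positivity)
        _ = _ := by ring
    have g7 : C * (N : ℝ) ^ 3 ≤ |C| * N ^ 3 :=
      mul_le_mul_of_nonneg_right (le_abs_self _) (by positivity)
    have e2 : (b₀ + (L : ℝ) * a₀) * N ^ 5 + (0 + L * 0) * N ^ 4 =
        ((c : ℝ) + L) * N * (a₀ * N ^ 4 + 0 * N ^ 3) := by
      rw [hb]
      ring
    rw [e2] at g4
    have e3 : (((c : ℝ) + L) * |E1| + |C|) * (N : ℝ) ^ 3 =
      ((c : ℝ) + L) * |E1| * N ^ 3 + |C| * N ^ 3 := by ring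
    rw [e3]
    linarith
  · have h3 : χ.F N (c * N) = γ.secQ q D₀ (r * N) :=
      QFilt.Bdd.F_of_le χ.toQFilt hL' (by push_cast; exact hge)
    have h4 : χ.dimN N - (finrank ℂ (χ.F N (c * N)) : ℝ) = 0 := by
      rw [h3]
      unfold QFilt.dimN
      rw [sub_self]
    rw [h4]
    positivity

end Pool.Agent.YTD
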