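import Pool.Agent.YTD.TauRigid

/-!
The slope in the direction `j` vanishes.
-/

namespace Pool.Agent.YTD

open Finset Module MvPolynomial

variable {K : Type} [Field K] [Algebra ℂ K]
variable {T : Datum K} {q : ℕ} {D₀ : T.X.Pt →₀ ℤ} {r : ℕ}

theorem inR_vertex (Q N : ℕ) (ε : ℤ) (hε : ε = 1 ∨ ε = -1) : InR Q N (ε * (5 * Q * N)) 0 0 := by
  have h : (0 : ℤ) ≤ Q * N := by positivity
  have e5 : 5 * (Q : ℤ) * N = 5 * (Q * N) := by ring
  have e25 : 25 * (Q : ℤ) * N = 25 * (Q * N) := by ring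
  unfold InR
  rw [e5, e25]
  generalize (Q : ℤ) * N = x at *
  rcases hε with rfl | rfl
  · rw [one_mul, abs_of_nonneg (by positivity)]
    push_cast
    exact ⟨le_rfl, by linarith, by linarith⟩
  · rw [neg_mul, one_mul, abs_neg, abs_of_nonneg (by positivity)]
    push_cast
    exact ⟨le_rfl, by linarith, by linarith⟩

namespace Filt

variable {χ : Filt T q D₀ r}

/-- The leading exponent of the section of maximal slope, for a form depending on `j` only. -/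
theorem MaxData_lead {N₀ : ℕ} {l₀ : ℤ} {s : MvPolynomial (Fin 4) K} {c : T.X.Pt}
    {ρ : K →ₗ[ℂ] ℂ} (h : MaxData χ N₀ l₀ s c ρ) (hD : T.X.deg D₀ = 105 * T.t * q) (hq : 0 < q)
    (hr : 0 < r) {g g' : Matrix (Fin 2) (Fin 2) ℂ} (hg : IsUnit g) (hg' : IsUnit g')
    {m : MonomialOrder (Fin 4)} {ga de : ℤ} (hR : (χ.fl hg hg').Rigid m 0 0 ga de) :
    ∃ j a b, InR (r * q) N₀ j a b ∧ m.degree (subst g g' s) = expo (r * q) N₀ j a b ∧
      |ga| * (5 * ((r * q : ℕ) : ℤ) * N₀) ≤ ga * j := by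
  have hQ : 0 < r * q := Nat.mul_pos hr hq
  have hs' : subst g g' s ∈ (χ.fl hg hg').F N₀ l₀ := ⟨s, h.mem, rfl⟩
  have hs0 : subst g g' s ≠ 0 := by
    intro h0
    apply h.ne
    apply substU_injective hg hg'
    rw [h0, map_zero]
  obtain ⟨j, a, b, hin, hdeg, hne⟩ := (χ.fl hg hg').exists_degree_expo m hs' hs0
  refine ⟨j, a, b, hin, hdeg, ?_⟩
  have h1 := hR.upper N₀ h.N4 l₀ j a b hin hne
  have hN0 : (0 : ℤ) < N₀ := by
    have := h.N4
    have : 0 < N₀ := by omega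
    exact_mod_cast this
  have hup : ∀ ε : ℤ, (ε = 1 ∨ ε = -1) →
      ga * (ε * (5 * ((r * q : ℕ) : ℤ) * N₀)) + de * N₀ ≤ l₀ := by
    intro ε hε
    have h2 := hR.lw_le c hQ (deg_crit_mul hD r) (h.slope.tw _ _) (inR_vertex (r * q) N₀ ε hε)
    have h3 := le_of_mul_le_mul_right h2 hN0
    unfold lw at h3
    linarith
  have h2 := hup 1 (Or.inl rfl)
  have h3 := hup (-1) (Or.inr rfl)
  unfold lw at h1
  rcases abs_cases ga with ⟨h4, _⟩ | ⟨h4, _⟩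
  · rw [h4]
    linarith
  · rw [h4]
    linarith

theorem slope_nonneg (ι : Inv T) (hfix : ι.Fixes D₀)
    (htau : ∀ N l, ∀ f ∈ χ.F N l, ι.tauE f ∈ χ.F N l)
    (hD : T.X.deg D₀ = 105 * T.t * q) (hq : 0 < q) (hr : 0 < r)
    {N₀ : ℕ} {l₀ : ℤ} {s : MvPolynomial (Fin 4) K} {c : T.X.Pt} {ρ : K →ₗ[ℂ] ℂ}
    (h : MaxData χ N₀ l₀ s c ρ) {s' c' : ℤ}
    (hR : (χ.fl isUnit_one isUnit_one).Rigid (mPlus 1 1) 0 0 s' c') : 0 ≤ s' := by
  by_contra hneg
  push Not at hneg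
  have hQN : (0 : ℤ) < ((r * q : ℕ) : ℤ) * N₀ := by
    have h1 : 0 < r * q := Nat.mul_pos hr hq
    have h2 : 0 < N₀ := by
      have := h.N4
      omega
    have := Nat.mul_pos h1 h2
    exact_mod_cast this
  obtain ⟨j, a, b, hin, hdeg, hj⟩ := MaxData_lead h hD hq hr isUnit_one isUnit_one hR
  have hR2 := χ.rigid_fl_tau ι c hfix hD hq hr htau isUnit_one isUnit_one hR
  obtain ⟨j', a', b', hin', hdeg', hj'⟩ := MaxData_lead h hD hq hr isUnit_one isUnit_one hR2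
  rw [abs_neg, abs_of_neg hneg] at hj'
  rw [abs_of_neg hneg] at hj
  have e5 : 5 * ((r * q : ℕ) : ℤ) * N₀ = 5 * (((r * q : ℕ) : ℤ) * N₀) := by ring
  rw [e5] at hj hj'
  have k1 : j ≤ -(5 * (((r * q : ℕ) : ℤ) * N₀)) := by
    by_contra hcon
    push Not at hcon
    nlinarith
  have k2 : 5 * (((r * q : ℕ) : ℤ) * N₀) ≤ j' := by
    by_contra hcon
    push Not at hcon
    nlinarith
  -- both are exponents of the same section
  set s'' := subst (1 : Matrix (Fin 2) (Fin 2) ℂ) 1 s with hs''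
  have hs0 : s'' ≠ 0 := by
    rw [hs'', subst_one]
    exact h.ne
  have hc' : s''.coeff (expo (r * q) N₀ j' a' b') ≠ 0 := by
    rw [← hdeg']
    exact MonomialOrder.coeff_degree_ne_zero_iff.2 hs0
  have hle := refX_mPlus 1 1 _ _ ((mPlus 1 1).le_degree (MvPolynomial.mem_support_iff.2 hc'))
  rw [hdeg, xd_expo ((inR_iff hin.1).1 hin).1, xd_expo ((inR_iff hin'.1).1 hin').1] at hle
  have h1 := AA_cast hin.1
  have h2 := AA_cast hin'.1
  have h3 : (AA (r * q) N₀ j' : ℤ) ≤ AA (r * q) N₀ j := by exact_mod_cast hle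
  linarith

theorem slope_nonpos (ι : Inv T) (hfix : ι.Fixes D₀)
    (htau : ∀ N l, ∀ f ∈ χ.F N l, ι.tauE f ∈ χ.F N l) (H : χ.AllRigid)
    (hD : T.X.deg D₀ = 105 * T.t * q) (hq : 0 < q) (hr : 0 < r)
    {N₀ : ℕ} {l₀ : ℤ} {s : MvPolynomial (Fin 4) K} {c : T.X.Pt} {ρ : K →ₗ[ℂ] ℂ}
    (h : MaxData χ N₀ l₀ s c ρ) {s' c' : ℤ}
    (hR : ∀ (g h : Matrix (Fin 2) (Fin 2) ℂ) (hg : IsUnit g) (hh : IsUnit h),
      (χ.fl hg hh).Rigid (mPlus 1 1) 0 0 s' c') : s' ≤ 0 := by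
  by_contra hpos
  push Not at hpos
  have hQ : 0 < r * q := Nat.mul_pos hr hq
  have hQN : (0 : ℤ) < ((r * q : ℕ) : ℤ) * N₀ := by
    have h2 : 0 < N₀ := by
      have := h.N4
      omega
    have := Nat.mul_pos hQ h2
    exact_mod_cast this
  have e5 : 5 * ((r * q : ℕ) : ℤ) * N₀ = 5 * (((r * q : ℕ) : ℤ) * N₀) := by ring
  have e25 : 25 * ((r * q : ℕ) : ℤ) * N₀ = 25 * (((r * q : ℕ) : ℤ) * N₀) := by ring
  -- the top layer
  obtain ⟨j, a, b, hin, hdeg, hj⟩ :=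
    MaxData_lead h hD hq hr isUnit_one isUnit_one (hR 1 1 isUnit_one isUnit_one)
  rw [abs_of_pos hpos, e5] at hj
  have hjeq : j = 5 * (((r * q : ℕ) : ℤ) * N₀) := by
    apply le_antisymm
    · have := (abs_le.1 hin.1).2
      linarith
    · exact le_of_mul_le_mul_left hj hpos
  obtain ⟨A, hA⟩ := exists_topX h.ne
  have hsupp : ∀ e, s.coeff e ≠ 0 → e ∈ Eset (r * q) N₀ := by
    intro e he
    have h2 : s ∈ T.sec (r * q) (r • D₀) N₀ := by
      rw [T.sec_mul]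
      exact χ.le _ _ h.mem
    exact T.mem_Eset_of_coeff h2 he
  have hxd := hA.xd_degree ((refX_mPlus 1 1).refines _) hsupp
  rw [subst_one] at hdeg
  rw [hdeg, xd_expo ((inR_iff hin.1).1 hin).1] at hxd
  have hAc : (A : ℤ) = 40 * (((r * q : ℕ) : ℤ) * N₀) := by
    rw [← hxd, AA_cast hin.1, hjeq]
    ring
  -- a flag in which the top layer is not divisible by `x₀`
  obtain ⟨ξ, η, hξ1, _, hne⟩ := exists_evp_ne hA.ne
  set g : Matrix (Fin 2) (Fin 2) ℂ := !![1, ξ 0; 0, ξ 1] with hgdef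
  have hg : IsUnit g := by
    rw [Matrix.isUnit_iff_isUnit_det, hgdef, Matrix.det_fin_two_of, isUnit_iff_ne_zero]
    simpa using hξ1
  have hgξ : g.mulVec ![0, 1] = ξ := by
    ext i
    fin_cases i <;> simp [hgdef, Matrix.mulVec, dotProduct, Fin.sum_univ_two]
  obtain ⟨e, he, hxe, he0⟩ := exists_e0 (h := 1) hne isUnit_one hgξ
  -- the forms for `w-` and `wx`
  have hR2 := χ.rigid_fl_tau ι c hfix hD hq hr htau isUnit_one hg (hR 1 g isUnit_one hg)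
  obtain ⟨al, be, ga, de, hRX⟩ := H g 1 hg isUnit_one mX
  obtain ⟨rfl, rfl, rfl, rfl⟩ := hRX.wx_eq hR2 hpos.le hD hq hr (by
    intro N _ e _ e' _ hle
    exact mX_le hle)
  obtain ⟨j', a', b', hin', hdeg', hj'⟩ := MaxData_lead h hD hq hr hg isUnit_one hRX
  rw [abs_neg, abs_of_pos hpos, e5] at hj'
  have k2 : j' ≤ -(5 * (((r * q : ℕ) : ℤ) * N₀)) := by
    by_contra hcon
    push Not at hcon
    nlinarith
  -- compare the weights
  have hle := mX_le (mX.le_degree (MvPolynomial.mem_support_iff.2 he))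
  rw [hdeg', expo_1, expo_2, expo_3] at hle
  have hsupp' : e ∈ Eset (r * q) N₀ := by
    have h2 : subst g 1 s ∈ T.sec (r * q) (r • D₀) N₀ := by
      rw [T.sec_mul]
      exact subst_mem_sec g 1 (χ.le _ _ h.mem)
    exact T.mem_Eset_of_coeff h2 he
  have hye := expo_of_e2 hsupp' hin.1 (by rw [hxe, hxd])
  have hBc := BB_cast hin.1
  have hBc' := BB_cast hin'.1
  have hab' := (inR_iff hin'.1).1 hin'
  unfold xd at hxe
  rw [he0, zero_add] at hxe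
  rw [e25] at hBc hBc'
  rw [hjeq] at hBc
  have ha' := hin'.2.1
  rw [e25] at ha'
  have m1 : ((BB (r * q) N₀ j' - b' : ℕ) : ℤ) = BB (r * q) N₀ j' - b' := by
    push_cast [hab'.2]
    ring
  have m2 : (3 * e 1 + 2 * e 2 + 2 * e 3 : ℤ) ≤
      3 * a' + 2 * ((BB (r * q) N₀ j' - b' : ℕ) : ℤ) + 2 * b' := by exact_mod_cast hle
  have m3 : (e 1 : ℤ) = 40 * (((r * q : ℕ) : ℤ) * N₀) := by
    rw [← hAc]
    exact_mod_cast hxe
  have m4 : (e 2 : ℤ) + e 3 = BB (r * q) N₀ j := by exact_mod_cast hye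
  rw [m1] at m2
  linarith

/-- The weight is constant. -/
theorem exists_const (hΓ : χ.VInv) (ι : Inv T) (hfix : ι.Fixes D₀)
    (htau : ∀ N l, ∀ f ∈ χ.F N l, ι.tauE f ∈ χ.F N l) (H : χ.AllRigid)
    (hD : T.X.deg D₀ = 105 * T.t * q) (hq : 0 < q) (hr : 0 < r)
    {N₀ : ℕ} {l₀ : ℤ} {s : MvPolynomial (Fin 4) K} {c : T.X.Pt} {ρ : K →ₗ[ℂ] ℂ}
    (h : MaxData χ N₀ l₀ s c ρ) :
    ∃ c' : ℤ, (χ.fl isUnit_one isUnit_one).Rigid (mPlus 1 1) 0 0 0 c' := by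
  obtain ⟨s', c', hR⟩ := exists_sc hΓ H hD hq hr h
  have h1 := slope_nonneg ι hfix htau hD hq hr h (hR 1 1 isUnit_one isUnit_one _ (refX_mPlus 1 1))
  have h2 := slope_nonpos ι hfix htau H hD hq hr h
    (fun g h' hg hh => hR g h' hg hh _ (refX_mPlus 1 1))
  obtain rfl : s' = 0 := le_antisymm h2 h1
  exact ⟨c', hR 1 1 isUnit_one isUnit_one _ (refX_mPlus 1 1)⟩

end Filt

/-- The norm of an invariant test configuration with vanishing Futaki invariant is zero. -/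
theorem TestConf.norm_eq_zero (χ : TestConf T q D₀ r) (γ : Gam T) (hfix : γ.Fixes D₀)
    (hΓ : χ.GamInv γ) (H : χ.toFilt.AllRigid)
    (hD : T.X.deg D₀ = 105 * T.t * q) (hq : 0 < q) (hr : 0 < r)
    {a₀ a₁ b₀ b₁ c₀ : ℝ} (hE : χ.Expansion a₀ a₁ b₀ b₁ c₀) : c₀ - b₀ ^ 2 / a₀ = 0 := by
  obtain ⟨P₀, _⟩ : ∃ P : T.X.Pt, P ∈ T.S := by
    have h1 := T.card_S
    have h2 := T.t_pos
    have h3 : 0 < T.S.card := by omega
    exact Finset.card_pos.1 h3
  obtain ⟨N₀, l₀, s, c, ρ, h⟩ := χ.exists_maxData P₀ (Nat.mul_pos hr hq) (deg_crit_mul hD r)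
  obtain ⟨c', hR⟩ := Filt.exists_const hΓ.vInv γ.toInv hfix.inv hΓ.tau H hD hq hr h
  exact hR.norm_zero' hD hq hr ((Filt.expansion_tw χ.toFilt _ _).2 hE)

/-- Strictness: invariant test configurations of positive norm have non-zero `b₁`, given the
rigidity theorem for graded filtrations. -/
theorem TestConf.norm_eq_zero_of_b1 (hA : ThmA T) (χ : TestConf T q D₀ r) (γ : Gam T)
    (hfix : γ.Fixes D₀) (hΓ : χ.GamInv γ)
    (hD : T.X.deg D₀ = 105 * T.t * q) (hq : 0 < q) (hr : 0 < r)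
    {a₀ a₁ b₀ c₀ : ℝ} (hE : χ.Expansion a₀ a₁ b₀ 0 c₀) : c₀ - b₀ ^ 2 / a₀ = 0 :=
  χ.norm_eq_zero γ hfix hΓ (fun g h hg hh m =>
    χ.toFilt.rigid_all hA hq hr hD hE (substE K g h hg hh) (pres_substE hg hh) m) hD hq hr hE

end Pool.Agent.YTD
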