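import Pool.Agent.YTD.KSpan3

/-!
Specialization of sections to the fibre over a point of the curve.
-/

namespace Pool.Agent.YTD

open Finset Module MvPolynomial Filter

variable {K : Type} [Field K] [Algebra ℂ K]

namespace CurveOrd

variable (X : CurveOrd K)

/-- the order of vanishing of `z` at `P` is at least `c`. -/
def vge (P : X.Pt) (c : ℤ) (z : K) : Prop := z ≠ 0 → c ≤ X.ord P z

variable {X}

theorem vge_zero (P : X.Pt) (c : ℤ) : X.vge P c 0 := fun h => (h rfl).elim

theorem vge.mono {P : X.Pt} {c c' : ℤ} {z : K} (h : X.vge P c z) (hc : c' ≤ c) : X.vge P c' z :=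
  fun h0 => hc.trans (h h0)

theorem vge.add {P : X.Pt} {c : ℤ} {z w : K} (hz : X.vge P c z) (hw : X.vge P c w) :
    X.vge P c (z + w) := by
  intro h
  by_cases hz0 : z = 0
  · subst hz0
    rw [zero_add] at h ⊢
    exact hw h
  by_cases hw0 : w = 0
  · subst hw0
    rw [add_zero] at h ⊢
    exact hz h
  exact (le_min (hz hz0) (hw hw0)).trans (X.ord_add P z w hz0 hw0 h)

theorem vge_sum {P : X.Pt} {c : ℤ} {ι : Type*} (s : Finset ι) (f : ι → K)
    (h : ∀ i ∈ s, X.vge P c (f i)) : X.vge P c (∑ i ∈ s, f i) := by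
  classical
  induction s using Finset.induction_on with
  | empty => exact vge_zero P c
  | insert a s ha ih =>
    rw [sum_insert ha]
    exact (h a (mem_insert_self _ _)).add (ih fun i hi => h i (mem_insert_of_mem hi))

theorem vge.mul {P : X.Pt} {c d : ℤ} {z w : K} (hz : X.vge P c z) (hw : X.vge P d w) :
    X.vge P (c + d) (z * w) := by
  intro h
  rw [X.ord_mul P z w (left_ne_zero_of_mul h) (right_ne_zero_of_mul h)]
  exact add_le_add (hz (left_ne_zero_of_mul h)) (hw (right_ne_zero_of_mul h))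

theorem ord_neg (P : X.Pt) {z : K} (hz : z ≠ 0) : X.ord P (-z) = X.ord P z := by
  have h1 : -z = algebraMap ℂ K (-1) * z := by
    rw [map_neg, map_one, neg_one_mul]
  have h2 : algebraMap ℂ K (-1) ≠ 0 := by
    rw [map_neg, map_one]
    exact neg_ne_zero.2 one_ne_zero
  rw [h1, X.ord_mul P _ _ h2 hz, X.ord_const P _ (by norm_num), zero_add]

theorem vge.neg {P : X.Pt} {c : ℤ} {z : K} (hz : X.vge P c z) : X.vge P c (-z) := by
  intro h
  have hz0 : z ≠ 0 := fun h0 => h (by rw [h0, neg_zero])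
  rw [ord_neg P hz0]
  exact hz hz0

theorem ord_add_eq {P : X.Pt} {c : ℤ} {z w : K} (hz0 : z ≠ 0) (hz : X.ord P z = c)
    (hw : X.vge P (c + 1) w) : z + w ≠ 0 ∧ X.ord P (z + w) = c := by
  have h0 : z + w ≠ 0 := by
    intro h
    have h1 : w = -z := by
      rw [eq_neg_iff_add_eq_zero, add_comm]
      exact h
    have h2 := hw (by rw [h1]; exact neg_ne_zero.2 hz0)
    rw [h1, ord_neg P hz0, hz] at h2
    linarith
  refine ⟨h0, ?_⟩
  have hzc : X.vge P c z := fun _ => hz.ge
  have h1 := (hzc.add (hw.mono (by linarith))) h0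
  by_contra h2
  have h3 : c + 1 ≤ X.ord P (z + w) := by
    rcases lt_or_eq_of_le h1 with h | h
    · linarith
    · exact absurd h.symm h2
  have h4 : X.vge P (c + 1) (z + w) := fun _ => h3
  have h5 := (h4.add hw.neg) (by rw [add_neg_cancel_right]; exact hz0)
  rw [add_neg_cancel_right, hz] at h5
  linarith

/-- all coefficients of `s` have order at least `-n` at `P`. -/
def Int (P : X.Pt) (n : ℤ) (s : MvPolynomial (Fin 4) K) : Prop :=
  ∀ e, X.vge P (-n) (s.coeff e)

/-- `e` is the leading exponent of the restriction of `s` to the fibre over `P`. -/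
def SpecLead (m : MonomialOrder (Fin 4)) (P : X.Pt) (n : ℤ) (s : MvPolynomial (Fin 4) K)
    (e : Fin 4 →₀ ℕ) : Prop :=
  s.coeff e ≠ 0 ∧ X.ord P (s.coeff e) = -n ∧
    ∀ e', m.toSyn e < m.toSyn e' → X.vge P (-n + 1) (s.coeff e')

theorem Int.mul {P : X.Pt} {n n' : ℤ} {s s' : MvPolynomial (Fin 4) K} (h : X.Int P n s)
    (h' : X.Int P n' s') : X.Int P (n + n') (s * s') := by
  classical
  intro e
  rw [coeff_mul]
  apply vge_sum
  intro x _
  have := (h x.1).mul (h' x.2)
  exact this.mono (by linarith)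

theorem SpecLead.mul {m : MonomialOrder (Fin 4)} {P : X.Pt} {n n' : ℤ}
    {s s' : MvPolynomial (Fin 4) K} {e e' : Fin 4 →₀ ℕ} (hi : X.Int P n s) (hi' : X.Int P n' s')
    (h : X.SpecLead m P n s e) (h' : X.SpecLead m P n' s' e') :
    X.SpecLead m P (n + n') (s * s') (e + e') := by
  classical
  -- the terms of the product
  have key : ∀ x : (Fin 4 →₀ ℕ) × (Fin 4 →₀ ℕ), m.toSyn (e + e') ≤ m.toSyn (x.1 + x.2) →
      x ≠ (e, e') → X.vge P (-(n + n') + 1) (s.coeff x.1 * s'.coeff x.2) := by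
    intro x hx hne
    rw [map_add, map_add] at hx
    rcases lt_trichotomy (m.toSyn e) (m.toSyn x.1) with h1 | h1 | h1
    · exact ((h.2.2 _ h1).mul (hi' x.2)).mono (by linarith)
    · have h2 : m.toSyn e' ≤ m.toSyn x.2 := by
        rw [h1] at hx
        exact le_of_add_le_add_left hx
      rcases lt_or_eq_of_le h2 with h3 | h3
      · exact ((hi x.1).mul (h'.2.2 _ h3)).mono (by linarith)
      · exact absurd (Prod.ext (m.toSyn.injective h1.symm) (m.toSyn.injective h3.symm)) hne
    · have h2 : m.toSyn e' < m.toSyn x.2 := by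
        by_contra h3
        push Not at h3
        have := add_lt_add_of_lt_of_le h1 h3
        exact absurd hx (not_le.2 this)
      exact ((hi x.1).mul (h'.2.2 _ h2)).mono (by linarith)
  have h1 : (s * s').coeff (e + e') = s.coeff e * s'.coeff e' +
      ∑ x ∈ (antidiagonal (e + e')).erase (e, e'), s.coeff x.1 * s'.coeff x.2 := by
    have hm : ((e, e') : (Fin 4 →₀ ℕ) × (Fin 4 →₀ ℕ)) ∈ HasAntidiagonal.antidiagonal (e + e') :=
      HasAntidiagonal.mem_antidiagonal.2 rfl
    rw [coeff_mul]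
    symm
    exact Finset.add_sum_erase _ (fun x => s.coeff x.1 * s'.coeff x.2) hm
  have h2 : X.vge P (-(n + n') + 1)
      (∑ x ∈ (antidiagonal (e + e')).erase (e, e'), s.coeff x.1 * s'.coeff x.2) := by
    apply vge_sum
    intro x hx
    rw [mem_erase, HasAntidiagonal.mem_antidiagonal] at hx
    exact key x (by rw [hx.2]) hx.1
  have h3 := ord_add_eq (P := P) (c := -(n + n')) (mul_ne_zero h.1 h'.1)
    (by rw [X.ord_mul P _ _ h.1 h'.1, h.2.1, h'.2.1]; ring) h2
  rw [← h1] at h3
  refine ⟨h3.1, h3.2, ?_⟩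
  intro e'' he''
  rw [coeff_mul]
  apply vge_sum
  intro x hx
  rw [HasAntidiagonal.mem_antidiagonal] at hx
  apply key x (by rw [hx]; exact he''.le)
  rintro rfl
  rw [← hx] at he''
  exact lt_irrefl _ he''

end CurveOrd

end Pool.Agent.YTD
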