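import Pool.Agent.YTD.Spec

/-!
Counting the leading exponents of the restrictions of sections to a fibre.
-/

namespace Pool.Agent.YTD

open Finset Module MvPolynomial Filter CurveOrd

variable {K : Type} [Field K] [Algebra ℂ K]
variable {T : Datum K} {q : ℕ} {D₀ : T.X.Pt →₀ ℤ} {r : ℕ}

/-- the affine weight as a function of the exponent. -/
noncomputable def lwE (al be ga de : ℤ) (Q M : ℕ) (e : Fin 4 →₀ ℕ) : ℤ :=
  lw al be ga de M (((e 0 : ℤ) + e 1 - 25 * Q * M) / 3) (e 1) (e 3)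

theorem lwE_expo (al be ga de : ℤ) {Q M : ℕ} {j : ℤ} {a b : ℕ} (h : InR Q M j a b) :
    lwE al be ga de Q M (expo Q M j a b) = lw al be ga de M j a b := by
  unfold lwE
  rw [expo_sum_x h, expo_1, expo_3]
  congr 1
  have : 25 * (Q : ℤ) * M + 3 * j - 25 * Q * M = 3 * j := by ring
  rw [this]
  exact Int.mul_ediv_cancel_left j (by norm_num)

theorem dvs_off {Q : ℕ} {D : T.X.Pt →₀ ℤ} {P : T.X.Pt} (hS : P ∉ T.S) (hS' : P ∉ T.S') (M : ℕ)
    (j : ℤ) : T.dvs Q D M j P = M * D P := by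
  classical
  rw [dvs_apply, Finsupp.finsetSum_apply, Finsupp.finsetSum_apply]
  rw [sum_eq_zero, sum_eq_zero]
  · ring
  · intro x hx
    rw [Finsupp.single_apply, if_neg]
    rintro rfl
    exact hS' hx
  · intro x hx
    rw [Finsupp.single_apply, if_neg]
    rintro rfl
    exact hS hx

theorem sec_int {Q : ℕ} {D : T.X.Pt →₀ ℤ} {P : T.X.Pt} (hS : P ∉ T.S) (hS' : P ∉ T.S') {M : ℕ}
    {s : MvPolynomial (Fin 4) K} (hs : s ∈ T.sec Q D M) : T.X.Int P (M * D P) s := by
  intro e he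
  obtain ⟨j, _, _, _, h⟩ := hs e he
  have := h he P
  rw [dvs_off hS hS'] at this
  linarith

theorem expo_nsmul {Q N : ℕ} {j : ℤ} {a b : ℕ} (hin : InR Q N j a b) (k : ℕ) :
    k • expo Q N j a b = expo Q (k * N) (k * j) (k * a) (k * b) := by
  have hkin := hin.smul k
  ext i
  rw [Finsupp.smul_apply, smul_eq_mul]
  have h3 := hin.1
  have h4 := hkin.1
  have hA : AA Q (k * N) (k * j) = k * AA Q N j := by
    zify
    rw [AA_cast h4, AA_cast h3]
    push_cast
    ring
  have hB : BB Q (k * N) (k * j) = k * BB Q N j := by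
    zify
    rw [BB_cast h4, BB_cast h3]
    push_cast
    ring
  fin_cases i
  · show k * expo Q N j a b 0 = expo Q (k * N) (k * j) (k * a) (k * b) 0
    rw [expo_0, expo_0, hA, Nat.mul_sub]
  · rfl
  · show k * expo Q N j a b 2 = expo Q (k * N) (k * j) (k * a) (k * b) 2
    rw [expo_2, expo_2, hB, Nat.mul_sub]
  · rfl

theorem CurveOrd.SpecLead.pow {X : CurveOrd K} {m : MonomialOrder (Fin 4)} {P : X.Pt} {n : ℤ}
    {s : MvPolynomial (Fin 4) K} {e : Fin 4 →₀ ℕ} (hi : X.Int P n s)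
    (h : X.SpecLead m P n s e) (k : ℕ) :
    X.Int P (k * n) (s ^ k) ∧ X.SpecLead m P (k * n) (s ^ k) (k • e) := by
  classical
  induction k with
  | zero =>
    have h1 : X.Int P (((0 : ℕ) : ℤ) * n) (s ^ 0) := by
      intro e he
      rw [pow_zero, ← C_1, coeff_C] at he ⊢
      split_ifs at he ⊢ with h0
      · rw [X.ord_one]
        simp
      · exact absurd rfl he
    refine ⟨h1, ?_, ?_, ?_⟩
    · rw [zero_smul, pow_zero, ← C_1, coeff_C, if_pos rfl]
      exact one_ne_zero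
    · rw [zero_smul, pow_zero, ← C_1, coeff_C, if_pos rfl, X.ord_one]
      simp
    · intro e' he'
      rw [zero_smul] at he'
      rw [pow_zero, ← C_1, coeff_C, if_neg]
      · exact vge_zero _ _
      · rintro rfl
        exact lt_irrefl _ he'
  | succ k ih =>
    have e1 : ((k + 1 : ℕ) : ℤ) * n = k * n + n := by push_cast; ring
    rw [pow_succ, e1, succ_nsmul]
    exact ⟨ih.1.mul hi, ih.2.mul ih.1 hi h⟩

namespace Filt

variable {χ : Filt T q D₀ r}

/-- exponents of elements of the `K`-span. -/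
theorem mem_Eset_of_span {M : ℕ} {l : ℤ} {f : MvPolynomial (Fin 4) K}
    (hf : f ∈ Submodule.span K (χ.F M l : Set (MvPolynomial (Fin 4) K))) {e : Fin 4 →₀ ℕ}
    (he : f.coeff e ≠ 0) : e ∈ Eset (r * q) M := by
  by_contra h
  apply he
  clear he
  induction hf using Submodule.span_induction with
  | mem x hx =>
    by_contra h1
    exact h (T.mem_Eset_of_coeff (χ.F_le M l hx) h1)
  | zero => simp
  | add x y _ _ hx hy => rw [coeff_add, hx, hy, add_zero]
  | smul c x _ hx => rw [coeff_smul, hx, smul_zero]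

open Classical in
/-- the leading exponents of the restrictions to the fibre over `P` of the elements of `F M l`. -/
noncomputable def specSet (χ : Filt T q D₀ r) (m : MonomialOrder (Fin 4)) (P : T.X.Pt) (M : ℕ)
    (l : ℤ) : Finset (Fin 4 →₀ ℕ) :=
  (Eset (r * q) M).filter fun e => ∃ s ∈ χ.F M l, T.X.SpecLead m P (M * (r • D₀) P) s e

theorem Rigid.card_specSet_le {m : MonomialOrder (Fin 4)} {al be ga de : ℤ}
    (hR : χ.Rigid m al be ga de) (P₀ : T.X.Pt) (hQ : 0 < r * q)
    (hD : T.X.deg (r • D₀) = 105 * T.t * (r * q : ℕ)) {P : T.X.Pt} (hS : P ∉ T.S) (hS' : P ∉ T.S')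
    (M : ℕ) (l : ℤ) : (χ.specSet m P M l).card ≤
      ((Eset (r * q) M).filter fun e => l ≤ lwE al be ga de (r * q) M e).card := by
  classical
  set I := χ.specSet m P M l with hI
  set J := (Eset (r * q) M).filter fun e => l ≤ lwE al be ga de (r * q) M e with hJ
  have hIs : ∀ e : I, ∃ s ∈ χ.F M l, T.X.SpecLead m P (M * (r • D₀) P) s (e : Fin 4 →₀ ℕ) := by
    intro e
    exact (mem_filter.1 e.2).2
  choose s hs hs' using hIs
  have hint : ∀ e : I, T.X.Int P (M * (r • D₀) P) (s e) := fun e => sec_int hS hS' (χ.F_le M l (hs e))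
  let Ψ : (I → K) →ₗ[K] MvPolynomial (Fin 4) K :=
    { toFun := fun x => ∑ e : I, x e • s e
      map_add' := by
        intro x y
        rw [← sum_add_distrib]
        exact sum_congr rfl fun e _ => by rw [Pi.add_apply, add_smul]
      map_smul' := by
        intro c x
        rw [RingHom.id_apply, smul_sum]
        exact sum_congr rfl fun e _ => by rw [Pi.smul_apply, smul_eq_mul, mul_smul] }
  have hΨ : ∀ x, Ψ x = ∑ e : I, x e • s e := fun x => rfl
  have hΨspan : ∀ x, Ψ x ∈ Submodule.span K (χ.F M l : Set (MvPolynomial (Fin 4) K)) := by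
    intro x
    rw [hΨ]
    exact sum_mem fun e _ => Submodule.smul_mem _ _ (Submodule.subset_span (hs e))
  -- non-vanishing
  have hne : ∀ x, x ≠ 0 → Ψ x ≠ 0 := by
    intro x hx
    obtain ⟨e₀, he₀⟩ := Function.ne_iff.1 hx
    have hA : (univ.filter fun e : I => x e ≠ 0).Nonempty := ⟨e₀, by simpa using he₀⟩
    obtain ⟨e₁, he₁, hmin⟩ := exists_min_image _ (fun e => T.X.ord P (x e)) hA
    rw [mem_filter] at he₁
    set v := T.X.ord P (x e₁) with hv
    have hB : (univ.filter fun e : I => x e ≠ 0 ∧ T.X.ord P (x e) = v).Nonempty :=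
      ⟨e₁, by
        rw [mem_filter]
        exact ⟨mem_univ _, he₁.2, rfl⟩⟩
    obtain ⟨e₂, he₂, hmax⟩ := exists_max_image _ (fun e : I => m.toSyn (e : Fin 4 →₀ ℕ)) hB
    rw [mem_filter] at he₂
    obtain ⟨_, hx2, hord2⟩ := he₂
    intro h0
    have h1 : (Ψ x).coeff (e₂ : Fin 4 →₀ ℕ) = x e₂ * (s e₂).coeff (e₂ : Fin 4 →₀ ℕ) +
        ∑ e ∈ univ.erase e₂, x e * (s e).coeff (e₂ : Fin 4 →₀ ℕ) := by
      rw [hΨ, coeff_sum]
      simp only [coeff_smul, smul_eq_mul]
      symm
      exact Finset.add_sum_erase univ (fun e => x e * (s e).coeff (e₂ : Fin 4 →₀ ℕ)) (mem_univ _)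
    have h2 : T.X.vge P (v + -(M * (r • D₀) P) + 1)
        (∑ e ∈ univ.erase e₂, x e * (s e).coeff (e₂ : Fin 4 →₀ ℕ)) := by
      apply vge_sum
      intro e he
      rw [mem_erase] at he
      by_cases hxe : x e = 0
      · rw [hxe, zero_mul]
        exact vge_zero _ _
      have hve : v ≤ T.X.ord P (x e) := hmin e (by
        rw [mem_filter]
        exact ⟨mem_univ _, hxe⟩)
      rcases lt_or_eq_of_le hve with h3 | h3
      · have g1 : T.X.vge P (v + 1) (x e) := fun _ => h3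
        exact (g1.mul (hint e (e₂ : Fin 4 →₀ ℕ))).mono (by linarith)
      · have g2 : m.toSyn (e : Fin 4 →₀ ℕ) ≤ m.toSyn (e₂ : Fin 4 →₀ ℕ) := hmax e (by
          rw [mem_filter]
          exact ⟨mem_univ _, hxe, h3.symm⟩)
        have g3 : m.toSyn (e : Fin 4 →₀ ℕ) ≠ m.toSyn (e₂ : Fin 4 →₀ ℕ) := by
          intro h4
          exact he.1 (Subtype.ext (m.toSyn.injective h4))
        have g4 := (hs' e).2.2 _ (lt_of_le_of_ne g2 g3)
        have g5 : T.X.vge P v (x e) := fun _ => hve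
        exact (g5.mul g4).mono (by linarith)
    have h3 := ord_add_eq (P := P) (c := v + -(M * (r • D₀) P))
      (mul_ne_zero hx2 (hs' e₂).1) (by
        rw [T.X.ord_mul P _ _ hx2 (hs' e₂).1, hord2, (hs' e₂).2.1]) h2
    rw [← h1, h0, coeff_zero] at h3
    exact h3.1 rfl
  -- the comparison of dimensions
  let Φ : (I → K) →ₗ[K] (J → K) := LinearMap.pi fun e => (MvPolynomial.lcoeff K (e : Fin 4 →₀ ℕ)).comp Ψ
  have hΦ : Function.Injective Φ := by
    rw [injective_iff_map_eq_zero]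
    intro x hx
    by_contra hx0
    have h1 := hne x hx0
    have h2 := MonomialOrder.degree_mem_support (m := m) h1
    rw [MvPolynomial.mem_support_iff] at h2
    have h3 := mem_Eset_of_span (hΨspan x) h2
    obtain ⟨j, a, b, hin, he⟩ := mem_Eset.1 h3
    have h4 := hR.kspan P₀ hQ hD (hΨspan x) h1 hin he
    have h5 : m.degree (Ψ x) ∈ J := by
      rw [hJ, mem_filter]
      refine ⟨h3, ?_⟩
      rw [he, lwE_expo _ _ _ _ hin]
      exact h4
    have h6 := congrFun hx ⟨_, h5⟩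
    exact h2 h6
  have h := LinearMap.finrank_le_finrank_of_injective hΦ
  rw [Module.finrank_pi, Module.finrank_pi, Fintype.card_coe, Fintype.card_coe] at h
  exact h

/-- full pieces give leading exponents on the fibre. -/
theorem mem_specSet_of_full (P₀ : T.X.Pt) (hQ : 0 < r * q)
    (hD : T.X.deg (r • D₀) = 105 * T.t * (r * q : ℕ)) {P : T.X.Pt} (hS : P ∉ T.S) (hS' : P ∉ T.S')
    {m : MonomialOrder (Fin 4)} {M : ℕ} (hM : 4 ≤ M) {l : ℤ} {e : Fin 4 →₀ ℕ}
    (he : e ∈ Eset (r * q) M)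
    (hfull : ini m (χ.F M l) e = ini m (T.sec (r * q) (r • D₀) M) e) : e ∈ χ.specSet m P M l := by
  classical
  unfold specSet
  rw [mem_filter]
  refine ⟨he, ?_⟩
  obtain ⟨j, a, b, hin, rfl⟩ := mem_Eset.1 he
  rw [T.ini_sec m hin] at hfull
  obtain ⟨z, hz, hz0, hz1⟩ := T.X.exists_ord_eq P₀ (Graded.deg_ge hD hQ hM hin.1) P
  have hz' : z ∈ ini m (χ.F M l) (expo (r * q) M j a b) := by
    rw [hfull]
    exact hz
  obtain ⟨s, hs, hs1, rfl⟩ := mem_ini.1 hz'
  refine ⟨s, hs, hz0, ?_, ?_⟩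
  · rw [hz1, dvs_off hS hS']
  · intro e' he'
    have : s.coeff e' = 0 := by
      by_contra h
      exact absurd (hs1 e' h) (not_le.2 he')
    rw [this]
    exact vge_zero _ _

open Classical in
/-- the number of non-full pieces is `O(M^3)`. -/
theorem Rigid.count {m : MonomialOrder (Fin 4)} {al be ga de : ℤ}
    (hR : χ.Rigid m al be ga de) (P₀ : T.X.Pt) : ∃ C : ℝ, 0 ≤ C ∧
      ∀ (M : ℕ) (Ls : (Fin 4 →₀ ℕ) → Finset ℤ), 4 ≤ M →
      ∑ e ∈ Eset (r * q) M, (((Ls e).filter fun l => l ≤ lwE al be ga de (r * q) M e ∧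
        ini m (χ.F M l) e ≠ ini m (T.sec (r * q) (r • D₀) M) e).card : ℝ) ≤ C * (M : ℝ) ^ 3 := by
  obtain ⟨C, hC⟩ := hR.full
  refine ⟨max C 0, le_max_right _ _, ?_⟩
  intro M Ls hM
  have hM3 : (0 : ℝ) ≤ (M : ℝ) ^ 3 := by positivity
  refine le_trans ?_ ((hC M hM).trans (mul_le_mul_of_nonneg_right (le_max_left _ _) hM3))
  rw [sum_Eset]
  apply sum_le_sum
  intro j hj
  apply sum_le_sum
  intro a ha
  apply sum_le_sum
  intro b hb
  have hin : InR (r * q) M j a b := (inR_iff (mem_Icc_iff'.1 hj)).2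
    ⟨Nat.lt_succ_iff.1 (mem_range.1 ha), Nat.lt_succ_iff.1 (mem_range.1 hb)⟩
  rw [lwE_expo _ _ _ _ hin, T.ini_sec m hin]
  have hfinV : FiniteDimensional ℂ (T.V (r * q) (r • D₀) M j) := T.X.finite_L P₀ _
  calc ((((Ls (expo (r * q) M j a b)).filter fun l => l ≤ lw al be ga de M j a b ∧
        ini m (χ.F M l) (expo (r * q) M j a b) ≠ T.V (r * q) (r • D₀) M j).card : ℕ) : ℝ)
      = ∑ _l ∈ (Ls (expo (r * q) M j a b)).filter (fun l => l ≤ lw al be ga de M j a b ∧
        ini m (χ.F M l) (expo (r * q) M j a b) ≠ T.V (r * q) (r • D₀) M j), (1 : ℝ) := by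
        rw [sum_const, nsmul_eq_mul, mul_one]
    _ ≤ ∑ l ∈ (Ls (expo (r * q) M j a b)).filter (fun l => l ≤ lw al be ga de M j a b ∧
        ini m (χ.F M l) (expo (r * q) M j a b) ≠ T.V (r * q) (r • D₀) M j),
          ((finrank ℂ (T.V (r * q) (r • D₀) M j) : ℝ) -
            finrank ℂ (ini m (χ.F M l) (expo (r * q) M j a b))) := by
        apply sum_le_sum
        intro l hl
        rw [mem_filter] at hl
        have h1 : ini m (χ.F M l) (expo (r * q) M j a b) < T.V (r * q) (r • D₀) M j :=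
          lt_of_le_of_ne (χ.ini_le m hin) hl.2.2
        have h2 := Submodule.finrank_lt_finrank_of_lt h1
        have h3 : (finrank ℂ (ini m (χ.F M l) (expo (r * q) M j a b)) : ℝ) + 1 ≤
          finrank ℂ (T.V (r * q) (r • D₀) M j) := by exact_mod_cast h2
        linarith
    _ ≤ _ := by
        apply sum_le_sum_of_subset_of_nonneg
        · intro l hl
          rw [mem_filter] at hl
          rw [mem_Ioc]
          refine ⟨?_, hl.2.1⟩
          by_contra h
          push Not at h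
          apply hl.2.2
          rw [χ.F_eq_sec h, T.ini_sec m hin]
        · intro l _ _
          exact χ.codim_nonneg P₀ m l hin

end Filt

end Pool.Agent.YTD
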