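import Pool.Agent.YTD.Spec2

/-!
The weight bound for the restrictions of sections to a fibre.
-/

namespace Pool.Agent.YTD

open Finset Module MvPolynomial Filter CurveOrd

variable {K : Type} [Field K] [Algebra ℂ K]
variable {T : Datum K} {q : ℕ} {D₀ : T.X.Pt →₀ ℤ} {r : ℕ}

namespace Filt

variable {χ : Filt T q D₀ r}

open Classical in
/-- the number of violators is `O(M^3)`. -/
theorem Rigid.violators {m : MonomialOrder (Fin 4)} {al be ga de : ℤ}
    (hR : χ.Rigid m al be ga de) (P₀ : T.X.Pt) (hQ : 0 < r * q)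
    (hD : T.X.deg (r • D₀) = 105 * T.t * (r * q : ℕ)) {P : T.X.Pt} (hS : P ∉ T.S)
    (hS' : P ∉ T.S') : ∃ C : ℝ, 0 ≤ C ∧ ∀ (M : ℕ) (Ls : Finset ℤ), 4 ≤ M →
      ∑ l ∈ Ls, (((χ.specSet m P M l).filter fun e => lwE al be ga de (r * q) M e < l).card : ℝ) ≤
        C * (M : ℝ) ^ 3 := by
  obtain ⟨C, hC0, hC⟩ := hR.count P₀
  refine ⟨C, hC0, ?_⟩
  intro M Ls hM
  refine le_trans ?_ (hC M (fun _ => Ls) hM)
  have h1 : ∀ l : ℤ, ((χ.specSet m P M l).filter fun e => lwE al be ga de (r * q) M e < l).card ≤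
      ((Eset (r * q) M).filter fun e => l ≤ lwE al be ga de (r * q) M e ∧
        ini m (χ.F M l) e ≠ ini m (T.sec (r * q) (r • D₀) M) e).card := by
    intro l
    have h2 := hR.card_specSet_le P₀ hQ hD hS hS' M l
    have h3 := card_filter_add_card_filter_not (s := χ.specSet m P M l)
      (p := fun e => lwE al be ga de (r * q) M e < l)
    have h4 := card_filter_add_card_filter_not
      (s := (Eset (r * q) M).filter fun e => l ≤ lwE al be ga de (r * q) M e)
      (p := fun e => e ∈ χ.specSet m P M l)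
    have h5 : ((χ.specSet m P M l).filter fun e => ¬ lwE al be ga de (r * q) M e < l) =
        ((Eset (r * q) M).filter fun e => l ≤ lwE al be ga de (r * q) M e).filter
          fun e => e ∈ χ.specSet m P M l := by
      ext e
      simp only [mem_filter, not_lt]
      constructor
      · rintro ⟨h6, h7⟩
        exact ⟨⟨(mem_filter.1 h6).1, h7⟩, h6⟩
      · rintro ⟨⟨_, h7⟩, h6⟩
        exact ⟨h6, h7⟩
    have h6 : (((Eset (r * q) M).filter fun e => l ≤ lwE al be ga de (r * q) M e).filter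
          fun e => ¬ e ∈ χ.specSet m P M l).card ≤
        ((Eset (r * q) M).filter fun e => l ≤ lwE al be ga de (r * q) M e ∧
        ini m (χ.F M l) e ≠ ini m (T.sec (r * q) (r • D₀) M) e).card := by
      apply card_le_card
      intro e he
      rw [mem_filter, mem_filter] at he
      rw [mem_filter]
      refine ⟨he.1.1, he.1.2, ?_⟩
      intro h7
      exact he.2 (mem_specSet_of_full P₀ hQ hD hS hS' hM he.1.1 h7)
    rw [h5] at h3
    omega
  calc ∑ l ∈ Ls, (((χ.specSet m P M l).filter fun e =>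
          lwE al be ga de (r * q) M e < l).card : ℝ)
      ≤ ∑ l ∈ Ls, (((Eset (r * q) M).filter fun e => l ≤ lwE al be ga de (r * q) M e ∧
        ini m (χ.F M l) e ≠ ini m (T.sec (r * q) (r • D₀) M) e).card : ℝ) := by
        apply sum_le_sum
        intro l _
        exact_mod_cast h1 l
    _ = ∑ e ∈ Eset (r * q) M, ((Ls.filter fun l => l ≤ lwE al be ga de (r * q) M e ∧
        ini m (χ.F M l) e ≠ ini m (T.sec (r * q) (r • D₀) M) e).card : ℝ) := by
        have := sum_card_bipartiteAbove_eq_sum_card_bipartiteBelow (s := Ls) (t := Eset (r * q) M)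
          (fun (l : ℤ) (e : Fin 4 →₀ ℕ) => l ≤ lwE al be ga de (r * q) M e ∧
            ini m (χ.F M l) e ≠ ini m (T.sec (r * q) (r • D₀) M) e)
        exact_mod_cast this

theorem pow_mem_F {N : ℕ} {l : ℤ} {s : MvPolynomial (Fin 4) K} (hs : s ∈ χ.F N l) (k : ℕ)
    (hk : 1 ≤ k) : s ^ k ∈ χ.F (k * N) (k * l) := by
  induction k, hk using Nat.le_induction with
  | base =>
    rw [pow_one, one_mul, Nat.cast_one, one_mul]
    exact hs
  | succ k _ ih =>
    have h := χ.mul (k * N) N (k * l) l _ ih _ hs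
    rw [pow_succ]
    have e1 : (k + 1) * N = k * N + N := by ring
    have e2 : ((k + 1 : ℕ) : ℤ) * l = k * l + l := by push_cast; ring
    rw [e1, e2]
    exact h

/-- **The weight bound on the fibres.** -/
theorem Rigid.spec {m : MonomialOrder (Fin 4)} {al be ga de : ℤ}
    (hR : χ.Rigid m al be ga de) (P₀ : T.X.Pt) (hQ : 0 < r * q)
    (hD : T.X.deg (r • D₀) = 105 * T.t * (r * q : ℕ)) {P : T.X.Pt} (hS : P ∉ T.S)
    (hS' : P ∉ T.S') {N : ℕ} {l : ℤ} {s : MvPolynomial (Fin 4) K} (hs : s ∈ χ.F N l)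
    {j : ℤ} {a b : ℕ} (hin : InR (r * q) N j a b)
    (hlead : T.X.SpecLead m P (N * (r • D₀) P) s (expo (r * q) N j a b)) :
    l ≤ lw al be ga de N j a b := by
  classical
  by_contra hlt
  push Not at hlt
  obtain ⟨C₁, hC₁0, hC₁⟩ := hR.violators P₀ hQ hD hS hS'
  obtain ⟨C₂, hC₂0, hC₂⟩ := hR.count P₀
  obtain ⟨M, hM⟩ := exists_nat_gt (C₂ + C₁ * ((N : ℝ) + 1) ^ 3 + 4)
  have hNp : 0 ≤ C₁ * ((N : ℝ) + 1) ^ 3 := by positivity
  have hM4' : (4 : ℝ) < M := by linarith
  have hM4 : 4 ≤ M := by exact_mod_cast hM4'.le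
  -- the box
  set E : ℕ × ℕ × ℕ → (Fin 4 →₀ ℕ) := fun p => expo (r * q) M (p.1 : ℤ) p.2.1 p.2.2 with hE
  set R : Finset (ℕ × ℕ × ℕ) := range M ×ˢ range M ×ˢ range M with hRdef
  have hRin : ∀ p ∈ R, InR (r * q) M (p.1 : ℤ) p.2.1 p.2.2 := by
    intro p hp
    rw [hRdef, mem_product, mem_product, mem_range, mem_range, mem_range] at hp
    exact inR_box hQ hp.1.le hp.2.1.le hp.2.2.le
  have hEinj : Set.InjOn E (R : Set (ℕ × ℕ × ℕ)) := by
    intro p hp p' hp' h
    have h0 := expo_sum_x (hRin p hp)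
    have h0' := expo_sum_x (hRin p' hp')
    have h1 : p.2.1 = p'.2.1 := by
      have := congrArg (fun e : Fin 4 →₀ ℕ => e 1) h
      exact this
    have h2 : p.2.2 = p'.2.2 := by
      have := congrArg (fun e : Fin 4 →₀ ℕ => e 3) h
      exact this
    have h3 : p.1 = p'.1 := by
      have h4 : expo (r * q) M (p.1 : ℤ) p.2.1 p.2.2 = expo (r * q) M (p'.1 : ℤ) p'.2.1 p'.2.2 := h
      rw [h4] at h0
      rw [h0] at h0'
      have : (p.1 : ℤ) = p'.1 := by linarith
      exact_mod_cast this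
    exact Prod.ext h3 (Prod.ext h1 h2)
  set B : Finset (Fin 4 →₀ ℕ) := R.image E with hB
  have hBcard : B.card = M * (M * M) := by
    rw [hB, card_image_of_injOn hEinj, hRdef, card_product, card_product, card_range]
  have hBE : B ⊆ Eset (r * q) M := by
    intro e he
    obtain ⟨p, hp, rfl⟩ := mem_image.1 he
    exact mem_Eset.2 ⟨_, _, _, hRin p hp, rfl⟩
  set Ls : (Fin 4 →₀ ℕ) → Finset ℤ := fun e =>
    (range M).image fun i : ℕ => lwE al be ga de (r * q) M e - i with hLs
  have hLcard : ∀ e, (Ls e).card = M := by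
    intro e
    rw [hLs]
    simp only
    rw [card_image_of_injective, card_range]
    intro i i' h
    have : (i : ℤ) = i' := by
      simp only at h
      linarith
    exact_mod_cast this
  have hLle : ∀ e, ∀ l' ∈ Ls e, l' ≤ lwE al be ga de (r * q) M e ∧
      lwE al be ga de (r * q) M e < l' + M := by
    intro e l' hl'
    obtain ⟨i, hi, rfl⟩ := mem_image.1 hl'
    rw [mem_range] at hi
    have hi' : (i : ℤ) < M := by exact_mod_cast hi
    have hi0 : (0 : ℤ) ≤ i := by positivity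
    constructor <;> linarith
  set G : Finset ((_ : Fin 4 →₀ ℕ) × ℤ) := B.sigma fun e => (Ls e).filter fun l' =>
    ¬ (l' ≤ lwE al be ga de (r * q) M e ∧
        ini m (χ.F M l') e ≠ ini m (T.sec (r * q) (r • D₀) M) e) with hG
  have hGcard : (M : ℝ) ^ 4 - C₂ * (M : ℝ) ^ 3 ≤ G.card := by
    have h1 : G.card + ∑ e ∈ B, ((Ls e).filter fun l' => (l' ≤ lwE al be ga de (r * q) M e ∧
        ini m (χ.F M l') e ≠ ini m (T.sec (r * q) (r • D₀) M) e)).card = M * (M * M) * M := by
      rw [hG, card_sigma, ← sum_add_distrib, ← hBcard, ← smul_eq_mul (a := B.card), ← sum_const]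
      apply sum_congr rfl
      intro e _
      rw [add_comm, card_filter_add_card_filter_not, hLcard]
    have h2 : (G.card : ℝ) + ∑ e ∈ B, (((Ls e).filter fun l' =>
        (l' ≤ lwE al be ga de (r * q) M e ∧
        ini m (χ.F M l') e ≠ ini m (T.sec (r * q) (r • D₀) M) e)).card : ℝ) = M * (M * M) * M := by
      exact_mod_cast h1
    have h3 : ∑ e ∈ B, (((Ls e).filter fun l' =>
        (l' ≤ lwE al be ga de (r * q) M e ∧
        ini m (χ.F M l') e ≠ ini m (T.sec (r * q) (r • D₀) M) e)).card : ℝ) ≤ C₂ * (M : ℝ) ^ 3 := by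
      refine le_trans ?_ (hC₂ M Ls hM4)
      apply sum_le_sum_of_subset_of_nonneg hBE
      intro _ _ _
      positivity
    have h4 : (M : ℝ) * (M * M) * M = (M : ℝ) ^ 4 := by ring
    linarith
  -- the violators
  set L' : Finset ℤ := G.image fun p => (M : ℤ) * l + p.2 with hL'
  set V : Finset ((_ : ℤ) × (Fin 4 →₀ ℕ)) := L'.sigma fun l' =>
    (χ.specSet m P (M * N + M) l').filter fun e => lwE al be ga de (r * q) (M * N + M) e < l'
    with hV
  have hVcard : (V.card : ℝ) ≤ C₁ * ((M * N + M : ℕ) : ℝ) ^ 3 := by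
    rw [hV, card_sigma, Nat.cast_sum]
    exact hC₁ (M * N + M) L' (by nlinarith)
  have hpow : s ^ M ∈ χ.F (M * N) (M * l) := pow_mem_F hs M (by omega)
  have hint : T.X.Int P (N * (r • D₀) P) s := sec_int hS hS' (χ.F_le N l hs)
  obtain ⟨hpi, hpl⟩ := hlead.pow hint M
  have hGV : G.card ≤ V.card := by
    apply card_le_card_of_injOn
      (fun p => (⟨(M : ℤ) * l + p.2, M • expo (r * q) N j a b + p.1⟩ : (_ : ℤ) × (Fin 4 →₀ ℕ)))
    · intro p hp
      have hp' := hp
      rw [mem_coe, hG, mem_sigma, mem_filter] at hp'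
      obtain ⟨hpB, hpL, hpf⟩ := hp'
      obtain ⟨hle, hlt'⟩ := hLle _ _ hpL
      have hfull : ini m (χ.F M p.2) p.1 = ini m (T.sec (r * q) (r • D₀) M) p.1 := by
        by_contra h
        exact hpf ⟨hle, h⟩
      have hsp := mem_specSet_of_full P₀ hQ hD hS hS' hM4 (hBE hpB) hfull
      unfold specSet at hsp
      rw [mem_filter] at hsp
      obtain ⟨_, s', hs', hsl'⟩ := hsp
      have hint' : T.X.Int P (M * (r • D₀) P) s' := sec_int hS hS' (χ.F_le M _ hs')
      have hprod := χ.mul (M * N) M (M * l) p.2 _ hpow _ hs'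
      have hpr := hpl.mul hpi hint' hsl'
      have hMn : (M : ℤ) * (N * (r • D₀) P) + M * (r • D₀) P =
          ((M * N + M : ℕ) : ℤ) * (r • D₀) P := by
        push_cast
        ring
      rw [hMn] at hpr
      -- the exponent
      obtain ⟨p', hp'R, hp'E⟩ := mem_image.1 hpB
      have hpin := hRin p' hp'R
      have hkin := hin.smul M
      have hexp : M • expo (r * q) N j a b + p.1 =
          expo (r * q) (M * N + M) (M * j + p'.1) (M * a + p'.2.1) (M * b + p'.2.2) := by
        rw [expo_nsmul hin, ← hp'E, hE]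
        simp only
        rw [expo_add hkin hpin]
      have hsum := hkin.add hpin
      have hEs : M • expo (r * q) N j a b + p.1 ∈ Eset (r * q) (M * N + M) := by
        rw [hexp]
        exact mem_Eset.2 ⟨_, _, _, hsum, rfl⟩
      have hlw : lwE al be ga de (r * q) (M * N + M) (M • expo (r * q) N j a b + p.1) =
          M * lw al be ga de N j a b + lwE al be ga de (r * q) M p.1 := by
        rw [hexp, lwE_expo _ _ _ _ hsum, lw_add, lw_smul, ← hp'E, hE]
        simp only
        rw [lwE_expo _ _ _ _ hpin]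
      rw [mem_coe, hV, mem_sigma, mem_filter]
      refine ⟨mem_image.2 ⟨p, hp, rfl⟩, ?_, ?_⟩
      · unfold specSet
        rw [mem_filter]
        exact ⟨hEs, s ^ M * s', hprod, hpr⟩
      · simp only
        rw [hlw]
        have hM0 : (0 : ℤ) ≤ M := by positivity
        nlinarith
    · intro p _ p' _ h
      simp only [Sigma.mk.injEq, add_right_inj, heq_eq_eq] at h
      obtain ⟨h1, h2⟩ := h
      exact Sigma.ext h2 (heq_of_eq h1)
  have hfin : (M : ℝ) ^ 4 - C₂ * (M : ℝ) ^ 3 ≤ C₁ * ((M * N + M : ℕ) : ℝ) ^ 3 := by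
    refine hGcard.trans (le_trans ?_ hVcard)
    exact_mod_cast hGV
  have h1 : ((M * N + M : ℕ) : ℝ) ^ 3 = ((N : ℝ) + 1) ^ 3 * (M : ℝ) ^ 3 := by
    push_cast
    ring
  rw [h1] at hfin
  have h2 : (0 : ℝ) < (M : ℝ) ^ 3 := by positivity
  have h3 : (M : ℝ) * (M : ℝ) ^ 3 ≤ (C₂ + C₁ * ((N : ℝ) + 1) ^ 3) * (M : ℝ) ^ 3 := by
    nlinarith
  have h4 := le_of_mul_le_mul_right h3 h2
  linarith

end Filt

end Pool.Agent.YTD
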