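import Pool.Agent.YTD.Upper

namespace Pool.Agent.YTD

open Finset Module Filter

variable {K : Type} [Field K] [Algebra ℂ K]
variable {T : Datum K} {q : ℕ} {D₀ : T.X.Pt →₀ ℤ}

theorem dg_real (t q N : ℕ) (j : ℤ) : (dg t q N j : ℝ) =
    105 * t * (q * N) - 100 * t * max 0 (|(j : ℝ)| - 4 * (q * N)) := by
  have h : max 0 (j - 4 * (q : ℤ) * N) + max 0 (-j - 4 * (q : ℤ) * N) =
      max 0 (|j| - 4 * (q * N)) := by
    have h0 : (0 : ℤ) ≤ 4 * q * N := by positivity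
    rw [show 4 * ((q : ℤ) * N) = 4 * q * N by ring]
    generalize 4 * (q : ℤ) * N = u at *
    rcases abs_cases j with ⟨h1, _⟩ | ⟨h1, _⟩ <;> rw [h1] <;> omega
  unfold dg
  rw [h]
  push_cast
  ring

namespace Graded

variable {G : Graded T q D₀}
variable (hD : T.X.deg D₀ = 105 * T.t * q)

include hD in
theorem ub_le (hq : 0 < q) {N : ℕ} (hN : 4 ≤ N) {j : ℤ} (h : |j| ≤ 5 * q * N) :
    G.ub N j ≤ G.Λ * N * (105 * T.t * q * N) := by
  have h1 := yb_nonneg (G := G) hD hq hN h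
  unfold yb at h1
  have h2 := nb_le (G := G) h
  have h3 := nb_nonneg (G := G) h
  have h4 : (dg T.t q N j : ℝ) ≤ 105 * T.t * q * N := by exact_mod_cast dg_le T.t q N j
  have h5 : (0 : ℝ) ≤ dg T.t q N j := by
    have : (0 : ℤ) ≤ dg T.t q N j := le_trans (by positivity) (le_dg h)
    exact_mod_cast this
  calc G.ub N j ≤ (dg T.t q N j : ℝ) * G.nb N j := by linarith
    _ ≤ (105 * T.t * q * N) * (G.Λ * N) := mul_le_mul h4 h2 h3 (by positivity)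
    _ = _ := by ring

include hD in
theorem pointwise (hq : 0 < q) {N : ℕ} (hN : 4 ≤ N) {j : ℤ} (h : |j| ≤ 5 * q * N) :
    mult q N j * (G.ub N j - 9 * T.t * G.nb N j) - Wt q N j * G.ub N j ≤
    T.t * ((81 * (j : ℝ) ^ 2 - 375 * ((q : ℝ) * N) ^ 2 -
      5000 * ((q : ℝ) * N) * max 0 (|(j : ℝ)| - 4 * (q * N))) * G.nb N j) -
      50 * (q * N) * G.yb N j + G.Λ * N * (105 * T.t * q * N) +
      ((if j = ((5 * q * N : ℕ) : ℤ) then 1000 * T.t * ((q : ℝ) * N) ^ 3 * G.nb N j else 0) +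
       (if j = -((5 * q * N : ℕ) : ℤ) then 1000 * T.t * ((q : ℝ) * N) ^ 3 * G.nb N j else 0)) := by
  have hub := ub_le (G := G) hD hq hN h
  have hnb := nb_nonneg (G := G) h
  have hyb := yb_nonneg (G := G) hD hq hN h
  have hdg := dg_real T.t q N j
  have hube : G.ub N j = (dg T.t q N j : ℝ) * G.nb N j - G.yb N j := by unfold yb; ring
  have hQ : (0 : ℝ) ≤ q * N := by positivity
  have hQ1 : (1 : ℝ) ≤ q * N := by
    have h1 : 1 ≤ q * N := Nat.mul_pos hq (by omega)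
    exact_mod_cast h1
  have ht : (0 : ℝ) ≤ T.t := by positivity
  have hA : 50 * ((q : ℝ) * N) * G.ub N j - 9 * T.t * (625 * ((q : ℝ) * N) ^ 2 - 9 * (j : ℝ) ^ 2) *
      G.nb N j = T.t * ((81 * (j : ℝ) ^ 2 - 375 * ((q : ℝ) * N) ^ 2 -
      5000 * ((q : ℝ) * N) * max 0 (|(j : ℝ)| - 4 * (q * N))) * G.nb N j) -
      50 * (q * N) * G.yb N j := by
    rw [hube, hdg]
    ring
  have hm : mult q N j = 625 * ((q : ℝ) * N) ^ 2 - 9 * (j : ℝ) ^ 2 + 50 * (q * N) + 1 := by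
    unfold mult; ring
  have hB : (0 : ℝ) ≤ 9 * T.t * (50 * ((q : ℝ) * N) + 1) * G.nb N j := by positivity
  by_cases he : |j| = 5 * q * N
  · rw [Wt_end he]
    have hj2 : (j : ℝ) ^ 2 = 25 * ((q : ℝ) * N) ^ 2 := by
      have h1 : |(j : ℝ)| = 5 * q * N := by exact_mod_cast he
      rw [← sq_abs, h1]
      ring
    have hdge : (dg T.t q N j : ℝ) = 5 * T.t * (q * N) := by
      rw [hdg]
      have h1 : |(j : ℝ)| = 5 * q * N := by exact_mod_cast he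
      rw [h1, max_eq_right (by linarith)]
      ring
    have hub2 : G.ub N j ≤ 5 * T.t * (q * N) * G.nb N j := by
      rw [hube, hdge]
      linarith
    have hC : 200 * ((q : ℝ) * N) ^ 2 * G.ub N j ≤ 1000 * T.t * ((q : ℝ) * N) ^ 3 * G.nb N j := by
      calc 200 * ((q : ℝ) * N) ^ 2 * G.ub N j ≤
          200 * ((q : ℝ) * N) ^ 2 * (5 * T.t * (q * N) * G.nb N j) :=
            mul_le_mul_of_nonneg_left hub2 (by positivity)
        _ = _ := by ring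
    have hE : (1000 * T.t * ((q : ℝ) * N) ^ 3 * G.nb N j) ≤
        ((if j = ((5 * q * N : ℕ) : ℤ) then 1000 * T.t * ((q : ℝ) * N) ^ 3 * G.nb N j else 0) +
       (if j = -((5 * q * N : ℕ) : ℤ) then 1000 * T.t * ((q : ℝ) * N) ^ 3 * G.nb N j else 0)) := by
      have h0 : (0 : ℝ) ≤ 1000 * T.t * ((q : ℝ) * N) ^ 3 * G.nb N j := by positivity
      rcases abs_cases j with ⟨h1, _⟩ | ⟨h1, _⟩
      · rw [if_pos (show j = ((5 * q * N : ℕ) : ℤ) by push_cast; linarith)]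
        split_ifs <;> linarith
      · rw [if_pos (show j = -((5 * q * N : ℕ) : ℤ) by push_cast; linarith)]
        split_ifs <;> linarith
    rw [hm]
    rw [hj2] at hA ⊢
    nlinarith
  · rw [Wt_mid he]
    rw [if_neg (by
      intro h1
      apply he
      rw [h1, abs_of_nonneg (by positivity)]
      push_cast
      ring), if_neg (by
      intro h1
      apply he
      rw [h1, abs_neg, abs_of_nonneg (by positivity)]
      push_cast
      ring)]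
    rw [hm]
    nlinarith

include hD in
/-- the main inequality. -/
theorem star (P₀ : T.X.Pt) (hq : 0 < q) {s₀ s₁ : ℝ} (hS : G.TotExp s₀ s₁) :
    ∃ C : ℝ, ∀ᶠ N : ℕ in atTop, s₁ * N ^ 4 ≤ T.t * Lam q N (G.nb N) -
      50 * (q * N) * ∑ j ∈ Icc (-((5 * q * N : ℕ) : ℤ)) ((5 * q * N : ℕ) : ℤ), G.yb N j +
      (18 * T.t + 1) * G.Z N + C * N ^ 3 := by
  have hS' := hS
  obtain ⟨C₁, hC₁⟩ := hS
  refine ⟨C₁ + 600000 * T.t * (q : ℝ) ^ 2 * G.Λ + 11 * q * (G.Λ * (105 * T.t * q)), ?_⟩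
  filter_upwards [hC₁, eventually_ge_atTop 4] with N h1 hN
  have h2 := (abs_le.1 h1).1
  have h3 := Phi_le_limit hD P₀ hq hS' hN (G.base hD P₀ hq hN)
  have h4 := tot_le (G := G) hD P₀ hq hN
  have h5 : (G.base hD P₀ hq hN).Phi =
      ∑ j ∈ Icc (-((5 * q * N : ℕ) : ℤ)) ((5 * q * N : ℕ) : ℤ), Wt q N j * G.ub N j := by
    unfold Sys.Phi
    rw [sum_range_eq_Icc (5 * q * N) (fun j => Wt q N j * (G.base hD P₀ hq hN).ub j)]
    rfl
  have h6 : ∑ j ∈ Icc (-((5 * q * N : ℕ) : ℤ)) ((5 * q * N : ℕ) : ℤ),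
      (mult q N j * (G.ub N j - 9 * T.t * G.nb N j) - Wt q N j * G.ub N j) ≤
      ∑ j ∈ Icc (-((5 * q * N : ℕ) : ℤ)) ((5 * q * N : ℕ) : ℤ),
      (T.t * ((81 * (j : ℝ) ^ 2 - 375 * ((q : ℝ) * N) ^ 2 -
      5000 * ((q : ℝ) * N) * max 0 (|(j : ℝ)| - 4 * (q * N))) * G.nb N j) -
      50 * (q * N) * G.yb N j + G.Λ * N * (105 * T.t * q * N) +
      ((if j = ((5 * q * N : ℕ) : ℤ) then 1000 * T.t * ((q : ℝ) * N) ^ 3 * G.nb N j else 0) +
       (if j = -((5 * q * N : ℕ) : ℤ) then 1000 * T.t * ((q : ℝ) * N) ^ 3 * G.nb N j else 0))) :=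
    sum_le_sum fun j hj => pointwise hD hq hN (mem_Icc_iff.1 hj)
  have hmem1 : ((5 * q * N : ℕ) : ℤ) ∈ Icc (-((5 * q * N : ℕ) : ℤ)) ((5 * q * N : ℕ) : ℤ) := by
    rw [mem_Icc]
    constructor
    · have : (0 : ℤ) ≤ ((5 * q * N : ℕ) : ℤ) := by positivity
      linarith
    · exact le_rfl
  have hmem2 : -((5 * q * N : ℕ) : ℤ) ∈ Icc (-((5 * q * N : ℕ) : ℤ)) ((5 * q * N : ℕ) : ℤ) := by
    rw [mem_Icc]
    constructor
    · exact le_rfl
    · have : (0 : ℤ) ≤ ((5 * q * N : ℕ) : ℤ) := by positivity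
      linarith
  rw [sum_add_distrib, sum_add_distrib, sum_add_distrib, sum_sub_distrib, sum_ite_eq' , sum_ite_eq',
    if_pos hmem1, if_pos hmem2, sum_sub_distrib, ← mul_sum, ← mul_sum, sum_const,
    Int.card_Icc, nsmul_eq_mul] at h6
  have h7 : (((((5 * q * N : ℕ) : ℤ) + 1 - -((5 * q * N : ℕ) : ℤ)).toNat : ℕ) : ℝ) =
      10 * (q * N) + 1 := by
    have : (((5 * q * N : ℕ) : ℤ) + 1 - -((5 * q * N : ℕ) : ℤ)).toNat = 10 * (q * N) + 1 := by
      have e : ((5 * q * N : ℕ) : ℤ) = 5 * ((q * N : ℕ) : ℤ) := by push_cast; ring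
      rw [e]
      omega
    rw [this]
    push_cast
    ring
  rw [h7] at h6
  have hQ1 : (1 : ℝ) ≤ q * N := by
    have h1 : 1 ≤ q * N := Nat.mul_pos hq (by omega)
    exact_mod_cast h1
  have h8 : (10 * ((q : ℝ) * N) + 1) * (G.Λ * N * (105 * T.t * q * N)) ≤
      11 * q * (G.Λ * (105 * T.t * q)) * N ^ 3 := by
    have h9 : (0 : ℝ) ≤ G.Λ * N * (105 * T.t * q * N) := by positivity
    have h10 : (10 * ((q : ℝ) * N) + 1) ≤ 11 * (q * N) := by linarith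
    calc (10 * ((q : ℝ) * N) + 1) * (G.Λ * N * (105 * T.t * q * N)) ≤
        (11 * (q * N)) * (G.Λ * N * (105 * T.t * q * N)) := mul_le_mul_of_nonneg_right h10 h9
      _ = _ := by ring
  unfold Lam
  rw [h5] at h3
  have h11 : (T.t : ℝ) * (∑ j ∈ Icc (-((5 * q * N : ℕ) : ℤ)) ((5 * q * N : ℕ) : ℤ),
    (81 * (j : ℝ) ^ 2 - 375 * ((q : ℝ) * N) ^ 2 -
      5000 * ((q : ℝ) * N) * max 0 (|(j : ℝ)| - 4 * (q * N))) * G.nb N j +
    1000 * ((q : ℝ) * N) ^ 3 * (G.nb N ((5 * q * N : ℕ) : ℤ) + G.nb N (-((5 * q * N : ℕ) : ℤ)))) =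
    T.t * (∑ j ∈ Icc (-((5 * q * N : ℕ) : ℤ)) ((5 * q * N : ℕ) : ℤ),
    (81 * (j : ℝ) ^ 2 - 375 * ((q : ℝ) * N) ^ 2 -
      5000 * ((q : ℝ) * N) * max 0 (|(j : ℝ)| - 4 * (q * N))) * G.nb N j) +
    (1000 * T.t * ((q : ℝ) * N) ^ 3 * G.nb N ((5 * q * N : ℕ) : ℤ) +
      1000 * T.t * ((q : ℝ) * N) ^ 3 * G.nb N (-((5 * q * N : ℕ) : ℤ))) := by ring
  rw [h11]
  linarith

end Graded

end Pool.Agent.YTD
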