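import Pool.Agent.YTD.Graded

/-!
Systems of realizable degrees and their doubling.
-/

namespace Pool.Agent.YTD

open Finset

theorem path_sum (d : ℕ) (m₁ m₂ : ℕ → ℤ) (D₂ : ℤ) (n : ℕ) (h₁ : ∀ l < n, m₁ (l + 1) ≤ m₁ l)
    (h₂ : ∀ l < d, m₂ (l + 1) ≤ D₂) :
    2 * ∑ l ∈ range n, m₁ (l + 1) + 2 * ∑ l ∈ range (d + n), m₂ (l + 1) + d * (m₁ 0 - D₂) ≤
      ∑ l ∈ range (d + 2 * n), (m₁ ((l + 1 - d) / 2) + m₂ (l + 1 - (l + 1 - d) / 2)) := by
  induction n with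
  | zero =>
    simp only [range_zero, sum_empty, mul_zero, zero_add, add_zero]
    have e1 : ∀ l ∈ range d, m₁ ((l + 1 - d) / 2) + m₂ (l + 1 - (l + 1 - d) / 2) =
        m₁ 0 + m₂ (l + 1) := by
      intro l hl
      have := mem_range.1 hl
      have e : (l + 1 - d) / 2 = 0 := by omega
      rw [e, Nat.sub_zero]
    rw [sum_congr rfl e1, sum_add_distrib, sum_const, card_range, nsmul_eq_mul]
    have e2 : ∑ l ∈ range d, m₂ (l + 1) ≤ ∑ _l ∈ range d, D₂ :=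
      sum_le_sum fun l hl => h₂ l (mem_range.1 hl)
    rw [sum_const, card_range, nsmul_eq_mul] at e2
    linarith
  | succ n ih =>
    have ih' := ih (fun l hl => h₁ l (by omega))
    rw [show d + 2 * (n + 1) = d + 2 * n + 1 + 1 by ring, sum_range_succ, sum_range_succ,
      sum_range_succ, show d + (n + 1) = d + n + 1 by ring, sum_range_succ]
    have e1 : (d + 2 * n + 1 - d) / 2 = n := by omega
    have e2 : (d + 2 * n + 1 + 1 - d) / 2 = n + 1 := by omega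
    rw [e1, e2]
    have e3 : d + 2 * n + 1 - n = d + n + 1 := by omega
    have e4 : d + 2 * n + 1 + 1 - (n + 1) = d + n + 1 := by omega
    rw [e3, e4]
    have := h₁ n (by omega)
    linarith

/-- existence of a good path. -/
theorem exists_path (n₁ n₂ : ℕ) (m₁ m₂ : ℕ → ℤ) (h₁ : ∀ l l', l ≤ l' → l' ≤ n₁ → m₁ l' ≤ m₁ l)
    (h₂ : ∀ l l', l ≤ l' → l' ≤ n₂ → m₂ l' ≤ m₂ l) :
    ∃ l₁ l₂ : ℕ → ℕ, (∀ l, l₁ l + l₂ l = l) ∧ Monotone l₁ ∧ Monotone l₂ ∧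
      (∀ l ≤ n₁ + n₂, l₁ l ≤ n₁ ∧ l₂ l ≤ n₂) ∧
      2 * ∑ l ∈ range n₁, m₁ (l + 1) + 2 * ∑ l ∈ range n₂, m₂ (l + 1) -
        ((n₁ : ℤ) - n₂) * (m₁ 0 - m₂ 0) ≤
        ∑ l ∈ range (n₁ + n₂), (m₁ (l₁ (l + 1)) + m₂ (l₂ (l + 1))) := by
  rcases le_total n₁ n₂ with h | h
  · obtain ⟨d, rfl⟩ := Nat.exists_eq_add_of_le h
    refine ⟨fun l => (l - d) / 2, fun l => l - (l - d) / 2, ?_, ?_, ?_, ?_, ?_⟩
    · intro l
      simp only
      omega
    · intro l l' hl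
      simp only
      omega
    · intro l l' hl
      simp only
      omega
    · intro l hl
      simp only
      omega
    · have := path_sum d m₁ m₂ (m₂ 0) n₁ (fun l hl => h₁ l (l + 1) (by omega) (by omega))
        (fun l hl => h₂ 0 (l + 1) (by omega) (by omega))
      rw [show n₁ + (n₁ + d) = d + 2 * n₁ by ring, add_comm n₁ d]
      refine le_trans (le_of_eq ?_) this
      push_cast
      ring
  · obtain ⟨d, rfl⟩ := Nat.exists_eq_add_of_le h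
    refine ⟨fun l => l - (l - d) / 2, fun l => (l - d) / 2, ?_, ?_, ?_, ?_, ?_⟩
    · intro l
      simp only
      omega
    · intro l l' hl
      simp only
      omega
    · intro l l' hl
      simp only
      omega
    · intro l hl
      simp only
      omega
    · have := path_sum d m₂ m₁ (m₁ 0) n₂ (fun l hl => h₂ l (l + 1) (by omega) (by omega))
        (fun l hl => h₁ 0 (l + 1) (by omega) (by omega))
      rw [show n₂ + d + n₂ = d + 2 * n₂ by ring, add_comm n₂ d]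
      have e : ∑ l ∈ range (d + 2 * n₂), (m₁ (l + 1 - (l + 1 - d) / 2) + m₂ ((l + 1 - d) / 2)) =
          ∑ l ∈ range (d + 2 * n₂), (m₂ ((l + 1 - d) / 2) + m₁ (l + 1 - (l + 1 - d) / 2)) :=
        sum_congr rfl fun l _ => add_comm _ _
      simp only
      rw [e]
      refine le_trans (le_of_eq ?_) this
      push_cast
      ring

variable {K : Type} [Field K] [Algebra ℂ K]
variable {T : Datum K} {q : ℕ} {D₀ : T.X.Pt →₀ ℤ}

/-- A system of realizable degrees at level `L`. -/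
structure Sys (G : Graded T q D₀) (c : ℤ) (L : ℕ) where
  n : ℤ → ℕ → ℕ → ℕ
  m : ℤ → ℕ → ℕ → ℕ → ℤ
  n_le : ∀ j a b, InR q L j a b → n j a b ≤ G.Λ * L
  m_zero : ∀ j a b, InR q L j a b → m j a b 0 = dg T.t q L j
  m_anti : ∀ j a b, InR q L j a b → ∀ l l', l ≤ l' → l' ≤ n j a b → m j a b l' ≤ m j a b l
  real : ∀ j a b, InR q L j a b → ∀ l ≤ n j a b, G.Real c L l j a b (m j a b l)

namespace Sys

variable {G : Graded T q D₀} {c : ℤ} {L : ℕ}

/-- the sum of the degrees. -/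
def U (s : Sys G c L) (j : ℤ) (a b : ℕ) : ℤ := ∑ l ∈ range (s.n j a b), s.m j a b (l + 1)

theorem m_nonneg (s : Sys G c L) {j : ℤ} {a b : ℕ} (h : InR q L j a b) {l : ℕ}
    (hl : l ≤ s.n j a b) : 0 ≤ s.m j a b l := (s.real j a b h l hl).2.1

theorem m_le (s : Sys G c L) {j : ℤ} {a b : ℕ} (h : InR q L j a b) {l : ℕ}
    (hl : l ≤ s.n j a b) : s.m j a b l ≤ dg T.t q L j := by
  rw [← s.m_zero j a b h]
  exact s.m_anti j a b h 0 l (Nat.zero_le l) hl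

theorem U_nonneg (s : Sys G c L) {j : ℤ} {a b : ℕ} (h : InR q L j a b) : 0 ≤ s.U j a b := by
  unfold U
  apply sum_nonneg
  intro l hl
  apply s.m_nonneg h
  have := mem_range.1 hl
  omega

theorem U_le (s : Sys G c L) {j : ℤ} {a b : ℕ} (h : InR q L j a b) :
    s.U j a b ≤ s.n j a b * dg T.t q L j := by
  unfold U
  have : ∑ l ∈ range (s.n j a b), s.m j a b (l + 1) ≤
      ∑ _l ∈ range (s.n j a b), dg T.t q L j := by
    apply sum_le_sum
    intro l hl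
    apply s.m_le h
    have := mem_range.1 hl
    omega
  rwa [sum_const, card_range, nsmul_eq_mul] at this

/-- the value guaranteed by a pair. -/
def val (s : Sys G c L) (j₁ j₂ : ℤ) (a₁ a₂ b₁ b₂ : ℕ) : ℤ :=
  2 * s.U j₁ a₁ b₁ + 2 * s.U j₂ a₂ b₂ -
    ((s.n j₁ a₁ b₁ : ℤ) - s.n j₂ a₂ b₂) * (dg T.t q L j₁ - dg T.t q L j₂)

theorem exists_pair (s : Sys G c L) (j₁ j₂ : ℤ) (a₁ a₂ b₁ b₂ : ℕ) (h₁ : InR q L j₁ a₁ b₁)
    (h₂ : InR q L j₂ a₂ b₂) (hd : dg T.t q (2 * L) (j₁ + j₂) = dg T.t q L j₁ + dg T.t q L j₂) :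
    ∃ (n' : ℕ) (m' : ℕ → ℤ), n' ≤ G.Λ * (2 * L) ∧ m' 0 = dg T.t q (2 * L) (j₁ + j₂) ∧
      (∀ l l', l ≤ l' → l' ≤ n' → m' l' ≤ m' l) ∧
      (∀ l ≤ n', G.Real c (2 * L) l (j₁ + j₂) (a₁ + a₂) (b₁ + b₂) (m' l)) ∧
      s.val j₁ j₂ a₁ a₂ b₁ b₂ ≤ ∑ l ∈ range n', m' (l + 1) := by
  obtain ⟨l₁, l₂, hl, hm₁, hm₂, hle, hsum⟩ := exists_path (s.n j₁ a₁ b₁) (s.n j₂ a₂ b₂)
    (s.m j₁ a₁ b₁) (s.m j₂ a₂ b₂) (s.m_anti j₁ a₁ b₁ h₁) (s.m_anti j₂ a₂ b₂ h₂)
  refine ⟨s.n j₁ a₁ b₁ + s.n j₂ a₂ b₂, fun l => s.m j₁ a₁ b₁ (l₁ l) + s.m j₂ a₂ b₂ (l₂ l),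
    ?_, ?_, ?_, ?_, ?_⟩
  · have := s.n_le j₁ a₁ b₁ h₁
    have := s.n_le j₂ a₂ b₂ h₂
    linarith [show G.Λ * (2 * L) = G.Λ * L + G.Λ * L by ring]
  · have h0 := hl 0
    have e1 : l₁ 0 = 0 := by omega
    have e2 : l₂ 0 = 0 := by omega
    simp only [e1, e2]
    rw [s.m_zero j₁ a₁ b₁ h₁, s.m_zero j₂ a₂ b₂ h₂, hd]
  · intro l l' hll' hl'
    simp only
    have := s.m_anti j₁ a₁ b₁ h₁ (l₁ l) (l₁ l') (hm₁ hll') (hle l' hl').1
    have := s.m_anti j₂ a₂ b₂ h₂ (l₂ l) (l₂ l') (hm₂ hll') (hle l' hl').2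
    linarith
  · intro l hl'
    have r1 := s.real j₁ a₁ b₁ h₁ (l₁ l) (hle l hl').1
    have r2 := s.real j₂ a₂ b₂ h₂ (l₂ l) (hle l hl').2
    have := r1.add r2
    rw [hl l, ← two_mul] at this
    exact this
  · unfold val U
    rw [← s.m_zero j₁ a₁ b₁ h₁, ← s.m_zero j₂ a₂ b₂ h₂]
    exact hsum

theorem exists_double (s : Sys G c L) : ∃ s' : Sys G c (2 * L),
    ∀ (j₁ j₂ : ℤ) (a₁ a₂ b₁ b₂ : ℕ), InR q L j₁ a₁ b₁ → InR q L j₂ a₂ b₂ →
      dg T.t q (2 * L) (j₁ + j₂) = dg T.t q L j₁ + dg T.t q L j₂ →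
      s.val j₁ j₂ a₁ a₂ b₁ b₂ ≤ s'.U (j₁ + j₂) (a₁ + a₂) (b₁ + b₂) := by
  classical
  have key : ∀ (j : ℤ) (a b : ℕ), ∃ (n' : ℕ) (m' : ℕ → ℤ), InR q (2 * L) j a b →
      n' ≤ G.Λ * (2 * L) ∧ m' 0 = dg T.t q (2 * L) j ∧
      (∀ l l', l ≤ l' → l' ≤ n' → m' l' ≤ m' l) ∧
      (∀ l ≤ n', G.Real c (2 * L) l j a b (m' l)) ∧
      (∀ (j₁ j₂ : ℤ) (a₁ a₂ b₁ b₂ : ℕ), InR q L j₁ a₁ b₁ → InR q L j₂ a₂ b₂ →
      dg T.t q (2 * L) (j₁ + j₂) = dg T.t q L j₁ + dg T.t q L j₂ →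
      j₁ + j₂ = j → a₁ + a₂ = a → b₁ + b₂ = b →
      s.val j₁ j₂ a₁ a₂ b₁ b₂ ≤ ∑ l ∈ range n', m' (l + 1)) := by
    intro j a b
    by_cases hin : InR q (2 * L) j a b
    swap
    · exact ⟨0, fun _ => 0, fun h => (hin h).elim⟩
    -- the finite set of decompositions
    let P : ℤ × ℕ × ℕ → Prop := fun x => InR q L x.1 x.2.1 x.2.2 ∧ x.2.1 ≤ a ∧ x.2.2 ≤ b ∧
      InR q L (j - x.1) (a - x.2.1) (b - x.2.2) ∧
      dg T.t q (2 * L) (x.1 + (j - x.1)) = dg T.t q L x.1 + dg T.t q L (j - x.1)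
    let E : Finset (ℤ × ℕ × ℕ) := ((Finset.Icc (-(5 * q * L : ℤ)) (5 * q * L)) ×ˢ
      (range (a + 1)) ×ˢ (range (b + 1))).filter P
    have hE : ∀ x, x ∈ E ↔ P x := by
      intro x
      simp only [E, mem_filter, mem_product, Finset.mem_Icc, mem_range, and_iff_right_iff_imp]
      rintro ⟨h1, h2, h3, h4, h5⟩
      have := abs_le.1 h1.1
      refine ⟨⟨?_, this.2⟩, by omega, by omega⟩
      linarith [this.1]
    have hne : E.Nonempty := by
      obtain ⟨hj, ha, hb⟩ := hin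
      rw [abs_le] at hj
      push_cast at hj ha hb
      have hj2 : j = 2 * (j / 2) ∨ j = 2 * (j / 2) + 1 := by omega
      have hjr : -(5 * (q : ℤ) * L) ≤ j / 2 ∧ j / 2 ≤ 5 * q * L ∧
          -(5 * (q : ℤ) * L) ≤ j - j / 2 ∧ j - j / 2 ≤ 5 * q * L := by
        have e : 5 * (q : ℤ) * (2 * L) = 2 * (5 * q * L) := by ring
        rw [e] at hj
        generalize 5 * (q : ℤ) * L = u at hj ⊢
        omega
      have hpos : (0 : ℤ) ≤ q * L := by positivity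
      refine ⟨(j / 2, min a (25 * q * L + 3 * (j / 2)).toNat,
        min b (25 * q * L - 3 * (j / 2)).toNat), (hE _).2 ⟨⟨?_, ?_, ?_⟩, ?_, ?_, ⟨?_, ?_, ?_⟩, ?_⟩⟩
      · rw [abs_le]; exact ⟨hjr.1, hjr.2.1⟩
      · simp only
        have : (0 : ℤ) ≤ 25 * q * L + 3 * (j / 2) := by nlinarith
        push_cast
        rw [Int.toNat_of_nonneg this]
        exact min_le_right _ _
      · simp only
        have : (0 : ℤ) ≤ 25 * q * L - 3 * (j / 2) := by nlinarith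
        push_cast
        rw [Int.toNat_of_nonneg this]
        exact min_le_right _ _
      · exact min_le_left _ _
      · exact min_le_left _ _
      · rw [abs_le]; exact ⟨hjr.2.2.1, hjr.2.2.2⟩
      · simp only
        have h0 : (0 : ℤ) ≤ 25 * q * L + 3 * (j / 2) := by nlinarith
        have h0' : (0 : ℤ) ≤ 25 * q * L + 3 * (j - j / 2) := by nlinarith
        rw [Nat.cast_sub (min_le_left _ _)]
        push_cast
        rw [Int.toNat_of_nonneg h0]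
        rcases min_cases (a : ℤ) (25 * q * L + 3 * (j / 2)) with ⟨h1, _⟩ | ⟨h1, _⟩ <;> rw [h1]
        · linarith
        · linarith
      · simp only
        have h0 : (0 : ℤ) ≤ 25 * q * L - 3 * (j / 2) := by nlinarith
        have h0' : (0 : ℤ) ≤ 25 * q * L - 3 * (j - j / 2) := by nlinarith
        rw [Nat.cast_sub (min_le_left _ _)]
        push_cast
        rw [Int.toNat_of_nonneg h0]
        rcases min_cases (b : ℤ) (25 * q * L - 3 * (j / 2)) with ⟨h1, _⟩ | ⟨h1, _⟩ <;> rw [h1]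
        · linarith
        · linarith
      · simp only
        rcases hj2 with h | h
        · have e1 : j - j / 2 = j / 2 := by omega
          rw [e1, ← two_mul, dg_double]
          ring
        · have e1 : j - j / 2 = j / 2 + 1 := by omega
          rw [e1, show j / 2 + (j / 2 + 1) = 2 * (j / 2) + 1 by ring, dg_double_succ]
    obtain ⟨x, hx, hmax⟩ := E.exists_max_image
      (fun x => s.val x.1 (j - x.1) x.2.1 (a - x.2.1) x.2.2 (b - x.2.2)) hne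
    obtain ⟨h1, h2, h3, h4, h5⟩ := (hE x).1 hx
    obtain ⟨n', m', r1, r2, r3, r4, r5⟩ := s.exists_pair x.1 (j - x.1) x.2.1 (a - x.2.1) x.2.2
      (b - x.2.2) h1 h4 h5
    rw [show x.1 + (j - x.1) = j by ring, show x.2.1 + (a - x.2.1) = a by omega,
      show x.2.2 + (b - x.2.2) = b by omega] at r4
    rw [show x.1 + (j - x.1) = j by ring] at r2
    refine ⟨n', m', fun _ => ⟨r1, r2, r3, r4, ?_⟩⟩
    intro j₁ j₂ a₁ a₂ b₁ b₂ g1 g2 g3 g4 g5 g6
    have e1 : j - j₁ = j₂ := by linarith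
    have e2 : a - a₁ = a₂ := by omega
    have e3 : b - b₁ = b₂ := by omega
    have hmem : ((j₁, a₁, b₁) : ℤ × ℕ × ℕ) ∈ E := by
      rw [hE]
      refine ⟨g1, by show a₁ ≤ a; omega, by show b₁ ≤ b; omega, ?_, ?_⟩
      · simp only [e1, e2, e3]
        exact g2
      · simp only [e1]
        exact g3
    have := hmax _ hmem
    simp only [e1, e2, e3] at this
    exact this.trans r5
  choose n' m' hk using key
  refine ⟨⟨n', m', fun j a b h => (hk j a b h).1, fun j a b h => (hk j a b h).2.1,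
    fun j a b h => (hk j a b h).2.2.1, fun j a b h => (hk j a b h).2.2.2.1⟩, ?_⟩
  intro j₁ j₂ a₁ a₂ b₁ b₂ h₁ h₂ hd
  have hin : InR q (2 * L) (j₁ + j₂) (a₁ + a₂) (b₁ + b₂) := by
    have := h₁.add h₂
    rwa [← two_mul] at this
  exact (hk _ _ _ hin).2.2.2.2 j₁ j₂ a₁ a₂ b₁ b₂ h₁ h₂ hd rfl rfl rfl

end Sys

end Pool.Agent.YTD
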