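import Pool.Agent.YTD.FlagB5

/-!
Transport of rigidity by the involution exchanging `x` and `y`.
-/

namespace Pool.Agent.YTD

open Finset Module MvPolynomial

variable {K : Type} [Field K] [Algebra ℂ K]
variable {T : Datum K} {q : ℕ} {D₀ : T.X.Pt →₀ ℤ} {r : ℕ}

/-- the exchange of the exponents of `x` and `y` -/
noncomputable def sweE : (Fin 4 →₀ ℕ) ≃+ (Fin 4 →₀ ℕ) where
  toFun := Inv.swe
  invFun := Inv.swe
  left_inv := Inv.swe_swe
  right_inv := Inv.swe_swe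
  map_add' e e' := by
    ext i
    rw [Inv.swe_apply, Finsupp.add_apply, Finsupp.add_apply, Inv.swe_apply, Inv.swe_apply]

/-- the monomial order transported by the exchange of `x` and `y` -/
noncomputable def tauOrd (m : MonomialOrder (Fin 4)) : MonomialOrder (Fin 4) where
  syn := m.syn
  toSyn := sweE.trans m.toSyn
  toSyn_monotone := by
    intro e e' h
    apply m.toSyn_monotone
    intro i
    show Inv.swe e i ≤ Inv.swe e' i
    rw [Inv.swe_apply, Inv.swe_apply]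
    exact h _

theorem tauOrd_toSyn (m : MonomialOrder (Fin 4)) (e : Fin 4 →₀ ℕ) :
    (tauOrd m).toSyn e = m.toSyn (Inv.swe e) := rfl

theorem swe_expo (Q N : ℕ) (j : ℤ) (a b : ℕ) :
    Inv.swe (expo Q N j a b) = expo Q N (-j) b a := by
  ext i
  rw [Inv.swe_apply]
  have hi : i = 0 ∨ i = 1 ∨ i = 2 ∨ i = 3 := by
    fin_cases i <;> simp
  rcases hi with rfl | rfl | rfl | rfl
  · rw [Inv.swp_0, expo_2, expo_0, AA_neg]
  · rw [Inv.swp_1, expo_3, expo_1]
  · rw [Inv.swp_2, expo_0, expo_2, BB_neg]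
  · rw [Inv.swp_3, expo_1, expo_3]

theorem InR.neg {Q N : ℕ} {j : ℤ} {a b : ℕ} (h : InR Q N j a b) : InR Q N (-j) b a := by
  obtain ⟨h1, h2, h3⟩ := h
  exact ⟨by rw [abs_neg]; exact h1, by linarith, by linarith⟩

theorem ini_tau (ι : Inv T) (m : MonomialOrder (Fin 4))
    (U : Submodule ℂ (MvPolynomial (Fin 4) K)) (e : Fin 4 →₀ ℕ) :
    ini (tauOrd m) (U.map ι.tauE.toLinearMap) (Inv.swe e) =
      (ini m U e).map (ι.θ.toLinearMap : K →ₗ[ℂ] K) := by
  ext z
  constructor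
  · intro hz
    obtain ⟨f, ⟨f', hf', rfl⟩, h1, h2⟩ := mem_ini.1 hz
    refine ⟨f'.coeff e, mem_ini.2 ⟨f', hf', ?_, rfl⟩, ?_⟩
    · intro e' he'
      have h3 := h1 (Inv.swe e') (by
        show (ι.tauE f').coeff (Inv.swe e') ≠ 0
        rw [ι.coeff_tauE, Inv.swe_swe]
        intro h0
        exact he' ((map_eq_zero ι.θ).1 h0))
      rw [tauOrd_toSyn, tauOrd_toSyn, Inv.swe_swe, Inv.swe_swe] at h3
      exact h3
    · rw [← h2]
      show ι.θ (f'.coeff e) = (ι.tauE f').coeff (Inv.swe e)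
      rw [ι.coeff_tauE, Inv.swe_swe]
  · rintro ⟨w, hw, rfl⟩
    obtain ⟨f', hf', h1, rfl⟩ := mem_ini.1 hw
    refine mem_ini.2 ⟨ι.tauE f', ⟨f', hf', rfl⟩, ?_, ?_⟩
    · intro e' he'
      rw [ι.coeff_tauE] at he'
      rw [tauOrd_toSyn, tauOrd_toSyn, Inv.swe_swe]
      apply h1
      intro h0
      apply he'
      rw [h0, map_zero]
    · rw [ι.coeff_tauE, Inv.swe_swe]
      rfl

theorem finrank_ini_tau (ι : Inv T) (m : MonomialOrder (Fin 4))
    (U : Submodule ℂ (MvPolynomial (Fin 4) K)) (e : Fin 4 →₀ ℕ) :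
    finrank ℂ (ini (tauOrd m) (U.map ι.tauE.toLinearMap) (Inv.swe e)) =
      finrank ℂ (ini m U e) := by
  rw [ini_tau]
  exact (LinearEquiv.finrank_eq (Submodule.equivMapOfInjective _
    (show Function.Injective (ι.θ.toLinearMap : K →ₗ[ℂ] K) from ι.θ.injective) _)).symm

theorem tau_subst (ι : Inv T) (g h : Matrix (Fin 2) (Fin 2) ℂ) (f : MvPolynomial (Fin 4) K) :
    ι.tauE (subst g h f) = subst h g (ι.tauE f) := by
  have hX : ∀ i, ι.tauE (X i : MvPolynomial (Fin 4) K) = X (Inv.swp i) := by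
    intro i
    rw [ι.tauE_apply, rename_X, map_X]
  have hC : ∀ z, ι.tauE (C z : MvPolynomial (Fin 4) K) = C (ι.θ z) := by
    intro z
    rw [ι.tauE_apply, rename_C, map_C]
    rfl
  have hsC : ∀ (g h : Matrix (Fin 2) (Fin 2) ℂ) (z : K),
      subst g h (C z : MvPolynomial (Fin 4) K) = C z := by
    intro g h z
    rw [← MvPolynomial.algebraMap_eq, AlgHom.commutes]
  have key : (ι.tauE : MvPolynomial (Fin 4) K →+* MvPolynomial (Fin 4) K).comp
      ((subst (K := K) g h) : MvPolynomial (Fin 4) K →+* MvPolynomial (Fin 4) K) =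
      ((subst (K := K) h g) : MvPolynomial (Fin 4) K →+* MvPolynomial (Fin 4) K).comp
        (ι.tauE : MvPolynomial (Fin 4) K →+* MvPolynomial (Fin 4) K) := by
    apply MvPolynomial.ringHom_ext
    · intro z
      show ι.tauE (subst g h (C z)) = subst h g (ι.tauE (C z))
      rw [hsC, hC, hsC]
    · intro i
      show ι.tauE (subst g h (X i)) = subst h g (ι.tauE (X i))
      have hi : i = 0 ∨ i = 1 ∨ i = 2 ∨ i = 3 := by
        fin_cases i <;> simp
      rcases hi with rfl | rfl | rfl | rfl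
      · rw [subst_X0, map_add, map_smul, map_smul, hX, hX, Inv.swp_0, Inv.swp_1, subst_X2]
      · rw [subst_X1, map_add, map_smul, map_smul, hX, hX, Inv.swp_0, Inv.swp_1, subst_X3]
      · rw [subst_X2, map_add, map_smul, map_smul, hX, hX, Inv.swp_2, Inv.swp_3, subst_X0]
      · rw [subst_X3, map_add, map_smul, map_smul, hX, hX, Inv.swp_2, Inv.swp_3, subst_X1]
  exact congrArg (fun φ : MvPolynomial (Fin 4) K →+* MvPolynomial (Fin 4) K => φ f) key

namespace Filt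

theorem Rigid.tau {χ χ' : Filt T q D₀ r} (ι : Inv T) (hD : T.X.deg D₀ = 105 * T.t * q)
    (hq : 0 < q) (hr : 0 < r)
    (hF : ∀ N l, χ'.F N l = (χ.F N l).map ι.tauE.toLinearMap) (hlam : χ'.lam = χ.lam)
    {m : MonomialOrder (Fin 4)} {al be ga de : ℤ} (hR : χ.Rigid m al be ga de) :
    χ'.Rigid (tauOrd m) be al (-ga) de := by
  have hlw : ∀ (N : ℕ) (j : ℤ) (a b : ℕ),
      lw be al (-ga) de N j a b = lw al be ga de N (-j) b a := by
    intro N j a b
    unfold lw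
    ring
  have hsw : ∀ (N : ℕ) (j : ℤ) (a b : ℕ), expo (r * q) N j a b =
      Inv.swe (expo (r * q) N (-j) b a) := by
    intro N j a b
    rw [swe_expo, neg_neg]
  refine ⟨?_, ?_⟩
  · intro N hN l j a b hin hne
    rw [hlw]
    apply hR.upper N hN l (-j) b a hin.neg
    intro h0
    apply hne
    rw [hF, hsw, ini_tau, h0, Submodule.map_bot]
  · obtain ⟨C, hC⟩ := hR.full
    refine ⟨C, fun N hN => le_trans (le_of_eq ?_) (hC N hN)⟩
    rw [hlam]
    have e1 := sum_JJ_neg (r * q) N (fun j => ∑ a ∈ range (AA (r * q) N j + 1),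
      ∑ b ∈ range (BB (r * q) N j + 1),
        ∑ l ∈ Ioc (-((χ.lam : ℤ) * N)) (lw be al (-ga) de N j a b),
          ((finrank ℂ (T.V (r * q) (r • D₀) N j) : ℝ) -
            finrank ℂ (ini (tauOrd m) (χ'.F N l) (expo (r * q) N j a b))))
    unfold JJ at e1
    rw [← e1]
    apply sum_congr rfl
    intro j hj
    rw [AA_neg, BB_neg, sum_comm]
    apply sum_congr rfl
    intro b _
    apply sum_congr rfl
    intro a _
    rw [hlw, neg_neg]
    apply sum_congr rfl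
    intro l _
    have e2 : (finrank ℂ (T.V (r * q) (r • D₀) N (-j)) : ℝ) =
        finrank ℂ (T.V (r * q) (r • D₀) N j) := χ.vdim_neg hD hq hr hN hj
    rw [e2, hF, hsw, neg_neg, finrank_ini_tau]

theorem fl_F (χ : Filt T q D₀ r) {g h : Matrix (Fin 2) (Fin 2) ℂ} (hg : IsUnit g)
    (hh : IsUnit h) (N : ℕ) (l : ℤ) :
    (χ.fl hg hh).F N l = (χ.F N l).map (substE K g h hg hh).toLinearMap := rfl

theorem fl_tau (χ : Filt T q D₀ r) (ι : Inv T) (P₀ : T.X.Pt) (hfix : ι.Fixes D₀)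
    (htau : ∀ N l, ∀ f ∈ χ.F N l, ι.tauE f ∈ χ.F N l) {g h : Matrix (Fin 2) (Fin 2) ℂ}
    (hg : IsUnit g) (hh : IsUnit h) (N : ℕ) (l : ℤ) :
    (χ.fl hh hg).F N l = ((χ.fl hg hh).F N l).map ι.tauE.toLinearMap := by
  have h1 : (χ.tw ι.tauE (ι.pres_tauE hfix)).F N l = χ.F N l :=
    Stable.tw_F_eq χ P₀ (E := ι.tauE) (hE := ι.pres_tauE hfix) htau N l
  rw [tw_F] at h1
  rw [fl_F, fl_F, ← Submodule.map_comp]
  conv_lhs => rw [← h1]
  rw [← Submodule.map_comp]
  congr 1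
  refine LinearMap.ext fun f => ?_
  show subst h g (ι.tauE f) = ι.tauE (subst g h f)
  rw [tau_subst]

theorem rigid_fl_tau (χ : Filt T q D₀ r) (ι : Inv T) (P₀ : T.X.Pt) (hfix : ι.Fixes D₀)
    (hD : T.X.deg D₀ = 105 * T.t * q) (hq : 0 < q) (hr : 0 < r)
    (htau : ∀ N l, ∀ f ∈ χ.F N l, ι.tauE f ∈ χ.F N l) {g h : Matrix (Fin 2) (Fin 2) ℂ}
    (hg : IsUnit g) (hh : IsUnit h) {m : MonomialOrder (Fin 4)} {al be ga de : ℤ}
    (hR : (χ.fl hg hh).Rigid m al be ga de) :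
    (χ.fl hh hg).Rigid (tauOrd m) be al (-ga) de :=
  hR.tau ι hD hq hr (χ.fl_tau ι P₀ hfix htau hg hh) (by
    unfold fl
    rw [lam_tw, lam_tw])

end Filt

end Pool.Agent.YTD
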