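import Pool.Agent.YTD.UnstDim
import Pool.Agent.YTD.UnstSum

/-!
The filtrations defined by the concave piecewise linear functions `min 0 (uN - |j|)`.
-/

namespace Pool.Agent.YTD

open Finset Module MvPolynomial

variable {K : Type} [Field K] [Algebra ℂ K]

theorem bigr_mul {q N N' : ℕ} {U U' U'' : ℤ → Submodule ℂ K}
    (H : ∀ j j' : ℤ, |j| ≤ 5 * q * N → |j'| ≤ 5 * q * N' → ∀ a ∈ U j, ∀ b ∈ U' j',
      a * b ∈ U'' (j + j')) {f g : MvPolynomial (Fin 4) K} (hf : f ∈ bigr q N U)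
    (hg : g ∈ bigr q N' U') : f * g ∈ bigr q (N + N') U'' := by
  intro e he
  rw [coeff_mul] at he ⊢
  obtain ⟨x, hx, hx0⟩ := Finset.exists_ne_zero_of_sum_ne_zero he
  rw [Finset.HasAntidiagonal.mem_antidiagonal] at hx
  obtain ⟨j, h1, h2, h3, h4⟩ := hf _ (left_ne_zero_of_mul hx0)
  obtain ⟨j', h1', h2', h3', h4'⟩ := hg _ (right_ne_zero_of_mul hx0)
  have ex : ∀ k, e k = x.1 k + x.2 k := fun k => by rw [← hx]; rfl
  refine ⟨j + j', ?_, ?_, ?_, ?_⟩
  · push_cast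
    calc |j + j'| ≤ |j| + |j'| := abs_add_le _ _
      _ ≤ _ := by linarith
  · rw [ex, ex]
    push_cast
    linarith
  · rw [ex, ex]
    push_cast
    linarith
  · refine sum_mem fun y hy => ?_
    rw [Finset.HasAntidiagonal.mem_antidiagonal] at hy
    by_cases hy0 : f.coeff y.1 * g.coeff y.2 = 0
    · rw [hy0]
      exact zero_mem _
    obtain ⟨i, g1, g2, g3, g4⟩ := hf _ (left_ne_zero_of_mul hy0)
    obtain ⟨i', g1', g2', g3', g4'⟩ := hg _ (right_ne_zero_of_mul hy0)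
    have ey : ∀ k, e k = y.1 k + y.2 k := fun k => by rw [← hy]; rfl
    have hi : i + i' = j + j' := by
      have e0 : (x.1 0 : ℤ) + x.2 0 = y.1 0 + y.2 0 := by
        have := (ex 0).symm.trans (ey 0)
        exact_mod_cast this
      have e1 : (x.1 1 : ℤ) + x.2 1 = y.1 1 + y.2 1 := by
        have := (ex 1).symm.trans (ey 1)
        exact_mod_cast this
      linarith
    rw [← hi]
    exact H _ _ g1 g1' _ g4 _ g4'

theorem bigr_mono {q N : ℕ} {U U' : ℤ → Submodule ℂ K} (H : ∀ j : ℤ, |j| ≤ 5 * q * N → U j ≤ U' j) :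
    bigr q N U ≤ bigr q N U' := by
  intro f hf e he
  obtain ⟨j, h1, h2, h3, h4⟩ := hf e he
  exact ⟨j, h1, h2, h3, H j h1 h4⟩

theorem bigr_eq_bot {q N : ℕ} {U : ℤ → Submodule ℂ K} (H : ∀ j : ℤ, |j| ≤ 5 * q * N → U j = ⊥) :
    bigr q N U = ⊥ := by
  rw [eq_bot_iff]
  intro f hf
  rw [Submodule.mem_bot]
  ext e
  rw [coeff_zero]
  by_contra he
  obtain ⟨j, h1, h2, h3, h4⟩ := hf e he
  rw [H j h1, Submodule.mem_bot] at h4
  exact he h4

theorem monomial_mem_bigr {q N : ℕ} {U : ℤ → Submodule ℂ K} {e : Fin 4 →₀ ℕ} {j : ℤ} {c : K}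
    (h1 : |j| ≤ 5 * q * N) (h2 : (e 0 : ℤ) + e 1 = 25 * q * N + 3 * j)
    (h3 : (e 2 : ℤ) + e 3 = 25 * q * N - 3 * j) (hc : c ∈ U j) :
    monomial e c ∈ bigr q N U := by
  intro e' he'
  rw [coeff_monomial] at he' ⊢
  by_cases h : e = e'
  · subst h
    rw [if_pos rfl]
    exact ⟨j, h1, h2, h3, hc⟩
  · rw [if_neg h] at he'
    exact (he' rfl).elim

/-! ### The divisors -/

namespace Datum

variable (T : Datum K)

/-- the reduced divisor `S`. -/
noncomputable def IS : T.X.Pt →₀ ℤ := ∑ y ∈ T.S, Finsupp.single y 1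

/-- the reduced divisor `S'`. -/
noncomputable def IS' : T.X.Pt →₀ ℤ := ∑ y ∈ T.S', Finsupp.single y 1

theorem IS_nonneg (P : T.X.Pt) : 0 ≤ T.IS P := by
  classical
  unfold IS
  rw [Finsupp.finsetSum_apply]
  refine Finset.sum_nonneg fun y _ => ?_
  rw [Finsupp.single_apply]
  split_ifs <;> norm_num

theorem IS'_nonneg (P : T.X.Pt) : 0 ≤ T.IS' P := by
  classical
  unfold IS'
  rw [Finsupp.finsetSum_apply]
  refine Finset.sum_nonneg fun y _ => ?_
  rw [Finsupp.single_apply]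
  split_ifs <;> norm_num

theorem dvs_eq (q : ℕ) (D₀ : T.X.Pt →₀ ℤ) (N : ℕ) (j : ℤ) :
    T.dvs q D₀ N j = N • D₀ - (max 0 (j - 4 * q * N)) • T.IS -
      (max 0 (-j - 4 * q * N)) • T.IS' := by
  unfold dvs IS IS'
  rw [Finset.smul_sum, Finset.smul_sum]
  simp only [Finsupp.smul_single, smul_eq_mul, mul_one]

theorem dvs_superadd (q : ℕ) (D₀ : T.X.Pt →₀ ℤ) (N N' : ℕ) (j j' : ℤ) (P : T.X.Pt) :
    (T.dvs q D₀ N j + T.dvs q D₀ N' j') P ≤ T.dvs q D₀ (N + N') (j + j') P := by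
  rw [dvs_eq, dvs_eq, dvs_eq]
  simp only [Finsupp.add_apply, Finsupp.sub_apply, Finsupp.smul_apply, nsmul_eq_mul, smul_eq_mul]
  push_cast
  have h1 := T.IS_nonneg P
  have h2 := T.IS'_nonneg P
  have h3 : max 0 (j + j' - 4 * (q : ℤ) * (N + N')) ≤
      max 0 (j - 4 * q * N) + max 0 (j' - 4 * q * N') := by
    have e : 4 * (q : ℤ) * (N + N') = 4 * q * N + 4 * q * N' := by ring
    rw [e]
    generalize 4 * (q : ℤ) * N = a
    generalize 4 * (q : ℤ) * N' = b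
    omega
  have h4 : max 0 (-(j + j') - 4 * (q : ℤ) * (N + N')) ≤
      max 0 (-j - 4 * q * N) + max 0 (-j' - 4 * q * N') := by
    have e : 4 * (q : ℤ) * (N + N') = 4 * q * N + 4 * q * N' := by ring
    rw [e]
    generalize 4 * (q : ℤ) * N = a
    generalize 4 * (q : ℤ) * N' = b
    omega
  nlinarith [mul_le_mul_of_nonneg_right h3 h1, mul_le_mul_of_nonneg_right h4 h2]

theorem V_mul {q : ℕ} {D₀ : T.X.Pt →₀ ℤ} {N N' : ℕ} {j j' : ℤ} {a b : K}
    (ha : a ∈ T.V q D₀ N j) (hb : b ∈ T.V q D₀ N' j') : a * b ∈ T.V q D₀ (N + N') (j + j') :=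
  T.X.L_mono (T.dvs_superadd q D₀ N N' j j') (T.X.mul_mem_L ha hb)

theorem exists_pt : Nonempty T.X.Pt := by
  have h := T.card_S
  have h1 : 0 < T.S.card := by rw [h]; have := T.t_pos; positivity
  obtain ⟨P, _⟩ := Finset.card_pos.1 h1
  exact ⟨P⟩

theorem finite_V (q : ℕ) (D₀ : T.X.Pt →₀ ℤ) (N : ℕ) (j : ℤ) :
    FiniteDimensional ℂ (T.V q D₀ N j) := by
  obtain ⟨P₀⟩ := T.exists_pt
  exact T.X.finite_L P₀ _

end Datum

/-! ### The filtration -/

variable (T : Datum K)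

/-- the coefficient spaces of the filtration. -/
noncomputable def UF (q u : ℕ) (D₀ : T.X.Pt →₀ ℤ) (N : ℕ) (l : ℤ) (j : ℤ) : Submodule ℂ K :=
  if l ≤ min 0 ((u : ℤ) * N - |j|) then T.V q D₀ N j else ⊥

theorem UF_pos {q u : ℕ} {D₀ : T.X.Pt →₀ ℤ} {N : ℕ} {l : ℤ} {j : ℤ}
    (h : l ≤ min 0 ((u : ℤ) * N - |j|)) : UF T q u D₀ N l j = T.V q D₀ N j := if_pos h

theorem UF_neg {q u : ℕ} {D₀ : T.X.Pt →₀ ℤ} {N : ℕ} {l : ℤ} {j : ℤ}
    (h : ¬ l ≤ min 0 ((u : ℤ) * N - |j|)) : UF T q u D₀ N l j = ⊥ := if_neg h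

theorem finite_UF (q u : ℕ) (D₀ : T.X.Pt →₀ ℤ) (N : ℕ) (l : ℤ) (j : ℤ) :
    FiniteDimensional ℂ (UF T q u D₀ N l j) := by
  by_cases h : l ≤ min 0 ((u : ℤ) * N - |j|)
  · rw [UF_pos T h]
    exact T.finite_V q D₀ N j
  · rw [UF_neg T h]
    infer_instance

theorem UF_le (q u : ℕ) (D₀ : T.X.Pt →₀ ℤ) (N : ℕ) (l : ℤ) (j : ℤ) :
    UF T q u D₀ N l j ≤ T.V q D₀ N j := by
  unfold UF
  split_ifs
  · exact le_rfl
  · exact bot_le

/-- the filtration. -/
noncomputable def filtU (q u : ℕ) (D₀ : T.X.Pt →₀ ℤ) : Filt T q D₀ 1 where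
  F N l := bigr q N (UF T q u D₀ N l)
  le N l := by
    rw [one_mul, sec_eq_bigr]
    exact bigr_mono fun j _ => UF_le T q u D₀ N l j
  anti N l l' h := by
    refine bigr_mono fun j _ => ?_
    unfold UF
    split_ifs with h1 h2 h2
    · exact le_rfl
    · exact (h2 (h.trans h1)).elim
    · exact bot_le
    · exact bot_le
  mul N N' l l' f hf g hg := by
    refine bigr_mul ?_ hf hg
    intro j j' _ _ a ha b hb
    unfold UF at ha hb ⊢
    by_cases h : l ≤ min 0 ((u : ℤ) * N - |j|)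
    · by_cases h' : l' ≤ min 0 ((u : ℤ) * N' - |j'|)
      · rw [if_pos h] at ha
        rw [if_pos h'] at hb
        rw [if_pos]
        · exact T.V_mul ha hb
        · have h3 := abs_add_le j j'
          have e : (u : ℤ) * ((N + N' : ℕ) : ℤ) = u * N + u * N' := by push_cast; ring
          rw [e]
          omega
      · rw [if_neg h', Submodule.mem_bot] at hb
        rw [hb, mul_zero]
        exact zero_mem _
    · rw [if_neg h, Submodule.mem_bot] at ha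
      rw [ha, zero_mul]
      exact zero_mem _
  bound := by
    refine ⟨5 * q, fun N => ⟨?_, ?_⟩⟩
    · rw [one_mul, sec_eq_bigr]
      apply le_antisymm
      · exact bigr_mono fun j _ => UF_le T q u D₀ N _ j
      · refine bigr_mono fun j hj => ?_
        unfold UF
        rw [if_pos]
        push_cast
        have h1 : (0 : ℤ) ≤ u * N := by positivity
        have h2 : (0 : ℤ) ≤ 5 * q * N := by positivity
        apply le_min <;> linarith
    · refine bigr_eq_bot fun j _ => ?_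
      unfold UF
      rw [if_neg]
      intro h
      have h1 := h.trans (min_le_left _ _)
      have h2 : (0 : ℤ) ≤ ((5 * q : ℕ) : ℤ) * N := by positivity
      linarith

theorem filtU_F (q u : ℕ) (D₀ : T.X.Pt →₀ ℤ) (N : ℕ) (l : ℤ) :
    (filtU T q u D₀).F N l = bigr q N (UF T q u D₀ N l) := rfl

/-! ### Traces -/

theorem finrank_UF (q u : ℕ) (D₀ : T.X.Pt →₀ ℤ) (N : ℕ) (l : ℤ) (j : ℤ) :
    (finrank ℂ (UF T q u D₀ N l j) : ℝ) =
      if l ≤ min 0 ((u : ℤ) * N - |j|) then (finrank ℂ (T.V q D₀ N j) : ℝ) else 0 := by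
  by_cases h : l ≤ min 0 ((u : ℤ) * N - |j|)
  · rw [UF_pos T h, if_pos h]
  · rw [UF_neg T h, if_neg h, finrank_bot]
    norm_num

theorem wt_filtU (q u : ℕ) (D₀ : T.X.Pt →₀ ℤ) (N : ℕ) (l : ℤ) :
    (filtU T q u D₀).wt N l = ∑ j ∈ Icc (-((5 * q * N : ℕ) : ℤ)) ((5 * q * N : ℕ) : ℤ),
      if l = min 0 ((u : ℤ) * N - |j|) then mu q N j * finrank ℂ (T.V q D₀ N j) else 0 := by
  unfold Filt.wt
  rw [filtU_F, filtU_F, finrank_bigr _ _ _ (finite_UF T q u D₀ N l),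
    finrank_bigr _ _ _ (finite_UF T q u D₀ N (l + 1)), ← sum_sub_distrib]
  apply sum_congr rfl
  intro j _
  rw [finrank_UF, finrank_UF]
  generalize min 0 ((u : ℤ) * N - |j|) = m
  unfold mu
  rcases lt_trichotomy l m with h | h | h
  · rw [if_pos h.le, if_pos (by omega), if_neg (by omega)]
    ring
  · rw [if_pos h.le, if_neg (by omega), if_pos h]
    ring
  · rw [if_neg (by omega), if_neg (by omega), if_neg (by omega)]
    ring

theorem ww_eq (N u : ℕ) (j : ℤ) : ((min 0 ((u : ℤ) * N - |j|) : ℤ) : ℝ) = ww N u j := by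
  unfold ww
  push_cast
  rfl

theorem tr_filtU (q u : ℕ) (D₀ : T.X.Pt →₀ ℤ) (p N : ℕ) :
    (filtU T q u D₀).tr p N = ∑ j ∈ Icc (-((5 * q * N : ℕ) : ℤ)) ((5 * q * N : ℕ) : ℤ),
      mu q N j * finrank ℂ (T.V q D₀ N j) * ww N u j ^ p := by
  unfold Filt.tr
  have hsupp : (Function.support fun l : ℤ => (l : ℝ) ^ p * (filtU T q u D₀).wt N l) ⊆
      (((Icc (-((5 * q * N : ℕ) : ℤ)) ((5 * q * N : ℕ) : ℤ)).image
        fun j => min 0 ((u : ℤ) * N - |j|) : Finset ℤ) : Set ℤ) := by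
    intro l hl
    rw [Function.mem_support] at hl
    have h1 := right_ne_zero_of_mul hl
    rw [wt_filtU] at h1
    obtain ⟨j, hj, hj0⟩ := Finset.exists_ne_zero_of_sum_ne_zero h1
    rw [Finset.mem_coe, mem_image]
    refine ⟨j, hj, ?_⟩
    by_contra h
    rw [if_neg (fun h' => h h'.symm)] at hj0
    exact hj0 rfl
  rw [finsum_eq_sum_of_support_subset _ hsupp]
  simp only [wt_filtU, mul_sum]
  rw [sum_comm]
  apply sum_congr rfl
  intro j hj
  rw [sum_eq_single (min 0 ((u : ℤ) * N - |j|))]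
  · rw [if_pos rfl, ww_eq]
    ring
  · intro l _ hl
    rw [if_neg hl, mul_zero]
  · intro h
    exact (h (mem_image_of_mem _ hj)).elim

theorem dimN_filtU (q u : ℕ) (D₀ : T.X.Pt →₀ ℤ) (N : ℕ) :
    (filtU T q u D₀).dimN N = ∑ j ∈ Icc (-((5 * q * N : ℕ) : ℤ)) ((5 * q * N : ℕ) : ℤ),
      mu q N j * finrank ℂ (T.V q D₀ N j) := by
  unfold Filt.dimN
  rw [one_mul, sec_eq_bigr, finrank_bigr _ _ _ (T.finite_V q D₀ N)]
  rfl

/-- dimension of `V`. -/
theorem finrank_V {q : ℕ} {D₀ : T.X.Pt →₀ ℤ} {N : ℕ}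
    (hN : 18 * (T.t : ℤ) + 1 ≤ (T.X.deg D₀ - 100 * T.t * q) * N) {j : ℤ}
    (hj : |j| ≤ 5 * q * N) :
    (finrank ℂ (T.V q D₀ N j) : ℝ) = dm q N T.t (T.X.deg D₀ : ℤ) j := by
  have hd := deg_dvs T q D₀ N j
  have hm : max 0 (j - 4 * (q : ℤ) * N) + max 0 (-j - 4 * (q : ℤ) * N) =
      max 0 (|j| - 4 * q * N) := by
    have : (0 : ℤ) ≤ 4 * q * N := by positivity
    generalize 4 * (q : ℤ) * N = a at *
    rcases abs_cases j with ⟨h, h'⟩ | ⟨h, h'⟩ <;> omega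
  have hm2 : max 0 (|j| - 4 * (q : ℤ) * N) ≤ q * N := by
    have : (0 : ℤ) ≤ q * N := by positivity
    have e : 5 * (q : ℤ) * N = 4 * q * N + q * N := by ring
    rw [e] at hj
    generalize 4 * (q : ℤ) * N = a at *
    generalize (q : ℤ) * N = b at *
    omega
  rw [hm] at hd
  have ht : (0 : ℤ) ≤ T.t := by positivity
  have h1 : 2 * (T.X.genus : ℤ) - 2 < T.X.deg (T.dvs q D₀ N j) := by
    rw [hd, T.genus_eq]
    push_cast
    nlinarith [mul_le_mul_of_nonneg_left hm2 ht]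
  have h2 := T.X.riemann_roch _ h1
  rw [hd, T.genus_eq] at h2
  have h3 : ((finrank ℂ (T.V q D₀ N j) : ℕ) : ℝ) =
      ((((finrank ℂ (T.V q D₀ N j) : ℕ) : ℤ)) : ℝ) := by push_cast; rfl
  rw [h3]
  show ((((finrank ℂ (T.X.L (T.dvs q D₀ N j)) : ℕ) : ℤ)) : ℝ) = _
  rw [h2]
  unfold dm
  push_cast
  ring

end Pool.Agent.YTD
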