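import Pool.Agent.YTD.NoBase
import Pool.Agent.YTD.UnstFilt

/-!
Elements of maximal weight without base points.
-/

namespace Pool.Agent.YTD

open Finset Module MvPolynomial Filter

variable {K : Type} [Field K] [Algebra ℂ K]
variable {T : Datum K} {q : ℕ} {D₀ : T.X.Pt →₀ ℤ} {r : ℕ}

theorem Datum.dvs_apply (T : Datum K) (q : ℕ) (D₀ : T.X.Pt →₀ ℤ) (N : ℕ) (j : ℤ) (P : T.X.Pt) :
    T.dvs q D₀ N j P = N * D₀ P - T.IS P * max 0 (j - 4 * q * N) -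
      T.IS' P * max 0 (-j - 4 * q * N) := by
  rw [T.dvs_eq]
  simp only [Finsupp.sub_apply, Finsupp.smul_apply, nsmul_eq_mul, smul_eq_mul]
  ring

theorem Datum.dvs_homog (T : Datum K) (q : ℕ) (D₀ : T.X.Pt →₀ ℤ) (N : ℕ) (j : ℤ) (m : ℕ) :
    T.dvs q D₀ (N * m) (j * m) = m • T.dvs q D₀ N j := by
  have key : ∀ x : ℤ, max 0 (x * m) = m * max 0 x := by
    intro x
    rcases le_total x 0 with h | h
    · rw [max_eq_left h, max_eq_left (mul_nonpos_of_nonpos_of_nonneg h (Nat.cast_nonneg m))]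
      simp
    · rw [max_eq_right h, max_eq_right (mul_nonneg h (Nat.cast_nonneg m))]
      ring
  ext P
  rw [T.dvs_apply, Finsupp.smul_apply, T.dvs_apply]
  have e1 : j * m - 4 * q * ((N * m : ℕ) : ℤ) = (j - 4 * q * N) * m := by push_cast; ring
  have e2 : -(j * m) - 4 * q * ((N * m : ℕ) : ℤ) = (-j - 4 * q * N) * m := by push_cast; ring
  rw [e1, e2, key, key, nsmul_eq_mul]
  push_cast
  ring

theorem CurveOrd.ord_pow (X : CurveOrd K) (P : X.Pt) {c : K} (hc : c ≠ 0) (m : ℕ) :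
    X.ord P (c ^ m) = m * X.ord P c := by
  induction m with
  | zero => simp [X.ord_one]
  | succ m ih =>
    rw [pow_succ, X.ord_mul P _ _ (pow_ne_zero _ hc) hc, ih]
    push_cast
    ring

theorem support_aux {Q : ℤ} (N₁ : ℕ) (j₁ : ℤ) :
    ∃ α β : ℤ, (∀ (N : ℕ) (j : ℤ), α * N + β * j ≤ max 0 (j - Q * N)) ∧
      (α * N₁ + β * j₁ = max 0 (j₁ - Q * N₁)) ∧
      (∀ (N : ℕ) (j : ℤ), N₁ * max 0 (j - Q * N) ≤ N₁ * (α * N + β * j) + |N₁ * j - j₁ * N|) := by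
  rcases le_total j₁ (Q * N₁) with h | h
  · refine ⟨0, 0, fun N j => ?_, ?_, fun N j => ?_⟩
    · simp
    · rw [max_eq_left (by linarith)]; ring
    · rcases le_total (j - Q * N) 0 with h1 | h1
      · rw [max_eq_left h1]
        simp only [mul_zero, zero_mul, add_zero, zero_add]
        exact abs_nonneg _
      · rw [max_eq_right h1]
        have h2 : j₁ * N ≤ Q * N₁ * N := mul_le_mul_of_nonneg_right h (Nat.cast_nonneg _)
        have h3 := le_abs_self ((N₁ : ℤ) * j - j₁ * N)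
        nlinarith
  · refine ⟨-Q, 1, fun N j => ?_, ?_, fun N j => ?_⟩
    · have := le_max_right 0 (j - Q * N)
      linarith
    · rw [max_eq_right (by linarith)]; ring
    · rcases le_total (j - Q * N) 0 with h1 | h1
      · rw [max_eq_left h1]
        have h2 : Q * N₁ * N ≤ j₁ * N := mul_le_mul_of_nonneg_right h (Nat.cast_nonneg _)
        have h3 := neg_abs_le ((N₁ : ℤ) * j - j₁ * N)
        nlinarith
      · rw [max_eq_right h1]
        have := abs_nonneg ((N₁ : ℤ) * j - j₁ * N)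
        nlinarith

/-- supporting functionals of the piecewise linear concave function `dvs`. -/
theorem Datum.support (T : Datum K) (q : ℕ) (D₀ : T.X.Pt →₀ ℤ) (P : T.X.Pt) (N₁ : ℕ) (j₁ : ℤ) :
    ∃ α β γ : ℤ, 0 ≤ γ ∧ (∀ (N : ℕ) (j : ℤ), T.dvs q D₀ N j P ≤ α * N + β * j) ∧
      (T.dvs q D₀ N₁ j₁ P = α * N₁ + β * j₁) ∧
      (∀ (N : ℕ) (j : ℤ), N₁ * (α * N + β * j) ≤
        N₁ * T.dvs q D₀ N j P + γ * |N₁ * j - j₁ * N|) := by
  obtain ⟨a, b, h1, h2, h3⟩ := support_aux (Q := 4 * q) N₁ j₁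
  obtain ⟨a', b', h1', h2', h3'⟩ := support_aux (Q := 4 * q) N₁ (-j₁)
  have s1 := T.IS_nonneg P
  have s2 := T.IS'_nonneg P
  refine ⟨D₀ P - T.IS P * a - T.IS' P * a', - T.IS P * b + T.IS' P * b', T.IS P + T.IS' P,
    by positivity, fun N j => ?_, ?_, fun N j => ?_⟩
  · rw [T.dvs_apply]
    have e1 := mul_le_mul_of_nonneg_left (h1 N j) s1
    have e2 := mul_le_mul_of_nonneg_left (h1' N (-j)) s2
    nlinarith
  · rw [T.dvs_apply, ← h2, ← h2']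
    ring
  · rw [T.dvs_apply]
    have e1 := mul_le_mul_of_nonneg_left (h3 N j) s1
    have e2 := mul_le_mul_of_nonneg_left (h3' N (-j)) s2
    have e3 : |(N₁ : ℤ) * -j - -j₁ * N| = |N₁ * j - j₁ * N| := by
      rw [← abs_neg]
      congr 1
      ring
    rw [e3] at e2
    nlinarith

theorem small_costs {ι : Type*} (s : Finset ι) (n y cost : ι → ℝ) (hn : ∀ p ∈ s, 0 ≤ n p)
    (hc : ∀ p ∈ s, 0 ≤ cost p) (hy : ∀ p ∈ s, n p = 0 → y p = 0)
    (h : ∀ p ∈ s, 0 < n p → y p ≤ 0 → 0 < cost p) :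
    ∃ δ η : ℝ, 0 < δ ∧ 0 < η ∧ ∀ p ∈ s, δ * n p ≤ cost p + η * y p := by
  have h1 : ∀ᶠ η in nhdsWithin (0 : ℝ) (Set.Ioi 0), ∀ p ∈ s, 0 < n p → 0 < cost p + η * y p := by
    rw [Filter.eventually_all_finset]
    intro p hp
    by_cases h0 : 0 < n p
    swap
    · exact Filter.Eventually.of_forall fun _ h2 => (h0 h2).elim
    by_cases h2 : y p ≤ 0
    · have h3 : Tendsto (fun η : ℝ => cost p + η * y p) (nhdsWithin (0 : ℝ) (Set.Ioi 0))
          (nhds (cost p + 0 * y p)) :=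
        (Continuous.tendsto (by fun_prop) 0).mono_left nhdsWithin_le_nhds
      rw [zero_mul, add_zero] at h3
      filter_upwards [h3.eventually (lt_mem_nhds (h p hp h0 h2))] with η hη _
      exact hη
    · push Not at h2
      filter_upwards [self_mem_nhdsWithin] with η hη _
      have : 0 < η * y p := mul_pos hη h2
      have := hc p hp
      linarith
  obtain ⟨η, hη, hη0⟩ := (h1.and self_mem_nhdsWithin).exists
  have h2 : ∀ᶠ δ in nhdsWithin (0 : ℝ) (Set.Ioi 0), ∀ p ∈ s, δ * n p ≤ cost p + η * y p := by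
    rw [Filter.eventually_all_finset]
    intro p hp
    rcases eq_or_lt_of_le (hn p hp) with h0 | h0
    · refine Filter.Eventually.of_forall fun δ => ?_
      rw [← h0, hy p hp h0.symm, mul_zero, mul_zero, add_zero]
      exact hc p hp
    · have h3 : Tendsto (fun δ : ℝ => δ * n p) (nhdsWithin (0 : ℝ) (Set.Ioi 0))
          (nhds (0 * n p)) :=
        (Continuous.tendsto (by fun_prop) 0).mono_left nhdsWithin_le_nhds
      rw [zero_mul] at h3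
      filter_upwards [h3.eventually (gt_mem_nhds (hη p hp h0))] with δ hδ
      exact hδ.le
  obtain ⟨δ, hδ, hδ0⟩ := (h2.and self_mem_nhdsWithin).exists
  exact ⟨δ, η, hδ0, hη0, hδ⟩

namespace TestConf

variable (χ : TestConf T q D₀ r)

theorem near (hχ : χ.Equivariant) (hr : 0 < r) (hq : 0 < q) (hD : T.X.deg D₀ = 105 * T.t * q)
    {k : ℕ} {n : Fin k → ℕ} {w : Fin k → ℤ} {f : Fin k → MvPolynomial (Fin 4) K}
    (hf : ∀ i, f i ∈ χ.F (n i) (w i)) {A B : ℝ}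
    (h2 : ∃ i e, (f i).coeff e ≠ 0 ∧ 0 < n i ∧ jr e = -((5 * (r * q) : ℝ) * n i) ∧
        (w i : ℝ) = A * n i + B * jr e)
    (h3 : ∃ i e, (f i).coeff e ≠ 0 ∧ 0 < n i ∧ jr e = (5 * (r * q) : ℝ) * n i ∧
        (w i : ℝ) = A * n i + B * jr e) :
    ∃ C : ℝ, ∀ (N : ℕ) (j : ℤ), 4 ≤ N → |j| ≤ 5 * (r * q : ℕ) * N →
      ∃ (l : ℤ) (c : K), c ≠ 0 ∧ c ∈ χ.Wc N l j ∧ A * N + B * j - C ≤ l := by
  obtain ⟨i, e, he, hn, hj, hw⟩ := h2
  obtain ⟨i', e', he', hn', hj', hw'⟩ := h3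
  obtain ⟨j, a1, a2, a3, a4, a5⟩ := χ.index (hf i) he
  obtain ⟨j', a1', a2', a3', a4', a5'⟩ := χ.index (hf i') he'
  have ej : j = -(5 * (r * q : ℕ) * n i) := by
    have : (j : ℝ) = ((-(5 * (r * q : ℕ) * n i) : ℤ) : ℝ) := by
      rw [← a4, hj]; push_cast; ring
    exact_mod_cast this
  have ej' : j' = 5 * (r * q : ℕ) * n i' := by
    have : (j' : ℝ) = ((5 * (r * q : ℕ) * n i' : ℤ) : ℝ) := by
      rw [← a4', hj']; push_cast; ring
    exact_mod_cast this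
  have m1 := hχ.coeff_mem (hf i) a1 a2 a3
  have m2 := hχ.coeff_mem (hf i') a1' a2' a3'
  rw [ej] at m1
  rw [ej'] at m2
  refine χ.near_top hr hq hD hn hn' he he' m1 m2 ?_ ?_
  · rw [hw, hj]
  · rw [hw', hj']

/-- existence of good generators on both sides of a given ray. -/
theorem good_side (hχ : χ.Equivariant) (hr : 0 < r) (hq : 0 < q) (hD : T.X.deg D₀ = 105 * T.t * q)
    {a₀ b₀ c₀ : ℝ} (hE : χ.Expansion a₀ 0 b₀ 0 c₀) {k : ℕ}
    {n : Fin k → ℕ} {w : Fin k → ℤ} {f : Fin k → MvPolynomial (Fin 4) K}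
    (hspan : ∀ N l, χ.F N l ≤ Submodule.span ℂ {g | ∃ m : Fin k → ℕ,
      ∑ i, m i * n i = N ∧ l ≤ ∑ i, m i * w i ∧ g = ∏ i, f i ^ m i})
    {A B C : ℝ} (hf : ∀ i, f i ∈ χ.F (n i) (w i))
    (h1 : ∀ i e, (f i).coeff e ≠ 0 → (w i : ℝ) ≤ A * n i + B * jr e)
    (h2 : ∀ (N : ℕ) (j : ℤ), 4 ≤ N → |j| ≤ 5 * (r * q : ℕ) * N →
      ∃ (l : ℤ) (c : K), c ≠ 0 ∧ c ∈ χ.Wc N l j ∧ A * N + B * j - C ≤ l)
    (P : T.X.Pt) {N₁ : ℕ} (hN₁ : 0 < N₁) {j₁ : ℤ} (hj₁ : |j₁| ≤ 5 * (r * q : ℕ) * N₁)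
    {α β γ : ℤ} (hγ : 0 ≤ γ)
    (hs1 : ∀ (N : ℕ) (j : ℤ), T.dvs (r * q) (r • D₀) N j P ≤ α * N + β * j)
    (hs3 : ∀ (N : ℕ) (j : ℤ), N₁ * (α * N + β * j) ≤
        N₁ * T.dvs (r * q) (r • D₀) N j P + γ * |N₁ * j - j₁ * N|)
    {ε : ℤ} (hε : |ε| = 1) :
    ∃ (i : Fin k) (e : Fin 4 →₀ ℕ) (j : ℤ), (f i).coeff e ≠ 0 ∧ 0 < n i ∧
      |j| ≤ 5 * (r * q : ℕ) * (n i) ∧ (f i).coeff e ∈ χ.Wc (n i) (w i) j ∧
      (w i : ℝ) = A * n i + B * j ∧
      T.X.ord P ((f i).coeff e) = -(α * n i + β * j) ∧ ε * (j * N₁ - j₁ * n i) ≤ 0 := by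
  classical
  obtain ⟨P₀⟩ := T.exists_pt
  by_contra hcon
  push Not at hcon
  set s := (Finset.univ : Finset (Fin k)).sigma fun i => (f i).support with hs
  have hmem : ∀ p ∈ s, (f p.1).coeff p.2 ≠ 0 := fun p hp =>
    MvPolynomial.mem_support_iff.1 (Finset.mem_sigma.1 hp).2
  have hN₁r : (0 : ℝ) < N₁ := by exact_mod_cast hN₁
  obtain ⟨δ, η, hδ, hη, hall⟩ := small_costs s (fun p => (n p.1 : ℝ))
    (fun p => (ε : ℝ) * (jr p.2 * N₁ - j₁ * n p.1))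
    (fun p => ((T.X.ord P ((f p.1).coeff p.2) : ℝ) + α * n p.1 + β * jr p.2) +
      (A * n p.1 + B * jr p.2 - w p.1)) (fun p _ => Nat.cast_nonneg _) (by
      intro p hp
      obtain ⟨j, a1, a2, a3, a4, a5⟩ := χ.index (hf p.1) (hmem p hp)
      have b1 := h1 p.1 p.2 (hmem p hp)
      have b2 := a5 (hmem p hp) P
      have b3 := hs1 (n p.1) j
      have b4 : (0 : ℝ) ≤ (T.X.ord P ((f p.1).coeff p.2) : ℝ) + α * n p.1 + β * j := by
        exact_mod_cast (show (0 : ℤ) ≤ T.X.ord P ((f p.1).coeff p.2) + α * n p.1 + β * j by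
          linarith)
      show (0 : ℝ) ≤ ((T.X.ord P ((f p.1).coeff p.2) : ℝ) + α * n p.1 + β * jr p.2) +
        (A * n p.1 + B * jr p.2 - w p.1)
      rw [a4] at b1 ⊢
      linarith) (by
      intro p hp h0
      obtain ⟨j, a1, a2, a3, a4, a5⟩ := χ.index (hf p.1) (hmem p hp)
      have h0' : n p.1 = 0 := by exact_mod_cast h0
      rw [h0'] at a1
      have : j = 0 := by simpa using a1
      show (ε : ℝ) * (jr p.2 * N₁ - j₁ * n p.1) = 0
      rw [a4, this, h0]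
      simp) (by
      intro p hp hn hy
      obtain ⟨j, a1, a2, a3, a4, a5⟩ := χ.index (hf p.1) (hmem p hp)
      have b1 := h1 p.1 p.2 (hmem p hp)
      have b2 := a5 (hmem p hp) P
      have b3 := hs1 (n p.1) j
      change (0 : ℝ) < ((T.X.ord P ((f p.1).coeff p.2) : ℝ) + α * n p.1 + β * jr p.2) +
        (A * n p.1 + B * jr p.2 - w p.1)
      change (ε : ℝ) * (jr p.2 * N₁ - j₁ * n p.1) ≤ 0 at hy
      rw [a4] at b1 hy ⊢
      have b4 : (0 : ℝ) ≤ (T.X.ord P ((f p.1).coeff p.2) : ℝ) + α * n p.1 + β * j := by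
        exact_mod_cast (show (0 : ℤ) ≤ T.X.ord P ((f p.1).coeff p.2) + α * n p.1 + β * j by
          linarith)
      by_contra hc
      push Not at hc
      have c1 : (w p.1 : ℝ) = A * n p.1 + B * j := by linarith
      have c2 : (T.X.ord P ((f p.1).coeff p.2) : ℝ) = -(α * n p.1 + β * j) := by linarith
      have c3 : T.X.ord P ((f p.1).coeff p.2) = -(α * n p.1 + β * j) := by exact_mod_cast c2
      have c4 : ε * (j * N₁ - j₁ * n p.1) ≤ 0 := by exact_mod_cast hy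
      have c5 := hcon p.1 p.2 j (hmem p hp) (by exact_mod_cast hn) a1
        (hχ.coeff_mem (hf p.1) a1 a2 a3) c1 c3
      linarith)
  -- the linear inequality for all elements
  have key : ∀ (N : ℕ) (l : ℤ), ∀ g ∈ χ.F N l, ∀ e, g.coeff e ≠ 0 →
      (l : ℝ) ≤ (A + α - δ - η * ε * j₁) * N + (B + β + η * ε * N₁) * jr e +
        T.X.ord P (g.coeff e) := by
    intro N l g hg e he
    have hgen : ∀ i, f i ∈ LP P (A + α - δ - η * ε * j₁) (B + β + η * ε * N₁) 1 1 zero_le_one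
        (n i) (w i) := by
      intro i e h0
      have h1 := hall ⟨i, e⟩ (Finset.mem_sigma.2 ⟨Finset.mem_univ _,
        MvPolynomial.mem_support_iff.2 h0⟩)
      simp only at h1
      linarith
    have := χ.le_LP hspan zero_le_one hgen N l hg e he
    linarith
  set χ' := χ.toFilt.ver N₁ with hχ'
  have hq' : 0 < r * N₁ * q := by positivity
  have hD' : T.X.deg ((r * N₁) • D₀) = 105 * T.t * ((r * N₁ * q : ℕ) : ℤ) := Filt.deg_smul hD
  have hS : χ'.graded.TotExp (b₀ * N₁ ^ 5 + χ'.lam * (a₀ * N₁ ^ 4)) 0 := by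
    have := χ'.totExp P₀ (χ.ver_expansion hN₁ hE)
    simpa using this
  have hx : |j₁| ≤ 5 * ((r * N₁ * q : ℕ) : ℤ) := by
    push_cast at hj₁ ⊢
    linarith
  have hγr : (0 : ℝ) ≤ γ := by exact_mod_cast hγ
  set θ : ℝ := δ * N₁ / (4 * (γ + η * N₁ + 1)) with hθ
  have hθ0 : 0 < θ := by positivity
  have hθ1 : (γ + η * N₁) * θ ≤ δ * N₁ / 4 := by
    have e1 : δ * N₁ / 4 = (γ + η * N₁ + 1) * θ := by
      rw [hθ]
      field_simp
    rw [e1]
    nlinarith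
  refine χ'.graded.no_base P₀ hD' hq' hS hx P (δ := δ * N₁) (C := C) (θ := θ)
    (A := A * N₁ + χ'.lam) (B := B) (by positivity) hθ0 ?_ ?_
  · intro N j a b hN hab
    have hj : |j| ≤ 5 * (r * q : ℕ) * ((N₁ * N : ℕ) : ℤ) := by
      have := hab.1
      push_cast at this ⊢
      linarith
    obtain ⟨l, c, hc0, hc, hl⟩ := h2 (N₁ * N) j
      (le_trans hN (Nat.le_mul_of_pos_left N hN₁)) hj
    have h3 := hχ.mem_of_Wc (e := expo (r * N₁ * q) N j a b) hj hc (by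
      rw [expo_sum_x hab]; push_cast; ring) (by rw [expo_sum_y hab]; push_cast; ring)
    have h4 := χ'.le_nn_of (N := N) (j := j) (a := a) (b := b) (l := l) hc0 h3
    push_cast at hl
    linarith
  · intro N j a b l hN hab hjx hl c hc hc0
    obtain ⟨g, hg, _, rfl⟩ := mem_ini.1 hc
    have h3 := key (N₁ * N) ((l : ℤ) - χ'.lam * N) g hg _ hc0
    have h4 : jr (expo (r * N₁ * q) N j a b) = j := jr_of (q := r * N₁ * q) (N := N)
      (expo_sum_x hab) (expo_sum_y hab)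
    rw [h4] at h3
    have h5 : T.dvs (r * N₁ * q) ((r * N₁) • D₀) N j = T.dvs (r * q) (r • D₀) (N₁ * N) j := by
      rw [T.dvs_mul, T.dvs_mul, mul_assoc]
    rw [h5]
    have h6 := hs3 (N₁ * N) j
    have h6r : (N₁ : ℝ) * (α * (N₁ * N) + β * j) ≤
        N₁ * T.dvs (r * q) (r • D₀) (N₁ * N) j P + γ * |(N₁ : ℝ) * j - j₁ * (N₁ * N)| := by
      exact_mod_cast h6
    have e1 : (N₁ : ℝ) * j - j₁ * (N₁ * N) = N₁ * (j - j₁ * N) := by ring
    rw [e1, abs_mul, abs_of_pos hN₁r] at h6r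
    have h7 : (α * (N₁ * N) + β * j : ℝ) ≤
        T.dvs (r * q) (r • D₀) (N₁ * N) j P + γ * |(j : ℝ) - j₁ * N| := by
      refine le_of_mul_le_mul_left ?_ hN₁r
      linarith
    have h8 : η * ε * (N₁ * (j - j₁ * N)) ≤ η * N₁ * |(j : ℝ) - j₁ * N| := by
      have e2 : |(ε : ℝ)| = 1 := by exact_mod_cast hε
      calc η * ε * (N₁ * (j - j₁ * N)) ≤ |η * ε * (N₁ * (j - j₁ * N))| := le_abs_self _
        _ = η * N₁ * |(j : ℝ) - j₁ * N| := by
          rw [abs_mul, abs_mul, abs_mul, e2, abs_of_pos hη, abs_of_pos hN₁r]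
          ring
    have h9 : (γ + η * N₁) * |(j : ℝ) - j₁ * N| ≤ δ * N₁ / 4 * N := by
      calc (γ + η * N₁) * |(j : ℝ) - j₁ * N| ≤ (γ + η * N₁) * (θ * N) :=
            mul_le_mul_of_nonneg_left hjx (by positivity)
        _ = (γ + η * N₁) * θ * N := by ring
        _ ≤ _ := mul_le_mul_of_nonneg_right hθ1 (Nat.cast_nonneg _)
    push_cast at h3
    nlinarith

/-- elements of maximal weight not vanishing at a given point. -/
theorem tight (hχ : χ.Equivariant) (hr : 0 < r) (hq : 0 < q) (hD : T.X.deg D₀ = 105 * T.t * q)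
    {a₀ b₀ c₀ : ℝ} (hE : χ.Expansion a₀ 0 b₀ 0 c₀) {k : ℕ}
    {n : Fin k → ℕ} {w : Fin k → ℤ} {f : Fin k → MvPolynomial (Fin 4) K}
    (hspan : ∀ N l, χ.F N l ≤ Submodule.span ℂ {g | ∃ m : Fin k → ℕ,
      ∑ i, m i * n i = N ∧ l ≤ ∑ i, m i * w i ∧ g = ∏ i, f i ^ m i})
    {A B C : ℝ} (hf : ∀ i, f i ∈ χ.F (n i) (w i))
    (h1 : ∀ i e, (f i).coeff e ≠ 0 → (w i : ℝ) ≤ A * n i + B * jr e)
    (h2 : ∀ (N : ℕ) (j : ℤ), 4 ≤ N → |j| ≤ 5 * (r * q : ℕ) * N →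
      ∃ (l : ℤ) (c : K), c ≠ 0 ∧ c ∈ χ.Wc N l j ∧ A * N + B * j - C ≤ l)
    (P : T.X.Pt) {N₁ : ℕ} (hN₁ : 0 < N₁) {j₁ : ℤ} (hj₁ : |j₁| ≤ 5 * (r * q : ℕ) * N₁) :
    ∃ (m : ℕ) (l : ℤ) (c : K), 0 < m ∧ c ≠ 0 ∧ c ∈ χ.Wc (N₁ * m) l (j₁ * m) ∧
      (l : ℝ) = (A * N₁ + B * j₁) * m ∧
      T.X.ord P c = -(T.dvs (r * q) (r • D₀) (N₁ * m) (j₁ * m) P) := by
  obtain ⟨α, β, γ, hγ, hs1, hs2, hs3⟩ := T.support (r * q) (r • D₀) P N₁ j₁
  have red : ∀ (M : ℕ) (J l : ℤ) (c : K), 0 < M → |J| ≤ 5 * (r * q : ℕ) * M → c ≠ 0 →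
      c ∈ χ.Wc M l J → (l : ℝ) = A * M + B * J → T.X.ord P c = -(α * M + β * J) →
      J * N₁ = j₁ * M → ∃ (m : ℕ) (l : ℤ) (c : K), 0 < m ∧ c ≠ 0 ∧
        c ∈ χ.Wc (N₁ * m) l (j₁ * m) ∧ (l : ℝ) = (A * N₁ + B * j₁) * m ∧
        T.X.ord P c = -(T.dvs (r * q) (r • D₀) (N₁ * m) (j₁ * m) P) := by
    intro M J l c hM hJ hc0 hc hl ho hray
    refine ⟨M, l * N₁, c ^ N₁, hM, pow_ne_zero _ hc0, ?_, ?_, ?_⟩
    · have := χ.Wc_pow hJ hc hN₁
      rwa [mul_comm M N₁, hray] at this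
    · have e1 : (J : ℝ) * N₁ = j₁ * M := by exact_mod_cast hray
      push_cast
      rw [hl, add_mul, mul_assoc B, e1]
      ring
    · rw [T.X.ord_pow P hc0, ho, T.dvs_homog, Finsupp.smul_apply, hs2, nsmul_eq_mul]
      linear_combination -β * hray
  obtain ⟨i, e, j, a1, a2, a3, a4, a5, a6, a7⟩ := χ.good_side hχ hr hq hD hE hspan hf h1 h2 P hN₁
    hj₁ hγ hs1 hs3 (ε := 1) (by simp)
  obtain ⟨i', e', j', b1, b2, b3, b4, b5, b6, b7⟩ := χ.good_side hχ hr hq hD hE hspan hf h1 h2 P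
    hN₁ hj₁ hγ hs1 hs3 (ε := -1) (by simp)
  obtain ⟨u, hu⟩ := Int.eq_ofNat_of_zero_le (show 0 ≤ -(j * N₁ - j₁ * n i) by linarith)
  obtain ⟨v, hv⟩ := Int.eq_ofNat_of_zero_le (show 0 ≤ j' * N₁ - j₁ * n i' by linarith)
  rcases Nat.eq_zero_or_pos u with h0 | h0
  · rw [h0] at hu
    exact red (n i) j (w i) _ a2 a3 a1 a4 a5 a6 (by push_cast at hu; linarith)
  · have m1 := χ.Wc_pow' a3 a4 v
    have m2 := χ.Wc_pow' b3 b4 u
    have m3 := χ.Wc_mul (range_mul a3 v) (range_mul b3 u) m1 m2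
    refine red (n i * v + n i' * u) (j * v + j' * u) _ _ ?_
      (range_add (range_mul a3 v) (range_mul b3 u))
      (mul_ne_zero (pow_ne_zero _ a1) (pow_ne_zero _ b1)) m3 ?_ ?_ ?_
    · have : 0 < n i' * u := Nat.mul_pos b2 h0
      omega
    · push_cast
      rw [a5, b5]
      ring
    · rw [T.X.ord_mul P _ _ (pow_ne_zero _ a1) (pow_ne_zero _ b1), T.X.ord_pow P a1,
        T.X.ord_pow P b1, a6, b6]
      push_cast
      ring
    · push_cast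
      linear_combination (-(v : ℤ)) * hu + (u : ℤ) * hv

end TestConf

end Pool.Agent.YTD
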