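import Pool.Agent.YTD.ZeroFlag
import Pool.Agent.YTD.RigidB1
import Pool.Agent.YTD.RigidB2
import Pool.Agent.YTD.RigidForms
import Pool.Agent.YTD.Spec3

/-!
The component of maximal degree in `x` and leading exponents of specializations.
-/

namespace Pool.Agent.YTD

open Finset Module MvPolynomial

variable {K : Type} [Field K] [Algebra ℂ K]

/-- the component of degree `A` in `x₀, x₁` -/
noncomputable def xpart (A : ℕ) (f : MvPolynomial (Fin 4) K) : MvPolynomial (Fin 4) K :=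
  ∑ e ∈ f.support with xd e = A, monomial e (f.coeff e)

theorem coeff_xpart (A : ℕ) (f : MvPolynomial (Fin 4) K) (e : Fin 4 →₀ ℕ) :
    (xpart A f).coeff e = if xd e = A then f.coeff e else 0 := by
  classical
  unfold xpart
  rw [coeff_sum]
  simp only [coeff_monomial]
  rw [Finset.sum_ite_eq']
  by_cases h : xd e = A
  · rw [if_pos h]
    by_cases he : e ∈ f.support
    · rw [if_pos (mem_filter.2 ⟨he, h⟩)]
    · rw [if_neg (fun h' => he (mem_filter.1 h').1), MvPolynomial.notMem_support_iff.1 he]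
  · rw [if_neg h, if_neg]
    intro h'
    exact h (mem_filter.1 h').2

theorem xpart_subst (g h : Matrix (Fin 2) (Fin 2) ℂ) (A : ℕ) (f : MvPolynomial (Fin 4) K) :
    xpart A (subst g h f) = subst g h (xpart A f) := by
  classical
  ext e
  rw [coeff_xpart]
  have h1 : subst g h f = ∑ e' ∈ f.support, subst g h (monomial e' (f.coeff e')) := by
    conv_lhs => rw [f.as_sum]
    rw [map_sum]
  have h2 : subst g h (xpart A f) =
      ∑ e' ∈ f.support with xd e' = A, subst g h (monomial e' (f.coeff e')) := by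
    unfold xpart
    rw [map_sum]
  have h3 : ∀ e' : Fin 4 →₀ ℕ, ∀ c : K, (subst g h (monomial e' c)).coeff e ≠ 0 →
      xd e = xd e' := by
    intro e' c hne
    exact (subst_monomial_mem g h (W := (⊤ : Submodule ℂ K)) (c := c) trivial e' e hne).1
  rw [h1, h2, coeff_sum, coeff_sum]
  split_ifs with hA
  · rw [Finset.sum_filter]
    apply sum_congr rfl
    intro e' _
    split_ifs with hA'
    · rfl
    · by_contra hne
      exact hA' ((h3 e' _ hne).symm.trans hA)
  · symm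
    apply sum_eq_zero
    intro e' he'
    by_contra hne
    exact hA ((h3 e' _ hne).trans (mem_filter.1 he').2)

theorem substU_injective {g h : Matrix (Fin 2) (Fin 2) ℂ} (hg : IsUnit g) (hh : IsUnit h) :
    Function.Injective (subst (K := K) g h) := (substE K g h hg hh).injective

variable {T : Datum K} {q : ℕ} {D₀ : T.X.Pt →₀ ℤ} {r : ℕ}

/-- the coefficients after a substitution are combinations of the coefficients. -/
theorem coeff_subst_mem (g h : Matrix (Fin 2) (Fin 2) ℂ) {W : Submodule ℂ K}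
    {f : MvPolynomial (Fin 4) K} (hf : ∀ e, f.coeff e ∈ W) (e : Fin 4 →₀ ℕ) :
    (subst g h f).coeff e ∈ W := by
  have h1 : subst g h f = ∑ e' ∈ f.support, subst g h (monomial e' (f.coeff e')) := by
    conv_lhs => rw [f.as_sum]
    rw [map_sum]
  rw [h1, coeff_sum]
  refine sum_mem fun e' _ => ?_
  by_cases h2 : (subst g h (monomial e' (f.coeff e'))).coeff e = 0
  · rw [h2]
    exact zero_mem _
  · exact (subst_monomial_mem g h (hf e') e' e h2).2.2

namespace Filt

theorem sameLayers_tw (χ : Filt T q D₀ r) {g h g' h' : Matrix (Fin 2) (Fin 2) ℂ} (hg : IsUnit g)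
    (hh : IsUnit h) (hg' : IsUnit g') (hh' : IsUnit h') :
    SameLayers (χ.tw (substE K g h hg hh) (pres_substE hg hh))
      (χ.tw (substE K g' h' hg' hh') (pres_substE hg' hh')) xd := by
  have key : ∀ {g h : Matrix (Fin 2) (Fin 2) ℂ} (hg : IsUnit g) (hh : IsUnit h) (N : ℕ) (l : ℤ)
      (c : ℕ), finrank ℂ ((χ.tw (substE K g h hg hh) (pres_substE hg hh)).F N l ⊓ Wle xd c :
        Submodule ℂ (MvPolynomial (Fin 4) K)) =
        finrank ℂ (χ.F N l ⊓ Wle xd c : Submodule ℂ (MvPolynomial (Fin 4) K)) := by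
    intro g h hg hh N l c
    have e : ((χ.tw (substE K g h hg hh) (pres_substE hg hh)).F N l ⊓ Wle xd c :
        Submodule ℂ (MvPolynomial (Fin 4) K)) =
        (χ.F N l ⊓ Wle xd c : Submodule ℂ (MvPolynomial (Fin 4) K)).map
          (substE K g h hg hh).toLinearMap := by
      ext f
      constructor
      · rintro ⟨⟨f', hf', rfl⟩, hw⟩
        refine ⟨f', ⟨hf', ?_⟩, rfl⟩
        have h1 : (substE K g h hg hh).toLinearMap f' = subst g h f' := rfl
        rw [h1] at hw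
        have h2 := subst_mem_Wle_xd g⁻¹ h⁻¹ hw
        rw [subst_subst, Matrix.mul_nonsing_inv _ ((Matrix.isUnit_iff_isUnit_det g).1 hg),
          Matrix.mul_nonsing_inv _ ((Matrix.isUnit_iff_isUnit_det h).1 hh), subst_one] at h2
        exact h2
      · rintro ⟨f', ⟨hf', hw⟩, rfl⟩
        exact ⟨⟨f', hf', rfl⟩, subst_mem_Wle_xd g h hw⟩
    rw [e]
    exact (LinearEquiv.finrank_eq (Submodule.equivMapOfInjective _
      (autom_injective (substE K g h hg hh)) _)).symm
  intro N l c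
  rw [key hg hh, key hg' hh']

end Filt

/-! ### The specialization -/

/-- the bidegree in the top layer of an element of the specialized section space -/
theorem xpart_mem_bih {Q N A : ℕ} {f : MvPolynomial (Fin 4) K}
    (hf : ∀ e, f.coeff e ≠ 0 → e ∈ Eset Q N) :
    xpart A f ∈ bih A (50 * Q * N - A) (⊤ : Submodule ℂ K) := by
  intro e he
  rw [coeff_xpart] at he
  split_ifs at he with h
  · refine ⟨h, ?_, trivial⟩
    obtain ⟨j, a, b, h1, rfl⟩ := mem_Eset.1 (hf e he)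
    have h2 := expo_sum_x h1
    have h3 := expo_sum_y h1
    have hQN : ((50 * Q * N : ℕ) : ℤ) = 2 * (25 * (Q : ℤ) * N) := by
      push_cast
      ring
    unfold xd at h
    rw [← h]
    generalize (25 * (Q : ℤ) * N) = u at *
    generalize 50 * Q * N = v at *
    omega
  · exact (he rfl).elim

/-- the top layer of `P` -/
structure TopX (A : ℕ) (P : MvPolynomial (Fin 4) K) : Prop where
  le : P ∈ Wle xd A
  ne : xpart A P ≠ 0

theorem exists_topX {P : MvPolynomial (Fin 4) K} (hP : P ≠ 0) : ∃ A, TopX A P := by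
  classical
  have hne : P.support.Nonempty := by
    rw [Finset.nonempty_iff_ne_empty]
    intro h
    exact hP (MvPolynomial.support_eq_empty.1 h)
  obtain ⟨e₀, he₀, hmax⟩ := P.support.exists_max_image xd hne
  refine ⟨xd e₀, ?_, ?_⟩
  · intro e he
    exact hmax e (MvPolynomial.mem_support_iff.2 he)
  · intro h
    have h1 := coeff_xpart (xd e₀) P e₀
    rw [h, coeff_zero, if_pos rfl] at h1
    exact (MvPolynomial.mem_support_iff.1 he₀) h1.symm

theorem TopX.subst {A : ℕ} {P : MvPolynomial (Fin 4) K} (h : TopX A P)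
    {g g' : Matrix (Fin 2) (Fin 2) ℂ} (hg : IsUnit g) (hg' : IsUnit g') :
    TopX A (subst g g' P) := by
  refine ⟨subst_mem_Wle_xd g g' h.le, ?_⟩
  rw [xpart_subst]
  intro h0
  apply h.ne
  apply substU_injective hg hg'
  rw [h0, map_zero]

theorem TopX.xd_degree {A : ℕ} {P : MvPolynomial (Fin 4) K} (h : TopX A P)
    {m : MonomialOrder (Fin 4)} {E : Finset (Fin 4 →₀ ℕ)} (hm : Refines m xd E)
    (hP : ∀ e, P.coeff e ≠ 0 → e ∈ E) : xd (m.degree P) = A := by
  have hP0 : P ≠ 0 := by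
    rintro rfl
    apply h.ne
    ext e
    rw [coeff_xpart]
    simp
  have h1 : P.coeff (m.degree P) ≠ 0 := MonomialOrder.coeff_degree_ne_zero_iff.2 hP0
  apply le_antisymm (h.le _ h1)
  obtain ⟨e, he⟩ := MvPolynomial.ne_zero_iff.1 h.ne
  rw [coeff_xpart] at he
  split_ifs at he with hA
  · rw [← hA]
    exact hm _ (hP _ h1) e (hP e he) (m.le_degree (MvPolynomial.mem_support_iff.2 he))
  · exact (he rfl).elim

/-- no corner monomial at a zero -/
theorem no_corner {A B : ℕ} {P : MvPolynomial (Fin 4) K} {ξ η : Fin 2 → ℂ}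
    (hz : evp ξ η (xpart A P) = 0) {g h : Matrix (Fin 2) (Fin 2) ℂ} (hg : g.mulVec ![0, 1] = ξ)
    (hh : h.mulVec ![0, 1] = η) (hb' : xpart A (subst g h P) ∈ bih A B (⊤ : Submodule ℂ K))
    {e : Fin 4 →₀ ℕ} (he : (subst g h P).coeff e ≠ 0) (hA : xd e = A) (h0 : e 0 = 0)
    (h2 : e 2 = 0) : False := by
  have h1 : (xpart A (subst g h P)).coeff e ≠ 0 := by
    rw [coeff_xpart, if_pos hA]
    exact he
  obtain ⟨g1, g2, _⟩ := hb' e h1
  have h3 := evp_coord hb' h0 (by omega) h2 (by omega)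
  rw [xpart_subst, evp_subst, hg, hh, hz] at h3
  rw [xpart_subst] at h1
  exact h1 h3.symm

theorem exists_e2 {A : ℕ} {P : MvPolynomial (Fin 4) K} {x η : Fin 2 → ℂ}
    (hz : evp x η (xpart A P) ≠ 0) {g h : Matrix (Fin 2) (Fin 2) ℂ} (hg : IsUnit g)
    (hh : h.mulVec ![0, 1] = η) :
    ∃ e, (subst g h P).coeff e ≠ 0 ∧ xd e = A ∧ e 2 = 0 := by
  have h1 : evp (g⁻¹.mulVec x) ![0, 1] (xpart A (subst g h P)) ≠ 0 := by
    rw [xpart_subst, evp_subst, hh, Matrix.mulVec_mulVec,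
      Matrix.mul_nonsing_inv _ ((Matrix.isUnit_iff_isUnit_det g).1 hg), Matrix.one_mulVec]
    exact hz
  obtain ⟨e, he, _, h2⟩ := exists_of_evp_ne h1
  rw [coeff_xpart] at he
  split_ifs at he with hA
  · exact ⟨e, he, hA, h2 rfl⟩
  · exact (he rfl).elim

theorem exists_e0 {A : ℕ} {P : MvPolynomial (Fin 4) K} {ξ y : Fin 2 → ℂ}
    (hz : evp ξ y (xpart A P) ≠ 0) {g h : Matrix (Fin 2) (Fin 2) ℂ} (hh : IsUnit h)
    (hg : g.mulVec ![0, 1] = ξ) :
    ∃ e, (subst g h P).coeff e ≠ 0 ∧ xd e = A ∧ e 0 = 0 := by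
  have h1 : evp ![0, 1] (h⁻¹.mulVec y) (xpart A (subst g h P)) ≠ 0 := by
    rw [xpart_subst, evp_subst, hg, Matrix.mulVec_mulVec,
      Matrix.mul_nonsing_inv _ ((Matrix.isUnit_iff_isUnit_det h).1 hh), Matrix.one_mulVec]
    exact hz
  obtain ⟨e, he, h2, _⟩ := exists_of_evp_ne h1
  rw [coeff_xpart] at he
  split_ifs at he with hA
  · exact ⟨e, he, hA, h2 rfl⟩
  · exact (he rfl).elim

/-- Data of a section realizing the maximal slope together with its restriction to a general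
fibre. -/
structure MaxData (χ : Filt T q D₀ r) (N₀ : ℕ) (l₀ : ℤ) (s : MvPolynomial (Fin 4) K)
    (c : T.X.Pt) (ρ : K →ₗ[ℂ] ℂ) : Prop where
  N4 : 4 ≤ N₀
  mem : s ∈ χ.F N₀ l₀
  ne : s ≠ 0
  slope : χ.SlopeLe N₀ l₀
  hS : c ∉ T.S
  hS' : c ∉ T.S'
  hD : D₀ c = 0
  ord : ∀ e, s.coeff e ∈ T.X.ovan c 0
  res : ∀ z ∈ T.X.ovan c 0, (ρ z = 0 ↔ z ∈ T.X.ovan c 1)
  sne : specm ρ s ≠ 0

theorem TestConf.exists_maxData (χ : TestConf T q D₀ r) (P₀ : T.X.Pt) (hQ : 0 < r * q)
    (hD : T.X.deg (r • D₀) = 105 * T.t * ((r * q : ℕ) : ℤ)) :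
    ∃ N₀ l₀ s c ρ, MaxData χ.toFilt N₀ l₀ s c ρ := by
  classical
  obtain ⟨N₀, l₀, hN, ⟨s, hs, hs0⟩, hslope⟩ := χ.exists_max hQ hD
  obtain ⟨c, h1, h2, h3, h4⟩ := T.exists_general_point P₀ D₀ (s.support.image s.coeff)
  obtain ⟨P₁, hP₁⟩ := T.exists_ne_point c
  obtain ⟨ρ, hρ⟩ := T.X.exists_residue hP₁
  have hord : ∀ e, s.coeff e ≠ 0 → T.X.ord c (s.coeff e) = 0 := by
    intro e he
    exact h4 _ (mem_image.2 ⟨e, MvPolynomial.mem_support_iff.2 he, rfl⟩) he
  have hov : ∀ e, s.coeff e ∈ T.X.ovan c 0 := by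
    intro e he
    rw [hord e he]
  refine ⟨N₀, l₀, s, c, ρ, hN, hs, hs0, hslope, h1, h2, h3, hov, hρ, ?_⟩
  obtain ⟨e, he⟩ := MvPolynomial.ne_zero_iff.1 hs0
  intro h0
  have h5 := coeff_specm ρ s e
  rw [h0, coeff_zero] at h5
  have h6 := (hρ _ (hov e)).1 h5.symm
  have h7 := (T.X.mem_ovan).1 h6 he
  rw [hord e he] at h7
  norm_num at h7

/-- the specialization has exponents in the usual range -/
theorem MaxData.supp {χ : Filt T q D₀ r} {N₀ : ℕ} {l₀ : ℤ} {s : MvPolynomial (Fin 4) K}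
    {c : T.X.Pt} {ρ : K →ₗ[ℂ] ℂ} (h : MaxData χ N₀ l₀ s c ρ) (g g' : Matrix (Fin 2) (Fin 2) ℂ) :
    ∀ e, (subst g g' (specm ρ s)).coeff e ≠ 0 → e ∈ Eset (r * q) N₀ := by
  intro e he
  rw [← specm_subst, coeff_specm] at he
  have h1 : (subst g g' s).coeff e ≠ 0 := by
    intro h0
    rw [h0, map_zero] at he
    exact he rfl
  have h2 : subst g g' s ∈ T.sec (r * q) (r • D₀) N₀ := by
    rw [T.sec_mul]
    exact subst_mem_sec g g' (χ.le _ _ h.mem)
  exact T.mem_Eset_of_coeff h2 h1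

/-- The leading exponent of the specialization maximizes the affine weight. -/
theorem MaxData.argmax {χ : Filt T q D₀ r} {N₀ : ℕ} {l₀ : ℤ} {s : MvPolynomial (Fin 4) K}
    {c : T.X.Pt} {ρ : K →ₗ[ℂ] ℂ} (h : MaxData χ N₀ l₀ s c ρ) (hQ : 0 < r * q)
    (hDeg : T.X.deg (r • D₀) = 105 * T.t * ((r * q : ℕ) : ℤ))
    {g g' : Matrix (Fin 2) (Fin 2) ℂ} (hg : IsUnit g) (hg' : IsUnit g')
    {m : MonomialOrder (Fin 4)} {al be ga de : ℤ}
    (hR : (χ.tw (substE K g g' hg hg') (pres_substE hg hg')).Rigid m al be ga de)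
    {j : ℤ} {a b : ℕ} (hin : InR (r * q) N₀ j a b)
    (he : m.degree (subst g g' (specm ρ s)) = expo (r * q) N₀ j a b) :
    l₀ = lw al be ga de N₀ j a b ∧ ∀ j' a' b', InR (r * q) N₀ j' a' b' →
      lw al be ga de N₀ j' a' b' ≤ l₀ := by
  have hN0 : (0 : ℤ) < N₀ := by
    have := h.N4
    have : 0 < N₀ := by omega
    exact_mod_cast this
  have hup : ∀ j' a' b', InR (r * q) N₀ j' a' b' → lw al be ga de N₀ j' a' b' ≤ l₀ := by
    intro j' a' b' h'
    exact le_of_mul_le_mul_right (hR.lw_le c hQ hDeg (h.slope.tw _ _) h') hN0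
  refine ⟨le_antisymm ?_ (hup _ _ _ hin), hup⟩
  set P' := subst g g' (specm ρ s) with hP'
  have hP'0 : P' ≠ 0 := by
    intro h0
    apply h.sne
    apply substU_injective hg hg'
    rw [← hP', h0, map_zero]
  have hcoeff : ∀ e, P'.coeff e = ρ ((subst g g' s).coeff e) := by
    intro e
    rw [hP', ← specm_subst, coeff_specm]
  have hov : ∀ e, (subst g g' s).coeff e ∈ T.X.ovan c 0 := fun e => coeff_subst_mem g g' h.ord e
  have hs' : subst g g' s ∈ (χ.tw (substE K g g' hg hg') (pres_substE hg hg')).F N₀ l₀ :=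
    ⟨s, h.mem, rfl⟩
  have hrD : (r • D₀) c = 0 := by
    rw [Finsupp.smul_apply, h.hD, smul_zero]
  have hlc : P'.coeff (m.degree P') ≠ 0 := MonomialOrder.coeff_degree_ne_zero_iff.2 hP'0
  rw [hcoeff] at hlc
  have hlc0 : (subst g g' s).coeff (m.degree P') ≠ 0 := by
    intro h0
    rw [h0, map_zero] at hlc
    exact hlc rfl
  have hlead : T.X.SpecLead m c (N₀ * (r • D₀) c) (subst g g' s) (expo (r * q) N₀ j a b) := by
    rw [hrD, mul_zero, ← he]
    refine ⟨hlc0, ?_, ?_⟩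
    · have h1 : 0 ≤ T.X.ord c ((subst g g' s).coeff (m.degree P')) := (T.X.mem_ovan).1 (hov _) hlc0
      have h2 : ¬ (subst g g' s).coeff (m.degree P') ∈ T.X.ovan c 1 := by
        intro h3
        exact hlc ((h.res _ (hov _)).2 h3)
      have h3 : ¬ 1 ≤ T.X.ord c ((subst g g' s).coeff (m.degree P')) := by
        intro h4
        exact h2 (fun _ => h4)
      omega
    · intro e' hlt
      have h1 : P'.coeff e' = 0 := m.coeff_eq_zero_of_lt hlt
      rw [hcoeff] at h1
      have h2 := (h.res _ (hov e')).1 h1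
      intro h3
      have := h2 h3
      rw [neg_zero, zero_add]
      exact this
  exact hR.spec c hQ hDeg h.hS h.hS' hs' hin hlead

end Pool.Agent.YTD
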