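import Pool.Agent.YTD.Phi

/-!
Bigraded spaces of polynomials and their dimensions.
-/

namespace Pool.Agent.YTD

open Finset Module MvPolynomial

variable {K : Type} [Field K] [Algebra ℂ K]

/-- Polynomials whose monomials have degree `25qN+3j` in `x`, degree `25qN-3j` in `y` for some `j`
with `|j| ≤ 5qN` and coefficient in `U j`. -/
noncomputable def bigr (q N : ℕ) (U : ℤ → Submodule ℂ K) : Submodule ℂ (MvPolynomial (Fin 4) K)
    where
  carrier := {f | ∀ e, f.coeff e ≠ 0 → ∃ j : ℤ, |j| ≤ 5 * q * N ∧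
    (e 0 : ℤ) + e 1 = 25 * q * N + 3 * j ∧ (e 2 : ℤ) + e 3 = 25 * q * N - 3 * j ∧
    f.coeff e ∈ U j}
  zero_mem' := by
    intro e h
    simp at h
  add_mem' := by
    intro f g hf hg e h
    by_cases h1 : f.coeff e = 0
    · rw [coeff_add, h1, zero_add] at h ⊢
      exact hg e h
    by_cases h2 : g.coeff e = 0
    · rw [coeff_add, h2, add_zero] at h ⊢
      exact hf e h
    obtain ⟨j, h3, h4, h5, h6⟩ := hf e h1
    obtain ⟨j', _, h4', _, h6'⟩ := hg e h2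
    have hj : j' = j := by linarith
    subst hj
    exact ⟨j', h3, h4, h5, by rw [coeff_add]; exact add_mem h6 h6'⟩
  smul_mem' := by
    intro c f hf e h
    have h1 : f.coeff e ≠ 0 := by
      intro h1
      apply h
      rw [coeff_smul, h1, smul_zero]
    obtain ⟨j, h3, h4, h5, h6⟩ := hf e h1
    exact ⟨j, h3, h4, h5, by rw [coeff_smul]; exact Submodule.smul_mem _ _ h6⟩

theorem mem_bigr {q N : ℕ} {U : ℤ → Submodule ℂ K} {f : MvPolynomial (Fin 4) K} :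
    f ∈ bigr q N U ↔ ∀ e, f.coeff e ≠ 0 → ∃ j : ℤ, |j| ≤ 5 * q * N ∧
    (e 0 : ℤ) + e 1 = 25 * q * N + 3 * j ∧ (e 2 : ℤ) + e 3 = 25 * q * N - 3 * j ∧
    f.coeff e ∈ U j := Iff.rfl

theorem sec_eq_bigr (T : Datum K) (q : ℕ) (D₀ : T.X.Pt →₀ ℤ) (N : ℕ) :
    T.sec q D₀ N = bigr q N (T.V q D₀ N) := rfl

/-- the set of indices `(j, a, b)`. -/
noncomputable def idx (q N : ℕ) : Finset ((_ : ℤ) × (ℕ × ℕ)) :=
  (Icc (-((5 * q * N : ℕ) : ℤ)) ((5 * q * N : ℕ) : ℤ)).sigma fun j =>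
    range (AA q N j + 1) ×ˢ range (BB q N j + 1)

/-- the exponent of index `(j, a, b)`. -/
noncomputable def uexpo (q N : ℕ) (i : (_ : ℤ) × (ℕ × ℕ)) : Fin 4 →₀ ℕ :=
  Finsupp.equivFunOnFinite.symm ![i.2.1, AA q N i.1 - i.2.1, i.2.2, BB q N i.1 - i.2.2]

theorem uexpo_zero (q N : ℕ) (i : (_ : ℤ) × (ℕ × ℕ)) : uexpo q N i 0 = i.2.1 := rfl
theorem uexpo_one (q N : ℕ) (i : (_ : ℤ) × (ℕ × ℕ)) : uexpo q N i 1 = AA q N i.1 - i.2.1 := rfl
theorem uexpo_two (q N : ℕ) (i : (_ : ℤ) × (ℕ × ℕ)) : uexpo q N i 2 = i.2.2 := rfl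
theorem uexpo_three (q N : ℕ) (i : (_ : ℤ) × (ℕ × ℕ)) : uexpo q N i 3 = BB q N i.1 - i.2.2 := rfl

theorem mem_idx {q N : ℕ} {i : (_ : ℤ) × (ℕ × ℕ)} :
    i ∈ idx q N ↔ |i.1| ≤ 5 * q * N ∧ i.2.1 ≤ AA q N i.1 ∧ i.2.2 ≤ BB q N i.1 := by
  unfold idx
  rw [mem_sigma, mem_Icc, mem_product, mem_range, mem_range, abs_le]
  push_cast
  constructor
  · rintro ⟨⟨h1, h2⟩, h3, h4⟩
    exact ⟨⟨h1, h2⟩, by omega, by omega⟩
  · rintro ⟨⟨h1, h2⟩, h3, h4⟩
    exact ⟨⟨h1, h2⟩, by omega, by omega⟩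

theorem expo_x {q N : ℕ} {i : (_ : ℤ) × (ℕ × ℕ)} (h : i ∈ idx q N) :
    (uexpo q N i 0 : ℤ) + uexpo q N i 1 = 25 * q * N + 3 * i.1 := by
  obtain ⟨h1, h2, h3⟩ := mem_idx.1 h
  rw [uexpo_zero, uexpo_one, ← AA_cast h1]
  push_cast [Nat.cast_sub h2]
  ring

theorem expo_y {q N : ℕ} {i : (_ : ℤ) × (ℕ × ℕ)} (h : i ∈ idx q N) :
    (uexpo q N i 2 : ℤ) + uexpo q N i 3 = 25 * q * N - 3 * i.1 := by
  obtain ⟨h1, h2, h3⟩ := mem_idx.1 h
  rw [uexpo_two, uexpo_three, ← BB_cast h1]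
  push_cast [Nat.cast_sub h3]
  ring

theorem expo_inj {q N : ℕ} {i i' : (_ : ℤ) × (ℕ × ℕ)} (h : i ∈ idx q N) (h' : i' ∈ idx q N)
    (he : uexpo q N i = uexpo q N i') : i = i' := by
  have h1 := expo_x h
  have h2 := expo_x h'
  rw [he] at h1
  have hj : i.1 = i'.1 := by linarith
  have ha : i.2.1 = i'.2.1 := by rw [← uexpo_zero q N i, ← uexpo_zero q N i', he]
  have hb : i.2.2 = i'.2.2 := by rw [← uexpo_two q N i, ← uexpo_two q N i', he]
  obtain ⟨j, a, b⟩ := i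
  obtain ⟨j', a', b'⟩ := i'
  simp only at hj ha hb
  subst hj ha hb
  rfl

theorem exists_uexpo {q N : ℕ} {e : Fin 4 →₀ ℕ} {j : ℤ} (hj : |j| ≤ 5 * q * N)
    (h1 : (e 0 : ℤ) + e 1 = 25 * q * N + 3 * j) (h2 : (e 2 : ℤ) + e 3 = 25 * q * N - 3 * j) :
    (⟨j, (e 0, e 2)⟩ : (_ : ℤ) × (ℕ × ℕ)) ∈ idx q N ∧ uexpo q N ⟨j, (e 0, e 2)⟩ = e := by
  have hA := AA_cast hj
  have hB := BB_cast hj
  rw [← hA] at h1
  rw [← hB] at h2
  constructor
  · rw [mem_idx]
    refine ⟨hj, ?_, ?_⟩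
    · show e 0 ≤ AA q N j
      omega
    · show e 2 ≤ BB q N j
      omega
  · ext k
    fin_cases k
    · rfl
    · show AA q N j - e 0 = e 1
      omega
    · rfl
    · show BB q N j - e 2 = e 3
      omega

/-- coefficients as an isomorphism. -/
noncomputable def bigrEquiv (q N : ℕ) (U : ℤ → Submodule ℂ K) :
    bigr q N U ≃ₗ[ℂ] ((i : {i // i ∈ idx q N}) → U i.1.1) where
  toFun f i := ⟨(f : MvPolynomial (Fin 4) K).coeff (uexpo q N i.1), by
    by_cases h : (f : MvPolynomial (Fin 4) K).coeff (uexpo q N i.1) = 0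
    · rw [h]
      exact zero_mem _
    · obtain ⟨j, h1, h2, h3, h4⟩ := f.2 _ h
      have h5 := expo_x i.2
      have hj : j = i.1.1 := by linarith
      rw [← hj]
      exact h4⟩
  map_add' f g := by
    funext i
    apply Subtype.ext
    simp
  map_smul' c f := by
    funext i
    apply Subtype.ext
    simp
  invFun g := ⟨∑ i : {i // i ∈ idx q N}, monomial (uexpo q N i.1) ((g i : U i.1.1) : K), by
    refine sum_mem fun i _ => ?_
    intro e he
    rw [coeff_monomial] at he ⊢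
    by_cases h : uexpo q N i.1 = e
    · rw [if_pos h]
      subst h
      exact ⟨i.1.1, (mem_idx.1 i.2).1, expo_x i.2, expo_y i.2, (g i).2⟩
    · rw [if_neg h] at he
      exact (he rfl).elim⟩
  left_inv f := by
    apply Subtype.ext
    ext e
    show (∑ i : {i // i ∈ idx q N}, monomial (uexpo q N i.1)
      ((f : MvPolynomial (Fin 4) K).coeff (uexpo q N i.1))).coeff e = _
    rw [coeff_sum]
    simp only [coeff_monomial]
    by_cases h : (f : MvPolynomial (Fin 4) K).coeff e = 0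
    · rw [h]
      apply Finset.sum_eq_zero
      intro i _
      split_ifs with h1
      · rw [h1, h]
      · rfl
    · obtain ⟨j, h1, h2, h3, h4⟩ := f.2 e h
      obtain ⟨h5, h6⟩ := exists_uexpo h1 h2 h3
      rw [Finset.sum_eq_single (⟨⟨j, (e 0, e 2)⟩, h5⟩ : {i // i ∈ idx q N})]
      · rw [if_pos h6, h6]
      · intro i _ hi
        rw [if_neg]
        intro h7
        apply hi
        apply Subtype.ext
        apply expo_inj i.2 h5
        rw [h6, h7]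
      · intro h7
        exact (h7 (mem_univ _)).elim
  right_inv g := by
    funext i
    apply Subtype.ext
    show (∑ i' : {i // i ∈ idx q N}, monomial (uexpo q N i'.1)
      ((g i' : U i'.1.1) : K)).coeff (uexpo q N i.1) = g i
    rw [coeff_sum]
    simp only [coeff_monomial]
    rw [Finset.sum_eq_single i]
    · rw [if_pos rfl]
    · intro i' _ hi'
      rw [if_neg]
      intro h7
      apply hi'
      apply Subtype.ext
      exact expo_inj i'.2 i.2 h7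
    · intro h7
      exact (h7 (mem_univ _)).elim

theorem finite_bigr (q N : ℕ) (U : ℤ → Submodule ℂ K) (hU : ∀ j, FiniteDimensional ℂ (U j)) :
    FiniteDimensional ℂ (bigr q N U) := by
  have : ∀ i : {i // i ∈ idx q N}, FiniteDimensional ℂ (U i.1.1) := fun i => hU _
  exact Module.Finite.equiv (bigrEquiv q N U).symm

theorem finrank_bigr (q N : ℕ) (U : ℤ → Submodule ℂ K) (hU : ∀ j, FiniteDimensional ℂ (U j)) :
    (finrank ℂ (bigr q N U) : ℝ) =
      ∑ j ∈ Icc (-((5 * q * N : ℕ) : ℤ)) ((5 * q * N : ℕ) : ℤ),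
        (25 * (q : ℝ) * N + 3 * j + 1) * (25 * (q : ℝ) * N - 3 * j + 1) * finrank ℂ (U j) := by
  have : ∀ i : {i // i ∈ idx q N}, FiniteDimensional ℂ (U i.1.1) := fun i => hU _
  rw [LinearEquiv.finrank_eq (bigrEquiv q N U), Module.finrank_pi_fintype]
  rw [show (∑ i : {i // i ∈ idx q N}, finrank ℂ (U i.1.1)) =
    ∑ i ∈ idx q N, finrank ℂ (U i.1) from by
      rw [← Finset.sum_coe_sort (idx q N) (fun i => finrank ℂ (U i.1))]]
  unfold idx
  rw [Finset.sum_sigma]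
  push_cast
  apply Finset.sum_congr rfl
  intro j hj
  rw [mem_Icc] at hj
  have hj' : |j| ≤ 5 * q * N := by
    rw [abs_le]
    exact_mod_cast hj
  show (∑ _x ∈ range (AA q N j + 1) ×ˢ range (BB q N j + 1), ((finrank ℂ (U j) : ℕ) : ℝ)) = _
  rw [Finset.sum_const, nsmul_eq_mul, Finset.card_product, card_range, card_range]
  have h1 : ((AA q N j : ℕ) : ℝ) = 25 * q * N + 3 * j := by exact_mod_cast AA_cast hj'
  have h2 : ((BB q N j : ℕ) : ℝ) = 25 * q * N - 3 * j := by exact_mod_cast BB_cast hj'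
  push_cast
  rw [h1, h2]

end Pool.Agent.YTD
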