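import Pool.Agent.YTD.Limit2

namespace Pool.Agent.YTD

open Finset Module Filter

/-- the functional `Λ`. -/
noncomputable def Lam (q N : ℕ) (ν : ℤ → ℝ) : ℝ :=
  ∑ j ∈ Icc (-((5 * q * N : ℕ) : ℤ)) ((5 * q * N : ℕ) : ℤ),
    (81 * (j : ℝ) ^ 2 - 375 * ((q : ℝ) * N) ^ 2 -
      5000 * ((q : ℝ) * N) * max 0 (|(j : ℝ)| - 4 * (q * N))) * ν j +
  1000 * ((q : ℝ) * N) ^ 3 * (ν ((5 * q * N : ℕ) : ℤ) + ν (-((5 * q * N : ℕ) : ℤ)))

/-- multiplicities -/
noncomputable def mult (q N : ℕ) (j : ℤ) : ℝ :=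
  (25 * (q : ℝ) * N + 3 * j + 1) * (25 * (q : ℝ) * N - 3 * j + 1)

theorem mem_Icc_iff {q N : ℕ} {j : ℤ} :
    j ∈ Icc (-((5 * q * N : ℕ) : ℤ)) ((5 * q * N : ℕ) : ℤ) ↔ |j| ≤ 5 * q * N := by
  rw [mem_Icc, abs_le]
  push_cast
  rfl

theorem mult_pos {q N : ℕ} {j : ℤ} (h : |j| ≤ 5 * q * N) : 0 < mult q N j := by
  have h1 : |(j : ℝ)| ≤ 5 * q * N := by exact_mod_cast h
  have h2 := abs_le.1 h1
  have h3 : (0 : ℝ) ≤ q * N := by positivity
  unfold mult
  apply mul_pos <;> nlinarith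

variable {K : Type} [Field K] [Algebra ℂ K]
variable {T : Datum K} {q : ℕ} {D₀ : T.X.Pt →₀ ℤ}

namespace Graded

variable (G : Graded T q D₀)

/-- length of the part with large mobile degree. -/
noncomputable def nn' (N : ℕ) (j : ℤ) (a b : ℕ) : ℕ :=
  open Classical in
  Nat.findGreatest (fun l => G.W N l j a b ≠ ⊥ ∧
    2 * (T.X.genus : ℤ) - 1 ≤ T.X.mdeg (G.W N l j a b)) (G.Λ * N)

/-- sum of the mobile degrees. -/
noncomputable def Uf (N : ℕ) (j : ℤ) (a b : ℕ) : ℤ :=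
  ∑ l ∈ range (G.nn N j a b), T.X.mdeg (G.W N (l + 1) j a b)

noncomputable def nb (N : ℕ) (j : ℤ) : ℝ := av q N j fun a b => (G.nn N j a b : ℝ)
noncomputable def nb' (N : ℕ) (j : ℤ) : ℝ := av q N j fun a b => (G.nn' N j a b : ℝ)
noncomputable def ub (N : ℕ) (j : ℤ) : ℝ := av q N j fun a b => (G.Uf N j a b : ℝ)
noncomputable def yb (N : ℕ) (j : ℤ) : ℝ := (dg T.t q N j : ℝ) * G.nb N j - G.ub N j

/-- total defect. -/
noncomputable def Z (N : ℕ) : ℝ :=
  ∑ j ∈ Icc (-((5 * q * N : ℕ) : ℤ)) ((5 * q * N : ℕ) : ℤ), mult q N j * (G.nb N j - G.nb' N j)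

variable {G}
variable (hD : T.X.deg D₀ = 105 * T.t * q)

theorem nb_nonneg {N : ℕ} {j : ℤ} (h : |j| ≤ 5 * q * N) : 0 ≤ G.nb N j :=
  av_nonneg h fun _ _ _ => by positivity

theorem nb_le {N : ℕ} {j : ℤ} (h : |j| ≤ 5 * q * N) : G.nb N j ≤ G.Λ * N := by
  rw [← av_const q N j (G.Λ * N)]
  apply av_mono h
  intro a b _
  exact_mod_cast G.nn_le N j a b

theorem nn'_le_nn (N : ℕ) (j : ℤ) (a b : ℕ) : G.nn' N j a b ≤ G.nn N j a b := by
  classical
  unfold nn' nn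
  have : Nat.findGreatest (fun l => G.W N l j a b ≠ ⊥ ∧
    2 * (T.X.genus : ℤ) - 1 ≤ T.X.mdeg (G.W N l j a b)) (G.Λ * N) ≤
    Nat.findGreatest (fun l => G.W N l j a b ≠ ⊥) (G.Λ * N) :=
    Nat.findGreatest_mono_left (fun l h => h.1) _
  convert this

theorem nb'_le_nb {N : ℕ} {j : ℤ} (h : |j| ≤ 5 * q * N) : G.nb' N j ≤ G.nb N j := by
  apply av_mono h
  intro a b _
  exact_mod_cast nn'_le_nn N j a b

theorem nb'_nonneg {N : ℕ} {j : ℤ} (h : |j| ≤ 5 * q * N) : 0 ≤ G.nb' N j :=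
  av_nonneg h fun _ _ _ => by positivity

include hD in
theorem mdeg_le_dg (hq : 0 < q) {N : ℕ} (hN : 4 ≤ N) {j : ℤ} {a b : ℕ} (h : InR q N j a b)
    {l : ℕ} (hl : l ≤ G.nn N j a b) : T.X.mdeg (G.W N l j a b) ≤ dg T.t q N j := by
  have := CurveOrd.mdeg_le (G.W_le N l j a b h) (G.W_ne_bot hD hq hN h hl)
  rwa [deg_dvs_crit T q D₀ hD] at this

include hD in
theorem Uf_nonneg (hq : 0 < q) {N : ℕ} (hN : 4 ≤ N) {j : ℤ} {a b : ℕ} (h : InR q N j a b) :
    0 ≤ G.Uf N j a b := by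
  unfold Uf
  apply sum_nonneg
  intro l hl
  exact CurveOrd.mdeg_nonneg (G.W_le N _ j a b h) (G.W_ne_bot hD hq hN h
    (by have := mem_range.1 hl; omega))

include hD in
theorem Uf_le (hq : 0 < q) {N : ℕ} (hN : 4 ≤ N) {j : ℤ} {a b : ℕ} (h : InR q N j a b) :
    G.Uf N j a b ≤ G.nn N j a b * dg T.t q N j := by
  unfold Uf
  have : ∑ l ∈ range (G.nn N j a b), T.X.mdeg (G.W N (l + 1) j a b) ≤
      ∑ _l ∈ range (G.nn N j a b), dg T.t q N j := by
    apply sum_le_sum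
    intro l hl
    exact mdeg_le_dg hD hq hN h (by have := mem_range.1 hl; omega)
  rwa [sum_const, card_range, nsmul_eq_mul] at this

include hD in
theorem yb_nonneg (hq : 0 < q) {N : ℕ} (hN : 4 ≤ N) {j : ℤ} (h : |j| ≤ 5 * q * N) :
    0 ≤ G.yb N j := by
  unfold yb nb ub
  have h1 : av q N j (fun a b => (G.Uf N j a b : ℝ)) ≤
      av q N j (fun a b => (dg T.t q N j : ℝ) * (G.nn N j a b : ℝ)) := by
    apply av_mono h
    intro a b hab
    have := Uf_le (G := G) hD hq hN hab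
    have h2 : (G.Uf N j a b : ℝ) ≤ G.nn N j a b * dg T.t q N j := by exact_mod_cast this
    linarith
  have h2 : av q N j (fun a b => (dg T.t q N j : ℝ) * (G.nn N j a b : ℝ)) =
      (dg T.t q N j : ℝ) * av q N j (fun a b => (G.nn N j a b : ℝ)) := avg2_mul _ _ _ _
  linarith

include hD in
theorem ub_nonneg (hq : 0 < q) {N : ℕ} (hN : 4 ≤ N) {j : ℤ} (h : |j| ≤ 5 * q * N) :
    0 ≤ G.ub N j :=
  av_nonneg h fun _ _ hab => by exact_mod_cast Uf_nonneg hD hq hN hab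

include hD in
/-- the dimension bound for one weight. -/
theorem sum_finrank_le (P₀ : T.X.Pt) (hq : 0 < q) {N : ℕ} (hN : 4 ≤ N) {j : ℤ} {a b : ℕ}
    (h : InR q N j a b) :
    ∑ l ∈ range (G.Λ * N), (finrank ℂ (G.W N (l + 1) j a b) : ℝ) ≤
      G.Uf N j a b - 9 * T.t * G.nn N j a b +
        (18 * T.t + 1) * ((G.nn N j a b : ℝ) - G.nn' N j a b) := by
  classical
  have hsub : range (G.nn N j a b) ⊆ range (G.Λ * N) := range_subset_range.2 (G.nn_le N j a b)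
  rw [← sum_subset hsub (by
    intro l _ hl
    rw [mem_range, not_lt] at hl
    rw [G.W_eq_bot (show G.nn N j a b < l + 1 by omega), finrank_bot]
    simp)]
  have hg : (T.X.genus : ℤ) = 9 * T.t + 1 := by rw [T.genus_eq]; push_cast; ring
  -- termwise bound
  have key : ∀ l ∈ range (G.nn N j a b), (finrank ℂ (G.W N (l + 1) j a b) : ℝ) ≤
      (T.X.mdeg (G.W N (l + 1) j a b) : ℝ) - 9 * T.t +
        (18 * T.t + 1) * (if l < G.nn' N j a b then 0 else 1) := by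
    intro l hl
    have hl' := mem_range.1 hl
    have hne := G.W_ne_bot hD hq hN h (show l + 1 ≤ G.nn N j a b by omega)
    have hW := G.W_le N (l + 1) j a b h
    by_cases hm : 2 * (T.X.genus : ℤ) - 2 < T.X.mdeg (G.W N (l + 1) j a b)
    · have h1 := T.X.finrank_le_mdeg P₀ hW hne hm
      rw [hg] at h1
      have h2 : (finrank ℂ (G.W N (l + 1) j a b) : ℝ) ≤
          (T.X.mdeg (G.W N (l + 1) j a b) : ℝ) + 1 - (9 * T.t + 1) := by exact_mod_cast h1
      have h3 : (0 : ℝ) ≤ (18 * T.t + 1) * (if l < G.nn' N j a b then 0 else 1) := by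
        split_ifs <;> positivity
      linarith
    · have h1 := T.X.finrank_le_genus P₀ hW hne (not_lt.1 hm)
      have h0 := CurveOrd.mdeg_nonneg hW hne
      have h4 : ¬ l < G.nn' N j a b := by
        intro hlt
        have hs : G.W N (G.nn' N j a b) j a b ≠ ⊥ ∧
            2 * (T.X.genus : ℤ) - 1 ≤ T.X.mdeg (G.W N (G.nn' N j a b) j a b) := by
          have h5 : G.nn' N j a b ≠ 0 := by omega
          have := Nat.findGreatest_of_ne_zero (P := fun l => G.W N l j a b ≠ ⊥ ∧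
            2 * (T.X.genus : ℤ) - 1 ≤ T.X.mdeg (G.W N l j a b)) (n := G.Λ * N)
            (m := G.nn' N j a b) (by unfold nn'; convert rfl) h5
          exact this
        have h6 := CurveOrd.mdeg_mono (G.W_le N (l + 1) j a b h)
          (G.W_anti N (l + 1) (G.nn' N j a b) j a b hlt) hs.1
        linarith [hs.2]
      rw [if_neg h4, mul_one]
      rw [hg] at h1
      have h2 : (finrank ℂ (G.W N (l + 1) j a b) : ℝ) ≤ 9 * T.t + 1 := by exact_mod_cast h1
      have h3 : (0 : ℝ) ≤ (T.X.mdeg (G.W N (l + 1) j a b) : ℝ) := by exact_mod_cast h0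
      linarith
  refine (sum_le_sum key).trans (le_of_eq ?_)
  rw [sum_add_distrib, sum_sub_distrib, ← mul_sum (range (G.nn N j a b))
    (fun l => if l < G.nn' N j a b then (0 : ℝ) else 1) (18 * (T.t : ℝ) + 1)]
  have e1 : ∑ l ∈ range (G.nn N j a b), (if l < G.nn' N j a b then (0 : ℝ) else 1) =
      (G.nn N j a b : ℝ) - G.nn' N j a b := by
    have hle := nn'_le_nn (G := G) N j a b
    obtain ⟨k, hk⟩ := Nat.exists_eq_add_of_le hle
    rw [hk, sum_range_add]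
    rw [sum_congr rfl (fun l hl => if_pos (mem_range.1 hl))]
    rw [sum_congr rfl (fun l _ => if_neg (show ¬ G.nn' N j a b + l < G.nn' N j a b by omega))]
    simp
  rw [e1, sum_const, card_range, nsmul_eq_mul]
  unfold Uf
  push_cast
  ring

include hD in
theorem tot_le (P₀ : T.X.Pt) (hq : 0 < q) {N : ℕ} (hN : 4 ≤ N) :
    G.tot N ≤ ∑ j ∈ Icc (-((5 * q * N : ℕ) : ℤ)) ((5 * q * N : ℕ) : ℤ), mult q N j *
      (G.ub N j - 9 * T.t * G.nb N j) + (18 * T.t + 1) * G.Z N := by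
  unfold tot Z
  rw [mul_sum, ← sum_add_distrib]
  apply sum_le_sum
  intro j hj
  have hj' := mem_Icc_iff.1 hj
  have h1 : ∑ a ∈ range (AA q N j + 1), ∑ b ∈ range (BB q N j + 1),
      ∑ l ∈ range (G.Λ * N), (finrank ℂ (G.W N (l + 1) j a b) : ℝ) ≤
      ∑ a ∈ range (AA q N j + 1), ∑ b ∈ range (BB q N j + 1),
      ((G.Uf N j a b : ℝ) - 9 * T.t * G.nn N j a b +
        (18 * T.t + 1) * ((G.nn N j a b : ℝ) - G.nn' N j a b)) := by
    apply sum_le_sum
    intro a ha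
    apply sum_le_sum
    intro b hb
    exact sum_finrank_le hD P₀ hq hN ((inR_iff hj').2
      ⟨Nat.lt_succ_iff.1 (mem_range.1 ha), Nat.lt_succ_iff.1 (mem_range.1 hb)⟩)
  refine h1.trans (le_of_eq ?_)
  rw [← av_mult hj' (fun a b => (G.Uf N j a b : ℝ) - 9 * T.t * G.nn N j a b +
        (18 * T.t + 1) * ((G.nn N j a b : ℝ) - G.nn' N j a b))]
  have e : av q N j (fun a b => (G.Uf N j a b : ℝ) - 9 * T.t * G.nn N j a b +
        (18 * T.t + 1) * ((G.nn N j a b : ℝ) - G.nn' N j a b)) =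
      (G.ub N j - 9 * T.t * G.nb N j) + (18 * T.t + 1) * (G.nb N j - G.nb' N j) := by
    have e1 : (fun a b => (G.Uf N j a b : ℝ) - 9 * T.t * G.nn N j a b +
        (18 * T.t + 1) * ((G.nn N j a b : ℝ) - G.nn' N j a b)) =
        (fun a b => ((G.Uf N j a b : ℝ) + (9 * T.t + 1) * (G.nn N j a b : ℝ)) +
          (-(18 * T.t + 1)) * (G.nn' N j a b : ℝ)) := by
      funext a b
      ring
    rw [e1]
    unfold ub nb nb' av
    rw [avg2_add, avg2_add, avg2_mul, avg2_mul]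
    ring
  rw [e]
  unfold mult
  ring

end Graded

end Pool.Agent.YTD
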