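import Pool.Agent.YTD.KSemi
import Pool.Agent.YTD.Kink
import Pool.Agent.YTD.Equi
import Pool.Agent.YTD.LinPred
import Pool.Agent.YTD.Hull

/-!
Veronese subfiltrations.
-/

namespace Pool.Agent.YTD

open Finset Module MvPolynomial Filter

variable {K : Type} [Field K] [Algebra ℂ K]
variable {T : Datum K} {q : ℕ} {D₀ : T.X.Pt →₀ ℤ} {r : ℕ}

namespace Filt

/-- the Veronese subfiltration. -/
noncomputable def ver (χ : Filt T q D₀ r) (m : ℕ) : Filt T q D₀ (r * m) where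
  F := fun N l => χ.F (m * N) l
  le := by
    intro N l
    rw [mul_assoc]
    exact χ.le (m * N) l
  anti := fun N l l' h => χ.anti (m * N) l l' h
  mul := by
    intro N N' l l' f hf g hg
    rw [mul_add]
    exact χ.mul _ _ _ _ f hf g hg
  bound := by
    obtain ⟨Λ, hΛ⟩ := χ.bound
    refine ⟨Λ * m, fun N => ?_⟩
    have := hΛ (m * N)
    push_cast at this ⊢
    rw [mul_assoc (Λ : ℤ), mul_assoc r]
    exact this

theorem ver_F (χ : Filt T q D₀ r) (m N : ℕ) (l : ℤ) : (χ.ver m).F N l = χ.F (m * N) l := rfl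

theorem ver_dimN (χ : Filt T q D₀ r) (m N : ℕ) : (χ.ver m).dimN N = χ.dimN (m * N) := by
  unfold dimN
  rw [mul_assoc]

theorem ver_tr (χ : Filt T q D₀ r) (m p N : ℕ) : (χ.ver m).tr p N = χ.tr p (m * N) := rfl

theorem ver_expansion (χ : Filt T q D₀ r) {m : ℕ} (hm : 0 < m) {a₀ a₁ b₀ b₁ c₀ : ℝ}
    (h : χ.Expansion a₀ a₁ b₀ b₁ c₀) : (χ.ver m).Expansion (a₀ * m ^ 4) (a₁ * m ^ 3)
      (b₀ * m ^ 5) (b₁ * m ^ 4) (c₀ * m ^ 6) := by
  have ht : Tendsto (fun N : ℕ => m * N) atTop atTop :=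
    tendsto_atTop_mono (fun N => Nat.le_mul_of_pos_left N hm) tendsto_id
  obtain ⟨⟨C₁, h₁⟩, ⟨C₂, h₂⟩, ⟨C₃, h₃⟩⟩ := h
  refine ⟨⟨C₁ * m ^ 2, ?_⟩, ⟨C₂ * m ^ 3, ?_⟩, ⟨C₃ * m ^ 5, ?_⟩⟩
  · filter_upwards [ht.eventually h₁] with N hN
    rw [ver_dimN]
    push_cast at hN
    have e1 : a₀ * (m : ℝ) ^ 4 * N ^ 4 + a₁ * m ^ 3 * N ^ 3 =
      a₀ * (m * N) ^ 4 + a₁ * (m * N) ^ 3 := by ring
    have e2 : C₁ * (m : ℝ) ^ 2 * N ^ 2 = C₁ * (m * N) ^ 2 := by ring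
    rw [e1, e2]
    exact hN
  · filter_upwards [ht.eventually h₂] with N hN
    rw [ver_tr]
    push_cast at hN
    have e1 : b₀ * (m : ℝ) ^ 5 * N ^ 5 + b₁ * m ^ 4 * N ^ 4 =
      b₀ * (m * N) ^ 5 + b₁ * (m * N) ^ 4 := by ring
    have e2 : C₂ * (m : ℝ) ^ 3 * N ^ 3 = C₂ * (m * N) ^ 3 := by ring
    rw [e1, e2]
    exact hN
  · filter_upwards [ht.eventually h₃] with N hN
    rw [ver_tr]
    push_cast at hN
    have e1 : c₀ * (m : ℝ) ^ 6 * N ^ 6 = c₀ * (m * N) ^ 6 := by ring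
    have e2 : C₃ * (m : ℝ) ^ 5 * N ^ 5 = C₃ * (m * N) ^ 5 := by ring
    rw [e1, e2]
    exact hN

theorem ver_equivariant {χ : Filt T q D₀ r} (h : χ.Equivariant) (m : ℕ) :
    (χ.ver m).Equivariant := fun g h' hg hh N l f hf => h g h' hg hh (m * N) l f hf

/-- coefficients bound the weights. -/
theorem nn_le_of (χ : Filt T q D₀ r) {A B : ℝ} {N : ℕ} {j : ℤ} {a b : ℕ}
    (hin : InR (r * q) N j a b)
    (h : ∀ (l : ℤ), ∀ f ∈ χ.F N l, ∀ e, f.coeff e ≠ 0 → (l : ℝ) ≤ A * N + B * jr e)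
    (h0 : χ.graded.W N (χ.graded.nn N j a b) j a b ≠ ⊥) :
    (χ.graded.nn N j a b : ℝ) ≤ (A + χ.lam) * N + B * j := by
  obtain ⟨c, hc, hc0⟩ := (Submodule.ne_bot_iff _).1 h0
  obtain ⟨f, hf, _, hfc⟩ := mem_ini.1 hc
  have h1 := h _ f hf _ (by rw [hfc]; exact hc0)
  have h2 : jr (expo (r * q) N j a b) = j := jr_of (q := r * q) (N := N)
    (expo_sum_x hin) (expo_sum_y hin)
  rw [h2] at h1
  push_cast at h1
  linarith

theorem le_nn_of (χ : Filt T q D₀ r) {N : ℕ} {j : ℤ} {a b : ℕ} {l : ℤ} {c : K} (hc : c ≠ 0)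
    (h : monomial (expo (r * q) N j a b) c ∈ χ.F N l) :
    (l : ℝ) + χ.lam * N ≤ χ.graded.nn N j a b := by
  classical
  by_cases h0 : 0 ≤ l + χ.lam * N
  · obtain ⟨l', hl'⟩ := Int.eq_ofNat_of_zero_le h0
    have h1 : χ.graded.W N l' j a b ≠ ⊥ := by
      rw [Submodule.ne_bot_iff]
      refine ⟨c, ?_, hc⟩
      show c ∈ ini _ (χ.F N ((l' : ℤ) - χ.lam * N)) _
      rw [mem_ini]
      refine ⟨monomial (expo (r * q) N j a b) c, ?_, ?_, ?_⟩
      · have : (l' : ℤ) - χ.lam * N = l := by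
          have h2 : l + χ.lam * N = (l' : ℤ) := hl'
          linarith
        rw [this]
        exact h
      · intro e' he'
        rw [coeff_monomial] at he'
        by_cases h3 : expo (r * q) N j a b = e'
        · rw [h3]
        · rw [if_neg h3] at he'
          exact (he' rfl).elim
      · rw [coeff_monomial, if_pos rfl]
    have h2 := Graded.le_nn (G := χ.graded) h1
    have h3 : (l' : ℝ) ≤ χ.graded.nn N j a b := by exact_mod_cast h2
    have h4 : (l : ℝ) + χ.lam * N = l' := by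
      have h5 : l + χ.lam * N = (l' : ℤ) := hl'
      exact_mod_cast h5
    linarith
  · push Not at h0
    have h1 : (l : ℝ) + χ.lam * N < 0 := by exact_mod_cast h0
    have h2 : (0 : ℝ) ≤ χ.graded.nn N j a b := by positivity
    linarith

end Filt

end Pool.Agent.YTD
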