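import Pool.Agent.YTD.Affine

/-!
Coefficient spaces of equivariant filtrations.
-/

namespace Pool.Agent.YTD

open Finset Module MvPolynomial Filter

variable {K : Type} [Field K] [Algebra ℂ K]
variable {T : Datum K} {q : ℕ} {D₀ : T.X.Pt →₀ ℤ} {r : ℕ}

theorem inR0 {q N : ℕ} {j : ℤ} (h : |j| ≤ 5 * q * N) : InR q N j 0 0 := by
  rw [inR_iff h]
  exact ⟨Nat.zero_le _, Nat.zero_le _⟩

theorem range_add {q N N' : ℕ} {j j' : ℤ} (h : |j| ≤ 5 * q * N) (h' : |j'| ≤ 5 * q * N') :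
    |j + j'| ≤ 5 * q * ((N + N' : ℕ) : ℤ) := by
  push_cast
  calc |j + j'| ≤ |j| + |j'| := abs_add_le _ _
    _ ≤ _ := by linarith

theorem range_mul {q N : ℕ} {j : ℤ} (h : |j| ≤ 5 * q * N) (m : ℕ) :
    |j * m| ≤ 5 * q * ((N * m : ℕ) : ℤ) := by
  push_cast
  rw [abs_mul, abs_of_nonneg (by positivity : (0 : ℤ) ≤ m)]
  nlinarith [mul_le_mul_of_nonneg_right h (by positivity : (0 : ℤ) ≤ m)]

theorem exists_exp_of {q N : ℕ} {j : ℤ} (h : |j| ≤ 5 * q * N) : ∃ a b : ℕ,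
    (a : ℤ) = 25 * q * N + 3 * j ∧ (b : ℤ) = 25 * q * N - 3 * j :=
  ⟨AA q N j, BB q N j, AA_cast h, BB_cast h⟩

namespace Filt

variable (χ : Filt T q D₀ r)

/-- coefficient spaces. -/
noncomputable def Wc (N : ℕ) (l : ℤ) (j : ℤ) : Submodule ℂ K :=
  (χ.F N l).comap (Datum.monoLin (expo (r * q) N j 0 0))

theorem mem_Wc {N : ℕ} {l j : ℤ} {c : K} :
    c ∈ χ.Wc N l j ↔ monomial (expo (r * q) N j 0 0) c ∈ χ.F N l := Iff.rfl

theorem Wc_mul {N N' : ℕ} {l l' j j' : ℤ} (hj : |j| ≤ 5 * (r * q : ℕ) * N)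
    (hj' : |j'| ≤ 5 * (r * q : ℕ) * N') {c c' : K} (hc : c ∈ χ.Wc N l j)
    (hc' : c' ∈ χ.Wc N' l' j') : c * c' ∈ χ.Wc (N + N') (l + l') (j + j') := by
  rw [mem_Wc] at *
  have h := expo_add (inR0 hj) (inR0 hj')
  rw [Nat.add_zero] at h
  rw [← h, ← monomial_mul]
  exact χ.mul _ _ _ _ _ hc _ hc'

theorem Wc_pow {N : ℕ} {l j : ℤ} (hj : |j| ≤ 5 * (r * q : ℕ) * N)
    {c : K} (hc : c ∈ χ.Wc N l j) {m : ℕ} (hm : 0 < m) :
    c ^ m ∈ χ.Wc (N * m) (l * m) (j * m) := by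
  induction m with
  | zero => exact (lt_irrefl _ hm).elim
  | succ m ih =>
    rcases Nat.eq_zero_or_pos m with rfl | hm
    · simpa using hc
    · have := χ.Wc_mul (range_mul hj m) hj (ih hm) hc
      rw [pow_succ, Nat.mul_succ]
      push_cast
      rw [mul_add, mul_one, mul_add, mul_one]
      exact this

theorem Wc_anti {N : ℕ} {l l' j : ℤ} (h : l ≤ l') : χ.Wc N l' j ≤ χ.Wc N l j :=
  fun _ hc => χ.anti N l l' h hc

theorem Wc_le {N : ℕ} {l j : ℤ} (hj : |j| ≤ 5 * (r * q : ℕ) * N) :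
    χ.Wc N l j ≤ T.V (r * q) (r • D₀) N j := by
  intro c hc
  have h1 := χ.le N l hc
  rw [← T.sec_mul] at h1
  have h2 := T.coeff_mem_V h1 (inR0 hj)
  rwa [Datum.monoLin_apply, coeff_monomial, if_pos rfl] at h2

theorem V_le_Wc {N : ℕ} {j : ℤ} (hj : |j| ≤ 5 * (r * q : ℕ) * N) :
    T.V (r * q) (r • D₀) N j ≤ χ.Wc N (-(χ.lam * N)) j := by
  intro c hc
  rw [mem_Wc, (χ.lam_spec N).1, ← T.sec_mul]
  exact T.monomial_mem_sec (inR0 hj) hc

variable {χ}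

theorem Equivariant.stable (hχ : χ.Equivariant) (N : ℕ) (l : ℤ) : Stable (χ.F N l) :=
  fun g h hg hh f hf => hχ g h hg hh N l f hf

theorem Equivariant.coeff_mem (hχ : χ.Equivariant) {N : ℕ} {l : ℤ} {f : MvPolynomial (Fin 4) K}
    (hf : f ∈ χ.F N l) {e : Fin 4 →₀ ℕ} {j : ℤ} (hj : |j| ≤ 5 * (r * q : ℕ) * N)
    (hx : (e 0 : ℤ) + e 1 = 25 * (r * q : ℕ) * N + 3 * j)
    (hy : (e 2 : ℤ) + e 3 = 25 * (r * q : ℕ) * N - 3 * j) : f.coeff e ∈ χ.Wc N l j := by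
  rw [mem_Wc]
  have h1 := (hχ.stable N l).mono hf e
  refine (hχ.stable N l).all h1 ?_ ?_
  · have := expo_sum_x (inR0 hj)
    zify
    rw [this, hx]
  · have := expo_sum_y (inR0 hj)
    zify
    rw [this, hy]

theorem Equivariant.mem_of_Wc (hχ : χ.Equivariant) {N : ℕ} {l : ℤ} {c : K} {e : Fin 4 →₀ ℕ} {j : ℤ}
    (hj : |j| ≤ 5 * (r * q : ℕ) * N) (hc : c ∈ χ.Wc N l j)
    (hx : (e 0 : ℤ) + e 1 = 25 * (r * q : ℕ) * N + 3 * j)
    (hy : (e 2 : ℤ) + e 3 = 25 * (r * q : ℕ) * N - 3 * j) : monomial e c ∈ χ.F N l := by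
  rw [mem_Wc] at hc
  refine (hχ.stable N l).all hc ?_ ?_
  · have := expo_sum_x (inR0 hj)
    zify
    rw [this, hx]
  · have := expo_sum_y (inR0 hj)
    zify
    rw [this, hy]

theorem Equivariant.graded_W (hχ : χ.Equivariant) {N : ℕ} {l : ℕ} {j : ℤ} {a b : ℕ}
    (h : InR (r * q) N j a b) :
    χ.graded.W N l j a b = χ.Wc N ((l : ℤ) - χ.lam * N) j := by
  apply le_antisymm
  · intro c hc
    obtain ⟨f, hf, _, rfl⟩ := mem_ini.1 hc
    exact hχ.coeff_mem hf h.1 (expo_sum_x h) (expo_sum_y h)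
  · intro c hc
    have h1 := hχ.mem_of_Wc h.1 hc (expo_sum_x h) (expo_sum_y h)
    show c ∈ ini _ (χ.F N ((l : ℤ) - χ.lam * N)) _
    rw [mem_ini]
    classical
    refine ⟨_, h1, ?_, ?_⟩
    · intro e' he'
      rw [coeff_monomial] at he'
      by_cases h3 : expo (r * q) N j a b = e'
      · rw [h3]
      · rw [if_neg h3] at he'
        exact (he' rfl).elim
    · rw [coeff_monomial, if_pos rfl]

/-- a filtration is recovered from its coefficient spaces. -/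
theorem Equivariant.mem_iff (hχ : χ.Equivariant) {N : ℕ} {l : ℤ} {f : MvPolynomial (Fin 4) K} :
    f ∈ χ.F N l ↔ f ∈ T.sec q D₀ (r * N) ∧ ∀ (e : Fin 4 →₀ ℕ) (j : ℤ), f.coeff e ≠ 0 →
      (e 0 : ℤ) + e 1 = 25 * (r * q : ℕ) * N + 3 * j → f.coeff e ∈ χ.Wc N l j := by
  constructor
  · intro hf
    refine ⟨χ.le N l hf, ?_⟩
    intro e j he hx
    obtain ⟨j', h1, h2, h3, _⟩ := χ.index hf he
    have : j' = j := by linarith
    subst this
    exact hχ.coeff_mem hf h1 h2 h3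
  · rintro ⟨hf, h⟩
    rw [f.as_sum]
    refine sum_mem fun e he => ?_
    have he' := MvPolynomial.mem_support_iff.1 he
    rw [← T.sec_mul] at hf
    obtain ⟨j, h1, h2, h3, _⟩ := hf e he'
    exact hχ.mem_of_Wc h1 (h e j he' h2) h2 h3

end Filt

/-- bound of the mobile degree through one point. -/
theorem CurveOrd.mdeg_add_le {X : CurveOrd K} {W : Submodule ℂ K} {E : X.Pt →₀ ℤ} (hW : W ≤ X.L E)
    (hne : W ≠ ⊥) (P : X.Pt) {v : ℤ} (h : ∀ c ∈ W, c ≠ 0 → v - E P ≤ X.ord P c) :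
    X.mdeg W + v ≤ X.deg E := by
  classical
  have h1 : X.deg (X.mdiv W) ≤ X.deg (E - Finsupp.single P v) := by
    apply X.deg_mono
    intro P'
    rw [Finsupp.sub_apply, Finsupp.single_apply]
    by_cases hP : P = P'
    · subst hP
      rw [if_pos rfl, X.mdiv_apply hW hne]
      obtain ⟨c, hc, hc0, hco⟩ := X.exists_bord hW hne P
      have := h c hc hc0
      rw [hco] at this
      linarith
    · rw [if_neg hP, sub_zero]
      exact X.mdiv_le hW hne P'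
  rw [X.deg_sub, X.deg_single] at h1
  unfold CurveOrd.mdeg
  linarith

end Pool.Agent.YTD
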