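import Pool.Agent.YTD.GenPoint
import Pool.Agent.YTD.Gam

/-!
Evaluation of bihomogeneous polynomials at pairs of points with complex coordinates, and
coordinates adapted to the Klein four group.
-/

namespace Pool.Agent.YTD

open Finset Module MvPolynomial

variable {K : Type} [Field K] [Algebra ℂ K]

/-- evaluation at a pair of vectors with complex coordinates -/
noncomputable def evp (ξ η : Fin 2 → ℂ) : MvPolynomial (Fin 4) K →ₐ[K] K :=
  aeval ![algebraMap ℂ K (ξ 0), algebraMap ℂ K (ξ 1), algebraMap ℂ K (η 0), algebraMap ℂ K (η 1)]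

theorem evp_monomial (ξ η : Fin 2 → ℂ) (e : Fin 4 →₀ ℕ) (c : K) :
    evp ξ η (monomial e c) =
      c * algebraMap ℂ K (ξ 0 ^ e 0 * ξ 1 ^ e 1 * (η 0 ^ e 2 * η 1 ^ e 3)) := by
  unfold evp
  rw [aeval_monomial, Finsupp.prod_fintype _ _ (fun i => pow_zero _), Fin.prod_univ_four]
  simp only [map_mul, map_pow]
  show c * (algebraMap ℂ K (ξ 0) ^ e 0 * algebraMap ℂ K (ξ 1) ^ e 1 *
    algebraMap ℂ K (η 0) ^ e 2 * algebraMap ℂ K (η 1) ^ e 3) = _
  ring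

theorem evp_eq (ξ η : Fin 2 → ℂ) (f : MvPolynomial (Fin 4) K) :
    evp ξ η f = ∑ e ∈ f.support, f.coeff e *
      algebraMap ℂ K (ξ 0 ^ e 0 * ξ 1 ^ e 1 * (η 0 ^ e 2 * η 1 ^ e 3)) := by
  conv_lhs => rw [f.as_sum]
  rw [map_sum]
  exact sum_congr rfl fun e _ => evp_monomial ξ η e _

theorem evp_subst (g h : Matrix (Fin 2) (Fin 2) ℂ) (ξ η : Fin 2 → ℂ)
    (f : MvPolynomial (Fin 4) K) :
    evp ξ η (subst g h f) = evp (g.mulVec ξ) (h.mulVec η) f := by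
  have key : (evp (K := K) ξ η).comp (subst g h) = evp (g.mulVec ξ) (h.mulVec η) := by
    apply MvPolynomial.algHom_ext
    intro i
    have hs : ∀ (x : ℂ) (p : MvPolynomial (Fin 4) K), evp ξ η (x • p) = x • evp ξ η p := by
      intro x p
      exact ((evp (K := K) ξ η).toLinearMap.restrictScalars ℂ).map_smul x p
    have hi : i = 0 ∨ i = 1 ∨ i = 2 ∨ i = 3 := by
      fin_cases i <;> simp
    rw [AlgHom.comp_apply]
    rcases hi with rfl | rfl | rfl | rfl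
    · rw [subst_X0, map_add, hs, hs]
      unfold evp
      rw [aeval_X, aeval_X, aeval_X]
      show g 0 0 • algebraMap ℂ K (ξ 0) + g 0 1 • algebraMap ℂ K (ξ 1) =
        algebraMap ℂ K ((g.mulVec ξ) 0)
      rw [Algebra.smul_def, Algebra.smul_def, ← map_mul, ← map_mul, ← map_add]
      simp [Matrix.mulVec, dotProduct, Fin.sum_univ_two]
    · rw [subst_X1, map_add, hs, hs]
      unfold evp
      rw [aeval_X, aeval_X, aeval_X]
      show g 1 0 • algebraMap ℂ K (ξ 0) + g 1 1 • algebraMap ℂ K (ξ 1) =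
        algebraMap ℂ K ((g.mulVec ξ) 1)
      rw [Algebra.smul_def, Algebra.smul_def, ← map_mul, ← map_mul, ← map_add]
      simp [Matrix.mulVec, dotProduct, Fin.sum_univ_two]
    · rw [subst_X2, map_add, hs, hs]
      unfold evp
      rw [aeval_X, aeval_X, aeval_X]
      show h 0 0 • algebraMap ℂ K (η 0) + h 0 1 • algebraMap ℂ K (η 1) =
        algebraMap ℂ K ((h.mulVec η) 0)
      rw [Algebra.smul_def, Algebra.smul_def, ← map_mul, ← map_mul, ← map_add]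
      simp [Matrix.mulVec, dotProduct, Fin.sum_univ_two]
    · rw [subst_X3, map_add, hs, hs]
      unfold evp
      rw [aeval_X, aeval_X, aeval_X]
      show h 1 0 • algebraMap ℂ K (η 0) + h 1 1 • algebraMap ℂ K (η 1) =
        algebraMap ℂ K ((h.mulVec η) 1)
      rw [Algebra.smul_def, Algebra.smul_def, ← map_mul, ← map_mul, ← map_add]
      simp [Matrix.mulVec, dotProduct, Fin.sum_univ_two]
  exact congrArg (fun φ : MvPolynomial (Fin 4) K →ₐ[K] K => φ f) key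

/-- if the value is not zero, some monomial does not vanish. -/
theorem exists_of_evp_ne {ξ η : Fin 2 → ℂ} {f : MvPolynomial (Fin 4) K} (h : evp ξ η f ≠ 0) :
    ∃ e, f.coeff e ≠ 0 ∧ (ξ 0 = 0 → e 0 = 0) ∧ (η 0 = 0 → e 2 = 0) := by
  rw [evp_eq] at h
  obtain ⟨e, _, he⟩ := exists_ne_zero_of_sum_ne_zero h
  refine ⟨e, left_ne_zero_of_mul he, ?_, ?_⟩
  · intro h0
    by_contra h1
    apply right_ne_zero_of_mul he
    rw [h0, zero_pow h1]
    simp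
  · intro h0
    by_contra h1
    apply right_ne_zero_of_mul he
    rw [h0, zero_pow h1]
    simp

/-- the value at the coordinate points of a bihomogeneous polynomial -/
theorem evp_coord {A B : ℕ} {f : MvPolynomial (Fin 4) K} (hf : f ∈ bih A B (⊤ : Submodule ℂ K))
    {e : Fin 4 →₀ ℕ} (h0 : e 0 = 0) (h1 : e 1 = A) (h2 : e 2 = 0) (h3 : e 3 = B) :
    evp ![0, 1] ![0, 1] f = f.coeff e := by
  classical
  rw [evp_eq]
  have key : ∀ e' ∈ f.support, e' ≠ e → f.coeff e' * algebraMap ℂ K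
      ((![0, 1] : Fin 2 → ℂ) 0 ^ e' 0 * (![0, 1] : Fin 2 → ℂ) 1 ^ e' 1 *
        ((![0, 1] : Fin 2 → ℂ) 0 ^ e' 2 * (![0, 1] : Fin 2 → ℂ) 1 ^ e' 3)) = 0 := by
    intro e' he' hne
    rw [MvPolynomial.mem_support_iff] at he'
    obtain ⟨g1, g2, _⟩ := hf e' he'
    by_cases k0 : e' 0 = 0
    · by_cases k2 : e' 2 = 0
      · exfalso
        apply hne
        ext i
        have hi : i = 0 ∨ i = 1 ∨ i = 2 ∨ i = 3 := by
          fin_cases i <;> simp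
        rcases hi with rfl | rfl | rfl | rfl <;> omega
      · rw [show (![0, 1] : Fin 2 → ℂ) 0 = 0 from rfl, zero_pow k2]
        simp
    · rw [show (![0, 1] : Fin 2 → ℂ) 0 = 0 from rfl, zero_pow k0]
      simp
  by_cases he : e ∈ f.support
  · rw [sum_eq_single_of_mem e he key, h0, h1, h2, h3]
    simp
  · rw [sum_eq_zero (fun e' he' => key e' he' (by
      rintro rfl
      exact he he')), MvPolynomial.notMem_support_iff.1 he]

/-- a non-zero polynomial does not vanish at some complex point. -/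
theorem exists_evp_ne {f : MvPolynomial (Fin 4) K} (hf : f ≠ 0) :
    ∃ ξ η : Fin 2 → ℂ, ξ 1 ≠ 0 ∧ η 1 ≠ 0 ∧ evp ξ η f ≠ 0 := by
  by_contra hcon
  push Not at hcon
  apply hf
  have hinj : Function.Injective (algebraMap ℂ K) := (algebraMap ℂ K).injective
  apply MvPolynomial.funext_set (fun _ => algebraMap ℂ K '' {x | x ≠ 0})
  · intro _
    apply Set.Infinite.image hinj.injOn
    have : ({x : ℂ | x ≠ 0}) = ({0} : Set ℂ)ᶜ := by
      ext x
      simp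
    rw [this]
    exact (Set.finite_singleton (0 : ℂ)).infinite_compl
  · intro x hx
    rw [map_zero]
    choose y hy using fun i => hx i (Set.mem_univ i)
    have h1 := hcon ![y 0, y 1] ![y 2, y 3] (hy 1).1 (hy 3).1
    have e : x = ![algebraMap ℂ K (y 0), algebraMap ℂ K (y 1), algebraMap ℂ K (y 2),
        algebraMap ℂ K (y 3)] := by
      ext i
      have hi : i = 0 ∨ i = 1 ∨ i = 2 ∨ i = 3 := by
        fin_cases i <;> simp
      rcases hi with rfl | rfl | rfl | rfl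
      · exact (hy 0).2.symm
      · exact (hy 1).2.symm
      · exact (hy 2).2.symm
      · exact (hy 3).2.symm
    rw [e]
    unfold evp at h1
    rw [aeval_eq_eval] at h1
    exact h1

/-- binary forms have zeros -/
theorem exists_root_form (A : ℕ) (hA : 0 < A) (c : ℕ → ℂ) :
    ∃ ξ : Fin 2 → ℂ, ξ ≠ 0 ∧ ∑ i ∈ range (A + 1), c i * (ξ 0 ^ i * ξ 1 ^ (A - i)) = 0 := by
  set p : Polynomial ℂ := ∑ i ∈ range (A + 1), Polynomial.C (c i) * Polynomial.X ^ i with hp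
  by_cases hroot : ∃ t, p.IsRoot t
  · obtain ⟨t, ht⟩ := hroot
    refine ⟨![t, 1], ?_, ?_⟩
    · intro h
      have := congrFun h 1
      simp at this
    · rw [Polynomial.IsRoot, hp, Polynomial.eval_finsetSum] at ht
      rw [← ht]
      apply sum_congr rfl
      intro i _
      simp
  · have hdeg : p.degree = 0 := by
      by_contra h
      exact hroot (IsAlgClosed.exists_root p h)
    refine ⟨![1, 0], ?_, ?_⟩
    · intro h
      have := congrFun h 0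
      simp at this
    · have h1 : p.coeff A = 0 := by
        apply Polynomial.coeff_eq_zero_of_degree_lt
        rw [hdeg]
        exact_mod_cast hA
      rw [hp, Polynomial.finsetSum_coeff] at h1
      simp only [Polynomial.coeff_C_mul, Polynomial.coeff_X_pow] at h1
      refine Eq.trans ?_ h1
      apply sum_congr rfl
      intro i hi
      rw [mem_range] at hi
      rw [show (![1, 0] : Fin 2 → ℂ) 0 = 1 from rfl, show (![1, 0] : Fin 2 → ℂ) 1 = 0 from rfl,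
        one_pow, one_mul]
      by_cases h : A = i
      · rw [if_pos h, h, Nat.sub_self, pow_zero]
      · rw [if_neg h, zero_pow (by omega)]

theorem exists_zero_left {A B : ℕ} (hA : 0 < A) {f : MvPolynomial (Fin 4) ℂ}
    (hf : f ∈ bih A B (⊤ : Submodule ℂ ℂ)) (η : Fin 2 → ℂ) :
    ∃ ξ : Fin 2 → ℂ, ξ ≠ 0 ∧ evp ξ η f = 0 := by
  classical
  obtain ⟨ξ, h1, h2⟩ := exists_root_form A hA
    (fun i => ∑ e ∈ f.support with e 0 = i, f.coeff e * (η 0 ^ e 2 * η 1 ^ e 3))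
  refine ⟨ξ, h1, ?_⟩
  rw [evp_eq, ← h2, ← sum_fiberwise_of_maps_to (s := f.support) (t := range (A + 1))
    (g := fun e => e 0) (by
      intro e he
      rw [MvPolynomial.mem_support_iff] at he
      obtain ⟨g1, _, _⟩ := hf e he
      rw [mem_range]
      omega)]
  apply sum_congr rfl
  intro i _
  rw [sum_mul]
  apply sum_congr rfl
  intro e he
  obtain ⟨he, hei⟩ := mem_filter.1 he
  rw [MvPolynomial.mem_support_iff] at he
  obtain ⟨g1, _, _⟩ := hf e he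
  have e1 : e 1 = A - i := by omega
  rw [hei, e1]
  simp only [Algebra.algebraMap_self, RingHom.id_apply]
  ring

theorem exists_zero_right {A B : ℕ} (hB : 0 < B) {f : MvPolynomial (Fin 4) ℂ}
    (hf : f ∈ bih A B (⊤ : Submodule ℂ ℂ)) (ξ : Fin 2 → ℂ) :
    ∃ η : Fin 2 → ℂ, η ≠ 0 ∧ evp ξ η f = 0 := by
  classical
  obtain ⟨η, h1, h2⟩ := exists_root_form B hB
    (fun i => ∑ e ∈ f.support with e 2 = i, f.coeff e * (ξ 0 ^ e 0 * ξ 1 ^ e 1))
  refine ⟨η, h1, ?_⟩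
  rw [evp_eq, ← h2, ← sum_fiberwise_of_maps_to (s := f.support) (t := range (B + 1))
    (g := fun e => e 2) (by
      intro e he
      rw [MvPolynomial.mem_support_iff] at he
      obtain ⟨_, g1, _⟩ := hf e he
      rw [mem_range]
      omega)]
  apply sum_congr rfl
  intro i _
  rw [sum_mul]
  apply sum_congr rfl
  intro e he
  obtain ⟨he, hei⟩ := mem_filter.1 he
  rw [MvPolynomial.mem_support_iff] at he
  obtain ⟨_, g1, _⟩ := hf e he
  have e1 : e 3 = B - i := by omega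
  rw [hei, e1]
  simp only [Algebra.algebraMap_self, RingHom.id_apply]
  ring

/-! ### Adapted coordinates -/

/-- the matrix with columns `s ξ` and `ξ` -/
def flagM (s : Matrix (Fin 2) (Fin 2) ℂ) (ξ : Fin 2 → ℂ) : Matrix (Fin 2) (Fin 2) ℂ :=
  !![s 0 0 * ξ 0 + s 0 1 * ξ 1, ξ 0; s 1 0 * ξ 0 + s 1 1 * ξ 1, ξ 1]

theorem flagM_mulVec (s : Matrix (Fin 2) (Fin 2) ℂ) (ξ : Fin 2 → ℂ) :
    (flagM s ξ).mulVec ![0, 1] = ξ := by
  ext i
  fin_cases i <;> simp [flagM, Matrix.mulVec, dotProduct, Fin.sum_univ_two]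

/-- the three involutions -/
def IsV (s : Matrix (Fin 2) (Fin 2) ℂ) (ε : ℂ) : Prop :=
  (s = s1 ∧ ε = 1) ∨ (s = s2 ∧ ε = 1) ∨ (s = s2 * s1 ∧ ε = -1)

theorem IsV.ne {s : Matrix (Fin 2) (Fin 2) ℂ} {ε : ℂ} (h : IsV s ε) : ε ≠ 0 := by
  rcases h with ⟨_, rfl⟩ | ⟨_, rfl⟩ | ⟨_, rfl⟩ <;> norm_num

theorem flagM_mul {s : Matrix (Fin 2) (Fin 2) ℂ} {ε : ℂ} (h : IsV s ε) (ξ : Fin 2 → ℂ) :
    flagM s ξ * !![0, 1; ε, 0] = s * flagM s ξ := by
  rcases h with ⟨rfl, rfl⟩ | ⟨rfl, rfl⟩ | ⟨rfl, rfl⟩ <;> ext i j <;> fin_cases i <;>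
    fin_cases j <;> simp [flagM, s1, s2, Matrix.mul_apply, Fin.sum_univ_two]

theorem exists_IsV {ξ η : Fin 2 → ℂ} (hξ : ξ ≠ 0) (hη : η ≠ 0) :
    ∃ s ε, IsV s ε ∧ IsUnit (flagM s ξ) ∧ IsUnit (flagM s η) := by
  have h1 : ∀ ζ : Fin 2 → ℂ, IsUnit (flagM s1 ζ) ↔ ζ 0 * ζ 1 ≠ 0 := by
    intro ζ
    rw [Matrix.isUnit_iff_isUnit_det, flagM, Matrix.det_fin_two_of, isUnit_iff_ne_zero]
    have : (s1 0 0 * ζ 0 + s1 0 1 * ζ 1) * ζ 1 - ζ 0 * (s1 1 0 * ζ 0 + s1 1 1 * ζ 1) =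
        2 * (ζ 0 * ζ 1) := by
      simp [s1]
      ring
    rw [this]
    simp
  have h2 : ∀ ζ : Fin 2 → ℂ, IsUnit (flagM s2 ζ) ↔ ζ 1 ^ 2 - ζ 0 ^ 2 ≠ 0 := by
    intro ζ
    rw [Matrix.isUnit_iff_isUnit_det, flagM, Matrix.det_fin_two_of, isUnit_iff_ne_zero]
    have : (s2 0 0 * ζ 0 + s2 0 1 * ζ 1) * ζ 1 - ζ 0 * (s2 1 0 * ζ 0 + s2 1 1 * ζ 1) =
        ζ 1 ^ 2 - ζ 0 ^ 2 := by
      simp [s2]
      ring
    rw [this]
  have h3 : ∀ ζ : Fin 2 → ℂ, IsUnit (flagM (s2 * s1) ζ) ↔ ζ 1 ^ 2 + ζ 0 ^ 2 ≠ 0 := by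
    intro ζ
    rw [Matrix.isUnit_iff_isUnit_det, flagM, Matrix.det_fin_two_of, isUnit_iff_ne_zero]
    have : ((s2 * s1) 0 0 * ζ 0 + (s2 * s1) 0 1 * ζ 1) * ζ 1 -
        ζ 0 * ((s2 * s1) 1 0 * ζ 0 + (s2 * s1) 1 1 * ζ 1) = -(ζ 1 ^ 2 + ζ 0 ^ 2) := by
      simp [s1, s2, Matrix.mul_apply, Fin.sum_univ_two]
      ring
    rw [this, neg_ne_zero]
  -- at most one of the three fails
  have hz : ∀ ζ : Fin 2 → ℂ, ζ 0 = 0 → ζ 1 = 0 → ζ = 0 := by
    intro ζ g0 g1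
    ext i
    fin_cases i
    · exact g0
    · exact g1
  have k12 : ∀ ζ : Fin 2 → ℂ, ζ ≠ 0 → ζ 0 * ζ 1 = 0 → ζ 1 ^ 2 - ζ 0 ^ 2 ≠ 0 := by
    intro ζ hζ g1 g2
    apply hζ
    rcases mul_eq_zero.1 g1 with g | g
    · rw [g] at g2
      have : ζ 1 ^ 2 = 0 := by linear_combination g2
      exact hz ζ g (pow_eq_zero_iff (by norm_num) |>.1 this)
    · rw [g] at g2
      have : ζ 0 ^ 2 = 0 := by linear_combination -g2
      exact hz ζ (pow_eq_zero_iff (by norm_num) |>.1 this) g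
  have k13 : ∀ ζ : Fin 2 → ℂ, ζ ≠ 0 → ζ 0 * ζ 1 = 0 → ζ 1 ^ 2 + ζ 0 ^ 2 ≠ 0 := by
    intro ζ hζ g1 g2
    apply hζ
    rcases mul_eq_zero.1 g1 with g | g
    · rw [g] at g2
      have : ζ 1 ^ 2 = 0 := by linear_combination g2
      exact hz ζ g (pow_eq_zero_iff (by norm_num) |>.1 this)
    · rw [g] at g2
      have : ζ 0 ^ 2 = 0 := by linear_combination g2
      exact hz ζ (pow_eq_zero_iff (by norm_num) |>.1 this) g
  have k23 : ∀ ζ : Fin 2 → ℂ, ζ ≠ 0 → ζ 1 ^ 2 - ζ 0 ^ 2 = 0 → ζ 1 ^ 2 + ζ 0 ^ 2 ≠ 0 := by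
    intro ζ hζ g1 g2
    apply hζ
    have e0 : ζ 0 ^ 2 = 0 := by linear_combination (g2 - g1) / 2
    have e1 : ζ 1 ^ 2 = 0 := by linear_combination (g2 + g1) / 2
    exact hz ζ (pow_eq_zero_iff (by norm_num) |>.1 e0) (pow_eq_zero_iff (by norm_num) |>.1 e1)
  by_cases a1 : ξ 0 * ξ 1 = 0
  · by_cases b2 : η 1 ^ 2 - η 0 ^ 2 = 0
    · exact ⟨_, _, Or.inr (Or.inr ⟨rfl, rfl⟩), (h3 ξ).2 (k13 ξ hξ a1), (h3 η).2 (k23 η hη b2)⟩
    · exact ⟨_, _, Or.inr (Or.inl ⟨rfl, rfl⟩), (h2 ξ).2 (k12 ξ hξ a1), (h2 η).2 b2⟩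
  · by_cases b1 : η 0 * η 1 = 0
    · by_cases a2 : ξ 1 ^ 2 - ξ 0 ^ 2 = 0
      · exact ⟨_, _, Or.inr (Or.inr ⟨rfl, rfl⟩), (h3 ξ).2 (k23 ξ hξ a2), (h3 η).2 (k13 η hη b1)⟩
      · exact ⟨_, _, Or.inr (Or.inl ⟨rfl, rfl⟩), (h2 ξ).2 a2, (h2 η).2 (k12 η hη b1)⟩
    · exact ⟨_, _, Or.inl ⟨rfl, rfl⟩, (h1 ξ).2 a1, (h1 η).2 b1⟩

variable {T : Datum K} {q : ℕ} {D₀ : T.X.Pt →₀ ℤ} {r : ℕ}

/-- The filtration is invariant under the Klein four group, acting also on the coefficients. -/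
def Filt.VInv (χ : Filt T q D₀ r) : Prop :=
  ∀ (s : Matrix (Fin 2) (Fin 2) ℂ) (ε : ℂ), IsV s ε → ∃ θ : K ≃ₐ[ℂ] K,
    ∀ N l, ∀ f ∈ χ.F N l, MvPolynomial.map (θ : K →+* K) (subst s s f) ∈ χ.F N l

theorem Filt.GamInv.vInv {χ : Filt T q D₀ r} {γ : Gam T} (h : χ.GamInv γ) : χ.VInv := by
  intro s ε hs
  rcases hs with ⟨rfl, _⟩ | ⟨rfl, _⟩ | ⟨rfl, _⟩
  · exact ⟨γ.θ₁, fun N l f hf => h.E₁ N l f hf⟩
  · exact ⟨γ.θ₂, fun N l f hf => h.E₂ N l f hf⟩
  · refine ⟨γ.θ₂.trans γ.θ₁, fun N l f hf => ?_⟩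
    have h1 := h.E₁ N l _ (h.E₂ N l f hf)
    rw [γ.E₁_eq, γ.E₂_apply, MvPolynomial.map_map] at h1
    have h2 : subst s1 s1 (MvPolynomial.map ((γ.θ₁ : K →+* K).comp (γ.θ₂ : K →+* K))
        (subst s2 s2 f)) = MvPolynomial.map (((γ.θ₂.trans γ.θ₁ : K ≃ₐ[ℂ] K)) : K →+* K)
          (subst s1 s1 (subst s2 s2 f)) :=
      (coefE_subst (γ.θ₂.trans γ.θ₁) s1 s1 (subst s2 s2 f)).symm
    rw [h2, subst_subst] at h1
    exact h1

/-- In adapted coordinates the involution becomes antidiagonal. -/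
theorem Filt.anti_stable {χ : Filt T q D₀ r} {s : Matrix (Fin 2) (Fin 2) ℂ} {ε : ℂ}
    (hs : IsV s ε) {θ : K ≃ₐ[ℂ] K}
    (hχ : ∀ N l, ∀ f ∈ χ.F N l, MvPolynomial.map (θ : K →+* K) (subst s s f) ∈ χ.F N l)
    (ξ η : Fin 2 → ℂ) (hg : IsUnit (flagM s ξ)) (hh : IsUnit (flagM s η)) :
    ∀ N l, ∀ f ∈ (χ.tw (substE K (flagM s ξ) (flagM s η) hg hh) (pres_substE hg hh)).F N l,
      MvPolynomial.map (θ : K →+* K) (subst !![0, 1; ε, 0] !![0, 1; ε, 0] f) ∈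
        (χ.tw (substE K (flagM s ξ) (flagM s η) hg hh) (pres_substE hg hh)).F N l := by
  rintro N l _ ⟨f, hf, rfl⟩
  have e1 : (substE K (flagM s ξ) (flagM s η) hg hh).toLinearMap f =
      subst (flagM s ξ) (flagM s η) f := rfl
  rw [e1, subst_subst, flagM_mul hs, flagM_mul hs, ← subst_subst]
  have e2 := coefE_subst θ (flagM s ξ) (flagM s η) (subst s s f)
  rw [coefE_apply, coefE_apply] at e2
  rw [e2]
  exact ⟨_, hχ N l f hf, rfl⟩

end Pool.Agent.YTD
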